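import Pool.Agent.Lib.MP_f80667_ag.Cv.Pi
import Pool.Agent.Lib.MP_f80667_ag.Be.TrH
import Pool.Agent.Lib.MP_f80667_ag.Be.PlX

/-!
Traces for arbitrary varieties. `Fct V`: the maps of points are functorial and the reduction is compatible with the
automorphisms of the residue field `Ω`. `vact`: the action of the Galois group on the points. `tr_ratEqV`: the trace of a
cycle rationally equivalent to `0` over `M` is rationally equivalent to `0` over `K`. `dvG_tr`: descent of divisibility from
an extension of degree prime to `m`.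
-/

open ZC BE Polynomial IntermediateField

namespace CV

section funf

variable {K M E : Type} [Field K] [Field M] [Field E] [Algebra K M] [Algebra M E] [Algebra K E]
  [IsScalarTower K M E] [FiniteDimensional K M]

/-- A function field over a finite extension. -/
theorem tfun (hE : IsFunField M E) : IsFunField K E := by
  obtain ⟨t, ht, hfin⟩ := hE
  refine ⟨t, fun h => ht (h.tower_top M), ?_⟩
  set K0 := IntermediateField.adjoin K {t} with hK0
  let b := Module.finBasis K M
  let S : Set E := Set.range (fun i => algebraMap M E (b i))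
  have hfin0 : FiniteDimensional K0 (IntermediateField.adjoin K0 S) := by
    have : Finite S := Set.finite_range _
    apply IntermediateField.finiteDimensional_adjoin
    rintro _ ⟨i, rfl⟩
    have h1 : IsIntegral K (b i) := IsIntegral.of_finite K (b i)
    have h2 : IsIntegral K (algebraMap M E (b i)) := h1.algebraMap
    exact h2.tower_top
  have hM : ∀ a : M, algebraMap M E a ∈ IntermediateField.adjoin K0 S := by
    intro a
    rw [← b.sum_repr a, map_sum]
    refine sum_mem ?_
    intro i _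
    rw [Algebra.smul_def, map_mul]
    refine mul_mem ?_ (IntermediateField.subset_adjoin _ _ ⟨i, rfl⟩)
    rw [← IsScalarTower.algebraMap_apply K M E]
    have : algebraMap K E (b.repr a i) = algebraMap K0 E (algebraMap K K0 (b.repr a i)) := by
      rw [← IsScalarTower.algebraMap_apply K K0 E]
    rw [this]
    exact IntermediateField.algebraMap_mem _ _
  have ht0 : t ∈ IntermediateField.adjoin K0 S := by
    have h1 : t ∈ K0 := IntermediateField.mem_adjoin_simple_self K _
    exact IntermediateField.algebraMap_mem (IntermediateField.adjoin K0 S) (⟨t, h1⟩ : K0)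
  set N := IntermediateField.adjoin K0 S with hN
  have hle : ∀ a ∈ IntermediateField.adjoin M {t}, a ∈ N := by
    have h1 : IntermediateField.adjoin M {t} ≤ N.toSubfield.toIntermediateField hM := by
      rw [IntermediateField.adjoin_le_iff, Set.singleton_subset_iff]
      exact ht0
    exact fun a ha => h1 ha
  have hNE : Module.Finite N E := by
    obtain ⟨T, hT⟩ := hfin.fg_top
    refine ⟨⟨T, ?_⟩⟩
    rw [eq_top_iff]
    intro y _
    have hy : y ∈ Submodule.span (IntermediateField.adjoin M {t}) (T : Set E) := by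
      rw [hT]
      trivial
    induction hy using Submodule.span_induction with
    | mem x hx => exact Submodule.subset_span hx
    | zero => exact zero_mem _
    | add x y _ _ hx hy => exact add_mem (hx trivial) (hy trivial)
    | smul a x _ hx =>
      exact Submodule.smul_mem _ (⟨(a : E), hle a a.2⟩ : N) (hx trivial)
  exact Module.Finite.trans N E

end funf

section tembs

variable {K Ω : Type} [Field K] [Field Ω] [Algebra K Ω] {M : IntermediateField K Ω} {E : Type}
  [Field E] [Algebra M E] [Algebra K E] [IsScalarTower K M E]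

/-- The composite of a place over `M` and an automorphism of `Ω` over `K`. -/
noncomputable def temb (γ : Ω ≃ₐ[K] Ω) (w : Place M E Ω) : Place K E Ω where
  V := w.V
  ne_top := w.ne_top
  mem a := by
    rw [IsScalarTower.algebraMap_apply K M E]
    exact w.mem _
  res := (γ : Ω →+* Ω).comp w.res
  res_k a := by
    have h1 : (⟨algebraMap K E a, by
        rw [IsScalarTower.algebraMap_apply K M E]
        exact w.mem _⟩ : w.V) = ⟨algebraMap M E (algebraMap K M a), w.mem _⟩ :=
      Subtype.ext (IsScalarTower.algebraMap_apply K M E a)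
    change γ (w.res _) = _
    rw [h1, w.res_k]
    exact γ.commutes a
  res_zero x hx := by
    change γ (w.res x) = 0
    rw [w.res_zero x hx, map_zero]

theorem temb_res (γ : Ω ≃ₐ[K] Ω) (w : Place M E Ω) (x : w.V) :
    (temb γ w).res x = γ (w.res x) := rfl

theorem temb_inj {γ γ' : Ω ≃ₐ[K] Ω} {w w' : Place M E Ω}
    (h : temb γ w = temb γ' w') :
    (∀ a ∈ M, γ a = γ' a) ∧ (γ = γ' → w = w') := by
  have hV : w.V = w'.V := congrArg (fun v : Place K E Ω => v.V) h
  have key : ∀ (v v' : Place K E Ω) (h : v = v') (y : E) (h1 : y ∈ v.V) (h2 : y ∈ v'.V),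
      v.res ⟨y, h1⟩ = v'.res ⟨y, h2⟩ := by
    rintro v _ rfl y h1 h2
    rfl
  have hr : ∀ (y : E) (h1 : y ∈ w.V) (h2 : y ∈ w'.V), γ (w.res ⟨y, h1⟩) = γ' (w'.res ⟨y, h2⟩) :=
    fun y h1 h2 => key _ _ h y h1 h2
  refine ⟨fun a ha => ?_, ?_⟩
  · have h1 := hr (algebraMap M E ⟨a, ha⟩) (w.mem _) (w'.mem _)
    rw [w.res_k, w'.res_k] at h1
    exact h1
  · rintro rfl
    exact Place.ext' hV fun x hx hx' => γ.injective (hr x hx hx')

variable [FiniteDimensional K M]

theorem temb_surj (v : Place K E Ω) (γ : Ω ≃ₐ[K] Ω)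
    (hγ : ∀ a : M, γ a = v.emb (M := M) a) : ∃ w : Place M E Ω, temb γ w = v := by
  refine ⟨⟨v.V, v.ne_top, fun a => v.mem_M a, (γ.symm : Ω →+* Ω).comp v.res, fun a => ?_,
    fun x hx => ?_⟩, ?_⟩
  · change γ.symm (v.res _) = _
    rw [← Place.emb_apply, ← hγ, γ.symm_apply_apply]
    rfl
  · change γ.symm (v.res x) = 0
    rw [v.res_zero x hx, map_zero]
  · exact Place.ext' rfl fun x hx hx' => γ.apply_symm_apply _

/-- The places over `K` are the composites of the places over `M` and representatives of the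
classes of automorphisms. -/
theorem temb_bij [IsAlgClosure K Ω] :
    Function.Bijective fun p : ((Ω ≃ₐ[K] Ω) ⧸ M.fixingSubgroup) × Place M E Ω =>
      temb p.1.out p.2 := by
  have hfix : ∀ {γ γ' : Ω ≃ₐ[K] Ω}, (∀ a ∈ M, γ a = γ' a) →
      ((γ : (Ω ≃ₐ[K] Ω) ⧸ M.fixingSubgroup) = γ') := by
    intro γ γ' h
    rw [QuotientGroup.eq]
    rintro ⟨a, ha⟩
    change γ⁻¹ (γ' a) = a
    rw [← h a ha]
    exact γ.symm_apply_apply a
  constructor
  · rintro ⟨q, w⟩ ⟨q', w'⟩ h
    obtain ⟨h1, h2⟩ := temb_inj h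
    have h3 : q = q' := by
      have h4 := hfix h1
      rwa [QuotientGroup.out_eq', QuotientGroup.out_eq'] at h4
    subst h3
    exact Prod.ext rfl (h2 rfl)
  · intro v
    have : Normal K Ω := IsAlgClosure.normal K Ω
    let γ₀ : Ω ≃ₐ[K] Ω := AlgEquiv.ofBijective ((v.emb (M := M)).liftNormal Ω)
      (AlgHom.normal_bijective K Ω Ω _)
    have h0 : ∀ a : M, γ₀ a = v.emb (M := M) a := fun a => by
      exact (v.emb (M := M)).liftNormal_commutes Ω a
    let q : (Ω ≃ₐ[K] Ω) ⧸ M.fixingSubgroup := γ₀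
    have hq : ∀ a : M, q.out a = v.emb (M := M) a := by
      intro a
      have h1 : γ₀⁻¹ * q.out ∈ M.fixingSubgroup := by
        rw [← QuotientGroup.eq, QuotientGroup.out_eq']
      have h2 : γ₀.symm (q.out a) = a := h1 a
      rw [← h0 a]
      conv_rhs => rw [← h2]
      exact (γ₀.apply_symm_apply _).symm
    obtain ⟨w, hw⟩ := temb_surj v q.out hq
    exact ⟨(q, w), hw⟩

end tembs


/-- The maps of points are functorial and the reduction is compatible with automorphisms. -/
structure Fct {F : Type} [Field F] (V : Vr F) : Prop where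
  id : ∀ (L : Type) [Field L] [Algebra F L] (x : V.pt L), V.map (AlgHom.id F L) x = x
  comp : ∀ (L M N : Type) [Field L] [Field M] [Field N] [Algebra F L] [Algebra F M] [Algebra F N]
    (σ : L →ₐ[F] M) (τ : M →ₐ[F] N) (x : V.pt L), V.map (τ.comp σ) x = V.map τ (V.map σ x)
  gal : ∀ (K Ω : Type) [Field K] [Field Ω] [Algebra K Ω] [Algebra F K] [Algebra F Ω]
    [IsScalarTower F K Ω] (M : IntermediateField K Ω) (E : Type) [Field E] [Algebra M E]
    [Algebra K E] [Algebra F E] [IsScalarTower K M E] (γ : Ω ≃ₐ[K] Ω) (w : Place M E Ω)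
    (x : V.pt E) (y : V.pt Ω), V.red w x y → V.red (temb γ w) x (V.act γ y)

section trV

variable {F : Type} [Field F] {V : Vr F} (hV : Fct V) {K : Type} [Field K] [Algebra F K] {Ω : Type}
  [Field Ω] [Algebra K Ω] [Algebra F Ω] [IsScalarTower F K Ω]

include hV in
theorem act_one (x : V.pt Ω) : V.act (1 : Ω ≃ₐ[K] Ω) x = x := hV.id Ω x

include hV in
theorem act_mul (γ δ : Ω ≃ₐ[K] Ω) (x : V.pt Ω) : V.act (γ * δ) x = V.act γ (V.act δ x) :=
  hV.comp Ω Ω Ω (δ.restrictScalars F : Ω →ₐ[F] Ω) (γ.restrictScalars F : Ω →ₐ[F] Ω) x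

variable (K Ω) in
/-- The action of the Galois group on the points. -/
@[reducible] noncomputable def vact : MulAction (Ω ≃ₐ[K] Ω) (V.pt Ω) where
  smul γ x := V.act γ x
  one_smul x := act_one hV x
  mul_smul γ δ x := act_mul hV γ δ x

variable (K) in
/-- The trace of a cycle from `M` to `K`. -/
noncomputable def vtr (M : IntermediateField K Ω) : (V.pt Ω →₀ ℤ) →+ (V.pt Ω →₀ ℤ) :=
  letI := vact hV K Ω
  trG (V.pt Ω) M.fixingSubgroup

/-- The trace of a cycle rationally equivalent to `0`. -/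
theorem tr_ratEqV [CharZero K] [IsAlgClosure K Ω] (M : IntermediateField K Ω)
    [FiniteDimensional K M] {z : V.pt Ω →₀ ℤ} (hz : z ∈ V.ratEq M Ω) :
    vtr hV K M z ∈ V.ratEq K Ω := by
  classical
  let iA := vact hV K Ω
  have hH : M.fixingSubgroup.FiniteIndex := opn_fin _ (opn_fix M)
  let i0 : Fintype ((Ω ≃ₐ[K] Ω) ⧸ M.fixingSubgroup) := Fintype.ofFinite _
  have h : V.ratEq M Ω ≤ (V.ratEq K Ω).comap (trG (V.pt Ω) M.fixingSubgroup) := by
    rw [Vr.ratEq, AddSubgroup.closure_le]
    rintro _ ⟨E, i1, i2, i3, i4, hE, g, x, hg, hx, S, m, y, hS, hv, rfl⟩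
    change trG (V.pt Ω) M.fixingSubgroup _ ∈ V.ratEq K Ω
    let i5 : Algebra K E := ((algebraMap M E).comp (algebraMap K M)).toAlgebra
    have i6 : IsScalarTower K M E := IsScalarTower.of_algebraMap_eq fun _ => rfl
    have i7 : IsScalarTower F K E := by
      refine IsScalarTower.of_algebraMap_eq fun a => ?_
      rw [IsScalarTower.algebraMap_apply F M E, IsScalarTower.algebraMap_apply K M E,
        ← IsScalarTower.algebraMap_apply F K M]
    let e := Equiv.ofBijective _ (temb_bij (K := K) (Ω := Ω) (M := M) (E := E))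
    have he : ∀ p, e p = temb p.1.out p.2 := fun p => rfl
    refine AddSubgroup.subset_closure ⟨E, i1, i5, i3, i7, tfun (M := M) hE, g, x, hg, hx,
      (Finset.univ ×ˢ S).map e.toEmbedding, fun v => m (e.symm v).2,
      fun v => V.act (e.symm v).1.out (y (e.symm v).2), fun v hv' => ?_,
      fun v hv' => ?_, ?_⟩
    · obtain ⟨p, rfl⟩ := e.surjective v
      refine hS p.2 fun hp => hv' ?_
      rw [Finset.mem_map_equiv, e.symm_apply_apply, Finset.mem_product]
      exact ⟨Finset.mem_univ _, hp⟩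
    · obtain ⟨p, rfl⟩ := e.surjective v
      rw [Finset.mem_map_equiv, e.symm_apply_apply, Finset.mem_product] at hv'
      obtain ⟨h1, W, h2, h3, h4⟩ := hv p.2 hv'.2
      dsimp only
      rw [e.symm_apply_apply]
      refine ⟨h1, temb p.1.out W, h2, fun a ha ha' => ?_, hV.gal K Ω M _ _ W _ _ h4⟩
      exact congrArg p.1.out (h3 a ha ha')
    · rw [Finset.sum_map, Finset.sum_product, Finset.sum_comm]
      refine (map_sum (trG (V.pt Ω) M.fixingSubgroup) _ _).trans ?_
      refine Finset.sum_congr rfl fun w _ => ?_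
      rw [trG_apply hH, finsum_eq_sum_of_fintype]
      refine Finset.sum_congr rfl fun q _ => ?_
      dsimp only
      rw [Finsupp.mapDomain_single, Equiv.coe_toEmbedding, e.symm_apply_apply]
      rfl
  exact h hz

theorem cyc_res {M : IntermediateField K Ω} [IsScalarTower F M Ω] {z : V.pt Ω →₀ ℤ}
    (hz : z ∈ V.cyc K Ω) : z ∈ V.cyc M Ω := fun σ => hz (σ.restrictScalars K)

theorem D0_res {M : IntermediateField K Ω} [IsScalarTower F M Ω] {z : V.pt Ω →₀ ℤ}
    (hz : z ∈ V.D0 K Ω) : z ∈ V.D0 M Ω := ⟨cyc_res hz.1, hz.2⟩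

/-- The trace of a cycle over `K`. -/
theorem vtr_res [CharZero K] [IsAlgClosure K Ω] (M : IntermediateField K Ω)
    [FiniteDimensional K M] {z : V.pt Ω →₀ ℤ} (hz : z ∈ V.cyc K Ω) :
    vtr hV K M z = Module.finrank K M • z := by
  classical
  let iA := vact hV K Ω
  have hH : M.fixingSubgroup.FiniteIndex := opn_fin _ (opn_fix M)
  let i0 : Fintype ((Ω ≃ₐ[K] Ω) ⧸ M.fixingSubgroup) := Fintype.ofFinite _
  have hz1 : ∀ σ : Ω ≃ₐ[K] Ω, Finsupp.mapDomain (fun x : V.pt Ω => σ • x) z = z :=
    fun σ => hz σ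
  change trG (V.pt Ω) M.fixingSubgroup z = _
  rw [trG_apply hH, finsum_congr fun q => hz1 _, finsum_eq_sum_of_fintype, Finset.sum_const,
    Finset.card_univ, ← Nat.card_eq_fintype_card,
    IntermediateField.finrank_eq_fixingSubgroup_index Ω M]
  rfl

/-- The trace of a cycle of degree `0` over `M`. -/
theorem vtr_D0 [CharZero K] [IsAlgClosure K Ω] (M : IntermediateField K Ω)
    [FiniteDimensional K M] [IsScalarTower F M Ω] {z : V.pt Ω →₀ ℤ} (hz : z ∈ V.D0 M Ω) :
    vtr hV K M z ∈ V.D0 K Ω := by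
  classical
  let iA := vact hV K Ω
  have hH : M.fixingSubgroup.FiniteIndex := opn_fin _ (opn_fix M)
  let i0 : Fintype ((Ω ≃ₐ[K] Ω) ⧸ M.fixingSubgroup) := Fintype.ofFinite _
  have hinv : ∀ γ ∈ M.fixingSubgroup,
      Finsupp.mapDomain (fun x : V.pt Ω => γ • x) z = z := fun γ hγ =>
    hz.1 (IntermediateField.fixingSubgroupEquiv M ⟨γ, hγ⟩)
  refine ⟨fun σ => smul_trG hH hinv σ, ?_⟩
  have h0 : V.deg Ω z = 0 := hz.2
  change V.deg Ω (trG (V.pt Ω) M.fixingSubgroup z) = 0
  rw [trG_apply hH, finsum_eq_sum_of_fintype, map_sum]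
  refine Finset.sum_eq_zero fun q _ => ?_
  rw [Mo.deg, h0]

/-- The trace commutes with push-forwards. -/
theorem vtr_map [CharZero K] [IsAlgClosure K Ω] (M : IntermediateField K Ω)
    [FiniteDimensional K M] {V' : Vr F} (hV' : Fct V') (φ : Mo V V') (z : V.pt Ω →₀ ℤ) :
    Finsupp.mapDomain (φ.f Ω) (vtr hV K M z) = vtr hV' K M (Finsupp.mapDomain (φ.f Ω) z) := by
  classical
  let iA := vact hV K Ω
  let iB := vact hV' K Ω
  have hH : M.fixingSubgroup.FiniteIndex := opn_fin _ (opn_fix M)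
  let i0 : Fintype ((Ω ≃ₐ[K] Ω) ⧸ M.fixingSubgroup) := Fintype.ofFinite _
  change Finsupp.mapDomain (φ.f Ω) (trG (V.pt Ω) M.fixingSubgroup z) =
    trG (V'.pt Ω) M.fixingSubgroup (Finsupp.mapDomain (φ.f Ω) z)
  rw [trG_apply hH, trG_apply hH, finsum_eq_sum_of_fintype, finsum_eq_sum_of_fintype,
    Finsupp.mapDomain_finsetSum]
  refine Finset.sum_congr rfl fun q _ => ?_
  rw [← Finsupp.mapDomain_comp, ← Finsupp.mapDomain_comp]
  exact congrArg (fun g => Finsupp.mapDomain g z) (funext fun x => (φ.act q.out x).symm)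

end trV

section piF

variable {F : Type} [Field F] {ι : Type} {V : ι → Vr F}

theorem Fct.pi (hV : ∀ i, Fct (V i)) : Fct (Vpi V) where
  id L _ _ x := funext fun i => (hV i).id L (x i)
  comp L M N _ _ _ _ _ _ σ τ x := funext fun i => (hV i).comp L M N σ τ (x i)
  gal K Ω _ _ _ _ _ _ M E _ _ _ _ _ γ w x y h := fun i =>
    (hV i).gal K Ω M E γ w (x i) (y i) (h i)

/-- The Albanese kernel over `K` is `m`-divisible, for an algebraic closure `Ω` of `K`. -/
def DvG (V : ι → Vr F) (K : Type) [Field K] [Algebra F K] (Ω : Type) [Field Ω] [Algebra K Ω]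
    [Algebra F Ω] [IsScalarTower F K Ω] (m : ℕ) : Prop :=
  ∀ z ∈ (Vpi V).D0 K Ω, (∀ i, Finsupp.mapDomain ((pr i).f Ω) z ∈ (V i).ratEq K Ω) →
    ∃ z' ∈ (Vpi V).D0 K Ω, (∀ i, Finsupp.mapDomain ((pr i).f Ω) z' ∈ (V i).ratEq K Ω) ∧
      z - m • z' ∈ (Vpi V).ratEq K Ω

variable {K : Type} [Field K] [Algebra F K] {Ω : Type} [Field Ω] [Algebra K Ω] [Algebra F Ω]
  [IsScalarTower F K Ω]

/-- From an extension of degree prime to `m`. -/
theorem dvG_tr [CharZero K] [IsAlgClosure K Ω] (hV : ∀ i, Fct (V i)) (M : IntermediateField K Ω)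
    [FiniteDimensional K M] [IsScalarTower F M Ω] {m : ℕ} (hc : (Module.finrank K M).Coprime m)
    (hres : ∀ i, ∀ z ∈ (V i).D0 K Ω, z ∈ (V i).ratEq K Ω → z ∈ (V i).ratEq M Ω)
    (h : DvG V M Ω m) : DvG V K Ω m := by
  intro z hz ha
  obtain ⟨z', hz', ha', hr⟩ := h z (D0_res hz) fun i =>
    hres i _ ((pr i).D0 hz) (ha i)
  have hX : Fct (Vpi V) := Fct.pi hV
  set t := vtr hX K M z' with ht
  have h3 : t ∈ (Vpi V).D0 K Ω := vtr_D0 hX M hz'
  have h5 : ∀ i, Finsupp.mapDomain ((pr i).f Ω) t ∈ (V i).ratEq K Ω := by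
    intro i
    rw [ht, vtr_map hX M (hV i) (pr i)]
    exact tr_ratEqV (hV i) M (ha' i)
  have h1 : vtr hX K M (z - m • z') ∈ (Vpi V).ratEq K Ω := tr_ratEqV hX M hr
  rw [map_sub, map_nsmul, vtr_res hX M hz.1] at h1
  have hb := Nat.gcd_eq_gcd_ab (Module.finrank K M) m
  rw [hc.gcd_eq_one, Nat.cast_one] at hb
  set a : ℤ := (Module.finrank K M).gcdA m
  set b : ℤ := (Module.finrank K M).gcdB m
  refine ⟨a • t + b • z, AddSubgroup.add_mem _ (AddSubgroup.zsmul_mem _ h3 _)
    (AddSubgroup.zsmul_mem _ hz _), fun i => ?_, ?_⟩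
  · have e : Finsupp.mapDomain.addMonoidHom ((pr i).f Ω) (a • t + b • z) ∈ (V i).ratEq K Ω := by
      rw [map_add, map_zsmul, map_zsmul]
      exact AddSubgroup.add_mem _ (AddSubgroup.zsmul_mem _ (h5 i) _)
        (AddSubgroup.zsmul_mem _ (ha i) _)
    exact e
  have h4 : z - m • (a • t + b • z) = a • (Module.finrank K M • z - m • t) := by
    have h5 : z - m • (a • t + b • z) - a • (Module.finrank K M • z - m • t) =
        (1 - ((Module.finrank K M : ℤ) * a + m * b)) • z := by
      simp only [← natCast_zsmul]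
      module
    rw [← hb, sub_self, zero_smul] at h5
    exact sub_eq_zero.1 h5
  rw [h4]
  exact AddSubgroup.zsmul_mem _ h1 _

end piF

end CV
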