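import Pool.Agent.Lib.MP_f80667_ag.Cv.Hat
import Pool.Agent.Lib.MP_f80667_ag.Cv.Tc

/-! Divisibility of the Albanese kernel in terms of cycles (`DvG`) and of classes (`DvP`). -/

open ZC BE PE Polynomial IntermediateField IsDedekindDomain NumberField

namespace CV

section loc

variable {F : Type} [Field F] {K : Type} [Field K] [Algebra F K]

/-- The class of a cycle is `0`. -/
theorem cl_eq_zero {W : Vr F} (z : Zc W K) : z.cl = 0 ↔ z.cy ∈ W.ratEq K (AlgebraicClosure K) := by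
  let w : Dz W K := z
  have h1 : z.cl = 0 ↔ Gp.cls w = Gp.cls (0 : Dz W K) := Iff.rfl
  have h3 : Gp.cls w = Gp.cls (0 : Dz W K) ↔ w.1 - 0 ∈ W.ratEq K (AlgebraicClosure K) :=
    Gp.cls_eq
  rw [sub_zero] at h3
  exact h1.trans h3

variable {ι : Type} {V : ι → Vr F}

theorem albP_iff (z : Zc (Vpi V) K) : AlbP z ↔
    ∀ i, Finsupp.mapDomain ((pr i).f (AlgebraicClosure K)) z.cy ∈
      (V i).ratEq K (AlgebraicClosure K) :=
  forall_congr' fun i => cl_eq_zero (psh i z)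

theorem dvG_zero [IsScalarTower F K (AlgebraicClosure K)] {m : ℕ}
    (h : DvG V K (AlgebraicClosure K) m) (z : Zc (Vpi V) K) (hz : AlbP z) :
    ∃ z' : Zc (Vpi V) K, AlbP z' ∧ z.cl = m • z'.cl := by
  obtain ⟨z', hz', ha, hr⟩ := h z.cy z.2 ((albP_iff z).1 hz)
  refine ⟨⟨z', hz'⟩, (albP_iff _).2 ha, ?_⟩
  let w : Dz (Vpi V) K := ⟨z', hz'⟩
  have h6 : m • (Zc.cl (V := Vpi V) (K := K) ⟨z', hz'⟩) = Gp.clsH (Vpi V) K (m • w) :=
    (map_nsmul (Gp.clsH (Vpi V) K) m w).symm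
  rw [h6]
  exact Gp.cls_eq.2 hr

theorem dvG_one {m : ℕ} (h : ∀ z : Zc (Vpi V) K, AlbP z →
    ∃ z' : Zc (Vpi V) K, AlbP z' ∧ z.cl = m • z'.cl) : DvG V K (AlgebraicClosure K) m := by
  intro z hz ha
  let z0 : Zc (Vpi V) K := ⟨z, hz⟩
  obtain ⟨z', ha', he⟩ := h z0 ((albP_iff z0).2 ha)
  refine ⟨z'.cy, z'.2, (albP_iff z').1 ha', ?_⟩
  let w : Dz (Vpi V) K := z'
  have h6 : m • z'.cl = Gp.clsH (Vpi V) K (m • w) := (map_nsmul (Gp.clsH (Vpi V) K) m w).symm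
  rw [h6] at he
  exact Gp.cls_eq.1 he

end loc

section nf

variable {F : Type} [Field F] {ι : Type} {V : ι → Vr F}

theorem dvP_iff (K : Type) [Field K] [Algebra F K] (m : ℕ) :
    DvP K V m ↔ DvG V K (AlgebraicClosure K) m :=
  ⟨dvG_one, fun h => dvG_zero h⟩

end nf

end CV
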