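import Pool.Agent.Lib.MP_f80667_ag.Cv.Defs
import Pool.Agent.Lib.MP_f80667_ag.Cv.Tc
import Pool.Agent.Lib.MP_f80667_ag.Pe.Ur

/-!
Pointed curves over a local field: the points, the distance of integral points, charts, displacements.

* `Ok L`: the ring of integers of `K`. `ev m φ`: the values of the functions of the model `m` at the point `φ`; `evO m φ`: of
  the functions over `Ω`.
* `Nr m r x y`: the points `x`, `y` are integral and congruent modulo the numbers of norm `≤ r`.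
* `Zd V M`: the cycles of degree `0` over `M`.
* `RM m M`: the functions of the model over the integers of `M`. `Cht m M`: a chart over `M`: the points `P w`, `nm w < 1`, of
  a residue disc; `a (P w) = w`.
* `rtr V M M'`: the trace of cycles from `M'` to `M`.
* `Dsp L V nr M`: the cycles generated by the traces of `[y] - [y']`, `y`, `y'` over an unramified extension of `M`, `nr y y'`.
* `Pc C Ω`: the principal cycles over `Ω`: `z` has degree `0` and the ideals `idl z` (the product of the `(mx φ) ^ z(φ)` with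
  `z(φ) > 0`) and `idl (-z)` of `Ω ⊗ A` are equivalent.
-/

open ZC BE PE Polynomial TensorProduct IntermediateField

namespace CV

section var

variable {F : Type} [Field F]

/-- The curve is a functor. Proof: `Option.map`, composition of algebra homomorphisms; `gal`: by cases. -/
theorem Crv.fct (C : Crv F) : Fct C.V where
  id L _ _ x := by
    rcases x with _ | φ
    · rfl
    · exact congrArg some (AlgHom.ext fun a => rfl)
  comp L M N _ _ _ _ _ _ σ τ x := by
    rcases x with _ | φ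
    · rfl
    · exact congrArg some (AlgHom.ext fun a => rfl)
  gal K Ω _ _ _ _ _ _ M E _ _ _ _ _ γ w x y h := by
    rcases h with ⟨h1, h2⟩ | ⟨φ, h1, h2, h3⟩ | ⟨φ, ψ, h1, h2, h3⟩
    · exact Or.inl ⟨h1, by rw [h2]; rfl⟩
    · exact Or.inr (Or.inl ⟨φ, h1, h2, by rw [h3]; rfl⟩)
    · refine Or.inr (Or.inr ⟨φ, (γ.restrictScalars F : Ω →ₐ[F] Ω).comp ψ, h1, by rw [h2]; rfl,
        fun a => ?_⟩)
      obtain ⟨h4, h5⟩ := h3 a
      refine ⟨h4, ?_⟩
      change γ (ψ a) = γ (w.res _)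
      rw [h5]
      rfl

/-- The product. -/
theorem Fct.pr {V W : Vr F} (hV : Fct V) (hW : Fct W) : Fct (Vpr V W) where
  id L _ _ x := Prod.ext (hV.id L x.1) (hW.id L x.2)
  comp L M N _ _ _ _ _ _ σ τ x := Prod.ext (hV.comp L M N σ τ x.1) (hW.comp L M N σ τ x.2)
  gal K Ω _ _ _ _ _ _ M E _ _ _ _ _ γ w x y h :=
    ⟨hV.gal K Ω M E γ w x.1 y.1 h.1, hW.gal K Ω M E γ w x.2 y.2 h.2⟩

/-- The point at infinity. -/
def Crv.bp (C : Crv F) : Bp C.V where
  o _ _ _ := none
  nat _ _ _ _ _ _ _ := rfl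
  red _ _ _ _ _ _ _ _ _ _ _ := Or.inl ⟨rfl, rfl⟩

end var

section prc

variable {F : Type} [Field F] (C : Crv F) {Ω : Type} [Field Ω] [Algebra F Ω]

variable {C} in
/-- The maximal ideal of a point. -/
noncomputable def mx (φ : C.A →ₐ[F] Ω) : Ideal (Ω ⊗[F] C.A) :=
  RingHom.ker (Algebra.TensorProduct.lift (AlgHom.id Ω Ω) φ fun _ _ => Commute.all _ _).toRingHom

/-- The ideal of the positive part of a cycle. -/
noncomputable def idl (z : C.V.pt Ω →₀ ℤ) : Ideal (Ω ⊗[F] C.A) :=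
  z.prod fun x n => match x with
    | none => 1
    | some φ => mx φ ^ n.toNat

variable (Ω) in
/-- The principal cycles. -/
noncomputable def Pc : AddSubgroup (C.V.pt Ω →₀ ℤ) :=
  AddSubgroup.closure {z | C.V.deg Ω z = 0 ∧ ∃ f g : Ω ⊗[F] C.A, f ≠ 0 ∧ g ≠ 0 ∧
    Ideal.span {f} * idl C (-z) = Ideal.span {g} * idl C z}

end prc

section loc

variable {F : Type} [Field F] {K Ω : Type} [Field K] [Field Ω] [Algebra K Ω] [Algebra F K]
  [Algebra F Ω] [IsScalarTower F K Ω]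

/-- The integers of `K`. -/
abbrev Ok (L : Ld K Ω) : ValuationSubring K := L.V.comap (algebraMap K Ω)

variable {L : Ld K Ω} {C C₁ C₂ : Crv F} (m : Mod C (Ok L) K)

/-- The values of the functions of the model at a point. -/
noncomputable def ev (φ : C.A →ₐ[F] Ω) : m.R →ₐ[Ok L] Ω :=
  (((Algebra.TensorProduct.lift (Algebra.ofId K Ω) φ fun _ _ => Commute.all _ _).comp
    m.iso.toAlgHom).restrictScalars (Ok L)).comp Algebra.TensorProduct.includeRight

/-- The values of the functions over `Ω`. -/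
noncomputable def evO (φ : C.A →ₐ[F] Ω) : Ω ⊗[Ok L] m.R →ₐ[Ω] Ω :=
  Algebra.TensorProduct.lift (AlgHom.id Ω Ω) (ev m φ) fun _ _ => Commute.all _ _

/-- The points are integral and congruent modulo `r`. -/
def Nr (r : ℝ) (x y : C.V.pt Ω) : Prop :=
  ∃ φ ψ : C.A →ₐ[F] Ω, x = some φ ∧ y = some ψ ∧
    ∀ a : m.R, L.nm (ev m φ a) ≤ 1 ∧ L.nm (ev m ψ a) ≤ 1 ∧ L.nm (ev m φ a - ev m ψ a) ≤ r

/-- The functions of the model over the integers of `M`. -/
def RM (M : IntermediateField K Ω) : Subring (Ω ⊗[Ok L] m.R) :=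
  Subring.closure ({z | ∃ x ∈ M, L.nm x ≤ 1 ∧ z = x ⊗ₜ 1} ∪ {z | ∃ r : m.R, z = 1 ⊗ₜ r})

/-- The point is fixed by the Galois group of `Ω / M`. -/
def Fp (V : Vr F) (M : IntermediateField K Ω) (x : V.pt Ω) : Prop :=
  ∀ γ ∈ M.fixingSubgroup, V.act γ x = x

/-- The cycles of degree `0` over `M`. -/
noncomputable def Zd (V : Vr F) (M : IntermediateField K Ω) : AddSubgroup (V.pt Ω →₀ ℤ) where
  carrier := {z | (∀ γ ∈ M.fixingSubgroup, Finsupp.mapDomain (V.act γ) z = z) ∧ V.deg Ω z = 0}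
  zero_mem' := ⟨fun _ _ => Finsupp.mapDomain_zero, map_zero _⟩
  add_mem' := fun {a b} ha hb => ⟨fun γ hγ => by
    rw [Finsupp.mapDomain_add, ha.1 γ hγ, hb.1 γ hγ], by rw [map_add, ha.2, hb.2, add_zero]⟩
  neg_mem' := fun {a} ha => ⟨fun γ hγ => by
    have h := (Finsupp.mapDomain.addMonoidHom (M := ℤ) (V.act γ)).map_neg a
    change Finsupp.mapDomain (V.act γ) (-a) = _
    rw [← Finsupp.mapDomain.addMonoidHom_apply, h, Finsupp.mapDomain.addMonoidHom_apply,
      ha.1 γ hγ], by rw [map_neg, ha.2, neg_zero]⟩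

/-- A chart over `M`. -/
structure Cht (M : IntermediateField K Ω) where
  /-- the point with the parameter `w` -/
  P : Ω → C.V.pt Ω
  /-- the parameter -/
  a : Ω ⊗[Ok L] m.R
  ha : a ∈ RM m M
  val : ∀ w, L.nm w < 1 → ∃ φ, P w = some φ ∧ evO m φ a = w
  near : ∀ w w', L.nm w < 1 → L.nm w' < 1 → ∀ r, 0 ≤ r → r ≤ 1 →
    (Nr m r (P w) (P w') ↔ L.nm (w - w') ≤ r)
  surj : ∀ x r, r < 1 → Nr m r x (P 0) → ∃ w, L.nm w < 1 ∧ x = P w
  eqv : ∀ γ ∈ M.fixingSubgroup, ∀ w, L.nm w < 1 → C.V.act γ (P w) = P (γ w)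

open Classical in
/-- The trace of cycles from `M'` to `M`. -/
noncomputable def rtr (V : Vr F) (M M' : IntermediateField K Ω) : (V.pt Ω →₀ ℤ) →+ (V.pt Ω →₀ ℤ) :=
  ∑ᶠ q : M.fixingSubgroup ⧸ M'.fixingSubgroup.subgroupOf M.fixingSubgroup,
    Finsupp.mapDomain.addMonoidHom (V.act ((q.out : M.fixingSubgroup) : Ω ≃ₐ[K] Ω))

variable (L) in
/-- The displacements over `M`. -/
noncomputable def Dsp (V : Vr F) (nr : V.pt Ω → V.pt Ω → Prop) (M : IntermediateField K Ω) :
    AddSubgroup (V.pt Ω →₀ ℤ) :=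
  AddSubgroup.closure {z | ∃ (N : ℕ) (M' : IntermediateField K Ω) (y y' : V.pt Ω), N ≠ 0 ∧ M ≤ M' ∧
    M' ≤ L.Ur M N ∧ Fp V M' y ∧ Fp V M' y' ∧ nr y y' ∧
    z = rtr V M M' (Finsupp.single y 1 - Finsupp.single y' 1)}

/-- The points of the product are integral and congruent modulo `r`. -/
def Nr₂ (m₁ : Mod C₁ (Ok L) K) (m₂ : Mod C₂ (Ok L) K) (r : ℝ)
    (x y : (Vpr C₁.V C₂.V).pt Ω) : Prop :=
  Nr m₁ r x.1 y.1 ∧ Nr m₂ r x.2 y.2

end loc

end CV
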