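import Pool.Agent.Lib.MP_f80667_ag.Cv.Dg
import Pool.Agent.Lib.MP_f80667_ag.Pe.Ld

/-!
Pointed curves, their models, products of two curves, displacements.

* `Crv F`: a smooth projective geometrically integral curve `C` over the field `F` with an `F`-point `∞`, given by the affine
  ring `A` of `C ∖ {∞}` and the order of the pole at `∞` (`G : Dg F A`).
* `Crv.V`: the variety: the points over `L` are the homomorphisms `A → L` over `F` and `none = ∞`; the reduction at a place:
  a homomorphism with values in the valuation ring goes to its residue, every other point to `∞`.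
* `Mod C O K`: good reduction: a smooth `O`-algebra `R` (`O` a local ring with residue field `κ`) with `K ⊗ R = K ⊗ A`, with
  the orders `Gg`, `Gs` of the pole at `∞` of the two fibres and a basis `v i` (`i < h`), `e j` (`j ≥ 0`) of `R` adapted to both:
  the `v i` have order `< N` in both fibres, `e j` has order `N + j` in both fibres. (`R` is the ring of a smooth projective
  model minus the section `∞`; `N = 2 g + 1` is possible.)
* `Vpr V W`: the product.
-/

open ZC BE Polynomial TensorProduct

namespace CV

/-- A pointed curve. -/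
structure Crv (F : Type) [Field F] where
  /-- the affine ring of the curve without the point at infinity -/
  A : Type
  [cr : CommRing A]
  [al : Algebra F A]
  sm : Algebra.Smooth F A
  /-- the order of the pole at infinity -/
  G : Dg F A

attribute [instance] Crv.cr Crv.al

section var

variable {F : Type} [Field F]

/-- The variety. -/
def Crv.V (C : Crv F) : Vr F where
  pt L _ _ := Option (C.A →ₐ[F] L)
  map σ x := x.map fun φ => σ.comp φ
  red w x y := (x = none ∧ y = none) ∨
    (∃ φ, x = some φ ∧ (∃ a, φ a ∉ w.V) ∧ y = none) ∨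
    (∃ φ ψ, x = some φ ∧ y = some ψ ∧ ∀ a, ∃ h : φ a ∈ w.V, ψ a = w.res ⟨φ a, h⟩)

/-- The product of two varieties. -/
def Vpr (V W : Vr F) : Vr F where
  pt L := V.pt L × W.pt L
  map σ x := (V.map σ x.1, W.map σ x.2)
  red w x y := V.red w x.1 y.1 ∧ W.red w x.2 y.2

/-- Good reduction over the local ring `O` with fraction field `K`. -/
structure Mod (C : Crv F) (O K : Type) [CommRing O] [IsLocalRing O] [Field K] [Algebra O K]
    [Algebra F K] where
  /-- the affine ring of the model -/
  R : Type
  [cr : CommRing R]
  [al : Algebra O R]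
  sm : Algebra.Smooth O R
  /-- the generic fibre -/
  iso : K ⊗[O] R ≃ₐ[K] K ⊗[F] C.A
  /-- the order at infinity of the generic fibre -/
  Gg : Dg K (K ⊗[O] R)
  /-- the order at infinity of the special fibre -/
  Gs : Dg (IsLocalRing.ResidueField O) (IsLocalRing.ResidueField O ⊗[O] R)
  h : ℕ
  N : ℕ
  /-- the basis -/
  b : Module.Basis (Fin h ⊕ ℕ) O R
  lo : ∀ i : Fin h, Gg.d (1 ⊗ₜ b (.inl i)) < N ∧ Gs.d (1 ⊗ₜ b (.inl i)) < N
  hi : ∀ j : ℕ, Gg.d (1 ⊗ₜ b (.inr j)) = (N + j : ℕ) ∧ Gs.d (1 ⊗ₜ b (.inr j)) = (N + j : ℕ)

attribute [instance] Mod.cr Mod.al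

end var

end CV
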