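import Pool.Agent.Lib.MP_f80667_ag.Cv.Mt
import Pool.Agent.Lib.MP_f80667_ag.Cv.Defs

/-! Spreading out, second part: a smooth algebra with a monic table over a local ring gives a model (`modOf`). -/

open ZC BE Polynomial TensorProduct

namespace CV

/-- A cofinite set of natural numbers: finitely many small elements and a tail. -/
theorem sp_equiv (S : AddSubmonoid ℕ) (N : ℕ) (hN : ∀ n, N ≤ n → n ∈ S) :
    ∃ (h : ℕ) (f : Fin h ⊕ ℕ ≃ S), (∀ i, (f (.inl i) : ℕ) < N) ∧
      ∀ j, (f (.inr j) : ℕ) = N + j := by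
  classical
  let P : Type := {k : ℕ // k ∈ S ∧ k < N}
  have hfin : Finite P := Set.Finite.subset (Set.finite_Iio N) fun k hk => hk.2
  obtain ⟨h, ⟨g⟩⟩ := Finite.exists_equiv_fin P
  let F : Fin h ⊕ ℕ → S := Sum.elim (fun i => ⟨(g.symm i).1, (g.symm i).2.1⟩)
    fun j => ⟨N + j, hN _ (Nat.le_add_right N j)⟩
  have hF : Function.Bijective F := by
    constructor
    · rintro (i | j) (i' | j') he
      · have h1 : (g.symm i).1 = (g.symm i').1 := congrArg (fun x : S => (x : ℕ)) he
        have h2 : g.symm i = g.symm i' := Subtype.ext h1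
        rw [g.symm.injective h2]
      · have h1 : (g.symm i).1 = N + j' := congrArg (fun x : S => (x : ℕ)) he
        have h2 := (g.symm i).2.2
        omega
      · have h1 : N + j = (g.symm i').1 := congrArg (fun x : S => (x : ℕ)) he
        have h2 := (g.symm i').2.2
        omega
      · have h1 : N + j = N + j' := congrArg (fun x : S => (x : ℕ)) he
        rw [Nat.add_left_cancel h1]
    · rintro ⟨k, hk⟩
      by_cases hkN : k < N
      · exact ⟨.inl (g ⟨k, hk, hkN⟩), Subtype.ext (by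
          change (g.symm (g ⟨k, hk, hkN⟩)).1 = k
          rw [g.symm_apply_apply])⟩
      · exact ⟨.inr (k - N), Subtype.ext (by
          change N + (k - N) = k
          omega)⟩
  exact ⟨h, Equiv.ofBijective F hF, fun i => (g.symm i).2.2, fun j => rfl⟩

theorem mt_bc_e {B R : Type} [CommRing B] [CommRing R] [Algebra B R] (T : Mt B R) (B' : Type)
    [CommRing B'] [Algebra B B'] [Nontrivial B'] (k : T.S) :
    (T.bc B').d ((1 : B') ⊗ₜ[B] T.e k) = (k : ℕ) := by
  have h : (T.bc B').e k = (1 : B') ⊗ₜ[B] T.e k := Algebra.TensorProduct.basis_apply T.e k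
  rw [← h]
  exact (T.bc B').d_e k

/-- **A model from a monic table.** -/
theorem modOf {F : Type} [Field F] (C : Crv F) (O K : Type) [CommRing O] [IsLocalRing O] [Field K]
    [Algebra O K] [Algebra F K] (R : Type) [CommRing R] [Algebra O R] (hs : Algebra.Smooth O R)
    (T : Mt O R) (iso : K ⊗[O] R ≃ₐ[K] K ⊗[F] C.A) : Nonempty (Mod C O K) := by
  obtain ⟨N, hN⟩ := T.fin
  obtain ⟨h, f, h1, h2⟩ := sp_equiv T.S N hN
  refine ⟨{ R := R, sm := hs, iso := iso, Gg := (T.bc K).dg
            Gs := (T.bc (IsLocalRing.ResidueField O)).dg, h := h, N := N, b := T.e.reindex f.symm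
            lo := fun i => ?_, hi := fun j => ?_ }⟩
  · rw [Module.Basis.reindex_apply, Equiv.symm_symm]
    have e1 : (T.bc K).dg.d ((1 : K) ⊗ₜ[O] T.e (f (.inl i))) = (f (.inl i) : ℕ) := mt_bc_e T K _
    have e2 : (T.bc (IsLocalRing.ResidueField O)).dg.d
        ((1 : IsLocalRing.ResidueField O) ⊗ₜ[O] T.e (f (.inl i))) = (f (.inl i) : ℕ) :=
      mt_bc_e T (IsLocalRing.ResidueField O) _
    rw [e1, e2]
    exact ⟨by exact_mod_cast h1 i, by exact_mod_cast h1 i⟩
  · rw [Module.Basis.reindex_apply, Equiv.symm_symm]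
    have e1 : (T.bc K).dg.d ((1 : K) ⊗ₜ[O] T.e (f (.inr j))) = (f (.inr j) : ℕ) := mt_bc_e T K _
    have e2 : (T.bc (IsLocalRing.ResidueField O)).dg.d
        ((1 : IsLocalRing.ResidueField O) ⊗ₜ[O] T.e (f (.inr j))) = (f (.inr j) : ℕ) :=
      mt_bc_e T (IsLocalRing.ResidueField O) _
    rw [e1, e2, h2]
    exact ⟨rfl, rfl⟩

end CV
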