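import Pool.Agent.Lib.MP_f80667_ag.Cv.Mt

/-!
Lattices. `T` is a monic table of the `K`-algebra `A`, `ι : R → A` is an injective homomorphism of `O`-algebras, `O ⊆ K`; if
the coordinates of the elements of `R` are in `O` and `R` contains the basis then `R` has a monic table over `O`.
-/

open TensorProduct

namespace CV

section

variable {O K R A : Type} [CommRing O] [Field K] [Algebra O K] [CommRing R] [Algebra O R]
  [CommRing A] [Algebra K A] [Algebra O A] [IsScalarTower O K A]

/-- **The lattice lemma.** -/
theorem Mt.lattice (hinj : Function.Injective (algebraMap O K)) (T : Mt K A) (ι : R →ₐ[O] A)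
    (hι : Function.Injective ι) (h1 : ∀ r k, T.e.repr (ι r) k ∈ (algebraMap O K).range)
    (h2 : ∀ k, ∃ r, ι r = T.e k) : ∃ T₀ : Mt O R, T₀.S = T.S := by
  classical
  choose e he using h2
  have hf : FaithfulSMul O K := (faithfulSMul_iff_algebraMap_injective O K).2 hinj
  -- the coordinates
  have key : ∀ (r : R) (n : Set T.S), (∀ k, k ∉ n → T.e.repr (ι r) k = 0) →
      r ∈ Submodule.span O (e '' n) := by
    intro r n hn
    choose c hc using h1 r
    let l : T.S →₀ O := Finsupp.onFinset (T.e.repr (ι r)).support c fun k hk => by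
      rw [Finsupp.mem_support_iff, ← hc k]
      intro h
      exact hk ((map_eq_zero_iff _ hinj).1 h)
    have hl : ∀ k, algebraMap O K (l k) = T.e.repr (ι r) k := fun k => hc k
    have hr : r = l.sum fun k a => a • e k := by
      apply hι
      have h3 : ι (l.sum fun k a => a • e k) = l.sum fun k a => algebraMap O K a • T.e k := by
        rw [Finsupp.sum, Finsupp.sum, map_sum]
        refine Finset.sum_congr rfl fun k _ => ?_
        rw [map_smul, he, algebraMap_smul]
      rw [h3]
      conv_lhs => rw [← T.e.linearCombination_repr (ι r)]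
      rw [Finsupp.linearCombination_apply, Finsupp.sum, Finsupp.sum]
      have hs : (T.e.repr (ι r)).support = l.support := by
        ext k
        rw [Finsupp.mem_support_iff, Finsupp.mem_support_iff, ← hl k, Ne, Ne,
          map_eq_zero_iff _ hinj]
      rw [hs]
      exact Finset.sum_congr rfl fun k _ => by rw [hl]
    rw [hr]
    refine sum_mem fun k hk => Submodule.smul_mem _ _ (Submodule.subset_span ⟨k, ?_, rfl⟩)
    by_contra hkn
    have h4 := hn k hkn
    rw [← hl k, map_eq_zero_iff _ hinj] at h4
    exact (Finsupp.mem_support_iff.1 hk) h4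
  have hli : LinearIndependent O e := by
    have h3 : LinearIndependent O (fun k => T.e k) :=
      T.e.linearIndependent.restrict_scalars (by
        intro a b hab
        have h4 : algebraMap O K a = algebraMap O K b := by
          simpa [Algebra.smul_def] using hab
        exact hinj h4)
    have h4 : LinearIndependent O (ι.toLinearMap ∘ e) := by
      have h5 : (ι.toLinearMap ∘ e) = fun k => T.e k := funext fun k => he k
      rw [h5]
      exact h3
    exact h4.of_comp
  have hsp : ⊤ ≤ Submodule.span O (Set.range e) := by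
    intro r _
    have h3 := key r Set.univ fun k hk => absurd (Set.mem_univ k) hk
    rwa [Set.image_univ] at h3
  refine ⟨{ S := T.S, fin := T.fin, e := Module.Basis.mk hli hsp, one := ?_, tab := ?_ }, rfl⟩
  · rw [Module.Basis.mk_apply]
    apply hι
    rw [he, T.one, map_one]
  · intro m n
    rw [Module.Basis.mk_apply, Module.Basis.mk_apply, Module.Basis.mk_apply, Module.Basis.coe_mk]
    refine key _ _ fun k hk => ?_
    rw [map_sub, map_mul, he, he, he]
    by_contra h3
    exact hk (T.mem_W.1 (T.tab m n) k (Finsupp.mem_support_iff.2 h3))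

end

section

variable {O K R A : Type} [CommRing O] [Field K] [Algebra O K] [CommRing R] [Algebra O R]
  [CommRing A] [Algebra K A]

/-- The elements with coordinates in `O`. -/
def Mt.lat (T : Mt K A) (O : Type) [CommRing O] [Algebra O K]
    (hT : ∀ m n k : T.S, T.e.repr (T.e m * T.e n) k ∈ (algebraMap O K).range) : Subring A where
  carrier := {x | ∀ k, T.e.repr x k ∈ (algebraMap O K).range}
  zero_mem' k := by
    rw [map_zero]
    exact zero_mem _
  one_mem' k := by
    rw [← T.one, T.e.repr_self]
    rcases eq_or_ne k 0 with rfl | hk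
    · rw [Finsupp.single_eq_same]
      exact one_mem _
    · rw [Finsupp.single_eq_of_ne hk]
      exact zero_mem _
  add_mem' {x y} hx hy k := by
    rw [map_add, Finsupp.add_apply]
    exact add_mem (hx k) (hy k)
  neg_mem' {x} hx k := by
    rw [map_neg, Finsupp.neg_apply]
    exact neg_mem (hx k)
  mul_mem' {x y} hx hy k := by
    rw [← T.e.linearCombination_repr x, ← T.e.linearCombination_repr y,
      Finsupp.linearCombination_apply, Finsupp.linearCombination_apply, Finsupp.sum, Finsupp.sum,
      Finset.sum_mul_sum, map_sum, Finsupp.coe_finsetSum, Finset.sum_apply]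
    refine sum_mem fun i _ => ?_
    rw [map_sum, Finsupp.coe_finsetSum, Finset.sum_apply]
    refine sum_mem fun j _ => ?_
    rw [smul_mul_smul_comm, map_smul, Finsupp.smul_apply, smul_eq_mul]
    exact mul_mem (mul_mem (hx i) (hy j)) (hT i j k)

theorem Mt.cst_mem (T : Mt K A)
    (hT : ∀ m n k : T.S, T.e.repr (T.e m * T.e n) k ∈ (algebraMap O K).range) (c : O) :
    algebraMap K A (algebraMap O K c) ∈ T.lat O hT := by
  intro k
  rw [Algebra.algebraMap_eq_smul_one, ← T.one, map_smul, T.e.repr_self, Finsupp.smul_apply,
    smul_eq_mul]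
  refine mul_mem ⟨c, rfl⟩ ?_
  rcases eq_or_ne k 0 with rfl | hk
  · rw [Finsupp.single_eq_same]
    exact one_mem _
  · rw [Finsupp.single_eq_of_ne hk]
    exact zero_mem _

/-- The lattice lemma for a flat algebra. -/
theorem Mt.lattice_flat (hinj : Function.Injective (algebraMap O K)) (T : Mt K A)
    (hfl : Module.Flat O R) (e : K ⊗[O] R ≃ₐ[K] A)
    (h1 : ∀ r k, T.e.repr (e ((1 : K) ⊗ₜ[O] r)) k ∈ (algebraMap O K).range)
    (h2 : ∀ k, ∃ r, e ((1 : K) ⊗ₜ[O] r) = T.e k) : Nonempty (Mt O R) := by
  let i1 : Algebra O A := ((algebraMap K A).comp (algebraMap O K)).toAlgebra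
  have i2 : IsScalarTower O K A := IsScalarTower.of_algebraMap_eq fun _ => rfl
  let ι : R →ₐ[O] A :=
    { ((e : K ⊗[O] R →+* A).comp
        (Algebra.TensorProduct.includeRight : R →ₐ[O] K ⊗[O] R).toRingHom) with
      commutes' := fun c => by
        change e ((1 : K) ⊗ₜ[O] algebraMap O R c) = _
        have e1 : (1 : K) ⊗ₜ[O] algebraMap O R c = algebraMap K (K ⊗[O] R) (algebraMap O K c) := by
          rw [Algebra.algebraMap_eq_smul_one, tmul_smul, Algebra.TensorProduct.algebraMap_apply,
            Algebra.algebraMap_self_apply, Algebra.algebraMap_eq_smul_one, smul_tmul']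
        rw [e1, AlgEquiv.commutes]
        rfl }
  have hιi : Function.Injective ι := e.injective.comp
    (Algebra.TensorProduct.includeRight_injective (R := O) (A := K) (B := R) hinj)
  obtain ⟨T₀, -⟩ := T.lattice hinj ι hιi h1 h2
  exact ⟨T₀⟩

end

end CV
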