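import Pool.Agent.Lib.MP_f80667_ag.Cv.SpC
import Pool.Agent.Lib.MP_f80667_ag.Cv.SpL
import Pool.Agent.Lib.MP_f80667_ag.Cv.Sp2

/-!
Spreading out: a curve over `F` has good reduction over every local domain `O` with fraction field `K ⊇ F` which contains a
certain finite set of elements of `F`.
-/

open ZC BE Polynomial TensorProduct

namespace CV

/-- An element of `F ⊗ B` is defined over the subrings which contain finitely many elements. -/
theorem sp_tensor {A₀ F B : Type} [CommRing A₀] [Field F] [Algebra A₀ F] [CommRing B]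
    [Algebra A₀ B] (t : F ⊗[A₀] B) : ∃ D : Finset F, ∀ (O K : Type) [CommRing O] [Field K]
      [Algebra O K] [Algebra F K] [Algebra A₀ O] [Algebra A₀ K] [IsScalarTower A₀ O K]
      [IsScalarTower A₀ F K], (∀ c ∈ D, algebraMap F K c ∈ (algebraMap O K).range) →
      ∃ r : O ⊗[A₀] B, (Algebra.TensorProduct.map (IsScalarTower.toAlgHom A₀ O K)
        (AlgHom.id A₀ B)) r = (Algebra.TensorProduct.map (IsScalarTower.toAlgHom A₀ F K)
        (AlgHom.id A₀ B)) t := by
  classical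
  induction t using TensorProduct.induction_on with
  | zero => exact ⟨∅, fun O K _ _ _ _ _ _ _ _ _ => ⟨0, by rw [map_zero, map_zero]⟩⟩
  | tmul f b =>
    refine ⟨{f}, fun O K _ _ _ _ _ _ _ _ h => ?_⟩
    obtain ⟨c, hc⟩ := h f (Finset.mem_singleton_self f)
    refine ⟨c ⊗ₜ b, ?_⟩
    rw [Algebra.TensorProduct.map_tmul, Algebra.TensorProduct.map_tmul]
    congr 1
  | add x y hx hy =>
    obtain ⟨D, hD⟩ := hx
    obtain ⟨D', hD'⟩ := hy
    refine ⟨D ∪ D', fun O K _ _ _ _ _ _ _ _ h => ?_⟩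
    obtain ⟨r, hr⟩ := hD O K fun c hc => h c (Finset.mem_union_left _ hc)
    obtain ⟨r', hr'⟩ := hD' O K fun c hc => h c (Finset.mem_union_right _ hc)
    exact ⟨r + r', by rw [map_add, map_add, hr, hr']⟩

theorem mt_bc_repr {B R : Type} [CommRing B] [CommRing R] [Algebra B R] (T : Mt B R) (B' : Type)
    [CommRing B'] [Algebra B B'] (x : R) (k : T.S) :
    (T.bc B').e.repr ((1 : B') ⊗ₜ[B] x) k = algebraMap B B' (T.e.repr x k) := by
  have h : (T.bc B').e.repr ((1 : B') ⊗ₜ[B] x) =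
      (1 : B') • Finsupp.mapRange (algebraMap B B') (map_zero _) (T.e.repr x) :=
    Algebra.TensorProduct.basis_repr_tmul T.e 1 x
  rw [h, one_smul]
  exact Finsupp.mapRange_apply (hf := map_zero (algebraMap B B')) (g := T.e.repr x) (a := k)

theorem sp_cancel {A₀ S K B : Type} [CommRing A₀] [CommRing S] [Algebra A₀ S] [CommRing B]
    [Algebra A₀ B] [Field K] [Algebra S K] [Algebra A₀ K] [IsScalarTower A₀ S K] (r : S ⊗[A₀] B) :
    Algebra.TensorProduct.cancelBaseChange A₀ S K K B ((1 : K) ⊗ₜ[S] r) =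
      (Algebra.TensorProduct.map (IsScalarTower.toAlgHom A₀ S K) (AlgHom.id A₀ B)) r := by
  induction r using TensorProduct.induction_on with
  | zero => rw [tmul_zero, map_zero, map_zero]
  | tmul s b =>
    rw [Algebra.TensorProduct.cancelBaseChange_tmul, Algebra.TensorProduct.map_tmul,
      Algebra.smul_def, mul_one]
    rfl
  | add x y hx hy => rw [tmul_add, map_add, map_add, hx, hy]

section core

variable {F A₀ B₀ A O K : Type} [Field F] [CommRing A₀] [Algebra A₀ F] [CommRing B₀]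
  [Algebra A₀ B₀] [CommRing A] [Algebra F A] [CommRing O] [Field K] [Algebra O K] [Algebra F K]
  [Algebra A₀ O] [Algebra A₀ K] [IsScalarTower A₀ O K] [IsScalarTower A₀ F K]

variable (O K) in
/-- The generic fibre. -/
noncomputable def spIso (φ : A ≃ₐ[F] F ⊗[A₀] B₀) : K ⊗[O] (O ⊗[A₀] B₀) ≃ₐ[K] K ⊗[F] A :=
  (Algebra.TensorProduct.cancelBaseChange A₀ O K K B₀).trans
    ((Algebra.TensorProduct.congr AlgEquiv.refl φ).trans
      (Algebra.TensorProduct.cancelBaseChange A₀ F K K B₀)).symm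

theorem spIso_eq (φ : A ≃ₐ[F] F ⊗[A₀] B₀) (r : O ⊗[A₀] B₀) (x : A)
    (h : (Algebra.TensorProduct.map (IsScalarTower.toAlgHom A₀ O K) (AlgHom.id A₀ B₀)) r =
      (Algebra.TensorProduct.map (IsScalarTower.toAlgHom A₀ F K) (AlgHom.id A₀ B₀)) (φ x)) :
    spIso O K φ ((1 : K) ⊗ₜ[O] r) = (1 : K) ⊗ₜ[F] x := by
  rw [spIso, AlgEquiv.trans_apply, AlgEquiv.symm_apply_eq, sp_cancel, h, ← sp_cancel]
  rfl

theorem spread_core (hinj : Function.Injective (algebraMap O K)) (hs : Algebra.Smooth A₀ B₀)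
    (φ : A ≃ₐ[F] F ⊗[A₀] B₀) (T : Mt F A) (g : Set B₀) (hg : Algebra.adjoin A₀ g = ⊤)
    (h1 : ∀ b ∈ g, ∀ k, algebraMap F K (T.e.repr (φ.symm (1 ⊗ₜ b)) k) ∈ (algebraMap O K).range)
    (h2 : ∀ k : T.S, ∃ r : O ⊗[A₀] B₀, (Algebra.TensorProduct.map (IsScalarTower.toAlgHom A₀ O K)
        (AlgHom.id A₀ B₀)) r = (Algebra.TensorProduct.map (IsScalarTower.toAlgHom A₀ F K)
        (AlgHom.id A₀ B₀)) (φ (T.e k)))
    (h3 : ∀ m n k, algebraMap F K (T.e.repr (T.e m * T.e n) k) ∈ (algebraMap O K).range) :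
    Nonempty (Mt O (O ⊗[A₀] B₀)) := by
  have hlatT : ∀ m n k : (T.bc K).S, (T.bc K).e.repr ((T.bc K).e m * (T.bc K).e n) k ∈
      (algebraMap O K).range := by
    intro m n k
    have e1 : (T.bc K).e m * (T.bc K).e n = (1 : K) ⊗ₜ[F] (T.e m * T.e n) := by
      have a1 : (T.bc K).e m = (1 : K) ⊗ₜ[F] T.e m := Algebra.TensorProduct.basis_apply T.e m
      have a2 : (T.bc K).e n = (1 : K) ⊗ₜ[F] T.e n := Algebra.TensorProduct.basis_apply T.e n
      rw [a1, a2, Algebra.TensorProduct.tmul_mul_tmul, one_mul]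
    rw [e1]
    obtain ⟨o, ho⟩ := h3 m n k
    exact ⟨o, ho.trans (mt_bc_repr T K _ k).symm⟩
  have hcst : ∀ c : O, spIso O K φ ((1 : K) ⊗ₜ[O] algebraMap O (O ⊗[A₀] B₀) c) ∈
      (T.bc K).lat O hlatT := by
    intro c
    have e1 : (1 : K) ⊗ₜ[O] algebraMap O (O ⊗[A₀] B₀) c =
        algebraMap K (K ⊗[O] (O ⊗[A₀] B₀)) (algebraMap O K c) := by
      rw [Algebra.algebraMap_eq_smul_one, tmul_smul, Algebra.TensorProduct.algebraMap_apply,
        Algebra.algebraMap_self_apply, Algebra.algebraMap_eq_smul_one, smul_tmul']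
    rw [e1, AlgEquiv.commutes]
    exact (T.bc K).cst_mem hlatT c
  have hmul : ∀ x y : O ⊗[A₀] B₀, spIso O K φ ((1 : K) ⊗ₜ[O] (x * y)) =
      spIso O K φ ((1 : K) ⊗ₜ[O] x) * spIso O K φ ((1 : K) ⊗ₜ[O] y) := by
    intro x y
    rw [← map_mul, Algebra.TensorProduct.tmul_mul_tmul, one_mul]
  have hmem : ∀ r, spIso O K φ ((1 : K) ⊗ₜ[O] r) ∈ (T.bc K).lat O hlatT := by
    intro r
    induction r using TensorProduct.induction_on with
    | zero => rw [tmul_zero, map_zero]; exact zero_mem _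
    | add x y hx hy => rw [tmul_add, map_add]; exact add_mem hx hy
    | tmul c b =>
      have e1 : c ⊗ₜ[A₀] b = algebraMap O (O ⊗[A₀] B₀) c * ((1 : O) ⊗ₜ[A₀] b) := by
        rw [Algebra.TensorProduct.algebraMap_apply, Algebra.algebraMap_self_apply,
          Algebra.TensorProduct.tmul_mul_tmul, mul_one, one_mul]
      rw [e1, hmul]
      clear e1
      refine mul_mem (hcst c) ?_
      have hb : b ∈ Algebra.adjoin A₀ g := by rw [hg]; trivial
      induction hb using Algebra.adjoin_induction with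
      | mem b hb =>
        have e2 : spIso O K φ ((1 : K) ⊗ₜ[O] ((1 : O) ⊗ₜ[A₀] b)) =
            (1 : K) ⊗ₜ[F] φ.symm (1 ⊗ₜ b) := by
          refine spIso_eq φ _ _ ?_
          rw [φ.apply_symm_apply, Algebra.TensorProduct.map_tmul, Algebra.TensorProduct.map_tmul,
            map_one, map_one]
        rw [e2]
        intro k
        obtain ⟨o, ho⟩ := h1 b hb k
        exact ⟨o, ho.trans (mt_bc_repr T K _ k).symm⟩
      | algebraMap a =>
        have e2 : (1 : O) ⊗ₜ[A₀] algebraMap A₀ B₀ a =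
            algebraMap O (O ⊗[A₀] B₀) (algebraMap A₀ O a) := by
          rw [Algebra.algebraMap_eq_smul_one, tmul_smul, Algebra.TensorProduct.algebraMap_apply,
            Algebra.algebraMap_self_apply, Algebra.algebraMap_eq_smul_one, smul_tmul']
        rw [e2]
        exact hcst _
      | add x y _ _ hx hy => rw [tmul_add, tmul_add, map_add]; exact add_mem hx hy
      | mul x y _ _ hx hy =>
        have e2 : (1 : O) ⊗ₜ[A₀] (x * y) = ((1 : O) ⊗ₜ[A₀] x) * ((1 : O) ⊗ₜ[A₀] y) := by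
          rw [Algebra.TensorProduct.tmul_mul_tmul, one_mul]
        rw [e2, hmul]
        exact mul_mem hx hy
  refine (T.bc K).lattice_flat hinj inferInstance (spIso O K φ) (fun r k => hmem r k) fun k => ?_
  obtain ⟨r, hr⟩ := h2 k
  refine ⟨r, ?_⟩
  have a1 : (T.bc K).e k = (1 : K) ⊗ₜ[F] T.e k := Algebra.TensorProduct.basis_apply T.e k
  rw [a1]
  exact spIso_eq φ _ _ hr

end core

/-- **Spreading out.** -/
theorem spread {F : Type} [Field F] (C : Crv F) : ∃ D : Finset F, ∀ (O K : Type) [CommRing O]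
    [IsLocalRing O] [Field K] [Algebra O K] [Algebra F K],
    Function.Injective (algebraMap O K) → (∀ c ∈ D, algebraMap F K c ∈ (algebraMap O K).range) →
    Nonempty (Mod C O K) := by
  classical
  have hsm := C.sm
  obtain ⟨A₀, B₀, i1, i2, hfg, hs, ⟨φ⟩⟩ := Algebra.Smooth.exists_subalgebra_fg ℤ F C.A
  obtain ⟨C₀, hC₀⟩ := hfg
  obtain ⟨T, C₁, I, -, hT1, hT2⟩ := C.G.exists_mt
  obtain ⟨g, hg⟩ := (inferInstance : Algebra.FiniteType A₀ B₀).out
  choose D hD using fun k : T.S => sp_tensor (φ (T.e k))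
  refine ⟨C₀ ∪ C₁ ∪ (g.biUnion fun b => (T.e.repr (φ.symm (1 ⊗ₜ b))).support.image fun k =>
    T.e.repr (φ.symm (1 ⊗ₜ b)) k) ∪ I.biUnion D, fun O K _ _ _ _ _ hinj hmem => ?_⟩
  let P : Subring F := ((algebraMap O K).range).comap (algebraMap F K)
  have hA : ∀ a : A₀, ∃ o : O, algebraMap O K o = algebraMap F K a := by
    intro a
    have h : (a : F) ∈ Algebra.adjoin ℤ (C₀ : Set F) := by rw [hC₀]; exact a.2
    have h' : Algebra.adjoin ℤ (C₀ : Set F) ≤ subalgebraOfSubring P := Algebra.adjoin_le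
      fun c hc => hmem c (Finset.mem_union_left _ (Finset.mem_union_left _
        (Finset.mem_union_left _ hc)))
    exact h' h
  choose f hf using hA
  let θ : A₀ →+* O :=
    { toFun := f
      map_one' := hinj (by rw [hf, map_one]; exact map_one _)
      map_zero' := hinj (by rw [hf, map_zero]; exact map_zero _)
      map_mul' := fun a b => hinj (by rw [hf, map_mul, hf, hf]; exact map_mul _ _ _)
      map_add' := fun a b => hinj (by rw [hf, map_add, hf, hf]; exact map_add _ _ _) }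
  let i3 : Algebra A₀ O := θ.toAlgebra
  have i4 : IsScalarTower A₀ O K := IsScalarTower.of_algebraMap_eq fun a => (hf a).symm
  have hP : ∀ c ∈ C₁, c ∈ P := fun c hc => hmem c (Finset.mem_union_left _
    (Finset.mem_union_left _ (Finset.mem_union_right _ hc)))
  obtain ⟨T₀⟩ := spread_core (O := O) (K := K) hinj hs φ T (g : Set B₀) hg (fun b hb k => by
      by_cases h0 : T.e.repr (φ.symm (1 ⊗ₜ b)) k = 0
      · rw [h0, map_zero]; exact zero_mem _
      · exact hmem _ (Finset.mem_union_left _ (Finset.mem_union_right _ (Finset.mem_biUnion.2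
          ⟨b, hb, Finset.mem_image.2 ⟨k, Finsupp.mem_support_iff.2 h0, rfl⟩⟩))))
    (fun k => by
      let Q : Subring C.A := (((Algebra.TensorProduct.map (IsScalarTower.toAlgHom A₀ O K)
        (AlgHom.id A₀ B₀) : O ⊗[A₀] B₀ →ₐ[A₀] K ⊗[A₀] B₀) : O ⊗[A₀] B₀ →+* K ⊗[A₀] B₀).range).comap
        (((Algebra.TensorProduct.map (IsScalarTower.toAlgHom A₀ F K)
        (AlgHom.id A₀ B₀) : F ⊗[A₀] B₀ →ₐ[A₀] K ⊗[A₀] B₀) : F ⊗[A₀] B₀ →+* K ⊗[A₀] B₀).comp
          (φ : C.A →+* F ⊗[A₀] B₀))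
      exact hT2 Q (fun k hk => hD k O K fun c hc => hmem c (Finset.mem_union_right _
        (Finset.mem_biUnion.2 ⟨k, hk, hc⟩))) k)
    fun m n k => hT1 P hP m n k
  exact modOf C O K (O ⊗[A₀] B₀) inferInstance T₀ (spIso O K φ)

end CV
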