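import Pool.Agent.Lib.MP_f80667_ag.Cv.Td
import Pool.Agent.Lib.MP_f80667_ag.Cv.Dv
import Pool.Agent.Lib.MP_f80667_ag.Cv.Lc
import Pool.Agent.Lib.MP_f80667_ag.Cv.Sp3
import Pool.Agent.Lib.MP_f80667_ag.Pe.GlE

/-!
Products of curves over number fields: the global theorems from the local theorem.

* `LcT C l`: the local theorem for the prime number `l`.
* `Grd C l K`: the curves have good reduction over an extension of `K` of degree prime to `l` with ramification index
  `< l - 1` if `l` is the residue characteristic.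
* `glb_fin`: the Albanese kernel is divisible at almost all finite places.
* `glb_fam`, `glb_iff`: the adelic Albanese kernel is divisible by the numbers with all prime factors in `Λ`, the completed
  statement.
-/

open ZC BE PE Polynomial IntermediateField IsDedekindDomain NumberField

namespace CV

section loc

variable {F : Type} [Field F] {ι : Type}

/-- The local theorem for the prime number `l`. -/
def LcT (C : ι → Crv F) (l : ℕ) : Prop :=
  ∀ (K Ω : Type) [Field K] [Field Ω] [Algebra K Ω] [Algebra F K] [Algebra F Ω]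
    [IsScalarTower F K Ω] [CharZero K] [IsAlgClosure K Ω] (L : Ld K Ω),
    (∀ i, Nonempty (Mod (C i) (Ok L) K)) →
    (l : Ok L) ∉ IsLocalRing.maximalIdeal (Ok L) ^ (l - 1) → DvG (fun i => (C i).V) K Ω l

/-- There is an extension `M` of `K` of degree prime to `l` over which the curves have good reduction; `l` is not in the
power `l - 1` of the maximal ideal of the integers of `M`. -/
def Grd (C : ι → Crv F) (l : ℕ) (K : Type) [Field K] [Algebra F K] : Prop :=
  ∃ (M : IntermediateField K (AlgebraicClosure K)) (L : Ld M (AlgebraicClosure K)),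
    FiniteDimensional K M ∧ (Module.finrank K M).Coprime l ∧
    (∀ i, Nonempty (Mod (C i) (Ok L) M)) ∧
    (l : Ok L) ∉ IsLocalRing.maximalIdeal (Ok L) ^ (l - 1)

theorem grd_dvP [Fintype ι] {C : ι → Crv F} {l : ℕ} (h : LcT C l) {K : Type} [Field K]
    [CharZero K] [Algebra F K] (hg : Grd C l K) : DvP K (fun i => (C i).V) l := by
  obtain ⟨M, L, hM, hc, hm, hl⟩ := hg
  have hM' := hM
  have h0 : CharZero M := charZero_of_injective_algebraMap (algebraMap K M).injective
  have h1 : IsScalarTower F M (AlgebraicClosure K) := IsScalarTower.of_algebraMap_eq fun _ => rfl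
  have h2 : IsAlgClosure M (AlgebraicClosure K) :=
    ⟨inferInstance, Algebra.IsAlgebraic.tower_top (K := K) M⟩
  exact (dvP_iff K l).2 (dvG_up (fun i => (C i).bp) (fun i => (C i).fct) M hc
    (h M (AlgebraicClosure K) L hm hl))

end loc

section unr

variable {K Ω : Type} [Field K] [Field Ω] [Algebra K Ω] (L : Ld K Ω)

/-- The elements of the maximal ideal have norms `≤ c`. -/
theorem Ok_pow_le {c : ℝ} (h0 : 0 ≤ c) (hc : ∀ x : K, L.nm (algebraMap K Ω x) < 1 →
    L.nm (algebraMap K Ω x) ≤ c) (n : ℕ) (x : Ok L)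
    (hx : x ∈ IsLocalRing.maximalIdeal (Ok L) ^ n) : L.nm (algebraMap K Ω (x : K)) ≤ c ^ n := by
  induction n generalizing x with
  | zero =>
    rw [pow_zero]
    exact x.2
  | succ n ih =>
    rw [pow_succ] at hx
    refine Submodule.mul_induction_on hx (fun a ha b hb => ?_) (fun a b ha hb => ?_)
    · have h1 : L.nm (algebraMap K Ω (b : K)) < 1 := by
        by_contra h2
        have h3 : L.nm (algebraMap K Ω (b : K)) = 1 := le_antisymm b.2 (not_lt.1 h2)
        rw [IsLocalRing.mem_maximalIdeal, mem_nonunits_iff] at hb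
        refine hb ?_
        have h4 : algebraMap K Ω (b : K) ≠ 0 := L.ne_zero (by rw [h3]; exact one_pos)
        have h5 : (b : K) ≠ 0 := fun e => h4 (by rw [e, map_zero])
        have h6 : (b : K)⁻¹ ∈ Ok L := by
          change L.nm (algebraMap K Ω (b : K)⁻¹) ≤ 1
          rw [map_inv₀, L.inv, h3, inv_one]
        exact IsUnit.of_mul_eq_one (⟨(b : K)⁻¹, h6⟩ : Ok L) (Subtype.ext (mul_inv_cancel₀ h5))
      change L.nm (algebraMap K Ω ((a : K) * (b : K))) ≤ c ^ (n + 1)
      rw [map_mul, L.mul, pow_succ]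
      exact mul_le_mul (ih a ha) (hc _ h1) (L.nonneg _) (pow_nonneg h0 n)
    · change L.nm (algebraMap K Ω ((a : K) + (b : K))) ≤ c ^ (n + 1)
      rw [map_add]
      exact (L.add _ _).trans (max_le ha hb)

/-- A prime number `l` which is not the residue characteristic is a unit. -/
theorem Ok_unit {l : ℕ} (hl : l.Prime) (h : l ≠ L.p) :
    (l : Ok L) ∉ IsLocalRing.maximalIdeal (Ok L) ^ (l - 1) := by
  intro h1
  have h2 : (l : Ok L) ∈ IsLocalRing.maximalIdeal (Ok L) :=
    Ideal.pow_le_self (by have := hl.two_le; omega) h1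
  rw [IsLocalRing.mem_maximalIdeal, mem_nonunits_iff] at h2
  refine h2 ?_
  have h3 : L.nm (l : Ω) = 1 := L.nat_unit fun h6 =>
    h ((Nat.prime_dvd_prime_iff_eq L.pp hl).1 h6).symm
  have h4 : (l : Ω) ≠ 0 := L.ne_zero (by rw [h3]; exact one_pos)
  have h5 : (l : K) ≠ 0 := fun e => h4 (by rw [← map_natCast (algebraMap K Ω), e, map_zero])
  have h6 : (l : K)⁻¹ ∈ Ok L := by
    change L.nm (algebraMap K Ω (l : K)⁻¹) ≤ 1
    rw [map_inv₀, map_natCast, L.inv, h3, inv_one]
  exact IsUnit.of_mul_eq_one (⟨(l : K)⁻¹, h6⟩ : Ok L) (Subtype.ext (mul_inv_cancel₀ h5))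

/-- A prime number `l` is not in the power `l - 1` of the maximal ideal if `K` is unramified. -/
theorem Ok_notMem {c : ℝ} (h0 : 0 < c) (h1 : c < 1) (hc : ∀ x : K, L.nm (algebraMap K Ω x) < 1 →
    L.nm (algebraMap K Ω x) ≤ c) (hp : c ≤ L.nm (L.p : Ω)) (h2 : L.p ≠ 2) {l : ℕ}
    (hl : l.Prime) : (l : Ok L) ∉ IsLocalRing.maximalIdeal (Ok L) ^ (l - 1) := by
  intro h
  have h3 := Ok_pow_le L h0.le hc (l - 1) _ h
  have h4 : algebraMap K Ω ((l : Ok L) : K) = (l : Ω) := by
    rw [show ((l : Ok L) : K) = (l : K) from rfl, map_natCast]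
  rw [h4] at h3
  by_cases hlp : l = L.p
  · rw [hlp] at h3
    have h5 := hp.trans h3
    have h6 : c ^ (L.p - 1) ≤ c ^ 2 := by
      refine pow_le_pow_of_le_one h0.le h1.le ?_
      have := L.pp.two_le
      omega
    have h7 : c ^ 2 < c := by
      rw [pow_two]
      exact mul_lt_of_lt_one_right h0 h1
    exact absurd (h5.trans h6) (not_le.2 h7)
  · exact Ok_unit L hl hlp h

end unr

section nf

variable {F : Type} [Field F] [NumberField F] {ι : Type}

omit [NumberField F] in
/-- The condition `Grd` over `K` itself. -/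
theorem grd_bot {C : ι → Crv F} {K : Type} [Field K] [CharZero K] [Algebra F K]
    (L : Ld K (AlgebraicClosure K)) {c : ℝ} (h0 : 0 < c) (h1 : c < 1)
    (hc : ∀ x : K, L.nm (algebraMap K (AlgebraicClosure K) x) < 1 →
      L.nm (algebraMap K (AlgebraicClosure K) x) ≤ c)
    (hp : c ≤ L.nm (L.p : AlgebraicClosure K)) (h2 : L.p ≠ 2) {D : ι → Finset F}
    (hD : ∀ i (O K : Type) [CommRing O] [IsLocalRing O] [Field K] [Algebra O K] [Algebra F K], Function.Injective (algebraMap O K) →
      (∀ c ∈ D i, algebraMap F K c ∈ (algebraMap O K).range) → Nonempty (Mod (C i) O K))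
    (h3 : ∀ i, ∀ x ∈ D i, L.nm (algebraMap K (AlgebraicClosure K) (algebraMap F K x)) ≤ 1) {l : ℕ}
    (hl : l.Prime) : Grd C l K := by
  obtain ⟨L', hp', hL'⟩ := L.exists_bsL (⊥ : IntermediateField K (AlgebraicClosure K))
  have hy : ∀ x : (⊥ : IntermediateField K (AlgebraicClosure K)), ∃ y : K,
      algebraMap (⊥ : IntermediateField K (AlgebraicClosure K)) (AlgebraicClosure K) x =
        algebraMap K (AlgebraicClosure K) y := by
    intro x
    obtain ⟨y, hy⟩ := IntermediateField.mem_bot.1 x.2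
    exact ⟨y, hy.symm⟩
  refine ⟨⊥, L', inferInstance, ?_, fun i => hD i (Ok L') _ Subtype.val_injective
    fun x hx => ?_, Ok_notMem L' h0 h1 (fun x hx => ?_) (by rw [hp', hL']; exact hp)
      (by rw [hp']; exact h2) hl⟩
  · rw [IntermediateField.finrank_bot]
    exact Nat.coprime_one_left l
  · have h6 : L'.nm (algebraMap (⊥ : IntermediateField K (AlgebraicClosure K))
        (AlgebraicClosure K) (algebraMap F _ x)) ≤ 1 := by
      rw [hL']
      exact h3 i x hx
    exact ⟨⟨_, h6⟩, rfl⟩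
  · obtain ⟨y, e⟩ := hy x
    rw [hL', e] at hx ⊢
    exact hc y hx

/-- **The good places.** -/
theorem glb_good [Finite ι] (C : ι → Crv F) :
    {v : HeightOneSpectrum (𝓞 F) | ¬ ∀ l : ℕ, l.Prime → Grd C l (FK F v)}.Finite := by
  choose D hD using fun i => spread (C i)
  have h1 : (⋃ i, ⋃ c ∈ D i, {v : HeightOneSpectrum (𝓞 F) | ¬ v.valuation F c ≤ 1}).Finite :=
    Set.finite_iUnion fun i => (D i).finite_toSet.biUnion fun c _ => gln_le c
  refine ((gln_unr (F := F)).union (h1.union (gln_one (two_ne_zero (α := F))))).subset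
    fun v hv => ?_
  by_contra h
  simp only [Set.mem_union, not_or] at h
  obtain ⟨h5, h6, h7⟩ := h
  have h8 : ∃ p : ℕ, p.Prime ∧ v.valuation F (p : F) = WithZero.exp (-1 : ℤ) := not_not.1 h5
  obtain ⟨p, hp, hvp⟩ := h8
  have h3 : ∀ i, ∀ c ∈ D i, v.valuation F c ≤ 1 := fun i c hc => by
    by_contra h9
    exact h6 (Set.mem_iUnion.2 ⟨i, Set.mem_biUnion hc h9⟩)
  have h4 : v.valuation F (2 : F) = 1 := not_not.1 h7
  refine hv ?_
  have hch : CharZero (FK F v) :=
    charZero_of_injective_algebraMap (algebraMap F (FK F v)).injective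
  obtain ⟨L, c, hc0, hc1, hL, hL'⟩ := exists_ldE v
  have hpL : L.nm (p : AlgebraicClosure (FK F v)) = c := by
    have h5 := hL (p : F) 1 hvp
    rw [map_natCast, zpow_one] at h5
    exact h5
  have hpp : p = L.p := by
    by_contra hne
    have h5 : L.nm (p : AlgebraicClosure (FK F v)) = 1 := L.nat_unit fun h6 =>
      hne ((Nat.prime_dvd_prime_iff_eq L.pp hp).1 h6).symm
    rw [hpL] at h5
    exact absurd h5 hc1.ne
  have h2p : L.p ≠ 2 := by
    intro h5
    have h6 := hvp
    rw [hpp, h5, Nat.cast_two, h4, ← WithZero.exp_zero] at h6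
    have h7 := WithZero.exp_injective h6
    omega
  intro l hl
  refine grd_bot L hc0 hc1 (fun x hx => ?_) (by rw [← hpp, hpL]) h2p hD (fun i x hx => ?_) hl
  · by_cases hx0 : x = 0
    · rw [hx0, map_zero, L.zero]
      exact hc0.le
    obtain ⟨n, hn⟩ := hL' x hx0
    rw [hn] at hx ⊢
    have h7 : 0 < n := by
      rw [← zpow_zero c] at hx
      exact (zpow_lt_zpow_iff_right_of_lt_one₀ hc0 hc1).1 hx
    have h8 := (zpow_le_zpow_iff_right_of_lt_one₀ hc0 hc1).2 (show (1 : ℤ) ≤ n by omega)
    rwa [zpow_one] at h8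
  · have h5 := h3 i x hx
    by_cases hx0 : x = 0
    · rw [hx0, map_zero, map_zero, L.zero]
      exact zero_le_one
    have h7 : v.valuation F x ≠ 0 := (Valuation.ne_zero_iff _).2 hx0
    have h8 := hL x (-WithZero.log (v.valuation F x)) (by rw [neg_neg, WithZero.exp_log h7])
    rw [← IsScalarTower.algebraMap_apply F (FK F v), h8]
    have h9 : WithZero.log (v.valuation F x) ≤ 0 := by
      rw [← WithZero.exp_log h7, ← WithZero.exp_zero] at h5
      exact WithZero.exp_le_exp.1 h5
    exact zpow_le_one₀ hc0 hc1.le (by omega)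

variable [Fintype ι] {C : ι → Crv F} {Λ : Set ℕ}

/-- **Almost all finite places.** -/
theorem glb_fin (h : ∀ l : ℕ, l.Prime → LcT C l) :
    {v : HeightOneSpectrum (𝓞 F) | ¬ ∀ n : ℕ, n ≠ 0 →
      DvP (FK F v) (fun i => (C i).V) n}.Finite := by
  refine (glb_good C).subset fun v hv hg => hv fun n hn => ?_
  have h0 : CharZero (FK F v) :=
    charZero_of_injective_algebraMap (algebraMap F (FK F v)).injective
  exact dvP_of (Λ := Set.univ) (fun l _ hp => grd_dvP (h l hp) (hg l hp)) n hn fun l _ _ => trivial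

/-- The conditions at the prime number `l`: at every finite place `v` the condition `Grd`, or `v` is not above `l` and the
Albanese kernel over `F_v` is `l`-divisible. -/
def Glc (C : ι → Crv F) (l : ℕ) : Prop :=
  ∀ v : HeightOneSpectrum (𝓞 F), Grd C l (FK F v) ∨
    v.valuation F (l : F) = 1 ∧ DvP (FK F v) (fun i => (C i).V) l

theorem glc_dvP {l : ℕ} (h : LcT C l) (hg : Glc C l) (v : HeightOneSpectrum (𝓞 F)) :
    DvP (FK F v) (fun i => (C i).V) l := by
  have h0 : CharZero (FK F v) :=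
    charZero_of_injective_algebraMap (algebraMap F (FK F v)).injective
  rcases hg v with h1 | h1
  · exact grd_dvP h h1
  · exact h1.2

/-- **The adelic Albanese kernel.** -/
theorem glb_fam (h2 : 2 ∉ Λ) (h : ∀ l ∈ Λ, l.Prime → LcT C l) (hg : ∀ l ∈ Λ, l.Prime → Glc C l)
    (n : ℕ) (hn : n ≠ 0) (hS : Sf Λ n) (c : Fam (Vpi fun i => (C i).V)) (hc : AlbPA c) :
    ∃ c' : Fam (Vpi fun i => (C i).V), AlbPA c' ∧ c.cl = n • c'.cl :=
  fam_dvP h2 (fun l hl hp v => glc_dvP (h l hl hp) (hg l hl hp) v) n hn hS c hc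

/-- **The completed statement.** -/
theorem glb_iff (h2 : 2 ∉ Λ) (h : ∀ l ∈ Λ, l.Prime → LcT C l) (hg : ∀ l ∈ Λ, l.Prime → Glc C l)
    {z : LHat (FA (Vpi fun i => (C i).V))} {z' : ∀ i, LHat (FA (C i).V)}
    (hz : ∀ i, IsPs i z (z' i)) : ImDeS Λ z ↔ ∀ i, ImDeS Λ (z' i) :=
  imDeS_iff (fun i => (C i).bp) (fun n hn hS c hc => by
    obtain ⟨c', -, h'⟩ := glb_fam h2 h hg n hn hS c hc
    exact ⟨c', h'⟩) hz

/-- The curves have potentially good reduction. -/
def Pgd (C : ι → Crv F) (K : Type) [Field K] [Algebra F K] : Prop :=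
  ∃ (M : IntermediateField K (AlgebraicClosure K)) (L : Ld M (AlgebraicClosure K)),
    FiniteDimensional K M ∧ ∀ i, Nonempty (Mod (C i) (Ok L) M)

omit [NumberField F] [Fintype ι] in
/-- Potentially good reduction: almost all prime numbers. -/
theorem pgd_fin {K : Type} [Field K] [CharZero K] [Algebra F K] (h : Pgd C K) :
    {l : ℕ | l.Prime ∧ ¬ Grd C l K}.Finite := by
  obtain ⟨M, L, hM, hm⟩ := h
  refine ((Set.finite_Iic (Module.finrank K M)).union (Set.finite_singleton L.p)).subset ?_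
  rintro l ⟨hl, hg⟩
  by_contra hc
  simp only [Set.mem_union, Set.mem_Iic, Set.mem_singleton_iff, not_or, not_le] at hc
  have hpos : 0 < Module.finrank K M := Module.finrank_pos
  exact hg ⟨M, L, hM, ((Nat.Prime.coprime_iff_not_dvd hl).2 fun h =>
    absurd (Nat.le_of_dvd hpos h) (not_le.2 hc.1)).symm, hm, Ok_unit L hl hc.2⟩

/-- **The conditions at almost all prime numbers.** They are satisfied by almost all `l` if at the places of a finite set the
curves have potentially good reduction or the Albanese kernel is `l`-divisible. -/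
theorem glc_fin (C : ι → Crv F) : ∃ S : Set (HeightOneSpectrum (𝓞 F)), S.Finite ∧
    {l : ℕ | l.Prime ∧ ¬ ((∀ v ∈ S, Pgd C (FK F v) ∨
      DvP (FK F v) (fun i => (C i).V) l) → Glc C l)}.Finite := by
  refine ⟨_, glb_good C, ?_⟩
  have h1 := (glb_good C).biUnion (t := fun v => {l : ℕ | l.Prime ∧
    ((Pgd C (FK F v) ∧ ¬ Grd C l (FK F v)) ∨ ¬ v.valuation F (l : F) = 1)}) fun v _ => ?_
  · refine h1.subset ?_
    rintro l ⟨hl, h2⟩
    by_contra h3
    refine h2 fun h4 v => ?_
    by_cases hv : v ∈ {v : HeightOneSpectrum (𝓞 F) | ¬ ∀ l : ℕ, l.Prime → Grd C l (FK F v)}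
    · have h5 : ¬ ((Pgd C (FK F v) ∧ ¬ Grd C l (FK F v)) ∨ ¬ v.valuation F (l : F) = 1) :=
        fun h6 => h3 (Set.mem_biUnion hv ⟨hl, h6⟩)
      rw [not_or, not_not] at h5
      by_cases h7 : Grd C l (FK F v)
      · exact Or.inl h7
      · rcases h4 v hv with h6 | h6
        · exact absurd ⟨h6, h7⟩ h5.1
        · exact Or.inr ⟨h5.2, h6⟩
    · exact Or.inl (not_not.1 hv l hl)
  · have hch : CharZero (FK F v) :=
      charZero_of_injective_algebraMap (algebraMap F (FK F v)).injective
    have h2 : {l : ℕ | l.Prime ∧ Pgd C (FK F v) ∧ ¬ Grd C l (FK F v)}.Finite := by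
      by_cases h : Pgd C (FK F v)
      · exact (pgd_fin h).subset fun l hl => ⟨hl.1, hl.2.2⟩
      · exact Set.finite_empty.subset fun l hl => absurd hl.2.1 h
    have h3 : {l : ℕ | l.Prime ∧ ¬ v.valuation F (l : F) = 1}.Finite := by
      obtain ⟨L, c, hc0, hc1, hL, -⟩ := exists_ldE v
      refine (Set.finite_singleton L.p).subset ?_
      rintro l ⟨hl, h4⟩
      by_contra h5
      have h6 : v.valuation F (l : F) ≠ 0 :=
        (Valuation.ne_zero_iff _).2 (Nat.cast_ne_zero.2 hl.ne_zero)
      have h7 := hL (l : F) (-WithZero.log (v.valuation F (l : F)))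
        (by rw [neg_neg, WithZero.exp_log h6])
      have h8 : L.nm (l : AlgebraicClosure (FK F v)) = 1 := L.nat_unit fun h9 =>
        h5 ((Nat.prime_dvd_prime_iff_eq L.pp hl).1 h9).symm
      rw [map_natCast, h8, ← zpow_zero c] at h7
      have h9 := zpow_right_injective₀ hc0 hc1.ne h7
      refine h4 ?_
      rw [← WithZero.exp_log h6, ← WithZero.exp_zero]
      exact congrArg _ (by omega)
    refine (h2.union h3).subset ?_
    rintro l ⟨hl, h4 | h4⟩
    · exact Or.inl ⟨hl, h4⟩
    · exact Or.inr ⟨hl, h4⟩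

end nf

end CV
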