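import Pool.Agent.Lib.MP_f80667_ag.Cv.HdA
import Pool.Agent.Lib.MP_f80667_ag.Cv.HdB

/-! The Albanese kernel is generated by the symbols. -/

open ZC BE PE Polynomial TensorProduct IntermediateField

namespace CV

variable {F : Type} [Field F] {K Ω : Type} [Field K] [Field Ω] [Algebra K Ω]
  [Algebra F K] [Algebra F Ω] [IsScalarTower F K Ω] [CharZero K] [IsAlgClosure K Ω]
  {C₁ C₂ : Crv F}

theorem bx_fst {V W : Vr F} (a : V.pt Ω →₀ ℤ) (b : W.pt Ω →₀ ℤ) :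
    Finsupp.mapDomain (fun x : (Vpr V W).pt Ω => x.1) (bx a b) = W.deg Ω b • a := by
  induction a using Finsupp.induction_linear with
  | zero => rw [map_zero, AddMonoidHom.zero_apply, Finsupp.mapDomain_zero, smul_zero]
  | add f g hf hg =>
    rw [map_add, AddMonoidHom.add_apply, Finsupp.mapDomain_add, hf, hg, smul_add]
  | single x m =>
    induction b using Finsupp.induction_linear with
    | zero => rw [map_zero, Finsupp.mapDomain_zero, map_zero, zero_smul]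
    | add f g hf hg => rw [map_add, Finsupp.mapDomain_add, hf, hg, map_add, add_smul]
    | single y n =>
      rw [bx_ss, Finsupp.mapDomain_single]
      have h1 : W.deg Ω (Finsupp.single y n) = n := by simp [Vr.deg]
      rw [h1, Finsupp.smul_single, smul_eq_mul, mul_comm]
      rfl

theorem bx_snd {V W : Vr F} (a : V.pt Ω →₀ ℤ) (b : W.pt Ω →₀ ℤ) :
    Finsupp.mapDomain (fun x : (Vpr V W).pt Ω => x.2) (bx a b) = V.deg Ω a • b := by
  induction a using Finsupp.induction_linear with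
  | zero => rw [map_zero, AddMonoidHom.zero_apply, Finsupp.mapDomain_zero, map_zero, zero_smul]
  | add f g hf hg =>
    rw [map_add, AddMonoidHom.add_apply, Finsupp.mapDomain_add, hf, hg, map_add, add_smul]
  | single x m =>
    induction b using Finsupp.induction_linear with
    | zero => rw [map_zero, Finsupp.mapDomain_zero, smul_zero]
    | add f g hf hg => rw [map_add, Finsupp.mapDomain_add, hf, hg, smul_add]
    | single y n =>
      rw [bx_ss, Finsupp.mapDomain_single]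
      have h1 : V.deg Ω (Finsupp.single x m) = m := by simp [Vr.deg]
      rw [h1, Finsupp.smul_single, smul_eq_mul]
      rfl

/-- The inclusion of the first factor. -/
private def hdE_i₁ (V W : Vr F) (o : Bp W) : Mo V (Vpr V W) where
  f L _ _ x := (x, o.o L)
  nat L M _ _ _ _ σ x := by
    change (V.map σ x, W.map σ (o.o L)) = (V.map σ x, o.o M)
    rw [o.nat]
  red K L Ω _ _ _ _ _ _ _ w x y h := ⟨h, o.red K L Ω w⟩

/-- The inclusion of the second factor. -/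
private def hdE_i₂ (V W : Vr F) (o : Bp V) : Mo W (Vpr V W) where
  f L _ _ y := (o.o L, y)
  nat L M _ _ _ _ σ x := by
    change (V.map σ (o.o L), W.map σ x) = (o.o M, W.map σ x)
    rw [o.nat]
  red K L Ω _ _ _ _ _ _ _ w x y h := ⟨o.red K L Ω w, h⟩

/-- The first projection. -/
private def hdE_p₁ (V W : Vr F) : Mo (Vpr V W) V where
  f _ _ _ x := x.1
  nat _ _ _ _ _ _ _ _ := rfl
  red _ _ _ _ _ _ _ _ _ _ _ _ _ h := h.1

/-- The second projection. -/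
private def hdE_p₂ (V W : Vr F) : Mo (Vpr V W) W where
  f _ _ _ x := x.2
  nat _ _ _ _ _ _ _ _ := rfl
  red _ _ _ _ _ _ _ _ _ _ _ _ _ h := h.2

omit [CharZero K] [IsAlgClosure K Ω] in
/-- Push-forwards are equivariant. -/
private theorem hdE_smul {V W : Vr F} [Hf V] [Hf W] (φ : Mo V W) (γ : Ω ≃ₐ[K] Ω)
    (z : V.pt Ω →₀ ℤ) :
    Finsupp.mapDomain (φ.f Ω) (γ • z) = γ • Finsupp.mapDomain (φ.f Ω) z := by
  rw [smul_def, smul_def, ← Finsupp.mapDomain_comp, ← Finsupp.mapDomain_comp]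
  exact congrArg (fun g => Finsupp.mapDomain g z) (funext fun x => (φ.act γ x).symm)

/-- The projection to the Albanese kernel. -/
private noncomputable def hdE_pi {V W : Vr F} (o₁ : Bp V) (o₂ : Bp W) :
    ((Vpr V W).pt Ω →₀ ℤ) →+ ((Vpr V W).pt Ω →₀ ℤ) :=
  AddMonoidHom.id _ -
    (Finsupp.mapDomain.addMonoidHom ((hdE_i₁ V W o₂).f Ω)).comp
      (Finsupp.mapDomain.addMonoidHom ((hdE_p₁ V W).f Ω)) -
    (Finsupp.mapDomain.addMonoidHom ((hdE_i₂ V W o₁).f Ω)).comp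
      (Finsupp.mapDomain.addMonoidHom ((hdE_p₂ V W).f Ω)) +
    (Finsupp.singleAddHom (pp (V := V) (W := W) (o₁.o Ω) (o₂.o Ω))).comp ((Vpr V W).deg Ω)

omit [Algebra F K] [IsScalarTower F K Ω] [CharZero K] [IsAlgClosure K Ω] [Field K] [Algebra K Ω] in
private theorem hdE_pi_apply {V W : Vr F} (o₁ : Bp V) (o₂ : Bp W) (z : (Vpr V W).pt Ω →₀ ℤ) :
    hdE_pi o₁ o₂ z = z - Finsupp.mapDomain ((hdE_i₁ V W o₂).f Ω)
        (Finsupp.mapDomain ((hdE_p₁ V W).f Ω) z) -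
      Finsupp.mapDomain ((hdE_i₂ V W o₁).f Ω) (Finsupp.mapDomain ((hdE_p₂ V W).f Ω) z) +
      Finsupp.single (pp (V := V) (W := W) (o₁.o Ω) (o₂.o Ω)) ((Vpr V W).deg Ω z) := rfl

omit [CharZero K] [IsAlgClosure K Ω] in
private theorem hdE_pi_smul {V W : Vr F} [Hf V] [Hf W] (o₁ : Bp V) (o₂ : Bp W) (γ : Ω ≃ₐ[K] Ω)
    (z : (Vpr V W).pt Ω →₀ ℤ) : hdE_pi o₁ o₂ (γ • z) = γ • hdE_pi o₁ o₂ z := by
  rw [hdE_pi_apply, hdE_pi_apply, smul_add, smul_sub, smul_sub, hdE_smul, hdE_smul, hdE_smul,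
    hdE_smul, deg_smul, smul_single]
  congr 2
  exact (Prod.ext (o₁.nat Ω Ω _) (o₂.nat Ω Ω _)).symm

private theorem hdE_pi_single {V W : Vr F} (o₁ : Bp V) (o₂ : Bp W) (x : (Vpr V W).pt Ω) :
    hdE_pi o₁ o₂ (Finsupp.single x 1) =
      bx (rd o₁ (Finsupp.single x.1 1)) (rd o₂ (Finsupp.single x.2 1)) := by
  rw [hdE_pi_apply, rd_apply, rd_apply]
  have h1 : V.deg Ω (Finsupp.single x.1 1) = 1 := by simp [Vr.deg]
  have h2 : W.deg Ω (Finsupp.single x.2 1) = 1 := by simp [Vr.deg]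
  have h3 : (Vpr V W).deg Ω (Finsupp.single x 1) = 1 := by simp [Vr.deg]
  rw [h1, h2, h3, map_sub, map_sub, AddMonoidHom.sub_apply, AddMonoidHom.sub_apply, bx_ss, bx_ss,
    bx_ss, bx_ss, Finsupp.mapDomain_single, Finsupp.mapDomain_single, Finsupp.mapDomain_single,
    Finsupp.mapDomain_single, mul_one]
  change Finsupp.single (pp x.1 x.2) 1 - Finsupp.single (pp x.1 (o₂.o Ω)) 1 -
    Finsupp.single (pp (o₁.o Ω) x.2) 1 + Finsupp.single (pp (o₁.o Ω) (o₂.o Ω)) 1 = _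
  abel

/-- Proof: the projection `z ↦ z - z₁ × ∞ - ∞ × z₂ + deg z (∞, ∞)`, `z₁`, `z₂` the push-forwards, is additive, is the
identity modulo `ratEq K Ω` on the cycles with `h₀`, `h₁`, `h₂` (`Mo.ratEq` for the inclusions `x ↦ (x, ∞)`,
`y ↦ (∞, y)`, `C.bp`), commutes with norms and maps `[(x, y)]` to `bx (rd [x]) (rd [y])`. Apply it to the generators
`Nm ⊥ M [(x, y)]` of `fx_gen`: the class is `sy M [x] [y]`. -/
theorem t_mem {z : (Vpr C₁.V C₂.V).pt Ω →₀ ℤ} (hz : z ∈ (Vpr C₁.V C₂.V).D0 K Ω)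
    (h₁ : Finsupp.mapDomain (fun x => x.1) z ∈ C₁.V.ratEq K Ω)
    (h₂ : Finsupp.mapDomain (fun x => x.2) z ∈ C₂.V.ratEq K Ω) :
    QuotientAddGroup.mk z ∈ (scC (K := K) C₁.bp C₂.bp).T := by
  have hfp : ∀ x : (Vpr C₁.V C₂.V).pt Ω,
      ∃ M : IntermediateField K Ω, FiniteDimensional K M ∧ Fp (Vpr C₁.V C₂.V) M x := by
    intro x
    obtain ⟨M₁, i₁, e₁⟩ := exists_fp (K := K) C₁ x.1
    obtain ⟨M₂, i₂, e₂⟩ := exists_fp (K := K) C₂ x.2
    refine ⟨M₁ ⊔ M₂, inferInstance, fun γ hγ => ?_⟩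
    exact Prod.ext (e₁ γ (IntermediateField.fixingSubgroup_le le_sup_left hγ))
      (e₂ γ (IntermediateField.fixingSubgroup_le le_sup_right hγ))
  have hfx : Fx (⊥ : IntermediateField K Ω) z := fun γ _ => hz.1 γ
  have hbot : FiniteDimensional K (⊥ : IntermediateField K Ω) := inferInstance
  have hgen := fx_gen hfp hfx
  have key : ((QuotientAddGroup.mk (hdE_pi C₁.bp C₂.bp z) :
      ((Vpr C₁.V C₂.V).pt Ω →₀ ℤ) ⧸ (Vpr C₁.V C₂.V).ratEq K Ω)) ∈
        (scC (K := K) C₁.bp C₂.bp).T := by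
    have hle : AddSubgroup.closure {z : (Vpr C₁.V C₂.V).pt Ω →₀ ℤ |
        ∃ (M' : IntermediateField K Ω) (x : (Vpr C₁.V C₂.V).pt Ω), ⊥ ≤ M' ∧
        FiniteDimensional K M' ∧ Fp (Vpr C₁.V C₂.V) M' x ∧
          z = Nm (⊥ : IntermediateField K Ω) M' (Finsupp.single x 1)} ≤
        (scC (K := K) C₁.bp C₂.bp).T.comap
          ((QuotientAddGroup.mk' ((Vpr C₁.V C₂.V).ratEq K Ω)).comp
            (hdE_pi C₁.bp C₂.bp)) := by
      rw [AddSubgroup.closure_le]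
      rintro _ ⟨M', x, hM', hfin, hfx', rfl⟩
      change (QuotientAddGroup.mk (hdE_pi C₁.bp C₂.bp _) :
        ((Vpr C₁.V C₂.V).pt Ω →₀ ℤ) ⧸ (Vpr C₁.V C₂.V).ratEq K Ω) ∈
          (scC (K := K) C₁.bp C₂.bp).T
      rw [hom_nm (hdE_pi C₁.bp C₂.bp) hM' (fun γ _ a => hdE_pi_smul _ _ γ a),
        hdE_pi_single, ← scC_sy]
      refine Sc.sy_mem _ _ ?_ ?_
      · exact fx_single (V := C₁.V) (x := x.1) (fun γ hγ => congrArg Prod.fst (hfx' γ hγ)) 1
      · exact fx_single (V := C₂.V) (x := x.2) (fun γ hγ => congrArg Prod.snd (hfx' γ hγ)) 1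
    exact hle hgen
  have heq : (QuotientAddGroup.mk z : ((Vpr C₁.V C₂.V).pt Ω →₀ ℤ) ⧸ (Vpr C₁.V C₂.V).ratEq K Ω) =
      QuotientAddGroup.mk (hdE_pi C₁.bp C₂.bp z) := by
    rw [QuotientAddGroup.eq]
    have h0 : (Vpr C₁.V C₂.V).deg Ω z = 0 := hz.2
    have e : -z + hdE_pi C₁.bp C₂.bp z =
        -(Finsupp.mapDomain ((hdE_i₁ C₁.V C₂.V C₂.bp).f Ω)
          (Finsupp.mapDomain ((hdE_p₁ C₁.V C₂.V).f Ω) z)) -
        Finsupp.mapDomain ((hdE_i₂ C₁.V C₂.V C₁.bp).f Ω)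
          (Finsupp.mapDomain ((hdE_p₂ C₁.V C₂.V).f Ω) z) := by
      rw [hdE_pi_apply, h0, Finsupp.single_zero]
      abel
    rw [e]
    exact sub_mem (neg_mem ((hdE_i₁ C₁.V C₂.V C₂.bp).ratEq K Ω h₁))
      ((hdE_i₂ C₁.V C₂.V C₁.bp).ratEq K Ω h₂)
  rw [heq]
  exact key

/-- Proof: `Nm ⊥ M (bx (rd a) (rd b))` is invariant (`nm_fx`), of degree `0`, its push-forwards are `0` (`bx_fst`,
`bx_snd`, `rd_deg`, `hom_nm`). -/
theorem t_rep {g : ((Vpr C₁.V C₂.V).pt Ω →₀ ℤ) ⧸ (Vpr C₁.V C₂.V).ratEq K Ω}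
    (hg : g ∈ (scC (K := K) C₁.bp C₂.bp).T) : ∃ z ∈ (Vpr C₁.V C₂.V).D0 K Ω,
      Finsupp.mapDomain (fun x => x.1) z = 0 ∧ Finsupp.mapDomain (fun x => x.2) z = 0 ∧
      g = QuotientAddGroup.mk z := by
  refine AddSubgroup.closure_induction (p := fun g _ => ∃ z ∈ (Vpr C₁.V C₂.V).D0 K Ω,
      Finsupp.mapDomain (fun x => x.1) z = 0 ∧ Finsupp.mapDomain (fun x => x.2) z = 0 ∧
      g = QuotientAddGroup.mk z) ?_ ?_ ?_ ?_ hg
  · rintro _ ⟨M, P, Q, hM, hP, hQ, rfl⟩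
    have hz0 : ∀ (V : Vr F) [Hf V], Nm (⊥ : IntermediateField K Ω) M (0 : V.pt Ω →₀ ℤ) = 0 := by
      intro V _
      obtain ⟨s, -, -, -, h3⟩ := nm_rep (M := (⊥ : IntermediateField K Ω)) (N := M) bot_le
      rw [h3]
      exact Finset.sum_eq_zero fun γ _ => smul_zero γ
    have e1 : Finsupp.mapDomain ((hdE_p₁ C₁.V C₂.V).f Ω) (Nm (⊥ : IntermediateField K Ω) M
        (bx (rd C₁.bp P) (rd C₂.bp Q))) = 0 := by
      have h := hom_nm (M := (⊥ : IntermediateField K Ω)) (N := M)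
        (Finsupp.mapDomain.addMonoidHom ((hdE_p₁ C₁.V C₂.V).f Ω)) bot_le
        (fun γ _ a => hdE_smul (hdE_p₁ C₁.V C₂.V) γ a) (bx (rd C₁.bp P) (rd C₂.bp Q))
      refine h.trans ?_
      have h' : Finsupp.mapDomain.addMonoidHom (M := ℤ) ((hdE_p₁ C₁.V C₂.V).f Ω)
          (bx (rd C₁.bp P) (rd C₂.bp Q)) = 0 :=
        (bx_fst _ _).trans (by rw [rd_deg, zero_smul])
      rw [h', hz0]
    have e2 : Finsupp.mapDomain ((hdE_p₂ C₁.V C₂.V).f Ω) (Nm (⊥ : IntermediateField K Ω) M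
        (bx (rd C₁.bp P) (rd C₂.bp Q))) = 0 := by
      have h := hom_nm (M := (⊥ : IntermediateField K Ω)) (N := M)
        (Finsupp.mapDomain.addMonoidHom ((hdE_p₂ C₁.V C₂.V).f Ω)) bot_le
        (fun γ _ a => hdE_smul (hdE_p₂ C₁.V C₂.V) γ a) (bx (rd C₁.bp P) (rd C₂.bp Q))
      refine h.trans ?_
      have h' : Finsupp.mapDomain.addMonoidHom (M := ℤ) ((hdE_p₂ C₁.V C₂.V).f Ω)
          (bx (rd C₁.bp P) (rd C₂.bp Q)) = 0 :=
        (bx_snd _ _).trans (by rw [rd_deg, zero_smul])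
      rw [h', hz0]
    refine ⟨Nm (⊥ : IntermediateField K Ω) M (bx (rd C₁.bp P) (rd C₂.bp Q)), ⟨?_, ?_⟩, e1, e2,
      rfl⟩
    · intro γ
      refine nm_fx (M := (⊥ : IntermediateField K Ω)) (N := M) bot_le
        (bx_fx (rd_fx C₁.bp hP) (rd_fx C₂.bp hQ)) γ ?_
      rw [IntermediateField.fixingSubgroup_bot]
      trivial
    · have h := Mo.deg (V := Vpr C₁.V C₂.V) (V' := C₁.V) ((hdE_p₁ C₁.V C₂.V).f Ω)
        (Nm (⊥ : IntermediateField K Ω) M (bx (rd C₁.bp P) (rd C₂.bp Q)))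
      rw [e1, map_zero] at h
      exact h.symm
  · exact ⟨0, zero_mem _, Finsupp.mapDomain_zero, Finsupp.mapDomain_zero, rfl⟩
  · rintro _ _ _ _ ⟨z, hz, h1, h2, rfl⟩ ⟨z', hz', h1', h2', rfl⟩
    exact ⟨z + z', add_mem hz hz', by rw [Finsupp.mapDomain_add, h1, h1', add_zero],
      by rw [Finsupp.mapDomain_add, h2, h2', add_zero], rfl⟩
  · rintro _ _ ⟨z, hz, h1, h2, rfl⟩
    refine ⟨-z, neg_mem hz, ?_, ?_, rfl⟩
    · have h := (Finsupp.mapDomain.addMonoidHom (M := ℤ)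
        (fun x : (Vpr C₁.V C₂.V).pt Ω => x.1)).map_neg z
      exact h.trans (by
        change -Finsupp.mapDomain (fun x : (Vpr C₁.V C₂.V).pt Ω => x.1) z = 0
        rw [h1, neg_zero])
    · have h := (Finsupp.mapDomain.addMonoidHom (M := ℤ)
        (fun x : (Vpr C₁.V C₂.V).pt Ω => x.2)).map_neg z
      exact h.trans (by
        change -Finsupp.mapDomain (fun x : (Vpr C₁.V C₂.V).pt Ω => x.2) z = 0
        rw [h2, neg_zero])

end CV
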