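import Pool.Agent.Lib.MP_f80667_ag.Cv.NfA

/-! A point of the product minus its components is a sum of symbols in two coordinates. -/

open ZC BE PE Polynomial IntermediateField

namespace CV

variable {F : Type} [Field F] {K Ω : Type} [Field K] [Field Ω] [Algebra K Ω]
  [Algebra F K] [Algebra F Ω] [IsScalarTower F K Ω] [CharZero K] [IsAlgClosure K Ω]
  {ι : Type} (C : ι → Crv F)

/-- The cycles generated by the symbols in two coordinates. -/
noncomputable def To (M : IntermediateField K Ω) :
    AddSubgroup ((Vpi fun i => (C i).V).pt Ω →₀ ℤ) :=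
  AddSubgroup.closure {z | ∃ (i j : ι) (w : (Vpi fun i => (C i).V).pt Ω) (p : (C i).V.pt Ω)
    (q : (C j).V.pt Ω), i ≠ j ∧ Fp (Vpi fun i => (C i).V) M w ∧ Fp (C i).V M p ∧ Fp (C j).V M q ∧
    z = Finsupp.mapDomain (u₂ w i j) (bx (rd (C i).bp (Finsupp.single p 1))
      (rd (C j).bp (Finsupp.single q 1)))}

/-- The base point. -/
def o' : (Vpi fun i => (C i).V).pt Ω := fun i => (C i).bp.o Ω

variable (Ω) in
/-- The component in the Albanese kernel. -/
noncomputable def th [Fintype ι] : ((Vpi fun i => (C i).V).pt Ω →₀ ℤ) →+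
    ((Vpi fun i => (C i).V).pt Ω →₀ ℤ) :=
  AddMonoidHom.id _ - ∑ i, Finsupp.mapDomain.addMonoidHom (fun x => u₁ (o' C) i (x i)) +
    ((Fintype.card ι : ℤ) - 1) • Finsupp.mapDomain.addMonoidHom (fun _ => o' C)

open Classical in
/-- The point `x` on `S` and the base point outside. -/
private noncomputable def xs (x : (Vpi fun i => (C i).V).pt Ω) (S : Finset ι) :
    (Vpi fun i => (C i).V).pt Ω := fun i => if i ∈ S then x i else (C i).bp.o Ω

private theorem bp_act (i : ι) (γ : Ω ≃ₐ[K] Ω) :
    (C i).V.act γ ((C i).bp.o Ω) = (C i).bp.o Ω :=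
  (C i).bp.nat Ω Ω _

private theorem xs_fp {M : IntermediateField K Ω} {x : (Vpi fun i => (C i).V).pt Ω}
    (hx : Fp (Vpi fun i => (C i).V) M x) (S : Finset ι) :
    Fp (Vpi fun i => (C i).V) M (xs C x S) := by
  intro γ hγ
  funext i
  change (C i).V.act γ (xs C x S i) = xs C x S i
  unfold xs
  split_ifs
  · exact congrFun (hx γ hγ) i
  · exact bp_act C i γ

private theorem rd_single (i : ι) (p : (C i).V.pt Ω) :
    rd (C i).bp (Finsupp.single p 1) = Finsupp.single p 1 - Finsupp.single ((C i).bp.o Ω) 1 := by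
  rw [rd_apply]
  congr 2
  simp [Vr.deg]

open Classical in
private theorem bx_rd (w : (Vpi fun i => (C i).V).pt Ω) (i j : ι) (p : (C i).V.pt Ω)
    (q : (C j).V.pt Ω) :
    Finsupp.mapDomain (u₂ w i j) (bx (rd (C i).bp (Finsupp.single p 1))
      (rd (C j).bp (Finsupp.single q 1))) =
      (Finsupp.single (u₂ w i j (p, q)) 1 - Finsupp.single (u₂ w i j (p, (C j).bp.o Ω)) 1 -
        Finsupp.single (u₂ w i j ((C i).bp.o Ω, q)) 1 +
        Finsupp.single (u₂ w i j ((C i).bp.o Ω, (C j).bp.o Ω)) 1 :
        (Vpi fun i => (C i).V).pt Ω →₀ ℤ) := by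
  have h0 : bx (Finsupp.single p 1 - Finsupp.single ((C i).bp.o Ω) 1)
      (Finsupp.single q 1 - Finsupp.single ((C j).bp.o Ω) 1) =
      bx (Finsupp.single p 1) (Finsupp.single q 1) -
        bx (Finsupp.single ((C i).bp.o Ω) 1) (Finsupp.single q 1) -
        (bx (Finsupp.single p 1) (Finsupp.single ((C j).bp.o Ω) 1) -
          bx (Finsupp.single ((C i).bp.o Ω) 1) (Finsupp.single ((C j).bp.o Ω) 1)) := by
    rw [map_sub (bx _), map_sub bx, AddMonoidHom.sub_apply, AddMonoidHom.sub_apply]
  rw [rd_single, rd_single, h0, bx_ss, bx_ss, bx_ss, bx_ss, mul_one]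
  have h1 : ∀ z z' : (Vpr (C i).V (C j).V).pt Ω →₀ ℤ,
      Finsupp.mapDomain (u₂ w i j) (z - z') =
        Finsupp.mapDomain (u₂ w i j) z - Finsupp.mapDomain (u₂ w i j) z' := fun z z' =>
    (Finsupp.mapDomain.addMonoidHom (u₂ w i j)).map_sub z z'
  rw [h1, h1, h1, Finsupp.mapDomain_single, Finsupp.mapDomain_single, Finsupp.mapDomain_single,
    Finsupp.mapDomain_single]
  unfold pp
  abel

open Classical in
private theorem gen_mem {M : IntermediateField K Ω} {x : (Vpi fun i => (C i).V).pt Ω}
    (hx : Fp (Vpi fun i => (C i).V) M x) {S : Finset ι} {j k : ι} (hj : j ∉ S) (hk : k ∉ S)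
    (hjk : j ≠ k) :
    (Finsupp.single (xs C x (insert k (insert j S))) 1 - Finsupp.single (xs C x (insert j S)) 1 -
      Finsupp.single (xs C x (insert k S)) 1 + Finsupp.single (xs C x S) 1 :
      (Vpi fun i => (C i).V).pt Ω →₀ ℤ) ∈ To C M := by
  have h1 : (Finsupp.single (xs C x (insert k (insert j S))) 1 -
      Finsupp.single (xs C x (insert j S)) 1 -
      Finsupp.single (xs C x (insert k S)) 1 + Finsupp.single (xs C x S) 1 :
      (Vpi fun i => (C i).V).pt Ω →₀ ℤ) = Finsupp.mapDomain (u₂ (xs C x S) j k)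
        (bx (rd (C j).bp (Finsupp.single (x j) 1)) (rd (C k).bp (Finsupp.single (x k) 1))) := by
    rw [bx_rd]
    have e1 : u₂ (xs C x S) j k (x j, x k) = xs C x (insert k (insert j S)) := by
      funext i
      unfold u₂
      rcases eq_or_ne i k with rfl | hik
      · rw [Function.update_self]
        simp [xs]
      · rw [Function.update_of_ne hik]
        rcases eq_or_ne i j with rfl | hij
        · rw [Function.update_self]
          simp [xs]
        · rw [Function.update_of_ne hij]
          simp [xs, hik, hij]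
    have e2 : u₂ (xs C x S) j k (x j, (C k).bp.o Ω) = xs C x (insert j S) := by
      funext i
      unfold u₂
      rcases eq_or_ne i k with rfl | hik
      · rw [Function.update_self]
        simp [xs, hk, hjk.symm]
      · rw [Function.update_of_ne hik]
        rcases eq_or_ne i j with rfl | hij
        · rw [Function.update_self]
          simp [xs]
        · rw [Function.update_of_ne hij]
          simp [xs, hij]
    have e3 : u₂ (xs C x S) j k ((C j).bp.o Ω, x k) = xs C x (insert k S) := by
      funext i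
      unfold u₂
      rcases eq_or_ne i k with rfl | hik
      · rw [Function.update_self]
        simp [xs]
      · rw [Function.update_of_ne hik]
        rcases eq_or_ne i j with rfl | hij
        · rw [Function.update_self]
          simp [xs, hj, hjk]
        · rw [Function.update_of_ne hij]
          simp [xs, hik]
    have e4 : u₂ (xs C x S) j k ((C j).bp.o Ω, (C k).bp.o Ω) = xs C x S := by
      funext i
      unfold u₂
      rcases eq_or_ne i k with rfl | hik
      · rw [Function.update_self]
        simp [xs, hk]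
      · rw [Function.update_of_ne hik]
        rcases eq_or_ne i j with rfl | hij
        · rw [Function.update_self]
          simp [xs, hj]
        · rw [Function.update_of_ne hij]
    rw [e1, e2, e3, e4]
  rw [h1]
  exact AddSubgroup.subset_closure ⟨j, k, xs C x S, x j, x k, hjk, xs_fp C hx S,
    fun γ hγ => congrFun (hx γ hγ) j, fun γ hγ => congrFun (hx γ hγ) k, rfl⟩

open Classical in
private theorem step_mem {M : IntermediateField K Ω} {x : (Vpi fun i => (C i).V).pt Ω}
    (hx : Fp (Vpi fun i => (C i).V) M x) (S : Finset ι) {k : ι} (hk : k ∉ S) :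
    (Finsupp.single (xs C x (insert k S)) 1 - Finsupp.single (xs C x S) 1 -
      Finsupp.single (xs C x {k}) 1 + Finsupp.single (xs C x ∅) 1 :
      (Vpi fun i => (C i).V).pt Ω →₀ ℤ) ∈ To C M := by
  induction S using Finset.induction_on with
  | empty =>
    have h1 : (Finsupp.single (xs C x (insert k ∅)) 1 - Finsupp.single (xs C x ∅) 1 -
      Finsupp.single (xs C x {k}) 1 + Finsupp.single (xs C x ∅) 1 :
      (Vpi fun i => (C i).V).pt Ω →₀ ℤ) = 0 := by
      rw [insert_empty_eq]
      abel
    rw [h1]
    exact zero_mem _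
  | insert j S hj ih =>
    have hkj : k ≠ j := fun h => hk (h ▸ Finset.mem_insert_self _ _)
    have hkS : k ∉ S := fun h => hk (Finset.mem_insert_of_mem h)
    have h1 := add_mem (gen_mem C hx hj hkS hkj.symm) (ih hkS)
    have h2 : (Finsupp.single (xs C x (insert k (insert j S))) 1 -
        Finsupp.single (xs C x (insert j S)) 1 -
        Finsupp.single (xs C x {k}) 1 + Finsupp.single (xs C x ∅) 1 :
        (Vpi fun i => (C i).V).pt Ω →₀ ℤ) =
        (Finsupp.single (xs C x (insert k (insert j S))) 1 -
          Finsupp.single (xs C x (insert j S)) 1 -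
          Finsupp.single (xs C x (insert k S)) 1 + Finsupp.single (xs C x S) 1) +
        (Finsupp.single (xs C x (insert k S)) 1 - Finsupp.single (xs C x S) 1 -
          Finsupp.single (xs C x {k}) 1 + Finsupp.single (xs C x ∅) 1) := by
      abel
    rw [h2]
    exact h1

open Classical in
private theorem all_mem {M : IntermediateField K Ω} {x : (Vpi fun i => (C i).V).pt Ω}
    (hx : Fp (Vpi fun i => (C i).V) M x) (S : Finset ι) :
    (Finsupp.single (xs C x S) 1 - ∑ i ∈ S, Finsupp.single (xs C x {i}) 1 +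
      ((S.card : ℤ) - 1) • Finsupp.single (xs C x ∅) 1 :
      (Vpi fun i => (C i).V).pt Ω →₀ ℤ) ∈ To C M := by
  induction S using Finset.induction_on with
  | empty =>
    have h1 : (Finsupp.single (xs C x ∅) 1 - ∑ i ∈ (∅ : Finset ι), Finsupp.single (xs C x {i}) 1 +
      (((∅ : Finset ι).card : ℤ) - 1) • Finsupp.single (xs C x ∅) 1 :
      (Vpi fun i => (C i).V).pt Ω →₀ ℤ) = 0 := by
      rw [Finset.sum_empty, Finset.card_empty, Nat.cast_zero, zero_sub, neg_smul, one_smul]
      abel
    rw [h1]
    exact zero_mem _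
  | insert k S hk ih =>
    have h1 := add_mem (step_mem C hx S hk) ih
    have h2 : (Finsupp.single (xs C x (insert k S)) 1 -
        ∑ i ∈ insert k S, Finsupp.single (xs C x {i}) 1 +
        (((insert k S).card : ℤ) - 1) • Finsupp.single (xs C x ∅) 1 :
        (Vpi fun i => (C i).V).pt Ω →₀ ℤ) =
        (Finsupp.single (xs C x (insert k S)) 1 - Finsupp.single (xs C x S) 1 -
          Finsupp.single (xs C x {k}) 1 + Finsupp.single (xs C x ∅) 1) +
        (Finsupp.single (xs C x S) 1 - ∑ i ∈ S, Finsupp.single (xs C x {i}) 1 +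
          ((S.card : ℤ) - 1) • Finsupp.single (xs C x ∅) 1) := by
      rw [Finset.sum_insert hk, Finset.card_insert_of_notMem hk, Nat.cast_succ,
        add_sub_cancel_right, sub_smul, one_smul]
      abel
    rw [h2]
    exact h1

/-- Proof: for finite sets `S` of indices let `x_S` be `x` on `S` and `∞` outside: by induction on `S`,
`[x_S] - ∑ (i ∈ S) [x_{i}] + (|S| - 1) [∞] ∈ To`: for `k ∉ S`, `[x_(S ∪ k)] - [x_S] - [x_{k}] + [∞] ∈ To` by induction on
`S`: for `j ∉ S`, `j ≠ k`, `[x_(S ∪ j ∪ k)] - [x_(S ∪ j)] - [x_(S ∪ k)] + [x_S]` is the generator with `w = x_S`, `p = x j`,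
`q = x k`. -/
theorem tele [Fintype ι] {M : IntermediateField K Ω} {x : (Vpi fun i => (C i).V).pt Ω}
    (hx : Fp (Vpi fun i => (C i).V) M x) : th Ω C (Finsupp.single x 1) ∈ To C M := by
  classical
  have h1 := all_mem C hx Finset.univ
  have e0 : xs C x ∅ = o' C := by
    funext i
    simp [xs, o']
  have e1 : xs C x Finset.univ = x := by
    funext i
    simp [xs]
  have e2 : ∀ i, xs C x {i} = u₁ (o' C) i (x i) := by
    intro i
    funext j
    unfold u₁
    rcases eq_or_ne j i with rfl | hj
    · rw [Function.update_self]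
      simp [xs]
    · rw [Function.update_of_ne hj]
      simp [xs, o', hj]
  rw [e0, e1, Finset.card_univ] at h1
  have h2 : th Ω C (Finsupp.single x 1) =
      Finsupp.single x 1 - ∑ i ∈ Finset.univ, Finsupp.single (xs C x {i}) 1 +
        ((Fintype.card ι : ℤ) - 1) • Finsupp.single (o' C) 1 := by
    rw [th, AddMonoidHom.add_apply, AddMonoidHom.sub_apply, AddMonoidHom.finsetSum_apply,
      AddMonoidHom.id_apply, AddMonoidHom.smul_apply, Finsupp.mapDomain.addMonoidHom_apply,
      Finsupp.mapDomain_single]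
    congr 2
    refine Finset.sum_congr rfl fun i _ => ?_
    rw [Finsupp.mapDomain.addMonoidHom_apply, Finsupp.mapDomain_single, e2]
  rw [h2]
  exact h1

end CV
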