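import Pool.Agent.Lib.MP_f80667_ag.Cv.NfB
import Pool.Agent.Lib.MP_f80667_ag.Cv.NfC
import Pool.Agent.Lib.MP_f80667_ag.Cv.HdE

/-! The local theorem for a product of several curves from the theorem for two curves. -/

open ZC BE PE Polynomial IntermediateField

namespace CV

variable {F : Type} [Field F]

/-- The Albanese kernel of the product of two varieties over `K` is `l`-divisible. -/
def DvR (V W : Vr F) (K Ω : Type) [Field K] [Algebra F K] [Field Ω] [Algebra K Ω] [Algebra F Ω]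
    [IsScalarTower F K Ω] (l : ℕ) : Prop :=
  ∀ z ∈ (Vpr V W).D0 K Ω, Finsupp.mapDomain (fun x => x.1) z ∈ V.ratEq K Ω →
    Finsupp.mapDomain (fun x => x.2) z ∈ W.ratEq K Ω → ∃ z' ∈ (Vpr V W).D0 K Ω,
    Finsupp.mapDomain (fun x => x.1) z' ∈ V.ratEq K Ω ∧
    Finsupp.mapDomain (fun x => x.2) z' ∈ W.ratEq K Ω ∧ z - l • z' ∈ (Vpr V W).ratEq K Ω

instance instTower {K Ω : Type} [Field K] [Field Ω] [Algebra K Ω] [Algebra F K] [Algebra F Ω]
    [IsScalarTower F K Ω] (M : IntermediateField K Ω) : IsScalarTower F M Ω :=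
  IsScalarTower.of_algebraMap_eq fun _ => rfl

variable {K Ω : Type} [Field K] [Field Ω] [Algebra K Ω]
  [Algebra F K] [Algebra F Ω] [IsScalarTower F K Ω] [CharZero K] [IsAlgClosure K Ω] {L : Ld K Ω}
  {ι : Type} {C : ι → Crv F}

omit [CharZero K] [IsAlgClosure K Ω] in
/-- Invariant cycles are cycles over `M`. -/
private theorem nfD_fx_cyc {V : Vr F} [Hf V] {M : IntermediateField K Ω} {z : V.pt Ω →₀ ℤ} :
    Fx M z ↔ z ∈ V.cyc M Ω := by
  constructor
  · intro h σ
    have hγ : σ.restrictScalars K ∈ M.fixingSubgroup := by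
      rw [IntermediateField.mem_fixingSubgroup_iff]
      intro x hx
      exact σ.commutes ⟨x, hx⟩
    exact h (σ.restrictScalars K) hγ
  · intro h γ hγ
    exact h (IntermediateField.fixingSubgroupEquiv M ⟨γ, hγ⟩)

omit [CharZero K] [IsAlgClosure K Ω] in
private theorem nfD_smul {V W : Vr F} [Hf V] [Hf W] (φ : Mo V W) (γ : Ω ≃ₐ[K] Ω)
    (z : V.pt Ω →₀ ℤ) :
    Finsupp.mapDomain (φ.f Ω) (γ • z) = γ • Finsupp.mapDomain (φ.f Ω) z := by
  rw [smul_def, smul_def, ← Finsupp.mapDomain_comp, ← Finsupp.mapDomain_comp]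
  exact congrArg (fun g => Finsupp.mapDomain g z) (funext fun x => (φ.act γ x).symm)

private theorem nfD_u₂_smul {M : IntermediateField K Ω} {w : (Vpi fun i => (C i).V).pt Ω}
    (hw : Fp (Vpi fun i => (C i).V) M w) (i j : ι) {γ : Ω ≃ₐ[K] Ω} (hγ : γ ∈ M.fixingSubgroup)
    (z : (Vpr (C i).V (C j).V).pt Ω →₀ ℤ) :
    Finsupp.mapDomain (u₂ w i j) (γ • z) = γ • Finsupp.mapDomain (u₂ w i j) z := by
  rw [smul_def, smul_def, ← Finsupp.mapDomain_comp, ← Finsupp.mapDomain_comp]
  exact congrArg (fun g => Finsupp.mapDomain g z) (funext fun x => (u₂_act hw i j x hγ).symm)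

private theorem nfD_u₂_fx {M : IntermediateField K Ω} {w : (Vpi fun i => (C i).V).pt Ω}
    (hw : Fp (Vpi fun i => (C i).V) M w) (i j : ι) {z : (Vpr (C i).V (C j).V).pt Ω →₀ ℤ}
    (hz : Fx M z) : Fx M (Finsupp.mapDomain (u₂ w i j) z) := fun γ hγ => by
  rw [← nfD_u₂_smul hw i j hγ, hz γ hγ]

private theorem nfD_nm_zero {V : Vr F} [Hf V] {M : IntermediateField K Ω}
    [FiniteDimensional K M] : Nm (⊥ : IntermediateField K Ω) M (0 : V.pt Ω →₀ ℤ) = 0 := by
  obtain ⟨s, -, -, -, h3⟩ := nm_rep (M := (⊥ : IntermediateField K Ω)) (N := M) bot_le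
  rw [h3]
  exact Finset.sum_eq_zero fun γ _ => smul_zero γ

private theorem nfD_nm_deg {V : Vr F} [Hf V] {M : IntermediateField K Ω}
    [FiniteDimensional K M] {z : V.pt Ω →₀ ℤ} (h : V.deg Ω z = 0) :
    V.deg Ω (Nm (⊥ : IntermediateField K Ω) M z) = 0 := by
  obtain ⟨s, -, -, -, h3⟩ := nm_rep (M := (⊥ : IntermediateField K Ω)) (N := M) bot_le
  rw [h3, map_sum]
  exact Finset.sum_eq_zero fun γ _ => by rw [deg_smul, h]

private theorem nfD_nm_D0 {V : Vr F} [Hf V] {M : IntermediateField K Ω}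
    [FiniteDimensional K M] {z : V.pt Ω →₀ ℤ} (h : Fx M z) (h0 : V.deg Ω z = 0) :
    Nm (⊥ : IntermediateField K Ω) M z ∈ V.D0 K Ω := by
  refine ⟨fun γ => ?_, nfD_nm_deg h0⟩
  refine nm_fx (M := (⊥ : IntermediateField K Ω)) (N := M) bot_le h γ ?_
  rw [IntermediateField.fixingSubgroup_bot]
  trivial

private theorem nfD_const {V W : Vr F} (o : W.pt Ω) (u : V.pt Ω →₀ ℤ) :
    Finsupp.mapDomain (fun _ => o) u = Finsupp.single o (V.deg Ω u) := by
  induction u using Finsupp.induction_linear with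
  | zero => rw [Finsupp.mapDomain_zero, map_zero, Finsupp.single_zero]
  | add f g hf hg => rw [Finsupp.mapDomain_add, hf, hg, map_add, Finsupp.single_add]
  | single a n =>
    rw [Finsupp.mapDomain_single, Vr.deg, Finsupp.liftAddHom_apply_single]
    rfl

/-- The first projection. -/
private def nfD_p₁ (V W : Vr F) : Mo (Vpr V W) V where
  f _ _ _ x := x.1
  nat _ _ _ _ _ _ _ _ := rfl
  red _ _ _ _ _ _ _ _ _ _ _ _ _ h := h.1

/-- The second projection. -/
private def nfD_p₂ (V W : Vr F) : Mo (Vpr V W) W where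
  f _ _ _ x := x.2
  nat _ _ _ _ _ _ _ _ := rfl
  red _ _ _ _ _ _ _ _ _ _ _ _ _ h := h.2

/-- The norm of a symbol in two coordinates over `M` is `l` times a cycle in the Albanese kernel. Proof: `h2` for
`bx (rd [p]) (rd [q])` (its push-forwards are `0`), push forward with `u₂ w i j` (`u₂_ratEq`, `u₂_act`), take the norm
(`nm_ratEq`, `nm_fx`). The push-forward of `(u₂ w i j) z'` to the factor `k ≠ i, j` is `deg z' [w k] = 0`, to the factors
`i`, `j` the push-forwards of `z'`. -/
theorem to_dv [Finite ι] {l : ℕ} {M : IntermediateField K Ω} [FiniteDimensional K M]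
    (h2 : ∀ i j : ι, i ≠ j → DvR (C i).V (C j).V M Ω l)
    {z : (Vpi fun i => (C i).V).pt Ω →₀ ℤ} (hz : z ∈ To C M) :
    ∃ z' ∈ (Vpi fun i => (C i).V).D0 K Ω,
      (∀ i, Finsupp.mapDomain ((pr i).f Ω) z' ∈ (C i).V.ratEq K Ω) ∧
      Nm (⊥ : IntermediateField K Ω) M z - l • z' ∈ (Vpi fun i => (C i).V).ratEq K Ω := by
  classical
  refine AddSubgroup.closure_induction (p := fun z _ =>
    ∃ z' ∈ (Vpi fun i => (C i).V).D0 K Ω,
      (∀ i, Finsupp.mapDomain ((pr i).f Ω) z' ∈ (C i).V.ratEq K Ω) ∧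
      Nm (⊥ : IntermediateField K Ω) M z - l • z' ∈ (Vpi fun i => (C i).V).ratEq K Ω)
    ?_ ?_ ?_ ?_ hz
  · rintro _ ⟨i, j, w, p, q, hij, hw, hp, hq, rfl⟩
    set b : (Vpr (C i).V (C j).V).pt Ω →₀ ℤ := bx (rd (C i).bp (Finsupp.single p 1))
      (rd (C j).bp (Finsupp.single q 1)) with hb
    have hbf : Fx M b := bx_fx (rd_fx _ (fx_single hp 1)) (rd_fx _ (fx_single hq 1))
    have hb1 : Finsupp.mapDomain (fun x : (Vpr (C i).V (C j).V).pt Ω => x.1) b = 0 := by
      rw [hb, bx_fst, rd_deg, zero_smul]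
    have hb2 : Finsupp.mapDomain (fun x : (Vpr (C i).V (C j).V).pt Ω => x.2) b = 0 := by
      rw [hb, bx_snd, rd_deg, zero_smul]
    have hbd : (Vpr (C i).V (C j).V).deg Ω b = 0 := by
      have h := Mo.deg (V := Vpr (C i).V (C j).V) (V' := (C i).V)
        (fun x : (Vpr (C i).V (C j).V).pt Ω => x.1) b
      rw [hb1, map_zero] at h
      exact h.symm
    obtain ⟨z', ⟨hz1, hz2⟩, h1, h2', h3⟩ := h2 i j hij b ⟨nfD_fx_cyc.1 hbf, hbd⟩
      (by rw [hb1]; exact zero_mem _) (by rw [hb2]; exact zero_mem _)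
    have hzf : Fx M z' := nfD_fx_cyc.2 hz1
    have hzd : (Vpr (C i).V (C j).V).deg Ω z' = 0 := hz2
    have huf : Fx M (Finsupp.mapDomain (u₂ w i j) z') := nfD_u₂_fx hw i j hzf
    refine ⟨Nm (⊥ : IntermediateField K Ω) M (Finsupp.mapDomain (u₂ w i j) z'),
      nfD_nm_D0 huf ((Mo.deg (V' := Vpi fun i => (C i).V) (u₂ w i j) z').trans hzd), ?_, ?_⟩
    · intro k
      have hk : Finsupp.mapDomain ((pr k).f Ω) (Nm (⊥ : IntermediateField K Ω) M
          (Finsupp.mapDomain (u₂ w i j) z')) = Nm (⊥ : IntermediateField K Ω) M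
          (Finsupp.mapDomain (fun x => u₂ w i j x k) z') := by
        have h := hom_nm (M := (⊥ : IntermediateField K Ω)) (N := M)
          (Finsupp.mapDomain.addMonoidHom ((pr (V := fun i => (C i).V) k).f Ω)) bot_le
          (fun γ _ a => nfD_smul (pr (V := fun i => (C i).V) k) γ a)
          (Finsupp.mapDomain (u₂ w i j) z')
        refine h.trans ?_
        congr 1
        exact (Finsupp.mapDomain_comp (v := z') (f := u₂ w i j)
          (g := (pr (V := fun i => (C i).V) k).f Ω)).symm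
      rw [hk]
      rcases eq_or_ne k j with rfl | hkj
      · have e : (fun x => u₂ w i k x k) =
            fun x : (Vpr (C i).V (C k).V).pt Ω => x.2 :=
          funext fun x => Function.update_self _ _ _
        rw [e]
        refine nm_ratEq h2' fun γ hγ => ?_
        have h := nfD_smul (nfD_p₂ (C i).V (C k).V) γ z'
        rw [hzf γ hγ] at h
        exact h.symm
      · rcases eq_or_ne k i with rfl | hki
        · have e : (fun x => u₂ w k j x k) =
              fun x : (Vpr (C k).V (C j).V).pt Ω => x.1 :=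
            funext fun x => (Function.update_of_ne hkj _ _).trans (Function.update_self _ _ _)
          rw [e]
          refine nm_ratEq h1 fun γ hγ => ?_
          have h := nfD_smul (nfD_p₁ (C k).V (C j).V) γ z'
          rw [hzf γ hγ] at h
          exact h.symm
        · have e : (fun x => u₂ w i j x k) =
              fun _ : (Vpr (C i).V (C j).V).pt Ω => w k :=
            funext fun x => (Function.update_of_ne hkj _ _).trans (Function.update_of_ne hki _ _)
          rw [e]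
          have h := nfD_const (V := Vpr (C i).V (C j).V) (W := (C k).V) (w k) z'
          rw [hzd, Finsupp.single_zero] at h
          have h' : Nm (⊥ : IntermediateField K Ω) M (Finsupp.mapDomain
              (fun _ : (Vpr (C i).V (C j).V).pt Ω => w k) z') = 0 := by
            rw [h]
            exact nfD_nm_zero
          rw [h']
          exact zero_mem _
    · have hsub : Nm (⊥ : IntermediateField K Ω) M (Finsupp.mapDomain (u₂ w i j) b) -
          l • Nm (⊥ : IntermediateField K Ω) M (Finsupp.mapDomain (u₂ w i j) z') =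
          Nm (⊥ : IntermediateField K Ω) M (Finsupp.mapDomain (u₂ w i j) (b - l • z')) := by
        have e1 : Finsupp.mapDomain (u₂ w i j) b =
            Finsupp.mapDomain (u₂ w i j) (b - l • z') +
              l • Finsupp.mapDomain (u₂ w i j) z' := by
          have e2 := (Finsupp.mapDomain.addMonoidHom (M := ℤ) (u₂ w i j)).map_nsmul l z'
          rw [Finsupp.mapDomain.addMonoidHom_apply, Finsupp.mapDomain.addMonoidHom_apply] at e2
          rw [← e2, ← Finsupp.mapDomain_add, sub_add_cancel]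
        rw [e1, nm_add bot_le, nm_nsmul bot_le, add_sub_cancel_right]
      rw [hsub]
      refine nm_ratEq (u₂_ratEq hw hij h3) (nfD_u₂_fx hw i j ?_)
      exact hbf.sub (hzf.nsmul l)
  · refine ⟨0, zero_mem _, fun i => ?_, ?_⟩
    · rw [Finsupp.mapDomain_zero]
      exact zero_mem _
    · rw [nfD_nm_zero, smul_zero, sub_zero]
      exact zero_mem _
  · rintro a b _ _ ⟨a', ha, ha1, ha2⟩ ⟨b', hb, hb1, hb2⟩
    refine ⟨a' + b', add_mem ha hb, fun i => ?_, ?_⟩
    · rw [Finsupp.mapDomain_add]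
      exact add_mem (ha1 i) (hb1 i)
    · rw [nm_add bot_le, smul_add, add_sub_add_comm]
      exact add_mem ha2 hb2
  · rintro a _ ⟨a', ha, ha1, ha2⟩
    refine ⟨-a', neg_mem ha, fun i => ?_, ?_⟩
    · have e := (Finsupp.mapDomain.addMonoidHom (M := ℤ)
        ((pr (V := fun i => (C i).V) i).f Ω)).map_neg a'
      exact (congrArg (fun y => y ∈ (C i).V.ratEq K Ω) e).mpr (neg_mem (ha1 i))
    · have e : Nm (⊥ : IntermediateField K Ω) M (-a) = -Nm (⊥ : IntermediateField K Ω) M a := by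
        obtain ⟨s, -, -, -, h3⟩ := nm_rep (M := (⊥ : IntermediateField K Ω)) (N := M) bot_le
        rw [h3, h3, ← Finset.sum_neg_distrib]
        exact Finset.sum_congr rfl fun γ _ => smul_neg γ a
      rw [e, smul_neg, ← neg_sub', neg_mem_iff]
      exact ha2

/-- From the symbols to the Albanese kernel. Proof: `t_mem`, `t_rep`. -/
theorem dvR_of {C₁ C₂ : Crv F} {l : ℕ}
    (h : ∀ g ∈ (scC (K := K) (Ω := Ω) C₁.bp C₂.bp).T, ∃ g' ∈ (scC (K := K) C₁.bp C₂.bp).T,
      g = l • g') : DvR C₁.V C₂.V K Ω l := by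
  intro z hz h1 h2
  obtain ⟨g', hg', he⟩ := h _ (t_mem hz h1 h2)
  obtain ⟨z', hz', h1', h2', rfl⟩ := t_rep hg'
  refine ⟨z', hz', by rw [h1']; exact zero_mem _, by rw [h2']; exact zero_mem _, ?_⟩
  have e : (QuotientAddGroup.mk z : ((Vpr C₁.V C₂.V).pt Ω →₀ ℤ) ⧸
      (Vpr C₁.V C₂.V).ratEq K Ω) = QuotientAddGroup.mk (l • z') := he
  rw [QuotientAddGroup.eq] at e
  have h3 := neg_mem e
  have e2 : -(-z + l • z') = z - l • z' := by abel
  rwa [e2] at h3

end CV
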