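import Pool.Agent.Lib.MP_f80667_ag.Cv.HdD
import Pool.Agent.Lib.MP_f80667_ag.Cv.HdE

/-! The projection `tq` of cycles on the product to the symbols. -/

open ZC BE PE Polynomial IntermediateField

namespace CV

variable {F : Type} [Field F] {Ω : Type} [Field Ω] [Algebra F Ω] {V W : Vr F} (o₁ : Bp V) (o₂ : Bp W)

/-- The projection. -/
noncomputable def tq : ((Vpr V W).pt Ω →₀ ℤ) →+ ((Vpr V W).pt Ω →₀ ℤ) :=
  Finsupp.liftAddHom fun x => zmultiplesHom _
    (bx (rd o₁ (Finsupp.single x.1 1)) (rd o₂ (Finsupp.single x.2 1)))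

private theorem tq_sn (x : (Vpr V W).pt Ω) (n : ℤ) :
    tq o₁ o₂ (Finsupp.single x n) =
      n • bx (rd o₁ (Finsupp.single x.1 1)) (rd o₂ (Finsupp.single x.2 1)) := by
  unfold tq
  rw [Finsupp.liftAddHom_apply_single]
  rfl

theorem tq_single (x : (Vpr V W).pt Ω) :
    tq o₁ o₂ (Finsupp.single x 1) =
      bx (rd o₁ (Finsupp.single x.1 1)) (rd o₂ (Finsupp.single x.2 1)) := by
  rw [tq_sn, one_smul]

private theorem bx_z₁ (m : ℤ) (a : V.pt Ω →₀ ℤ) (b : W.pt Ω →₀ ℤ) :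
    bx (m • a) b = m • bx a b := by
  rw [map_zsmul]
  rfl

private theorem bx_z₂ (m : ℤ) (a : V.pt Ω →₀ ℤ) (b : W.pt Ω →₀ ℤ) :
    bx a (m • b) = m • bx a b := map_zsmul _ _ _

private theorem bx_s₁ (a a' : V.pt Ω →₀ ℤ) (b : W.pt Ω →₀ ℤ) :
    bx (a - a') b = bx a b - bx a' b := by
  rw [map_sub]
  rfl

private theorem bx_s₂ (a : V.pt Ω →₀ ℤ) (b b' : W.pt Ω →₀ ℤ) :
    bx a (b - b') = bx a b - bx a b' := map_sub _ _ _

private theorem rd_sn (o : Bp V) (x : V.pt Ω) (n : ℤ) :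
    rd o (Finsupp.single x n) = n • rd o (Finsupp.single x 1) := by
  rw [← map_zsmul, Finsupp.smul_single, smul_eq_mul, mul_one]

theorem tq_bx (a : V.pt Ω →₀ ℤ) (b : W.pt Ω →₀ ℤ) :
    tq o₁ o₂ (bx a b) = bx (rd o₁ a) (rd o₂ b) := by
  induction a using Finsupp.induction_linear with
  | zero => simp only [map_zero, AddMonoidHom.zero_apply]
  | add f g hf hg => simp only [map_add, AddMonoidHom.add_apply, hf, hg]
  | single x m =>
    induction b using Finsupp.induction_linear with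
    | zero => simp only [map_zero]
    | add f g hf hg => simp only [map_add, hf, hg]
    | single y n =>
      rw [bx_ss, tq_sn, rd_sn o₁ x m, rd_sn o₂ y n, bx_z₁, bx_z₂, ← mul_smul]
      rfl

variable {K : Type} [Field K] [Algebra K Ω] [Algebra F K] [IsScalarTower F K Ω]

theorem tq_smul [Hf V] [Hf W] (γ : Ω ≃ₐ[K] Ω) (z : (Vpr V W).pt Ω →₀ ℤ) :
    γ • tq o₁ o₂ z = tq o₁ o₂ (γ • z) := by
  induction z using Finsupp.induction_linear with
  | zero => simp only [map_zero, smul_zero]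
  | add f g hf hg => simp only [map_add, smul_add, hf, hg]
  | single x n =>
    rw [smul_single, tq_sn, tq_sn, smul_comm, bx_smul, rd_smul, rd_smul, smul_single, smul_single]
    rfl

omit [IsScalarTower F K Ω] [Algebra K Ω] [Algebra F K] [Field K] in
private theorem tq_eq (z : (Vpr V W).pt Ω →₀ ℤ) : tq o₁ o₂ z =
    z - Finsupp.mapDomain (fun x : (Vpr V W).pt Ω => pp x.1 (o₂.o Ω)) z -
      Finsupp.mapDomain (fun x : (Vpr V W).pt Ω => pp (o₁.o Ω) x.2) z +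
      Finsupp.mapDomain (fun _ : (Vpr V W).pt Ω => pp (o₁.o Ω) (o₂.o Ω)) z := by
  induction z using Finsupp.induction_linear with
  | zero => simp only [map_zero, Finsupp.mapDomain_zero, sub_zero, add_zero]
  | add f g hf hg =>
    rw [map_add, hf, hg, Finsupp.mapDomain_add, Finsupp.mapDomain_add, Finsupp.mapDomain_add]
    abel
  | single x n =>
    have h1 : ∀ (U : Vr F) (o : Bp U) (x : U.pt Ω), rd o (Finsupp.single x 1) =
        Finsupp.single x 1 - Finsupp.single (o.o Ω) 1 := by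
      intro U o x
      rw [rd_apply]
      congr 2
      exact Finsupp.liftAddHom_apply_single _ _ _
    rw [tq_sn, h1, h1, Finsupp.mapDomain_single, Finsupp.mapDomain_single,
      Finsupp.mapDomain_single, bx_s₁, bx_s₂, bx_s₂, bx_ss, bx_ss,
      bx_ss, bx_ss, mul_one, smul_sub, smul_sub, smul_sub, Finsupp.smul_single,
      Finsupp.smul_single, Finsupp.smul_single, Finsupp.smul_single, smul_eq_mul, mul_one]
    have h2 : pp x.1 x.2 = x := rfl
    rw [h2]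
    abel

/-- The point of the product from the base point of the second factor. -/
private def mA : Mo (Vpr V W) (Vpr V W) where
  f L _ _ x := (x.1, o₂.o L)
  nat L M _ _ _ _ σ _ := Prod.ext rfl (o₂.nat L M σ)
  red K L Ω _ _ _ _ _ _ _ w _ _ h := ⟨h.1, o₂.red K L Ω w⟩

private def mB : Mo (Vpr V W) (Vpr V W) where
  f L _ _ x := (o₁.o L, x.2)
  nat L M _ _ _ _ σ _ := Prod.ext (o₁.nat L M σ) rfl
  red K L Ω _ _ _ _ _ _ _ w _ _ h := ⟨o₁.red K L Ω w, h.2⟩

private def mC : Mo (Vpr V W) (Vpr V W) where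
  f L _ _ _ := (o₁.o L, o₂.o L)
  nat L M _ _ _ _ σ _ := Prod.ext (o₁.nat L M σ) (o₂.nat L M σ)
  red K L Ω _ _ _ _ _ _ _ w _ _ _ := ⟨o₁.red K L Ω w, o₂.red K L Ω w⟩

/-- Proof: `tq z = z - i₁ (p₁ z) - i₂ (p₂ z) + c z` with the push-forwards by the projections, the inclusions
`x ↦ (x, o₂)`, `y ↦ (o₁, y)` and the constant map (check on `single`), each of them is a morphism (`Mo`): `Mo.ratEq`
over `M`. -/
theorem tq_ratEq (M : Type) [Field M] [Algebra F M] [Algebra M Ω] {z : (Vpr V W).pt Ω →₀ ℤ}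
    (hz : z ∈ (Vpr V W).ratEq M Ω) : tq o₁ o₂ z ∈ (Vpr V W).ratEq M Ω := by
  rw [tq_eq]
  exact add_mem (sub_mem (sub_mem hz ((mA o₂).ratEq M Ω hz)) ((mB o₁).ratEq M Ω hz))
    ((mC o₁ o₂).ratEq M Ω hz)

variable [CharZero K] [IsAlgClosure K Ω] {C₁ C₂ : Crv F}

/-- The class of the trace of the projection. -/
noncomputable def sg (M : IntermediateField K Ω) (z : (Vpr C₁.V C₂.V).pt Ω →₀ ℤ) :
    ((Vpr C₁.V C₂.V).pt Ω →₀ ℤ) ⧸ (Vpr C₁.V C₂.V).ratEq K Ω :=
  QuotientAddGroup.mk (Nm (K := K) ⊥ M (tq C₁.bp C₂.bp z))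

theorem sg_add (M : IntermediateField K Ω) [FiniteDimensional K M]
    (z z' : (Vpr C₁.V C₂.V).pt Ω →₀ ℤ) : sg M (z + z') = sg M z + sg M z' := by
  unfold sg
  rw [map_add, nm_add bot_le]
  rfl

theorem sg_bx (M : IntermediateField K Ω) (a : C₁.V.pt Ω →₀ ℤ) (b : C₂.V.pt Ω →₀ ℤ) :
    sg M (bx a b) = (scC (K := K) C₁.bp C₂.bp).sy M a b := by
  unfold sg
  rw [tq_bx, scC_sy]

theorem sg_pt (M : IntermediateField K Ω) (x : (Vpr C₁.V C₂.V).pt Ω) :
    sg M (Finsupp.single x 1) = (scC (K := K) C₁.bp C₂.bp).sy M (Finsupp.single x.1 1)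
      (Finsupp.single x.2 1) := by
  unfold sg
  rw [tq_single, scC_sy]

private theorem tq_fx {M : IntermediateField K Ω} {z : (Vpr C₁.V C₂.V).pt Ω →₀ ℤ} (h : Fx M z) :
    Fx M (tq C₁.bp C₂.bp z) := fun γ hγ => by rw [tq_smul, h γ hγ]

/-- Proof: `tq_ratEq`, `nm_ratEq`, `tq_smul`. -/
theorem sg_ratEq {M : IntermediateField K Ω} [FiniteDimensional K M]
    {z : (Vpr C₁.V C₂.V).pt Ω →₀ ℤ} (hz : z ∈ (Vpr C₁.V C₂.V).ratEq M Ω) (h : Fx M z) :
    sg M z = 0 := by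
  unfold sg
  rw [QuotientAddGroup.eq_zero_iff]
  exact nm_ratEq (tq_ratEq C₁.bp C₂.bp M hz) (tq_fx h)

/-- Proof: `hom_nm`, `nm_tr`, `tq_smul`. -/
theorem sg_nm {M N : IntermediateField K Ω} [FiniteDimensional K N] (h : M ≤ N)
    {z : (Vpr C₁.V C₂.V).pt Ω →₀ ℤ} (hz : Fx N z) : sg M (Nm M N z) = sg N z := by
  unfold sg
  rw [hom_nm (tq C₁.bp C₂.bp) h (fun γ _ a => (tq_smul C₁.bp C₂.bp γ a).symm) z,
    ← nm_tr bot_le h (tq_fx hz)]

/-- Two points. Proof: expand `rd`: with `a = [x] - [x']`, `b = [y] - [y']`: `sg` of `[(x, y)] - [(x', y')]` is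
`sy a [y] + sy [x'] b`. -/
theorem sg_sub (M : IntermediateField K Ω) [FiniteDimensional K M] {x x' : C₁.V.pt Ω}
    {y y' : C₂.V.pt Ω} (hx : Fp C₁.V M x) (hx' : Fp C₁.V M x') (hy : Fp C₂.V M y)
    (hy' : Fp C₂.V M y') : sg M (Finsupp.single (pp x y) 1 - Finsupp.single (pp x' y') 1) =
      (scC (K := K) C₁.bp C₂.bp).sy M (Finsupp.single x 1 - Finsupp.single x' 1)
        (Finsupp.single y 1) + (scC (K := K) C₁.bp C₂.bp).sy M (Finsupp.single x' 1)
        (Finsupp.single y 1 - Finsupp.single y' 1) := by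
  have e : (Finsupp.single (pp x y) 1 - Finsupp.single (pp x' y') 1 :
      (Vpr C₁.V C₂.V).pt Ω →₀ ℤ) =
      bx (Finsupp.single x 1 - Finsupp.single x' 1) (Finsupp.single y 1) +
        bx (Finsupp.single x' 1) (Finsupp.single y 1 - Finsupp.single y' 1) := by
    rw [bx_s₁, bx_s₂, bx_ss, bx_ss, bx_ss, mul_one]
    abel
  rw [e, sg_add, sg_bx, sg_bx]

end CV
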