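import Pool.Agent.Lib.MP_f80667_ag.Cv.S3nA
import Pool.Agent.Lib.MP_f80667_ag.Cv.Sg

/-! The symbols are generated by the symbols of integral points over unramified extensions. -/

open ZC BE PE Polynomial IntermediateField

namespace CV

variable {F : Type} [Field F] {K Ω : Type} [Field K] [Field Ω] [Algebra K Ω]
  [Algebra F K] [Algebra F Ω] [IsScalarTower F K Ω] [CharZero K] [IsAlgClosure K Ω] {L : Ld K Ω}
  {C₁ C₂ : Crv F} (m₁ : Mod C₁ (Ok L) K) (m₂ : Mod C₂ (Ok L) K)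

/-- The group generated by the symbols of integral points. -/
noncomputable def Ti : AddSubgroup (((Vpr C₁.V C₂.V).pt Ω →₀ ℤ) ⧸ (Vpr C₁.V C₂.V).ratEq K Ω) :=
  AddSubgroup.closure {g | ∃ (M : IntermediateField K Ω) (x : C₁.V.pt Ω) (y : C₂.V.pt Ω),
    FiniteDimensional K M ∧ Fp C₁.V M x ∧ Fp C₂.V M y ∧ Nr m₁ 1 x x ∧ Nr m₂ 1 y y ∧
    g = (scC (K := K) C₁.bp C₂.bp).sy M (Finsupp.single x 1) (Finsupp.single y 1)}

/-- The group generated by the symbols of integral points over unramified extensions of `K`. -/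
noncomputable def Tu : AddSubgroup (((Vpr C₁.V C₂.V).pt Ω →₀ ℤ) ⧸ (Vpr C₁.V C₂.V).ratEq K Ω) :=
  AddSubgroup.closure {g | ∃ (N : ℕ) (M : IntermediateField K Ω) (x : C₁.V.pt Ω) (y : C₂.V.pt Ω),
    N ≠ 0 ∧ M ≤ L.Ur ⊥ N ∧ Fp C₁.V M x ∧ Fp C₂.V M y ∧ Nr m₁ 1 x x ∧ Nr m₂ 1 y y ∧
    g = (scC (K := K) C₁.bp C₂.bp).sy M (Finsupp.single x 1) (Finsupp.single y 1)}

/-- The reduction to integral points for one curve. -/
private theorem gen_if {C : Crv F} {m : Mod C (Ok L) K} (hI : ExIf m) {G : Type}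
    [AddCommGroup G] (H : AddSubgroup G) (M₀ : IntermediateField K Ω)
    (f : IntermediateField K Ω → (C.V.pt Ω →₀ ℤ) → G)
    (hadd : ∀ M : IntermediateField K Ω, FiniteDimensional K M → ∀ a b, f M (a + b) = f M a + f M b)
    (hnm : ∀ M N : IntermediateField K Ω, FiniteDimensional K N → M₀ ≤ M → M ≤ N →
      ∀ a, Fx N a → f N a = f M (Nm M N a))
    (hpc : ∀ M : IntermediateField K Ω, FiniteDimensional K M → M₀ ≤ M → ∀ a ∈ Pc C Ω, Fx M a →
      f M a = 0)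
    (ho : ∀ (M : IntermediateField K Ω) (k : ℤ), FiniteDimensional K M →
      f M (Finsupp.single (C.bp.o Ω) k) = 0)
    (hint : ∀ M : IntermediateField K Ω, FiniteDimensional K M → M₀ ≤ M → ∀ x, Nr m 1 x x →
      Fp C.V M x → f M (Finsupp.single x 1) ∈ H)
    {M : IntermediateField K Ω} [FiniteDimensional K M] (hM : M₀ ≤ M) {a : C.V.pt Ω →₀ ℤ}
    (ha : Fx M a) : f M a ∈ H := by
  have key : ∀ M : IntermediateField K Ω, FiniteDimensional K M → M₀ ≤ M → ∀ x : C.V.pt Ω,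
      Fp C.V M x → f M (Finsupp.single x 1) ∈ H := by
    intro M hfd hM x hx
    obtain ⟨z, hz, k, hk⟩ := hI M hfd x hx
    let f' : (C.V.pt Ω →₀ ℤ) →+ G := AddMonoidHom.mk' (f M) (hadd M hfd)
    have hzx : Fx M z := by
      refine AddSubgroup.closure_induction (p := fun z _ => Fx M z) ?_ ?_ ?_ ?_ hz
      · rintro z ⟨M', y, hM', hfd', -, hy, rfl⟩
        rw [rtr_eq hM']
        exact nm_fx hM' (fx_single hy 1)
      · exact Fx.zero
      · exact fun a b _ _ ha hb => ha.add hb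
      · exact fun a _ ha => ha.neg
    have hzH : f' z ∈ H := by
      have hle : AddSubgroup.closure {z | ∃ (M' : IntermediateField K Ω) (y : C.V.pt Ω), M ≤ M' ∧
          FiniteDimensional K M' ∧ Nr m 1 y y ∧ Fp C.V M' y ∧
          z = rtr C.V M M' (Finsupp.single y 1)} ≤ H.comap f' := by
        rw [AddSubgroup.closure_le]
        rintro _ ⟨M', y, hM', hfd', hy1, hy, rfl⟩
        change f M (rtr C.V M M' (Finsupp.single y 1)) ∈ H
        rw [rtr_eq hM', ← hnm M M' hfd' hM hM' _ (fx_single hy 1)]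
        exact hint M' hfd' (hM.trans hM') y hy1 hy
      exact hle hz
    have ho' : Fx M (Finsupp.single (C.bp.o Ω) k : C.V.pt Ω →₀ ℤ) :=
      fx_single (fun γ _ => C.bp.nat Ω Ω _) k
    have h0 : f' (Finsupp.single x 1 - z - Finsupp.single (C.bp.o Ω) k) = 0 :=
      hpc M hfd hM _ hk (((fx_single hx 1).sub hzx).sub ho')
    have h1 : f' (Finsupp.single (C.bp.o Ω) k) = 0 := ho M k hfd
    rw [map_sub, map_sub, h1, sub_zero, sub_eq_zero] at h0
    change f' (Finsupp.single x 1) ∈ H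
    rw [h0]
    exact hzH
  let f' : (C.V.pt Ω →₀ ℤ) →+ G := AddMonoidHom.mk' (f M) (hadd M inferInstance)
  have hle : AddSubgroup.closure {z : C.V.pt Ω →₀ ℤ | ∃ (M' : IntermediateField K Ω)
      (x : C.V.pt Ω), M ≤ M' ∧ FiniteDimensional K M' ∧ Fp C.V M' x ∧
      z = Nm M M' (Finsupp.single x 1)} ≤ H.comap f' := by
    rw [AddSubgroup.closure_le]
    rintro _ ⟨M', x, hM', hfd', hx, rfl⟩
    change f M (Nm M M' (Finsupp.single x 1)) ∈ H
    rw [← hnm M M' hfd' hM hM' _ (fx_single hx 1)]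
    exact key M' hfd' (hM.trans hM') x hx
  exact hle (fx_gen (exists_fp C) ha)

/-- Proof: the generator `sy M P Q`: `fx_gen` for `P` (`exists_fp`): `P = ∑ ± Nm M M' [x]`, `nm₁`: the symbols
`sy M' [x] Q`; `hI₁` over `M'`: `[x] = z + k [∞] + (principal)`, `z = ∑ ± Nm M' M'' [y]`, `y` integral (`rtr_eq`); the
symbol of `[∞]` is `0` (`rd_o`), of a principal cycle (it is invariant) `0` (`sy_pc₁`); `nm₁`: the symbols `sy M'' [y] Q`.
The same for `Q`. -/
theorem t_le_ti (hP₁ : ExPr C₁ K Ω) (hP₂ : ExPr C₂ K Ω) (hI₁ : ExIf m₁) (hI₂ : ExIf m₂) :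
    (scC (K := K) C₁.bp C₂.bp).T ≤ Ti m₁ m₂ := by
  have add₁ : ∀ M : IntermediateField K Ω, FiniteDimensional K M → ∀ (a a' : C₁.V.pt Ω →₀ ℤ)
      (b : C₂.V.pt Ω →₀ ℤ), (scC (K := K) C₁.bp C₂.bp).sy M (a + a') b =
        (scC (K := K) C₁.bp C₂.bp).sy M a b + (scC (K := K) C₁.bp C₂.bp).sy M a' b := by
    intro M hM a a' b
    rw [scC_sy, scC_sy, scC_sy, map_add, map_add, AddMonoidHom.add_apply, nm_add bot_le]
    rfl
  have add₂ : ∀ M : IntermediateField K Ω, FiniteDimensional K M → ∀ (a : C₁.V.pt Ω →₀ ℤ)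
      (b b' : C₂.V.pt Ω →₀ ℤ), (scC (K := K) C₁.bp C₂.bp).sy M a (b + b') =
        (scC (K := K) C₁.bp C₂.bp).sy M a b + (scC (K := K) C₁.bp C₂.bp).sy M a b' := by
    intro M hM a b b'
    rw [scC_sy, scC_sy, scC_sy, map_add, map_add, nm_add bot_le]
    rfl
  have zer : ∀ M : IntermediateField K Ω, FiniteDimensional K M →
      Nm (⊥ : IntermediateField K Ω) M (0 : (Vpr C₁.V C₂.V).pt Ω →₀ ℤ) = 0 := by
    intro M hM
    have h := nm_add (M := (⊥ : IntermediateField K Ω)) (N := M) bot_le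
      (0 : (Vpr C₁.V C₂.V).pt Ω →₀ ℤ) 0
    rw [add_zero] at h
    exact left_eq_add.1 h
  have s2 : ∀ M : IntermediateField K Ω, FiniteDimensional K M → ∀ x : C₁.V.pt Ω, Nr m₁ 1 x x →
      Fp C₁.V M x → ∀ b : C₂.V.pt Ω →₀ ℤ, Fx M b →
      (scC (K := K) C₁.bp C₂.bp).sy M (Finsupp.single x 1) b ∈ Ti m₁ m₂ := by
    intro M hM x hx1 hx b hb
    refine gen_if hI₂ (Ti m₁ m₂) M
      (fun N c => (scC (K := K) C₁.bp C₂.bp).sy N (Finsupp.single x 1) c) ?_ ?_ ?_ ?_ ?_ le_rfl hb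
    · exact fun N hN c c' => add₂ N hN _ c c'
    · exact fun N N' hN' h h' c hc => (scC (K := K) C₁.bp C₂.bp).nm₂ N N' _ c h'
        ((fx_single hx 1).mono h) hc
    · exact fun N hN h c hc hc' => sy_pc₂ hP₂ ((fx_single hx 1).mono h) hc hc'
    · intro N k hN
      rw [scC_sy, rd_o, map_zero, zer N hN]
      rfl
    · intro N hN h y hy1 hy
      exact AddSubgroup.subset_closure ⟨N, x, y, hN, fun γ hγ => hx γ (fix_le h hγ), hy, hx1, hy1,
        rfl⟩
  unfold Sc.T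
  rw [AddSubgroup.closure_le]
  rintro _ ⟨M, a, b, hM, ha, hb, rfl⟩
  refine gen_if hI₁ (Ti m₁ m₂) M
    (fun N c => (scC (K := K) C₁.bp C₂.bp).sy N c b) ?_ ?_ ?_ ?_ ?_ le_rfl ha
  · exact fun N hN c c' => add₁ N hN c c' _
  · exact fun N N' hN' h h' c hc => (scC (K := K) C₁.bp C₂.bp).nm₁ N N' c _ h' hc (hb.mono h)
  · exact fun N hN h c hc hc' => sy_pc₁ hP₁ hc hc' (hb.mono h)
  · intro N k hN
    rw [scC_sy, rd_o, map_zero, AddMonoidHom.zero_apply, zer N hN]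
    rfl
  · exact fun N hN h x hx1 hx => s2 N hN x hx1 hx b (hb.mono h)

end CV
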