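import Pool.Agent.Lib.MP_f80667_ag.Cv.EtG
import Pool.Agent.Lib.MP_f80667_ag.Cv.S3

/-! # The Albanese kernel of a product of two curves over a local field is `l`-divisible -/

set_option autoImplicit false

open ZC BE PE Polynomial TensorProduct IntermediateField

namespace CV

variable {F : Type} [Field F] {K Ω : Type} [Field K] [CharZero K] [Field Ω] [Algebra K Ω]
  [Algebra F K] [Algebra F Ω] [IsScalarTower F K Ω] [IsAlgClosure K Ω] {L : Ld K Ω}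
  {C₁ C₂ : Crv F} {m₁ : Mod C₁ (Ok L) K} {m₂ : Mod C₂ (Ok L) K}

theorem tu_gen (hT : (scC (K := K) (Ω := Ω) C₁.bp C₂.bp).T ≤ Tu m₁ m₂) {π : K} (hπ : Uf L π) :
    (scC (K := K) (Ω := Ω) C₁.bp C₂.bp).T ≤ AddSubgroup.closure {g | ∃ M a b,
      (twL L π hπ).U M ∧ Fx M a ∧ Fx M b ∧
        g = (scC (K := K) (Ω := Ω) C₁.bp C₂.bp).sy M a b} := by
  refine hT.trans (AddSubgroup.closure_mono ?_)
  rintro g ⟨N, M, x, y, hN, hM, hx, hy, -, -, rfl⟩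
  exact ⟨M, _, _, ⟨N, hN, hM⟩, fx_single hx 1, fx_single hy 1, rfl⟩

/-- **The case `l ≠ p`.** -/
theorem t_le_l {π : K} (hπ : Uf L π) {l : ℕ} (hP₁ : ExPr C₁ K Ω) (hP₂ : ExPr C₂ K Ω)
    (hS₁ : ExSl m₁ l) (hS₂ : ExSl m₂ l) (hD₁ : ExDv m₁ l) (hD₂ : ExDv m₂ l) (hN₁ : ExNm m₁)
    (hN₂ : ExNm m₂) (hT : (scC (K := K) (Ω := Ω) C₁.bp C₂.bp).T ≤ Tu m₁ m₂) :
    (scC (K := K) (Ω := Ω) C₁.bp C₂.bp).T ≤ mulT l (scC (K := K) (Ω := Ω) C₁.bp C₂.bp).T := by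
  have h1 : L.nm (algebraMap K Ω π) ^ (0 + 1) < 1 := by
    rw [zero_add, pow_one]
    exact hπ.lt
  exact main₀ (lv0 m₁ π hπ l 0 (fun M hM z hz => hS₁ M (Um.fd hM) _ h1 z hz) hD₁ hN₁)
    (lv0 m₂ π hπ l 0 (fun M hM z hz => hS₂ M (Um.fd hM) _ h1 z hz) hD₂ hN₂)
    (null_lv hP₁) (null_lv' hP₂) rfl (tu_gen hT hπ)

/-- **The case `l = p`.** -/
theorem t_le_p {π : K} (hπ : Uf L π) {e : ℕ} (he0 : e ≠ 0) (he : e + 2 ≤ L.p)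
    (hP₁ : ExPr C₁ K Ω) (hP₂ : ExPr C₂ K Ω) (hC₁ : ExCh m₁) (hC₂ : ExCh m₂) (hcl₁ : ExCl m₁)
    (hcl₂ : ExCl m₂) (hS₁ : ExSp m₁ π e) (hS₂ : ExSp m₂ π e) (hD₁ : ExDv m₁ L.p)
    (hD₂ : ExDv m₂ L.p) (hN₁ : ExNm m₁) (hN₂ : ExNm m₂) (hcx : ExC2 m₁ m₂)
    (hT : (scC (K := K) (Ω := Ω) C₁.bp C₂.bp).T ≤ Tu m₁ m₂) :
    (scC (K := K) (Ω := Ω) C₁.bp C₂.bp).T ≤
      mulT L.p (scC (K := K) (Ω := Ω) C₁.bp C₂.bp).T := by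
  have hs₁ : ∀ M : IntermediateField K Ω, Um L M →
      ∀ z ∈ Dsp L C₁.V (Nr m₁ (L.nm (algebraMap K Ω π) ^ (e + 1))) M,
        ∃ z' ∈ Zd C₁.V M, z - L.p • z' ∈ Pc C₁ Ω := by
    rintro M ⟨N, hN, hM⟩
    exact hS₁ N hN M hM
  have hs₂ : ∀ M : IntermediateField K Ω, Um L M →
      ∀ z ∈ Dsp L C₂.V (Nr m₂ (L.nm (algebraMap K Ω π) ^ (e + 1))) M,
        ∃ z' ∈ Zd C₂.V M, z - L.p • z' ∈ Pc C₂ Ω := by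
    rintro M ⟨N, hN, hM⟩
    exact hS₂ N hN M hM
  refine era_main (lv m₁ π hπ L.p e hs₁ hD₁ hN₁ hC₁ hcl₁) (lv m₂ π hπ L.p e hs₂ hD₂ hN₂ hC₂ hcl₂)
    (null_lv (hS := hs₁) (hD := hD₁) (hN := hN₁) hP₁)
    (null_lv' (hS := hs₂) (hD := hD₂) (hN := hN₂) hP₂) L.pp he0 he (tu_gen hT hπ) ?_
  rintro M _ _ x y N a b hM ⟨T₁, rfl⟩ ⟨T₂, rfl⟩ hN hNe hab hx hy hxa hyb
  exact cx_rel hcx hπ hM T₁ T₂ (by omega) hab rfl hx hy hxa hyb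

end CV
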