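import Pool.Agent.Lib.MP_f80667_ag.Cv.ChA

/-!
# Charts and residue points
-/

set_option autoImplicit false

open ZC BE PE Polynomial TensorProduct IntermediateField IsLocalRing

namespace CV

section

variable {F : Type} [Field F] {K Ω : Type} [Field K] [CharZero K] [Field Ω] [Algebra K Ω]
  [Algebra F K] [Algebra F Ω] [IsScalarTower F K Ω] [IsAlgClosure K Ω] {L : Ld K Ω} {C : Crv F}
  (m : Mod C (Ok L) K) (M : IntermediateField K Ω) [FiniteDimensional K M]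

omit [CharZero K] [IsAlgClosure K Ω] in
/-- The Galois action on the points above a closed point. -/
theorem ov_act {N : Ideal (OM L M ⊗[Ok L] m.R)} {φ : C.A →ₐ[F] Ω}
    (h : (m.mdM M).Ov L.V (ptE m M φ) N) {γ : Ω ≃ₐ[K] Ω} (hγ : γ ∈ M.fixingSubgroup) :
    (m.mdM M).Ov L.V (ptE m M (actP γ φ)) N := by
  obtain ⟨h1, h2⟩ := (ov_iff m M).1 h
  refine (ov_iff m M).2 ⟨fun r => ?_, fun s => ?_⟩
  · rw [ev_act, L.act]
    exact h1 r
  · rw [ptE_act m M hγ, L.act]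
    exact h2 s

omit [CharZero K] [IsAlgClosure K Ω] [FiniteDimensional K M] in
variable {M} in
theorem hgM (σ : Ω ≃ₐ[M] Ω) (x : Ω) (hx : x ∈ L.V) : σ x ∈ L.V := by
  have h := L.act (σ.restrictScalars K) x
  change L.nm (σ x) = L.nm x at h
  rw [L.mem_V, h]
  exact hx

/-- **Discs.** The points above a rational closed point. -/
theorem exists_disc {N : Ideal (OM L M ⊗[Ok L] m.R)} (hN : Cs (OM L M) N)
    (hk : ∀ s, ∃ c : OM L M, s - algebraMap (OM L M) _ c ∈ N) {π : OM L M} (hπ : Irreducible π)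
    {z : OM L M ⊗[Ok L] m.R} (hz : Rgl π N z) {w : Ω} (hw : L.nm w < 1) :
    ∃ φ : C.A →ₐ[F] Ω, (m.mdM M).Ov L.V (ptE m M φ) N ∧ ptE m M φ ((m.mdM M).i z) = w := by
  have h1 := algClM (K := K) (Ω := Ω) M
  have h2 := charM (K := K) M
  have hq := (m.mdM M).rgl_q hπ hN hz
  obtain ⟨ψ, hψ, hψz⟩ := (m.mdM M).disc_pt (wvM L M) hπ hN hk (fun σ x hx => hgM σ x hx) hz hq
    ((nonunits_iff L).2 hw)
  obtain ⟨φ, rfl⟩ := (ptE_bij m M).2 ψ
  exact ⟨φ, hψ, hψz⟩

theorem disc_inj {N : Ideal (OM L M ⊗[Ok L] m.R)} (hN : Cs (OM L M) N)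
    (hk : ∀ s, ∃ c : OM L M, s - algebraMap (OM L M) _ c ∈ N) {π : OM L M} (hπ : Irreducible π)
    {z : OM L M ⊗[Ok L] m.R} (hz : Rgl π N z) {φ φ' : C.A →ₐ[F] Ω}
    (h : (m.mdM M).Ov L.V (ptE m M φ) N) (h' : (m.mdM M).Ov L.V (ptE m M φ') N)
    (he : ptE m M φ ((m.mdM M).i z) = ptE m M φ' ((m.mdM M).i z)) : φ = φ' := by
  have h1 := algClM (K := K) (Ω := Ω) M
  have h2 := charM (K := K) M
  have hq := (m.mdM M).rgl_q hπ hN hz
  exact (ptE_bij m M).1 ((m.mdM M).disc_uniq (wvM L M) hπ hN hk (fun σ x hx => hgM σ x hx) hz hq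
    h h' he)

/-- The disc is a chart. -/
theorem chart_of {N : Ideal (OM L M ⊗[Ok L] m.R)} (hN : Cs (OM L M) N)
    (hk : ∀ s, ∃ c : OM L M, s - algebraMap (OM L M) _ c ∈ N) {π : OM L M} (hπ : Irreducible π)
    {z : OM L M ⊗[Ok L] m.R} (hz : Rgl π N z) : ∃ T : Cht m M, ∀ w, L.nm w < 1 →
      ∃ φ : C.A →ₐ[F] Ω, T.P w = some φ ∧ (m.mdM M).Ov L.V (ptE m M φ) N ∧
        ptE m M φ ((m.mdM M).i z) = w := by
  classical
  have h0 : ∀ w : Ω, ∃ φ : C.A →ₐ[F] Ω, L.nm w < 1 →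
      (m.mdM M).Ov L.V (ptE m M φ) N ∧ ptE m M φ ((m.mdM M).i z) = w := by
    intro w
    by_cases hw : L.nm w < 1
    · obtain ⟨φ, h1, h2⟩ := exists_disc m M hN hk hπ hz hw
      exact ⟨φ, fun _ => ⟨h1, h2⟩⟩
    · obtain ⟨φ, -, -⟩ := exists_disc m M hN hk hπ hz (w := 0) (by
        rw [L.zero]; exact zero_lt_one)
      exact ⟨φ, fun h => absurd h hw⟩
  choose φ hφ using h0
  have hev : ∀ w, L.nm w < 1 → ∀ r, L.nm (ev m (φ w) r) ≤ 1 := fun w hw =>
    ((ov_iff m M).1 (hφ w hw).1).1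
  have h0lt : L.nm (0 : Ω) < 1 := by rw [L.zero]; exact zero_lt_one
  refine ⟨{ P := fun w => some (φ w)
            a := m.mpOL M ((m.mdM M).i z)
            ha := (mem_RM m M _).2 ⟨z, rfl⟩
            val := fun w hw => ⟨φ w, rfl, ?_⟩
            near := fun w w' hw hw' r hr0 hr1 => ?_
            surj := fun x r hr hx => ?_
            eqv := fun γ hγ w hw => ?_ }, fun w hw => ⟨φ w, rfl, hφ w hw⟩⟩
  · rw [evO_eq, ptE_mpOL, (hφ w hw).2]
  · rw [nr_iff m M hr0]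
    constructor
    · rintro ⟨-, -, h3⟩
      have h4 := h3 z
      rwa [(hφ w hw).2, (hφ w' hw').2] at h4
    · intro h3
      refine ⟨(int_iff m M _).2 (hev w hw), (int_iff m M _).2 (hev w' hw'), fun s => ?_⟩
      have h4 := diff_pt m M hk hπ hz (hφ w hw).1 (hφ w' hw').1 s
      rw [(hφ w hw).2, (hφ w' hw').2] at h4
      exact h4.trans h3
  · obtain ⟨ψ, ψ', rfl, h2, h3⟩ := hx
    have e := Option.some.inj h2
    subst e
    have hr0 : 0 ≤ r ∨ r < 0 := le_or_gt 0 r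
    have h4 : ∀ s, L.nm (ptE m M ψ ((m.mdM M).i s) - ptE m M (φ 0) ((m.mdM M).i s)) < 1 := by
      have h5 : Nr m (max r 0) (some ψ) (some (φ 0)) :=
        ⟨ψ, φ 0, rfl, rfl, fun a => ⟨(h3 a).1, (h3 a).2.1, (h3 a).2.2.trans (le_max_left _ _)⟩⟩
      intro s
      exact (((nr_iff m M (le_max_right _ _)).1 h5).2.2 s).trans_lt (max_lt hr zero_lt_one)
    have h6 : (m.mdM M).Ov L.V (ptE m M ψ) N := by
      refine (ov_iff m M).2 ⟨fun r => (h3 r).1, fun s => ?_⟩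
      rw [((ov_iff m M).1 (hφ 0 h0lt).1).2 s]
      constructor
      · intro h7
        have e : ptE m M ψ ((m.mdM M).i s) = (ptE m M ψ ((m.mdM M).i s) -
          ptE m M (φ 0) ((m.mdM M).i s)) + ptE m M (φ 0) ((m.mdM M).i s) := by ring
        rw [e]
        exact (L.add _ _).trans_lt (max_lt (h4 s) h7)
      · intro h7
        have e : ptE m M (φ 0) ((m.mdM M).i s) = ptE m M ψ ((m.mdM M).i s) -
          (ptE m M ψ ((m.mdM M).i s) - ptE m M (φ 0) ((m.mdM M).i s)) := by ring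
        rw [e]
        exact (L.sub _ _).trans_lt (max_lt h7 (h4 s))
    have h7 : L.nm (ptE m M ψ ((m.mdM M).i z)) < 1 := (((ov_iff m M).1 h6).2 z).1 hz.1
    refine ⟨_, h7, ?_⟩
    have h8 := hφ _ h7
    exact congrArg some (disc_inj m M hN hk hπ hz h6 h8.1 h8.2.symm)
  · have h1 := hφ w hw
    have hw' : L.nm (γ w) < 1 := by rw [L.act]; exact hw
    have h2 := hφ (γ w) hw'
    rw [act_pt]
    refine congrArg some (disc_inj m M hN hk hπ hz (ov_act m M h1.1 hγ) h2.1 ?_)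
    rw [ptE_act m M hγ, h1.2, h2.2]

omit [CharZero K] [IsAlgClosure K Ω] in
/-- A local parameter which vanishes at a given point over `M`. -/
theorem exists_z {N : Ideal (OM L M ⊗[Ok L] m.R)} (hN : Cs (OM L M) N) {π : OM L M}
    (hπ : Irreducible π) {φ : C.A →ₐ[F] Ω} (h : (m.mdM M).Ov L.V (ptE m M φ) N)
    (hv : ∀ r, ev m φ r ∈ M) : ∃ z, Rgl π N z ∧ ptE m M φ ((m.mdM M).i z) = 0 := by
  have := dedSk m M
  obtain ⟨t, ht, σ, hσ, hx⟩ := (m.mdM M).exists_rgl hπ hN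
  obtain ⟨h1, h2⟩ := (ov_iff m M).1 h
  have h3 : L.nm (ptE m M φ ((m.mdM M).i t)) < 1 := (h2 t).1 ht
  let c : OM L M := ⟨⟨_, val_mem m M hv t⟩, h3.le⟩
  have hc : c ∈ maximalIdeal (OM L M) := (maxOM L M c).2 h3
  obtain ⟨c', hc'⟩ : π ∣ c := by
    rw [(IsDiscreteValuationRing.irreducible_iff_uniformizer π).1 hπ,
      Ideal.mem_span_singleton] at hc
    exact hc
  refine ⟨t - algebraMap (OM L M) _ c, ⟨N.sub_mem ht (hN.2 c hc), σ, hσ, fun x hxN => ?_⟩, ?_⟩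
  · obtain ⟨y, y', e⟩ := hx x hxN
    refine ⟨y, y' + algebraMap (OM L M) _ c' * y, ?_⟩
    rw [e, hc', map_mul]
    ring
  · have e1 : (m.mdM M).i (t - algebraMap (OM L M) _ c) =
      (m.mdM M).i t - (m.mdM M).i (algebraMap (OM L M) _ c) := map_sub (m.mdM M).i _ _
    rw [e1, map_sub, ptE_cst, sub_self]

omit [FiniteDimensional K M] in
/-- **Charts.** Proof: `N` = the closed point under `x`, `z` a local parameter with the value `0` at `x`; the disc of `z`. -/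
theorem exCh : ExCh m := by
  intro M hM x hx hfp
  obtain ⟨φ, rfl, hφ⟩ := (nr_one_iff m x).1 hx
  have hv : ∀ r, ev m φ r ∈ M := (fp_iff m M φ).1 hfp
  obtain ⟨N, hN, hov, hk⟩ := exists_npt m M hφ (fun r => ⟨⟨⟨_, hv r⟩, hφ r⟩, by
    change L.nm (ev m φ r - ev m φ r) < 1
    rw [sub_self, L.zero]
    exact zero_lt_one⟩)
  obtain ⟨π, hπ⟩ := IsDiscreteValuationRing.exists_irreducible (OM L M)
  obtain ⟨z, hz, hz0⟩ := exists_z m M hN hπ hov hv
  obtain ⟨T, hT⟩ := chart_of m M hN hk hπ hz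
  obtain ⟨ψ, h1, h2, h3⟩ := hT 0 (by rw [L.zero]; exact zero_lt_one)
  refine ⟨T, ?_⟩
  rw [h1]
  exact congrArg some (disc_inj m M hN hk hπ hz h2 hov (h3.trans hz0.symm))

omit [FiniteDimensional K M] in
/-- **Residue points.** Proof: the closed point under `x` is rational over `M`; the centre of the disc of a local parameter over `M` is a point over `M`. -/
theorem exRs : ExRs m := by
  intro M M' hM' hMM hres x hx hfp
  have hM : FiniteDimensional K M := by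
    have := (IntermediateField.inclusion hMM).toLinearMap
    exact FiniteDimensional.of_injective (IntermediateField.inclusion hMM).toLinearMap
      (IntermediateField.inclusion hMM).injective
  obtain ⟨φ, rfl, hφ⟩ := (nr_one_iff m x).1 hx
  have hv : ∀ r, ev m φ r ∈ M' := (fp_iff m M' φ).1 hfp
  obtain ⟨N, hN, hov, hk⟩ := exists_npt m M hφ (fun r => by
    obtain ⟨a, ha, hb⟩ := hres _ (hv r) (hφ r)
    have ha1 : L.nm a ≤ 1 := by
      have e : a = ev m φ r - (ev m φ r - a) := by ring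
      rw [e]
      exact (L.sub _ _).trans (max_le (hφ r) hb.le)
    exact ⟨⟨⟨a, ha⟩, ha1⟩, hb⟩)
  have := dedSk m M
  obtain ⟨π, hπ⟩ := IsDiscreteValuationRing.exists_irreducible (OM L M)
  obtain ⟨z, hz⟩ := (m.mdM M).exists_rgl hπ hN
  have h0 : L.nm (0 : Ω) < 1 := by rw [L.zero]; exact zero_lt_one
  obtain ⟨ψ, h1, h2⟩ := exists_disc m M hN hk hπ hz h0
  refine ⟨some ψ, fun γ hγ => ?_, L.nm (ptE m M φ ((m.mdM M).i z) - ptE m M ψ ((m.mdM M).i z)),
    ?_, (nr_iff m M (L.nonneg _)).2 ⟨(int_iff m M _).2 hφ, (int_iff m M _).2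
      ((ov_iff m M).1 h1).1, fun s => diff_pt m M hk hπ hz hov h1 s⟩⟩
  · rw [act_pt]
    refine congrArg some (disc_inj m M hN hk hπ hz (ov_act m M h1 hγ) h1 ?_)
    rw [ptE_act m M hγ, h2, map_zero]
  · exact (L.sub _ _).trans_lt (max_lt ((((ov_iff m M).1 hov).2 z).1 hz.1)
      ((((ov_iff m M).1 h1).2 z).1 hz.1))

end

end CV
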