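import Pool.Agent.Lib.MP_f80667_ag.Cv.DedA

/-! Smooth algebras over a field. -/

open TensorProduct

namespace CV

/-- A flat algebra over a domain is a faithful module if it is nontrivial. -/
private theorem dedB_inj {P S : Type} [CommRing P] [IsDomain P] [CommRing S] [Nontrivial S] [Algebra P S]
    [Module.Flat P S] : Function.Injective (algebraMap P S) := by
  rw [injective_iff_map_eq_zero]
  intro a ha
  by_contra h0
  have h1 : Function.Injective (LinearMap.lsmul P P a) := by
    intro x y hxy
    exact mul_left_cancel₀ h0 (by simpa using hxy)
  have h2 := Module.Flat.lTensor_preserves_injective_linearMap (M := S) (LinearMap.lsmul P P a) h1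
  have h3 : (LinearMap.lTensor S (LinearMap.lsmul P P a)) ((1 : S) ⊗ₜ[P] (1 : P)) = 0 := by
    rw [LinearMap.lTensor_tmul]
    have h4 : (LinearMap.lsmul P P a) 1 = a • (1 : P) := rfl
    rw [h4, TensorProduct.tmul_smul, TensorProduct.smul_tmul', Algebra.smul_def, ha, zero_mul,
      TensorProduct.zero_tmul]
  have h5 : ((1 : S) ⊗ₜ[P] (1 : P)) = 0 := h2 (by rw [h3, map_zero])
  have h6 := congrArg (TensorProduct.rid P S) h5
  simp at h6

/-- An étale algebra over a domain is algebraic. -/
private theorem dedB_alg {P S : Type} [CommRing P] [IsDomain P] [CommRing S] [Algebra P S]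
    [Algebra.Etale P S] : Algebra.IsAlgebraic P S := by
  have hfl : Module.Flat P S := inferInstance
  have hfin : Module.Finite (FractionRing P) (FractionRing P ⊗[P] S) :=
    Algebra.FormallyUnramified.finite_of_free _ _
  refine ⟨fun x => ?_⟩
  have h1 : IsAlgebraic (FractionRing P) ((1 : FractionRing P) ⊗ₜ[P] x) :=
    (Algebra.IsIntegral.isIntegral _).isAlgebraic
  have h2 : IsAlgebraic P ((1 : FractionRing P) ⊗ₜ[P] x) :=
    (IsFractionRing.isAlgebraic_iff P (FractionRing P) _).mpr h1
  have h3 : Function.Injective (Algebra.TensorProduct.includeRight : S →ₐ[P] FractionRing P ⊗[P] S) :=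
    Algebra.TensorProduct.includeRight_injective (IsFractionRing.injective P (FractionRing P))
  exact (isAlgebraic_algHom_iff _ h3).mp h2

/-- A smooth domain over a field is integrally closed. Proof: locally it is standard étale over a polynomial ring
(`Algebra.IsSmoothAt.exists_isStandardEtale_mvPolynomial`, as in the proof of
`TensorProduct.toIntegralClosure_bijective_of_smooth`), `intClosed_of_smooth` (étale: flat, so injective; algebraic: the generic fibre is
finite étale over the field of fractions); to be integrally closed is a local property. -/
theorem intClosed_of_field {K A : Type} [Field K] [CommRing A] [Algebra K A] [IsDomain A]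
    [Algebra.Smooth K A] : IsIntegrallyClosed A := by
  apply IsIntegrallyClosed.of_localization_maximal
  intro p hp hmax
  obtain ⟨f, hfp, n, hal, htow, hst⟩ :=
    Algebra.IsSmoothAt.exists_isStandardEtale_mvPolynomial (R := K) (p := p)
  have hf0 : f ≠ 0 := fun h => hfp (h ▸ p.zero_mem)
  have hle : Submonoid.powers f ≤ nonZeroDivisors A :=
    powers_le_nonZeroDivisors_of_noZeroDivisors hf0
  have hdom : IsDomain (Localization.Away f) := IsLocalization.isDomain_localization hle
  have het : Algebra.Etale (MvPolynomial (Fin n) K) (Localization.Away f) := inferInstance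
  have halg : Algebra.IsAlgebraic (MvPolynomial (Fin n) K) (Localization.Away f) := dedB_alg
  have hic : IsIntegrallyClosed (Localization.Away f) :=
    intClosed_of_smooth (P := MvPolynomial (Fin n) K) dedB_inj
  have hpc : Submonoid.powers f ≤ p.primeCompl := by
    rw [Submonoid.powers_le]
    exact hfp
  let := IsLocalization.localizationAlgebraOfSubmonoidLe (Localization.Away f)
    (Localization.AtPrime p) (Submonoid.powers f) p.primeCompl hpc
  have := IsLocalization.localization_isScalarTower_of_submonoid_le (Localization.Away f)
    (Localization.AtPrime p) (Submonoid.powers f) p.primeCompl hpc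
  have := IsLocalization.isLocalization_of_submonoid_le (Localization.Away f)
    (Localization.AtPrime p) (Submonoid.powers f) p.primeCompl hpc
  apply isIntegrallyClosed_of_isLocalization (R := Localization.Away f) (Localization.AtPrime p)
    (p.primeCompl.map (algebraMap A (Localization.Away f)))
  intro x hx
  obtain ⟨y, hy, rfl⟩ := hx
  apply mem_nonZeroDivisors_of_ne_zero
  intro h0
  have h1 := IsLocalization.injective (Localization.Away f) hle
  have h2 : y = 0 := h1 (by rw [map_zero]; exact h0)
  exact hy (h2 ▸ p.zero_mem)

end CV
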