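import Pool.Agent.Lib.MP_f80667_ag.Cv.DgA
import Pool.Agent.Lib.MP_f80667_ag.Cv.DedB

/-! The ring of a smooth affine curve with one place at infinity is a Dedekind domain. -/

namespace CV

variable {K A : Type} [Field K] [CommRing A] [Algebra K A]

/-- It is not a field. -/
theorem Dg.not_field (G : Dg K A) : ¬ IsField A := by
  intro hf
  obtain ⟨n₀, hn₀⟩ := G.tail
  obtain ⟨x, hx⟩ := hn₀ (n₀ + 1) (by omega)
  obtain ⟨y, hy⟩ := hf.mul_inv_cancel (G.ne_zero hx)
  have hy0 : y ≠ 0 := by
    rintro rfl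
    have := G.nontrivial
    rw [mul_zero] at hy
    exact zero_ne_one hy
  obtain ⟨k, hk⟩ := G.exists_nat hy0
  have h1 := G.mul x y
  rw [hy, G.one, hx, hk, ← Nat.cast_add, ← Nat.cast_zero, Nat.cast_inj] at h1
  omega

/-- The dimension is at most one: `A` is finite over `K[x]` (`fin_adjoin`). -/
theorem Dg.dimLE (G : Dg K A) : Ring.DimensionLEOne A := by
  obtain ⟨n₀, hn₀⟩ := G.tail
  obtain ⟨x, hx⟩ := hn₀ (n₀ + 1) (by omega)
  have hdom : IsDomain A := G.isDomain
  have hfin : Module.Finite (Algebra.adjoin K {x}) A := G.fin_adjoin hx (by omega)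
  have hint : Algebra.IsIntegral (Algebra.adjoin K {x}) A := inferInstance
  have hpir : IsPrincipalIdealRing (Algebra.adjoin K {x}) := by
    rw [Algebra.adjoin_singleton_eq_range_aeval]
    exact IsPrincipalIdealRing.of_surjective (Polynomial.aeval x : Polynomial K →ₐ[K] A).rangeRestrict
      (AlgHom.rangeRestrict_surjective _)
  have hdim : Ring.DimensionLEOne (Algebra.adjoin K {x}) := inferInstance
  refine ⟨fun {p} hp hpr => ?_⟩
  have h1 : Ideal.comap (algebraMap (Algebra.adjoin K {x}) A) p ≠ ⊥ :=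
    Ideal.IsIntegral.comap_ne_bot _ hp
  have h2 : (Ideal.comap (algebraMap (Algebra.adjoin K {x}) A) p).IsMaximal :=
    hdim.maximalOfPrime h1 inferInstance
  exact Ideal.isMaximal_of_isIntegral_of_isMaximal_comap p h2

/-- **The ring is a Dedekind domain.** -/
theorem Dg.ded (G : Dg K A) [Algebra.Smooth K A] : IsDedekindDomain A := by
  have hdom : IsDomain A := G.isDomain
  have hn : IsNoetherianRing A := G.noeth
  have hd : Ring.DimensionLEOne A := G.dimLE
  have hi : IsIntegrallyClosed A := intClosed_of_field (K := K)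
  exact { }

end CV
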