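import Pool.Agent.Lib.MP_f80667_ag.Cv.MdN

/-!
# The models over the integers of `M` and of `Ω`, and the points

* `Mod.mdM m M`, `Mod.mdO m`: the models over the integers of `M` and of `Ω`. `mpM h`, `mpMO M`, `mpG γ`: the maps between
  them; they preserve `Ut`.
* `ptE m E φ : E ⊗[Ok L] m.R →ₐ[E] Ω`: the point `φ` of the curve on the fibre over `E` (`E = K`, `M`, `Ω`); `ptE_bij`.
* `isoE m E : E ⊗[Ok L] m.R ≃ₐ[E] E ⊗[F] C.A`; `lift_isoE`, `mx_isoE`.
* `ig_iff`, `nr_iff`: integral points, distance. `mem_RM`: the ring `RM m M` is the image of the functions of the model.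
-/

set_option autoImplicit false

open ZC BE PE Polynomial TensorProduct IntermediateField IsLocalRing Module

namespace CV

section res

variable {K Ω : Type} [Field K] [Field Ω] [Algebra K Ω] (L : Ld K Ω)
  {M M' : IntermediateField K Ω}

/-- A local homomorphism over `O` on the residue fields. -/
noncomputable def resMap {O V V' : Type} [CommRing O] [IsLocalRing O] [CommRing V] [IsLocalRing V]
    [CommRing V'] [IsLocalRing V'] [Algebra O V] [Algebra O V'] [IsLocalHom (algebraMap O V)]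
    [IsLocalHom (algebraMap O V')] (v : V →ₐ[O] V') [IsLocalHom (v : V →+* V')] :
    ResidueField V →ₐ[ResidueField O] ResidueField V' where
  __ := IsLocalRing.ResidueField.map (v : V →+* V')
  commutes' c := by
    obtain ⟨c, rfl⟩ := residue_surjective c
    rw [IsLocalRing.ResidueField.algebraMap_residue, IsLocalRing.ResidueField.algebraMap_residue]
    change IsLocalRing.ResidueField.map (v : V →+* V') (residue V _) = _
    rw [IsLocalRing.ResidueField.map_residue]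
    congr 1
    exact v.commutes c

lemma resMap_residue {O V V' : Type} [CommRing O] [IsLocalRing O] [CommRing V] [IsLocalRing V]
    [CommRing V'] [IsLocalRing V'] [Algebra O V] [Algebra O V'] [IsLocalHom (algebraMap O V)]
    [IsLocalHom (algebraMap O V')] (v : V →ₐ[O] V') [IsLocalHom (v : V →+* V')] (c : V) :
    resMap v (algebraMap V (ResidueField V) c) = algebraMap V' (ResidueField V') (v c) :=
  IsLocalRing.ResidueField.map_residue (v : V →+* V') c

instance loc_omM (h : M ≤ M') : IsLocalHom (omM L h : OM L M →+* OM L M') :=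
  local_of L (algebraMap M Ω) (OM L M) (fun _ => Iff.rfl) (algebraMap M' Ω) (OM L M')
    (fun _ => Iff.rfl) _ (fun _ => rfl)

instance loc_omV : IsLocalHom (omV L M : OM L M →+* L.V) :=
  local_of L (algebraMap M Ω) (OM L M) (fun _ => Iff.rfl) (RingHom.id Ω) L.V
    (fun _ => Iff.rfl) _ (fun _ => rfl)

instance loc_actV (γ : Ω ≃ₐ[K] Ω) : IsLocalHom (actV L γ : L.V →+* L.V) :=
  local_of L (RingHom.id Ω) L.V (fun _ => Iff.rfl) (RingHom.id Ω) L.V
    (fun _ => Iff.rfl) _ (fun x => L.act γ x)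

end res

section loc

variable {F : Type} [Field F] {K Ω : Type} [Field K] [Field Ω] [Algebra K Ω] [Algebra F K]
  {L : Ld K Ω} {C : Crv F} (m : Mod C (Ok L) K)

namespace Mod

/-- The model over the integers of `M`. -/
noncomputable def mdM (M : IntermediateField K Ω) : Md (OM L M) M (ResidueField (OM L M))
    (OM L M ⊗[Ok L] m.R) (M ⊗[Ok L] m.R) (ResidueField (OM L M) ⊗[Ok L] m.R) :=
  m.md residue_surjective (fun c => residue_eq_zero_iff c)

/-- The model over the integers of `Ω`. -/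
noncomputable def mdO : Md L.V Ω L.κ (L.V ⊗[Ok L] m.R) (Ω ⊗[Ok L] m.R) (L.κ ⊗[Ok L] m.R) :=
  m.md residue_surjective (fun c => residue_eq_zero_iff c)

variable (M M' : IntermediateField K Ω)

theorem mdM_i (c : OM L M) (r : m.R) : (m.mdM M).i (c ⊗ₜ r) = (c : M) ⊗ₜ r := m.md_i _ _ c r

theorem mdM_q (c : OM L M) (r : m.R) : (m.mdM M).q (c ⊗ₜ r) = residue _ c ⊗ₜ r := m.md_q _ _ c r

theorem mdO_i (c : L.V) (r : m.R) : m.mdO.i (c ⊗ₜ r) = (c : Ω) ⊗ₜ r := m.md_i _ _ c r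

theorem mdO_q (c : L.V) (r : m.R) : m.mdO.q (c ⊗ₜ r) = residue _ c ⊗ₜ r := m.md_q _ _ c r

theorem mdM_ut (n : ℕ) (hn : m.N ≤ n) : ∃ e, (m.mdM M).Ut e n := m.exists_ut _ _ n hn

theorem mdO_ut (n : ℕ) (hn : m.N ≤ n) : ∃ e, m.mdO.Ut e n := m.exists_ut _ _ n hn

variable {M M'}

/-- The map of the functions from `M` to `M'`. -/
noncomputable def mpM (h : M ≤ M') : OM L M ⊗[Ok L] m.R →ₐ[Ok L] OM L M' ⊗[Ok L] m.R :=
  mpS m.R (omM L h)

/-- The map of the functions from `M` to `M'` on the generic fibres. -/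
noncomputable def mpML (h : M ≤ M') : M ⊗[Ok L] m.R →ₐ[Ok L] M' ⊗[Ok L] m.R :=
  Fb.mp m.R (inclusion h)

/-- The map of the functions from `M` to `M'` on the special fibres. -/
noncomputable def mpMk (h : M ≤ M') :
    ResidueField (OM L M) ⊗[Ok L] m.R →ₐ[Ok L] ResidueField (OM L M') ⊗[Ok L] m.R :=
  Fb.mp m.R (resMap (omM L h))

theorem mpM_i (h : M ≤ M') (s : OM L M ⊗[Ok L] m.R) :
    (m.mdM M').i (m.mpM h s) = m.mpML h ((m.mdM M).i s) :=
  m.i_mpS (L := M) (L' := M') (k := ResidueField (OM L M)) (k' := ResidueField (OM L M'))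
    _ _ _ _ (omM L h) (inclusion h) (fun _ => rfl) s

theorem mpM_q (h : M ≤ M') (s : OM L M ⊗[Ok L] m.R) :
    (m.mdM M').q (m.mpM h s) = m.mpMk h ((m.mdM M).q s) :=
  m.q_mpS (L := M) (L' := M') (k := ResidueField (OM L M)) (k' := ResidueField (OM L M'))
    _ _ _ _ (omM L h) (resMap (omM L h)) (resMap_residue _) s

theorem mpM_ut (h : M ≤ M') (s : OM L M ⊗[Ok L] m.R) (n : ℕ) :
    (m.mdM M').Ut (m.mpM h s) n ↔ (m.mdM M).Ut s n :=
  m.ut_mpS (L := M) (L' := M') (k := ResidueField (OM L M)) (k' := ResidueField (OM L M'))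
    _ _ _ _ (omM L h) (inclusion h) (resMap (omM L h)) (fun _ => rfl) (resMap_residue _) s n

theorem mpML_d (h : M ≤ M') (x : M ⊗[Ok L] m.R) :
    (m.mdM M').DL.d (m.mpML h x) = (m.mdM M).DL.d x :=
  Fb.bc_mp (E := M) (E' := M') m.fK (inclusion h) x

theorem mpMk_d (h : M ≤ M') (x : ResidueField (OM L M) ⊗[Ok L] m.R) :
    (m.mdM M').Dk.d (m.mpMk h x) = (m.mdM M).Dk.d x :=
  Fb.bc_mp (E := ResidueField (OM L M)) (E' := ResidueField (OM L M')) m.fk (resMap (omM L h)) x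

variable (M)

/-- The map of the functions from `M` to `Ω`. -/
noncomputable def mpO : OM L M ⊗[Ok L] m.R →ₐ[Ok L] L.V ⊗[Ok L] m.R :=
  mpS m.R (omV L M)

/-- The map of the functions from `M` to `Ω` on the generic fibres. -/
noncomputable def mpOL : M ⊗[Ok L] m.R →ₐ[Ok L] Ω ⊗[Ok L] m.R :=
  Fb.mp m.R M.val

/-- The map of the functions from `M` to `Ω` on the special fibres. -/
noncomputable def mpOk : ResidueField (OM L M) ⊗[Ok L] m.R →ₐ[Ok L] L.κ ⊗[Ok L] m.R :=
  Fb.mp m.R (resMap (omV L M))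

theorem mpO_i (s : OM L M ⊗[Ok L] m.R) : m.mdO.i (m.mpO M s) = m.mpOL M ((m.mdM M).i s) :=
  m.i_mpS (L := M) (L' := Ω) (k := ResidueField (OM L M)) (k' := L.κ)
    _ _ _ _ (omV L M) M.val (fun _ => rfl) s

theorem mpO_q (s : OM L M ⊗[Ok L] m.R) : m.mdO.q (m.mpO M s) = m.mpOk M ((m.mdM M).q s) :=
  m.q_mpS (L := M) (L' := Ω) (k := ResidueField (OM L M)) (k' := L.κ)
    _ _ _ _ (omV L M) (resMap (omV L M)) (resMap_residue _) s

theorem mpO_ut (s : OM L M ⊗[Ok L] m.R) (n : ℕ) : m.mdO.Ut (m.mpO M s) n ↔ (m.mdM M).Ut s n :=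
  m.ut_mpS (L := M) (L' := Ω) (k := ResidueField (OM L M)) (k' := L.κ)
    _ _ _ _ (omV L M) M.val (resMap (omV L M)) (fun _ => rfl) (resMap_residue _) s n

theorem mpOL_d (x : M ⊗[Ok L] m.R) : m.mdO.DL.d (m.mpOL M x) = (m.mdM M).DL.d x :=
  Fb.bc_mp (E := M) (E' := Ω) m.fK M.val x

theorem mpOk_d (x : ResidueField (OM L M) ⊗[Ok L] m.R) :
    m.mdO.Dk.d (m.mpOk M x) = (m.mdM M).Dk.d x :=
  Fb.bc_mp (E := ResidueField (OM L M)) (E' := L.κ) m.fk (resMap (omV L M)) x

theorem mpOL_tmul (c : M) (r : m.R) : m.mpOL M (c ⊗ₜ r) = (c : Ω) ⊗ₜ r := Fb.mp_tmul _ _ _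

theorem mpO_tmul (c : OM L M) (r : m.R) : m.mpO M (c ⊗ₜ r) = omV L M c ⊗ₜ r := mpS_tmul _ _ _

variable (γ : Ω ≃ₐ[K] Ω)

/-- The action of the Galois group on the functions over the integers of `Ω`. -/
noncomputable def mpG : L.V ⊗[Ok L] m.R →ₐ[Ok L] L.V ⊗[Ok L] m.R :=
  mpS m.R (actV L γ)

/-- The action of the Galois group on the functions of the generic fibre. -/
noncomputable def mpGL : Ω ⊗[Ok L] m.R →ₐ[Ok L] Ω ⊗[Ok L] m.R :=
  Fb.mp m.R (γ : Ω →ₐ[K] Ω)

/-- The action of the Galois group on the functions of the special fibre. -/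
noncomputable def mpGk : L.κ ⊗[Ok L] m.R →ₐ[Ok L] L.κ ⊗[Ok L] m.R :=
  Fb.mp m.R (resMap (actV L γ))

theorem mpG_i (s : L.V ⊗[Ok L] m.R) : m.mdO.i (m.mpG γ s) = m.mpGL γ (m.mdO.i s) :=
  m.i_mpS (L := Ω) (L' := Ω) (k := L.κ) (k' := L.κ)
    _ _ _ _ (actV L γ) (γ : Ω →ₐ[K] Ω) (fun _ => rfl) s

theorem mpG_q (s : L.V ⊗[Ok L] m.R) : m.mdO.q (m.mpG γ s) = m.mpGk γ (m.mdO.q s) :=
  m.q_mpS (L := Ω) (L' := Ω) (k := L.κ) (k' := L.κ)
    _ _ _ _ (actV L γ) (resMap (actV L γ)) (resMap_residue _) s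

theorem mpG_ut (s : L.V ⊗[Ok L] m.R) (n : ℕ) : m.mdO.Ut (m.mpG γ s) n ↔ m.mdO.Ut s n :=
  m.ut_mpS (L := Ω) (L' := Ω) (k := L.κ) (k' := L.κ)
    _ _ _ _ (actV L γ) (γ : Ω →ₐ[K] Ω) (resMap (actV L γ)) (fun _ => rfl) (resMap_residue _) s n

theorem mpGL_d (x : Ω ⊗[Ok L] m.R) : m.mdO.DL.d (m.mpGL γ x) = m.mdO.DL.d x :=
  Fb.bc_mp (E := Ω) (E' := Ω) m.fK (γ : Ω →ₐ[K] Ω) x

theorem mpGk_d (x : L.κ ⊗[Ok L] m.R) : m.mdO.Dk.d (m.mpGk γ x) = m.mdO.Dk.d x :=
  Fb.bc_mp (E := L.κ) (E' := L.κ) m.fk (resMap (actV L γ)) x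

theorem mpGL_tmul (c : Ω) (r : m.R) : m.mpGL γ (c ⊗ₜ r) = γ c ⊗ₜ r := Fb.mp_tmul _ _ _

end Mod

section pts

variable [Algebra F Ω] [IsScalarTower F K Ω] (E : Type) [Field E] [Algebra K E] [Algebra (Ok L) E] [IsScalarTower (Ok L) K E]
  [Algebra E Ω] [IsScalarTower (Ok L) E Ω]

/-- The point `φ` on the fibre over `E`. -/
noncomputable def ptE (φ : C.A →ₐ[F] Ω) : E ⊗[Ok L] m.R →ₐ[E] Ω :=
  Algebra.TensorProduct.lift (Algebra.ofId E Ω) (ev m φ) fun _ _ => Commute.all _ _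

variable {E}

omit [Algebra K E] [IsScalarTower (Ok L) K E] in
theorem ptE_tmul (φ : C.A →ₐ[F] Ω) (c : E) (r : m.R) :
    ptE m E φ (c ⊗ₜ r) = algebraMap E Ω c * ev m φ r := by
  unfold ptE
  rw [Algebra.TensorProduct.lift_tmul]
  rfl

theorem ev_def (φ : C.A →ₐ[F] Ω) (r : m.R) : ev m φ r =
    (Algebra.TensorProduct.lift (Algebra.ofId K Ω) φ fun _ _ => Commute.all _ _)
      (m.iso ((1 : K) ⊗ₜ r)) := rfl

theorem ev_inj {φ ψ : C.A →ₐ[F] Ω} (h : ∀ r, ev m φ r = ev m ψ r) : φ = ψ := by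
  have h1 : ((Algebra.TensorProduct.lift (Algebra.ofId K Ω) φ fun _ _ => Commute.all _ _).comp
      m.iso.toAlgHom) = ((Algebra.TensorProduct.lift (Algebra.ofId K Ω) ψ
        fun _ _ => Commute.all _ _).comp m.iso.toAlgHom) := by
    apply Algebra.TensorProduct.ext
    · exact Subsingleton.elim _ _
    · exact AlgHom.ext fun r => h r
  apply AlgHom.ext
  intro a
  have h2 := DFunLike.congr_fun h1 (m.iso.symm ((1 : K) ⊗ₜ a))
  change (Algebra.TensorProduct.lift (Algebra.ofId K Ω) φ fun _ _ => Commute.all _ _)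
    (m.iso (m.iso.symm ((1 : K) ⊗ₜ a))) =
    (Algebra.TensorProduct.lift (Algebra.ofId K Ω) ψ fun _ _ => Commute.all _ _)
    (m.iso (m.iso.symm ((1 : K) ⊗ₜ a))) at h2
  rw [AlgEquiv.apply_symm_apply, Algebra.TensorProduct.lift_tmul,
    Algebra.TensorProduct.lift_tmul, map_one, one_mul, one_mul] at h2
  exact h2

theorem ev_surj (ρ : m.R →ₐ[Ok L] Ω) : ∃ φ : C.A →ₐ[F] Ω, ev m φ = ρ := by
  let ρK : K ⊗[Ok L] m.R →ₐ[K] Ω :=
    Algebra.TensorProduct.lift (Algebra.ofId K Ω) ρ fun _ _ => Commute.all _ _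
  let χ : K ⊗[F] C.A →ₐ[K] Ω := ρK.comp m.iso.symm.toAlgHom
  let φ : C.A →ₐ[F] Ω := (χ.restrictScalars F).comp Algebra.TensorProduct.includeRight
  have h1 : (Algebra.TensorProduct.lift (Algebra.ofId K Ω) φ fun _ _ => Commute.all _ _) = χ := by
    apply Algebra.TensorProduct.ext
    · exact Subsingleton.elim _ _
    · apply AlgHom.ext
      intro a
      change (Algebra.TensorProduct.lift (Algebra.ofId K Ω) φ fun _ _ => Commute.all _ _)
        ((1 : K) ⊗ₜ a) = χ ((1 : K) ⊗ₜ a)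
      rw [Algebra.TensorProduct.lift_tmul, map_one, one_mul]
      rfl
  refine ⟨φ, AlgHom.ext fun r => ?_⟩
  rw [ev_def, h1]
  change ρK (m.iso.symm (m.iso ((1 : K) ⊗ₜ r))) = ρ r
  rw [AlgEquiv.symm_apply_apply]
  change Algebra.TensorProduct.lift (Algebra.ofId K Ω) ρ (fun _ _ => Commute.all _ _)
    ((1 : K) ⊗ₜ r) = ρ r
  rw [Algebra.TensorProduct.lift_tmul, map_one, one_mul]

variable (E)

omit [Algebra K E] [IsScalarTower (Ok L) K E] in
/-- The points of the curve are the points of the fibre over `E`. -/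
theorem ptE_bij : Function.Bijective (ptE m E) := by
  constructor
  · intro φ ψ h
    refine ev_inj m fun r => ?_
    have h1 := DFunLike.congr_fun h ((1 : E) ⊗ₜ r)
    rwa [ptE_tmul, ptE_tmul, map_one, one_mul, one_mul] at h1
  · intro χ
    obtain ⟨φ, hφ⟩ := ev_surj m ((χ.restrictScalars (Ok L)).comp
      (Algebra.TensorProduct.includeRight : m.R →ₐ[Ok L] E ⊗[Ok L] m.R))
    refine ⟨φ, ?_⟩
    apply Algebra.TensorProduct.ext
    · exact Subsingleton.elim _ _
    · apply AlgHom.ext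
      intro r
      change ptE m E φ ((1 : E) ⊗ₜ r) = χ ((1 : E) ⊗ₜ r)
      rw [ptE_tmul, map_one, one_mul, hφ]
      rfl

/-- The functions on the generic fibre. -/
noncomputable def isoE [Algebra F E] [IsScalarTower F K E] :
    E ⊗[Ok L] m.R ≃ₐ[E] E ⊗[F] C.A :=
  (Algebra.TensorProduct.cancelBaseChange (Ok L) K E E m.R).symm.trans
    ((Algebra.TensorProduct.congr AlgEquiv.refl m.iso).trans
      (Algebra.TensorProduct.cancelBaseChange F K E E C.A))

variable [Algebra F E] [IsScalarTower F K E]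

omit [Algebra F Ω] [IsScalarTower F K Ω] [Algebra E Ω] [IsScalarTower (Ok L) E Ω] in
theorem isoE_tmul (c : E) (r : m.R) : isoE m E (c ⊗ₜ r) =
    Algebra.TensorProduct.cancelBaseChange F K E E C.A (c ⊗ₜ[K] m.iso ((1 : K) ⊗ₜ r)) := by
  have h : (Algebra.TensorProduct.cancelBaseChange (Ok L) K E E m.R).symm (c ⊗ₜ r) =
      c ⊗ₜ[K] ((1 : K) ⊗ₜ[Ok L] r) := by
    rw [AlgEquiv.symm_apply_eq, Algebra.TensorProduct.cancelBaseChange_tmul, one_smul]
  unfold isoE
  rw [AlgEquiv.trans_apply, AlgEquiv.trans_apply, h]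
  rfl

variable [IsScalarTower K E Ω] [IsScalarTower F E Ω]

/-- The value of a function on the generic fibre at a point. -/
theorem lift_isoE (φ : C.A →ₐ[F] Ω) (x : E ⊗[Ok L] m.R) :
    (Algebra.TensorProduct.lift (Algebra.ofId E Ω) φ fun _ _ => Commute.all _ _) (isoE m E x) =
      ptE m E φ x := by
  have h1 : ∀ (c : E) (y : K ⊗[F] C.A),
      (Algebra.TensorProduct.lift (Algebra.ofId E Ω) φ fun _ _ => Commute.all _ _)
        (Algebra.TensorProduct.cancelBaseChange F K E E C.A (c ⊗ₜ[K] y)) = algebraMap E Ω c *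
      (Algebra.TensorProduct.lift (Algebra.ofId K Ω) φ fun _ _ => Commute.all _ _) y := by
    intro c y
    induction y using TensorProduct.induction_on with
    | zero => rw [tmul_zero, map_zero, map_zero, map_zero, mul_zero]
    | tmul k a =>
      rw [Algebra.TensorProduct.cancelBaseChange_tmul, Algebra.TensorProduct.lift_tmul,
        Algebra.TensorProduct.lift_tmul, Algebra.ofId_apply, Algebra.ofId_apply, Algebra.smul_def,
        map_mul, ← IsScalarTower.algebraMap_apply K E Ω]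
      ring
    | add x y hx hy => rw [tmul_add, map_add, map_add, hx, hy, map_add, mul_add]
  induction x using TensorProduct.induction_on with
  | zero => simp only [map_zero]
  | tmul c r => rw [isoE_tmul, h1, ptE_tmul, ev_def]
  | add x y hx hy => simp only [map_add, hx, hy]

end pts

section int

variable [Algebra F Ω] [IsScalarTower F K Ω]

/-- The maximal ideal of a point. -/
theorem mx_isoE (φ : C.A →ₐ[F] Ω) (x : Ω ⊗[Ok L] m.R) :
    isoE m Ω x ∈ mx φ ↔ ptE m Ω φ x = 0 := by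
  rw [← lift_isoE]
  rfl

theorem evO_eq (φ : C.A →ₐ[F] Ω) : evO m φ = ptE m Ω φ := by
  apply Algebra.TensorProduct.ext
  · exact Subsingleton.elim _ _
  · apply AlgHom.ext
    intro r
    change evO m φ ((1 : Ω) ⊗ₜ r) = ptE m Ω φ ((1 : Ω) ⊗ₜ r)
    unfold evO ptE
    rw [Algebra.TensorProduct.lift_tmul, Algebra.TensorProduct.lift_tmul, map_one, map_one]

variable (M : IntermediateField K Ω)

/-- Compatibility of the values with the extension of `M` to `Ω`. -/
theorem ptE_mpOL (φ : C.A →ₐ[F] Ω) (x : M ⊗[Ok L] m.R) :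
    ptE m Ω φ (m.mpOL M x) = ptE m M φ x := by
  induction x using TensorProduct.induction_on with
  | zero => simp only [map_zero]
  | tmul c r =>
    rw [Mod.mpOL_tmul, ptE_tmul, ptE_tmul]
    rfl
  | add x y hx hy => simp only [map_add, hx, hy]

/-- The action of the Galois group on the values. -/
theorem ev_comp (γ : Ω ≃ₐ[K] Ω) (φ : C.A →ₐ[F] Ω) (r : m.R) :
    ev m (((γ : Ω →ₐ[K] Ω).restrictScalars F).comp φ) r = γ (ev m φ r) := by
  have h : ∀ y : K ⊗[F] C.A, (Algebra.TensorProduct.lift (Algebra.ofId K Ω)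
      (((γ : Ω →ₐ[K] Ω).restrictScalars F).comp φ) fun _ _ => Commute.all _ _) y =
      γ ((Algebra.TensorProduct.lift (Algebra.ofId K Ω) φ fun _ _ => Commute.all _ _) y) := by
    intro y
    induction y using TensorProduct.induction_on with
    | zero => simp only [map_zero]
    | tmul k a =>
      rw [Algebra.TensorProduct.lift_tmul, Algebra.TensorProduct.lift_tmul, Algebra.ofId_apply,
        map_mul, AlgEquiv.commutes]
      rfl
    | add x y hx hy => simp only [map_add, hx, hy]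
  rw [ev_def, ev_def, h]

/-- The action of the Galois group on the values. -/
theorem ptE_mpGL (γ : Ω ≃ₐ[K] Ω) (φ : C.A →ₐ[F] Ω) (x : Ω ⊗[Ok L] m.R) :
    ptE m Ω (((γ : Ω →ₐ[K] Ω).restrictScalars F).comp φ) (m.mpGL γ x) = γ (ptE m Ω φ x) := by
  induction x using TensorProduct.induction_on with
  | zero => simp only [map_zero]
  | tmul c r =>
    rw [Mod.mpGL_tmul, ptE_tmul, ptE_tmul, ev_comp, map_mul]
    rfl
  | add x y hx hy => simp only [map_add, hx, hy]

/-- The values of the functions over the integers of `M` at a point. -/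
theorem ptE_i (φ : C.A →ₐ[F] Ω) (c : OM L M) (r : m.R) :
    ptE m M φ ((m.mdM M).i (c ⊗ₜ r)) = ((c : M) : Ω) * ev m φ r := by
  rw [Mod.mdM_i, ptE_tmul]
  rfl

theorem ptE_iO (φ : C.A →ₐ[F] Ω) (c : L.V) (r : m.R) :
    ptE m Ω φ (m.mdO.i (c ⊗ₜ r)) = (c : Ω) * ev m φ r := by
  rw [Mod.mdO_i, ptE_tmul]
  rfl

/-- Integral points. -/
theorem int_iff (φ : C.A →ₐ[F] Ω) :
    (∀ s, L.nm (ptE m M φ ((m.mdM M).i s)) ≤ 1) ↔ ∀ r, L.nm (ev m φ r) ≤ 1 := by
  constructor
  · intro h r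
    have h1 := h ((1 : OM L M) ⊗ₜ r)
    rw [ptE_i] at h1
    have h2 : (((1 : OM L M) : M) : Ω) = 1 := rfl
    rw [h2, one_mul] at h1
    exact h1
  · intro h s
    induction s using TensorProduct.induction_on with
    | zero => rw [map_zero, map_zero, L.zero]; exact zero_le_one
    | tmul c r =>
      rw [ptE_i, L.mul]
      exact mul_le_one₀ c.2 (L.nonneg _) (h r)
    | add x y hx hy =>
      have e1 : (m.mdM M).i (x + y) = (m.mdM M).i x + (m.mdM M).i y := map_add (m.mdM M).i x y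
      rw [e1, map_add]
      exact (L.add _ _).trans (max_le hx hy)

theorem intO_iff (φ : C.A →ₐ[F] Ω) :
    (∀ s, L.nm (ptE m Ω φ (m.mdO.i s)) ≤ 1) ↔ ∀ r, L.nm (ev m φ r) ≤ 1 := by
  constructor
  · intro h r
    have h1 := h ((1 : L.V) ⊗ₜ r)
    rw [ptE_iO] at h1
    have h2 : ((1 : L.V) : Ω) = 1 := rfl
    rw [h2, one_mul] at h1
    exact h1
  · intro h s
    induction s using TensorProduct.induction_on with
    | zero => rw [map_zero, map_zero, L.zero]; exact zero_le_one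
    | tmul c r =>
      rw [ptE_iO, L.mul]
      exact mul_le_one₀ c.2 (L.nonneg _) (h r)
    | add x y hx hy =>
      have e1 : m.mdO.i (x + y) = m.mdO.i x + m.mdO.i y := map_add m.mdO.i x y
      rw [e1, map_add]
      exact (L.add _ _).trans (max_le hx hy)

/-- Integral points, in the letters of `Md.Ig`. -/
theorem ig_iff [FiniteDimensional K M] (φ : C.A →ₐ[F] Ω) :
    (m.mdM M).Ig L.V (ptE m M φ) ↔ ∀ r, L.nm (ev m φ r) ≤ 1 := int_iff m M φ

theorem nr_one_iff (x : C.V.pt Ω) :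
    Nr m 1 x x ↔ ∃ φ : C.A →ₐ[F] Ω, x = some φ ∧ ∀ r, L.nm (ev m φ r) ≤ 1 := by
  constructor
  · rintro ⟨φ, ψ, h1, h2, h⟩
    exact ⟨φ, h1, fun r => (h r).1⟩
  · rintro ⟨φ, h1, h⟩
    refine ⟨φ, φ, h1, h1, fun r => ⟨h r, h r, ?_⟩⟩
    rw [sub_self, L.zero]
    exact zero_le_one

/-- The distance of integral points on all functions over the integers of `M`. -/
theorem nr_iff {φ ψ : C.A →ₐ[F] Ω} {ρ : ℝ} (hρ : 0 ≤ ρ) : Nr m ρ (some φ) (some ψ) ↔
    (∀ s, L.nm (ptE m M φ ((m.mdM M).i s)) ≤ 1) ∧ (∀ s, L.nm (ptE m M ψ ((m.mdM M).i s)) ≤ 1) ∧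
    ∀ s, L.nm (ptE m M φ ((m.mdM M).i s) - ptE m M ψ ((m.mdM M).i s)) ≤ ρ := by
  constructor
  · rintro ⟨φ', ψ', h1, h2, h⟩
    have e1 := Option.some.inj h1
    have e2 := Option.some.inj h2
    subst e1
    subst e2
    refine ⟨(int_iff m M _).2 fun r => (h r).1, (int_iff m M _).2 fun r => (h r).2.1, fun s => ?_⟩
    induction s using TensorProduct.induction_on with
    | zero => rw [map_zero, map_zero, map_zero, sub_zero, L.zero]; exact hρ
    | tmul c r =>
      rw [ptE_i, ptE_i, ← mul_sub, L.mul]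
      exact (mul_le_of_le_one_left (L.nonneg _) c.2).trans (h r).2.2
    | add x y hx hy =>
      have e1 : (m.mdM M).i (x + y) = (m.mdM M).i x + (m.mdM M).i y := map_add (m.mdM M).i x y
      rw [e1, map_add, map_add, add_sub_add_comm]
      exact (L.add _ _).trans (max_le hx hy)
  · rintro ⟨h1, h2, h3⟩
    refine ⟨φ, ψ, rfl, rfl, fun r => ⟨(int_iff m M φ).1 h1 r, (int_iff m M ψ).1 h2 r, ?_⟩⟩
    have h4 := h3 ((1 : OM L M) ⊗ₜ r)
    rw [ptE_i, ptE_i] at h4
    have h5 : (((1 : OM L M) : M) : Ω) = 1 := rfl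
    rwa [h5, one_mul, one_mul] at h4

omit [Algebra F Ω] [IsScalarTower F K Ω] in
/-- The ring `RM m M` is the image of the functions of the model over the integers of `M`. -/
theorem mem_RM (z : Ω ⊗[Ok L] m.R) : z ∈ RM m M ↔ ∃ s, m.mpOL M ((m.mdM M).i s) = z := by
  constructor
  · intro hz
    let g : OM L M ⊗[Ok L] m.R →+* Ω ⊗[Ok L] m.R :=
      (m.mpOL M).toRingHom.comp (m.mdM M).i
    have hg : ∀ s, g s = m.mpOL M ((m.mdM M).i s) := fun s => by
      change ((m.mpOL M).toRingHom.comp (m.mdM M).i) s = _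
      rw [RingHom.comp_apply]
      rfl
    have h : RM m M ≤ g.range := by
      unfold RM
      rw [Subring.closure_le]
      rintro z (⟨x, hx, h1, rfl⟩ | ⟨r, rfl⟩)
      · refine ⟨(⟨⟨x, hx⟩, h1⟩ : OM L M) ⊗ₜ 1, ?_⟩
        rw [hg, Mod.mdM_i, Mod.mpOL_tmul]
      · refine ⟨(1 : OM L M) ⊗ₜ r, ?_⟩
        rw [hg, Mod.mdM_i, Mod.mpOL_tmul]
        rfl
    obtain ⟨s, hs⟩ := h hz
    exact ⟨s, hs⟩
  · rintro ⟨s, rfl⟩
    induction s using TensorProduct.induction_on with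
    | zero =>
      have e1 : (m.mdM M).i 0 = 0 := map_zero (m.mdM M).i
      rw [e1, map_zero]
      exact zero_mem _
    | tmul c r =>
      rw [Mod.mdM_i, Mod.mpOL_tmul]
      have h : (((c : M) : Ω) ⊗ₜ[Ok L] r : Ω ⊗[Ok L] m.R) =
          (((c : M) : Ω) ⊗ₜ 1) * ((1 : Ω) ⊗ₜ r) := by
        rw [Algebra.TensorProduct.tmul_mul_tmul, mul_one, one_mul]
      rw [h]
      exact mul_mem (Subring.subset_closure (Or.inl ⟨_, (c : M).2, c.2, rfl⟩))
        (Subring.subset_closure (Or.inr ⟨r, rfl⟩))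
    | add x y hx hy =>
      have e1 : (m.mdM M).i (x + y) = (m.mdM M).i x + (m.mdM M).i y := map_add (m.mdM M).i x y
      rw [e1, map_add]
      exact add_mem hx hy

end int

end loc

end CV
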