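import Pool.Agent.Lib.MP_f80667_ag.Cv.Cl1
import Pool.Agent.Lib.MP_f80667_ag.Cv.MdW
import Pool.Agent.Lib.MP_f80667_ag.Cv.Ded

/-!
The comparison of two polynomials on the curve: ExCl.
-/

open ZC BE PE Polynomial TensorProduct IntermediateField IsLocalRing

namespace CV

variable {F : Type} [Field F] {C : Crv F} {K Ω : Type} [Field K] [CharZero K] [Field Ω]
  [Algebra K Ω] [Algebra F K] [Algebra F Ω] [IsScalarTower F K Ω] [IsAlgClosure K Ω] {L : Ld K Ω}
  (m : Mod C (Ok L) K) (M : IntermediateField K Ω)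

/-- The points. -/
theorem pe_ptE (φ : C.A →ₐ[F] Ω) : pe (isoE m M) (ptE m M φ) = φ := by
  ext a
  rw [pe_apply]
  have h := lift_isoE m M φ ((isoE m M).symm (1 ⊗ₜ a))
  rw [AlgEquiv.apply_symm_apply, Algebra.TensorProduct.lift_tmul, map_one, one_mul] at h
  exact h.symm

theorem ptE_pe (χ : M ⊗[Ok L] m.R →ₐ[M] Ω) : ptE m M (pe (isoE m M) χ) = χ := by
  obtain ⟨φ, rfl⟩ := (ptE_bij m M).2 χ
  rw [pe_ptE]

/-- The functions of the model over the integers of `M`. -/
noncomputable def rhoM : m.R →+* OM L M ⊗[Ok L] m.R :=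
  (Algebra.TensorProduct.includeRight : m.R →ₐ[Ok L] OM L M ⊗[Ok L] m.R).toRingHom

variable [FiniteDimensional K M]

/-- The model over the integers of `M` is compatible with `m`. -/
theorem cmp_mdM : Cmp m (m.mdM M) (isoE m M) (rhoM m M) where
  ev χ a := by
    obtain ⟨φ, rfl⟩ := (ptE_bij m M).2 χ
    rw [pe_ptE]
    change ptE m M φ ((m.mdM M).i (1 ⊗ₜ a)) = _
    rw [ptE_i]
    change (1 : Ω) * _ = _
    rw [one_mul]
  gen s := by
    induction s using TensorProduct.induction_on with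
    | zero => exact zero_mem _
    | tmul c r =>
      have h : c ⊗ₜ[Ok L] r = algebraMap (OM L M) (OM L M ⊗[Ok L] m.R) c * rhoM m M r := by
        change _ = (c ⊗ₜ[Ok L] (1 : m.R)) * ((1 : OM L M) ⊗ₜ[Ok L] r)
        rw [Algebra.TensorProduct.tmul_mul_tmul, mul_one, one_mul]
      rw [h]
      exact mul_mem (Subalgebra.algebraMap_mem _ c) (Algebra.subset_adjoin ⟨r, rfl⟩)
    | add x y hx hy => exact add_mem hx hy

omit [CharZero K] [IsAlgClosure K Ω] [FiniteDimensional K M] in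
theorem ded_mdM : IsDedekindDomain (ResidueField (OM L M) ⊗[Ok L] m.R) := by
  have := m.sm
  exact (m.mdM M).Dk.ded

/-- **ExCl.** -/
theorem exCl : ExCl m := by
  intro M hM T f g r hf hg hd hr h
  have := ded_mdM m M
  exact cl_cmp (cmp_mdM m M) T hf hg hd hr h

end CV
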