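import Pool.Agent.Lib.MP_f80667_ag.Cv.CxF
import Pool.Agent.Lib.MP_f80667_ag.Cv.Cl2

/-!
The comparison of two polynomials on a curve in a product: ExCx.
-/

open ZC BE PE Polynomial IntermediateField IsLocalRing

namespace CV

variable {F : Type} [Field F] {K Ω : Type} [Field K] [CharZero K] [Field Ω]
  [Algebra K Ω] [Algebra F K] [Algebra F Ω] [IsScalarTower F K Ω] [IsAlgClosure K Ω] {L : Ld K Ω}

/-- **ExCx.** -/
theorem exCx {ι : Type} [Finite ι] {C : ι → Crv F} (m : ∀ i, Mod (C i) (Ok L) K) : ExCx m := by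
  intro M hM T r hr f g ρ hf hg hd hρ h
  have := fun i => ded_mdM (m i) M
  exact cx_cmp (k := ResidueField (OM L M)) residue_surjective (fun c => residue_eq_zero_iff c)
    (fun i => cmp_mdM (m i) M) T hr hf hg hd hρ h

end CV
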