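import Pool.Agent.Lib.MP_f80667_ag.Pe.NmL

/-! # Mackey's formula for the norms `Nm` -/

set_option autoImplicit false

open PE IntermediateField

namespace CV

variable {K Ω : Type} [Field K] [CharZero K] [Field Ω] [Algebra K Ω] [IsAlgClosure K Ω]

omit [CharZero K] [IsAlgClosure K Ω] in
private theorem mem_fix_map {M' M₁ : IntermediateField K Ω} (σ γ : Ω ≃ₐ[K] Ω) :
    γ ∈ (M' ⊔ M₁.map (σ : Ω →ₐ[K] Ω)).fixingSubgroup ↔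
      γ ∈ M'.fixingSubgroup ∧ σ⁻¹ * γ * σ ∈ M₁.fixingSubgroup := by
  rw [IntermediateField.fixingSubgroup_sup, Subgroup.mem_inf]
  refine and_congr Iff.rfl ?_
  rw [IntermediateField.mem_fixingSubgroup_iff, IntermediateField.mem_fixingSubgroup_iff]
  constructor
  · intro h y hy
    have h1 := h (σ y) ⟨y, hy, rfl⟩
    change σ.symm (γ (σ y)) = y
    rw [h1]
    exact σ.symm_apply_apply y
  · rintro h _ ⟨y, hy, rfl⟩
    have h1 := h y hy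
    change σ.symm (γ (σ y)) = y at h1
    change γ (σ y) = σ y
    exact σ.symm_apply_eq.1 h1

private def ds (M' M₁ : IntermediateField K Ω) : Setoid (Ω ≃ₐ[K] Ω) where
  r := fun γ δ => ∃ g ∈ M'.fixingSubgroup, γ⁻¹ * (g * δ) ∈ M₁.fixingSubgroup
  iseqv := by
    refine ⟨fun γ => ⟨1, Subgroup.one_mem _, ?_⟩, ?_, ?_⟩
    · rw [one_mul, inv_mul_cancel]
      exact Subgroup.one_mem _
    · rintro γ δ ⟨g, hg, e⟩
      refine ⟨g⁻¹, Subgroup.inv_mem _ hg, ?_⟩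
      have e₂ := Subgroup.inv_mem _ e
      have e₃ : (γ⁻¹ * (g * δ))⁻¹ = δ⁻¹ * (g⁻¹ * γ) := by group
      rwa [e₃] at e₂
    · rintro γ δ ε ⟨g, hg, e⟩ ⟨g', hg', e'⟩
      refine ⟨g * g', Subgroup.mul_mem _ hg hg', ?_⟩
      have e₂ := Subgroup.mul_mem _ e e'
      have e₃ : γ⁻¹ * (g * δ) * (δ⁻¹ * (g' * ε)) = γ⁻¹ * (g * g' * ε) := by group
      rwa [e₃] at e₂

/-- **Mackey.** Proof: `nm_rep`: `Nm M M₁ a = ∑ γ ∈ s₀, γ • a`, `s₀` representatives of the cosets of `G₁` (the group of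
`M₁`) in the group `G` of `M`. The group `G'` of `M'` acts on the cosets from the left; let `s ⊆ s₀` contain one
representative of every orbit (`s₀` is finite). The stabilizer of the coset of `σ` is `G' ∩ σ G₁ σ⁻¹`, the group of
`M' ⊔ σ M₁`. So for representatives `t σ` of the cosets of this group in `G'` (`nm_rep`) the elements `δ σ`, `σ ∈ s`,
`δ ∈ t σ`, are representatives of the cosets of `G₁` in `G` (`nm_eq`). -/
theorem nm_mackey {M M' M₁ : IntermediateField K Ω} [FiniteDimensional K M']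
    [FiniteDimensional K M₁] (h : M ≤ M') (h₁ : M ≤ M₁) :
    ∃ s : Finset (Ω ≃ₐ[K] Ω), (∀ σ ∈ s, σ ∈ M.fixingSubgroup) ∧
      ∀ (A : Type) [AddCommGroup A] [DistribMulAction (Ω ≃ₐ[K] Ω) A] (a : A), Fx M₁ a →
        Nm M M₁ a = ∑ σ ∈ s, Nm M' (M' ⊔ M₁.map (σ : Ω →ₐ[K] Ω)) (σ • a) := by
  classical
  have hfd : ∀ σ : Ω ≃ₐ[K] Ω, FiniteDimensional K
      (M' ⊔ M₁.map (σ : Ω →ₐ[K] Ω) : IntermediateField K Ω) := fun σ =>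
    IntermediateField.finiteDimensional_sup _ _
  obtain ⟨s₀, -, hs₀, hs₀', -⟩ := nm_rep h₁
  have ht := fun σ : Ω ≃ₐ[K] Ω =>
    nm_rep (M := M') (N := M' ⊔ M₁.map (σ : Ω →ₐ[K] Ω)) le_sup_left
  choose t ht₀ ht₁ ht₂ ht₃ using ht
  let out : (Ω ≃ₐ[K] Ω) → (Ω ≃ₐ[K] Ω) := fun γ => (Quotient.mk (ds M' M₁) γ).out
  have hout : ∀ γ, (ds M' M₁).r (out γ) γ := fun γ =>
    (Quotient.exact (Quotient.out_eq (Quotient.mk (ds M' M₁) γ)) :)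
  have hG : ∀ {γ δ : Ω ≃ₐ[K] Ω}, (ds M' M₁).r γ δ → δ ∈ M.fixingSubgroup →
      γ ∈ M.fixingSubgroup := by
    rintro γ δ ⟨g, hg, e⟩ hδ
    have e₁ : γ = g * δ * (γ⁻¹ * (g * δ))⁻¹ := by group
    rw [e₁]
    exact Subgroup.mul_mem _ (Subgroup.mul_mem _ (BE.fix_le h hg) hδ)
      (Subgroup.inv_mem _ (BE.fix_le h₁ e))
  have hsM : ∀ σ ∈ s₀.image out, σ ∈ M.fixingSubgroup := by
    intro σ hσ
    obtain ⟨γ, hγ, rfl⟩ := Finset.mem_image.1 hσ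
    exact hG (hout γ) (hs₀ γ hγ)
  have huniq : ∀ {σ σ' γ : Ω ≃ₐ[K] Ω}, σ ∈ s₀.image out → σ' ∈ s₀.image out →
      (ds M' M₁).r σ γ → (ds M' M₁).r σ' γ → σ = σ' := by
    intro σ σ' γ hσ hσ' e e'
    obtain ⟨α, hα, rfl⟩ := Finset.mem_image.1 hσ
    obtain ⟨β, hβ, rfl⟩ := Finset.mem_image.1 hσ'
    have e₁ : (ds M' M₁).r α β :=
      (ds M' M₁).trans ((ds M' M₁).trans ((ds M' M₁).symm (hout α)) e)
        ((ds M' M₁).trans ((ds M' M₁).symm e') (hout β))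
    have e₂ : Quotient.mk (ds M' M₁) α = Quotient.mk (ds M' M₁) β := Quotient.sound e₁
    change (Quotient.mk (ds M' M₁) α).out = (Quotient.mk (ds M' M₁) β).out
    rw [e₂]
  refine ⟨s₀.image out, hsM, ?_⟩
  intro A _ _ a ha
  have hu : ∀ {σ σ' δ δ' x : Ω ≃ₐ[K] Ω}, σ ∈ s₀.image out → σ' ∈ s₀.image out → δ ∈ t σ →
      δ' ∈ t σ' → (δ * σ)⁻¹ * x ∈ M₁.fixingSubgroup → (δ' * σ')⁻¹ * x ∈ M₁.fixingSubgroup →
      σ = σ' ∧ δ = δ' := by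
    intro σ σ' δ δ' x hσ hσ' hδ hδ' e e'
    have key : ∀ {σ δ : Ω ≃ₐ[K] Ω}, δ ∈ t σ → (δ * σ)⁻¹ * x ∈ M₁.fixingSubgroup →
        (ds M' M₁).r σ x := by
      intro σ δ hδ e
      refine ⟨δ⁻¹, Subgroup.inv_mem _ (ht₁ σ δ hδ), ?_⟩
      have e₃ : (δ * σ)⁻¹ * x = σ⁻¹ * (δ⁻¹ * x) := by group
      rwa [e₃] at e
    have hσσ : σ = σ' := huniq hσ hσ' (key hδ e) (key hδ' e')
    subst hσσ
    refine ⟨rfl, ?_⟩
    have e₁ : δ⁻¹ * δ' ∈ (M' ⊔ M₁.map (σ : Ω →ₐ[K] Ω)).fixingSubgroup := by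
      rw [mem_fix_map]
      refine ⟨Subgroup.mul_mem _ (Subgroup.inv_mem _ (ht₁ σ δ hδ)) (ht₁ σ δ' hδ'), ?_⟩
      have e₂ := Subgroup.mul_mem _ e (Subgroup.inv_mem _ e')
      have e₃ : (δ * σ)⁻¹ * x * ((δ' * σ)⁻¹ * x)⁻¹ = σ⁻¹ * (δ⁻¹ * δ') * σ := by group
      rwa [e₃] at e₂
    have e₂ : δ'⁻¹ * δ' ∈ (M' ⊔ M₁.map (σ : Ω →ₐ[K] Ω)).fixingSubgroup := by
      rw [inv_mul_cancel]
      exact Subgroup.one_mem _
    exact (ht₂ σ δ' (ht₁ σ δ' hδ')).unique ⟨hδ, e₁⟩ ⟨hδ', e₂⟩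
  have hinj : Set.InjOn (fun q : (_ : Ω ≃ₐ[K] Ω) × (Ω ≃ₐ[K] Ω) => q.2 * q.1)
      ((s₀.image out).sigma t : Finset ((_ : Ω ≃ₐ[K] Ω) × (Ω ≃ₐ[K] Ω))) := by
    rintro ⟨σ, δ⟩ hq ⟨σ', δ'⟩ hq' heq
    rw [Finset.mem_coe, Finset.mem_sigma] at hq hq'
    dsimp only at heq hq hq'
    have e₁ : (δ * σ)⁻¹ * (δ * σ) ∈ M₁.fixingSubgroup := by
      rw [inv_mul_cancel]
      exact Subgroup.one_mem _
    have e₂ : (δ' * σ')⁻¹ * (δ * σ) ∈ M₁.fixingSubgroup := by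
      rw [heq, inv_mul_cancel]
      exact Subgroup.one_mem _
    obtain ⟨r₁, r₂⟩ := hu hq.1 hq'.1 hq.2 hq'.2 e₁ e₂
    rw [r₁, r₂]
  have h₄ : Nm M M₁ a = ∑ x ∈ ((s₀.image out).sigma t).image fun q => q.2 * q.1, x • a := by
    refine nm_eq h₁ _ ?_ ?_ ha
    · intro x hx
      obtain ⟨⟨σ, δ⟩, hq, rfl⟩ := Finset.mem_image.1 hx
      rw [Finset.mem_sigma] at hq
      exact M.fixingSubgroup.mul_mem (BE.fix_le h (ht₁ σ δ hq.2)) (hsM σ hq.1)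
    · intro x hx
      obtain ⟨ε, ⟨hε, e₀⟩, -⟩ := hs₀' x hx
      have e₁ : (ds M' M₁).r (out ε) x := by
        refine (ds M' M₁).trans (hout ε) ⟨1, Subgroup.one_mem _, ?_⟩
        rwa [one_mul]
      obtain ⟨g, hg, e₂⟩ := e₁
      obtain ⟨δ, ⟨hδ, e₃⟩, -⟩ := ht₂ (out ε) g⁻¹ (Subgroup.inv_mem _ hg)
      have hσ : out ε ∈ s₀.image out := Finset.mem_image_of_mem _ hε
      have e₄ : (δ * out ε)⁻¹ * x ∈ M₁.fixingSubgroup := by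
        have e₅ := Subgroup.mul_mem _ ((mem_fix_map _ _).1 e₃).2 e₂
        have e₆ : (out ε)⁻¹ * (δ⁻¹ * g⁻¹) * out ε * ((out ε)⁻¹ * (g * x)) =
            (δ * out ε)⁻¹ * x := by group
        rwa [e₆] at e₅
      refine ⟨δ * out ε, ⟨Finset.mem_image.2 ⟨⟨out ε, δ⟩, Finset.mem_sigma.2 ⟨hσ, hδ⟩, rfl⟩,
        e₄⟩, ?_⟩
      rintro y ⟨hy, hy'⟩
      obtain ⟨⟨σ', δ'⟩, hq, rfl⟩ := Finset.mem_image.1 hy
      rw [Finset.mem_sigma] at hq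
      obtain ⟨r₁, r₂⟩ := hu hq.1 hσ hq.2 hδ hy' e₄
      dsimp only at r₁ r₂ ⊢
      rw [r₁, r₂]
  rw [h₄, Finset.sum_image hinj, Finset.sum_sigma]
  refine Finset.sum_congr rfl fun σ _ => ?_
  rw [ht₃ σ A]
  exact Finset.sum_congr rfl fun δ _ => mul_smul δ σ a

end CV
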