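import Pool.Agent.Lib.MP_f80667_ag.Cv.EtA

/-! # Values of unramified fields, elements of given trace -/

set_option autoImplicit false

open PE IntermediateField

namespace CV

variable {K Ω : Type} [Field K] [CharZero K] [Field Ω] [Algebra K Ω] [IsAlgClosure K Ω]
  {L : Ld K Ω} {M M' : IntermediateField K Ω}

/-- The values of an unramified field are the powers of the value of `π`. Proof: `exists_frob` for `⊥`, `frob_q`,
`Ur ⊥ N ≤ Ur ⊥ (f N)`, `ur_val`: the value is the value of an element of `K`; divide by `π ^ i`. See `ur_unr`, `ur_lt`. -/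
theorem Um.lt {π : K} (hπ : Uf L π) (hM : Um L M) {x : Ω} (hx : x ∈ M) {i : ℕ}
    (h : L.nm x < L.nm (algebraMap K Ω π) ^ i) : L.nm x ≤ L.nm (algebraMap K Ω π) ^ (i + 1) := by
  obtain ⟨N, hN, hMN⟩ := hM
  obtain ⟨φ, q, hφ⟩ := BE.exists_frob L.toLf (⊥ : IntermediateField K Ω)
  obtain ⟨f, hf, hq, -⟩ := Ld.frob_q hφ
  rw [hq] at hφ
  have hx' : x ∈ L.Ur ⊥ (f * N) := Ld.ur_dvd ⊥ (dvd_mul_left N f) (hMN hx)
  obtain ⟨y, hy, hyx⟩ := Ld.ur_val hφ hf hN hx'
  obtain ⟨k, rfl⟩ := IntermediateField.mem_bot.1 hy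
  have h0 : 0 < L.nm (algebraMap K Ω π) := L.pos ((_root_.map_ne_zero _).2 hπ.ne)
  have hi : 0 < L.nm (algebraMap K Ω π) ^ i := pow_pos h0 i
  have h1 : L.nm (algebraMap K Ω (k / π ^ i)) = L.nm x / L.nm (algebraMap K Ω π) ^ i := by
    rw [map_div₀, map_pow, L.div, L.pow, hyx]
  have h2 : L.nm (algebraMap K Ω (k / π ^ i)) < 1 := by
    rw [h1, div_lt_one hi]
    exact h
  have h3 := hπ.un _ h2
  rw [h1, div_le_iff₀ hi] at h3
  rw [pow_succ, mul_comm]
  exact h3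

/-- Elements of given trace (`Nm M M'` on the additive group `Ω` is the trace). Proof: `exists_frob` for `M`, `frob_q`:
`q = p ^ f`; `M' ≤ Ur M N ≤ U = Ur M (f N)`; `ur_tr` for `u = 1`: `v ∈ U`, `nm v ≤ 1`, `∑ φ ^ i v = 1`; `ur_nm`:
`Nm M U (x v) = x`; `x' = Nm M' U (x v)`: `nm_tr`, `nm_fx`, `fx_mem`; the norm of `x'` by `nm_rep`, `L.act`. -/
theorem Em.tr [FiniteDimensional K M] (h : Em L M M') {x : Ω} (hx : x ∈ M) :
    ∃ x' ∈ M', L.nm x' ≤ L.nm x ∧ Nm M M' x' = x := by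
  classical
  obtain ⟨hle, N, hN, hMN⟩ := h
  obtain ⟨φ, q, hφ⟩ := BE.exists_frob L.toLf M
  obtain ⟨f, hf, hq, -⟩ := Ld.frob_q hφ
  rw [hq] at hφ
  have hU : M' ≤ L.Ur M (f * N) := hMN.trans (Ld.ur_dvd _ (dvd_mul_left N f))
  have hfd : FiniteDimensional K (L.Ur M (f * N)) :=
    Ld.ur_fin M (f * N) (Nat.mul_ne_zero hf hN)
  obtain ⟨v, hv, hv1, hvs⟩ := Ld.ur_tr hφ hf hN (M.one_mem) (le_of_eq L.one)
  have hP : x * v ∈ L.Ur M (f * N) := mul_mem (Ld.ur_le hx) hv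
  have hPf : Fx (L.Ur M (f * N)) (x * v) := fx_mem.2 hP
  have hPn : L.nm (x * v) ≤ L.nm x := by
    rw [L.mul]
    exact mul_le_of_le_one_right (L.nonneg _) hv1
  refine ⟨Nm M' (L.Ur M (f * N)) (x * v), fx_mem.1 (nm_fx hU hPf), ?_, ?_⟩
  · obtain ⟨s, -, -, -, h3⟩ := nm_rep hU
    rw [h3 Ω (x * v)]
    have key : ∀ t : Finset (Ω ≃ₐ[K] Ω), L.nm (∑ γ ∈ t, γ • (x * v)) ≤ L.nm x := by
      intro t
      induction t using Finset.induction_on with
      | empty =>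
        rw [Finset.sum_empty, L.zero]
        exact L.nonneg _
      | insert a t ha ih =>
        rw [Finset.sum_insert ha]
        refine (L.add _ _).trans (max_le ?_ ih)
        change L.nm (a (x * v)) ≤ L.nm x
        rw [L.act]
        exact hPn
    exact key s
  · rw [← nm_tr hle hU hPf, Ld.ur_nm hφ hf hN hPf]
    have h3 : ∀ i ∈ Finset.range N, φ ^ i • (x * v) = x * (φ ^ i) v := by
      intro i _
      change (φ ^ i) (x * v) = x * (φ ^ i) v
      rw [map_mul, (IntermediateField.mem_fixingSubgroup_iff M _).1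
        (Subgroup.pow_mem _ hφ.mem i) x hx]
    rw [Finset.sum_congr rfl h3, ← Finset.mul_sum, hvs, mul_one]

end CV
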