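import Pool.Agent.Lib.MP_f80667_ag.Cv.Hc

/-! The traces `rtr`, `vtr` are the norms `Nm`; norms of cycles rationally equivalent to `0`. -/

open ZC BE PE Polynomial TensorProduct IntermediateField

namespace CV

variable {F : Type} [Field F] {V : Vr F} [Hf V] {K Ω : Type} [Field K] [Field Ω] [Algebra K Ω]
  [Algebra F K] [Algebra F Ω] [IsScalarTower F K Ω] [CharZero K] [IsAlgClosure K Ω]

/-- Proof: the quotient is finite (see the proof of `nm_rep`), so both sides are finite sums. -/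
theorem rtr_eq {M M' : IntermediateField K Ω} (h : M ≤ M') [FiniteDimensional K M']
    (z : V.pt Ω →₀ ℤ) : rtr V M M' z = Nm M M' z := by
  classical
  have hri : M'.fixingSubgroup.relIndex M.fixingSubgroup ≠ 0 := by
    intro h0
    have h1 := relIndex_fix h
    rw [h0, zero_mul] at h1
    exact (Module.finrank_pos (R := K) (M := M')).ne h1
  have hfi : (M'.fixingSubgroup.subgroupOf M.fixingSubgroup).FiniteIndex := ⟨hri⟩
  have hfin : Finite (M.fixingSubgroup ⧸ M'.fixingSubgroup.subgroupOf M.fixingSubgroup) :=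
    Subgroup.finite_quotient_of_finiteIndex
  let _ : Fintype (M.fixingSubgroup ⧸ M'.fixingSubgroup.subgroupOf M.fixingSubgroup) :=
    Fintype.ofFinite _
  rw [rtr, Nm, finsum_eq_sum_of_fintype, finsum_eq_sum_of_fintype, AddMonoidHom.finsetSum_apply]
  rfl

/-- Proof: `trG_apply`, `trG_rep`, `nm_rep`, `nm_eq` (two systems of representatives). -/
theorem vtr_eq {M : IntermediateField K Ω} [FiniteDimensional K M] {z : V.pt Ω →₀ ℤ}
    (hz : Fx M z) : vtr Hf.out K M z = Nm (⊥ : IntermediateField K Ω) M z := by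
  classical
  let iA := vact (V := V) Hf.out K Ω
  have hH : M.fixingSubgroup.FiniteIndex := opn_fin _ (opn_fix M)
  let i0 : Fintype ((Ω ≃ₐ[K] Ω) ⧸ M.fixingSubgroup) := Fintype.ofFinite _
  have hinj : Function.Injective
      (fun q : (Ω ≃ₐ[K] Ω) ⧸ M.fixingSubgroup => (q.out : Ω ≃ₐ[K] Ω)) := by
    intro q q' hq
    have hq' : (q.out : Ω ≃ₐ[K] Ω) = q'.out := hq
    rw [← QuotientGroup.out_eq' q, ← QuotientGroup.out_eq' q', hq']
  have hmem : ∀ γ, γ ∈ Finset.univ.map (⟨_, hinj⟩ :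
      ((Ω ≃ₐ[K] Ω) ⧸ M.fixingSubgroup) ↪ (Ω ≃ₐ[K] Ω)) ↔
        ∃ q : (Ω ≃ₐ[K] Ω) ⧸ M.fixingSubgroup, q.out = γ := by
    intro γ
    simp
  rw [nm_eq bot_le (Finset.univ.map (⟨_, hinj⟩ :
      ((Ω ≃ₐ[K] Ω) ⧸ M.fixingSubgroup) ↪ (Ω ≃ₐ[K] Ω))) ?_ ?_ hz, Finset.sum_map]
  · change trG (V.pt Ω) M.fixingSubgroup z = _
    rw [trG_apply hH, finsum_eq_sum_of_fintype]
    rfl
  · intro γ _
    rw [IntermediateField.mem_fixingSubgroup_iff]
    intro x hx
    obtain ⟨a, rfl⟩ := IntermediateField.mem_bot.1 hx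
    exact γ.commutes a
  · intro γ _
    have hq : ∀ q : (Ω ≃ₐ[K] Ω) ⧸ M.fixingSubgroup,
        (q.out)⁻¹ * γ ∈ M.fixingSubgroup ↔ q = (γ : (Ω ≃ₐ[K] Ω) ⧸ M.fixingSubgroup) := by
      intro q
      rw [← QuotientGroup.eq, QuotientGroup.out_eq']
    refine ⟨((γ : (Ω ≃ₐ[K] Ω) ⧸ M.fixingSubgroup)).out, ⟨(hmem _).2 ⟨_, rfl⟩, (hq _).2 rfl⟩, ?_⟩
    rintro δ ⟨h₁, h₂⟩
    obtain ⟨q, rfl⟩ := (hmem δ).1 h₁
    rw [(hq q).1 h₂]

/-- Proof: `tr_ratEqV`, `vtr_eq`. -/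
theorem nm_ratEq {M : IntermediateField K Ω} [FiniteDimensional K M] {z : V.pt Ω →₀ ℤ}
    (hz : z ∈ V.ratEq M Ω) (h : Fx M z) : Nm (⊥ : IntermediateField K Ω) M z ∈ V.ratEq K Ω := by
  rw [← vtr_eq h]
  exact tr_ratEqV Hf.out M hz

end CV
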