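import Pool.Agent.Lib.MP_f80667_ag.Cv.EtA
import Pool.Agent.Lib.MP_f80667_ag.Cv.EtV
import Pool.Agent.Lib.MP_f80667_ag.Cv.EtB
import Pool.Agent.Lib.MP_f80667_ag.Cv.HdA
import Pool.Agent.Lib.MP_f80667_ag.Cv.HdB

/-! # Displacements over unramified extensions -/

set_option autoImplicit false

open ZC BE PE Polynomial TensorProduct IntermediateField

namespace CV

variable {F : Type} [Field F] {K Ω : Type} [Field K] [CharZero K] [Field Ω] [Algebra K Ω]
  [Algebra F K] [Algebra F Ω] [IsScalarTower F K Ω] [IsAlgClosure K Ω] {L : Ld K Ω}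

section dsp

variable {V : Vr F} [Hf V] {nr nr' : V.pt Ω → V.pt Ω → Prop} {M M' : IntermediateField K Ω}

theorem dsp_mono (h : ∀ x y, nr x y → nr' x y) : Dsp L V nr M ≤ Dsp L V nr' M := by
  refine AddSubgroup.closure_mono ?_
  rintro z ⟨N, M', y, y', h1, h2, h3, h4, h5, h6, h7⟩
  exact ⟨N, M', y, y', h1, h2, h3, h4, h5, h _ _ h6, h7⟩

/-- The generators as norms. Proof: `rtr_eq`. -/
theorem dsp_gen [FiniteDimensional K M] : Dsp L V nr M = AddSubgroup.closure {z | ∃ M' y y',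
    Em L M M' ∧ Fp V M' y ∧ Fp V M' y' ∧ nr y y' ∧
      z = Nm M M' (Finsupp.single y 1 - Finsupp.single y' 1 : V.pt Ω →₀ ℤ)} := by
  unfold Dsp
  congr 1
  ext z
  constructor
  · rintro ⟨N, M', y, y', h1, h2, h3, h4, h5, h6, rfl⟩
    have he : Em L M M' := ⟨h2, N, h1, h3⟩
    have := he.fd
    exact ⟨M', y, y', he, h4, h5, h6, rtr_eq h2 _⟩
  · rintro ⟨M', y, y', he, h4, h5, h6, rfl⟩
    have := he.fd
    obtain ⟨h2, N, h1, h3⟩ := he
    exact ⟨N, M', y, y', h1, h2, h3, h4, h5, h6, (rtr_eq h2 _).symm⟩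

/-- Proof: `dsp_gen`, `nm_fx`, `fx_single`. -/
theorem dsp_fx [FiniteDimensional K M] {z : V.pt Ω →₀ ℤ} (hz : z ∈ Dsp L V nr M) : Fx M z := by
  rw [dsp_gen] at hz
  induction hz using AddSubgroup.closure_induction with
  | mem z hz =>
    obtain ⟨M', y, y', he, h4, h5, h6, rfl⟩ := hz
    have := he.fd
    exact nm_fx he.1 ((fx_single h4 1).sub (fx_single h5 1))
  | zero => exact Fx.zero
  | add a b _ _ ha hb => exact ha.add hb
  | neg a _ ha => exact ha.neg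

/-- Proof: `dsp_gen`, `nm_rep`, `deg_smul`. -/
theorem dsp_deg [FiniteDimensional K M] {z : V.pt Ω →₀ ℤ} (hz : z ∈ Dsp L V nr M) :
    V.deg Ω z = 0 := by
  rw [dsp_gen] at hz
  induction hz using AddSubgroup.closure_induction with
  | mem z hz =>
    obtain ⟨M', y, y', he, h4, h5, h6, rfl⟩ := hz
    have := he.fd
    obtain ⟨s, -, -, -, h⟩ := nm_rep he.1
    rw [h, map_sum]
    refine Finset.sum_eq_zero fun γ _ => ?_
    rw [deg_smul, map_sub]
    simp [Vr.deg]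
  | zero => exact map_zero _
  | add a b _ _ ha hb => rw [map_add, ha, hb, add_zero]
  | neg a _ ha => rw [map_neg, ha, neg_zero]

/-- Proof: `M' = M`, `Nm M M z = z` (`nm_const`). -/
theorem dsp_pt [FiniteDimensional K M] {x y : V.pt Ω} (hx : Fp V M x) (hy : Fp V M y)
    (h : nr x y) : (Finsupp.single x 1 - Finsupp.single y 1 : V.pt Ω →₀ ℤ) ∈ Dsp L V nr M := by
  rw [dsp_gen]
  refine AddSubgroup.subset_closure ⟨M, x, y, Em.refl, hx, hy, h, ?_⟩
  rw [nm_const le_rfl ((fx_single hx 1).sub (fx_single hy 1)), Subgroup.relIndex_self, one_smul]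

/-- Restriction to an unramified extension. Proof: `dsp_gen`, `nm_mackey`, `Em.sup`; the points `σ y` are over
`M' ⊔ σ M₁`. -/
theorem dsp_up [FiniteDimensional K M] (h : Em L M M')
    (hnr : ∀ γ ∈ M.fixingSubgroup, ∀ x y, nr x y → nr (V.act γ x) (V.act γ y)) :
    Dsp L V nr M ≤ Dsp L V nr M' := by
  have hfd : FiniteDimensional K M' := h.fd
  have key : ∀ (M₁ : IntermediateField K Ω) (σ : Ω ≃ₐ[K] Ω) (y : V.pt Ω), Fp V M₁ y →
      Fp V (M' ⊔ M₁.map (σ : Ω →ₐ[K] Ω)) (V.act σ y) := by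
    intro M₁ σ y hy γ hγ
    have h1 : σ⁻¹ * γ * σ ∈ M₁.fixingSubgroup := by
      rw [IntermediateField.mem_fixingSubgroup_iff]
      intro u hu
      have h2 := (IntermediateField.mem_fixingSubgroup_iff _ γ).1 hγ (σ u)
        ((le_sup_right : M₁.map (σ : Ω →ₐ[K] Ω) ≤ M' ⊔ M₁.map (σ : Ω →ₐ[K] Ω)) ⟨u, hu, rfl⟩)
      change σ.symm (γ (σ u)) = u
      rw [h2]
      exact σ.symm_apply_apply u
    have h3 := hy _ h1
    have h4 : γ * σ = σ * (σ⁻¹ * γ * σ) := by group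
    rw [← act_mul Hf.out, h4, act_mul Hf.out, h3]
  rw [dsp_gen, AddSubgroup.closure_le]
  rintro z ⟨M₁, y, y', h₁, h4, h5, h6, rfl⟩
  have hfd₁ : FiniteDimensional K M₁ := h₁.fd
  obtain ⟨s, hs, hs'⟩ := nm_mackey h.1 h₁.1
  rw [hs' _ _ ((fx_single h4 1).sub (fx_single h5 1))]
  refine AddSubgroup.sum_mem _ fun σ hσ => ?_
  rw [dsp_gen, smul_sub, smul_single, smul_single]
  exact AddSubgroup.subset_closure ⟨_, _, _, Em.sup h.1 h₁ (hs σ hσ), key M₁ σ y h4, key M₁ σ y' h5,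
    hnr σ (hs σ hσ) _ _ h6, rfl⟩

end dsp

end CV
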