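import Pool.Agent.Lib.MP_f80667_ag.Cv.ClM

/-!
Extension of ideal classes along an injective homomorphism of Dedekind domains: `clX f (cls I) = cls (I B)`.
-/

namespace CV

theorem map_ne_bot' {A B : Type} [CommRing A] [CommRing B] {f : A →+* B}
    (hf : Function.Injective f) {I : Ideal A} (hI : I ≠ ⊥) : I.map f ≠ ⊥ := by
  intro h
  exact hI ((Ideal.map_eq_bot_iff_of_injective hf).1 h)

theorem exists_clX {A B : Type} [CommRing A] [CommRing B] [IsDedekindDomain A] [IsDedekindDomain B]
    (f : A →+* B) (hf : Function.Injective f) : ∃ h : Cg A →+ Cg B, ∀ I : Ideal A, I ≠ ⊥ →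
      h (cls I) = cls (I.map f) := by
  refine exists_cg_hom (fun I => I ≠ ⊥) (fun I h => h) (fun I J => mul_ne_zero) (fun c => ?_)
    (fun I => cls (I.map f)) (fun I J hI hJ => ?_) (fun I J hI hJ h => ?_)
  · obtain ⟨I, hI, rfl⟩ := cls_surj c
    exact ⟨I, ⊤, hI, top_ne_bot, by rw [cls_top, sub_zero]⟩
  · rw [Ideal.map_mul, cls_mul (map_ne_bot' hf hI) (map_ne_bot' hf hJ)]
  · obtain ⟨a, b, ha, hb, h⟩ := (cls_eq hI hJ).1 h
    refine (cls_eq (map_ne_bot' hf hI) (map_ne_bot' hf hJ)).2 ⟨f a, f b, ?_, ?_, ?_⟩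
    · rwa [Ne, map_eq_zero_iff f hf]
    · rwa [Ne, map_eq_zero_iff f hf]
    · have h1 := congrArg (Ideal.map f) h
      rw [Ideal.map_mul, Ideal.map_mul, Ideal.map_span, Ideal.map_span, Set.image_singleton,
        Set.image_singleton] at h1
      exact h1

open Classical in
/-- The extension of ideal classes along an injective homomorphism of Dedekind domains (`0` for other homomorphisms). -/
noncomputable def clX {A B : Type} [CommRing A] [CommRing B] [IsDomain A] [IsDomain B]
    (f : A →+* B) : Cg A →+ Cg B :=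
  if h : IsDedekindDomain A ∧ IsDedekindDomain B ∧ Function.Injective f then
    haveI := h.1
    haveI := h.2.1
    (exists_clX f h.2.2).choose
  else 0

section

variable {A B C : Type} [CommRing A] [CommRing B] [CommRing C] [IsDedekindDomain A]
  [IsDedekindDomain B] [IsDedekindDomain C]

theorem clX_cls {f : A →+* B} (hf : Function.Injective f) {I : Ideal A} (hI : I ≠ ⊥) :
    clX f (cls I) = cls (I.map f) := by
  unfold clX
  rw [dif_pos ⟨inferInstance, inferInstance, hf⟩]
  exact (exists_clX f hf).choose_spec I hI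

theorem clX_id (c : Cg A) : clX (RingHom.id A) c = c := by
  obtain ⟨I, hI, rfl⟩ := cls_surj c
  rw [clX_cls Function.injective_id hI, Ideal.map_id]

theorem clX_comp {f : A →+* B} {g : B →+* C} (hf : Function.Injective f)
    (hg : Function.Injective g) (c : Cg A) : clX (g.comp f) c = clX g (clX f c) := by
  obtain ⟨I, hI, rfl⟩ := cls_surj c
  rw [clX_cls (f := g.comp f) (hg.comp hf) hI, clX_cls hf hI, clX_cls hg (map_ne_bot' hf hI),
    Ideal.map_map]

theorem clX_clMap (e : A ≃+* B) (c : Cg A) : clX (e : A →+* B) c = clMap e c := by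
  obtain ⟨I, hI, rfl⟩ := cls_surj c
  rw [clX_cls (f := (e : A →+* B)) e.injective hI, clMap_cls e hI]

end

end CV
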