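import Pool.Agent.Lib.MP_f80667_ag.Cv.IfO
import Pool.Agent.Lib.MP_f80667_ag.Cv.IfA
import Pool.Agent.Lib.MP_f80667_ag.Cv.ClX

/-!
Moving off infinity: `exIf`, and `Mod.infC`: every class of the generic fibre over `Ω` is a difference of classes of integral
ideals.
-/

open ZC BE PE Polynomial TensorProduct IntermediateField IsLocalRing

namespace CV

section

variable {F : Type} [Field F] {K Ω : Type} [Field K] [Field Ω] [Algebra K Ω] [Algebra F K]
  [Algebra F Ω] [IsScalarTower F K Ω] {L : Ld K Ω} {C : Crv F} (m : Mod C (Ok L) K)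

/-- The Galois group acts on the coefficients. -/
theorem gA_isoE (γ : Ω ≃ₐ[K] Ω) (x : Ω ⊗[Ok L] m.R) :
    gA C γ (isoE m Ω x) = isoE m Ω (m.mpGL γ x) := by
  have h1 : ∀ (c : Ω) (y : K ⊗[F] C.A),
      gA C γ (Algebra.TensorProduct.cancelBaseChange F K Ω Ω C.A (c ⊗ₜ[K] y)) =
        Algebra.TensorProduct.cancelBaseChange F K Ω Ω C.A (γ c ⊗ₜ[K] y) := by
    intro c y
    induction y using TensorProduct.induction_on with
    | zero => rw [tmul_zero, map_zero, map_zero, tmul_zero, map_zero]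
    | tmul k a =>
      rw [Algebra.TensorProduct.cancelBaseChange_tmul, Algebra.TensorProduct.cancelBaseChange_tmul,
        gA_tmul]
      congr 1
      rw [Algebra.smul_def, Algebra.smul_def, map_mul, AlgEquiv.commutes]
    | add x y hx hy => rw [tmul_add, map_add, map_add, hx, hy, tmul_add, map_add]
  induction x using TensorProduct.induction_on with
  | zero => simp only [map_zero]
  | tmul c r => rw [isoE_tmul, h1, Mod.mpGL_tmul, isoE_tmul]
  | add x y hx hy => simp only [map_add, hx, hy]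

theorem mpGL_mpOL {M : IntermediateField K Ω} {γ : Ω ≃ₐ[K] Ω} (hγ : γ ∈ M.fixingSubgroup)
    (x : M ⊗[Ok L] m.R) : m.mpGL γ (m.mpOL M x) = m.mpOL M x := by
  induction x using TensorProduct.induction_on with
  | zero => simp only [map_zero]
  | tmul c r =>
    rw [Mod.mpOL_tmul, Mod.mpGL_tmul]
    congr 1
    exact (IntermediateField.mem_fixingSubgroup_iff _ γ).1 hγ _ c.2
  | add x y hx hy => simp only [map_add, hx, hy]

theorem gA_tA {M : IntermediateField K Ω} {γ : Ω ≃ₐ[K] Ω} (hγ : γ ∈ M.fixingSubgroup)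
    (x : M ⊗[Ok L] m.R) : gA C γ (tA m M x) = tA m M x := by
  rw [tA_apply, gA_isoE, mpGL_mpOL m hγ]

/-- The extension of an ideal over `M` is stable. -/
theorem gA_map {M : IntermediateField K Ω} {γ : Ω ≃ₐ[K] Ω} (hγ : γ ∈ M.fixingSubgroup)
    (J : Ideal (M ⊗[Ok L] m.R)) : (J.map (tA m M)).map (gA C γ) = J.map (tA m M) := by
  have h : (gA C γ : Ω ⊗[F] C.A →+* Ω ⊗[F] C.A).comp (tA m M) = tA m M :=
    RingHom.ext fun x => gA_tA m hγ x
  have h1 : (J.map (tA m M)).map (gA C γ : Ω ⊗[F] C.A →+* Ω ⊗[F] C.A) = J.map (tA m M) := by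
    rw [Ideal.map_map, h]
  exact h1

/-- The points of the extension of an integral ideal are integral. -/
theorem int_supp {M : IntermediateField K Ω} {J : Ideal (M ⊗[Ok L] m.R)}
    (hJ : (m.mdM M).Int J) {ψ : C.A →ₐ[F] Ω} (h : J.map (tA m M) ≤ mx ψ) :
    Nr m 1 (some ψ : C.V.pt Ω) (some ψ) := by
  refine (nr_one_iff m _).2 ⟨ψ, rfl, int_pt m ?_⟩
  refine Md.Int.mono ?_ (int_mpOL m hJ)
  rw [Ideal.map_le_iff_le_comap]
  intro x hx
  have h1 : tA m M x ∈ mx ψ := h (Ideal.mem_map_of_mem _ hx)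
  exact (mx_isoE m ψ _).1 h1

theorem map_tA_ne {M : IntermediateField K Ω} {J : Ideal (M ⊗[Ok L] m.R)} (hJ : J ≠ ⊥) :
    J.map (tA m M) ≠ ⊥ := fun h =>
  hJ ((Ideal.map_eq_bot_iff_of_injective (tA_inj m M)).1 h)

variable [CharZero K] [IsAlgClosure K Ω]

/-- **Moving off infinity.** -/
theorem exIf : ExIf m := by
  have iC : IsAlgClosed Ω := IsAlgClosure.isAlgClosed K
  intro M hM x hx
  rcases x with _ | φ
  · refine ⟨0, zero_mem _, 1, ?_⟩
    have h : (Finsupp.single (none : C.V.pt Ω) 1 : C.V.pt Ω →₀ ℤ) - 0 -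
        Finsupp.single (C.bp.o Ω) 1 = 0 := by
      rw [sub_zero]
      exact sub_self _
    rw [h]
    exact zero_mem _
  · have hφ : ∀ a, φ a ∈ M := fp_val.1 hx
    rcases move_M m hφ with h | ⟨f, J, hf, hJ, e⟩
    · refine ⟨rtr C.V M M (Finsupp.single (some φ : C.V.pt Ω) 1), ?_, 0, ?_⟩
      · exact AddSubgroup.subset_closure ⟨M, some φ, le_rfl, hM,
          (nr_one_iff m _).2 ⟨φ, rfl, int_pt m h⟩, hx, rfl⟩
      · rw [rtr_eq (le_refl M), Finsupp.single_zero, sub_zero]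
        have h1 := nm_const (le_refl M) (fx_single (V := C.V) hx 1)
        rw [Subgroup.relIndex_self, one_smul] at h1
        have h2 : ∀ y : C.V.pt Ω →₀ ℤ, y - y ∈ Pc C Ω := fun y => by
          rw [sub_self]
          exact zero_mem _
        have h3 := h2 (Finsupp.single (some φ) 1)
        nth_rw 2 [← h1] at h3
        exact h3
    · have hJ0 : J ≠ ⊥ := hJ.ne_bot.1
      have hJ1 : J.map (tA m M) ≠ ⊥ := map_tA_ne m hJ0
      have e1 : mx φ * J.map (tA m M) = Ideal.span {tA m M f} := by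
        have h2 := congrArg (Ideal.map (isoE m Ω).toAlgHom.toRingHom) e
        rw [Ideal.map_mul, mx_eq, Ideal.map_map, Ideal.map_span, Set.image_singleton] at h2
        exact h2
      have hg : tA m M f ≠ 0 := fun h0 => hf (tA_inj m M (by rw [h0, map_zero]))
      obtain ⟨n, hn⟩ := (C.dgO Ω).exists_nat hg
      have h3 := pc_span hn
      rw [← e1, cy_mul (mx_ne_bot φ) hJ1, cy_mx] at h3
      refine ⟨-cy (J.map (tA m M)), neg_mem ?_, n, ?_⟩
      · refine fx_genP (exists_fp C) (P := fun y => Nr m 1 y y)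
          (cy_fix hJ1 fun γ hγ => gA_map m hγ J) fun y hy => ?_
        rcases y with _ | ψ
        · exact absurd (cy_efc _).2 hy
        · exact int_supp m hJ ((mem_support_cy hJ1 ψ).1 (Finsupp.mem_support_iff.2 hy))
      · rw [sub_neg_eq_add]
        exact h3

/-- Proof: a maximal ideal is the ideal of a point, defined over a finite extension `M`; `move_M`. -/
theorem infC_pt (φ : C.A →ₐ[F] Ω) : ∃ I J : Ideal (Ω ⊗[Ok L] m.R), m.mdO.Int I ∧ m.mdO.Int J ∧
    cls (RingHom.ker (ptE m Ω φ)) = cls I - cls J := by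
  obtain ⟨M, hM, hx⟩ := exists_fp (K := K) C (some φ : C.V.pt Ω)
  have h0 : RingHom.ker (ptE m Ω φ) ≠ ⊥ := by
    intro h
    apply mx_ne_bot φ
    rw [← mx_eq m φ, h, Ideal.map_bot]
  rcases move_M m (fp_val.1 hx) with h | ⟨f, J, hf, hJ, e⟩
  · exact ⟨_, ⊤, h, m.mdO.int_top, by rw [cls_top, sub_zero]⟩
  · refine ⟨⊤, _, m.mdO.int_top, int_mpOL m hJ, ?_⟩
    have h1 := congrArg cls e
    rw [cls_mul h0 (int_mpOL m hJ).ne_bot.1, cls_span] at h1
    rw [cls_top, zero_sub]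
    exact eq_neg_of_add_eq_zero_left h1

/-- The maximal ideals are the ideals of the points. -/
theorem exists_ptE {p : Ideal (Ω ⊗[Ok L] m.R)} (hp : p.IsMaximal) :
    ∃ φ : C.A →ₐ[F] Ω, p = RingHom.ker (ptE m Ω φ) := by
  have iC : IsAlgClosed Ω := IsAlgClosure.isAlgClosed K
  have h1 : (p.comap (isoE m Ω).symm.toAlgHom.toRingHom).IsMaximal :=
    Ideal.comap_isMaximal_of_surjective _ (isoE m Ω).symm.surjective
  obtain ⟨φ, hφ⟩ := exists_mx h1
  refine ⟨φ, ?_⟩
  ext x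
  rw [RingHom.mem_ker]
  refine Iff.trans ?_ (mx_isoE m φ x)
  rw [← hφ, Ideal.mem_comap]
  have h2 : (isoE m Ω).symm.toAlgHom.toRingHom (isoE m Ω x) = x := (isoE m Ω).symm_apply_apply x
  rw [h2]

/-- **Every class is a difference of classes of integral ideals.** -/
theorem Mod.infC : m.mdO.InfC := by
  have key : ∀ I : Ideal (Ω ⊗[Ok L] m.R), I ≠ ⊥ →
      ∃ I' J' : Ideal (Ω ⊗[Ok L] m.R), m.mdO.Int I' ∧ m.mdO.Int J' ∧
        cls I = cls I' - cls J' := by
    intro I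
    refine UniqueFactorizationMonoid.induction_on_prime
      (P := fun I : Ideal (Ω ⊗[Ok L] m.R) => I ≠ ⊥ → ∃ I' J' : Ideal (Ω ⊗[Ok L] m.R),
        m.mdO.Int I' ∧ m.mdO.Int J' ∧ cls I = cls I' - cls J') I (fun h => absurd rfl h) ?_ ?_
    · intro x hx _
      rw [Ideal.isUnit_iff] at hx
      exact ⟨⊤, ⊤, m.mdO.int_top, m.mdO.int_top, by rw [hx, sub_self, cls_top]⟩
    · intro a p ha hp hP _
      obtain ⟨I₁, J₁, h1, h2, h3⟩ := hP ha
      have hp0 : p ≠ ⊥ := hp.ne_zero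
      have hpp : p.IsPrime := Ideal.isPrime_of_prime hp
      have hmax : p.IsMaximal := hpp.isMaximal hp0
      obtain ⟨φ, hφ⟩ := exists_ptE m hmax
      obtain ⟨I₂, J₂, h4, h5, h6⟩ := infC_pt m φ
      rw [← hφ] at h6
      refine ⟨I₁ * I₂, J₁ * J₂, h1.mul h4, h2.mul h5, ?_⟩
      rw [cls_mul hp0 ha, h3, h6, cls_mul h1.ne_bot.1 h4.ne_bot.1, cls_mul h2.ne_bot.1 h5.ne_bot.1]
      abel
  intro c
  obtain ⟨I, hI, rfl⟩ := cls_surj c
  exact key I hI

end

end CV
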