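import Mathlib

/-! Dimensions of quotients of a Dedekind domain which is an algebra over a field. -/

namespace CV

variable {K A : Type} [Field K] [CommRing A] [Algebra K A]

private theorem fac_surj {I J : Ideal A} (h : I ≤ J) :
    Function.Surjective (Ideal.Quotient.factorₐ K h).toLinearMap := by
  intro y
  obtain ⟨x, rfl⟩ := Ideal.Quotient.mk_surjective y
  exact ⟨Ideal.Quotient.mk I x, rfl⟩

/-- Two ideals of the same finite colength, one inside the other, are equal. -/
theorem eq_of_colen {I J : Ideal A} (h : I ≤ J) [Module.Finite K (A ⧸ I)]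
    (hd : Module.finrank K (A ⧸ I) ≤ Module.finrank K (A ⧸ J)) : I = J := by
  refine le_antisymm h fun x hx => ?_
  have hs := fac_surj (K := K) h
  have h1 := LinearMap.finrank_range_add_finrank_ker (Ideal.Quotient.factorₐ K h).toLinearMap
  rw [LinearMap.range_eq_top.2 hs, finrank_top] at h1
  have h2 : Module.finrank K (LinearMap.ker (Ideal.Quotient.factorₐ K h).toLinearMap) = 0 := by
    omega
  have h3 : LinearMap.ker (Ideal.Quotient.factorₐ K h).toLinearMap = ⊥ :=
    Submodule.finrank_eq_zero.1 h2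
  have h4 : Ideal.Quotient.mk I x ∈ LinearMap.ker (Ideal.Quotient.factorₐ K h).toLinearMap := by
    rw [LinearMap.mem_ker]
    exact Ideal.Quotient.eq_zero_iff_mem.2 hx
  rw [h3, Submodule.mem_bot] at h4
  exact Ideal.Quotient.eq_zero_iff_mem.1 h4

/-- The quotient by a larger ideal. -/
theorem colen_le {I J : Ideal A} (h : I ≤ J) [Module.Finite K (A ⧸ I)] :
    Module.Finite K (A ⧸ J) ∧ Module.finrank K (A ⧸ J) ≤ Module.finrank K (A ⧸ I) := by
  have hs := fac_surj (K := K) h
  refine ⟨Module.Finite.of_surjective _ hs, ?_⟩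
  have h1 := LinearMap.finrank_range_add_finrank_ker (Ideal.Quotient.factorₐ K h).toLinearMap
  rw [LinearMap.range_eq_top.2 hs, finrank_top] at h1
  omega

/-- `dim A / (I J) = dim A / I + dim A / J`. Proof: `IsDedekindDomain.exists_sup_span_eq` gives `a` with
`I J + (a) = I`; multiplication by `a` is an isomorphism `A / J → I / (I J)` (cancellation of ideals). -/
theorem colen_mul [IsDedekindDomain A] {I J : Ideal A} (hI : I ≠ ⊥) (hJ : J ≠ ⊥)
    [Module.Finite K (A ⧸ I)] [Module.Finite K (A ⧸ J)] :
    Module.Finite K (A ⧸ I * J) ∧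
      Module.finrank K (A ⧸ I * J) = Module.finrank K (A ⧸ I) + Module.finrank K (A ⧸ J) := by
  have hIJ : I * J ≠ ⊥ := by
    rw [Ne, Ideal.mul_eq_bot]
    push Not
    exact ⟨hI, hJ⟩
  have hle : I * J ≤ I := Ideal.mul_le_inf.trans inf_le_left
  obtain ⟨a, ha⟩ := IsDedekindDomain.exists_sup_span_eq hle hIJ
  have haI : a ∈ I := by
    rw [← ha]
    exact Ideal.mem_sup_right (Ideal.mem_span_singleton_self a)
  have hmap : J ≤ Submodule.comap (LinearMap.mulLeft A a) (I * J) := by
    intro x hx
    exact Ideal.mul_mem_mul haI hx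
  let μ : (A ⧸ J) →ₗ[K] (A ⧸ I * J) :=
    (Submodule.mapQ J (I * J) (LinearMap.mulLeft A a) hmap).restrictScalars K
  have hμ : ∀ x : A, μ (Ideal.Quotient.mk J x) = Ideal.Quotient.mk (I * J) (a * x) := fun x => rfl
  have hinj : Function.Injective μ := by
    rw [injective_iff_map_eq_zero]
    intro y hy
    obtain ⟨x, rfl⟩ := Ideal.Quotient.mk_surjective y
    rw [hμ, Ideal.Quotient.eq_zero_iff_mem] at hy
    rw [Ideal.Quotient.eq_zero_iff_mem]
    have h1 : I * Ideal.span {x} ≤ I * J := by
      conv_lhs => rw [← ha]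
      rw [Ideal.sup_mul, Ideal.span_singleton_mul_span_singleton]
      refine sup_le ?_ ((Ideal.span_singleton_le_iff_mem _).2 hy)
      exact Ideal.mul_le_inf.trans inf_le_left
    rw [← Ideal.dvd_iff_le, mul_dvd_mul_iff_left hI, Ideal.dvd_iff_le,
      Ideal.span_singleton_le_iff_mem] at h1
    exact h1
  let π : (A ⧸ I * J) →ₗ[K] (A ⧸ I) :=
    (Ideal.Quotient.factorₐ K hle).toLinearMap
  have hπs : Function.Surjective π := fac_surj _
  have hker : LinearMap.ker π = LinearMap.range μ := by
    ext y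
    obtain ⟨x, rfl⟩ := Ideal.Quotient.mk_surjective y
    rw [LinearMap.mem_ker, LinearMap.mem_range]
    have h1 : π (Ideal.Quotient.mk (I * J) x) = Ideal.Quotient.mk I x := rfl
    rw [h1, Ideal.Quotient.eq_zero_iff_mem]
    constructor
    · intro hx
      rw [← ha, Submodule.mem_sup] at hx
      obtain ⟨u, hu, w, hw, rfl⟩ := hx
      obtain ⟨b, rfl⟩ := Ideal.mem_span_singleton'.1 hw
      refine ⟨Ideal.Quotient.mk J b, ?_⟩
      rw [hμ, Ideal.Quotient.eq]
      have : a * b - (u + b * a) = -u := by ring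
      rw [this]
      exact neg_mem hu
    · rintro ⟨z, hz⟩
      obtain ⟨b, rfl⟩ := Ideal.Quotient.mk_surjective z
      rw [hμ, Ideal.Quotient.eq] at hz
      have h2 : x = a * b - (a * b - x) := by ring
      rw [h2]
      exact sub_mem (I.mul_mem_right b haI) (hle hz)
  have hfr : Module.Finite K (LinearMap.range μ) := inferInstance
  have hfk : Module.Finite K (LinearMap.ker π) := by rw [hker]; exact hfr
  have hfq : Module.Finite K ((A ⧸ I * J) ⧸ LinearMap.ker π) :=
    Module.Finite.equiv (LinearMap.quotKerEquivOfSurjective π hπs).symm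
  have hf : Module.Finite K (A ⧸ I * J) := Module.Finite.of_submodule_quotient (LinearMap.ker π)
  refine ⟨hf, ?_⟩
  have h1 := LinearMap.finrank_range_add_finrank_ker π
  rw [LinearMap.range_eq_top.2 hπs, finrank_top, hker, LinearMap.finrank_range_of_inj hinj] at h1
  exact h1.symm

end CV
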