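import Pool.Agent.Lib.MP_f80667_ag.Cv.Dg

/-!
# Degree functions over a field: dimensions

* `Dg.L n` (elements of degree at most `n`): `Dg.finite_L`, `Dg.finrank_L_succ`, `Dg.finrank_L_add`,
  `Dg.finrank_L_le`
* `Dg.red`: reduction modulo the multiples of `f`; `Dg.qL_surjective`, `Dg.finite_quot`,
  `Dg.finrank_quot`: the dimension of `A / (f)` is the degree of `f`.
-/

set_option autoImplicit false

open Module

namespace CV

namespace Dg

variable {K S : Type} [Field K] [CommRing S] [Algebra K S] (G : Dg K S)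

lemma ne_bot {x : S} (h : x ≠ 0) : G.d x ≠ ⊥ := fun e => h ((G.bot x).1 e)

include G in
lemma mul_ne_zero' {x y : S} (hx : x ≠ 0) (hy : y ≠ 0) : x * y ≠ 0 := by
  have := G.isDomain
  exact mul_ne_zero hx hy

lemma add_eq' {x y : S} (h : G.d y < G.d x) : G.d (x + y) = G.d x := by
  rw [add_comm]; exact G.add_eq h

lemma sub_eq {x y : S} (h : G.d x < G.d y) : G.d (x - y) = G.d y := by
  rw [sub_eq_add_neg, ← G.neg y]
  apply G.add_eq
  rwa [G.neg]

lemma sub_eq' {x y : S} (h : G.d y < G.d x) : G.d (x - y) = G.d x := by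
  rw [sub_eq_add_neg]
  apply G.add_eq'
  rwa [G.neg]

lemma sum_le {ι : Type*} (s : Finset ι) (f : ι → S) (b : WithBot ℕ) (h : ∀ i ∈ s, G.d (f i) ≤ b) :
    G.d (∑ i ∈ s, f i) ≤ b := by
  classical
  induction s using Finset.induction_on with
  | empty => simp [G.zero]
  | insert a s ha ih =>
    rw [Finset.sum_insert ha]
    refine (G.add _ _).trans (max_le (h a (Finset.mem_insert_self _ _)) ?_)
    exact ih (fun i hi => h i (Finset.mem_insert_of_mem hi))

lemma L_mono {m n : ℕ} (h : m ≤ n) : G.L m ≤ G.L n := by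
  intro x hx
  exact (G.mem_L.1 hx).trans (by exact_mod_cast h)

lemma exists_mem_L (x : S) : ∃ n, x ∈ G.L n := by
  by_cases h : x = 0
  · exact ⟨0, by rw [h]; exact zero_mem _⟩
  · obtain ⟨n, hn⟩ := G.exists_nat h
    exact ⟨n, G.mem_L.2 hn.le⟩

lemma lt_succ {x : S} {n : ℕ} : G.d x < ((n + 1 : ℕ) : WithBot ℕ) ↔ G.d x ≤ n := by
  by_cases h : x = 0
  · rw [h, G.zero]
    exact ⟨fun _ => bot_le, fun _ => WithBot.bot_lt_coe (n + 1)⟩
  · obtain ⟨m, hm⟩ := G.exists_nat h
    rw [hm]
    constructor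
    · intro h
      have : m < n + 1 := by exact_mod_cast h
      exact_mod_cast Nat.lt_succ_iff.1 this
    · intro h
      have : m ≤ n := by exact_mod_cast h
      exact_mod_cast Nat.lt_succ_iff.2 this

lemma eq_zero_of_lt {x : S} (h : G.d x < 0) : x = 0 := by
  by_contra hx
  obtain ⟨m, hm⟩ := G.exists_nat hx
  rw [hm] at h
  have : m < 0 := by exact_mod_cast h
  omega

lemma mem_L_succ {n : ℕ} {x y : S} (hx : x ∈ G.L (n + 1)) (hy : G.d y = ((n + 1 : ℕ) : WithBot ℕ)) :
    ∃ c : K, x - c • y ∈ G.L n := by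
  by_cases h : G.d x ≤ n
  · exact ⟨0, by simpa using G.mem_L.2 h⟩
  · have h1 : G.d x = ((n + 1 : ℕ) : WithBot ℕ) := by
      apply le_antisymm (G.mem_L.1 hx)
      by_contra hcon
      push Not at hcon
      exact h (G.lt_succ.1 hcon)
    obtain ⟨c, hc⟩ := G.lead x y (G.ne_zero hy) (by rw [h1, hy])
    rw [hy] at hc
    exact ⟨c, G.mem_L.2 (G.lt_succ.1 hc)⟩

lemma L_zero : G.L 0 = Submodule.span K {1} := by
  apply le_antisymm
  · intro x hx
    by_cases h : x = 0
    · rw [h]; exact zero_mem _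
    · have h1 : G.d x = G.d 1 := by
        rw [G.one]
        apply le_antisymm (by simpa using G.mem_L.1 hx)
        obtain ⟨n, hn⟩ := G.exists_nat h
        rw [hn]
        exact_mod_cast Nat.zero_le n
      have := G.nontrivial
      obtain ⟨c, hc⟩ := G.lead x 1 one_ne_zero h1
      rw [G.one] at hc
      have h2 := G.eq_zero_of_lt hc
      rw [sub_eq_zero] at h2
      rw [h2]
      exact Submodule.smul_mem _ _ (Submodule.mem_span_singleton_self _)
  · rw [Submodule.span_le, Set.singleton_subset_iff]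
    exact G.mem_L.2 (by rw [G.one]; rfl)

lemma L_succ_le {n : ℕ} {y : S} (hy : G.d y = ((n + 1 : ℕ) : WithBot ℕ)) :
    G.L (n + 1) = G.L n ⊔ Submodule.span K {y} := by
  apply le_antisymm
  · intro x hx
    obtain ⟨c, hc⟩ := G.mem_L_succ hx hy
    rw [show x = (x - c • y) + c • y by ring]
    exact Submodule.add_mem_sup hc (Submodule.smul_mem _ _ (Submodule.mem_span_singleton_self _))
  · refine sup_le (G.L_mono (Nat.le_succ n)) ?_
    rw [Submodule.span_le, Set.singleton_subset_iff]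
    exact G.mem_L.2 hy.le

lemma L_succ_eq {n : ℕ} (h : ¬ ∃ y, G.d y = ((n + 1 : ℕ) : WithBot ℕ)) : G.L (n + 1) = G.L n := by
  apply le_antisymm _ (G.L_mono (Nat.le_succ n))
  intro x hx
  rw [mem_L, ← G.lt_succ]
  exact lt_of_le_of_ne (G.mem_L.1 hx) (fun e => h ⟨x, e⟩)

instance finite_L (n : ℕ) : Module.Finite K (G.L n) := by
  rw [Module.Finite.iff_fg]
  induction n with
  | zero => rw [G.L_zero]; exact Submodule.fg_span_singleton _
  | succ n ih =>
    by_cases h : ∃ y, G.d y = ((n + 1 : ℕ) : WithBot ℕ)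
    · obtain ⟨y, hy⟩ := h
      rw [G.L_succ_le hy]
      exact ih.sup (Submodule.fg_span_singleton _)
    · rw [G.L_succ_eq h]; exact ih

lemma finrank_L_succ {n : ℕ} {y : S} (hy : G.d y = ((n + 1 : ℕ) : WithBot ℕ)) :
    finrank K (G.L (n + 1)) = finrank K (G.L n) + 1 := by
  have hy0 : y ≠ 0 := by
    intro e; rw [e, G.zero] at hy; exact absurd hy WithBot.bot_ne_coe
  have h1 := Submodule.finrank_sup_add_finrank_inf_eq (G.L n) (Submodule.span K {y})
  have h2 : G.L n ⊓ Submodule.span K {y} = ⊥ := by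
    rw [eq_bot_iff]
    intro x hx
    obtain ⟨hx1, hx2⟩ := Submodule.mem_inf.1 hx
    obtain ⟨c, rfl⟩ := Submodule.mem_span_singleton.1 hx2
    by_cases hc : c = 0
    · rw [hc, zero_smul]; exact zero_mem _
    · exfalso
      have := G.mem_L.1 hx1
      rw [G.smul hc, hy] at this
      have h3 : n + 1 ≤ n := by exact_mod_cast this
      omega
  rw [h2, finrank_bot, finrank_span_singleton hy0, ← G.L_succ_le hy] at h1
  omega

lemma finrank_L_le (n : ℕ) : finrank K (G.L n) ≤ n + 1 := by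
  induction n with
  | zero => rw [G.L_zero]; exact finrank_span_le_card (R := K) ({1} : Set S) |>.trans (by simp)
  | succ n ih =>
    by_cases h : ∃ y, G.d y = ((n + 1 : ℕ) : WithBot ℕ)
    · obtain ⟨y, hy⟩ := h
      rw [G.finrank_L_succ hy]; omega
    · rw [G.L_succ_eq h]; omega

/-- reduction modulo the multiples of `f` -/
lemma red {f : S} {m : ℕ} (hf : G.d f = m) {N : ℕ} (hN : ∀ n : ℕ, N ≤ n → ∃ x, G.d x = n) (x : S) :
    ∃ y, G.d (x - f * y) < ((N + m : ℕ) : WithBot ℕ) := by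
  suffices h : ∀ n : ℕ, ∀ x : S, G.d x ≤ n → ∃ y, G.d (x - f * y) < ((N + m : ℕ) : WithBot ℕ) by
    obtain ⟨n, hn⟩ := G.exists_mem_L x
    exact h n x hn
  intro n
  induction n with
  | zero =>
    intro x hx
    by_cases h0 : G.d x < ((N + m : ℕ) : WithBot ℕ)
    · exact ⟨0, by simpa using h0⟩
    · push Not at h0
      have h1 : N + m ≤ 0 := by exact_mod_cast h0.trans hx
      have hm : m = 0 := by omega
      obtain ⟨y, hy⟩ := hN 0 (by omega)
      have hx0 : G.d x = G.d (f * y) := by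
        rw [G.mul, hf, hy, hm]
        refine le_antisymm (hx.trans (by simp)) ?_
        refine le_trans ?_ h0
        exact_mod_cast Nat.zero_le _
      obtain ⟨c, hc⟩ := G.lead x (f * y) (G.mul_ne_zero' (G.ne_zero hf) (G.ne_zero hy)) hx0
      refine ⟨c • y, ?_⟩
      rw [mul_smul_comm]
      refine lt_of_lt_of_le hc ?_
      rw [← hx0]
      refine hx.trans ?_
      exact_mod_cast Nat.zero_le _
  | succ n ih =>
    intro x hx
    by_cases h0 : G.d x < ((N + m : ℕ) : WithBot ℕ)
    · exact ⟨0, by simpa using h0⟩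
    by_cases h1 : G.d x ≤ n
    · exact ih x h1
    have h2 : G.d x = ((n + 1 : ℕ) : WithBot ℕ) := by
      apply le_antisymm hx
      by_contra hcon
      push Not at hcon
      exact h1 (G.lt_succ.1 hcon)
    rw [h2] at h0
    push Not at h0
    have h3 : N + m ≤ n + 1 := by exact_mod_cast h0
    obtain ⟨y, hy⟩ := hN (n + 1 - m) (by omega)
    have h4 : G.d (f * y) = ((n + 1 : ℕ) : WithBot ℕ) := by
      rw [G.mul, hf, hy]
      have : m + (n + 1 - m) = n + 1 := by omega
      exact_mod_cast congrArg (fun k : ℕ => (k : WithBot ℕ)) this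
    obtain ⟨c, hc⟩ := G.mem_L_succ (G.mem_L.2 hx) h4
    obtain ⟨y', hy'⟩ := ih _ (G.mem_L.1 hc)
    refine ⟨c • y + y', ?_⟩
    rw [mul_add, mul_smul_comm, ← sub_sub]
    exact hy'

lemma add_le_cancel {m n : ℕ} {a : WithBot ℕ} (h : (m : WithBot ℕ) + a ≤ ((n + m : ℕ) : WithBot ℕ)) :
    a ≤ n := by
  cases a with
  | bot => exact bot_le
  | coe k =>
    change ((k : ℕ) : WithBot ℕ) ≤ n
    change (m : WithBot ℕ) + ((k : ℕ) : WithBot ℕ) ≤ _ at h
    have : m + k ≤ n + m := by exact_mod_cast h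
    exact_mod_cast (by omega : k ≤ n)

lemma finrank_L_add {N : ℕ} (hN : ∀ n : ℕ, N ≤ n → ∃ x, G.d x = n) (j : ℕ) :
    finrank K (G.L (N + j)) = finrank K (G.L N) + j := by
  induction j with
  | zero => rfl
  | succ j ih =>
    obtain ⟨y, hy⟩ := hN (N + j + 1) (by omega)
    rw [show N + (j + 1) = N + j + 1 by ring, G.finrank_L_succ hy, ih]
    ring

/-- the quotient map on the elements of degree at most `n` -/
noncomputable def qL (f : S) (n : ℕ) : G.L n →ₗ[K] (S ⧸ Ideal.span {f}) :=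
  (Ideal.Quotient.mkₐ K (Ideal.span {f})).toLinearMap ∘ₗ (G.L n).subtype

lemma qL_apply (f : S) (n : ℕ) (x : G.L n) :
    G.qL f n x = Ideal.Quotient.mk (Ideal.span {f}) (x : S) := rfl

lemma qL_surjective {f : S} {m : ℕ} (hf : G.d f = m) {N : ℕ}
    (hN : ∀ n : ℕ, N ≤ n → ∃ x, G.d x = n) {n : ℕ} (hn : N + m ≤ n + 1) :
    Function.Surjective (G.qL f n) := by
  intro x
  obtain ⟨x, rfl⟩ := Ideal.Quotient.mk_surjective x
  obtain ⟨y, hy⟩ := G.red hf hN x
  have h1 : x - f * y ∈ G.L n := by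
    rw [mem_L, ← G.lt_succ]
    exact lt_of_lt_of_le hy (by exact_mod_cast hn)
  refine ⟨⟨_, h1⟩, ?_⟩
  rw [qL_apply, Ideal.Quotient.eq]
  have : x - f * y - x = -(f * y) := by ring
  rw [this, Ideal.neg_mem_iff]
  exact Ideal.mul_mem_right _ _ (Ideal.mem_span_singleton_self f)

/-- multiplication by `f` onto the kernel of the quotient map -/
noncomputable def mulL {f : S} {m : ℕ} (hf : G.d f = m) (n : ℕ) :
    G.L n →ₗ[K] (LinearMap.ker (G.qL f (n + m))) where
  toFun y := ⟨⟨f * y, by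
    rw [mem_L, G.mul, hf, Nat.add_comm n m, Nat.cast_add]
    exact add_le_add le_rfl (G.mem_L.1 y.2)⟩, by
    rw [LinearMap.mem_ker, qL_apply, Ideal.Quotient.eq_zero_iff_mem]
    exact Ideal.mul_mem_right _ _ (Ideal.mem_span_singleton_self f)⟩
  map_add' a b := by
    apply Subtype.ext; apply Subtype.ext; simp [mul_add]
  map_smul' c a := by
    apply Subtype.ext; apply Subtype.ext; simp

lemma mulL_bijective {f : S} {m : ℕ} (hf : G.d f = m) (n : ℕ) :
    Function.Bijective (G.mulL hf n) := by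
  have hf0 : f ≠ 0 := by
    intro e; rw [e, G.zero] at hf; exact absurd hf WithBot.bot_ne_coe
  constructor
  · intro a b hab
    have h1 : f * (a : S) = f * (b : S) :=
      congrArg (fun z : LinearMap.ker (G.qL f (n + m)) => ((z : G.L (n + m)) : S)) hab
    apply Subtype.ext
    have h2 : f * ((a : S) - b) = 0 := by rw [mul_sub, h1, sub_self]
    by_contra hcon
    exact G.mul_ne_zero' hf0 (sub_ne_zero.2 hcon) h2
  · rintro ⟨⟨x, hx⟩, hk⟩
    rw [LinearMap.mem_ker, qL_apply, Ideal.Quotient.eq_zero_iff_mem, Ideal.mem_span_singleton'] at hk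
    obtain ⟨y, hy⟩ := hk
    have hy' : f * y = x := by rw [mul_comm]; exact hy
    refine ⟨⟨y, ?_⟩, ?_⟩
    · rw [mem_L, ← hy', G.mul, hf] at hx
      exact G.mem_L.2 (add_le_cancel hx)
    · apply Subtype.ext; apply Subtype.ext; exact hy'

include G in
theorem finite_quot {f : S} (hf : f ≠ 0) : Module.Finite K (S ⧸ Ideal.span {f}) := by
  obtain ⟨m, hm⟩ := G.exists_nat hf
  obtain ⟨N, hN⟩ := G.tail
  exact Module.Finite.of_surjective _ (G.qL_surjective hm hN (n := N + m) (by omega))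

theorem finrank_quot {f : S} {m : ℕ} (hf : G.d f = m) : finrank K (S ⧸ Ideal.span {f}) = m := by
  obtain ⟨N, hN⟩ := G.tail
  have h1 := LinearMap.finrank_range_add_finrank_ker (G.qL f (N + m))
  have h2 : LinearMap.range (G.qL f (N + m)) = ⊤ :=
    LinearMap.range_eq_top.2 (G.qL_surjective hf hN (by omega))
  have h3 := (LinearEquiv.ofBijective _ (G.mulL_bijective hf N)).finrank_eq
  rw [h2, finrank_top, ← h3, G.finrank_L_add hN] at h1
  omega

end Dg

end CV
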