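import Pool.Agent.Lib.MP_f80667_ag.Cv.DivS
import Pool.Agent.Lib.MP_f80667_ag.Cv.DgD
import Pool.Agent.Lib.MP_f80667_ag.Cv.DgQ

/-!
The class group of an affine curve over an algebraically closed field is divisible by `l`, if the differences of two
points are (for almost all choices of one of them).
-/

open nonZeroDivisors

namespace CV

section pts

variable {Ω A : Type} [Field Ω] [IsAlgClosed Ω] [CommRing A] [Algebra Ω A] [Algebra.FiniteType Ω A]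

/-- Maximal ideals are points (Nullstellensatz). -/
theorem pt_of_max {P : Ideal A} (hP : P.IsMaximal) : ∃ y : A →ₐ[Ω] Ω, P = RingHom.ker y := by
  let _ : Field (A ⧸ P) := Ideal.Quotient.field P
  have h1 : Module.Finite Ω (A ⧸ P) := finite_of_finite_type_of_isJacobsonRing Ω (A ⧸ P)
  have h2 : Function.Bijective (algebraMap Ω (A ⧸ P)) :=
    IsAlgClosed.algebraMap_bijective_of_isIntegral
  let e : Ω ≃ₐ[Ω] (A ⧸ P) := AlgEquiv.ofBijective (Algebra.ofId Ω (A ⧸ P)) h2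
  refine ⟨(e.symm : (A ⧸ P) →ₐ[Ω] Ω).comp (Ideal.Quotient.mkₐ Ω P), ?_⟩
  ext x
  rw [RingHom.mem_ker]
  change x ∈ P ↔ e.symm (Ideal.Quotient.mk P x) = 0
  rw [map_eq_zero_iff _ e.symm.injective, Ideal.Quotient.eq_zero_iff_mem]

omit [IsAlgClosed Ω] [Algebra.FiniteType Ω A] in
theorem max_of_pt (y : A →ₐ[Ω] Ω) : (RingHom.ker y).IsMaximal := by
  apply RingHom.ker_isMaximal_of_surjective
  intro c
  exact ⟨algebraMap Ω A c, y.commutes c⟩

omit [IsAlgClosed Ω] [Algebra.FiniteType Ω A] in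
/-- The dimension of the quotient by a point is one. -/
theorem finrank_pt (y : A →ₐ[Ω] Ω) : Module.Finite Ω (A ⧸ RingHom.ker y) ∧
    Module.finrank Ω (A ⧸ RingHom.ker y) = 1 := by
  have h1 : Function.Surjective y := fun c => ⟨algebraMap Ω A c, y.commutes c⟩
  let e : (A ⧸ RingHom.ker y) ≃ₐ[Ω] Ω := Ideal.quotientKerAlgEquivOfSurjective h1
  refine ⟨Module.Finite.equiv e.symm.toLinearEquiv, ?_⟩
  rw [e.toLinearEquiv.finrank_eq, Module.finrank_self]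

/-- An element `≠ 0` of a domain is not zero at some point. -/
theorem exists_pt_ne [IsDomain A] {r : A} (hr : r ≠ 0) : ∃ φ : A →ₐ[Ω] Ω, φ r ≠ 0 := by
  have h1 : IsJacobsonRing A := isJacobsonRing_of_finiteType (A := Ω)
  have h2 : (⊥ : Ideal A).jacobson = ⊥ := h1.out (Ideal.isRadical_bot)
  have h3 : r ∉ (⊥ : Ideal A).jacobson := by
    rw [h2]
    exact hr
  rw [Ideal.jacobson, Ideal.mem_sInf] at h3
  push Not at h3
  obtain ⟨P, ⟨-, hP⟩, hr'⟩ := h3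
  obtain ⟨y, rfl⟩ := pt_of_max (Ω := Ω) hP
  exact ⟨y, hr'⟩

end pts

variable {Ω A : Type} [Field Ω] [IsAlgClosed Ω] [CommRing A] [Algebra Ω A] [Algebra.FiniteType Ω A]

/-- **The class group is `l`-divisible.** -/
theorem div_cl [IsDedekindDomain A] (G : Dg Ω A) (l : ℕ)
    (h : ∀ y : A →ₐ[Ω] Ω, ∃ r : A, r ≠ 0 ∧ ∀ φ : A →ₐ[Ω] Ω, φ r ≠ 0 →
      ∃ (J' : Ideal A) (f' g' : A), f' ≠ 0 ∧ g' ≠ 0 ∧
        Ideal.span {f'} * RingHom.ker φ = Ideal.span {g'} * RingHom.ker y * J' ^ l)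
    (c : ClassGroup A) : ∃ c' : ClassGroup A, c = c' ^ l := by
  classical
  have hnf : ∀ y : A →ₐ[Ω] Ω, RingHom.ker y ≠ ⊥ := by
    intro y hy
    obtain ⟨n₀, hn⟩ := G.tail
    obtain ⟨x, hx⟩ := hn (n₀ + 1) (by omega)
    have h1 : x - algebraMap Ω A (y x) ∈ RingHom.ker y := by
      rw [RingHom.mem_ker, map_sub]
      exact sub_eq_zero.2 (y.commutes _).symm
    rw [hy, Ideal.mem_bot, sub_eq_zero] at h1
    have h2 : G.d x ≤ 0 := by
      rw [h1]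
      by_cases h3 : y x = 0
      · rw [h3, map_zero, G.zero]
        exact bot_le
      · exact (G.d_cst h3).le
    rw [hx, ← Nat.cast_zero, Nat.cast_le] at h2
    omega
  let m : (A →ₐ[Ω] Ω) → ClassGroup A := fun y =>
    ClassGroup.mk0 ⟨RingHom.ker y, mem_nonZeroDivisors_of_ne_zero (hnf y)⟩
  have key : ∀ y y' : A →ₐ[Ω] Ω, ∃ c : ClassGroup A, m y = m y' * c ^ l := by
    have h1 : ∀ y : A →ₐ[Ω] Ω, ∃ r : A, r ≠ 0 ∧ ∀ φ : A →ₐ[Ω] Ω, φ r ≠ 0 →
        ∃ c : ClassGroup A, m φ = m y * c ^ l := by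
      intro y
      obtain ⟨r, hr, hr'⟩ := h y
      refine ⟨r, hr, fun φ hφ => ?_⟩
      obtain ⟨J, f, g, hf, hg, e⟩ := hr' φ hφ
      by_cases hl : l = 0
      · subst hl
        refine ⟨1, ?_⟩
        rw [one_pow, mul_one]
        refine ClassGroup.mk0_eq_mk0_iff.2 ⟨f, g, hf, hg, ?_⟩
        rw [pow_zero, mul_one] at e
        exact e
      · have hJ : J ≠ ⊥ := by
          rintro rfl
          rw [← Ideal.zero_eq_bot, zero_pow hl, mul_zero, mul_eq_zero] at e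
          rcases e with e | e
          · exact hf (Ideal.span_singleton_eq_bot.1 e)
          · exact hnf φ e
        refine ⟨ClassGroup.mk0 ⟨J, mem_nonZeroDivisors_of_ne_zero hJ⟩, ?_⟩
        rw [← map_pow, ← map_mul]
        refine ClassGroup.mk0_eq_mk0_iff.2 ⟨f, g, hf, hg, ?_⟩
        rw [mul_assoc] at e
        exact e
    intro y y'
    obtain ⟨r, hr, h2⟩ := h1 y
    obtain ⟨r', hr', h2'⟩ := h1 y'
    obtain ⟨φ, hφ⟩ := exists_pt_ne (Ω := Ω) (mul_ne_zero hr hr')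
    rw [map_mul] at hφ
    obtain ⟨c, hc⟩ := h2 φ (left_ne_zero_of_mul hφ)
    obtain ⟨c', hc'⟩ := h2' φ (right_ne_zero_of_mul hφ)
    refine ⟨c' * c⁻¹, ?_⟩
    rw [mul_pow, inv_pow, ← mul_assoc, ← hc', hc, mul_assoc, mul_inv_cancel, mul_one]
  obtain ⟨y₀, -⟩ := exists_pt_ne (Ω := Ω) (one_ne_zero : (1 : A) ≠ 0)
  have hI : ∀ I : Ideal A, ∀ hI : I ≠ ⊥, Module.Finite Ω (A ⧸ I) ∧ ∃ c : ClassGroup A,
      ClassGroup.mk0 ⟨I, mem_nonZeroDivisors_of_ne_zero hI⟩ =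
        m y₀ ^ (Module.finrank Ω (A ⧸ I)) * c ^ l := by
    intro I
    induction I using UniqueFactorizationMonoid.induction_on_prime with
    | h₁ => exact fun h => absurd rfl h
    | h₂ I hu =>
      intro hne
      have hI1 : I = ⊤ := Ideal.isUnit_iff.1 hu
      subst hI1
      have hs : Subsingleton (A ⧸ (⊤ : Ideal A)) := Ideal.Quotient.subsingleton_iff.2 rfl
      refine ⟨inferInstance, 1, ?_⟩
      rw [Module.finrank_zero_of_subsingleton, pow_zero, one_pow, mul_one,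
        ← map_one (ClassGroup.mk0 (R := A))]
      exact congrArg _ (Subtype.ext Ideal.one_eq_top.symm)
    | h₃ I P hI0 hP ih =>
      intro hne
      obtain ⟨hf, c, hc⟩ := ih hI0
      have hPne : P ≠ ⊥ := hP.ne_zero
      have hPm : P.IsMaximal := (Ideal.isPrime_of_prime hP).isMaximal hPne
      obtain ⟨y, rfl⟩ := pt_of_max (Ω := Ω) hPm
      obtain ⟨hf1, hd1⟩ := finrank_pt y
      obtain ⟨hf2, hd2⟩ := colen_mul (K := Ω) hPne hI0
      refine ⟨hf2, ?_⟩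
      obtain ⟨c', hc'⟩ := key y y₀
      refine ⟨c' * c, ?_⟩
      have h1 : ClassGroup.mk0 ⟨RingHom.ker y * I, mem_nonZeroDivisors_of_ne_zero hne⟩ =
          m y * ClassGroup.mk0 ⟨I, mem_nonZeroDivisors_of_ne_zero hI0⟩ := by
        rw [← map_mul]
        rfl
      rw [h1, hc, hc', hd2, hd1, add_comm, pow_succ, mul_pow]
      ac_rfl
  obtain ⟨n₀, hn⟩ := G.tail
  have hm : ∀ n : ℕ, n₀ ≤ n → ∃ c : ClassGroup A, 1 = m y₀ ^ n * c ^ l := by
    intro n hn'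
    obtain ⟨x, hx⟩ := hn n hn'
    have hx0 : x ≠ 0 := G.ne_zero hx
    have h1 : Ideal.span {x} ≠ ⊥ := fun h => hx0 (Ideal.span_singleton_eq_bot.1 h)
    obtain ⟨-, c, hc⟩ := hI _ h1
    refine ⟨c, ?_⟩
    rw [G.finrank_quot hx] at hc
    rw [← hc]
    symm
    rw [ClassGroup.mk0_eq_one_iff]
    exact ⟨x, rfl⟩
  obtain ⟨c₁, h₁⟩ := hm n₀ le_rfl
  obtain ⟨c₂, h₂⟩ := hm (n₀ + 1) (by omega)
  have hm0 : m y₀ = (c₁ * c₂⁻¹) ^ l := by
    have h3 : m y₀ ^ n₀ * c₁ ^ l = m y₀ ^ n₀ * (m y₀ * c₂ ^ l) := by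
      rw [← h₁, ← mul_assoc, ← pow_succ, ← h₂]
    have h4 : c₁ ^ l = m y₀ * c₂ ^ l := mul_left_cancel h3
    rw [mul_pow, inv_pow, h4, mul_assoc, mul_inv_cancel, mul_one]
  obtain ⟨⟨I, hI'⟩, rfl⟩ := ClassGroup.mk0_surjective c
  obtain ⟨-, c₃, h₃⟩ := hI I (nonZeroDivisors.ne_zero hI')
  refine ⟨(c₁ * c₂⁻¹) ^ (Module.finrank Ω (A ⧸ I)) * c₃, ?_⟩
  rw [h₃, hm0, mul_pow _ c₃, ← pow_mul, ← pow_mul, mul_comm l]

end CV
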