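import Pool.Agent.Lib.MP_f80667_ag.Cv.Ext

/-!
Specialisation of a relation in the class group. `Ω` is algebraically closed, `R` a domain of finite type
over `Ω` (the coordinate ring of an affine curve), `G / Ω` a field extension, `ξ : R → G` injective (a
generic point), `mI ξ` its maximal ideal in `G ⊗ R`. If `f mI ξ = g K J ^ l` in `G ⊗ R` with an ideal `K` of
`R`, then for all but finitely many `Ω`-points `φ` of `R` (those with `φ r ≠ 0`, for some `r ≠ 0`) there is the same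
relation `f' (ker φ) = g' K J' ^ l` in `R`.
-/

open TensorProduct Pointwise

namespace CV

section

variable {Ω R G : Type*} [Field Ω] [CommRing R] [Algebra Ω R] [Field G] [Algebra Ω G]

/-- The maximal ideal of the point `ξ`. -/
noncomputable def mI (ξ : R →ₐ[Ω] G) : Ideal (G ⊗[Ω] R) :=
  RingHom.ker (Algebra.TensorProduct.lift (Algebra.ofId G G) ξ fun _ _ => Commute.all _ _).toRingHom

theorem mem_mI {ξ : R →ₐ[Ω] G} {z : G ⊗[Ω] R} : z ∈ mI ξ ↔
    Algebra.TensorProduct.lift (Algebra.ofId G G) ξ (fun _ _ => Commute.all _ _) z = 0 := Iff.rfl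

theorem sub_mem_mI (ξ : R →ₐ[Ω] G) (r : R) :
    (1 : G) ⊗ₜ[Ω] r - (ξ r) ⊗ₜ[Ω] (1 : R) ∈ mI ξ := by
  rw [mem_mI, map_sub, Algebra.TensorProduct.lift_tmul, Algebra.TensorProduct.lift_tmul, map_one,
    one_mul, map_one, mul_one]
  exact sub_self _

/-- Generators of `mI ξ`. -/
theorem mI_eq_span (ξ : R →ₐ[Ω] G) {s : Set R} (hs : Algebra.adjoin Ω s = ⊤) :
    mI ξ = Ideal.span ((fun r : R => (1 : G) ⊗ₜ[Ω] r - (ξ r) ⊗ₜ[Ω] (1 : R)) '' s) := by
  set I := Ideal.span ((fun r : R => (1 : G) ⊗ₜ[Ω] r - (ξ r) ⊗ₜ[Ω] (1 : R)) '' s) with hI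
  have key : ∀ r : R, (1 : G) ⊗ₜ[Ω] r - (ξ r) ⊗ₜ[Ω] (1 : R) ∈ I := by
    intro r
    have hr : r ∈ Algebra.adjoin Ω s := by rw [hs]; trivial
    induction hr using Algebra.adjoin_induction with
    | mem x hx => exact Ideal.subset_span ⟨x, hx, rfl⟩
    | algebraMap a =>
      have : (1 : G) ⊗ₜ[Ω] algebraMap Ω R a = (ξ (algebraMap Ω R a)) ⊗ₜ[Ω] (1 : R) := by
        rw [AlgHom.commutes, Algebra.algebraMap_eq_smul_one, Algebra.algebraMap_eq_smul_one,
          TensorProduct.tmul_smul, TensorProduct.smul_tmul']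
      rw [this, sub_self]
      exact zero_mem _
    | add x y _ _ hx hy =>
      have h1 : (1 : G) ⊗ₜ[Ω] (x + y) - (ξ (x + y)) ⊗ₜ[Ω] (1 : R) =
          ((1 : G) ⊗ₜ[Ω] x - (ξ x) ⊗ₜ[Ω] (1 : R)) + ((1 : G) ⊗ₜ[Ω] y - (ξ y) ⊗ₜ[Ω] (1 : R)) := by
        rw [map_add, TensorProduct.tmul_add, TensorProduct.add_tmul]
        ring
      rw [h1]
      exact I.add_mem hx hy
    | mul x y _ _ hx hy =>
      have h1 : (1 : G) ⊗ₜ[Ω] (x * y) - (ξ (x * y)) ⊗ₜ[Ω] (1 : R) =
          ((1 : G) ⊗ₜ[Ω] x) * ((1 : G) ⊗ₜ[Ω] y - (ξ y) ⊗ₜ[Ω] (1 : R)) +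
          ((ξ y) ⊗ₜ[Ω] (1 : R)) * ((1 : G) ⊗ₜ[Ω] x - (ξ x) ⊗ₜ[Ω] (1 : R)) := by
        rw [map_mul, mul_sub, mul_sub, Algebra.TensorProduct.tmul_mul_tmul,
          Algebra.TensorProduct.tmul_mul_tmul, Algebra.TensorProduct.tmul_mul_tmul,
          Algebra.TensorProduct.tmul_mul_tmul, one_mul, one_mul, mul_one, mul_one, one_mul, mul_one,
          mul_comm (ξ y)]
        ring
      rw [h1]
      exact I.add_mem (I.mul_mem_left _ hy) (I.mul_mem_left _ hx)
  apply le_antisymm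
  · intro z hz
    have h1 : ∀ z : G ⊗[Ω] R, z - (Algebra.TensorProduct.lift (Algebra.ofId G G) ξ
        (fun _ _ => Commute.all _ _) z) ⊗ₜ[Ω] (1 : R) ∈ I := by
      intro z
      induction z using TensorProduct.induction_on with
      | zero => rw [map_zero, TensorProduct.zero_tmul, sub_zero]; exact zero_mem _
      | tmul a r =>
        rw [Algebra.TensorProduct.lift_tmul]
        have h1 : a ⊗ₜ[Ω] r - (Algebra.ofId G G a * ξ r) ⊗ₜ[Ω] (1 : R) =
            (a ⊗ₜ[Ω] (1 : R)) * ((1 : G) ⊗ₜ[Ω] r - (ξ r) ⊗ₜ[Ω] (1 : R)) := by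
          rw [mul_sub, Algebra.TensorProduct.tmul_mul_tmul, Algebra.TensorProduct.tmul_mul_tmul,
            mul_one, one_mul, mul_one]
          rfl
        rw [h1]
        exact I.mul_mem_left _ (key r)
      | add x y hx hy =>
        have h1 : x + y - (Algebra.TensorProduct.lift (Algebra.ofId G G) ξ
            (fun _ _ => Commute.all _ _) (x + y)) ⊗ₜ[Ω] (1 : R) =
            (x - (Algebra.TensorProduct.lift (Algebra.ofId G G) ξ
            (fun _ _ => Commute.all _ _) x) ⊗ₜ[Ω] (1 : R)) +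
            (y - (Algebra.TensorProduct.lift (Algebra.ofId G G) ξ
            (fun _ _ => Commute.all _ _) y) ⊗ₜ[Ω] (1 : R)) := by
          rw [map_add, TensorProduct.add_tmul]
          ring
        rw [h1]
        exact I.add_mem hx hy
    have h2 := h1 z
    rw [mem_mI.1 hz, TensorProduct.zero_tmul, sub_zero] at h2
    exact h2
  · rw [hI, Ideal.span_le]
    rintro _ ⟨r, _, rfl⟩
    exact sub_mem_mI ξ r

/-- Elements of `G ⊗ R` are defined over finitely generated subalgebras. -/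
theorem exists_fin (z : G ⊗[Ω] R) : ∃ F : Finset G, ∀ B : Subalgebra Ω G, (F : Set G) ⊆ B →
    z ∈ (Algebra.TensorProduct.map B.val (AlgHom.id Ω R)).range := by
  classical
  induction z using TensorProduct.induction_on with
  | zero => exact ⟨∅, fun B _ => zero_mem _⟩
  | tmul a r =>
    refine ⟨{a}, fun B hB => ⟨(⟨a, hB (by simp)⟩ : B) ⊗ₜ[Ω] r, ?_⟩⟩
    exact Algebra.TensorProduct.map_tmul _ _ _ _
  | add x y hx hy =>
    obtain ⟨F, hF⟩ := hx
    obtain ⟨F', hF'⟩ := hy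
    refine ⟨F ∪ F', fun B hB => add_mem (hF B fun a ha => hB ?_) (hF' B fun a ha => hB ?_)⟩
    · simp only [Finset.coe_union, Set.mem_union]
      exact Or.inl ha
    · simp only [Finset.coe_union, Set.mem_union]
      exact Or.inr ha

theorem exists_fin_set (Z : Set (G ⊗[Ω] R)) (hZ : Z.Finite) : ∃ F : Finset G,
    ∀ B : Subalgebra Ω G, (F : Set G) ⊆ B →
      ∀ z ∈ Z, z ∈ (Algebra.TensorProduct.map B.val (AlgHom.id Ω R)).range := by
  classical
  choose F hF using (exists_fin (Ω := Ω) (R := R) (G := G))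
  refine ⟨hZ.toFinset.biUnion F, fun B hB z hz => hF z B fun a ha => hB ?_⟩
  simp only [Finset.coe_biUnion, Set.mem_iUnion]
  exact ⟨z, by simpa using hz, ha⟩

theorem map_val_inj (B : Subalgebra Ω G) :
    Function.Injective (Algebra.TensorProduct.map B.val (AlgHom.id Ω R)) := by
  have h : Function.Injective (LinearMap.rTensor R B.val.toLinearMap) :=
    Module.Flat.rTensor_preserves_injective_linearMap _ Subtype.val_injective
  exact h

/-- A non zero element of `B ⊗ R` stays non zero under a homomorphism which does not kill one coefficient. -/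
theorem exists_coef {B : Type*} [CommRing B] [Algebra Ω B] (z : B ⊗[Ω] R) (hz : z ≠ 0) :
    ∃ b : B, b ≠ 0 ∧ ∀ ψ : B →ₐ[Ω] Ω, ψ b ≠ 0 →
      Algebra.TensorProduct.lift ((Algebra.ofId Ω R).comp ψ) (AlgHom.id Ω R)
        (fun _ _ => Commute.all _ _) z ≠ 0 := by
  classical
  let e := Module.Basis.ofVectorSpace Ω R
  let E := e.baseChange B
  obtain ⟨i, hi⟩ : ∃ i, E.repr z i ≠ 0 := by
    by_contra h
    push Not at h
    exact hz (E.repr.injective (by ext i; simpa using h i))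
  refine ⟨_, hi, fun ψ hψ h => hψ ?_⟩
  have key : ∀ z : B ⊗[Ω] R, e.repr (Algebra.TensorProduct.lift ((Algebra.ofId Ω R).comp ψ)
      (AlgHom.id Ω R) (fun _ _ => Commute.all _ _) z) i = ψ (E.repr z i) := by
    intro z
    induction z using TensorProduct.induction_on with
    | zero => simp
    | tmul b r =>
      rw [Algebra.TensorProduct.lift_tmul]
      change e.repr (algebraMap Ω R (ψ b) * r) i = ψ ((e.baseChange B).repr (b ⊗ₜ r) i)
      rw [Module.Basis.baseChange_repr_tmul, ← Algebra.smul_def, map_smul]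
      simp [Algebra.smul_def, mul_comm]
    | add x y hx hy =>
      rw [map_add, map_add, Finsupp.add_apply, hx, hy, map_add, Finsupp.add_apply, map_add]
  rw [← key, h, map_zero, Finsupp.zero_apply]

/-- `A` is in the image of `ι` and `θ (ι⁻¹ A)` generates `I'`. -/
def Gn {T S R : Type*} [CommRing T] [CommRing S] [CommRing R] (ι : S →+* T) (θ : S →+* R)
    (A : Set T) (I' : Ideal R) : Prop :=
  A ⊆ Set.range ι ∧ Ideal.span (θ '' (ι ⁻¹' A)) = I'

section gn

variable {T S R' : Type*} [CommRing T] [CommRing S] [CommRing R'] {ι : S →+* T} {θ : S →+* R'}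
  (hι : Function.Injective ι)

include hι

theorem Gn.mul {A B : Set T} {I' J' : Ideal R'} (h : Gn ι θ A I') (h' : Gn ι θ B J') :
    Gn ι θ (A * B) (I' * J') := by
  obtain ⟨h1, rfl⟩ := h
  obtain ⟨h1', rfl⟩ := h'
  refine ⟨?_, ?_⟩
  · rintro _ ⟨a, ha, b, hb, rfl⟩
    obtain ⟨a', rfl⟩ := h1 ha
    obtain ⟨b', rfl⟩ := h1' hb
    exact ⟨a' * b', map_mul _ _ _⟩
  · rw [Ideal.span_mul_span', ← Set.image_mul]
    congr 2
    ext x
    constructor
    · rintro ⟨a, ha, b, hb, hab⟩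
      obtain ⟨a', rfl⟩ := h1 ha
      obtain ⟨b', rfl⟩ := h1' hb
      refine ⟨a', ha, b', hb, hι ?_⟩
      change ι (a' * b') = ι x
      rw [map_mul]
      exact hab
    · rintro ⟨a, ha, b, hb, rfl⟩
      refine ⟨ι a, ha, ι b, hb, ?_⟩
      exact (map_mul ι a b).symm

theorem Gn.one : Gn ι θ (1 : Set T) 1 := by
  refine ⟨?_, ?_⟩
  · rintro _ rfl
    exact ⟨1, map_one _⟩
  · have : ι ⁻¹' (1 : Set T) = {1} := by
      ext x
      rw [Set.mem_preimage, Set.mem_one, Set.mem_singleton_iff]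
      constructor
      · intro h
        exact hι (by rw [h, map_one])
      · rintro rfl
        exact map_one _
    rw [this, Set.image_singleton, map_one, Ideal.span_singleton_one, Ideal.one_eq_top]

theorem Gn.pow {A : Set T} {I' : Ideal R'} (h : Gn ι θ A I') (n : ℕ) : Gn ι θ (A ^ n) (I' ^ n) := by
  induction n with
  | zero => rw [pow_zero, pow_zero]; exact Gn.one hι
  | succ n ih => rw [pow_succ, pow_succ]; exact ih.mul hι h

theorem Gn.le {A : Set T} {U : Finset T} {I' J' : Ideal R'} (h : Gn ι θ A I')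
    (h' : Gn ι θ (U : Set T) J') (c : T → T → T) (hc : ∀ x ∈ A, ∀ a ∈ U, c x a ∈ Set.range ι)
    (hx : ∀ x ∈ A, x = ∑ a ∈ U, c x a * a) : I' ≤ J' := by
  obtain ⟨h1, rfl⟩ := h
  obtain ⟨h1', rfl⟩ := h'
  rw [Ideal.span_le]
  rintro _ ⟨x', hx', rfl⟩
  have h2 := hx _ hx'
  choose! d hd using fun a (ha : a ∈ U) => hc _ hx' a ha
  choose! e he using fun a (ha : a ∈ U) => h1' (Finset.mem_coe.2 ha)
  have h3 : x' = ∑ a ∈ U, d a * e a := by
    apply hι
    rw [h2, map_sum]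
    refine Finset.sum_congr rfl fun a ha => ?_
    rw [map_mul, hd a ha, he a ha]
  rw [h3, map_sum]
  refine Ideal.sum_mem _ fun a ha => ?_
  rw [map_mul]
  refine Ideal.mul_mem_left _ _ (Ideal.subset_span ⟨e a, ?_, rfl⟩)
  rw [Set.mem_preimage, he a ha]
  exact ha

end gn

/-- Generators of the kernel of `φ`. -/
theorem ker_eq_span (φ : R →ₐ[Ω] Ω) {s : Set R} (hs : Algebra.adjoin Ω s = ⊤) :
    RingHom.ker φ = Ideal.span ((fun r : R => r - algebraMap Ω R (φ r)) '' s) := by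
  set I := Ideal.span ((fun r : R => r - algebraMap Ω R (φ r)) '' s) with hI
  apply le_antisymm
  · intro r hr
    have key : ∀ r : R, r - algebraMap Ω R (φ r) ∈ I := by
      intro r
      have hr : r ∈ Algebra.adjoin Ω s := by rw [hs]; trivial
      induction hr using Algebra.adjoin_induction with
      | mem x hx => exact Ideal.subset_span ⟨x, hx, rfl⟩
      | algebraMap a =>
        rw [AlgHom.commutes]
        change algebraMap Ω R a - algebraMap Ω R a ∈ I
        rw [sub_self]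
        exact zero_mem _
      | add x y _ _ hx hy =>
        have h1 : x + y - algebraMap Ω R (φ (x + y)) =
            (x - algebraMap Ω R (φ x)) + (y - algebraMap Ω R (φ y)) := by
          rw [map_add, map_add]
          ring
        rw [h1]
        exact I.add_mem hx hy
      | mul x y _ _ hx hy =>
        have h1 : x * y - algebraMap Ω R (φ (x * y)) =
            x * (y - algebraMap Ω R (φ y)) + algebraMap Ω R (φ y) * (x - algebraMap Ω R (φ x)) := by
          rw [map_mul, map_mul]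
          ring
        rw [h1]
        exact I.add_mem (I.mul_mem_left _ hy) (I.mul_mem_left _ hx)
    have h1 := key r
    rw [RingHom.mem_ker] at hr
    rw [hr, map_zero, sub_zero] at h1
    exact h1
  · rw [hI, Ideal.span_le]
    rintro _ ⟨r, _, rfl⟩
    change φ (r - algebraMap Ω R (φ r)) = 0
    rw [map_sub, AlgHom.commutes]
    exact sub_self _

/-- **Specialisation of a relation in the class group.** -/
theorem div_spread [IsAlgClosed Ω] [IsDomain R] [Algebra.FiniteType Ω R] (ξ : R →ₐ[Ω] G)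
    (hξ : Function.Injective ξ) (K : Ideal R) (l : ℕ) (J : Ideal (G ⊗[Ω] R)) (f g : G ⊗[Ω] R)
    (hf : f ≠ 0) (hg : g ≠ 0)
    (h : Ideal.span {f} * mI ξ =
      Ideal.span {g} * K.map (Algebra.TensorProduct.includeRight : R →ₐ[Ω] G ⊗[Ω] R) * J ^ l) :
    ∃ r : R, r ≠ 0 ∧ ∀ φ : R →ₐ[Ω] Ω, φ r ≠ 0 → ∃ (J' : Ideal R) (f' g' : R), f' ≠ 0 ∧ g' ≠ 0 ∧
      Ideal.span {f'} * RingHom.ker φ = Ideal.span {g'} * K * J' ^ l := by
  classical
  obtain ⟨s, hs⟩ := (inferInstance : Algebra.FiniteType Ω R).out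
  have hNR : IsNoetherianRing R := Algebra.FiniteType.isNoetherianRing Ω R
  have hNT : IsNoetherianRing (G ⊗[Ω] R) := Algebra.FiniteType.isNoetherianRing G (G ⊗[Ω] R)
  obtain ⟨Kg, hK⟩ := (isNoetherianRing_iff_ideal_fg R).1 hNR K
  obtain ⟨Jg, hJ⟩ := (isNoetherianRing_iff_ideal_fg _).1 hNT J
  let inc : R →ₐ[Ω] G ⊗[Ω] R := Algebra.TensorProduct.includeRight
  let ML : Set (G ⊗[Ω] R) := (fun r : R => (1 : G) ⊗ₜ[Ω] r - (ξ r) ⊗ₜ[Ω] (1 : R)) '' s
  let UL : Set (G ⊗[Ω] R) := {f} * ML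
  let UR : Set (G ⊗[Ω] R) := {g} * (inc '' Kg) * (Jg : Set (G ⊗[Ω] R)) ^ l
  have hULf : UL.Finite := (Set.finite_singleton f).mul ((s.finite_toSet).image _)
  have hURf : UR.Finite := by
    refine ((Set.finite_singleton g).mul ((Kg.finite_toSet).image _)).mul ?_
    have hp : ∀ n : ℕ, ((Jg : Set (G ⊗[Ω] R)) ^ n).Finite := by
      intro n
      induction n with
      | zero => rw [pow_zero]; exact Set.finite_one
      | succ n ih => rw [pow_succ]; exact ih.mul Jg.finite_toSet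
    exact hp l
  have hspow : ∀ n : ℕ, Ideal.span ((Jg : Set (G ⊗[Ω] R)) ^ n) = J ^ n := by
    intro n
    induction n with
    | zero =>
      rw [pow_zero, pow_zero, Ideal.one_eq_top]
      exact Ideal.span_singleton_one
    | succ n ih => rw [pow_succ, pow_succ, ← Ideal.span_mul_span', ih, hJ]
  have hUL : Ideal.span UL = Ideal.span {f} * mI ξ := by
    rw [← Ideal.span_mul_span', mI_eq_span ξ hs]
  have hUR : Ideal.span UR = Ideal.span {g} * K.map inc * J ^ l := by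
    rw [← Ideal.span_mul_span', ← Ideal.span_mul_span', hspow, ← hK, Ideal.map_span]
  have hLR : ∀ x ∈ UL, ∃ c : G ⊗[Ω] R → G ⊗[Ω] R, x = ∑ a ∈ hURf.toFinset, c a * a := by
    intro x hx
    have h1 : x ∈ Ideal.span ((hURf.toFinset : Finset _) : Set (G ⊗[Ω] R)) := by
      rw [Set.Finite.coe_toFinset, hUR, ← h, ← hUL]
      exact Ideal.subset_span hx
    obtain ⟨c, -, hc⟩ := Submodule.mem_span_finset.1 h1
    exact ⟨c, hc.symm⟩
  have hRL : ∀ x ∈ UR, ∃ c : G ⊗[Ω] R → G ⊗[Ω] R, x = ∑ a ∈ hULf.toFinset, c a * a := by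
    intro x hx
    have h1 : x ∈ Ideal.span ((hULf.toFinset : Finset _) : Set (G ⊗[Ω] R)) := by
      rw [Set.Finite.coe_toFinset, hUL, h, ← hUR]
      exact Ideal.subset_span hx
    obtain ⟨c, -, hc⟩ := Submodule.mem_span_finset.1 h1
    exact ⟨c, hc.symm⟩
  choose! c hc using hLR
  choose! d hd using hRL
  let Z : Set (G ⊗[Ω] R) := {f, g} ∪ Jg ∪ Set.image2 c UL UR ∪ Set.image2 d UR UL
  have hZ : Z.Finite := (((Set.toFinite {f, g}).union Jg.finite_toSet).union
    (hULf.image2 c hURf)).union (hURf.image2 d hULf)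
  obtain ⟨F, hF⟩ := exists_fin_set Z hZ
  let B : Subalgebra Ω G := Algebra.adjoin Ω ((F : Set G) ∪ ξ '' s)
  have hFB : (F : Set G) ⊆ B := fun a ha => Algebra.subset_adjoin (Or.inl ha)
  have hξB : ∀ r : R, ξ r ∈ B := by
    intro r
    have hr : r ∈ Algebra.adjoin Ω (s : Set R) := by rw [hs]; trivial
    have h1 : ξ r ∈ Algebra.adjoin Ω (ξ '' s) := by
      rw [← AlgHom.map_adjoin]
      exact ⟨r, hr, rfl⟩
    exact Algebra.adjoin_mono Set.subset_union_right h1
  let ξB : R →ₐ[Ω] B := ξ.codRestrict B hξB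
  have hBft : Algebra.FiniteType Ω B := by
    rw [← Subalgebra.fg_iff_finiteType, Subalgebra.fg_def]
    exact ⟨_, F.finite_toSet.union (s.finite_toSet.image _), rfl⟩
  let i1 : Algebra R B := ξB.toRingHom.toAlgebra
  have i2 : IsScalarTower Ω R B := IsScalarTower.of_algebraMap_eq fun a => (ξB.commutes a).symm
  have i3 : Algebra.FiniteType R B := Algebra.FiniteType.of_restrictScalars_finiteType Ω R B
  have i4 : Function.Injective (algebraMap R B) := by
    intro a b hab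
    exact hξ (congrArg (algebraMap B G) hab)
  let ι : B ⊗[Ω] R →+* G ⊗[Ω] R := (Algebra.TensorProduct.map B.val (AlgHom.id Ω R)).toRingHom
  have hι : Function.Injective ι := map_val_inj B
  have hZι : ∀ z ∈ Z, z ∈ Set.range ι := fun z hz => hF B hFB z hz
  obtain ⟨f₁, hf₁⟩ := hZι f (Or.inl (Or.inl (Or.inl (Or.inl rfl))))
  obtain ⟨g₁, hg₁⟩ := hZι g (Or.inl (Or.inl (Or.inl (Or.inr rfl))))
  have hf₁' : f₁ ≠ 0 := by
    rintro rfl
    exact hf (by rw [← hf₁, map_zero])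
  have hg₁' : g₁ ≠ 0 := by
    rintro rfl
    exact hg (by rw [← hg₁, map_zero])
  obtain ⟨bf, hbf, hbf'⟩ := exists_coef f₁ hf₁'
  obtain ⟨bg, hbg, hbg'⟩ := exists_coef g₁ hg₁'
  obtain ⟨r, hr, hr'⟩ := ext_lift (Ω := Ω) i4 (bf * bg) (mul_ne_zero hbf hbg)
  refine ⟨r, hr, fun φ hφ => ?_⟩
  obtain ⟨ψ₀, hψ₀, hψb⟩ := hr' φ.toRingHom hφ
  have hψ₀' : ∀ x : R, ψ₀ (ξB x) = φ x := fun x => congrFun (congrArg DFunLike.coe hψ₀) x
  let ψ : B →ₐ[Ω] Ω :=
    { ψ₀ with
      commutes' := fun a => by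
        change ψ₀ (algebraMap Ω B a) = a
        rw [IsScalarTower.algebraMap_apply Ω R B]
        change ψ₀ (ξB (algebraMap Ω R a)) = a
        rw [hψ₀', φ.commutes]
        rfl }
  have hψ : ∀ x, ψ x = ψ₀ x := fun x => rfl
  rw [map_mul] at hψb
  let θ' : B ⊗[Ω] R →ₐ[Ω] R := Algebra.TensorProduct.lift ((Algebra.ofId Ω R).comp ψ) (AlgHom.id Ω R)
    (fun _ _ => Commute.all _ _)
  let θ : B ⊗[Ω] R →+* R := θ'.toRingHom
  have hθ : ∀ (b : B) (x : R), θ (b ⊗ₜ x) = algebraMap Ω R (ψ b) * x := fun b x =>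
    Algebra.TensorProduct.lift_tmul _ _ _ _ _
  refine ⟨Ideal.span (θ '' (ι ⁻¹' (Jg : Set (G ⊗[Ω] R)))), θ f₁, θ g₁, hbf' ψ (left_ne_zero_of_mul hψb),
    hbg' ψ (right_ne_zero_of_mul hψb), ?_⟩
  have gs : ∀ x : B ⊗[Ω] R, Gn ι θ {ι x} (Ideal.span {θ x}) := by
    intro x
    refine ⟨?_, ?_⟩
    · rintro _ rfl
      exact ⟨x, rfl⟩
    · have : ι ⁻¹' {ι x} = {x} := by
        ext y
        exact ⟨fun hy => hι hy, fun hy => by rw [Set.mem_singleton_iff.1 hy]; rfl⟩
      rw [this, Set.image_singleton]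
  have gf : Gn ι θ {f} (Ideal.span {θ f₁}) := by rw [← hf₁]; exact gs f₁
  have gg : Gn ι θ {g} (Ideal.span {θ g₁}) := by rw [← hg₁]; exact gs g₁
  have gM : Gn ι θ ML (RingHom.ker φ) := by
    refine ⟨?_, ?_⟩
    · rintro _ ⟨x, _, rfl⟩
      refine ⟨(1 : B) ⊗ₜ x - (ξB x) ⊗ₜ (1 : R), ?_⟩
      rw [map_sub]
      rfl
    · rw [ker_eq_span φ hs]
      congr 1
      ext y
      constructor
      · rintro ⟨z, ⟨x, hx, hxz⟩, rfl⟩
        refine ⟨x, hx, ?_⟩
        have h1 : z = (1 : B) ⊗ₜ x - (ξB x) ⊗ₜ (1 : R) := by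
          apply hι
          rw [← hxz, map_sub]
          rfl
        rw [h1, map_sub, hθ, hθ, map_one, map_one, one_mul, mul_one, hψ, hψ₀']
      · rintro ⟨x, hx, rfl⟩
        refine ⟨(1 : B) ⊗ₜ x - (ξB x) ⊗ₜ (1 : R), ⟨x, hx, ?_⟩, ?_⟩
        · rw [map_sub]
          rfl
        · rw [map_sub, hθ, hθ, map_one, map_one, one_mul, mul_one, hψ, hψ₀']
  have gK : Gn ι θ (inc '' Kg) K := by
    refine ⟨?_, ?_⟩
    · rintro _ ⟨x, _, rfl⟩
      exact ⟨(1 : B) ⊗ₜ x, rfl⟩
    · rw [← hK]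
      congr 1
      ext y
      constructor
      · rintro ⟨z, ⟨x, hx, hxz⟩, rfl⟩
        have h1 : z = (1 : B) ⊗ₜ x := by
          apply hι
          rw [← hxz]
          rfl
        rw [h1, hθ, map_one, map_one, one_mul]
        exact hx
      · intro hy
        refine ⟨(1 : B) ⊗ₜ y, ⟨y, hy, rfl⟩, ?_⟩
        rw [hθ, map_one, map_one, one_mul]
  have gJ : Gn ι θ (Jg : Set (G ⊗[Ω] R)) (Ideal.span (θ '' (ι ⁻¹' (Jg : Set (G ⊗[Ω] R))))) :=
    ⟨fun z hz => hZι z (Or.inl (Or.inl (Or.inr hz))), rfl⟩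
  have gL : Gn ι θ UL (Ideal.span {θ f₁} * RingHom.ker φ) := gf.mul hι gM
  have gR : Gn ι θ UR (Ideal.span {θ g₁} * K *
      Ideal.span (θ '' (ι ⁻¹' (Jg : Set (G ⊗[Ω] R)))) ^ l) := (gg.mul hι gK).mul hι (gJ.pow hι l)
  apply le_antisymm
  · refine Gn.le hι gL (U := hURf.toFinset) (by rwa [Set.Finite.coe_toFinset]) c ?_ hc
    intro x hx a ha
    rw [Set.Finite.mem_toFinset] at ha
    exact hZι _ (Or.inl (Or.inr ⟨x, hx, a, ha, rfl⟩))
  · refine Gn.le hι gR (U := hULf.toFinset) (by rwa [Set.Finite.coe_toFinset]) d ?_ hd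
    intro x hx a ha
    rw [Set.Finite.mem_toFinset] at ha
    exact hZι _ (Or.inr ⟨x, hx, a, ha, rfl⟩)

end

end CV
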