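import Mathlib

/-!
Points of a Dedekind domain `A` over a field `Ω`: local parameters and tangent vectors; if `A` is smooth then every
point `P` is the reduction of a generic point, an injective homomorphism `A → Ω⟦X⟧`.
-/

open PowerSeries

namespace CV

/-- Completeness with respect to the square of an ideal. Proof: for a sequence `f` which is Cauchy for `(I ^ 2) ^ n = I ^ (2 n)` put `g k = f ((k + 1) / 2)`, it is Cauchy for `I ^ k`; its limit is the limit of `f`. Hausdorff: the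
intersection of the `I ^ (2 n)` is the intersection of the `I ^ n`. -/
theorem adic_sq {V : Type} [CommRing V] {I : Ideal V} (h : IsAdicComplete I V) :
    IsAdicComplete (I ^ 2) V := by
  have hle : ∀ m n : ℕ, m ≤ 2 * n → (I ^ 2) ^ n • (⊤ : Submodule V V) ≤ I ^ m • ⊤ := by
    intro m n hmn
    rw [← pow_mul]
    exact Submodule.smul_mono_left (Ideal.pow_le_pow_right hmn)
  have hge : ∀ n : ℕ, I ^ (2 * n) • (⊤ : Submodule V V) ≤ (I ^ 2) ^ n • ⊤ := by
    intro n
    rw [pow_mul]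
  have hh : IsHausdorff (I ^ 2) V := by
    refine ⟨fun x hx => h.haus' x fun n => ?_⟩
    exact (hx n).mono (hle n n (by omega))
  have hp : IsPrecomplete (I ^ 2) V := by
    refine ⟨fun f hf => ?_⟩
    obtain ⟨L, hL⟩ := h.prec' (fun k => f ((k + 1) / 2)) (fun {m n} hmn =>
      (hf (Nat.div_le_div_right (by omega))).mono (hle m ((m + 1) / 2) (by omega)))
    refine ⟨L, fun n => ?_⟩
    have h1 := hL (2 * n)
    have h2 : (2 * n + 1) / 2 = n := by omega
    simp only [h2] at h1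
    exact h1.mono (hge n)
  exact { hh, hp with }

section

variable {Ω A : Type} [Field Ω] [CommRing A] [IsDedekindDomain A] [Algebra Ω A] (P : A →ₐ[Ω] Ω)

omit [IsDedekindDomain A] in
private theorem genP_surj : Function.Surjective P := fun c => ⟨algebraMap Ω A c, P.commutes c⟩

omit [IsDedekindDomain A] in
private theorem genP_max : (RingHom.ker P).IsMaximal :=
  RingHom.ker_isMaximal_of_surjective _ (genP_surj P)

/-- Local parameter. Proof: `m = ker P` is maximal, `m ^ 2 ≠ m` (cancellation of ideals), `z ∈ m`, `z ∉ m ^ 2`; `(z) = m J`, `J` is not contained in `m`; `s ∈ J`, `s ∉ m`. -/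
theorem exists_lp (hP : RingHom.ker P ≠ ⊥) : ∃ z s : A, P z = 0 ∧ P s ≠ 0 ∧
    z ∉ RingHom.ker P ^ 2 ∧ ∀ x, P x = 0 → z ∣ s * x := by
  have hm := genP_max P
  have h1 : ¬ RingHom.ker P ≤ RingHom.ker P ^ 2 := by
    intro h
    have h2 : RingHom.ker P * RingHom.ker P = RingHom.ker P * 1 := by
      rw [mul_one, ← pow_two]
      exact le_antisymm (Ideal.pow_le_self two_ne_zero) h
    have h3 := mul_left_cancel₀ (by rwa [Ne, Ideal.zero_eq_bot]) h2
    rw [Ideal.one_eq_top] at h3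
    exact hm.ne_top h3
  obtain ⟨z, hz, hz2⟩ := SetLike.not_le_iff_exists.1 h1
  obtain ⟨J, hJ⟩ : RingHom.ker P ∣ Ideal.span {z} := Ideal.dvd_span_singleton.2 hz
  have h2 : ¬ J ≤ RingHom.ker P := by
    intro h
    apply hz2
    have h3 : z ∈ RingHom.ker P * J := hJ ▸ Ideal.mem_span_singleton_self z
    rw [pow_two]
    exact Ideal.mul_mono_right h h3
  obtain ⟨s, hs, hs2⟩ := SetLike.not_le_iff_exists.1 h2
  refine ⟨z, s, hz, hs2, hz2, fun x hx => ?_⟩
  rw [← Ideal.mem_span_singleton, hJ, mul_comm s x]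
  exact Ideal.mul_mem_mul hx hs

/-- Derivation. Proof: `z` from `exists_lp`; a linear form `f` on `A` which is `0` on `(ker P) ^ 2` and `1` at `z`; `δ a = f (a - P a)`. -/
theorem exists_der (hP : RingHom.ker P ≠ ⊥) : ∃ (δ : A →ₗ[Ω] Ω) (t : A), P t = 0 ∧ δ t = 1 ∧
    ∀ a b, δ (a * b) = P a * δ b + P b * δ a := by
  obtain ⟨z, s, hz, -, hz2, -⟩ := exists_lp P hP
  obtain ⟨f, hf, hker⟩ := Submodule.exists_le_ker_of_notMem
    (p := (RingHom.ker P ^ 2).restrictScalars Ω) (v := z)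
    (fun h => hz2 ((Submodule.restrictScalars_mem _ _ _).1 h))
  have hf2 : ∀ x ∈ RingHom.ker P ^ 2, f x = 0 := fun x hx => hker hx
  let g : A →ₗ[Ω] Ω := (f z)⁻¹ • f
  have hg2 : ∀ x ∈ RingHom.ker P ^ 2, g x = 0 := fun x hx => by
    change (f z)⁻¹ * f x = 0
    rw [hf2 x hx, mul_zero]
  have hg : g z = 1 := inv_mul_cancel₀ hf
  let δ : A →ₗ[Ω] Ω := g ∘ₗ (LinearMap.id - (Algebra.linearMap Ω A) ∘ₗ P.toLinearMap)
  have hδ : ∀ a, δ a = g (a - algebraMap Ω A (P a)) := fun a => rfl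
  refine ⟨δ, z, hz, ?_, fun a b => ?_⟩
  · rw [hδ, hz, map_zero, sub_zero, hg]
  · have hk : ∀ a, a - algebraMap Ω A (P a) ∈ RingHom.ker P := fun a => by
      rw [RingHom.mem_ker, map_sub, AlgHom.commutes]
      exact sub_self _
    have h1 : a * b - algebraMap Ω A (P (a * b)) =
        (a - algebraMap Ω A (P a)) * (b - algebraMap Ω A (P b)) +
          (P a • (b - algebraMap Ω A (P b)) + P b • (a - algebraMap Ω A (P a))) := by
      rw [map_mul, map_mul, Algebra.smul_def, Algebra.smul_def]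
      ring
    rw [hδ, h1, map_add, map_add, map_smul, map_smul, hg2 _ (by
      rw [pow_two]
      exact Ideal.mul_mem_mul (hk a) (hk b)), zero_add, smul_eq_mul, smul_eq_mul, ← hδ, ← hδ]

/-- **Generic point.** Proof: `a ↦ P a + δ a X` is a homomorphism to `Ω⟦X⟧ / (X ^ 2)`; `Ω⟦X⟧` is complete with respect to `(X) ^ 2` (`adic_sq`, and the instance for `(X)`), so it lifts to `ξ : A → Ω⟦X⟧`
(`Algebra.FormallySmooth.exists_mkₐ_comp_eq_of_isAdicComplete`). The kernel is a prime ideal which is contained in `ker P` and does not contain `t`, so it is `⊥`. -/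
theorem exists_gen [Algebra.FormallySmooth Ω A] (hP : RingHom.ker P ≠ ⊥) :
    ∃ ξ : A →ₐ[Ω] Ω⟦X⟧, Function.Injective ξ ∧ ∀ a, constantCoeff (ξ a) = P a := by
  obtain ⟨δ, t, ht, hδt, hδ⟩ := exists_der P hP
  have hδ1 : δ 1 = 0 := by
    have h1 := hδ 1 1
    rw [mul_one, map_one P, one_mul] at h1
    linear_combination -h1
  let I : Ideal Ω⟦X⟧ := Ideal.span {X}
  have hI : IsAdicComplete (I ^ 2) Ω⟦X⟧ := adic_sq inferInstance
  let ψ : A →ₗ[Ω] Ω⟦X⟧ :=
    (Algebra.linearMap Ω Ω⟦X⟧) ∘ₗ P.toLinearMap +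
      (LinearMap.toSpanSingleton Ω Ω⟦X⟧ X) ∘ₗ δ
  have hψ : ∀ a, ψ a = algebraMap Ω Ω⟦X⟧ (P a) + δ a • X := fun a => rfl
  let φ : A →ₐ[Ω] Ω⟦X⟧ ⧸ I ^ 2 := AlgHom.ofLinearMap
    ((Ideal.Quotient.mkₐ Ω (I ^ 2)).toLinearMap ∘ₗ ψ) (by
      change Ideal.Quotient.mk (I ^ 2) (ψ 1) = 1
      rw [hψ, map_one, hδ1, zero_smul, map_one, add_zero, map_one]) (by
      intro a b
      change Ideal.Quotient.mk (I ^ 2) (ψ (a * b)) =
        Ideal.Quotient.mk (I ^ 2) (ψ a) * Ideal.Quotient.mk (I ^ 2) (ψ b)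
      rw [← map_mul, Ideal.Quotient.eq]
      have h1 : ψ (a * b) - ψ a * ψ b = -(algebraMap Ω Ω⟦X⟧ (δ a * δ b)) * (X * X) := by
        rw [hψ, hψ, hψ, hδ, map_mul, Algebra.smul_def, Algebra.smul_def, Algebra.smul_def]
        simp only [map_mul, map_add]
        ring
      rw [h1, pow_two]
      exact Ideal.mul_mem_left _ _ (Ideal.mul_mem_mul (Ideal.mem_span_singleton_self X)
        (Ideal.mem_span_singleton_self X)))
  obtain ⟨ξ, hξ⟩ := Algebra.FormallySmooth.exists_mkₐ_comp_eq_of_isAdicComplete φ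
  have h1 : ∀ a, (X : Ω⟦X⟧) ^ 2 ∣ ξ a - ψ a := by
    intro a
    have h2 : Ideal.Quotient.mk (I ^ 2) (ξ a) = Ideal.Quotient.mk (I ^ 2) (ψ a) :=
      DFunLike.congr_fun hξ a
    rw [Ideal.Quotient.eq] at h2
    change _ ∈ Ideal.span {X} ^ 2 at h2
    rw [Ideal.span_singleton_pow, Ideal.mem_span_singleton] at h2
    exact h2
  have hc : ∀ a, constantCoeff (ξ a) = P a := by
    intro a
    have h2 := X_pow_dvd_iff.1 (h1 a) 0 (by norm_num)
    rw [map_sub, sub_eq_zero, hψ, map_add, coeff_zero_eq_constantCoeff_apply,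
      coeff_zero_eq_constantCoeff_apply, coeff_zero_eq_constantCoeff_apply] at h2
    rw [h2]
    simp [Algebra.smul_def]
  have hc1 : coeff 1 (ξ t) = 1 := by
    have h2 := X_pow_dvd_iff.1 (h1 t) 1 (by norm_num)
    rw [map_sub, sub_eq_zero, hψ, ht, map_zero, zero_add, hδt, one_smul, coeff_one_X] at h2
    exact h2
  refine ⟨ξ, ?_, hc⟩
  rw [RingHom.injective_iff_ker_eq_bot]
  by_contra hne
  have hprime : (RingHom.ker ξ).IsPrime := RingHom.ker_isPrime _
  have hmax : (RingHom.ker ξ).IsMaximal := hprime.isMaximal hne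
  have hle : RingHom.ker ξ ≤ RingHom.ker P := by
    intro a ha
    rw [RingHom.mem_ker] at ha ⊢
    rw [← hc a, ha, map_zero]
  have heq := hmax.eq_of_le (genP_max P).ne_top hle
  have htm : t ∈ RingHom.ker ξ := by
    rw [heq]
    exact ht
  rw [RingHom.mem_ker] at htm
  rw [htm, map_zero] at hc1
  exact zero_ne_one hc1

end

end CV
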