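import Pool.Agent.Lib.MP_f80667_ag.Cv.Ct7a

/-!
The set of the elements which are equivalent to a given one is closed.
-/

open IsLocalRing

namespace CV

namespace Md

variable {V L k S SL Sk : Type} [CommRing V] [IsDomain V] [IsDiscreteValuationRing V] [Field L]
  [Field k] [Algebra V L] [IsFractionRing V L] [Algebra V k] [CommRing S] [CommRing SL]
  [CommRing Sk] [Algebra V S] [Algebra L SL] [Algebra k Sk] (M : Md V L k S SL Sk)

/-- Two elements which generate the same ideal at `T` are associated at `T`. -/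
theorem ct7_as_of_It [IsDomain S] {T : Set (Ideal S)} (hT : ∀ N ∈ T, N.IsPrime) {a b : S}
    (ha : a ≠ 0) (h1 : a ∈ It T hT b) (h2 : b ∈ It T hT a) : As T a b := by
  obtain ⟨s, hs, y, hy⟩ := h1
  obtain ⟨s', hs', y', hy'⟩ := h2
  have h3 : s * s' = y * y' := by
    apply mul_left_cancel₀ ha
    linear_combination s' * hy + y * hy'
  refine ⟨s, hs, y, fun N hN hyN => ?_, by rw [hy, mul_comm]⟩
  have h4 : s * s' ∈ N := by
    rw [h3]
    exact N.mul_mem_right _ hyN
  exact ((hT N hN).mem_or_mem h4).elim (hs N hN) (hs' N hN)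

/-- A unit of `V` does not change the type. -/
theorem ct7_unit {x : S} {n : ℕ} (hx : M.Ut x n) {c : V} (hc : c ∉ maximalIdeal V) :
    M.Ut (algebraMap V S c * x) n := by
  have hc0 : c ≠ 0 := fun h => hc (h ▸ (maximalIdeal V).zero_mem)
  refine ⟨?_, ?_⟩
  · rw [map_mul, M.DL.mul, M.i_alg, M.DL.d_cst, zero_add, hx.1]
    intro h
    exact hc0 (IsFractionRing.injective V L (by rw [h, map_zero]))
  · rw [map_mul, M.Dk.mul, M.q_alg, M.Dk.d_cst, zero_add, hx.2]
    intro h
    exact hc ((M.res_zero c).1 h)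

/-- Normalisation: two elements of unit type of the same degree, one of them multiplied by a unit of
`V`, have a difference of smaller degree. -/
theorem ct7_norm {x y : S} {n : ℕ} (hx : M.Ut x n) (hy : M.Ut y n) :
    ∃ c : V, c ∉ maximalIdeal V ∧ M.DL.d (M.i (algebraMap V S c * x - y)) < n := by
  obtain ⟨c, hc⟩ := M.leadV hx hy.1.le
  refine ⟨c, fun hcm => ?_, ?_⟩
  · have h1 := M.le (y - algebraMap V S c * x)
    have h2 : M.q (y - algebraMap V S c * x) = M.q y := by
      rw [map_sub, map_mul, M.q_alg, (M.res_zero c).2 hcm, map_zero, zero_mul, sub_zero]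
    rw [h2, hy.2] at h1
    exact absurd (lt_of_le_of_lt h1 hc) (lt_irrefl _)
  · have h3 : M.i (algebraMap V S c * x - y) = - M.i (y - algebraMap V S c * x) := by
      rw [← map_neg]
      congr 1
      ring
    rw [h3, M.DL.neg]
    exact hc

/-- If the ideal of the `c` with `c x ∈ (a, b)` is not contained in a maximal ideal, `x ∈ (a, b)`. -/
theorem ct7_pair {a b x : S} (h : ∀ N : Ideal S, N.IsMaximal → a ∈ N → b ∈ N →
    ∃ c, c ∉ N ∧ ∃ u v, c * x = a * u + b * v) : ∃ u v, x = a * u + b * v := by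
  let J : Ideal S :=
    { carrier := {c | ∃ u v, c * x = a * u + b * v}
      zero_mem' := ⟨0, 0, by ring⟩
      add_mem' := by
        rintro c d ⟨u, v, h⟩ ⟨u', v', h'⟩
        exact ⟨u + u', v + v', by linear_combination h + h'⟩
      smul_mem' := by
        rintro e c ⟨u, v, h⟩
        exact ⟨e * u, e * v, by rw [smul_eq_mul]; linear_combination e * h⟩ }
  by_cases hJ : J = ⊤
  · obtain ⟨u, v, huv⟩ : (1 : S) ∈ J := hJ ▸ Submodule.mem_top
    exact ⟨u, v, by rw [← huv, one_mul]⟩
  · obtain ⟨N, hN, hJN⟩ := Ideal.exists_le_maximal J hJ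
    have ha : a ∈ J := ⟨x, 0, by ring⟩
    have hb : b ∈ J := ⟨0, x, by ring⟩
    obtain ⟨c, hc, hc'⟩ := h N hN (hJN ha) (hJN hb)
    exact absurd (hJN hc') hc

/-- **Closedness.** If for all `j` there is `h'`, congruent to `h` modulo `π ^ j` up to a unit at `T`, with `g ~ h'`, then `g ~ h`.

Proof. Choose `G` of unit type of degree `N`, `As T G g` (`exists_G`) and `F j` by `eqv_F` for `h' = h' j`; multiply `F j` by a unit of `V` such that `F j - F 0` has degree `< N` (`leadV`). Let `i ≥ j`. `F i` is a multiple of `F j` modulo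
`π ^ j`: the ideal `{c | c F i ∈ (F j, π ^ j)}` is not contained in a maximal ideal `N'` (if `N' ∈ T`: both are `h` modulo `π ^ j` up to units, if `N' ∉ T` both are `G` up to units; `N' ∋ π` if `N'` contains the ideal `(F j, π ^ j)` and `j ≥ 1`). By `cl_close`
`F i - F j` is divisible by `π ^ j`. Let `F` be the limit (`cl_lim`): of unit type of degree `N`. `As T F h` by `krull` in both directions (`h ∈ (F, π ^ j)` and `F ∈ (h, π ^ j)` in the localization), `As {N'} F G` in the same way. So `g ~ h` with `x = G`, `y = F`. -/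
theorem closed [IsAdicComplete (maximalIdeal V) V] {π : V} (hπ : Irreducible π)
    {T : Set (Ideal S)} (hf : T.Finite) (hC : ∀ N ∈ T, Cs V N) {g h : S} (hg : M.q g ≠ 0)
    (hh : M.q h ≠ 0)
    (hj : ∀ j : ℕ, ∃ h' : S, M.Eqv T g h' ∧
      ∃ s ∈ St T, ∃ s' ∈ St T, ∃ z, s * h' = s' * h + algebraMap V S (π ^ j) * z) :
    M.Eqv T g h := by
  have := M.dom
  have hT : ∀ N ∈ T, N.IsPrime := fun N hN => (hC N hN).1.isPrime
  obtain ⟨N, hN⟩ := M.exists_G hf hC hg
  obtain ⟨G, hG, hGg⟩ := hN N le_rfl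
  choose h' hE t ht t' ht' z hz using hj
  choose F₀ hF₀ hF₀h hF₀G using fun j => M.eqv_F hC (hE j) hG hGg
  choose c hc hcd using fun j => M.ct7_norm (hF₀ j) (hF₀ 0)
  set F : ℕ → S := fun j => algebraMap V S (c j) * F₀ j with hFdef
  have hcu : ∀ j, IsUnit (c j) := fun j => by
    by_contra hcon
    exact hc j ((mem_maximalIdeal _).2 hcon)
  have hcS : ∀ (j : ℕ) (P : Ideal S), P.IsPrime → algebraMap V S (c j) ∉ P := fun j P hP hmem =>
    hP.ne_top (P.eq_top_of_isUnit_mem hmem ((hcu j).map (algebraMap V S)))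
  have hF : ∀ j, M.Ut (F j) N := fun j => M.ct7_unit (hF₀ j) (hc j)
  have hFh : ∀ j, As T (F j) (h' j) := by
    intro j
    obtain ⟨s, hs, s', hs', e⟩ := hF₀h j
    refine ⟨s, hs, algebraMap V S (c j) * s', st_mul hT (fun P hP => hcS j P (hT P hP)) hs', ?_⟩
    simp only [hFdef]
    linear_combination algebraMap V S (c j) * e
  have hFG : ∀ j, ∀ N' : Ideal S, Cs V N' → N' ∉ T → As {N'} (F j) G := by
    intro j N' hN' hNT
    obtain ⟨s, hs, s', hs', e⟩ := hF₀G j N' hN' hNT
    have hT' : ∀ P ∈ ({N'} : Set (Ideal S)), P.IsPrime := by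
      rintro P rfl
      exact hN'.1.isPrime
    refine ⟨s, hs, algebraMap V S (c j) * s', st_mul hT' (fun P hP => hcS j P (hT' P hP)) hs', ?_⟩
    simp only [hFdef]
    linear_combination algebraMap V S (c j) * e
  have hFd : ∀ j, M.DL.d (M.i (F j - F₀ 0)) < N := fun j => hcd j
  have hFd2 : ∀ i j, M.DL.d (M.i (F i - F j)) < N := by
    intro i j
    have e1 : M.i (F i - F j) = M.i (F i - F₀ 0) - M.i (F j - F₀ 0) := by
      rw [← map_sub]
      congr 1
      ring
    rw [e1]
    exact lt_of_le_of_lt (M.DL.sub _ _) (max_lt (hFd i) (hFd j))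
  -- `F i` is a multiple of `F j` modulo `π ^ j`
  have hmul : ∀ i j, j ≤ i → ∃ u v, F i = F j * u + algebraMap V S (π ^ j) * v := by
    intro i j hij
    apply ct7_pair
    intro N' hN' hFj hπj
    have hj0 : j ≠ 0 := by
      rintro rfl
      apply hN'.ne_top
      rw [Ideal.eq_top_iff_one]
      simpa using hπj
    have hπN : algebraMap V S π ∈ N' := by
      rw [map_pow] at hπj
      exact hN'.isPrime.mem_of_pow_mem j hπj
    have hCs : Cs V N' := by
      refine ⟨hN', fun b hb => ?_⟩
      rw [hπ.maximalIdeal_eq, Ideal.mem_span_singleton] at hb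
      obtain ⟨b', rfl⟩ := hb
      rw [map_mul]
      exact N'.mul_mem_right _ hπN
    by_cases hNT : N' ∈ T
    · obtain ⟨a, ha, a', ha', ea⟩ := hFh i
      obtain ⟨b, hb, b', hb', eb⟩ := hFh j
      have hpow : algebraMap V S (π ^ i) = algebraMap V S (π ^ j) * algebraMap V S (π ^ (i - j)) := by
        rw [← map_mul, ← pow_add]
        congr 2
        omega
      have hmem : b' * t' j * t i * a ∈ St T :=
        st_mul hT (st_mul hT (st_mul hT hb' (ht' j)) (ht i)) ha
      refine ⟨b' * t' j * t i * a, hmem N' hNT, a' * t' i * t j * b,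
        a' * b' * (t' j * algebraMap V S (π ^ (i - j)) * z i - t' i * z j), ?_⟩
      have ei := hz i
      have ej := hz j
      rw [hpow] at ei
      linear_combination b' * t' j * t i * ea - a' * t' i * t j * eb + a' * b' * t' j * ei
        - a' * b' * t' i * ej
    · obtain ⟨a, ha, a', ha', ea⟩ := hFG i N' hCs hNT
      obtain ⟨b, hb, b', hb', eb⟩ := hFG j N' hCs hNT
      refine ⟨b' * a, fun hmem => ?_, a' * b, 0, by linear_combination b' * ea - a' * eb⟩
      exact (hN'.isPrime.mem_or_mem hmem).elim (hb' N' rfl) (ha N' rfl)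
  have hstep : ∀ j, ∃ w, F (j + 1) = F j + algebraMap V S (π ^ j) * w := by
    intro j
    obtain ⟨u, v, huv⟩ := hmul (j + 1) j (Nat.le_succ j)
    exact M.cl_close hπ (hF j) (hFd2 _ _) huv
  obtain ⟨F', hF'd, hF'⟩ := M.cl_lim hπ F hstep (fun j => hFd2 _ _)
  have hF'ut : M.Ut F' N := by
    refine ⟨?_, ?_⟩
    · have e1 : M.i F' = M.i (F' - F 0) + M.i (F 0) := by
        rw [← map_add]
        congr 1
        ring
      rw [e1, M.DL.add_eq (by rw [(hF 0).1]; exact hF'd), (hF 0).1]
    · obtain ⟨w, hw⟩ := hF' 1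
      have e2 : M.q (algebraMap V S π * w) = 0 := by
        rw [map_mul, M.q_alg, (M.res_zero π).2 ((mem_maximalIdeal _).2 hπ.not_isUnit), map_zero,
          zero_mul]
      rw [hw, pow_one, map_add, e2, add_zero]
      exact (hF 1).2
  have hF'0 : F' ≠ 0 := M.ut_ne hF'ut
  have hAsT : As T F' h := by
    apply ct7_as_of_It hT hF'0
    · apply M.krull hπ hf hC hT
      intro j
      obtain ⟨w, hw⟩ := hF' j
      obtain ⟨a, ha, a', ha', ea⟩ := hFh j
      refine ⟨t j * a, st_mul hT (ht j) ha, a' * t' j, a' * z j + t j * a * w, ?_⟩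
      linear_combination t j * a * hw + t j * ea + a' * hz j
    · apply M.krull hπ hf hC hT
      intro j
      obtain ⟨w, hw⟩ := hF' j
      obtain ⟨a, ha, a', ha', ea⟩ := hFh j
      refine ⟨a' * t' j, st_mul hT ha' (ht' j), t j * a, - (a' * z j + t j * a * w), ?_⟩
      linear_combination (-(t j * a)) * hw - t j * ea - a' * hz j
  have hAsN : ∀ N' : Ideal S, Cs V N' → N' ∉ T → As {N'} F' G := by
    intro N' hN' hNT
    have hT' : ∀ P ∈ ({N'} : Set (Ideal S)), P.IsPrime := by
      rintro P rfl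
      exact hN'.1.isPrime
    have hC' : ∀ P ∈ ({N'} : Set (Ideal S)), Cs V P := by
      rintro P rfl
      exact hN'
    apply ct7_as_of_It hT' hF'0
    · apply M.krull hπ (Set.finite_singleton _) hC' hT'
      intro j
      obtain ⟨w, hw⟩ := hF' j
      obtain ⟨a, ha, a', ha', ea⟩ := hFG j N' hN' hNT
      exact ⟨a, ha, a', a * w, by linear_combination a * hw + ea⟩
    · apply M.krull hπ (Set.finite_singleton _) hC' hT'
      intro j
      obtain ⟨w, hw⟩ := hF' j
      obtain ⟨a, ha, a', ha', ea⟩ := hFG j N' hN' hNT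
      exact ⟨a', ha', a, - (a * w), by linear_combination (-a) * hw - ea⟩
  refine ⟨G, F', N, hG, hF'ut, ?_, fun N' hN' hNT => (hAsN N' hN' hNT).symm⟩
  have h3 := hGg.symm.mul hT hAsT
  rwa [mul_comm G h] at h3

end Md

end CV
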