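import Pool.Agent.Lib.MP_f80667_ag.Cv.Ct6
import Pool.Agent.Lib.MP_f80667_ag.Cv.Ct7

/-!
Divisibility by a prime number `l` of small displacements, ring level. `V` is a complete discrete valuation ring, `l` is a
unit times `π ^ v`, `v < (l - 1) s`: for every `u` there is `W` with `(f - π ^ (s + v) u) f ^ l ~ (f - π ^ s W) ^ l f`.
-/

open IsLocalRing

namespace CV

section alg

variable {R : Type} [CommRing R]

/-- The binomial formula up to the second term. Proof: all other terms are divisible by `l a ^ 2` or are `(- a) ^ l`. -/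
theorem sm1_pow {l : ℕ} (hl : l.Prime) {d a : R} (X : R) (h1 : d ∣ (l : R) * a ^ 2)
    (h2 : d ∣ a ^ l) : d ∣ (X - a) ^ l - (X ^ l - (l : R) * a * X ^ (l - 1)) := by
  obtain ⟨m, rfl⟩ : ∃ m, l = m + 2 := ⟨l - 2, by have := hl.two_le; omega⟩
  have e1 : (X - a) ^ (m + 2) = ∑ i ∈ Finset.range (m + 1),
      ((-a) ^ (i + 1 + 1) * X ^ (m + 2 - (i + 1 + 1)) * ((m + 2).choose (i + 1 + 1) : R)) +
      ((-a) ^ (0 + 1) * X ^ (m + 2 - (0 + 1)) * ((m + 2).choose (0 + 1) : R)) +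
      ((-a) ^ 0 * X ^ (m + 2 - 0) * ((m + 2).choose 0 : R)) := by
    rw [← Finset.sum_range_succ' (fun i => (-a) ^ (i + 1) * X ^ (m + 2 - (i + 1)) *
      ((m + 2).choose (i + 1) : R)), ← Finset.sum_range_succ' (fun i => (-a) ^ i *
        X ^ (m + 2 - i) * ((m + 2).choose i : R)), ← add_pow]
    ring
  have e2 : (X - a) ^ (m + 2) - (X ^ (m + 2) - ((m + 2 : ℕ) : R) * a * X ^ (m + 2 - 1)) =
      ∑ i ∈ Finset.range (m + 1),
      ((-a) ^ (i + 1 + 1) * X ^ (m + 2 - (i + 1 + 1)) * ((m + 2).choose (i + 1 + 1) : R)) := by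
    rw [e1]
    simp only [zero_add, Nat.choose_one_right, Nat.choose_zero_right, pow_one, pow_zero,
      Nat.sub_zero, Nat.cast_one]
    ring
  rw [e2]
  refine Finset.dvd_sum fun i hi => ?_
  have hi' : i < m + 1 := Finset.mem_range.1 hi
  by_cases him : i = m
  · subst him
    have h3 : d ∣ (-a) ^ (i + 1 + 1) := by
      rw [neg_pow]
      exact Dvd.dvd.mul_left h2 _
    exact Dvd.dvd.mul_right (Dvd.dvd.mul_right h3 _) _
  · have h4 : (m + 2) ∣ (m + 2).choose (i + 1 + 1) :=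
      hl.dvd_choose_self (by omega) (by omega)
    obtain ⟨t, ht⟩ := h4
    have h5 : (-a) ^ (i + 1 + 1) = a ^ 2 * ((-a) ^ i) := by
      rw [pow_succ, pow_succ]
      ring
    rw [ht, h5, Nat.cast_mul]
    have h6 : a ^ 2 * (-a) ^ i * X ^ (m + 2 - (i + 1 + 1)) * (((m + 2 : ℕ) : R) * (t : R)) =
        ((m + 2 : ℕ) : R) * a ^ 2 * ((-a) ^ i * X ^ (m + 2 - (i + 1 + 1)) * (t : R)) := by
      ring
    rw [h6]
    exact Dvd.dvd.mul_right h1 _

end alg

namespace Md

variable {V L k S SL Sk : Type} [CommRing V] [IsDomain V] [IsDiscreteValuationRing V] [Field L]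
  [Field k] [Algebra V L] [IsFractionRing V L] [Algebra V k] [CommRing S] [CommRing SL]
  [CommRing Sk] [Algebra V S] [Algebra L SL] [Algebra k Sk] (M : Md V L k S SL Sk)

private theorem sm1_mem {π : V} (hπ : Irreducible π) {N : Ideal S} (hN : Cs V N) {r : ℕ}
    (hr : r ≠ 0) (x : S) : algebraMap V S (π ^ r) * x ∈ N := by
  refine Ideal.mul_mem_right _ _ (hN.2 _ ?_)
  rw [hπ.maximalIdeal_eq]
  exact Ideal.mem_span_singleton.2 (dvd_pow_self π hr)

/-- `q (f - π ^ r w) = q f`. -/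
theorem sm1_q {π : V} (hπ : Irreducible π) {r : ℕ} (hr : r ≠ 0) (f w : S) :
    M.q (f - algebraMap V S (π ^ r) * w) = M.q f := by
  obtain ⟨r', rfl⟩ := Nat.exists_eq_succ_of_ne_zero hr
  refine (M.q_eq_iff hπ).2 ⟨-(algebraMap V S (π ^ r') * w), ?_⟩
  rw [pow_succ', map_mul]
  ring

/-- **Bounded degree.** Up to a unit at `T` the element `w` in `f - π ^ r w` can be replaced by one of bounded degree. Proof: let `I = It T (f - π ^ r y)`; the elements
of degree `< n + n₀` generate the `V`-module `S / I` modulo `π` (division by `f = (f - π ^ r y) + π ^ r y`), and `S / I` is finite (`it_fin`), so they generate it; choose `h` with `y - h ∈ I`; then `f - π ^ r h ∈ I`. -/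
theorem bdd [IsAdicComplete (maximalIdeal V) V] {π : V} (hπ : Irreducible π)
    {T : Set (Ideal S)} (hf : T.Finite) (hC : ∀ N ∈ T, Cs V N) {n₀ n : ℕ} (h0 : M.Tail n₀)
    {f : S} (hfn : M.Ut f n) {r : ℕ} (hr : r ≠ 0) (y : S) :
    ∃ h : S, M.DL.d (M.i h) < (n + n₀ : ℕ) ∧
      As T (f - algebraMap V S (π ^ r) * y) (f - algebraMap V S (π ^ r) * h) := by
  classical
  have hdom := M.dom
  have hdk := M.Dk.isDomain
  have hT : ∀ N ∈ T, N.IsPrime := fun N hN => (hC N hN).1.isPrime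
  set a : S := f - algebraMap V S (π ^ r) * y with ha
  have hqf : M.q f ≠ 0 := M.Dk.ne_zero hfn.2
  have hqa : M.q a ≠ 0 := by
    rw [ha, M.sm1_q hπ hr]
    exact hqf
  have hfin := M.it_fin hf hC hT hqa
  -- the submodule of the elements of bounded degree
  let B : Submodule V S :=
    { carrier := {x | M.DL.d (M.i x) < (n + n₀ : ℕ)}
      zero_mem' := by
        change M.DL.d (M.i 0) < _
        rw [map_zero, M.DL.zero]
        exact WithBot.bot_lt_coe _
      add_mem' := fun {x y} hx hy => by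
        change M.DL.d (M.i (x + y)) < _
        rw [map_add]
        exact lt_of_le_of_lt (M.DL.add _ _) (max_lt hx hy)
      smul_mem' := fun c x hx => by
        change M.DL.d (M.i (c • x)) < _
        rw [Algebra.smul_def, map_mul, M.i_alg, ← Algebra.smul_def]
        exact lt_of_le_of_lt (M.DL.smul_le _ _) hx }
  have hB : ∀ x, x ∈ B ↔ M.DL.d (M.i x) < (n + n₀ : ℕ) := fun x => Iff.rfl
  let Qm : S →ₗ[V] S ⧸ It T hT a := (Ideal.Quotient.mkₐ V (It T hT a)).toLinearMap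
  have hQm : ∀ x, Qm x = Ideal.Quotient.mk (It T hT a) x := fun x => rfl
  have hfg : (⊤ : Submodule V (S ⧸ It T hT a)).FG := hfin.fg_top
  have hle : (⊤ : Submodule V (S ⧸ It T hT a)) ≤ B.map Qm ⊔ maximalIdeal V • ⊤ := by
    rintro x -
    obtain ⟨x, rfl⟩ := Ideal.Quotient.mk_surjective x
    obtain ⟨h, c, hh, hx⟩ := M.div h0 le_rfl hfn x
    have e1 : Ideal.Quotient.mk (It T hT a) x =
        Ideal.Quotient.mk (It T hT a) h + Ideal.Quotient.mk (It T hT a)
          (algebraMap V S (π ^ r) * (c * y)) := by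
      rw [← map_add, Ideal.Quotient.eq]
      have e2 : x - (h + algebraMap V S (π ^ r) * (c * y)) = c * a := by
        rw [hx, ha]
        ring
      rw [e2]
      refine Ideal.mul_mem_left _ _ ⟨1, st_one hT, 1, by ring⟩
    rw [e1]
    refine Submodule.add_mem_sup ⟨h, (hB h).2 hh, rfl⟩ ?_
    have e3 : Ideal.Quotient.mk (It T hT a) (algebraMap V S (π ^ r) * (c * y)) =
        (π ^ r) • Ideal.Quotient.mk (It T hT a) (c * y) := by
      rw [map_mul, Algebra.smul_def]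
      rfl
    rw [e3]
    refine Submodule.smul_mem_smul ?_ Submodule.mem_top
    rw [hπ.maximalIdeal_eq]
    exact Ideal.mem_span_singleton.2 (dvd_pow_self π hr)
  have htop := Submodule.le_of_le_smul_of_le_jacobson_bot hfg
    (IsLocalRing.maximalIdeal_le_jacobson _) hle
  obtain ⟨h, hh, hhy⟩ : Ideal.Quotient.mk (It T hT a) y ∈ B.map Qm := htop Submodule.mem_top
  rw [hQm, Ideal.Quotient.eq] at hhy
  refine ⟨h, (hB h).1 hh, ?_⟩
  obtain ⟨s, hs, b, hb⟩ := hhy
  have e4 : s * (f - algebraMap V S (π ^ r) * h) = a * (s - algebraMap V S (π ^ r) * b) := by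
    rw [ha] at hb ⊢
    linear_combination (-algebraMap V S (π ^ r)) * hb
  refine ⟨s - algebraMap V S (π ^ r) * b, fun N hN h1 => hs N hN ?_, s, hs, ?_⟩
  · have h2 := N.add_mem h1 (sm1_mem hπ (hC N hN) hr b)
    rwa [sub_add_cancel] at h2
  · rw [e4]
    ring

/-- The moving lemma with an element of bounded degree. -/
theorem clt_bdd [IsAdicComplete (maximalIdeal V) V] {π : V} (hπ : Irreducible π)
    {T : Set (Ideal S)} (hf : T.Finite) (hC : ∀ N ∈ T, Cs V N) {n₀ n : ℕ} (h0 : M.Tail n₀)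
    (hn : n₀ ≤ n) {f : S} (hfn : M.Ut f n) (hfT : ∀ N : Ideal S, Cs V N → f ∈ N → N ∈ T)
    {g₁ g₂ c : S} (hg : M.q g₁ ≠ 0) {r : ℕ} (hr : r ≠ 0)
    (hc : g₁ = g₂ + algebraMap V S (π ^ r) * c) :
    ∃ w : S, M.DL.d (M.i w) < (n + n₀ : ℕ) ∧
      M.Eqv T (g₁ * f) (g₂ * (f - algebraMap V S (π ^ r) * w)) := by
  have hdom := M.dom
  have hdk := M.Dk.isDomain
  have hT : ∀ N ∈ T, N.IsPrime := fun N hN => (hC N hN).1.isPrime
  have hqf : M.q f ≠ 0 := M.Dk.ne_zero hfn.2
  have hne : ∀ x : S, M.q x ≠ 0 → x ≠ 0 := fun x hx h => hx (by rw [h, map_zero])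
  have hg2 : M.q g₂ ≠ 0 := by
    have e : g₂ = g₁ - algebraMap V S (π ^ r) * c := by rw [hc]; ring
    rw [e, M.sm1_q hπ hr]
    exact hg
  obtain ⟨y, hy⟩ := M.clt hπ hf hC h0 hn hfn hfT hg hr hc
  obtain ⟨w, hw, hyw⟩ := M.bdd hπ hf hC h0 hfn hr y
  refine ⟨w, hw, M.eqv_trans hT ?_ hy (M.eqv_of_as hT ((As.refl hT g₂).mul hT hyw))⟩
  refine mul_ne_zero (hne _ hg2) (hne _ ?_)
  rw [M.sm1_q hπ hr]
  exact hqf

/-- One step of the iteration. -/
private theorem sm1_step [IsAdicComplete (maximalIdeal V) V] {π : V} (hπ : Irreducible π)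
    {T : Set (Ideal S)} (hf : T.Finite) (hC : ∀ N ∈ T, Cs V N) {n₀ n : ℕ} (h0 : M.Tail n₀)
    (hn : n₀ ≤ n) {f : S} (hfn : M.Ut f n) (hfT : ∀ N : Ideal S, Cs V N → f ∈ N → N ∈ T)
    {l v s : ℕ} (hl : l.Prime) {ε : Vˣ} (hlv : (l : V) = ε * π ^ v) (hs : v < (l - 1) * s)
    (j : ℕ) (X w : S) :
    ∃ w' : S, M.DL.d (M.i w') < (n + n₀ : ℕ) ∧
      M.Eqv T ((f - algebraMap V S (π ^ s) * X) ^ l * (f - algebraMap V S (π ^ (s + v + j)) * w))
        ((f - algebraMap V S (π ^ s) * (X + algebraMap V S (π ^ j * ((ε⁻¹ : Vˣ) : V)) * w)) ^ l *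
          (f - algebraMap V S (π ^ (s + v + (j + 1))) * w')) := by
  have hdom := M.dom
  have hdk := M.Dk.isDomain
  have hT : ∀ N ∈ T, N.IsPrime := fun N hN => (hC N hN).1.isPrime
  have hqf : M.q f ≠ 0 := M.Dk.ne_zero hfn.2
  have hne : ∀ x : S, M.q x ≠ 0 → x ≠ 0 := fun x hx h => hx (by rw [h, map_zero])
  have hs0 : s ≠ 0 := by
    rintro rfl
    omega
  have hl2 := hl.two_le
  set Y : S := f - algebraMap V S (π ^ s) * X with hY
  set a : S := algebraMap V S (π ^ (s + j) * ((ε⁻¹ : Vˣ) : V)) * w with ha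
  have hε : (ε : V) * ((ε⁻¹ : Vˣ) : V) = 1 := Units.mul_inv ε
  have hla : (l : S) * a = algebraMap V S (π ^ (s + v + j)) * w := by
    have e1 : (l : V) * (π ^ (s + j) * ((ε⁻¹ : Vˣ) : V)) = π ^ (s + v + j) := by
      rw [hlv]
      have e2 : (ε : V) * π ^ v * (π ^ (s + j) * ((ε⁻¹ : Vˣ) : V)) =
        ((ε : V) * ((ε⁻¹ : Vˣ) : V)) * (π ^ v * π ^ (s + j)) := by ring
      rw [e2, hε, one_mul, ← pow_add]
      congr 1
      omega
    have e3 : (l : S) = algebraMap V S (l : V) := (map_natCast _ _).symm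
    rw [ha, e3, ← mul_assoc, ← map_mul, e1]
  have hYX : f - algebraMap V S (π ^ s) * (X + algebraMap V S (π ^ j * ((ε⁻¹ : Vˣ) : V)) * w) =
      Y - a := by
    rw [hY, ha, pow_add, map_mul, map_mul, map_mul]
    ring
  -- divisibility
  have hla' : algebraMap V S (π ^ (s + v + j)) ∣ (l : S) * a := ⟨w, hla⟩
  have hsa : algebraMap V S (π ^ (s + j)) ∣ a := ⟨algebraMap V S ((ε⁻¹ : Vˣ) : V) * w, by
    rw [ha, map_mul, mul_assoc]⟩
  have hmono : ∀ {i i' : ℕ}, i ≤ i' → algebraMap V S (π ^ i) ∣ algebraMap V S (π ^ i') := by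
    intro i i' h
    exact map_dvd (algebraMap V S) (pow_dvd_pow π h)
  have hD1 : algebraMap V S (π ^ (s + v + (j + 1))) ∣ (l : S) * a ^ 2 := by
    have h1 : algebraMap V S (π ^ (s + v + j)) * algebraMap V S (π ^ (s + j)) ∣
        ((l : S) * a) * a := mul_dvd_mul hla' hsa
    rw [← map_mul, ← pow_add] at h1
    refine (hmono ?_).trans (h1.trans (dvd_of_eq (by ring)))
    omega
  have hD2 : algebraMap V S (π ^ (s + v + (j + 1))) ∣ a ^ l := by
    have h1 : algebraMap V S (π ^ (s + j)) ^ l ∣ a ^ l := pow_dvd_pow_of_dvd hsa l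
    rw [← map_pow, ← pow_mul] at h1
    refine (hmono ?_).trans h1
    have h2 : l = (l - 1) + 1 := by omega
    have h3 : (s + j) * l = (l - 1) * s + (l - 1) * j + (s + j) := by
      conv_lhs => rw [h2]
      ring
    rw [h3]
    have h4 : 0 ≤ (l - 1) * j := Nat.zero_le _
    omega
  have hD3 : algebraMap V S (π ^ (s + v + (j + 1))) ∣ (l : S) * a * (algebraMap V S (π ^ s) * X) := by
    have h1 : algebraMap V S (π ^ (s + v + j)) * algebraMap V S (π ^ s) ∣
        ((l : S) * a) * (algebraMap V S (π ^ s) * X) := mul_dvd_mul hla' (dvd_mul_right _ _)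
    rw [← map_mul, ← pow_add] at h1
    refine (hmono ?_).trans h1
    omega
  have hD : algebraMap V S (π ^ (s + v + (j + 1))) ∣
      Y ^ l * (f - algebraMap V S (π ^ (s + v + j)) * w) - (Y - a) ^ l * f := by
    have h1 := sm1_pow hl Y hD1 hD2
    have h2 : Y ^ l = Y ^ (l - 1) * Y := by
      rw [← pow_succ]
      congr 1
      omega
    have e : Y ^ l * (f - algebraMap V S (π ^ (s + v + j)) * w) - (Y - a) ^ l * f =
        (l : S) * a * (algebraMap V S (π ^ s) * X) * Y ^ (l - 1) -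
          ((Y - a) ^ l - (Y ^ l - (l : S) * a * Y ^ (l - 1))) * f := by
      rw [← hla, h2]
      have h3 : algebraMap V S (π ^ s) * X = f - Y := by rw [hY]; ring
      rw [h3]
      ring
    rw [e]
    exact dvd_sub (Dvd.dvd.mul_right hD3 _) (Dvd.dvd.mul_right h1 _)
  obtain ⟨c, hc⟩ := hD
  have hqY : M.q Y = M.q f := M.sm1_q hπ hs0 f X
  obtain ⟨w', hw', hE⟩ := M.clt_bdd hπ hf hC h0 hn hfn hfT
    (g₁ := Y ^ l * (f - algebraMap V S (π ^ (s + v + j)) * w)) (g₂ := (Y - a) ^ l * f) (c := c)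
    (by
      rw [map_mul, map_pow, hqY, M.sm1_q hπ (by omega)]
      exact mul_ne_zero (pow_ne_zero _ hqf) hqf)
    (r := s + v + (j + 1)) (by omega) (by linear_combination hc)
  refine ⟨w', hw', ?_⟩
  rw [hYX]
  have hf0 : f ≠ 0 := hne f hqf
  refine M.eqv_cancel hf0 ?_
  have e5 : (Y - a) ^ l * (f - algebraMap V S (π ^ (s + v + (j + 1))) * w') * f =
      (Y - a) ^ l * f * (f - algebraMap V S (π ^ (s + v + (j + 1))) * w') := by ring
  rw [e5]
  exact hE

/-- **Small displacements are divisible.** `l` is a unit times `π ^ v` and `v < (l - 1) s`. Proof: iterate `sm1_step`: `(f - π ^ (s + v) u) f ^ l ~ (f - π ^ s X_j) ^ l (f - π ^ (s + v + j) w_j)`, where `X_(j+1) = X_j + π ^ j w_j / ε` has bounded degree; `X_j`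
converges (`cl_lim`), and `closed`. -/
theorem small [IsAdicComplete (maximalIdeal V) V] {π : V} (hπ : Irreducible π)
    {T : Set (Ideal S)} (hf : T.Finite) (hC : ∀ N ∈ T, Cs V N) {n₀ n : ℕ} (h0 : M.Tail n₀)
    (hn : n₀ ≤ n) {f : S} (hfn : M.Ut f n) (hfT : ∀ N : Ideal S, Cs V N → f ∈ N → N ∈ T)
    {l v s : ℕ} (hl : l.Prime) {ε : Vˣ} (hlv : (l : V) = ε * π ^ v) (hs : v < (l - 1) * s)
    (u : S) :
    ∃ X : S, M.Eqv T ((f - algebraMap V S (π ^ (s + v)) * u) * f ^ l)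
      ((f - algebraMap V S (π ^ s) * X) ^ l * f) := by
  classical
  have hdom := M.dom
  have hdk := M.Dk.isDomain
  have hT : ∀ N ∈ T, N.IsPrime := fun N hN => (hC N hN).1.isPrime
  have hqf : M.q f ≠ 0 := M.Dk.ne_zero hfn.2
  have hne : ∀ x : S, M.q x ≠ 0 → x ≠ 0 := fun x hx h => hx (by rw [h, map_zero])
  have hs0 : s ≠ 0 := by
    rintro rfl
    omega
  have hsv : s + v ≠ 0 := by omega
  choose W' hW' hE using fun (j : ℕ) (p : S × S) =>
    M.sm1_step hπ hf hC h0 hn hfn hfT hl hlv hs j p.1 p.2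
  obtain ⟨w₀, hw₀, hA₀⟩ := M.bdd hπ hf hC h0 hfn hsv u
  let p : ℕ → S × S := fun j => Nat.rec (0, w₀)
    (fun j q => (q.1 + algebraMap V S (π ^ j * ((ε⁻¹ : Vˣ) : V)) * q.2, W' j q)) j
  have hp0 : p 0 = (0, w₀) := rfl
  have hp : ∀ j, p (j + 1) =
      ((p j).1 + algebraMap V S (π ^ j * ((ε⁻¹ : Vˣ) : V)) * (p j).2, W' j (p j)) := fun j => rfl
  have hdeg : ∀ j, M.DL.d (M.i (p j).2) < (n + n₀ : ℕ) := by
    intro j
    cases j with
    | zero => exact hw₀
    | succ j => rw [hp]; exact hW' j (p j)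
  have hEq : ∀ j, M.Eqv T ((f - algebraMap V S (π ^ (s + v)) * u) * f ^ l)
      ((f - algebraMap V S (π ^ s) * (p j).1) ^ l *
        (f - algebraMap V S (π ^ (s + v + j)) * (p j).2)) := by
    intro j
    induction j with
    | zero =>
      rw [hp0, mul_zero, sub_zero, add_zero, mul_comm]
      exact M.eqv_of_as hT ((As.refl hT _).mul hT hA₀)
    | succ j ih =>
      rw [hp]
      refine M.eqv_trans hT ?_ ih (hE j (p j))
      refine mul_ne_zero (pow_ne_zero _ (hne _ ?_)) (hne _ ?_)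
      · rw [M.sm1_q hπ hs0]
        exact hqf
      · rw [M.sm1_q hπ (by omega)]
        exact hqf
  obtain ⟨X, -, hX⟩ := M.cl_lim hπ (N := n + n₀) (fun j => (p j).1)
    (fun j => ⟨algebraMap V S ((ε⁻¹ : Vˣ) : V) * (p j).2, by
      simp only [hp]
      rw [map_mul]
      ring⟩)
    (fun j => by
      simp only [hp]
      rw [add_sub_cancel_left, map_mul, M.i_alg, ← Algebra.smul_def]
      exact lt_of_le_of_lt (M.DL.smul_le _ _) (hdeg j))
  refine ⟨X, M.closed hπ hf hC ?_ ?_ ?_⟩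
  · rw [map_mul, M.sm1_q hπ hsv, map_pow M.q]
    exact mul_ne_zero hqf (pow_ne_zero _ hqf)
  · rw [map_mul, map_pow M.q, M.sm1_q hπ hs0]
    exact mul_ne_zero (pow_ne_zero _ hqf) hqf
  · intro j
    refine ⟨_, hEq j, 1, st_one hT, 1, st_one hT, ?_⟩
    have hd : algebraMap V S (π ^ j) ∣ (f - algebraMap V S (π ^ s) * (p j).1) ^ l *
        (f - algebraMap V S (π ^ (s + v + j)) * (p j).2) -
          (f - algebraMap V S (π ^ s) * X) ^ l * f := by
      obtain ⟨z, hz⟩ := hX j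
      have h1 : algebraMap V S (π ^ j) ∣ (f - algebraMap V S (π ^ s) * (p j).1) ^ l -
          (f - algebraMap V S (π ^ s) * X) ^ l := by
        refine dvd_trans ?_ (sub_dvd_pow_sub_pow _ _ l)
        refine ⟨algebraMap V S (π ^ s) * z, ?_⟩
        rw [hz]
        ring
      have h2 : algebraMap V S (π ^ j) ∣ algebraMap V S (π ^ (s + v + j)) :=
        map_dvd (algebraMap V S) (pow_dvd_pow π (by omega))
      have e : (f - algebraMap V S (π ^ s) * (p j).1) ^ l *
          (f - algebraMap V S (π ^ (s + v + j)) * (p j).2) -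
            (f - algebraMap V S (π ^ s) * X) ^ l * f =
          ((f - algebraMap V S (π ^ s) * (p j).1) ^ l - (f - algebraMap V S (π ^ s) * X) ^ l) * f -
            algebraMap V S (π ^ (s + v + j)) *
              ((f - algebraMap V S (π ^ s) * (p j).1) ^ l * (p j).2) := by ring
      rw [e]
      exact dvd_sub (Dvd.dvd.mul_right h1 _) (Dvd.dvd.mul_right h2 _)
    obtain ⟨z, hz⟩ := hd
    exact ⟨z, by linear_combination hz⟩

/-- The case of a unit `l`, after cancelling `f`. -/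
theorem small_unit [IsAdicComplete (maximalIdeal V) V] {π : V} (hπ : Irreducible π)
    {T : Set (Ideal S)} (hf : T.Finite) (hC : ∀ N ∈ T, Cs V N) {n₀ n : ℕ} (h0 : M.Tail n₀)
    (hn : n₀ ≤ n) {f : S} (hfn : M.Ut f n) (hfT : ∀ N : Ideal S, Cs V N → f ∈ N → N ∈ T)
    {l s : ℕ} (hl : l.Prime) (hlu : IsUnit (l : V)) (hs : s ≠ 0) (u : S) :
    ∃ X : S, M.Eqv T ((f - algebraMap V S (π ^ s) * u) * f ^ (l - 1))
      ((f - algebraMap V S (π ^ s) * X) ^ l) := by
  have hdom := M.dom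
  have hne : ∀ x : S, M.q x ≠ 0 → x ≠ 0 := fun x hx h => hx (by rw [h, map_zero])
  have hqf : M.q f ≠ 0 := M.Dk.ne_zero hfn.2
  obtain ⟨ε, hε⟩ := hlu
  have hl2 := hl.two_le
  obtain ⟨X, hX⟩ := M.small hπ hf hC h0 hn hfn hfT hl (v := 0) (s := s) (ε := ε)
    (by rw [hε, pow_zero, mul_one]) (Nat.mul_pos (by omega) (Nat.pos_of_ne_zero hs)) u
  refine ⟨X, M.eqv_cancel (hne f hqf) ?_⟩
  have e : (f - algebraMap V S (π ^ s) * u) * f ^ (l - 1) * f =
      (f - algebraMap V S (π ^ (s + 0)) * u) * f ^ l := by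
    have h1 : f ^ l = f ^ (l - 1) * f := by
      rw [← pow_succ]
      congr 1
      omega
    rw [h1, add_zero]
    ring
  rw [e]
  exact hX

end Md

end CV
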