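import Mathlib
import Pool.Agent.Lib.MP_f80667_ag.Hens

/-! # Limits, the contraction principle and Newton's lemma in several variables

Over an `I`-adically complete ring `R`.

* `adic_limit`: a sequence of vectors with `b (n+1) - b n ∈ I^n` has a limit.
* `exists_fix`, `fix_unique`: a map of vectors which gains one power of `I` on differences has
  exactly one fixed vector.
* `newton_zero`: `F` a system of polynomials, `a` a vector, `W` a matrix with
  `J(a) W = π^e` and `F(a) ∈ π^(2e+1)`: there is a zero `b` with `b - a ∈ π^(e+1)`.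
* `newton_unique`: if moreover `W J(a) = π^e` and `π` is not a zero divisor, the zero is unique
  among the vectors congruent to `a` modulo `π^(e+1)`. -/

set_option autoImplicit false

namespace CV

open MvPolynomial Pool.Agent.Lib.MP_f80667_ag

variable {R : Type*} [CommRing R] {σ τ : Type*}

theorem smod_iff (I : Ideal R) (n : ℕ) (x y : R) :
    x ≡ y [SMOD (I ^ n • ⊤ : Submodule R R)] ↔ x - y ∈ I ^ n := by
  rw [SModEq.sub_mem, smul_eq_mul, Ideal.mul_top]

/-- A sequence of vectors with small steps is a Cauchy sequence. -/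
theorem step_le (I : Ideal R) (b : ℕ → τ → R) (h : ∀ n k, b (n + 1) k - b n k ∈ I ^ n)
    {m n : ℕ} (hmn : m ≤ n) (k : τ) : b n k - b m k ∈ I ^ m := by
  induction n, hmn using Nat.le_induction with
  | base => rw [sub_self]; exact Ideal.zero_mem _
  | succ n hmn ih =>
    have e : b (n + 1) k - b m k = (b (n + 1) k - b n k) + (b n k - b m k) := by ring
    rw [e]
    exact Ideal.add_mem _ (Ideal.pow_le_pow_right hmn (h n k)) ih

/-- Limits of sequences of vectors. -/
theorem adic_limit (I : Ideal R) [IsAdicComplete I R] (b : ℕ → τ → R)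
    (h : ∀ n k, b (n + 1) k - b n k ∈ I ^ n) : ∃ L : τ → R, ∀ n k, L k - b n k ∈ I ^ n := by
  have hlim : ∀ k, ∃ L : R, ∀ n, b n k - L ∈ I ^ n := by
    intro k
    obtain ⟨L, hL⟩ := IsPrecomplete.prec (inferInstance : IsPrecomplete I R)
      (f := fun n => b n k)
      (fun {m n} hmn => (smod_iff I m _ _).2 (by
        have := step_le I b h hmn k
        rw [← neg_sub]
        exact neg_mem this))
    exact ⟨L, fun n => (smod_iff I n _ _).1 (hL n)⟩
  choose L hL using hlim
  refine ⟨L, fun n k => ?_⟩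
  rw [← neg_sub]
  exact neg_mem (hL k n)

/-- An element in all powers is zero. -/
theorem eq_zero_of_mem (I : Ideal R) [IsAdicComplete I R] {x : R} (h : ∀ n, x ∈ I ^ n) :
    x = 0 := by
  apply IsHausdorff.haus (inferInstance : IsHausdorff I R)
  intro n
  rw [smod_iff, sub_zero]
  exact h n

/-- **Contraction principle**: existence of a fixed vector. -/
theorem exists_fix (I : Ideal R) [IsAdicComplete I R] (f : (τ → R) → τ → R)
    (hf : ∀ (n : ℕ) (x y : τ → R), (∀ k, x k - y k ∈ I ^ n) →
      ∀ k, f x k - f y k ∈ I ^ (n + 1)) (a : τ → R) :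
    ∃ b : τ → R, f b = b ∧ ∀ (n : ℕ) (k : τ), b k - (f^[n] a) k ∈ I ^ n := by
  have h0 : ∀ n k, (f^[n + 1] a) k - (f^[n] a) k ∈ I ^ n := by
    intro n
    induction n with
    | zero => intro k; rw [pow_zero, Ideal.one_eq_top]; exact Submodule.mem_top
    | succ n ih =>
      intro k
      rw [Function.iterate_succ_apply', Function.iterate_succ_apply']
      exact hf n _ _ (by rw [← Function.iterate_succ_apply' (f := f)]; exact ih) k
  obtain ⟨L, hL⟩ := adic_limit I (fun n => f^[n] a) h0
  refine ⟨L, funext fun k => ?_, hL⟩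
  refine sub_eq_zero.1 (eq_zero_of_mem I fun n => ?_)
  have h1 := hf n L (f^[n] a) (hL n) k
  have h2 := hL (n + 1) k
  have e : f L k - L k = (f L k - f (f^[n] a) k) - (L k - (f^[n + 1] a) k) := by
    rw [Function.iterate_succ_apply']
    ring
  rw [e]
  exact Ideal.pow_le_pow_right (Nat.le_succ n) (sub_mem h1 h2)

/-- Uniqueness of the fixed vector. -/
theorem fix_unique (I : Ideal R) [IsAdicComplete I R] (f : (τ → R) → τ → R)
    (hf : ∀ (n : ℕ) (x y : τ → R), (∀ k, x k - y k ∈ I ^ n) →
      ∀ k, f x k - f y k ∈ I ^ (n + 1)) {x y : τ → R} (hx : f x = x) (hy : f y = y) : x = y := by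
  have h : ∀ n k, x k - y k ∈ I ^ n := by
    intro n
    induction n with
    | zero => intro k; rw [pow_zero, Ideal.one_eq_top]; exact Submodule.mem_top
    | succ n ih =>
      intro k
      have := hf n x y ih k
      rwa [hx, hy] at this
  exact funext fun k => sub_eq_zero.1 (eq_zero_of_mem I fun n => h n k)

section Newton

variable [Fintype σ] [DecidableEq σ] [Fintype τ]

/-- One step of the iteration. -/
theorem newton_step (π : R) (e : ℕ) (F : σ → MvPolynomial τ R) (a : τ → R) (W : τ → σ → R)
    (hW : ∀ i j, ∑ k, eval a (pderiv k (F i)) * W k j = if i = j then π ^ e else 0) (n : ℕ)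
    (b : τ → R) (hb : ∀ k, π ^ (e + 1) ∣ b k - a k)
    (hF : ∀ i, π ^ (2 * e + 1 + n) ∣ eval b (F i)) :
    ∃ b' : τ → R, (∀ k, π ^ (e + 1 + n) ∣ b' k - b k) ∧
      ∀ i, π ^ (2 * e + 1 + (n + 1)) ∣ eval b' (F i) := by
  choose u hu using hF
  -- the correction
  set v : σ → R := fun i => π ^ (e + 1 + n) * u i with hv
  set h : τ → R := fun k => -∑ j, W k j * v j with hh
  have hhm : ∀ k, h k ∈ Ideal.span {π ^ (e + 1 + n)} := by
    intro k
    rw [hh]
    refine neg_mem (sum_mem fun j _ => Ideal.mul_mem_left _ _ ?_)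
    rw [hv]
    exact Ideal.mul_mem_right _ _ (Ideal.mem_span_singleton_self _)
  refine ⟨fun k => b k + h k, fun k => ?_, fun i => ?_⟩
  · rw [add_sub_cancel_left]
    exact Ideal.mem_span_singleton.1 (hhm k)
  · have h1 := taylor_mem (Ideal.span {π ^ (e + 1 + n)}) (F i) b h hhm
    rw [Ideal.span_singleton_pow, Ideal.mem_span_singleton, ← pow_mul] at h1
    have h1' : π ^ (2 * e + 1 + (n + 1)) ∣ eval (fun k => b k + h k) (F i) - eval b (F i) -
        ∑ k, eval b (pderiv k (F i)) * h k := (pow_dvd_pow _ (by omega)).trans h1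
    -- the linear term
    have h2 : ∑ k, eval b (pderiv k (F i)) * h k =
        -∑ j, (∑ k, eval b (pderiv k (F i)) * W k j) * v j := by
      rw [hh]
      simp only [Finset.mul_sum, mul_neg, Finset.sum_neg_distrib, Finset.sum_mul]
      rw [Finset.sum_comm]
      congr 1
      exact Finset.sum_congr rfl fun j _ => Finset.sum_congr rfl fun k _ => by ring
    have h3 : ∀ j, π ^ (e + 1) ∣ (∑ k, eval b (pderiv k (F i)) * W k j) -
        (if i = j then π ^ e else 0) := by
      intro j
      rw [← hW i j, ← Finset.sum_sub_distrib]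
      refine Finset.dvd_sum fun k _ => ?_
      rw [← sub_mul]
      refine Dvd.dvd.mul_right ?_ _
      rw [← Ideal.mem_span_singleton]
      exact eval_sub_eval_mem _ _ _ _ fun k => Ideal.mem_span_singleton.2 (hb k)
    have h4 : π ^ (2 * e + 1 + (n + 1)) ∣
        ∑ j, ((∑ k, eval b (pderiv k (F i)) * W k j) - (if i = j then π ^ e else 0)) * v j := by
      refine Finset.dvd_sum fun j _ => ?_
      have e1 : 2 * e + 1 + (n + 1) = (e + 1) + (e + 1 + n) := by ring
      rw [e1, pow_add]
      exact mul_dvd_mul (h3 j) (by rw [hv]; exact Dvd.intro _ rfl)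
    have h5 : eval b (F i) = ∑ j, (if i = j then π ^ e else 0) * v j := by
      rw [hu i, hv]
      simp only [ite_mul, zero_mul, Finset.sum_ite_eq, Finset.mem_univ, if_true]
      have e1 : 2 * e + 1 + n = e + (e + 1 + n) := by ring
      rw [e1, pow_add, mul_assoc]
    have h6 : eval (fun k => b k + h k) (F i) =
        (eval (fun k => b k + h k) (F i) - eval b (F i) - ∑ k, eval b (pderiv k (F i)) * h k) -
        ∑ j, ((∑ k, eval b (pderiv k (F i)) * W k j) - (if i = j then π ^ e else 0)) * v j := by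
      simp only [sub_mul, Finset.sum_sub_distrib]
      rw [← h5, h2]
      ring
    rw [h6]
    exact dvd_sub h1' h4

/-- **Newton's lemma in several variables** (existence): `J(a) W = π^e` and
`F(a) ≡ 0` modulo `π^(2e+1)`. -/
theorem newton_zero (π : R) [IsAdicComplete (Ideal.span {π}) R] (e : ℕ)
    (F : σ → MvPolynomial τ R) (a : τ → R) (W : τ → σ → R)
    (hW : ∀ i j, ∑ k, eval a (pderiv k (F i)) * W k j = if i = j then π ^ e else 0)
    (hF : ∀ i, π ^ (2 * e + 1) ∣ eval a (F i)) :
    ∃ b : τ → R, (∀ k, π ^ (e + 1) ∣ b k - a k) ∧ ∀ i, eval b (F i) = 0 := by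
  classical
  -- the states of the iteration
  let P : ℕ → (τ → R) → Prop := fun n b =>
    (∀ k, π ^ (e + 1) ∣ b k - a k) ∧ ∀ i, π ^ (2 * e + 1 + n) ∣ eval b (F i)
  have step : ∀ n (b : {b // P n b}), ∃ b' : {b // P (n + 1) b},
      ∀ k, π ^ (e + 1 + n) ∣ b'.1 k - b.1 k := by
    rintro n ⟨b, hb, hFb⟩
    obtain ⟨b', h1, h2⟩ := newton_step π e F a W hW n b hb hFb
    refine ⟨⟨b', fun k => ?_, h2⟩, h1⟩
    have e1 : b' k - a k = (b' k - b k) + (b k - a k) := by ring
    rw [e1]
    exact dvd_add ((pow_dvd_pow _ (by omega)).trans (h1 k)) (hb k)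
  choose nx hnx using step
  let s : (n : ℕ) → {b // P n b} := fun n => Nat.rec
    (motive := fun n => {b // P n b}) ⟨a, fun k => by rw [sub_self]; exact dvd_zero _,
      fun i => by simpa using hF i⟩ (fun n b => nx n b) n
  have hs : ∀ n, s (n + 1) = nx n (s n) := fun n => rfl
  have hstep : ∀ n k, π ^ (e + 1 + n) ∣ (s (n + 1)).1 k - (s n).1 k := fun n k => by
    rw [hs]; exact hnx n (s n) k
  have hmem : ∀ (n : ℕ) (x : R), x ∈ Ideal.span {π} ^ n ↔ π ^ n ∣ x := fun n x => by
    rw [Ideal.span_singleton_pow, Ideal.mem_span_singleton]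
  -- the limit, with one index shifted by `e + 1`
  obtain ⟨L, hL⟩ := adic_limit (Ideal.span {π}) (fun n => (s n).1) (fun n k => (hmem n _).2
    ((pow_dvd_pow _ (by omega)).trans (hstep n k)))
  refine ⟨L, fun k => ?_, fun i => eq_zero_of_mem (Ideal.span {π}) fun n => ?_⟩
  · have h1 := (hmem (e + 1) _).1 (hL (e + 1) k)
    have h2 := (s (e + 1)).2.1 k
    have e1 : L k - a k = (L k - (s (e + 1)).1 k) + ((s (e + 1)).1 k - a k) := by ring
    rw [e1]
    exact dvd_add h1 h2
  · have h1 := eval_sub_eval_mem (Ideal.span {π} ^ n) (F i) L (s n).1 (fun k => hL n k)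
    have h2 : eval (s n).1 (F i) ∈ Ideal.span {π} ^ n :=
      (hmem n _).2 ((pow_dvd_pow _ (by omega)).trans ((s n).2.2 i))
    have e1 : eval L (F i) = (eval L (F i) - eval (s n).1 (F i)) + eval (s n).1 (F i) := by ring
    rw [e1]
    exact add_mem h1 h2

omit [DecidableEq σ] in
/-- **Newton's lemma** (uniqueness): `W J(a) = π^e`, `π` not a zero divisor. -/
theorem newton_unique (π : R) (hπ : π ∈ nonZeroDivisors R) [IsAdicComplete (Ideal.span {π}) R]
    [DecidableEq τ] (e : ℕ) (F : σ → MvPolynomial τ R) (a : τ → R) (W : τ → σ → R)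
    (hW : ∀ k l, ∑ i, W k i * eval a (pderiv l (F i)) = if k = l then π ^ e else 0)
    {b b' : τ → R} (hb : ∀ k, π ^ (e + 1) ∣ b k - a k) (hb' : ∀ k, π ^ (e + 1) ∣ b' k - a k)
    (hF : ∀ i, eval b (F i) = eval b' (F i)) : b = b' := by
  have hmem : ∀ (n : ℕ) (x : R), x ∈ Ideal.span {π} ^ n ↔ π ^ n ∣ x := fun n x => by
    rw [Ideal.span_singleton_pow, Ideal.mem_span_singleton]
  have key : ∀ n k, π ^ (e + 1 + n) ∣ b' k - b k := by
    intro n
    induction n with
    | zero =>
      intro k
      have e1 : b' k - b k = (b' k - a k) - (b k - a k) := by ring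
      rw [e1]
      exact dvd_sub (hb' k) (hb k)
    | succ n ih =>
      intro k
      have h1 : ∀ i, π ^ (2 * (e + 1 + n)) ∣ ∑ l, eval b (pderiv l (F i)) * (b' l - b l) := by
        intro i
        have h2 := taylor_mem (Ideal.span {π ^ (e + 1 + n)}) (F i) b (fun l => b' l - b l)
          (fun l => Ideal.mem_span_singleton.2 (ih l))
        rw [Ideal.span_singleton_pow, Ideal.mem_span_singleton, ← pow_mul,
          mul_comm (e + 1 + n)] at h2
        have e1 : (fun k => b k + (b' k - b k)) = b' := funext fun k => by ring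
        rw [e1, ← hF i, sub_self, zero_sub] at h2
        exact (dvd_neg).1 h2
      have h3 : π ^ e * (b' k - b k) =
          ∑ i, W k i * ∑ l, eval b (pderiv l (F i)) * (b' l - b l) -
          ∑ l, (∑ i, W k i * (eval b (pderiv l (F i)) - eval a (pderiv l (F i)))) *
            (b' l - b l) := by
        have h4 : ∑ i, W k i * ∑ l, eval b (pderiv l (F i)) * (b' l - b l) =
            ∑ l, (∑ i, W k i * eval b (pderiv l (F i))) * (b' l - b l) := by
          simp only [Finset.mul_sum, Finset.sum_mul]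
          rw [Finset.sum_comm]
          exact Finset.sum_congr rfl fun l _ => Finset.sum_congr rfl fun i _ => by ring
        have h5 : ∑ l, (∑ i, W k i * eval a (pderiv l (F i))) * (b' l - b l) =
            π ^ e * (b' k - b k) := by
          simp only [hW, ite_mul, zero_mul, Finset.sum_ite_eq, Finset.mem_univ, if_true]
        rw [h4, ← h5, ← Finset.sum_sub_distrib]
        refine Finset.sum_congr rfl fun l _ => ?_
        rw [← sub_mul, ← Finset.sum_sub_distrib]
        congr 1
        exact Finset.sum_congr rfl fun i _ => by ring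
      have h6 : π ^ (e + (e + 1 + (n + 1))) ∣ π ^ e * (b' k - b k) := by
        rw [h3]
        refine dvd_sub (Finset.dvd_sum fun i _ => Dvd.dvd.mul_left
          ((pow_dvd_pow _ (by omega)).trans (h1 i)) _) (Finset.dvd_sum fun l _ => ?_)
        have e1 : e + (e + 1 + (n + 1)) = (e + 1) + (e + 1 + n) := by ring
        rw [e1, pow_add]
        refine mul_dvd_mul (Finset.dvd_sum fun i _ => Dvd.dvd.mul_left ?_ _) (ih l)
        rw [← Ideal.mem_span_singleton]
        exact eval_sub_eval_mem _ _ _ _ fun k => Ideal.mem_span_singleton.2 (hb k)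
      obtain ⟨c, hc⟩ := h6
      rw [pow_add, mul_assoc] at hc
      have h7 : π ^ e ∈ nonZeroDivisors R := pow_mem hπ e
      exact ⟨c, (mul_cancel_left_mem_nonZeroDivisors h7).1 hc⟩
  funext k
  refine (sub_eq_zero.1 (eq_zero_of_mem (Ideal.span {π}) fun n => ?_)).symm
  exact (hmem n _).2 ((pow_dvd_pow _ (by omega)).trans (key n k))

end Newton

end CV
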