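import Pool.Agent.Lib.MP_f80667_ag.Cv.Ct1
import Pool.Agent.Lib.MP_f80667_ag.Cv.Newton

/-!
Idempotents.
-/

open IsLocalRing

namespace CV

namespace Ct4

/-- Chinese remainders for finitely many maximal ideals. -/
theorem crt {S : Type*} [CommRing S] {F : Set (Ideal S)} (hF : F.Finite)
    (hm : ∀ N ∈ F, N.IsMaximal) (g : Ideal S → S) : ∃ x, ∀ N ∈ F, x - g N ∈ N := by
  have := hF.to_subtype
  obtain ⟨x, hx⟩ := Ideal.exists_forall_sub_mem_ideal (I := fun N : F => (N : Ideal S))
    (fun N N' hne => by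
      have h1 := hm N.1 N.2
      have h2 := hm N'.1 N'.2
      exact Ideal.isCoprime_of_isMaximal (fun h => hne (Subtype.ext h))) (fun N => g N)
  exact ⟨x, fun N hN => hx ⟨N, hN⟩⟩

/-- One step of the iteration for idempotents. -/
theorem step {C : Type*} [CommRing C] (e : C) :
    (3 * e ^ 2 - 2 * e ^ 3) - e = (e ^ 2 - e) * (1 - 2 * e) ∧
    (3 * e ^ 2 - 2 * e ^ 3) ^ 2 - (3 * e ^ 2 - 2 * e ^ 3) =
      (e ^ 2 - e) ^ 2 * (4 * (e ^ 2 - e) - 3) := by
  constructor <;> ring

/-- Lifting of idempotents in an algebra which is finite and torsion free over a complete discrete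
valuation ring. -/
theorem lift_idem {V C : Type*} [CommRing V] [IsDomain V] [IsDiscreteValuationRing V]
    [IsAdicComplete (maximalIdeal V) V] [CommRing C] [Algebra V C] [Module.Finite V C]
    [Module.IsTorsionFree V C] {π : V} (hπ : Irreducible π) (y : C) {m : ℕ}
    (hy : (y ^ 2 - y) ^ m ∈ Ideal.span {algebraMap V C π}) :
    ∃ e : C, e ^ 2 = e ∧ e - y ∈ Ideal.span {y ^ 2 - y} ⊔ Ideal.span {algebraMap V C π} := by
  classical
  set p : C := algebraMap V C π with hp
  have hmax : maximalIdeal V = Ideal.span {π} := hπ.maximalIdeal_eq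
  let f : ℕ → C := fun j => Nat.rec y (fun _ e => 3 * e ^ 2 - 2 * e ^ 3) j
  have f0 : f 0 = y := rfl
  have fs : ∀ j, f (j + 1) = 3 * f j ^ 2 - 2 * f j ^ 3 := fun j => rfl
  -- the defects
  have h1 : ∀ j, (y ^ 2 - y) ^ (2 ^ j) ∣ f j ^ 2 - f j := by
    intro j
    induction j with
    | zero => rw [f0]; simp
    | succ j ih =>
      rw [fs, (step (f j)).2, pow_succ 2 j, pow_mul]
      exact Dvd.dvd.mul_right (pow_dvd_pow_of_dvd ih 2) _
  have h2 : ∀ j, (y ^ 2 - y) ∣ f j - y := by
    intro j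
    induction j with
    | zero => rw [f0]; simp
    | succ j ih =>
      have e : f (j + 1) - y = (f (j + 1) - f j) + (f j - y) := by ring
      rw [e]
      refine dvd_add ?_ ih
      rw [fs, (step (f j)).1]
      exact Dvd.dvd.mul_right ((dvd_pow_self _ (by positivity)).trans (h1 j)) _
  have hy' : p ∣ (y ^ 2 - y) ^ m := Ideal.mem_span_singleton.1 hy
  -- start at step `m`
  have h3 : ∀ j, p ^ j ∣ f (m + j) ^ 2 - f (m + j) := by
    intro j
    refine dvd_trans ?_ (h1 (m + j))
    have hle : m * j ≤ 2 ^ (m + j) := by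
      rw [pow_add]
      exact Nat.mul_le_mul (Nat.lt_two_pow_self).le (Nat.lt_two_pow_self).le
    refine dvd_trans ?_ (pow_dvd_pow _ hle)
    rw [pow_mul]
    exact pow_dvd_pow_of_dvd hy' j
  have h4 : ∀ j, p ^ j ∣ f (m + j + 1) - f (m + j) := by
    intro j
    rw [fs, (step (f (m + j))).1]
    exact Dvd.dvd.mul_right (h3 j) _
  obtain ⟨n, b⟩ := Module.basisOfFiniteTypeTorsionFree' (R := V) (M := C)
  have hcoord : ∀ (j : ℕ) (z : C), p ^ j ∣ z → ∀ k, b.repr z k ∈ maximalIdeal V ^ j := by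
    rintro j z ⟨w, rfl⟩ k
    have e : p ^ j * w = (π ^ j) • w := by rw [Algebra.smul_def, map_pow]
    rw [e, map_smul, Finsupp.smul_apply, smul_eq_mul, hmax, Ideal.span_singleton_pow]
    exact Ideal.mul_mem_right _ _ (Ideal.mem_span_singleton_self _)
  have hcoord' : ∀ (j : ℕ) (z : C), (∀ k, b.repr z k ∈ maximalIdeal V ^ j) → p ^ j ∣ z := by
    intro j z hz
    have hz' : ∀ k, ∃ w, b.repr z k = π ^ j * w := by
      intro k
      have := hz k
      rw [hmax, Ideal.span_singleton_pow, Ideal.mem_span_singleton] at this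
      exact this
    choose w hw using hz'
    have e := b.sum_repr z
    rw [← e]
    refine Finset.dvd_sum fun k _ => ?_
    rw [hw, mul_smul, Algebra.smul_def, map_pow]
    exact Dvd.intro _ rfl
  obtain ⟨l, hl⟩ := adic_limit (maximalIdeal V) (fun j => fun k => b.repr (f (m + j)) k)
    (fun j k => by
      have := hcoord j _ (h4 j) k
      rw [map_sub, Finsupp.sub_apply] at this
      exact this)
  set e : C := ∑ k, l k • b k with he
  have hre : ∀ k, b.repr e k = l k := by
    intro k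
    rw [he, b.repr_sum_self]
  have hej : ∀ j, p ^ j ∣ e - f (m + j) := by
    intro j
    refine hcoord' j _ fun k => ?_
    rw [map_sub, Finsupp.sub_apply, hre]
    exact hl j k
  refine ⟨e, ?_, ?_⟩
  · have h5 : ∀ j, p ^ j ∣ e ^ 2 - e := by
      intro j
      have e1 : e ^ 2 - e = (e - f (m + j)) * (e + f (m + j) - 1) +
          (f (m + j) ^ 2 - f (m + j)) := by ring
      rw [e1]
      exact dvd_add (Dvd.dvd.mul_right (hej j) _) (h3 j)
    have h6 : b.repr (e ^ 2 - e) = 0 := by
      ext k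
      exact eq_zero_of_mem (maximalIdeal V) fun j => hcoord j _ (h5 j) k
    exact sub_eq_zero.1 ((LinearEquiv.map_eq_zero_iff _).1 h6)
  · have e1 : e - y = (f (m + 1) - y) + (e - f (m + 1)) := by ring
    rw [e1]
    refine Ideal.add_mem _ ?_ ?_
    · exact Ideal.mem_sup_left (Ideal.mem_span_singleton.2 (h2 (m + 1)))
    · refine Ideal.mem_sup_right (Ideal.mem_span_singleton.2 ?_)
      have := hej 1
      rwa [pow_one] at this

end Ct4

namespace Md

variable {V L k S SL Sk : Type} [CommRing V] [IsDomain V] [IsDiscreteValuationRing V] [Field L]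
  [Field k] [Algebra V L] [IsFractionRing V L] [Algebra V k] [CommRing S] [CommRing SL]
  [CommRing Sk] [Algebra V S] [Algebra L SL] [Algebra k Sk] (M : Md V L k S SL Sk)

/-- **Lifting of idempotents.** Proof: `C = S / (G)` is a finite free `V`-module (`qfin`, `qtf`), so it is complete for the topology of the maximal ideal of `V`. `C / π C` is Artinian: by the Chinese remainder
theorem there is an element which is `1` modulo the maximal ideals in `T` and in the other maximal ideals, up to nilpotents an idempotent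
(`exists_isIdempotentElem_eq_of_ker_isNilpotent`); lift it to `C` (`IsAdicComplete.henselianRing`, the polynomial `X ^ 2 - X`). Let `e` be a representative in `S`; change it by a multiple
`G c` such that it is not in the `N ∈ T` with `G ∉ N` (Chinese remainders). -/
theorem exists_idem [IsAdicComplete (maximalIdeal V) V] {T : Set (Ideal S)} (hf : T.Finite)
    (hC : ∀ N ∈ T, Cs V N) {G : S} {n : ℕ} (hG : M.Ut G n) :
    ∃ e : S, e * e - e ∈ Ideal.span {G} ∧ e ∈ St T ∧
      ∀ N : Ideal S, Cs V N → N ∉ T → G ∈ N → e ∈ N := by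
  classical
  obtain ⟨π, hπ⟩ := IsDiscreteValuationRing.exists_irreducible V
  have hmax : maximalIdeal V = Ideal.span {π} := hπ.maximalIdeal_eq
  have hπm : π ∈ maximalIdeal V := by rw [hmax]; exact Ideal.mem_span_singleton_self _
  set I : Ideal S := Ideal.span {G} with hI
  have hfin : Module.Finite V (S ⧸ I) := M.qfin hG
  have htf : Module.IsTorsionFree V (S ⧸ I) := by
    refine ⟨fun c hc x y hxy => ?_⟩
    obtain ⟨x, rfl⟩ := Ideal.Quotient.mk_surjective x
    obtain ⟨y, rfl⟩ := Ideal.Quotient.mk_surjective y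
    rw [Ideal.Quotient.eq]
    refine M.qtf hG (c := c) hc.ne_zero ?_
    rw [mul_sub, ← Ideal.Quotient.eq, map_mul, map_mul]
    have hxy' : algebraMap V (S ⧸ I) c * Ideal.Quotient.mk I x =
        algebraMap V (S ⧸ I) c * Ideal.Quotient.mk I y := by
      simpa only [Algebra.smul_def] using hxy
    exact hxy'
  set J : Ideal (S ⧸ I) := (maximalIdeal V).map (algebraMap V (S ⧸ I)) with hJ
  let : Field (V ⧸ maximalIdeal V) := Ideal.Quotient.field _
  have hart : IsArtinianRing ((S ⧸ I) ⧸ J) := IsArtinianRing.of_finite (V ⧸ maximalIdeal V) _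
  let p : S →+* (S ⧸ I) ⧸ J := (Ideal.Quotient.mk J).comp (Ideal.Quotient.mk I)
  have hps : Function.Surjective p :=
    Ideal.Quotient.mk_surjective.comp Ideal.Quotient.mk_surjective
  have hker : ∀ N : Ideal S, Cs V N → G ∈ N → RingHom.ker p ≤ N := by
    intro N hN hGN x hx
    have h1 : Ideal.Quotient.mk I x ∈ J := Ideal.Quotient.eq_zero_iff_mem.1 hx
    have h2 : J ≤ N.map (Ideal.Quotient.mk I) := by
      rw [hJ, Ideal.map_le_iff_le_comap]
      intro c hc
      exact Ideal.mem_map_of_mem _ (hN.2 c hc)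
    have h3 := h2 h1
    rw [Ideal.mem_map_iff_of_surjective _ Ideal.Quotient.mk_surjective] at h3
    obtain ⟨z, hz, hzx⟩ := h3
    have h4 : z - x ∈ I := Ideal.Quotient.eq.1 hzx
    have h5 : I ≤ N := by
      rw [hI, Ideal.span_singleton_le_iff_mem]
      exact hGN
    have h6 : x = z - (z - x) := by ring
    rw [h6]
    exact N.sub_mem hz (h5 h4)
  -- the closed points on `G`
  set F : Set (Ideal S) := {N | Cs V N ∧ G ∈ N} with hFdef
  have hFfin : F.Finite := by
    refine Set.Finite.subset (Set.finite_range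
      (fun m : MaximalSpectrum ((S ⧸ I) ⧸ J) => m.asIdeal.comap p)) ?_
    rintro N ⟨hN, hGN⟩
    have h1 : (N.map p).IsMaximal := by
      have := hN.1
      exact Ideal.IsMaximal.map_of_surjective_of_ker_le hps (hker N hN hGN)
    refine ⟨⟨N.map p, h1⟩, ?_⟩
    change (N.map p).comap p = N
    rw [Ideal.comap_map_of_surjective p hps]
    exact sup_eq_left.2 (hker N hN hGN)
  obtain ⟨y, hy⟩ := Ct4.crt hFfin (fun N hN => hN.1.1) (fun N => if N ∈ T then 1 else 0)
  have hyN : ∀ N : Ideal S, Cs V N → G ∈ N → y ^ 2 - y ∈ N := by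
    intro N hN hGN
    have h1 := hy N ⟨hN, hGN⟩
    by_cases hT : N ∈ T
    · simp only [hT, if_true] at h1
      have e : y ^ 2 - y = y * (y - 1) := by ring
      rw [e]
      exact N.mul_mem_left _ h1
    · simp only [hT, if_false, sub_zero] at h1
      have e : y ^ 2 - y = (y - 1) * y := by ring
      rw [e]
      exact N.mul_mem_left _ h1
  -- nilpotence
  have hnil : p (y ^ 2 - y) ∈ Ideal.jacobson (⊥ : Ideal ((S ⧸ I) ⧸ J)) := by
    rw [Ideal.jacobson, Ideal.mem_sInf]
    rintro N' ⟨-, hN'⟩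
    have h1 : (Ideal.comap p N').IsMaximal := Ideal.comap_isMaximal_of_surjective p hps
    have hG0 : p G = 0 := by
      change Ideal.Quotient.mk J (Ideal.Quotient.mk I G) = 0
      rw [Ideal.Quotient.eq_zero_iff_mem.2 (Ideal.mem_span_singleton_self G), map_zero]
    have h2 : G ∈ Ideal.comap p N' := by
      rw [Ideal.mem_comap, hG0]
      exact N'.zero_mem
    exact hyN _ (M.cs_of_ut hG h1 h2) h2
  obtain ⟨m, hm⟩ := IsArtinianRing.isNilpotent_jacobson_bot (R := (S ⧸ I) ⧸ J)
  have hym : (Ideal.Quotient.mk I y ^ 2 - Ideal.Quotient.mk I y) ^ m ∈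
      Ideal.span {algebraMap V (S ⧸ I) π} := by
    have h1 : p (y ^ 2 - y) ^ m ∈ (Ideal.jacobson (⊥ : Ideal ((S ⧸ I) ⧸ J))) ^ m :=
      Ideal.pow_mem_pow hnil m
    rw [hm, Ideal.zero_eq_bot, Ideal.mem_bot, ← map_pow] at h1
    have h2 : Ideal.Quotient.mk I ((y ^ 2 - y) ^ m) ∈ J := Ideal.Quotient.eq_zero_iff_mem.1 h1
    rw [hJ, hmax, Ideal.map_span, Set.image_singleton] at h2
    simpa only [map_pow, map_sub] using h2
  obtain ⟨e', he', hey⟩ := Ct4.lift_idem hπ (Ideal.Quotient.mk I y) hym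
  obtain ⟨e₁, rfl⟩ := Ideal.Quotient.mk_surjective e'
  have he₁ : e₁ * e₁ - e₁ ∈ I := by
    rw [← Ideal.Quotient.eq, map_mul, ← pow_two]
    exact he'
  have hey₁ : ∀ N : Ideal S, Cs V N → G ∈ N → e₁ - y ∈ N := by
    intro N hN hGN
    have hIN : I ≤ N := by
      rw [hI, Ideal.span_singleton_le_iff_mem]
      exact hGN
    have h1 : Ideal.span {Ideal.Quotient.mk I y ^ 2 - Ideal.Quotient.mk I y} ⊔
        Ideal.span {algebraMap V (S ⧸ I) π} ≤ N.map (Ideal.Quotient.mk I) := by
      refine sup_le ?_ ?_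
      · rw [Ideal.span_singleton_le_iff_mem, ← map_pow, ← map_sub]
        exact Ideal.mem_map_of_mem _ (hyN N hN hGN)
      · rw [Ideal.span_singleton_le_iff_mem]
        exact Ideal.mem_map_of_mem _ (hN.2 π hπm)
    have h2 := h1 hey
    rw [← map_sub, Ideal.mem_map_iff_of_surjective _ Ideal.Quotient.mk_surjective] at h2
    obtain ⟨z, hz, hzx⟩ := h2
    have h4 : z - (e₁ - y) ∈ I := Ideal.Quotient.eq.1 hzx
    have h6 : e₁ - y = z - (z - (e₁ - y)) := by ring
    rw [h6]
    exact N.sub_mem hz (hIN h4)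
  -- adjust at the points of `T` not on `G`
  have hinv : ∀ N : Ideal S, ∃ c : S, N ∈ T → G ∉ N → G * c - (1 - e₁) ∈ N := by
    intro N
    by_cases hN : N ∈ T ∧ G ∉ N
    · obtain ⟨hN, hGN⟩ := hN
      have := (hC N hN).1
      obtain ⟨d, hd⟩ := Ideal.IsMaximal.exists_inv this hGN
      obtain ⟨i, hi, hdi⟩ := hd
      refine ⟨d * (1 - e₁), fun _ _ => ?_⟩
      have e : G * (d * (1 - e₁)) - (1 - e₁) = (1 - e₁) * (d * G - 1) := by ring
      rw [e]
      refine N.mul_mem_left _ ?_
      have e2 : d * G - 1 = - i := by rw [← hdi]; ring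
      rw [e2]
      exact neg_mem hi
    · exact ⟨0, fun h1 h2 => absurd ⟨h1, h2⟩ hN⟩
  choose g hg using hinv
  obtain ⟨c, hc⟩ := Ct4.crt hf (fun N hN => (hC N hN).1) g
  refine ⟨e₁ + G * c, ?_, ?_, ?_⟩
  · have e : (e₁ + G * c) * (e₁ + G * c) - (e₁ + G * c) =
        (e₁ * e₁ - e₁) + (2 * e₁ * c + G * c * c - c) * G := by ring
    rw [e]
    exact I.add_mem he₁ (I.mul_mem_left _ (Ideal.mem_span_singleton_self G))
  · intro N hN hmem
    have hNC := hC N hN
    have hne := hNC.1.ne_top
    by_cases hGN : G ∈ N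
    · have h1 := hy N ⟨hNC, hGN⟩
      simp only [hN, if_true] at h1
      have h2 := hey₁ N hNC hGN
      refine hne ((Ideal.eq_top_iff_one N).2 ?_)
      have e : (1 : S) = (e₁ + G * c) - G * c - (e₁ - y) - (y - 1) := by ring
      rw [e]
      exact N.sub_mem (N.sub_mem (N.sub_mem hmem (N.mul_mem_right _ hGN)) h2) h1
    · have h1 := hg N hN hGN
      have h2 := hc N hN
      refine hne ((Ideal.eq_top_iff_one N).2 ?_)
      have e : (1 : S) = (e₁ + G * c) - (G * g N - (1 - e₁)) - G * (c - g N) := by ring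
      rw [e]
      exact N.sub_mem (N.sub_mem hmem h1) (N.mul_mem_left _ h2)
  · intro N hN hT hGN
    have h1 := hy N ⟨hN, hGN⟩
    simp only [hT, if_false, sub_zero] at h1
    have h2 := hey₁ N hN hGN
    have e : e₁ + G * c = (e₁ - y) + y + G * c := by ring
    rw [e]
    exact N.add_mem (N.add_mem h2 h1) (N.mul_mem_right _ hGN)

end Md

end CV
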