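import Pool.Agent.Lib.MP_f80667_ag.Cv.Ct3
import Pool.Agent.Lib.MP_f80667_ag.Cv.Ct4

/-!
The moving lemma.
-/

open IsLocalRing

namespace CV

namespace Md

variable {V L k S SL Sk : Type} [CommRing V] [IsDomain V] [IsDiscreteValuationRing V] [Field L]
  [Field k] [Algebra V L] [IsFractionRing V L] [Algebra V k] [CommRing S] [CommRing SL]
  [CommRing Sk] [Algebra V S] [Algebra L SL] [Algebra k Sk] (M : Md V L k S SL Sk)

private theorem mem_pi_Ct6 {π : V} (hπ : Irreducible π) {N : Ideal S} (hN : Cs V N) {r : ℕ}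
    (hr : r ≠ 0) (x : S) : algebraMap V S (π ^ r) * x ∈ N := by
  refine Ideal.mul_mem_right _ _ (hN.2 _ ?_)
  refine Ideal.pow_mem_of_mem _ ?_ r (Nat.pos_of_ne_zero hr)
  rw [IsLocalRing.mem_maximalIdeal, mem_nonunits_iff]
  exact hπ.not_isUnit

private theorem q_pi_Ct6 {π : V} (hπ : Irreducible π) {r : ℕ} (hr : r ≠ 0) (x : S) :
    M.q (algebraMap V S (π ^ r) * x) = 0 := by
  rw [M.ker_iff hπ]
  obtain ⟨j, rfl⟩ := Nat.exists_eq_succ_of_ne_zero hr
  exact ⟨algebraMap V S (π ^ j) * x, by rw [pow_succ, map_mul]; ring⟩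

private theorem q_ne_Ct6 {π : V} (hπ : Irreducible π) {N : Ideal S} (hN : Cs V N) {x : S}
    (hx : x ∉ N) : M.q x ≠ 0 := by
  intro h
  obtain ⟨t, rfl⟩ := (M.ker_iff hπ).1 h
  refine hx ?_
  have h1 := mem_pi_Ct6 hπ hN one_ne_zero t
  rwa [pow_one] at h1

/-- The elements of degree `< m` of an ideal. -/
private def lowCt6 (m : ℕ) (I : Ideal S) : Submodule V S where
  carrier := {h | M.DL.d (M.i h) < m ∧ h ∈ I}
  zero_mem' := by
    refine ⟨?_, I.zero_mem⟩
    rw [map_zero, M.DL.zero]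
    exact WithBot.bot_lt_coe m
  add_mem' {x y} hx hy := by
    refine ⟨?_, I.add_mem hx.2 hy.2⟩
    rw [map_add]
    exact (M.DL.add _ _).trans_lt (max_lt hx.1 hy.1)
  smul_mem' c x hx := by
    refine ⟨?_, ?_⟩
    · rw [Algebra.smul_def, map_mul, M.i_alg, ← Algebra.smul_def]
      exact (M.DL.smul_le _ _).trans_lt hx.1
    · rw [Algebra.smul_def]
      exact I.mul_mem_left _ hx.2

/-- Step (1). -/
private theorem step_Ct6 [IsAdicComplete (maximalIdeal V) V] {π : V} (hπ : Irreducible π)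
    {T : Set (Ideal S)} (hf : T.Finite) (hC : ∀ N ∈ T, Cs V N) (hT : ∀ N ∈ T, N.IsPrime)
    {n₀ n N : ℕ} (h0 : M.Tail n₀) (hn : n₀ ≤ n) {g₁ g₂ c : S} (hg : M.q g₂ ≠ 0) {r : ℕ}
    (hr : r ≠ 0) (hc : g₁ = g₂ + algebraMap V S (π ^ r) * c) {G e s s' : S} (hG : M.Ut G N)
    (hs : s ∈ St T) (hsG : s * G = s' * g₁) (he : e * e - e ∈ Ideal.span {G}) (heT : e ∈ St T)
    (z : S) : ∃ h : S, M.DL.d (M.i h) < (N + n : ℕ) ∧ h ∈ Ideal.span {e, G} ∧
      s * h + z ∈ It T hT g₂ := by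
  have hfin := M.it_fin hf hC hT hg
  set J : Ideal S := It T hT g₂ with hJ
  let W := M.lowCt6 (N + n) (Ideal.span {e, G})
  let mk : S →ₗ[V] (S ⧸ J) := (Ideal.Quotient.mkₐ V J).toLinearMap
  have key : (⊤ : Submodule V (S ⧸ J)) ≤ W.map mk := by
    refine Submodule.le_of_le_smul_of_le_jacobson_bot (I := maximalIdeal V) hfin.fg_top
      (IsLocalRing.maximalIdeal_le_jacobson _) ?_
    rintro x -
    obtain ⟨y, rfl⟩ := Ideal.Quotient.mk_surjective x
    obtain ⟨h, c', hh, hy⟩ := M.div h0 hn hG (e * y)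
    have hW : h ∈ W := by
      refine ⟨hh, Ideal.mem_span_pair.2 ⟨y, -c', ?_⟩⟩
      linear_combination hy
    obtain ⟨t, ht⟩ := Ideal.mem_span_singleton'.1 he
    have h1 : (s * e) * (h - y) = g₂ * (s' * (t * y - e * c')) +
        algebraMap V S (π ^ r) * (s' * c * (t * y - e * c')) := by
      linear_combination (-s * e) * hy - s * y * ht + (t * y - e * c') * hsG +
        s' * (t * y - e * c') * hc
    obtain ⟨z', hz'⟩ := M.it_pow hf hC hT hg (st_mul hT hs heT) (π ^ r) h1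
    have h2 : (Ideal.Quotient.mk J) y = mk h + π ^ r • (-(Ideal.Quotient.mk J) z') := by
      have h3 : (Ideal.Quotient.mk J) (h - y - algebraMap V S (π ^ r) * z') = 0 :=
        Ideal.Quotient.eq_zero_iff_mem.2 hz'
      rw [map_sub, map_sub, map_mul] at h3
      rw [Algebra.smul_def]
      change _ = (Ideal.Quotient.mk J) h + (Ideal.Quotient.mk J) (algebraMap V S (π ^ r)) * _
      linear_combination (-1 : S ⧸ J) * h3
    rw [h2]
    refine Submodule.add_mem_sup (Submodule.mem_map_of_mem hW)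
      (Submodule.smul_mem_smul ?_ Submodule.mem_top)
    refine Ideal.pow_mem_of_mem _ ?_ r (Nat.pos_of_ne_zero hr)
    rw [IsLocalRing.mem_maximalIdeal, mem_nonunits_iff]
    exact hπ.not_isUnit
  obtain ⟨u, hu⟩ := M.it_unit hf hC hT hg hs (-z)
  obtain ⟨h, hW, hh⟩ := key (Submodule.mem_top : mk u ∈ ⊤)
  refine ⟨h, hW.1, hW.2, ?_⟩
  have h4 : h - u ∈ J := Ideal.Quotient.eq.1 hh
  have h5 : s * h + z = s * (h - u) + (s * u - -z) := by ring
  rw [h5]
  exact J.add_mem (J.mul_mem_left _ h4) hu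

/-- **The moving lemma.** `f` is of unit type, all its zeros on the special fibre are in `T`, `g₁` and `g₂` are congruent modulo `π ^ r`: then `g₁ f` and `g₂ (f - π ^ r w)` are equivalent for some `w`.

Proof. `T` consists of prime ideals. By `exists_G` there is `G` of unit type of degree `N` with `s G = s' g₁`, `s`, `s' ∈ St T`; `e` from `exists_idem` for `G`. Let `g₁ = g₂ + π ^ r c`.
(1) There is `h` of degree `< N + n` with `h - e y ∈ (G)` for a `y ∈ S` and `s h + s' c f ∈ It T g₂`: the `V`-module `S / It T g₂` is finitely generated (`it_fin`), so by Nakayama's lemma it is enough that the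
`h` of degree `< N + n` with `h ∈ (e, G)` generate it modulo the maximal ideal of `V`. Given `y ∈ S` choose `h` by `div`: `e y = h + c' G`. Then `h - y = (e - 1) y - c' G`, `e (e - 1) ∈ (G)`, `e ∈ St T`, so
`h - y ∈ It T G = It T g₁ ⊆ It T g₂ + π S` (`it_pow`: `g₁ = g₂ + π ^ r c`, `r ≥ 1`). (And multiplication by `s ∈ St T` is bijective on `S / It T g₂`: `it_unit`.)
(2) `H = G f + π ^ r h` is of unit type of degree `N + n`, and `s H = s' g₂ f + π ^ r (s' c f + s h)`; with `s₃ (s' c f + s h) = g₂ b`, `s₃ ∈ St T`: `s₃ s H = g₂ (s₃ s' f + π ^ r b)`.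
(3) Let `q₁ = s₃ s' f + π ^ r b`, `σ = s₃ s'`. By `it_unit` for `q₁` (`q q₁ ≠ 0`) there is `w` with `σ w + b ∈ It T q₁`, `s₄ (σ w + b) = q₁ c''`. Then `s₄ σ (f - π ^ r w) = q₁ (s₄ - π ^ r c'')`, and `s₄ - π ^ r c'' ∈ St T`.
So with `x = G f`, `y = H`: `As T (g₁ f y) (g₂ (f - π ^ r w) x)`.
(4) Let `N' ∉ T` be a closed point of the special fibre, so `f ∉ N'`. If `G ∉ N'` then `x`, `y ∉ N'`. If `G ∈ N'` then `e ∈ N'`, `(1 - e) h ∈ (G)`, `(1 - e) h = G c₁`, `(1 - e) H = G ((1 - e) f + π ^ r c₁)`, and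
`(1 - e) f + π ^ r c₁ ∉ N'`. -/
theorem clt [IsAdicComplete (maximalIdeal V) V] {π : V} (hπ : Irreducible π)
    {T : Set (Ideal S)} (hf : T.Finite) (hC : ∀ N ∈ T, Cs V N) {n₀ n : ℕ} (h0 : M.Tail n₀)
    (hn : n₀ ≤ n) {f : S} (hfn : M.Ut f n) (hfT : ∀ N : Ideal S, Cs V N → f ∈ N → N ∈ T)
    {g₁ g₂ c : S} (hg : M.q g₁ ≠ 0) {r : ℕ} (hr : r ≠ 0)
    (hc : g₁ = g₂ + algebraMap V S (π ^ r) * c) :
    ∃ w : S, M.Eqv T (g₁ * f) (g₂ * (f - algebraMap V S (π ^ r) * w)) := by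
  classical
  have hT : ∀ N ∈ T, N.IsPrime := fun N hN => (hC N hN).1.isPrime
  have hqg : M.q g₁ = M.q g₂ := by
    rw [hc, map_add, M.q_pi_Ct6 hπ hr, add_zero]
  have hg2 : M.q g₂ ≠ 0 := hqg ▸ hg
  rcases T.eq_empty_or_nonempty with hTe | ⟨N₀, hN₀⟩
  · subst hTe
    refine ⟨0, f, f, n, hfn, hfn, ⟨0, fun N hN => hN.elim, 0, fun N hN => hN.elim, by ring⟩,
      fun N hN _ => As.refl ?_ _⟩
    rintro N' rfl
    exact hN.1.isPrime
  obtain ⟨N, hNG⟩ := M.exists_G hf hC hg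
  obtain ⟨G, hG, s, hs, s', hs', hsG⟩ := hNG N le_rfl
  obtain ⟨e, he, heT, heN⟩ := M.exists_idem hf hC hG
  obtain ⟨h, hh, hhI, s₃, hs₃, b, hb⟩ := M.step_Ct6 hπ hf hC hT h0 hn hg2 hr hc hG hs hsG he heT
    (s' * c * f)
  -- `H`
  set H : S := algebraMap V S (π ^ r) * h + G * f with hH
  have hGf : M.Ut (G * f) (N + n) := M.ut_mul hG hfn
  have hHu : M.Ut H (N + n) := by
    refine ⟨?_, ?_⟩
    · rw [hH, map_add, ← hGf.1]
      refine M.DL.add_eq ?_
      rw [hGf.1, map_mul, M.i_alg, ← Algebra.smul_def]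
      exact (M.DL.smul_le _ _).trans_lt hh
    · rw [hH, map_add, M.q_pi_Ct6 hπ hr, zero_add]
      exact hGf.2
  have hsH : s₃ * s * H = g₂ * (s₃ * s' * f + algebraMap V S (π ^ r) * b) := by
    rw [hH]
    linear_combination s₃ * f * hsG + s₃ * s' * f * hc + algebraMap V S (π ^ r) * hb
  set q₁ : S := s₃ * s' * f + algebraMap V S (π ^ r) * b with hq₁
  have hσ : s₃ * s' ∈ St T := st_mul hT hs₃ hs'
  have hqq : M.q q₁ ≠ 0 := by
    have := M.Dk.isDomain
    rw [hq₁, map_add, M.q_pi_Ct6 hπ hr, add_zero, map_mul]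
    exact mul_ne_zero (M.q_ne_Ct6 hπ (hC N₀ hN₀) (hσ N₀ hN₀)) (M.Dk.ne_zero hfn.2)
  obtain ⟨w, s₄, hs₄, c₂, hw⟩ := M.it_unit hf hC hT hqq hσ (-b)
  have hu : s₄ - algebraMap V S (π ^ r) * c₂ ∈ St T := by
    intro N' hN' hmem
    refine hs₄ N' hN' ?_
    have h1 := N'.add_mem hmem (mem_pi_Ct6 hπ (hC N' hN') hr c₂)
    rwa [sub_add_cancel] at h1
  have hfw : s₄ * (s₃ * s') * (f - algebraMap V S (π ^ r) * w) =
      q₁ * (s₄ - algebraMap V S (π ^ r) * c₂) := by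
    linear_combination (-s₄) * hq₁ - algebraMap V S (π ^ r) * hw
  refine ⟨w, G * f, H, N + n, hGf, hHu, ?_, ?_⟩
  · refine ⟨s₃ * s * (s₄ - algebraMap V S (π ^ r) * c₂) * s', ?_, s₄ * (s₃ * s') * s, ?_, ?_⟩
    · exact st_mul hT (st_mul hT (st_mul hT hs₃ hs) hu) hs'
    · exact st_mul hT (st_mul hT hs₄ hσ) hs
    · linear_combination g₁ * f * (s₄ - algebraMap V S (π ^ r) * c₂) * s' * hsH -
        g₂ * G * f * s * hfw - g₂ * f * q₁ * (s₄ - algebraMap V S (π ^ r) * c₂) * hsG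
  · intro N' hN' hN'T
    have hp : N'.IsPrime := hN'.1.isPrime
    have hfN : f ∉ N' := fun h1 => hN'T (hfT N' hN' h1)
    have hst : ∀ {x : S}, x ∉ N' → x ∈ St ({N'} : Set (Ideal S)) := by
      intro x hx N'' hN''
      rw [Set.mem_singleton_iff.1 hN'']
      exact hx
    by_cases hGN : G ∈ N'
    · have heN' : e ∈ N' := heN N' hN' hN'T hGN
      obtain ⟨α, β, hαβ⟩ := Ideal.mem_span_pair.1 hhI
      obtain ⟨t, ht⟩ := Ideal.mem_span_singleton'.1 he
      have h1e : 1 - e ∉ N' := fun h1 => hp.ne_top ((Ideal.eq_top_iff_one N').2 (by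
        have h2 := N'.add_mem h1 heN'
        rwa [sub_add_cancel] at h2))
      have h1f : (1 - e) * f ∉ N' := fun h1 => (hp.mem_or_mem h1).elim h1e hfN
      refine ⟨(1 - e) * f + algebraMap V S (π ^ r) * ((1 - e) * β - α * t), hst fun h1 => ?_,
        (1 - e) * f, hst h1f, ?_⟩
      · refine h1f ?_
        have h2 := N'.sub_mem h1 (mem_pi_Ct6 hπ hN' hr ((1 - e) * β - α * t))
        rwa [add_sub_cancel_right] at h2
      · rw [hH]
        linear_combination (-(1 - e) * f * algebraMap V S (π ^ r)) * hαβ.symm -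
          f * algebraMap V S (π ^ r) * α * ht
    · have hGf' : G * f ∉ N' := fun h1 => (hp.mem_or_mem h1).elim hGN hfN
      have hH' : H ∉ N' := by
        intro h1
        refine hGf' ?_
        have h2 := N'.sub_mem h1 (mem_pi_Ct6 hπ hN' hr h)
        rwa [hH, add_sub_cancel_left] at h2
      exact ⟨H, hst hH', G * f, hst hGf', by ring⟩

end Md

end CV
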