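import Pool.Agent.Lib.MP_f80667_ag.Cv.Rp0

/-!
Integral points with regular reduction are regular.
-/

open IsLocalRing

namespace CV

/-- Nakayama's lemma for the localization at a prime ideal, without fractions. -/
theorem rp1_nak {S : Type} [CommRing S] [IsNoetherianRing S] {N : Ideal S} (hN : N.IsPrime)
    (P : Ideal S) {g p : S} (hp : p ∈ N)
    (h : ∀ x ∈ P, ∃ s, s ∉ N ∧ ∃ y y', y' ∈ P ∧ s * x = g * y + p * y') :
    ∃ s, s ∉ N ∧ ∀ x ∈ P, g ∣ s * x := by
  classical
  let A := Localization.AtPrime N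
  let f : S →+* A := algebraMap S A
  have hle : P.map f ≤ Ideal.span {f g} ⊔ Ideal.span {f p} • P.map f := by
    rw [Ideal.map_le_iff_le_comap]
    intro x hx
    rw [Ideal.mem_comap]
    obtain ⟨s, hs, y, y', hy', e⟩ := h x hx
    have hu : IsUnit (f s) := IsLocalization.map_units A (⟨s, hs⟩ : N.primeCompl)
    rw [← Ideal.unit_mul_mem_iff_mem _ hu, ← map_mul, e, map_add, map_mul, map_mul]
    refine Ideal.add_mem _ (Ideal.mem_sup_left ?_) (Ideal.mem_sup_right ?_)
    · exact Ideal.mul_mem_right _ _ (Ideal.mem_span_singleton_self _)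
    · exact Ideal.mul_mem_mul (Ideal.mem_span_singleton_self _) (Ideal.mem_map_of_mem f hy')
  have hj : Ideal.span {f p} ≤ Ideal.jacobson ⊥ := by
    rw [IsLocalRing.jacobson_eq_maximalIdeal _ bot_ne_top, Ideal.span_singleton_le_iff_mem]
    exact (IsLocalization.AtPrime.to_map_mem_maximal_iff A N p).2 hp
  have hfg : (P.map f).FG := Ideal.FG.map (IsNoetherian.noetherian P) f
  have h1 : P.map f ≤ Ideal.span {f g} := Submodule.le_of_le_smul_of_le_jacobson_bot hfg hj hle
  have h2 : ∀ x ∈ P, ∃ s, s ∉ N ∧ g ∣ s * x := by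
    intro x hx
    have h3 := h1 (Ideal.mem_map_of_mem f hx)
    obtain ⟨a, ha⟩ := Ideal.mem_span_singleton'.1 h3
    obtain ⟨⟨b, t⟩, hbt⟩ := IsLocalization.surj N.primeCompl a
    have h4 : f (t * x) = f (g * b) := by
      rw [map_mul, map_mul, ← ha]
      have h5 : f (t : S) = algebraMap S A t := rfl
      have h6 : f b = algebraMap S A b := rfl
      rw [h6, ← hbt, h5]
      ring
    obtain ⟨u, hu⟩ := (IsLocalization.eq_iff_exists N.primeCompl A).1 h4
    refine ⟨u * t, fun h => ?_, b * u, ?_⟩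
    · rcases hN.mem_or_mem h with h | h
      · exact u.2 h
      · exact t.2 h
    · linear_combination hu
  obtain ⟨F, hF⟩ := IsNoetherian.noetherian P
  have hFP : ∀ x ∈ F, x ∈ P := fun x hx => by
    rw [← hF]
    exact Submodule.subset_span hx
  choose! c hc using h2
  refine ⟨∏ x ∈ F, c x, fun h => ?_, fun x hx => ?_⟩
  · obtain ⟨x, hx, h3⟩ := (hN.prod_mem_iff).1 h
    exact (hc x (hFP x hx)).1 h3
  · rw [← hF] at hx
    induction hx using Submodule.span_induction with
    | mem x hx =>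
      have hx' : x ∈ F := hx
      rw [← Finset.mul_prod_erase F c hx', mul_comm (c x), mul_assoc]
      exact Dvd.dvd.mul_left (hc x (hFP x hx')).2 _
    | zero => rw [mul_zero]; exact dvd_zero g
    | add x y _ _ hx hy => rw [mul_add]; exact dvd_add hx hy
    | smul a x _ hx =>
      rw [smul_eq_mul, mul_left_comm]
      exact Dvd.dvd.mul_left hx a

namespace Md

variable {V L k S SL Sk : Type} [CommRing V] [IsDomain V] [IsDiscreteValuationRing V] [Field L]
  [Field k] [Algebra V L] [IsFractionRing V L] [Algebra V k] [CommRing S] [CommRing SL]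
  [CommRing Sk] [Algebra V S] [Algebra L SL] [Algebra k Sk] (M : Md V L k S SL Sk) {Ω : Type}
  [Field Ω] [Algebra L Ω] (W : ValuationSubring Ω)

variable {W}

private theorem rp1_pi_mem {π : V} (hπ : Irreducible π) {N : Ideal S} (hN : Cs V N) :
    algebraMap V S π ∈ N := by
  refine hN.2 π ?_
  rw [hπ.maximalIdeal_eq]
  exact Ideal.mem_span_singleton_self π

private theorem rp1_pi_ker {π : V} (hπ : Irreducible π) {φ : SL →ₐ[L] Ω} {y : S}
    (h : φ (M.i (algebraMap V S π * y)) = 0) : φ (M.i y) = 0 := by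
  rw [map_mul, map_mul, M.i_alg, φ.commutes] at h
  rcases mul_eq_zero.1 h with h1 | h1
  · exfalso
    rw [FaithfulSMul.algebraMap_eq_zero_iff] at h1
    exact hπ.ne_zero ((IsFractionRing.injective V L) (by rw [h1, map_zero]))
  · exact h1

private theorem rp1_step {π : V} (hπ : Irreducible π) {φ : SL →ₐ[L] Ω} {s x g y y' : S}
    (hx : φ (M.i x) = 0) (hg : φ (M.i g) = 0) (e : s * x = g * y + algebraMap V S π * y') :
    φ (M.i y') = 0 := by
  refine rp1_pi_ker M hπ ?_
  have h1 : algebraMap V S π * y' = s * x - g * y := by linear_combination -e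
  rw [h1, map_sub, map_sub, map_mul, map_mul, map_mul, map_mul, hx, hg, mul_zero, zero_mul,
    sub_zero]

include M in
/-- On the special fibre every element is a power of the local parameter up to a local unit. Proof: `Sk` is a Noetherian domain; Krull. -/
theorem rgl_fac {π : V} (hπ : Irreducible π) {N : Ideal S} (hN : Cs V N) {z : S} (hz : Rgl π N z)
    {g : S} (hg : M.q g ≠ 0) : ∃ m : ℕ, ∃ s s' y, s ∉ N ∧ s' ∉ N ∧
      s * g = s' * z ^ m + algebraMap V S π * y := by
  classical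
  have hS := M.noeth
  have hdom := M.Dk.isDomain
  have hNp : N.IsPrime := hN.1.isPrime
  have hSk : IsNoetherianRing Sk := isNoetherianRing_of_surjective S Sk M.q M.surj
  have hmem : ∀ x : S, M.q x ∈ N.map M.q ↔ x ∈ N := by
    intro x
    constructor
    · intro h
      obtain ⟨x', hx', e⟩ := (Ideal.mem_map_iff_of_surjective M.q M.surj).1 h
      obtain ⟨t, ht⟩ := (M.q_eq_iff hπ).1 e.symm
      rw [ht]
      exact N.add_mem hx' (N.mul_mem_right _ (rp1_pi_mem hπ hN))
    · exact fun h => Ideal.mem_map_of_mem M.q h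
  have hprime : (N.map M.q).IsPrime := by
    refine ⟨fun h => ?_, fun {a b} hab => ?_⟩
    · have h1 : M.q 1 ∈ N.map M.q := by
        rw [h]
        exact Submodule.mem_top
      exact hNp.ne_top ((Ideal.eq_top_iff_one N).2 ((hmem 1).1 h1))
    · obtain ⟨a, rfl⟩ := M.surj a
      obtain ⟨b, rfl⟩ := M.surj b
      rw [← map_mul, hmem] at hab
      rw [hmem, hmem]
      exact hNp.mem_or_mem hab
  let Nb : Ideal Sk := N.map M.q
  let A := Localization.AtPrime Nb
  let f : Sk →+* A := algebraMap Sk A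
  have hA : IsNoetherianRing A := IsLocalization.isNoetherianRing Nb.primeCompl A hSk
  have hinj : Function.Injective f :=
    IsLocalization.injective A (Ideal.primeCompl_le_nonZeroDivisors Nb)
  by_contra hno
  -- all powers of z divide g up to local units
  have key : ∀ m : ℕ, ∃ s, s ∉ N ∧ ∃ y y', s * g = y * z ^ m + algebraMap V S π * y' := by
    intro m
    induction m with
    | zero =>
      exact ⟨1, fun h => hNp.ne_top ((Ideal.eq_top_iff_one N).2 h), g, 0, by ring⟩
    | succ m ih =>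
      obtain ⟨s, hs, y, y', e⟩ := ih
      have hy : y ∈ N := by
        by_contra hy
        exact hno ⟨m, s, y, y', hs, hy, e⟩
      obtain ⟨t, ht, h2⟩ := hz.2
      obtain ⟨w, w', e2⟩ := h2 y hy
      refine ⟨t * s, fun h => ?_, w, w' * z ^ m + t * y', ?_⟩
      · rcases hNp.mem_or_mem h with h | h
        · exact ht h
        · exact hs h
      · rw [pow_succ]
        linear_combination t * e + z ^ m * e2
  have h0 : f (M.q g) ∈ (⨅ i : ℕ, maximalIdeal A ^ i) := by
    rw [Ideal.mem_iInf]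
    intro m
    obtain ⟨s, hs, y, y', e⟩ := key m
    have hsb : M.q s ∉ Nb := fun h => hs ((hmem s).1 h)
    have hu : IsUnit (f (M.q s)) := IsLocalization.map_units A (⟨M.q s, hsb⟩ : Nb.primeCompl)
    rw [← Ideal.unit_mul_mem_iff_mem _ hu, ← map_mul, ← map_mul, e, map_add, map_mul, map_pow,
      map_mul, (M.ker_iff hπ (s := algebraMap V S π)).2 ⟨1, by ring⟩, zero_mul, add_zero, map_mul,
      map_pow]
    refine Ideal.mul_mem_left _ _ (Ideal.pow_mem_pow ?_ m)
    exact (IsLocalization.AtPrime.to_map_mem_maximal_iff A Nb (M.q z)).2 ((hmem z).2 hz.1)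
  rw [Ideal.iInf_pow_eq_bot_of_isLocalRing _ (maximalIdeal.isMaximal A).ne_top, Ideal.mem_bot] at h0
  exact hg (hinj (by rw [h0, map_zero]))

/-- **Integral points with regular reduction are regular.** Proof: let `P = {x | φ (i x) = 0}`, a prime ideal of `S` which does not contain `π`; choose `g ∈ P` with `q g ≠ 0` (`exists_ker`) such that `m` in `rgl_fac` is minimal. For
`x ∈ P` there are `s ∉ N`, `y`, `y'` with `s x = g y + π y'` (if `q x ≠ 0` then `q x` is divisible by `z ^ m`, hence by `q g`, up to a local unit), and `y' ∈ P`. By Nakayama's lemma (`S` is Noetherian) there is `s ∉ N` with `s P ⊆ (g)`. -/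
theorem rgl_gen [Algebra.IsAlgebraic L Ω] {π : V} (hπ : Irreducible π) {N : Ideal S} (hN : Cs V N)
    {z : S} (hz : Rgl π N z) {φ : SL →ₐ[L] Ω} (h : M.Ov W φ N) :
    ∃ g : S, M.q g ≠ 0 ∧ φ (M.i g) = 0 ∧ ∃ s, s ∉ N ∧ ∀ x, φ (M.i x) = 0 → g ∣ s * x := by
  classical
  have _ := h
  have hS := M.noeth
  have hNp : N.IsPrime := hN.1.isPrime
  have hone : (1 : S) ∉ N := fun h1 => hNp.ne_top ((Ideal.eq_top_iff_one N).2 h1)
  -- the possible exponents
  let Q : ℕ → Prop := fun m => ∃ g : S, M.q g ≠ 0 ∧ φ (M.i g) = 0 ∧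
    ∃ s s' y, s ∉ N ∧ s' ∉ N ∧ s * g = s' * z ^ m + algebraMap V S π * y
  have hQ : ∃ m, Q m := by
    obtain ⟨g, hg, hg0⟩ := M.exists_ker φ
    obtain ⟨m, s, s', y, h1⟩ := M.rgl_fac hπ hN hz hg
    exact ⟨m, g, hg, hg0, s, s', y, h1⟩
  obtain ⟨g, hg, hg0, s₀, s₀', y₀, hs₀, hs₀', e₀⟩ := Nat.find_spec hQ
  obtain ⟨m, hm⟩ : ∃ m, m = Nat.find hQ := ⟨_, rfl⟩
  rw [← hm] at e₀
  refine ⟨g, hg, hg0, ?_⟩
  obtain ⟨s, hs, h1⟩ := rp1_nak hNp (RingHom.ker ((φ : SL →+* Ω).comp M.i)) (g := g)
    (rp1_pi_mem hπ hN) (fun x hx => by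
      have hx' : φ (M.i x) = 0 := hx
      by_cases hqx : M.q x = 0
      · obtain ⟨t, ht⟩ := (M.ker_iff hπ).1 hqx
        refine ⟨1, hone, 0, t, ?_, by rw [ht]; ring⟩
        have h2 : φ (M.i t) = 0 := by
          refine rp1_pi_ker M hπ ?_
          rw [← ht]
          exact hx'
        exact h2
      · obtain ⟨m', t, t', w, ht, ht', e⟩ := M.rgl_fac hπ hN hz hqx
        have hmm : m ≤ m' := by
          rw [hm]
          exact Nat.find_min' hQ ⟨x, hqx, hx', t, t', w, ht, ht', e⟩
        obtain ⟨d, rfl⟩ := Nat.exists_eq_add_of_le hmm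
        have e' : (s₀' * t) * x = g * (t' * z ^ d * s₀) +
            algebraMap V S π * (s₀' * w - t' * z ^ d * y₀) := by
          rw [pow_add] at e
          linear_combination s₀' * e - t' * z ^ d * e₀
        refine ⟨s₀' * t, fun h2 => ?_, _, _, ?_, e'⟩
        · rcases hNp.mem_or_mem h2 with h2 | h2
          · exact hs₀' h2
          · exact ht h2
        · have h2 := rp1_step M hπ hx' hg0 e'
          exact h2)
  exact ⟨s, hs, fun x hx => h1 x hx⟩

/-- Proof: clear denominators. -/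
theorem gen_rg {N : Ideal S} {φ : SL →ₐ[L] Ω} (h : M.Ov W φ N) {g s : S} (hg : φ (M.i g) = 0)
    (hs : s ∉ N) (hgs : ∀ x, φ (M.i x) = 0 → g ∣ s * x) : Rg φ (M.i g) := by
  refine ⟨hg, M.i s, M.ov_ne h hs, fun x hx => ?_⟩
  obtain ⟨c, hc, s₁, e⟩ := M.loc x
  have hc' : algebraMap V L c ≠ 0 := fun h0 =>
    hc ((IsFractionRing.injective V L) (by rw [h0, map_zero]))
  have h1 : φ (M.i s₁) = 0 := by rw [← e, map_mul, hx, mul_zero]
  obtain ⟨t, ht⟩ := hgs s₁ h1
  refine ⟨algebraMap L SL (algebraMap V L c)⁻¹ * M.i t, ?_⟩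
  have h2 : algebraMap L SL (algebraMap V L c)⁻¹ * algebraMap L SL (algebraMap V L c) = 1 := by
    rw [← map_mul, inv_mul_cancel₀ hc', map_one]
  have h3 : M.i s * M.i s₁ = M.i g * M.i t := by rw [← map_mul, ht, map_mul]
  rw [← e] at h3
  linear_combination (algebraMap L SL (algebraMap V L c)⁻¹) * h3 - M.i s * x * h2

/-- A local parameter at `N` which vanishes at `φ` generates the ideal of `φ`. Proof: `P ⊆ N`, so `s x = z y + π y'` and `y' ∈ P`; Nakayama. -/
theorem rgl_simple {π : V} (hπ : Irreducible π) {N : Ideal S} (hN : Cs V N) {z : S}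
    (hz : Rgl π N z) {φ : SL →ₐ[L] Ω} (h : M.Ov W φ N) (h0 : φ (M.i z) = 0) :
    ∃ s, s ∉ N ∧ ∀ x, φ (M.i x) = 0 → z ∣ s * x := by
  have hS := M.noeth
  have hNp : N.IsPrime := hN.1.isPrime
  obtain ⟨t, ht, h2⟩ := hz.2
  obtain ⟨s, hs, h1⟩ := rp1_nak hNp (RingHom.ker ((φ : SL →+* Ω).comp M.i)) (g := z)
    (rp1_pi_mem hπ hN) (fun x hx => by
      have hx' : φ (M.i x) = 0 := hx
      have hxN : x ∈ N := by
        rw [h.2 x, hx']
        exact (ValuationSubring.mem_nonunits_iff W).2 (by rw [map_zero]; exact zero_lt_one)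
      obtain ⟨y, y', e⟩ := h2 x hxN
      have h3 : φ (M.i y') = 0 := rp1_step M hπ hx' h0 e
      exact ⟨t, ht, y, y', h3, e⟩)
  exact ⟨s, hs, fun x hx => h1 x hx⟩

end Md

end CV
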