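import Pool.Agent.Lib.MP_f80667_ag.Cv.Tp1
import Pool.Agent.Lib.MP_f80667_ag.Cv.Rp1
import Pool.Agent.Lib.MP_f80667_ag.Cv.Ded

/-!
Elements of unit type outside of finitely many closed points; local parameters do not vanish on the special fibre.
-/

open IsLocalRing

namespace CV

namespace Md

variable {V L k S SL Sk : Type} [CommRing V] [IsDomain V] [IsDiscreteValuationRing V] [Field L]
  [Field k] [Algebra V L] [IsFractionRing V L] [Algebra V k] [CommRing S] [CommRing SL]
  [CommRing Sk] [Algebra V S] [Algebra L SL] [Algebra k Sk] (M : Md V L k S SL Sk)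

/-- A local parameter does not vanish on the special fibre. Proof: otherwise `N` would be the kernel of `q`, and `Sk` a field (`Dg.not_field` in `Ded.lean`, or directly from `Dk.tail`). -/
theorem rgl_q {π : V} (hπ : Irreducible π) {N : Ideal S} (hN : Cs V N) {z : S} (hz : Rgl π N z) :
    M.q z ≠ 0 := by
  intro hq
  have hdom := M.Dk.isDomain
  obtain ⟨t, ht⟩ := (M.ker_iff hπ).1 hq
  have hpN : algebraMap V S π ∈ N := by
    refine hN.2 π ?_
    rw [hπ.maximalIdeal_eq]
    exact Ideal.mem_span_singleton_self π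
  obtain ⟨s, hs, h1⟩ := hz.2
  have h2 : ∀ x ∈ N, M.q x = 0 := by
    intro x hx
    obtain ⟨y, y', e⟩ := h1 x hx
    have h3 : M.q (s * x) = 0 := (M.ker_iff hπ).2 ⟨t * y + y', by rw [e, ht]; ring⟩
    rw [map_mul] at h3
    rcases mul_eq_zero.1 h3 with h4 | h4
    · exfalso
      obtain ⟨w, hw⟩ := (M.ker_iff hπ).1 h4
      exact hs (by rw [hw]; exact N.mul_mem_right _ hpN)
    · exact h4
  refine M.Dk.not_field ⟨⟨0, 1, zero_ne_one⟩, mul_comm, ?_⟩
  intro a ha
  obtain ⟨x, rfl⟩ := M.surj a
  have hx : x ∉ N := fun h => ha (h2 x h)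
  obtain ⟨y, m, hm, e⟩ := hN.1.exists_inv hx
  refine ⟨M.q y, ?_⟩
  have h5 : M.q (y * x + m) = M.q 1 := congrArg M.q e
  rw [map_add, h2 m hm, add_zero, map_mul, map_one] at h5
  rw [mul_comm, h5]

/-- Constants do not change a positive degree. -/
private theorem smA_sub {K A : Type} [Field K] [CommRing A] [Algebra K A] (G : Dg K A) {y : A}
    {n : ℕ} (hy : G.d y = n) (hn : 0 < n) (c : K) : G.d (y - algebraMap K A c) = n := by
  have h1 : G.d (-algebraMap K A c) < G.d y := by
    rw [G.neg, hy]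
    by_cases hc : c = 0
    · rw [hc, map_zero, G.zero]
      exact WithBot.bot_lt_coe n
    · rw [G.d_cst hc, ← Nat.cast_zero, Nat.cast_lt]
      exact hn
  have h2 := G.add_eq h1
  have h3 : y - algebraMap K A c = -algebraMap K A c + y := by ring
  rw [h3, h2, hy]

/-- There are elements of unit type of arbitrarily large degree outside of finitely many given closed points. Proof: `e` of unit type of degree `n` (`tail`); `e - c`, `c ∈ V`: every `N ∈ T` excludes at most one
residue class of `c`, and `k` is infinite. -/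
theorem exists_utT [Infinite k] {T : Set (Ideal S)} (hf : T.Finite) (hC : ∀ N ∈ T, Cs V N) (m : ℕ) :
    ∃ (f : S) (n : ℕ), m ≤ n ∧ M.Ut f n ∧ ∀ N ∈ T, f ∉ N := by
  classical
  obtain ⟨n₀, h0⟩ := M.tail
  obtain ⟨e, he1, he2⟩ := h0 (n₀ + m + 1) (by omega)
  have hbad : (⋃ N ∈ T, {a : k | ∃ c : V, algebraMap V k c = a ∧
      e - algebraMap V S c ∈ N}).Finite := by
    refine hf.biUnion fun N hN => Set.Subsingleton.finite ?_
    rintro a ⟨c, rfl, hc⟩ b ⟨c', rfl, hc'⟩
    have h1 : algebraMap V S (c - c') ∈ N := by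
      have h2 := N.sub_mem hc' hc
      have h3 : e - algebraMap V S c' - (e - algebraMap V S c) = algebraMap V S (c - c') := by
        rw [map_sub]
        ring
      rwa [h3] at h2
    have h4 : c - c' ∈ maximalIdeal V := by
      by_contra h5
      have h6 : IsUnit (c - c') := by
        by_contra h7
        exact h5 ((mem_maximalIdeal _).2 h7)
      exact (hC N hN).1.ne_top (Ideal.eq_top_of_isUnit_mem _ h1 (h6.map (algebraMap V S)))
    have h5 := (M.res_zero _).2 h4
    rw [map_sub] at h5
    exact sub_eq_zero.1 h5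
  obtain ⟨a, ha⟩ := hbad.exists_notMem
  obtain ⟨c, rfl⟩ := M.res_surj a
  refine ⟨e - algebraMap V S c, n₀ + m + 1, by omega, ⟨?_, ?_⟩, ?_⟩
  · rw [map_sub, M.i_alg]
    exact smA_sub M.DL he1 (by omega) _
  · rw [map_sub, M.q_alg]
    exact smA_sub M.Dk he2 (by omega) _
  · intro N hN h
    refine ha ?_
    rw [Set.mem_iUnion₂]
    exact ⟨N, hN, c, rfl, h⟩

end Md

end CV
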