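import Pool.Agent.Lib.MP_f80667_ag.Cv.Tp1
import Pool.Agent.Lib.MP_f80667_ag.Cv.Rp1

/-!
The part of `z - x(z)` above `T` is the kernel of the point `x`.
-/

open IsLocalRing

namespace CV

namespace Md

variable {V L k S SL Sk : Type} [CommRing V] [IsDomain V] [IsDiscreteValuationRing V] [Field L]
  [Field k] [Algebra V L] [IsFractionRing V L] [Algebra V k] [CommRing S] [CommRing SL]
  [CommRing Sk] [Algebra V S] [Algebra L SL] [Algebra k Sk] (M : Md V L k S SL Sk)

/-- The reduction of a point over `V` is a closed point of the special fibre. -/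
theorem cs_pt (x : S →ₐ[V] V) : Cs V ((maximalIdeal V).comap x) := by
  have hs : Function.Surjective x := fun c => ⟨algebraMap V S c, x.commutes c⟩
  refine ⟨Ideal.comap_isMaximal_of_surjective (x : S →+* V) hs, fun c hc => ?_⟩
  rw [Ideal.mem_comap, AlgHom.commutes]
  exact hc

/-- **The point.** `x` is a point over `V` above the closed point `N₀ ∈ T`, `z` a local parameter at `N₀`, and `z` is a unit at the other elements of `T`. Proof: let `z' = z - x z`, `p = ker x`. `⊆`: `i s * c ∈ (i z') ⊆ ker xL`, and `xL (i s) ≠ 0` because `x s ∉ maximalIdeal V` (`s ∉ N₀`).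
`⊇`: let `c ∈ ker xL`; multiply by a constant (`loc`): `c = i c'`, `c' ∈ p`. It is enough (`As.glue`) to find for every `N ∈ T` an `s ∉ N` with `s c' ∈ (z')`. If `N ≠ N₀`: `s = z'`. If `N = N₀`: `p ≤ N₀`, so `s₀ c' = z y + π y' = z' y + π y''` by `Rgl` (`x z ∈ (π)`); `x` of it:
`π x(y'') = 0`, `y'' ∈ p`. So `rp1_nak` (`noeth`). -/
theorem tp_pt {π : V} (hπ : Irreducible π) {T : Set (Ideal S)} (hf : T.Finite)
    (hC : ∀ N ∈ T, Cs V N) (hT : ∀ N ∈ T, N.IsPrime) (x : S →ₐ[V] V) (xL : SL →ₐ[L] L)
    (hx : ∀ s, xL (M.i s) = algebraMap V L (x s)) (hN : (maximalIdeal V).comap x ∈ T) {z : S}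
    (hz : Rgl π ((maximalIdeal V).comap x) z)
    (hz' : ∀ N ∈ T, N ≠ (maximalIdeal V).comap x → z ∉ N) :
    M.tp hT (Ideal.span {M.i (z - algebraMap V S (x z))}) = RingHom.ker xL := by
  have hinj := IsFractionRing.injective V L
  have hxz : x z ∈ maximalIdeal V := hz.1
  have hx0 : x (z - algebraMap V S (x z)) = 0 := by
    rw [map_sub, x.commutes]
    exact sub_self _
  have hS := M.noeth
  refine le_antisymm ?_ ?_
  · intro y hy
    obtain ⟨s, hs, h⟩ := (M.mem_tp).1 hy
    obtain ⟨w, hw⟩ := Ideal.mem_span_singleton'.1 h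
    have h1 : xL (M.i s) * xL y = 0 := by
      rw [← map_mul, ← hw, map_mul, hx (z - algebraMap V S (x z)), hx0, map_zero, mul_zero]
    have h2 : xL (M.i s) ≠ 0 := by
      rw [hx]
      intro h0
      have h3 : x s = 0 := hinj (by rw [h0, map_zero])
      exact hs _ hN (show x s ∈ maximalIdeal V by rw [h3]; exact Submodule.zero_mem _)
    exact (mul_eq_zero.1 h1).resolve_left h2
  · intro y hy
    have hy0 : xL y = 0 := hy
    obtain ⟨c, hc, s1, e⟩ := M.loc y
    have hc' : algebraMap V L c ≠ 0 := fun h0 => hc (hinj (by rw [h0, map_zero]))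
    have hs1 : x s1 = 0 := by
      apply hinj
      rw [← hx, ← e, map_mul, hy0, mul_zero, map_zero]
    have hglue : ∀ N ∈ T, ∃ s, s ∉ N ∧ ∃ w, s * s1 = (z - algebraMap V S (x z)) * w := by
      intro N hNT
      by_cases hNN : N = (maximalIdeal V).comap x
      · have hNp : ((maximalIdeal V).comap x).IsPrime := hNN ▸ hT N hNT
        obtain ⟨c', hc'⟩ : π ∣ x z := by
          rw [hπ.maximalIdeal_eq, Ideal.mem_span_singleton] at hxz
          exact hxz
        have hpN : algebraMap V S π ∈ (maximalIdeal V).comap x := by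
          rw [Ideal.mem_comap, x.commutes]
          show π ∈ maximalIdeal V
          rw [hπ.maximalIdeal_eq]
          exact Ideal.mem_span_singleton_self π
        obtain ⟨s, hs, h1⟩ := rp1_nak hNp (RingHom.ker x) (g := z - algebraMap V S (x z)) hpN
          (fun u hu => by
            have hu0 : x u = 0 := hu
            obtain ⟨s₀, hs₀, h2⟩ := hz.2
            obtain ⟨w, w', e2⟩ := h2 u (show x u ∈ maximalIdeal V by
              rw [hu0]; exact Submodule.zero_mem _)
            have e3 : s₀ * u = (z - algebraMap V S (x z)) * w +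
                algebraMap V S π * (algebraMap V S c' * w + w') := by
              rw [hc', map_mul]
              linear_combination e2
            refine ⟨s₀, hs₀, w, algebraMap V S c' * w + w', ?_, e3⟩
            have e4 := congrArg x e3
            rw [map_mul, hu0, mul_zero, map_add, map_mul x (z - algebraMap V S (x z)), hx0, zero_mul,
              zero_add, map_mul, x.commutes] at e4
            exact (mul_eq_zero.1 e4.symm).resolve_left hπ.ne_zero)
        obtain ⟨w, hw⟩ := h1 s1 hs1
        exact ⟨s, by rw [hNN]; exact hs, w, hw⟩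
      · refine ⟨z - algebraMap V S (x z), fun h => hz' N hNT hNN ?_, s1, rfl⟩
        have h1 := N.add_mem h ((hC N hNT).2 _ hxz)
        rwa [sub_add_cancel] at h1
    obtain ⟨s, hs, w, hw⟩ := As.glue hf hT hglue
    refine (M.mem_tp).2 ⟨s, hs, ?_⟩
    rw [Ideal.mem_span_singleton']
    refine ⟨algebraMap L SL (algebraMap V L c)⁻¹ * M.i w, ?_⟩
    have h2 : algebraMap L SL (algebraMap V L c)⁻¹ * algebraMap L SL (algebraMap V L c) = 1 := by
      rw [← map_mul, inv_mul_cancel₀ hc', map_one]
    have h3 : M.i s * M.i s1 = M.i (z - algebraMap V S (x z)) * M.i w := by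
      rw [← map_mul, hw, map_mul]
    rw [← e] at h3
    linear_combination (M.i s * y) * h2 - algebraMap L SL (algebraMap V L c)⁻¹ * h3

end Md

end CV
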