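import Pool.Agent.Lib.MP_f80667_ag.Cv.Tp2
import Pool.Agent.Lib.MP_f80667_ag.Cv.Tp3
import Pool.Agent.Lib.MP_f80667_ag.Cv.Ct6
import Pool.Agent.Lib.MP_f80667_ag.Cv.SmA

/-!
Two congruent points over a complete discrete valuation ring in which `l` is a unit: their classes differ by a multiple
of `l`.
-/

open IsLocalRing

namespace CV

namespace Md

variable {V L k S SL Sk : Type} [CommRing V] [IsDomain V] [IsDiscreteValuationRing V] [Field L]
  [Field k] [Algebra V L] [IsFractionRing V L] [Algebra V k] [CommRing S] [CommRing SL]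
  [CommRing Sk] [Algebra V S] [Algebra L SL] [Algebra k Sk] (M : Md V L k S SL Sk)

/-- SMALL at the level of rings: for every `f` of unit type of large degree, `f - π u` is an `l`-th power up to equivalence. -/
def Sml (π : V) (l : ℕ) : Prop := ∃ n₁ : ℕ, ∀ T : Set (Ideal S), T.Finite → (∀ N ∈ T, Cs V N) →
  ∀ (f : S) (n : ℕ), n₁ ≤ n → M.Ut f n → (∀ N : Ideal S, Cs V N → f ∈ N → N ∈ T) →
    ∀ u : S, ∃ w : S, M.Eqv T ((f - algebraMap V S π * u) * f ^ (l - 1))
      ((f - algebraMap V S π * w) ^ l)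

/-- **Congruent points.** Proof: let `N₀` be the common reduction, `Z` the set of the closed points which contain `z` (finite: `cs_fin`, `rgl_q`), `f` of unit type outside of all elements of `Z` (`exists_utT`, of degree `≥ n₀` (`Tail`) and `≥ n₁` (`Sml`)), `T` = `N₀` and all closed points which contain `f` (`cs_fin`).
`x z ∈ (π)`, `x z = π c`, so by `clt` for `g₁ = z - x z`, `g₂ = z`, `r = 1` there is `w` with `Eqv T ((z - x z) f) (z (f - π w))`. By `Sml` there is `w'` with `Eqv T ((f - π w) f ^ (l - 1)) ((f - π w') ^ l)`. So (`eqv_tc`, `tc_mul`, `tc_pow`) `tc (z - x z) + l tc f = tc z + l tc (f - π w')`.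
By `tp_pt` `tc (z - x z) = cls (ker xL)` and `tc z = tc (z - x' z) = cls (ker xL')`. -/
theorem small_pt [IsAdicComplete (maximalIdeal V) V] [IsDedekindDomain SL] [Infinite k] {π : V}
    (hπ : Irreducible π) {l : ℕ} (hl : l ≠ 0) (hs : M.Sml π l) (x x' : S →ₐ[V] V)
    (xL xL' : SL →ₐ[L] L) (hx : ∀ s, xL (M.i s) = algebraMap V L (x s))
    (hx' : ∀ s, xL' (M.i s) = algebraMap V L (x' s))
    (hN : (maximalIdeal V).comap x = (maximalIdeal V).comap x') {z : S}
    (hz : Rgl π ((maximalIdeal V).comap x) z) (hxz : x' z = 0) :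
    ∃ c : Cg SL, cls (RingHom.ker xL) = cls (RingHom.ker xL') + l • c := by
  have hdom := M.dom
  have hC0 : Cs V ((maximalIdeal V).comap x) := cs_pt x
  have hqz : M.q z ≠ 0 := M.rgl_q hπ hC0 hz
  obtain ⟨n₀, h0⟩ := M.exists_tail
  obtain ⟨n₁, h1⟩ := hs
  obtain ⟨f, n, hn, hfu, hfZ⟩ := M.exists_utT (M.cs_fin hqz) (fun N hN => hN.1) (n₀ + n₁)
  have hfq : M.q f ≠ 0 := fun h => M.Dk.ne_zero hfu.2 h
  obtain ⟨T, hTdef⟩ : ∃ T : Set (Ideal S), T = insert ((maximalIdeal V).comap x)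
    {N : Ideal S | Cs V N ∧ f ∈ N} := ⟨_, rfl⟩
  have hTf : T.Finite := by
    rw [hTdef]
    exact (M.cs_fin hfq).insert _
  have hTC : ∀ N ∈ T, Cs V N := by
    intro N hN
    rw [hTdef] at hN
    rcases hN with rfl | hN
    · exact hC0
    · exact hN.1
  have hT : ∀ N ∈ T, N.IsPrime := fun N hN => (hTC N hN).1.isPrime
  have hfT : ∀ N : Ideal S, Cs V N → f ∈ N → N ∈ T := by
    intro N hN hfN
    rw [hTdef]
    exact Or.inr ⟨hN, hfN⟩
  have h0T : (maximalIdeal V).comap x ∈ T := by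
    rw [hTdef]
    exact Or.inl rfl
  have hzT : ∀ N ∈ T, N ≠ (maximalIdeal V).comap x → z ∉ N := by
    intro N hN hne hzN
    rw [hTdef] at hN
    rcases hN with rfl | hN
    · exact hne rfl
    · exact hfZ N ⟨hN.1, hzN⟩ hN.2
  have hqp : ∀ (a w : S), M.q (a - algebraMap V S π * w) = M.q a := by
    intro a w
    rw [map_sub, (M.ker_iff hπ (s := algebraMap V S π * w)).2 ⟨w, rfl⟩, sub_zero]
  obtain ⟨c, hc⟩ : π ∣ x z := by
    have h2 : x z ∈ maximalIdeal V := hz.1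
    rw [hπ.maximalIdeal_eq, Ideal.mem_span_singleton] at h2
    exact h2
  have hqg : M.q (z - algebraMap V S (x z)) ≠ 0 := by
    rw [hc, map_mul, hqp]
    exact hqz
  obtain ⟨w, hw⟩ := clt M hπ hTf hTC h0 (by omega : n₀ ≤ n) hfu hfT hqg (one_ne_zero (α := ℕ))
    (g₂ := z) (c := -algebraMap V S c) (by rw [hc, map_mul, pow_one]; ring)
  rw [pow_one] at hw
  obtain ⟨w', hw'⟩ := h1 T hTf hTC f n (by omega) hfu hfT w
  have hf0 : f ≠ 0 := M.ut_ne hfu
  have hz0 : z ≠ 0 := fun h => hqz (by rw [h, map_zero])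
  have hg0 : z - algebraMap V S (x z) ≠ 0 := fun h => hqg (by rw [h, map_zero])
  have hfw : ∀ u : S, f - algebraMap V S π * u ≠ 0 := fun u h =>
    hfq (by rw [← hqp f u, h, map_zero])
  have e1 := M.eqv_tc hTf hTC hT (mul_ne_zero hg0 hf0) (mul_ne_zero hz0 (hfw w)) hw
  have e2 := M.eqv_tc hTf hTC hT (mul_ne_zero (hfw w) (pow_ne_zero _ hf0))
    (pow_ne_zero l (hfw w')) hw'
  rw [M.tc_mul hT hg0 hf0, M.tc_mul hT hz0 (hfw w)] at e1
  rw [M.tc_mul hT (hfw w) (pow_ne_zero _ hf0), M.tc_pow hT hf0, M.tc_pow hT (hfw w')] at e2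
  have e3 : M.tc hT (z - algebraMap V S (x z)) = cls (RingHom.ker xL) := by
    unfold tc
    rw [M.tp_pt hπ hTf hTC hT x xL hx h0T hz hzT]
  have e4 : M.tc hT z = cls (RingHom.ker xL') := by
    have h5 := M.tp_pt hπ hTf hTC hT x' xL' hx' (hN ▸ h0T) (hN ▸ hz) (hN ▸ hzT)
    rw [hxz, map_zero, sub_zero] at h5
    unfold tc
    rw [h5]
  rw [e3, e4] at e1
  refine ⟨M.tc hT (f - algebraMap V S π * w') - M.tc hT f, ?_⟩
  obtain ⟨l', rfl⟩ := Nat.exists_eq_succ_of_ne_zero hl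
  rw [Nat.succ_sub_one] at e2
  rw [nsmul_sub, ← e2, succ_nsmul (M.tc hT f) l']
  have e5 : cls (RingHom.ker xL) =
      cls (RingHom.ker xL') + M.tc hT (f - algebraMap V S π * w) - M.tc hT f := by
    rw [← e1]
    abel
  rw [e5]
  abel

end Md

end CV
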