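import Pool.Agent.Lib.MP_f80667_ag.Cv.DvP
import Pool.Agent.Lib.MP_f80667_ag.Cv.GenP
import Pool.Agent.Lib.MP_f80667_ag.Cv.SmP
import Pool.Agent.Lib.MP_f80667_ag.Cv.DivA
import Pool.Agent.Lib.MP_f80667_ag.Cv.DivS
import Pool.Agent.Lib.MP_f80667_ag.Cv.Ded
import Pool.Agent.Lib.MP_f80667_ag.Cv.Sm1

/-!
The class group of a smooth affine curve with one place at infinity over an algebraically closed field of characteristic
`0` is divisible.
-/

open TensorProduct IsLocalRing PowerSeries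

namespace CV

section

variable {Ω A : Type} [Field Ω] [CommRing A] [Algebra Ω A]

/-- Kernels of points are not `⊥`. -/
theorem divM_ker {K B : Type} [Field K] [CommRing B] [Algebra K B] (D : Dg K B)
    (y : B →ₐ[K] K) : RingHom.ker y ≠ ⊥ := by
  have := D.nontrivial
  exact Ring.ne_bot_of_isMaximal_of_not_isField (max_of_pt y) D.not_field

/-- Power series over a field are complete. -/
theorem adic_ps : IsAdicComplete (maximalIdeal Ω⟦X⟧) Ω⟦X⟧ := by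
  rw [PowerSeries.maximalIdeal_eq_span_X]
  infer_instance

/-- SMALL for the constant model over power series (from SMALL over a complete discrete valuation ring in which `l` is a unit). -/
theorem sml_cst [CharZero Ω] (G : Dg Ω A) {l : ℕ} (hl : l.Prime) :
    (G.cst Ω⟦X⟧ (FractionRing Ω⟦X⟧)).Sml X l := by
  have hcomp : IsAdicComplete (maximalIdeal Ω⟦X⟧) Ω⟦X⟧ := adic_ps
  obtain ⟨n₀, h0⟩ := (G.cst Ω⟦X⟧ (FractionRing Ω⟦X⟧)).exists_tail
  refine ⟨n₀, fun T hf hC f n hn hfn hfT u => ?_⟩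
  have hu : IsUnit (l : Ω⟦X⟧) := by
    have h1 : IsUnit ((l : Ω)) := IsUnit.mk0 _ (Nat.cast_ne_zero.2 hl.ne_zero)
    have h2 := h1.map (algebraMap Ω Ω⟦X⟧)
    rwa [map_natCast] at h2
  obtain ⟨w, hw⟩ := (G.cst Ω⟦X⟧ (FractionRing Ω⟦X⟧)).small_unit
    (PowerSeries.X_prime (R := Ω)).irreducible hf hC h0 hn hfn hfT hl hu one_ne_zero u
  rw [pow_one] at hw
  exact ⟨w, hw⟩

/-- The relation in the class group of `L ⊗ A`, `L` the field of Laurent series. Proof: `A` is a Dedekind domain (`G.ded`), `ker P ≠ ⊥` (`G.not_field`). Let `V = Ω⟦X⟧`, `L = FractionRing V`, `M = G.cst V L`; `L ⊗ A` is a Dedekind domain by `(G.bc L).ded`. `V` is complete: `PowerSeries.maximalIdeal_eq_span_X` and the instance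
`IsAdicComplete (.span {X}) (PowerSeries R)`; the residue field is infinite because it contains `Ω` (`M` has residue field `ResidueField V`). `ξ₀` from `exists_gen` (`ξ₀ a - P a` has constant coefficient `0`, so it is in `maximalIdeal V`), `z` from `exists_lp`. Apply `small_pt` with `π = X`, `sml_cst`, `x = ptV ξ₀`,
`x' = ptV ((Algebra.ofId Ω V).comp P)`, `xL = ptV ((IsScalarTower.toAlgHom Ω V L).comp ξ₀)`, `xL'` the same for `x'` (equal to `ptV ((Algebra.ofId Ω L).comp P)`), with the element `1 ⊗ z` (`ptV_i`, `ptV_comap`, `rgl_cst`): `cls (ker xL) = cls (ker xL') + l • c`; `c = cls J` (`cls_surj`), `cls_pow`, `cls_mul`, `cls_eq` give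
`f`, `g`; `ker xL' = (ker P).map ..` by `ker_cst`; `mI ξ = ker (ptV ξ)` (`Algebra.ofId L L` is the identity); `ξ` is injective because `V → L` is. (The kernels are not `⊥`: `ker_cst` for `x'`; `1 ⊗ a - ξ a ⊗ 1` for `x`, or `L ⊗ A` is not a field.) -/
theorem gen_rel [IsAlgClosed Ω] [CharZero Ω] [Algebra.Smooth Ω A] (G : Dg Ω A) {l : ℕ} (hl : l.Prime)
    (P : A →ₐ[Ω] Ω) : ∃ (ξ : A →ₐ[Ω] FractionRing Ω⟦X⟧) (J : Ideal (FractionRing Ω⟦X⟧ ⊗[Ω] A))
      (f g : FractionRing Ω⟦X⟧ ⊗[Ω] A), Function.Injective ξ ∧ f ≠ 0 ∧ g ≠ 0 ∧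
      Ideal.span {f} * mI ξ = Ideal.span {g} * (RingHom.ker P).map
        (Algebra.TensorProduct.includeRight : A →ₐ[Ω] FractionRing Ω⟦X⟧ ⊗[Ω] A) * J ^ l := by
  have hded : IsDedekindDomain A := G.ded
  obtain ⟨ξ₀, hξi, hξc⟩ := exists_gen P (divM_ker G P)
  obtain ⟨z, s, hz, hs, -, hzs⟩ := exists_lp P (divM_ker G P)
  have hdL : IsDedekindDomain (FractionRing Ω⟦X⟧ ⊗[Ω] A) := (G.bc (FractionRing Ω⟦X⟧)).ded
  have hcomp : IsAdicComplete (maximalIdeal Ω⟦X⟧) Ω⟦X⟧ := by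
    rw [PowerSeries.maximalIdeal_eq_span_X]
    infer_instance
  have hinfΩ : Infinite Ω := CharZero.infinite Ω
  have hinf : Infinite (ResidueField Ω⟦X⟧) :=
    Infinite.of_injective (algebraMap Ω (ResidueField Ω⟦X⟧)) (algebraMap Ω _).injective
  have hcong : ∀ a, ξ₀ a - ((Algebra.ofId Ω Ω⟦X⟧).comp P) a ∈ maximalIdeal Ω⟦X⟧ := by
    intro a
    rw [PowerSeries.maximalIdeal_eq_span_X, Ideal.mem_span_singleton, PowerSeries.X_dvd_iff,
      map_sub, hξc]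
    have h1 : ((Algebra.ofId Ω Ω⟦X⟧).comp P) a = PowerSeries.C (P a) := rfl
    rw [h1, PowerSeries.constantCoeff_C, sub_self]
  have hN := ptV_comap (A := A) hcong
  have hrgl := rgl_cst (V := Ω⟦X⟧) (PowerSeries.X_prime (R := Ω)).irreducible P hz hs hzs
  rw [← hN] at hrgl
  obtain ⟨c, hc⟩ := (G.cst Ω⟦X⟧ (FractionRing Ω⟦X⟧)).small_pt
    (PowerSeries.X_prime (R := Ω)).irreducible hl.ne_zero (sml_cst G hl) (ptV ξ₀)
    (ptV ((Algebra.ofId Ω Ω⟦X⟧).comp P))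
    (ptV ((IsScalarTower.toAlgHom Ω Ω⟦X⟧ (FractionRing Ω⟦X⟧)).comp ξ₀))
    (ptV ((IsScalarTower.toAlgHom Ω Ω⟦X⟧ (FractionRing Ω⟦X⟧)).comp
      ((Algebra.ofId Ω Ω⟦X⟧).comp P)))
    (fun s => ptV_i G ξ₀ s) (fun s => ptV_i G _ s) hN hrgl (by
      rw [ptV_tmul, one_mul]
      change algebraMap Ω Ω⟦X⟧ (P z) = 0
      rw [hz, map_zero])
  obtain ⟨J, hJ, rfl⟩ := cls_surj c
  have hofId : (IsScalarTower.toAlgHom Ω Ω⟦X⟧ (FractionRing Ω⟦X⟧)).comp
      ((Algebra.ofId Ω Ω⟦X⟧).comp P) = (Algebra.ofId Ω (FractionRing Ω⟦X⟧)).comp P := by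
    ext a
    exact (IsScalarTower.algebraMap_apply Ω Ω⟦X⟧ (FractionRing Ω⟦X⟧) (P a)).symm
  have hk1 := divM_ker (G.bc (FractionRing Ω⟦X⟧))
    (ptV ((IsScalarTower.toAlgHom Ω Ω⟦X⟧ (FractionRing Ω⟦X⟧)).comp ξ₀))
  have hk2 := divM_ker (G.bc (FractionRing Ω⟦X⟧))
    (ptV ((Algebra.ofId Ω (FractionRing Ω⟦X⟧)).comp P))
  rw [hofId, ← cls_pow hJ, ← cls_mul hk2 (pow_ne_zero l hJ),
    cls_eq hk1 (mul_ne_zero hk2 (pow_ne_zero l hJ)), ker_cst] at hc
  obtain ⟨f, g, hf, hg, e⟩ := hc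
  refine ⟨(IsScalarTower.toAlgHom Ω Ω⟦X⟧ (FractionRing Ω⟦X⟧)).comp ξ₀, J, f, g, ?_, hf, hg, ?_⟩
  · intro a b hab
    exact hξi (IsFractionRing.injective Ω⟦X⟧ (FractionRing Ω⟦X⟧) hab)
  · rw [mul_assoc, ← e]
    rfl

/-- Divisibility by a prime number. -/
theorem dv_prime [IsAlgClosed Ω] [CharZero Ω] [Algebra.Smooth Ω A] [IsDedekindDomain A] (G : Dg Ω A)
    {l : ℕ} (hl : l.Prime) (c : Cg A) : ∃ c' : Cg A, l • c' = c := by
  have hft : Algebra.FiniteType Ω A := inferInstance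
  obtain ⟨c', hc'⟩ := div_cl G l (fun y => by
    obtain ⟨ξ, J, f, g, hξ, hf, hg, h⟩ := gen_rel G hl y
    exact div_spread ξ hξ (RingHom.ker y) l J f g hf hg h) c.toMul
  refine ⟨Additive.ofMul c', ?_⟩
  rw [← ofMul_pow, ← hc']
  rfl

/-- **Divisibility.** -/
theorem dv_gen [IsAlgClosed Ω] [CharZero Ω] [Algebra.Smooth Ω A] [IsDedekindDomain A] (G : Dg Ω A)
    (n : ℕ) : n ≠ 0 → ∀ c : Cg A, ∃ c' : Cg A, n • c' = c := by
  induction n using induction_on_primes with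
  | zero => exact fun h => absurd rfl h
  | one => exact fun _ c => ⟨c, one_nsmul c⟩
  | prime_mul p n hp ih =>
    intro h c
    obtain ⟨c₁, h1⟩ := dv_prime G hp c
    obtain ⟨c₂, h2⟩ := ih (right_ne_zero_of_mul h) c₁
    exact ⟨c₂, by rw [mul_comm, mul_nsmul, h2]; exact h1⟩

end

end CV
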