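import Pool.Agent.Lib.MP_f80667_ag.Cv.JbA
import Pool.Agent.Lib.MP_f80667_ag.Cv.DivM

/-!
Points of the special fibre lift; the specialisation is onto; the class group of the special fibre is divisible.
-/

open ZC BE PE Polynomial TensorProduct IntermediateField IsLocalRing

namespace CV

section

variable {F : Type} [Field F] {K Ω : Type} [Field K] [CharZero K] [Field Ω] [Algebra K Ω]
  [Algebra F K] [Algebra F Ω] [IsScalarTower F K Ω] [IsAlgClosure K Ω] {L : Ld K Ω} {C : Crv F}
  (m : Mod C (Ok L) K)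

/-- **The specialisation is onto.** Proof: the class group is generated by the classes of the maximal ideals (`cls_surj`, factorization); these are `nx x` (`exists_nx`, `Ld.κ_closed`), and `cls (nx x) = spz (some φ)` (`exists_M_rd`, `exists_lp_rd`, `spz_some`). -/
theorem spz_onto (h : m.mdO.InfC) : Function.Surjective (spz m h) := by
  have hΩ : IsAlgClosed Ω := IsAlgClosure.isAlgClosed K
  have hcl : IsAlgClosed L.κ := L.κ_closed
  intro c
  obtain ⟨I, hI, rfl⟩ := cls_surj c
  revert hI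
  refine UniqueFactorizationMonoid.induction_on_prime
    (P := fun I : Ideal (L.κ ⊗[Ok L] m.R) => I ≠ ⊥ → ∃ z, spz m h z = cls I) I
    (fun h => absurd rfl h) ?_ ?_
  · intro x hx _
    rw [Ideal.isUnit_iff] at hx
    exact ⟨0, by rw [map_zero, hx, cls_top]⟩
  · intro a p ha hp hP _
    obtain ⟨z, hz⟩ := hP ha
    have hp0 : p ≠ ⊥ := hp.ne_zero
    have hpp : p.IsPrime := Ideal.isPrime_of_prime hp
    have hmax : p.IsMaximal := hpp.isMaximal hp0
    obtain ⟨x, hx⟩ := exists_nx hmax
    obtain ⟨M, hM, hMx⟩ := exists_M_rd m x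
    obtain ⟨φ, hφ, -⟩ := exists_lp_rd m x hMx
    let w : C.V.pt Ω →₀ ℤ := Finsupp.single (some φ : C.V.pt Ω) 1
    have hw : spz m h w = cls (nx x) := spz_some h hφ
    refine ⟨w + z, ?_⟩
    rw [map_add, hz, hw, cls_mul hp0 ha, hx]

/-- **The class group of the special fibre is divisible.** Proof: `c = spz z`, `cz z` is divisible by `dv_gen` for `C.dgO Ω`. -/
theorem jb_dv (h : m.mdO.InfC) (n : ℕ) (hn : n ≠ 0) (c : Cg (L.κ ⊗[Ok L] m.R)) :
    ∃ c' : Cg (L.κ ⊗[Ok L] m.R), n • c' = c := by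
  have hΩ : IsAlgClosed Ω := IsAlgClosure.isAlgClosed K
  have hch : CharZero Ω := charZero_of_injective_algebraMap (algebraMap K Ω).injective
  have hsm := C.sm
  obtain ⟨z, rfl⟩ := spz_onto m h c
  obtain ⟨d, hd⟩ := dv_gen (C.dgO Ω) n hn (cz z)
  refine ⟨(Md.spc h).comp (clMap (isoE m Ω).symm.toRingEquiv) d, ?_⟩
  rw [← map_nsmul, hd]
  rfl

end

end CV
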