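import Pool.Agent.Lib.MP_f80667_ag.Cv.Lc
import Pool.Agent.Lib.MP_f80667_ag.Pe.Ur

/-!
Classes of the special fibre which are fixed by a power of the Frobenius automorphism lift to cycles over the unramified
extension.
-/

open ZC BE PE Polynomial TensorProduct IntermediateField IsLocalRing

namespace CV

section

variable {F : Type} [Field F] {K Ω : Type} [Field K] [CharZero K] [Field Ω] [Algebra K Ω]
  [Algebra F K] [Algebra F Ω] [IsScalarTower F K Ω] [IsAlgClosure K Ω] {L : Ld K Ω} {C : Crv F}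

/-- The cycle `∑ i < r, φ ^ (n i) [P]` of a point `P` over `Ur M (f n r)` is over `Ur M (f n)`. Proof: let `γ` fix `Ur M (f n)`. By `ur_cyc` (`d = n r`) `γ = φ ^ i δ`, `i < n r`, `δ` fixes `Ur M (f n r)`; so `φ ^ i` fixes `Ur M (f n)` and `n ∣ i` (`ur_cyc` for `d = n`), `i = n j`. `δ φ ^ k = φ ^ k δ'` with `δ'` over `Ur M (f n r)` (the field is
stable under `φ`: `ur_fix`, `te_act`), so `δ` fixes the points `φ ^ k P`. `φ ^ (n j)` permutes them cyclically, because `φ ^ (n r)` fixes `P`. -/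
theorem orb_fix {M : IntermediateField K Ω} [FiniteDimensional K M] {φ : Ω ≃ₐ[K] Ω} {f n r : ℕ}
    (hφ : Frob L.toLf M φ (L.p ^ f)) (hf : f ≠ 0) (hn : n ≠ 0) (hr : r ≠ 0) {P : C.V.pt Ω}
    (hP : Fp C.V (L.Ur M (f * (n * r))) P) :
    ∀ γ ∈ (L.Ur M (f * n)).fixingSubgroup, Finsupp.mapDomain (C.V.act γ)
      (∑ i ∈ Finset.range r, Finsupp.mapDomain (C.V.act (φ ^ (n * i))) (Finsupp.single P (1 : ℤ))) =
      ∑ i ∈ Finset.range r, Finsupp.mapDomain (C.V.act (φ ^ (n * i))) (Finsupp.single P (1 : ℤ)) := by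
  intro γ hγ
  obtain ⟨N, hN⟩ : ∃ N, N = f * (n * r) := ⟨_, rfl⟩
  have hnr : n * r ≠ 0 := mul_ne_zero hn hr
  have hle : L.Ur M (f * n) ≤ L.Ur M N := by
    rw [hN]
    exact Ld.ur_dvd M ⟨r, by ring⟩
  have hγM : γ ∈ M.fixingSubgroup := IntermediateField.fixingSubgroup_antitone Ld.ur_le hγ
  obtain ⟨i, -, hδ⟩ := (Ld.ur_cyc hφ hf hnr).2 γ hγM
  obtain ⟨δ, hδe⟩ : ∃ δ, δ = (φ ^ i)⁻¹ * γ := ⟨_, rfl⟩
  rw [← hδe, ← hN] at hδ
  have hγe : γ = φ ^ i * δ := by rw [hδe, mul_inv_cancel_left]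
  have hni : n ∣ i := by
    refine ((Ld.ur_cyc hφ hf hn).1 i).1 ?_
    have h1 : φ ^ i = γ * δ⁻¹ := by rw [hγe, mul_inv_cancel_right]
    rw [h1]
    exact Subgroup.mul_mem _ hγ
      (Subgroup.inv_mem _ (IntermediateField.fixingSubgroup_antitone hle hδ))
  obtain ⟨j, rfl⟩ := hni
  -- conjugates of `δ` fix `P`
  have hfix : ∀ k : ℕ, C.V.act ((φ ^ k)⁻¹ * (δ * φ ^ k)) P = P := by
    intro k
    refine hP _ ?_
    rw [← hN]
    have hφk : φ ^ k ∈ M.fixingSubgroup := Subgroup.pow_mem _ hφ.mem k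
    have hδM : δ ∈ M.fixingSubgroup := IntermediateField.fixingSubgroup_antitone Ld.ur_le hδ
    refine (Ld.ur_fix (Subgroup.mul_mem _ (Subgroup.inv_mem _ hφk)
      (Subgroup.mul_mem _ hδM hφk))).2 fun x hx => ?_
    have h1 : δ ((φ ^ k) x) = (φ ^ k) x := (Ld.ur_fix hδM).1 hδ _ (Ld.te_act (φ ^ k) hx)
    rw [AlgEquiv.mul_apply, AlgEquiv.mul_apply, h1, ← AlgEquiv.mul_apply, inv_mul_cancel,
      AlgEquiv.one_apply]
  have hact : ∀ k : ℕ, C.V.act γ (C.V.act (φ ^ k) P) = C.V.act (φ ^ (n * j + k)) P := by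
    intro k
    rw [← act_mul C.fct]
    have h1 : γ * φ ^ k = φ ^ (n * j + k) * ((φ ^ k)⁻¹ * (δ * φ ^ k)) := by
      rw [hγe, pow_add]
      group
    rw [h1, act_mul C.fct, hfix]
  have hper : ∀ k : ℕ, C.V.act (φ ^ (k + n * r)) P = C.V.act (φ ^ k) P := by
    intro k
    rw [pow_add, act_mul C.fct]
    exact congrArg _ (hP _ (((Ld.ur_cyc hφ hf hnr).1 (n * r)).2 dvd_rfl))
  obtain ⟨g, hg⟩ : ∃ g : ℕ → (C.V.pt Ω →₀ ℤ), ∀ t, g t =
    Finsupp.single (C.V.act (φ ^ (n * t)) P) 1 := ⟨_, fun _ => rfl⟩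
  have hgp : ∀ t, g (t + r) = g t := by
    intro t
    rw [hg, hg, mul_add, hper]
  have hsum : ∀ j : ℕ, ∑ t ∈ Finset.range r, g (j + t) = ∑ t ∈ Finset.range r, g t := by
    intro j
    induction j with
    | zero => simp only [Nat.zero_add]
    | succ j ih =>
      rw [← ih]
      have h1 := Finset.sum_range_succ (fun t => g (j + t)) r
      have h2 := Finset.sum_range_succ' (fun t => g (j + t)) r
      rw [h1, hgp, Nat.add_zero] at h2
      have h3 := add_right_cancel h2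
      rw [h3]
      refine Finset.sum_congr rfl fun t _ => ?_
      congr 1
      omega
  have hrhs : ∑ i ∈ Finset.range r, Finsupp.mapDomain (C.V.act (φ ^ (n * i)))
      (Finsupp.single P (1 : ℤ)) = ∑ t ∈ Finset.range r, g t :=
    Finset.sum_congr rfl fun t _ => by rw [Finsupp.mapDomain_single, hg]
  rw [hrhs, ← hsum j]
  have h5 : Finsupp.mapDomain (C.V.act γ) (∑ t ∈ Finset.range r, g t) =
      ∑ t ∈ Finset.range r, Finsupp.mapDomain (C.V.act γ) (g t) :=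
    map_sum (Finsupp.mapDomain.addMonoidHom (C.V.act γ)) _ _
  rw [hsum j, h5, ← hsum j]
  refine Finset.sum_congr rfl fun t _ => ?_
  rw [hg, hg, Finsupp.mapDomain_single, hact, mul_add]

end

end CV
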