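import Mathlib

/-!
The class group of a Dedekind domain, written additively, and homomorphisms from it.

* `Cg A`: the class group. `cls I`: the class of an ideal `I` (`0` if `I = ⊥`).
* `cls_mul`, `cls_eq`, `cls_surj`.
* `exists_cg_hom`: homomorphisms from the class group given on a set of ideals which is stable under products and
  generates the class group.
* `clMap e`: functoriality for isomorphisms of rings.
-/

open nonZeroDivisors

namespace CV

/-- The class group, written additively. -/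
abbrev Cg (A : Type) [CommRing A] [IsDomain A] : Type := Additive (ClassGroup A)

section

variable {A : Type} [CommRing A] [IsDedekindDomain A]

/-- The class of an ideal. -/
noncomputable def cls (I : Ideal A) : Cg A := by
  classical
  exact if h : I = ⊥ then 0 else Additive.ofMul (ClassGroup.mk0 ⟨I, mem_nonZeroDivisors_of_ne_zero h⟩)

theorem cls_of_ne {I : Ideal A} (h : I ≠ ⊥) :
    cls I = Additive.ofMul (ClassGroup.mk0 ⟨I, mem_nonZeroDivisors_of_ne_zero h⟩) := by
  unfold cls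
  rw [dif_neg h]

theorem cls_mul {I J : Ideal A} (hI : I ≠ ⊥) (hJ : J ≠ ⊥) : cls (I * J) = cls I + cls J := by
  rw [cls_of_ne hI, cls_of_ne hJ, cls_of_ne (mul_ne_zero hI hJ), ← ofMul_mul, ← map_mul]
  rfl

theorem cls_top : cls (⊤ : Ideal A) = 0 := by
  have h : (⊤ : Ideal A) ≠ ⊥ := top_ne_bot
  have h1 := cls_mul (A := A) h h
  rw [← Ideal.one_eq_top, one_mul] at h1
  rw [← Ideal.one_eq_top]
  exact left_eq_add.1 h1

theorem cls_eq {I J : Ideal A} (hI : I ≠ ⊥) (hJ : J ≠ ⊥) : cls I = cls J ↔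
    ∃ f g : A, f ≠ 0 ∧ g ≠ 0 ∧ Ideal.span {f} * I = Ideal.span {g} * J := by
  rw [cls_of_ne hI, cls_of_ne hJ]
  constructor
  · intro h
    obtain ⟨f, g, hf, hg, e⟩ := ClassGroup.mk0_eq_mk0_iff.1 (Additive.ofMul.injective h)
    exact ⟨f, g, hf, hg, e⟩
  · rintro ⟨f, g, hf, hg, e⟩
    exact congrArg _ (ClassGroup.mk0_eq_mk0_iff.2 ⟨f, g, hf, hg, e⟩)

theorem cls_eq_zero {I : Ideal A} (hI : I ≠ ⊥) : cls I = 0 ↔ ∃ f : A, I = Ideal.span {f} := by
  rw [cls_of_ne hI, ← ofMul_one, Additive.ofMul.injective.eq_iff, ClassGroup.mk0_eq_one_iff]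
  constructor
  · rintro ⟨f, hf⟩
    exact ⟨f, hf⟩
  · rintro ⟨f, hf⟩
    exact ⟨f, hf⟩

theorem cls_span {f : A} : cls (Ideal.span {f}) = 0 := by
  by_cases hf : f = 0
  · unfold cls
    rw [dif_pos (by rw [hf]; exact Ideal.span_singleton_eq_bot.2 rfl)]
  · exact (cls_eq_zero (fun h => hf (Ideal.span_singleton_eq_bot.1 h))).2 ⟨f, rfl⟩

theorem cls_surj (c : Cg A) : ∃ I : Ideal A, I ≠ ⊥ ∧ c = cls I := by
  obtain ⟨⟨I, hI⟩, h⟩ := ClassGroup.mk0_surjective c.toMul
  refine ⟨I, nonZeroDivisors.ne_zero hI, ?_⟩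
  rw [cls_of_ne (nonZeroDivisors.ne_zero hI)]
  exact (Additive.toMul.injective h).symm

theorem cls_pow {I : Ideal A} (hI : I ≠ ⊥) (n : ℕ) : cls (I ^ n) = n • cls I := by
  induction n with
  | zero => rw [pow_zero, Ideal.one_eq_top, cls_top, zero_nsmul]
  | succ n ih => rw [pow_succ, cls_mul (pow_ne_zero n hI) hI, ih, succ_nsmul]

/-- Inverse classes. -/
theorem cls_neg (c : Cg A) : ∃ I : Ideal A, I ≠ ⊥ ∧ c = - cls I := by
  obtain ⟨I, hI, h⟩ := cls_surj (-c)
  exact ⟨I, hI, by rw [← h, neg_neg]⟩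

/-- Homomorphisms from the class group. -/
theorem exists_cg_hom {B : Type} [AddCommGroup B] (P : Ideal A → Prop) (hP : ∀ I, P I → I ≠ ⊥)
    (hm : ∀ I J, P I → P J → P (I * J)) (hg : ∀ c : Cg A, ∃ I J, P I ∧ P J ∧ c = cls I - cls J)
    (F : Ideal A → B) (hF : ∀ I J, P I → P J → F (I * J) = F I + F J)
    (he : ∀ I J, P I → P J → cls I = cls J → F I = F J) :
    ∃ f : Cg A →+ B, ∀ I, P I → f (cls I) = F I := by
  classical
  choose N D hN hD hc using hg
  have key : ∀ I J I' J', P I → P J → P I' → P J' → cls I - cls J = cls I' - cls J' →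
      F I - F J = F I' - F J' := by
    intro I J I' J' h1 h2 h3 h4 h
    rw [sub_eq_sub_iff_add_eq_add, ← cls_mul (hP _ h1) (hP _ h4), ← cls_mul (hP _ h3) (hP _ h2)] at h
    have h5 := he _ _ (hm _ _ h1 h4) (hm _ _ h3 h2) h
    rw [hF _ _ h1 h4, hF _ _ h3 h2] at h5
    rw [sub_eq_sub_iff_add_eq_add]
    exact h5
  refine ⟨AddMonoidHom.mk' (fun c => F (N c) - F (D c)) fun c c' => ?_, fun I hI => ?_⟩
  · have h1 := key (N (c + c')) (D (c + c')) (N c * N c') (D c * D c') (hN _) (hD _)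
      (hm _ _ (hN _) (hN _)) (hm _ _ (hD _) (hD _)) (by
        rw [← hc, cls_mul (hP _ (hN _)) (hP _ (hN _)), cls_mul (hP _ (hD _)) (hP _ (hD _))]
        conv_lhs => rw [hc c, hc c']
        abel)
    rw [h1, hF _ _ (hN _) (hN _), hF _ _ (hD _) (hD _)]
    abel
  · change F (N (cls I)) - F (D (cls I)) = F I
    have h1 := key (N (cls I)) (D (cls I)) (I * D (cls I)) (D (cls I)) (hN _) (hD _)
      (hm _ _ hI (hD _)) (hD _) (by
        rw [← hc, cls_mul (hP _ hI) (hP _ (hD _))]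
        abel)
    rw [h1, hF _ _ hI (hD _)]
    abel

end

section map

variable {A B C : Type} [CommRing A] [IsDedekindDomain A] [CommRing B] [IsDedekindDomain B]
  [CommRing C] [IsDedekindDomain C]

omit [IsDedekindDomain A] [IsDedekindDomain B] in
theorem map_ne_bot (e : A ≃+* B) {I : Ideal A} (hI : I ≠ ⊥) : I.map (e : A →+* B) ≠ ⊥ := by
  intro h
  exact hI ((Ideal.map_eq_bot_iff_of_injective (f := (e : A →+* B)) e.injective).1 h)

theorem exists_clMap (e : A ≃+* B) : ∃ f : Cg A →+ Cg B, ∀ I : Ideal A, I ≠ ⊥ →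
    f (cls I) = cls (I.map (e : A →+* B)) := by
  refine exists_cg_hom (fun I => I ≠ ⊥) (fun I h => h) (fun I J => mul_ne_zero) (fun c => ?_)
    (fun I => cls (I.map (e : A →+* B))) (fun I J hI hJ => ?_) (fun I J hI hJ h => ?_)
  · obtain ⟨I, hI, rfl⟩ := cls_surj c
    exact ⟨I, ⊤, hI, top_ne_bot, by rw [cls_top, sub_zero]⟩
  · rw [Ideal.map_mul, cls_mul (map_ne_bot e hI) (map_ne_bot e hJ)]
  · obtain ⟨f, g, hf, hg, h⟩ := (cls_eq hI hJ).1 h
    refine (cls_eq (map_ne_bot e hI) (map_ne_bot e hJ)).2 ⟨e f, e g, ?_, ?_, ?_⟩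
    · rwa [Ne, map_eq_zero_iff e e.injective]
    · rwa [Ne, map_eq_zero_iff e e.injective]
    · have h1 := congrArg (Ideal.map (e : A →+* B)) h
      rw [Ideal.map_mul, Ideal.map_mul, Ideal.map_span, Ideal.map_span, Set.image_singleton,
        Set.image_singleton] at h1
      exact h1

/-- Functoriality. -/
noncomputable def clMap (e : A ≃+* B) : Cg A →+ Cg B := (exists_clMap e).choose

theorem clMap_cls (e : A ≃+* B) {I : Ideal A} (hI : I ≠ ⊥) :
    clMap e (cls I) = cls (I.map (e : A →+* B)) := (exists_clMap e).choose_spec I hI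

theorem clMap_id (c : Cg A) : clMap (RingEquiv.refl A) c = c := by
  obtain ⟨I, hI, rfl⟩ := cls_surj c
  rw [clMap_cls _ hI]
  congr 1
  exact Ideal.map_id I

theorem clMap_trans (e : A ≃+* B) (e' : B ≃+* C) (c : Cg A) :
    clMap (e.trans e') c = clMap e' (clMap e c) := by
  obtain ⟨I, hI, rfl⟩ := cls_surj c
  rw [clMap_cls _ hI, clMap_cls _ hI, clMap_cls _ (map_ne_bot e hI), Ideal.map_map]
  rfl

end map

end CV
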