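import Pool.Agent.Lib.MP_f80667_ag.Cv.MdC

/-! Models over a valuation ring: points. -/

open IsLocalRing

namespace CV

namespace Md

variable {V L k S SL Sk : Type} [CommRing V] [IsDomain V] [ValuationRing V] [Field L] [Field k]
  [Algebra V L] [IsFractionRing V L] [Algebra V k] [CommRing S] [CommRing SL] [CommRing Sk]
  [Algebra V S] [Algebra L SL] [Algebra k Sk] (M : Md V L k S SL Sk)

/-- The specialisation of a point. -/
theorem sp_ker {x : S →+* V} (hx : ∀ c, x (algebraMap V S c) = c) {xL : SL →+* L} {xk : Sk →+* k}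
    (hL : ∀ s, xL (M.i s) = algebraMap V L (x s)) (hk : ∀ s, xk (M.q s) = algebraMap V k (x s)) :
    M.sp (RingHom.ker xL) = RingHom.ker xk := by
  ext y
  rw [M.mem_sp]
  constructor
  · rintro ⟨s, hs, rfl⟩
    rw [RingHom.mem_ker, hL] at hs
    have h0 : x s = 0 := by
      apply IsFractionRing.injective V L
      rw [hs, map_zero]
    rw [RingHom.mem_ker, hk, h0, map_zero]
  · intro hy
    obtain ⟨s, rfl⟩ := M.surj y
    rw [RingHom.mem_ker, hk] at hy
    refine ⟨s - algebraMap V S (x s), ?_, ?_⟩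
    · rw [RingHom.mem_ker, hL, map_sub, hx, sub_self, map_zero]
    · rw [map_sub, M.q_alg, hy, map_zero, sub_zero]

private theorem mdK_d_sub {K A : Type} [Field K] [CommRing A] [Algebra K A] (G : Dg K A)
    {y : A} {n : ℕ} (hn : 0 < n) (hy : G.d y = n) (c : K) : G.d (y - algebraMap K A c) = n := by
  have h0 : G.d (-(algebraMap K A c)) < G.d y := by
    rw [G.neg, hy]
    by_cases hc : c = 0
    · rw [hc, map_zero, G.zero]
      exact WithBot.bot_lt_coe n
    · rw [G.d_cst hc, ← Nat.cast_zero, Nat.cast_lt]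
      exact hn
  have h1 := G.add_eq h0
  rw [← hy, ← h1]
  congr 1
  ring

/-- The ideal of a point is integral. Proof: an element `e` of unit type of degree `n ≥ 1`, minus its value. -/
theorem int_ker {x : S →+* V} (hx : ∀ c, x (algebraMap V S c) = c) {xL : SL →+* L}
    (hL : ∀ s, xL (M.i s) = algebraMap V L (x s)) : M.Int (RingHom.ker xL) := by
  obtain ⟨n₀, hn₀⟩ := M.tail
  obtain ⟨e, he1, he2⟩ := hn₀ (max n₀ 1) (le_max_left _ _)
  have hpos : 0 < max n₀ 1 := lt_of_lt_of_le Nat.one_pos (le_max_right _ _)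
  refine ⟨e - algebraMap V S (x e), max n₀ 1, ⟨?_, ?_⟩, ?_⟩
  · rw [map_sub, M.i_alg]
    exact mdK_d_sub M.DL hpos he1 _
  · rw [map_sub, M.q_alg]
    exact mdK_d_sub M.Dk hpos he2 _
  · rw [RingHom.mem_ker, hL, map_sub, hx, sub_self, map_zero]

end Md

end CV
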