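import Pool.Agent.Lib.MP_f80667_ag.Cv.MdP
import Pool.Agent.Lib.MP_f80667_ag.Cv.MdK
import Pool.Agent.Lib.MP_f80667_ag.Cv.ClM

/-!
Specialisation of classes: `M.spc : Cg SL →+ Cg Sk`.
-/

open IsLocalRing

namespace CV

namespace Md

variable {V L k S SL Sk : Type} [CommRing V] [IsDomain V] [ValuationRing V] [Field L] [Field k]
  [Algebra V L] [IsFractionRing V L] [Algebra V k] [CommRing S] [CommRing SL] [CommRing Sk]
  [Algebra V S] [Algebra L SL] [Algebra k Sk] (M : Md V L k S SL Sk)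

section

variable [IsDedekindDomain SL] [IsDedekindDomain Sk]

/-- Every class is a difference of classes of integral ideals. -/
def InfC : Prop := ∀ c : Cg SL, ∃ I J : Ideal SL, M.Int I ∧ M.Int J ∧ c = cls I - cls J

variable {M}

theorem exists_spc (h : M.InfC) : ∃ f : Cg SL →+ Cg Sk, ∀ J : Ideal SL, M.Int J →
    f (cls J) = cls (M.sp J) := by
  refine exists_cg_hom (fun I => M.Int I) (fun I h => h.ne_bot.1) (fun I J h1 h2 => h1.mul h2)
    h (fun I => cls (M.sp I)) (fun I J hI hJ => ?_) (fun I J hI hJ e => ?_)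
  · rw [M.sp_mul hI hJ, cls_mul hI.ne_bot.2 hJ.ne_bot.2]
  · obtain ⟨f, g, hf, hg, e⟩ := (cls_eq hI.ne_bot.1 hJ.ne_bot.1).1 e
    exact (cls_eq hI.ne_bot.2 hJ.ne_bot.2).2 (M.sp_rel hI hJ hf hg e)

/-- **Specialisation of classes.** -/
noncomputable def spc (h : M.InfC) : Cg SL →+ Cg Sk := (exists_spc h).choose

theorem spc_cls (h : M.InfC) {J : Ideal SL} (hJ : M.Int J) : spc h (cls J) = cls (M.sp J) :=
  (exists_spc h).choose_spec J hJ

/-- Two homomorphisms which agree on the integral ideals are equal. -/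
theorem spc_ext (h : M.InfC) {B : Type} [AddCommGroup B] {f g : Cg SL →+ B}
    (hfg : ∀ J : Ideal SL, M.Int J → f (cls J) = g (cls J)) : f = g := by
  refine DFunLike.ext f g fun c => ?_
  obtain ⟨I, J, hI, hJ, rfl⟩ := h c
  rw [map_sub, map_sub, hfg I hI, hfg J hJ]

end

/-- An automorphism of a model (semilinear over an automorphism of `V`). -/
structure Au where
  eS : S ≃+* S
  eL : SL ≃+* SL
  ek : Sk ≃+* Sk
  hi : ∀ s, M.i (eS s) = eL (M.i s)
  hq : ∀ s, M.q (eS s) = ek (M.q s)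
  dL : ∀ x, M.DL.d (eL x) = M.DL.d x
  dk : ∀ x, M.Dk.d (ek x) = M.Dk.d x

variable {M}

theorem Au.int (e : M.Au) {J : Ideal SL} (hJ : M.Int J) : M.Int (J.map (e.eL : SL →+* SL)) := by
  obtain ⟨u, n, hu, hj⟩ := hJ
  refine ⟨e.eS u, n, ⟨?_, ?_⟩, ?_⟩
  · rw [e.hi, e.dL]
    exact hu.1
  · rw [e.hq, e.dk]
    exact hu.2
  · rw [e.hi]
    exact Ideal.mem_map_of_mem _ hj

theorem Au.sp (e : M.Au) (J : Ideal SL) :
    M.sp (J.map (e.eL : SL →+* SL)) = (M.sp J).map (e.ek : Sk →+* Sk) := by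
  ext x
  rw [mem_sp]
  have h1 : ∀ y : SL, y ∈ J.map (e.eL : SL →+* SL) ↔ e.eL.symm y ∈ J := by
    intro y
    rw [show J.map (e.eL : SL →+* SL) = J.map e.eL from rfl, ← Ideal.comap_symm]
    rfl
  have h2 : ∀ y : Sk, y ∈ (M.sp J).map (e.ek : Sk →+* Sk) ↔ e.ek.symm y ∈ M.sp J := by
    intro y
    rw [show (M.sp J).map (e.ek : Sk →+* Sk) = (M.sp J).map e.ek from rfl, ← Ideal.comap_symm]
    rfl
  rw [h2, mem_sp]
  constructor
  · rintro ⟨s, hs, rfl⟩
    refine ⟨e.eS.symm s, ?_, ?_⟩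
    · rw [h1] at hs
      have h3 : e.eL.symm (M.i s) = M.i (e.eS.symm s) := by
        rw [RingEquiv.symm_apply_eq, ← e.hi, RingEquiv.apply_symm_apply]
      rwa [h3] at hs
    · rw [eq_comm, RingEquiv.symm_apply_eq, ← e.hq, RingEquiv.apply_symm_apply]
  · rintro ⟨s, hs, hx⟩
    refine ⟨e.eS s, ?_, ?_⟩
    · rw [h1, e.hi, RingEquiv.symm_apply_apply]
      exact hs
    · rw [e.hq, hx, RingEquiv.apply_symm_apply]

theorem spc_clMap [IsDedekindDomain SL] [IsDedekindDomain Sk] (h : M.InfC) (e : M.Au) (c : Cg SL) :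
    spc h (clMap e.eL c) = clMap e.ek (spc h c) := by
  have h1 : (spc h).comp (clMap e.eL) = (clMap e.ek).comp (spc h) := by
    refine spc_ext h fun J hJ => ?_
    rw [AddMonoidHom.comp_apply, AddMonoidHom.comp_apply, clMap_cls _ hJ.ne_bot.1,
      spc_cls h (e.int hJ), spc_cls h hJ, clMap_cls _ hJ.ne_bot.2, e.sp]
  exact congrArg (fun f : Cg SL →+ Cg Sk => f c) h1

end Md

end CV
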