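import Pool.Agent.Lib.MP_f80667_ag.Cv.Inf
import Pool.Agent.Lib.MP_f80667_ag.Cv.MdJ

/-!
Every class of the generic fibre over a complete discrete valuation ring is a difference of classes of integral ideals;
lifting of points.
-/

open IsLocalRing

namespace CV

/-- Lifting of points of smooth algebras to complete local rings. -/
theorem exists_lft {O V R : Type} [CommRing O] [CommRing V] [IsLocalRing V] [Algebra O V]
    [IsAdicComplete (maximalIdeal V) V] [CommRing R] [Algebra O R] [Algebra.FormallySmooth O R]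
    (x : R →ₐ[O] ResidueField V) : ∃ y : R →ₐ[O] V, ∀ r, residue V (y r) = x r := by
  obtain ⟨y, hy⟩ := Algebra.FormallySmooth.exists_mkₐ_comp_eq_of_isAdicComplete
    (R := O) (I := maximalIdeal V) x
  exact ⟨y, fun r => congrArg (fun f : R →ₐ[O] V ⧸ maximalIdeal V => f r) hy⟩

namespace Md

variable {V L k S SL Sk : Type} [CommRing V] [IsDomain V] [IsDiscreteValuationRing V] [Field L]
  [Field k] [Algebra V L] [IsFractionRing V L] [Algebra V k] [CommRing S] [CommRing SL]
  [CommRing Sk] [Algebra V S] [Algebra L SL] [Algebra k Sk] (M : Md V L k S SL Sk)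

/-- Proof: the class group is generated by the classes of the maximal ideals `P`; `SL / P` is a finite extension of `L` (`P` contains `f ≠ 0`, `Dg.finite_quot`), so by `pt_move` `P` is integral or `P J = (i f)` with `J` integral: `cls P = cls ⊤ - cls J`. The set of the differences is
a subgroup (`Int.mul`, `cls_mul`). -/
theorem infC [IsAdicComplete (maximalIdeal V) V] [IsDedekindDomain SL] [IsDedekindDomain Sk] :
    M.InfC := by
  have key : ∀ I : Ideal SL, I ≠ ⊥ →
      ∃ I' J' : Ideal SL, M.Int I' ∧ M.Int J' ∧ cls I = cls I' - cls J' := by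
    intro I
    refine UniqueFactorizationMonoid.induction_on_prime
      (P := fun I : Ideal SL => I ≠ ⊥ → ∃ I' J' : Ideal SL, M.Int I' ∧ M.Int J' ∧
        cls I = cls I' - cls J') I (fun h => absurd rfl h) ?_ ?_
    · intro x hx _
      rw [Ideal.isUnit_iff] at hx
      exact ⟨⊤, ⊤, M.int_top, M.int_top, by rw [hx, sub_self, cls_top]⟩
    · intro a p ha hp hP _
      obtain ⟨I₁, J₁, h1, h2, h3⟩ := hP ha
      have hp0 : p ≠ ⊥ := hp.ne_zero
      have hpp : p.IsPrime := Ideal.isPrime_of_prime hp
      have hmax : p.IsMaximal := hpp.isMaximal hp0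
      obtain ⟨f, hf, hf0⟩ := Submodule.exists_mem_ne_zero_of_ne_bot hp0
      let _ : Field (SL ⧸ p) := Ideal.Quotient.field p
      let _ : Algebra V (SL ⧸ p) := ((algebraMap L (SL ⧸ p)).comp (algebraMap V L)).toAlgebra
      have : IsScalarTower V L (SL ⧸ p) := IsScalarTower.of_algebraMap_eq fun _ => rfl
      have hfin0 : Module.Finite L (SL ⧸ Ideal.span {f}) := M.DL.finite_quot hf0
      have hle : Ideal.span {f} ≤ p := (Ideal.span_singleton_le_iff_mem p).2 hf
      have hfin : Module.Finite L (SL ⧸ p) :=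
        Module.Finite.of_surjective (Ideal.Quotient.factorₐ L hle).toLinearMap
          (Ideal.Quotient.factor_surjective hle)
      have hker : RingHom.ker (Ideal.Quotient.mkₐ L p) = p := Ideal.Quotient.mkₐ_ker L p
      have hp' : ∃ I' J' : Ideal SL, M.Int I' ∧ M.Int J' ∧ cls p = cls I' - cls J' := by
        rcases M.pt_move (Ideal.Quotient.mkₐ L p) (Ideal.Quotient.mkₐ_surjective L p) with
          h | ⟨g, J, hg, hJ, e⟩
        · rw [hker] at h
          exact ⟨p, ⊤, h, M.int_top, by rw [cls_top, sub_zero]⟩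
        · rw [hker] at e
          refine ⟨⊤, J, M.int_top, hJ, ?_⟩
          have h4 := cls_mul hp0 hJ.ne_bot.1
          rw [e, cls_span] at h4
          rw [cls_top, zero_sub]
          exact eq_neg_of_add_eq_zero_left h4.symm
      obtain ⟨I₂, J₂, h4, h5, h6⟩ := hp'
      refine ⟨I₁ * I₂, J₁ * J₂, h1.mul h4, h2.mul h5, ?_⟩
      rw [cls_mul hp0 ha, h3, h6, cls_mul h1.ne_bot.1 h4.ne_bot.1, cls_mul h2.ne_bot.1 h5.ne_bot.1]
      abel
  intro c
  obtain ⟨I, hI, rfl⟩ := cls_surj c
  exact key I hI

end Md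

end CV
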