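import Pool.Agent.Lib.MP_f80667_ag.Cv.Spz
import Pool.Agent.Lib.MP_f80667_ag.Cv.InfM

/-!
Points of the special fibre lift.
-/

open ZC BE PE Polynomial TensorProduct IntermediateField IsLocalRing

namespace CV

section

variable {F : Type} [Field F] {K Ω : Type} [Field K] [CharZero K] [Field Ω] [Algebra K Ω]
  [Algebra F K] [Algebra F Ω] [IsScalarTower F K Ω] [IsAlgClosure K Ω] {L : Ld K Ω} {C : Crv F}
  (m : Mod C (Ok L) K)

omit [CharZero K] [IsAlgClosure K Ω] in
/-- A point with values in `M` is fixed by the Galois group of `M`. Proof: `ev_comp`, `ev_inj`. -/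
theorem fp_of_ev {M : IntermediateField K Ω} {φ : C.A →ₐ[F] Ω} (h : ∀ r, ev m φ r ∈ M) :
    Fp C.V M (some φ : C.V.pt Ω) := by
  intro γ hγ
  have h1 : (γ.restrictScalars F : Ω →ₐ[F] Ω).comp φ = φ := by
    refine ev_inj m fun r => ?_
    refine (ev_comp m γ φ r).trans ?_
    exact (IntermediateField.mem_fixingSubgroup_iff M γ).1 hγ _ (h r)
  exact congrArg some h1

/-- **Lifting of a point of the special fibre.** Proof: `x` factors through `xM : m.R →ₐ[Ok L] ResidueField (OM L M)` (`resMap (omV L M)` is injective); `exists_lft` gives `y : m.R →ₐ[Ok L] OM L M`; `ev_surj` for the composition with `OM L M → Ω`. -/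
theorem exists_lp_rd {M : IntermediateField K Ω} [FiniteDimensional K M]
    (x : m.R →ₐ[Ok L] L.κ) (hx : ∀ r, ∃ a : OM L M, residue L.V (omV L M a) = x r) :
    ∃ φ : C.A →ₐ[F] Ω, Rdx m φ x ∧ ∀ r, ev m φ r ∈ M := by
  let ι : ResidueField (OM L M) →ₐ[Ok L] L.κ := (resMap (omV L M)).restrictScalars (Ok L)
  have hι : ∀ a : OM L M, ι (residue (OM L M) a) = residue L.V (omV L M a) := fun a =>
    resMap_residue (omV L M) a
  have hinj : Function.Injective ι := (ι : ResidueField (OM L M) →+* L.κ).injective
  have hx' : ∀ r, x r ∈ ι.range := by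
    intro r
    obtain ⟨a, ha⟩ := hx r
    exact ⟨residue (OM L M) a, (hι a).trans ha⟩
  let xM : m.R →ₐ[Ok L] ResidueField (OM L M) :=
    (AlgEquiv.ofInjective ι hinj).symm.toAlgHom.comp (x.codRestrict ι.range hx')
  have hxM : ∀ r, ι (xM r) = x r := by
    intro r
    have h1 := (AlgEquiv.ofInjective ι hinj).apply_symm_apply (x.codRestrict ι.range hx' r)
    exact congrArg Subtype.val h1
  obtain ⟨y, hy⟩ := exists_lft (O := Ok L) (V := OM L M) xM
  obtain ⟨φ, hφ⟩ := ev_surj m
    (((IsScalarTower.toAlgHom (Ok L) L.V Ω).comp (omV L M)).comp y)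
  have hev : ∀ r, ev m φ r = ((y r : M) : Ω) := by
    intro r
    rw [hφ]
    rfl
  refine ⟨φ, fun r => ?_, fun r => ?_⟩
  · rw [hev]
    refine ⟨(omV L M (y r)).2, ?_⟩
    have h2 : residue L.V (omV L M (y r)) = x r := by
      rw [← hι, hy, hxM]
    exact h2
  · rw [hev]
    exact (y r : M).2

/-- The residues of finitely many elements are in the residue field of a finite extension. Proof: `m.R` is of finite type over `Ok L`; lift the values at the generators to elements of `Ω`, which are algebraic over `K`; `M` = the field generated by them. The set of the `r` for which there is `a` is a subalgebra. -/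
theorem exists_M_rd (x : m.R →ₐ[Ok L] L.κ) : ∃ M : IntermediateField K Ω, FiniteDimensional K M ∧
    ∀ r, ∃ a : OM L M, residue L.V (omV L M a) = x r := by
  classical
  have halg : Algebra.IsAlgebraic K Ω := IsAlgClosure.isAlgebraic
  obtain ⟨S, hS⟩ := (ftR m).out
  have hc : ∀ r : m.R, ∃ c : L.V, residue L.V c = x r := fun r => residue_surjective (x r)
  choose c hc using hc
  let T : Set Ω := (fun r : m.R => (c r : Ω)) '' (S : Set m.R)
  have hTf : Finite T := (S.finite_toSet.image _).to_subtype
  refine ⟨IntermediateField.adjoin K T, IntermediateField.finiteDimensional_adjoin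
    fun z _ => (halg.isAlgebraic z).isIntegral, ?_⟩
  set M : IntermediateField K Ω := IntermediateField.adjoin K T with hM
  let ι : OM L M →ₐ[Ok L] L.κ := (IsScalarTower.toAlgHom (Ok L) L.V L.κ).comp (omV L M)
  have hι : ∀ a : OM L M, ι a = residue L.V (omV L M a) := fun a => rfl
  have htop : (⊤ : Subalgebra (Ok L) m.R) ≤ ι.range.comap x := by
    rw [← hS]
    refine Algebra.adjoin_le fun r hr => ?_
    have hmem : (c r : Ω) ∈ M := IntermediateField.subset_adjoin K T ⟨r, hr, rfl⟩
    refine ⟨⟨⟨c r, hmem⟩, (c r).2⟩, ?_⟩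
    exact (hι _).trans (hc r)
  intro r
  obtain ⟨a, ha⟩ := htop (Algebra.mem_top (R := Ok L) (x := r))
  exact ⟨a, (hι a).symm.trans ha⟩

end

end CV
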