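import Pool.Agent.Lib.MP_f80667_ag.Cv.FroA
import Pool.Agent.Lib.MP_f80667_ag.Cv.JbA

/-!
Classes of the special fibre which are fixed by a power of the Frobenius automorphism lift to cycles over the unramified
extension.
-/

open ZC BE PE Polynomial TensorProduct IntermediateField IsLocalRing

namespace CV

section

variable {F : Type} [Field F] {K Ω : Type} [Field K] [CharZero K] [Field Ω] [Algebra K Ω]
  [Algebra F K] [Algebra F Ω] [IsScalarTower F K Ω] [IsAlgClosure K Ω] {L : Ld K Ω} {C : Crv F}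
  (m : Mod C (Ok L) K)

/-- **Lifting of a point of the special fibre over a finite field.** Proof: `x` has values in the field with `p ^ (f n r)` elements, so in the residue field of `Ur M (f n r)` (`Te`: the Teichmüller representatives: every `c` with `c ^ p ^ N = c` is the residue of an element of `Te N`: `X ^ p ^ N - X` splits in `Ω`,
or `urA`-lemmas in `Pe/Ur.lean`); `exists_lp_rd`, `fp_of_ev`. -/
theorem exists_lp_ur {M : IntermediateField K Ω} [FiniteDimensional K M] {N : ℕ} (hN : N ≠ 0)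
    {x : m.R →ₐ[Ok L] L.κ} (hx : ∀ r, x r ^ L.p ^ N = x r) :
    ∃ φ : C.A →ₐ[F] Ω, Rdx m φ x ∧ Fp C.V (L.Ur M N) (some φ : C.V.pt Ω) := by
  have hfin : FiniteDimensional K (L.Ur M N) := L.ur_fin M N hN
  have h1 : ∀ r, ∃ a : OM L (L.Ur M N), residue L.V (omV L (L.Ur M N) a) = x r := by
    intro r
    obtain ⟨a0, ha0⟩ := L.hv_surj (x r)
    obtain ⟨N', hN', z, hz, hlt⟩ := Ld.te_rep (L.hv_int ha0)
    have hz1 : L.nm z ≤ 1 := Ld.te_int hN' hz
    obtain ⟨s, hs⟩ := L.hv_of hz1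
    have hzx : L.rs.Hv z (x r) := by
      rw [(L.hv_sub ha0 hs).2 hlt]
      exact hs
    have hpow : L.rs.Hv (z ^ L.p ^ N) (x r) := by
      have h2 := hzx.pow (L.p ^ N)
      rwa [hx r] at h2
    have hz2 : z ^ L.p ^ N ∈ L.Te N' := by
      change (z ^ L.p ^ N) ^ L.p ^ N' = z ^ L.p ^ N
      rw [← pow_mul, mul_comm, pow_mul, show z ^ L.p ^ N' = z from hz]
    have hzN : z ^ L.p ^ N = z := Ld.te_inj hN' hz2 hz ((L.hv_sub hpow hzx).1 rfl)
    refine ⟨⟨⟨z, Ld.te_ur hzN⟩, hz1⟩, ?_⟩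
    obtain ⟨h3, h4⟩ := hzx
    exact h4
  obtain ⟨φ, hφ, hφ'⟩ := exists_lp_rd m x h1
  exact ⟨φ, hφ, fp_of_ev m hφ'⟩

end

end CV
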