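import Pool.Agent.Lib.MP_f80667_ag.Cv.Fro
import Pool.Agent.Lib.MP_f80667_ag.Cv.LifA
import Pool.Agent.Lib.MP_f80667_ag.Cv.LifB

/-!
Classes of the special fibre which are fixed by a power of the Frobenius automorphism lift to cycles over the unramified
extension.
-/

open ZC BE PE Polynomial TensorProduct IntermediateField IsLocalRing

namespace CV

section

variable {F : Type} [Field F] {K Ω : Type} [Field K] [CharZero K] [Field Ω] [Algebra K Ω]
  [Algebra F K] [Algebra F Ω] [IsScalarTower F K Ω] [IsAlgClosure K Ω] {L : Ld K Ω} {C : Crv F}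
  (m : Mod C (Ok L) K)

omit [CharZero K] [IsAlgClosure K Ω] [Algebra F K] [IsScalarTower F K Ω] in
private theorem lif_deg_single (x : C.V.pt Ω) (n : ℤ) : C.V.deg Ω (Finsupp.single x n) = n := by
  unfold BE.Vr.deg
  rw [Finsupp.liftAddHom_apply_single]
  rfl

/-- **LIFT.** Proof: let `I` be the reduced ideal of `b` (`Dg.exists_red` for `m.mdO.Dk`), `(mpI e)^[n] I = I` (`red_iter`, `eT_d`). By `orb_mem` `b` is in the subgroup generated by the `∑ i < r, (Frb)^[n i] (cls N)` with `(mpI e)^[n r] N = N`; the set of the `b` for which the assertion is true is a subgroup (`map_add`), so let `b` be one of them. `N = nx x` (`exists_nx`), `x` is fixed by `φ ^ (n r)` (`iter_fix`,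
`sgk_frob_pow`), so by `exists_lp_ur` (`N = f n r`) there is `P = some ψ` over `Ur M (f n r)` with the reduction `x`. `z = ∑ i < r, φ ^ (n i) [P] - r [∞]` (`orb_fix`, degree `0`; `∞` is fixed); `spz z = ∑ (Frb)^[n i] (cls (nx x))` (`spz_frb`, `spz_some`, `spz_none`). -/
theorem spz_lift (h : m.mdO.InfC) {M : IntermediateField K Ω} [FiniteDimensional K M]
    {φ : Ω ≃ₐ[K] Ω} {f n : ℕ} (hφ : Frob L.toLf M φ (L.p ^ f)) (hf : f ≠ 0) (hn : n ≠ 0)
    {b : Cg (L.κ ⊗[Ok L] m.R)} (hb : (Frb m φ)^[n] b = b) :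
    ∃ z ∈ Zd C.V (L.Ur M (f * n)), spz m h z = b := by
  have hac : IsAlgClosed Ω := IsAlgClosure.isAlgClosed K
  have hκ : IsAlgClosed L.κ := L.κ_closed
  obtain ⟨I, hI⟩ := m.mdO.Dk.exists_red b
  have hfix : (mpI (eT m.R (sgk L φ)))^[n] I = I := red_iter (fun a => eT_d m φ a) hI hb
  have hmem := orb_mem hI.ne_bot hfix
  rw [hI.cls] at hmem
  have hle : AddSubgroup.closure {c : Cg (L.κ ⊗[Ok L] m.R) | ∃ (N : Ideal (L.κ ⊗[Ok L] m.R)) (r : ℕ),
      N.IsMaximal ∧ r ≠ 0 ∧ (mpI (eT m.R (sgk L φ)))^[n * r] N = N ∧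
      c = ∑ i ∈ Finset.range r, (clMap (eT m.R (sgk L φ)))^[n * i] (cls N)} ≤
      (Zd C.V (L.Ur M (f * n))).map (spz m h) := by
    rw [AddSubgroup.closure_le]
    rintro c ⟨N, r, hN, hr, hNf, rfl⟩
    obtain ⟨x, rfl⟩ := exists_nx hN
    rw [iter_fix] at hNf
    have hx : ∀ r', x r' ^ L.p ^ (f * (n * r)) = x r' := by
      intro r'
      rw [pow_mul, ← sgk_frob_pow L hφ (n * r) (x r')]
      exact hNf r'
    obtain ⟨ψ, hψ, hfp⟩ := exists_lp_ur (F := F) (C := C) m (M := M)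
      (mul_ne_zero hf (mul_ne_zero hn hr)) hx
    refine ⟨(∑ i ∈ Finset.range r, Finsupp.mapDomain (C.V.act (φ ^ (n * i)))
      (Finsupp.single (some ψ : C.V.pt Ω) (1 : ℤ))) - Finsupp.single (C.bp.o Ω) (r : ℤ),
      ⟨fun γ hγ => ?_, ?_⟩, ?_⟩
    · have h1 := orb_fix hφ hf hn hr hfp γ hγ
      have h2 : ∀ a b : C.V.pt Ω →₀ ℤ, Finsupp.mapDomain (C.V.act γ) (a - b) =
          Finsupp.mapDomain (C.V.act γ) a - Finsupp.mapDomain (C.V.act γ) b := fun a b =>
        map_sub (Finsupp.mapDomain.addMonoidHom (M := ℤ) (C.V.act γ)) a b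
      rw [h2, h1, Finsupp.mapDomain_single]
      rfl
    · rw [map_sub, lif_deg_single, map_sum]
      have h1 : ∀ i ∈ Finset.range r, C.V.deg Ω (Finsupp.mapDomain (C.V.act (φ ^ (n * i)))
          (Finsupp.single (some ψ : C.V.pt Ω) (1 : ℤ))) = 1 := by
        intro i _
        rw [Finsupp.mapDomain_single, lif_deg_single]
      rw [Finset.sum_congr rfl h1, Finset.sum_const, Finset.card_range, nsmul_eq_mul, mul_one,
        sub_self]
    · rw [map_sub, spz_none, sub_zero, map_sum]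
      refine Finset.sum_congr rfl fun i _ => ?_
      rw [spz_frb, spz_some h hψ]
      rfl
  obtain ⟨z, hz, hzb⟩ := hle hmem
  exact ⟨z, hz, hzb⟩

end

end CV
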