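import Pool.Agent.Lib.MP_f80667_ag.Cv.KrG
import Pool.Agent.Lib.MP_f80667_ag.Cv.Lif
import Pool.Agent.Lib.MP_f80667_ag.Cv.Jbd
import Pool.Agent.Lib.MP_f80667_ag.Cv.EtC
import Pool.Agent.Lib.MP_f80667_ag.Cv.IfX

/-!
Divisibility over unramified extensions and norms from unramified extensions, modulo displacements.
-/

open ZC BE PE Polynomial TensorProduct IntermediateField IsLocalRing

namespace CV

section

variable {F : Type} [Field F] {C : Crv F} {K Ω : Type} [Field K] [CharZero K] [Field Ω]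
  [Algebra K Ω] [Algebra F K] [Algebra F Ω] [IsScalarTower F K Ω] [IsAlgClosure K Ω] {L : Ld K Ω}
  (m : Mod C (Ok L) K)

private theorem exDN_deg {M M' : IntermediateField K Ω} (h : M ≤ M') [FiniteDimensional K M']
    {z : C.V.pt Ω →₀ ℤ} (hz : C.V.deg Ω z = 0) : C.V.deg Ω (Nm M M' z) = 0 := by
  obtain ⟨s, -, -, -, h3⟩ := nm_rep h
  rw [h3, map_sum]
  exact Finset.sum_eq_zero fun γ _ => by rw [deg_smul, hz]

/-- **ExDv.** Proof: the class group of the special fibre is divisible and every class is fixed by a power of the Frobenius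
automorphism; such classes lift to cycles over unramified extensions, and the kernel of the specialisation consists of
displacements. -/
theorem exDv_of (h : m.mdO.InfC) {l : ℕ} (hl : l ≠ 0) : ExDv m l := by
  intro M hM z hz
  obtain ⟨φ, q, hφ⟩ := exists_frob L.toLf M
  obtain ⟨f, hf, rfl, -⟩ := Ld.frob_q hφ
  obtain ⟨b, hb⟩ := jb_dv m h l hl (spz m h z)
  obtain ⟨n, hn, hbn⟩ := frb_tor m hφ b
  refine ⟨f * n, mul_ne_zero hf hn, fun N' hN' hdvd => ?_⟩
  obtain ⟨k, rfl⟩ := hdvd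
  have hk : k ≠ 0 := right_ne_zero_of_mul hN'
  obtain ⟨z', hz', hzb⟩ := spz_lift m h hφ hf (mul_ne_zero hn hk) (fix_mul hbn k)
  rw [← mul_assoc] at hz'
  have hfin : FiniteDimensional K (L.Ur M (f * n * k)) := Ld.ur_fin M _ hN'
  have h1 : z - l • z' ∈ Zd C.V (L.Ur M (f * n * k)) :=
    AddSubgroup.sub_mem _ (mem_Zd.2 ⟨(mem_Zd.1 hz).1.mono Ld.ur_le, hz.2⟩)
      (AddSubgroup.nsmul_mem _ hz' l)
  obtain ⟨r, hr, hc⟩ := ker_spz m h h1 (by rw [map_sub, map_nsmul, hzb, hb, sub_self])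
  exact ⟨z', hz', r, hr, hc⟩

/-- **ExNm.** Proof: Lang's theorem (`norm_onto`) on the class group of the special fibre. -/
theorem exNm_of (h : m.mdO.InfC) : ExNm m := by
  intro M hM z hz N hN
  obtain ⟨φ, q, hφ⟩ := exists_frob L.toLf M
  obtain ⟨f, hf, rfl, -⟩ := Ld.frob_q hφ
  have hfix : Frb m φ (spz m h z) = spz m h z := by
    have h1 := spz_frb m h φ 1 z
    rw [pow_one, hz.1 φ hφ.mem] at h1
    exact h1.symm
  obtain ⟨b, hb, hbs⟩ := norm_onto (Frb m φ) (fun n hn => frb_fin m hφ n hn) (frb_tor m hφ)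
    (fun n hn c => jb_dv m h n hn c) N hN (spz m h z) hfix
  obtain ⟨w, hw, hwb⟩ := spz_lift m h hφ hf hN hb
  have hfin : FiniteDimensional K (L.Ur M (f * N)) := Ld.ur_fin M _ (mul_ne_zero hf hN)
  have hfN : FiniteDimensional K (L.Ur M N) := Ld.ur_fin M _ hN
  have hle : L.Ur M N ≤ L.Ur M (f * N) := Ld.ur_dvd M (dvd_mul_left N f)
  have hwf : Fx (L.Ur M (f * N)) w := (mem_Zd.1 hw).1
  refine ⟨Nm (L.Ur M N) (L.Ur M (f * N)) w, mem_Zd.2 ⟨nm_fx hle hwf, exDN_deg hle hw.2⟩, ?_⟩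
  rw [rtr_eq Ld.ur_le, ← nm_tr Ld.ur_le hle hwf]
  have h1 : z - Nm M (L.Ur M (f * N)) w ∈ Zd C.V M :=
    AddSubgroup.sub_mem _ hz (mem_Zd.2 ⟨nm_fx Ld.ur_le hwf, exDN_deg Ld.ur_le hw.2⟩)
  refine ker_spz m h h1 ?_
  rw [map_sub, Ld.ur_nm hφ hf hN hwf, map_sum, ← hbs, sub_eq_zero]
  refine Finset.sum_congr rfl fun i _ => ?_
  rw [smul_def, spz_frb, hwb]

/-- Divisibility over unramified extensions modulo displacements. -/
theorem exDv {l : ℕ} (hl : l ≠ 0) : ExDv m l := exDv_of m m.infC hl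

/-- Norms from unramified extensions modulo displacements. -/
theorem exNm : ExNm m := exNm_of m m.infC

end

end CV
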