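import Pool.Agent.Lib.MP_f80667_ag.Cv.Sm4
import Pool.Agent.Lib.MP_f80667_ag.Pe.Pha

/-!
`exSl`, `exSp`: displacements are divisible by `l` modulo principal cycles.
-/

open ZC BE PE Polynomial TensorProduct IntermediateField IsLocalRing

namespace CV

variable {F : Type} [Field F] {K Ω : Type} [Field K] [CharZero K] [Field Ω] [Algebra K Ω]
  [Algebra F K] [Algebra F Ω] [IsScalarTower F K Ω] [IsAlgClosure K Ω] {L : Ld K Ω}
  {C : Crv F}

/-- Traces of principal cycles are principal. -/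
theorem rtr_pc {M M' : IntermediateField K Ω} (h : M ≤ M') [FiniteDimensional K M']
    {z : C.V.pt Ω →₀ ℤ} (hz : z ∈ Pc C Ω) : rtr C.V M M' z ∈ Pc C Ω := by
  obtain ⟨s, -, -, -, h3⟩ := nm_rep h
  rw [rtr_eq h, h3]
  exact AddSubgroup.sum_mem _ fun γ _ => pc_gal γ hz

theorem rtr_zd {M M' : IntermediateField K Ω} (h : M ≤ M') [FiniteDimensional K M']
    {z : C.V.pt Ω →₀ ℤ} (hz : z ∈ Zd C.V M') : rtr C.V M M' z ∈ Zd C.V M := by
  rw [mem_Zd] at hz ⊢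
  rw [rtr_eq h]
  refine ⟨nm_fx h hz.1, ?_⟩
  obtain ⟨s, -, -, -, h3⟩ := nm_rep h
  rw [h3, map_sum]
  exact Finset.sum_eq_zero fun γ _ => by rw [deg_smul, hz.2]

/-- Generators of the displacements. -/
theorem sm_dsp {nr : C.V.pt Ω → C.V.pt Ω → Prop} {l : ℕ} (M : IntermediateField K Ω)
    [FiniteDimensional K M]
    (H : ∀ (N : ℕ) (M' : IntermediateField K Ω), N ≠ 0 → M ≤ M' → M' ≤ L.Ur M N →
      FiniteDimensional K M' → ∀ y y' : C.V.pt Ω, Fp C.V M' y → Fp C.V M' y' → nr y y' →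
      ∃ z' ∈ Zd C.V M', Finsupp.single y 1 - Finsupp.single y' 1 - l • z' ∈ Pc C Ω) :
    ∀ z ∈ Dsp L C.V nr M, ∃ z' ∈ Zd C.V M, z - l • z' ∈ Pc C Ω := by
  intro z hz
  unfold Dsp at hz
  induction hz using AddSubgroup.closure_induction with
  | mem z hz =>
    obtain ⟨N, M', y, y', hN, h1, h2, hy, hy', hn, rfl⟩ := hz
    have hfU : FiniteDimensional K (L.Ur M N) := Ld.ur_fin M N hN
    have hf : FiniteDimensional K M' := fin_le h2
    obtain ⟨z', h3, h4⟩ := H N M' hN h1 h2 hf y y' hy hy' hn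
    refine ⟨rtr C.V M M' z', rtr_zd h1 h3, ?_⟩
    have h5 := rtr_pc (C := C) h1 h4
    rwa [map_sub, map_nsmul] at h5
  | zero => exact ⟨0, (Zd C.V M).zero_mem, by rw [smul_zero, sub_zero]; exact (Pc C Ω).zero_mem⟩
  | add a b _ _ ha hb =>
    obtain ⟨a', h1, h2⟩ := ha
    obtain ⟨b', h3, h4⟩ := hb
    refine ⟨a' + b', (Zd C.V M).add_mem h1 h3, ?_⟩
    have e : a + b - l • (a' + b') = (a - l • a') + (b - l • b') := by
      rw [smul_add]
      abel
    rw [e]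
    exact (Pc C Ω).add_mem h2 h4
  | neg a _ ha =>
    obtain ⟨a', h1, h2⟩ := ha
    refine ⟨-a', (Zd C.V M).neg_mem h1, ?_⟩
    have e : -a - l • -a' = -(a - l • a') := by
      rw [smul_neg]
      abel
    rw [e]
    exact (Pc C Ω).neg_mem h2

variable (m : Mod C (Ok L) K)

theorem exSl {l : ℕ} (hl : l.Prime) (h : l ≠ L.p) : ExSl m l := by
  intro M hM r hr
  refine sm_dsp M fun N M' _ _ _ hf y y' hy hy' hn => ?_
  obtain ⟨π, hπ⟩ := IsDiscreteValuationRing.exists_irreducible (OM L M')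
  refine sm_pt m M' hπ hl (v := 0) (s := 1) ?_ ?_ (r := r) ?_ hy hy' hn
  · rw [pow_zero]
    refine L.nat_unit fun hd => h ?_
    exact ((Nat.prime_dvd_prime_iff_eq L.pp hl).1 hd).symm
  · have := hl.two_le
    omega
  · intro x hx
    have h1 : x ∈ maximalIdeal (OM L M') := by
      rw [maxOM]
      exact hx.trans_lt hr
    rw [hπ.maximalIdeal_eq, Ideal.mem_span_singleton] at h1
    rwa [add_zero, pow_one]

omit [Algebra F K] [Algebra F Ω] [IsScalarTower F K Ω] in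
/-- The values of the unramified extensions of `K` are those of `K`. -/
theorem sm_val {N : ℕ} (hN : N ≠ 0) {x : Ω} (hx : x ∈ L.Ur ⊥ N) (hx0 : x ≠ 0) :
    ∃ k : K, k ≠ 0 ∧ L.nm x = L.nm (algebraMap K Ω k) := by
  obtain ⟨φ, q, hφ⟩ := exists_frob L.toLf (⊥ : IntermediateField K Ω)
  obtain ⟨f, hf, hq, -⟩ := Ld.frob_q hφ
  rw [hq] at hφ
  have hx' : x ∈ L.Ur ⊥ (f * N) := Ld.ur_dvd ⊥ (dvd_mul_left N f) hx
  obtain ⟨y, hy, hyx⟩ := Ld.ur_val hφ hf hN hx'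
  obtain ⟨k, rfl⟩ := IntermediateField.mem_bot.1 hy
  refine ⟨k, ?_, hyx.symm⟩
  rintro rfl
  rw [map_zero, L.zero] at hyx
  exact (L.pos hx0).ne hyx

theorem exSp {π : K} {e : ℕ} (h0 : 0 < L.nm (algebraMap K Ω π))
    (h1 : L.nm (algebraMap K Ω π) < 1)
    (hπ : ∀ x : K, x ≠ 0 → ∃ n : ℤ, L.nm (algebraMap K Ω x) = L.nm (algebraMap K Ω π) ^ n)
    (he : L.nm (L.p : Ω) = L.nm (algebraMap K Ω π) ^ e) (hp : e + 2 ≤ L.p) : ExSp m π e := by
  intro N hN M hM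
  have hfU : FiniteDimensional K (L.Ur (⊥ : IntermediateField K Ω) N) := Ld.ur_fin ⊥ N hN
  have hfM : FiniteDimensional K M := fin_le hM
  refine sm_dsp M fun N' M' hN' _ hle hf y y' hy hy' hn => ?_
  have hNN : N * N' ≠ 0 := mul_ne_zero hN hN'
  have hle' : M' ≤ L.Ur ⊥ (N * N') := by
    refine hle.trans ((Ld.ur_mono hM N').trans ?_)
    refine (Ld.ur_dvd _ (dvd_mul_left N' N)).trans ?_
    rw [Ld.ur_ur ⊥ (dvd_mul_right N N')]
  let π' : OM L M' := ⟨algebraMap K M' π, h1.le⟩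
  have hπ' : ((π' : M') : Ω) = algebraMap K Ω π := rfl
  have hirr : Irreducible π' := by
    refine irr_of_nm L M' h0 h1 fun x hx => ?_
    have hx0 : ((x : M') : Ω) ≠ 0 := fun h => hx (Subtype.ext (Subtype.ext h))
    obtain ⟨k, hk, hxk⟩ := sm_val hNN (hle' (x : M').2) hx0
    obtain ⟨n, hn⟩ := hπ k hk
    have hx1 : L.nm ((x : M') : Ω) ≤ 1 := x.2
    rw [hxk, hn] at hx1
    have hn0 : 0 ≤ n := by
      by_contra hneg
      rw [not_le] at hneg
      exact absurd hx1 (not_le.2 (one_lt_zpow_of_neg₀ h0 h1 hneg))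
    obtain ⟨j, rfl⟩ := Int.eq_ofNat_of_zero_le hn0
    refine ⟨j, ?_⟩
    rw [hxk, hn, hπ']
    exact zpow_natCast _ _
  refine sm_pt m M' hirr L.pp (v := e) (s := 1) ?_ ?_ ?_ hy hy' hn
  · rw [hπ', he]
  · omega
  · intro x hx
    rw [dvd_iff_nm]
    have e2 : L.nm (((π' ^ (1 + e) : OM L M') : M') : Ω) = L.nm (algebraMap K Ω π) ^ (1 + e) := by
      rw [← L.pow]
      rfl
    rw [e2, add_comm]
    exact hx

end CV
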