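import Pool.Agent.Lib.MP_f80667_ag.Cv.Lc

/-!
The statements about one curve and about the product of two curves which the local theorem uses (exports of the blocks A and B).
-/

open ZC BE PE Polynomial TensorProduct IntermediateField

namespace CV

variable {F : Type} [Field F] {K Ω : Type} [Field K] [CharZero K] [Field Ω] [Algebra K Ω]
  [Algebra F K] [Algebra F Ω] [IsScalarTower F K Ω] [IsAlgClosure K Ω] {L : Ld K Ω}
  {C C₁ C₂ : Crv F} (m : Mod C (Ok L) K) (m₁ : Mod C₁ (Ok L) K) (m₂ : Mod C₂ (Ok L) K)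
  (M : IntermediateField K Ω) [FiniteDimensional K M]

/-- Principal cycles over `M` are rationally equivalent to `0`. -/
def ExPr (C : Crv F) (K Ω : Type) [Field K] [Field Ω] [Algebra K Ω] [Algebra F K] [Algebra F Ω]
    [IsScalarTower F K Ω] : Prop :=
  ∀ (M : IntermediateField K Ω), FiniteDimensional K M → ∀ z ∈ Pc C Ω, z ∈ Zd C.V M →
    z ∈ C.V.ratEq M Ω

/-- Charts: every integral point over `M` is the centre of a chart over `M`. -/
def ExCh : Prop := ∀ (M : IntermediateField K Ω), FiniteDimensional K M → ∀ x : C.V.pt Ω, Nr m 1 x x →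
  Fp C.V M x → ∃ T : Cht m M, T.P 0 = x

/-- Residue points: an integral point over `M'` is congruent to a point over `M` if `M`, `M'` have the same residues. -/
def ExRs : Prop := ∀ (M M' : IntermediateField K Ω), FiniteDimensional K M' → M ≤ M' →
  (∀ b ∈ M', L.nm b ≤ 1 → ∃ a ∈ M, L.nm (b - a) < 1) → ∀ x : C.V.pt Ω, Nr m 1 x x → Fp C.V M' x →
  ∃ y, Fp C.V M y ∧ ∃ r < 1, Nr m r x y

/-- Moving off infinity. -/
def ExIf : Prop := ∀ (M : IntermediateField K Ω), FiniteDimensional K M → ∀ x : C.V.pt Ω, Fp C.V M x →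
  ∃ z ∈ AddSubgroup.closure {z | ∃ (M' : IntermediateField K Ω) (y : C.V.pt Ω), M ≤ M' ∧
      FiniteDimensional K M' ∧ Nr m 1 y y ∧ Fp C.V M' y ∧ z = rtr C.V M M' (Finsupp.single y 1)},
    ∃ k : ℤ, (Finsupp.single x 1 : C.V.pt Ω →₀ ℤ) - z - Finsupp.single (C.bp.o Ω) k ∈ Pc C Ω

/-- A monic polynomial over the integers of `M` with roots in the open unit disc. -/
structure Dpo (L : Ld K Ω) (M : IntermediateField K Ω) (f : Polynomial Ω) : Prop where
  monic : f.Monic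
  mem : ∀ i, f.coeff i ∈ M
  lt : ∀ i < f.natDegree, L.nm (f.coeff i) < 1

/-- A polynomial over the integers of `M` which maps the open unit disc to itself. -/
structure Ipo (L : Ld K Ω) (M : IntermediateField K Ω) (f : Polynomial Ω) : Prop where
  mem : ∀ i, f.coeff i ∈ M
  le : ∀ i, L.nm (f.coeff i) ≤ 1
  lt : L.nm (f.coeff 0) < 1

/-- The cycle of the points `P w`, `w` a root of `f` (with multiplicities). -/
noncomputable def rcy {V : Vr F} (P : Ω → V.pt Ω) (f : Polynomial Ω) : V.pt Ω →₀ ℤ :=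
  (f.roots.map fun w => Finsupp.single (P w) (1 : ℤ)).sum

/-- **CLC.** The comparison of two polynomials on the curve. -/
def ExCl : Prop := ∀ (M : IntermediateField K Ω), FiniteDimensional K M → ∀ (T : Cht m M)
  (f g : Polynomial Ω) (r : ℝ), Dpo L M f → Dpo L M g → f.natDegree = g.natDegree → r < 1 →
  (∀ i, L.nm (f.coeff i - g.coeff i) ≤ r) →
    rcy T.P f - rcy T.P g ∈ Pc C Ω ⊔ Dsp L C.V (Nr m r) M

/-- The points of the product are integral and congruent modulo `r`. -/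
def NrP {ι : Type} {C : ι → Crv F} (m : ∀ i, Mod (C i) (Ok L) K) (r : ℝ)
    (x y : (Vpi fun i => (C i).V).pt Ω) : Prop :=
  ∀ i, Nr (m i) r (x i) (y i)

/-- **CLX.** The comparison of two polynomials on a curve in the product. -/
def ExCx {ι : Type} {C : ι → Crv F} (m : ∀ i, Mod (C i) (Ok L) K) : Prop :=
  ∀ (M : IntermediateField K Ω), FiniteDimensional K M → ∀ (T : ∀ i, Cht (m i) M)
  (r : ι → Polynomial Ω), (∀ i, Ipo L M (r i)) →
  ∀ (f g : Polynomial Ω) (ρ : ℝ), Dpo L M f → Dpo L M g → f.natDegree = g.natDegree → ρ < 1 →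
  (∀ i, L.nm (f.coeff i - g.coeff i) ≤ ρ) →
    (rcy (V := Vpi fun i => (C i).V) (fun w i => (T i).P ((r i).eval w)) f -
      rcy (V := Vpi fun i => (C i).V) (fun w i => (T i).P ((r i).eval w)) g) ∈
        (Vpi fun i => (C i).V).ratEq M Ω ⊔ Dsp L (Vpi fun i => (C i).V) (NrP m ρ) M

/-- **SMALL**, `l` prime to the residue characteristic. -/
def ExSl (l : ℕ) : Prop := ∀ (M : IntermediateField K Ω), FiniteDimensional K M → ∀ r < 1,
  ∀ z ∈ Dsp L C.V (Nr m r) M, ∃ z' ∈ Zd C.V M, z - l • z' ∈ Pc C Ω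

/-- **SMALL**, `l = p`: `π` a uniformizer of `K`, `nm p = nm π ^ e`, `e < p - 1`, over unramified extensions. -/
def ExSp (π : K) (e : ℕ) : Prop := ∀ N : ℕ, N ≠ 0 → ∀ M : IntermediateField K Ω, M ≤ L.Ur ⊥ N →
  ∀ z ∈ Dsp L C.V (Nr m (L.nm (algebraMap K Ω π) ^ (e + 1))) M,
    ∃ z' ∈ Zd C.V M, z - L.p • z' ∈ Pc C Ω

/-- Divisibility over unramified extensions modulo displacements. -/
def ExDv (l : ℕ) : Prop := ∀ (M : IntermediateField K Ω), FiniteDimensional K M → ∀ z ∈ Zd C.V M,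
  ∃ N : ℕ, N ≠ 0 ∧ ∀ N' : ℕ, N' ≠ 0 → N ∣ N' → ∃ z' ∈ Zd C.V (L.Ur M N'), ∃ r < 1,
    z - l • z' ∈ Pc C Ω ⊔ Dsp L C.V (Nr m r) (L.Ur M N')

/-- Norms from unramified extensions modulo displacements. -/
def ExNm : Prop := ∀ (M : IntermediateField K Ω), FiniteDimensional K M → ∀ z ∈ Zd C.V M,
  ∀ N : ℕ, N ≠ 0 → ∃ z' ∈ Zd C.V (L.Ur M N), ∃ r < 1,
    z - rtr C.V M (L.Ur M N) z' ∈ Pc C Ω ⊔ Dsp L C.V (Nr m r) M

end CV
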