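import Mathlib

/-!
Affine curves with one place at infinity over a field `K`: a `K`-algebra `A` with a degree function (the order of the pole
at infinity).
-/

namespace CV

/-- A degree function on a `K`-algebra. -/
structure Dg (K A : Type) [Field K] [CommRing A] [Algebra K A] where
  /-- the degree -/
  d : A → WithBot ℕ
  bot : ∀ x, d x = ⊥ ↔ x = 0
  mul : ∀ x y, d (x * y) = d x + d y
  add : ∀ x y, d (x + y) ≤ max (d x) (d y)
  lead : ∀ x y, y ≠ 0 → d x = d y → ∃ c : K, d (x - c • y) < d y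
  tail : ∃ n₀ : ℕ, ∀ n : ℕ, n₀ ≤ n → ∃ x, d x = n

namespace Dg

variable {K A : Type} [Field K] [CommRing A] [Algebra K A] (G : Dg K A)

theorem zero : G.d 0 = ⊥ := (G.bot 0).2 rfl

theorem exists_nat {x : A} (hx : x ≠ 0) : ∃ n : ℕ, G.d x = n := by
  obtain ⟨n, hn⟩ := WithBot.ne_bot_iff_exists.1 (fun h => hx ((G.bot x).1 h))
  exact ⟨n, hn.symm⟩

theorem ne_zero {x : A} {n : ℕ} (h : G.d x = n) : x ≠ 0 := by
  rintro rfl
  rw [G.zero] at h
  exact WithBot.bot_ne_coe h

include G in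
theorem nontrivial : Nontrivial A := by
  obtain ⟨n₀, h⟩ := G.tail
  obtain ⟨x, hx⟩ := h n₀ le_rfl
  exact ⟨x, 0, G.ne_zero hx⟩

include G in
theorem isDomain : IsDomain A := by
  have := G.nontrivial
  have h : NoZeroDivisors A := ⟨fun {a b} hab => by
    by_contra hne
    push Not at hne
    obtain ⟨m, hm⟩ := G.exists_nat hne.1
    obtain ⟨n, hn⟩ := G.exists_nat hne.2
    have h1 := G.mul a b
    rw [hab, G.zero, hm, hn, ← Nat.cast_add] at h1
    exact WithBot.bot_ne_coe h1⟩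
  exact NoZeroDivisors.to_isDomain A

theorem one : G.d 1 = 0 := by
  have := G.nontrivial
  obtain ⟨n, hn⟩ := G.exists_nat (one_ne_zero : (1 : A) ≠ 0)
  have h1 := G.mul 1 1
  rw [mul_one, hn, ← Nat.cast_add, Nat.cast_inj] at h1
  have h2 : n = 0 := by omega
  rw [hn, h2, Nat.cast_zero]

/-- Proof: `c` and `c⁻¹` have degrees whose sum is `0`. -/
theorem d_cst {c : K} (hc : c ≠ 0) : G.d (algebraMap K A c) = 0 := by
  have := G.nontrivial
  have h0 : algebraMap K A c ≠ 0 := by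
    rwa [Ne, FaithfulSMul.algebraMap_eq_zero_iff]
  have h1 : algebraMap K A c⁻¹ ≠ 0 := by
    rw [Ne, FaithfulSMul.algebraMap_eq_zero_iff]
    exact inv_ne_zero hc
  obtain ⟨m, hm⟩ := G.exists_nat h0
  obtain ⟨n, hn⟩ := G.exists_nat h1
  have h2 := G.mul (algebraMap K A c) (algebraMap K A c⁻¹)
  rw [← map_mul, mul_inv_cancel₀ hc, map_one, G.one, hm, hn, ← Nat.cast_add, ← Nat.cast_zero,
    Nat.cast_inj] at h2
  have h4 : m = 0 := by omega
  rw [hm, h4, Nat.cast_zero]

theorem smul {c : K} (hc : c ≠ 0) (x : A) : G.d (c • x) = G.d x := by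
  rw [Algebra.smul_def, G.mul, G.d_cst hc, zero_add]

theorem smul_le (c : K) (x : A) : G.d (c • x) ≤ G.d x := by
  by_cases hc : c = 0
  · rw [hc, zero_smul, G.zero]
    exact bot_le
  · exact (G.smul hc x).le

theorem neg (x : A) : G.d (-x) = G.d x := by
  have h : -x = (-1 : K) • x := by rw [neg_smul, one_smul]
  rw [h, G.smul (neg_ne_zero.2 one_ne_zero)]

theorem sub (x y : A) : G.d (x - y) ≤ max (G.d x) (G.d y) := by
  rw [sub_eq_add_neg]
  exact (G.add _ _).trans (by rw [G.neg])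

theorem add_eq {x y : A} (h : G.d x < G.d y) : G.d (x + y) = G.d y := by
  refine le_antisymm ((G.add _ _).trans (max_le h.le le_rfl)) ?_
  have h1 := G.sub (x + y) x
  rw [add_sub_cancel_left] at h1
  rcases le_max_iff.1 h1 with h2 | h2
  · exact h2
  · exact absurd h2 (not_le.2 h)

theorem pow {x : A} {m : ℕ} (hx : G.d x = m) (n : ℕ) : G.d (x ^ n) = (m * n : ℕ) := by
  induction n with
  | zero => rw [pow_zero, G.one, mul_zero, Nat.cast_zero]
  | succ n ih => rw [pow_succ, G.mul, ih, hx, ← Nat.cast_add, mul_add, mul_one]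

/-- An element of degree `≤ 0` is a constant. -/
theorem const {x : A} (h : G.d x ≤ 0) : ∃ c : K, x = algebraMap K A c := by
  have := G.nontrivial
  by_cases hx : x = 0
  · exact ⟨0, by rw [hx, map_zero]⟩
  obtain ⟨n, hn⟩ := G.exists_nat hx
  rw [hn, ← Nat.cast_zero, Nat.cast_le] at h
  have h1 : n = 0 := Nat.le_zero.1 h
  obtain ⟨c, hc⟩ := G.lead x 1 one_ne_zero (by rw [hn, G.one, h1, Nat.cast_zero])
  refine ⟨c, ?_⟩
  rw [G.one] at hc
  have h2 : x - c • (1 : A) = 0 := by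
    by_contra h3
    obtain ⟨k, hk⟩ := G.exists_nat h3
    rw [hk, ← Nat.cast_zero, Nat.cast_lt] at hc
    exact absurd hc (Nat.not_lt_zero k)
  rw [sub_eq_zero.1 h2, Algebra.algebraMap_eq_smul_one]

/-- The elements of degree `≤ n`. -/
def L (n : ℕ) : Submodule K A where
  carrier := {x | G.d x ≤ n}
  zero_mem' := by
    change G.d 0 ≤ n
    rw [G.zero]
    exact bot_le
  add_mem' {x y} hx hy := (G.add x y).trans (max_le hx hy)
  smul_mem' c x hx := (G.smul_le c x).trans hx

theorem mem_L {n : ℕ} {x : A} : x ∈ G.L n ↔ G.d x ≤ n := Iff.rfl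

end Dg

end CV
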