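import Pool.Agent.Lib.MP_f80667_ag.ZC.Defs
import Pool.Agent.Lib.MP_f80667_ag.Cv.Dg

/-!
The valuation ring at infinity of the field of fractions `E` of a `K`-algebra `A` with a degree function.
-/

open ZC

namespace CV

namespace Dg

variable {K A E : Type} [Field K] [CommRing A] [Algebra K A] [Field E] [Algebra A E]
  [IsFractionRing A E] [Algebra K E] [IsScalarTower K A E] (G : Dg K A)

theorem d_ne_bot_plV {x : A} (hx : x ≠ 0) : G.d x ≠ ⊥ := fun h => hx ((G.bot x).1 h)

/-- Comparison of the degrees for two expressions of the same quotient. -/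
theorem cross_plV {f g f' g' : A} (hg : g ≠ 0) (h : f * g' = f' * g) :
    G.d f ≤ G.d g → G.d f' ≤ G.d g' := by
  intro hle
  have h1 : G.d f + G.d g' = G.d f' + G.d g := by rw [← G.mul, ← G.mul, h]
  have h2 : G.d f' + G.d g ≤ G.d g' + G.d g := by
    rw [← h1, add_comm (G.d g')]
    exact add_le_add hle le_rfl
  exact (WithBot.add_le_add_iff_right (G.d_ne_bot_plV hg)).1 h2

theorem map_ne_plV {g : A} (hg : g ≠ 0) : algebraMap A E g ≠ 0 :=
  fun h => hg ((IsFractionRing.to_map_eq_zero_iff (R := A) (K := E)).1 h)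

/-- The valuation ring of the place at infinity: the quotients `f / g` with `d f ≤ d g`. -/
def vi : ValuationSubring E where
  carrier := {e | ∃ f g : A, g ≠ 0 ∧ G.d f ≤ G.d g ∧ e = algebraMap A E f / algebraMap A E g}
  mul_mem' := by
    have := G.isDomain
    rintro a b ⟨f, g, hg, hle, rfl⟩ ⟨f', g', hg', hle', rfl⟩
    refine ⟨f * f', g * g', mul_ne_zero hg hg', ?_, ?_⟩
    · rw [G.mul, G.mul]
      exact add_le_add hle hle'
    · rw [map_mul, map_mul, div_mul_div_comm]
  one_mem' := by
    have := G.nontrivial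
    exact ⟨1, 1, one_ne_zero, le_rfl, by rw [map_one, div_one]⟩
  add_mem' := by
    have := G.isDomain
    rintro a b ⟨f, g, hg, hle, rfl⟩ ⟨f', g', hg', hle', rfl⟩
    refine ⟨f * g' + g * f', g * g', mul_ne_zero hg hg', ?_, ?_⟩
    · refine (G.add _ _).trans (max_le ?_ ?_)
      · rw [G.mul, G.mul]
        exact add_le_add hle le_rfl
      · rw [G.mul, G.mul]
        exact add_le_add le_rfl hle'
    · rw [map_add, map_mul, map_mul, map_mul,
        div_add_div _ _ (map_ne_plV (E := E) hg) (map_ne_plV (E := E) hg')]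
  zero_mem' := by
    have := G.nontrivial
    refine ⟨0, 1, one_ne_zero, ?_, by rw [map_zero, zero_div]⟩
    rw [G.zero]
    exact bot_le
  neg_mem' := by
    rintro a ⟨f, g, hg, hle, rfl⟩
    exact ⟨-f, g, hg, by rw [G.neg]; exact hle, by rw [map_neg, neg_div]⟩
  mem_or_inv_mem' := by
    have := G.isDomain
    intro e
    obtain ⟨f, g, hg, rfl⟩ := IsFractionRing.div_surjective (A := A) e
    have hg0 : g ≠ 0 := nonZeroDivisors.ne_zero hg
    rcases le_or_gt (G.d f) (G.d g) with h | h
    · exact Or.inl ⟨f, g, hg0, h, rfl⟩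
    · refine Or.inr ⟨g, f, ?_, h.le, by rw [inv_div]⟩
      rintro rfl
      rw [G.zero] at h
      exact not_lt_bot h

/-- Proof: cross multiplication, `mul`. -/
theorem mem_vi {f g : A} (hg : g ≠ 0) :
    algebraMap A E f / algebraMap A E g ∈ G.vi (E := E) ↔ G.d f ≤ G.d g := by
  have := G.isDomain
  constructor
  · rintro ⟨f', g', hg', hle, h⟩
    refine G.cross_plV hg' ?_ hle
    apply IsFractionRing.injective A E
    rw [map_mul, map_mul]
    have h1 := (div_eq_div_iff (map_ne_plV (E := E) hg) (map_ne_plV (E := E) hg')).1 h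
    rw [h1]
  · intro h
    exact ⟨f, g, hg, h, rfl⟩

/-- Proof: `mem_vi` for the inverse. -/
theorem non_vi {f g : A} (hg : g ≠ 0) :
    algebraMap A E f / algebraMap A E g ∈ (G.vi (E := E)).nonunits ↔ G.d f < G.d g := by
  have := G.isDomain
  rw [ValuationSubring.mem_nonunits_iff]
  by_cases hf : f = 0
  · subst hf
    rw [map_zero, zero_div, map_zero, G.zero]
    exact ⟨fun _ => bot_lt_iff_ne_bot.2 (G.d_ne_bot_plV hg), fun _ => zero_lt_one⟩
  · have h1 := G.mem_vi (E := E) (f := g) hf
    rw [← ValuationSubring.valuation_le_one_iff, map_div₀] at h1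
    have h2 : ∀ x : A, x ≠ 0 → (G.vi (E := E)).valuation (algebraMap A E x) ≠ 0 := fun x hx =>
      (Valuation.ne_zero_iff _).2 (map_ne_plV (E := E) hx)
    rw [div_le_one₀ (zero_lt_iff.2 (h2 f hf))] at h1
    rw [map_div₀, div_lt_one₀ (zero_lt_iff.2 (h2 g hg)), ← not_le, h1, not_le]

end Dg

end CV
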