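import Pool.Agent.Lib.MP_f80667_ag.Cv.Lc
import Pool.Agent.Lib.MP_f80667_ag.Cv.PlV
import Pool.Agent.Lib.MP_f80667_ag.Be.PlX

/-!
The points of a curve over a function field and their values at the places.
-/

open ZC BE Polynomial TensorProduct

namespace CV

variable {F : Type} [Field F] {C : Crv F} {K E Ω : Type} [Field K] [CharZero K] [Field E] [Field Ω]
  [Algebra K E] [Algebra K Ω] [Algebra F K] [Algebra F E] [Algebra F Ω] [IsScalarTower F K E]
  [IsScalarTower F K Ω]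

/-- The point of the curve over the algebraic closure of `E` which is given by a homomorphism to `E`. -/
noncomputable def vpt (ψ : C.A →ₐ[F] E) : C.V.pt (AlgebraicClosure E) :=
  some ((IsScalarTower.toAlgHom F E (AlgebraicClosure E)).comp ψ)

theorem vpt_rat (ψ : C.A →ₐ[F] E) : C.V.Rat E (vpt ψ) := by
  intro σ
  refine congrArg some (AlgHom.ext fun a => ?_)
  exact σ.commutes (ψ a)

/-- Proof: `exists_above` of `Be/PlX.lean`. -/
theorem vpt_val [IsAlgClosed Ω] (ψ : C.A →ₐ[F] E) (w : Place K E Ω) (φ : C.A →ₐ[F] Ω)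
    (h : ∀ a, ∃ h : ψ a ∈ w.V, w.res ⟨ψ a, h⟩ = φ a) : C.V.IsVal w (vpt ψ) (some φ) := by
  obtain ⟨W, h1, h2⟩ := exists_above w
  refine ⟨W, h1, h2, Or.inr (Or.inr ⟨_, φ, rfl, rfl, fun a => ?_⟩)⟩
  obtain ⟨ha, hr⟩ := h a
  have h' := (h1 _).2 ha
  refine ⟨h', ?_⟩
  rw [← hr]
  exact (h2 _ ha h').symm

theorem vpt_inf [IsAlgClosed Ω] (ψ : C.A →ₐ[F] E) (w : Place K E Ω) (h : ∃ a, ψ a ∉ w.V) :
    C.V.IsVal w (vpt ψ) none := by
  obtain ⟨W, h1, h2⟩ := exists_above w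
  obtain ⟨a, ha⟩ := h
  exact ⟨W, h1, h2, Or.inr (Or.inl ⟨_, rfl, ⟨a, fun h3 => ha ((h1 _).1 h3)⟩, rfl⟩)⟩

/-- The place at infinity. `A'` has the degree function `G'`, `E` is its field of fractions, `ψ` comes from a homomorphism `C.A → A'` such that some value has positive degree. -/
theorem vpt_vi [IsAlgClosed Ω] {A' : Type} [CommRing A'] [Algebra K A'] [Algebra A' E]
    [IsFractionRing A' E] [IsScalarTower K A' E] (G' : Dg K A') (ψ : C.A →+* A')
    (ψ' : C.A →ₐ[F] E) (hψ : ∀ a, ψ' a = algebraMap A' E (ψ a)) (hp : ∃ a, 0 < G'.d (ψ a))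
    (w : Place K E Ω) (hw : w.V = G'.vi) : C.V.IsVal w (vpt ψ') none := by
  refine vpt_inf ψ' w ?_
  obtain ⟨a, ha⟩ := hp
  have := G'.nontrivial
  refine ⟨a, fun h => ?_⟩
  rw [hw, hψ] at h
  have h1 : algebraMap A' E (ψ a) / algebraMap A' E 1 ∈ G'.vi (E := E) := by
    rw [map_one, div_one]
    exact h
  rw [G'.mem_vi one_ne_zero, G'.one] at h1
  exact absurd ha (not_lt.2 h1)

end CV
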