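import Pool.Agent.Lib.MP_f80667_ag.Cv.Xp4
import Pool.Agent.Lib.MP_f80667_ag.Cv.XpV
import Pool.Agent.Lib.MP_f80667_ag.Cv.Rt
import Pool.Agent.Lib.MP_f80667_ag.Cv.Ex

/-!
Principal cycles over `M` are rationally equivalent to `0`.
-/

open ZC BE PE Polynomial TensorProduct IntermediateField

namespace CV

variable {F : Type} [Field F] {C : Crv F} {K Ω : Type} [Field K] [CharZero K] [Field Ω]
  [Algebra K Ω] [Algebra F K] [Algebra F Ω] [IsScalarTower F K Ω] [IsAlgClosure K Ω]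

private theorem xp5_sum {X : Type} (S : Finset X) (g : X → ℤ) (z : Option X →₀ ℤ)
    (h : ∀ φ ∈ S, z (some φ) = g φ) (h' : ∀ φ, φ ∉ S → z (some φ) = 0) {c : ℤ}
    (hc : z none = c) :
    z = ∑ φ ∈ S, Finsupp.single (some φ) (g φ) + Finsupp.single none c := by
  classical
  subst hc
  refine Finsupp.ext fun u => ?_
  rw [Finsupp.add_apply, Finsupp.finsetSum_apply]
  rcases u with _ | φ
  · rw [Finset.sum_eq_zero fun φ _ => Finsupp.single_eq_of_ne (by intro h; cases h), zero_add,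
      Finsupp.single_eq_same]
  · have h5 : (Finsupp.single (none : Option X) (z none)) (some φ) = 0 :=
      Finsupp.single_eq_of_ne (by intro h; cases h)
    rw [h5, add_zero]
    by_cases hφ : φ ∈ S
    · rw [Finset.sum_eq_single φ, h φ hφ, Finsupp.single_eq_same]
      · intro φ' _ hne
        refine Finsupp.single_eq_of_ne ?_
        intro h
        exact hne (Option.some.inj h).symm
      · exact fun h => absurd hφ h
    · rw [h' φ hφ]
      symm
      refine Finset.sum_eq_zero fun φ' hφ' => ?_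
      refine Finsupp.single_eq_of_ne ?_
      intro h
      exact hφ (Option.some.inj h ▸ hφ')

private theorem xp5_deg {X : Type} (S : Finset X) (g : X → ℤ) (c : ℤ) :
    Finsupp.liftAddHom (fun _ : Option X => AddMonoidHom.id ℤ)
      (∑ φ ∈ S, Finsupp.single (some φ) (g φ) + Finsupp.single none c) = ∑ φ ∈ S, g φ + c := by
  rw [map_add, map_sum, Finsupp.liftAddHom_apply_single]
  simp only [Finsupp.liftAddHom_apply_single, AddMonoidHom.id_apply]

/-- The divisor of a quotient of functions over `M`. Proof: `div_ratEq` for `G := C.G.bc M`, `A := M ⊗ A`, `E` its field of fractions (`FractionRing`), `P := vpt` of the inclusion `A → M ⊗ A → E`, `f (xl M φ) := some φ`, `o := none` (`exists_xl`, `xl_inj`, `xrg`, `vpt_rat`, `vpt_val`, `vpt_vi`; the degree of `1 ⊗ a` is that of `a`). -/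
theorem div_M (M : IntermediateField K Ω) [FiniteDimensional K M] {x y : M ⊗[F] C.A} {m n : ℕ}
    (hx : (C.G.bc M).d x = m) (hy : (C.G.bc M).d y = n) (S : Finset (C.A →ₐ[F] Ω))
    (hS : ∀ φ, φ ∉ S → od (xl M φ) x = od (xl M φ) y) :
    ∑ φ ∈ S, Finsupp.single (some φ : C.V.pt Ω) ((od (xl M φ) x : ℤ) - od (xl M φ) y) -
      Finsupp.single (none : C.V.pt Ω) ((m : ℤ) - n) ∈ C.V.ratEq M Ω := by
  classical
  have hdom : IsDomain (M ⊗[F] C.A) := (C.G.bc M).isDomain
  have hcl : IsAlgClosure M Ω := ⟨IsAlgClosure.isAlgClosed K, inferInstance⟩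
  have halg : Algebra.IsAlgebraic M Ω := IsAlgClosure.isAlgebraic
  have hcz : CharZero M := charZero_of_injective_algebraMap (algebraMap K M).injective
  have hac : IsAlgClosed Ω := IsAlgClosure.isAlgClosed K
  have hsm := C.sm
  have hx0 : x ≠ 0 := (C.G.bc M).ne_zero hx
  have hy0 : y ≠ 0 := (C.G.bc M).ne_zero hy
  let E := FractionRing (M ⊗[F] C.A)
  let ψ : C.A →+* M ⊗[F] C.A :=
    (Algebra.TensorProduct.includeRight : C.A →ₐ[F] M ⊗[F] C.A).toRingHom
  let ψ' : C.A →ₐ[F] E := (IsScalarTower.toAlgHom F (M ⊗[F] C.A) E).comp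
    Algebra.TensorProduct.includeRight
  have hψ : ∀ a, ψ' a = algebraMap (M ⊗[F] C.A) E (ψ a) := fun a => rfl
  let f : ((M ⊗[F] C.A) →ₐ[M] Ω) → C.V.pt Ω := fun φ => some (exists_xl φ).choose
  have hfx : ∀ φ : C.A →ₐ[F] Ω, f (xl M φ) = some φ := by
    intro φ
    have h1 := (exists_xl (xl M φ)).choose_spec
    exact congrArg some (xl_inj h1).symm
  have hrg : ∀ φ : C.A →ₐ[F] Ω, ∃ t, Rg (xl M φ) t := fun φ => xrg C.G φ
  have key := (C.G.bc M).div_ratEq (E := E) (Ω := Ω) C.V hx hy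
    (S.image fun φ => xl M φ) (fun φ => od φ x) (fun φ => od φ y)
    (by
      intro φ' hφ'
      obtain ⟨φ, -, rfl⟩ := Finset.mem_image.1 hφ'
      obtain ⟨t, ht⟩ := hrg φ
      exact ⟨t, ht, (C.G.bc M).od_spec ht hx0, (C.G.bc M).od_spec ht hy0⟩)
    (by
      intro φ' hφ'
      obtain ⟨φ, rfl⟩ := exists_xl φ'
      have hφ : φ ∉ S := fun h => hφ' (Finset.mem_image_of_mem _ h)
      obtain ⟨t, ht⟩ := hrg φ
      have h1 := (C.G.bc M).od_spec ht hx0
      rw [hS φ hφ] at h1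
      exact h1.trans ((C.G.bc M).od_spec ht hy0).symm)
    (vpt ψ') (vpt_rat ψ') f none
    (by
      intro φ' hφ' w hw
      obtain ⟨φ, -, rfl⟩ := Finset.mem_image.1 hφ'
      rw [hfx]
      refine vpt_val ψ' w φ fun a => ?_
      obtain ⟨h1, h2⟩ := hw (ψ a)
      refine ⟨h1, ?_⟩
      rw [show φ a = xl M φ (ψ a) by
        change φ a = xl M φ ((1 : M) ⊗ₜ[F] a)
        rw [xl_tmul, map_one, one_mul]]
      exact h2)
    (by
      intro w hw
      refine vpt_vi (C.G.bc M) ψ ψ' hψ ?_ w hw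
      obtain ⟨n₀, h0⟩ := C.G.tail
      obtain ⟨a, ha⟩ := h0 (n₀ + 1) (by omega)
      refine ⟨a, ?_⟩
      change 0 < (C.G.bc M).d ((1 : M) ⊗ₜ[F] a)
      rw [C.G.bc_one_tmul, ha, ← Nat.cast_zero, Nat.cast_lt]
      omega)
  rw [Finset.sum_image fun φ _ φ' _ h => xl_inj h] at key
  simp only [hfx] at key
  exact key

/-- The number of zeros is the degree. Proof: `deg_cy_span` for `xi x`, `cy_od`, `xod`, `xi_d`. -/
theorem sum_od (M : IntermediateField K Ω) [FiniteDimensional K M] {x : M ⊗[F] C.A} {m : ℕ}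
    (hx : (C.G.bc M).d x = m) (S : Finset (C.A →ₐ[F] Ω)) (hS : ∀ φ, φ ∉ S → od (xl M φ) x = 0) :
    ∑ φ ∈ S, od (xl M φ) x = m := by
  classical
  have hcl : IsAlgClosure M Ω := ⟨IsAlgClosure.isAlgClosed K, inferInstance⟩
  have hcz : CharZero M := charZero_of_injective_algebraMap (algebraMap K M).injective
  have hczO : CharZero Ω := charZero_of_injective_algebraMap (algebraMap K Ω).injective
  have hac : IsAlgClosed Ω := IsAlgClosure.isAlgClosed K
  have hsm := C.sm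
  have hx0 : x ≠ 0 := (C.G.bc M).ne_zero hx
  have hd : (C.dgO Ω).d (xi F C.A M Ω x) = m := (xi_d C.G x).trans hx
  have h0 : xi F C.A M Ω x ≠ 0 := (C.dgO Ω).ne_zero hd
  have h1 := deg_cy_span hd
  have h2 : ∀ φ : C.A →ₐ[F] Ω,
      cy (Ideal.span {xi F C.A M Ω x}) (some φ) = (od (xl M φ) x : ℤ) := by
    intro φ
    rw [cy_od h0, xod C.G φ hx0]
  have h3 := xp5_sum S (fun φ => (od (xl M φ) x : ℤ)) (cy (Ideal.span {xi F C.A M Ω x}))
    (fun φ _ => h2 φ) (fun φ hφ => (h2 φ).trans (by rw [hS φ hφ, Nat.cast_zero]))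
    (cy_efc (Ideal.span {xi F C.A M Ω x})).2
  have h4 := (xp5_deg S (fun φ => (od (xl M φ) x : ℤ)) 0).symm.trans
      ((congrArg (Finsupp.liftAddHom
        (fun _ : Option (C.A →ₐ[F] Ω) => AddMonoidHom.id ℤ)) h3).symm.trans h1)
  rw [add_zero] at h4
  exact_mod_cast h4

/-- **ExPr.** Proof: `pc_desc`; `S` = the `φ` with `z (some φ) ≠ 0` or `od x ≠ 0` or `od y ≠ 0` (`zeros_fin`, `od_zero`); `div_M`; the coefficient of `none`: `deg z = 0` and `sum_od`. -/
theorem exPr (C : Crv F) : ExPr C K Ω := by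
  classical
  intro M hM z hz hzd
  have hcl : IsAlgClosure M Ω := ⟨IsAlgClosure.isAlgClosed K, inferInstance⟩
  have halg : Algebra.IsAlgebraic M Ω := IsAlgClosure.isAlgebraic
  have hcz : CharZero M := charZero_of_injective_algebraMap (algebraMap K M).injective
  have hsm := C.sm
  obtain ⟨x, y, hx0, hy0, hxy⟩ := pc_desc M hz hzd.1
  obtain ⟨m, hx⟩ := (C.G.bc M).exists_nat hx0
  obtain ⟨n, hy⟩ := (C.G.bc M).exists_nat hy0
  have hfin : ∀ u : M ⊗[F] C.A, u ≠ 0 → {φ : C.A →ₐ[F] Ω | od (xl M φ) u ≠ 0}.Finite := by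
    intro u hu
    refine Set.Finite.subset (((C.G.bc M).zeros_fin (Ω := Ω) hu).preimage
      (f := fun φ : C.A →ₐ[F] Ω => xl M φ) (fun φ _ φ' _ h => xl_inj h)) ?_
    intro φ hφ
    obtain ⟨t, ht⟩ := xrg (M := M) C.G φ
    by_contra h0
    exact hφ ((C.G.bc M).od_zero ht h0)
  obtain ⟨S, hS⟩ := ((hfin x hx0).union (hfin y hy0)).exists_finset
  have hS1 : ∀ φ, φ ∉ S → od (xl M φ) x = 0 ∧ od (xl M φ) y = 0 := by
    intro φ hφ
    rw [hS, Set.mem_union, not_or] at hφ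
    exact ⟨not_not.1 hφ.1, not_not.1 hφ.2⟩
  have key := div_M M hx hy S (fun φ hφ => by rw [(hS1 φ hφ).1, (hS1 φ hφ).2])
  have e1 := sum_od M hx S (fun φ hφ => (hS1 φ hφ).1)
  have e2 := sum_od M hy S (fun φ hφ => (hS1 φ hφ).2)
  have h1 := xp5_sum S (fun φ => (od (xl M φ) x : ℤ) - od (xl M φ) y) z
    (fun φ _ => hxy φ)
    (fun φ hφ => by
      refine (hxy φ).trans ?_
      rw [(hS1 φ hφ).1, (hS1 φ hφ).2, Nat.cast_zero, sub_self]) (c := z none) rfl
  have h4 := (xp5_deg S (fun φ => (od (xl M φ) x : ℤ) - od (xl M φ) y) (z none)).symm.trans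
      ((congrArg (Finsupp.liftAddHom
        (fun _ : Option (C.A →ₐ[F] Ω) => AddMonoidHom.id ℤ)) h1).symm.trans hzd.2)
  rw [Finset.sum_sub_distrib, ← Nat.cast_sum, ← Nat.cast_sum, e1, e2] at h4
  have h2 : z none = -((m : ℤ) - n) := by linarith
  have h5 : z = ∑ φ ∈ S, Finsupp.single (some φ : C.V.pt Ω)
      ((od (xl M φ) x : ℤ) - od (xl M φ) y) -
      Finsupp.single (none : C.V.pt Ω) ((m : ℤ) - n) := by
    refine (xp5_sum S (fun φ => (od (xl M φ) x : ℤ) - od (xl M φ) y) z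
      (fun φ _ => hxy φ)
      (fun φ hφ => by
        refine (hxy φ).trans ?_
        rw [(hS1 φ hφ).1, (hS1 φ hφ).2, Nat.cast_zero, sub_self]) h2).trans ?_
    rw [Finsupp.single_neg, ← sub_eq_add_neg]
  exact h5 ▸ key

end CV
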