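import Pool.Agent.Lib.MP_f80667_ag.Cv.Ex
import Pool.Agent.Lib.MP_f80667_ag.Cv.ChB
import Pool.Agent.Lib.MP_f80667_ag.Cv.Xp5
import Pool.Agent.Lib.MP_f80667_ag.Cv.CxL
import Pool.Agent.Lib.MP_f80667_ag.Cv.Sm5
import Pool.Agent.Lib.MP_f80667_ag.Cv.IfX
import Pool.Agent.Lib.MP_f80667_ag.Cv.ExDN

/-!
The statements of `Cv/Ex.lean` for all curves.
-/
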