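import Pool.Agent.Lib.MP_f80667_ag.Cv.S3n

/-! Integral points of a product of curves are rationally equivalent to unramified points: the end of the proof. -/

open ZC BE PE Polynomial IntermediateField

namespace CV

variable {F : Type} [Field F] {K Ω : Type} [Field K] [Field Ω] [Algebra K Ω]
  [Algebra F K] [Algebra F Ω] [IsScalarTower F K Ω] [CharZero K] [IsAlgClosure K Ω] {L : Ld K Ω}

/-- The displacements are invariant. -/
private theorem S3nA_dsp_fx {V : Vr F} [Hf V] {nr : V.pt Ω → V.pt Ω → Prop}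
    {M : IntermediateField K Ω} [FiniteDimensional K M] {z : V.pt Ω →₀ ℤ}
    (hz : z ∈ Dsp L V nr M) : Fx M z := by
  refine AddSubgroup.closure_induction (p := fun z _ => Fx M z) ?_ ?_ ?_ ?_ hz
  · rintro z ⟨N, M', y, y', hN, hM, hM', hy, hy', -, rfl⟩
    have h1 : FiniteDimensional K (L.Ur M N) := Ld.ur_fin M N hN
    have h2 : FiniteDimensional K M' := fin_le hM'
    rw [rtr_eq hM]
    exact nm_fx hM ((fx_single hy 1).sub (fx_single hy' 1))
  · intro γ _
    exact smul_zero γ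
  · intro a b _ _ ha hb γ hγ
    rw [smul_add, ha γ hγ, hb γ hγ]
  · intro a _ ha γ hγ
    rw [smul_neg, ha γ hγ]

omit [CharZero K] [IsAlgClosure K Ω] in
/-- The automorphisms over `M` and the values of polynomials over `M`. -/
private theorem S3nA_eval {M : IntermediateField K Ω} {r : Polynomial Ω} (hr : ∀ i, r.coeff i ∈ M)
    {γ : Ω ≃ₐ[K] Ω} (hγ : γ ∈ M.fixingSubgroup) (z : Ω) : γ (r.eval z) = r.eval (γ z) := by
  rw [Polynomial.eval_eq_sum_range, Polynomial.eval_eq_sum_range, map_sum]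
  refine Finset.sum_congr rfl fun i _ => ?_
  rw [map_mul, map_pow, (IntermediateField.mem_fixingSubgroup_iff M γ).1 hγ _ (hr i)]

omit [CharZero K] [IsAlgClosure K Ω] in
/-- A bound for the norms of the lower coefficients. -/
private theorem S3nA_bound {M : IntermediateField K Ω} {f : Polynomial Ω} (hf : Dpo L M f) :
    ∃ ρ : ℝ, ρ < 1 ∧ ∀ i, L.nm (f.coeff i - (X ^ f.natDegree : Polynomial Ω).coeff i) ≤ ρ := by
  have h1 : ∀ n : ℕ, (∀ i < n, L.nm (f.coeff i) < 1) →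
      ∃ ρ : ℝ, 0 ≤ ρ ∧ ρ < 1 ∧ ∀ i < n, L.nm (f.coeff i) ≤ ρ := by
    intro n
    induction n with
    | zero => exact fun _ => ⟨0, le_rfl, zero_lt_one, fun i hi => absurd hi (Nat.not_lt_zero i)⟩
    | succ n ih =>
      intro h
      obtain ⟨ρ, h0, h1, h2⟩ := ih fun i hi => h i (hi.trans (Nat.lt_succ_self n))
      refine ⟨max ρ (L.nm (f.coeff n)), h0.trans (le_max_left _ _),
        max_lt h1 (h n (Nat.lt_succ_self n)), fun i hi => ?_⟩
      rcases Nat.lt_succ_iff_lt_or_eq.1 hi with hi | rfl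
      · exact (h2 i hi).trans (le_max_left _ _)
      · exact le_max_right _ _
  obtain ⟨ρ, h0, h2, h3⟩ := h1 f.natDegree hf.lt
  refine ⟨ρ, h2, fun i => ?_⟩
  rw [coeff_X_pow]
  rcases lt_trichotomy i f.natDegree with hi | hi | hi
  · rw [if_neg hi.ne, sub_zero]
    exact h3 i hi
  · rw [if_pos hi, hi, hf.monic.coeff_natDegree, sub_self, L.zero]
    exact h0
  · rw [if_neg hi.ne', coeff_eq_zero_of_natDegree_lt hi, sub_zero, L.zero]
    exact h0

omit [CharZero K] [IsAlgClosure K Ω] in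
private theorem S3nA_Xpow (M : IntermediateField K Ω) (n : ℕ) :
    Dpo L M (X ^ n : Polynomial Ω) where
  monic := monic_X_pow n
  mem i := by
    rw [coeff_X_pow]
    split_ifs
    · exact one_mem _
    · exact zero_mem _
  lt i hi := by
    rw [natDegree_X_pow] at hi
    rw [coeff_X_pow, if_neg hi.ne, L.zero]
    exact zero_lt_one

variable {ι : Type} {C : ι → Crv F} (m : ∀ i, Mod (C i) (Ok L) K)

/-- **S3.** Proof: `exists_ur`: `M₀ = Ur ⊥ f`; `eis`; `chart_pt`: `x i = T i . P (w i)`, `w i = r i z`; `nm_rcy` with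
`P w = fun i => (T i).P ((r i).eval w)` (equivariant by `T.eqv`, `nm (r i w) < 1` for `nm w < 1`): `Nm M₀ M [x] = rcy P f`;
`hcx` with `f` and `X ^ n`, `n = f.natDegree`, `ρ` the maximum of the norms of the lower coefficients of `f`:
`rcy P f - n [P 0] = z₁ + z₂`; `z₁ ∈ ratEq M₀ Ω` is invariant (the others are), `nm_ratEq`; `dsp_uz`; `nm_tr`. -/
theorem s3n [Finite ι] (hcx : ExCx m) (hrs : ∀ i, ExRs (m i)) (hch : ∀ i, ExCh (m i))
    {M : IntermediateField K Ω} [FiniteDimensional K M] {x : (Vpi fun i => (C i).V).pt Ω}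
    (hM : Fp (Vpi fun i => (C i).V) M x) (hi : NrP m 1 x x) :
    Nm (⊥ : IntermediateField K Ω) M (Finsupp.single x 1) ∈
      (Vpi fun i => (C i).V).ratEq K Ω ⊔ Uz m := by
  obtain ⟨e, he, hRf⟩ := exists_ur (L := L) M
  obtain ⟨M₀, hM₀⟩ : ∃ M₀, M₀ = L.Ur (⊥ : IntermediateField K Ω) e := ⟨_, rfl⟩
  have h : M₀ ≤ M := by
    rw [hM₀]
    exact hRf.le
  have hfd : FiniteDimensional K M₀ := fin_le h
  have hur : M₀ ≤ L.Ur (⊥ : IntermediateField K Ω) e := hM₀.le
  have hr : ∀ b ∈ M, L.nm b ≤ 1 → ∃ a ∈ M₀, L.nm (b - a) < 1 := by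
    intro b hb hb1
    obtain ⟨a, ha, hab⟩ := hRf.res b hb hb1
    refine ⟨a, ?_, hab⟩
    rw [hM₀]
    exact Ld.te_ur ha
  obtain ⟨z, hzM, hz1, f, hf, hsep, hroots, hstab, hpol⟩ := eis h hr
  have hch' : ∀ i, ∃ (T : Cht (m i) M₀) (w : Ω), w ∈ M ∧ L.nm w < 1 ∧ x i = T.P w := fun i =>
    chart_pt (hrs i) (hch i) h hr (fun γ hγ => congrFun (hM γ hγ) i) (hi i)
  choose T w hwM hw1 hxw using hch'
  have hpol' : ∀ i, ∃ r, Ipo L M₀ r ∧ r.eval z = w i := fun i => hpol (w i) (hwM i) (hw1 i)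
  choose r hrI hrz using hpol'
  let P : Ω → (Vpi fun i => (C i).V).pt Ω := fun w i => (T i).P ((r i).eval w)
  have hPz : P z = x := by
    funext i
    change (T i).P ((r i).eval z) = x i
    rw [hrz, hxw]
  have hrcy : Nm M₀ M (Finsupp.single x 1 : (Vpi fun i => (C i).V).pt Ω →₀ ℤ) = rcy P f := by
    rw [← hPz]
    refine nm_rcy h hsep hroots hstab P fun γ hγ => ?_
    funext i
    change (C i).V.act γ ((T i).P ((r i).eval z)) = (T i).P ((r i).eval (γ z))
    rw [(T i).eqv γ hγ _ (by rw [hrz]; exact hw1 i), S3nA_eval (hrI i).mem hγ]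
  obtain ⟨ρ, hρ, hle⟩ := S3nA_bound hf
  have h1 := hcx M₀ hfd T r hrI f (X ^ f.natDegree) ρ hf (S3nA_Xpow M₀ _)
    (natDegree_X_pow _).symm hρ hle
  obtain ⟨z₁, hz₁, z₂, hz₂, h2⟩ := AddSubgroup.mem_sup.1 h1
  have hc : ∀ i, (r i).eval 0 = (r i).coeff 0 := fun i => (coeff_zero_eq_eval_zero _).symm
  have hP0 : Fp (Vpi fun i => (C i).V) M₀ (P 0) := by
    intro γ hγ
    funext i
    change (C i).V.act γ ((T i).P ((r i).eval 0)) = (T i).P ((r i).eval 0)
    rw [(T i).eqv γ hγ _ (by rw [hc]; exact (hrI i).lt), S3nA_eval (hrI i).mem hγ, map_zero]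
  have hN0 : NrP m 1 (P 0) (P 0) := by
    intro i
    change Nr (m i) 1 ((T i).P ((r i).eval 0)) ((T i).P ((r i).eval 0))
    refine ((T i).near _ _ ?_ ?_ 1 zero_le_one le_rfl).2 ?_
    · rw [hc]
      exact (hrI i).lt
    · rw [hc]
      exact (hrI i).lt
    · rw [sub_self, L.zero]
      exact zero_le_one
  have h3 : rcy P f = z₁ + (z₂ + rcy P (X ^ f.natDegree)) := by
    have h4 : z₁ + z₂ = rcy P f - rcy P (X ^ f.natDegree) := h2
    rw [← add_assoc, h4, sub_add_cancel]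
  rw [rcy_X_pow] at h3
  have hfx : Fx M₀ (rcy P f) := by
    rw [← hrcy]
    exact nm_fx h (fx_single hM 1)
  have hfx₂ : Fx M₀ z₂ := S3nA_dsp_fx hz₂
  have hfx₁ : Fx M₀ z₁ := by
    have h4 : z₁ = rcy P f - (z₂ + Finsupp.single (P 0) (f.natDegree : ℤ)) := by
      rw [h3, add_sub_cancel_right]
    rw [h4]
    exact hfx.sub (hfx₂.add (fx_single hP0 _))
  rw [nm_tr bot_le h (fx_single hM 1), hrcy, h3, nm_add bot_le, nm_add bot_le]
  refine add_mem (AddSubgroup.mem_sup_left (nm_ratEq hz₁ hfx₁)) (AddSubgroup.mem_sup_right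
    (add_mem (dsp_uz m he hur hρ hz₂) ?_))
  have h5 : (Finsupp.single (P 0) (f.natDegree : ℤ) : (Vpi fun i => (C i).V).pt Ω →₀ ℤ) =
      f.natDegree • Finsupp.single (P 0) (1 : ℤ) := by
    rw [Finsupp.smul_single, nsmul_eq_mul, mul_one]
  have h6 : Nm (⊥ : IntermediateField K Ω) M₀ (Finsupp.single (P 0) (1 : ℤ)) ∈ Uz m :=
    AddSubgroup.subset_closure ⟨e, M₀, P 0, he, hur, hP0, hN0, rfl⟩
  rw [h5, nm_nsmul bot_le]
  exact nsmul_mem h6 _

end CV
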