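import Pool.Agent.Lib.MP_f80667_ag.Cv.NfB
import Pool.Agent.Lib.MP_f80667_ag.Cv.S3nA

/-! The integral points of a product of curves, some of whose coordinates may be infinite. -/

open ZC BE PE Polynomial IntermediateField

namespace CV

variable {F : Type} [Field F]

open Classical in
/-- The inclusion of the product of a subfamily: the other coordinates are the base points. -/
private noncomputable def NfB2_inc {ι : Type} {V : ι → Vr F} (o : ∀ i, Bp (V i)) (P : ι → Prop) :
    Mo (Vpi fun j : {i // P i} => V j.1) (Vpi V) where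
  f L _ _ x := fun i => if h : P i then x ⟨i, h⟩ else (o i).o L
  nat L M _ _ _ _ σ x := by
    funext i
    change (V i).map σ (if h : P i then x ⟨i, h⟩ else (o i).o L) =
      if h : P i then (V i).map σ (x ⟨i, h⟩) else (o i).o M
    split_ifs with h
    · rfl
    · exact (o i).nat L M σ
  red K L Ω _ _ _ _ _ _ _ w x y h := by
    intro i
    change (V i).red w (if h : P i then x ⟨i, h⟩ else (o i).o L)
      (if h : P i then y ⟨i, h⟩ else (o i).o Ω)
    split_ifs with hi
    · exact h ⟨i, hi⟩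
    · exact (o i).red K L Ω w

variable {K Ω : Type} [Field K] [Field Ω] [Algebra K Ω]
  [Algebra F K] [Algebra F Ω] [IsScalarTower F K Ω] [CharZero K] [IsAlgClosure K Ω] {L : Ld K Ω}
  {ι : Type} {C : ι → Crv F}

/-- The norms of points and morphisms. -/
private theorem NfB2_nm {V W : Vr F} [Hf V] [Hf W] (φ : Mo V W) (M : IntermediateField K Ω)
    [FiniteDimensional K M] (x : V.pt Ω) :
    Finsupp.mapDomain (φ.f Ω) (Nm (⊥ : IntermediateField K Ω) M
      (Finsupp.single x 1 : V.pt Ω →₀ ℤ)) =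
      Nm (⊥ : IntermediateField K Ω) M (Finsupp.single (φ.f Ω x) 1 : W.pt Ω →₀ ℤ) := by
  have h := hom_nm (K := K) (Ω := Ω) (Finsupp.mapDomain.addMonoidHom (M := ℤ) (φ.f Ω))
    (bot_le : (⊥ : IntermediateField K Ω) ≤ M) (fun γ _ a => ?_) (Finsupp.single x 1)
  · rw [Finsupp.mapDomain.addMonoidHom_apply, Finsupp.mapDomain.addMonoidHom_apply,
      Finsupp.mapDomain_single] at h
    exact h
  · rw [Finsupp.mapDomain.addMonoidHom_apply, Finsupp.mapDomain.addMonoidHom_apply, smul_def,
      smul_def, ← Finsupp.mapDomain_comp, ← Finsupp.mapDomain_comp]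
    exact congrArg (fun g => Finsupp.mapDomain g a) (funext fun x => (φ.act γ x).symm)

variable (m : ∀ i, Mod (C i) (Ok L) K)

/-- Proof: `J = {i // y i ≠ none}`, `σ` the inclusion; `s3n` for the subfamily and the restriction of `y`; push forward to
`ι` with the morphism which puts the base point (`(C i).bp`) at the other coordinates (`Mo.ratEq`, `hom_nm`). -/
theorem io_le [Finite ι] (hcx : ∀ (J : Type) [Finite J] (σ : J → ι), ExCx fun j => m (σ j))
    (hrs : ∀ i, ExRs (m i)) (hch : ∀ i, ExCh (m i)) :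
    Io m ≤ (Vpi fun i => (C i).V).ratEq K Ω ⊔ Uo L C := by
  refine (AddSubgroup.closure_le _).2 ?_
  rintro _ ⟨M, y, hfd, hM, hy, rfl⟩
  have hsub := s3n (K := K) (Ω := Ω) (L := L) (C := fun j : {i // y i ≠ none} => C j.1)
    (fun j => m j.1) (M := M) (x := fun j => y j.1) (hcx _ Subtype.val) (fun j => hrs j.1)
    (fun j => hch j.1) (fun γ hγ => funext fun j => congrFun (hM γ hγ) j.1)
    (fun j => (hy j.1).resolve_left j.2)
  obtain ⟨z₁, hz₁, z₂, hz₂, h2⟩ := AddSubgroup.mem_sup.1 hsub
  let φ : Mo (Vpi fun j : {i // y i ≠ none} => (C j.1).V) (Vpi fun i => (C i).V) :=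
    NfB2_inc (fun i => (C i).bp) _
  have hφy : φ.f Ω (fun j => y j.1) = y := by
    funext i
    by_cases h : y i ≠ none
    · exact dif_pos h
    · exact (dif_neg h).trans (not_not.1 h).symm
  have h3 := NfB2_nm φ M (fun j => y j.1)
  rw [hφy, ← h2, Finsupp.mapDomain_add] at h3
  rw [SetLike.mem_coe, ← h3]
  refine add_mem (AddSubgroup.mem_sup_left (φ.ratEq K Ω hz₁)) (AddSubgroup.mem_sup_right ?_)
  refine AddSubgroup.closure_induction
    (p := fun z _ => Finsupp.mapDomain (φ.f Ω) z ∈ Uo L C) ?_ ?_ ?_ ?_ hz₂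
  · rintro _ ⟨N, M', y', hN, hM', hy', -, rfl⟩
    have h5 : FiniteDimensional K (L.Ur (⊥ : IntermediateField K Ω) N) := Ld.ur_fin ⊥ N hN
    have h6 : FiniteDimensional K M' := fin_le hM'
    rw [NfB2_nm]
    refine AddSubgroup.subset_closure ⟨N, M', φ.f Ω y', hN, hM', fun γ hγ => ?_, rfl⟩
    rw [φ.act, hy' γ hγ]
  · rw [Finsupp.mapDomain_zero]
    exact zero_mem _
  · intro a b _ _ ha hb
    rw [Finsupp.mapDomain_add]
    exact add_mem ha hb
  · intro a _ ha
    have h7 := (Finsupp.mapDomain.addMonoidHom (M := ℤ) (φ.f Ω)).map_neg a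
    rw [Finsupp.mapDomain.addMonoidHom_apply, Finsupp.mapDomain.addMonoidHom_apply] at h7
    rw [h7]
    exact neg_mem ha

end CV
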