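import Pool.Agent.Lib.MP_f80667_ag.Cv.NfC

/-! The component in the Albanese kernel of a cycle on a product of curves: rational equivalence, Galois action. -/

open ZC BE PE Polynomial IntermediateField

namespace CV

variable {F : Type} [Field F] {K Ω : Type} [Field K] [Field Ω] [Algebra K Ω]
  [Algebra F K] [Algebra F Ω] [IsScalarTower F K Ω] [CharZero K] [IsAlgClosure K Ω]
  {ι : Type} (C : ι → Crv F)

/-- The base point of the product. -/
private def nfC2_o : Bp (Vpi fun i => (C i).V) where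
  o L _ _ := fun i => (C i).bp.o L
  nat L M _ _ _ _ σ := funext fun i => (C i).bp.nat L M σ
  red K L Ω _ _ _ _ _ _ _ w := fun i => (C i).bp.red K L Ω w

/-- The composite of a projection and a section. -/
private noncomputable def nfC2_s (i : ι) : Mo (Vpi fun i => (C i).V) (Vpi fun i => (C i).V) :=
  (sc (V := fun i => (C i).V) (fun j => (C j).bp) i).comp (pr (V := fun i => (C i).V) i)

private theorem nfC2_s_f (i : ι) (L : Type) [Field L] [Algebra F L] :
    (nfC2_s C i).f L = fun x => u₁ (o' C) i (x i) := rfl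

private theorem nfC2_c_f (L : Type) [Field L] [Algebra F L] :
    (Mo.cst (Vpi fun i => (C i).V) (nfC2_o C)).f L = fun _ => o' C := rfl

private theorem nfC2_th [Fintype ι] (L : Type) [Field L] [Algebra F L]
    (z : (Vpi fun i => (C i).V).pt L →₀ ℤ) :
    th L C z = z - ∑ i, Finsupp.mapDomain ((nfC2_s C i).f L) z +
      ((Fintype.card ι : ℤ) - 1) •
        Finsupp.mapDomain ((Mo.cst (Vpi fun i => (C i).V) (nfC2_o C)).f L) z := by
  rw [th, AddMonoidHom.add_apply, AddMonoidHom.sub_apply, AddMonoidHom.finsetSum_apply]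
  rfl

/-- Proof: `Mo.ratEq` for `sc i` after `pr i` and the constant morphism. -/
theorem th_ratEq [Fintype ι] (M : Type) [Field M] [Algebra F M] [Algebra M Ω]
    {z : (Vpi fun i => (C i).V).pt Ω →₀ ℤ} (hz : z ∈ (Vpi fun i => (C i).V).ratEq M Ω) :
    th Ω C z ∈ (Vpi fun i => (C i).V).ratEq M Ω := by
  rw [nfC2_th]
  refine add_mem (sub_mem hz (sum_mem fun i _ => (nfC2_s C i).ratEq M Ω hz)) ?_
  exact zsmul_mem ((Mo.cst (Vpi fun i => (C i).V) (nfC2_o C)).ratEq M Ω hz) _

private theorem nfC2_const {V : Vr F} {Y : Type} (o : Y) (u : V.pt Ω →₀ ℤ) :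
    Finsupp.mapDomain (fun _ : V.pt Ω => o) u = Finsupp.single o (V.deg Ω u) := by
  induction u using Finsupp.induction_linear with
  | zero => simp
  | add f g hf hg => rw [Finsupp.mapDomain_add, hf, hg, map_add, Finsupp.single_add]
  | single a n => rw [Finsupp.mapDomain_single, Vr.deg, Finsupp.liftAddHom_apply_single]; rfl

/-- On the Albanese kernel `th` is the identity modulo `ratEq`. -/
theorem th_id [Fintype ι] {z : (Vpi fun i => (C i).V).pt Ω →₀ ℤ}
    (hz : z ∈ (Vpi fun i => (C i).V).D0 K Ω)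
    (h : ∀ i, Finsupp.mapDomain ((pr i).f Ω) z ∈ (C i).V.ratEq K Ω) :
    th Ω C z - z ∈ (Vpi fun i => (C i).V).ratEq K Ω := by
  have hdeg : (Vpi fun i => (C i).V).deg Ω z = 0 := hz.2
  have h1 : Finsupp.mapDomain ((Mo.cst (Vpi fun i => (C i).V) (nfC2_o C)).f Ω) z = 0 := by
    rw [nfC2_c_f]
    have h2 := nfC2_const (V := Vpi fun i => (C i).V) (o' (Ω := Ω) C) z
    rw [hdeg, Finsupp.single_zero] at h2
    exact h2
  have h3 : th Ω C z - z = -∑ i, Finsupp.mapDomain ((nfC2_s C i).f Ω) z := by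
    rw [nfC2_th, h1, smul_zero]
    abel
  rw [h3]
  refine neg_mem (sum_mem fun i _ => ?_)
  have h4 : Finsupp.mapDomain ((nfC2_s C i).f Ω) z =
      Finsupp.mapDomain ((sc (V := fun i => (C i).V) (fun j => (C j).bp) i).f Ω)
        (Finsupp.mapDomain ((pr (V := fun i => (C i).V) i).f Ω) z) := by
    rw [← Finsupp.mapDomain_comp]
    rfl
  rw [h4]
  exact (sc (V := fun i => (C i).V) (fun j => (C j).bp) i).ratEq K Ω (h i)

private theorem nfC2_act (φ : Mo (Vpi fun i => (C i).V) (Vpi fun i => (C i).V)) (γ : Ω ≃ₐ[K] Ω)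
    (z : (Vpi fun i => (C i).V).pt Ω →₀ ℤ) :
    γ • Finsupp.mapDomain (φ.f Ω) z = Finsupp.mapDomain (φ.f Ω) (γ • z) := by
  rw [smul_def, smul_def, ← Finsupp.mapDomain_comp, ← Finsupp.mapDomain_comp]
  have h1 : (Vpi fun i => (C i).V).act γ ∘ φ.f Ω = φ.f Ω ∘ (Vpi fun i => (C i).V).act γ :=
    funext fun x => φ.act γ x
  rw [h1]

theorem th_smul [Fintype ι] (γ : Ω ≃ₐ[K] Ω) (z : (Vpi fun i => (C i).V).pt Ω →₀ ℤ) :
    γ • th Ω C z = th Ω C (γ • z) := by
  rw [nfC2_th, nfC2_th, smul_add, smul_sub, Finset.smul_sum, smul_comm γ, nfC2_act]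
  congr 2
  exact Finset.sum_congr rfl fun i _ => nfC2_act C _ γ z

end CV
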