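import Pool.Agent.Lib.MP_f80667_ag.Cv.NfD
import Pool.Agent.Lib.MP_f80667_ag.Cv.NfC2

/-! The local theorem for a product of several curves from the theorem for two curves: the end. -/

open ZC BE PE Polynomial IntermediateField

namespace CV

variable {F : Type} [Field F]

variable {K Ω : Type} [Field K] [Field Ω] [Algebra K Ω]
  [Algebra F K] [Algebra F Ω] [IsScalarTower F K Ω] [CharZero K] [IsAlgClosure K Ω] {L : Ld K Ω}
  {ι : Type} {C : ι → Crv F}

/-- Every point of the product has a finite field of definition. -/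
private theorem exists_fp_pi [Finite ι] (x : (Vpi fun i => (C i).V).pt Ω) :
    ∃ M : IntermediateField K Ω, FiniteDimensional K M ∧ Fp (Vpi fun i => (C i).V) M x := by
  choose M hM hfp using fun i => exists_fp (K := K) (C i) (x i)
  refine ⟨⨆ i, M i, ?_, ?_⟩
  · have : ∀ i, FiniteDimensional K (M i) := hM
    exact IntermediateField.finiteDimensional_iSup_of_finite
  · intro γ hγ
    exact funext fun i => hfp i γ (fix_le (le_iSup M i) hγ)

/-- The cycles which are divisible modulo rational equivalence. -/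
private def dvs (C : ι → Crv F) (K Ω : Type) [Field K] [Field Ω] [Algebra K Ω] [Algebra F K]
    [Algebra F Ω] [IsScalarTower F K Ω] (l : ℕ) :
    AddSubgroup ((Vpi fun i => (C i).V).pt Ω →₀ ℤ) where
  carrier := {z | ∃ z' ∈ (Vpi fun i => (C i).V).D0 K Ω,
    (∀ i, Finsupp.mapDomain ((pr i).f Ω) z' ∈ (C i).V.ratEq K Ω) ∧
      z - l • z' ∈ (Vpi fun i => (C i).V).ratEq K Ω}
  zero_mem' := by
    refine ⟨0, zero_mem _, fun i => ?_, ?_⟩
    · rw [Finsupp.mapDomain_zero]
      exact zero_mem _
    · rw [smul_zero, sub_zero]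
      exact zero_mem _
  add_mem' := by
    rintro a b ⟨a', h1, h2, h3⟩ ⟨b', h1', h2', h3'⟩
    refine ⟨a' + b', add_mem h1 h1', fun i => ?_, ?_⟩
    · rw [Finsupp.mapDomain_add]
      exact add_mem (h2 i) (h2' i)
    · have e : a + b - l • (a' + b') = (a - l • a') + (b - l • b') := by
        rw [smul_add]
        abel
      rw [e]
      exact add_mem h3 h3'
  neg_mem' := by
    rintro a ⟨a', h1, h2, h3⟩
    refine ⟨-a', neg_mem h1, fun i => ?_, ?_⟩
    · have e := (Finsupp.mapDomain.addMonoidHom (M := ℤ)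
        ((pr i).f Ω : (Vpi fun i => (C i).V).pt Ω → (C i).V.pt Ω)).map_neg a'
      rw [Finsupp.mapDomain.addMonoidHom_apply, Finsupp.mapDomain.addMonoidHom_apply] at e
      rw [e]
      exact neg_mem (h2 i)
    · have e : -a - l • (-a') = -(a - l • a') := by
        rw [smul_neg]
        abel
      rw [e]
      exact neg_mem h3

/-- Proof: `fx_gen` over `⊥` (every point has a finite field of definition), `hgen`: `z` is modulo `ratEq K Ω` a sum of
`± Nm ⊥ M [y]`, `M ≤ Ur ⊥ N`, `y` over `M`; `th` (`th_ratEq`, `th_id`, `th_smul`, `hom_nm`, `tele`), `to_dv`. -/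
theorem loc_n [Finite ι] {l : ℕ}
    (h2 : ∀ (N : ℕ) (M : IntermediateField K Ω), N ≠ 0 → FiniteDimensional K M → M ≤ L.Ur ⊥ N →
      ∀ i j : ι, i ≠ j → DvR (C i).V (C j).V M Ω l)
    (hgen : ∀ (M : IntermediateField K Ω) (x : (Vpi fun i => (C i).V).pt Ω),
      FiniteDimensional K M → Fp (Vpi fun i => (C i).V) M x →
      Nm (⊥ : IntermediateField K Ω) M (Finsupp.single x 1) ∈
        (Vpi fun i => (C i).V).ratEq K Ω ⊔ Uo L C) : DvG (fun i => (C i).V) K Ω l := by
  classical
  have _ : Fintype ι := Fintype.ofFinite ι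
  intro z hz ha
  have hrat : (Vpi fun i => (C i).V).ratEq K Ω ≤ dvs C K Ω l := by
    intro a h
    refine ⟨0, zero_mem _, fun i => ?_, ?_⟩
    · rw [Finsupp.mapDomain_zero]
      exact zero_mem _
    · rw [smul_zero, sub_zero]
      exact h
  -- the unramified points
  have huo : Uo L C ≤ (dvs C K Ω l).comap (th Ω C) := by
    refine (AddSubgroup.closure_le _).2 ?_
    rintro _ ⟨N, M, y, hN, hM, hy, rfl⟩
    have hfin : FiniteDimensional K (L.Ur ⊥ N) := Ld.ur_fin ⊥ N hN
    have hfM : FiniteDimensional K M := fin_le hM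
    change th Ω C (Nm (⊥ : IntermediateField K Ω) M (Finsupp.single y 1)) ∈ dvs C K Ω l
    rw [hom_nm (th Ω C) bot_le (fun γ _ a => (th_smul C γ a).symm)]
    exact to_dv (h2 N M hN hfM hM) (tele C hy)
  have hra : (Vpi fun i => (C i).V).ratEq K Ω ≤ (dvs C K Ω l).comap (th Ω C) := fun a h =>
    hrat (th_ratEq C K h)
  -- the cycle is a sum of norms of points
  have hfx : Fx (⊥ : IntermediateField K Ω) z := fun γ _ => hz.1 γ
  have hcl := fx_gen (V := Vpi fun i => (C i).V) exists_fp_pi hfx
  have hle : AddSubgroup.closure {z | ∃ (M' : IntermediateField K Ω)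
      (x : (Vpi fun i => (C i).V).pt Ω), (⊥ : IntermediateField K Ω) ≤ M' ∧
      FiniteDimensional K M' ∧ Fp (Vpi fun i => (C i).V) M' x ∧
      z = Nm (⊥ : IntermediateField K Ω) M' (Finsupp.single x 1)} ≤
      (dvs C K Ω l).comap (th Ω C) := by
    refine (AddSubgroup.closure_le _).2 ?_
    rintro _ ⟨M', x, -, hf, hx, rfl⟩
    exact (sup_le hra huo) (hgen M' x hf hx)
  have h3 : th Ω C z ∈ dvs C K Ω l := hle hcl
  have h4 := hrat (th_id C hz ha)
  have h5 := sub_mem h3 h4
  have e : th Ω C z - (th Ω C z - z) = z := by abel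
  rw [e] at h5
  exact h5

end CV
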