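import Pool.Agent.Lib.MP_f80667_ag.Cv.Up

/-! The hypothesis on the ramification: `l` is not in the power `l - 1` of the maximal ideal. -/

open ZC BE PE Polynomial IntermediateField

namespace CV

variable {K Ω : Type} [Field K] [Field Ω] [Algebra K Ω] [CharZero K] [IsAlgClosure K Ω]

/-- A generator of the maximal ideal. Proof: `L.unif ⊥`. -/
theorem exists_pi (L : Ld K Ω) : ∃ π : K, 0 < L.nm (algebraMap K Ω π) ∧
    L.nm (algebraMap K Ω π) < 1 ∧
    ∀ x : K, x ≠ 0 → ∃ n : ℤ, L.nm (algebraMap K Ω x) = L.nm (algebraMap K Ω π) ^ n := by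
  obtain ⟨π, hπ, h0, h1, h2⟩ := L.unif ⊥ inferInstance
  obtain ⟨k, rfl⟩ := IntermediateField.mem_bot.1 hπ
  exact ⟨k, h0, h1, fun x hx => h2 _ (IntermediateField.algebraMap_mem _ x)
    ((_root_.map_ne_zero _).2 hx)⟩

omit [CharZero K] [IsAlgClosure K Ω] in
/-- The powers of the maximal ideal. -/
private theorem ramA_mem {L : Ld K Ω} {π : K} (h0 : 0 < L.nm (algebraMap K Ω π))
    (h1 : L.nm (algebraMap K Ω π) < 1)
    (hπ : ∀ x : K, x ≠ 0 → ∃ n : ℤ, L.nm (algebraMap K Ω x) = L.nm (algebraMap K Ω π) ^ n)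
    (x : Ok L) (k : ℕ) : x ∈ IsLocalRing.maximalIdeal (Ok L) ^ k ↔
      L.nm (algebraMap K Ω x) ≤ L.nm (algebraMap K Ω π) ^ k := by
  have hπ0 : π ≠ 0 := by
    rintro rfl
    rw [map_zero, L.zero] at h0
    exact lt_irrefl _ h0
  obtain ⟨w, hw⟩ : ∃ w : Ok L, (w : K) = π := ⟨⟨π, h1.le⟩, rfl⟩
  have hdvd : ∀ (y : Ok L) (j : ℕ), L.nm (algebraMap K Ω y) ≤ L.nm (algebraMap K Ω π) ^ j →
      ∃ z : Ok L, y = w ^ j * z := by
    intro y j hy
    have h2 : L.nm (algebraMap K Ω ((y : K) / π ^ j)) ≤ 1 := by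
      rw [map_div₀, map_pow, L.div, L.pow]
      exact div_le_one_of_le₀ hy (pow_nonneg h0.le j)
    refine ⟨⟨(y : K) / π ^ j, h2⟩, Subtype.ext ?_⟩
    change (y : K) = (w : K) ^ j * ((y : K) / π ^ j)
    rw [hw, mul_div_cancel₀ _ (pow_ne_zero j hπ0)]
  have hmax : IsLocalRing.maximalIdeal (Ok L) = Ideal.span {w} := by
    ext y
    rw [IsLocalRing.mem_maximalIdeal, mem_nonunits_iff, Ideal.mem_span_singleton]
    constructor
    · intro hy
      have hy1 : L.nm (algebraMap K Ω y) ≤ 1 := y.2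
      have h2 : L.nm (algebraMap K Ω y) < 1 := by
        refine lt_of_le_of_ne hy1 fun h => hy ?_
        have hy0 : (y : K) ≠ 0 := by
          intro h3
          rw [h3, map_zero, L.zero] at h
          exact zero_ne_one h
        have h3 : L.nm (algebraMap K Ω (y : K)⁻¹) ≤ 1 := by
          rw [map_inv₀, L.inv, h, inv_one]
        exact IsUnit.of_mul_eq_one (⟨(y : K)⁻¹, h3⟩ : Ok L) (Subtype.ext (mul_inv_cancel₀ hy0))
      have h3 : L.nm (algebraMap K Ω y) ≤ L.nm (algebraMap K Ω π) ^ 1 := by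
        rw [pow_one]
        by_cases hy0 : (y : K) = 0
        · rw [hy0, map_zero, L.zero]
          exact h0.le
        obtain ⟨n, hn⟩ := hπ y hy0
        rw [hn] at h2 ⊢
        have h4 : (0 : ℤ) < n := by
          by_contra hle
          rw [not_lt] at hle
          exact absurd h2 (not_lt.2 (one_le_zpow_of_nonpos₀ h0 h1.le hle))
        have h5 := zpow_le_zpow_right_of_le_one₀ h0 h1.le (show (1 : ℤ) ≤ n by omega)
        rwa [zpow_one] at h5
      obtain ⟨z, hz⟩ := hdvd y 1 h3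
      exact ⟨z, by rw [hz, pow_one]⟩
    · rintro ⟨z, rfl⟩ hu
      obtain ⟨u, hu⟩ := hu.exists_right_inv
      have h2 := congrArg (fun t : Ok L => L.nm (algebraMap K Ω (t : K))) hu
      have h3 : L.nm (algebraMap K Ω ((w * z * u : Ok L) : K)) =
          L.nm (algebraMap K Ω π) * (L.nm (algebraMap K Ω z) * L.nm (algebraMap K Ω u)) := by
        change L.nm (algebraMap K Ω ((w : K) * (z : K) * (u : K))) = _
        rw [hw, map_mul, map_mul, L.mul, L.mul, mul_assoc]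
      have h4 : L.nm (algebraMap K Ω ((1 : Ok L) : K)) = 1 := by
        change L.nm (algebraMap K Ω (1 : K)) = 1
        rw [map_one, L.one]
      change L.nm (algebraMap K Ω ((w * z * u : Ok L) : K)) =
        L.nm (algebraMap K Ω ((1 : Ok L) : K)) at h2
      rw [h3, h4] at h2
      have h5 : L.nm (algebraMap K Ω z) * L.nm (algebraMap K Ω u) ≤ 1 :=
        mul_le_one₀ z.2 (L.nonneg _) u.2
      exact absurd h2 (mul_lt_one_of_nonneg_of_lt_one_left (L.nonneg _) h1 h5).ne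
  rw [hmax, Ideal.span_singleton_pow, Ideal.mem_span_singleton]
  constructor
  · rintro ⟨z, rfl⟩
    have h3 : L.nm (algebraMap K Ω ((w ^ k * z : Ok L) : K)) =
        L.nm (algebraMap K Ω π) ^ k * L.nm (algebraMap K Ω z) := by
      change L.nm (algebraMap K Ω ((w : K) ^ k * (z : K))) = _
      rw [hw, map_mul, map_pow, L.mul, L.pow]
    rw [h3]
    exact mul_le_of_le_one_right (pow_nonneg h0.le k) z.2
  · intro h
    obtain ⟨z, hz⟩ := hdvd x k h
    exact ⟨z, hz⟩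

omit [CharZero K] [IsAlgClosure K Ω] in
private theorem ramA_nat {L : Ld K Ω} (n : ℕ) :
    algebraMap K Ω (((n : ℕ) : Ok L) : K) = (n : Ω) := by
  have h : (((n : ℕ) : Ok L) : K) = (n : K) := map_natCast (Ok L).subtype n
  rw [h, map_natCast]

/-- Proof: the maximal ideal is generated by `π`. -/
theorem mem_mpow {L : Ld K Ω} {π : K} (h0 : 0 < L.nm (algebraMap K Ω π))
    (h1 : L.nm (algebraMap K Ω π) < 1)
    (hπ : ∀ x : K, x ≠ 0 → ∃ n : ℤ, L.nm (algebraMap K Ω x) = L.nm (algebraMap K Ω π) ^ n)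
    (x : Ok L) (k : ℕ) : x ∈ IsLocalRing.maximalIdeal (Ok L) ^ k ↔
      L.nm (algebraMap K Ω x) ≤ L.nm (algebraMap K Ω π) ^ k :=
  ramA_mem h0 h1 hπ x k

/-- Proof: `nm p = nm π ^ e`, `mem_mpow`. -/
theorem exists_e {L : Ld K Ω} (h : ((L.p : ℕ) : Ok L) ∉ IsLocalRing.maximalIdeal (Ok L) ^ (L.p - 1)) :
    ∃ (π : K) (e : ℕ), e ≠ 0 ∧ e + 2 ≤ L.p ∧ 0 < L.nm (algebraMap K Ω π) ∧
      L.nm (algebraMap K Ω π) < 1 ∧
      (∀ x : K, x ≠ 0 → ∃ n : ℤ, L.nm (algebraMap K Ω x) = L.nm (algebraMap K Ω π) ^ n) ∧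
      L.nm (L.p : Ω) = L.nm (algebraMap K Ω π) ^ e := by
  obtain ⟨π, h0, h1, hπ⟩ := exists_pi L
  have hp0 : ((L.p : ℕ) : K) ≠ 0 := Nat.cast_ne_zero.2 L.pp.ne_zero
  obtain ⟨n, hn⟩ := hπ _ hp0
  rw [map_natCast] at hn
  have hlt := L.lt
  rw [hn] at hlt
  have hn0 : (0 : ℤ) < n := by
    by_contra hle
    rw [not_lt] at hle
    exact absurd hlt (not_lt.2 (one_le_zpow_of_nonpos₀ h0 h1.le hle))
  obtain ⟨e, rfl⟩ := Int.eq_ofNat_of_zero_le hn0.le
  rw [zpow_natCast] at hn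
  rw [ramA_mem h0 h1 hπ, ramA_nat, not_le, hn] at h
  have he : e < L.p - 1 := (pow_lt_pow_iff_right_of_lt_one₀ h0 h1).1 h
  refine ⟨π, e, ?_, by omega, h0, h1, hπ, hn⟩
  rintro rfl
  exact absurd hn0 (by simp)

/-- The hypothesis for unramified extensions. Proof: `exists_pi`, `mem_mpow` over `K` and over `M` with the same `π`
(`exists_frob`, `frob_q`, `ur_val`: the values of `Ur ⊥ N` are the values of `K`). -/
theorem nmem_up {L : Ld K Ω} {N : ℕ} (hN : N ≠ 0) {M : IntermediateField K Ω}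
    [FiniteDimensional K M] (hM : M ≤ L.Ur ⊥ N) (L' : Ld M Ω) (hL : ∀ x, L'.nm x = L.nm x) {l : ℕ}
    (h : ((l : ℕ) : Ok L) ∉ IsLocalRing.maximalIdeal (Ok L) ^ (l - 1)) :
    ((l : ℕ) : Ok L') ∉ IsLocalRing.maximalIdeal (Ok L') ^ (l - 1) := by
  obtain ⟨π, h0, h1, hπ⟩ := exists_pi L
  rw [ramA_mem h0 h1 hπ, ramA_nat] at h
  have e0 : algebraMap M Ω (algebraMap K M π) = algebraMap K Ω π :=
    (IsScalarTower.algebraMap_apply K M Ω π).symm
  have h0' : 0 < L'.nm (algebraMap M Ω (algebraMap K M π)) := by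
    rw [e0, hL]
    exact h0
  have h1' : L'.nm (algebraMap M Ω (algebraMap K M π)) < 1 := by
    rw [e0, hL]
    exact h1
  have hπ' : ∀ x : M, x ≠ 0 → ∃ n : ℤ, L'.nm (algebraMap M Ω x) =
      L'.nm (algebraMap M Ω (algebraMap K M π)) ^ n := by
    intro x hx
    rw [e0, hL, hL]
    obtain ⟨φ, q, hφ⟩ := exists_frob L.toLf (⊥ : IntermediateField K Ω)
    obtain ⟨f, hf, hq, -⟩ := Ld.frob_q hφ
    rw [hq] at hφ
    have hx' : (x : Ω) ∈ L.Ur ⊥ (f * N) := Ld.ur_dvd ⊥ (dvd_mul_left N f) (hM x.2)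
    obtain ⟨y, hy, hyx⟩ := Ld.ur_val hφ hf hN hx'
    obtain ⟨k, rfl⟩ := IntermediateField.mem_bot.1 hy
    have hx0 : (x : Ω) ≠ 0 := fun h3 => hx (Subtype.ext h3)
    have hk : k ≠ 0 := by
      rintro rfl
      rw [map_zero, L.zero] at hyx
      exact (L.pos hx0).ne hyx
    obtain ⟨n, hn⟩ := hπ k hk
    exact ⟨n, by rw [← hn, hyx]; rfl⟩
  rw [ramA_mem h0' h1' hπ', ramA_nat, e0, hL, hL]
  exact h

end CV
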