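import Pool.Agent.Lib.MP_f80667_ag.Cv.S3

/-! The symbols of integral points are sums of symbols of integral points over unramified
extensions. -/

open ZC BE PE Polynomial IntermediateField

namespace CV

variable {F : Type} [Field F]

/-- The projection to two coordinates. -/
private def S3A_pr {ι : Type} (C : ι → Crv F) (i j : ι) :
    Mo (Vpi fun i => (C i).V) (Vpr (C i).V (C j).V) where
  f _ _ _ x := (x i, x j)
  nat _ _ _ _ _ _ _ _ := rfl
  red _ _ _ _ _ _ _ _ _ _ _ _ _ h := ⟨h i, h j⟩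

variable {K Ω : Type} [Field K] [Field Ω] [Algebra K Ω]
  [Algebra F K] [Algebra F Ω] [IsScalarTower F K Ω] [CharZero K] [IsAlgClosure K Ω] {L : Ld K Ω}

/-- The norms of points and morphisms. -/
private theorem S3A_nm {V W : Vr F} [Hf V] [Hf W] (φ : Mo V W) (M : IntermediateField K Ω)
    [FiniteDimensional K M] (x : V.pt Ω) :
    Finsupp.mapDomain (φ.f Ω) (Nm (⊥ : IntermediateField K Ω) M
      (Finsupp.single x 1 : V.pt Ω →₀ ℤ)) =
      Nm (⊥ : IntermediateField K Ω) M (Finsupp.single (φ.f Ω x) 1 : W.pt Ω →₀ ℤ) := by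
  have h := hom_nm (K := K) (Ω := Ω) (Finsupp.mapDomain.addMonoidHom (M := ℤ) (φ.f Ω))
    (bot_le : (⊥ : IntermediateField K Ω) ≤ M) (fun γ _ a => ?_) (Finsupp.single x 1)
  · rw [Finsupp.mapDomain.addMonoidHom_apply, Finsupp.mapDomain.addMonoidHom_apply,
      Finsupp.mapDomain_single] at h
    exact h
  · rw [Finsupp.mapDomain.addMonoidHom_apply, Finsupp.mapDomain.addMonoidHom_apply, smul_def,
      smul_def, ← Finsupp.mapDomain_comp, ← Finsupp.mapDomain_comp]
    exact congrArg (fun g => Finsupp.mapDomain g a) (funext fun x => (φ.act γ x).symm)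

variable {C₁ C₂ : Crv F}

/-- The class of the projection of an invariant cycle which is rationally equivalent to zero. -/
private theorem S3A_zero {z : (Vpr C₁.V C₂.V).pt Ω →₀ ℤ} (hz : z ∈ (Vpr C₁.V C₂.V).ratEq K Ω)
    (h : Fx (⊥ : IntermediateField K Ω) z) : sg (⊥ : IntermediateField K Ω) z = 0 := by
  have h1 : Fx (⊥ : IntermediateField K Ω) (tq C₁.bp C₂.bp z) := fun γ hγ => by
    rw [tq_smul, h γ hγ]
  unfold sg
  rw [QuotientAddGroup.eq_zero_iff, nm_const le_rfl h1, Subgroup.relIndex_self, one_smul]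
  exact tq_ratEq C₁.bp C₂.bp K hz

theorem ti_le_tu (ι : Type) [Finite ι] (C : ι → Crv F) (m : ∀ i, Mod (C i) (Ok L) K) (i j : ι)
    (hij : ∀ k, k = i ∨ k = j) (hne : i ≠ j) (hcx : ExCx m) (hrs : ∀ i, ExRs (m i))
    (hch : ∀ i, ExCh (m i)) : Ti (m i) (m j) ≤ Tu (m i) (m j) := by
  classical
  unfold Ti
  rw [AddSubgroup.closure_le]
  rintro _ ⟨M, x, y, hM, hx, hy, hx1, hy1, rfl⟩
  obtain ⟨w, hw⟩ : ∃ w : (Vpi fun i => (C i).V).pt Ω,
      w = Function.update (Function.update (fun k => (C k).bp.o Ω) i x) j y := ⟨_, rfl⟩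
  have hwi : w i = x := by
    rw [hw, Function.update_of_ne hne, Function.update_self]
  have hwj : w j = y := by
    rw [hw, Function.update_self]
  have hall : ∀ {P : ∀ k, Prop}, P i → P j → ∀ k, P k := by
    intro P hi hj k
    rcases hij k with rfl | rfl
    · exact hi
    · exact hj
  have hwM : Fp (Vpi fun i => (C i).V) M w := by
    intro γ hγ
    funext k
    have h1 : ∀ k, (C k).V.act γ (w k) = w k := by
      refine hall ?_ ?_
      · rw [hwi]
        exact hx γ hγ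
      · rw [hwj]
        exact hy γ hγ
    exact h1 k
  have hw1 : NrP m 1 w w := by
    have h1 : ∀ k, Nr (m k) 1 (w k) (w k) := by
      refine hall ?_ ?_
      · rw [hwi]
        exact hx1
      · rw [hwj]
        exact hy1
    exact h1
  have key := s3n m hcx hrs hch hwM hw1
  obtain ⟨z₁, hz₁, z₂, hz₂, h2⟩ := AddSubgroup.mem_sup.1 key
  have hφw : (S3A_pr C i j).f Ω w = pp x y := by
    change (w i, w j) = (x, y)
    rw [hwi, hwj]
  have h3 := S3A_nm (K := K) (S3A_pr C i j) M w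
  rw [hφw, ← h2, Finsupp.mapDomain_add] at h3
  -- the second part
  have hfx : ∀ z ∈ Uz m, Fx (⊥ : IntermediateField K Ω) z := by
    intro z hz
    refine AddSubgroup.closure_induction (p := fun z _ => Fx (⊥ : IntermediateField K Ω) z)
      ?_ ?_ ?_ ?_ hz
    · rintro _ ⟨N, M', y', hN, hM', hy', -, rfl⟩
      have h5 : FiniteDimensional K (L.Ur (⊥ : IntermediateField K Ω) N) := Ld.ur_fin ⊥ N hN
      have h6 : FiniteDimensional K M' := fin_le hM'
      exact nm_fx bot_le (fx_single hy' 1)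
    · exact Fx.zero
    · exact fun a b _ _ ha hb => ha.add hb
    · exact fun a _ ha => ha.neg
  have hfx₁ : Fx (⊥ : IntermediateField K Ω) z₁ := by
    have h4 : z₁ = Nm (⊥ : IntermediateField K Ω) M (Finsupp.single w 1) - z₂ := by
      rw [← h2, add_sub_cancel_right]
    rw [h4]
    exact (nm_fx bot_le (fx_single hwM 1)).sub (hfx z₂ hz₂)
  have hmfx : ∀ z : (Vpi fun i => (C i).V).pt Ω →₀ ℤ, Fx (⊥ : IntermediateField K Ω) z →
      Fx (⊥ : IntermediateField K Ω) (Finsupp.mapDomain ((S3A_pr C i j).f Ω) z) := by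
    intro z hz γ hγ
    rw [smul_def, ← Finsupp.mapDomain_comp]
    have h5 : (Vpr (C i).V (C j).V).act γ ∘ (S3A_pr C i j).f Ω =
        (S3A_pr C i j).f Ω ∘ (Vpi fun i => (C i).V).act γ :=
      funext fun x => ((S3A_pr C i j).act γ x).symm
    have h6 := hz γ hγ
    rw [smul_def] at h6
    rw [h5, Finsupp.mapDomain_comp, h6]
  have h7 : sg (⊥ : IntermediateField K Ω) (Finsupp.mapDomain ((S3A_pr C i j).f Ω) z₁) = 0 :=
    S3A_zero ((S3A_pr C i j).ratEq K Ω hz₁) (hmfx z₁ hfx₁)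
  have h8 : ∀ z ∈ Uz m,
      sg (⊥ : IntermediateField K Ω) (Finsupp.mapDomain ((S3A_pr C i j).f Ω) z) ∈
        Tu (m i) (m j) := by
    intro z hz
    have sadd : ∀ a b : (Vpi fun i => (C i).V).pt Ω →₀ ℤ,
        sg (⊥ : IntermediateField K Ω) (Finsupp.mapDomain ((S3A_pr C i j).f Ω) (a + b)) =
          sg (⊥ : IntermediateField K Ω) (Finsupp.mapDomain ((S3A_pr C i j).f Ω) a) +
          sg (⊥ : IntermediateField K Ω) (Finsupp.mapDomain ((S3A_pr C i j).f Ω) b) := by
      intro a b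
      rw [Finsupp.mapDomain_add, sg_add]
    let s : ((Vpi fun i => (C i).V).pt Ω →₀ ℤ) →+
        (((Vpr (C i).V (C j).V).pt Ω →₀ ℤ) ⧸ (Vpr (C i).V (C j).V).ratEq K Ω) :=
      AddMonoidHom.mk' (fun z => sg (⊥ : IntermediateField K Ω)
        (Finsupp.mapDomain ((S3A_pr C i j).f Ω) z)) sadd
    have hle : Uz m ≤ (Tu (m i) (m j)).comap s := by
      unfold Uz
      rw [AddSubgroup.closure_le]
      rintro _ ⟨N, M', y', hN, hM', hy', hn', rfl⟩
      have h5 : FiniteDimensional K (L.Ur (⊥ : IntermediateField K Ω) N) := Ld.ur_fin ⊥ N hN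
      have h6 : FiniteDimensional K M' := fin_le hM'
      change sg (⊥ : IntermediateField K Ω) (Finsupp.mapDomain ((S3A_pr C i j).f Ω)
        (Nm (⊥ : IntermediateField K Ω) M' (Finsupp.single y' 1))) ∈ Tu (m i) (m j)
      have hfp : Fp (Vpr (C i).V (C j).V) M' ((S3A_pr C i j).f Ω y') := fun γ hγ => by
        rw [(S3A_pr C i j).act, hy' γ hγ]
      rw [S3A_nm, sg_nm bot_le (fx_single hfp 1), sg_pt]
      exact AddSubgroup.subset_closure ⟨N, M', y' i, y' j, hN, hM',
        fun γ hγ => congrFun (hy' γ hγ) i, fun γ hγ => congrFun (hy' γ hγ) j, hn' i, hn' j, rfl⟩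
    exact hle hz
  have hfp : Fp (Vpr (C i).V (C j).V) M (pp x y) := fun γ hγ => by
    change ((C i).V.act γ x, (C j).V.act γ y) = (x, y)
    rw [hx γ hγ, hy γ hγ]
  have h9 : (scC (K := K) (C i).bp (C j).bp).sy M (Finsupp.single x 1) (Finsupp.single y 1) =
      sg (⊥ : IntermediateField K Ω) (Finsupp.mapDomain ((S3A_pr C i j).f Ω) z₂) := by
    have h10 := sg_pt (C₁ := C i) (C₂ := C j) M (pp x y)
    rw [← sg_nm bot_le (fx_single hfp 1), ← h3, sg_add, h7, zero_add] at h10
    exact h10.symm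
  rw [SetLike.mem_coe, h9]
  exact h8 z₂ hz₂

end CV
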