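import Pool.Agent.Lib.MP_f80667_ag.Pe.Bs
import Pool.Agent.Lib.MP_f80667_ag.Cv.ExAll
import Pool.Agent.Lib.MP_f80667_ag.Cv.RamA
import Pool.Agent.Lib.MP_f80667_ag.Cv.NfD2
import Pool.Agent.Lib.MP_f80667_ag.Cv.NfB2
import Pool.Agent.Lib.MP_f80667_ag.Cv.S3A
import Pool.Agent.Lib.MP_f80667_ag.Cv.EtH

/-! The local theorem. -/

open ZC BE PE Polynomial IntermediateField

namespace CV

variable {F : Type} [Field F] {K Ω : Type} [Field K] [CharZero K] [Field Ω] [Algebra K Ω]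
  [Algebra F K] [Algebra F Ω] [IsScalarTower F K Ω] [IsAlgClosure K Ω] {L : Ld K Ω}

theorem uf_of {π : K} (h0 : 0 < L.nm (algebraMap K Ω π)) (h1 : L.nm (algebraMap K Ω π) < 1)
    (hπ : ∀ x : K, x ≠ 0 → ∃ n : ℤ, L.nm (algebraMap K Ω x) = L.nm (algebraMap K Ω π) ^ n) :
    Uf L π where
  ne := by
    rintro rfl
    rw [map_zero, L.zero] at h0
    exact lt_irrefl _ h0
  lt := h1
  un x hx := by
    by_cases hx0 : x = 0
    · rw [hx0, map_zero, L.zero]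
      exact h0.le
    obtain ⟨n, hn⟩ := hπ x hx0
    rw [hn] at hx ⊢
    have h2 : 0 < n := by
      by_contra hcon
      rw [not_lt] at hcon
      exact absurd hx (not_lt.2 (one_le_zpow_of_nonpos₀ h0 h1.le hcon))
    calc L.nm (algebraMap K Ω π) ^ n ≤ L.nm (algebraMap K Ω π) ^ (1 : ℤ) :=
          zpow_le_zpow_right_of_le_one₀ h0 h1.le (by omega)
      _ = L.nm (algebraMap K Ω π) := zpow_one _

/-- The family of two curves. -/
def fam₂ (C₁ C₂ : Crv F) : Bool → Crv F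
  | false => C₁
  | true => C₂

/-- The models of the two curves. -/
noncomputable def mod₂ {C₁ C₂ : Crv F} (m₁ : Mod C₁ (Ok L) K) (m₂ : Mod C₂ (Ok L) K) :
    ∀ i, Mod (fam₂ C₁ C₂ i) (Ok L) K
  | false => m₁
  | true => m₂

theorem t_le_tu {C₁ C₂ : Crv F} (m₁ : Mod C₁ (Ok L) K) (m₂ : Mod C₂ (Ok L) K) :
    (scC (K := K) (Ω := Ω) C₁.bp C₂.bp).T ≤ Tu m₁ m₂ :=
  (t_le_ti m₁ m₂ (exPr C₁) (exPr C₂) (exIf m₁) (exIf m₂)).trans
    (ti_le_tu Bool (fam₂ C₁ C₂) (mod₂ m₁ m₂) false true (fun k => by cases k <;> simp) (by simp)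
      (exCx _) (fun i => exRs _) fun i => exCh _)

/-- The local theorem for two curves. -/
theorem loc₂ {C₁ C₂ : Crv F} (m₁ : Mod C₁ (Ok L) K) (m₂ : Mod C₂ (Ok L) K) {l : ℕ} (hl : l.Prime)
    (h : ((l : ℕ) : Ok L) ∉ IsLocalRing.maximalIdeal (Ok L) ^ (l - 1)) :
    DvR C₁.V C₂.V K Ω l := by
  have hT := t_le_tu (Ω := Ω) m₁ m₂
  refine dvR_of fun g hg => ?_
  by_cases hlp : l = L.p
  · subst hlp
    obtain ⟨π, e, he0, he, h0, h1, hπ, hpe⟩ := exists_e h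
    have hc : ExC2 m₁ m₂ := cx2 (mod₂ m₁ m₂) false true (fun k => by cases k <;> simp) (by simp)
      (exCx _)
    obtain ⟨g', hg', e'⟩ := t_le_p (uf_of h0 h1 hπ) he0 he (exPr C₁) (exPr C₂) (exCh m₁) (exCh m₂)
      (exCl m₁) (exCl m₂) (exSp m₁ h0 h1 hπ hpe he) (exSp m₂ h0 h1 hπ hpe he)
      (exDv m₁ L.pp.ne_zero) (exDv m₂ L.pp.ne_zero) (exNm m₁) (exNm m₂) hc hT hg
    exact ⟨g', hg', e'.symm⟩
  · obtain ⟨π, h0, h1, hπ⟩ := exists_pi L
    obtain ⟨g', hg', e'⟩ := t_le_l (uf_of h0 h1 hπ) (exPr C₁) (exPr C₂) (exSl m₁ hl hlp)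
      (exSl m₂ hl hlp) (exDv m₁ hl.ne_zero) (exDv m₂ hl.ne_zero) (exNm m₁) (exNm m₂) hT hg
    exact ⟨g', hg', e'.symm⟩

/-- **The local theorem.** -/
theorem loc {ι : Type} [Finite ι] {C : ι → Crv F} (m : ∀ i, Mod (C i) (Ok L) K) {l : ℕ}
    (hl : l.Prime) (h : ((l : ℕ) : Ok L) ∉ IsLocalRing.maximalIdeal (Ok L) ^ (l - 1)) :
    DvG (fun i => (C i).V) K Ω l := by
  refine loc_n (L := L) (fun N M hN hM hle i j hij => ?_) fun M x hM hx => ?_
  · obtain ⟨L', -, hL⟩ := L.exists_bsL M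
    have h' := nmem_up hN hle L' hL h
    have halg : Algebra.IsAlgebraic K Ω := IsAlgClosure.isAlgebraic
    have i1 : IsAlgClosure M Ω := ⟨IsAlgClosure.isAlgClosed K, halg.tower_top M⟩
    exact loc₂ ((m i).upL hL) ((m j).upL hL) hl h'
  · have h1 := move m (fun i => exPr (C i)) (fun i => exIf (m i)) hx
    have h2 := io_le m (fun J _ σ => exCx fun j => m (σ j)) (fun i => exRs (m i))
      fun i => exCh (m i)
    have h3 : (Vpi fun i => (C i).V).ratEq K Ω ⊔ Io m ≤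
        (Vpi fun i => (C i).V).ratEq K Ω ⊔ Uo L C := sup_le le_sup_left h2
    exact h3 h1

end CV
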