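import Pool.Agent.Lib.MP_f80667_ag.Pe.Ld

/-!
The integers of the completion of a number field: `Iv v`, and the absolute value of the algebraic closure of the completion
(`exists_ldI`).
-/

open ZC BE PE Polynomial IntermediateField IsDedekindDomain NumberField

namespace CV

/-- The ring of integers of the completion `F_v`. -/
noncomputable def Iv {F : Type} [Field F] [NumberField F] (v : HeightOneSpectrum (𝓞 F)) :
    ValuationSubring (FK F v) :=
  v.adicCompletionIntegers F

open Pool.Agent.Lib.MP_f80667_ag.LF IsLocalRing HeightOneSpectrum in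
private theorem ldI_ad (F : Type) [Field F] [NumberField F] (v : HeightOneSpectrum (𝓞 F)) :
    ∃ L : Lf (v.adicCompletion F) (AlgebraicClosure (v.adicCompletion F)),
      (∀ x : v.adicCompletion F, L.nm (algebraMap _ _ x) ≤ 1 ↔ x ∈ v.adicCompletionIntegers F) ∧
      ∀ M : IntermediateField (v.adicCompletion F) (AlgebraicClosure (v.adicCompletion F)),
        FiniteDimensional (v.adicCompletion F) M → ∀ r : ℝ, 0 ≤ r → r < 1 →
        ∀ x : ℕ → AlgebraicClosure (v.adicCompletion F), (∀ n, x n ∈ M) →
        (∀ n, L.nm (x (n + 1) - x n) ≤ r ^ n) → ∃ y ∈ M, ∀ n, L.nm (y - x n) ≤ r ^ n := by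
  obtain ⟨L, hL, hcpl⟩ := LdA_R (v.adicCompletionIntegers F) (v.adicCompletion F)
    (AlgebraicClosure (v.adicCompletion F))
  refine ⟨L, fun x => ?_, hcpl⟩
  rw [hL]
  constructor
  · rintro ⟨y, rfl⟩
    exact y.2
  · intro h
    exact ⟨⟨x, h⟩, rfl⟩

/-- The absolute value of the algebraic closure of `F_v`. -/
theorem exists_ldI {F : Type} [Field F] [NumberField F] (v : HeightOneSpectrum (𝓞 F)) :
    ∃ L : Ld (FK F v) (AlgebraicClosure (FK F v)),
      ∀ x : FK F v, L.nm (algebraMap _ _ x) ≤ 1 ↔ x ∈ Iv v := by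
  obtain ⟨L, h, h3⟩ := ldI_ad F v
  obtain ⟨p, n, hp, hn, hv⟩ := ldG_val F v
  have h1 : Valued.v (algebraMap F (v.adicCompletion F) (p : F)) =
      (WithZero.exp (-n) : WithZero (Multiplicative ℤ)) := by
    exact (HeightOneSpectrum.valuedAdicCompletion_eq_valuation' v (p : F)).trans hv
  have hp0 : algebraMap F (v.adicCompletion F) (p : F) ≠ 0 := by
    intro h'
    rw [h', map_zero] at h1
    exact WithZero.exp_ne_zero h1.symm
  have hinv : ¬ (algebraMap F (v.adicCompletion F) (p : F))⁻¹ ∈ v.adicCompletionIntegers F := by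
    rw [HeightOneSpectrum.mem_adicCompletionIntegers, map_inv₀, h1, ← WithZero.exp_neg,
      ← WithZero.exp_zero, WithZero.exp_le_exp]
    omega
  have hlt : L.nm (p : AlgebraicClosure (v.adicCompletion F)) < 1 := by
    by_contra h'
    rw [← h, map_inv₀] at hinv
    have h5 : algebraMap (v.adicCompletion F) (AlgebraicClosure (v.adicCompletion F))
        (algebraMap F (v.adicCompletion F) (p : F)) = (p : AlgebraicClosure (v.adicCompletion F)) := by
      rw [map_natCast, map_natCast]
    rw [h5] at hinv
    have h6 : (p : AlgebraicClosure (v.adicCompletion F)) ≠ 0 := by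
      rw [← h5]
      exact (_root_.map_ne_zero _).2 hp0
    have h7 : L.nm (p : AlgebraicClosure (v.adicCompletion F)) *
        L.nm (p : AlgebraicClosure (v.adicCompletion F))⁻¹ = 1 := by
      rw [← L.mul, mul_inv_cancel₀ h6, L.one]
    have h8 := L.nonneg (p : AlgebraicClosure (v.adicCompletion F))⁻¹
    exact hinv (by nlinarith)
  exact ⟨{ L with p := p, pp := hp, lt := hlt, cpl := h3 }, h⟩

end CV
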