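import Pool.Agent.Lib.MP_f80667_ag.Cv.Glb
import Pool.Agent.Lib.MP_f80667_ag.Cv.LdI

/-!
Good reduction over an extension of the completion `F_v`, in terms of valuation rings.

* `Gr A C l`: the curves `C i` over `K` have good reduction over an extension `M` of `K` of degree prime to `l`: `O` is the
  valuation ring of `M` above `A`, and `l` is not in the power `l - 1` of its maximal ideal.
* `PrG A C`: the curves have potentially good reduction.
-/

open ZC BE PE Polynomial IntermediateField IsDedekindDomain NumberField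

namespace CV

section val

variable {K Ω : Type} [Field K] [Field Ω] [Algebra K Ω]

/-- An element of norm `≤ 1` is integral. -/
theorem Gr_int [CharZero K] [IsAlgClosure K Ω] (L : Ld K Ω) {x : Ω} (hx : L.nm x ≤ 1) :
    ∃ p : K[X], p.Monic ∧ aeval x p = 0 ∧ ∀ i, p.coeff i ∈ Ok L := by
  have halg : Algebra.IsAlgebraic K Ω := IsAlgClosure.isAlgebraic
  have hcl : IsAlgClosed Ω := IsAlgClosure.isAlgClosed K
  have hn : Normal K Ω := IsAlgClosure.normal K Ω
  have hi : IsIntegral K x := (halg.isAlgebraic x).isIntegral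
  refine ⟨minpoly K x, minpoly.monic hi, minpoly.aeval K x, fun i => ?_⟩
  have h1 : (minpoly K x).map (algebraMap K Ω) ∈ Polynomial.lifts L.V.subtype := by
    have h2 := (IsAlgClosed.splits ((minpoly K x).map (algebraMap K Ω))).eq_prod_roots_of_monic
      ((minpoly.monic hi).map _)
    rw [h2]
    refine Submonoid.multiset_prod_mem (Polynomial.lifts L.V.subtype).toSubmonoid _ fun q hq => ?_
    obtain ⟨r, hr, rfl⟩ := Multiset.mem_map.1 hq
    have h3 : aeval r (minpoly K x) = 0 := by
      rw [mem_roots', IsRoot.def, eval_map_algebraMap] at hr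
      exact hr.2
    obtain ⟨γ, hγ⟩ := minpoly.exists_algEquiv_of_root (halg.isAlgebraic x) h3
    have h4 : r ∈ L.V := by
      change L.nm r ≤ 1
      rw [← L.act γ r, hγ]
      exact hx
    exact ⟨X - C ⟨r, h4⟩, by simp⟩
  obtain ⟨q, hq⟩ := (Polynomial.mem_lifts _).1 h1
  have h5 := congrArg (fun q => q.coeff i) hq
  simp only [coeff_map] at h5
  change L.nm (algebraMap K Ω ((minpoly K x).coeff i)) ≤ 1
  rw [← h5]
  exact (q.coeff i).2

/-- The valuation ring of `M` above the integers of `K` is unique. -/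
theorem Gr_uniq [CharZero K] [IsAlgClosure K Ω] (L₀ : Ld K Ω) (M : IntermediateField K Ω) (L : Ld M Ω)
    (hL : ∀ x, L.nm x = L₀.nm x) (O : ValuationSubring M)
    (hO : O.comap (algebraMap K M) = Ok L₀) : O = Ok L := by
  have hle : ∀ x : M, x ∈ Ok L → x ∈ O := by
    intro x hx
    have hx' : L₀.nm (x : Ω) ≤ 1 := by
      have h : L.nm (algebraMap M Ω x) ≤ 1 := hx
      rwa [hL] at h
    obtain ⟨p, hp, hpx, hc⟩ := Gr_int L₀ hx'
    have h1 : aeval x p = 0 := by
      have h2 : algebraMap M Ω (aeval x p) = aeval (x : Ω) p := (aeval_algebraMap_apply Ω x p).symm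
      rw [hpx] at h2
      exact (map_eq_zero (algebraMap M Ω)).1 h2
    have h2 : ∀ i, algebraMap K M (p.coeff i) ∈ O := fun i => by
      have h3 := hc i
      rw [← hO] at h3
      exact h3
    have h3 : p.map (algebraMap K M) ∈ Polynomial.lifts O.subtype := by
      rw [Polynomial.lifts_iff_coeff_lifts]
      intro n
      rw [coeff_map]
      exact ⟨⟨_, h2 n⟩, rfl⟩
    obtain ⟨q, hq, -, hqm⟩ := Polynomial.lifts_and_degree_eq_and_monic h3 (hp.map _)
    have h4 : IsIntegral O x := by
      refine ⟨q, hqm, ?_⟩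
      have h5 : eval₂ (algebraMap O M) x q = eval x (q.map O.subtype) := (eval_map _ _).symm
      rw [h5, hq, eval_map_algebraMap, h1]
    obtain ⟨y, hy⟩ := (IsIntegrallyClosed.isIntegral_iff (R := O) (K := M)).1 h4
    rw [← hy]
    exact y.2
  refine SetLike.ext fun x => ⟨fun hx => ?_, hle x⟩
  by_contra hx'
  have h1 : 1 < L.nm (algebraMap M Ω x) := not_le.1 hx'
  have hx0 : x ≠ 0 := by
    rintro rfl
    rw [map_zero, L.zero] at h1
    exact absurd h1 (by norm_num)
  have htop : ∀ z : M, z ∈ O := by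
    intro z
    obtain ⟨n, hn⟩ := pow_unbounded_of_one_lt (L.nm (algebraMap M Ω z)) h1
    have h2 : z * (x ^ n)⁻¹ ∈ O := by
      refine hle _ ?_
      change L.nm (algebraMap M Ω (z * (x ^ n)⁻¹)) ≤ 1
      rw [map_mul, map_inv₀, map_pow, L.mul, L.inv, L.pow, ← div_eq_mul_inv,
        div_le_one (pow_pos (zero_lt_one.trans h1) n)]
      exact hn.le
    have h3 : z = z * (x ^ n)⁻¹ * x ^ n := by
      rw [inv_mul_cancel_right₀ (pow_ne_zero n hx0)]
    rw [h3]
    exact O.mul_mem _ _ h2 (pow_mem hx n)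
  have h4 : ((L₀.p : K))⁻¹ ∈ Ok L₀ := by
    rw [← hO]
    exact htop _
  have h5 : L₀.nm (algebraMap K Ω (L₀.p : K)⁻¹) ≤ 1 := h4
  rw [map_inv₀, map_natCast, L₀.inv] at h5
  exact absurd L₀.lt (not_lt.2 ((inv_le_one₀ L₀.p_pos).1 h5))

end val

section gr

variable {F : Type} [Field F] {ι : Type} {K : Type} [Field K] [Algebra F K]

/-- The curves have good reduction over an extension `M` of `K` of degree prime to `l`, `O` is the valuation ring of `M` above
`A`; `l` is not in the power `l - 1` of the maximal ideal of `O`. -/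
def Gr (A : ValuationSubring K) (C : ι → Crv F) (l : ℕ) : Prop :=
  ∃ (M : IntermediateField K (AlgebraicClosure K)) (O : ValuationSubring M),
    FiniteDimensional K M ∧ (Module.finrank K M).Coprime l ∧ O.comap (algebraMap K M) = A ∧
    (∀ i, Nonempty (Mod (C i) O M)) ∧ (l : O) ∉ IsLocalRing.maximalIdeal O ^ (l - 1)

/-- The curves have potentially good reduction. -/
def PrG (A : ValuationSubring K) (C : ι → Crv F) : Prop :=
  ∃ (M : IntermediateField K (AlgebraicClosure K)) (O : ValuationSubring M),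
    FiniteDimensional K M ∧ O.comap (algebraMap K M) = A ∧ ∀ i, Nonempty (Mod (C i) O M)

end gr

section nf

variable {F₀ : Type} [Field F₀] [NumberField F₀] {v : HeightOneSpectrum (𝓞 F₀)} {F : Type}
  [Field F] [Algebra F (FK F₀ v)] {ι : Type} {C : ι → Crv F}

theorem Gr.grd {l : ℕ} (h : Gr (Iv v) C l) : Grd C l (FK F₀ v) := by
  have hch : CharZero (FK F₀ v) :=
    charZero_of_injective_algebraMap (algebraMap F₀ (FK F₀ v)).injective
  obtain ⟨M, O, hM, hc, hO, hm, hl⟩ := h
  obtain ⟨L₀, h₀⟩ := exists_ldI v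
  obtain ⟨L, -, hL⟩ := L₀.exists_bsL M
  have h1 : Iv v = Ok L₀ := SetLike.ext fun x => (h₀ x).symm
  obtain rfl := Gr_uniq L₀ M L hL O (hO.trans h1)
  exact ⟨M, L, hM, hc, hm, hl⟩

theorem PrG.pgd (h : PrG (Iv v) C) : Pgd C (FK F₀ v) := by
  have hch : CharZero (FK F₀ v) :=
    charZero_of_injective_algebraMap (algebraMap F₀ (FK F₀ v)).injective
  obtain ⟨M, O, hM, hO, hm⟩ := h
  obtain ⟨L₀, h₀⟩ := exists_ldI v
  obtain ⟨L, -, hL⟩ := L₀.exists_bsL M
  have h1 : Iv v = Ok L₀ := SetLike.ext fun x => (h₀ x).symm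
  obtain rfl := Gr_uniq L₀ M L hL O (hO.trans h1)
  exact ⟨M, L, hM, hm⟩

end nf

end CV
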