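import Pool.Agent.Lib.MP_f80667_ag.Cv.EraL
import Pool.Agent.Lib.MP_f80667_ag.Pe.Ur

/-! # The tower of the unramified extensions of a local field

`Uf L π`: `π` is a uniformizer of `K`. `Um L M`: `M` is unramified over `K`. `Em L M M'`: `M'` is an
unramified extension of `M`. `twL`: the tower. -/

set_option autoImplicit false

open PE IntermediateField

namespace CV

variable {K Ω : Type} [Field K] [CharZero K] [Field Ω] [Algebra K Ω] [IsAlgClosure K Ω]

/-- `π` is a uniformizer of `K`. -/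
structure Uf (L : Ld K Ω) (π : K) : Prop where
  ne : π ≠ 0
  lt : L.nm (algebraMap K Ω π) < 1
  un : ∀ x : K, L.nm (algebraMap K Ω x) < 1 → L.nm (algebraMap K Ω x) ≤ L.nm (algebraMap K Ω π)

/-- `M` is unramified over `K`. -/
def Um (L : Ld K Ω) (M : IntermediateField K Ω) : Prop := ∃ N, N ≠ 0 ∧ M ≤ L.Ur ⊥ N

/-- `M'` is an unramified extension of `M`. -/
def Em (L : Ld K Ω) (M M' : IntermediateField K Ω) : Prop := M ≤ M' ∧ ∃ N, N ≠ 0 ∧ M' ≤ L.Ur M N

variable {L : Ld K Ω} {M M' M'' : IntermediateField K Ω}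

/-- Proof: `Ld.ur_fin` and a subfield of a finite extension. -/
theorem Um.fd (h : Um L M) : FiniteDimensional K M := by
  obtain ⟨N, hN, hM⟩ := h
  have h1 : FiniteDimensional K (L.Ur ⊥ N) := Ld.ur_fin ⊥ N hN
  exact FiniteDimensional.of_injective (IntermediateField.inclusion hM).toLinearMap
    (IntermediateField.inclusion_injective hM)

theorem Em.fd [FiniteDimensional K M] (h : Em L M M') : FiniteDimensional K M' := by
  obtain ⟨-, N, hN, hM⟩ := h
  have h1 : FiniteDimensional K (L.Ur M N) := Ld.ur_fin M N hN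
  exact FiniteDimensional.of_injective (IntermediateField.inclusion hM).toLinearMap
    (IntermediateField.inclusion_injective hM)

theorem Em.refl : Em L M M := ⟨le_rfl, 1, one_ne_zero, Ld.ur_le⟩

/-- Proof: `ur_mono`, `ur_dvd`, `ur_ur` with `N N'`. -/
theorem Um.up (h : Um L M) (h' : Em L M M') : Um L M' := by
  obtain ⟨N, hN, hM⟩ := h
  obtain ⟨-, N', hN', hM'⟩ := h'
  refine ⟨N * N', Nat.mul_ne_zero hN hN', ?_⟩
  rw [← Ld.ur_ur ⊥ (Nat.dvd_mul_right N N')]
  exact hM'.trans ((Ld.ur_mono hM N').trans (Ld.ur_dvd _ (Nat.dvd_mul_left N' N)))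

theorem Em.trans (h : Em L M M') (h' : Em L M' M'') : Em L M M'' := by
  obtain ⟨h0, N, hN, hM⟩ := h
  obtain ⟨h0', N', hN', hM'⟩ := h'
  refine ⟨h0.trans h0', N * N', Nat.mul_ne_zero hN hN', ?_⟩
  rw [← Ld.ur_ur M (Nat.dvd_mul_right N N')]
  exact hM'.trans ((Ld.ur_mono hM N').trans (Ld.ur_dvd _ (Nat.dvd_mul_left N' N)))

/-- Proof: `σ` maps `Te N` to itself (`te_act`) and fixes `M`, so `M₁.map σ ≤ Ur M N`. -/
theorem Em.sup {M₁ : IntermediateField K Ω} (h : M ≤ M') (h₁ : Em L M M₁) {σ : Ω ≃ₐ[K] Ω}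
    (hσ : σ ∈ M.fixingSubgroup) : Em L M' (M' ⊔ M₁.map (σ : Ω →ₐ[K] Ω)) := by
  obtain ⟨-, N, hN, hM⟩ := h₁
  refine ⟨le_sup_left, N, hN, sup_le Ld.ur_le ?_⟩
  have h1 : (L.Ur M N).map (σ : Ω →ₐ[K] Ω) ≤ L.Ur M N := by
    unfold Ld.Ur
    rw [IntermediateField.map_sup, IntermediateField.adjoin_map]
    refine sup_le_sup ?_ (IntermediateField.adjoin.mono K _ _ ?_)
    · rintro _ ⟨x, hx, rfl⟩
      have h2 : σ x = x := (IntermediateField.mem_fixingSubgroup_iff M σ).1 hσ x hx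
      change σ x ∈ M
      rw [h2]
      exact hx
    · rintro _ ⟨x, hx, rfl⟩
      exact Ld.te_act σ hx
  exact (IntermediateField.map_mono _ hM).trans (h1.trans (Ld.ur_mono h N))

/-- The integers of `M`. -/
def Om (L : Ld K Ω) (M : IntermediateField K Ω) : Subring Ω :=
  M.toSubalgebra.toSubring ⊓ L.V.toSubring

omit [CharZero K] [IsAlgClosure K Ω] in
theorem mem_Om {x : Ω} : x ∈ Om L M ↔ x ∈ M ∧ L.nm x ≤ 1 := Iff.rfl

/-- The tower. -/
noncomputable def twL (L : Ld K Ω) (π : K) (hπ : Uf L π) : Tw K Ω where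
  U := Um L
  Ex := Em L
  O M := Om L M
  ring M := inferInstance
  π M := ⟨algebraMap K Ω π, mem_Om.2 ⟨M.algebraMap_mem π, hπ.lt.le⟩⟩
  fd h := h.fd
  le h := h.1
  up h h' := h.up h'

theorem twL_dvd {π : K} (hπ : Uf L π) (x : Om L M) (r : ℕ) :
    ((twL L π hπ).π M) ^ r ∣ (show (twL L π hπ).O M from x) ↔
      L.nm (x : Ω) ≤ L.nm (algebraMap K Ω π) ^ r := by
  have hπ0 : algebraMap K Ω π ≠ 0 := by
    rw [Ne, FaithfulSMul.algebraMap_eq_zero_iff]
    exact hπ.ne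
  have hpos : 0 < L.nm (algebraMap K Ω π) := L.pos hπ0
  constructor
  · rintro ⟨y, hy⟩
    have h1 : (x : Ω) = algebraMap K Ω π ^ r * ((show Om L M from y) : Ω) := by
      have h2 : x = (⟨algebraMap K Ω π, mem_Om.2 ⟨M.algebraMap_mem π, hπ.lt.le⟩⟩ : Om L M) ^ r *
          (show Om L M from y) := hy
      rw [h2]
      rfl
    rw [h1, L.mul, L.pow]
    exact mul_le_of_le_one_right (pow_nonneg (L.nonneg _) r) (show Om L M from y).2.2
  · intro h
    have hy : (x : Ω) / algebraMap K Ω π ^ r ∈ Om L M := by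
      rw [mem_Om]
      refine ⟨M.div_mem (mem_Om.1 x.2).1 (pow_mem (M.algebraMap_mem π) r), ?_⟩
      rw [L.div, L.pow, div_le_one (pow_pos hpos r)]
      exact h
    refine ⟨(⟨_, hy⟩ : Om L M), ?_⟩
    have h2 : x = (⟨algebraMap K Ω π, mem_Om.2 ⟨M.algebraMap_mem π, hπ.lt.le⟩⟩ : Om L M) ^ r *
        (⟨_, hy⟩ : Om L M) := by
      refine Subtype.ext ?_
      change (x : Ω) = algebraMap K Ω π ^ r * ((x : Ω) / algebraMap K Ω π ^ r)
      rw [mul_div_cancel₀ _ (pow_ne_zero r hπ0)]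
    exact h2

end CV
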