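import Pool.Agent.Lib.MP_f80667_ag.ZC.Defs
import Pool.Agent.Lib.MP_f80667_ag.Cv.Dg

/-!
Places of the field of fractions `E` of a `K`-algebra `A` and homomorphisms `φ : A → Ω`.

* `Lu φ x y`: `x` and `y` differ by a unit of the local ring at `φ`.
* `Rg φ t`: the maximal ideal of the local ring at `φ` is generated by `t`.
* `Ab w φ`: the place `w` is above `φ`.
-/

open ZC

namespace CV

section defs

variable {K A Ω : Type} [Field K] [CommRing A] [Algebra K A] [Field Ω] [Algebra K Ω]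

/-- `x` and `y` differ by a unit of the local ring at `φ`. -/
def Lu (φ : A →ₐ[K] Ω) (x y : A) : Prop := ∃ s s' : A, φ s ≠ 0 ∧ φ s' ≠ 0 ∧ s * x = s' * y

/-- `t` generates the maximal ideal of the local ring at `φ`. -/
def Rg (φ : A →ₐ[K] Ω) (t : A) : Prop :=
  φ t = 0 ∧ ∃ s : A, φ s ≠ 0 ∧ ∀ x : A, φ x = 0 → t ∣ s * x

/-- The place `w` is above `φ`. -/
def Ab {E : Type} [Field E] [Algebra K E] [Algebra A E] (w : Place K E Ω) (φ : A →ₐ[K] Ω) : Prop :=
  ∀ a : A, ∃ h : algebraMap A E a ∈ w.V, w.res ⟨algebraMap A E a, h⟩ = φ a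

end defs

end CV
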