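import Pool.Agent.Lib.MP_f80667_ag.Cv.Ct1
import Pool.Agent.Lib.MP_f80667_ag.Cv.PlD

/-!
Integral points of a model. `W` is a valuation ring of a field `Ω` which dominates `V`.

* `Wv V L W`: `W` dominates `V`.
* `M.Ig W φ`: the point `φ : SL → Ω` is integral.
* `M.Ov W φ N`: the point `φ` is integral, its reduction is the closed point `N` of the special fibre.
* `Rgl π N z`: `z` is a local parameter at the closed point `N` of the special fibre.
-/

open IsLocalRing

namespace CV

/-- `W` dominates `V`. -/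
structure Wv (V L : Type) [CommRing V] [IsLocalRing V] [Field L] [Algebra V L] {Ω : Type} [Field Ω]
    [Algebra L Ω] (W : ValuationSubring Ω) : Prop where
  mem : ∀ c : V, algebraMap L Ω (algebraMap V L c) ∈ W
  lt : ∀ c ∈ maximalIdeal V, algebraMap L Ω (algebraMap V L c) ∈ W.nonunits

/-- `z` is a local parameter at the closed point `N` of the special fibre. -/
def Rgl {V S : Type} [CommRing V] [CommRing S] [Algebra V S] (π : V) (N : Ideal S) (z : S) : Prop :=
  z ∈ N ∧ ∃ s, s ∉ N ∧ ∀ x ∈ N, ∃ y y', s * x = z * y + algebraMap V S π * y'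

/-- A nonzero polynomial over the fraction field has a multiple with coefficients in `V`, not all of them
in the maximal ideal. -/
private theorem rp0_scale {V L : Type} [CommRing V] [IsDomain V] [IsDiscreteValuationRing V]
    [Field L] [Algebra V L] [IsFractionRing V L] (R : Polynomial L) (hR : R ≠ 0) :
    ∃ (p : Polynomial V) (a : L), a ≠ 0 ∧ p.map (algebraMap V L) = Polynomial.C a * R ∧
      p.map (residue V) ≠ 0 := by
  classical
  obtain ⟨inst⟩ : Nonempty (NormalizedGCDMonoid V) := inferInstance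
  obtain ⟨b, hb1, hb⟩ := IsLocalization.integerNormalization_spec (nonZeroDivisors V) R
  set p0 := IsLocalization.integerNormalization (nonZeroDivisors V) R with hp0
  have hinj : Function.Injective (algebraMap V L) := IsFractionRing.injective V L
  have hb0 : algebraMap V L b ≠ 0 := by
    rw [Ne, map_eq_zero_iff _ hinj]
    exact nonZeroDivisors.ne_zero hb1
  have hb' : p0.map (algebraMap V L) = Polynomial.C (algebraMap V L b) * R := by
    rw [hb, ← algebraMap_smul L b R, Polynomial.smul_eq_C_mul]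
  have hp0' : p0 ≠ 0 := by
    intro h
    rw [h, Polynomial.map_zero] at hb'
    exact mul_ne_zero (Polynomial.C_ne_zero.2 hb0) hR hb'.symm
  have hc0 : algebraMap V L p0.content ≠ 0 := by
    rw [Ne, map_eq_zero_iff _ hinj, Polynomial.content_eq_zero_iff]
    exact hp0'
  have hpp : Polynomial.C (algebraMap V L p0.content) * p0.primPart.map (algebraMap V L) =
      Polynomial.C (algebraMap V L b) * R := by
    rw [← hb']
    conv_rhs => rw [Polynomial.eq_C_content_mul_primPart p0, Polynomial.map_mul, Polynomial.map_C]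
  refine ⟨p0.primPart, (algebraMap V L p0.content)⁻¹ * algebraMap V L b,
    mul_ne_zero (inv_ne_zero hc0) hb0, ?_, ?_⟩
  · rw [Polynomial.C_mul, mul_assoc, ← hpp, ← mul_assoc, ← Polynomial.C_mul, inv_mul_cancel₀ hc0,
      Polynomial.C_1, one_mul]
  · intro h
    obtain ⟨ϖ, hϖ⟩ := IsDiscreteValuationRing.exists_irreducible V
    have h1 : Polynomial.C ϖ ∣ p0.primPart := by
      rw [Polynomial.C_dvd_iff_dvd_coeff]
      intro i
      have h2 : residue V (p0.primPart.coeff i) = 0 := by
        rw [← Polynomial.coeff_map, h, Polynomial.coeff_zero]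
      rw [residue_eq_zero_iff, hϖ.maximalIdeal_eq, Ideal.mem_span_singleton] at h2
      exact h2
    exact hϖ.not_isUnit (p0.isPrimitive_primPart ϖ h1)

private theorem rp0_mul_mem {Ω : Type} [Field Ω] {W : ValuationSubring Ω} {a b : Ω} (ha : a ∈ W)
    (hb : b ∈ W.nonunits) : a * b ∈ W.nonunits := by
  rw [ValuationSubring.mem_nonunits_iff] at hb ⊢
  rw [map_mul]
  have h1 : W.valuation a ≤ 1 := (W.valuation_le_one_iff a).2 ha
  calc W.valuation a * W.valuation b ≤ 1 * W.valuation b := mul_le_mul' h1 le_rfl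
    _ = W.valuation b := one_mul _
    _ < 1 := hb

private theorem rp0_prime {Ω : Type} [Field Ω] {W : ValuationSubring Ω} {a b : Ω} (ha : a ∈ W)
    (hb : b ∈ W) (hab : a * b ∈ W.nonunits) : a ∈ W.nonunits ∨ b ∈ W.nonunits := by
  rw [ValuationSubring.mem_nonunits_iff] at hab ⊢
  rw [ValuationSubring.mem_nonunits_iff]
  by_contra hcon
  push Not at hcon
  have h1 : W.valuation a = 1 := le_antisymm ((W.valuation_le_one_iff a).2 ha) hcon.1
  have h2 : W.valuation b = 1 := le_antisymm ((W.valuation_le_one_iff b).2 hb) hcon.2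
  rw [map_mul, h1, h2, one_mul] at hab
  exact lt_irrefl _ hab

/-- Inverses modulo a prime ideal above the maximal ideal of `V`. -/
private theorem rp0_inv {V S : Type} [CommRing V] [IsLocalRing V] [CommRing S] [Algebra V S]
    {N : Ideal S} (hN : N.IsPrime) (hm : ∀ c ∈ maximalIdeal V, algebraMap V S c ∈ N) {s : S}
    (hs : s ∉ N) : ∀ (n : ℕ) (p : Polynomial V), p.natDegree ≤ n → p.map (residue V) ≠ 0 →
      Polynomial.aeval s p ∈ N → ∃ t, s * t - 1 ∈ N := by
  have key : ∀ p : Polynomial V, p.coeff 0 ∉ maximalIdeal V → Polynomial.aeval s p ∈ N →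
      ∃ t, s * t - 1 ∈ N := by
    intro p h0 hp
    have hu : IsUnit (p.coeff 0) := by
      by_contra hcon
      exact h0 ((mem_maximalIdeal _).2 hcon)
    obtain ⟨u, hu'⟩ := hu
    have h1 : Polynomial.aeval s p = Polynomial.aeval s p.divX * s + algebraMap V S (p.coeff 0) := by
      conv_lhs => rw [← Polynomial.divX_mul_X_add p]
      rw [map_add, map_mul, Polynomial.aeval_X, Polynomial.aeval_C]
    have h2 : algebraMap V S ((u⁻¹ : Vˣ) : V) * algebraMap V S (p.coeff 0) = 1 := by
      rw [← hu', ← map_mul, Units.inv_mul, map_one]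
    refine ⟨-(algebraMap V S ((u⁻¹ : Vˣ) : V) * Polynomial.aeval s p.divX), ?_⟩
    have h3 : s * -(algebraMap V S ((u⁻¹ : Vˣ) : V) * Polynomial.aeval s p.divX) - 1 =
        -(algebraMap V S ((u⁻¹ : Vˣ) : V)) * Polynomial.aeval s p := by
      rw [h1]
      linear_combination h2
    rw [h3]
    exact Ideal.mul_mem_left _ _ hp
  intro n
  induction n with
  | zero =>
    intro p hn hp hpN
    refine key p ?_ hpN
    intro h0
    apply hp
    rw [Polynomial.eq_C_of_natDegree_le_zero hn, Polynomial.map_C, (residue_eq_zero_iff _).2 h0,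
      map_zero]
  | succ n ih =>
    intro p hn hp hpN
    by_cases h0 : p.coeff 0 ∈ maximalIdeal V
    · have h1 : Polynomial.aeval s p =
          Polynomial.aeval s p.divX * s + algebraMap V S (p.coeff 0) := by
        conv_lhs => rw [← Polynomial.divX_mul_X_add p]
        rw [map_add, map_mul, Polynomial.aeval_X, Polynomial.aeval_C]
      have h2 : Polynomial.aeval s p.divX * s ∈ N := by
        have h3 : Polynomial.aeval s p.divX * s =
            Polynomial.aeval s p - algebraMap V S (p.coeff 0) := by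
          rw [h1, add_sub_cancel_right]
        rw [h3]
        exact Ideal.sub_mem _ hpN (hm _ h0)
      refine ih p.divX ?_ ?_ ((hN.mem_or_mem h2).resolve_right hs)
      · rw [Polynomial.natDegree_divX_eq_natDegree_tsub_one]
        omega
      · intro h3
        apply hp
        rw [← Polynomial.divX_mul_X_add p, Polynomial.map_add, Polynomial.map_mul, h3,
          Polynomial.map_C, (residue_eq_zero_iff _).2 h0, map_zero, zero_mul, zero_add]
    · exact key p h0 hpN

/-- Elements of positive degree are transcendental. -/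
private theorem rp0_trans {K A : Type} [Field K] [CommRing A] [Algebra K A] (G : Dg K A) {y : A}
    {n : ℕ} (hn : 0 < n) (hy : G.d y = n) : ∀ (m : ℕ) (R : Polynomial K), R.natDegree = m → R ≠ 0 →
      G.d (Polynomial.aeval y R) = (n * m : ℕ) := by
  intro m
  induction m with
  | zero =>
    intro R hm hR
    have h1 := Polynomial.eq_C_of_natDegree_eq_zero hm
    have h2 : R.coeff 0 ≠ 0 := by
      intro h
      apply hR
      rw [h1, h, map_zero]
    rw [h1, Polynomial.aeval_C, G.d_cst h2, mul_zero, Nat.cast_zero]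
  | succ m ih =>
    intro R hm hR
    have h1 : Polynomial.aeval y R = Polynomial.aeval y R.divX * y + algebraMap K A (R.coeff 0) := by
      conv_lhs => rw [← Polynomial.divX_mul_X_add R]
      rw [map_add, map_mul, Polynomial.aeval_X, Polynomial.aeval_C]
    have h2 : R.divX.natDegree = m := by
      rw [Polynomial.natDegree_divX_eq_natDegree_tsub_one, hm, Nat.add_sub_cancel]
    have h3 : R.divX ≠ 0 := by
      intro h
      have h4 := Polynomial.divX_mul_X_add R
      rw [h, zero_mul, zero_add] at h4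
      rw [← h4, Polynomial.natDegree_C] at hm
      omega
    have h5 : G.d (Polynomial.aeval y R.divX * y) = (n * (m + 1) : ℕ) := by
      rw [G.mul, ih _ h2 h3, hy, ← Nat.cast_add, Nat.mul_succ]
    have h6 : G.d (algebraMap K A (R.coeff 0)) ≤ 0 := by
      by_cases h0 : R.coeff 0 = 0
      · rw [h0, map_zero, G.zero]
        exact bot_le
      · rw [G.d_cst h0]
    rw [h1, add_comm, G.add_eq, h5]
    rw [h5]
    refine lt_of_le_of_lt h6 ?_
    have h7 : 0 < n * (m + 1) := Nat.mul_pos hn (Nat.succ_pos m)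
    exact_mod_cast h7

namespace Md

variable {V L k S SL Sk : Type} [CommRing V] [IsDomain V] [IsDiscreteValuationRing V] [Field L]
  [Field k] [Algebra V L] [IsFractionRing V L] [Algebra V k] [CommRing S] [CommRing SL]
  [CommRing Sk] [Algebra V S] [Algebra L SL] [Algebra k Sk] (M : Md V L k S SL Sk) {Ω : Type}
  [Field Ω] [Algebra L Ω] (W : ValuationSubring Ω)

/-- The point `φ` is integral. -/
def Ig (φ : SL →ₐ[L] Ω) : Prop := ∀ s : S, φ (M.i s) ∈ W

/-- The point `φ` is integral and reduces to `N`. -/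
def Ov (φ : SL →ₐ[L] Ω) (N : Ideal S) : Prop :=
  M.Ig W φ ∧ ∀ s : S, s ∈ N ↔ φ (M.i s) ∈ W.nonunits

variable {W}

theorem ov_uniq {φ : SL →ₐ[L] Ω} {N N' : Ideal S} (h : M.Ov W φ N) (h' : M.Ov W φ N') : N = N' := by
  ext s
  rw [h.2, h'.2]

theorem ov_ne {φ : SL →ₐ[L] Ω} {N : Ideal S} (h : M.Ov W φ N) {s : S} (hs : s ∉ N) :
    φ (M.i s) ≠ 0 := by
  intro h0
  apply hs
  rw [h.2, h0]
  exact W.nonunits.zero_mem

private theorem rp0_alg (φ : SL →ₐ[L] Ω) (c : V) :
    φ (M.i (algebraMap V S c)) = algebraMap L Ω (algebraMap V L c) := by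
  rw [M.i_alg, φ.commutes]

private theorem rp0_aeval (φ : SL →ₐ[L] Ω) (s : S) (p : Polynomial V) :
    φ (M.i (Polynomial.aeval s p)) =
      Polynomial.aeval (φ (M.i s)) (p.map (algebraMap V L)) := by
  have h1 : φ (M.i (Polynomial.aeval s p)) =
      ((φ : SL →+* Ω).comp M.i) (Polynomial.eval₂ (algebraMap V S) s p) := rfl
  rw [h1, Polynomial.hom_eval₂, Polynomial.aeval_def, Polynomial.eval₂_map]
  congr 1
  ext c
  exact rp0_alg M φ c

private theorem rp0_aevalL (s : S) (p : Polynomial V) :
    M.i (Polynomial.aeval s p) = Polynomial.aeval (M.i s) (p.map (algebraMap V L)) := by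
  have h1 : M.i (Polynomial.aeval s p) = M.i (Polynomial.eval₂ (algebraMap V S) s p) := rfl
  rw [h1, Polynomial.hom_eval₂, Polynomial.aeval_def, Polynomial.eval₂_map]
  congr 1
  ext c
  exact M.i_alg c

/-- An integral point reduces to a closed point. Proof: `N` = the elements with values in the maximal ideal of `W`; `S / N` is contained in the residue field of `W`, which is algebraic over `k`, so `N` is maximal. -/
theorem ig_ov [Algebra.IsAlgebraic L Ω] (hW : Wv V L W) {φ : SL →ₐ[L] Ω} (h : M.Ig W φ) :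
    ∃ N : Ideal S, Cs V N ∧ M.Ov W φ N := by
  let N : Ideal S :=
    { carrier := {s | φ (M.i s) ∈ W.nonunits}
      zero_mem' := by
        change φ (M.i 0) ∈ W.nonunits
        rw [map_zero, map_zero]
        exact W.nonunits.zero_mem
      add_mem' := by
        intro a b ha hb
        change φ (M.i (a + b)) ∈ W.nonunits
        rw [map_add, map_add]
        exact W.nonunits.add_mem ha hb
      smul_mem' := by
        intro c x hx
        change φ (M.i (c * x)) ∈ W.nonunits
        rw [map_mul, map_mul]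
        exact rp0_mul_mem (h c) hx }
  have hmem : ∀ s : S, s ∈ N ↔ φ (M.i s) ∈ W.nonunits := fun s => Iff.rfl
  have h1 : (1 : S) ∉ N := by
    rw [hmem, map_one, map_one, ValuationSubring.mem_nonunits_iff, map_one]
    exact lt_irrefl _
  have hP : N.IsPrime := by
    refine ⟨fun hT => h1 (hT ▸ Submodule.mem_top), ?_⟩
    intro a b hab
    rw [hmem, map_mul, map_mul] at hab
    exact rp0_prime (h a) (h b) hab
  have hm : ∀ c ∈ maximalIdeal V, algebraMap V S c ∈ N := by
    intro c hc
    rw [hmem, rp0_alg]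
    exact hW.lt c hc
  refine ⟨N, ⟨?_, hm⟩, h, hmem⟩
  rw [Ideal.isMaximal_iff]
  refine ⟨h1, ?_⟩
  intro J s hNJ hs hsJ
  obtain ⟨R, hR0, hR⟩ := Algebra.IsAlgebraic.isAlgebraic (R := L) (φ (M.i s))
  obtain ⟨p, a, _, hp, hpr⟩ := rp0_scale (V := V) R hR0
  have h2 : Polynomial.aeval s p ∈ N := by
    rw [hmem, rp0_aeval, hp, map_mul, hR, mul_zero]
    exact W.nonunits.zero_mem
  obtain ⟨t, ht⟩ := rp0_inv hP hm hs _ p le_rfl hpr h2
  have h3 : (1 : S) = s * t - (s * t - 1) := by ring
  rw [h3]
  exact J.sub_mem (J.mul_mem_right _ hsJ) (hNJ ht)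

/-- The zeros of elements of unit type are integral. Proof: `S / (x)` is finite over `V` (`qfin`). -/
theorem ut_ig (hW : Wv V L W) {x : S} {n : ℕ} (hx : M.Ut x n) {φ : SL →ₐ[L] Ω}
    (h : φ (M.i x) = 0) : M.Ig W φ := by
  intro s
  have hf := M.qfin hx
  obtain ⟨p, hp, hpe⟩ := Algebra.IsIntegral.isIntegral (R := V)
    (Ideal.Quotient.mk (Ideal.span {x}) s)
  have h1 : Polynomial.aeval s p ∈ Ideal.span {x} := by
    rw [← Ideal.Quotient.eq_zero_iff_mem, ← hpe]
    have h2 : Polynomial.aeval s p = Polynomial.eval₂ (algebraMap V S) s p := rfl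
    rw [h2, Polynomial.hom_eval₂]
    rfl
  obtain ⟨y, hy⟩ := Ideal.mem_span_singleton.1 h1
  have h3 : Polynomial.aeval (φ (M.i s)) (p.map (algebraMap V L)) = 0 := by
    rw [← rp0_aeval, hy, map_mul, map_mul, h, zero_mul]
  let ρ : V →+* W :=
    { toFun := fun c => ⟨algebraMap L Ω (algebraMap V L c), hW.mem c⟩
      map_one' := by
        apply Subtype.ext
        simp
      map_mul' := fun a b => by
        apply Subtype.ext
        simp
      map_zero' := by
        apply Subtype.ext
        simp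
      map_add' := fun a b => by
        apply Subtype.ext
        simp }
  have h4 : IsIntegral W (φ (M.i s)) := by
    refine ⟨p.map ρ, hp.map ρ, ?_⟩
    rw [Polynomial.aeval_def, Polynomial.eval₂_map] at h3
    rw [Polynomial.eval₂_map, ← h3]
    congr 1
  obtain ⟨w, hw⟩ := IsIntegrallyClosed.isIntegral_iff.1 h4
  rw [← hw]
  exact w.2

/-- Proof: `SL` contains elements which are transcendental over `L`; clear the denominator and divide by powers of `π`. -/
theorem exists_ker [Algebra.IsAlgebraic L Ω] (φ : SL →ₐ[L] Ω) :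
    ∃ g : S, M.q g ≠ 0 ∧ φ (M.i g) = 0 := by
  obtain ⟨n₀, h0⟩ := M.exists_tail
  obtain ⟨e, he⟩ := h0 (n₀ + 1) (Nat.le_succ _)
  obtain ⟨R, hR0, hR⟩ := Algebra.IsAlgebraic.isAlgebraic (R := L) (φ (M.i e))
  obtain ⟨p, a, ha, hp, _⟩ := rp0_scale (V := V) R hR0
  have hne : Polynomial.C a * R ≠ 0 := mul_ne_zero (Polynomial.C_ne_zero.2 ha) hR0
  have h1 : Polynomial.aeval e p ≠ 0 := by
    intro h
    have h2 := rp0_trans M.DL (Nat.succ_pos n₀) he.1 _ _ rfl hne
    rw [← hp, ← rp0_aevalL, h, map_zero, M.DL.zero] at h2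
    exact WithBot.bot_ne_coe h2
  obtain ⟨c, t, hct, ht⟩ := M.prim _ h1
  have hc : c ≠ 0 := by
    rintro rfl
    exact h1 (by rw [hct, map_zero, zero_mul])
  refine ⟨t, ht, ?_⟩
  have h3 : φ (M.i (Polynomial.aeval e p)) = 0 := by
    rw [rp0_aeval, hp, map_mul, hR, mul_zero]
  rw [hct, map_mul, map_mul, rp0_alg] at h3
  rcases mul_eq_zero.1 h3 with h4 | h4
  · exfalso
    rw [FaithfulSMul.algebraMap_eq_zero_iff] at h4
    exact hc (IsFractionRing.injective V L (by rw [h4, map_zero]))
  · exact h4

/-- Elements which are associated at `{N}` are associated in the local ring of the generic fibre at `φ`. -/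
theorem as_lu {φ : SL →ₐ[L] Ω} {T : Set (Ideal S)} {N : Ideal S} (hN : N ∈ T) (h : M.Ov W φ N)
    {a b : S} (hab : As T a b) : Lu φ (M.i a) (M.i b) := by
  obtain ⟨s, hs, s', hs', e⟩ := hab
  exact ⟨M.i s, M.i s', M.ov_ne h (hs N hN), M.ov_ne h (hs' N hN), by
    rw [← map_mul, ← map_mul, e]⟩

end Md

end CV
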