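import Pool.Agent.Lib.MP_f80667_ag.Cv.MdR
import Pool.Agent.Lib.MP_f80667_ag.Cv.Lc
import Pool.Agent.Lib.MP_f80667_ag.Cv.Rp0

/-!
# The integers of the extensions `M` of a local field `K`

* `OM L M`: the integers of `M`; the instances `Algebra (Ok L) (OM L M)`, `IsScalarTower (Ok L) (OM L M) M`, `IsLocalHom`;
  the same for `L.V`. For a finite extension `M`: `IsDiscreteValuationRing`, `IsAdicComplete`, finite residue field.
* `omM : OM L M →ₐ[Ok L] OM L M'` for `M ≤ M'`, `omV : OM L M →ₐ[Ok L] L.V`, `actV γ : L.V →ₐ[Ok L] L.V`.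
* `wvM : Wv (OM L M) M L.V`.
-/

set_option autoImplicit false

open ZC BE PE Polynomial TensorProduct IntermediateField IsLocalRing

namespace CV

section unit

variable {K Ω : Type} [Field K] [Field Ω] [Algebra K Ω] (L : Ld K Ω)

/-- The units of a subring of integers. -/
theorem unit_iff {E : Type} [Field E] (f : E →+* Ω) (V : ValuationSubring E)
    (hV : ∀ x, x ∈ V ↔ L.nm (f x) ≤ 1) (x : V) : IsUnit x ↔ L.nm (f x) = 1 := by
  constructor
  · intro h
    obtain ⟨y, hy⟩ := h.exists_right_inv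
    have h1 : f (x : E) * f (y : E) = 1 := by
      rw [← map_mul, ← map_one f]
      exact congrArg f (congrArg (fun z : V => (z : E)) hy)
    have h2 := congrArg L.nm h1
    rw [L.mul, L.one] at h2
    have hx := (hV x).1 x.2
    have hy := (hV y).1 y.2
    by_contra hne
    have hlt := lt_of_le_of_ne hx hne
    exact absurd h2 (mul_lt_one_of_nonneg_of_lt_one_left (L.nonneg _) hlt hy).ne
  · intro h
    have hx : (x : E) ≠ 0 := by
      intro h0
      rw [h0, map_zero, L.zero] at h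
      exact zero_ne_one h
    have h3 : ((x : E))⁻¹ ∈ V := by
      rw [hV, map_inv₀, L.inv, h, inv_one]
    exact IsUnit.of_mul_eq_one (⟨_, h3⟩ : V) (Subtype.ext (mul_inv_cancel₀ hx))

theorem max_iff {E : Type} [Field E] (f : E →+* Ω) (V : ValuationSubring E)
    (hV : ∀ x, x ∈ V ↔ L.nm (f x) ≤ 1) (x : V) : x ∈ maximalIdeal V ↔ L.nm (f x) < 1 := by
  rw [mem_maximalIdeal, mem_nonunits_iff, unit_iff L f V hV]
  exact ⟨fun h => lt_of_le_of_ne ((hV x).1 x.2) h, fun h => h.ne⟩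

theorem local_of {E E' : Type} [Field E] [Field E'] (f : E →+* Ω) (V : ValuationSubring E)
    (hV : ∀ x, x ∈ V ↔ L.nm (f x) ≤ 1) (f' : E' →+* Ω) (V' : ValuationSubring E')
    (hV' : ∀ x, x ∈ V' ↔ L.nm (f' x) ≤ 1) (g : V →+* V')
    (hg : ∀ x, L.nm (f' (g x)) = L.nm (f x)) : IsLocalHom g :=
  ⟨fun x hx => by rw [unit_iff L f V hV, ← hg, ← unit_iff L f' V' hV']; exact hx⟩

end unit

section int

variable {K Ω : Type} [Field K] [Field Ω] [Algebra K Ω] (L : Ld K Ω)
  (M M' : IntermediateField K Ω)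

/-- The integers of `M`. -/
abbrev OM : ValuationSubring M := L.V.comap (algebraMap M Ω)

variable {L M} in
theorem mem_OM {x : M} : x ∈ OM L M ↔ L.nm (x : Ω) ≤ 1 := Iff.rfl

variable {L} in
theorem mem_Ok {x : K} : x ∈ Ok L ↔ L.nm (algebraMap K Ω x) ≤ 1 := Iff.rfl

/-- The map `Ok L → OM L M`. -/
def okM : Ok L →+* OM L M :=
  ((algebraMap K M).comp (Ok L).subtype).codRestrict (OM L M).toSubring fun x => x.2

/-- The map `Ok L → L.V`. -/
def okV : Ok L →+* L.V :=
  ((algebraMap K Ω).comp (Ok L).subtype).codRestrict L.V.toSubring fun x => x.2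

instance algOM : Algebra (Ok L) (OM L M) := (okM L M).toAlgebra

instance algOV : Algebra (Ok L) L.V := (okV L).toAlgebra

instance towOM : IsScalarTower (Ok L) (OM L M) M := IsScalarTower.of_algebraMap_eq fun _ => rfl

instance towOV : IsScalarTower (Ok L) L.V Ω := IsScalarTower.of_algebraMap_eq fun _ => rfl

instance towOMO : IsScalarTower (Ok L) M Ω := IsScalarTower.of_algebraMap_eq fun _ => rfl

theorem algOM_coe (x : Ok L) : ((algebraMap (Ok L) (OM L M) x : OM L M) : M) = algebraMap K M x :=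
  rfl

theorem algOV_coe (x : Ok L) : ((algebraMap (Ok L) L.V x : L.V) : Ω) = algebraMap K Ω x := rfl

instance locOM : IsLocalHom (algebraMap (Ok L) (OM L M)) :=
  local_of L (algebraMap K Ω) (Ok L) (fun _ => Iff.rfl) (algebraMap M Ω) (OM L M)
    (fun _ => Iff.rfl) (okM L M) (fun _ => rfl)

instance locOV : IsLocalHom (algebraMap (Ok L) L.V) :=
  local_of L (algebraMap K Ω) (Ok L) (fun _ => Iff.rfl) (RingHom.id Ω) L.V
    (fun _ => Iff.rfl) (okV L) (fun _ => rfl)

theorem unitOM (x : OM L M) : IsUnit x ↔ L.nm ((x : M) : Ω) = 1 :=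
  unit_iff L (algebraMap M Ω) (OM L M) (fun _ => Iff.rfl) x

theorem maxOM (x : OM L M) : x ∈ maximalIdeal (OM L M) ↔ L.nm ((x : M) : Ω) < 1 :=
  max_iff L (algebraMap M Ω) (OM L M) (fun _ => Iff.rfl) x

theorem unitOV (x : L.V) : IsUnit x ↔ L.nm (x : Ω) = 1 :=
  unit_iff L (RingHom.id Ω) L.V (fun _ => Iff.rfl) x

theorem maxOV (x : L.V) : x ∈ maximalIdeal L.V ↔ L.nm (x : Ω) < 1 :=
  max_iff L (RingHom.id Ω) L.V (fun _ => Iff.rfl) x

theorem nonunits_iff {x : Ω} : x ∈ L.V.nonunits ↔ L.nm x < 1 := by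
  rw [ValuationSubring.mem_nonunits_iff_exists_mem_maximalIdeal]
  constructor
  · rintro ⟨h, h'⟩
    exact (maxOV L ⟨x, h⟩).1 h'
  · intro h
    exact ⟨h.le, (maxOV L ⟨x, h.le⟩).2 h⟩

variable {M M'} in
/-- The map `OM L M → OM L M'`. -/
def omM (h : M ≤ M') : OM L M →ₐ[Ok L] OM L M' where
  __ := ((inclusion h : M →+* M').comp (OM L M).subtype).codRestrict (OM L M').toSubring
    fun x => x.2
  commutes' _ := rfl

variable {M M'} in
theorem omM_coe (h : M ≤ M') (x : OM L M) : (((omM L h x : OM L M') : M') : Ω) = ((x : M) : Ω) :=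
  rfl

/-- The map `OM L M → L.V`. -/
def omV : OM L M →ₐ[Ok L] L.V where
  __ := ((algebraMap M Ω).comp (OM L M).subtype).codRestrict L.V.toSubring fun x => x.2
  commutes' _ := rfl

theorem omV_coe (x : OM L M) : (omV L M x : Ω) = ((x : M) : Ω) := rfl

/-- The action of the Galois group on the integers of `Ω`. -/
def actV (γ : Ω ≃ₐ[K] Ω) : L.V →ₐ[Ok L] L.V where
  __ := ((γ : Ω →+* Ω).comp L.V.subtype).codRestrict L.V.toSubring fun x => by
    change L.nm (γ x) ≤ 1
    rw [L.act]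
    exact x.2
  commutes' x := Subtype.ext (γ.commutes (x : K))

theorem actV_coe (γ : Ω ≃ₐ[K] Ω) (x : L.V) : (actV L γ x : Ω) = γ x := rfl

/-- The valuation ring of `Ω` is above the integers of `M`. -/
theorem wvM : Wv (OM L M) M L.V where
  mem c := c.2
  lt c hc := (nonunits_iff L).2 ((maxOM L M c).1 hc)

end int

section dvr

variable {K Ω : Type} [Field K] [Field Ω] [Algebra K Ω] (L : Ld K Ω)
  (M : IntermediateField K Ω) [FiniteDimensional K M]

/-- A uniformizer. -/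
theorem exists_unif : ∃ π : OM L M, 0 < L.nm ((π : M) : Ω) ∧ L.nm ((π : M) : Ω) < 1 ∧
    ∀ x : OM L M, x ≠ 0 → ∃ n : ℕ, L.nm ((x : M) : Ω) = L.nm ((π : M) : Ω) ^ n := by
  obtain ⟨π, hπ, h0, h1, h⟩ := L.unif M inferInstance
  refine ⟨⟨⟨π, hπ⟩, h1.le⟩, h0, h1, fun x hx => ?_⟩
  have hx0 : ((x : M) : Ω) ≠ 0 := by
    intro h
    exact hx (Subtype.ext (Subtype.ext h))
  obtain ⟨n, hn⟩ := h _ (x : M).2 hx0
  have hx1 : L.nm ((x : M) : Ω) ≤ 1 := x.2
  have hn0 : 0 ≤ n := by
    by_contra hneg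
    rw [not_le] at hneg
    rw [hn] at hx1
    have := one_lt_zpow_of_neg₀ h0 h1 hneg
    exact absurd hx1 (not_le.2 this)
  obtain ⟨k, rfl⟩ := Int.eq_ofNat_of_zero_le hn0
  exact ⟨k, by rw [hn]; exact zpow_natCast _ _⟩

omit [FiniteDimensional K M] in
variable {L M} in
theorem dvd_iff_nm {x y : OM L M} : x ∣ y ↔ L.nm ((y : M) : Ω) ≤ L.nm ((x : M) : Ω) := by
  constructor
  · rintro ⟨z, rfl⟩
    have hz : L.nm ((z : M) : Ω) ≤ 1 := z.2
    change L.nm (((x : M) : Ω) * ((z : M) : Ω)) ≤ _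
    rw [L.mul]
    exact mul_le_of_le_one_right (L.nonneg _) hz
  · intro h
    by_cases hx : ((x : M) : Ω) = 0
    · rw [hx, L.zero] at h
      have hy : ((y : M) : Ω) = 0 := (L.zero_iff _).1 (le_antisymm h (L.nonneg _))
      have hy' : y = 0 := Subtype.ext (Subtype.ext hy)
      rw [hy']
      exact dvd_zero _
    · have hx1 : (x : M) ≠ 0 := fun h => hx (by rw [h]; rfl)
      have h3 : (y : M) / (x : M) ∈ OM L M := by
        change L.nm ((((y : M) / (x : M) : M)) : Ω) ≤ 1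
        rw [IntermediateField.coe_div, L.div]
        exact div_le_one_of_le₀ h (L.nonneg _)
      refine ⟨⟨_, h3⟩, Subtype.ext ?_⟩
      change (y : M) = (x : M) * ((y : M) / (x : M))
      rw [mul_div_cancel₀ _ hx1]

omit [FiniteDimensional K M] in
theorem irr_of_nm {π : OM L M} (h0 : 0 < L.nm ((π : M) : Ω)) (h1 : L.nm ((π : M) : Ω) < 1)
    (h : ∀ x : OM L M, x ≠ 0 → ∃ n : ℕ, L.nm ((x : M) : Ω) = L.nm ((π : M) : Ω) ^ n) :
    Irreducible π := by
  have hπ : π ≠ 0 := by
    rintro rfl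
    have : L.nm (((0 : OM L M) : M) : Ω) = 0 := L.zero
    rw [this] at h0
    exact lt_irrefl _ h0
  refine ⟨fun hu => h1.ne ((unitOM L M π).1 hu), fun a b hab => ?_⟩
  have ha : a ≠ 0 := by rintro rfl; rw [zero_mul] at hab; exact hπ hab
  have hb : b ≠ 0 := by rintro rfl; rw [mul_zero] at hab; exact hπ hab
  obtain ⟨i, hi⟩ := h a ha
  obtain ⟨j, hj⟩ := h b hb
  have h2 : L.nm ((π : M) : Ω) = L.nm ((a : M) : Ω) * L.nm ((b : M) : Ω) := by
    rw [← L.mul, hab]
    rfl
  rw [hi, hj, ← pow_add] at h2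
  have h3 : i + j = 1 := by
    have h4 : L.nm ((π : M) : Ω) ^ 1 = L.nm ((π : M) : Ω) ^ (i + j) := by rw [pow_one]; exact h2
    exact (pow_right_injective₀ h0 h1.ne h4).symm
  rcases Nat.eq_zero_or_pos i with hi0 | hi0
  · left
    rw [unitOM, hi, hi0, pow_zero]
  · right
    rw [unitOM, hj, show j = 0 by omega, pow_zero]

instance dvrOM : IsDiscreteValuationRing (OM L M) := by
  obtain ⟨π, h0, h1, h⟩ := exists_unif L M
  refine IsDiscreteValuationRing.ofHasUnitMulPowIrreducibleFactorization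
    ⟨π, irr_of_nm L M h0 h1 h, fun {x} hx => ?_⟩
  obtain ⟨n, hn⟩ := h x hx
  have h2 : L.nm (((π ^ n : OM L M) : M) : Ω) = L.nm ((π : M) : Ω) ^ n := by
    rw [← L.pow]
    rfl
  refine ⟨n, associated_of_dvd_dvd ?_ ?_⟩
  · rw [dvd_iff_nm, h2, hn]
  · rw [dvd_iff_nm, h2, hn]

theorem max_pow {π : OM L M} (hπ : Irreducible π) (n : ℕ) (x : OM L M) :
    x ∈ maximalIdeal (OM L M) ^ n ↔ L.nm ((x : M) : Ω) ≤ L.nm ((π : M) : Ω) ^ n := by
  rw [(IsDiscreteValuationRing.irreducible_iff_uniformizer π).1 hπ, Ideal.span_singleton_pow,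
    Ideal.mem_span_singleton, dvd_iff_nm]
  have h2 : L.nm (((π ^ n : OM L M) : M) : Ω) = L.nm ((π : M) : Ω) ^ n := by
    rw [← L.pow]
    rfl
  rw [h2]

instance acOM : IsAdicComplete (maximalIdeal (OM L M)) (OM L M) where
  haus' x hx := by
    obtain ⟨π, hπ⟩ := IsDiscreteValuationRing.exists_irreducible (OM L M)
    have hπ1 : L.nm ((π : M) : Ω) < 1 := by
      rw [← maxOM]
      exact (IsDiscreteValuationRing.irreducible_iff_uniformizer π).1 hπ ▸
        Ideal.mem_span_singleton_self π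
    by_contra hne
    have h1 : 0 < L.nm ((x : M) : Ω) := L.pos fun h => hne (Subtype.ext (Subtype.ext h))
    obtain ⟨n, hn⟩ := exists_pow_lt_of_lt_one h1 hπ1
    have h2 := hx n
    rw [SModEq.zero, smul_eq_mul, Ideal.mul_top, max_pow L M hπ] at h2
    exact absurd h2 (not_le.2 hn)
  prec' f hf := by
    obtain ⟨π, hπ⟩ := IsDiscreteValuationRing.exists_irreducible (OM L M)
    have hπ1 : L.nm ((π : M) : Ω) < 1 := by
      rw [← maxOM]
      exact (IsDiscreteValuationRing.irreducible_iff_uniformizer π).1 hπ ▸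
        Ideal.mem_span_singleton_self π
    obtain ⟨y, hy, hyx⟩ := L.cpl M inferInstance (L.nm ((π : M) : Ω)) (L.nonneg _) hπ1
      (fun n => ((f n : M) : Ω)) (fun n => (f n : M).2) (fun n => by
        have h2 := hf (Nat.le_succ n)
        rw [SModEq.sub_mem, smul_eq_mul, Ideal.mul_top, max_pow L M hπ] at h2
        rw [L.sub_comm]
        exact h2)
    have hy1 : L.nm y ≤ 1 := by
      have h3 := L.add (y - ((f 0 : M) : Ω)) ((f 0 : M) : Ω)
      rw [sub_add_cancel] at h3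
      refine h3.trans (max_le ?_ (f 0).2)
      have := hyx 0
      rwa [pow_zero] at this
    refine ⟨⟨⟨y, hy⟩, hy1⟩, fun n => ?_⟩
    rw [SModEq.sub_mem, smul_eq_mul, Ideal.mul_top, max_pow L M hπ]
    have h4 := hyx n
    rw [L.sub_comm] at h4
    exact h4

instance finOM : Finite (ResidueField (OM L M)) := by
  classical
  obtain ⟨S, hS, h⟩ := L.fin M inferInstance
  let g : S → ResidueField (OM L M) := fun s => residue _ ⟨⟨s, (hS s s.2).1⟩, (hS s s.2).2⟩
  refine Finite.of_surjective g fun y => ?_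
  obtain ⟨x, rfl⟩ := residue_surjective y
  obtain ⟨s, hs, hxs⟩ := h _ (x : M).2 x.2
  refine ⟨⟨s, hs⟩, ?_⟩
  rw [← sub_eq_zero, ← map_sub, residue_eq_zero_iff, maxOM]
  rw [L.sub_comm] at hxs
  exact hxs

/-- `K` itself. -/
noncomputable def okBot : Ok L ≃+* OM L (⊥ : IntermediateField K Ω) :=
  RingEquiv.ofBijective (algebraMap (Ok L) (OM L ⊥)) ⟨fun x y h => by
    have h1 := congrArg (fun z : OM L (⊥ : IntermediateField K Ω) => ((z : (⊥ : IntermediateField K Ω)) : Ω)) h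
    exact Subtype.ext ((algebraMap K Ω).injective h1), fun x => by
    obtain ⟨c, hc⟩ := IntermediateField.mem_bot.1 (x : (⊥ : IntermediateField K Ω)).2
    have hx : L.nm ((x : (⊥ : IntermediateField K Ω)) : Ω) ≤ 1 := x.2
    exact ⟨⟨c, by rw [mem_Ok, hc]; exact hx⟩, Subtype.ext (Subtype.ext hc)⟩⟩

instance dvrOk : IsDiscreteValuationRing (Ok L) :=
  IsDiscreteValuationRing.RingEquivClass.isDiscreteValuationRing (okBot L).symm

end dvr

section cl

variable {K Ω : Type} [Field K] [Field Ω] [Algebra K Ω] (M : IntermediateField K Ω)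

theorem algClM [IsAlgClosure K Ω] : IsAlgClosure M Ω :=
  have := IsAlgClosure.isAlgClosed K (K := Ω)
  have : Algebra.IsAlgebraic K Ω := IsAlgClosure.isAlgebraic
  ⟨inferInstance, Algebra.IsAlgebraic.tower_top (K := K) M⟩

theorem charM [CharZero K] : CharZero M := charZero_of_injective_algebraMap (algebraMap K M).injective

end cl

end CV
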