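import Pool.Agent.Lib.MP_f80667_ag.Cv.Fz2
import Pool.Agent.Lib.MP_f80667_ag.Cv.Rp0

/-!
Functions of unit type with simple zeros on the special fibre.
-/

open Polynomial IsLocalRing

namespace CV

/-- There are arbitrarily many irreducible polynomials. Proof: for an infinite field `X - a`, for a finite field (or in general) Euclid's argument. -/
theorem irr_inf (K : Type) [Field K] : {c : K[X] | c.Monic ∧ Irreducible c}.Infinite := by
  intro hfin
  have hX : (X : K[X]) ∈ hfin.toFinset := hfin.mem_toFinset.2 ⟨monic_X, irreducible_X⟩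
  set p : K[X] := ∏ c ∈ hfin.toFinset, c with hp
  have hXp : (X : K[X]) ∣ p := Finset.dvd_prod_of_mem (fun c => c) hX
  have hnu : ¬ IsUnit (p + 1) := by
    intro hu
    have h1 : (p + 1).natDegree = 0 := natDegree_eq_zero_of_isUnit hu
    have hpm : p.Monic := monic_prod_of_monic _ _ fun c hc => (hfin.mem_toFinset.1 hc).1
    have h2 : 0 < p.natDegree := by
      have := natDegree_le_of_dvd hXp hpm.ne_zero
      rw [natDegree_X] at this
      omega
    have h3 : (p + 1).natDegree = p.natDegree := by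
      rw [← C_1, natDegree_add_C]
    omega
  obtain ⟨g, hg, hgi, hgd⟩ := exists_monic_irreducible_factor (p + 1) hnu
  have hgp : g ∣ p := Finset.dvd_prod_of_mem (fun c => c) (hfin.mem_toFinset.2 ⟨hg, hgi⟩)
  exact hgi.not_isUnit (isUnit_of_dvd_one ((dvd_add_right hgp).1 hgd))

/-- Only finitely many monic irreducible polynomials divide `D`. -/
theorem Fz3.dvd_fin {K : Type} [Field K] {D : K[X]} (hD : D ≠ 0) :
    {c : K[X] | c.Monic ∧ Irreducible c ∧ c ∣ D}.Finite := by
  classical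
  refine Set.Finite.subset (UniqueFactorizationMonoid.normalizedFactors D).toFinset.finite_toSet ?_
  rintro c ⟨hc, hi, hd⟩
  rw [Finset.mem_coe, Multiset.mem_toFinset]
  exact (Polynomial.mem_normalizedFactors_iff hD).2 ⟨hi, hc, hd⟩

/-- A prime ideal of `K[X]` contains at most one monic irreducible polynomial. -/
theorem Fz3.irr_uniq {K : Type} [Field K] {P : Ideal K[X]} (hP : P ≠ ⊤) {c c' : K[X]}
    (hc : c.Monic) (hi : Irreducible c) (hc' : c'.Monic) (hi' : Irreducible c') (h : c ∈ P)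
    (h' : c' ∈ P) : c = c' := by
  by_contra hne
  have h1 : ¬ c ∣ c' := by
    intro hd
    exact hne (eq_of_monic_of_associated hc hc' ((hi.dvd_irreducible_iff_associated hi').1 hd))
  obtain ⟨a, b, e⟩ := (hi.coprime_iff_not_dvd).2 h1
  refine hP ((Ideal.eq_top_iff_one P).2 ?_)
  rw [← e]
  exact P.add_mem (P.mul_mem_left _ h) (P.mul_mem_left _ h')

namespace Dg

variable {K A : Type} [Field K] [CommRing A] [Algebra K A] (G : Dg K A)

/-- The degree of `c (u)`. -/
theorem fz3_aeval {u : A} {m : ℕ} (hu : G.d u = m) (hm : m ≠ 0) {c : K[X]} (hc : c.Monic) :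
    G.d (aeval u c) = (m * c.natDegree : ℕ) := by
  have h1 := hc.as_sum
  have h2 : aeval u c = (∑ i ∈ Finset.range c.natDegree, c.coeff i • u ^ i) +
      u ^ c.natDegree := by
    conv_lhs => rw [h1]
    rw [map_add, map_pow, aeval_X, map_sum, add_comm]
    congr 1
    refine Finset.sum_congr rfl fun i _ => ?_
    rw [map_mul, map_pow, aeval_X, aeval_C, ← Algebra.smul_def]
  have h3 : G.d (u ^ c.natDegree) = (m * c.natDegree : ℕ) := G.pow hu _
  have h4 : G.d (∑ i ∈ Finset.range c.natDegree, c.coeff i • u ^ i) <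
      G.d (u ^ c.natDegree) := by
    rw [h3]
    rcases Nat.eq_zero_or_pos c.natDegree with h0 | h0
    · rw [h0, Finset.range_zero, Finset.sum_empty, G.zero]
      exact WithBot.bot_lt_coe _
    · refine lt_of_le_of_lt (G.sum_le _ _ ((m * (c.natDegree - 1) : ℕ) : WithBot ℕ) ?_) ?_
      · intro i hi
        refine (G.smul_le _ _).trans ?_
        rw [G.pow hu, Nat.cast_le]
        exact Nat.mul_le_mul_left _ (by have := Finset.mem_range.1 hi; omega)
      · rw [Nat.cast_lt]
        exact Nat.mul_lt_mul_of_pos_left (by omega) (Nat.pos_of_ne_zero hm)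
  rw [h2, G.add_eq h4, h3]

/-- **Functions with simple zeros.** Proof: `c` monic irreducible, not a divisor of the `D` of `red_u` and not one of the finitely many `c` with `c (u) ∈ N`, `N ∈ T'` (at most one for each `N`: the preimage of `N` in `K[X]` is a maximal ideal); `red_reg`. -/
theorem simple_f {u : A} {m : ℕ} (hu : G.d u = m) (hm : (m : K) ≠ 0) {T' : Set (Ideal A)}
    (hf : T'.Finite) (hC : ∀ N ∈ T', N.IsMaximal) : ∃ c : K[X], c.Monic ∧ c.natDegree ≠ 0 ∧
      (∀ N ∈ T', aeval u c ∉ N) ∧ ∀ N : Ideal A, N.IsMaximal → aeval u c ∈ N →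
        ∃ s, s ∉ N ∧ ∀ x ∈ N, aeval u c ∣ s * x := by
  have hm0 : m ≠ 0 := by
    rintro rfl
    exact hm Nat.cast_zero
  obtain ⟨D, hD, hred⟩ := G.red_u hu hm
  have hfin : ({c : K[X] | c.Monic ∧ Irreducible c ∧ c ∣ D} ∪
      ⋃ N ∈ T', {c : K[X] | (c.Monic ∧ Irreducible c) ∧ aeval u c ∈ N}).Finite := by
    refine (Fz3.dvd_fin hD).union (hf.biUnion fun N hN => ?_)
    refine Set.Subsingleton.finite ?_
    rintro c ⟨⟨hc, hi⟩, h⟩ c' ⟨⟨hc', hi'⟩, h'⟩
    refine Fz3.irr_uniq (P := N.comap (aeval u : K[X] →ₐ[K] A)) ?_ hc hi hc' hi' h h'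
    exact Ideal.comap_ne_top _ (hC N hN).ne_top
  obtain ⟨c, ⟨hc, hi⟩, hcn⟩ := ((irr_inf K).sdiff hfin).nonempty
  rw [Set.mem_union, not_or] at hcn
  have hcD : ¬ c ∣ D := fun h => hcn.1 ⟨hc, hi, h⟩
  refine ⟨c, hc, hi.natDegree_pos.ne', fun N hN h => hcn.2 ?_, fun N hN h => ?_⟩
  · rw [Set.mem_iUnion₂]
    exact ⟨N, hN, ⟨hc, hi⟩, h⟩
  · first
      | exact G.red_reg (G.ne_zero (G.fz3_aeval hu hm0 hc)) (hred c hi hcD) hN h
      | exact red_reg (G.ne_zero (G.fz3_aeval hu hm0 hc)) (hred c hi hcD) hN h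

end Dg

namespace Md

variable {V L k S SL Sk : Type} [CommRing V] [IsDomain V] [IsDiscreteValuationRing V] [Field L]
  [Field k] [Algebra V L] [IsFractionRing V L] [Algebra V k] [CommRing S] [CommRing SL]
  [CommRing Sk] [Algebra V S] [Algebra L SL] [Algebra k Sk] (M : Md V L k S SL Sk)

/-- The closed points of the special fibre and the maximal ideals of `Sk`. -/
theorem cs_map {N : Ideal S} (hN : Cs V N) : (N.map M.q).IsMaximal ∧
    ∀ s : S, s ∈ N ↔ M.q s ∈ N.map M.q := by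
  obtain ⟨π, hπ⟩ := IsDiscreteValuationRing.exists_irreducible V
  have hπm : π ∈ maximalIdeal V := by
    rw [hπ.maximalIdeal_eq]
    exact Ideal.mem_span_singleton_self _
  have hker : RingHom.ker M.q ≤ N := by
    intro s hs
    obtain ⟨t, rfl⟩ := (M.ker_iff hπ).1 hs
    exact N.mul_mem_right _ (hN.2 π hπm)
  have hmax := hN.1
  refine ⟨Ideal.IsMaximal.map_of_surjective_of_ker_le M.surj hker, fun s =>
    ⟨fun h => Ideal.mem_map_of_mem _ h, fun h => ?_⟩⟩
  rw [Ideal.mem_map_iff_of_surjective _ M.surj] at h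
  obtain ⟨z, hz, e⟩ := h
  have h1 : z - s ∈ N := hker (by rw [RingHom.mem_ker, map_sub, e, sub_self])
  have h2 : s = z - (z - s) := by ring
  rw [h2]
  exact N.sub_mem hz h1

/-- Proof: the inverse image under `q`. -/
theorem cs_comap {P : Ideal Sk} (hP : P.IsMaximal) : Cs V (P.comap M.q) := by
  refine ⟨Ideal.comap_isMaximal_of_surjective M.q M.surj, fun c hc => ?_⟩
  rw [Ideal.mem_comap, M.q_alg, (M.res_zero c).2 hc, map_zero]
  exact P.zero_mem

/-- Only finitely many closed points of the special fibre are zeros of `a`. Proof: `Sk / (q a)` is finite dimensional over `k`. -/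
theorem cs_fin {a : S} (ha : M.q a ≠ 0) : {N : Ideal S | Cs V N ∧ a ∈ N}.Finite := by
  have hfin : Module.Finite k (Sk ⧸ Ideal.span {M.q a}) := M.Dk.finite_quot ha
  have hart : IsArtinianRing (Sk ⧸ Ideal.span {M.q a}) := IsArtinianRing.of_finite k _
  let p : S →+* Sk ⧸ Ideal.span {M.q a} := (Ideal.Quotient.mk _).comp M.q
  have hps : Function.Surjective p := Ideal.Quotient.mk_surjective.comp M.surj
  refine Set.Finite.subset (Set.finite_range
    (fun m : MaximalSpectrum (Sk ⧸ Ideal.span {M.q a}) => m.asIdeal.comap p)) ?_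
  rintro N ⟨hN, haN⟩
  have hker : RingHom.ker p ≤ N := by
    intro s hs
    have h1 : M.q s ∈ Ideal.span {M.q a} := Ideal.Quotient.eq_zero_iff_mem.1 hs
    have h2 : Ideal.span {M.q a} ≤ N.map M.q := by
      rw [Ideal.span_singleton_le_iff_mem]
      exact Ideal.mem_map_of_mem _ haN
    exact ((M.cs_map hN).2 s).2 (h2 h1)
  have hmax := hN.1
  refine ⟨⟨N.map p, Ideal.IsMaximal.map_of_surjective_of_ker_le hps hker⟩, ?_⟩
  change (N.map p).comap p = N
  rw [Ideal.comap_map_of_surjective p hps]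
  exact sup_eq_left.2 hker

/-- `c (u)` is of unit type for `c` monic and `u` of unit type. -/
theorem ut_aeval {u : S} {m : ℕ} (hu : M.Ut u m) (hm : m ≠ 0) {c : V[X]} (hc : c.Monic) :
    M.Ut (aeval u c) (m * c.natDegree) := by
  have h1 : M.i (aeval u c) = aeval (M.i u) (c.map (algebraMap V L)) := by
    rw [aeval_def, aeval_def, hom_eval₂, eval₂_map]
    congr 1
    ext x
    exact M.i_alg x
  have h2 : M.q (aeval u c) = aeval (M.q u) (c.map (algebraMap V k)) := by
    rw [aeval_def, aeval_def, hom_eval₂, eval₂_map]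
    congr 1
    ext x
    exact M.q_alg x
  refine ⟨?_, ?_⟩
  · rw [h1, M.DL.fz3_aeval hu.1 hm (hc.map _), hc.natDegree_map]
  · rw [h2, M.Dk.fz3_aeval hu.2 hm (hc.map _), hc.natDegree_map]

/-- **Elements of unit type with simple zeros on the special fibre**, which are not zero at finitely many given closed points. Proof: `u` of unit type of degree `m ≥ n₁`, `m` prime to the characteristic of `k`, `m ≥ 1`; `simple_f` for `q u` and the images of the `N ∈ T'`; `f = c' (u)` with a monic lift `c'` of `c`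
(`ut_aeval`). -/
theorem exists_f {π : V} (hπ : Irreducible π) (n₁ : ℕ) {T' : Set (Ideal S)} (hf : T'.Finite)
    (hC : ∀ N ∈ T', Cs V N) : ∃ (f : S) (n : ℕ), n₁ ≤ n ∧ M.Ut f n ∧ (∀ N ∈ T', f ∉ N) ∧
      ∀ N : Ideal S, Cs V N → f ∈ N → Rgl π N f := by
  obtain ⟨n₀, h0⟩ := M.exists_tail
  have hm : ∃ m : ℕ, n₀ ≤ m ∧ n₁ ≤ m ∧ m ≠ 0 ∧ (m : k) ≠ 0 := by
    by_cases h : ((n₀ + n₁ + 1 : ℕ) : k) = 0
    · refine ⟨n₀ + n₁ + 1 + 1, by omega, by omega, by omega, ?_⟩
      rw [Nat.cast_succ, h, zero_add]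
      exact one_ne_zero
    · exact ⟨n₀ + n₁ + 1, by omega, by omega, by omega, h⟩
  obtain ⟨m, hm0, hm1, hm2, hmk⟩ := hm
  obtain ⟨u, hu⟩ := h0 m hm0
  obtain ⟨c, hc, hcd, hcT, hcN⟩ := M.Dk.simple_f hu.2 hmk (hf.image (fun N => N.map M.q))
    (by
      rintro _ ⟨N, hN, rfl⟩
      exact (M.cs_map (hC N hN)).1)
  have hlift : c ∈ lifts (algebraMap V k) := by
    rw [mem_lifts]
    exact map_surjective _ M.res_surj c
  obtain ⟨c', hc', hdeg, hmon⟩ := lifts_and_natDegree_eq_and_monic hlift hc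
  have hq : M.q (aeval u c') = aeval (M.q u) c := by
    rw [← hc', aeval_def, aeval_def, hom_eval₂, eval₂_map]
    congr 1
    ext x
    exact M.q_alg x
  refine ⟨aeval u c', m * c'.natDegree, ?_, M.ut_aeval hu hm2 hmon, ?_, ?_⟩
  · rw [hdeg]
    exact hm1.trans (Nat.le_mul_of_pos_right _ (Nat.pos_of_ne_zero hcd))
  · intro N hN h
    refine hcT _ ⟨N, hN, rfl⟩ ?_
    rw [← hq]
    exact Ideal.mem_map_of_mem _ h
  · intro N hN h
    refine ⟨h, ?_⟩
    obtain ⟨s', hs', hx'⟩ := hcN (N.map M.q) (M.cs_map hN).1 (by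
      rw [← hq]
      exact Ideal.mem_map_of_mem _ h)
    obtain ⟨s, rfl⟩ := M.surj s'
    refine ⟨s, fun hs => hs' (Ideal.mem_map_of_mem _ hs), fun x hx => ?_⟩
    obtain ⟨y', hy'⟩ := hx' (M.q x) (Ideal.mem_map_of_mem _ hx)
    obtain ⟨y, rfl⟩ := M.surj y'
    rw [← hq, ← map_mul, ← map_mul, M.q_eq_iff hπ] at hy'
    obtain ⟨t, ht⟩ := hy'
    exact ⟨y, t, ht⟩

end Md

end CV
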