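import Pool.Agent.Lib.MP_f80667_ag.Cv.Rt
import Pool.Agent.Lib.MP_f80667_ag.Cv.Ct6
import Pool.Agent.Lib.MP_f80667_ag.Cv.Fz3

/-!
The moving lemma for divisors.
-/

open IsLocalRing

namespace CV

namespace Md

variable {V L k S SL Sk : Type} [CommRing V] [IsDomain V] [IsDiscreteValuationRing V] [Field L]
  [Field k] [Algebra V L] [IsFractionRing V L] [Algebra V k] [CommRing S] [CommRing SL]
  [CommRing Sk] [Algebra V S] [Algebra L SL] [Algebra k Sk] (M : Md V L k S SL Sk) {Ω : Type}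
  [Field Ω] [Algebra L Ω] [Algebra.IsAlgebraic L Ω] {W : ValuationSubring Ω}

/-- **The moving lemma for divisors.** `T₀` is a finite set of regular closed points of the special fibre, `g₁` and `g₂` are congruent modulo `π ^ r`, `Φ` is a finite set of integral points above `T₀` which contains all zeros of `g₁` and `g₂` above `T₀`.

Proof. `T' = T₀ ∪ {N | g₁ ∈ N}` is finite (`cs_fin`). Let `u` be of unit type (`exists_f` of `Fz3`): `g` of unit type of degree `n ≥ n₀` (`exists_tail`), not in any `N ∈ T'`, a local parameter at the `N` with `g ∈ N`. `T = T₀ ∪ {N | g ∈ N}`, a finite set of regular closed points.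
`clt`: `Eqv T (g₁ g) (g₂ g')`, `g' = g - π ^ r w`. Let `Φ₁` be the finite set of the points `φ` above some `N` with `g ∈ N`, which are zeros of `g` or `g'` (`zeros_fin`; `g'`, `g` ≠ 0 because `q g' = q g ≠ 0`). `Φ` and `Φ₁` are disjoint (`ov_uniq`).
`eqv_rt` for `Φ ∪ Φ₁`: for `φ` above `N ∈ T₀`: `g`, `g' ∉ N` (`g - g' ∈ π S ⊆ N`), so `od φ g = od φ g' = 0` (`od_zero`, `ov_ne`); for `φ` above `N` with `g ∈ N`: `g₁`, `g₂ ∉ N`, `od φ g₁ = od φ g₂ = 0`. `od_mul` (regular points: `rgl_rg`).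
So the sum over `Φ` of the `od φ g₁ - od φ g₂` plus the sum over `Φ₁` of the `od φ g - od φ g'` is in `P`, and the second sum is in `Q` by `hQ`. -/
theorem cltc [IsAdicComplete (maximalIdeal V) V] [PerfectField k] (hW : Wv V L W) {π : V}
    (hπ : Irreducible π) {T₀ : Set (Ideal S)} (hf : T₀.Finite) (hC : ∀ N ∈ T₀, Cs V N)
    (hR : ∀ N ∈ T₀, ∃ z, Rgl π N z) {g₁ g₂ c : S} (hg : M.q g₁ ≠ 0) {r : ℕ} (hr : r ≠ 0)
    (hc : g₁ = g₂ + algebraMap V S (π ^ r) * c) {X : Type} {f : (SL →ₐ[L] Ω) → X}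
    {P Q : AddSubgroup (X →₀ ℤ)} (hP : M.Rt f P) (hQ : M.Bk W f Q π r)
    (Φ : Finset (SL →ₐ[L] Ω)) (hΦ : ∀ φ ∈ Φ, ∃ N ∈ T₀, M.Ov W φ N)
    (hΦ' : ∀ φ, (∃ N ∈ T₀, M.Ov W φ N) → φ (M.i g₁) = 0 ∨ φ (M.i g₂) = 0 → φ ∈ Φ) :
    ∑ φ ∈ Φ, Finsupp.single (f φ) ((od φ (M.i g₁) : ℤ) - od φ (M.i g₂)) ∈ P ⊔ Q := by
  classical
  have hdomS : IsDomain S := M.dom
  have hdomL : IsDomain SL := M.DL.isDomain
  have hpi : ∀ N : Ideal S, Cs V N → ∀ x : S, algebraMap V S (π ^ r) * x ∈ N := by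
    intro N hN x
    refine Ideal.mul_mem_right _ _ (hN.2 _ ?_)
    refine Ideal.pow_mem_of_mem _ ?_ r (Nat.pos_of_ne_zero hr)
    rw [IsLocalRing.mem_maximalIdeal, mem_nonunits_iff]
    exact hπ.not_isUnit
  have hqpi : ∀ x : S, M.q (algebraMap V S (π ^ r) * x) = 0 := by
    intro x
    rw [M.ker_iff hπ]
    obtain ⟨j, rfl⟩ := Nat.exists_eq_succ_of_ne_zero hr
    exact ⟨algebraMap V S (π ^ j) * x, by rw [pow_succ, map_mul]; ring⟩
  have hq0 : ∀ x : S, M.q x ≠ 0 → x ≠ 0 := by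
    rintro x hx rfl
    exact hx (map_zero _)
  have hi : ∀ s : S, s ≠ 0 → M.i s ≠ 0 := fun s hs h0 => hs (M.inj (by rw [h0, map_zero]))
  have hqg : M.q g₂ ≠ 0 := by
    intro h0
    apply hg
    rw [hc, map_add, h0, hqpi, add_zero]
  obtain ⟨n₀, h0⟩ := M.exists_tail
  have hfT' : (T₀ ∪ {N : Ideal S | Cs V N ∧ g₁ ∈ N}).Finite := hf.union (M.cs_fin hg)
  obtain ⟨g, n, hn, hgn, hgT', hgR⟩ := M.exists_f hπ n₀ hfT' (by
    rintro N (hN | hN)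
    · exact hC N hN
    · exact hN.1)
  have hqgg : M.q g ≠ 0 := M.Dk.ne_zero hgn.2
  have hfT : (T₀ ∪ {N : Ideal S | Cs V N ∧ g ∈ N}).Finite := hf.union (M.cs_fin hqgg)
  have hCT : ∀ N ∈ T₀ ∪ {N : Ideal S | Cs V N ∧ g ∈ N}, Cs V N := by
    rintro N (hN | hN)
    · exact hC N hN
    · exact hN.1
  have hRT : ∀ N ∈ T₀ ∪ {N : Ideal S | Cs V N ∧ g ∈ N}, ∃ z, Rgl π N z := by
    rintro N (hN | hN)
    · exact hR N hN
    · exact ⟨g, hgR N hN.1 hN.2⟩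
  obtain ⟨w, hw⟩ := M.clt hπ hfT hCT h0 hn hgn (fun N hN h => Or.inr ⟨hN, h⟩) hg hr hc
  obtain ⟨g', hg'⟩ : ∃ g', g' = g - algebraMap V S (π ^ r) * w := ⟨_, rfl⟩
  rw [← hg'] at hw
  have hqg' : M.q g' ≠ 0 := by
    rw [hg', map_sub, hqpi, sub_zero]
    exact hqgg
  have hg1 : g₁ ≠ 0 := hq0 _ hg
  have hg2 : g₂ ≠ 0 := hq0 _ hqg
  have hgg : g ≠ 0 := hq0 _ hqgg
  have hgg' : g' ≠ 0 := hq0 _ hqg'
  -- membership in the closed points
  have hgN : ∀ N ∈ T₀, g ∉ N := fun N hN => hgT' N (Or.inl hN)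
  have hg'N : ∀ N ∈ T₀, g' ∉ N := by
    intro N hN h1
    apply hgN N hN
    have h2 := N.add_mem h1 (hpi N (hC N hN) w)
    rwa [hg', sub_add_cancel] at h2
  have hg1N : ∀ N : Ideal S, Cs V N → g ∈ N → g₁ ∉ N := fun N hN h1 h2 =>
    hgT' N (Or.inr ⟨hN, h2⟩) h1
  have hg2N : ∀ N : Ideal S, Cs V N → g ∈ N → g₂ ∉ N := by
    intro N hN h1 h2
    apply hg1N N hN h1
    rw [hc]
    exact N.add_mem h2 (hpi N hN c)
  -- the second finite set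
  have hfin : ({φ : SL →ₐ[L] Ω | φ (M.i g) = 0} ∪ {φ : SL →ₐ[L] Ω | φ (M.i g') = 0}).Finite :=
    (M.DL.zeros_fin (hi g hgg)).union (M.DL.zeros_fin (hi g' hgg'))
  obtain ⟨Φ₁, hΦ₁⟩ := (hfin.inter_of_left
    {φ : SL →ₐ[L] Ω | ∃ N : Ideal S, Cs V N ∧ g ∈ N ∧ M.Ov W φ N}).exists_finset
  have hΦ₁' : ∀ φ, φ ∈ Φ₁ ↔ (φ (M.i g) = 0 ∨ φ (M.i g') = 0) ∧
      ∃ N : Ideal S, Cs V N ∧ g ∈ N ∧ M.Ov W φ N := by
    intro φ
    rw [hΦ₁]
    rfl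
  have hdisj : Disjoint Φ Φ₁ := by
    rw [Finset.disjoint_left]
    intro φ h1 h2
    obtain ⟨N, hN, hov⟩ := hΦ φ h1
    obtain ⟨N', hN', hgN', hov'⟩ := ((hΦ₁' φ).1 h2).2
    rw [← M.ov_uniq hov hov'] at hgN'
    exact hgN N hN hgN'
  have key := M.eqv_rt hW hπ hCT hRT (mul_ne_zero hg1 hgg) (mul_ne_zero hg2 hgg') hw hP (Φ ∪ Φ₁)
    (by
      intro φ hφ
      rcases Finset.mem_union.1 hφ with h1 | h1
      · obtain ⟨N, hN, hov⟩ := hΦ φ h1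
        exact ⟨N, Or.inl hN, hov⟩
      · obtain ⟨N, hN, hgN', hov⟩ := ((hΦ₁' φ).1 h1).2
        exact ⟨N, Or.inr ⟨hN, hgN'⟩, hov⟩)
    (by
      rintro φ ⟨N, hN, hov⟩ h1
      rw [map_mul, map_mul, map_mul, map_mul, mul_eq_zero, mul_eq_zero] at h1
      rcases hN with hN | ⟨hN, hgN'⟩
      · have e1 := M.ov_ne hov (hgN N hN)
        have e2 := M.ov_ne hov (hg'N N hN)
        refine Finset.mem_union_left _ (hΦ' φ ⟨N, hN, hov⟩ ?_)
        rcases h1 with (h1 | h1) | (h1 | h1)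
        · exact Or.inl h1
        · exact absurd h1 e1
        · exact Or.inr h1
        · exact absurd h1 e2
      · have e1 := M.ov_ne hov (hg1N N hN hgN')
        have e2 := M.ov_ne hov (hg2N N hN hgN')
        refine Finset.mem_union_right _ ((hΦ₁' φ).2 ⟨?_, N, hN, hgN', hov⟩)
        rcases h1 with (h1 | h1) | (h1 | h1)
        · exact absurd h1 e1
        · exact Or.inl h1
        · exact absurd h1 e2
        · exact Or.inr h1)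
  rw [Finset.sum_union hdisj] at key
  have hreg : ∀ φ : SL →ₐ[L] Ω, (∃ N ∈ T₀ ∪ {N : Ideal S | Cs V N ∧ g ∈ N}, M.Ov W φ N) →
      ∃ t, Rg φ t := fun φ hφ => M.rgl_rg hπ hCT hRT hφ
  have hsum1 : ∑ φ ∈ Φ, Finsupp.single (f φ)
      ((od φ (M.i (g₁ * g)) : ℤ) - od φ (M.i (g₂ * g'))) =
      ∑ φ ∈ Φ, Finsupp.single (f φ) ((od φ (M.i g₁) : ℤ) - od φ (M.i g₂)) := by
    refine Finset.sum_congr rfl fun φ hφ => ?_
    obtain ⟨N, hN, hov⟩ := hΦ φ hφ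
    obtain ⟨t, ht⟩ := hreg φ ⟨N, Or.inl hN, hov⟩
    rw [map_mul, map_mul, M.DL.od_mul ht (hi _ hg1) (hi _ hgg),
      M.DL.od_mul ht (hi _ hg2) (hi _ hgg'), M.DL.od_zero ht (M.ov_ne hov (hgN N hN)),
      M.DL.od_zero ht (M.ov_ne hov (hg'N N hN)), add_zero, add_zero]
  have hsum2 : ∑ φ ∈ Φ₁, Finsupp.single (f φ)
      ((od φ (M.i (g₁ * g)) : ℤ) - od φ (M.i (g₂ * g'))) =
      ∑ φ ∈ Φ₁, Finsupp.single (f φ) ((od φ (M.i g) : ℤ) - od φ (M.i g')) := by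
    refine Finset.sum_congr rfl fun φ hφ => ?_
    obtain ⟨N, hN, hgN', hov⟩ := ((hΦ₁' φ).1 hφ).2
    obtain ⟨t, ht⟩ := hreg φ ⟨N, Or.inr ⟨hN, hgN'⟩, hov⟩
    rw [map_mul, map_mul, M.DL.od_mul ht (hi _ hg1) (hi _ hgg),
      M.DL.od_mul ht (hi _ hg2) (hi _ hgg'), M.DL.od_zero ht (M.ov_ne hov (hg1N N hN hgN')),
      M.DL.od_zero ht (M.ov_ne hov (hg2N N hN hgN')), zero_add, zero_add]
  rw [hsum1, hsum2] at key
  have hQ' := hQ g w hqgg hgR Φ₁ (fun φ hφ => ((hΦ₁' φ).1 hφ).2) (by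
    intro φ h1 h2
    rw [← hg'] at h2
    exact (hΦ₁' φ).2 ⟨h2, h1⟩)
  rw [← hg'] at hQ'
  have h3 := AddSubgroup.sub_mem (P ⊔ Q) (AddSubgroup.mem_sup_left key)
    (AddSubgroup.mem_sup_right hQ')
  rwa [add_sub_cancel_right] at h3

end Md

end CV
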