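import Pool.Agent.Lib.MP_f80667_ag.Cv.Ct2

/-!
Elements of unit type in ideals.
-/

open IsLocalRing

namespace CV

namespace Md

variable {V L k S SL Sk : Type} [CommRing V] [IsDomain V] [IsDiscreteValuationRing V] [Field L]
  [Field k] [Algebra V L] [IsFractionRing V L] [Algebra V k] [CommRing S] [CommRing SL]
  [CommRing Sk] [Algebra V S] [Algebra L SL] [Algebra k Sk] (M : Md V L k S SL Sk)

theorem ct3_smul_le (c : V) (x : S) : M.DL.d (M.i (algebraMap V S c * x)) ≤ M.DL.d (M.i x) := by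
  rw [map_mul, M.i_alg, ← Algebra.smul_def]
  exact M.DL.smul_le _ _

/-- Modulo `I` every element has a representative of bounded degree. -/
theorem ct3_bdd {I : Ideal S} (hI : Module.Finite V (S ⧸ I)) :
    ∃ m : ℕ, ∀ z : S, ∃ z' : S, M.DL.d (M.i z') ≤ m ∧ z - z' ∈ I := by
  classical
  obtain ⟨t, ht⟩ := hI.fg_top
  have hb : ∀ u ∈ t, ∃ (b : S) (m : ℕ), Ideal.Quotient.mk I b = u ∧ M.DL.d (M.i b) ≤ m := by
    intro u _
    obtain ⟨b, hb⟩ := Ideal.Quotient.mk_surjective u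
    by_cases h0 : M.i b = 0
    · exact ⟨b, 0, hb, by rw [h0, M.DL.zero]; exact bot_le⟩
    · obtain ⟨m, hm⟩ := M.DL.exists_nat h0
      exact ⟨b, m, hb, hm.le⟩
  have hbound : ∃ m : ℕ, ∀ u ∈ t, ∃ b : S, Ideal.Quotient.mk I b = u ∧ M.DL.d (M.i b) ≤ m := by
    choose! b m hb1 hb2 using hb
    refine ⟨t.sup m, fun u hu => ⟨b u, hb1 u hu, (hb2 u hu).trans ?_⟩⟩
    exact Nat.cast_le.2 (Finset.le_sup hu)
  obtain ⟨m, hm⟩ := hbound
  refine ⟨m, fun z => ?_⟩
  have hz : Ideal.Quotient.mk I z ∈ Submodule.span V (t : Set (S ⧸ I)) := by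
    rw [ht]; trivial
  have key : ∀ w ∈ Submodule.span V (t : Set (S ⧸ I)),
      ∃ z' : S, M.DL.d (M.i z') ≤ m ∧ Ideal.Quotient.mk I z' = w := by
    intro w hw
    induction hw using Submodule.span_induction with
    | mem u hu =>
      obtain ⟨b, h1, h2⟩ := hm u hu
      exact ⟨b, h2, h1⟩
    | zero => exact ⟨0, by rw [map_zero, M.DL.zero]; exact bot_le, map_zero _⟩
    | add u v _ _ hu hv =>
      obtain ⟨b, h1, h2⟩ := hu
      obtain ⟨b', h1', h2'⟩ := hv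
      refine ⟨b + b', ?_, by rw [map_add, h2, h2']⟩
      rw [map_add]
      exact (M.DL.add _ _).trans (max_le h1 h1')
    | smul c u _ hu =>
      obtain ⟨b, h1, h2⟩ := hu
      refine ⟨algebraMap V S c * b, (M.ct3_smul_le c b).trans h1, ?_⟩
      rw [map_mul, h2, Algebra.smul_def]
      rfl
  obtain ⟨z', h1, h2⟩ := key _ hz
  exact ⟨z', h1, Ideal.Quotient.eq.1 h2.symm⟩

/-- Proof: let `e` be of unit type of degree `j ≥ n₀`, `x = a e`, `q x` has degree `n = deg (q a) + j`; by `lift` `x = y + π z` with `y` of degree `≤ n`; `z = z' + w`, `w ∈ I`,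
`z'` of degree `≤ m` (`m` does not depend on `z`: finitely many generators of `S / I`); `y + π z' ∈ I` is of unit type of degree `n` for `n ≥ m`. -/
theorem id_ut {I : Ideal S} (hI : Module.Finite V (S ⧸ I)) {a : S} (ha : M.q a ≠ 0) (haI : a ∈ I) :
    ∃ m₀ : ℕ, ∀ n : ℕ, m₀ ≤ n → ∃ x ∈ I, M.Ut x n := by
  obtain ⟨π, hπ⟩ := IsDiscreteValuationRing.exists_irreducible V
  obtain ⟨n₀, h0⟩ := M.exists_tail
  obtain ⟨A, hA⟩ := M.Dk.exists_nat ha
  obtain ⟨m, hm⟩ := M.ct3_bdd hI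
  refine ⟨max (A + n₀) m, fun n hn => ?_⟩
  have hn1 : A + n₀ ≤ n := (le_max_left _ _).trans hn
  have hn2 : m ≤ n := (le_max_right _ _).trans hn
  obtain ⟨e, he⟩ := h0 (n - A) (by omega)
  have hqx : M.Dk.d (M.q (a * e)) = n := by
    rw [map_mul, M.Dk.mul, hA, he.2, ← Nat.cast_add]
    congr 1
    omega
  obtain ⟨y, hy, hyq⟩ := M.lift h0 (n := n) (by omega) hqx.le
  obtain ⟨z, hz⟩ := (M.q_eq_iff hπ).1 hyq.symm
  obtain ⟨z', hz', hzI⟩ := hm z
  have hq : M.q (algebraMap V S π * z') = 0 := (M.ker_iff hπ).2 ⟨z', rfl⟩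
  refine ⟨y + algebraMap V S π * z', ?_, ?_⟩
  · have h1 : y + algebraMap V S π * z' = a * e - algebraMap V S π * (z - z') := by
      rw [hz]; ring
    rw [h1]
    exact I.sub_mem (I.mul_mem_right _ haI) (I.mul_mem_left _ hzI)
  · have h2 : M.Dk.d (M.q (y + algebraMap V S π * z')) = n := by
      rw [map_add, hq, add_zero, hyq, hqx]
    refine ⟨le_antisymm ?_ ?_, h2⟩
    · rw [map_add]
      refine (M.DL.add _ _).trans (max_le hy ?_)
      exact (M.ct3_smul_le π z').trans (hz'.trans (Nat.cast_le.2 hn2))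
    · rw [← h2]
      exact M.le _

/-- Proof: `N` is a maximal ideal and `Sk` is not a field (elements of positive degree are not units), so `N` is not the kernel of `q`. -/
theorem exists_q_ne {N : Ideal S} (hN : Cs V N) : ∃ j ∈ N, M.q j ≠ 0 := by
  have := M.Dk.nontrivial
  obtain ⟨n₀, h0⟩ := M.Dk.tail
  obtain ⟨x, hx⟩ := h0 (n₀ + 1) (by omega)
  obtain ⟨s, rfl⟩ := M.surj x
  by_cases hs : s ∈ N
  · exact ⟨s, hs, M.Dk.ne_zero hx⟩
  obtain ⟨y, j, hj, hyj⟩ := hN.1.exists_inv hs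
  refine ⟨j, hj, fun hq => ?_⟩
  have h1 : M.q y * M.q s = 1 := by
    have h2 := congrArg M.q hyj
    rw [map_add, map_mul, hq, add_zero, map_one] at h2
    exact h2
  have hy0 : M.q y ≠ 0 := by
    intro h
    rw [h, zero_mul] at h1
    exact zero_ne_one h1
  obtain ⟨m, hm⟩ := M.Dk.exists_nat hy0
  have h3 := M.Dk.mul (M.q y) (M.q s)
  rw [h1, M.Dk.one, hm, hx, ← Nat.cast_add, ← Nat.cast_zero, Nat.cast_inj] at h3
  omega

/-- **Local generators of unit type.** Proof: `j` a product of elements of the `N ∈ T` with `q j ≠ 0` (`exists_q_ne`), `x ∈ It T (a j)` of unit type of degree `n` larger than the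
degree of `a` (`id_ut`, `it_fin`), `G = a + x`: `s x = a j y`, `s G = a (s + j y)` and `s + j y` is in no `N ∈ T`. -/
theorem exists_G [IsAdicComplete (maximalIdeal V) V] {T : Set (Ideal S)} (hf : T.Finite)
    (hC : ∀ N ∈ T, Cs V N) {a : S} (ha : M.q a ≠ 0) :
    ∃ m₀ : ℕ, ∀ n : ℕ, m₀ ≤ n → ∃ G, M.Ut G n ∧ As T G a := by
  classical
  have hT : ∀ N ∈ T, N.IsPrime := fun N hN => (hC N hN).1.isPrime
  have := M.Dk.isDomain
  have hj : ∃ j : S, (∀ N ∈ T, j ∈ N) ∧ M.q j ≠ 0 := by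
    have hc : ∀ N ∈ T, ∃ j ∈ N, M.q j ≠ 0 := fun N hN => M.exists_q_ne (hC N hN)
    choose! f hf1 hf2 using hc
    refine ⟨∏ N ∈ hf.toFinset, f N, fun N hN => ?_, ?_⟩
    · have hN' : N ∈ hf.toFinset := hf.mem_toFinset.2 hN
      rw [← Finset.mul_prod_erase _ _ hN']
      exact N.mul_mem_right _ (hf1 N hN)
    · rw [map_prod]
      exact Finset.prod_ne_zero_iff.2 fun N hN => hf2 N (hf.mem_toFinset.1 hN)
  obtain ⟨j, hj1, hj2⟩ := hj
  have haj : M.q (a * j) ≠ 0 := by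
    rw [map_mul]
    exact mul_ne_zero ha hj2
  have hmem : a * j ∈ It T hT (a * j) := ⟨1, st_one hT, 1, by ring⟩
  obtain ⟨m₀, hm₀⟩ := M.id_ut (M.it_fin hf hC hT haj) haj hmem
  have hia : ∃ α : ℕ, M.DL.d (M.i a) ≤ α := by
    by_cases h0 : M.i a = 0
    · exact ⟨0, by rw [h0, M.DL.zero]; exact bot_le⟩
    · obtain ⟨α, hα⟩ := M.DL.exists_nat h0
      exact ⟨α, hα.le⟩
  obtain ⟨α, hα⟩ := hia
  refine ⟨max m₀ (α + 1), fun n hn => ?_⟩
  have hn1 : m₀ ≤ n := (le_max_left _ _).trans hn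
  have hn2 : α < n := (le_max_right m₀ (α + 1)).trans hn
  obtain ⟨x, hxI, hxU⟩ := hm₀ n hn1
  have hlt : M.DL.d (M.i a) < n := hα.trans_lt (Nat.cast_lt.2 hn2)
  refine ⟨a + x, ⟨?_, ?_⟩, ?_⟩
  · rw [map_add, M.DL.add_eq (by rw [hxU.1]; exact hlt), hxU.1]
  · rw [map_add, M.Dk.add_eq (by rw [hxU.2]; exact (M.le a).trans_lt hlt), hxU.2]
  · obtain ⟨s, hs, y, hy⟩ := hxI
    refine ⟨s, hs, s + j * y, fun N hN h => ?_, by linear_combination hy⟩
    apply hs N hN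
    have h1 : j * y ∈ N := N.mul_mem_right _ (hj1 N hN)
    have h2 := N.sub_mem h h1
    rwa [add_sub_cancel_right] at h2

end Md

end CV
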