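import Pool.Agent.Lib.MP_f80667_ag.Cv.Dc
import Pool.Agent.Lib.MP_f80667_ag.Cv.Fz3
import Pool.Agent.Lib.MP_f80667_ag.Cv.Ct3
import Pool.Agent.Lib.MP_f80667_ag.Cv.SmA

/-!
Local parameters at closed points of the special fibre: existence, a criterion.
-/

open IsLocalRing

namespace CV

namespace Md

variable {V L k S SL Sk : Type} [CommRing V] [IsDomain V] [IsDiscreteValuationRing V] [Field L]
  [Field k] [Algebra V L] [IsFractionRing V L] [Algebra V k] [CommRing S] [CommRing SL]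
  [CommRing Sk] [Algebra V S] [Algebra L SL] [Algebra k Sk] (M : Md V L k S SL Sk) {Ω : Type}
  [Field Ω] [Algebra L Ω] {W : ValuationSubring Ω}

include M in
/-- **Existence of local parameters.** Proof: `P = N.map q` is a maximal ideal of the Dedekind domain `Sk` (`cs_map`), not `⊥`; `t' ∈ P`, `t' ∉ P ^ 2`, `(t') = P J`, `s' ∈ J`, `s' ∉ P`: `s' P ⊆ (t')`. Lift `t'` and `s'` to `S`; `ker_iff`. -/
theorem exists_rgl [IsDedekindDomain Sk] {π : V} (hπ : Irreducible π) {N : Ideal S} (hN : Cs V N) :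
    ∃ t, Rgl π N t := by
  have hdom := M.Dk.isDomain
  obtain ⟨hP, hPm⟩ := M.cs_map hN
  obtain ⟨j, hj, hqj⟩ := M.exists_q_ne hN
  have hP0 : N.map M.q ≠ ⊥ := by
    intro h
    have h1 := (hPm j).1 hj
    rw [h, Ideal.mem_bot] at h1
    exact hqj h1
  obtain ⟨t', ht1, ht2⟩ := Ideal.exists_mem_pow_notMem_pow_succ (N.map M.q) hP0 hP.ne_top 1
  rw [pow_one] at ht1
  obtain ⟨J, hJ⟩ : N.map M.q ∣ Ideal.span {t'} :=
    Ideal.dvd_iff_le.2 ((Ideal.span_singleton_le_iff_mem _).2 ht1)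
  have hJP : ¬ J ≤ N.map M.q := by
    intro h
    apply ht2
    rw [show 1 + 1 = 2 from rfl, pow_two]
    exact Ideal.mul_mono_right h (hJ ▸ Ideal.mem_span_singleton_self t')
  obtain ⟨s', hs1, hs2⟩ := Set.not_subset.1 hJP
  obtain ⟨t, rfl⟩ := M.surj t'
  obtain ⟨s, rfl⟩ := M.surj s'
  refine ⟨t, (hPm t).2 ht1, s, fun h => hs2 ((hPm s).1 h), fun x hx => ?_⟩
  have h1 : M.q x * M.q s ∈ Ideal.span {M.q t} := by
    rw [hJ]
    exact Ideal.mul_mem_mul ((hPm x).1 hx) hs1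
  obtain ⟨y', hy'⟩ := Ideal.mem_span_singleton.1 h1
  obtain ⟨y, rfl⟩ := M.surj y'
  obtain ⟨w, hw⟩ := (M.q_eq_iff hπ (s := s * x) (s' := t * y)).1 (by
    rw [map_mul, map_mul, ← hy', mul_comm])
  exact ⟨y, w, hw⟩

/-- **All points above a rational closed point are congruent.** For two points `φ`, `φ'` above `N` there is `c` in the maximal ideal of `W` such that `φ ≡ φ'` modulo `c`. Proof: a local parameter `t`; one of `φ t`, `φ' t` divides the other in `W`, it is `c`; `congr_pt`; the residues are the same by `hk`. -/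
theorem near_pt [IsAdicComplete (maximalIdeal V) V] [PerfectField k] (hW : Wv V L W) {π : V}
    (hπ : Irreducible π) {N : Ideal S} (hN : Cs V N)
    (hk : ∀ s : S, ∃ c : V, s - algebraMap V S c ∈ N) {t : S} (ht : Rgl π N t)
    {φ φ' : SL →ₐ[L] Ω} (h : M.Ov W φ N) (h' : M.Ov W φ' N) :
    ∃ c ∈ W.nonunits, ∀ s : S, ∃ w ∈ W, φ (M.i s) - φ' (M.i s) = c * w := by
  have hq := M.rgl_q hπ hN ht
  have hr : ∀ s : S, φ (M.i s) - φ' (M.i s) ∈ W.nonunits := by
    intro s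
    obtain ⟨c, hc⟩ := hk s
    have h1 := (h.2 _).1 hc
    have h2 := (h'.2 _).1 hc
    have h3 : φ (M.i s) - φ' (M.i s) = φ (M.i (s - algebraMap V S c)) -
        φ' (M.i (s - algebraMap V S c)) := by
      rw [map_sub, map_sub, map_sub, M.dcA_alg, M.dcA_alg]
      ring
    rw [h3]
    exact sub_mem h1 h2
  have key : ∃ c ∈ W.nonunits, (∃ w ∈ W, φ (M.i t) = c * w) ∧ ∃ w ∈ W, φ' (M.i t) = c * w := by
    rcases ValuationRing.dvd_total (⟨φ (M.i t), h.1 t⟩ : W) ⟨φ' (M.i t), h'.1 t⟩ with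
      ⟨w, hw⟩ | ⟨w, hw⟩
    · exact ⟨φ (M.i t), (h.2 _).1 ht.1, ⟨1, W.one_mem, (mul_one _).symm⟩, w, w.2,
        congrArg Subtype.val hw⟩
    · exact ⟨φ' (M.i t), (h'.2 _).1 ht.1, ⟨w, w.2, congrArg Subtype.val hw⟩, 1, W.one_mem,
        (mul_one _).symm⟩
  obtain ⟨c, hc, h1, h2⟩ := key
  exact ⟨c, hc, fun s => M.congr_pt hW hπ hN ht hq h h' hr (W.nonunits_le hc) h1 h2 s⟩

end Md

end CV
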