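import Pool.Agent.Lib.MP_f80667_ag.Cv.RtP

/-!
Divisors of functions over `M` are principal cycles.
-/

open ZC BE PE Polynomial TensorProduct IntermediateField

namespace CV

variable {F : Type} [Field F] {C : Crv F} {K Ω : Type} [Field K] [CharZero K] [Field Ω]
  [Algebra K Ω] [Algebra F K] [Algebra F Ω] [IsScalarTower F K Ω] [IsAlgClosure K Ω]
  {M : IntermediateField K Ω} {SM : Type} [CommRing SM] [Algebra M SM]
  (e : SM ≃ₐ[M] M ⊗[F] C.A)

private theorem rtQ_rg (φ : SM →ₐ[M] Ω) (t : SM) : Rg φ t ↔ Rg (xl M (pe e φ)) (e t) := by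
  have hx := pe_xl e φ
  constructor
  · rintro ⟨h0, s, hs, hd⟩
    refine ⟨by rw [← hx]; exact h0, e s, by rw [← hx]; exact hs, fun y hy => ?_⟩
    obtain ⟨x, rfl⟩ := e.surjective y
    rw [← map_mul]
    exact map_dvd e (hd x (by rw [hx]; exact hy))
  · rintro ⟨h0, s, hs, hd⟩
    obtain ⟨s, rfl⟩ := e.surjective s
    refine ⟨by rw [hx]; exact h0, s, by rw [hx]; exact hs, fun x hy => ?_⟩
    have h1 := map_dvd e.symm (hd (e x) (by rw [← hx]; exact hy))
    rwa [← map_mul, e.symm_apply_apply, e.symm_apply_apply] at h1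

private theorem rtQ_lu (φ : SM →ₐ[M] Ω) (a b : SM) :
    Lu φ a b ↔ Lu (xl M (pe e φ)) (e a) (e b) := by
  have hx := pe_xl e φ
  constructor
  · rintro ⟨s, s', hs, hs', h⟩
    refine ⟨e s, e s', by rw [← hx]; exact hs, by rw [← hx]; exact hs', ?_⟩
    rw [← map_mul, ← map_mul, h]
  · rintro ⟨s, s', hs, hs', h⟩
    obtain ⟨s, rfl⟩ := e.surjective s
    obtain ⟨s', rfl⟩ := e.surjective s'
    refine ⟨s, s', by rw [hx]; exact hs, by rw [hx]; exact hs', ?_⟩
    rw [← map_mul, ← map_mul] at h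
    exact e.injective h

private theorem rtQ_od (φ : SM →ₐ[M] Ω) (x : SM) : od φ x = od (xl M (pe e φ)) (e x) := by
  have h : {m | ∃ t, Rg φ t ∧ Lu φ x (t ^ m)} =
      {m | ∃ t, Rg (xl M (pe e φ)) t ∧ Lu (xl M (pe e φ)) (e x) (t ^ m)} := by
    ext m
    constructor
    · rintro ⟨t, h1, h2⟩
      refine ⟨e t, (rtQ_rg e φ t).1 h1, ?_⟩
      rw [← map_pow]
      exact (rtQ_lu e φ _ _).1 h2
    · rintro ⟨t, h1, h2⟩
      obtain ⟨t, rfl⟩ := e.surjective t
      rw [← map_pow] at h2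
      exact ⟨t, (rtQ_rg e φ t).2 h1, (rtQ_lu e φ _ _).2 h2⟩
  unfold od
  rw [h]

variable [FiniteDimensional K M]

/-- The order. Proof: `od` is invariant under `e` (`pe_xl`), `xod`, `cy_od`. -/
theorem em_od {x : SM} (hx : x ≠ 0) (φ : SM →ₐ[M] Ω) :
    (od φ x : ℤ) = cy (Ideal.span {em e x}) (some (pe e φ)) := by
  have i0 : IsAlgClosed Ω := IsAlgClosure.isAlgClosed K
  have i1 : IsAlgClosure M Ω := ⟨IsAlgClosure.isAlgClosed K, (IsAlgClosure.isAlgebraic (R := K) (K := Ω)).tower_top M⟩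
  have i2 : Algebra.Smooth F C.A := C.sm
  have i3 : CharZero M := charZero_of_injective_algebraMap (algebraMap K M).injective
  have i4 : CharZero Ω := charZero_of_injective_algebraMap (algebraMap K Ω).injective
  have h0 : em (Ω := Ω) e x ≠ 0 := by
    intro h
    apply hx
    apply em_inj (Ω := Ω) e
    rw [h]
    unfold em
    rw [map_zero, map_zero]
  have h1 : e x ≠ 0 := fun h => hx (e.injective (by rw [h, map_zero]))
  rw [cy_od h0, rtQ_od e φ x, xod C.G (pe e φ) h1]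
  rfl

include e in
/-- All homomorphisms are regular. Proof: `xrg`. -/
theorem em_rg (φ : SM →ₐ[M] Ω) : ∃ t, Rg φ t := by
  have i1 : IsAlgClosure M Ω := ⟨IsAlgClosure.isAlgClosed K, (IsAlgClosure.isAlgebraic (R := K) (K := Ω)).tower_top M⟩
  have i2 : Algebra.Smooth F C.A := C.sm
  have i3 : Algebra.IsAlgebraic M Ω := IsAlgClosure.isAlgebraic
  obtain ⟨t, ht⟩ := xrg (M := M) C.G (pe e φ)
  obtain ⟨t, rfl⟩ := e.surjective t
  exact ⟨t, (rtQ_rg e φ t).2 ht⟩

/-- **Divisors of functions are principal.** Proof: `x' = em (i x)`, `y' = em (i y)` have the same degree; `pc_of_rel` for `I = (x')`, `J = (y')`, `f = y'`, `g = x'`; `z = cy I - cy J` by `em_od`, `cy_efc`, outside of `Φ` the orders are the same (`od_lu`, `em_rg`), `deg_cy_span`. -/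
theorem rt_pc {V k S Sk : Type} [CommRing V] [IsDomain V] [IsDiscreteValuationRing V] [Field k]
    [Algebra V M] [IsFractionRing V M] [Algebra V k] [CommRing S] [CommRing Sk] [Algebra V S]
    [Algebra k Sk] (D : Md V M k S SM Sk) :
    D.Rt (fun φ => (some (pe e φ) : C.V.pt Ω)) (Pc C Ω) := by
  classical
  intro x y n hx hy Φ hΦ hΦ'
  have i0 : IsAlgClosed Ω := IsAlgClosure.isAlgClosed K
  have i1 : IsAlgClosure M Ω := ⟨IsAlgClosure.isAlgClosed K, (IsAlgClosure.isAlgebraic (R := K) (K := Ω)).tower_top M⟩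
  have i3 : Algebra.IsAlgebraic M Ω := IsAlgClosure.isAlgebraic
  have hx0 : D.i x ≠ 0 := D.DL.ne_zero hx.1
  have hy0 : D.i y ≠ 0 := D.DL.ne_zero hy.1
  have hdx : (C.dgO Ω).d (em e (D.i x)) = n := by rw [em_d e D.DL]; exact hx.1
  have hdy : (C.dgO Ω).d (em e (D.i y)) = n := by rw [em_d e D.DL]; exact hy.1
  have hx1 : em (Ω := Ω) e (D.i x) ≠ 0 := (C.dgO Ω).ne_zero hdx
  have hy1 : em (Ω := Ω) e (D.i y) ≠ 0 := (C.dgO Ω).ne_zero hdy
  have hI : (Ideal.span {em (Ω := Ω) e (D.i x)} : Ideal (Ω ⊗[F] C.A)) ≠ ⊥ := by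
    rwa [Ne, Ideal.span_singleton_eq_bot]
  have hJ : (Ideal.span {em (Ω := Ω) e (D.i y)} : Ideal (Ω ⊗[F] C.A)) ≠ ⊥ := by
    rwa [Ne, Ideal.span_singleton_eq_bot]
  have hfi : ∀ φ φ' : SM →ₐ[M] Ω, (some (pe e φ) : C.V.pt Ω) = (some (pe e φ') : C.V.pt Ω) →
      φ = φ' := fun φ φ' h => pe_inj e (Option.some.inj h)
  generalize hcx : cy (Ideal.span {em (Ω := Ω) e (D.i x)}) = zx at *
  generalize hcy : cy (Ideal.span {em (Ω := Ω) e (D.i y)}) = zy at *
  have hex : Efc zx := hcx ▸ cy_efc _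
  have hey : Efc zy := hcy ▸ cy_efc _
  have hox : ∀ φ : SM →ₐ[M] Ω, (od φ (D.i x) : ℤ) = zx (some (pe e φ)) := fun φ => by
    rw [← hcx]; exact em_od e hx0 φ
  have hoy : ∀ φ : SM →ₐ[M] Ω, (od φ (D.i y) : ℤ) = zy (some (pe e φ)) := fun φ => by
    rw [← hcy]; exact em_od e hy0 φ
  have hp : ∀ (f : (SM →ₐ[M] Ω) → C.V.pt Ω), (∀ φ, f φ = (some (pe e φ) : C.V.pt Ω)) →
      (∑ φ ∈ Φ, Finsupp.single (f φ) ((od φ (D.i x) : ℤ) - od φ (D.i y))) = zx - zy := by
    intro f hf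
    have hff : ∀ φ φ', f φ = f φ' → φ = φ' := fun φ φ' h => hfi φ φ' (by rw [← hf, ← hf, h])
    refine Finsupp.ext fun p => ?_
    rw [Finsupp.finsetSum_apply, Finsupp.sub_apply]
    by_cases hpn : ∃ φ, f φ = p
    · obtain ⟨φ, rfl⟩ := hpn
      have h1 : zx (f φ) = od φ (D.i x) := by rw [hox, hf]
      have h2 : zy (f φ) = od φ (D.i y) := by rw [hoy, hf]
      rw [h1, h2]
      by_cases hφ : φ ∈ Φ
      · rw [Finset.sum_eq_single_of_mem φ hφ]
        · rw [Finsupp.single_eq_same]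
        · intro φ' _ hne
          rw [Finsupp.single_apply, if_neg]
          intro h
          exact hne (hff _ _ h)
      · obtain ⟨t, ht⟩ := em_rg e φ
        rw [D.DL.od_lu ht hx0 hy0 (hΦ' φ hφ), sub_self]
        refine Finset.sum_eq_zero fun φ' hφ' => ?_
        rw [Finsupp.single_apply, if_neg]
        intro h
        have h3 := hff _ _ h
        rw [h3] at hφ'
        exact hφ hφ'
    · have hpo : p = none := by
        rcases p with _ | ψ
        · rfl
        · obtain ⟨φ, rfl⟩ := pe_surj e ψ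
          exact absurd ⟨φ, hf φ⟩ hpn
      have h1 : zx p = 0 := by rw [hpo]; exact hex.2
      have h2 : zy p = 0 := by rw [hpo]; exact hey.2
      rw [h1, h2, sub_zero]
      refine Finset.sum_eq_zero fun φ _ => ?_
      rw [Finsupp.single_apply, if_neg]
      intro h
      exact hpn ⟨φ, h⟩
  have hz := hp (fun φ => (some (pe e φ) : C.V.pt Ω)) (fun _ => rfl)
  have hdx' : C.V.deg Ω zx = n := by rw [← hcx]; exact deg_cy_span hdx
  have hdy' : C.V.deg Ω zy = n := by rw [← hcy]; exact deg_cy_span hdy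
  refine pc_of_rel hI hJ hy1 hx1 (mul_comm _ _) (k := 0) ?_ ?_
  · refine (congrArg (C.V.deg Ω) hz).trans ?_
    rw [map_sub, hdx', hdy', sub_self]
  · refine hz.trans ?_
    rw [hcx, hcy, Finsupp.single_zero, add_zero]

end CV
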