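import Pool.Agent.Lib.MP_f80667_ag.Cv.PlG
import Pool.Agent.Lib.MP_f80667_ag.Cv.DgQ

/-!
The order of an element at a regular homomorphism `φ : A → Ω`.
-/

namespace CV

section defs

variable {K A Ω : Type} [Field K] [CommRing A] [Algebra K A] [Field Ω] [Algebra K Ω]

/-- The order of `a` at `φ`. -/
noncomputable def od (φ : A →ₐ[K] Ω) (a : A) : ℕ := sInf {m | ∃ t, Rg φ t ∧ Lu φ a (t ^ m)}

theorem Lu.refl (φ : A →ₐ[K] Ω) (a : A) : Lu φ a a :=
  ⟨1, 1, by rw [map_one]; exact one_ne_zero, by rw [map_one]; exact one_ne_zero, rfl⟩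

theorem Lu.symm {φ : A →ₐ[K] Ω} {a b : A} (h : Lu φ a b) : Lu φ b a := by
  obtain ⟨s, s', hs, hs', e⟩ := h
  exact ⟨s', s, hs', hs, e.symm⟩

theorem Lu.trans {φ : A →ₐ[K] Ω} {a b c : A} (h : Lu φ a b) (h' : Lu φ b c) : Lu φ a c := by
  obtain ⟨s, s', hs, hs', e⟩ := h
  obtain ⟨t, t', ht, ht', e'⟩ := h'
  exact ⟨t * s, s' * t', by rw [map_mul]; exact mul_ne_zero ht hs,
    by rw [map_mul]; exact mul_ne_zero hs' ht', by linear_combination t * e + s' * e'⟩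

theorem Lu.mul {φ : A →ₐ[K] Ω} {a b c d : A} (h : Lu φ a b) (h' : Lu φ c d) :
    Lu φ (a * c) (b * d) := by
  obtain ⟨s, s', hs, hs', e⟩ := h
  obtain ⟨t, t', ht, ht', e'⟩ := h'
  exact ⟨s * t, s' * t', by rw [map_mul]; exact mul_ne_zero hs ht,
    by rw [map_mul]; exact mul_ne_zero hs' ht', by linear_combination t * c * e + s' * b * e'⟩

theorem Lu.pow_Od {φ : A →ₐ[K] Ω} {a b : A} (h : Lu φ a b) (n : ℕ) : Lu φ (a ^ n) (b ^ n) := by
  induction n with
  | zero => rw [pow_zero, pow_zero]; exact Lu.refl φ 1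
  | succ n ih => rw [pow_succ, pow_succ]; exact ih.mul h

end defs

namespace Dg

variable {K A : Type} [Field K] [CommRing A] [Algebra K A] (G : Dg K A) {Ω : Type} [Field Ω]
  [Algebra K Ω] [Algebra.IsAlgebraic K Ω] {φ : A →ₐ[K] Ω} {t : A}

include G

/-- Proof: `t ≠ 0`, because `φ` is not injective. -/
theorem rg_ne (h : Rg φ t) : t ≠ 0 := by
  rintro rfl
  have := G.isDomain
  obtain ⟨-, s, hs, hdiv⟩ := h
  have hs0 : s ≠ 0 := by
    rintro rfl
    exact hs (map_zero φ)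
  obtain ⟨n₀, hn₀⟩ := G.tail
  obtain ⟨x, hx⟩ := hn₀ (n₀ + 1) (by omega)
  obtain ⟨p, hp, hpx⟩ := Algebra.IsAlgebraic.isAlgebraic (R := K) (φ x)
  rw [Polynomial.aeval_algHom_apply] at hpx
  have h1 := hdiv _ hpx
  rw [zero_dvd_iff] at h1
  rcases mul_eq_zero.1 h1 with h2 | h2
  · exact hs0 h2
  · exact G.trans hx (by omega) ⟨p, hp, h2⟩

/-- Two generators differ by a local unit. -/
theorem rg_lu {t' : A} (h : Rg φ t) (h' : Rg φ t') : Lu φ t t' := by
  have := G.isDomain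
  have ht := G.rg_ne h
  obtain ⟨h0, s, hs, hdiv⟩ := h
  obtain ⟨h0', s', hs', hdiv'⟩ := h'
  obtain ⟨u, hu⟩ := hdiv' t h0
  obtain ⟨v, hv⟩ := hdiv t' h0'
  have h1 : t * (s * s') = t * (v * u) := by linear_combination s * hu + u * hv
  have h2 := mul_left_cancel₀ ht h1
  refine ⟨s', u, hs', ?_, by rw [hu, mul_comm]⟩
  intro h3
  have h4 := congrArg φ h2
  rw [map_mul, map_mul, h3, mul_zero] at h4
  exact mul_ne_zero hs hs' h4

theorem pow_inj_Od (h : Rg φ t) {m n : ℕ} (hmn : Lu φ (t ^ m) (t ^ n)) : m = n := by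
  have := G.isDomain
  have ht := G.rg_ne h
  have key : ∀ m n : ℕ, m < n → ¬ Lu φ (t ^ m) (t ^ n) := by
    rintro m n hlt ⟨s, s', hs, hs', e⟩
    obtain ⟨l, rfl⟩ := Nat.exists_eq_add_of_lt hlt
    have h1 : t ^ m * s = t ^ m * (s' * t ^ (l + 1)) := by
      rw [add_assoc, pow_add] at e
      linear_combination e
    have h2 := congrArg φ (mul_left_cancel₀ (pow_ne_zero m ht) h1)
    rw [map_mul, map_pow, h.1, pow_succ, mul_zero, mul_zero] at h2
    exact hs h2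
  rcases lt_trichotomy m n with h1 | h1 | h1
  · exact absurd hmn (key m n h1)
  · exact h1
  · exact absurd hmn.symm (key n m h1)

/-- Proof: if `s t ^ m = s' t ^ n`, `m < n`, then `s = s' t ^ (n - m)`, `φ s = 0`. -/
theorem od_eq (h : Rg φ t) {a : A} {m : ℕ} (hm : Lu φ a (t ^ m)) : od φ a = m := by
  have h1 : {m | ∃ t, Rg φ t ∧ Lu φ a (t ^ m)} = {m} := by
    ext n
    constructor
    · rintro ⟨t', ht', hn⟩
      have h2 := (G.rg_lu h ht').pow_Od n
      exact (G.pow_inj_Od h ((hm.symm.trans hn).trans h2.symm)).symm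
    · rintro rfl
      exact ⟨t, h, hm⟩
  rw [od, h1, csInf_singleton]

/-- Proof: `rg_fac`, `od_eq`. -/
theorem od_spec (h : Rg φ t) {a : A} (ha : a ≠ 0) : Lu φ a (t ^ od φ a) := by
  obtain ⟨m, hm⟩ := G.rg_fac h ha
  rwa [G.od_eq h hm]

theorem od_mul (h : Rg φ t) {a b : A} (ha : a ≠ 0) (hb : b ≠ 0) :
    od φ (a * b) = od φ a + od φ b := by
  apply G.od_eq h
  rw [pow_add]
  exact (G.od_spec h ha).mul (G.od_spec h hb)

theorem od_lu (h : Rg φ t) {a b : A} (ha : a ≠ 0) (hb : b ≠ 0) (hab : Lu φ a b) :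
    od φ a = od φ b :=
  G.od_eq h (hab.trans (G.od_spec h hb))

theorem od_zero (h : Rg φ t) {a : A} (ha : φ a ≠ 0) : od φ a = 0 := by
  apply G.od_eq h
  exact ⟨1, a, by rw [map_one]; exact one_ne_zero, ha, by rw [pow_zero, one_mul, mul_one]⟩

theorem od_pos (h : Rg φ t) {a : A} (ha : a ≠ 0) (h0 : φ a = 0) : od φ a ≠ 0 := by
  intro h1
  obtain ⟨s, s', hs, hs', e⟩ := G.od_spec h ha
  rw [h1, pow_zero, mul_one] at e
  apply hs'
  rw [← e, map_mul, h0, mul_zero]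

theorem od_one (h : Rg φ t) : od φ t = 1 := by
  apply G.od_eq h
  rw [pow_one]
  exact Lu.refl φ t

/-- Only finitely many `φ` vanish at `a`. Proof: `A / (a)` is a finite dimensional algebra. -/
theorem zeros_fin {a : A} (ha : a ≠ 0) : {φ : A →ₐ[K] Ω | φ a = 0}.Finite := by
  have h1 : Module.Finite K (A ⧸ Ideal.span {a}) := G.finite_quot ha
  refine Set.Finite.subset (Set.finite_range
    (fun ψ : (A ⧸ Ideal.span {a}) →ₐ[K] Ω => ψ.comp (Ideal.Quotient.mkₐ K (Ideal.span {a})))) ?_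
  intro φ hφ
  refine ⟨Ideal.Quotient.liftₐ (Ideal.span {a}) φ ?_, ?_⟩
  · intro x hx
    obtain ⟨y, rfl⟩ := Ideal.mem_span_singleton'.1 hx
    rw [map_mul, show φ a = 0 from hφ, mul_zero]
  · ext x
    rfl

end Dg

end CV
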