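import Pool.Agent.Lib.MP_f80667_ag.Cv.Hl
import Pool.Agent.Lib.MP_f80667_ag.Cv.Od
import Pool.Agent.Lib.MP_f80667_ag.Pe.Ur

/-!
Zeros of local parameters: Galois action, inertia.
-/

open ZC BE PE IsLocalRing IntermediateField

namespace CV

namespace Md

variable {K Ω : Type} [Field K] [CharZero K] [Field Ω] [Algebra K Ω] [IsAlgClosure K Ω]
  {L : Ld K Ω} {M : IntermediateField K Ω}

/-- The action of the automorphisms over `M` on the points over `Ω`. -/
noncomputable def ag {A : Type} [CommRing A] [Algebra M A] (γ : M.fixingSubgroup)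
    (φ : A →ₐ[M] Ω) : A →ₐ[M] Ω :=
  ((fixingSubgroupEquiv M γ : Ω ≃ₐ[M] Ω) : Ω →ₐ[M] Ω).comp φ

@[simp] theorem ag_apply {A : Type} [CommRing A] [Algebra M A] (γ : M.fixingSubgroup)
    (φ : A →ₐ[M] Ω) (x : A) : ag γ φ x = (γ : Ω ≃ₐ[K] Ω) (φ x) := rfl

/-- The maximal ideal of the valuation ring. -/
private theorem ux_non {K Ω : Type} [Field K] [Field Ω] [Algebra K Ω] {L : Ld K Ω} {x : Ω} :
    x ∈ L.V.nonunits ↔ L.nm x < 1 := by
  rw [← L.hv_zero, ValuationSubring.mem_nonunits_iff_exists_mem_maximalIdeal]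
  constructor
  · rintro ⟨h, h1⟩
    exact ⟨h, (residue_eq_zero_iff _).2 h1⟩
  · rintro ⟨h, h1⟩
    exact ⟨h, (residue_eq_zero_iff _).1 h1⟩

private theorem ux_zero {A : Type} [CommRing A] [Algebra M A] (γ : M.fixingSubgroup)
    (φ : A →ₐ[M] Ω) (x : A) : ag γ φ x = 0 ↔ φ x = 0 := by
  rw [ag_apply]
  exact map_eq_zero_iff _ (γ : Ω ≃ₐ[K] Ω).injective

variable {V k S SM Sk : Type} [CommRing V] [IsDomain V]
  [IsDiscreteValuationRing V] [Field k] [Algebra V M] [IsFractionRing V M] [Algebra V k]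
  [CommRing S] [CommRing SM] [CommRing Sk] [Algebra V S] [Algebra M SM] [Algebra k Sk]
  (D : Md V M k S SM Sk)

/-- Proof: `nm (γ x) = nm x`. -/
theorem ag_ov {φ : SM →ₐ[M] Ω} {N : Ideal S} (h : D.Ov L.V φ N) (γ : M.fixingSubgroup) :
    D.Ov L.V (ag γ φ) N := by
  refine ⟨fun s => ?_, fun s => ?_⟩
  · rw [ag_apply, L.mem_V, L.act]
    exact h.1 s
  · rw [h.2 s, ag_apply, ux_non, ux_non, L.act]

/-- `Rg`, `Lu`, `od` are invariant. -/
theorem ag_od {A : Type} [CommRing A] [Algebra M A] (γ : M.fixingSubgroup) (φ : A →ₐ[M] Ω) (a : A) :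
    od (ag γ φ) a = od φ a := by
  have h1 : ∀ t, Rg (ag γ φ) t ↔ Rg φ t := fun t => by
    unfold Rg
    simp only [ne_eq, ux_zero]
  have h2 : ∀ x y, Lu (ag γ φ) x y ↔ Lu φ x y := fun x y => by
    unfold Lu
    simp only [ne_eq, ux_zero]
  unfold od
  simp only [h1, h2]

/-- An integral point as a homomorphism to the valuation ring. -/
private def uxPt {φ : SM →ₐ[M] Ω} (h : D.Ig L.V φ) : S →+* L.V where
  toFun := fun s => ⟨φ (D.i s), h s⟩
  map_one' := by
    apply Subtype.ext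
    simp
  map_mul' := fun a b => by
    apply Subtype.ext
    simp
  map_zero' := by
    apply Subtype.ext
    simp
  map_add' := fun a b => by
    apply Subtype.ext
    simp

/-- For an integral point above `N` and a local parameter `g` at `N` there is exactly one zero of `g` above `N` with the same residues. Proof: `lift_pt` for the residues `ρ` of `φ` (the kernel of `ρ` is `N`), `pt_uniq`. -/
theorem ux_lift [FiniteDimensional K M] [IsAdicComplete (maximalIdeal V) V] [PerfectField k]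
    (hW : Wv V M L.V) {π : V} (hπ : Irreducible π) {N : Ideal S} (hN : Cs V N) {g : S}
    (hg : Rgl π N g) (hq : D.q g ≠ 0) {φ : SM →ₐ[M] Ω} (h : D.Ov L.V φ N) :
    ∃! φ' : SM →ₐ[M] Ω, D.Ov L.V φ' N ∧ φ' (D.i g) = 0 ∧
      ∀ s : S, φ (D.i s) - φ' (D.i s) ∈ L.V.nonunits := by
  have hac : IsAlgClosed Ω := IsAlgClosure.isAlgClosed K
  set ρ : S →+* ResidueField L.V := (residue L.V).comp (uxPt D h.1) with hρ
  have hρs : ∀ s, ρ s = residue L.V ⟨φ (D.i s), h.1 s⟩ := fun s => rfl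
  have hres : ∀ x : L.V, residue L.V x = 0 ↔ (x : Ω) ∈ L.V.nonunits := by
    intro x
    rw [residue_eq_zero_iff, ValuationSubring.coe_mem_nonunits_iff]
  have hker : RingHom.ker ρ = N := by
    ext s
    rw [RingHom.mem_ker, h.2 s, hρs, hres]
  have hρV : ∀ c : V, ρ (algebraMap V S c) = residue L.V ⟨_, hW.mem c⟩ := by
    intro c
    rw [hρs]
    congr 1
    apply Subtype.ext
    change φ (D.i (algebraMap V S c)) = _
    rw [D.i_alg, φ.commutes]
  rw [← hker] at hg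
  obtain ⟨φ', h0, h1⟩ := D.lift_pt hW hπ ρ hρV hg hq
  rw [hker] at hg
  have h2 : ∀ s : S, φ (D.i s) - φ' (D.i s) ∈ L.V.nonunits := by
    intro s
    obtain ⟨h3, h4⟩ := h1 s
    rw [hρs, ← sub_eq_zero, ← map_sub, hres] at h4
    have h5 : φ (D.i s) - φ' (D.i s) = -(φ' (D.i s) - φ (D.i s)) := by ring
    rw [h5, ux_non, L.neg, ← ux_non]
    exact h4
  have h3 : D.Ov L.V φ' N := by
    refine ⟨fun s => (h1 s).1, fun s => ?_⟩
    obtain ⟨h3, h4⟩ := h1 s
    rw [← hker, RingHom.mem_ker, ← h4, hres]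
  refine ⟨φ', ⟨h3, h0, h2⟩, ?_⟩
  rintro ψ ⟨h4, h5, h6⟩
  refine D.pt_uniq hW hπ hN hg hq h4 h3 (fun s => ?_) h5 h0
  have h7 : ψ (D.i s) - φ' (D.i s) = (φ (D.i s) - φ' (D.i s)) - (φ (D.i s) - ψ (D.i s)) := by
    ring
  rw [h7, ux_non]
  exact (L.sub _ _).trans_lt (max_lt (ux_non.1 (h2 s)) (ux_non.1 (h6 s)))

/-- **Zeros of local parameters are defined over unramified extensions.** Proof: the `V`-module `S / It {N} g` is generated by finitely many `b`
(`it_fin`). By `te_rep` there are `N_b ≠ 0` and `z_b ∈ Te N_b` with `nm (φ b - z_b) < 1`; `N₀` is the product of the `N_b`. An automorphism `γ` over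
`Ur M N'` fixes the `z_b` (`te_dvd`, `ur_fix`), so `φ b` and `γ (φ b)` have the same residue, and hence `φ` and `γ φ` have the same residues on all of `S` (`φ` vanishes on `It {N} g`). `pt_uniq`. -/
theorem ux_inert [FiniteDimensional K M] [IsAdicComplete (maximalIdeal V) V] [PerfectField k]
    (hW : Wv V M L.V) {π : V} (hπ : Irreducible π) {N : Ideal S} (hN : Cs V N) {g : S}
    (hg : Rgl π N g) (hq : D.q g ≠ 0) {φ : SM →ₐ[M] Ω} (h : D.Ov L.V φ N) (h0 : φ (D.i g) = 0) :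
    ∃ N₀ : ℕ, N₀ ≠ 0 ∧ ∀ N', N₀ ∣ N' → ∀ γ : M.fixingSubgroup,
      (γ : Ω ≃ₐ[K] Ω) ∈ (L.Ur M N').fixingSubgroup → ag γ φ = φ := by
  classical
  have hT : ∀ N' ∈ ({N} : Set (Ideal S)), N'.IsPrime := by
    rintro N' rfl
    exact hN.1.isPrime
  obtain ⟨t, ht⟩ := D.it_gen (Set.finite_singleton N) (by rintro N' rfl; exact hN) hT hq
  have hex : ∀ b : S, ∃ n : ℕ, n ≠ 0 ∧ ∃ z ∈ L.Te n, L.nm (φ (D.i b) - z) < 1 := fun b =>
    Ld.te_rep (h.1 b)
  choose n hn z hz hzb using hex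
  refine ⟨∏ b ∈ t, n b, Finset.prod_ne_zero_iff.2 fun b _ => hn b, fun N' hN' γ hγ => ?_⟩
  have hb : ∀ b ∈ t, L.nm ((γ : Ω ≃ₐ[K] Ω) (φ (D.i b)) - φ (D.i b)) < 1 := by
    intro b hb
    have h1 : (γ : Ω ≃ₐ[K] Ω) (z b) = z b :=
      (Ld.ur_fix γ.2).1 hγ _ (Ld.te_dvd ((Finset.dvd_prod_of_mem n hb).trans hN') (hz b))
    have h2 : (γ : Ω ≃ₐ[K] Ω) (φ (D.i b)) - φ (D.i b) =
        (γ : Ω ≃ₐ[K] Ω) (φ (D.i b) - z b) - (φ (D.i b) - z b) := by
      rw [map_sub, h1]
      ring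
    rw [h2]
    refine (L.sub _ _).trans_lt (max_lt ?_ (hzb b))
    rw [L.act]
    exact hzb b
  have hspan : ∀ x ∈ Submodule.span V (t : Set S),
      L.nm ((γ : Ω ≃ₐ[K] Ω) (φ (D.i x)) - φ (D.i x)) < 1 := by
    intro x hx
    induction hx using Submodule.span_induction with
    | mem b hb' => exact hb b hb'
    | zero =>
      rw [map_zero, map_zero, map_zero, sub_self, L.zero]
      exact zero_lt_one
    | add a b _ _ ha hb' =>
      have e : (γ : Ω ≃ₐ[K] Ω) (φ (D.i (a + b))) - φ (D.i (a + b)) =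
          ((γ : Ω ≃ₐ[K] Ω) (φ (D.i a)) - φ (D.i a)) +
            ((γ : Ω ≃ₐ[K] Ω) (φ (D.i b)) - φ (D.i b)) := by
        rw [map_add, map_add, map_add]
        ring
      rw [e]
      exact (L.add _ _).trans_lt (max_lt ha hb')
    | smul r a _ ha =>
      have e0 : φ (D.i (algebraMap V S r)) = algebraMap M Ω (algebraMap V M r) := by
        rw [D.i_alg, φ.commutes]
      have e1 : (γ : Ω ≃ₐ[K] Ω) (algebraMap M Ω (algebraMap V M r)) =
          algebraMap M Ω (algebraMap V M r) :=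
        (IntermediateField.mem_fixingSubgroup_iff M _).1 γ.2 _ (algebraMap V M r).2
      have e : (γ : Ω ≃ₐ[K] Ω) (φ (D.i (r • a))) - φ (D.i (r • a)) =
          algebraMap M Ω (algebraMap V M r) *
            ((γ : Ω ≃ₐ[K] Ω) (φ (D.i a)) - φ (D.i a)) := by
        rw [Algebra.smul_def, map_mul, map_mul, map_mul, e0, e1]
        ring
      rw [e, L.mul]
      exact mul_lt_one_of_nonneg_of_lt_one_right (hW.mem r) (L.nonneg _) ha
  refine D.pt_uniq hW hπ hN hg hq (D.ag_ov h γ) h (fun s => ?_) ?_ h0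
  · obtain ⟨x, hx, hxs⟩ := ht s 1 (st_one hT)
    rw [one_mul] at hxs
    obtain ⟨u, hu, y, e⟩ := hxs
    have h1 : φ (D.i u) ≠ 0 := D.ov_ne h (hu N rfl)
    have h2 : φ (D.i u) * φ (D.i (x - s)) = 0 := by
      rw [← map_mul, ← map_mul, e, map_mul, map_mul, h0, zero_mul]
    have h3 : φ (D.i x) = φ (D.i s) := by
      have h4 := (mul_eq_zero.1 h2).resolve_left h1
      rw [map_sub, map_sub, sub_eq_zero] at h4
      exact h4
    rw [ag_apply, ux_non, ← h3]
    exact hspan x hx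
  · rw [ag_apply, h0, map_zero]

end Md

end CV
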