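import Pool.Agent.Lib.MP_f80667_ag.Cv.UxA
import Pool.Agent.Lib.MP_f80667_ag.Cv.UxB
import Pool.Agent.Lib.MP_f80667_ag.Cv.Rt

/-!
The bulk is a displacement.
-/

open ZC BE PE IsLocalRing IntermediateField

namespace CV

namespace Md

variable {F : Type} [Field F] {K Ω : Type} [Field K] [CharZero K] [Field Ω] [Algebra K Ω]
  [Algebra F K] [Algebra F Ω] [IsScalarTower F K Ω] [IsAlgClosure K Ω] {L : Ld K Ω}
  {M : IntermediateField K Ω} [FiniteDimensional K M] {V k S SM Sk : Type} [CommRing V] [IsDomain V]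
  [IsDiscreteValuationRing V] [Field k] [Algebra V M] [IsFractionRing V M] [Algebra V k]
  [CommRing S] [CommRing SM] [CommRing Sk] [Algebra V S] [Algebra M SM] [Algebra k Sk]
  (D : Md V M k S SM Sk)

omit [CharZero K] [IsAlgClosure K Ω] in
private theorem uxc_nm {x : Ω} : x ∈ L.V.nonunits ↔ L.nm x < 1 := by
  rw [ValuationSubring.mem_nonunits_iff_exists_mem_maximalIdeal, ← L.hv_zero]
  constructor
  · rintro ⟨h, h'⟩
    exact ⟨h, (IsLocalRing.residue_eq_zero_iff _).2 h'⟩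
  · rintro ⟨h, h'⟩
    exact ⟨h, (IsLocalRing.residue_eq_zero_iff _).1 h'⟩

omit [CharZero K] [IsAlgClosure K Ω] in
private theorem uxc_symm {x y : Ω} (h : x - y ∈ L.V.nonunits) : y - x ∈ L.V.nonunits := by
  rw [uxc_nm] at h ⊢
  rwa [← neg_sub, L.neg]

omit [CharZero K] [IsAlgClosure K Ω] in
private theorem uxc_trans {x y z : Ω} (h : x - y ∈ L.V.nonunits) (h' : y - z ∈ L.V.nonunits) :
    x - z ∈ L.V.nonunits := by
  rw [uxc_nm] at h h' ⊢
  rw [← sub_add_sub_cancel x y z]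
  exact lt_of_le_of_lt (L.add _ _) (max_lt h h')

omit [CharZero K] [FiniteDimensional K M] in
private theorem uxc_od {π : V} (hπ : Irreducible π) {N : Ideal S} (hN : Cs V N) {z : S}
    (hz : Rgl π N z) {φ : SM →ₐ[M] Ω} (h : D.Ov L.V φ N) :
    (φ (D.i z) = 0 → od φ (D.i z) = 1) ∧ (φ (D.i z) ≠ 0 → od φ (D.i z) = 0) := by
  have halg : Algebra.IsAlgebraic M Ω := by
    have h1 : Algebra.IsAlgebraic K Ω := IsAlgClosure.isAlgebraic
    exact Algebra.IsAlgebraic.tower_top (K := K) M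
  constructor
  · intro h0
    obtain ⟨s, hs, hgs⟩ := D.rgl_simple hπ hN hz h h0
    exact D.DL.od_one (D.gen_rg h h0 hs hgs)
  · intro h0
    obtain ⟨g, -, hg, s, hs, hgs⟩ := D.rgl_gen hπ hN hz h
    exact D.DL.od_zero (D.gen_rg h hg hs hgs) h0

/-- **The bulk is a displacement.**

Proof. Let `g' = g - π ^ r w`; `g'` is a local parameter at the closed points `N` with `g ∈ N` (`Rgl π N g'`: `g = g' + π (..)`), `q g' = q g ≠ 0`. Let `Φ₀` be the set of the zeros `φ` of `g` above such `N`, a finite set (`zeros_fin`). For `φ ∈ Φ₀` let `φ*` be the zero of `g'`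
above the same `N` with the same residues (`ux_lift` for `g'`); `φ ↦ φ*` is a bijection from `Φ₀` to the set of the zeros of `g'` above the `N` with `g ∈ N` (`ux_lift` for `g`; uniqueness). For `φ ∈ Φ` the number `od φ g` is `1` if `φ ∈ Φ₀` and `0` otherwise (`rgl_simple` and `gen_rg`, `od_one`, `od_zero`), the same for
`g'`. So the sum is the sum over `φ ∈ Φ₀` of `single (f φ) 1 - single (f φ*) 1`. `orb_dsp` for `I = Φ₀` with the action `γ • φ = ag γ φ` (`ag_ov`; `γ (φ g) = 0`), `a φ = f φ`, `b φ = f φ*`: `(γ φ)* = γ φ*` by uniqueness. `hnr`: `φ g = 0`, `φ* g = π ^ r φ* w`, so `congr_pt` for `c = π ^ r` and `f := g`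
gives `φ s - φ* s ∈ π ^ r W` for all `s`. `N` in `orb_dsp` is the product of the `N₀` of `ux_inert` over `φ ∈ Φ₀`. -/
theorem bk_dsp [IsAdicComplete (maximalIdeal V) V] [PerfectField k] (hW : Wv V M L.V) {π : V}
    (hπ : Irreducible π) {V' : Vr F} {nr : V'.pt Ω → V'.pt Ω → Prop} (f : (SM →ₐ[M] Ω) → V'.pt Ω)
    (hf : ∀ (γ : M.fixingSubgroup) (φ : SM →ₐ[M] Ω), f (ag γ φ) = V'.act (γ : Ω ≃ₐ[K] Ω) (f φ))
    {r : ℕ} (hr : r ≠ 0)
    (hnr : ∀ φ φ' : SM →ₐ[M] Ω, D.Ig L.V φ → D.Ig L.V φ' →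
      (∀ s : S, ∃ w ∈ L.V, φ (D.i s) - φ' (D.i s) =
        algebraMap M Ω (algebraMap V M (π ^ r)) * w) → nr (f φ) (f φ')) :
    D.Bk L.V f (Dsp L V' nr M) π r := by
  classical
  intro g w hg hrg Φ hΦ hΦ'
  set c : V := π ^ r with hc
  set g' : S := g - algebraMap V S c * w with hg'
  have hπm : π ∈ maximalIdeal V := (mem_maximalIdeal _).2 hπ.not_isUnit
  have hcm : c ∈ maximalIdeal V := Ideal.pow_mem_of_mem _ hπm r (Nat.pos_of_ne_zero hr)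
  have hqg : D.q g' = D.q g := by
    rw [hg', map_sub, map_mul, D.q_alg, (D.res_zero c).2 hcm, map_zero, zero_mul, sub_zero]
  have hq' : D.q g' ≠ 0 := by
    rw [hqg]
    exact hg
  have hcw : ∀ N : Ideal S, Cs V N → algebraMap V S c * w ∈ N := fun N hN =>
    Ideal.mul_mem_right _ _ (hN.2 c hcm)
  have hmem : ∀ N : Ideal S, Cs V N → g ∈ N → g' ∈ N := fun N hN h =>
    N.sub_mem h (hcw N hN)
  have hrg' : ∀ N : Ideal S, Cs V N → g ∈ N → Rgl π N g' := by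
    intro N hN hgN
    obtain ⟨-, s, hs, h1⟩ := hrg N hN hgN
    refine ⟨hmem N hN hgN, s, hs, fun x hx => ?_⟩
    obtain ⟨y, y', e⟩ := h1 x hx
    refine ⟨y, algebraMap V S (π ^ (r - 1)) * w * y + y', ?_⟩
    have e2 : c = π * π ^ (r - 1) := by
      rw [hc, ← pow_succ', Nat.sub_add_cancel (Nat.pos_of_ne_zero hr)]
    have e3 : algebraMap V S c = algebraMap V S π * algebraMap V S (π ^ (r - 1)) := by
      rw [e2, map_mul]
    rw [e, hg', e3]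
    ring
  have hne : ∀ z : S, D.q z ≠ 0 → D.i z ≠ 0 := by
    intro z hz h0
    apply hz
    rw [D.inj (by rw [h0, map_zero] : D.i z = D.i 0), map_zero]
  have hal : ∀ (φ : SM →ₐ[M] Ω), φ (D.i (algebraMap V S c)) =
      algebraMap M Ω (algebraMap V M c) := by
    intro φ
    rw [D.i_alg, φ.commutes]
  have halg : Algebra.IsAlgebraic M Ω := by
    have h1 : Algebra.IsAlgebraic K Ω := IsAlgClosure.isAlgebraic
    exact Algebra.IsAlgebraic.tower_top (K := K) M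
  -- the zeros of `g`
  let A : (SM →ₐ[M] Ω) → Prop := fun φ => ∃ N : Ideal S, Cs V N ∧ g ∈ N ∧ D.Ov L.V φ N
  let I : Type := {φ : SM →ₐ[M] Ω // φ (D.i g) = 0 ∧ A φ}
  have hfin : Finite I :=
    Set.Finite.to_subtype (((D.DL.zeros_fin (Ω := Ω) (hne g hg))).subset (fun φ hφ => hφ.1))
  let fI : Fintype I := Fintype.ofFinite I
  let act : MulAction M.fixingSubgroup I :=
    { smul := fun γ φ => ⟨ag γ φ.1, by rw [ag_apply, φ.2.1, map_zero], by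
        obtain ⟨N, h1, h2, h3⟩ := φ.2.2
        exact ⟨N, h1, h2, D.ag_ov h3 γ⟩⟩
      one_smul := fun φ => Subtype.ext (AlgHom.ext fun x => rfl)
      mul_smul := fun γ γ' φ => Subtype.ext (AlgHom.ext fun x => rfl) }
  have hsm : ∀ (γ : M.fixingSubgroup) (φ : I), (γ • φ).1 = ag γ φ.1 := fun _ _ => rfl
  -- the zeros of `g'`
  have hst : ∀ φ : I, ∃ φ' : SM →ₐ[M] Ω, ∃ N : Ideal S, Cs V N ∧ g ∈ N ∧ D.Ov L.V φ.1 N ∧
      D.Ov L.V φ' N ∧ φ' (D.i g') = 0 ∧ ∀ s : S, φ.1 (D.i s) - φ' (D.i s) ∈ L.V.nonunits := by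
    rintro ⟨φ, -, N, h1, h2, h3⟩
    obtain ⟨φ', ⟨h4, h5, h6⟩, -⟩ := D.ux_lift hW hπ h1 (hrg' N h1 h2) hq' h3
    exact ⟨φ', N, h1, h2, h3, h4, h5, h6⟩
  choose st hst using hst
  -- uniqueness
  have huniq : ∀ (φ : I) (ψ : SM →ₐ[M] Ω) (N : Ideal S), D.Ov L.V φ.1 N → D.Ov L.V ψ N →
      ψ (D.i g') = 0 → (∀ s : S, φ.1 (D.i s) - ψ (D.i s) ∈ L.V.nonunits) → st φ = ψ := by
    intro φ ψ N h1 h2 h3 h4
    obtain ⟨N', k1, k2, k3, k4, k5, k6⟩ := hst φ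
    have hNN : N' = N := D.ov_uniq k3 h1
    subst hNN
    exact D.pt_uniq hW hπ k1 (hrg' N' k1 k2) hq' k4 h2
      (fun s => uxc_trans (uxc_symm (k6 s)) (h4 s)) k5 h3
  have hbst : ∀ (γ : M.fixingSubgroup) (φ : I), st (γ • φ) = ag γ (st φ) := by
    intro γ φ
    obtain ⟨N', k1, k2, k3, k4, k5, k6⟩ := hst φ
    apply huniq (γ • φ) (ag γ (st φ)) N' (D.ag_ov k3 γ) (D.ag_ov k4 γ)
    · rw [ag_apply, k5, map_zero]
    · intro s
      have h1 := k6 s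
      rw [uxc_nm] at h1 ⊢
      rw [hsm, ag_apply, ag_apply, ← map_sub, L.act]
      exact h1
  have hinj : Function.Injective st := by
    intro φ ψ h
    obtain ⟨N, k1, k2, k3, k4, k5, k6⟩ := hst φ
    obtain ⟨N', l1, l2, l3, l4, l5, l6⟩ := hst ψ
    rw [← h] at l4 l6
    have hNN : N' = N := D.ov_uniq l4 k4
    subst hNN
    exact Subtype.ext (D.pt_uniq hW hπ k1 (hrg N' k1 k2) hg k3 l3
      (fun s => uxc_trans (k6 s) (uxc_symm (l6 s))) φ.2.1 ψ.2.1)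
  have hsurj : ∀ ψ : SM →ₐ[M] Ω, ψ (D.i g') = 0 → A ψ → ∃ φ : I, st φ = ψ := by
    rintro ψ h0 ⟨N, h1, h2, h3⟩
    obtain ⟨φ, ⟨h4, h5, h6⟩, -⟩ := D.ux_lift hW hπ h1 (hrg N h1 h2) hg h3
    exact ⟨⟨φ, h5, N, h1, h2, h4⟩, huniq ⟨φ, h5, N, h1, h2, h4⟩ ψ N h4 h3 h0
      (fun s => uxc_symm (h6 s))⟩
  -- the sum
  have e1 : ∀ z : S, (z = g ∨ z = g') → ∀ φ ∈ Φ,
      ((od φ (D.i z) : ℕ) : ℤ) = if φ (D.i z) = 0 then 1 else 0 := by
    intro z hz φ hφ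
    obtain ⟨N, h1, h2, h3⟩ := hΦ φ hφ
    have h4 : Rgl π N z := by
      rcases hz with rfl | rfl
      · exact hrg N h1 h2
      · exact hrg' N h1 h2
    obtain ⟨h5, h6⟩ := D.uxc_od hπ h1 h4 h3
    split_ifs with h7
    · rw [h5 h7, Nat.cast_one]
    · rw [h6 h7, Nat.cast_zero]
  have e2 : ∑ φ ∈ Φ, Finsupp.single (f φ) ((od φ (D.i g) : ℤ) - od φ (D.i g')) =
      ∑ φ ∈ Φ.filter (fun φ => φ (D.i g) = 0), Finsupp.single (f φ) (1 : ℤ) -
      ∑ φ ∈ Φ.filter (fun φ => φ (D.i g') = 0), Finsupp.single (f φ) (1 : ℤ) := by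
    rw [Finset.sum_filter, Finset.sum_filter, ← Finset.sum_sub_distrib]
    apply Finset.sum_congr rfl
    intro φ hφ
    rw [e1 g (Or.inl rfl) φ hφ, e1 g' (Or.inr rfl) φ hφ, Finsupp.single_sub]
    congr 1
    · split_ifs
      · rfl
      · rw [Finsupp.single_zero]
    · split_ifs
      · rfl
      · rw [Finsupp.single_zero]
  have e3 : ∑ φ ∈ Φ.filter (fun φ => φ (D.i g) = 0), Finsupp.single (f φ) (1 : ℤ) =
      ∑ φ : I, Finsupp.single (f φ.1) (1 : ℤ) := by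
    symm
    apply Finset.sum_bij (fun (φ : I) _ => φ.1)
    · intro φ _
      rw [Finset.mem_filter]
      exact ⟨hΦ' φ.1 φ.2.2 (Or.inl φ.2.1), φ.2.1⟩
    · intro φ _ ψ _ h
      exact Subtype.ext h
    · intro φ hφ
      rw [Finset.mem_filter] at hφ
      exact ⟨⟨φ, hφ.2, hΦ φ hφ.1⟩, Finset.mem_univ _, rfl⟩
    · intro φ _
      rfl
  have e4 : ∑ φ ∈ Φ.filter (fun φ => φ (D.i g') = 0), Finsupp.single (f φ) (1 : ℤ) =
      ∑ φ : I, Finsupp.single (f (st φ)) (1 : ℤ) := by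
    symm
    apply Finset.sum_bij (fun (φ : I) _ => st φ)
    · intro φ _
      obtain ⟨N, k1, k2, k3, k4, k5, k6⟩ := hst φ
      rw [Finset.mem_filter]
      exact ⟨hΦ' (st φ) ⟨N, k1, k2, k4⟩ (Or.inr k5), k5⟩
    · intro φ _ ψ _ h
      exact hinj h
    · intro φ hφ
      rw [Finset.mem_filter] at hφ
      obtain ⟨ψ, hψ⟩ := hsurj φ hφ.2 (hΦ φ hφ.1)
      exact ⟨ψ, Finset.mem_univ _, hψ⟩
    · intro φ _
      rfl
  rw [e2, e3, e4, ← Finset.sum_sub_distrib]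
  -- inertia
  have hin : ∀ φ : I, ∃ N₀ : ℕ, N₀ ≠ 0 ∧ ∀ N', N₀ ∣ N' → ∀ γ : M.fixingSubgroup,
      (γ : Ω ≃ₐ[K] Ω) ∈ (L.Ur M N').fixingSubgroup → ag γ φ.1 = φ.1 := by
    intro φ
    obtain ⟨N, h1, h2, h3⟩ := φ.2.2
    exact D.ux_inert hW hπ h1 (hrg N h1 h2) hg h3 φ.2.1
  choose n₀ hn₀ hn₀' using hin
  refine orb_dsp (L := L) (nr := nr) (M := M) (I := I) (fun φ => f φ.1) (fun φ => f (st φ))
    (fun γ φ => ?_) (fun γ φ => ?_) (fun φ => ?_) (N := ∏ φ : I, n₀ φ)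
    (Finset.prod_ne_zero_iff.2 fun φ _ => hn₀ φ) (fun γ hγ φ => ?_)
  · rw [hsm]
    exact hf γ φ.1
  · rw [hbst]
    exact hf γ (st φ)
  · obtain ⟨N, k1, k2, k3, k4, k5, k6⟩ := hst φ
    refine hnr φ.1 (st φ) k3.1 k4.1 (fun s => ?_)
    refine D.congr_pt hW hπ k1 (hrg N k1 k2) hg k3 k4 k6 (hW.mem c)
      ⟨0, L.V.zero_mem, by rw [φ.2.1, mul_zero]⟩ ⟨st φ (D.i w), k4.1 w, ?_⟩ s
    have h1 := k5
    rw [hg', map_sub, map_sub, map_mul, map_mul, hal, sub_eq_zero] at h1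
    exact h1
  · exact Subtype.ext (hn₀' φ _ (Finset.dvd_prod_of_mem n₀ (Finset.mem_univ φ)) γ hγ)

end Md

end CV
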