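import Pool.Agent.Lib.MP_f80667_ag.Cv.ChtA
import Pool.Agent.Lib.MP_f80667_ag.Cv.Rgx
import Pool.Agent.Lib.MP_f80667_ag.Cv.RtQ
import Pool.Agent.Lib.MP_f80667_ag.Cv.Clt
import Pool.Agent.Lib.MP_f80667_ag.Cv.UxC

/-!
The moving lemma for cycles on a curve, for a model over the integers of `M`.
-/

open ZC BE PE Polynomial TensorProduct IntermediateField IsLocalRing

namespace CV

variable {F : Type} [Field F] {C : Crv F} {K Ω : Type} [Field K] [CharZero K] [Field Ω]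
  [Algebra K Ω] [Algebra F K] [Algebra F Ω] [IsScalarTower F K Ω] [IsAlgClosure K Ω] {L : Ld K Ω}
  {M : IntermediateField K Ω} [FiniteDimensional K M] {k S SM Sk : Type} [Field k]
  [Algebra (OM L M) k] [CommRing S] [CommRing SM] [CommRing Sk] [Algebra (OM L M) S]
  [Algebra M SM] [Algebra k Sk] {m : Mod C (Ok L) K} {D : Md (OM L M) M k S SM Sk}
  {e : SM ≃ₐ[M] M ⊗[F] C.A} {ρ : m.R →+* S}

/-- **The moving lemma for cycles on a curve** (`T₀` any finite set of closed points). Proof: `cltc` with `P = Pc C Ω` (`rt_pc`), `Q = Dsp ..` (`bk_dsp`; `pe_ag`; `hnr`: `cmp_nr` and `nm (π ^ r) ≤ q`), `exists_rgl`. -/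
theorem clt_cmp [PerfectField k] [IsDedekindDomain Sk] (hc : Cmp m D e ρ) {π : OM L M}
    (hπ : Irreducible π) {T₀ : Set (Ideal S)} (hf : T₀.Finite) (hC : ∀ N ∈ T₀, Cs (OM L M) N)
    {g₁ g₂ c : S} (hg : D.q g₁ ≠ 0) {r : ℕ} (hr : r ≠ 0)
    (hgc : g₁ = g₂ + algebraMap (OM L M) S (π ^ r) * c) {q : ℝ}
    (hq : L.nm ((π : M) : Ω) ^ r ≤ q) (Φ : Finset (SM →ₐ[M] Ω))
    (hΦ : ∀ φ ∈ Φ, ∃ N ∈ T₀, D.Ov L.V φ N)
    (hΦ' : ∀ φ, (∃ N ∈ T₀, D.Ov L.V φ N) → φ (D.i g₁) = 0 ∨ φ (D.i g₂) = 0 → φ ∈ Φ) :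
    ∑ φ ∈ Φ, Finsupp.single (some (pe e φ) : C.V.pt Ω) ((od φ (D.i g₁) : ℤ) - od φ (D.i g₂)) ∈
      Pc C Ω ⊔ Dsp L C.V (Nr m q) M := by
  have halg : Algebra.IsAlgebraic M Ω := by
    have h1 : Algebra.IsAlgebraic K Ω := IsAlgClosure.isAlgebraic
    exact Algebra.IsAlgebraic.tower_top (K := K) M
  have hn : L.nm (algebraMap M Ω (algebraMap (OM L M) M (π ^ r))) ≤ q := by
    rw [map_pow, map_pow, L.pow]
    exact hq
  have hB : D.Bk L.V (fun φ => (some (pe e φ) : C.V.pt Ω)) (Dsp L C.V (Nr m q) M) π r := by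
    refine D.bk_dsp (V' := C.V) (nr := Nr m q) (wvM L M) hπ
      (fun φ => (some (pe e φ) : C.V.pt Ω)) (fun γ φ => pe_ag e γ φ) hr ?_
    intro φ φ' h h' h1
    obtain ⟨χ, χ', e1, e2, h2⟩ :=
      (cmp_nr hc h h' (algebraMap M Ω (algebraMap (OM L M) M (π ^ r)))).1 h1
    exact ⟨χ, χ', e1, e2, fun a => ⟨(h2 a).1, (h2 a).2.1, (h2 a).2.2.trans hn⟩⟩
  exact D.cltc (wvM L M) hπ hf hC (fun N hN => D.exists_rgl hπ (hC N hN)) hg hr hgc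
    (rt_pc e D) hB Φ hΦ hΦ'

end CV
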