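import Pool.Agent.Lib.MP_f80667_ag.Cv.Sm5
import Pool.Agent.Lib.MP_f80667_ag.Cv.Cl0
import Pool.Agent.Lib.MP_f80667_ag.Cv.Cl2
import Pool.Agent.Lib.MP_f80667_ag.Cv.EtC
import Pool.Agent.Lib.MP_f80667_ag.Pe.NmL

/-!
Small displacements are divisible by `p` in the displacements, at all levels and for any ramification index.

* `bd_dsp`: the blocks `Bd` are displacements modulo principal cycles.
* `sml_pt`: one displacement over `M`.
* `dsp_tr`: traces of displacements. `sml_dsp`: the group of displacements.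
* `sml_lev`: `π` a uniformizer of `M`, `nm p = nm π ^ e`, `e < (p - 1) s`: `D (s + e) ≤ p D s`.
-/

open ZC BE PE Polynomial TensorProduct IntermediateField IsLocalRing

namespace CV

section blk

variable {F : Type} [Field F] {C : Crv F} {K Ω : Type} [Field K] [CharZero K] [Field Ω]
  [Algebra K Ω] [Algebra F K] [Algebra F Ω] [IsScalarTower F K Ω] [IsAlgClosure K Ω] {L : Ld K Ω}
  {M : IntermediateField K Ω} [FiniteDimensional K M] {k S SM Sk : Type} [Field k]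
  [Algebra (OM L M) k] [CommRing S] [CommRing SM] [CommRing Sk] [Algebra (OM L M) S]
  [Algebra M SM] [Algebra k Sk] {m : Mod C (Ok L) K} {D : Md (OM L M) M k S SM Sk}
  {e : SM ≃ₐ[M] M ⊗[F] C.A} {ρ : m.R →+* S}

/-- The blocks are displacements. -/
theorem bd_dsp [PerfectField k] [IsDedekindDomain Sk] (hc : Cmp m D e ρ) {π : OM L M} {b : S}
    (H : D.Blk L.V (cptS e) (Pc C Ω) π b) {r : ℕ} (hr : r ≠ 0) {q : ℝ}
    (hq : L.nm ((π : M) : Ω) ^ r ≤ q) (w : S) :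
    D.Bd L.V (cptS e) π b r w ∈ Pc C Ω ⊔ Dsp L C.V (Nr m q) M := by
  classical
  have hC : ∀ N ∈ Md.Vb (OM L M) b, Cs (OM L M) N := fun N hN => hN.1
  have hR : ∀ N ∈ Md.Vb (OM L M) b, ∃ z, Rgl π N z := fun N hN => H.rg N hN.1
  have hb := H.b_ne
  have hbw := H.ne_of_q (H.q_sub hr w)
  obtain ⟨Φ, h1, h2⟩ := D.zt_exists (W := L.V) H.irr hC hR
    {b, b - algebraMap (OM L M) S (π ^ r) * w} (by
      intro s hs
      rw [Finset.mem_insert, Finset.mem_singleton] at hs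
      rcases hs with rfl | rfl
      · exact hb
      · exact hbw)
  have h3 : ∀ φ, (∃ N ∈ Md.Vb (OM L M) b, D.Ov L.V φ N) → φ (D.i b) = 0 → φ ∈ Φ :=
    h2 b (Finset.mem_insert_self _ _)
  have h4 : ∀ φ, (∃ N ∈ Md.Vb (OM L M) b, D.Ov L.V φ N) →
      φ (D.i (b - algebraMap (OM L M) S (π ^ r) * w)) = 0 → φ ∈ Φ :=
    h2 _ (Finset.mem_insert_of_mem (Finset.mem_singleton_self _))
  have h5 := clt_cmp hc H.irr H.fin hC (g₁ := b) (g₂ := b - algebraMap (OM L M) S (π ^ r) * w)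
    (c := w) H.q_ne hr (by ring) hq Φ h1 (fun φ h h0 => h0.elim (h3 φ h) (h4 φ h))
  have h6 : D.Bd L.V (cptS e) π b r w = ∑ φ ∈ Φ, Finsupp.single (some (pe e φ) : C.V.pt Ω)
      ((od φ (D.i b) : ℤ) - od φ (D.i (b - algebraMap (OM L M) S (π ^ r) * w))) := by
    rw [Md.Bd, D.zt_sum H.irr hC hR hb Φ h1 h3, D.zt_sum H.irr hC hR hbw Φ h1 h4,
      ← Finset.sum_sub_distrib]
    refine Finset.sum_congr rfl fun φ _ => ?_
    rw [Finsupp.single_sub]
    rfl
  rw [h6]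
  exact h5

/-- **Small displacements over `M` are `l` times displacements.** -/
theorem sml_cpt [PerfectField k] [IsDedekindDomain Sk] (hc : Cmp m D e ρ) {π : OM L M}
    (hπ : Irreducible π) {l v s : ℕ} (hl : l.Prime)
    (hlv : L.nm (l : Ω) = L.nm ((π : M) : Ω) ^ v) (hs : v < (l - 1) * s) {φ ψ : SM →ₐ[M] Ω}
    (h₁ : D.Ig L.V φ) (h₂ : D.Ig L.V ψ) (g₁ : Fp C.V M (cptS e φ)) (g₂ : Fp C.V M (cptS e ψ))
    (h : ∀ (y : S) (x : OM L M), ((x : M) : Ω) = φ (D.i y) - ψ (D.i y) → π ^ (s + v) ∣ x)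
    {q : ℝ} (hq : L.nm ((π : M) : Ω) ^ s ≤ q) :
    ∃ z' ∈ Dsp L C.V (Nr m q) M,
      Finsupp.single (cptS e φ) 1 - Finsupp.single (cptS e ψ) 1 - l • z' ∈ Pc C Ω := by
  obtain ⟨b, H⟩ := exists_blk e D hπ
  have hfix : ∀ χ : SM →ₐ[M] Ω, Fp C.V M (cptS e χ) → ∀ γ : M.fixingSubgroup,
      Md.ag γ χ = χ := by
    intro χ hχ γ
    refine cptS_inj e ?_
    rw [cptS_ag]
    exact hχ _ γ.2
  obtain ⟨x, hx⟩ := D.exists_sec h₁ (hfix φ g₁)
  obtain ⟨x', hx'⟩ := D.exists_sec h₂ (hfix ψ g₂)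
  have hlv' : L.nm ((((l : OM L M) : M) : Ω)) = L.nm (((π ^ v : OM L M) : M) : Ω) := by
    have e1 : (((l : OM L M) : M) : Ω) = (l : Ω) := by simp
    have e2 : L.nm (((π ^ v : OM L M) : M) : Ω) = L.nm ((π : M) : Ω) ^ v := by
      rw [← L.pow]
      rfl
    rw [e1, e2, hlv]
  obtain ⟨ε, hε⟩ : Associated (π ^ v) (l : OM L M) := by
    refine associated_of_dvd_dvd ?_ ?_
    · rw [dvd_iff_nm, hlv']
    · rw [dvd_iff_nm, hlv']
  obtain ⟨w, hw⟩ := H.sec_small hl (ε := ε) (by rw [← hε, mul_comm]) hs hx hx' (fun y => by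
    refine h y _ ?_
    rw [hx, hx']
    rfl)
  have hs0 : s ≠ 0 := by
    rintro rfl
    omega
  obtain ⟨p, hp, z', hz', he⟩ := AddSubgroup.mem_sup.1 (bd_dsp hc H hs0 hq w)
  refine ⟨z', hz', ?_⟩
  have e3 : (Finsupp.single (cptS e φ) 1 - Finsupp.single (cptS e ψ) 1 - l • z' :
      C.V.pt Ω →₀ ℤ) = (Finsupp.single (cptS e φ) 1 - Finsupp.single (cptS e ψ) 1 -
        l • D.Bd L.V (cptS e) π b s w) + l • p := by
    rw [← he, smul_add]
    abel
  rw [e3]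
  exact (Pc C Ω).add_mem hw ((Pc C Ω).nsmul_mem hp l)

end blk

section mod

variable {F : Type} [Field F] {C : Crv F} {K Ω : Type} [Field K] [CharZero K] [Field Ω]
  [Algebra K Ω] [Algebra F K] [Algebra F Ω] [IsScalarTower F K Ω] [IsAlgClosure K Ω] {L : Ld K Ω}
  (m : Mod C (Ok L) K)

/-- **Small displacements over `M` are `l` times displacements.** `π` is a uniformizer of `M`, `(l) = (π ^ v)`, `v < (l - 1) s`; the points are congruent modulo `π ^ (s + v)`. -/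
theorem sml_pt (M : IntermediateField K Ω) [FiniteDimensional K M] {π : OM L M}
    (hπ : Irreducible π) {l v s : ℕ} (hl : l.Prime)
    (hlv : L.nm (l : Ω) = L.nm ((π : M) : Ω) ^ v) (hs : v < (l - 1) * s) {r : ℝ}
    (hr : ∀ x : OM L M, L.nm ((x : M) : Ω) ≤ r → π ^ (s + v) ∣ x) {q : ℝ}
    (hq : L.nm ((π : M) : Ω) ^ s ≤ q) {y y' : C.V.pt Ω}
    (hy : Fp C.V M y) (hy' : Fp C.V M y') (h : Nr m r y y') :
    ∃ z' ∈ Dsp L C.V (Nr m q) M,
      Finsupp.single y 1 - Finsupp.single y' 1 - l • z' ∈ Pc C Ω := by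
  obtain ⟨φ, ψ, rfl, rfl, -⟩ := id h
  have h0 : 0 ≤ r := by
    obtain ⟨φ', ψ', -, -, h1⟩ := h
    exact (L.nonneg _).trans (h1 0).2.2
  obtain ⟨h1, h2, h3⟩ := (nr_iff m M h0).1 h
  have h4 : IsDedekindDomain (ResidueField (OM L M) ⊗[Ok L] m.R) := ded_mdM m M
  rw [← cptS_ptE m M φ] at hy ⊢
  rw [← cptS_ptE m M ψ] at hy' ⊢
  refine sml_cpt (cmp_mdM m M) hπ hl hlv hs h1 h2 hy hy' (fun y x hx => hr x ?_) hq
  rw [hx]
  exact h3 y

/-- Traces of displacements from unramified extensions are displacements. -/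
theorem dsp_tr {V : Vr F} [Hf V] {nr : V.pt Ω → V.pt Ω → Prop} {M M' : IntermediateField K Ω}
    [FiniteDimensional K M] (h : Em L M M') {z : V.pt Ω →₀ ℤ} (hz : z ∈ Dsp L V nr M') :
    rtr V M M' z ∈ Dsp L V nr M := by
  have hf := h.fd
  rw [dsp_gen] at hz ⊢
  induction hz using AddSubgroup.closure_induction with
  | mem z hz =>
    obtain ⟨M'', y, y', he, h4, h5, h6, rfl⟩ := hz
    have hf' := he.fd
    refine AddSubgroup.subset_closure ⟨M'', y, y', h.trans he, h4, h5, h6, ?_⟩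
    rw [rtr_eq h.1]
    exact (nm_tr h.1 he.1 ((fx_single h4 1).sub (fx_single h5 1))).symm
  | zero => rw [map_zero]; exact AddSubgroup.zero_mem _
  | add a b _ _ ha hb => rw [map_add]; exact AddSubgroup.add_mem _ ha hb
  | neg a _ ha => rw [map_neg]; exact AddSubgroup.neg_mem _ ha

/-- Generators of the displacements. -/
theorem sml_dsp {nr nr' : C.V.pt Ω → C.V.pt Ω → Prop} {l : ℕ} (M : IntermediateField K Ω)
    [FiniteDimensional K M]
    (H : ∀ M' : IntermediateField K Ω, Em L M M' → FiniteDimensional K M' →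
      ∀ y y' : C.V.pt Ω, Fp C.V M' y → Fp C.V M' y' → nr y y' →
      ∃ z' ∈ Dsp L C.V nr' M', Finsupp.single y 1 - Finsupp.single y' 1 - l • z' ∈ Pc C Ω) :
    ∀ z ∈ Dsp L C.V nr M, ∃ z' ∈ Dsp L C.V nr' M, z - l • z' ∈ Pc C Ω := by
  intro z hz
  unfold Dsp at hz
  induction hz using AddSubgroup.closure_induction with
  | mem z hz =>
    obtain ⟨N, M', y, y', hN, h1, h2, hy, hy', hn, rfl⟩ := hz
    have hE : Em L M M' := ⟨h1, N, hN, h2⟩
    have hf : FiniteDimensional K M' := hE.fd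
    obtain ⟨z', h3, h4⟩ := H M' hE hf y y' hy hy' hn
    refine ⟨rtr C.V M M' z', dsp_tr hE h3, ?_⟩
    have h5 := rtr_pc (C := C) h1 h4
    rwa [map_sub, map_nsmul] at h5
  | zero => exact ⟨0, AddSubgroup.zero_mem _, by
      rw [smul_zero, sub_zero]; exact (Pc C Ω).zero_mem⟩
  | add a b _ _ ha hb =>
    obtain ⟨a', h1, h2⟩ := ha
    obtain ⟨b', h3, h4⟩ := hb
    refine ⟨a' + b', AddSubgroup.add_mem _ h1 h3, ?_⟩
    have e : a + b - l • (a' + b') = (a - l • a') + (b - l • b') := by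
      rw [smul_add]
      abel
    rw [e]
    exact (Pc C Ω).add_mem h2 h4
  | neg a _ ha =>
    obtain ⟨a', h1, h2⟩ := ha
    refine ⟨-a', AddSubgroup.neg_mem _ h1, ?_⟩
    have e : -a - l • -a' = -(a - l • a') := by
      rw [smul_neg]
      abel
    rw [e]
    exact (Pc C Ω).neg_mem h2

omit [Algebra F K] [Algebra F Ω] [IsScalarTower F K Ω] in
/-- The values of an unramified extension of `M` are those of `M`. -/
theorem sml_val {M M' : IntermediateField K Ω} [FiniteDimensional K M] (h : Em L M M') {x : Ω}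
    (hx : x ∈ M') : ∃ y ∈ M, L.nm y = L.nm x := by
  obtain ⟨-, N, hN, hle⟩ := h
  obtain ⟨φ, q, hφ⟩ := exists_frob L.toLf M
  obtain ⟨f, hf, hq, -⟩ := Ld.frob_q hφ
  rw [hq] at hφ
  exact Ld.ur_val hφ hf hN (Ld.ur_dvd M (dvd_mul_left N f) (hle hx))

/-- **SMALL at all levels, any ramification index.** `π` is a uniformizer of `M`, `nm l = nm π ^ e`, `e < (l - 1) s`:
`D (s + e) ≤ l D s`. -/
theorem sml_lev {M : IntermediateField K Ω} [FiniteDimensional K M] {π : Ω} (hM : π ∈ M)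
    (h0 : 0 < L.nm π) (h1 : L.nm π < 1)
    (hπ : ∀ x ∈ M, x ≠ 0 → ∃ n : ℤ, L.nm x = L.nm π ^ n) {l e s : ℕ} (hl : l.Prime)
    (he : L.nm (l : Ω) = L.nm π ^ e) (hs : e < (l - 1) * s) :
    ∀ z ∈ Dsp L C.V (Nr m (L.nm π ^ (s + e))) M, ∃ z' ∈ Dsp L C.V (Nr m (L.nm π ^ s)) M,
      z - l • z' ∈ Pc C Ω := by
  refine sml_dsp M fun M' hE hf y y' hy hy' hn => ?_
  let π' : OM L M' := ⟨⟨π, hE.1 hM⟩, h1.le⟩
  have hπ' : ((π' : M') : Ω) = π := rfl
  have hirr : Irreducible π' := by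
    refine irr_of_nm L M' (by rw [hπ']; exact h0) (by rw [hπ']; exact h1) fun x hx => ?_
    have hx0 : ((x : M') : Ω) ≠ 0 := fun h => hx (Subtype.ext (Subtype.ext h))
    obtain ⟨k, hk, hxk⟩ := sml_val hE (x : M').2
    have hk0 : k ≠ 0 := by
      rintro rfl
      rw [L.zero] at hxk
      exact (L.pos hx0).ne hxk
    obtain ⟨n, hn⟩ := hπ k hk hk0
    have hx1 : L.nm ((x : M') : Ω) ≤ 1 := x.2
    rw [← hxk, hn] at hx1
    have hn0 : 0 ≤ n := by
      by_contra hneg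
      rw [not_le] at hneg
      exact absurd hx1 (not_le.2 (one_lt_zpow_of_neg₀ h0 h1 hneg))
    obtain ⟨j, rfl⟩ := Int.eq_ofNat_of_zero_le hn0
    refine ⟨j, ?_⟩
    rw [← hxk, hn, hπ']
    exact zpow_natCast _ _
  refine sml_pt m M' hirr hl (v := e) (s := s) (by rw [hπ', he]) hs ?_ (by rw [hπ']) hy hy' hn
  intro x hx
  rw [dvd_iff_nm]
  have e2 : L.nm (((π' ^ (s + e) : OM L M') : M') : Ω) = L.nm π ^ (s + e) := by
    rw [← L.pow]
    rfl
  rw [e2]
  exact hx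

end mod

end CV
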