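import Pool.Agent.Lib.MP_f80667_ag.Ct.K
import Pool.Agent.Lib.MP_f80667_ag.Cv.EtV

/-!
# The roots of `z ^ (a + 1) - w ^ a z - w ^ (a + 1) q`

`twL_as`: the field `as` of `Rl` for the unramified tower.
-/

set_option autoImplicit false

open BE PE Polynomial IntermediateField

namespace CV

section scale

variable {R : Type} [CommRing R] [IsDomain R]

omit [IsDomain R] in
private theorem asr_X (c w : R) : (X - C c).scaleRoots w = X - C (c * w) := by
  have h := X_add_C_scaleRoots (-c) w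
  rw [C_neg, ← sub_eq_add_neg] at h
  rw [h, sub_eq_add_neg, ← C_neg, neg_mul]

private theorem asr_lin (s : Multiset R) (w : R) :
    lin (s.map (· * w)) = (lin s).scaleRoots w := by
  induction s using Multiset.induction_on with
  | empty => simp [lin]
  | cons c s ih =>
    have h1 : ∀ (d : R) (t : Multiset R), lin (d ::ₘ t) = (X - C d) * lin t := fun d t => by
      simp only [lin, Multiset.map_cons, Multiset.prod_cons]
    rw [Multiset.map_cons, h1, h1, mul_scaleRoots_of_noZeroDivisors, asr_X, ih]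

private theorem asr_g {a : ℕ} (ha : a ≠ 0) (q w : R) :
    (X ^ (a + 1) - X - C q : R[X]).scaleRoots w = X ^ (a + 1) - C (w ^ a) * X - C (w ^ (a + 1) * q) := by
  have hd : (X ^ (a + 1) - X - C q : R[X]).natDegree = a + 1 := by
    have e : (X ^ (a + 1) - X - C q : R[X]) = X ^ (a + 1) - (X + C q) := by ring
    rw [e, natDegree_sub_eq_left_of_natDegree_lt, natDegree_X_pow]
    rw [natDegree_X_pow, natDegree_X_add_C]
    omega
  ext i
  rw [coeff_scaleRoots, hd]
  simp only [coeff_sub, coeff_X_pow, coeff_X, coeff_C, coeff_C_mul]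
  rcases i with _ | _ | i
  · simp
    ring
  · simp [ha]
  · have h1 : ¬ (1 = i + 1 + 1) := by omega
    have h2 : ¬ (i + 1 + 1 = 0) := by omega
    simp only [h1, h2, if_false, sub_zero, mul_zero]
    by_cases h3 : i + 1 = a
    · simp [h3]
    · simp [h3]

end scale

section roots

variable {K Ω : Type} [Field K] [CharZero K] [Field Ω] [Algebra K Ω] [IsAlgClosure K Ω]
  {L : Ld K Ω} {M : IntermediateField K Ω}

/-- The first two terms of the power of a sum. -/
private theorem asr_pow {R : Type} [CommRing R] (z d : R) (a : ℕ) :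
    ∃ r : R, (z + d) ^ (a + 1) = z ^ (a + 1) + (a + 1 : ℕ) * z ^ a * d + d ^ 2 * r := by
  induction a with
  | zero => exact ⟨0, by simp⟩
  | succ a ih =>
    obtain ⟨r, hr⟩ := ih
    refine ⟨(a + 1) * z ^ a + z * r + d * r, ?_⟩
    rw [pow_succ, hr]
    push_cast
    ring

omit [CharZero K] [IsAlgClosure K Ω] in
private theorem asr_root_nm {a : ℕ} (ha : a ≠ 0) {z : Ω} (hz : z ^ a = 1) : L.nm z = 1 := by
  have h := congrArg L.nm hz
  rw [L.pow, L.one] at h
  exact (pow_eq_one_iff_of_nonneg (L.nonneg z) ha).1 h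

omit [CharZero K] [IsAlgClosure K Ω] in
/-- Two roots of unity of order prime to `p` in the same disc are equal. -/
private theorem asr_sep {a : ℕ} (ha : ¬ L.p ∣ a) {z z' : Om L M} (hz : z ^ a = 1)
    (hz' : z' ^ a = 1) (h : L.nm ((z : Ω) - z') < 1) : z = z' := by
  have ha0 : a ≠ 0 := by
    rintro rfl
    exact ha (dvd_zero _)
  obtain ⟨b, rfl⟩ := Nat.exists_eq_succ_of_ne_zero ha0
  obtain ⟨d, hd⟩ : ∃ d, z' = z + d := ⟨z' - z, by ring⟩
  obtain ⟨r, hr⟩ := asr_pow z d b
  have hz1 : L.nm (z : Ω) = 1 := asr_root_nm ha0 (by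
    have := congrArg (fun x : Om L M => (x : Ω)) hz
    simpa using this)
  have hdn : L.nm (d : Ω) < 1 := by
    have e : (d : Ω) = -((z : Ω) - z') := by
      rw [hd]
      push_cast
      ring
    rw [e, L.neg]
    exact h
  have h1 : d * (((b + 1 : ℕ) : Om L M) * z ^ b + d * r) = 0 := by
    have h2 : (z + d) ^ (b + 1) = 1 := by
      rw [← hd]
      exact hz'
    have h3 : z ^ (b + 1) = 1 := hz
    rw [hr, h3] at h2
    linear_combination h2
  have h4 : L.nm ((((b + 1 : ℕ) : Om L M) * z ^ b + d * r : Om L M) : Ω) = 1 := by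
    have e : ((((b + 1 : ℕ) : Om L M) * z ^ b + d * r : Om L M) : Ω) =
        ((b + 1 : ℕ) : Ω) * (z : Ω) ^ b + (d : Ω) * (r : Ω) := by
      push_cast
      ring
    have h5 : L.nm (((b + 1 : ℕ) : Ω) * (z : Ω) ^ b) = 1 := by
      rw [L.mul, L.pow, hz1, one_pow, mul_one]
      exact L.nat_unit ha
    have h6 : L.nm ((d : Ω) * (r : Ω)) < 1 := by
      rw [L.mul]
      exact mul_lt_one_of_nonneg_of_lt_one_left (L.nonneg _) hdn (mem_Om.1 r.2).2
    rw [e, L.add_eq' (by rw [h5]; exact h6), h5]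
  have h5 : (((b + 1 : ℕ) : Om L M) * z ^ b + d * r) ≠ 0 := by
    intro h6
    rw [h6] at h4
    have e : ((0 : Om L M) : Ω) = 0 := rfl
    rw [e, L.zero] at h4
    exact zero_ne_one h4
  rw [hd, (mul_eq_zero.1 h1).resolve_right h5, add_zero]

omit [CharZero K] [IsAlgClosure K Ω] in
/-- An element of norm `1` divides everything. -/
private theorem asr_dvd {x y u : Om L M} (hu : L.nm (u : Ω) = 1) (h : x = y * u) : x ∣ y := by
  have h0 : (u : Ω) ≠ 0 := L.ne_zero (by rw [hu]; exact one_pos)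
  have h1 : (u : Ω)⁻¹ ∈ Om L M :=
    mem_Om.2 ⟨M.inv_mem (mem_Om.1 u.2).1, by rw [L.inv, hu, inv_one]⟩
  refine ⟨⟨_, h1⟩, ?_⟩
  rw [h, mul_assoc]
  have e : u * (⟨_, h1⟩ : Om L M) = 1 := Subtype.ext (mul_inv_cancel₀ h0)
  rw [e, mul_one]

omit [CharZero K] [IsAlgClosure K Ω] in
/-- Hensel's lemma for `z ^ (a + 1) - z - q`. -/
private theorem asr_hens [FiniteDimensional K M] {a : ℕ} (ha : a ≠ 0) {q x : Om L M}
    (hq : L.nm (q : Ω) < 1) (hx : L.nm (((x : Ω) ^ (a + 1) - x)) < 1)
    (hd : L.nm (((a + 1 : ℕ) : Ω) * (x : Ω) ^ a - 1) = 1) :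
    ∃ y : Om L M, y ^ (a + 1) - y - q = 0 ∧ L.nm ((y : Ω) - x) < 1 := by
  have hmon : (X ^ (a + 1) - X - C (q : Ω) : Polynomial Ω).Monic := by
    have e : (X ^ (a + 1) - X - C (q : Ω) : Polynomial Ω) = X ^ (a + 1) - (X + C (q : Ω)) := by ring
    rw [e]
    refine (monic_X_pow _).sub_of_left ?_
    rw [degree_X_pow, degree_X_add_C]
    exact_mod_cast (show 1 < a + 1 by omega)
  obtain ⟨y, hy, hy0, hyx⟩ := L.hens M inferInstance (X ^ (a + 1) - X - C (q : Ω)) hmon (by
    intro i
    simp only [coeff_sub, coeff_X_pow, coeff_X, coeff_C]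
    have h1 : ∀ P : Prop, ∀ [Decidable P], (if P then (1 : Ω) else 0) ∈ M ∧
        L.nm (if P then (1 : Ω) else 0) ≤ 1 := by
      intro P _
      split_ifs
      · exact ⟨M.one_mem, L.one.le⟩
      · exact ⟨M.zero_mem, by rw [L.zero]; exact zero_le_one⟩
    have h2 : (if i = 0 then (q : Ω) else 0) ∈ M ∧ L.nm (if i = 0 then (q : Ω) else 0) ≤ 1 := by
      split_ifs
      · exact mem_Om.1 q.2
      · exact ⟨M.zero_mem, by rw [L.zero]; exact zero_le_one⟩
    have h3 := h1 (i = a + 1)
    have h4 := h1 (1 = i)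
    exact ⟨M.sub_mem (M.sub_mem h3.1 h4.1) h2.1, (L.sub _ _).trans (max_le ((L.sub _ _).trans
      (max_le h3.2 h4.2)) h2.2)⟩) (x : Ω) (mem_Om.1 x.2).1 (mem_Om.1 x.2).2 (by
    simp only [eval_sub, eval_pow, eval_X, eval_C]
    exact (L.sub _ _).trans_lt (max_lt hx hq)) (by
    simp only [derivative_sub, derivative_X_pow, derivative_X, derivative_C, sub_zero, eval_sub,
      eval_mul, eval_pow, eval_X, eval_C, eval_one]
    exact hd)
  have hy1 : L.nm y ≤ 1 := by
    have h1 := (L.add (y - x) x).trans (max_le hyx.le (mem_Om.1 x.2).2)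
    rwa [sub_add_cancel] at h1
  refine ⟨⟨y, mem_Om.2 ⟨hy, hy1⟩⟩, Subtype.ext ?_, hyx⟩
  simpa using hy0

omit [CharZero K] [IsAlgClosure K Ω] in
private theorem asr_coe (x : Om L M) (n : ℕ) : ((x ^ n : Om L M) : Ω) = (x : Ω) ^ n := rfl

omit [CharZero K] [IsAlgClosure K Ω] in
private theorem asr_core [FiniteDimensional K M] {a : ℕ} {s : Multiset (Om L M)} {q ϖ : Om L M}
    (ha : ¬ L.p ∣ a) (hs : Mun a s) (hqn : L.nm (q : Ω) < 1)
    (hϖ : ∀ x : Om L M, L.nm (x : Ω) < 1 → ϖ ∣ x) :
    ∃ (u : Om L M) (s' : Multiset (Om L M × Om L M)), q ∣ u ∧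
      s'.map Prod.fst = s ∧ (∀ v ∈ s', q ∣ v.2 ∧ ϖ * q ∣ a * v.2 - q) ∧
      ∀ w, lin ((u * w) ::ₘ s'.map fun v => (v.1 + v.2) * w) =
        Polynomial.X ^ (a + 1) - C (w ^ a) * Polynomial.X - C (w ^ (a + 1) * q) := by
  have ha0 : a ≠ 0 := by
    rintro rfl
    exact ha (dvd_zero _)
  have hna : L.nm ((a : ℕ) : Ω) = 1 := L.nat_unit ha
  -- the root in the disc of `0`
  obtain ⟨u, hu0, hu1⟩ := asr_hens (L := L) (M := M) ha0 (q := q) (x := 0) hqn (by
    have e : ((0 : Om L M) : Ω) ^ (a + 1) - ((0 : Om L M) : Ω) = 0 := by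
      rw [ZeroMemClass.coe_zero, zero_pow (Nat.succ_ne_zero a), sub_zero]
    rw [e, L.zero]
    exact one_pos) (by
    rw [ZeroMemClass.coe_zero, zero_pow ha0, mul_zero, zero_sub, L.neg, L.one])
  rw [ZeroMemClass.coe_zero, sub_zero] at hu1
  -- the roots in the discs of the roots of unity
  have hz1 : ∀ z ∈ s, (z : Ω) ^ a = 1 := fun z hz =>
    congrArg (fun x : Om L M => (x : Ω)) (hs.2.1 z hz)
  have hz : ∀ z ∈ s, ∃ y : Om L M, (z + y) ^ (a + 1) - (z + y) - q = 0 ∧ L.nm (y : Ω) < 1 := by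
    intro z hz
    obtain ⟨y, h1, h2⟩ := asr_hens (L := L) (M := M) ha0 (q := q) (x := z) hqn
      (by rw [pow_succ, hz1 z hz, one_mul, sub_self, L.zero]; exact one_pos)
      (by
        rw [hz1 z hz, mul_one, Nat.cast_succ, add_sub_cancel_right]
        exact hna)
    refine ⟨y - z, ?_, ?_⟩
    · rw [add_sub_cancel]
      exact h1
    · rw [AddSubgroupClass.coe_sub]
      exact h2
  choose! y hy0 hy1 using hz
  have hqu : q ∣ u := by
    have e : -q = u * (1 - u ^ a) := by linear_combination hu0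
    have h1 : L.nm ((1 - u ^ a : Om L M) : Ω) = 1 := by
      have e1 : ((1 - u ^ a : Om L M) : Ω) = 1 - (u : Ω) ^ a := rfl
      have h2 : L.nm (-(u : Ω) ^ a) < 1 := by
        rw [L.neg, L.pow]
        exact pow_lt_one₀ (L.nonneg _) hu1 ha0
      rw [e1, sub_eq_add_neg, L.one_add h2]
    have h2 := asr_dvd h1 e
    exact (neg_dvd).1 h2
  have hqy : ∀ z ∈ s, q ∣ y z ∧ ϖ * q ∣ a * y z - q := by
    intro z hz
    obtain ⟨r, hr⟩ := asr_pow z (y z) a
    have hza : z ^ a = 1 := hs.2.1 z hz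
    have e : q = y z * (a + y z * r) := by
      have h1 := hy0 z hz
      rw [hr, pow_succ, hza] at h1
      push_cast at h1
      linear_combination -h1
    have h1 : L.nm ((a + y z * r : Om L M) : Ω) = 1 := by
      have e1 : ((a + y z * r : Om L M) : Ω) = (a : Ω) + (y z : Ω) * (r : Ω) := by
        push_cast
        rfl
      have h2 : L.nm ((y z : Ω) * (r : Ω)) < 1 := by
        rw [L.mul]
        exact mul_lt_one_of_nonneg_of_lt_one_left (L.nonneg _) (hy1 z hz) (mem_Om.1 r.2).2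
      rw [e1, L.add_eq' (by rw [hna]; exact h2), hna]
    have h2 : q ∣ y z := asr_dvd h1 e
    refine ⟨h2, ?_⟩
    have e2 : (a : Om L M) * y z - q = -(y z * y z * r) := by
      linear_combination -e
    rw [e2, dvd_neg]
    exact (mul_dvd_mul (hϖ _ (hy1 z hz)) h2).mul_right r
  -- all roots
  have hsn : s.Nodup := by
    have h1 : s.map (fun z : Om L M => (z : Ω)) = (X ^ a - 1 : Polynomial Ω).roots := by
      have h2 := hs.2.2 1
      simp only [mul_one, Multiset.map_id', one_pow] at h2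
      have h3 := congrArg (Polynomial.map (Om L M).subtype) h2
      have h4 : Polynomial.map (Om L M).subtype (lin s) =
          ((s.map (fun z : Om L M => (z : Ω))).map fun c => X - C c).prod := by
        rw [lin, Polynomial.map_multiset_prod, Multiset.map_map, Multiset.map_map]
        congr 1
        refine Multiset.map_congr rfl fun z _ => ?_
        simp
      rw [h4] at h3
      have h5 : Polynomial.map (Om L M).subtype (X ^ a - C 1) = (X ^ a - 1 : Polynomial Ω) := by
        simp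
      rw [h5] at h3
      rw [← h3, Polynomial.roots_multiset_prod_X_sub_C]
    have h2 : (X ^ a - 1 : Polynomial Ω).Separable := by
      rw [Polynomial.X_pow_sub_one_separable_iff]
      exact L.ne_zero (by rw [hna]; exact one_pos)
    have h3 := Polynomial.nodup_roots h2
    rw [← h1] at h3
    exact Multiset.Nodup.of_map _ h3
  have hzn : ∀ z ∈ s, L.nm (z : Ω) = 1 := fun z hz => asr_root_nm ha0 (hz1 z hz)
  have hmn : (u ::ₘ s.map fun z => z + y z).Nodup := by
    refine Multiset.nodup_cons.2 ⟨fun h => ?_, Multiset.Nodup.map_on (fun z hz z' hz' h => ?_) hsn⟩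
    · obtain ⟨z, hz, e⟩ := Multiset.mem_map.1 h
      have h1 : L.nm ((z : Ω) + (y z : Ω)) = 1 := by
        rw [L.add_eq' (by rw [hzn z hz]; exact hy1 z hz), hzn z hz]
      have h2 : (u : Ω) = (z : Ω) + (y z : Ω) := by
        rw [← e]
        rfl
      rw [h2, h1] at hu1
      exact lt_irrefl _ hu1
    · refine asr_sep ha (hs.2.1 z hz) (hs.2.1 z' hz') ?_
      have e : (z : Ω) - (z' : Ω) = (y z' : Ω) - (y z : Ω) := by
        have h2 : (z : Ω) + (y z : Ω) = (z' : Ω) + (y z' : Ω) :=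
          congrArg (fun x : Om L M => (x : Ω)) h
        linear_combination h2
      rw [e]
      exact (L.sub _ _).trans_lt (max_lt (hy1 z' hz') (hy1 z hz))
  have hg0 : (X ^ (a + 1) - X - C q : Polynomial (Om L M)).Monic := by
    have e : (X ^ (a + 1) - X - C q : Polynomial (Om L M)) = X ^ (a + 1) - (X + C q) := by ring
    rw [e]
    refine (monic_X_pow _).sub_of_left ?_
    rw [degree_X_pow, degree_X_add_C]
    exact_mod_cast (show 1 < a + 1 by omega)
  have hgd : (X ^ (a + 1) - X - C q : Polynomial (Om L M)).natDegree = a + 1 := by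
    have e : (X ^ (a + 1) - X - C q : Polynomial (Om L M)) = X ^ (a + 1) - (X + C q) := by ring
    rw [e, natDegree_sub_eq_left_of_natDegree_lt, natDegree_X_pow]
    rw [natDegree_X_pow, natDegree_X_add_C]
    omega
  have hle : (u ::ₘ s.map fun z => z + y z) ≤
      (X ^ (a + 1) - X - C q : Polynomial (Om L M)).roots := by
    rw [Multiset.le_iff_subset hmn]
    intro x hx
    rw [mem_roots hg0.ne_zero, IsRoot.def, eval_sub, eval_sub, eval_pow, eval_X, eval_C]
    rcases Multiset.mem_cons.1 hx with rfl | hx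
    · exact hu0
    · obtain ⟨z, hz, rfl⟩ := Multiset.mem_map.1 hx
      exact hy0 z hz
  have hcard : (u ::ₘ s.map fun z => z + y z).card = a + 1 := by
    rw [Multiset.card_cons, Multiset.card_map, hs.1]
  have heq : (u ::ₘ s.map fun z => z + y z) =
      (X ^ (a + 1) - X - C q : Polynomial (Om L M)).roots := by
    exact Multiset.eq_of_le_of_card_le hle ((card_roots' _).trans (hgd.le.trans hcard.ge))
  have hlin : lin (u ::ₘ s.map fun z => z + y z) = X ^ (a + 1) - X - C q := by
    unfold lin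
    rw [heq]
    refine prod_multiset_X_sub_C_of_monic_of_roots_card_eq hg0 ?_
    rw [← heq, hcard, hgd]
  refine ⟨u, s.map fun z => (z, y z), hqu, ?_, fun v hv => ?_, fun w => ?_⟩
  · rw [Multiset.map_map]
    exact Multiset.map_id' s
  · obtain ⟨z, hz, rfl⟩ := Multiset.mem_map.1 hv
    exact hqy z hz
  · have e : ((u * w) ::ₘ (s.map fun z => (z, y z)).map fun v => (v.1 + v.2) * w) =
        (u ::ₘ s.map fun z => z + y z).map (· * w) := by
      rw [Multiset.map_cons, Multiset.map_map, Multiset.map_map]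
      rfl
    rw [e, asr_lin, hlin, asr_g ha0]

/-- **The field `as`.** Proof: Hensel's lemma gives a root of `z ^ (a + 1) - z - q` in the disc of `0` and in the disc of every root
of unity; these are all roots; then scale by `w`. -/
theorem twL_as {π : K} (hπ : Uf L π) {a : ℕ} {s : Multiset ((twL L π hπ).O M)}
    (q : (twL L π hπ).O M) (hM : (twL L π hπ).U M) (ha : ¬ L.p ∣ a) (hs : Mun a s)
    (hq : (twL L π hπ).π M ∣ q) :
    ∃ (u : (twL L π hπ).O M) (s' : Multiset ((twL L π hπ).O M × (twL L π hπ).O M)), q ∣ u ∧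
      s'.map Prod.fst = s ∧ (∀ v ∈ s', q ∣ v.2 ∧ (twL L π hπ).π M * q ∣ a * v.2 - q) ∧
      ∀ w, lin ((u * w) ::ₘ s'.map fun v => (v.1 + v.2) * w) =
        Polynomial.X ^ (a + 1) - C (w ^ a) * Polynomial.X - C (w ^ (a + 1) * q) := by
  have hU : Um L M := hM
  have hfd : FiniteDimensional K M := hU.fd
  have hqn : L.nm ((show Om L M from q : Om L M) : Ω) < 1 := by
    have h1 := (twL_dvd hπ (show Om L M from q) 1).1 (by rw [pow_one]; exact hq)
    rw [pow_one] at h1
    exact h1.trans_lt hπ.lt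
  exact asr_core (L := L) (M := M) (s := s) (q := q) (ϖ := (twL L π hπ).π M) ha hs hqn
    (fun x hx => by
      have h1 : L.nm (x : Ω) ≤ L.nm (algebraMap K Ω π) ^ (0 + 1) :=
        hU.lt hπ (mem_Om.1 x.2).1 (by rw [pow_zero]; exact hx)
      have h2 := (twL_dvd hπ x 1).2 (by rw [zero_add] at h1; exact h1)
      rw [pow_one] at h2
      exact h2)

end roots

end CV
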