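import Pool.Agent.Lib.MP_f80667_ag.Cv.Cong

/-! # Congruences for a uniformizer `w` with `e(w) ≤ p - 2`

* `prime_pow_cong_e`: `(X - s)^p ≡ X^(p-1) (X - p s)` modulo `w^(e + 2 i)` for `w^i ∣ s`, `w^e ∣ p`,
  `e + 2 ≤ p`, `i ≥ 1`.
* `Prh n w`: the Prouhet pair, two multisets of multiples of `w` whose products of linear factors
  are congruent modulo `w^n` and have the same number of elements for `n ≥ 1`.
* `sum_Pr`: the difference of the sums of a function over the two multisets is, up to the sign
  `(-1)^n`, its `n`-th finite difference with step `w`.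
* `diff_mem`: if congruences of products of linear factors give relations between the values of
  `f`, the `n`-th finite differences of `f` are in the group of level `n`. -/

set_option autoImplicit false

open Polynomial Finset

namespace CV

variable {R : Type*} [CommRing R]

/-- The `p`-th power congruence for ramification `e ≤ p - 2`. -/
theorem prime_pow_cong_e (p : ℕ) (hp : p.Prime) (e : ℕ) (he : e + 2 ≤ p) (w : R)
    (hw : w ^ e ∣ (p : R)) (i : ℕ) (hi : i ≠ 0) (he0 : e ≠ 0) (s : R) (hs : w ^ i ∣ s) :
    C (w ^ (e + 2 * i)) ∣ (X - C s) ^ p - X ^ (p - 1) * (X - C ((p : R) * s)) := by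
  have hp2 : p ≠ 2 := by omega
  obtain ⟨g, hg⟩ := prime_pow_eq p hp hp2 s
  obtain ⟨d, rfl⟩ := hs
  obtain ⟨c, hc⟩ := hw
  rw [hg]
  refine dvd_add (Dvd.dvd.mul_right (_root_.map_dvd C ?_) g) (_root_.map_dvd C ?_)
  · refine ⟨c * d ^ 2, ?_⟩
    rw [hc]
    ring
  · have h1 : w ^ (e + 2 * i) ∣ w ^ (i * p) := by
      refine pow_dvd_pow _ ?_
      obtain ⟨j, rfl⟩ := Nat.exists_eq_succ_of_ne_zero hi
      have : (j + 1) * (e + 2) ≤ (j + 1) * p := Nat.mul_le_mul_left _ he
      have h2 : (j + 1) * (e + 2) = e + 2 * (j + 1) + j * e := by ring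
      have h3 : j.succ = j + 1 := rfl
      rw [h3]
      omega
    refine h1.trans ⟨(-1) ^ p * d ^ p, ?_⟩
    rw [neg_pow, mul_pow, ← pow_mul]
    ring

/-- The Prouhet pair of multisets. -/
def Prh (w : R) : ℕ → Multiset R × Multiset R
  | 0 => ({0}, 0)
  | n + 1 => ((Prh w n).1 + (Prh w n).2.map (· + w), (Prh w n).2 + (Prh w n).1.map (· + w))

theorem Pr_dvd (w : R) (n : ℕ) :
    (∀ c ∈ (Prh w n).1, w ∣ c) ∧ (∀ c ∈ (Prh w n).2, w ∣ c) := by
  induction n with
  | zero =>
    refine ⟨fun c hc => ?_, fun c hc => ?_⟩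
    · have : c = 0 := by simpa [Prh] using hc
      rw [this]
      exact dvd_zero w
    · simp [Prh] at hc
  | succ n ih =>
    refine ⟨fun c hc => ?_, fun c hc => ?_⟩
    · rcases Multiset.mem_add.1 hc with hc | hc
      · exact ih.1 c hc
      · obtain ⟨d, hd, rfl⟩ := Multiset.mem_map.1 hc
        exact dvd_add (ih.2 d hd) dvd_rfl
    · rcases Multiset.mem_add.1 hc with hc | hc
      · exact ih.2 c hc
      · obtain ⟨d, hd, rfl⟩ := Multiset.mem_map.1 hc
        exact dvd_add (ih.1 d hd) dvd_rfl

theorem Pr_card (w : R) (n : ℕ) (hn : n ≠ 0) : (Prh w n).1.card = (Prh w n).2.card := by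
  obtain ⟨m, rfl⟩ := Nat.exists_eq_succ_of_ne_zero hn
  simp only [Prh, Multiset.card_add, Multiset.card_map]
  exact add_comm _ _

/-- The product of the linear factors of a multiset. -/
noncomputable def lin (s : Multiset R) : R[X] := (s.map fun c => X - C c).prod

theorem lin_add (s t : Multiset R) : lin (s + t) = lin s * lin t := by
  simp only [lin, Multiset.map_add, Multiset.prod_add]

theorem lin_monic (s : Multiset R) : (lin s).Monic :=
  monic_multiset_prod_of_monic _ _ fun c _ => monic_X_sub_C c

theorem lin_natDegree [Nontrivial R] (s : Multiset R) : (lin s).natDegree = s.card := by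
  rw [lin, natDegree_multiset_prod_X_sub_C_eq_card]

theorem lin_shift (s : Multiset R) (w : R) :
    lin (s.map (· + w)) = (lin s).comp (X - C w) := by
  simp only [lin, Multiset.map_map, Polynomial.multiset_prod_comp, Function.comp_apply]
  congr 1
  refine Multiset.map_congr rfl fun c _ => ?_
  simp only [sub_comp, X_comp, C_comp, C_add]
  ring

/-- A polynomial and its shift by `w` are congruent modulo `w`. -/
theorem shift_cong (g : R[X]) (w : R) : C w ∣ g.comp (X - C w) - g := by
  have h : (X - C w) - X ∣ g.comp (X - C w) - g := by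
    have := sub_dvd_eval_sub (X - C w) (X : R[X]) (g.map C)
    rw [eval_map, eval_map, eval₂_C_X] at this
    exact this
  have h2 : (X - C w) - X = -C w := by ring
  rw [h2, neg_dvd] at h
  exact h

/-- The two products of the Prouhet pair are congruent modulo `w ^ n`. -/
theorem Pr_cong (w : R) (n : ℕ) : C (w ^ n) ∣ lin (Prh w n).1 - lin (Prh w n).2 := by
  induction n with
  | zero => simp
  | succ n ih =>
    simp only [Prh]
    rw [lin_add, lin_add, lin_shift, lin_shift]
    set a := lin (Prh w n).1
    set b := lin (Prh w n).2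
    obtain ⟨g, hg⟩ := ih
    have ha : a = b + C (w ^ n) * g := by rw [← hg]; ring
    obtain ⟨k, hk⟩ := shift_cong g w
    obtain ⟨l, hl⟩ := shift_cong b w
    have hk' : g.comp (X - C w) = g + C w * k := by rw [← hk]; ring
    have hl' : b.comp (X - C w) = b + C w * l := by rw [← hl]; ring
    refine ⟨g * l - b * k, ?_⟩
    rw [ha, add_comp, mul_comp, C_comp, hk', hl', pow_succ, C_mul]
    ring

/-- The sums over the two multisets and the finite differences. -/
theorem sum_Pr {G : Type*} [AddCommGroup G] (w : R) (n : ℕ) (f : R → G) :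
    ((Prh w n).1.map f).sum - ((Prh w n).2.map f).sum = (-1 : ℤ) ^ n • ((fwdDiff w)^[n] f) 0 := by
  induction n generalizing f with
  | zero => simp [Prh]
  | succ n ih =>
    simp only [Prh, Multiset.map_add, Multiset.sum_add, Multiset.map_map]
    have h1 := ih f
    have h2 := ih (f ∘ (· + w))
    rw [Function.iterate_succ_apply]
    have h3 : (fwdDiff w f) = (f ∘ (· + w)) - f := by
      ext x
      simp [fwdDiff]
    have h4 := ih (fwdDiff w f)
    have h5 : ∀ s : Multiset R, (s.map (fwdDiff w f)).sum =
        (s.map (f ∘ (· + w))).sum - (s.map f).sum := by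
      intro s
      induction s using Multiset.induction_on with
      | empty => simp
      | cons a s ih =>
        rw [Multiset.map_cons, Multiset.sum_cons, ih, Multiset.map_cons, Multiset.sum_cons,
          Multiset.map_cons, Multiset.sum_cons, h3, Pi.sub_apply]
        abel
    rw [h5, h5] at h4
    rw [pow_succ, mul_smul, neg_smul, one_smul, smul_neg, ← h4]
    abel

/-- If the congruences of products of linear factors modulo `w ^ n` give relations in `V` between
the values of `f`, then the `n`-th finite difference of `f` with step `w` is in `V`. -/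
theorem diff_mem {G : Type*} [AddCommGroup G] (w : R) (n : ℕ) (hn : n ≠ 0) (f : R → G)
    (V : AddSubgroup G)
    (hCL : ∀ s t : Multiset R, s.card = t.card → (∀ c ∈ s, w ∣ c) → (∀ c ∈ t, w ∣ c) →
      C (w ^ n) ∣ lin s - lin t → (s.map f).sum - (t.map f).sum ∈ V) :
    ∑ k ∈ range (n + 1), ((-1 : ℤ) ^ (n - k) * n.choose k) • f (k * w) ∈ V := by
  have h := hCL _ _ (Pr_card w n hn) (Pr_dvd w n).1 (Pr_dvd w n).2 (Pr_cong w n)
  rw [sum_Pr, fwdDiff_iter_eq_sum_shift] at h
  have h2 := V.zsmul_mem h ((-1) ^ n)
  rw [smul_smul, ← mul_pow] at h2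
  simp only [one_pow, one_smul, zero_add, nsmul_eq_mul, mul_neg,
    mul_one, neg_neg] at h2
  exact h2

end CV
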