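import Pool.Agent.Lib.MP_f80667_ag.Cv.Hat

/-!
The bounded form of the completed statement: if `N` times the class of a family in the Albanese kernel is divisible by all
numbers with all prime factors in `Λ` and the components of the push-forwards of `z` at `Λ` are in the image of `Δ`, so are
those of `N z`.
-/

open ZC BE PE Polynomial IntermediateField IsDedekindDomain NumberField

namespace CV

section nm

variable {G : Type} [AddCommGroup G]

/-- The multiple `N x` of an element of the completion. -/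
def nML (N : ℕ) (x : LHat G) : LHat G := LHat.map (nsmulAddMonoidHom N) x

theorem nML_rep (N : ℕ) {x : LHat G} {m : ℕ+} {a : G} (h : x.Rep m a) :
    (nML N x).Rep m (N • a) := by
  have h1 : (LHat.map (nsmulAddMonoidHom (α := G) N) x).Rep m (nsmulAddMonoidHom (α := G) N a) :=
    LHat.Rep.map _ h
  exact h1

end nm

variable {F : Type} [Field F] [NumberField F] {ι : Type} {V : ι → Vr F}

/-- The Albanese kernel over `K` is `n`-divisible up to `N`. -/
def BdP (K : Type) [Field K] [Algebra F K] (V : ι → Vr F) (N n : ℕ) : Prop :=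
  ∀ z : Zc (Vpi V) K, AlbP z → ∃ z' : Zc (Vpi V) K, AlbP z' ∧ N • z.cl = n • z'.cl

variable (o : ∀ i, Bp (V i)) [Fintype ι]

include o in
/-- The bounded form of the completed statement. -/
theorem imDeS_bd {Λ : Set ℕ} {N : ℕ} (hd : ∀ n : ℕ, n ≠ 0 → Sf Λ n → ∀ c : Fam (Vpi V), AlbPA c →
      ∃ c' : Fam (Vpi V), N • c.cl = n • c'.cl)
    {z : LHat (FA (Vpi V))} {z' : ∀ i, LHat (FA (V i))} (h : ∀ i, IsPs i z (z' i))
    (h' : ∀ i, ImDeS Λ (z' i)) : ImDeS Λ (nML N z) := by
  choose x hx using h'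
  refine ⟨nML N (lsum fun i => LHat.map ((sc o i).gp F) (x i)), fun m hm => ?_⟩
  obtain ⟨a, ha⟩ := z.exists_rep m
  obtain ⟨c, rfl⟩ := clA_surj a
  choose b b' hb hr hs using fun i => hx i m hm
  choose w hw using fun i => rep_sub (hs i) (h i m c ha)
  obtain ⟨c', hc'⟩ := hd (m : ℕ) m.ne_zero hm _ (albPA_piA o c)
  have hbc : IsBcF (V := Vpi V) (∑ i, (sc o i).dz F (b i) : Dz (Vpi V) F)
      (∑ i, (sc o i).ad (b' i) : AdF (Vpi V)) := isBcF_sum _ fun i _ => (sc o i).isBcF (hb i)
  have hbN : IsBcF (V := Vpi V)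
      (∑ _k ∈ Finset.range N, (∑ i, (sc o i).dz F (b i) : Dz (Vpi V) F) : Dz (Vpi V) F)
      (∑ _k ∈ Finset.range N, (∑ i, (sc o i).ad (b' i) : AdF (Vpi V)) : AdF (Vpi V)) :=
    isBcF_sum _ fun _ _ => hbc
  refine ⟨_, _, hbN, ?_, ?_⟩
  · have e := rep_lsum fun i => (hr i).map ((sc o i).gp F)
    have e1 : ∑ i, (sc o i).gp F (b i).cl =
        Gp.clsH (Vpi V) F (∑ i, (sc o i).dz F (b i) : Dz (Vpi V) F) := by
      rw [map_sum]
      rfl
    rw [e1] at e
    have e2 := nML_rep N e
    have e3 : N • Gp.clsH (Vpi V) F (∑ i, (sc o i).dz F (b i) : Dz (Vpi V) F) =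
        Gp.clsH (Vpi V) F (∑ _k ∈ Finset.range N, (∑ i, (sc o i).dz F (b i) : Dz (Vpi V) F)) := by
      rw [Finset.sum_const, Finset.card_range, map_nsmul]
    rw [e3] at e2
    exact e2
  · have e0 : N • clH (Vpi V) (piA o c) = (m : ℕ) • clH (Vpi V) c' := hc'
    have e1 : ∀ i, clH (Vpi V) ((sc o i).ad (b' i)) =
        clH (Vpi V) ((sc o i).ad ((pr i).ad c)) + (m : ℕ) • (sc o i).fa (w i) := by
      intro i
      rw [← Mo.fa_cl, ← Mo.fa_cl, ← map_nsmul, ← map_add]
      exact congrArg (sc o i).fa (hw i)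
    have e2 : clH (Vpi V) (∑ _k ∈ Finset.range N, (∑ i, (sc o i).ad (b' i) : AdF (Vpi V))) =
        N • clH (Vpi V) c + (m : ℕ) • (N • ∑ i, (sc o i).fa (w i) - clH (Vpi V) c') := by
      rw [Finset.sum_const, Finset.card_range, map_nsmul, map_sum,
        Finset.sum_congr rfl fun i _ => e1 i, Finset.sum_add_distrib, ← map_sum,
        ← Finset.smul_sum, smul_sub, ← e0, piA_apply, map_sub, smul_add, smul_sub,
        smul_comm N (m : ℕ)]
      abel
    have e6 : (nML N z).Rep m
        (clH (Vpi V) (∑ _k ∈ Finset.range N, (∑ i, (sc o i).ad (b' i) : AdF (Vpi V)))) := by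
      rw [e2]
      exact rep_add (nML_rep N ha) _
    exact e6

section dz

variable {W : Vr F} {K : Type} [Field K] [Algebra F K]

/-- The multiple of a cycle. -/
private noncomputable def hbm (N : ℕ) (z : Zc W K) : Zc W K :=
  N • (show Dz W K from z)

omit [NumberField F] in
private theorem hbm_cl (N : ℕ) (z : Zc W K) : (hbm N z).clN = N • z.clN :=
  map_nsmul (Gb.clsH W K) N (show Dz W K from z)

omit [Fintype ι] in
private theorem hbm_psh (N : ℕ) (i : ι) (z : Zc (Vpi V) K) :
    (psh i (hbm N z)).clN = N • (psh i z).clN :=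
  map_nsmul ((Gb.clsH (V i) K).comp ((pr i).dz K)) N (show Dz (Vpi V) K from z)

end dz

omit [Fintype ι] in
/-- The bounded form for families. -/
theorem fam_bdP {N n : ℕ} (hn : Odd n) (h : ∀ v : HeightOneSpectrum (𝓞 F), BdP (FK F v) V N n)
    (c : Fam (Vpi V)) (hc : AlbPA c) : ∃ c' : Fam (Vpi V), AlbPA c' ∧ N • c.cl = n • c'.cl := by
  have h1 : ∀ v, AlbP (c.f v) := fun v i => congrFun (congrArg Prod.fst (hc i)) v
  choose g hg using fun v => h v (c.f v) (h1 v)
  have h2 : ∀ v i, (psh i (c.i v)).clN = 0 := fun v i => congrFun (congrArg Prod.snd (hc i)) v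
  refine ⟨(g, fun v => hbm N (c.i v)),
    fun i => Prod.ext (funext fun v => (hg v).1 i) (funext fun v => ?_),
    Prod.ext (funext fun v => (hg v).2) (funext fun v => ?_)⟩
  · change (psh i (hbm N (c.i v))).clN = 0
    rw [hbm_psh, h2 v i, smul_zero]
  · change N • (c.i v).clN = n • (hbm N (c.i v)).clN
    rw [hbm_cl]
    obtain ⟨k, rfl⟩ := hn
    rw [add_smul, one_smul, mul_smul, smul_comm 2 k, smul_comm 2 N, clN_two, smul_zero, smul_zero,
      zero_add]

end CV
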