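import Pool.Agent.Lib.MP_f80667_ag.Cv.Gr
import Pool.Agent.Lib.MP_f80667_ag.Cv.HatB

/-!
Products of curves: bounded obstruction, from the local theorem `LcB` to the completions and the number fields.

* `BdG V K Ω N n`: `N` times the Albanese kernel is contained in `n` times the Albanese kernel.
* `LcB C`: the local theorem for curves with good reduction over a local field, any ramification index.
* `bdP_pot`: potentially good reduction over the completion of a number field.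
* `bdP_glob`: number fields, one `N` for all places, the adelic Albanese kernel and the completed statement.
-/

open ZC BE PE Polynomial IntermediateField IsDedekindDomain NumberField

namespace CV

section bdg

variable {F : Type} [Field F] {ι : Type}

/-- `N` times the Albanese kernel over `K` is contained in `n` times the Albanese kernel (`Ω` an algebraic closure of `K`). -/
def BdG (V : ι → Vr F) (K : Type) [Field K] [Algebra F K] (Ω : Type) [Field Ω] [Algebra K Ω]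
    [Algebra F Ω] [IsScalarTower F K Ω] (N n : ℕ) : Prop :=
  ∀ z ∈ (Vpi V).D0 K Ω, (∀ i, Finsupp.mapDomain ((pr i).f Ω) z ∈ (V i).ratEq K Ω) →
    ∃ z' ∈ (Vpi V).D0 K Ω, (∀ i, Finsupp.mapDomain ((pr i).f Ω) z' ∈ (V i).ratEq K Ω) ∧
      N • z - n • z' ∈ (Vpi V).ratEq K Ω

/-- The bounded local theorem: any ramification index; `n` is odd if the residue characteristic is `2`. -/
def LcB (C : ι → Crv F) : Prop :=
  ∀ (K Ω : Type) [Field K] [Field Ω] [Algebra K Ω] [Algebra F K] [Algebra F Ω]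
    [IsScalarTower F K Ω] [CharZero K] [IsAlgClosure K Ω] (L : Ld K Ω),
    (∀ i, Nonempty (Mod (C i) (Ok L) K)) →
    ∃ N : ℕ, N ≠ 0 ∧ ∀ n : ℕ, n ≠ 0 → (Odd n ∨ L.p ≠ 2) → BdG (fun i => (C i).V) K Ω N n

variable {V : ι → Vr F} {K : Type} [Field K] [Algebra F K]

theorem BdG.mul {Ω : Type} [Field Ω] [Algebra K Ω] [Algebra F Ω] [IsScalarTower F K Ω] {N n : ℕ}
    (h : BdG V K Ω N n) (a : ℕ) : BdG V K Ω (a * N) n := by
  intro z hz ha
  obtain ⟨z', hz', ha', hr⟩ := h z hz ha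
  refine ⟨a • z', nsmul_mem hz' a, fun i => ?_, ?_⟩
  · have e : Finsupp.mapDomain.addMonoidHom ((pr i).f Ω) (a • z') ∈ (V i).ratEq K Ω := by
      rw [map_nsmul]
      exact nsmul_mem (ha' i) a
    exact e
  · have e : (a * N) • z - n • a • z' = a • (N • z - n • z') := by
      rw [smul_sub, mul_smul, smul_comm n a]
    rw [e]
    exact nsmul_mem hr a

/-- From an extension. -/
theorem bdG_up [Fintype ι] (o : ∀ i, Bp (V i)) {Ω : Type} [Field Ω] [Algebra K Ω] [Algebra F Ω]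
    [IsScalarTower F K Ω] [CharZero K] [IsAlgClosure K Ω] (hV : ∀ i, Fct (V i))
    (M : IntermediateField K Ω) [FiniteDimensional K M] [IsScalarTower F M Ω] {N n : ℕ}
    (h : BdG V M Ω N n) : BdG V K Ω (Module.finrank K M * N) n := by
  intro z hz ha
  have hz0 := piC_D0 o hz
  have hp0 : ∀ i, Finsupp.mapDomain ((pr i).f Ω) (piC o z) = 0 := fun i => pr_piC o i hz.2
  obtain ⟨z', hz', ha', hr⟩ := h (piC o z) (D0_res hz0) fun i => by
    rw [hp0 i]
    exact zero_mem _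
  have hX : Fct (Vpi V) := Fct.pi hV
  have h1 : vtr hX K M (N • piC o z - n • z') ∈ (Vpi V).ratEq K Ω := tr_ratEqV hX M hr
  rw [map_sub, map_nsmul, map_nsmul, vtr_res hX M hz0.1] at h1
  refine ⟨vtr hX K M z', vtr_D0 hX M hz', fun i => ?_, ?_⟩
  · rw [vtr_map hX M (hV i) (pr i)]
    exact tr_ratEqV (hV i) M (ha' i)
  · have e : (Module.finrank K M * N) • z - n • vtr hX K M z' =
        (Module.finrank K M * N) • (z - piC o z) +
          (N • Module.finrank K M • piC o z - n • vtr hX K M z') := by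
      rw [smul_sub, mul_comm, mul_smul, mul_smul]
      abel
    rw [e]
    exact add_mem (nsmul_mem (sub_piC o ha) _) h1

/-- In terms of classes. -/
theorem BdG.bdP {N n : ℕ} (h : BdG V K (AlgebraicClosure K) N n) : BdP K V N n := by
  intro z hz
  obtain ⟨z', hz', ha, hr⟩ := h z.cy z.2 ((albP_iff z).1 hz)
  refine ⟨⟨z', hz'⟩, (albP_iff _).2 ha, ?_⟩
  let w : Dz (Vpi V) K := ⟨z', hz'⟩
  let w0 : Dz (Vpi V) K := z
  have h5 : N • z.cl = Gp.clsH (Vpi V) K (N • w0) := (map_nsmul (Gp.clsH (Vpi V) K) N w0).symm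
  have h6 : n • (Zc.cl (V := Vpi V) (K := K) ⟨z', hz'⟩) = Gp.clsH (Vpi V) K (n • w) :=
    (map_nsmul (Gp.clsH (Vpi V) K) n w).symm
  rw [h5, h6]
  exact Gp.cls_eq.2 hr

theorem BdP.mul {N n : ℕ} (h : BdP K V N n) (a : ℕ) : BdP K V (a * N) n := by
  intro z hz
  obtain ⟨z', hz', he⟩ := h z hz
  let w : Dz (Vpi V) K := z'
  refine ⟨(a • w : Dz (Vpi V) K), fun i => ?_, ?_⟩
  · change Gp.clsH (V i) K ((pr i).dz K (a • w)) = 0
    rw [map_nsmul, map_nsmul]
    have e : Gp.clsH (V i) K ((pr i).dz K w) = 0 := hz' i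
    rw [e, smul_zero]
  · have h6 : Zc.cl (V := Vpi V) (K := K) (a • w : Dz (Vpi V) K) = a • z'.cl :=
      map_nsmul (Gp.clsH (Vpi V) K) a w
    rw [h6, mul_smul, he, smul_comm]

theorem DvP.bdP {n : ℕ} (h : DvP K V n) {N : ℕ} : BdP K V N n := by
  intro z hz
  obtain ⟨z', hz', he⟩ := h z hz
  have h1 : BdP K V 1 n := fun z hz => by
    obtain ⟨z', hz', he⟩ := h z hz
    exact ⟨z', hz', by rw [one_smul, he]⟩
  have h2 := h1.mul N
  rw [mul_one] at h2
  exact h2 z hz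

end bdg

section loc

variable {F₀ : Type} [Field F₀] [NumberField F₀] {v : HeightOneSpectrum (𝓞 F₀)} {F : Type}
  [Field F] [Algebra F (FK F₀ v)] {ι : Type} [Fintype ι] {C : ι → Crv F}

/-- **Potentially good reduction** over the completions of number fields. -/
theorem bdP_pot (hC : LcB C) (h : PrG (Iv v) C) : ∃ N : ℕ, N ≠ 0 ∧ ∀ n : ℕ, n ≠ 0 →
    (Odd n ∨ (2 : FK F₀ v)⁻¹ ∈ Iv v) → BdP (FK F₀ v) (fun i => (C i).V) N n := by
  have hch : CharZero (FK F₀ v) :=
    charZero_of_injective_algebraMap (algebraMap F₀ (FK F₀ v)).injective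
  obtain ⟨M, O, hM, hO, hm⟩ := h
  obtain ⟨L₀, h₀⟩ := exists_ldI v
  obtain ⟨L, hp, hL⟩ := L₀.exists_bsL M
  have h1 : Iv v = Ok L₀ := SetLike.ext fun x => (h₀ x).symm
  obtain rfl := Gr_uniq L₀ M L hL O (hO.trans h1)
  have h0 : CharZero M := charZero_of_injective_algebraMap (algebraMap (FK F₀ v) M).injective
  have h2 : IsScalarTower F M (AlgebraicClosure (FK F₀ v)) :=
    IsScalarTower.of_algebraMap_eq fun _ => rfl
  have h3 : IsAlgClosure M (AlgebraicClosure (FK F₀ v)) :=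
    ⟨inferInstance, Algebra.IsAlgebraic.tower_top (K := FK F₀ v) M⟩
  obtain ⟨N, hN, h4⟩ := hC M (AlgebraicClosure (FK F₀ v)) L hm
  refine ⟨Module.finrank (FK F₀ v) M * N, mul_ne_zero Module.finrank_pos.ne' hN,
    fun n hn h5 => (bdG_up (fun i => (C i).bp) (fun i => (C i).fct) M
      (h4 n hn (h5.imp_right fun h6 h7 => ?_))).bdP⟩
  rw [h1] at h6
  have h8 : L₀.nm (algebraMap (FK F₀ v) (AlgebraicClosure (FK F₀ v)) (2 : FK F₀ v)⁻¹) ≤ 1 := h6
  have h9 := L₀.lt
  rw [← hp, h7, Nat.cast_two] at h9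
  rw [map_inv₀, L₀.inv, map_ofNat] at h8
  have h10 : 0 < L₀.nm (2 : AlgebraicClosure (FK F₀ v)) := by
    have h11 := L₀.p_pos
    rwa [← hp, h7, Nat.cast_two] at h11
  exact absurd h9 (not_lt.2 ((inv_le_one₀ h10).1 h8))

end loc

section glob

variable {F : Type} [Field F] [NumberField F] {ι : Type} [Fintype ι]

omit [Fintype ι] in
/-- One `N` for all places. -/
theorem bdP_all {V : ι → Vr F}
    (hf : {v : HeightOneSpectrum (𝓞 F) | ¬ ∀ m : ℕ, m ≠ 0 → DvP (FK F v) V m}.Finite)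
    (h : ∀ v : HeightOneSpectrum (𝓞 F), ∃ N : ℕ, N ≠ 0 ∧ ∀ n : ℕ, Odd n → BdP (FK F v) V N n) :
    ∃ N : ℕ, N ≠ 0 ∧ ∀ (v : HeightOneSpectrum (𝓞 F)) (n : ℕ), Odd n → BdP (FK F v) V N n := by
  classical
  choose N hN hB using h
  refine ⟨∏ v ∈ hf.toFinset, N v, Finset.prod_ne_zero_iff.2 fun v _ => hN v, fun v n hn => ?_⟩
  by_cases hv : v ∈ hf.toFinset
  · rw [← Finset.prod_erase_mul _ _ hv]
    exact (hB v n hn).mul _
  · rw [Set.Finite.mem_toFinset, Set.mem_ofPred_eq, not_not] at hv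
    exact (hv n hn.pos.ne').bdP

/-- **The global theorem.** -/
theorem bdP_glob {V : ι → Vr F} (o : ∀ i, Bp (V i)) {N : ℕ}
    (h : ∀ (v : HeightOneSpectrum (𝓞 F)) (n : ℕ), Odd n → BdP (FK F v) V N n) :
    (∀ n : ℕ, Odd n → ∀ c : Fam (Vpi V), AlbPA c →
      ∃ c' : Fam (Vpi V), AlbPA c' ∧ N • c.cl = n • c'.cl) ∧
    ∀ (z : LHat (FA (Vpi V))) (z' : ∀ i, LHat (FA (V i))), (∀ i, IsPs i z (z' i)) →
      (∀ i, ImDeS {l | l ≠ 2} (z' i)) → ImDeS {l | l ≠ 2} (nML N z) := by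
  have h1 : ∀ n : ℕ, Odd n → ∀ c : Fam (Vpi V), AlbPA c →
      ∃ c' : Fam (Vpi V), AlbPA c' ∧ N • c.cl = n • c'.cl := fun n hn c hc =>
    fam_bdP hn (fun v => h v n hn) c hc
  refine ⟨h1, fun z z' hz hi => imDeS_bd o (fun n _ hS c hc => ?_) hz hi⟩
  have h2 : Odd n := by
    rw [← Nat.not_even_iff_odd, even_iff_two_dvd]
    exact fun h' => hS 2 Nat.prime_two h' rfl
  obtain ⟨c', -, hc'⟩ := h1 n h2 c hc
  exact ⟨c', hc'⟩

end glob

end CV
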