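import Pool.Agent.Lib.MP_f80667_ag.Cv.GlbB

/-!
Products of curves: bounded obstruction without a condition of parity, from the local theorem `LcA` to the completions and the
number fields.

* `LcA C`: the local theorem for curves with good reduction over a local field, any ramification index, all `n`.
* `bdA_pot`: potentially good reduction over the completion of a number field.
* `bdA_glob`: number fields, one `N` for all places, the adelic Albanese kernel and the completed statement.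
-/

open ZC BE PE Polynomial IntermediateField IsDedekindDomain NumberField

namespace CV

/-- The bounded local theorem: any ramification index, any `n`. -/
def LcA {F : Type} [Field F] {ι : Type} (C : ι → Crv F) : Prop :=
  ∀ (K Ω : Type) [Field K] [Field Ω] [Algebra K Ω] [Algebra F K] [Algebra F Ω]
    [IsScalarTower F K Ω] [CharZero K] [IsAlgClosure K Ω] (L : Ld K Ω),
    (∀ i, Nonempty (Mod (C i) (Ok L) K)) →
    ∃ N : ℕ, N ≠ 0 ∧ ∀ n : ℕ, n ≠ 0 → BdG (fun i => (C i).V) K Ω N n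

section loc

variable {F₀ : Type} [Field F₀] [NumberField F₀] {v : HeightOneSpectrum (𝓞 F₀)} {F : Type}
  [Field F] [Algebra F (FK F₀ v)] {ι : Type} [Fintype ι] {C : ι → Crv F}

/-- **Potentially good reduction** over the completions of number fields. -/
theorem bdA_pot (hC : LcA C) (h : PrG (Iv v) C) : ∃ N : ℕ, N ≠ 0 ∧ ∀ n : ℕ, n ≠ 0 →
    BdP (FK F₀ v) (fun i => (C i).V) N n := by
  have hch : CharZero (FK F₀ v) :=
    charZero_of_injective_algebraMap (algebraMap F₀ (FK F₀ v)).injective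
  obtain ⟨M, L, hM, hm⟩ := h.pgd
  have h0 : CharZero M := charZero_of_injective_algebraMap (algebraMap (FK F₀ v) M).injective
  have h2 : IsScalarTower F M (AlgebraicClosure (FK F₀ v)) :=
    IsScalarTower.of_algebraMap_eq fun _ => rfl
  have h3 : IsAlgClosure M (AlgebraicClosure (FK F₀ v)) :=
    ⟨inferInstance, Algebra.IsAlgebraic.tower_top (K := FK F₀ v) M⟩
  obtain ⟨N, hN, h4⟩ := hC M (AlgebraicClosure (FK F₀ v)) L hm
  exact ⟨Module.finrank (FK F₀ v) M * N, mul_ne_zero Module.finrank_pos.ne' hN,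
    fun n hn => (bdG_up (fun i => (C i).bp) (fun i => (C i).fct) M (h4 n hn)).bdP⟩

end loc

section glob

variable {F : Type} [Field F] [NumberField F] {ι : Type}

/-- One `N` for all places. -/
theorem bdA_all {V : ι → Vr F}
    (hf : {v : HeightOneSpectrum (𝓞 F) | ¬ ∀ m : ℕ, m ≠ 0 → DvP (FK F v) V m}.Finite)
    (h : ∀ v : HeightOneSpectrum (𝓞 F), ∃ N : ℕ, N ≠ 0 ∧ ∀ n : ℕ, n ≠ 0 → BdP (FK F v) V N n) :
    ∃ N : ℕ, N ≠ 0 ∧ Even N ∧
      ∀ (v : HeightOneSpectrum (𝓞 F)) (n : ℕ), n ≠ 0 → BdP (FK F v) V N n := by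
  classical
  choose N hN hB using h
  have h1 : ∏ v ∈ hf.toFinset, N v ≠ 0 := Finset.prod_ne_zero_iff.2 fun v _ => hN v
  refine ⟨2 * ∏ v ∈ hf.toFinset, N v, mul_ne_zero two_ne_zero h1, even_two_mul _,
    fun v n hn => ?_⟩
  by_cases hv : v ∈ hf.toFinset
  · rw [← Finset.prod_erase_mul _ _ hv, ← mul_assoc]
    exact (hB v n hn).mul _
  · rw [Set.Finite.mem_toFinset, Set.mem_ofPred_eq, not_not] at hv
    exact (hv n hn).bdP

section dz

variable {W : Vr F} {K : Type} [Field K] [Algebra F K]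

omit [NumberField F] in
private theorem hbz_cl : (Zc.clN (V := W) (K := K) (0 : Dz W K)) = 0 :=
  map_zero (Gb.clsH W K)

omit [NumberField F] in
private theorem hbz_psh {V : ι → Vr F} (i : ι) :
    (Zc.clN (psh (K := K) i (0 : Dz (Vpi V) K))) = 0 :=
  map_zero ((Gb.clsH (V i) K).comp ((pr i).dz K))

end dz

/-- Families, `N` even. -/
theorem fam_bdA {V : ι → Vr F} {N n : ℕ} (hN : Even N)
    (h : ∀ v : HeightOneSpectrum (𝓞 F), BdP (FK F v) V N n)
    (c : Fam (Vpi V)) (hc : AlbPA c) : ∃ c' : Fam (Vpi V), AlbPA c' ∧ N • c.cl = n • c'.cl := by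
  have h1 : ∀ v, AlbP (c.f v) := fun v i => congrFun (congrArg Prod.fst (hc i)) v
  choose g hg using fun v => h v (c.f v) (h1 v)
  refine ⟨(g, fun v => (0 : Dz (Vpi V) (IK F v))),
    fun i => Prod.ext (funext fun v => (hg v).1 i) (funext fun v => hbz_psh i),
    Prod.ext (funext fun v => (hg v).2) (funext fun v => ?_)⟩
  change N • (c.i v).clN = n • Zc.clN (V := Vpi V) (K := IK F v) (0 : Dz (Vpi V) (IK F v))
  obtain ⟨k, rfl⟩ := hN
  rw [hbz_cl, smul_zero, ← two_mul, mul_comm, mul_smul, clN_two, smul_zero]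

/-- **The global theorem.** -/
theorem bdA_glob [Fintype ι] {V : ι → Vr F} (o : ∀ i, Bp (V i)) {N : ℕ} (hN : Even N)
    (h : ∀ (v : HeightOneSpectrum (𝓞 F)) (n : ℕ), n ≠ 0 → BdP (FK F v) V N n) :
    (∀ n : ℕ, n ≠ 0 → ∀ c : Fam (Vpi V), AlbPA c →
      ∃ c' : Fam (Vpi V), AlbPA c' ∧ N • c.cl = n • c'.cl) ∧
    ∀ (Λ : Set ℕ) (z : LHat (FA (Vpi V))) (z' : ∀ i, LHat (FA (V i))), (∀ i, IsPs i z (z' i)) →
      (∀ i, ImDeS Λ (z' i)) → ImDeS Λ (nML N z) := by
  have h1 : ∀ n : ℕ, n ≠ 0 → ∀ c : Fam (Vpi V), AlbPA c →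
      ∃ c' : Fam (Vpi V), AlbPA c' ∧ N • c.cl = n • c'.cl := fun n hn c hc =>
    fam_bdA hN (fun v => h v n hn) c hc
  refine ⟨h1, fun Λ z z' hz hi => imDeS_bd o (fun n hn _ c hc => ?_) hz hi⟩
  obtain ⟨c', -, hc'⟩ := h1 n hn c hc
  exact ⟨c', hc'⟩

end glob

end CV
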