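import Pool.Agent.Lib.MP_f80667_ag.Cv.Md

/-!
The moving lemma: definitions. `M` is a model of a curve over the discrete valuation ring `V` with the ring `S`.

* `Cs`: the closed points of the special fibre: the maximal ideals of `S` which contain the maximal ideal of `V`.
* `St T`: the elements outside all ideals of `T`.
* `As T a b`: `a` and `b` differ by a unit of the localization of `S` at `T`.
* `It T a`: the ideal of `S` of the elements which are multiples of `a` in the localization at `T`.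
* `M.Tail n₀`: there are elements of unit type of all degrees `n ≥ n₀`.
* `M.Eqv T a b`: `a / b` is up to units at `T` a quotient `x / y` of elements of unit type of the same degree which is a
  unit at the other closed points of the special fibre.
-/

open IsLocalRing

namespace CV

section defs

variable (V : Type) {S : Type} [CommRing V] [IsLocalRing V] [CommRing S] [Algebra V S]

/-- The closed points of the special fibre. -/
def Cs (N : Ideal S) : Prop := N.IsMaximal ∧ ∀ c ∈ maximalIdeal V, algebraMap V S c ∈ N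

/-- The elements outside all ideals of `T`. -/
def St (T : Set (Ideal S)) : Set S := {s | ∀ N ∈ T, s ∉ N}

/-- `a` and `b` differ by a unit of the localization at `T`. -/
def As (T : Set (Ideal S)) (a b : S) : Prop := ∃ s ∈ St T, ∃ s' ∈ St T, s * a = s' * b

theorem st_one {T : Set (Ideal S)} (hT : ∀ N ∈ T, N.IsPrime) : (1 : S) ∈ St T :=
  fun N hN h => (hT N hN).ne_top ((Ideal.eq_top_iff_one N).2 h)

theorem st_mul {T : Set (Ideal S)} (hT : ∀ N ∈ T, N.IsPrime) {a b : S} (ha : a ∈ St T)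
    (hb : b ∈ St T) : a * b ∈ St T := fun N hN h =>
  ((hT N hN).mem_or_mem h).elim (ha N hN) (hb N hN)

/-- The elements which are multiples of `a` in the localization at `T`. -/
def It (T : Set (Ideal S)) (hT : ∀ N ∈ T, N.IsPrime) (a : S) : Ideal S where
  carrier := {x | ∃ s ∈ St T, ∃ y, s * x = a * y}
  zero_mem' := ⟨1, st_one hT, 0, by ring⟩
  add_mem' := by
    rintro x y ⟨s, hs, u, hu⟩ ⟨s', hs', u', hu'⟩
    exact ⟨s * s', st_mul hT hs hs', s' * u + s * u', by linear_combination s' * hu + s * hu'⟩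
  smul_mem' := by
    rintro c x ⟨s, hs, u, hu⟩
    exact ⟨s, hs, c * u, by rw [smul_eq_mul]; linear_combination c * hu⟩

theorem mem_It {T : Set (Ideal S)} {hT : ∀ N ∈ T, N.IsPrime} {a x : S} :
    x ∈ It T hT a ↔ ∃ s ∈ St T, ∃ y, s * x = a * y := Iff.rfl

theorem As.refl {T : Set (Ideal S)} (hT : ∀ N ∈ T, N.IsPrime) (a : S) : As T a a :=
  ⟨1, st_one hT, 1, st_one hT, rfl⟩

theorem As.symm {T : Set (Ideal S)} {a b : S} (h : As T a b) : As T b a := by
  obtain ⟨s, hs, s', hs', e⟩ := h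
  exact ⟨s', hs', s, hs, e.symm⟩

theorem As.trans {T : Set (Ideal S)} (hT : ∀ N ∈ T, N.IsPrime) {a b c : S} (h : As T a b)
    (h' : As T b c) : As T a c := by
  obtain ⟨s, hs, s', hs', e⟩ := h
  obtain ⟨t, ht, t', ht', e'⟩ := h'
  exact ⟨t * s, st_mul hT ht hs, s' * t', st_mul hT hs' ht', by
    linear_combination t * e + s' * e'⟩

theorem As.mul {T : Set (Ideal S)} (hT : ∀ N ∈ T, N.IsPrime) {a b c d : S} (h : As T a b)
    (h' : As T c d) : As T (a * c) (b * d) := by
  obtain ⟨s, hs, s', hs', e⟩ := h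
  obtain ⟨t, ht, t', ht', e'⟩ := h'
  exact ⟨s * t, st_mul hT hs ht, s' * t', st_mul hT hs' ht', by
    linear_combination t * c * e + s' * b * e'⟩

theorem As.cancel {T : Set (Ideal S)} [IsDomain S] {a b c : S} (hc : c ≠ 0)
    (h : As T (a * c) (b * c)) : As T a b := by
  obtain ⟨s, hs, s', hs', e⟩ := h
  exact ⟨s, hs, s', hs', mul_right_cancel₀ hc (by linear_combination e)⟩

theorem As.mono {T T' : Set (Ideal S)} (hT : T' ⊆ T) {a b : S} (h : As T a b) : As T' a b := by
  obtain ⟨s, hs, s', hs', e⟩ := h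
  exact ⟨s, fun N hN => hs N (hT hN), s', fun N hN => hs' N (hT hN), e⟩

end defs

namespace Md

variable {V L k S SL Sk : Type} [CommRing V] [IsDomain V] [IsDiscreteValuationRing V] [Field L]
  [Field k] [Algebra V L] [IsFractionRing V L] [Algebra V k] [CommRing S] [CommRing SL]
  [CommRing Sk] [Algebra V S] [Algebra L SL] [Algebra k Sk] (M : Md V L k S SL Sk)

/-- There are elements of unit type of all degrees `n ≥ n₀`. -/
def Tail (n₀ : ℕ) : Prop := ∀ n : ℕ, n₀ ≤ n → ∃ e : S, M.Ut e n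

theorem exists_tail : ∃ n₀, M.Tail n₀ := M.tail

/-- `a / b` is up to units at `T` a quotient of elements of unit type of the same degree which is a unit at the other closed
points of the special fibre. -/
def Eqv (T : Set (Ideal S)) (a b : S) : Prop := ∃ (x y : S) (n : ℕ), M.Ut x n ∧ M.Ut y n ∧
  As T (a * y) (b * x) ∧ ∀ N : Ideal S, Cs V N → N ∉ T → As {N} x y

include M in
theorem dom : IsDomain S := by
  have := M.DL.isDomain
  exact M.inj.isDomain M.i

theorem ut_ne {x : S} {n : ℕ} (h : M.Ut x n) : x ≠ 0 := by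
  rintro rfl
  exact M.DL.ne_zero h.1 (map_zero M.i)

theorem ut_mul {x y : S} {m n : ℕ} (hx : M.Ut x m) (hy : M.Ut y n) : M.Ut (x * y) (m + n) := by
  refine ⟨?_, ?_⟩
  · rw [map_mul, M.DL.mul, hx.1, hy.1, Nat.cast_add]
  · rw [map_mul, M.Dk.mul, hx.2, hy.2, Nat.cast_add]

theorem eqv_refl {T : Set (Ideal S)} (hT : ∀ N ∈ T, N.IsPrime) (a : S) : M.Eqv T a a := by
  obtain ⟨n₀, h⟩ := M.exists_tail
  obtain ⟨e, he⟩ := h n₀ le_rfl
  refine ⟨e, e, n₀, he, he, As.refl hT _, fun N hN _ => As.refl ?_ _⟩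
  rintro N' rfl
  exact hN.1.isPrime

theorem eqv_symm {T : Set (Ideal S)} {a b : S} (h : M.Eqv T a b) : M.Eqv T b a := by
  obtain ⟨x, y, n, hx, hy, h1, h2⟩ := h
  exact ⟨y, x, n, hy, hx, h1.symm, fun N hN hT => (h2 N hN hT).symm⟩

/-- Proof: the products of the elements of unit type; cancel `b`. -/
theorem eqv_trans {T : Set (Ideal S)} (hT : ∀ N ∈ T, N.IsPrime) {a b c : S} (hb : b ≠ 0)
    (h : M.Eqv T a b) (h' : M.Eqv T b c) : M.Eqv T a c := by
  have := M.dom
  obtain ⟨x, y, n, hx, hy, h1, h2⟩ := h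
  obtain ⟨x', y', n', hx', hy', h1', h2'⟩ := h'
  refine ⟨x * x', y * y', n + n', M.ut_mul hx hx', M.ut_mul hy hy', ?_, fun N hN hNT =>
    (h2 N hN hNT).mul (by rintro N' rfl; exact hN.1.isPrime) (h2' N hN hNT)⟩
  refine As.cancel hb ?_
  have h3 := h1.mul hT h1'
  have e1 : a * y * (b * y') = a * (y * y') * b := by ring
  have e2 : b * x * (c * x') = c * (x * x') * b := by ring
  rwa [e1, e2] at h3

theorem eqv_mul {T : Set (Ideal S)} (hT : ∀ N ∈ T, N.IsPrime) {a b c d : S}
    (h : M.Eqv T a b) (h' : M.Eqv T c d) : M.Eqv T (a * c) (b * d) := by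
  obtain ⟨x, y, n, hx, hy, h1, h2⟩ := h
  obtain ⟨x', y', n', hx', hy', h1', h2'⟩ := h'
  refine ⟨x * x', y * y', n + n', M.ut_mul hx hx', M.ut_mul hy hy', ?_, fun N hN hNT =>
    (h2 N hN hNT).mul (by rintro N' rfl; exact hN.1.isPrime) (h2' N hN hNT)⟩
  have h3 := h1.mul hT h1'
  have e1 : a * y * (c * y') = a * c * (y * y') := by ring
  have e2 : b * x * (d * x') = b * d * (x * x') := by ring
  rwa [e1, e2] at h3

theorem eqv_cancel {T : Set (Ideal S)} {a b c : S} (hc : c ≠ 0)
    (h : M.Eqv T (a * c) (b * c)) : M.Eqv T a b := by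
  have := M.dom
  obtain ⟨x, y, n, hx, hy, h1, h2⟩ := h
  refine ⟨x, y, n, hx, hy, As.cancel hc ?_, h2⟩
  have e1 : a * c * y = a * y * c := by ring
  have e2 : b * c * x = b * x * c := by ring
  rwa [e1, e2] at h1

/-- Units at `T` do not matter. -/
theorem eqv_of_as {T : Set (Ideal S)} (hT : ∀ N ∈ T, N.IsPrime) {a b : S} (h : As T a b) :
    M.Eqv T a b := by
  obtain ⟨n₀, h0⟩ := M.exists_tail
  obtain ⟨e, he⟩ := h0 n₀ le_rfl
  refine ⟨e, e, n₀, he, he, h.mul hT (As.refl hT _), fun N hN _ => As.refl ?_ _⟩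
  rintro N' rfl
  exact hN.1.isPrime

end Md

end CV
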