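import Pool.Agent.Lib.MP_f80667_ag.Cv.HdB

/-! The product of a cycle rationally equivalent to `0` and a point. -/

open ZC BE PE Polynomial TensorProduct IntermediateField

namespace CV

variable {F : Type} [Field F] {K Ω : Type} [Field K] [Field Ω] [Algebra K Ω]
  [Algebra F K] [Algebra F Ω] [IsScalarTower F K Ω] [CharZero K] [IsAlgClosure K Ω]

private theorem hdC_pt {C : Crv F} {M : IntermediateField K Ω} {y : C.V.pt Ω} (hy : Fp C.V M y)
    (E : Type) [Field E] [Algebra M E] [Algebra F E] [IsScalarTower F M E] :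
    ∃ y' : C.V.pt (AlgebraicClosure E), C.V.Rat E y' ∧
      ∀ W : Place M (AlgebraicClosure E) Ω, C.V.red W y' y := by
  rcases y with _ | φ
  · exact ⟨none, fun σ => rfl, fun W => Or.inl ⟨rfl, rfl⟩⟩
  · have h := fp_val.1 hy
    let φM : C.A →ₐ[F] M :=
      { toFun := fun a => ⟨φ a, h a⟩
        map_one' := Subtype.ext (map_one φ)
        map_mul' := fun a b => Subtype.ext (map_mul φ a b)
        map_zero' := Subtype.ext (map_zero φ)
        map_add' := fun a b => Subtype.ext (map_add φ a b)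
        commutes' := fun r => Subtype.ext (φ.commutes r) }
    refine ⟨some ((IsScalarTower.toAlgHom F M (AlgebraicClosure E)).comp φM), fun σ => ?_,
      fun W => Or.inr (Or.inr ⟨_, φ, rfl, rfl, fun a => ⟨W.mem (φM a), ?_⟩⟩)⟩
    · refine congrArg some (AlgHom.ext fun a => ?_)
      change σ (algebraMap M (AlgebraicClosure E) (φM a)) = algebraMap M (AlgebraicClosure E) (φM a)
      rw [IsScalarTower.algebraMap_apply M E (AlgebraicClosure E)]
      exact σ.commutes _
    · exact (W.res_k (φM a)).symm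

/-- Proof: as `Mo.ratEq` (`Cv/Mo.lean`); the point `y` of `C` over `M` is the constant point over the algebraic closure
of the function field `E / M` (`fp_val`), its value at every place `W` over `M` is `y` (`W.mem`, `W.res_k`). -/
theorem ins_ratEq₁ {V : Vr F} {C : Crv F} {M : IntermediateField K Ω} {y : C.V.pt Ω}
    (hy : Fp C.V M y) {z : V.pt Ω →₀ ℤ} (hz : z ∈ V.ratEq M Ω) :
    Finsupp.mapDomain (fun x => pp x y) z ∈ (Vpr V C.V).ratEq M Ω := by
  have h : V.ratEq M Ω ≤ ((Vpr V C.V).ratEq M Ω).comap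
      (Finsupp.mapDomain.addMonoidHom fun x : V.pt Ω => pp x y) := by
    rw [Vr.ratEq, AddSubgroup.closure_le]
    rintro _ ⟨E, i1, i2, i3, i4, hE, g, x, hg, hx, S, m, u, hS, hv, rfl⟩
    change Finsupp.mapDomain (fun x : V.pt Ω => pp x y) _ ∈ (Vpr V C.V).ratEq M Ω
    obtain ⟨y', hy1, hy2⟩ := hdC_pt hy E
    rw [Finsupp.mapDomain_finsetSum]
    refine AddSubgroup.subset_closure ⟨E, i1, i2, i3, i4, hE, g, pp x y', hg, fun σ => ?_, S, m,
      fun w => pp (u w) y, hS, fun w hw => ⟨(hv w hw).1, ?_⟩, ?_⟩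
    · exact Prod.ext (hx σ) (hy1 σ)
    · obtain ⟨W, h1, h2, h3⟩ := (hv w hw).2
      exact ⟨W, h1, h2, h3, hy2 W⟩
    · refine Finset.sum_congr rfl fun w _ => ?_
      rw [Finsupp.mapDomain_single]
  exact h hz

/-- The factors exchanged. -/
theorem ins_ratEq₂ {V : Vr F} {C : Crv F} {M : IntermediateField K Ω} {y : C.V.pt Ω}
    (hy : Fp C.V M y) {z : V.pt Ω →₀ ℤ} (hz : z ∈ V.ratEq M Ω) :
    Finsupp.mapDomain (fun x => pp y x) z ∈ (Vpr C.V V).ratEq M Ω := by
  have h : V.ratEq M Ω ≤ ((Vpr C.V V).ratEq M Ω).comap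
      (Finsupp.mapDomain.addMonoidHom fun x : V.pt Ω => pp y x) := by
    rw [Vr.ratEq, AddSubgroup.closure_le]
    rintro _ ⟨E, i1, i2, i3, i4, hE, g, x, hg, hx, S, m, u, hS, hv, rfl⟩
    change Finsupp.mapDomain (fun x : V.pt Ω => pp y x) _ ∈ (Vpr C.V V).ratEq M Ω
    obtain ⟨y', hy1, hy2⟩ := hdC_pt hy E
    rw [Finsupp.mapDomain_finsetSum]
    refine AddSubgroup.subset_closure ⟨E, i1, i2, i3, i4, hE, g, pp y' x, hg, fun σ => ?_, S, m,
      fun w => pp y (u w), hS, fun w hw => ⟨(hv w hw).1, ?_⟩, ?_⟩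
    · exact Prod.ext (hy1 σ) (hx σ)
    · obtain ⟨W, h1, h2, h3⟩ := (hv w hw).2
      exact ⟨W, h1, h2, hy2 W, h3⟩
    · refine Finset.sum_congr rfl fun w _ => ?_
      rw [Finsupp.mapDomain_single]
  exact h hz

end CV
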