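import Pool.Agent.Lib.MP_f80667_ag.Cv.HdA
import Pool.Agent.Lib.MP_f80667_ag.Cv.HdC

/-! The symbols of principal cycles are `0`. -/

open ZC BE PE Polynomial TensorProduct IntermediateField

namespace CV

variable {F : Type} [Field F] {K Ω : Type} [Field K] [Field Ω] [Algebra K Ω]
  [Algebra F K] [Algebra F Ω] [IsScalarTower F K Ω] [CharZero K] [IsAlgClosure K Ω]
  {C₁ C₂ : Crv F}

omit [Algebra F K] [IsScalarTower F K Ω] [CharZero K] [IsAlgClosure K Ω] [Field K] [Algebra K Ω] in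
private theorem hdD_deg {C : Crv F} {a : C.V.pt Ω →₀ ℤ} (ha : a ∈ Pc C Ω) : C.V.deg Ω a = 0 := by
  have h : Pc C Ω ≤ (C.V.deg Ω).ker := by
    rw [Pc, AddSubgroup.closure_le]
    rintro z ⟨hz, -⟩
    exact hz
  exact h ha

omit [Algebra F K] [IsScalarTower F K Ω] [CharZero K] [IsAlgClosure K Ω] [Field K] [Algebra K Ω] in
private theorem hdD_bx₁ {V W : Vr F} (a : V.pt Ω →₀ ℤ) (y : W.pt Ω) :
    bx a (Finsupp.single y 1) = Finsupp.mapDomain (fun x => pp x y) a := by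
  induction a using Finsupp.induction_linear with
  | zero => rw [map_zero, AddMonoidHom.zero_apply, Finsupp.mapDomain_zero]
  | add f g hf hg => rw [map_add, AddMonoidHom.add_apply, hf, hg, Finsupp.mapDomain_add]
  | single x m => rw [bx_ss, mul_one, Finsupp.mapDomain_single]

omit [Algebra F K] [IsScalarTower F K Ω] [CharZero K] [IsAlgClosure K Ω] [Field K] [Algebra K Ω] in
private theorem hdD_bx₂ {V W : Vr F} (x : V.pt Ω) (b : W.pt Ω →₀ ℤ) :
    bx (Finsupp.single x 1) b = Finsupp.mapDomain (fun y => pp x y) b := by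
  rw [bx_single, one_smul]

omit [Algebra F K] [IsScalarTower F K Ω] [CharZero K] [IsAlgClosure K Ω] [Field K] [Algebra K Ω] in
private theorem hdD_rd {V : Vr F} (o : Bp V) (y : V.pt Ω) :
    rd o (Finsupp.single y 1) = Finsupp.single y 1 - Finsupp.single (o.o Ω) 1 := by
  rw [rd_apply]
  simp [Vr.deg]

omit [CharZero K] [IsAlgClosure K Ω] in
private theorem hdD_inf (C : Crv F) (M : IntermediateField K Ω) : Fp C.V M (C.bp.o Ω) :=
  fun _ _ => rfl

/-- Proof: `a ∈ ratEq M Ω` (`h`). By `fx_gen` (`exists_fp`) and additivity of `sy` in `b` (`(scC ..).add₂`, on the closure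
argue with `AddSubgroup.closure_induction` for the statement `sy M a b = 0`, elements of the closure are invariant) it is
enough to take `b = Nm M M' [y]`, `y` over `M'`: `nm₂`: `sy M a b = sy M' a [y]`, the class of
`Nm ⊥ M' (bx a ([y] - [∞]))`; `bx a [y] = mapDomain (pp · y) a` is in `ratEq M' Ω` (`ins_ratEq₁`, `h` over `M'`:
`a ∈ Zd C₁.V M'`), `nm_ratEq`. -/
theorem sy_pc₁ (h : ExPr C₁ K Ω) {M : IntermediateField K Ω} [FiniteDimensional K M]
    {a : C₁.V.pt Ω →₀ ℤ} (ha : a ∈ Pc C₁ Ω) (ha' : Fx M a) {b : C₂.V.pt Ω →₀ ℤ}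
    (hb : Fx M b) : (scC (K := K) C₁.bp C₂.bp).sy M a b = 0 := by
  have hdeg : C₁.V.deg Ω a = 0 := hdD_deg ha
  have key : Fx M b ∧ (scC (K := K) C₁.bp C₂.bp).sy M a b = 0 := by
    refine AddSubgroup.closure_induction (p := fun b _ => Fx M b ∧
      (scC (K := K) C₁.bp C₂.bp).sy M a b = 0) ?_ ?_ ?_ ?_ (fx_gen (exists_fp C₂) hb)
    · rintro _ ⟨M', y, hM', hfin, hy, rfl⟩
      have hy1 : Fx M' (Finsupp.single y 1 : C₂.V.pt Ω →₀ ℤ) := fx_single hy 1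
      refine ⟨nm_fx hM' hy1, ?_⟩
      rw [← (scC (K := K) C₁.bp C₂.bp).nm₂ M M' a (Finsupp.single y 1) hM' ha' hy1, scC_sy,
        QuotientAddGroup.eq_zero_iff]
      refine nm_ratEq ?_ (bx_fx (rd_fx _ (ha'.mono hM')) (rd_fx _ hy1))
      have hr : a ∈ C₁.V.ratEq M' Ω := h M' hfin a ha ⟨ha'.mono hM', hdeg⟩
      rw [rd_of hdeg, hdD_rd, map_sub, hdD_bx₁, hdD_bx₁]
      exact sub_mem (ins_ratEq₁ hy hr) (ins_ratEq₁ (hdD_inf C₂ M') hr)
    · refine ⟨Fx.zero, ?_⟩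
      have h1 := (scC (K := K) C₁.bp C₂.bp).add₂ M a 0 0 ha' Fx.zero Fx.zero
      rw [add_zero] at h1
      exact left_eq_add.1 h1
    · rintro x y _ _ ⟨hx, hx'⟩ ⟨hy, hy'⟩
      refine ⟨hx.add hy, ?_⟩
      rw [(scC (K := K) C₁.bp C₂.bp).add₂ M a x y ha' hx hy, hx', hy', add_zero]
    · rintro x _ ⟨hx, hx'⟩
      refine ⟨hx.neg, ?_⟩
      have h1 := (scC (K := K) C₁.bp C₂.bp).add₂ M a 0 0 ha' Fx.zero Fx.zero
      rw [add_zero] at h1
      have h0 := left_eq_add.1 h1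
      have h2 := (scC (K := K) C₁.bp C₂.bp).add₂ M a x (-x) ha' hx hx.neg
      rw [add_neg_cancel, h0, hx', zero_add] at h2
      exact h2.symm
  exact key.2

/-- The factors exchanged. -/
theorem sy_pc₂ (h : ExPr C₂ K Ω) {M : IntermediateField K Ω} [FiniteDimensional K M]
    {a : C₁.V.pt Ω →₀ ℤ} (ha : Fx M a) {b : C₂.V.pt Ω →₀ ℤ} (hb : b ∈ Pc C₂ Ω)
    (hb' : Fx M b) : (scC (K := K) C₁.bp C₂.bp).sy M a b = 0 := by
  have hdeg : C₂.V.deg Ω b = 0 := hdD_deg hb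
  have key : Fx M a ∧ (scC (K := K) C₁.bp C₂.bp).sy M a b = 0 := by
    refine AddSubgroup.closure_induction (p := fun a _ => Fx M a ∧
      (scC (K := K) C₁.bp C₂.bp).sy M a b = 0) ?_ ?_ ?_ ?_ (fx_gen (exists_fp C₁) ha)
    · rintro _ ⟨M', x, hM', hfin, hx, rfl⟩
      have hx1 : Fx M' (Finsupp.single x 1 : C₁.V.pt Ω →₀ ℤ) := fx_single hx 1
      refine ⟨nm_fx hM' hx1, ?_⟩
      rw [← (scC (K := K) C₁.bp C₂.bp).nm₁ M M' (Finsupp.single x 1) b hM' hx1 hb', scC_sy,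
        QuotientAddGroup.eq_zero_iff]
      refine nm_ratEq ?_ (bx_fx (rd_fx _ hx1) (rd_fx _ (hb'.mono hM')))
      have hr : b ∈ C₂.V.ratEq M' Ω := h M' hfin b hb ⟨hb'.mono hM', hdeg⟩
      rw [rd_of hdeg, hdD_rd, map_sub, AddMonoidHom.sub_apply, hdD_bx₂, hdD_bx₂]
      exact sub_mem (ins_ratEq₂ hx hr) (ins_ratEq₂ (hdD_inf C₁ M') hr)
    · refine ⟨Fx.zero, ?_⟩
      have h1 := (scC (K := K) C₁.bp C₂.bp).add₁ M 0 0 b Fx.zero Fx.zero hb'
      rw [add_zero] at h1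
      exact left_eq_add.1 h1
    · rintro x y _ _ ⟨hx, hx'⟩ ⟨hy, hy'⟩
      refine ⟨hx.add hy, ?_⟩
      rw [(scC (K := K) C₁.bp C₂.bp).add₁ M x y b hx hy hb', hx', hy', add_zero]
    · rintro x _ ⟨hx, hx'⟩
      refine ⟨hx.neg, ?_⟩
      have h1 := (scC (K := K) C₁.bp C₂.bp).add₁ M 0 0 b Fx.zero Fx.zero hb'
      rw [add_zero] at h1
      have h0 := left_eq_add.1 h1
      have h2 := (scC (K := K) C₁.bp C₂.bp).add₁ M x (-x) b hx hx.neg hb'
      rw [add_neg_cancel, h0, hx', zero_add] at h2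
      exact h2.symm
  exact key.2

end CV
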