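import Pool.Agent.Lib.MP_f80667_ag.Cv.EtM
import Pool.Agent.Lib.MP_f80667_ag.Cv.HdD

/-! # The levels of one curve: the instances of `Lv₀` and `Lv` on cycles -/

set_option autoImplicit false

open ZC BE PE Polynomial TensorProduct IntermediateField

namespace CV

variable {F : Type} [Field F] {K Ω : Type} [Field K] [CharZero K] [Field Ω] [Algebra K Ω]
  [Algebra F K] [Algebra F Ω] [IsScalarTower F K Ω] [IsAlgClosure K Ω] {L : Ld K Ω}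
  {C C₁ C₂ : Crv F} (m : Mod C (Ok L) K)

/-- The cycles over `M`. -/
def Fxg (C : Crv F) (M : IntermediateField K Ω) : AddSubgroup (C.V.pt Ω →₀ ℤ) where
  carrier := {z | Fx M z}
  zero_mem' := Fx.zero
  add_mem' h h' := h.add h'
  neg_mem' h := h.neg

/-- The cycles over `M` which are principal up to a multiple of `[∞]`. -/
noncomputable def Nn (C : Crv F) (M : IntermediateField K Ω) : AddSubgroup (C.V.pt Ω →₀ ℤ) :=
  Fxg C M ⊓ (Pc C Ω).comap (rd C.bp)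

/-- The cycles of level `r` over `M`. -/
noncomputable def Dl (π : K) (M : IntermediateField K Ω) (r : ℕ) :
    AddSubgroup (C.V.pt Ω →₀ ℤ) :=
  Fxg C M ⊓ (Pc C Ω ⊔ Dsp L C.V (Nr m (L.nm (algebraMap K Ω π) ^ r)) M).comap (rd C.bp)

variable {m} {M M' : IntermediateField K Ω}

theorem mem_Nn {z : C.V.pt Ω →₀ ℤ} : z ∈ Nn C M ↔ Fx M z ∧ rd C.bp z ∈ Pc C Ω := Iff.rfl

theorem mem_Dl {π : K} {r : ℕ} {z : C.V.pt Ω →₀ ℤ} : z ∈ Dl m π M r ↔ Fx M z ∧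
    rd C.bp z ∈ Pc C Ω ⊔ Dsp L C.V (Nr m (L.nm (algebraMap K Ω π) ^ r)) M := Iff.rfl

theorem nm_deg (h : M ≤ M') [FiniteDimensional K M'] {z : C.V.pt Ω →₀ ℤ}
    (hz : C.V.deg Ω z = 0) : C.V.deg Ω (Nm M M' z) = 0 := by
  obtain ⟨s, -, -, -, h3⟩ := nm_rep h
  rw [h3, map_sum]
  exact Finset.sum_eq_zero fun γ _ => by rw [deg_smul, hz]

theorem dl_of {π : K} {r : ℕ} {z : C.V.pt Ω →₀ ℤ} (h1 : Fx M z) (h2 : C.V.deg Ω z = 0)
    (h3 : z ∈ Pc C Ω ⊔ Dsp L C.V (Nr m (L.nm (algebraMap K Ω π) ^ r)) M) : z ∈ Dl m π M r := by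
  refine mem_Dl.2 ⟨h1, ?_⟩
  rw [rd_of h2]
  exact h3

theorem dsc_deg (T : Cht m M) (w : Ω) : C.V.deg Ω (dsc T w) = 0 := by
  unfold dsc
  rw [map_sub]
  simp [Vr.deg]

theorem nm_zero_lt : L.nm (0 : Ω) < 1 := by
  rw [L.zero]
  exact zero_lt_one

theorem dsc_fx (T : Cht m M) {w : Ω} (h1 : L.nm w < 1) (hw : w ∈ M) : Fx M (dsc T w) :=
  (fx_single ((cht_fp T h1).2 hw) 1).sub (fx_single ((cht_fp T nm_zero_lt).2 (zero_mem M)) 1)

theorem dsc_mem [FiniteDimensional K M] {π : K} (hπ : Uf L π) (T : Cht m M) {w : Ω} (hw : w ∈ M)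
    {r : ℕ} (hr : r ≠ 0) (h : L.nm w ≤ L.nm (algebraMap K Ω π) ^ r) : dsc T w ∈ Dl m π M r := by
  have hc0 := L.nonneg (algebraMap K Ω π)
  have hc1 : L.nm (algebraMap K Ω π) ^ r < 1 := pow_lt_one₀ hc0 hπ.lt hr
  have hw1 : L.nm w < 1 := h.trans_lt hc1
  refine dl_of (dsc_fx T hw1 hw) (dsc_deg T w) (AddSubgroup.mem_sup_right ?_)
  refine dsp_pt ((cht_fp T hw1).2 hw) ((cht_fp T nm_zero_lt).2 (zero_mem M)) ?_
  refine (T.near w 0 hw1 nm_zero_lt _ (pow_nonneg hc0 r) hc1.le).2 ?_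
  rw [sub_zero]
  exact h

theorem pow_sq_le {c : ℝ} (h0 : 0 ≤ c) (h1 : c ≤ 1) {r : ℕ} (hr : r ≠ 0) :
    (c ^ r) ^ 2 ≤ c ^ (r + 1) := by
  rw [← pow_mul]
  exact pow_le_pow_of_le_one h0 h1 (by omega)

theorem dl_mono_r {π : K} (hπ : Uf L π) {M : IntermediateField K Ω} {z : C.V.pt Ω →₀ ℤ}
    {r r' : ℕ} (h : r ≤ r') (hz : z ∈ Dsp L C.V (Nr m (L.nm (algebraMap K Ω π) ^ r')) M) :
    z ∈ Dsp L C.V (Nr m (L.nm (algebraMap K Ω π) ^ r)) M :=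
  dsp_mono (fun _ _ => nr_mono (pow_le_pow_of_le_one (L.nonneg _) hπ.lt.le h)) hz

variable (m)

/-- One curve without charts. -/
noncomputable def lv0 (π : K) (hπ : Uf L π) (l e : ℕ)
    (hS : ∀ M : IntermediateField K Ω, Um L M →
      ∀ z ∈ Dsp L C.V (Nr m (L.nm (algebraMap K Ω π) ^ (e + 1))) M,
        ∃ z' ∈ Zd C.V M, z - l • z' ∈ Pc C Ω)
    (hD : ExDv m l) (hN : ExNm m) : Lv₀ (twL L π hπ) l e (C.V.pt Ω →₀ ℤ) where
  D := Dl m π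
  Nl := Nn C
  fx _ h := h.1
  nx _ h := h.1
  small := by
    intro M r a hM hr ha
    obtain ⟨h1, h2⟩ := mem_Dl.1 ha
    obtain ⟨p, hp, d, hd, e1⟩ := AddSubgroup.mem_sup.1 h2
    obtain ⟨z', hz', hz⟩ := hS M hM d (dl_mono_r hπ hr hd)
    refine ⟨z', hz'.1, mem_Nn.2 ⟨h1.sub (Fx.nsmul hz'.1 l), ?_⟩⟩
    rw [map_sub, map_nsmul, rd_of hz'.2, ← e1, add_sub_assoc]
    exact (Pc C Ω).add_mem hp hz
  lift := by
    intro M a hM ha
    have := Um.fd hM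
    obtain ⟨N, hN0, h⟩ := hD M inferInstance (rd C.bp a) ⟨rd_fx C.bp ha, rd_deg C.bp a⟩
    obtain ⟨z', hz', r, hr, h⟩ := h N hN0 dvd_rfl
    have hE : Em L M (L.Ur M N) := ⟨Ld.ur_le, N, hN0, le_rfl⟩
    have := hE.fd
    refine ⟨L.Ur M N, hE, z', hz'.1, mem_Dl.2 ⟨(ha.mono Ld.ur_le).sub (Fx.nsmul hz'.1 l), ?_⟩⟩
    rw [map_sub, map_nsmul, rd_of hz'.2]
    exact sup_le_sup_left (dsp_val hπ (Um.up hM hE) hr) _ h
  lang := by
    intro M M' a hM hE ha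
    have := Um.fd hM
    obtain ⟨hle, N, hN0, hle'⟩ := hE
    obtain ⟨z', hz', r, hr, h⟩ := hN M inferInstance (rd C.bp a) ⟨rd_fx C.bp ha, rd_deg C.bp a⟩
      N hN0
    have hfd : FiniteDimensional K (L.Ur M N) := Ld.ur_fin M N hN0
    have hfd' : FiniteDimensional K M' := fin_le hle'
    have h1 : Fx (L.Ur M N) z' := hz'.1
    refine ⟨Nm M' (L.Ur M N) z', nm_fx hle' h1, mem_Dl.2
      ⟨ha.sub (nm_fx hle (nm_fx hle' h1)), ?_⟩⟩
    rw [← nm_tr hle hle' h1]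
    rw [map_sub, rd_of (nm_deg Ld.ur_le hz'.2), ← rtr_eq Ld.ur_le]
    exact sup_le_sup_left (dsp_val hπ hM hr) _ h

/-- One curve with charts. -/
noncomputable def lv (π : K) (hπ : Uf L π) (l e : ℕ)
    (hS : ∀ M : IntermediateField K Ω, Um L M →
      ∀ z ∈ Dsp L C.V (Nr m (L.nm (algebraMap K Ω π) ^ (e + 1))) M,
        ∃ z' ∈ Zd C.V M, z - l • z' ∈ Pc C Ω)
    (hD : ExDv m l) (hN : ExNm m) (hC : ExCh m) (hcl : ExCl m) :
    Lv (twL L π hπ) l e (C.V.pt Ω →₀ ℤ) where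
  toLv₀ := lv0 m π hπ l e hS hD hN
  Ch M := Set.range fun (T : Cht m M) (x : Om L M) => dsc T (x : Ω)
  chD := by
    rintro M r _ x hM ⟨T, rfl⟩ hr hx
    have := Um.fd hM
    exact dsc_mem hπ T x.2.1 hr ((twL_dvd hπ x r).1 hx)
  gen := by
    intro M r hM hr a ha
    have := Um.fd hM
    obtain ⟨h1, h2⟩ := mem_Dl.1 ha
    obtain ⟨p, hp, d, hd, e1⟩ := AddSubgroup.mem_sup.1 h2
    have h3 : a = d + (a - d) := by abel
    rw [h3]
    refine AddSubgroup.add_mem_sup ?_ (mem_Nn.2 ⟨h1.sub (dsp_fx hd), ?_⟩)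
    · rw [dsp_gen] at hd
      refine AddSubgroup.closure_mono ?_ hd
      rintro z ⟨M', y, y', hE, hy, hy', hn, rfl⟩
      have := hE.fd
      have hc0 := L.nonneg (algebraMap K Ω π)
      have hc1 : L.nm (algebraMap K Ω π) ^ r < 1 := pow_lt_one₀ hc0 hπ.lt hr
      obtain ⟨T, hT⟩ := hC M' inferInstance y' (nr_int hn).2 hy'
      obtain ⟨w, hw1, hw⟩ := T.surj y _ hc1 (by rw [hT]; exact hn)
      have hwM : w ∈ M' := (cht_fp T hw1).1 (by rw [← hw]; exact hy)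
      have hwr : L.nm w ≤ L.nm (algebraMap K Ω π) ^ r := by
        have h4 := (T.near w 0 hw1 nm_zero_lt _ (pow_nonneg hc0 r) hc1.le).1
          (by rw [hT, ← hw]; exact hn)
        rwa [sub_zero] at h4
      refine ⟨M', hE, _, ⟨T, rfl⟩, (⟨w, mem_Om.2 ⟨hwM, hw1.le⟩⟩ : Om L M'), ?_, ?_⟩
      · exact (twL_dvd hπ _ r).2 hwr
      · change Nm M M' (Finsupp.single y 1 - Finsupp.single y' 1 : C.V.pt Ω →₀ ℤ) =
          Nm M M' (Finsupp.single (T.P w) 1 - Finsupp.single (T.P 0) 1)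
        rw [hT, ← hw]
    · rw [map_sub, rd_of (dsp_deg hd), ← e1, add_sub_cancel_right]
      exact hp
  res := by
    intro M M' r hM hE hr a ha
    have := Um.fd hM
    obtain ⟨h1, h2⟩ := mem_Dl.1 ha
    refine mem_Dl.2 ⟨h1.mono hE.1, ?_⟩
    exact sup_le_sup_left (dsp_up hE fun γ _ x y => nr_act γ) _ h2
  chR := by
    rintro M M' r _ x hM hE hr ⟨T, rfl⟩ hx
    obtain ⟨T', hT'⟩ := cht_up T hE.1
    refine ⟨_, ⟨T', rfl⟩, (⟨x.1, mem_Om.2 ⟨hE.1 x.2.1, x.2.2⟩⟩ : Om L M'), ?_, ?_⟩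
    · exact (twL_dvd hπ _ r).2 ((twL_dvd hπ x r).1 hx)
    · change dsc T' x.1 = dsc T x.1
      unfold dsc
      rw [hT']
  mul := by
    rintro M r _ x h hM ⟨T, rfl⟩ hr hx
    have := Um.fd hM
    have hx' : L.nm (x.1 : Ω) ≤ L.nm (algebraMap K Ω π) ^ r := (twL_dvd hπ x r).1 hx
    have hc0 := L.nonneg (algebraMap K Ω π)
    have hc1 : L.nm (algebraMap K Ω π) ^ r < 1 := pow_lt_one₀ hc0 hπ.lt hr
    have hhx : L.nm ((h : Ω) * x.1) < 1 := by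
      rw [L.mul]
      exact (mul_le_of_le_one_left (L.nonneg _) (L.nat_le h)).trans_lt (hx'.trans_lt hc1)
    change dsc T ((h : Ω) * x.1) - h • dsc T x.1 ∈ Dl m π M (r + 1)
    refine dl_of ((dsc_fx T hhx (mul_mem (IntermediateField.natCast_mem M h) x.2.1)).sub
      (Fx.nsmul (dsc_fx T (hx'.trans_lt hc1) x.2.1) h)) ?_ ?_
    · rw [map_sub, map_nsmul, dsc_deg, dsc_deg, smul_zero, sub_zero]
    · have h4 := cl_mul hcl T h x.2.1 (pow_nonneg hc0 r) hc1 hx'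
      exact sup_le_sup_left (dsp_mono fun _ _ => nr_mono (pow_sq_le hc0 hπ.lt.le hr)) _ h4
  nm := by
    rintro M M' r _ x hM hE hr ⟨T, rfl⟩ hx
    have := Um.fd hM
    have := hE.fd
    have hx' : L.nm (x.1 : Ω) ≤ L.nm (algebraMap K Ω π) ^ r := (twL_dvd hπ x r).1 hx
    have hc0 := L.nonneg (algebraMap K Ω π)
    have hc1 : L.nm (algebraMap K Ω π) ^ r < 1 := pow_lt_one₀ hc0 hπ.lt hr
    obtain ⟨x', hxM, hxn, hxt⟩ := hE.tr x.2.1
    obtain ⟨T', hT'⟩ := cht_up T hE.1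
    have e1 : dsc T' x' = dsc T x' := by
      unfold dsc
      rw [hT']
    have h3 : dsc T x' ∈ Dl m π M' r := by
      rw [← e1]
      exact dsc_mem hπ T' hxM hr (hxn.trans hx')
    refine ⟨dsc T x', h3, ?_⟩
    change dsc T x.1 - Nm M M' (dsc T x') ∈ Dl m π M (r + 1)
    refine dl_of ((dsc_fx T (hx'.trans_lt hc1) x.2.1).sub (nm_fx hE.1 h3.1)) ?_ ?_
    · rw [map_sub, dsc_deg, nm_deg hE.1 (dsc_deg T x'), sub_zero]
    · have h4 := cl_nm hcl hE.1 T hxM (pow_nonneg hc0 r) hc1 (hxn.trans hx')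
      rw [hxt] at h4
      exact sup_le_sup_left (dsp_mono fun _ _ => nr_mono (pow_sq_le hc0 hπ.lt.le hr)) _ h4

variable {m}

/-- The null cycles have symbols `0`. -/
theorem null_lv (hP : ExPr C₁ K Ω) {m₁ : Mod C₁ (Ok L) K} {π : K} {hπ : Uf L π} {l e : ℕ} {hS}
    {hD : ExDv m₁ l} {hN : ExNm m₁} :
    Null (lv0 m₁ π hπ l e hS hD hN) (scC (K := K) (Ω := Ω) C₁.bp C₂.bp) := by
  intro M a b hM ha hb
  have := Um.fd hM
  have h1 : (scC (K := K) C₁.bp C₂.bp).sy M a b =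
      (scC (K := K) C₁.bp C₂.bp).sy M (rd C₁.bp a) b := by
    rw [scC_sy, scC_sy, rd_of (rd_deg C₁.bp a)]
  rw [h1]
  have ha' := mem_Nn.1 ha
  exact sy_pc₁ hP ha'.2 (rd_fx C₁.bp ha'.1) hb

theorem null_lv' (hP : ExPr C₂ K Ω) {m₂ : Mod C₂ (Ok L) K} {π : K} {hπ : Uf L π} {l e : ℕ} {hS}
    {hD : ExDv m₂ l} {hN : ExNm m₂} :
    Null (lv0 m₂ π hπ l e hS hD hN) (scC (K := K) (Ω := Ω) C₁.bp C₂.bp).swap := by
  intro M b a hM hb ha
  have := Um.fd hM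
  change (scC (K := K) C₁.bp C₂.bp).sy M a b = 0
  have h1 : (scC (K := K) C₁.bp C₂.bp).sy M a b =
      (scC (K := K) C₁.bp C₂.bp).sy M a (rd C₂.bp b) := by
    rw [scC_sy, scC_sy, rd_of (rd_deg C₂.bp b)]
  rw [h1]
  have hb' := mem_Nn.1 hb
  exact sy_pc₂ hP ha hb'.2 (rd_fx C₂.bp hb'.1)

end CV
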