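import Pool.Agent.Lib.MP_f80667_ag.Cv.EtE

/-! # Norms up to the next level (from CLC) -/

set_option autoImplicit false

open ZC BE PE Polynomial TensorProduct IntermediateField

namespace CV

variable {F : Type} [Field F] {K Ω : Type} [Field K] [CharZero K] [Field Ω] [Algebra K Ω]
  [Algebra F K] [Algebra F Ω] [IsScalarTower F K Ω] [IsAlgClosure K Ω] {L : Ld K Ω}
  {C : Crv F} {m : Mod C (Ok L) K}

omit [CharZero K] [IsAlgClosure K Ω] in
private theorem cl_nm_perm {M M' : IntermediateField K Ω} {s : Finset (Ω ≃ₐ[K] Ω)}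
    (h1 : ∀ γ ∈ s, γ ∈ M.fixingSubgroup)
    (h2 : ∀ γ ∈ M.fixingSubgroup, ∃! δ, δ ∈ s ∧ δ⁻¹ * γ ∈ M'.fixingSubgroup)
    {w' : Ω} (hw' : w' ∈ M') {γ : Ω ≃ₐ[K] Ω} (hγ : γ ∈ M.fixingSubgroup)
    {B : Type} [CommMonoid B] (G : Ω → B) :
    ∏ δ ∈ s, G (γ (δ w')) = ∏ δ ∈ s, G (δ w') := by
  refine Finset.prod_bij
    (fun δ hδ => (h2 (γ * δ) (M.fixingSubgroup.mul_mem hγ (h1 δ hδ))).choose) ?_ ?_ ?_ ?_
  · intro δ hδ
    exact (h2 (γ * δ) (M.fixingSubgroup.mul_mem hγ (h1 δ hδ))).choose_spec.1.1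
  · intro δ hδ δ' hδ' heq
    have e₁ := (h2 (γ * δ) (M.fixingSubgroup.mul_mem hγ (h1 δ hδ))).choose_spec.1.2
    have e₂ := (h2 (γ * δ') (M.fixingSubgroup.mul_mem hγ (h1 δ' hδ'))).choose_spec.1.2
    dsimp only at heq
    rw [heq] at e₁
    have e₃ : δ⁻¹ * δ' ∈ M'.fixingSubgroup := by
      have e₄ := M'.fixingSubgroup.mul_mem (M'.fixingSubgroup.inv_mem e₁) e₂
      have e₅ : ∀ ε : Ω ≃ₐ[K] Ω, (ε⁻¹ * (γ * δ))⁻¹ * (ε⁻¹ * (γ * δ')) = δ⁻¹ * δ' := fun ε => by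
        group
      rwa [e₅] at e₄
    have e₆ : δ'⁻¹ * δ' ∈ M'.fixingSubgroup := by
      rw [inv_mul_cancel]
      exact M'.fixingSubgroup.one_mem
    exact (h2 δ' (h1 δ' hδ')).unique ⟨hδ, e₃⟩ ⟨hδ', e₆⟩
  · intro ε hε
    obtain ⟨δ, ⟨hδ, e₁⟩, -⟩ :=
      h2 (γ⁻¹ * ε) (M.fixingSubgroup.mul_mem (M.fixingSubgroup.inv_mem hγ) (h1 ε hε))
    refine ⟨δ, hδ, ?_⟩
    have e₂ := (h2 (γ * δ) (M.fixingSubgroup.mul_mem hγ (h1 δ hδ))).choose_spec.1
    have e₃ : ε⁻¹ * (γ * δ) ∈ M'.fixingSubgroup := by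
      have e₄ := M'.fixingSubgroup.inv_mem e₁
      have e₅ : (δ⁻¹ * (γ⁻¹ * ε))⁻¹ = ε⁻¹ * (γ * δ) := by group
      rwa [e₅] at e₄
    exact (h2 (γ * δ) (M.fixingSubgroup.mul_mem hγ (h1 δ hδ))).unique e₂ ⟨hε, e₃⟩
  · intro δ hδ
    have e₁ := (h2 (γ * δ) (M.fixingSubgroup.mul_mem hγ (h1 δ hδ))).choose_spec.1.2
    generalize (h2 (γ * δ) (M.fixingSubgroup.mul_mem hγ (h1 δ hδ))).choose = ε at e₁ ⊢
    have e₂ := (IntermediateField.mem_fixingSubgroup_iff M' _).1 e₁ w' hw'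
    change ε.symm (γ (δ w')) = w' at e₂
    rw [← e₂, AlgEquiv.apply_symm_apply, e₂]

/-- Norms. Proof: `nm_rep`: representatives `s`; `hcl` for `f = ∏ (γ ∈ s) (X - γ w')`,
`g = X ^ (n - 1) (X - ∑ γ w')` (`pr_cong2`); the coefficients of `f` are in `M` since the group of `M` permutes the
`γ w'`, `γ ∈ s` (the coset of `γ` determines `γ w'`); `Nm M M' w' ∈ M` (`nm_fx`, `fx_mem`); `T.eqv`:
`V.act γ (T.P w') = T.P (γ w')`, so `Nm M M' [T.P w'] = rcy T.P f`. -/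
theorem cl_nm (hcl : ExCl m) {M M' : IntermediateField K Ω} [FiniteDimensional K M'] (h : M ≤ M')
    (T : Cht m M) {w' : Ω} (hw' : w' ∈ M') {ρ : ℝ} (h0 : 0 ≤ ρ) (h1 : ρ < 1)
    (hρ : L.nm w' ≤ ρ) :
    dsc T (Nm M M' w') - Nm M M' (dsc T w') ∈ Pc C Ω ⊔ Dsp L C.V (Nr m (ρ ^ 2)) M := by
  classical
  have hMfd : FiniteDimensional K M :=
    Module.Finite.of_injective (IntermediateField.inclusion h).toLinearMap
      (IntermediateField.inclusion_injective h)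
  have hNmem : Nm M M' w' ∈ M := fx_mem.1 (nm_fx h (fx_mem.2 hw'))
  obtain ⟨s, -, hs1, hs2, hs3⟩ := nm_rep (K := K) (Ω := Ω) h
  set c : Multiset Ω := s.val.map fun γ => γ w' with hc
  have hsum : c.sum = Nm M M' w' := by
    rw [hs3 Ω w']
    rfl
  have hmem : ∀ x ∈ c, L.nm x ≤ ρ := by
    intro x hx
    obtain ⟨γ, -, rfl⟩ := Multiset.mem_map.1 hx
    rw [L.act]
    exact hρ
  obtain ⟨n, hn⟩ : ∃ n, c.card = n + 1 := by
    obtain ⟨δ, ⟨hδ, -⟩, -⟩ := hs2 1 M.fixingSubgroup.one_mem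
    refine Nat.exists_eq_succ_of_ne_zero fun h => ?_
    rw [hc, Multiset.card_map] at h
    have h' : s = ∅ := Finset.card_eq_zero.1 h
    rw [h'] at hδ
    exact Finset.notMem_empty _ hδ
  have hc0 : c ≠ 0 := fun h => by
    rw [h, Multiset.card_zero] at hn
    exact absurd hn (Nat.succ_ne_zero n).symm
  set f : Polynomial Ω := (c.map fun x => X - Polynomial.C x).prod with hf
  have hcong : ∀ i, L.nm (f.coeff i -
      (X ^ n * (X - Polynomial.C (Nm M M' w')) : Polynomial Ω).coeff i) ≤ ρ ^ 2 := by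
    intro i
    have := pr_cong2 (L := L) c hc0 h0 h1.le hmem i
    rw [hsum, hn, Nat.add_sub_cancel, coeff_sub] at this
    exact this
  have hcong' : ∀ i, L.nm ((X ^ n * (X - Polynomial.C (Nm M M' w')) : Polynomial Ω).coeff i -
      f.coeff i) ≤ ρ ^ 2 := by
    intro i
    rw [← L.neg, neg_sub]
    exact hcong i
  have hρ2 : ρ ^ 2 < 1 := pow_lt_one₀ h0 h1 two_ne_zero
  have hfm : f.Monic := monic_multiset_prod_of_monic _ _ fun x _ => monic_X_sub_C x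
  have hgm : (X ^ n * (X - Polynomial.C (Nm M M' w')) : Polynomial Ω).Monic :=
    (monic_X_pow n).mul (monic_X_sub_C _)
  have hfd : f.natDegree = n + 1 := by
    rw [hf, natDegree_multiset_prod_X_sub_C_eq_card, hn]
  have hgd : (X ^ n * (X - Polynomial.C (Nm M M' w')) : Polynomial Ω).natDegree = n + 1 := by
    rw [(monic_X_pow n).natDegree_mul (monic_X_sub_C _), natDegree_X_pow, natDegree_X_sub_C]
  have hflt : ∀ i < n + 1, L.nm (f.coeff i) < 1 := by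
    intro i hi
    refine lin_lt _ (fun x hx => (hmem x hx).trans_lt h1) i ?_
    rw [hn]
    exact hi
  have hff : f = ∏ δ ∈ s, (X - Polynomial.C (δ w')) := by
    rw [hf, hc, Multiset.map_map]
    rfl
  have hDf : Dpo L M f := by
    refine ⟨hfm, fun i => ?_, fun i hi => hflt i (hfd ▸ hi)⟩
    refine fx_mem.1 fun γ hγ => ?_
    have e : f.map ((γ : Ω →ₐ[K] Ω) : Ω →+* Ω) = f := by
      rw [hff, Polynomial.map_prod]
      have e2 : ∀ δ ∈ s, (X - Polynomial.C (δ w') : Polynomial Ω).map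
          ((γ : Ω →ₐ[K] Ω) : Ω →+* Ω) = X - Polynomial.C (γ (δ w')) := fun δ _ => by
        rw [Polynomial.map_sub, map_X, map_C]
        rfl
      rw [Finset.prod_congr rfl e2]
      exact cl_nm_perm hs1 hs2 hw' hγ fun x => (X - Polynomial.C x : Polynomial Ω)
    have e3 : (f.map ((γ : Ω →ₐ[K] Ω) : Ω →+* Ω)).coeff i = f.coeff i := by rw [e]
    rw [coeff_map] at e3
    exact e3
  have hDg : Dpo L M (X ^ n * (X - Polynomial.C (Nm M M' w'))) := by
    refine ⟨hgm, fun i => ?_, fun i hi => ?_⟩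
    · have e : (X ^ n * (X - Polynomial.C (Nm M M' w')) : Polynomial Ω) =
          (X ^ n * (X - Polynomial.C (⟨Nm M M' w', hNmem⟩ : M)) : Polynomial M).map
            (algebraMap M Ω) := by
        rw [Polynomial.map_mul, Polynomial.map_pow, Polynomial.map_sub, map_X, map_C]
        rfl
      rw [e, coeff_map]
      exact SetLike.coe_mem _
    · have h2 := L.add ((X ^ n * (X - Polynomial.C (Nm M M' w')) :
        Polynomial Ω).coeff i - f.coeff i) (f.coeff i)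
      rw [sub_add_cancel] at h2
      exact h2.trans_lt (max_lt ((hcong' i).trans_lt hρ2) (hflt i (hgd ▸ hi)))
  have key := hcl M hMfd T _ _ (ρ ^ 2) hDg hDf (hgd.trans hfd.symm) hρ2 hcong'
  rw [rcy_mul T.P (monic_X_pow n).ne_zero (monic_X_sub_C _).ne_zero, rcy_X_pow, rcy_X_sub] at key
  have hrf : rcy T.P f = ∑ γ ∈ s, Finsupp.single (T.P (γ w')) (1 : ℤ) := by
    rw [rcy, hf, roots_multiset_prod_X_sub_C, hc, Multiset.map_map]
    rfl
  have hw1 : L.nm w' < 1 := hρ.trans_lt h1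
  have hNd : Nm M M' (dsc T w') =
      ∑ γ ∈ s, (Finsupp.single (T.P (γ w')) (1 : ℤ) - Finsupp.single (T.P 0) 1) := by
    rw [hs3]
    refine Finset.sum_congr rfl fun γ hγ => ?_
    have h01 : L.nm (0 : Ω) < 1 := by
      rw [L.zero]
      exact zero_lt_one
    rw [dsc, smul_sub, smul_single, smul_single, T.eqv γ (hs1 γ hγ) w' hw1,
      T.eqv γ (hs1 γ hγ) 0 h01, map_zero]
  have hcard : s.card = n + 1 := by
    rw [← hn, hc, Multiset.card_map]
    rfl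
  have e : dsc T (Nm M M' w') - Nm M M' (dsc T w') =
      Finsupp.single (T.P 0) (n : ℤ) + Finsupp.single (T.P (Nm M M' w')) 1 - rcy T.P f := by
    have e1 : (Finsupp.single (T.P 0) (n : ℤ) : C.V.pt Ω →₀ ℤ) =
        n • Finsupp.single (T.P 0) (1 : ℤ) := by
      rw [Finsupp.smul_single, nsmul_eq_mul, mul_one]
    rw [hNd, Finset.sum_sub_distrib, Finset.sum_const, hcard, e1, hrf, dsc, succ_nsmul _ n]
    abel
  rw [e]
  exact key

end CV
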