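import Pool.Agent.Lib.MP_f80667_ag.Cv.EraL

/-! # From the relation between points to the relation between symbols

`P k`, `Q k` are the classes of the two coordinates of the points `x (k π)`, `P₀`, `Q₀` those of the
centre. If `∑ w_k {P k, Q k}` is in `V` and the two projections `∑ w_k P k`, `∑ w_k Q k` have symbols
in `V`, then `∑ w_k {P k - P₀, Q k - Q₀}` is in `V`, since the weights `w_k` have sum `0`. -/

set_option autoImplicit false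

open PE Finset

namespace CV

variable {K Ω : Type} [Field K] [CharZero K] [Field Ω] [Algebra K Ω] [IsAlgClosure K Ω]
  {A B G : Type} [AddCommGroup A] [AddCommGroup B] [AddCommGroup G]
  [DistribMulAction (Ω ≃ₐ[K] Ω) A] [DistribMulAction (Ω ≃ₐ[K] Ω) B] {S : Sc K Ω A B G}
  {M : IntermediateField K Ω}

theorem fx_zsmul {a : A} (ha : Fx M a) (n : ℤ) : Fx M (n • a) := by
  obtain ⟨m, rfl | rfl⟩ := n.eq_nat_or_neg
  · rw [natCast_zsmul]
    exact ha.nsmul m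
  · rw [neg_zsmul, natCast_zsmul]
    exact (ha.nsmul m).neg

theorem sy_zsmul₁ [FiniteDimensional K M] {a : A} {b : B} (ha : Fx M a) (hb : Fx M b) (n : ℤ) :
    S.sy M (n • a) b = n • S.sy M a b := by
  obtain ⟨m, rfl | rfl⟩ := n.eq_nat_or_neg
  · rw [natCast_zsmul, natCast_zsmul, sy_smul₁ ha hb]
  · rw [neg_zsmul, natCast_zsmul, neg_zsmul, natCast_zsmul, sy_neg₁ (ha.nsmul m) hb,
      sy_smul₁ ha hb]

theorem sy_zsmul₂ [FiniteDimensional K M] {a : A} {b : B} (ha : Fx M a) (hb : Fx M b) (n : ℤ) :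
    S.sy M a (n • b) = n • S.sy M a b :=
  sy_zsmul₁ (S := S.swap) hb ha n

theorem sy_sum₁ [FiniteDimensional K M] {ι : Type} (s : Finset ι) {a : ι → A} {b : B}
    (ha : ∀ i ∈ s, Fx M (a i)) (hb : Fx M b) :
    S.sy M (∑ i ∈ s, a i) b = ∑ i ∈ s, S.sy M (a i) b := by
  classical
  induction s using Finset.induction_on with
  | empty => rw [sum_empty, sum_empty, sy_zero₁ hb]
  | insert i s hi ih =>
    have h1 : ∀ i ∈ s, Fx M (a i) := fun j hj => ha j (mem_insert_of_mem hj)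
    rw [sum_insert hi, sum_insert hi, S.add₁ M _ _ b (ha i (mem_insert_self i s))
      (Fx.sum s h1) hb, ih h1]

theorem sy_sum₂ [FiniteDimensional K M] {ι : Type} (s : Finset ι) {a : A} {b : ι → B}
    (ha : Fx M a) (hb : ∀ i ∈ s, Fx M (b i)) :
    S.sy M a (∑ i ∈ s, b i) = ∑ i ∈ s, S.sy M a (b i) :=
  sy_sum₁ (S := S.swap) s hb ha

/-- The relation between the symbols of the displacements. -/
theorem rel_of [FiniteDimensional K M] {N : ℕ} (hN : N ≠ 0) (V : AddSubgroup G)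
    {P : ℕ → A} {Q : ℕ → B} {P₀ : A} {Q₀ : B} (hP : ∀ k, Fx M (P k)) (hQ : ∀ k, Fx M (Q k))
    (hP₀ : Fx M P₀) (hQ₀ : Fx M Q₀)
    (h : ∑ k ∈ range (N + 1), ((-1 : ℤ) ^ (N - k) * N.choose k) • S.sy M (P k) (Q k) ∈ V)
    (h₁ : S.sy M (∑ k ∈ range (N + 1), ((-1 : ℤ) ^ (N - k) * N.choose k) • P k) Q₀ ∈ V)
    (h₂ : S.sy M P₀ (∑ k ∈ range (N + 1), ((-1 : ℤ) ^ (N - k) * N.choose k) • Q k) ∈ V) :
    ∑ k ∈ range (N + 1), ((-1 : ℤ) ^ (N - k) * N.choose k) •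
      S.sy M (P k - P₀) (Q k - Q₀) ∈ V := by
  rw [sy_sum₁ _ (fun k _ => fx_zsmul (hP k) _) hQ₀] at h₁
  rw [sy_sum₂ _ hP₀ (fun k _ => fx_zsmul (hQ k) _)] at h₂
  have h3 := V.sub_mem (V.sub_mem h h₁) h₂
  rw [← sum_sub_distrib, ← sum_sub_distrib] at h3
  have h4 : ∑ k ∈ range (N + 1), ((-1 : ℤ) ^ (N - k) * N.choose k) • S.sy M P₀ Q₀ = 0 := by
    rw [← sum_smul, sum_sign_choose N hN, zero_smul]
  rw [← add_zero (∑ k ∈ range (N + 1), (_ - _ - _)), ← h4, ← sum_add_distrib] at h3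
  convert h3 using 1
  refine sum_congr rfl fun k _ => ?_
  rw [sy_zsmul₁ (hP k) hQ₀, sy_zsmul₂ hP₀ (hQ k), ← smul_sub, ← smul_sub, ← smul_add,
    sy_sub₁ (hP k) hP₀ ((hQ k).sub hQ₀), sy_sub₂ (hP k) (hQ k) hQ₀, sy_sub₂ hP₀ (hQ k) hQ₀]
  congr 1
  abel

/-- The same with the two axis terms written as sums. -/
theorem rel_of' [FiniteDimensional K M] {N : ℕ} (hN : N ≠ 0) (V : AddSubgroup G)
    {P : ℕ → A} {Q : ℕ → B} {P₀ : A} {Q₀ : B} (hP : ∀ k, Fx M (P k)) (hQ : ∀ k, Fx M (Q k))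
    (hP₀ : Fx M P₀) (hQ₀ : Fx M Q₀)
    (h : ∑ k ∈ range (N + 1), ((-1 : ℤ) ^ (N - k) * N.choose k) • S.sy M (P k) (Q k) ∈ V)
    (h₁ : ∑ k ∈ range (N + 1), ((-1 : ℤ) ^ (N - k) * N.choose k) • S.sy M (P k) Q₀ ∈ V)
    (h₂ : ∑ k ∈ range (N + 1), ((-1 : ℤ) ^ (N - k) * N.choose k) • S.sy M P₀ (Q k) ∈ V) :
    ∑ k ∈ range (N + 1), ((-1 : ℤ) ^ (N - k) * N.choose k) •
      S.sy M (P k - P₀) (Q k - Q₀) ∈ V := by
  refine rel_of hN V hP hQ hP₀ hQ₀ h ?_ ?_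
  · rw [sy_sum₁ _ (fun k _ => fx_zsmul (hP k) _) hQ₀]
    simp only [sy_zsmul₁ (hP _) hQ₀]
    exact h₁
  · rw [sy_sum₂ _ hP₀ (fun k _ => fx_zsmul (hQ k) _)]
    simp only [sy_zsmul₂ hP₀ (hQ _)]
    exact h₂

/-- The symbols of two points over `M` and the displacements of a pair. -/
theorem sy_disp [FiniteDimensional K M] {P P' : A} {Q Q' : B} (hP : Fx M P) (hP' : Fx M P')
    (hQ : Fx M Q) (hQ' : Fx M Q') :
    S.sy M P Q - S.sy M P' Q' = S.sy M (P - P') Q + S.sy M P' (Q - Q') := by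
  rw [sy_sub₁ hP hP' hQ, sy_sub₂ hP' hQ hQ']
  abel

end CV
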