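import Pool.Agent.Lib.MP_f80667_ag.Cv.EtD
import Pool.Agent.Lib.MP_f80667_ag.Cv.EtF
import Pool.Agent.Lib.MP_f80667_ag.Cv.EraP
import Pool.Agent.Lib.MP_f80667_ag.Cv.EraR
import Pool.Agent.Lib.MP_f80667_ag.Cv.Sg

/-! # The relation between symbols of displacements (from CLX) -/

set_option autoImplicit false

open ZC BE PE Polynomial TensorProduct IntermediateField

namespace CV

section poly

variable {K Ω : Type} [Field K] [CharZero K] [Field Ω] [Algebra K Ω] [IsAlgClosure K Ω]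
  {L : Ld K Ω} {M : IntermediateField K Ω}

theorem Ipo.eval_lt {r : Polynomial Ω} (h : Ipo L M r) {w : Ω} (hw : L.nm w < 1) :
    L.nm (r.eval w) < 1 := by
  have h0 : L.nm (0 : Ω) ≤ 1 := by
    rw [L.zero]
    exact zero_le_one
  have h1 := L.eval_close h.le hw.le h0
  rw [sub_zero, ← coeff_zero_eq_eval_zero] at h1
  have h2 : r.eval w = (r.eval w - r.coeff 0) + r.coeff 0 := by ring
  rw [h2]
  exact (L.add _ _).trans_lt (max_lt (h1.trans_lt hw) h.lt)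

theorem Ipo.eval_act {r : Polynomial Ω} (h : Ipo L M r) {γ : Ω ≃ₐ[K] Ω}
    (hγ : γ ∈ M.fixingSubgroup) (w : Ω) : γ (r.eval w) = r.eval (γ w) := by
  rw [eval_eq_sum_range, eval_eq_sum_range, map_sum]
  refine Finset.sum_congr rfl fun i _ => ?_
  rw [map_mul, map_pow, (IntermediateField.mem_fixingSubgroup_iff M γ).1 hγ _ (h.mem i)]

theorem Ipo.eval_mem {r : Polynomial Ω} (h : Ipo L M r) {w : Ω} (hw : w ∈ M) :
    r.eval w ∈ M := by
  rw [eval_eq_sum_range]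
  exact sum_mem fun i _ => mul_mem (h.mem i) (pow_mem hw i)

theorem ipo_mon {u : Ω} (hu : u ∈ M) (hu1 : L.nm u ≤ 1) {a : ℕ} (ha : a = 0 → L.nm u < 1) :
    Ipo L M (C u * X ^ a) where
  mem i := by
    rw [coeff_C_mul_X_pow]
    split_ifs
    exacts [hu, zero_mem M]
  le i := by
    rw [coeff_C_mul_X_pow]
    split_ifs
    exacts [hu1, by rw [L.zero]; exact zero_le_one]
  lt := by
    rw [coeff_C_mul_X_pow]
    split_ifs with h
    exacts [ha h.symm, nm_zero_lt]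

/-- The polynomial with the roots `s`. -/
theorem dpo_lin (s : Multiset (Om L M)) (h : ∀ c ∈ s, L.nm (c : Ω) < 1) :
    Dpo L M ((lin s).map (Om L M).subtype) where
  monic := (lin_monic s).map _
  mem i := by
    rw [coeff_map]
    exact ((lin s).coeff i).2.1
  lt i hi := by
    have e1 : (lin s).map (Om L M).subtype = ((s.map ((↑) : Om L M → Ω)).map fun c =>
        X - C c).prod := by
      rw [lin, Polynomial.map_multiset_prod, Multiset.map_map, Multiset.map_map]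
      congr 1
      refine Multiset.map_congr rfl fun c _ => ?_
      simp
    rw [e1] at hi ⊢
    rw [natDegree_multiset_prod_X_sub_C_eq_card] at hi
    refine lin_lt _ (fun c hc => ?_) i hi
    obtain ⟨d, hd, rfl⟩ := Multiset.mem_map.1 hc
    exact h d hd

theorem roots_lin (s : Multiset (Om L M)) :
    ((lin s).map (Om L M).subtype).roots = s.map ((↑) : Om L M → Ω) := by
  have e1 : (lin s).map (Om L M).subtype = ((s.map ((↑) : Om L M → Ω)).map fun c =>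
      X - C c).prod := by
    rw [lin, Polynomial.map_multiset_prod, Multiset.map_map, Multiset.map_map]
    congr 1
    refine Multiset.map_congr rfl fun c _ => ?_
    simp
  rw [e1, roots_multiset_prod_X_sub_C]

theorem deg_lin (s : Multiset (Om L M)) : ((lin s).map (Om L M).subtype).natDegree = s.card := by
  rw [(lin_monic s).natDegree_map, lin_natDegree]

end poly

variable {F : Type} [Field F] {K Ω : Type} [Field K] [CharZero K] [Field Ω] [Algebra K Ω]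
  [Algebra F K] [Algebra F Ω] [IsScalarTower F K Ω] [IsAlgClosure K Ω] {L : Ld K Ω}
  {C₁ C₂ : Crv F} (m₁ : Mod C₁ (Ok L) K) (m₂ : Mod C₂ (Ok L) K)

/-- The group of the symbols with one entry of level `N`. -/
noncomputable def PsD (π : K) (N : ℕ) :
    AddSubgroup (((Vpr C₁.V C₂.V).pt Ω →₀ ℤ) ⧸ (Vpr C₁.V C₂.V).ratEq K Ω) :=
  AddSubgroup.closure {g | ∃ (M : IntermediateField K Ω) (a : C₁.V.pt Ω →₀ ℤ)
    (b : C₂.V.pt Ω →₀ ℤ), Um L M ∧ ((a ∈ Dl m₁ π M N ∧ Fx M b) ∨ (Fx M a ∧ b ∈ Dl m₂ π M N)) ∧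
    g = (scC (K := K) C₁.bp C₂.bp).sy M a b}

variable {m₁ m₂} {M : IntermediateField K Ω}

/-- `sg M` as a homomorphism. -/
noncomputable def sgh (M : IntermediateField K Ω) [FiniteDimensional K M] :
    ((Vpr C₁.V C₂.V).pt Ω →₀ ℤ) →+ (((Vpr C₁.V C₂.V).pt Ω →₀ ℤ) ⧸ (Vpr C₁.V C₂.V).ratEq K Ω) :=
  AddMonoidHom.mk' (sg M) (sg_add M)

theorem sg_dsp {π : K} (hM : Um L M) [FiniteDimensional K M] {N : ℕ}
    {z : (Vpr C₁.V C₂.V).pt Ω →₀ ℤ}
    (hz : z ∈ Dsp L (Vpr C₁.V C₂.V) (Nr₂ m₁ m₂ (L.nm (algebraMap K Ω π) ^ N)) M) :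
    sg M z ∈ PsD m₁ m₂ π N := by
  rw [dsp_gen] at hz
  have h1 : AddSubgroup.closure {z | ∃ M' y y', Em L M M' ∧ Fp (Vpr C₁.V C₂.V) M' y ∧
      Fp (Vpr C₁.V C₂.V) M' y' ∧ Nr₂ m₁ m₂ (L.nm (algebraMap K Ω π) ^ N) y y' ∧
      z = Nm M M' (Finsupp.single y 1 - Finsupp.single y' 1 : (Vpr C₁.V C₂.V).pt Ω →₀ ℤ)} ≤
      (PsD m₁ m₂ π N).comap (sgh M) := by
    rw [AddSubgroup.closure_le]
    rintro z ⟨M', y, y', hE, hy, hy', hn, rfl⟩
    have := hE.fd
    have hM' := Um.up hM hE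
    change sg M _ ∈ PsD m₁ m₂ π N
    have hy1 : Fp C₁.V M' y.1 := fun γ hγ => congrArg Prod.fst (hy γ hγ)
    have hy2 : Fp C₂.V M' y.2 := fun γ hγ => congrArg Prod.snd (hy γ hγ)
    have hy1' : Fp C₁.V M' y'.1 := fun γ hγ => congrArg Prod.fst (hy' γ hγ)
    have hy2' : Fp C₂.V M' y'.2 := fun γ hγ => congrArg Prod.snd (hy' γ hγ)
    rw [sg_nm hE.1 ((fx_single hy 1).sub (fx_single hy' 1))]
    have h2 := sg_sub (C₁ := C₁) (C₂ := C₂) M' hy1 hy1' hy2 hy2'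
    have h3 : sg M' (Finsupp.single y 1 - Finsupp.single y' 1 : (Vpr C₁.V C₂.V).pt Ω →₀ ℤ) =
        sg M' (Finsupp.single (pp y.1 y.2) 1 - Finsupp.single (pp y'.1 y'.2) 1) := rfl
    rw [h3, h2]
    refine (PsD m₁ m₂ π N).add_mem (AddSubgroup.subset_closure ⟨M', _, _, hM', Or.inl ⟨?_, ?_⟩,
      rfl⟩) (AddSubgroup.subset_closure ⟨M', _, _, hM', Or.inr ⟨?_, ?_⟩, rfl⟩)
    · refine dl_of ((fx_single hy1 1).sub (fx_single hy1' 1)) ?_
        (AddSubgroup.mem_sup_right (dsp_pt hy1 hy1' hn.1))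
      rw [map_sub]
      simp [Vr.deg]
    · exact fx_single hy2 1
    · exact fx_single hy1' 1
    · refine dl_of ((fx_single hy2 1).sub (fx_single hy2' 1)) ?_
        (AddSubgroup.mem_sup_right (dsp_pt hy2 hy2' hn.2))
      rw [map_sub]
      simp [Vr.deg]
  exact h1 hz

/-- The comparison for symbols. -/
theorem cx_sy (hcx : ExC2 m₁ m₂) {π : K} (hπ : Uf L π) (hM : Um L M) (T₁ : Cht m₁ M)
    (T₂ : Cht m₂ M) {r₁ r₂ : Polynomial Ω} (h₁ : Ipo L M r₁) (h₂ : Ipo L M r₂) {N : ℕ}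
    (hN : N ≠ 0) {s t : Multiset (Om L M)} (hc : s.card = t.card)
    (hs : ∀ c ∈ s, L.nm (c : Ω) < 1) (ht : ∀ c ∈ t, L.nm (c : Ω) < 1) {w : Om L M}
    (hw : (w : Ω) = algebraMap K Ω π) (hst : C (w ^ N) ∣ lin s - lin t) :
    (s.map fun z : Om L M => (scC (K := K) C₁.bp C₂.bp).sy M
      (Finsupp.single (T₁.P (r₁.eval (z : Ω))) 1)
      (Finsupp.single (T₂.P (r₂.eval (z : Ω))) 1)).sum -
    (t.map fun z : Om L M => (scC (K := K) C₁.bp C₂.bp).sy M
      (Finsupp.single (T₁.P (r₁.eval (z : Ω))) 1)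
      (Finsupp.single (T₂.P (r₂.eval (z : Ω))) 1)).sum ∈ PsD m₁ m₂ π N := by
  have hfd := Um.fd hM
  set P : Ω → (Vpr C₁.V C₂.V).pt Ω := fun w => pp (T₁.P (r₁.eval w)) (T₂.P (r₂.eval w)) with hP
  have hc0 := L.nonneg (algebraMap K Ω π)
  have hc1 : L.nm (algebraMap K Ω π) ^ N < 1 := pow_lt_one₀ hc0 hπ.lt hN
  have key := hcx M hfd T₁ T₂ r₁ r₂ h₁ h₂ ((lin s).map (Om L M).subtype)
    ((lin t).map (Om L M).subtype) (L.nm (algebraMap K Ω π) ^ N) (dpo_lin s hs) (dpo_lin t ht)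
    (by rw [deg_lin, deg_lin, hc]) hc1 (fun i => by
      obtain ⟨q, hq⟩ := hst
      have e1 : ((lin s).map (Om L M).subtype).coeff i - ((lin t).map (Om L M).subtype).coeff i =
          (algebraMap K Ω π) ^ N * (q.coeff i : Ω) := by
        rw [← coeff_sub, ← Polynomial.map_sub, hq, coeff_map, coeff_C_mul, map_mul, map_pow]
        change (w : Ω) ^ N * _ = _
        rw [hw]
        rfl
      rw [e1, L.mul, L.pow]
      exact mul_le_of_le_one_right (pow_nonneg hc0 N) (q.coeff i).2.2)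
  obtain ⟨z₁, hz₁, z₂, hz₂, e⟩ := AddSubgroup.mem_sup.1 key
  have hact : ∀ γ ∈ M.fixingSubgroup, ∀ w, L.nm w < 1 →
      (Vpr C₁.V C₂.V).act γ (P w) = P (γ w) := by
    intro γ hγ w hw
    refine Prod.ext ?_ ?_
    · change C₁.V.act γ (T₁.P (r₁.eval w)) = T₁.P (r₁.eval (γ w))
      rw [T₁.eqv γ hγ _ (h₁.eval_lt hw), h₁.eval_act hγ]
    · change C₂.V.act γ (T₂.P (r₂.eval w)) = T₂.P (r₂.eval (γ w))
      rw [T₂.eqv γ hγ _ (h₂.eval_lt hw), h₂.eval_act hγ]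
  have hsum : ∀ u : Multiset (Om L M), sgh M (rcy P ((lin u).map (Om L M).subtype)) =
      (u.map fun z : Om L M => (scC (K := K) C₁.bp C₂.bp).sy M
        (Finsupp.single (T₁.P (r₁.eval (z : Ω))) 1)
        (Finsupp.single (T₂.P (r₂.eval (z : Ω))) 1)).sum := by
    intro u
    rw [rcy, roots_lin, Multiset.map_map, map_multiset_sum, Multiset.map_map]
    congr 1
    refine Multiset.map_congr rfl fun z _ => ?_
    exact sg_pt M (P (z : Ω))
  have hz1 : Fx M z₁ := by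
    have e1 : z₁ = (rcy P ((lin s).map (Om L M).subtype) -
        rcy P ((lin t).map (Om L M).subtype)) - z₂ := by
      rw [← e, add_sub_cancel_right]
    rw [e1]
    exact ((rcy_fx (dpo_lin s hs) P hact).sub (rcy_fx (dpo_lin t ht) P hact)).sub (dsp_fx hz₂)
  rw [← hsum, ← hsum, ← map_sub, ← e, map_add]
  have e2 : sgh M z₁ = 0 := sg_ratEq hz₁ hz1
  rw [e2, zero_add]
  exact sg_dsp hM hz₂

/-- **The relation.** -/
theorem cx_rel (hcx : ExC2 m₁ m₂) {π : K} (hπ : Uf L π) (hM : Um L M) (T₁ : Cht m₁ M)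
    (T₂ : Cht m₂ M) {N a b : ℕ} (hN : N ≠ 0) (hab : a + b = N) {x y w : Om L M}
    (hw : (w : Ω) = algebraMap K Ω π) (hx : w ∣ x) (hy : w ∣ y) (hxa : w ^ a ∣ x)
    (hyb : w ^ b ∣ y) :
    ∑ k ∈ Finset.range (N + 1), ((-1 : ℤ) ^ (N - k) * N.choose k) •
      (scC (K := K) C₁.bp C₂.bp).sy M (dsc T₁ (((k ^ a : ℕ) * x : Om L M) : Ω))
        (dsc T₂ (((k ^ b : ℕ) * y : Om L M) : Ω)) ∈ PsD m₁ m₂ π N := by
  have hfd := Um.fd hM
  obtain ⟨u, hu⟩ := hxa
  obtain ⟨v, hv⟩ := hyb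
  have hlt : ∀ c : Om L M, w ∣ c → L.nm (c : Ω) < 1 := by
    rintro _ ⟨c, rfl⟩
    change L.nm ((w : Ω) * (c : Ω)) < 1
    rw [L.mul, hw]
    exact (mul_le_of_le_one_right (L.nonneg _) c.2.2).trans_lt hπ.lt
  have hr₁ : Ipo L M (C (u : Ω) * X ^ a) := ipo_mon u.2.1 u.2.2 fun h => by
    rw [h, pow_zero, one_mul] at hu
    rw [← hu]
    exact hlt x hx
  have hr₂ : Ipo L M (C (v : Ω) * X ^ b) := ipo_mon v.2.1 v.2.2 fun h => by
    rw [h, pow_zero, one_mul] at hv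
    rw [← hv]
    exact hlt y hy
  have hr0 : Ipo L M (0 : Polynomial Ω) :=
    ⟨fun i => by rw [coeff_zero]; exact zero_mem M, fun i => by
      rw [coeff_zero, L.zero]; exact zero_le_one, by rw [coeff_zero]; exact nm_zero_lt⟩
  have main : ∀ r₁ r₂ : Polynomial Ω, Ipo L M r₁ → Ipo L M r₂ →
      ∑ k ∈ Finset.range (N + 1), ((-1 : ℤ) ^ (N - k) * N.choose k) •
        (scC (K := K) C₁.bp C₂.bp).sy M
          (Finsupp.single (T₁.P (r₁.eval (((k : Om L M) * w : Om L M) : Ω))) 1)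
          (Finsupp.single (T₂.P (r₂.eval (((k : Om L M) * w : Om L M) : Ω))) 1) ∈
            PsD m₁ m₂ π N := by
    intro r₁ r₂ h₁ h₂
    exact diff_mem w N hN (fun z : Om L M => (scC (K := K) C₁.bp C₂.bp).sy M
      (Finsupp.single (T₁.P (r₁.eval (z : Ω))) 1)
      (Finsupp.single (T₂.P (r₂.eval (z : Ω))) 1)) (PsD m₁ m₂ π N)
      (fun s t hc hs ht hst => cx_sy hcx hπ hM T₁ T₂ h₁ h₂ hN hc (fun c hc => hlt c (hs c hc))
        (fun c hc => hlt c (ht c hc)) hw hst)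
  have e₁ : ∀ k : ℕ, (C (u : Ω) * X ^ a : Polynomial Ω).eval (((k : Om L M) * w : Om L M) : Ω) =
      (((k ^ a : ℕ) * x : Om L M) : Ω) := by
    intro k
    rw [hu]
    simp only [eval_mul, eval_C, eval_pow, eval_X, Subring.coe_mul, Subring.coe_natCast,
      Subring.coe_pow, Nat.cast_pow]
    ring
  have e₂ : ∀ k : ℕ, (C (v : Ω) * X ^ b : Polynomial Ω).eval (((k : Om L M) * w : Om L M) : Ω) =
      (((k ^ b : ℕ) * y : Om L M) : Ω) := by
    intro k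
    rw [hv]
    simp only [eval_mul, eval_C, eval_pow, eval_X, Subring.coe_mul, Subring.coe_natCast,
      Subring.coe_pow, Nat.cast_pow]
    ring
  have m1 := main _ _ hr₁ hr₂
  have m2 := main _ _ hr₁ hr0
  have m3 := main _ _ hr0 hr₂
  simp only [e₁, e₂, eval_zero] at m1 m2 m3
  have hk : ∀ (k : ℕ) (x : Om L M), w ∣ x → L.nm (((k : ℕ) * x : Om L M) : Ω) < 1 :=
    fun k x hx => hlt _ (hx.mul_left _)
  exact rel_of' hN _
    (fun k => fx_single ((cht_fp T₁ (hk (k ^ a) x hx)).2 (((k ^ a : ℕ) : Om L M) * x).2.1) 1)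
    (fun k => fx_single ((cht_fp T₂ (hk (k ^ b) y hy)).2 (((k ^ b : ℕ) : Om L M) * y).2.1) 1)
    (fx_single ((cht_fp T₁ nm_zero_lt).2 (zero_mem M)) 1)
    (fx_single ((cht_fp T₂ nm_zero_lt).2 (zero_mem M)) 1) m1 m2 m3

end CV
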