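import Pool.Agent.Lib.MP_f80667_ag.Cv.GlbC

/-!
Products of curves: the Albanese kernel modulo `n` is finite. Definitions.

* `FnG V K Ω n`: the Albanese kernel modulo `n` is finite, in terms of cycles.
* `LcF C`: the local theorem, for the residue characteristic.
* `FnP K V n`: the same in terms of classes.
* `FdP K V Λ`: the Albanese kernel is covered by a finite set modulo all `n` with prime factors in `Λ`.
* `Gq A C l`: good reduction over an extension of degree prime to `l`.
-/

open ZC BE PE Polynomial IntermediateField IsDedekindDomain NumberField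

namespace CV

section def_

variable {F : Type} [Field F] {ι : Type}

/-- The Albanese kernel over `K` modulo `n` is finite (`Ω` an algebraic closure of `K`): there is a finite set of cycles `e`
in the Albanese kernel such that every cycle in it is one of the `e` plus `n` times a cycle in it. -/
def FnG (V : ι → Vr F) (K : Type) [Field K] [Algebra F K] (Ω : Type) [Field Ω] [Algebra K Ω]
    [Algebra F Ω] [IsScalarTower F K Ω] (n : ℕ) : Prop :=
  ∃ E : Set ((Vpi V).pt Ω →₀ ℤ), E.Finite ∧
    (∀ e ∈ E, e ∈ (Vpi V).D0 K Ω ∧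
      ∀ i, Finsupp.mapDomain ((pr i).f Ω) e ∈ (V i).ratEq K Ω) ∧
    ∀ z ∈ (Vpi V).D0 K Ω, (∀ i, Finsupp.mapDomain ((pr i).f Ω) z ∈ (V i).ratEq K Ω) →
      ∃ e ∈ E, ∃ z' ∈ (Vpi V).D0 K Ω,
        (∀ i, Finsupp.mapDomain ((pr i).f Ω) z' ∈ (V i).ratEq K Ω) ∧
        z - e - n • z' ∈ (Vpi V).ratEq K Ω

/-- The local theorem: any ramification index, the residue characteristic `L.p`. -/
def LcF (C : ι → Crv F) : Prop :=
  ∀ (K Ω : Type) [Field K] [Field Ω] [Algebra K Ω] [Algebra F K] [Algebra F Ω]
    [IsScalarTower F K Ω] [CharZero K] [IsAlgClosure K Ω] (L : Ld K Ω),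
    (∀ i, Nonempty (Mod (C i) (Ok L) K)) → FnG (fun i => (C i).V) K Ω L.p

/-- The Albanese kernel over `K` modulo `n` is finite. -/
def FnP (K : Type) [Field K] [Algebra F K] (V : ι → Vr F) (n : ℕ) : Prop :=
  ∃ E : Set (Zc (Vpi V) K), E.Finite ∧ (∀ e ∈ E, AlbP e) ∧
    ∀ z : Zc (Vpi V) K, AlbP z → ∃ e ∈ E, ∃ z' : Zc (Vpi V) K, AlbP z' ∧ z.cl = e.cl + n • z'.cl

/-- There is a finite set of cycles `e` in the Albanese kernel `T` over `K` such that for all `n ≠ 0` with all prime factors in
`Λ` every class in `T` is the class of one of the `e` plus `n` times a class in `T`. Equivalently, `T` is the sum of a finite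
group and a group which is divisible by the prime numbers in `Λ`. -/
def FdP (K : Type) [Field K] [Algebra F K] (V : ι → Vr F) (Λ : Set ℕ) : Prop :=
  ∃ E : Set (Zc (Vpi V) K), E.Finite ∧ (∀ e ∈ E, AlbP e) ∧
    ∀ n : ℕ, n ≠ 0 → Sf Λ n → ∀ z : Zc (Vpi V) K, AlbP z →
      ∃ e ∈ E, ∃ z' : Zc (Vpi V) K, AlbP z' ∧ z.cl = e.cl + n • z'.cl

/-- The curves have good reduction over an extension `M` of `K` of degree prime to `l`; there is no condition on the
ramification. -/
def Gq {K : Type} [Field K] [Algebra F K] (A : ValuationSubring K) (C : ι → Crv F) (l : ℕ) :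
    Prop :=
  ∃ (M : IntermediateField K (AlgebraicClosure K)) (O : ValuationSubring M),
    FiniteDimensional K M ∧ (Module.finrank K M).Coprime l ∧ O.comap (algebraMap K M) = A ∧
    ∀ i, Nonempty (Mod (C i) O M)

theorem Gq.prG {K : Type} [Field K] [Algebra F K] {A : ValuationSubring K} {C : ι → Crv F}
    {l : ℕ} (h : Gq A C l) : PrG A C := by
  obtain ⟨M, O, hM, -, hO, hm⟩ := h
  exact ⟨M, O, hM, hO, hm⟩

end def_

end CV
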