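import Mathlib

/-!
# The amalgam `Am A R₁ R₂ α ρ = (R₁ ⊗ R₂) / (α ⊗ 1 - 1 ⊗ ρ)`

(the coordinate ring of the curve `α = ρ` in a product of two curves), with its universal property:
`Am.i1`, `Am.i2`, `Am.comm`, `Am.lift`, `Am.lift_i1`, `Am.lift_i2`, `Am.hom_ext`, `Am.induct`.
-/

set_option autoImplicit false

open TensorProduct

namespace CV

variable (A : Type) {R₁ R₂ : Type} [CommRing A] [CommRing R₁] [CommRing R₂] [Algebra A R₁]
  [Algebra A R₂] (α : R₁) (ρ : R₂)

/-- the coordinate ring of the curve `α = ρ` -/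
abbrev Am : Type := (R₁ ⊗[A] R₂) ⧸ Ideal.span {α ⊗ₜ[A] (1 : R₂) - (1 : R₁) ⊗ₜ[A] ρ}

namespace Am

/-- the first projection -/
noncomputable def i1 : R₁ →ₐ[A] Am A α ρ :=
  (Ideal.Quotient.mkₐ A _).comp Algebra.TensorProduct.includeLeft

/-- the second projection -/
noncomputable def i2 : R₂ →ₐ[A] Am A α ρ :=
  (Ideal.Quotient.mkₐ A _).comp Algebra.TensorProduct.includeRight

lemma mk_tmul (x : R₁) (y : R₂) :
    (Ideal.Quotient.mk _ (x ⊗ₜ[A] y) : Am A α ρ) = i1 A α ρ x * i2 A α ρ y := by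
  unfold i1 i2
  simp only [AlgHom.comp_apply, Ideal.Quotient.mkₐ_eq_mk, Algebra.TensorProduct.includeLeft_apply,
    Algebra.TensorProduct.includeRight_apply]
  rw [← map_mul, Algebra.TensorProduct.tmul_mul_tmul, one_mul, mul_one]

lemma comm : i1 A α ρ α = i2 A α ρ ρ := by
  unfold i1 i2
  simp only [AlgHom.comp_apply, Ideal.Quotient.mkₐ_eq_mk, Algebra.TensorProduct.includeLeft_apply,
    Algebra.TensorProduct.includeRight_apply]
  rw [Ideal.Quotient.eq]
  exact Ideal.subset_span rfl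

variable {A α ρ}

lemma induct {P : Am A α ρ → Prop} (h : ∀ x y, P (i1 A α ρ x * i2 A α ρ y))
    (h' : ∀ z w, P z → P w → P (z + w)) (z : Am A α ρ) : P z := by
  obtain ⟨z, rfl⟩ := Ideal.Quotient.mk_surjective z
  induction z using TensorProduct.induction_on with
  | zero => simpa using h 0 0
  | tmul x y => rw [mk_tmul]; exact h x y
  | add x y hx hy => rw [map_add]; exact h' _ _ hx hy

section lift

variable {T : Type} [CommRing T] [Algebra A T] (f : R₁ →ₐ[A] T) (g : R₂ →ₐ[A] T) (h : f α = g ρ)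

/-- the universal property -/
noncomputable def lift : Am A α ρ →ₐ[A] T :=
  Ideal.Quotient.liftₐ _ (Algebra.TensorProduct.lift f g (fun _ _ => Commute.all _ _)) (by
    intro a ha
    have h1 : Ideal.span {α ⊗ₜ[A] (1 : R₂) - (1 : R₁) ⊗ₜ[A] ρ} ≤
        RingHom.ker (Algebra.TensorProduct.lift f g (fun _ _ => Commute.all _ _)) := by
      rw [Ideal.span_singleton_le_iff_mem, RingHom.mem_ker]
      simp [h]
    exact (RingHom.mem_ker).1 (h1 ha))

@[simp] lemma lift_i1 (x : R₁) : lift f g h (i1 A α ρ x) = f x := by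
  change (Algebra.TensorProduct.lift f g (fun _ _ => Commute.all _ _)) (x ⊗ₜ[A] (1 : R₂)) = f x
  simp

@[simp] lemma lift_i2 (y : R₂) : lift f g h (i2 A α ρ y) = g y := by
  change (Algebra.TensorProduct.lift f g (fun _ _ => Commute.all _ _)) ((1 : R₁) ⊗ₜ[A] y) = g y
  simp

end lift

lemma ring_hom_ext {T : Type} [CommRing T] {f g : Am A α ρ →+* T}
    (h1 : ∀ x, f (i1 A α ρ x) = g (i1 A α ρ x)) (h2 : ∀ y, f (i2 A α ρ y) = g (i2 A α ρ y)) :
    f = g := by
  ext z
  · have := h1 z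
    exact this
  · have := h2 z
    exact this

lemma hom_ext {T : Type} [CommRing T] [Algebra A T] {f g : Am A α ρ →ₐ[A] T}
    (h1 : ∀ x, f (i1 A α ρ x) = g (i1 A α ρ x)) (h2 : ∀ y, f (i2 A α ρ y) = g (i2 A α ρ y)) :
    f = g := by
  apply AlgHom.ext
  intro z
  induction z using induct with
  | h x y => rw [map_mul, map_mul, h1, h2]
  | h' z w hz hw => rw [map_add, map_add, hz, hw]

end Am

end CV
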