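import Pool.Agent.Lib.MP_f80667_ag.Cv.Am

/-!
# A basis of the amalgam

If `R₁` has an `A`-basis `β μ * α ^ j` (`μ ∈ ι`, `j ∈ ℕ`; so `R₁` is free over `A[α]`) and `s l`
(`l ∈ κ`) is an `A`-basis of `R₂`, then `i1 (β μ) * i2 (s l)` is an `A`-basis of `Am A α ρ`.
-/

set_option autoImplicit false

open Module TensorProduct

namespace CV

namespace Am

lemma basis_ind {ι A M : Type} [CommRing A] [AddCommGroup M] [Module A M] (b : Basis ι A M)
    {P : M → Prop} (h0 : P 0) (hb : ∀ i, P (b i)) (ha : ∀ x y, P x → P y → P (x + y))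
    (hs : ∀ (c : A) x, P x → P (c • x)) (x : M) : P x := by
  refine Submodule.span_induction (p := fun y _ => P y) ?_ h0 (fun x y _ _ => ha x y)
    (fun c x _ => hs c x) (b.mem_span x)
  rintro _ ⟨i, rfl⟩
  exact hb i

variable {A R₁ R₂ ι κ : Type} [CommRing A] [CommRing R₁] [CommRing R₂] [Algebra A R₁]
  [Algebra A R₂] {α : R₁} (ρ : R₂) (B : Basis (ι × ℕ) A R₁) {β : ι → R₁}
  (hB : ∀ μ j, B (μ, j) = β μ * α ^ j) (s : Basis κ A R₂)

/-- the `R₂`-coordinates on `R₁ ⊗ R₂` -/
noncomputable def crd : R₁ ⊗[A] R₂ →ₗ[A] (ι →₀ R₂) :=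
  TensorProduct.lift (B.constr A fun p =>
    (Finsupp.lsingle p.1) ∘ₗ (LinearMap.mulLeft A (ρ ^ p.2)))

lemma crd_tmul (p : ι × ℕ) (y : R₂) : crd ρ B (B p ⊗ₜ y) = Finsupp.single p.1 (ρ ^ p.2 * y) := by
  unfold crd
  rw [TensorProduct.lift.tmul, Basis.constr_basis]
  rfl

include hB in
lemma crd_ker (z : R₁ ⊗[A] R₂) :
    crd ρ B ((α ⊗ₜ[A] (1 : R₂) - (1 : R₁) ⊗ₜ[A] ρ) * z) = 0 := by
  induction z using TensorProduct.induction_on with
  | zero => rw [mul_zero, map_zero]
  | add z w hz hw => rw [mul_add, map_add, hz, hw, add_zero]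
  | tmul x y =>
    have h : ∀ x, (crd ρ B) ((α * x) ⊗ₜ[A] y) = (crd ρ B) (x ⊗ₜ[A] (ρ * y)) := by
      intro x
      have h1 : (crd ρ B) ∘ₗ ((TensorProduct.mk A R₁ R₂).flip y) ∘ₗ (LinearMap.mulLeft A α) =
          (crd ρ B) ∘ₗ ((TensorProduct.mk A R₁ R₂).flip (ρ * y)) := by
        apply B.ext
        rintro ⟨m, k⟩
        have h2 : α * B (m, k) = B (m, k + 1) := by
          rw [hB, hB]; ring
        simp only [LinearMap.comp_apply, LinearMap.mulLeft_apply, LinearMap.flip_apply,
          TensorProduct.mk_apply]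
        rw [h2, crd_tmul, crd_tmul]
        simp only
        congr 1
        ring
      exact LinearMap.congr_fun h1 x
    rw [sub_mul, Algebra.TensorProduct.tmul_mul_tmul, Algebra.TensorProduct.tmul_mul_tmul, one_mul,
      one_mul, map_sub, h, sub_self]

/-- the family `i1 (β μ) * i2 (s l)` -/
noncomputable def amf (α : R₁) (ρ : R₂) (β : ι → R₁) (s : Basis κ A R₂) (p : ι × κ) : Am A α ρ :=
  Am.i1 A α ρ (β p.1) * Am.i2 A α ρ (s p.2)

include hB in
lemma amf_linearIndependent : LinearIndependent A (amf α ρ β s) := by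
  classical
  rw [linearIndependent_iff]
  intro c hc
  rw [Finsupp.linearCombination_apply, Finsupp.sum] at hc
  have h1 : (∑ p ∈ c.support, c p • amf α ρ β s p) = (Ideal.Quotient.mk _
      (∑ p ∈ c.support, c p • ((β p.1) ⊗ₜ[A] (s p.2))) : Am A α ρ) := by
    rw [map_sum]
    refine Finset.sum_congr rfl fun p _ => ?_
    unfold amf
    rw [← Am.mk_tmul]
    rfl
  rw [h1, Ideal.Quotient.eq_zero_iff_mem, Ideal.mem_span_singleton'] at hc
  obtain ⟨w, hw⟩ := hc
  have h2 := crd_ker ρ B hB w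
  rw [mul_comm, hw, map_sum] at h2
  have h3 : ∀ p : ι × κ, crd ρ B (c p • ((β p.1) ⊗ₜ[A] (s p.2))) =
      Finsupp.single p.1 (c p • s p.2) := by
    intro p
    have h4 : β p.1 = B (p.1, 0) := by
      rw [hB]; simp
    rw [map_smul, h4, crd_tmul, Finsupp.smul_single]
    simp
  rw [Finset.sum_congr rfl (fun p _ => h3 p)] at h2
  ext ⟨m, l⟩
  have h5 := DFunLike.congr_fun h2 m
  rw [Finsupp.finsetSum_apply] at h5
  have hinj : Function.Injective (fun l : κ => (m, l)) := Prod.mk_right_injective m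
  have h6 : ∑ p ∈ c.support, (Finsupp.single p.1 (c p • s p.2) : ι →₀ R₂) m =
      Finsupp.linearCombination A s (Finsupp.comapDomain (fun l => (m, l)) c hinj.injOn) := by
    rw [Finsupp.linearCombination_comapDomain]
    rw [← Finset.sum_filter_add_sum_filter_not c.support (fun p => p.1 = m)]
    rw [Finset.sum_eq_zero (s := c.support.filter (fun p => ¬ p.1 = m)), add_zero]
    · refine Finset.sum_bij' (fun p _ => p.2) (fun l _ => (m, l)) ?_ ?_ ?_ ?_ ?_
      · rintro ⟨m', l'⟩ hp
        rw [Finset.mem_filter] at hp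
        rw [Finset.mem_preimage]
        obtain ⟨hp1, hp2⟩ := hp
        simp only at hp2
        rw [← hp2]
        exact hp1
      · intro l' hl
        rw [Finset.mem_preimage] at hl
        rw [Finset.mem_filter]
        exact ⟨hl, rfl⟩
      · rintro ⟨m', l'⟩ hp
        rw [Finset.mem_filter] at hp
        simp only at hp ⊢
        rw [hp.2]
      · intro l' _; rfl
      · rintro ⟨m', l'⟩ hp
        rw [Finset.mem_filter] at hp
        simp only at hp ⊢
        rw [hp.2, Finsupp.single_eq_same]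
    · rintro ⟨m', l'⟩ hp
      rw [Finset.mem_filter] at hp
      simp only at hp ⊢
      rw [Finsupp.single_apply, if_neg hp.2]
  rw [h6] at h5
  have h7 := (linearIndependent_iff.1 s.linearIndependent) _ h5
  have h8 := DFunLike.congr_fun h7 l
  exact h8

include hB in
lemma amf_span (x : R₁) (y : R₂) :
    Am.i1 A α ρ x * Am.i2 A α ρ y ∈ Submodule.span A (Set.range (amf α ρ β s)) := by
  have h1 : ∀ (m : ι) (y : R₂), Am.i1 A α ρ (β m) * Am.i2 A α ρ y ∈
      Submodule.span A (Set.range (amf α ρ β s)) := by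
    intro m
    refine basis_ind s ?_ ?_ ?_ ?_
    · rw [map_zero, mul_zero]; exact zero_mem _
    · intro l; exact Submodule.subset_span ⟨(m, l), rfl⟩
    · intro y y' hy hy'; rw [map_add, mul_add]; exact add_mem hy hy'
    · intro c y hy; rw [map_smul, mul_smul_comm]; exact Submodule.smul_mem _ _ hy
  revert x
  refine basis_ind B ?_ ?_ ?_ ?_
  · rw [map_zero, zero_mul]; exact zero_mem _
  · rintro ⟨μ, j⟩
    rw [hB, map_mul, map_pow, Am.comm, ← map_pow, mul_assoc, ← map_mul]
    exact h1 μ _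
  · intro y y' hy hy'; rw [map_add, add_mul]; exact add_mem hy hy'
  · intro c y hy; rw [map_smul, smul_mul_assoc]; exact Submodule.smul_mem _ _ hy

/-- the basis of the amalgam -/
noncomputable def basis : Basis (ι × κ) A (Am A α ρ) :=
  Basis.mk (amf_linearIndependent ρ B hB s) (by
    intro z _
    induction z using Am.induct with
    | h x y => exact amf_span ρ B hB s x y
    | h' z w hz hw => exact add_mem (hz trivial) (hw trivial))

lemma basis_apply (p : ι × κ) : basis ρ B hB s p = Am.i1 A α ρ (β p.1) * Am.i2 A α ρ (s p.2) := by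
  unfold basis; rw [Basis.mk_apply]; rfl

end Am

end CV
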