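import Pool.Agent.Lib.MP_f80667_ag.Cv.Ct2a
import Pool.Agent.Lib.MP_f80667_ag.Cv.DgQ

/-!
The localization at finitely many closed points of the special fibre: Krull's theorem, quotients.
-/

open IsLocalRing

namespace CV

namespace Md

variable {V L k S SL Sk : Type} [CommRing V] [IsDomain V] [IsDiscreteValuationRing V] [Field L]
  [Field k] [Algebra V L] [IsFractionRing V L] [Algebra V k] [CommRing S] [CommRing SL]
  [CommRing Sk] [Algebra V S] [Algebra L SL] [Algebra k Sk] (M : Md V L k S SL Sk)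

/-- Generators of the special fibre modulo `q a`, lifted to `S`. -/
private theorem ct2_gens {π : V} (hπ : Irreducible π) {a : S} (ha : M.q a ≠ 0) :
    ∃ t : Finset S, ∀ w : S, ∃ z ∈ Submodule.span V (t : Set S), ∃ u v,
      w = z + a * u + algebraMap V S π * v := by
  classical
  have hfin : Module.Finite k (Sk ⧸ Ideal.span {M.q a}) := M.Dk.finite_quot ha
  obtain ⟨t0, ht0⟩ := hfin.fg_top
  have hsur : ∀ x : Sk ⧸ Ideal.span {M.q a}, ∃ w : S,
      Ideal.Quotient.mk (Ideal.span {M.q a}) (M.q w) = x := by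
    intro x
    obtain ⟨y, rfl⟩ := Ideal.Quotient.mk_surjective x
    obtain ⟨w, rfl⟩ := M.surj y
    exact ⟨w, rfl⟩
  choose l hl using hsur
  have hkey : ∀ x ∈ Submodule.span k (t0 : Set (Sk ⧸ Ideal.span {M.q a})),
      ∃ z ∈ Submodule.span V ((t0.image l : Finset S) : Set S),
        Ideal.Quotient.mk (Ideal.span {M.q a}) (M.q z) = x := by
    intro x hx
    induction hx using Submodule.span_induction with
    | mem x hx =>
      exact ⟨l x, Submodule.subset_span (by
        rw [Finset.coe_image]; exact ⟨x, hx, rfl⟩), hl x⟩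
    | zero => exact ⟨0, Submodule.zero_mem _, by rw [map_zero, map_zero]⟩
    | add x y _ _ hx hy =>
      obtain ⟨z, hz, rfl⟩ := hx
      obtain ⟨z', hz', rfl⟩ := hy
      exact ⟨z + z', Submodule.add_mem _ hz hz', by rw [map_add, map_add]⟩
    | smul c x _ hx =>
      obtain ⟨z, hz, rfl⟩ := hx
      obtain ⟨c', rfl⟩ := M.res_surj c
      refine ⟨c' • z, Submodule.smul_mem _ _ hz, ?_⟩
      rw [Algebra.smul_def, map_mul, M.q_alg, ← Algebra.smul_def]
      rfl
  refine ⟨t0.image l, fun w => ?_⟩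
  obtain ⟨z, hz, hzw⟩ := hkey (Ideal.Quotient.mk _ (M.q w)) (by rw [ht0]; trivial)
  rw [eq_comm, Ideal.Quotient.eq, Ideal.mem_span_singleton] at hzw
  obtain ⟨r, hr⟩ := hzw
  obtain ⟨u, rfl⟩ := M.surj r
  have h0 : M.q (w - z - a * u) = 0 := by
    rw [map_sub, map_sub, map_mul, hr, sub_self]
  obtain ⟨v, hv⟩ := (M.ker_iff hπ).1 h0
  exact ⟨z, hz, u, v, by linear_combination hv⟩

/-- Limits of power series with coefficients in a finitely generated submodule. -/
private theorem ct2_lim [IsAdicComplete (maximalIdeal V) V] {π : V} (hπ : Irreducible π)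
    (t : Finset S) (z : ℕ → S) (hz : ∀ i, z i ∈ Submodule.span V (t : Set S)) :
    ∃ x ∈ Submodule.span V (t : Set S), ∀ j : ℕ, ∃ w,
      x = ∑ i ∈ Finset.range j, algebraMap V S (π ^ i) * z i + algebraMap V S (π ^ j) * w := by
  classical
  have h1 : ∀ i, ∃ c : S → V, ∑ b ∈ t, c b • b = z i := by
    intro i
    obtain ⟨c, -, hc⟩ := Submodule.mem_span_finset.1 (hz i)
    exact ⟨c, hc⟩
  choose c hc using h1
  have hpow : ∀ n : ℕ, maximalIdeal V ^ n = Ideal.span {π ^ n} := by
    intro n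
    rw [(IsDiscreteValuationRing.irreducible_iff_uniformizer π).1 hπ, Ideal.span_singleton_pow]
  have h2 : ∀ b : S, ∃ C : V, ∀ n : ℕ, ∃ d : V,
      C = ∑ i ∈ Finset.range n, π ^ i * c i b + π ^ n * d := by
    intro b
    obtain ⟨C, hC⟩ := (inferInstance : IsPrecomplete (maximalIdeal V) V).prec
      (f := fun n => ∑ i ∈ Finset.range n, π ^ i * c i b) (by
        intro m n hmn
        rw [SModEq.sub_mem, smul_eq_mul, Ideal.mul_top, hpow, Ideal.mem_span_singleton]
        show π ^ m ∣ ∑ i ∈ Finset.range m, π ^ i * c i b - ∑ i ∈ Finset.range n, π ^ i * c i b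
        rw [← Finset.sum_range_add_sum_Ico _ hmn, sub_add_cancel_left, dvd_neg]
        refine Finset.dvd_sum fun i hi => ?_
        exact Dvd.dvd.mul_right (pow_dvd_pow _ (Finset.mem_Ico.1 hi).1) _)
    refine ⟨C, fun n => ?_⟩
    have h3 := hC n
    rw [SModEq.sub_mem, smul_eq_mul, Ideal.mul_top, hpow, Ideal.mem_span_singleton] at h3
    obtain ⟨d, hd⟩ := h3
    exact ⟨-d, by linear_combination -hd⟩
  choose C hC using h2
  choose d hd using hC
  refine ⟨∑ b ∈ t, C b • b, Submodule.sum_mem _ fun b hb =>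
    Submodule.smul_mem _ _ (Submodule.subset_span hb), fun j => ⟨∑ b ∈ t, d b j • b, ?_⟩⟩
  have e1 : ∀ b ∈ t, C b • b = ∑ i ∈ Finset.range j, algebraMap V S (π ^ i) * (c i b • b)
      + algebraMap V S (π ^ j) * (d b j • b) := by
    intro b _
    rw [hd b j, add_smul, Finset.sum_smul]
    congr 1
    · refine Finset.sum_congr rfl fun i _ => ?_
      rw [mul_smul, Algebra.smul_def (π ^ i)]
    · rw [mul_smul, Algebra.smul_def (π ^ j)]
  rw [Finset.sum_congr rfl e1, Finset.sum_add_distrib, Finset.sum_comm, ← Finset.mul_sum]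
  congr 1
  refine Finset.sum_congr rfl fun i _ => ?_
  rw [← Finset.mul_sum, hc i]

/-- One step of the approximation. -/
private theorem ct2_step {π : V} (hπ : Irreducible π) {T : Set (Ideal S)}
    (hT : ∀ N ∈ T, N.IsPrime) {a : S} (ha : M.q a ≠ 0) {t : Finset S}
    (ht : ∀ w : S, ∃ z ∈ Submodule.span V (t : Set S), ∃ u v,
      w = z + a * u + algebraMap V S π * v) (y s : S) (hs : s ∈ St T) :
    ∃ z s' u v, z ∈ Submodule.span V (t : Set S) ∧ s' ∈ St T ∧
      s' * (s * z - y) = a * u + algebraMap V S π * v := by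
  obtain ⟨z, s', hs', u, v, h⟩ := M.sp_unit hπ hT ha hs y
  obtain ⟨z0, hz0, u', v', h'⟩ := ht z
  refine ⟨z0, s', u - s' * s * u', v - s' * s * v', hz0, hs', ?_⟩
  rw [h'] at h
  linear_combination h

/-- The localization at `T` modulo `a` is a finitely generated `V`-module and `S` is onto: there are finitely many elements `b` of `S` such that every
`y / s` is congruent to a combination of them modulo `a`. Proof: choose generators `b` of `Sk / (q a)` over `k`; by `sp_unit` every `y / s` is `Σ c b` modulo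
`(a, π)`, so `y / s = Σ c b + π y' / s'` modulo `a`; iterate; the coefficients converge because `V` is complete; `krull`. -/
theorem it_gen [IsAdicComplete (maximalIdeal V) V] {T : Set (Ideal S)} (hf : T.Finite)
    (hC : ∀ N ∈ T, Cs V N) (hT : ∀ N ∈ T, N.IsPrime) {a : S} (ha : M.q a ≠ 0) :
    ∃ t : Finset S, ∀ (y : S), ∀ s ∈ St T, ∃ z ∈ Submodule.span V (t : Set S),
      s * z - y ∈ It T hT a := by
  obtain ⟨π, hπ⟩ := IsDiscreteValuationRing.exists_irreducible V
  obtain ⟨t, ht⟩ := M.ct2_gens hπ ha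
  refine ⟨t, fun y s hs => ?_⟩
  choose! Z S' U W hZ hS' hE using M.ct2_step hπ hT ha ht
  let p : ℕ → S × S := fun n => Nat.rec (1, -y)
    (fun _ q => (S' (-q.2) (q.1 * s) * q.1, W (-q.2) (q.1 * s))) n
  have hp0 : p 0 = (1, -y) := rfl
  have hp : ∀ j, p (j + 1) =
    (S' (-(p j).2) ((p j).1 * s) * (p j).1, W (-(p j).2) ((p j).1 * s)) := fun _ => rfl
  have hSt : ∀ j, (p j).1 ∈ St T := by
    intro j
    induction j with
    | zero => rw [hp0]; exact st_one hT
    | succ j ih => rw [hp]; exact st_mul hT (hS' _ _ (st_mul hT ih hs)) ih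
  have hinv : ∀ j, ∃ u, (p j).1 * (s * (∑ i ∈ Finset.range j, algebraMap V S (π ^ i) *
      Z (-(p i).2) ((p i).1 * s)) - y) = a * u + algebraMap V S (π ^ j) * (p j).2 := by
    intro j
    induction j with
    | zero =>
      refine ⟨0, ?_⟩
      rw [hp0, Finset.sum_range_zero, pow_zero, map_one]
      ring
    | succ j ih =>
      obtain ⟨u, hu⟩ := ih
      have h1 := hE (-(p j).2) ((p j).1 * s) (st_mul hT (hSt j) hs)
      rw [hp, Finset.sum_range_succ]
      refine ⟨S' (-(p j).2) ((p j).1 * s) * u + algebraMap V S (π ^ j) *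
        U (-(p j).2) ((p j).1 * s), ?_⟩
      rw [pow_succ, map_mul]
      simp only
      linear_combination S' (-(p j).2) ((p j).1 * s) * hu + algebraMap V S (π ^ j) * h1
  obtain ⟨x, hx, hxw⟩ := ct2_lim hπ t (fun i => Z (-(p i).2) ((p i).1 * s))
    (fun i => hZ _ _ (st_mul hT (hSt i) hs))
  refine ⟨x, hx, M.krull hπ hf hC hT fun j => ?_⟩
  obtain ⟨w, hw⟩ := hxw j
  obtain ⟨u, hu⟩ := hinv j
  refine ⟨(p j).1, hSt j, u, (p j).2 + (p j).1 * s * w, ?_⟩
  rw [hw]
  linear_combination hu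

/-- Proof: `it_gen` with `s = 1`. -/
theorem it_fin [IsAdicComplete (maximalIdeal V) V] {T : Set (Ideal S)} (hf : T.Finite)
    (hC : ∀ N ∈ T, Cs V N) (hT : ∀ N ∈ T, N.IsPrime) {a : S} (ha : M.q a ≠ 0) :
    Module.Finite V (S ⧸ It T hT a) := by
  obtain ⟨t, ht⟩ := M.it_gen hf hC hT ha
  have : Module.Finite V (Submodule.span V (t : Set S)) :=
    Module.Finite.span_of_finite V t.finite_toSet
  refine Module.Finite.of_surjective ((Ideal.Quotient.mkₐ V (It T hT a)).toLinearMap ∘ₗ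
    (Submodule.span V (t : Set S)).subtype) fun x => ?_
  obtain ⟨y, rfl⟩ := Ideal.Quotient.mk_surjective x
  obtain ⟨z, hz, h⟩ := ht y 1 (st_one hT)
  rw [one_mul] at h
  exact ⟨⟨z, hz⟩, Ideal.Quotient.eq.2 h⟩

/-- Proof: `it_gen`. -/
theorem it_unit [IsAdicComplete (maximalIdeal V) V] {T : Set (Ideal S)} (hf : T.Finite)
    (hC : ∀ N ∈ T, Cs V N) (hT : ∀ N ∈ T, N.IsPrime) {a : S} (ha : M.q a ≠ 0) {s : S}
    (hs : s ∈ St T) (y : S) : ∃ z, s * z - y ∈ It T hT a := by
  obtain ⟨t, ht⟩ := M.it_gen hf hC hT ha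
  obtain ⟨z, -, h⟩ := ht y s hs
  exact ⟨z, h⟩

/-- Proof: `s y' - y ∈ It` by `it_unit`. -/
theorem it_pow [IsAdicComplete (maximalIdeal V) V] {T : Set (Ideal S)} (hf : T.Finite)
    (hC : ∀ N ∈ T, Cs V N) (hT : ∀ N ∈ T, N.IsPrime) {a : S} (ha : M.q a ≠ 0) {s x y z : S}
    (hs : s ∈ St T) (c : V) (h : s * x = a * y + algebraMap V S c * z) :
    ∃ z', x - algebraMap V S c * z' ∈ It T hT a := by
  obtain ⟨z', s1, hs1, w, hw⟩ := M.it_unit hf hC hT ha hs z
  refine ⟨z', s1 * s, st_mul hT hs1 hs, s1 * y - algebraMap V S c * w, ?_⟩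
  linear_combination s1 * h - algebraMap V S c * hw

end Md

end CV
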