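import Pool.Agent.Lib.MP_f80667_ag.Cv.Rp0
import Pool.Agent.Lib.MP_f80667_ag.Cv.Ct2

/-!
Congruences between integral points with the same reduction.
-/

open IsLocalRing

namespace CV

/-- Divisibility in a valuation ring. -/
private theorem cg_dvd {Ω : Type} [Field Ω] {W : ValuationSubring Ω} {x c : Ω} :
    (∃ w ∈ W, x = c * w) ↔ W.valuation x ≤ W.valuation c := by
  constructor
  · rintro ⟨w, hw, rfl⟩
    rw [map_mul]
    calc W.valuation c * W.valuation w ≤ W.valuation c * 1 :=
          mul_le_mul' le_rfl ((W.valuation_le_one_iff w).2 hw)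
      _ = W.valuation c := mul_one _
  · intro h
    by_cases hc : c = 0
    · subst hc
      rw [map_zero, le_zero_iff, map_eq_zero] at h
      exact ⟨0, W.zero_mem, by rw [h, mul_zero]⟩
    · refine ⟨c⁻¹ * x, ?_, by rw [mul_inv_cancel_left₀ hc]⟩
      rw [← W.valuation_le_one_iff, map_mul, map_inv₀]
      have h1 : W.valuation c ≠ 0 := by
        rw [Ne, map_eq_zero]
        exact hc
      calc (W.valuation c)⁻¹ * W.valuation x ≤ (W.valuation c)⁻¹ * W.valuation c :=
            mul_le_mul' le_rfl h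
        _ = 1 := inv_mul_cancel₀ h1

namespace Md

variable {V L k S SL Sk : Type} [CommRing V] [IsDomain V] [IsDiscreteValuationRing V] [Field L]
  [Field k] [Algebra V L] [IsFractionRing V L] [Algebra V k] [CommRing S] [CommRing SL]
  [CommRing Sk] [Algebra V S] [Algebra L SL] [Algebra k Sk] (M : Md V L k S SL Sk) {Ω : Type}
  [Field Ω] [Algebra L Ω] {W : ValuationSubring Ω}

/-- An integral point as a homomorphism to the valuation ring. -/
private def cgPt {φ : SL →ₐ[L] Ω} (h : M.Ig W φ) : S →+* W where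
  toFun := fun s => ⟨φ (M.i s), h s⟩
  map_one' := by
    apply Subtype.ext
    simp
  map_mul' := fun a b => by
    apply Subtype.ext
    simp
  map_zero' := by
    apply Subtype.ext
    simp
  map_add' := fun a b => by
    apply Subtype.ext
    simp

/-- The constants. -/
private def cgRho (hW : Wv V L W) : V →+* W where
  toFun := fun c => ⟨algebraMap L Ω (algebraMap V L c), hW.mem c⟩
  map_one' := by
    apply Subtype.ext
    simp
  map_mul' := fun a b => by
    apply Subtype.ext
    simp
  map_zero' := by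
    apply Subtype.ext
    simp
  map_add' := fun a b => by
    apply Subtype.ext
    simp

private theorem cgPt_alg (hW : Wv V L W) {φ : SL →ₐ[L] Ω} (h : M.Ig W φ) (c : V) :
    M.cgPt h (algebraMap V S c) = cgRho hW c := by
  apply Subtype.ext
  change φ (M.i (algebraMap V S c)) = algebraMap L Ω (algebraMap V L c)
  rw [M.i_alg, φ.commutes]

private theorem cgPt_aeval (hW : Wv V L W) {φ : SL →ₐ[L] Ω} (h : M.Ig W φ) (s : S)
    (p : Polynomial V) :
    M.cgPt h (Polynomial.aeval s p) = (p.map (cgRho hW)).eval (M.cgPt h s) := by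
  rw [Polynomial.aeval_def, Polynomial.hom_eval₂, Polynomial.eval_map]
  congr 1
  ext c
  rw [RingHom.comp_apply, M.cgPt_alg hW h]

include M in
/-- Polynomials with simple zeros modulo a closed point. -/
private theorem cg_sep [PerfectField k] {π : V} (hπ : Irreducible π) {N : Ideal S} (hN : Cs V N)
    {f : S} (hfN : f ∈ N) (hq : M.q f ≠ 0) (x : S) :
    ∃ p : Polynomial V, Polynomial.aeval x p ∈ N ∧ Polynomial.aeval x p.derivative ∉ N := by
  set N' : Ideal Sk := N.map M.q with hN'
  have hker : RingHom.ker M.q ≤ N := by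
    intro s hs
    rw [RingHom.mem_ker, M.ker_iff hπ] at hs
    obtain ⟨t, rfl⟩ := hs
    refine N.mul_mem_right _ (hN.2 π ?_)
    rw [hπ.maximalIdeal_eq]
    exact Ideal.mem_span_singleton_self π
  have hcomap : ∀ s : S, M.q s ∈ N' ↔ s ∈ N := by
    intro s
    rw [← Ideal.mem_comap, hN', Ideal.comap_map_of_surjective' _ M.surj, sup_eq_left.2 hker]
  have hmax : N'.IsMaximal := by
    have hmax0 := hN.1
    rcases Ideal.map_eq_top_or_isMaximal_of_surjective M.q M.surj hmax0 with h1 | h1
    · exfalso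
      apply hmax0.ne_top
      rw [Ideal.eq_top_iff_one, ← hcomap, map_one, hN', h1]
      exact Submodule.mem_top
    · exact h1
  have hfin : Module.Finite k (Sk ⧸ Ideal.span {M.q f}) := M.Dk.finite_quot hq
  have hle : Ideal.span {M.q f} ≤ N' := by
    rw [Ideal.span_singleton_le_iff_mem, hcomap]
    exact hfN
  have hfN' : Module.Finite k (Sk ⧸ N') :=
    Module.Finite.of_surjective (Ideal.Quotient.factorₐ k hle).toLinearMap
      (Ideal.Quotient.factor_surjective hle)
  letI : Field (Sk ⧸ N') := Ideal.Quotient.field N'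
  have hsep : Algebra.IsSeparable k (Sk ⧸ N') := inferInstance
  set xb : Sk ⧸ N' := Ideal.Quotient.mk N' (M.q x) with hxb
  have hs := Algebra.IsSeparable.isSeparable k xb
  obtain ⟨p, hp⟩ := Polynomial.map_surjective (algebraMap V k) M.res_surj (minpoly k xb)
  have hev : ∀ r : Polynomial V, Ideal.Quotient.mk N' (M.q (Polynomial.aeval x r)) =
      Polynomial.aeval xb (r.map (algebraMap V k)) := by
    intro r
    have h1 : M.q (Polynomial.aeval x r) = Polynomial.aeval (M.q x) (r.map (algebraMap V k)) := by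
      rw [Polynomial.aeval_def, Polynomial.hom_eval₂, Polynomial.aeval_def, Polynomial.eval₂_map]
      congr 1
      ext c
      exact M.q_alg c
    rw [h1, hxb]
    exact (Polynomial.aeval_algHom_apply (Ideal.Quotient.mkₐ k N') (M.q x) _).symm
  refine ⟨p, ?_, ?_⟩
  · rw [← hcomap, ← Ideal.Quotient.eq_zero_iff_mem, hev, hp, minpoly.aeval]
  · rw [← hcomap, ← Ideal.Quotient.eq_zero_iff_mem, hev, ← Polynomial.derivative_map, hp]
    exact hs.aeval_derivative_ne_zero (minpoly.aeval k xb)

/-- **Congruence.** `f` is a local parameter at `N`, `φ` and `φ'` are integral points above `N` with the same residues, `φ f` and `φ' f` are divisible by `c`: then `φ` and `φ'` are congruent modulo `c`. (For `c = 0`: `φ = φ'` on `S`.)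

Proof. For `s ∈ S` let `d s = φ s - φ' s`, an element of the maximal ideal `𝔪` of `W`. (1) If `x ∈ It {N} f`, `s x = f y`, then `φ x`, `φ' x ∈ c W` (`φ s`, `φ' s` are units), so `d x ∈ c W`. The `V`-module `S / It {N} f` is generated by finitely many `b`
(`it_fin`). One of the finitely many elements `c`, `d b` of `W` divides all others. If it is `c` we are done. Otherwise it is `d b₀`, `c` is not a divisor of it, so `c ∈ 𝔪 d b₀`, and `d x ∈ (d b₀) W` for all `x ∈ S`.
(2) `d x ∈ 𝔪 d b₀` for `x ∈ N`: `s x = f y + π y'`, so `φ s φ x - φ' s φ' x ∈ c W + π (d b₀) W`, and the left side is `φ s d x + d s φ' x`, `φ s` a unit, `φ' x ∈ 𝔪`.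
(3) `d x ∈ 𝔪 d b₀` for all `x ∈ S`: `S / N` is finite and separable over `k` (it is a quotient of `Sk / (q f)`, `k` is perfect), so there is a monic `h ∈ V[X]` with `h (x) ∈ N`, `h' (x) ∉ N`; `d (h x) = h (φ x) - h (φ' x) = d x (h' (φ x) + d x (..))`, and the
second factor is a unit. For `x = b₀` this is a contradiction. -/
theorem congr_pt [IsAdicComplete (maximalIdeal V) V] [PerfectField k] (hW : Wv V L W) {π : V}
    (hπ : Irreducible π) {N : Ideal S} (hN : Cs V N) {f : S} (hf : Rgl π N f) (hq : M.q f ≠ 0)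
    {φ φ' : SL →ₐ[L] Ω} (h : M.Ov W φ N) (h' : M.Ov W φ' N)
    (hr : ∀ s : S, φ (M.i s) - φ' (M.i s) ∈ W.nonunits) {c : Ω} (hc : c ∈ W)
    (hfc : ∃ w ∈ W, φ (M.i f) = c * w) (hfc' : ∃ w ∈ W, φ' (M.i f) = c * w) (s : S) :
    ∃ w ∈ W, φ (M.i s) - φ' (M.i s) = c * w := by
  classical
  have _ := hc
  set P : S →+* W := M.cgPt h.1 with hP
  set P' : S →+* W := M.cgPt h'.1 with hP'
  set v := W.valuation with hv
  have hv1 : ∀ w : W, v (w : Ω) ≤ 1 := fun w => (W.valuation_le_one_iff _).2 w.2
  have hPN : ∀ s : S, s ∈ N ↔ v (P s : Ω) < 1 := fun s => by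
    rw [h.2, ValuationSubring.mem_nonunits_iff]
    rfl
  have hPN' : ∀ s : S, s ∈ N ↔ v (P' s : Ω) < 1 := fun s => by
    rw [h'.2, ValuationSubring.mem_nonunits_iff]
    rfl
  have hu : ∀ s : S, s ∉ N → v (P s : Ω) = 1 := fun s hs =>
    le_antisymm (hv1 _) (not_lt.1 fun hlt => hs ((hPN s).2 hlt))
  have hu' : ∀ s : S, s ∉ N → v (P' s : Ω) = 1 := fun s hs =>
    le_antisymm (hv1 _) (not_lt.1 fun hlt => hs ((hPN' s).2 hlt))
  have hd1 : ∀ s : S, v ((P s : Ω) - P' s) < 1 := fun s => by
    have h1 := hr s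
    rw [ValuationSubring.mem_nonunits_iff] at h1
    exact h1
  rw [cg_dvd] at hfc hfc' ⊢
  change v (P f : Ω) ≤ v c at hfc
  change v (P' f : Ω) ≤ v c at hfc'
  change v ((P s : Ω) - P' s) ≤ v c
  have hT : ∀ N' ∈ ({N} : Set (Ideal S)), N'.IsPrime := by
    rintro N' rfl
    exact hN.1.isPrime
  obtain ⟨t, ht⟩ := M.it_gen (Set.finite_singleton N) (by rintro N' rfl; exact hN) hT hq
  -- elements divisible by `f`
  have hIt : ∀ x ∈ It {N} hT f, v ((P x : Ω) - P' x) ≤ v c := by
    rintro x ⟨s, hs, y, e⟩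
    have hsN : s ∉ N := hs N rfl
    have e1 : v (P x : Ω) ≤ v c := by
      have h1 : (P s : Ω) * P x = P f * P y := by
        have := congrArg (fun z => ((P z : W) : Ω)) e
        simpa using this
      have h2 := congrArg v h1
      rw [map_mul, map_mul, hu s hsN, one_mul] at h2
      rw [h2]
      calc v (P f : Ω) * v (P y : Ω) ≤ v c * 1 := mul_le_mul' hfc (hv1 _)
        _ = v c := mul_one _
    have e2 : v (P' x : Ω) ≤ v c := by
      have h1 : (P' s : Ω) * P' x = P' f * P' y := by
        have := congrArg (fun z => ((P' z : W) : Ω)) e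
        simpa using this
      have h2 := congrArg v h1
      rw [map_mul, map_mul, hu' s hsN, one_mul] at h2
      rw [h2]
      calc v (P' f : Ω) * v (P' y : Ω) ≤ v c * 1 := mul_le_mul' hfc' (hv1 _)
        _ = v c := mul_one _
    exact (Valuation.map_sub v _ _).trans (max_le e1 e2)
  -- a bound for the generators is a bound for all elements
  have hall : ∀ g, v c ≤ g → (∀ b ∈ t, v ((P b : Ω) - P' b) ≤ g) →
      ∀ x : S, v ((P x : Ω) - P' x) ≤ g := by
    intro g hcg hb x
    have h0 : ∀ z ∈ Submodule.span V (t : Set S), v ((P z : Ω) - P' z) ≤ g := by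
      intro z hz
      induction hz using Submodule.span_induction with
      | mem b hb' => exact hb b hb'
      | zero =>
        rw [map_zero, map_zero, sub_self, map_zero]
        exact zero_le'
      | add a b _ _ ha hb' =>
        have e : ((P (a + b) : W) : Ω) - (P' (a + b) : W) =
            ((P a : Ω) - P' a) + ((P b : Ω) - P' b) := by
          rw [map_add, map_add]
          push_cast
          ring
        rw [e]
        exact (v.map_add _ _).trans (max_le ha hb')
      | smul r a _ ha =>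
        have e : ((P (r • a) : W) : Ω) - (P' (r • a) : W) =
            (cgRho hW r : W) * ((P a : Ω) - P' a) := by
          rw [Algebra.smul_def, map_mul, map_mul, hP, hP', M.cgPt_alg hW, M.cgPt_alg hW]
          push_cast
          ring
        rw [e, map_mul]
        calc v ((cgRho hW r : W) : Ω) * v ((P a : Ω) - P' a) ≤ 1 * g :=
              mul_le_mul' (hv1 _) ha
          _ = g := one_mul _
    obtain ⟨z, hz, hzx⟩ := ht x 1 (st_one hT)
    rw [one_mul] at hzx
    have h1 := h0 z hz
    have h2 := (hIt _ hzx).trans hcg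
    have e : (P x : Ω) - P' x = ((P z : Ω) - P' z) - ((P (z - x) : Ω) - P' (z - x)) := by
      rw [map_sub, map_sub]
      push_cast
      ring
    rw [e]
    exact (Valuation.map_sub v _ _).trans (max_le h1 h2)
  by_contra hcon
  have hne : ∃ b ∈ t, v c < v ((P b : Ω) - P' b) := by
    by_contra hno
    push Not at hno
    exact hcon (hall _ le_rfl hno s)
  obtain ⟨b₁, hb₁, hb₁'⟩ := hne
  obtain ⟨b₀, hb₀, hmax⟩ := Finset.exists_max_image t (fun b => v ((P b : Ω) - P' b)) ⟨b₁, hb₁⟩
  set g := v ((P b₀ : Ω) - P' b₀) with hg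
  have hcg : v c < g := lt_of_lt_of_le hb₁' (hmax b₁ hb₁)
  have hle := hall g hcg.le hmax
  have hg0 : 0 < g := lt_of_le_of_lt zero_le' hcg
  have hmul : ∀ a x, a < (1 : W.ValueGroup) → x ≤ g → a * x < g := by
    intro a x ha hx
    calc a * x ≤ a * g := mul_le_mul' le_rfl hx
      _ < 1 * g := mul_lt_mul_of_pos_right ha hg0
      _ = g := one_mul _
  -- elements of `N`
  have hlN : ∀ x ∈ N, v ((P x : Ω) - P' x) < g := by
    intro x hx
    obtain ⟨s, hs, hs'⟩ := hf.2
    obtain ⟨y, y', e⟩ := hs' x hx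
    have e1 : (P s : Ω) * ((P x : Ω) - P' x) = P f * P y - P' f * P' y +
        (cgRho hW π : W) * ((P y' : Ω) - P' y') - ((P s : Ω) - P' s) * P' x := by
      have h1 : (P s : Ω) * P x = P f * P y + (cgRho hW π : W) * P y' := by
        have := congrArg (fun z => ((P z : W) : Ω)) e
        simp only [map_mul, map_add, hP, M.cgPt_alg hW] at this
        simpa using this
      have h2 : (P' s : Ω) * P' x = P' f * P' y + (cgRho hW π : W) * P' y' := by
        have := congrArg (fun z => ((P' z : W) : Ω)) e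
        simp only [map_mul, map_add, hP', M.cgPt_alg hW] at this
        simpa using this
      linear_combination h1 - h2
    have e2 : v ((P x : Ω) - P' x) = v ((P s : Ω) * ((P x : Ω) - P' x)) := by
      rw [map_mul, hu s hs, one_mul]
    rw [e2, e1]
    have k1 : v ((P f : Ω) * P y) < g := by
      rw [map_mul]
      refine lt_of_le_of_lt ?_ hcg
      calc v (P f : Ω) * v (P y : Ω) ≤ v c * 1 := mul_le_mul' hfc (hv1 _)
        _ = v c := mul_one _
    have k2 : v ((P' f : Ω) * P' y) < g := by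
      rw [map_mul]
      refine lt_of_le_of_lt ?_ hcg
      calc v (P' f : Ω) * v (P' y : Ω) ≤ v c * 1 := mul_le_mul' hfc' (hv1 _)
        _ = v c := mul_one _
    have k3 : v ((cgRho hW π : W) * ((P y' : Ω) - P' y')) < g := by
      rw [map_mul]
      refine hmul _ _ ?_ (hle y')
      have h1 := hW.lt π (by rw [hπ.maximalIdeal_eq]; exact Ideal.mem_span_singleton_self π)
      rw [ValuationSubring.mem_nonunits_iff] at h1
      exact h1
    have k4 : v (((P s : Ω) - P' s) * P' x) < g := by
      rw [map_mul, mul_comm]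
      exact hmul _ _ ((hPN' x).1 hx) (hle s)
    refine lt_of_le_of_lt (Valuation.map_sub v _ _) (max_lt ?_ k4)
    refine lt_of_le_of_lt (v.map_add _ _) (max_lt ?_ k3)
    exact lt_of_le_of_lt (Valuation.map_sub v _ _) (max_lt k1 k2)
  -- all elements
  obtain ⟨p, hp1, hp2⟩ := M.cg_sep hπ hN hf.1 hq b₀
  have hlt := hlN _ hp1
  set H : Polynomial W := p.map (cgRho hW) with hH
  have e1 : P (Polynomial.aeval b₀ p) = H.eval (P b₀) := M.cgPt_aeval hW h.1 b₀ p
  have e2 : P' (Polynomial.aeval b₀ p) = H.eval (P' b₀) := M.cgPt_aeval hW h'.1 b₀ p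
  have e3 : P' (Polynomial.aeval b₀ p.derivative) = H.derivative.eval (P' b₀) := by
    rw [hH, Polynomial.derivative_map]
    exact M.cgPt_aeval hW h'.1 b₀ p.derivative
  obtain ⟨κ, hκ⟩ := Polynomial.binomExpansion H (P' b₀) (P b₀ - P' b₀)
  rw [add_sub_cancel, ← e1, ← e2, ← e3] at hκ
  have e4 : ((P (Polynomial.aeval b₀ p) : W) : Ω) - (P' (Polynomial.aeval b₀ p) : W) =
      ((P' (Polynomial.aeval b₀ p.derivative) : W) + κ * ((P b₀ : Ω) - P' b₀)) *
        ((P b₀ : Ω) - P' b₀) := by
    rw [hκ]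
    push_cast
    ring
  have e5 : v (((P' (Polynomial.aeval b₀ p.derivative) : W) : Ω) +
      κ * ((P b₀ : Ω) - P' b₀)) = 1 := by
    have k1 := hu' _ hp2
    have k2 : v ((κ : Ω) * ((P b₀ : Ω) - P' b₀)) < 1 := by
      rw [map_mul]
      calc v (κ : Ω) * v ((P b₀ : Ω) - P' b₀) ≤ 1 * v ((P b₀ : Ω) - P' b₀) :=
            mul_le_mul' (hv1 κ) le_rfl
        _ = v ((P b₀ : Ω) - P' b₀) := one_mul _
        _ < 1 := hd1 b₀
    rw [Valuation.map_add_eq_of_lt_left v (by rw [k1]; exact k2), k1]
  rw [e4, map_mul, e5, one_mul] at hlt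
  exact lt_irrefl _ hlt

/-- Proof: `congr_pt` for `c = 0`, `loc`. -/
theorem pt_uniq [IsAdicComplete (maximalIdeal V) V] [PerfectField k] (hW : Wv V L W) {π : V}
    (hπ : Irreducible π) {N : Ideal S} (hN : Cs V N) {f : S} (hf : Rgl π N f) (hq : M.q f ≠ 0)
    {φ φ' : SL →ₐ[L] Ω} (h : M.Ov W φ N) (h' : M.Ov W φ' N)
    (hr : ∀ s : S, φ (M.i s) - φ' (M.i s) ∈ W.nonunits) (h0 : φ (M.i f) = 0)
    (h0' : φ' (M.i f) = 0) : φ = φ' := by
  have key : ∀ s : S, φ (M.i s) = φ' (M.i s) := by
    intro s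
    obtain ⟨w, _, hw⟩ := M.congr_pt hW hπ hN hf hq h h' hr (c := 0) W.zero_mem
      ⟨0, W.zero_mem, by rw [h0, mul_zero]⟩ ⟨0, W.zero_mem, by rw [h0', mul_zero]⟩ s
    rw [zero_mul] at hw
    exact sub_eq_zero.1 hw
  ext x
  obtain ⟨c, hc, s, e⟩ := M.loc x
  have h1 : algebraMap L Ω (algebraMap V L c) ≠ 0 := by
    rw [Ne, FaithfulSMul.algebraMap_eq_zero_iff]
    intro h2
    exact hc (IsFractionRing.injective V L (by rw [h2, map_zero]))
  have h2 := congrArg φ e
  have h3 := congrArg φ' e
  rw [map_mul, φ.commutes] at h2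
  rw [map_mul, φ'.commutes] at h3
  refine mul_left_cancel₀ h1 ?_
  rw [h2, h3, key]

end Md

end CV
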