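import Pool.Agent.Lib.MP_f80667_ag.Cv.MdW
import Pool.Agent.Lib.MP_f80667_ag.Cv.Rgx
import Pool.Agent.Lib.MP_f80667_ag.Cv.Ex

/-!
# Discs of integral points over the integers of `M`

* `fp_iff`: a point is fixed by the Galois group of `M` iff its values are in `M`. `ptE_act`: the action.
* `exists_npt`: the closed point under an integral point with residues in `M`.
* `diff_pt`: the difference of two points above a rational closed point is divisible by the difference of the local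
  parameter.
-/

set_option autoImplicit false

open ZC BE PE Polynomial TensorProduct IntermediateField IsLocalRing

namespace CV

section

variable {F : Type} [Field F] {K Ω : Type} [Field K] [Field Ω] [Algebra K Ω] [Algebra F K]
  [Algebra F Ω] [IsScalarTower F K Ω] {L : Ld K Ω} {C : Crv F} (m : Mod C (Ok L) K)
  (M : IntermediateField K Ω)

/-- The action of the Galois group on the finite points. -/
def actP (γ : Ω ≃ₐ[K] Ω) (φ : C.A →ₐ[F] Ω) : C.A →ₐ[F] Ω :=
  (γ.restrictScalars F : Ω →ₐ[F] Ω).comp φ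

omit [IsScalarTower F K Ω] in
theorem act_pt [IsScalarTower F K Ω] (γ : Ω ≃ₐ[K] Ω) (φ : C.A →ₐ[F] Ω) :
    C.V.act γ (some φ : C.V.pt Ω) = (some (actP γ φ) : C.V.pt Ω) := rfl

theorem ev_act (γ : Ω ≃ₐ[K] Ω) (φ : C.A →ₐ[F] Ω) (r : m.R) :
    ev m (actP γ φ) r = γ (ev m φ r) := ev_comp m γ φ r

/-- The action on the values of the functions over `M`. -/
theorem ptE_act {γ : Ω ≃ₐ[K] Ω} (hγ : γ ∈ M.fixingSubgroup) (φ : C.A →ₐ[F] Ω)
    (x : M ⊗[Ok L] m.R) : ptE m M (actP γ φ) x = γ (ptE m M φ x) := by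
  induction x using TensorProduct.induction_on with
  | zero => simp only [map_zero]
  | tmul c r =>
    rw [ptE_tmul, ptE_tmul, ev_act, map_mul]
    congr 1
    exact ((IntermediateField.mem_fixingSubgroup_iff M γ).1 hγ (c : Ω) c.2).symm
  | add x y hx hy => simp only [map_add, hx, hy]

/-- A point over `M`. -/
theorem fp_iff [CharZero K] [IsAlgClosure K Ω] (φ : C.A →ₐ[F] Ω) :
    Fp C.V M (some φ : C.V.pt Ω) ↔ ∀ r, ev m φ r ∈ M := by
  constructor
  · intro h r
    refine mem_of_fix M fun γ hγ => ?_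
    have h1 := h γ hγ
    rw [act_pt] at h1
    have h2 : actP γ φ = φ := Option.some.inj h1
    rw [← ev_act, h2]
  · intro h γ hγ
    rw [act_pt]
    have h2 : actP γ φ = φ := ev_inj m fun r => by
      rw [ev_act]
      exact (IntermediateField.mem_fixingSubgroup_iff M γ).1 hγ _ (h r)
    rw [h2]

/-- The values of the functions over the integers of `M` at a point over `M`. -/
theorem val_mem {φ : C.A →ₐ[F] Ω} (h : ∀ r, ev m φ r ∈ M) (s : OM L M ⊗[Ok L] m.R) :
    ptE m M φ ((m.mdM M).i s) ∈ M := by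
  induction s using TensorProduct.induction_on with
  | zero => rw [map_zero, map_zero]; exact zero_mem _
  | tmul c r => rw [ptE_i]; exact mul_mem (c : M).2 (h r)
  | add x y hx hy =>
    have e1 : (m.mdM M).i (x + y) = (m.mdM M).i x + (m.mdM M).i y := map_add (m.mdM M).i x y
    rw [e1, map_add]
    exact add_mem hx hy

theorem ptE_cst (φ : C.A →ₐ[F] Ω) (c : OM L M) :
    ptE m M φ ((m.mdM M).i (algebraMap (OM L M) _ c)) = ((c : M) : Ω) := by
  rw [Algebra.TensorProduct.algebraMap_apply, ptE_i, map_one, mul_one]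
  rfl

/-- Residues. -/
theorem val_res {φ : C.A →ₐ[F] Ω}
    (h : ∀ r, ∃ a : OM L M, L.nm (ev m φ r - ((a : M) : Ω)) < 1) (s : OM L M ⊗[Ok L] m.R) :
    ∃ c : OM L M, L.nm (ptE m M φ ((m.mdM M).i (s - algebraMap (OM L M) _ c))) < 1 := by
  have e0 : ∀ (s : OM L M ⊗[Ok L] m.R) (c : OM L M),
      ptE m M φ ((m.mdM M).i (s - algebraMap (OM L M) _ c)) =
        ptE m M φ ((m.mdM M).i s) - ((c : M) : Ω) := by
    intro s c
    have e1 : (m.mdM M).i (s - algebraMap (OM L M) _ c) =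
      (m.mdM M).i s - (m.mdM M).i (algebraMap (OM L M) _ c) := map_sub (m.mdM M).i _ _
    rw [e1, map_sub, ptE_cst]
  induction s using TensorProduct.induction_on with
  | zero =>
    refine ⟨0, ?_⟩
    rw [e0, map_zero, map_zero]
    change L.nm (0 - 0) < 1
    rw [sub_zero, L.zero]
    exact zero_lt_one
  | tmul c r =>
    obtain ⟨a, ha⟩ := h r
    refine ⟨c * a, ?_⟩
    rw [e0, ptE_i]
    have e2 : (((c * a : OM L M) : M) : Ω) = ((c : M) : Ω) * ((a : M) : Ω) := rfl
    rw [e2, ← mul_sub, L.mul]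
    exact (mul_le_of_le_one_left (L.nonneg _) c.2).trans_lt ha
  | add x y hx hy =>
    obtain ⟨a, ha⟩ := hx
    obtain ⟨b, hb⟩ := hy
    refine ⟨a + b, ?_⟩
    rw [e0] at ha hb ⊢
    have e1 : (m.mdM M).i (x + y) = (m.mdM M).i x + (m.mdM M).i y := map_add (m.mdM M).i x y
    have e2 : (((a + b : OM L M) : M) : Ω) = ((a : M) : Ω) + ((b : M) : Ω) := rfl
    rw [e1, map_add, e2, add_sub_add_comm]
    exact (L.add _ _).trans_lt (max_lt ha hb)

variable [FiniteDimensional K M]

theorem ov_iff {φ : C.A →ₐ[F] Ω} {N : Ideal (OM L M ⊗[Ok L] m.R)} :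
    (m.mdM M).Ov L.V (ptE m M φ) N ↔ (∀ r, L.nm (ev m φ r) ≤ 1) ∧
      ∀ s, s ∈ N ↔ L.nm (ptE m M φ ((m.mdM M).i s)) < 1 := by
  unfold Md.Ov
  rw [ig_iff]
  simp only [nonunits_iff]

/-- The closed point under an integral point with residues in `M`. -/
theorem exists_npt [IsAlgClosure K Ω] {φ : C.A →ₐ[F] Ω} (hi : ∀ r, L.nm (ev m φ r) ≤ 1)
    (h : ∀ r, ∃ a : OM L M, L.nm (ev m φ r - ((a : M) : Ω)) < 1) :
    ∃ N : Ideal (OM L M ⊗[Ok L] m.R), Cs (OM L M) N ∧ (m.mdM M).Ov L.V (ptE m M φ) N ∧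
      ∀ s, ∃ c : OM L M, s - algebraMap (OM L M) _ c ∈ N := by
  have := algClM (K := K) (Ω := Ω) M
  have : Algebra.IsAlgebraic M Ω := IsAlgClosure.isAlgebraic
  obtain ⟨N, hN, hov⟩ := (m.mdM M).ig_ov (wvM L M) ((ig_iff m M φ).2 hi)
  refine ⟨N, hN, hov, fun s => ?_⟩
  obtain ⟨c, hc⟩ := val_res m M h s
  exact ⟨c, (((ov_iff m M).1 hov).2 _).2 hc⟩

omit [Algebra F Ω] [IsScalarTower F K Ω] [FiniteDimensional K M] in
/-- The ring of the special fibre is a Dedekind domain. -/
theorem dedSk : IsDedekindDomain (ResidueField (OM L M) ⊗[Ok L] m.R) := by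
  have h1 := m.sm
  have : Algebra.Smooth (ResidueField (OM L M)) (ResidueField (OM L M) ⊗[Ok L] m.R) :=
    inferInstance
  exact (m.mdM M).Dk.ded

omit [Algebra F Ω] [IsScalarTower F K Ω] [FiniteDimensional K M] in
/-- The ring of the generic fibre is a Dedekind domain. -/
theorem dedSL : IsDedekindDomain (M ⊗[Ok L] m.R) := by
  have h1 := m.sm
  have : Algebra.Smooth M (M ⊗[Ok L] m.R) := inferInstance
  exact (m.mdM M).DL.ded

/-- The difference of two points above a rational closed point. Proof: let `g` be the maximum of the norms of the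
differences `d t` of the values of finitely many generators. `d (x y) = φ x d y + d x φ' y`, so `d s` has norm `≤ g` for all `s`.
If `d z` has norm `< g` then all `x ∈ N` have `d x` of norm `< g`: `s x = z y + π y'`. But the generators are in `V + N`. -/
theorem diff_pt {N : Ideal (OM L M ⊗[Ok L] m.R)}
    (hk : ∀ s, ∃ c : OM L M, s - algebraMap (OM L M) _ c ∈ N) {π : OM L M} (hπ : Irreducible π)
    {z : OM L M ⊗[Ok L] m.R} (hz : Rgl π N z) {φ φ' : C.A →ₐ[F] Ω}
    (h : (m.mdM M).Ov L.V (ptE m M φ) N) (h' : (m.mdM M).Ov L.V (ptE m M φ') N)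
    (s : OM L M ⊗[Ok L] m.R) :
    L.nm (ptE m M φ ((m.mdM M).i s) - ptE m M φ' ((m.mdM M).i s)) ≤
      L.nm (ptE m M φ ((m.mdM M).i z) - ptE m M φ' ((m.mdM M).i z)) := by
  classical
  have hsm := m.sm
  have hft : Algebra.FiniteType (OM L M) (OM L M ⊗[Ok L] m.R) := inferInstance
  obtain ⟨T, hT⟩ := hft.out
  let f : OM L M ⊗[Ok L] m.R →+* Ω := (ptE m M φ).toRingHom.comp (m.mdM M).i
  let f' : OM L M ⊗[Ok L] m.R →+* Ω := (ptE m M φ').toRingHom.comp (m.mdM M).i
  have ef : ∀ s, ptE m M φ ((m.mdM M).i s) = f s := fun s => rfl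
  have ef' : ∀ s, ptE m M φ' ((m.mdM M).i s) = f' s := fun s => rfl
  have hc : ∀ c, f (algebraMap (OM L M) _ c) = ((c : M) : Ω) := fun c => by
    rw [← ef, ptE_cst]
  have hc' : ∀ c, f' (algebraMap (OM L M) _ c) = ((c : M) : Ω) := fun c => by
    rw [← ef', ptE_cst]
  obtain ⟨h1, h2⟩ := (ov_iff m M).1 h
  obtain ⟨h1', h2'⟩ := (ov_iff m M).1 h'
  have hi : ∀ s, L.nm (f s) ≤ 1 := (int_iff m M φ).2 h1
  have hi' : ∀ s, L.nm (f' s) ≤ 1 := (int_iff m M φ').2 h1'
  simp only [ef, ef'] at h2 h2' ⊢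
  -- the bound
  have hg : ∃ g : ℝ, 0 ≤ g ∧ (∀ t ∈ T, L.nm (f t - f' t) ≤ g) ∧
      (g = 0 ∨ ∃ t ∈ T, L.nm (f t - f' t) = g) := by
    rcases T.eq_empty_or_nonempty with hT0 | hT0
    · exact ⟨0, le_rfl, by rw [hT0]; simp, Or.inl rfl⟩
    · obtain ⟨t, ht, hmax⟩ := T.exists_max_image (fun t => L.nm (f t - f' t)) hT0
      exact ⟨_, L.nonneg _, hmax, Or.inr ⟨t, ht, rfl⟩⟩
  obtain ⟨g, hg0, hgT, hg1⟩ := hg
  have hall : ∀ s, L.nm (f s - f' s) ≤ g := by
    intro s
    have hs : s ∈ Algebra.adjoin (OM L M) (T : Set (OM L M ⊗[Ok L] m.R)) := by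
      rw [hT]; exact Algebra.mem_top
    induction hs using Algebra.adjoin_induction with
    | mem x hx => exact hgT x hx
    | algebraMap c => rw [hc, hc', sub_self, L.zero]; exact hg0
    | add x y _ _ hx hy =>
      rw [map_add, map_add, add_sub_add_comm]
      exact (L.add _ _).trans (max_le hx hy)
    | mul x y _ _ hx hy =>
      have e : f (x * y) - f' (x * y) = f x * (f y - f' y) + (f x - f' x) * f' y := by
        rw [map_mul, map_mul]; ring
      rw [e]
      refine (L.add _ _).trans (max_le ?_ ?_)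
      · rw [L.mul]
        exact (mul_le_of_le_one_left (L.nonneg _) (hi x)).trans hy
      · rw [L.mul]
        exact (mul_le_of_le_one_right (L.nonneg _) (hi' y)).trans hx
  refine (hall s).trans ?_
  by_contra hlt
  rw [not_le] at hlt
  have hgpos : 0 < g := (L.nonneg _).trans_lt hlt
  have hπ1 : L.nm ((π : M) : Ω) < 1 := by
    rw [← maxOM]
    exact (IsDiscreteValuationRing.irreducible_iff_uniformizer π).1 hπ ▸
      Ideal.mem_span_singleton_self π
  obtain ⟨σ, hσ, hzN⟩ := hz.2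
  have hσ1 : L.nm (f σ) = 1 := le_antisymm (hi σ) (not_lt.1 fun hlt' => hσ ((h2 σ).2 hlt'))
  have hN : ∀ x ∈ N, L.nm (f x - f' x) < g := by
    intro x hx
    obtain ⟨y, y', e⟩ := hzN x hx
    have e1 := congrArg f e
    have e2 := congrArg f' e
    rw [map_mul, map_add, map_mul, map_mul, hc] at e1
    rw [map_mul, map_add, map_mul, map_mul, hc'] at e2
    have e3 : f σ * (f x - f' x) = (f' x * (f' σ - f σ) + f z * (f y - f' y)) +
        ((f z - f' z) * f' y + ((π : M) : Ω) * (f y' - f' y')) := by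
      linear_combination e1 - e2
    have e4 : L.nm (f x - f' x) = L.nm (f σ * (f x - f' x)) := by rw [L.mul, hσ1, one_mul]
    have lt1 : ∀ a b : Ω, L.nm a < 1 → L.nm b ≤ g → L.nm (a * b) < g := by
      intro a b ha hb
      rw [L.mul]
      exact (mul_le_mul_of_nonneg_left hb (L.nonneg _)).trans_lt (mul_lt_of_lt_one_left hgpos ha)
    rw [e4, e3]
    refine (L.add _ _).trans_lt (max_lt ((L.add _ _).trans_lt (max_lt ?_ ?_))
      ((L.add _ _).trans_lt (max_lt ?_ ?_)))
    · exact lt1 _ _ ((h2' x).1 hx) (by rw [L.sub_comm]; exact hall σ)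
    · exact lt1 _ _ ((h2 z).1 hz.1) (hall y)
    · rw [L.mul]
      exact (mul_le_of_le_one_right (L.nonneg _) (hi' y)).trans_lt hlt
    · exact lt1 _ _ hπ1 (hall y')
  rcases hg1 with hg1 | ⟨t, ht, htg⟩
  · exact hgpos.ne' hg1
  · obtain ⟨c, hc1⟩ := hk t
    have h5 := hN _ hc1
    rw [map_sub, map_sub, hc, hc', sub_sub_sub_cancel_right, htg] at h5
    exact lt_irrefl _ h5

end

end CV
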