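import Pool.Agent.Lib.MP_f80667_ag.Cv.RtP
import Pool.Agent.Lib.MP_f80667_ag.Cv.MdL

/-!
Models over the integers of `M`: integral points, congruences, rational closed points.

`Cmp m D e ρ`: the model `D` over the integers of `M` of the curve `C` (`e`: its generic fibre is `M ⊗ C.A`) is compatible with
the model `m` over the integers of `K` (`ρ`: the map of the functions).
-/

open ZC BE PE Polynomial TensorProduct IntermediateField IsLocalRing

namespace CV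

variable {F : Type} [Field F] {C : Crv F} {K Ω : Type} [Field K] [CharZero K] [Field Ω]
  [Algebra K Ω] [Algebra F K] [Algebra F Ω] [IsScalarTower F K Ω] [IsAlgClosure K Ω] {L : Ld K Ω}
  {M : IntermediateField K Ω} [FiniteDimensional K M] {k S SM Sk : Type} [Field k]
  [Algebra (OM L M) k] [CommRing S] [CommRing SM] [CommRing Sk] [Algebra (OM L M) S]
  [Algebra M SM] [Algebra k Sk]

/-- The model `D` is compatible with the model `m` over the integers of `K`. -/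
structure Cmp (m : Mod C (Ok L) K) (D : Md (OM L M) M k S SM Sk) (e : SM ≃ₐ[M] M ⊗[F] C.A)
    (ρ : m.R →+* S) : Prop where
  ev : ∀ (φ : SM →ₐ[M] Ω) (a : m.R), φ (D.i (ρ a)) = CV.ev m (pe e φ) a
  gen : ∀ s : S, s ∈ Algebra.adjoin (OM L M) (Set.range ρ)

variable {m : Mod C (Ok L) K} {D : Md (OM L M) M k S SM Sk} {e : SM ≃ₐ[M] M ⊗[F] C.A}
  {ρ : m.R →+* S} (hc : Cmp m D e ρ)

omit [CharZero K] [IsAlgClosure K Ω] in
private theorem chtA_nm {x : Ω} : x ∈ L.V ↔ L.nm x ≤ 1 := Iff.rfl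

omit [CharZero K] [IsAlgClosure K Ω] [Algebra F K] [IsScalarTower F K Ω] [Algebra F Ω] in
private theorem chtA_alg (φ : SM →ₐ[M] Ω) (c : OM L M) :
    φ (D.i (algebraMap (OM L M) S c)) = ((c : M) : Ω) := by
  rw [D.i_alg, φ.commutes]
  rfl

omit [CharZero K] [IsAlgClosure K Ω] [FiniteDimensional K M] in
private theorem chtA_mul (x y x' y' : Ω) (r : ℝ) (hx : L.nm x ≤ 1) (hy' : L.nm y' ≤ 1)
    (h1 : L.nm (x - x') ≤ r) (h2 : L.nm (y - y') ≤ r) :
    L.nm (x * y - x' * y') ≤ r := by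
  have e1 : x * y - x' * y' = x * (y - y') + (x - x') * y' := by ring
  rw [e1]
  refine (L.add _ _).trans (max_le ?_ ?_)
  · rw [L.mul]
    exact (mul_le_of_le_one_left (L.nonneg _) hx).trans h2
  · rw [L.mul]
    exact (mul_le_of_le_one_right (L.nonneg _) hy').trans h1

omit [CharZero K] [IsAlgClosure K Ω] [FiniteDimensional K M] in
private theorem chtA_w (d c : Ω) : (∃ w ∈ L.V, d = c * w) ↔ L.nm d ≤ L.nm c := by
  constructor
  · rintro ⟨w, hw, rfl⟩
    rw [L.mul]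
    exact mul_le_of_le_one_right (L.nonneg _) hw
  · intro h
    by_cases hc : c = 0
    · rw [hc, L.zero] at h
      have hd : d = 0 := (L.zero_iff _).1 (le_antisymm h (L.nonneg _))
      exact ⟨0, L.V.zero_mem, by rw [hd, mul_zero]⟩
    · refine ⟨d / c, ?_, (mul_div_cancel₀ _ hc).symm⟩
      rw [chtA_nm, L.div]
      exact div_le_one_of_le₀ h (L.nonneg _)

include hc

/-- Proof: `gen`, `D.i_alg`. -/
theorem cmp_ig (φ : SM →ₐ[M] Ω) :
    D.Ig L.V φ ↔ Nr m 1 (some (pe e φ) : C.V.pt Ω) (some (pe e φ)) := by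
  constructor
  · intro h
    refine ⟨pe e φ, pe e φ, rfl, rfl, fun a => ?_⟩
    have h1 : L.nm (CV.ev m (pe e φ) a) ≤ 1 := by
      rw [← hc.ev]
      exact h (ρ a)
    refine ⟨h1, h1, ?_⟩
    rw [sub_self, L.zero]
    exact zero_le_one
  · rintro ⟨φ₁, φ₂, h1, -, h3⟩
    obtain rfl : pe e φ = φ₁ := Option.some.inj h1
    intro s
    refine Algebra.adjoin_induction (p := fun s _ => φ (D.i s) ∈ L.V) ?_ ?_ ?_ ?_ (hc.gen s)
    · rintro _ ⟨a, rfl⟩
      rw [hc.ev]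
      exact (h3 a).1
    · intro c
      rw [chtA_alg]
      exact c.2
    · intro x y _ _ hx hy
      rw [map_add, map_add]
      exact L.V.add_mem _ _ hx hy
    · intro x y _ _ hx hy
      rw [map_mul, map_mul]
      exact L.V.mul_mem _ _ hx hy

private theorem chtA_ind {φ φ' : SM →ₐ[M] Ω} (h : D.Ig L.V φ) (h' : D.Ig L.V φ') {r : ℝ}
    (hr : 0 ≤ r) (h3 : ∀ a : m.R, L.nm (CV.ev m (pe e φ) a - CV.ev m (pe e φ') a) ≤ r) (s : S) :
    L.nm (φ (D.i s) - φ' (D.i s)) ≤ r := by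
  refine Algebra.adjoin_induction (p := fun s _ => L.nm (φ (D.i s) - φ' (D.i s)) ≤ r)
    ?_ ?_ ?_ ?_ (hc.gen s)
  · rintro _ ⟨a, rfl⟩
    rw [hc.ev, hc.ev]
    exact h3 a
  · intro c
    rw [chtA_alg, chtA_alg, sub_self, L.zero]
    exact hr
  · intro x y _ _ hx hy
    rw [map_add, map_add, map_add, add_sub_add_comm]
    exact (L.add _ _).trans (max_le hx hy)
  · intro x y _ _ hx hy
    rw [map_mul, map_mul, map_mul]
    exact chtA_mul _ _ _ _ r (h x) (h' y) hx hy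

/-- Congruences. Proof: induction over `Algebra.adjoin` (`gen`): constants, sums, products (`φ a b - φ' a b = φ a (φ b - φ' b) + (φ a - φ' a) φ' b`); `nm x ≤ nm c` iff `x = c w`, `nm w ≤ 1`. -/
theorem cmp_nr {φ φ' : SM →ₐ[M] Ω} (h : D.Ig L.V φ) (h' : D.Ig L.V φ') (c : Ω) :
    (∀ s : S, ∃ w ∈ L.V, φ (D.i s) - φ' (D.i s) = c * w) ↔
      Nr m (L.nm c) (some (pe e φ) : C.V.pt Ω) (some (pe e φ')) := by
  constructor
  · intro h1
    refine ⟨pe e φ, pe e φ', rfl, rfl, fun a => ?_⟩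
    rw [← hc.ev, ← hc.ev]
    exact ⟨h (ρ a), h' (ρ a), (chtA_w _ _).1 (h1 (ρ a))⟩
  · rintro ⟨φ₁, φ₂, h1, h2, h3⟩
    obtain rfl : pe e φ = φ₁ := Option.some.inj h1
    obtain rfl : pe e φ' = φ₂ := Option.some.inj h2
    intro s
    exact (chtA_w _ _).2 (chtA_ind hc h h' (L.nonneg _) (fun a => (h3 a).2.2) s)

/-- Points which are congruent (even modulo the maximal ideal) have the same reduction. -/
theorem cmp_ov {φ φ' : SM →ₐ[M] Ω} {N : Ideal S} (h : D.Ov L.V φ N) {r : ℝ} (hr : r < 1)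
    (h' : Nr m r (some (pe e φ) : C.V.pt Ω) (some (pe e φ'))) : D.Ov L.V φ' N := by
  obtain ⟨φ₁, φ₂, h1, h2, h3⟩ := h'
  obtain rfl : pe e φ = φ₁ := Option.some.inj h1
  obtain rfl : pe e φ' = φ₂ := Option.some.inj h2
  have hig : D.Ig L.V φ' := by
    rw [cmp_ig hc]
    refine ⟨pe e φ', pe e φ', rfl, rfl, fun a => ⟨(h3 a).2.1, (h3 a).2.1, ?_⟩⟩
    rw [sub_self, L.zero]
    exact zero_le_one
  have hr0 : 0 ≤ r := (L.nonneg _).trans (h3 0).2.2
  have hd := chtA_ind hc h.1 hig hr0 (fun a => (h3 a).2.2)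
  refine ⟨hig, fun s => ?_⟩
  rw [h.2 s, nonunits_iff, nonunits_iff]
  have h4 := hd s
  constructor
  · intro h5
    have e1 : φ' (D.i s) = φ (D.i s) - (φ (D.i s) - φ' (D.i s)) := by ring
    rw [e1]
    exact lt_of_le_of_lt (L.sub _ _) (max_lt h5 (lt_of_le_of_lt h4 hr))
  · intro h5
    have e1 : φ (D.i s) = φ' (D.i s) + (φ (D.i s) - φ' (D.i s)) := by ring
    rw [e1]
    exact lt_of_le_of_lt (L.add _ _) (max_lt h5 (lt_of_le_of_lt h4 hr))

/-- The integral points over `M` have rational reduction. Proof: `ig_ov`; the values of `φ` are fixed by the automorphisms over `M`, so they are in `OM L M` (`mem_of_fix` in `Be/Gal.lean`). -/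
theorem cmp_rat {φ : SM →ₐ[M] Ω} (h : D.Ig L.V φ) (h' : Fp C.V M (some (pe e φ) : C.V.pt Ω)) :
    ∃ N : Ideal S, Cs (OM L M) N ∧ D.Ov L.V φ N ∧
      ∀ s : S, ∃ c : OM L M, s - algebraMap (OM L M) S c ∈ N := by
  have : Algebra.IsAlgebraic K Ω := IsAlgClosure.isAlgebraic
  have : Algebra.IsAlgebraic M Ω := Algebra.IsAlgebraic.tower_top (K := K) M
  obtain ⟨N, hN, hov⟩ := D.ig_ov (wvM L M) h
  refine ⟨N, hN, hov, fun s => ?_⟩
  have hfix : ∀ x : SM, φ x ∈ M := by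
    intro x
    refine mem_of_fix M fun γ hγ => ?_
    have h1 : (some (pe e (Md.ag ⟨γ, hγ⟩ φ)) : C.V.pt Ω) = some (pe e φ) := by
      rw [pe_ag]
      exact h' γ hγ
    have h2 : Md.ag ⟨γ, hγ⟩ φ = φ := pe_inj e (Option.some.inj h1)
    have h3 := congrArg (fun f : SM →ₐ[M] Ω => f x) h2
    exact h3
  refine ⟨⟨⟨φ (D.i s), hfix _⟩, h s⟩, ?_⟩
  rw [hov.2, map_sub, map_sub, chtA_alg, sub_self]
  exact L.V.nonunits.zero_mem

/-- The functions `RM m M`. Proof: closure induction. -/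
theorem cmp_RM {a : Ω ⊗[Ok L] m.R} (ha : a ∈ RM m M) :
    ∃ u : S, ∀ φ : SM →ₐ[M] Ω, φ (D.i u) = evO m (pe e φ) a := by
  refine Subring.closure_induction (p := fun a _ => ∃ u : S, ∀ φ : SM →ₐ[M] Ω,
    φ (D.i u) = evO m (pe e φ) a) ?_ ?_ ?_ ?_ ?_ ?_ ha
  · rintro _ (⟨x, hx, hx1, rfl⟩ | ⟨r, rfl⟩)
    · refine ⟨algebraMap (OM L M) S ⟨⟨x, hx⟩, hx1⟩, fun φ => ?_⟩
      rw [chtA_alg]
      unfold evO
      rw [Algebra.TensorProduct.lift_tmul, map_one, mul_one]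
      rfl
    · refine ⟨ρ r, fun φ => ?_⟩
      rw [hc.ev]
      unfold evO
      rw [Algebra.TensorProduct.lift_tmul, map_one, one_mul]
  · exact ⟨0, fun φ => by rw [map_zero, map_zero, map_zero]⟩
  · exact ⟨1, fun φ => by rw [map_one, map_one, map_one]⟩
  · rintro x y _ _ ⟨u, hu⟩ ⟨v, hv⟩
    exact ⟨u + v, fun φ => by rw [map_add, map_add, map_add, hu, hv]⟩
  · rintro x _ ⟨u, hu⟩
    exact ⟨-u, fun φ => by rw [map_neg, map_neg, map_neg, hu]⟩
  · rintro x y _ _ ⟨u, hu⟩ ⟨v, hv⟩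
    exact ⟨u * v, fun φ => by rw [map_mul, map_mul, map_mul, hu, hv]⟩

end CV
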