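import Pool.Agent.Lib.MP_f80667_ag.Cv.Rgx

/-!
Local parameters at closed points of the special fibre: a criterion.
-/

open IsLocalRing

namespace CV

namespace Md

variable {V L k S SL Sk : Type} [CommRing V] [IsDomain V] [IsDiscreteValuationRing V] [Field L]
  [Field k] [Algebra V L] [IsFractionRing V L] [Algebra V k] [CommRing S] [CommRing SL]
  [CommRing Sk] [Algebra V S] [Algebra L SL] [Algebra k Sk] (M : Md V L k S SL Sk) {Ω : Type}
  [Field Ω] [Algebra L Ω] {W : ValuationSubring Ω}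

private theorem rgy_inv {x : Ω} (hx : x ∈ W) (hx' : x ∉ W.nonunits) : x⁻¹ ∈ W := by
  rw [ValuationSubring.mem_nonunits_iff, not_lt] at hx'
  rw [← W.valuation_le_one_iff, map_inv₀]
  have h1 : W.valuation x = 1 := le_antisymm ((W.valuation_le_one_iff x).2 hx) hx'
  rw [h1, inv_one]

private theorem rgy_add {x y : Ω} (hx : x ∈ W.nonunits) (hy : y ∈ W.nonunits) :
    x + y ∈ W.nonunits := by
  rw [ValuationSubring.mem_nonunits_iff] at hx hy ⊢
  exact Valuation.map_add_lt _ hx hy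

/-- if `x s = c e` with `s` a unit of `W`, `e` a nonunit, then `x = c e'`, `e'` a nonunit -/
private theorem rgy_div {x s c e : Ω} (hs : s ∈ W) (hs' : s ∉ W.nonunits) (he : e ∈ W.nonunits)
    (h : s * x = c * e) : ∃ e' ∈ W.nonunits, x = c * e' := by
  have hs0 : s ≠ 0 := by
    rintro rfl
    exact hs' W.nonunits.zero_mem
  refine ⟨s⁻¹ * e, dcA_mul_mem (rgy_inv hs hs') he, ?_⟩
  rw [← mul_assoc, mul_comm c, mul_assoc, ← h, ← mul_assoc, inv_mul_cancel₀ hs0, one_mul]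

/-- **A criterion for local parameters.** `u` takes values in the maximal ideal of `W` at the points above `N`, and points at which the values of `u` are congruent are congruent (`hu`). Then `u` is a local parameter.

Proof. `u ∈ N` (a point above `N`: `disc_pt` for `t` and `0`). `s u = t a + π b`, `s ∉ N` (`Rgl` for `t`). Claim: `a ∉ N`. Otherwise let `c` be an element of the maximal ideal of `W` which is not in `π W` (`hd`; `W` is not discrete), `φ`, `φ₀` the points above `N` with `φ t = c`, `φ₀ t = 0` (`disc_pt`). `φ s` is a unit, so `φ u` and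
`φ₀ u` are in `c 𝔪` (`φ a ∈ 𝔪`, `π ∈ c 𝔪`); let `d` be the one which divides the other. By `hu` `c = φ t - φ₀ t` is divisible by `d`, a contradiction (`d ∈ c 𝔪`, `c ≠ 0`). So `a ∉ N`, and `a t = s u - π b`: for `x ∈ N`, `s' x = t y + π y'`, `a s' x = u (s y) + π (..)`. -/
theorem rgl_of_near [IsAdicComplete (maximalIdeal V) V] [CharZero L] [IsAlgClosure L Ω]
    (hW : Wv V L W) {π : V} (hπ : Irreducible π) {N : Ideal S} (hN : Cs V N)
    (hk : ∀ s : S, ∃ c : V, s - algebraMap V S c ∈ N)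
    (hg : ∀ (σ : Ω ≃ₐ[L] Ω) (x : Ω), x ∈ W → σ x ∈ W)
    (hd : ∃ c ∈ W.nonunits, ∃ w ∈ W.nonunits, algebraMap L Ω (algebraMap V L π) = c * w)
    {t : S} (ht : Rgl π N t) {u : S} (h0 : ∀ φ : SL →ₐ[L] Ω, M.Ov W φ N → φ (M.i u) ∈ W.nonunits)
    (hu : ∀ φ φ' : SL →ₐ[L] Ω, M.Ov W φ N → M.Ov W φ' N → ∀ d ∈ W,
      (∃ w ∈ W, φ (M.i u) = d * w) → (∃ w ∈ W, φ' (M.i u) = d * w) →
      ∃ w ∈ W, φ (M.i t) - φ' (M.i t) = d * w) : Rgl π N u := by
  have hq : M.q t ≠ 0 := M.rgl_q hπ hN ht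
  obtain ⟨φ₀, hφ₀, h00⟩ := M.disc_pt hW hπ hN hk hg ht hq (c := 0) W.nonunits.zero_mem
  have huN : u ∈ N := (hφ₀.2 u).2 (h0 φ₀ hφ₀)
  have ht' := ht
  obtain ⟨-, s, hs, hsx⟩ := ht
  obtain ⟨a, b, hab⟩ := hsx u huN
  have hprime : N.IsPrime := hN.1.isPrime
  have haN : a ∉ N := by
    intro haN
    obtain ⟨c, hc, w, hw, hcw⟩ := hd
    obtain ⟨φ, hφ, hφt⟩ := M.disc_pt hW hπ hN hk hg ht' hq hc
    have hπ0 : algebraMap L Ω (algebraMap V L π) ≠ 0 := by
      rw [Ne, map_eq_zero_iff _ (algebraMap L Ω).injective,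
        map_eq_zero_iff _ (IsFractionRing.injective V L)]
      exact hπ.ne_zero
    have hc0 : c ≠ 0 := by
      rintro rfl
      rw [zero_mul] at hcw
      exact hπ0 hcw
    have key : ∀ ψ : SL →ₐ[L] Ω, M.Ov W ψ N → (∃ v ∈ W, ψ (M.i t) = c * v) →
        ∃ e ∈ W.nonunits, ψ (M.i u) = c * e := by
      intro ψ hψ hv
      obtain ⟨v, hv, hvt⟩ := hv
      have h1 : ψ (M.i s) * ψ (M.i u) = c * (v * ψ (M.i a) + ψ (M.i b) * w) := by
        rw [← map_mul, ← map_mul, hab, map_add, map_add, map_mul, map_mul, map_mul, map_mul,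
          M.dcA_alg, hcw, hvt]
        ring
      refine rgy_div (hψ.1 s) (fun h => hs ((hψ.2 s).2 h)) ?_ h1
      exact rgy_add (dcA_mul_mem hv ((hψ.2 a).1 haN)) (dcA_mul_mem (hψ.1 b) hw)
    obtain ⟨e, he, hue⟩ := key φ hφ ⟨1, W.one_mem, by rw [hφt, mul_one]⟩
    obtain ⟨e₀, he₀, hue₀⟩ := key φ₀ hφ₀ ⟨0, W.zero_mem, by rw [h00, mul_zero]⟩
    have hcW : c ∈ W := dcA_nonunit_mem hc
    have fin : ∀ d ∈ W.nonunits, (∃ w ∈ W, e = d * w) → (∃ w ∈ W, e₀ = d * w) → False := by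
      intro d hd ⟨w₁, hw₁, h₁⟩ ⟨w₂, hw₂, h₂⟩
      obtain ⟨w₃, hw₃, h₃⟩ := hu φ φ₀ hφ hφ₀ (c * d) (W.mul_mem _ _ hcW (dcA_nonunit_mem hd))
        ⟨w₁, hw₁, by rw [hue, h₁, mul_assoc]⟩ ⟨w₂, hw₂, by rw [hue₀, h₂, mul_assoc]⟩
      rw [hφt, h00, sub_zero, mul_assoc] at h₃
      have h4 : (1 : Ω) = w₃ * d := by
        apply mul_left_cancel₀ hc0
        rw [mul_one, mul_comm w₃]
        exact h₃
      exact dcA_one (h4 ▸ dcA_mul_mem hw₃ hd)
    rcases eq_or_ne e₀ 0 with h5 | h5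
    · exact fin e he ⟨1, W.one_mem, by rw [mul_one]⟩ ⟨0, W.zero_mem, by rw [h5, mul_zero]⟩
    · rcases W.mem_or_inv_mem (e * e₀⁻¹) with h6 | h6
      · exact fin e₀ he₀ ⟨_, h6, by rw [mul_comm e, ← mul_assoc, mul_inv_cancel₀ h5, one_mul]⟩
          ⟨1, W.one_mem, by rw [mul_one]⟩
      · rcases eq_or_ne e 0 with h7 | h7
        · exact fin e₀ he₀ ⟨0, W.zero_mem, by rw [h7, mul_zero]⟩ ⟨1, W.one_mem, by rw [mul_one]⟩
        · refine fin e he ⟨1, W.one_mem, by rw [mul_one]⟩ ⟨_, h6, ?_⟩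
          rw [mul_inv, inv_inv, ← mul_assoc, mul_inv_cancel₀ h7, one_mul]
  refine ⟨huN, a * s, fun h => (hprime.mem_or_mem h).elim haN hs, ?_⟩
  intro x hx
  obtain ⟨y, y', hy⟩ := hsx x hx
  refine ⟨s * y, a * y' - b * y, ?_⟩
  linear_combination a * hy - y * hab

end Md

end CV
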