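import Pool.Agent.Lib.MP_f80667_ag.Cv.ChtA
import Pool.Agent.Lib.MP_f80667_ag.Cv.Rgy

/-!
The parameter of a chart is a local parameter at a rational closed point of the special fibre.
-/

open ZC BE PE Polynomial TensorProduct IntermediateField IsLocalRing

namespace CV

variable {F : Type} [Field F] {C : Crv F} {K Ω : Type} [Field K] [CharZero K] [Field Ω]
  [Algebra K Ω] [Algebra F K] [Algebra F Ω] [IsScalarTower F K Ω] [IsAlgClosure K Ω] {L : Ld K Ω}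
  {M : IntermediateField K Ω} [FiniteDimensional K M] {k S SM Sk : Type} [Field k]
  [Algebra (OM L M) k] [CommRing S] [CommRing SM] [CommRing Sk] [Algebra (OM L M) S]
  [Algebra M SM] [Algebra k Sk] {m : Mod C (Ok L) K} {D : Md (OM L M) M k S SM Sk}
  {e : SM ≃ₐ[M] M ⊗[F] C.A} {ρ : m.R →+* S}

/-- There are numbers between the uniformizer and `1`. Proof: a root of `X ^ 2 - π`. -/
theorem cht_gap {π : OM L M} (hπ : Irreducible π) : ∃ c ∈ L.V.nonunits, ∃ w ∈ L.V.nonunits,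
    algebraMap M Ω (algebraMap (OM L M) M π) = c * w := by
  have hcl : IsAlgClosed Ω := IsAlgClosure.isAlgClosed K
  obtain ⟨c, hc⟩ := IsAlgClosed.exists_pow_nat_eq (algebraMap M Ω (algebraMap (OM L M) M π))
    (show 0 < 2 by norm_num)
  have h1 : π ∈ maximalIdeal (OM L M) := by
    rw [mem_maximalIdeal, mem_nonunits_iff]
    exact hπ.not_isUnit
  have h2 : L.nm (algebraMap M Ω (algebraMap (OM L M) M π)) < 1 := (maxOM L M π).1 h1
  have h3 : c ∈ L.V.nonunits := by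
    rw [nonunits_iff]
    rw [← hc, sq, L.mul] at h2
    by_contra h4
    rw [not_lt] at h4
    nlinarith
  exact ⟨c, h3, c, h3, by rw [← hc, sq]⟩

/-- **The parameter of a chart.**

Proof. `P 0 = some (pe e φ₀)` (`val`, `pe_surj`), integral (`near` for `w = w' = 0`, `r = 1`; `cmp_ig`), fixed by the automorphisms over `M` (`eqv`), `N` its reduction (`cmp_rat`). `u` from `cmp_RM` for `T.a`. (1) For `nm w < 1` `P w = some (pe e φ)` (`val`, `pe_surj`), `φ u = w` (`cmp_RM`, `val`), and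
`near w 0 (nm w)` (`<`: `max (nm w) (nm 0) = nm w < 1`) and `cmp_ov` give that `φ` is above `N`. (2) Every `φ` above `N` is congruent to `φ₀` modulo an element of the maximal ideal (`exists_rgl`, `near_pt`, `cmp_nr`), so `some (pe e φ) = P w` by `surj`, and `w = φ u` by `val`, `cmp_RM`. (3) `rgl_of_near`
for `u`, `t` from `exists_rgl`: by (2) and `near` points above `N` with `φ u`, `φ' u ∈ d W` are congruent modulo `d` (`cmp_nr`; `nm (φ u - φ' u) ≤ nm d`; `cht_gap`). -/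
theorem cht_par [PerfectField k] [IsDedekindDomain Sk] (hc : Cmp m D e ρ) (T : Cht m M) :
    ∃ (N : Ideal S) (u : S), Cs (OM L M) N ∧
      (∀ s : S, ∃ c : OM L M, s - algebraMap (OM L M) S c ∈ N) ∧
      (∀ π : OM L M, Irreducible π → Rgl π N u) ∧
      (∀ w, L.nm w < 1 → ∃ φ : SM →ₐ[M] Ω, T.P w = some (pe e φ) ∧ D.Ov L.V φ N ∧
        φ (D.i u) = w) ∧
      ∀ φ : SM →ₐ[M] Ω, D.Ov L.V φ N → T.P (φ (D.i u)) = some (pe e φ) := by
  have i1 : IsAlgClosure M Ω := algClM M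
  have i2 : CharZero M := charM M
  have h00 : L.nm 0 < 1 := by rw [L.zero]; exact zero_lt_one
  -- the centre
  obtain ⟨ψ₀, hψ₀, -⟩ := T.val 0 h00
  obtain ⟨φ₀, rfl⟩ := pe_surj e ψ₀
  have hig : D.Ig L.V φ₀ := by
    rw [cmp_ig hc, ← hψ₀, T.near 0 0 h00 h00 1 zero_le_one le_rfl, sub_zero]
    exact h00.le
  have hfp : Fp C.V M (some (pe e φ₀) : C.V.pt Ω) := by
    intro γ hγ
    rw [← hψ₀, T.eqv γ hγ 0 h00, map_zero]
  obtain ⟨N, hN, hov, hk⟩ := cmp_rat hc hig hfp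
  obtain ⟨u, hu⟩ := cmp_RM hc T.ha
  -- (1)
  have h1 : ∀ w, L.nm w < 1 → ∃ φ : SM →ₐ[M] Ω, T.P w = some (pe e φ) ∧ D.Ov L.V φ N ∧
      φ (D.i u) = w := by
    intro w hw
    obtain ⟨ψ, hψ, hψa⟩ := T.val w hw
    obtain ⟨φ, rfl⟩ := pe_surj e ψ
    refine ⟨φ, hψ, ?_, by rw [hu, hψa]⟩
    refine cmp_ov hc hov hw ?_
    rw [← hψ₀, ← hψ, T.near 0 w h00 hw _ (L.nonneg w) hw.le, zero_sub, L.neg]
  -- (2)
  obtain ⟨π₀, hπ₀⟩ := IsDiscreteValuationRing.exists_irreducible (OM L M)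
  obtain ⟨t₀, ht₀⟩ := D.exists_rgl hπ₀ hN
  have h2 : ∀ φ : SM →ₐ[M] Ω, D.Ov L.V φ N → L.nm (φ (D.i u)) < 1 ∧
      T.P (φ (D.i u)) = some (pe e φ) := by
    intro φ hφ
    obtain ⟨c, hcn, hcs⟩ := D.near_pt (wvM L M) hπ₀ hN hk ht₀ hφ hov
    rw [nonunits_iff] at hcn
    have h3 := (cmp_nr hc hφ.1 hov.1 c).1 hcs
    rw [← hψ₀] at h3
    obtain ⟨w, hw, hwP⟩ := T.surj _ _ hcn h3
    obtain ⟨ψ, hψ, hψa⟩ := T.val w hw
    have h4 : some (pe e φ) = some ψ := hwP.trans hψ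
    have h5 : pe e φ = ψ := Option.some_injective _ h4
    have h6 : φ (D.i u) = w := by rw [hu, h5, hψa]
    rw [h6]
    exact ⟨hw, hwP.symm⟩
  refine ⟨N, u, hN, hk, ?_, h1, fun φ hφ => (h2 φ hφ).2⟩
  -- (3)
  intro π hπ
  obtain ⟨t, ht⟩ := D.exists_rgl hπ hN
  refine D.rgl_of_near (wvM L M) hπ hN hk ?_ (cht_gap hπ) ht ?_ ?_
  · intro σ x hx
    rw [L.mem_V] at hx ⊢
    have h3 : L.nm ((σ.restrictScalars K) x) = L.nm x := L.act _ x
    exact h3.le.trans hx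
  · intro φ hφ
    rw [nonunits_iff]
    exact (h2 φ hφ).1
  · rintro φ φ' hφ hφ' d hd ⟨w, hw, hwd⟩ ⟨w', hw', hwd'⟩
    rw [L.mem_V] at hd hw hw'
    have h3 : L.nm (φ (D.i u) - φ' (D.i u)) ≤ L.nm d := by
      rw [hwd, hwd', ← mul_sub, L.mul]
      refine mul_le_of_le_one_right (L.nonneg _) ?_
      rw [sub_eq_add_neg]
      refine (L.add _ _).trans (max_le hw ?_)
      rw [L.neg]
      exact hw'
    have h4 := (T.near _ _ (h2 φ hφ).1 (h2 φ' hφ').1 _ (L.nonneg d) hd).2 h3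
    rw [(h2 φ hφ).2, (h2 φ' hφ').2] at h4
    exact (cmp_nr hc hφ.1 hφ'.1 d).2 h4 t

end CV
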