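import Pool.Agent.Lib.MP_f80667_ag.Cv.MdL
import Pool.Agent.Lib.MP_f80667_ag.Cv.Ex

/-!
Real numbers and powers of a uniformizer, polynomials with coefficients in the integers of `M`.
-/

open ZC BE PE Polynomial IntermediateField IsLocalRing

namespace CV

variable {K Ω : Type} [Field K] [Field Ω] [Algebra K Ω] {L : Ld K Ω} {M : IntermediateField K Ω}

private theorem omp_pow (π : OM L M) (k : ℕ) :
    L.nm (((π ^ k : OM L M) : M) : Ω) = L.nm ((π : M) : Ω) ^ k := by
  rw [← L.pow]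
  rfl

private theorem omp_inj :
    Function.Injective ((algebraMap M Ω).comp (algebraMap (OM L M) M)) := by
  intro x y h
  have h1 : ((x : M) : Ω) = ((y : M) : Ω) := h
  exact Subtype.ext (Subtype.ext h1)

/-- Proof: the least `k` with `nm π ^ k ≤ r`; `exists_unif`, `dvd_iff_nm`. -/
theorem om_pik [FiniteDimensional K M] {π : OM L M} (hπ : Irreducible π) {r : ℝ} (h0 : 0 < r)
    (h1 : r < 1) : ∃ k : ℕ, k ≠ 0 ∧ L.nm ((π : M) : Ω) ^ k ≤ r ∧
      ∀ x : OM L M, L.nm ((x : M) : Ω) ≤ r → π ^ k ∣ x := by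
  classical
  have hπ1 : L.nm ((π : M) : Ω) < 1 := by
    rw [← maxOM]
    exact (IsDiscreteValuationRing.irreducible_iff_uniformizer π).1 hπ ▸
      Ideal.mem_span_singleton_self π
  have hex : ∃ k : ℕ, L.nm ((π : M) : Ω) ^ k ≤ r := by
    obtain ⟨n, hn⟩ := exists_pow_lt_of_lt_one h0 hπ1
    exact ⟨n, hn.le⟩
  refine ⟨Nat.find hex, ?_, Nat.find_spec hex, fun x hx => ?_⟩
  · intro h
    have h2 := Nat.find_spec hex
    rw [h, pow_zero] at h2
    exact absurd h1 (not_lt.2 h2)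
  · by_cases hx0 : x = 0
    · rw [hx0]
      exact dvd_zero _
    · obtain ⟨n, hn⟩ := IsDiscreteValuationRing.associated_pow_irreducible hx0 hπ
      have h3 : L.nm ((π : M) : Ω) ^ n ≤ L.nm ((x : M) : Ω) := by
        have h4 := (dvd_iff_nm (L := L) (M := M)).1 hn.dvd
        rwa [omp_pow] at h4
      exact (pow_dvd_pow π (Nat.find_min' hex (h3.trans hx))).trans hn.symm.dvd

/-- Lifting of a polynomial. -/
theorem om_poly {f : Polynomial Ω} (hm : ∀ i, f.coeff i ∈ M) (hle : ∀ i, L.nm (f.coeff i) ≤ 1) :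
    ∃ f₀ : (OM L M)[X], f₀.map ((algebraMap M Ω).comp (algebraMap (OM L M) M)) = f ∧
      f₀.natDegree = f.natDegree ∧ (f.Monic → f₀.Monic) := by
  have h1 : f ∈ lifts ((algebraMap M Ω).comp (algebraMap (OM L M) M)) := by
    rw [lifts_iff_coeff_lifts]
    intro i
    exact ⟨⟨⟨f.coeff i, hm i⟩, hle i⟩, rfl⟩
  obtain ⟨f₀, hf₀⟩ := (mem_lifts f).1 h1
  refine ⟨f₀, hf₀, ?_, fun h => ?_⟩
  · rw [← hf₀, natDegree_map_eq_of_injective omp_inj]
  · rw [← hf₀] at h
    exact monic_of_injective omp_inj h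

private theorem omp_coe {f : Polynomial Ω} {f₀ : (OM L M)[X]}
    (hf : f₀.map ((algebraMap M Ω).comp (algebraMap (OM L M) M)) = f) (i : ℕ) :
    ((f₀.coeff i : M) : Ω) = f.coeff i := by
  rw [← hf, coeff_map]
  rfl

/-- Lifting of a polynomial `Dpo`. -/
theorem om_dpo {f : Polynomial Ω} (hf : Dpo L M f) : ∃ f₀ : (OM L M)[X],
    f₀.map ((algebraMap M Ω).comp (algebraMap (OM L M) M)) = f ∧ f₀.natDegree = f.natDegree ∧
      f₀.Monic ∧ ∀ i < f₀.natDegree, f₀.coeff i ∈ maximalIdeal (OM L M) := by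
  have hle : ∀ i, L.nm (f.coeff i) ≤ 1 := by
    intro i
    rcases lt_trichotomy i f.natDegree with h | h | h
    · exact (hf.lt i h).le
    · rw [h, hf.monic.coeff_natDegree, L.one]
    · rw [coeff_eq_zero_of_natDegree_lt h, L.zero]
      exact zero_le_one
  obtain ⟨f₀, h1, h2, h3⟩ := om_poly hf.mem hle
  refine ⟨f₀, h1, h2, h3 hf.monic, fun i hi => ?_⟩
  rw [maxOM, omp_coe h1]
  exact hf.lt i (h2 ▸ hi)

/-- Lifting of a polynomial `Ipo`. -/
theorem om_ipo {f : Polynomial Ω} (hf : Ipo L M f) : ∃ f₀ : (OM L M)[X],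
    f₀.map ((algebraMap M Ω).comp (algebraMap (OM L M) M)) = f ∧
      f₀.coeff 0 ∈ maximalIdeal (OM L M) := by
  obtain ⟨f₀, h1, -, -⟩ := om_poly hf.mem hf.le
  refine ⟨f₀, h1, ?_⟩
  rw [maxOM, omp_coe h1]
  exact hf.lt

/-- Two close polynomials. Proof: if `r ≤ 0` they are equal (then `k = 1`, `h = 0`; for `r < 0` the hypothesis is false for a large coefficient); otherwise `om_pik`. -/
theorem om_close [FiniteDimensional K M] {π : OM L M} (hπ : Irreducible π) {f g : Polynomial Ω}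
    {f₀ g₀ : (OM L M)[X]} (hf : f₀.map ((algebraMap M Ω).comp (algebraMap (OM L M) M)) = f)
    (hg : g₀.map ((algebraMap M Ω).comp (algebraMap (OM L M) M)) = g) {r : ℝ} (h1 : r < 1)
    (h : ∀ i, L.nm (f.coeff i - g.coeff i) ≤ r) : f = g ∨ ∃ (k : ℕ) (h : (OM L M)[X]), k ≠ 0 ∧
      L.nm ((π : M) : Ω) ^ k ≤ r ∧ f₀ = g₀ + C (π ^ k) * h := by
  rcases le_or_gt r 0 with hr | hr
  · left
    ext i
    have h2 : L.nm (f.coeff i - g.coeff i) = 0 := le_antisymm ((h i).trans hr) (L.nonneg _)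
    exact sub_eq_zero.1 ((L.zero_iff _).1 h2)
  · right
    obtain ⟨k, hk, hkr, hx⟩ := om_pik hπ hr h1
    have h3 : C (π ^ k) ∣ f₀ - g₀ := by
      rw [C_dvd_iff_dvd_coeff]
      intro i
      apply hx
      rw [coeff_sub]
      have h4 : (((f₀.coeff i - g₀.coeff i : OM L M) : M) : Ω) = f.coeff i - g.coeff i := by
        rw [← omp_coe hf, ← omp_coe hg]
        rfl
      rw [h4]
      exact h i
    obtain ⟨q, hq⟩ := h3
    exact ⟨k, q, hk, hkr, by rw [← hq, add_sub_cancel]⟩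

/-- A polynomial `Dpo` modulo the maximal ideal. -/
theorem om_xp {π : OM L M} {f₀ : (OM L M)[X]} (hm : f₀.Monic)
    (h : ∀ i < f₀.natDegree, π ∣ f₀.coeff i) :
    ∃ h : (OM L M)[X], f₀ = X ^ f₀.natDegree + C π * h := by
  have h3 : C π ∣ f₀ - X ^ f₀.natDegree := by
    rw [C_dvd_iff_dvd_coeff]
    intro i
    rw [coeff_sub, coeff_X_pow]
    rcases lt_trichotomy i f₀.natDegree with h1 | h1 | h1
    · rw [if_neg h1.ne, sub_zero]
      exact h i h1
    · rw [if_pos h1, h1, hm.coeff_natDegree, sub_self]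
      exact dvd_zero _
    · rw [if_neg h1.ne', coeff_eq_zero_of_natDegree_lt h1, sub_zero]
      exact dvd_zero _
  obtain ⟨q, hq⟩ := h3
  exact ⟨q, by rw [← hq, add_sub_cancel]⟩

/-- The roots of a polynomial `Dpo` are in the open unit disc. -/
theorem om_root [CharZero K] [IsAlgClosure K Ω] {f : Polynomial Ω} (hf : Dpo L M f) {w : Ω}
    (hw : f.IsRoot w) : L.nm w < 1 := by
  have hle : ∀ i, L.nm (f.coeff i) ≤ 1 := by
    intro i
    rcases lt_trichotomy i f.natDegree with h | h | h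
    · exact (hf.lt i h).le
    · rw [h, hf.monic.coeff_natDegree, L.one]
    · rw [coeff_eq_zero_of_natDegree_lt h, L.zero]
      exact zero_le_one
  have hw1 : L.nm w ≤ 1 := L.root_le hf.monic hle hw
  have h1 := congrArg (fun p => p.eval w) hf.monic.as_sum
  simp only [eval_add, eval_pow, eval_X, eval_finsetSum, eval_mul, eval_C] at h1
  rw [hw] at h1
  have h2 : w ^ f.natDegree = -∑ i ∈ Finset.range f.natDegree, f.coeff i * w ^ i :=
    eq_neg_of_add_eq_zero_left h1.symm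
  have h3 : L.nm (∑ i ∈ Finset.range f.natDegree, f.coeff i * w ^ i) < 1 := by
    refine Finset.sum_induction _ (fun x => L.nm x < 1) ?_ ?_ ?_
    · intro a b ha hb
      exact (L.add a b).trans_lt (max_lt ha hb)
    · rw [L.zero]
      exact zero_lt_one
    · intro i hi
      rw [L.mul, L.pow]
      exact mul_lt_one_of_nonneg_of_lt_one_left (L.nonneg _) (hf.lt i (Finset.mem_range.1 hi))
        (pow_le_one₀ (L.nonneg _) hw1)
  have h4 : L.nm w ^ f.natDegree < 1 := by
    rw [← L.pow, h2, L.neg]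
    exact h3
  by_contra hcon
  have h5 : L.nm w = 1 := le_antisymm hw1 (not_lt.1 hcon)
  rw [h5, one_pow] at h4
  exact lt_irrefl _ h4

end CV
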