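import Pool.Agent.Lib.MP_f80667_ag.Cv.Cl0
import Pool.Agent.Lib.MP_f80667_ag.Cv.ChtB
import Pool.Agent.Lib.MP_f80667_ag.Cv.OmP
import Pool.Agent.Lib.MP_f80667_ag.Cv.SmA

/-!
The comparison of two polynomials in a chart, for a model over the integers of `M`.
-/

open ZC BE PE Polynomial TensorProduct IntermediateField IsLocalRing

namespace CV

variable {F : Type} [Field F] {C : Crv F} {K Ω : Type} [Field K] [CharZero K] [Field Ω]
  [Algebra K Ω] [Algebra F K] [Algebra F Ω] [IsScalarTower F K Ω] [IsAlgClosure K Ω] {L : Ld K Ω}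
  {M : IntermediateField K Ω} [FiniteDimensional K M] {k S SM Sk : Type} [Field k]
  [Algebra (OM L M) k] [CommRing S] [CommRing SM] [CommRing Sk] [Algebra (OM L M) S]
  [Algebra M SM] [Algebra k Sk] {m : Mod C (Ok L) K} {D : Md (OM L M) M k S SM Sk}
  {e : SM ≃ₐ[M] M ⊗[F] C.A} {ρ : m.R →+* S}

omit [CharZero K] [IsAlgClosure K Ω] in
private theorem cl1_ev (D : Md (OM L M) M k S SM Sk) (φ : SM →ₐ[M] Ω) (u : S) {f₀ : (OM L M)[X]}
    {f : Polynomial Ω} (hf : f₀.map ((algebraMap M Ω).comp (algebraMap (OM L M) M)) = f) :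
    φ (D.i (aeval u f₀)) = f.eval (φ (D.i u)) := by
  rw [D.dcA_aeval, aeval_def, ← eval_map, Polynomial.map_map, hf]

omit [CharZero K] [IsAlgClosure K Ω] in
private theorem cl1_q (D : Md (OM L M) M k S SM Sk) {π : OM L M} (hπ : Irreducible π) (u : S)
    {f₀ : (OM L M)[X]} (hm : f₀.Monic)
    (h : ∀ i < f₀.natDegree, f₀.coeff i ∈ maximalIdeal (OM L M)) :
    D.q (aeval u f₀) = D.q u ^ f₀.natDegree := by
  obtain ⟨h₀, hh⟩ := om_xp (π := π) hm fun i hi => by
    have h1 := h i hi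
    rw [hπ.maximalIdeal_eq, Ideal.mem_span_singleton] at h1
    exact h1
  have hπm : π ∈ maximalIdeal (OM L M) := (mem_maximalIdeal _).2 hπ.not_isUnit
  have h2 := congrArg (fun p => D.q (aeval u p)) hh
  simp only [map_add, map_mul, map_pow, aeval_X, aeval_C] at h2
  rw [h2, D.q_alg, (D.res_zero π).2 hπm, map_zero, zero_mul, add_zero]

/-- the cycle of a polynomial as a sum over a finite set which contains the roots -/
private theorem cl1_rcy {V : Vr F} (P : Ω → V.pt Ω) (f : Polynomial Ω) (R : Finset Ω)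
    (hR : ∀ w ∈ f.roots, w ∈ R) :
    rcy P f = ∑ w ∈ R, Finsupp.single (P w) ((f.rootMultiplicity w : ℕ) : ℤ) := by
  classical
  have h1 : f.roots.toFinset ⊆ R := fun w hw => hR w (Multiset.mem_toFinset.1 hw)
  unfold rcy
  rw [Finset.sum_multiset_map_count]
  have h2 : ∀ w, f.roots.count w • Finsupp.single (P w) (1 : ℤ) =
      Finsupp.single (P w) ((f.rootMultiplicity w : ℕ) : ℤ) := by
    intro w
    rw [count_roots, Finsupp.smul_single, nsmul_eq_mul, mul_one]
  simp only [h2]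
  refine Finset.sum_subset h1 fun w _ hw => ?_
  have h3 : f.rootMultiplicity w = 0 := by
    rw [← count_roots, Multiset.count_eq_zero]
    exact fun h => hw (Multiset.mem_toFinset.2 h)
  rw [h3, Nat.cast_zero, Finsupp.single_zero]

/-- **ExCl for a model over the integers of `M`.**

Proof. `om_close`: the case `f = g` is trivial. `f₀`, `g₀` from `om_dpo`, `f₀ = g₀ + C (π ^ r) * h`. `N`, `u` from `cht_par`. `clt_cmp` for `g₁ = aeval u f₀`, `g₂ = aeval u g₀`, `T₀ = {N}`: `q g₁ = (q u) ^ n ≠ 0` by `om_xp`, `rgl_q` (`Cv/SmA.lean`). `Φ` = the points `φ` above `N` such that `φ u` is a root of `f` or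
`g`; by `cht_par` `φ ↦ φ u` is a bijection of the points above `N` with the open unit disc (`om_root`), `some (pe e φ) = P (φ u)`, and `od φ (aeval u f₀)` is the multiplicity of the root `φ u` of `f` (`disc_od`; `hg`: `L.act`). So the sum is `rcy T.P f - rcy T.P g` (`Polynomial.count_roots`, `Multiset` sums as sums over
the `toFinset`). -/
theorem cl_cmp [PerfectField k] [IsDedekindDomain Sk] (hc : Cmp m D e ρ) (T : Cht m M)
    {f g : Polynomial Ω} {r : ℝ} (hf : Dpo L M f) (hg : Dpo L M g)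
    (hd : f.natDegree = g.natDegree) (hr : r < 1)
    (h : ∀ i, L.nm (f.coeff i - g.coeff i) ≤ r) :
    rcy T.P f - rcy T.P g ∈ Pc C Ω ⊔ Dsp L C.V (Nr m r) M := by
  classical
  obtain ⟨π, hπ⟩ := IsDiscreteValuationRing.exists_irreducible (OM L M)
  obtain ⟨f₀, hf1, hf2, hf3, hf4⟩ := om_dpo hf
  obtain ⟨g₀, hg1, hg2, hg3, hg4⟩ := om_dpo hg
  rcases om_close hπ hf1 hg1 hr h with heq | ⟨n, h₀, hn, hnr, hfg⟩
  · rw [heq, sub_self]
    exact zero_mem _
  obtain ⟨N, u, hN, hk, hrgl, hpt, hpt'⟩ := cht_par hc T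
  have hz := hrgl π hπ
  have hq : D.q u ≠ 0 := D.rgl_q hπ hN hz
  have hzero : L.nm (0 : Ω) < 1 := by
    rw [L.zero]
    exact zero_lt_one
  have hne : Nonempty (SM →ₐ[M] Ω) := ⟨(hpt 0 hzero).choose⟩
  choose! pt hpP hpO hpu using hpt
  have hclo : IsAlgClosure M Ω := algClM M
  have hchar : CharZero M := charM M
  have hwv := wvM L M
  have hact : ∀ (σ : Ω ≃ₐ[M] Ω) (x : Ω), x ∈ L.V → σ x ∈ L.V := by
    intro σ x hx
    have h1 := L.act (σ.restrictScalars K) x
    have h2 : L.nm x ≤ 1 := hx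
    have h3 : L.nm (σ x) ≤ 1 := h1.le.trans h2
    exact h3
  -- the points above `N`
  have hback : ∀ φ : SM →ₐ[M] Ω, D.Ov L.V φ N → L.nm (φ (D.i u)) < 1 ∧
      pt (φ (D.i u)) = φ := by
    intro φ hφ
    have h1 : L.nm (φ (D.i u)) < 1 := (nonunits_iff L).1 ((hφ.2 u).1 hz.1)
    refine ⟨h1, ?_⟩
    have h2 := hpP _ h1
    rw [hpt' φ hφ] at h2
    exact (pe_inj e (Option.some_injective _ h2)).symm
  have hrootf : ∀ w ∈ f.roots, L.nm w < 1 := fun w hw => om_root hf (isRoot_of_mem_roots hw)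
  have hrootg : ∀ w ∈ g.roots, L.nm w < 1 := fun w hw => om_root hg (isRoot_of_mem_roots hw)
  set R : Finset Ω := f.roots.toFinset ∪ g.roots.toFinset with hR
  have hRf : ∀ w ∈ f.roots, w ∈ R := fun w hw =>
    Finset.mem_union_left _ (Multiset.mem_toFinset.2 hw)
  have hRg : ∀ w ∈ g.roots, w ∈ R := fun w hw =>
    Finset.mem_union_right _ (Multiset.mem_toFinset.2 hw)
  have hR1 : ∀ w ∈ R, L.nm w < 1 := by
    intro w hw
    rcases Finset.mem_union.1 hw with h1 | h1
    · exact hrootf w (Multiset.mem_toFinset.1 h1)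
    · exact hrootg w (Multiset.mem_toFinset.1 h1)
  have hinj : Set.InjOn pt (R : Set Ω) := by
    intro w hw w' hw' h1
    rw [← hpu w (hR1 w hw), h1, hpu w' (hR1 w' hw')]
  have key := clt_cmp (D := D) hc hπ (T₀ := {N}) (Set.finite_singleton N)
    (fun N' hN' => by rw [Set.mem_singleton_iff.1 hN']; exact hN) (g₁ := aeval u f₀)
    (g₂ := aeval u g₀) (c := aeval u h₀)
    (by
      rw [cl1_q D hπ u hf3 hf4]
      exact pow_ne_zero _ hq) hn
    (by
      have h1 := congrArg (fun p => aeval u p) hfg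
      simp only [map_add, map_mul, aeval_C] at h1
      exact h1) hnr (R.image pt)
    (by
      intro φ hφ
      obtain ⟨w, hw, rfl⟩ := Finset.mem_image.1 hφ
      exact ⟨N, rfl, hpO w (hR1 w hw)⟩)
    (by
      rintro φ ⟨N', hN', hφ⟩ h1
      rw [Set.mem_singleton_iff.1 hN'] at hφ
      obtain ⟨h2, h3⟩ := hback φ hφ
      rw [cl1_ev D φ u hf1, cl1_ev D φ u hg1] at h1
      refine Finset.mem_image.2 ⟨φ (D.i u), ?_, h3⟩
      rcases h1 with h1 | h1
      · exact hRf _ ((mem_roots hf.monic.ne_zero).2 h1)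
      · exact hRg _ ((mem_roots hg.monic.ne_zero).2 h1))
  have hsum : rcy T.P f - rcy T.P g = ∑ φ ∈ R.image pt, Finsupp.single (some (pe e φ) : C.V.pt Ω)
      ((od φ (D.i (aeval u f₀)) : ℤ) - od φ (D.i (aeval u g₀))) := by
    rw [Finset.sum_image hinj, cl1_rcy T.P f R hRf, cl1_rcy T.P g R hRg,
      ← Finset.sum_sub_distrib]
    refine Finset.sum_congr rfl fun w hw => ?_
    have h1 := hR1 w hw
    rw [D.disc_od hwv hπ hN hk hact hz hq (hpO w h1) hf3.ne_zero,
      D.disc_od hwv hπ hN hk hact hz hq (hpO w h1) hg3.ne_zero, hf1, hg1, hpu w h1,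
      ← hpP w h1, Finsupp.single_sub]
    rfl
  rw [hsum]
  exact key

end CV
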