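import Mathlib

/-!
Colength and extension of the field of constants.
-/

open scoped TensorProduct
open Module

namespace CV

/-- Colength and extension of the field of constants. Proof: `A'` has the basis `b'`; as a `k'`-vector space `A' / I A'` is `k' ⊗ (A / I)` (the `k'`-linear isomorphism `k' ⊗ A ≃ A'`, `c ⊗ a ↦ c j a`, given by the bases, maps the image of `k' ⊗ I` onto `I A'`). -/
theorem colen_bc {k k' A A' ι : Type} [Field k] [Field k'] [Algebra k k'] [CommRing A]
    [CommRing A'] [Algebra k A] [Algebra k' A'] (j : A →+* A')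
    (hj : ∀ c, j (algebraMap k A c) = algebraMap k' A' (algebraMap k k' c))
    (b : Basis ι k A) (b' : Basis ι k' A') (hb : ∀ i, j (b i) = b' i) (I : Ideal A)
    [Module.Finite k (A ⧸ I)] :
    Module.Finite k' (A' ⧸ I.map j) ∧ finrank k' (A' ⧸ I.map j) = finrank k (A ⧸ I) := by
  classical
  obtain ⟨d, hd⟩ : ∃ d, d = finrank k (A ⧸ I) := ⟨_, rfl⟩
  let v : Basis (Fin d) k (A ⧸ I) := (finBasis k (A ⧸ I)).reindex (finCongr hd.symm)
  have hsm : ∀ (c : k) (a : A), j (c • a) = (algebraMap k k' c) • j a := by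
    intro c a
    rw [Algebra.smul_def, map_mul, hj, ← Algebra.smul_def]
  obtain ⟨Φ, hΦ⟩ : ∃ Φ : A' →ₗ[k'] (Fin d → k'), ∀ i, Φ (b' i) =
      fun m => algebraMap k k' (v.repr (Ideal.Quotient.mk I (b i)) m) :=
    ⟨b'.constr k' (fun i m => algebraMap k k' (v.repr (Ideal.Quotient.mk I (b i)) m)),
      fun i => b'.constr_basis k' _ i⟩
  have hj1 : ∀ a : A, Φ (j a) = fun m => algebraMap k k' (v.repr (Ideal.Quotient.mk I a) m) := by
    intro a
    have ha : a ∈ Submodule.span k (Set.range b) := b.mem_span a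
    refine Submodule.span_induction (p := fun x _ => Φ (j x) =
      fun m => algebraMap k k' (v.repr (Ideal.Quotient.mk I x) m)) ?_ ?_ ?_ ?_ ha
    · rintro x ⟨i, rfl⟩
      rw [hb, hΦ]
    · rw [map_zero, map_zero, map_zero, map_zero]
      funext m
      rw [Finsupp.zero_apply, map_zero]
      rfl
    · intro x y _ _ hx hy
      rw [map_add, map_add, hx, hy, map_add, map_add]
      funext m
      rw [Finsupp.add_apply, map_add]
      rfl
    · intro c x _ hx
      rw [hsm, map_smul, hx]
      have h1 : Ideal.Quotient.mk I (c • x) = c • Ideal.Quotient.mk I x := rfl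
      rw [h1, map_smul]
      funext m
      rw [Finsupp.smul_apply, smul_eq_mul, map_mul]
      rfl
  have hI0 : ∀ x ∈ I.map j, Φ x = 0 := by
    intro x hx
    have h1 : ∀ (y : A), y ∈ I → ∀ x' : A', Φ (x' * j y) = 0 := by
      intro y hy x'
      have hx' : x' ∈ Submodule.span k' (Set.range b') := b'.mem_span x'
      refine Submodule.span_induction (p := fun z _ => Φ (z * j y) = 0) ?_ ?_ ?_ ?_ hx'
      · rintro z ⟨i, rfl⟩
        rw [← hb, ← map_mul, hj1]
        have h2 : Ideal.Quotient.mk I (b i * y) = 0 :=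
          Ideal.Quotient.eq_zero_iff_mem.2 (I.mul_mem_left _ hy)
        rw [h2, map_zero]
        funext m
        rw [Finsupp.zero_apply, map_zero]
        rfl
      · rw [zero_mul, map_zero]
      · intro z w _ _ hz hw
        rw [add_mul, map_add, hz, hw, add_zero]
      · intro c z _ hz
        rw [smul_mul_assoc, map_smul, hz, smul_zero]
    have hx' : x ∈ Submodule.span A' (j '' (I : Set A)) := hx
    refine Submodule.span_induction (p := fun z _ => ∀ x' : A', Φ (x' * z) = 0)
      ?_ ?_ ?_ ?_ hx' 1 |> fun h => by rwa [one_mul] at h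
    · rintro z ⟨y, hy, rfl⟩ x'
      exact h1 y hy x'
    · intro x'
      rw [mul_zero, map_zero]
    · intro z w _ _ hz hw x'
      rw [mul_add, map_add, hz, hw, add_zero]
    · intro c z _ hz x'
      rw [smul_eq_mul, ← mul_assoc]
      exact hz _
  have hlift : ∀ m : Fin d, ∃ a : A, Ideal.Quotient.mk I a = v m :=
    fun m => Ideal.Quotient.mk_surjective (v m)
  choose a ha using hlift
  let q : A' →ₗ[k'] A' ⧸ I.map j := (Ideal.Quotient.mkₐ k' (I.map j)).toLinearMap
  have hq : ∀ x, q x = Ideal.Quotient.mk (I.map j) x := fun _ => rfl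
  let G : (Fin d → k') →ₗ[k'] A' ⧸ I.map j := Fintype.linearCombination k' (fun m => q (j (a m)))
  have hG : ∀ f, G f = q (∑ m, f m • j (a m)) := by
    intro f
    rw [map_sum]
    show Fintype.linearCombination k' (fun m => q (j (a m))) f = _
    rw [Fintype.linearCombination_apply]
    exact Finset.sum_congr rfl fun m _ => (map_smul q _ _).symm
  have hΦG : ∀ f : Fin d → k', Φ (∑ m, f m • j (a m)) = f := by
    intro f
    rw [map_sum]
    funext m
    rw [Finset.sum_apply, Finset.sum_eq_single m]
    · rw [map_smul, hj1, ha, v.repr_self, Pi.smul_apply, Finsupp.single_eq_same, map_one,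
        smul_eq_mul, mul_one]
    · intro l _ hl
      rw [map_smul, hj1, ha, v.repr_self, Pi.smul_apply, Finsupp.single_eq_of_ne hl.symm, map_zero,
        smul_zero]
    · intro h
      exact absurd (Finset.mem_univ _) h
  have hGΦ : G ∘ₗ Φ = q := by
    refine b'.ext fun i => ?_
    rw [LinearMap.comp_apply, hG, hΦ, hq, hq, Ideal.Quotient.eq]
    have h1 : ∑ m, (algebraMap k k' (v.repr (Ideal.Quotient.mk I (b i)) m)) • j (a m) - b' i =
        j (∑ m, (v.repr (Ideal.Quotient.mk I (b i)) m) • a m - b i) := by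
      rw [map_sub, map_sum, hb]
      congr 1
      exact Finset.sum_congr rfl fun m _ => (hsm _ _).symm
    rw [h1]
    refine Ideal.mem_map_of_mem j ?_
    rw [← Ideal.Quotient.eq]
    have h2 : Ideal.Quotient.mk I (∑ m, (v.repr (Ideal.Quotient.mk I (b i)) m) • a m) =
        ∑ m, (v.repr (Ideal.Quotient.mk I (b i)) m) • v m := by
      rw [map_sum]
      refine Finset.sum_congr rfl fun m _ => ?_
      rw [← ha m]
      rfl
    rw [h2, v.sum_repr]
  have hbij : Function.Bijective G := by
    constructor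
    · rw [← LinearMap.ker_eq_bot, LinearMap.ker_eq_bot']
      intro f hf
      rw [hG, hq, Ideal.Quotient.eq_zero_iff_mem] at hf
      have h1 := hI0 _ hf
      rwa [hΦG] at h1
    · intro x
      obtain ⟨y, rfl⟩ := Ideal.Quotient.mk_surjective x
      refine ⟨Φ y, ?_⟩
      rw [← LinearMap.comp_apply, hGΦ, hq]
  let e : (Fin d → k') ≃ₗ[k'] A' ⧸ I.map j := LinearEquiv.ofBijective G hbij
  refine ⟨Module.Finite.equiv e, ?_⟩
  rw [← e.finrank_eq, finrank_fintype_fun_eq_card, Fintype.card_fin, hd]

end CV
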