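import Mathlib

/-! # Polynomial congruences

The congruences between monic polynomials that are fed into the congruence lemma: `p`-th powers
against `X^(p-1) (X - p c)`, products `∏ (X - a)` against `X^(n-1) (X - ∑ a)`, and so on.
A congruence modulo an ideal `J` of the base ring is written `f ∈ J.map C` (all coefficients of `f`
lie in `J`), see `mem_map_iff`; for `J = (a)` it is `C a ∣ f`, see `mem_span_iff`. -/

set_option autoImplicit false

open Polynomial

namespace CV

variable {R : Type*} [CommRing R]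

/-- Membership in `J.map C` is membership of all coefficients in `J`. -/
theorem mem_map_iff {J : Ideal R} {f : R[X]} : f ∈ J.map C ↔ ∀ n, f.coeff n ∈ J :=
  Ideal.mem_map_C_iff

/-- For a principal ideal it is divisibility by the constant. -/
theorem mem_span_iff {a : R} {f : R[X]} : f ∈ (Ideal.span {a}).map C ↔ C a ∣ f := by
  rw [Ideal.map_span, Set.image_singleton, Ideal.mem_span_singleton]

/-- A congruence may be composed with any polynomial (for instance `X - C z`). -/
theorem comp_mem {J : Ideal R} {f : R[X]} (hf : f ∈ J.map C) (g : R[X]) :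
    f.comp g ∈ J.map C := by
  rw [comp, eval₂_eq_sum_range]
  refine Ideal.sum_mem _ fun i _ => Ideal.mul_mem_right _ _ ?_
  exact Ideal.mem_map_of_mem C (mem_map_iff.1 hf i)

/-- `f` and `g` congruent and `h` anything: `f h` and `g h` are congruent. -/
theorem sub_mul_mem {J : Ideal R} {f g : R[X]} (h : f - g ∈ J.map C) (k : R[X]) :
    f * k - g * k ∈ J.map C := by
  rw [← sub_mul]
  exact Ideal.mul_mem_right _ _ h

/-- `∏ (X - a)` against `X^(n-1) (X - ∑ a)` modulo `I ^ 2`, for a nonempty family in `I`. -/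
theorem prod_cong (I : Ideal R) (s : Multiset R) (hs : ∀ a ∈ s, a ∈ I) (h0 : s ≠ 0) :
    (s.map fun a => X - C a).prod - X ^ (s.card - 1) * (X - C s.sum) ∈ (I ^ 2).map C := by
  induction s using Multiset.induction_on with
  | empty => exact absurd rfl h0
  | cons a s ih =>
    rcases eq_or_ne s 0 with rfl | hs0
    · simp
    have ha : a ∈ I := hs a (Multiset.mem_cons_self a s)
    have hs' : ∀ b ∈ s, b ∈ I := fun b hb => hs b (Multiset.mem_cons_of_mem hb)
    have h1 := ih hs' hs0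
    obtain ⟨n, hn⟩ : ∃ n, s.card = n + 1 := by
      obtain ⟨n, hn⟩ := Nat.exists_eq_succ_of_ne_zero (fun h => hs0 (Multiset.card_eq_zero.1 h))
      exact ⟨n, hn⟩
    have hsum : s.sum ∈ I := multiset_sum_mem s hs'
    rw [hn, Nat.add_sub_cancel] at h1
    rw [Multiset.map_cons, Multiset.prod_cons, Multiset.card_cons, Multiset.sum_cons, hn,
      Nat.add_sub_cancel]
    have e : (X - C a) * (s.map fun b => X - C b).prod - X ^ (n + 1) * (X - C (a + s.sum)) =
        (X - C a) * ((s.map fun b => X - C b).prod - X ^ n * (X - C s.sum)) +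
          C (a * s.sum) * X ^ n := by
      rw [C_add, C_mul]
      ring
    rw [e]
    refine Ideal.add_mem _ (Ideal.mul_mem_left _ _ h1) (Ideal.mul_mem_right _ _ ?_)
    exact Ideal.mem_map_of_mem C (by rw [pow_two]; exact Ideal.mul_mem_mul ha hsum)

/-- The same for a family over a finite set. -/
theorem prod_cong' {ι : Type*} (I : Ideal R) (s : Finset ι) (a : ι → R) (hs : ∀ i ∈ s, a i ∈ I)
    (h0 : s.Nonempty) :
    ∏ i ∈ s, (X - C (a i)) - X ^ (s.card - 1) * (X - C (∑ i ∈ s, a i)) ∈ (I ^ 2).map C := by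
  have h := prod_cong I (s.val.map a) (fun b hb => by
    obtain ⟨i, hi, rfl⟩ := Multiset.mem_map.1 hb
    exact hs i hi) (fun h => by
      have h1 : s.val = 0 := Multiset.map_eq_zero.1 h
      exact h0.ne_empty (Finset.val_eq_zero.1 h1))
  rw [Multiset.map_map, Multiset.card_map] at h
  exact h

/-- `(X - c)^n` against `X^(n-1) (X - n c)` modulo `I ^ 2`, `c ∈ I`. -/
theorem pow_cong (I : Ideal R) (n : ℕ) (hn : n ≠ 0) (c : R) (hc : c ∈ I) :
    (X - C c) ^ n - X ^ (n - 1) * (X - C ((n : R) * c)) ∈ (I ^ 2).map C := by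
  have h := prod_cong' I (Finset.range n) (fun _ => c) (fun _ _ => hc)
    (Finset.nonempty_range_iff.2 hn)
  rw [Finset.prod_const, Finset.card_range, Finset.sum_const, Finset.card_range,
    nsmul_eq_mul] at h
  exact h

/-- `(X - c)^n` against `X^(n-1) (X - n c)` modulo `c ^ 2`. -/
theorem pow_cong_sq (n : ℕ) (hn : n ≠ 0) (c : R) :
    C (c ^ 2) ∣ (X - C c) ^ n - X ^ (n - 1) * (X - C ((n : R) * c)) := by
  rw [← mem_span_iff, ← Ideal.span_singleton_pow]
  exact pow_cong _ n hn c (Ideal.mem_span_singleton_self c)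

/-- Two zeros `s` and `-s` against the double zero `0`. -/
theorem sq_cong (s : R) : C (s ^ 2) ∣ (X - C s) * (X - C (-s)) - X ^ 2 :=
  ⟨-1, by rw [C_neg, C_pow]; ring⟩

/-- The binomial form of the `p`-th power congruence: for a prime `p` and any `c`,
`(X - c)^p - X^(p-1) (X - p c) ≡ -c^p` or `c^p` modulo `p c^2`: the difference is
`p c^2 g + (-c)^p`. -/
theorem prime_pow_eq (p : ℕ) (hp : p.Prime) (hp2 : p ≠ 2) (c : R) :
    ∃ g : R[X], (X - C c) ^ p - X ^ (p - 1) * (X - C ((p : R) * c)) =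
      C ((p : R) * c ^ 2) * g + C ((-c) ^ p) := by
  have h3 : 3 ≤ p := by
    have := hp.two_le
    omega
  obtain ⟨q, rfl⟩ : ∃ q, p = q + 3 := ⟨p - 3, by omega⟩
  -- the middle terms
  have hmid : ∀ j ∈ Finset.range (q + 1), ∃ g : R[X],
      X ^ (j + 1) * (-C c) ^ (q + 3 - (j + 1)) * (((q + 3).choose (j + 1) : ℕ) : R[X]) =
        C (((q + 3 : ℕ) : R) * c ^ 2) * g := by
    intro j hj
    have hj' : j < q + 1 := Finset.mem_range.1 hj
    obtain ⟨k, hk⟩ := hp.dvd_choose_self (k := j + 1) (by omega) (by omega)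
    refine ⟨X ^ (j + 1) * (-C c) ^ (q - j) * (k : R[X]), ?_⟩
    have e1 : q + 3 - (j + 1) = (q - j) + 2 := by omega
    rw [hk, e1, pow_add, C_mul, C_pow, Nat.cast_mul]
    have e2 : C ((q + 3 : ℕ) : R) = ((q + 3 : ℕ) : R[X]) := C_eq_natCast _
    rw [e2]
    ring
  choose g hg using hmid
  refine ⟨∑ j ∈ (Finset.range (q + 1)).attach, g j.1 j.2, ?_⟩
  have hexp : (X - C c) ^ (q + 3) = ∑ m ∈ Finset.range (q + 3 + 1),
      X ^ m * (-C c) ^ (q + 3 - m) * (((q + 3).choose m : ℕ) : R[X]) := by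
    rw [sub_eq_add_neg, add_pow]
  rw [hexp, Finset.sum_range_succ, Finset.sum_range_succ, Finset.sum_range_succ']
  have hmid' : ∑ j ∈ Finset.range (q + 1),
      X ^ (j + 1) * (-C c) ^ (q + 3 - (j + 1)) * (((q + 3).choose (j + 1) : ℕ) : R[X]) =
      C (((q + 3 : ℕ) : R) * c ^ 2) * ∑ j ∈ (Finset.range (q + 1)).attach, g j.1 j.2 := by
    rw [Finset.mul_sum, ← Finset.sum_attach]
    exact Finset.sum_congr rfl fun j _ => hg j.1 j.2
  rw [hmid']
  have e1 : q + 3 - (q + 2) = 1 := by omega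
  have e2 : q + 3 - (q + 3) = 0 := by omega
  have e3 : (q + 3).choose (q + 2) = q + 3 := by
    rw [Nat.choose_succ_self_right]
  rw [e1, e2, e3, Nat.choose_self, Nat.choose_zero_right, Nat.sub_zero,
    show q + 3 - 1 = q + 2 by omega]
  have e4 : C (((q + 3 : ℕ) : R) * c) = ((q + 3 : ℕ) : R[X]) * C c := by
    rw [C_mul, C_eq_natCast]
  rw [e4, C_pow, C_neg]
  push_cast
  ring

/-- For an odd prime `p`, `N ≥ 1` and `c ∈ (p^N)`:
`(X - c)^p ≡ X^(p-1) (X - p c)` modulo `p^(2 N + 1)`. -/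
theorem prime_pow_cong (p : ℕ) (hp : p.Prime) (hp2 : p ≠ 2) (N : ℕ) (hN : N ≠ 0) (c : R)
    (hc : (p : R) ^ N ∣ c) :
    C ((p : R) ^ (2 * N + 1)) ∣ (X - C c) ^ p - X ^ (p - 1) * (X - C ((p : R) * c)) := by
  obtain ⟨g, hg⟩ := prime_pow_eq p hp hp2 c
  obtain ⟨d, rfl⟩ := hc
  rw [hg]
  have h3 : 3 ≤ p := by
    have := hp.two_le
    omega
  refine dvd_add (Dvd.dvd.mul_right (_root_.map_dvd C ?_) g) (_root_.map_dvd C ?_)
  · exact ⟨d ^ 2, by ring⟩
  · have h1 : (p : R) ^ (2 * N + 1) ∣ (p : R) ^ (N * p) := by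
      refine pow_dvd_pow _ ?_
      have : N * 3 ≤ N * p := Nat.mul_le_mul_left N h3
      omega
    refine h1.trans ⟨(-1) ^ p * d ^ p, ?_⟩
    rw [neg_pow, mul_pow, ← pow_mul]
    ring

/-- The version modulo `p^(N+2)`. -/
theorem prime_pow_cong' (p : ℕ) (hp : p.Prime) (hp2 : p ≠ 2) (N : ℕ) (hN : N ≠ 0) (c : R)
    (hc : (p : R) ^ N ∣ c) :
    C ((p : R) ^ (N + 2)) ∣ (X - C c) ^ p - X ^ (p - 1) * (X - C ((p : R) * c)) :=
  (_root_.map_dvd C (pow_dvd_pow _ (by omega))).trans (prime_pow_cong p hp hp2 N hN c hc)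

/-- Monicity and degree of the two sides. -/
theorem monic_side (n : ℕ) (c : R) : (X ^ (n - 1) * (X - C c)).Monic :=
  (monic_X_pow _).mul (monic_X_sub_C c)

theorem natDegree_side [Nontrivial R] (n : ℕ) (hn : n ≠ 0) (c : R) :
    (X ^ (n - 1) * (X - C c)).natDegree = n := by
  rw [(monic_X_pow _).natDegree_mul (monic_X_sub_C c), natDegree_X_pow, natDegree_X_sub_C]
  omega

end CV
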