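import Pool.Agent.Lib.MP_f80667_ag.Cv.CtD

/-!
Models of curves: division by elements of unit type.
-/

open IsLocalRing

namespace CV

namespace Md

variable {V L k S SL Sk : Type} [CommRing V] [IsDomain V] [IsDiscreteValuationRing V] [Field L]
  [Field k] [Algebra V L] [IsFractionRing V L] [Algebra V k] [CommRing S] [CommRing SL]
  [CommRing Sk] [Algebra V S] [Algebra L SL] [Algebra k Sk] (M : Md V L k S SL Sk)

private theorem ct1_q_max {c : V} (hc : c ∈ maximalIdeal V) (x : S) :
    M.q (algebraMap V S c * x) = 0 := by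
  rw [map_mul, M.q_alg, (M.res_zero c).2 hc, map_zero, zero_mul]

private theorem ct1_i_mul (c : V) (x : S) :
    M.i (algebraMap V S c * x) = algebraMap V L c • M.i x := by
  rw [map_mul, M.i_alg, Algebra.smul_def]

private theorem ct1_q_mul (c : V) (x : S) :
    M.q (algebraMap V S c * x) = algebraMap V k c • M.q x := by
  rw [map_mul, M.q_alg, Algebra.smul_def]

private theorem ct1_lt_succ {a : WithBot ℕ} {m : ℕ} (h : a < ((m + 1 : ℕ) : WithBot ℕ)) :
    a ≤ (m : WithBot ℕ) := by
  induction a with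
  | bot => exact bot_le
  | coe a =>
    have h1 : a < m + 1 := WithBot.coe_lt_coe.1 h
    exact WithBot.coe_le_coe.2 (Nat.lt_succ_iff.1 h1)

include M in
private theorem ct1_alg_inj {c : V} (h : algebraMap V S c = 0) : c = 0 := by
  have := M.DL.nontrivial
  have h1 : algebraMap L SL (algebraMap V L c) = 0 := by rw [← M.i_alg, h, map_zero]
  rw [FaithfulSMul.algebraMap_eq_zero_iff] at h1
  exact (IsFractionRing.injective V L) (by rw [h1, map_zero])

/-- Proof: if the degree of `y` is `n` there is `c ∈ L` such that `i y - c i e` has smaller degree (`lead`). Write `c = a / b`, `a`, `b ∈ V`.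
If `b` divides `a` this is the claim. Otherwise `b = a b'` with a nonunit `b'`, and `b' y - e` has degree `< n`, but `q (b' y - e) = - q e` has degree
`n` (`le`). -/
theorem leadV {e y : S} {n : ℕ} (he : M.Ut e n) (hy : M.DL.d (M.i y) ≤ n) :
    ∃ c : V, M.DL.d (M.i (y - algebraMap V S c * e)) < n := by
  rcases lt_or_eq_of_le hy with h | h
  · exact ⟨0, by rw [map_zero, zero_mul, sub_zero]; exact h⟩
  obtain ⟨c, hc⟩ := M.DL.lead (M.i y) (M.i e) (M.DL.ne_zero he.1) (by rw [h, he.1])
  rw [he.1] at hc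
  have key : ∀ a : V, algebraMap V L a = c →
      ∃ c : V, M.DL.d (M.i (y - algebraMap V S c * e)) < n := by
    intro a ha
    refine ⟨a, ?_⟩
    rw [map_sub, ct1_i_mul, ha]
    exact hc
  rcases ValuationRing.isInteger_or_isInteger V c with h1 | h1
  · obtain ⟨a, ha⟩ := h1
    exact key a ha
  · obtain ⟨b, hb⟩ := h1
    by_cases hc0 : c = 0
    · exact key 0 (by rw [hc0, map_zero])
    by_cases hu : IsUnit b
    · obtain ⟨u, rfl⟩ := hu
      refine key ((u⁻¹ : Vˣ) : V) ?_
      have h2 : algebraMap V L ((u⁻¹ : Vˣ) : V) * algebraMap V L (u : V) = 1 := by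
        rw [← map_mul, Units.inv_mul, map_one]
      rw [hb] at h2
      exact eq_of_mul_inv_eq_one h2
    · exfalso
      have hbm : b ∈ maximalIdeal V := (mem_maximalIdeal b).2 hu
      have h3 : M.i (algebraMap V S b * y - e) = c⁻¹ • (M.i y - c • M.i e) := by
        rw [map_sub, ct1_i_mul, hb, smul_sub, smul_smul, inv_mul_cancel₀ hc0, one_smul]
      have h4 : M.DL.d (M.i (algebraMap V S b * y - e)) < n := by
        rw [h3, M.DL.smul (inv_ne_zero hc0)]
        exact hc
      have h5 : M.q (algebraMap V S b * y - e) = - M.q e := by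
        rw [map_sub, ct1_q_max M hbm, zero_sub]
      have h6 := M.le (algebraMap V S b * y - e)
      rw [h5, M.Dk.neg, he.2] at h6
      exact absurd h4 (not_lt.2 h6)

theorem ker_iff {π : V} (hπ : Irreducible π) {s : S} :
    M.q s = 0 ↔ ∃ t, s = algebraMap V S π * t := by
  constructor
  · intro h
    by_cases hs : s = 0
    · exact ⟨0, by rw [hs, mul_zero]⟩
    obtain ⟨c, t, h1, h2⟩ := M.prim s hs
    have := M.Dk.isDomain
    rw [h1, map_mul, M.q_alg] at h
    rcases mul_eq_zero.1 h with h3 | h3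
    · rw [FaithfulSMul.algebraMap_eq_zero_iff, M.res_zero, hπ.maximalIdeal_eq,
        Ideal.mem_span_singleton] at h3
      obtain ⟨d, rfl⟩ := h3
      exact ⟨algebraMap V S d * t, by rw [h1, map_mul, mul_assoc]⟩
    · exact absurd h3 h2
  · rintro ⟨t, rfl⟩
    refine ct1_q_max M ?_ t
    rw [hπ.maximalIdeal_eq]
    exact Ideal.mem_span_singleton_self π

theorem q_eq_iff {π : V} (hπ : Irreducible π) {s s' : S} :
    M.q s = M.q s' ↔ ∃ t, s = s' + algebraMap V S π * t := by
  rw [← sub_eq_zero, ← map_sub, M.ker_iff hπ]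
  constructor
  · rintro ⟨t, ht⟩
    exact ⟨t, by rw [← ht, add_sub_cancel]⟩
  · rintro ⟨t, ht⟩
    exact ⟨t, by rw [ht, add_sub_cancel_left]⟩

/-- Powers of the uniformizer can be cancelled modulo an element which is not `0` on the special fibre. -/
theorem q_cancel {π : V} (hπ : Irreducible π) {a : S} (ha : M.q a ≠ 0) {j : ℕ} {x y : S}
    (h : a * x = algebraMap V S (π ^ j) * y) : ∃ z, x = algebraMap V S (π ^ j) * z := by
  have := M.dom
  have := M.Dk.isDomain
  have hπ0 : algebraMap V S π ≠ 0 := fun h0 => hπ.ne_zero (ct1_alg_inj M h0)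
  induction j generalizing x with
  | zero => exact ⟨x, by rw [pow_zero, map_one, one_mul]⟩
  | succ j ih =>
    have h1 : M.q a * M.q x = 0 := by
      rw [← map_mul, h, M.ker_iff hπ]
      exact ⟨algebraMap V S (π ^ j) * y, by rw [pow_succ', map_mul, mul_assoc]⟩
    rcases mul_eq_zero.1 h1 with h2 | h2
    · exact absurd h2 ha
    obtain ⟨x', rfl⟩ := (M.ker_iff hπ).1 h2
    have h3 : a * x' = algebraMap V S (π ^ j) * y := by
      refine mul_left_cancel₀ hπ0 ?_
      rw [pow_succ', map_mul] at h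
      linear_combination h
    obtain ⟨z, hz⟩ := ih h3
    exact ⟨z, by rw [hz, pow_succ', map_mul, mul_assoc]⟩

/-- Elements of the special fibre of degree `≤ n` are images of elements of degree `≤ n` (`n + 1 ≥ n₀`). Proof: let `m = D x > n`; `x - c e` has smaller
degree for an `e` of unit type of degree `m` (`leadV`), and `c` is not a unit: otherwise `q (x - c e)` has degree `m`. So
`q (x - c e) = q x`; induction on `m`. -/
theorem lift {n₀ n : ℕ} (h0 : M.Tail n₀) (hn : n₀ ≤ n + 1) {x : S} (hx : M.Dk.d (M.q x) ≤ n) :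
    ∃ y, M.DL.d (M.i y) ≤ n ∧ M.q y = M.q x := by
  have key : ∀ (m : ℕ) (x : S), M.Dk.d (M.q x) ≤ n → M.DL.d (M.i x) ≤ m →
      ∃ y, M.DL.d (M.i y) ≤ n ∧ M.q y = M.q x := by
    intro m
    induction m with
    | zero =>
      intro x _ hm
      exact ⟨x, hm.trans (by exact_mod_cast Nat.zero_le n), rfl⟩
    | succ m ih =>
      intro x hx hm
      by_cases hmn : m + 1 ≤ n
      · exact ⟨x, hm.trans (by exact_mod_cast hmn), rfl⟩
      obtain ⟨e, he⟩ := h0 (m + 1) (by omega)
      obtain ⟨c, hc⟩ := M.leadV he hm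
      have hcm : c ∈ maximalIdeal V := by
        by_contra hcu
        have hc0 : algebraMap V k c ≠ 0 := fun h => hcu ((M.res_zero c).1 h)
        have h1 : M.Dk.d (M.q (x - algebraMap V S c * e)) = (m + 1 : ℕ) := by
          rw [map_sub, ct1_q_mul, sub_eq_add_neg, M.Dk.add_eq, M.Dk.neg, M.Dk.smul hc0, he.2]
          rw [M.Dk.neg, M.Dk.smul hc0, he.2]
          refine lt_of_le_of_lt hx ?_
          exact_mod_cast (not_le.1 hmn)
        have h2 := M.le (x - algebraMap V S c * e)
        rw [h1] at h2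
        exact absurd hc (not_lt.2 h2)
      have h3 : M.q (x - algebraMap V S c * e) = M.q x := by
        rw [map_sub, ct1_q_max M hcm, sub_zero]
      obtain ⟨y, hy1, hy2⟩ := ih (x - algebraMap V S c * e) (by rw [h3]; exact hx)
        (ct1_lt_succ hc)
      exact ⟨y, hy1, hy2.trans h3⟩
  by_cases hx0 : x = 0
  · refine ⟨0, ?_, by rw [hx0]⟩
    rw [map_zero, M.DL.zero]
    exact bot_le
  · obtain ⟨m, hm⟩ := M.DL.exists_nat (fun h => hx0 (M.inj (h.trans (map_zero M.i).symm)))
    exact key m x hx hm.le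

/-- Division with remainder. Proof: if the degree `m` of `y` is `≥ N + n` choose `e` of unit type of degree `m - N ≥ n₀`; `y - c e G` has smaller degree
for some `c ∈ V` (`leadV` for `e G`, `ut_mul`); induction on `m`. -/
theorem div {n₀ n N : ℕ} (h0 : M.Tail n₀) (hn : n₀ ≤ n) {G : S} (hG : M.Ut G N) (y : S) :
    ∃ h c : S, M.DL.d (M.i h) < (N + n : ℕ) ∧ y = h + c * G := by
  have key : ∀ (m : ℕ) (y : S), M.DL.d (M.i y) < m →
      ∃ h c : S, M.DL.d (M.i h) < (N + n : ℕ) ∧ y = h + c * G := by
    intro m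
    induction m with
    | zero =>
      intro y hm
      refine ⟨y, 0, lt_of_lt_of_le hm ?_, by rw [zero_mul, add_zero]⟩
      exact_mod_cast Nat.zero_le _
    | succ m ih =>
      intro y hm
      by_cases hmn : m + 1 ≤ N + n
      · refine ⟨y, 0, lt_of_lt_of_le hm ?_, by rw [zero_mul, add_zero]⟩
        exact_mod_cast hmn
      obtain ⟨e, he⟩ := h0 (m - N) (by omega)
      have heG := M.ut_mul he hG
      rw [Nat.sub_add_cancel (by omega)] at heG
      obtain ⟨c, hc⟩ := M.leadV heG (ct1_lt_succ hm)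
      obtain ⟨h, c', h1, h2⟩ := ih _ hc
      exact ⟨h, c' + algebraMap V S c * e, h1, by linear_combination h2⟩
  by_cases hy0 : y = 0
  · refine ⟨0, 0, ?_, by rw [hy0, zero_mul, add_zero]⟩
    rw [map_zero, M.DL.zero]
    exact WithBot.bot_lt_coe _
  · obtain ⟨m, hm⟩ := M.DL.exists_nat (fun h => hy0 (M.inj (h.trans (map_zero M.i).symm)))
    refine key (m + 1) y ?_
    rw [hm]
    exact_mod_cast Nat.lt_succ_self m

/-- Proof: `div` and `fin`. -/
theorem qfin {G : S} {N : ℕ} (hG : M.Ut G N) : Module.Finite V (S ⧸ Ideal.span {G}) := by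
  obtain ⟨n₀, h0⟩ := M.exists_tail
  obtain ⟨t, ht⟩ := M.fin (N + n₀)
  classical
  refine ⟨⟨t.image (Ideal.Quotient.mk (Ideal.span {G})), ?_⟩⟩
  rw [eq_top_iff]
  rintro z -
  obtain ⟨y, rfl⟩ := Ideal.Quotient.mk_surjective z
  obtain ⟨h, c, h1, h2⟩ := M.div h0 le_rfl hG y
  have h3 : Ideal.Quotient.mk (Ideal.span {G}) y = Ideal.Quotient.mk (Ideal.span {G}) h := by
    rw [Ideal.Quotient.eq, h2, add_sub_cancel_left]
    exact Ideal.mul_mem_left _ _ (Ideal.mem_span_singleton_self G)
  rw [h3, Finset.coe_image]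
  have h4 := Submodule.mem_map_of_mem (f := (Ideal.Quotient.mkₐ V (Ideal.span {G})).toLinearMap)
    (ht h h1.le)
  rw [Submodule.map_span] at h4
  exact h4

/-- Proof: `q_cancel`. -/
theorem qtf {G : S} {N : ℕ} (hG : M.Ut G N) {c : V} (hc : c ≠ 0) {x : S}
    (h : algebraMap V S c * x ∈ Ideal.span {G}) : x ∈ Ideal.span {G} := by
  have := M.dom
  obtain ⟨π, hπ⟩ := IsDiscreteValuationRing.exists_irreducible V
  obtain ⟨j, u, rfl⟩ := IsDiscreteValuationRing.eq_unit_mul_pow_irreducible hc hπ
  rw [Ideal.mem_span_singleton] at h ⊢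
  obtain ⟨z, hz⟩ := h
  have hGq : M.q G ≠ 0 := M.Dk.ne_zero hG.2
  obtain ⟨w, hw⟩ := M.q_cancel (a := G) (x := z) (y := algebraMap V S (u : V) * x) hπ hGq
    (j := j) (by rw [← hz, map_mul]; ring)
  have hπ0 : algebraMap V S (π ^ j) ≠ 0 := fun h0 =>
    pow_ne_zero j hπ.ne_zero (ct1_alg_inj M h0)
  have h1 : algebraMap V S (u : V) * x = G * w := by
    refine mul_left_cancel₀ hπ0 ?_
    rw [hw, map_mul] at hz
    linear_combination hz
  have h2 : algebraMap V S ((u⁻¹ : Vˣ) : V) * algebraMap V S (u : V) = 1 := by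
    rw [← map_mul, Units.inv_mul, map_one]
  exact ⟨algebraMap V S ((u⁻¹ : Vˣ) : V) * w, by
    linear_combination (algebraMap V S ((u⁻¹ : Vˣ) : V)) * h1 - x * h2⟩

include M in
/-- Proof: let `x` be of unit type of degree `m ≥ 1`. By `div` (iterated) `S` is generated over `V[x]` by the elements of degree `< m + n₀`, which are a
finitely generated `V`-module (`fin`); `V[x]` is Noetherian. -/
theorem noeth : IsNoetherianRing S := by
  obtain ⟨n₀, h0⟩ := M.exists_tail
  obtain ⟨x, hx⟩ := h0 (n₀ + 1) (Nat.le_succ _)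
  obtain ⟨t, ht⟩ := M.fin (n₀ + 1 + n₀)
  classical
  have key : ∀ (m : ℕ) (y : S), M.DL.d (M.i y) < m →
      y ∈ Algebra.adjoin V ((insert x t : Finset S) : Set S) := by
    intro m
    induction m with
    | zero =>
      intro y hm
      have h1 : M.i y = 0 := by
        by_contra hne
        obtain ⟨l, hl⟩ := M.DL.exists_nat hne
        rw [hl] at hm
        exact absurd (by exact_mod_cast hm : l < 0) (Nat.not_lt_zero l)
      have h2 : y = 0 := M.inj (by rw [h1, map_zero])
      rw [h2]
      exact Subalgebra.zero_mem _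
    | succ m ih =>
      intro y hm
      obtain ⟨h, c, h1, h2⟩ := M.div h0 le_rfl hx y
      have h3 : h ∈ Algebra.adjoin V ((insert x t : Finset S) : Set S) := by
        have h4 := ht h h1.le
        refine Algebra.span_le_adjoin V _ (Submodule.span_mono ?_ h4)
        rw [Finset.coe_insert]
        exact Set.subset_insert _ _
      by_cases hmn : M.DL.d (M.i y) < (n₀ + 1 + n₀ : ℕ)
      · have h4 := ht y hmn.le
        refine Algebra.span_le_adjoin V _ (Submodule.span_mono ?_ h4)
        rw [Finset.coe_insert]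
        exact Set.subset_insert _ _
      rw [h2]
      refine Subalgebra.add_mem _ h3 (Subalgebra.mul_mem _ (ih c ?_) (Algebra.subset_adjoin ?_))
      · by_contra hc
        rw [not_lt] at hc
        have h5 : M.DL.d (M.i (c * x)) < (m + 1 : ℕ) := by
          have h6 : c * x = y - h := by rw [h2, add_sub_cancel_left]
          rw [h6, map_sub]
          refine lt_of_le_of_lt (M.DL.sub _ _) (max_lt hm ?_)
          exact lt_trans (lt_of_lt_of_le h1 (not_lt.1 hmn)) hm
        rw [map_mul, M.DL.mul, hx.1] at h5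
        have h7 : ((m + (n₀ + 1) : ℕ) : WithBot ℕ) ≤ M.DL.d (M.i c) + ((n₀ + 1 : ℕ) : WithBot ℕ) := by
          rw [Nat.cast_add]
          exact add_le_add hc le_rfl
        have h8 := lt_of_le_of_lt h7 h5
        have h9 : m + (n₀ + 1) < m + 1 := by exact_mod_cast h8
        omega
      · rw [Finset.coe_insert]
        exact Set.mem_insert _ _
  have hft : Algebra.FiniteType V S := by
    refine ⟨⟨insert x t, ?_⟩⟩
    rw [eq_top_iff]
    rintro y -
    by_cases hy0 : y = 0
    · rw [hy0]
      exact Subalgebra.zero_mem _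
    · obtain ⟨m, hm⟩ := M.DL.exists_nat (fun h => hy0 (M.inj (h.trans (map_zero M.i).symm)))
      refine key (m + 1) y ?_
      rw [hm]
      exact_mod_cast Nat.lt_succ_self m
  exact Algebra.FiniteType.isNoetherianRing V S

/-- A maximal ideal which contains an element of unit type is a closed point of the special fibre. Proof: `S / (G)` is finite over the local ring `V`, so its maximal ideals
contain the maximal ideal of `V`. -/
theorem cs_of_ut {G : S} {n : ℕ} (hG : M.Ut G n) {N : Ideal S} (hN : N.IsMaximal) (h : G ∈ N) :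
    Cs V N := by
  refine ⟨hN, ?_⟩
  have hf := M.qfin hG
  have hle : Ideal.span {G} ≤ N := (Ideal.span_singleton_le_iff_mem N).2 h
  have hfN : Module.Finite V (S ⧸ N) :=
    Module.Finite.of_surjective (Ideal.Quotient.factorₐ V hle).toLinearMap
      (Ideal.Quotient.factor_surjective hle)
  have hb : (⊥ : Ideal (S ⧸ N)).IsMaximal := Ideal.bot_quotient_isMaximal_iff N |>.2 hN
  have h1 : ((⊥ : Ideal (S ⧸ N)).comap (algebraMap V (S ⧸ N))).IsMaximal :=
    Ideal.isMaximal_comap_of_isIntegral_of_isMaximal _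
  have h2 := IsLocalRing.eq_maximalIdeal h1
  intro c hc
  rw [← h2, Ideal.mem_comap, Ideal.mem_bot] at hc
  rw [← Ideal.Quotient.eq_zero_iff_mem]
  exact hc

end Md

end CV
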