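import Pool.Agent.Lib.MP_f80667_ag.Cv.Ct1
import Pool.Agent.Lib.MP_f80667_ag.Cv.DgQ

/-!
The localization at finitely many closed points of the special fibre: Krull's theorem, quotients (first half).
-/

open IsLocalRing

namespace CV

/-- The multiplicative set of the elements outside all ideals of `T`. -/
def ct2aStm {S : Type} [CommRing S] (T : Set (Ideal S)) (hT : ∀ N ∈ T, N.IsPrime) :
    Submonoid S where
  carrier := St T
  one_mem' := st_one hT
  mul_mem' := st_mul hT

namespace Md

variable {V L k S SL Sk : Type} [CommRing V] [IsDomain V] [IsDiscreteValuationRing V] [Field L]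
  [Field k] [Algebra V L] [IsFractionRing V L] [Algebra V k] [CommRing S] [CommRing SL]
  [CommRing Sk] [Algebra V S] [Algebra L SL] [Algebra k Sk] (M : Md V L k S SL Sk)

include M in
/-- Krull's intersection theorem for the localization at `T`. Proof: the localization of `S` at the submonoid `St T` is Noetherian (`noeth`), its maximal ideals come from the
elements of `T` (`T` is finite: prime avoidance) and contain `π`; `IsHausdorff.of_le_jacobson` for the quotient by `a`. -/
theorem krull {π : V} (hπ : Irreducible π) {T : Set (Ideal S)} (hf : T.Finite)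
    (hC : ∀ N ∈ T, Cs V N) (hT : ∀ N ∈ T, N.IsPrime) {a x : S}
    (h : ∀ j : ℕ, ∃ s ∈ St T, ∃ y z, s * x = a * y + algebraMap V S (π ^ j) * z) :
    x ∈ It T hT a := by
  classical
  have _ := hf
  have hN := M.noeth
  let P : Submonoid S := ct2aStm T hT
  let A := Localization P
  have hA : IsNoetherianRing A := IsLocalization.isNoetherianRing P A hN
  set f : S →+* A := algebraMap S A with hfdef
  let p : S := algebraMap V S π
  let I : Ideal A := Ideal.span {f p}
  let J : Ideal A := Ideal.span {f a}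
  let xb : A ⧸ J := Ideal.Quotient.mk J (f x)
  have hmem : xb ∈ (⨅ i : ℕ, I ^ i • ⊤ : Submodule A (A ⧸ J)) := by
    rw [Submodule.mem_iInf]
    intro j
    obtain ⟨s, hs, y, z, e⟩ := h j
    let sP : P := ⟨s, hs⟩
    have e1 : f x = f a * IsLocalization.mk' A y sP + f p ^ j * IsLocalization.mk' A z sP := by
      have h1 : f s * f x = f a * f y + f p ^ j * f z := by
        rw [← map_mul, e, map_add, map_mul, map_mul, map_pow, map_pow]
      have hy := IsLocalization.mk'_spec A y sP
      have hz := IsLocalization.mk'_spec A z sP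
      have hu : IsUnit (f s) := IsLocalization.map_units A sP
      refine hu.mul_left_cancel ?_
      rw [h1]
      have hy' : IsLocalization.mk' A y sP * f s = f y := hy
      have hz' : IsLocalization.mk' A z sP * f s = f z := hz
      rw [← hy', ← hz']
      ring
    have e2 : xb = (f p ^ j) • (Ideal.Quotient.mk J (IsLocalization.mk' A z sP)) := by
      change Ideal.Quotient.mk J (f x) = _
      rw [e1, map_add]
      have h3 : Ideal.Quotient.mk J (f a * IsLocalization.mk' A y sP) = 0 :=
        Ideal.Quotient.eq_zero_iff_mem.2 (Ideal.mul_mem_right _ _ (Ideal.mem_span_singleton_self _))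
      rw [h3, zero_add]
      rfl
    rw [e2]
    refine Submodule.smul_mem_smul ?_ Submodule.mem_top
    exact Ideal.pow_mem_pow (Ideal.mem_span_singleton_self _) j
  obtain ⟨r, hr⟩ := (I.mem_iInf_smul_pow_eq_bot_iff xb).1 hmem
  obtain ⟨r', hr'⟩ := Ideal.mem_span_singleton'.1 r.2
  obtain ⟨⟨α, t⟩, ht⟩ := IsLocalization.mk'_surjective P r'
  have ht' : r' * f t = f α := by
    rw [← ht]
    exact IsLocalization.mk'_spec A α t
  have h4 : f x - r * f x ∈ J := by
    rw [← Ideal.Quotient.eq_zero_iff_mem, map_sub, map_mul]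
    have h5 : Ideal.Quotient.mk J (r : A) * xb = xb := hr
    change xb - Ideal.Quotient.mk J (r : A) * xb = 0
    rw [h5, sub_self]
  obtain ⟨β, hβ⟩ := Ideal.mem_span_singleton'.1 h4
  obtain ⟨⟨y, u⟩, hu⟩ := IsLocalization.mk'_surjective P β
  have hu' : β * f u = f y := by
    rw [← hu]
    exact IsLocalization.mk'_spec A y u
  have h6 : f ((u * (t - p * α)) * x) = f (a * (t * y)) := by
    simp only [map_mul, map_sub]
    have e3 : f t * (f x - r * f x) = f t * (β * f a) := by rw [hβ]
    rw [← hr'] at e3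
    linear_combination f (u : S) * e3 + f (u : S) * f p * f x * ht' + f (t : S) * f a * hu'
  obtain ⟨c, hc⟩ := (IsLocalization.eq_iff_exists P A).1 h6
  have hc1 : (c : S) ∈ St T := c.2
  have hu1 : (u : S) ∈ St T := u.2
  have ht1 : (t : S) ∈ St T := t.2
  have h7 : (t : S) - p * α ∈ St T := by
    intro N hN1 hN2
    refine ht1 N hN1 ?_
    have h8 : p * α ∈ N := N.mul_mem_right _ ((hC N hN1).2 π
      ((IsLocalRing.mem_maximalIdeal π).2 hπ.not_isUnit))
    have := N.add_mem hN2 h8
    rwa [sub_add_cancel] at this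
  refine mem_It.2 ⟨c * (u * (t - p * α)), st_mul hT hc1 (st_mul hT hu1 h7), c * (t * y), ?_⟩
  linear_combination hc

/-- On the special fibre. Proof: `Sk / (q a)` is finite dimensional over `k` (degree function), so the powers of `s` satisfy `s ^ n = s ^ (2 n) u` modulo `q a`:
`s' = s ^ n`, `z = s ^ (n - 1) u y`. -/
theorem sp_unit {π : V} (hπ : Irreducible π) {T : Set (Ideal S)} (hT : ∀ N ∈ T, N.IsPrime) {a : S}
    (ha : M.q a ≠ 0) {s : S} (hs : s ∈ St T) (y : S) :
    ∃ z, ∃ s' ∈ St T, ∃ u v, s' * (s * z - y) = a * u + algebraMap V S π * v := by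
  have hfin : Module.Finite k (Sk ⧸ Ideal.span {M.q a}) := M.Dk.finite_quot ha
  have hart : IsArtinianRing (Sk ⧸ Ideal.span {M.q a}) := IsArtinianRing.of_finite k _
  obtain ⟨n, w, hw⟩ := IsArtinian.exists_pow_succ_smul_dvd
    (Ideal.Quotient.mk (Ideal.span {M.q a}) (M.q s)) (1 : Sk ⧸ Ideal.span {M.q a})
  obtain ⟨w', rfl⟩ := Ideal.Quotient.mk_surjective w
  obtain ⟨w, rfl⟩ := M.surj w'
  have h1 : M.q (s ^ (n + 1) * w - s ^ n) ∈ Ideal.span {M.q a} := by
    rw [← Ideal.Quotient.eq_zero_iff_mem]
    simp only [map_sub, map_mul, map_pow]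
    rw [sub_eq_zero]
    simpa [smul_eq_mul] using hw
  obtain ⟨c', hc'⟩ := Ideal.mem_span_singleton'.1 h1
  obtain ⟨c, rfl⟩ := M.surj c'
  rw [← map_mul] at hc'
  obtain ⟨v, hv⟩ := (M.q_eq_iff hπ).1 hc'.symm
  have hpow : s ^ n ∈ St T := by
    intro N hN h
    exact hs N hN ((hT N hN).mem_of_pow_mem n h)
  refine ⟨w * y, s ^ n, hpow, c * y, v * y, ?_⟩
  linear_combination y * hv

/-- Proof: `q_cancel`. -/
theorem it_tf {T : Set (Ideal S)} (hT : ∀ N ∈ T, N.IsPrime) {a : S} (ha : M.q a ≠ 0) {c : V}
    (hc : c ≠ 0) {x : S} (h : algebraMap V S c * x ∈ It T hT a) : x ∈ It T hT a := by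
  have hdom := M.dom
  have hnt := M.DL.nontrivial
  obtain ⟨π, hπ⟩ := IsDiscreteValuationRing.exists_irreducible V
  obtain ⟨j, ε, hε⟩ := IsDiscreteValuationRing.eq_unit_mul_pow_irreducible hc hπ
  obtain ⟨s, hs, y, e⟩ := mem_It.1 h
  have h1 : a * y = algebraMap V S (π ^ j) * (s * algebraMap V S ε * x) := by
    rw [← e, hε, map_mul]
    ring
  obtain ⟨z, hz⟩ := M.q_cancel hπ ha h1
  have hne : algebraMap V S (π ^ j) ≠ 0 := by
    intro h0
    have h2 := M.i_alg (π ^ j)
    rw [h0, map_zero] at h2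
    have h3 : algebraMap V L (π ^ j) = 0 := by
      by_contra h4
      have := (map_ne_zero (algebraMap L SL)).2 h4
      exact this h2.symm
    have h4 : π ^ j = 0 := (IsFractionRing.injective V L) (by rw [h3, map_zero])
    exact pow_ne_zero j hπ.ne_zero h4
  have h5 : s * algebraMap V S ε * x = a * z := by
    refine mul_left_cancel₀ hne ?_
    rw [← h1, hz]
    ring
  refine mem_It.2 ⟨s, hs, z * algebraMap V S (ε⁻¹ : Vˣ), ?_⟩
  have h6 : algebraMap V S ε * algebraMap V S (ε⁻¹ : Vˣ) = 1 := by
    rw [← map_mul, ← Units.val_mul, mul_inv_cancel, Units.val_one, map_one]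
  calc s * x = (s * algebraMap V S ε * x) * algebraMap V S (ε⁻¹ : Vˣ) := by
        linear_combination (-(s * x)) * h6
    _ = a * (z * algebraMap V S (ε⁻¹ : Vˣ)) := by rw [h5]; ring

end Md

end CV
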