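import Pool.Agent.Lib.MP_f80667_ag.Cv.Ct3
import Pool.Agent.Lib.MP_f80667_ag.Cv.Ct4

/-!
The set of the elements which are equivalent to a given one is closed: preparations.
-/

open IsLocalRing

namespace CV

namespace Md

variable {V L k S SL Sk : Type} [CommRing V] [IsDomain V] [IsDiscreteValuationRing V] [Field L]
  [Field k] [Algebra V L] [IsFractionRing V L] [Algebra V k] [CommRing S] [CommRing SL]
  [CommRing Sk] [Algebra V S] [Algebra L SL] [Algebra k Sk] (M : Md V L k S SL Sk)

private theorem ct7a_d {c : V} (hc : c ≠ 0) (x : S) :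
    M.DL.d (M.i (algebraMap V S c * x)) = M.DL.d (M.i x) := by
  have hc' : algebraMap V L c ≠ 0 := by
    rwa [Ne, FaithfulSMul.algebraMap_eq_zero_iff]
  rw [map_mul, M.i_alg, M.DL.mul, M.DL.d_cst hc', zero_add]

private theorem ct7a_w {π : V} (hπ : Irreducible π) {F : S} {N : ℕ} (hF : M.Ut F N) (v : S) :
    ∀ (j : ℕ) (w : S), M.DL.d (M.i (F * w + algebraMap V S (π ^ j) * v)) < N →
      ∃ w', w = algebraMap V S (π ^ j) * w' := by
  intro j
  induction j with
  | zero =>
    intro w _
    exact ⟨w, by rw [pow_zero, map_one, one_mul]⟩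
  | succ j ih =>
    intro w hw
    have h1 : M.Dk.d (M.q (F * w + algebraMap V S (π ^ (j + 1)) * v)) < N :=
      lt_of_le_of_lt (M.le _) hw
    have h2 : M.q (algebraMap V S (π ^ (j + 1)) * v) = 0 := by
      rw [M.ker_iff hπ]
      exact ⟨algebraMap V S (π ^ j) * v, by rw [pow_succ', map_mul, mul_assoc]⟩
    have h3 : M.q w = 0 := by
      by_contra hne
      rw [map_add, h2, add_zero, map_mul, M.Dk.mul, hF.2] at h1
      obtain ⟨m, hm⟩ := M.Dk.exists_nat hne
      rw [hm, ← Nat.cast_add, Nat.cast_lt] at h1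
      omega
    obtain ⟨w', hw'⟩ := (M.ker_iff hπ).1 h3
    have h4 : F * w + algebraMap V S (π ^ (j + 1)) * v =
        algebraMap V S π * (F * w' + algebraMap V S (π ^ j) * v) := by
      rw [hw', pow_succ', map_mul]
      ring
    rw [h4, ct7a_d M hπ.ne_zero] at hw
    obtain ⟨w'', hw''⟩ := ih w' hw
    exact ⟨w'', by rw [hw', hw'', pow_succ', map_mul, mul_assoc]⟩

/-- If `F`, `F'` are of unit type of degree `N`, `F'` is a multiple of `F` modulo `π ^ j` and `F' - F` has degree `< N` then `F' - F` is divisible by `π ^ j`. Proof: `F' - F = F w + π ^ j v`; show by induction on `j` that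
`π ^ j` divides `w`: if `F w + π ^ j v` has degree `< N`, `j ≥ 1`, then `q F q w` has degree `< N`, so `q w = 0`, `w = π w'`, and `F w' + π ^ (j - 1) v` has degree `< N`. -/
theorem cl_close {π : V} (hπ : Irreducible π) {F F' : S} {N j : ℕ} (hF : M.Ut F N)
    (hd : M.DL.d (M.i (F' - F)) < N) {u v : S} (h : F' = F * u + algebraMap V S (π ^ j) * v) :
    ∃ z, F' = F + algebraMap V S (π ^ j) * z := by
  have h1 : F' - F = F * (u - 1) + algebraMap V S (π ^ j) * v := by
    rw [h]
    ring
  rw [h1] at hd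
  obtain ⟨w', hw'⟩ := ct7a_w M hπ hF v j (u - 1) hd
  refine ⟨F * w' + v, ?_⟩
  have h2 : F' = F + (F * (u - 1) + algebraMap V S (π ^ j) * v) := by
    rw [← h1]
    ring
  rw [h2, hw']
  ring

private theorem ct7a_lt {x : SL} {n : ℕ} (h : M.DL.d x < ((n + 1 : ℕ) : WithBot ℕ)) :
    M.DL.d x ≤ n := by
  by_cases h0 : x = 0
  · rw [h0, M.DL.zero]
    exact bot_le
  · obtain ⟨k, hk⟩ := M.DL.exists_nat h0
    rw [hk, Nat.cast_lt] at h
    rw [hk, Nat.cast_le]
    omega

/-- The elements of degree `≤ n` as a `V`-submodule. -/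
private def ct7aP (n : ℕ) : Submodule V S where
  carrier := {s | M.DL.d (M.i s) ≤ n}
  zero_mem' := by
    change M.DL.d (M.i 0) ≤ n
    rw [map_zero, M.DL.zero]
    exact bot_le
  add_mem' {x y} hx hy := by
    change M.DL.d (M.i (x + y)) ≤ n
    rw [map_add]
    exact (M.DL.add _ _).trans (max_le hx hy)
  smul_mem' c x hx := by
    change M.DL.d (M.i (c • x)) ≤ n
    by_cases hc : c = 0
    · rw [hc, zero_smul, map_zero, M.DL.zero]
      exact bot_le
    · rw [Algebra.smul_def, ct7a_d M hc]
      exact hx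

private theorem ct7a_fg (n : ℕ) : (ct7aP M n).FG := by
  obtain ⟨t, ht⟩ := M.fin n
  have hN : IsNoetherian V (Submodule.span V (t : Set S)) :=
    isNoetherian_span_of_finite V (Finset.finite_toSet t)
  exact isNoetherian_submodule.1 hN _ fun s hs => ht s hs

/-- Limits of elements of bounded degree. Proof: `F (j + 1) - F j = π ^ j z`, `z` of degree `< N`, a combination of finitely many generators (`fin`) with coefficients in `V`; the sums of the coefficients
converge. -/
theorem cl_lim [IsAdicComplete (maximalIdeal V) V] {π : V} (hπ : Irreducible π) {N : ℕ} (F : ℕ → S)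
    (h : ∀ j, ∃ z, F (j + 1) = F j + algebraMap V S (π ^ j) * z)
    (hd : ∀ j, M.DL.d (M.i (F (j + 1) - F j)) < N) :
    ∃ F' : S, M.DL.d (M.i (F' - F 0)) < N ∧ ∀ j, ∃ z, F' = F j + algebraMap V S (π ^ j) * z := by
  rcases N with _ | n
  · -- all `F j` are equal
    have heq : ∀ j, F j = F 0 := by
      intro j
      induction j with
      | zero => rfl
      | succ j ih =>
        have h1 := hd j
        have h2 : M.i (F (j + 1) - F j) = 0 := by
          by_contra hne
          obtain ⟨m, hm⟩ := M.DL.exists_nat hne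
          rw [hm, Nat.cast_lt] at h1
          exact absurd h1 (Nat.not_lt_zero m)
        have h3 : F (j + 1) - F j = 0 := M.inj (by rw [h2, map_zero])
        rw [sub_eq_zero.1 h3, ih]
    refine ⟨F 0, ?_, fun j => ⟨0, by rw [heq j, mul_zero, add_zero]⟩⟩
    rw [sub_self, map_zero, M.DL.zero]
    exact WithBot.bot_lt_coe _
  choose z hz using h
  have hzP : ∀ j, z j ∈ ct7aP M n := by
    intro j
    change M.DL.d (M.i (z j)) ≤ n
    refine ct7a_lt M ?_
    rw [← ct7a_d M (pow_ne_zero j hπ.ne_zero)]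
    have h1 : algebraMap V S (π ^ j) * z j = F (j + 1) - F j := by rw [hz j]; ring
    rw [h1]
    exact hd j
  obtain ⟨t, ht⟩ := ct7a_fg M n
  have hc : ∀ j, ∃ c : S → V, ∑ b ∈ t, c b • b = z j := by
    intro j
    have h1 : z j ∈ Submodule.span V (t : Set S) := by
      rw [ht]
      exact hzP j
    obtain ⟨c, -, hc⟩ := Submodule.mem_span_finset.1 h1
    exact ⟨c, hc⟩
  choose c hc using hc
  have hmax : maximalIdeal V = Ideal.span {π} := hπ.maximalIdeal_eq
  -- the limits of the coefficients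
  have hlim : ∀ b : S, ∃ l : V, ∀ j, ∃ r, l = ∑ i ∈ Finset.range j, π ^ i * c i b + π ^ j * r := by
    intro b
    have hcauchy : ∀ {m n : ℕ}, m ≤ n →
        (∑ i ∈ Finset.range m, π ^ i * c i b) ≡ (∑ i ∈ Finset.range n, π ^ i * c i b)
          [SMOD ((maximalIdeal V) ^ m • ⊤ : Submodule V V)] := by
      intro m n hmn
      rw [SModEq.sub_mem, ← Submodule.neg_mem_iff, neg_sub,
        ← Finset.sum_range_add_sum_Ico _ hmn, add_sub_cancel_left]
      refine Submodule.sum_mem _ fun i hi => ?_
      rw [smul_eq_mul, Ideal.mul_top, hmax, Ideal.span_singleton_pow, Ideal.mem_span_singleton]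
      exact (pow_dvd_pow π (Finset.mem_Ico.1 hi).1).mul_right _
    obtain ⟨l, hl⟩ := IsPrecomplete.prec (inferInstance : IsPrecomplete (maximalIdeal V) V)
      hcauchy
    refine ⟨l, fun j => ?_⟩
    have h1 := (hl j).symm
    rw [SModEq.sub_mem, smul_eq_mul, Ideal.mul_top, hmax, Ideal.span_singleton_pow,
      Ideal.mem_span_singleton] at h1
    obtain ⟨r, hr⟩ := h1
    exact ⟨r, by rw [← hr]; ring⟩
  choose l hl using hlim
  have hF : ∀ j, F j = F 0 + ∑ b ∈ t, (∑ i ∈ Finset.range j, π ^ i * c i b) • b := by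
    intro j
    induction j with
    | zero => simp
    | succ j ih =>
      rw [hz j, ih, ← hc j, add_assoc]
      congr 1
      rw [Finset.mul_sum, ← Finset.sum_add_distrib]
      refine Finset.sum_congr rfl fun b _ => ?_
      rw [Finset.sum_range_succ, add_smul, mul_smul, Algebra.smul_def (π ^ j)]
  refine ⟨F 0 + ∑ b ∈ t, l b • b, ?_, fun j => ?_⟩
  · rw [add_sub_cancel_left]
    have h1 : ∑ b ∈ t, l b • b ∈ ct7aP M n := by
      refine Submodule.sum_mem _ fun b hb => Submodule.smul_mem _ _ ?_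
      rw [← ht]
      exact Submodule.subset_span hb
    refine lt_of_le_of_lt h1 ?_
    rw [Nat.cast_lt]
    exact Nat.lt_succ_self n
  · choose r hr using fun b => hl b j
    refine ⟨∑ b ∈ t, r b • b, ?_⟩
    rw [hF j, add_assoc]
    congr 1
    rw [Finset.mul_sum, ← Finset.sum_add_distrib]
    refine Finset.sum_congr rfl fun b _ => ?_
    conv_lhs => rw [hr b]
    rw [add_smul, mul_smul, Algebra.smul_def (π ^ j)]

/-- A common form of the equivalences `g ~ h`. `G` is of unit type with `As T G g`: there is `F` of unit type of the same degree with `As T F h` and `As {N} F G` at the other closed points `N`. Proof: `g y ~ h x` at `T`,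
`x`, `y` of unit type of the same degree. `G y` is a multiple of `x`: otherwise the ideal `{c | c G y ∈ (x)}` is contained in a maximal ideal `N`; `x ∈ N`, so `N` is a closed point of the special fibre (`cs_of_ut`);
if `N ∈ T` then `s G = s' g`, `t g y = t' h x`, so `s t G y = s' t' h x`; if `N ∉ T` then `s y = s' x`, contradiction. `F = G y / x`. -/
theorem eqv_F {T : Set (Ideal S)} (hC : ∀ N ∈ T, Cs V N) {g h : S} (hE : M.Eqv T g h) {G : S} {N : ℕ}
    (hG : M.Ut G N) (hGg : As T G g) :
    ∃ F, M.Ut F N ∧ As T F h ∧ ∀ N' : Ideal S, Cs V N' → N' ∉ T → As {N'} F G := by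
  have := M.dom
  obtain ⟨x, y, n, hx, hy, h1, h2⟩ := hE
  obtain ⟨s, hs, s', hs', e1⟩ := hGg
  obtain ⟨t, ht, t', ht', e2⟩ := h1
  have hx0 := M.ut_ne hx
  have hdvd : x ∣ G * y := by
    by_contra hnd
    let I : Ideal S := Submodule.comap (LinearMap.mulRight S (G * y)) (Ideal.span {x})
    have hI : ∀ c, c ∈ I ↔ x ∣ c * (G * y) := by
      intro c
      change LinearMap.mulRight S (G * y) c ∈ Ideal.span {x} ↔ _
      rw [LinearMap.mulRight_apply, Ideal.mem_span_singleton]
    have hne : I ≠ ⊤ := by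
      intro htop
      have h3 : (1 : S) ∈ I := by rw [htop]; trivial
      rw [hI, one_mul] at h3
      exact hnd h3
    obtain ⟨N', hN', hle⟩ := Ideal.exists_le_maximal I hne
    have hxN : x ∈ N' := hle ((hI x).2 (dvd_mul_right _ _))
    have hcs : Cs V N' := M.cs_of_ut hx hN' hxN
    have hpr := hN'.isPrime
    by_cases hT : N' ∈ T
    · have h3 : s * t ∈ I := by
        rw [hI]
        exact ⟨s' * t' * h, by linear_combination t * y * e1 + s' * e2⟩
      rcases hpr.mem_or_mem (hle h3) with h4 | h4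
      · exact hs N' hT h4
      · exact ht N' hT h4
    · obtain ⟨a, ha, b, hb, e3⟩ := h2 N' hcs hT
      have h3 : b ∈ I := by
        rw [hI]
        exact ⟨a * G, by linear_combination (-G) * e3⟩
      exact hb N' rfl (hle h3)
  obtain ⟨F, hF⟩ := hdvd
  refine ⟨F, ⟨?_, ?_⟩, ?_, ?_⟩
  · have h3 := congrArg (fun s => M.DL.d (M.i s)) hF
    simp only [map_mul, M.DL.mul, hG.1, hy.1, hx.1] at h3
    have hne : M.i F ≠ 0 := by
      intro h0
      rw [h0, M.DL.zero, ← Nat.cast_add, WithBot.add_bot] at h3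
      exact WithBot.coe_ne_bot h3
    obtain ⟨m, hm⟩ := M.DL.exists_nat hne
    rw [hm, ← Nat.cast_add, ← Nat.cast_add, Nat.cast_inj] at h3
    rw [hm, Nat.cast_inj]
    omega
  · have h3 := congrArg (fun s => M.Dk.d (M.q s)) hF
    simp only [map_mul, M.Dk.mul, hG.2, hy.2, hx.2] at h3
    have hne : M.q F ≠ 0 := by
      intro h0
      rw [h0, M.Dk.zero, ← Nat.cast_add, WithBot.add_bot] at h3
      exact WithBot.coe_ne_bot h3
    obtain ⟨m, hm⟩ := M.Dk.exists_nat hne
    rw [hm, ← Nat.cast_add, ← Nat.cast_add, Nat.cast_inj] at h3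
    rw [hm, Nat.cast_inj]
    omega
  · refine ⟨s * t, st_mul (fun N hN => (hC N hN).1.isPrime) hs ht, s' * t',
      st_mul (fun N hN => (hC N hN).1.isPrime) hs' ht', ?_⟩
    refine mul_left_cancel₀ hx0 ?_
    linear_combination t * y * e1 + s' * e2 - s * t * hF
  · intro N' hN' hT
    obtain ⟨a, ha, b, hb, e3⟩ := h2 N' hN' hT
    refine ⟨b, hb, a, ha, ?_⟩
    refine mul_left_cancel₀ hx0 ?_
    linear_combination (-b) * hF - G * e3

end Md

end CV
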