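import Pool.Agent.Lib.MP_f80667_ag.Cv.Rp0

/-!
Local parameters of unit type at a rational closed point of the special fibre.
-/

open IsLocalRing

namespace CV

private theorem cxA_cst {K A : Type} [Field K] [CommRing A] [Algebra K A] (G : Dg K A) (c : K) :
    G.d (algebraMap K A c) ≤ 0 := by
  by_cases hc : c = 0
  · rw [hc, map_zero, G.zero]
    exact bot_le
  · rw [G.d_cst hc]

/-- Adding an element of smaller degree. -/
private theorem cxA_add {K A : Type} [Field K] [CommRing A] [Algebra K A] (G : Dg K A) {x y : A}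
    {b : ℕ} (hx : G.d x < b) (hy : G.d y = b) : G.d (x + y) = b := by
  rw [G.add_eq (by rw [hy]; exact hx), hy]

namespace Md

variable {V L k S SL Sk : Type} [CommRing V] [IsDomain V] [IsDiscreteValuationRing V] [Field L]
  [Field k] [Algebra V L] [IsFractionRing V L] [Algebra V k] [CommRing S] [CommRing SL]
  [CommRing Sk] [Algebra V S] [Algebra L SL] [Algebra k Sk] (M : Md V L k S SL Sk)

private theorem cxA_sub {e : S} {b : ℕ} (hb : 1 ≤ b) (he : M.Ut e b) (c : V) :
    M.Ut (e - algebraMap V S c) b := by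
  have h0 : (0 : WithBot ℕ) < b := by exact_mod_cast hb
  refine ⟨?_, ?_⟩
  · rw [map_sub, M.i_alg, sub_eq_neg_add]
    refine cxA_add M.DL ?_ he.1
    rw [M.DL.neg]
    exact lt_of_le_of_lt (cxA_cst M.DL _) h0
  · rw [map_sub, M.q_alg, sub_eq_neg_add]
    refine cxA_add M.Dk ?_ he.2
    rw [M.Dk.neg]
    exact lt_of_le_of_lt (cxA_cst M.Dk _) h0

/-- Local parameters of unit type of every large degree. Proof: let `n₀` be as in `tail`, `e b` of unit type of degree `b ≥ n₀`, `e b - c b ∈ N` with `c b ∈ V` (of unit type again if `b ≥ 1`). For `a > 2 n₀ + 2 + d (i u)` take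
`α = u + (e b - c b) (e b' - c b')`, `b = n₀ + 1`, `b' = a - b`. If `s u' = u y + π y'` for the two factors `u'` of the second term, then `s s' α = u (s s' + u y₁ y₂) + π (..)` (`y₁`, `y₂` for the two factors), and `s s' + u y₁ y₂ ∉ N`. -/
theorem exists_par {π : V} {N : Ideal S} (hN : Cs V N)
    (hk : ∀ s : S, ∃ c : V, s - algebraMap V S c ∈ N) {u : S} (hu : Rgl π N u) :
    ∃ A₀ : ℕ, ∀ a, A₀ ≤ a → ∃ α : S, M.Ut α a ∧ Rgl π N α := by
  obtain ⟨n₀, h0⟩ := M.tail
  obtain ⟨D, hD⟩ : ∃ D : ℕ, M.DL.d (M.i u) ≤ D := by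
    by_cases hiu : M.i u = 0
    · exact ⟨0, by rw [hiu, M.DL.zero]; exact bot_le⟩
    · obtain ⟨D, hD⟩ := M.DL.exists_nat hiu
      exact ⟨D, hD.le⟩
  refine ⟨2 * n₀ + 3 + D, fun a ha => ?_⟩
  obtain ⟨b', hb'⟩ : ∃ b', b' + (n₀ + 1) = a := ⟨a - (n₀ + 1), by omega⟩
  obtain ⟨e, he⟩ := h0 (n₀ + 1) (by omega)
  obtain ⟨e', he'⟩ := h0 b' (by omega)
  obtain ⟨c, hc⟩ := hk e
  obtain ⟨c', hc'⟩ := hk e'
  obtain ⟨f, hf⟩ : ∃ f, f = e - algebraMap V S c := ⟨_, rfl⟩
  obtain ⟨f', hf'⟩ : ∃ f', f' = e' - algebraMap V S c' := ⟨_, rfl⟩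
  have hfu : M.Ut f (n₀ + 1) := by
    rw [hf]
    exact M.cxA_sub (by omega) he c
  have hfu' : M.Ut f' b' := by
    rw [hf']
    exact M.cxA_sub (by omega) he' c'
  rw [← hf] at hc
  rw [← hf'] at hc'
  have hff : M.Ut (f' * f) a := by
    rw [← hb']
    exact M.ut_mul hfu' hfu
  have hDa : (D : WithBot ℕ) < a := by
    have h1 : D < a := by omega
    exact_mod_cast h1
  have hP : N.IsPrime := hN.1.isPrime
  obtain ⟨huN, s, hs, hsx⟩ := hu
  refine ⟨u + f' * f, ⟨?_, ?_⟩, ?_, ?_⟩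
  · rw [map_add]
    exact cxA_add M.DL (lt_of_le_of_lt hD hDa) hff.1
  · rw [map_add]
    exact cxA_add M.Dk (lt_of_le_of_lt ((M.le u).trans hD) hDa) hff.2
  · exact N.add_mem huN (N.mul_mem_left _ hc)
  · obtain ⟨y, y', hy⟩ := hsx f hc
    obtain ⟨z, z', hz⟩ := hsx f' hc'
    refine ⟨(s * s + u * (y * z)) * s, ?_, fun x hx => ?_⟩
    · intro h
      rcases hP.mem_or_mem h with h1 | h1
      · have h2 : s * s ∈ N := by
          have h3 : s * s = s * s + u * (y * z) - u * (y * z) := by ring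
          rw [h3]
          exact N.sub_mem h1 (N.mul_mem_right _ huN)
        rcases hP.mem_or_mem h2 with h3 | h3
        · exact hs h3
        · exact hs h3
      · exact hs h1
    · obtain ⟨v, v', hv⟩ := hsx x hx
      refine ⟨s * s * v, (s * s + u * (y * z)) * v' -
        (u * y * z' + u * z * y' + algebraMap V S π * y' * z') * v, ?_⟩
      linear_combination (s * s + u * (y * z)) * hv - s * f * v * hz - v * (u * z + algebraMap V S π * z') * hy

end Md

end CV
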