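import Pool.Agent.Lib.MP_f80667_ag.Cv.DcA

/-!
Homomorphisms from `S` to `V[X] / (m)` with a given value of the local parameter.
-/

open IsLocalRing Polynomial

namespace CV

/-- A power of an element with constant term in the maximal ideal is divisible by `π`. -/
private theorem cxB_pow {V : Type} [CommRing V] [IsDomain V] [IsDiscreteValuationRing V] {π : V}
    (hπ : Irreducible π) {m : V[X]} (hm : m.Monic)
    (hl : ∀ j < m.natDegree, m.coeff j ∈ maximalIdeal V) {r : V[X]}
    (hr : r.coeff 0 ∈ maximalIdeal V) :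
    ∃ v : AdjoinRoot m, (AdjoinRoot.mk m r) ^ m.natDegree = π • v := by
  obtain ⟨g, hg⟩ := Md.dcA_mon (S := AdjoinRoot m) hπ hm hl (AdjoinRoot.root m)
  rw [AdjoinRoot.aeval_eq, AdjoinRoot.mk_self] at hg
  rw [hπ.maximalIdeal_eq, Ideal.mem_span_singleton] at hr
  obtain ⟨c, hc⟩ := hr
  have h1 : AdjoinRoot.mk m r = AdjoinRoot.mk m r.divX * AdjoinRoot.root m +
      algebraMap V (AdjoinRoot m) π * algebraMap V (AdjoinRoot m) c := by
    conv_lhs => rw [← divX_mul_X_add r]
    rw [hc, map_add, map_mul, AdjoinRoot.mk_X, AdjoinRoot.mk_C, map_mul]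
    rfl
  obtain ⟨w, hw⟩ := sub_dvd_pow_sub_pow (AdjoinRoot.mk m r)
    (AdjoinRoot.mk m r.divX * AdjoinRoot.root m) m.natDegree
  have h2 : AdjoinRoot.mk m r - AdjoinRoot.mk m r.divX * AdjoinRoot.root m =
      algebraMap V (AdjoinRoot m) π * algebraMap V (AdjoinRoot m) c := by
    rw [h1]
    ring
  rw [h2, mul_pow] at hw
  refine ⟨algebraMap V (AdjoinRoot m) c * w - (AdjoinRoot.mk m r.divX) ^ m.natDegree * g, ?_⟩
  rw [Algebra.smul_def]
  linear_combination hw - (AdjoinRoot.mk m r.divX) ^ m.natDegree * hg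

/-- Proof: `y ^ natDegree m` is divisible by the maximal ideal of `V` in `AdjoinRoot m`, `y = mk r` (modulo the maximal ideal `m = X ^ e`, and `y` is divisible by `X`); apply
`LinearMap.exists_monic_and_coeff_mem_pow_and_aeval_eq_zero_of_range_le_smul` to the multiplication by `y ^ natDegree m`. -/
theorem exists_mu {V : Type} [CommRing V] [IsDomain V] [IsDiscreteValuationRing V] {m : V[X]}
    (hm : m.Monic) (hl : ∀ j < m.natDegree, m.coeff j ∈ maximalIdeal V) (hd : m.natDegree ≠ 0)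
    {r : V[X]} (hr : r.coeff 0 ∈ maximalIdeal V) : ∃ μ : V[X], μ.Monic ∧ μ.natDegree ≠ 0 ∧
      (∀ j < μ.natDegree, μ.coeff j ∈ maximalIdeal V) ∧
      aeval (AdjoinRoot.mk m r) μ = 0 := by
  obtain ⟨π, hπ⟩ := IsDiscreteValuationRing.exists_irreducible V
  obtain ⟨v, hv⟩ := cxB_pow hπ hm hl hr
  have hfin : Module.Finite V (AdjoinRoot m) := hm.finite_adjoinRoot
  have hrange : LinearMap.range (Algebra.lmul V (AdjoinRoot m)
      ((AdjoinRoot.mk m r) ^ m.natDegree)) ≤ maximalIdeal V • (⊤ : Submodule V (AdjoinRoot m)) := by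
    rintro _ ⟨w, rfl⟩
    have h1 : (Algebra.lmul V (AdjoinRoot m) ((AdjoinRoot.mk m r) ^ m.natDegree)) w =
        π • (v * w) := by
      show (AdjoinRoot.mk m r) ^ m.natDegree * w = π • (v * w)
      rw [hv, smul_mul_assoc]
    rw [h1]
    refine Submodule.smul_mem_smul ?_ Submodule.mem_top
    rw [hπ.maximalIdeal_eq]
    exact Ideal.mem_span_singleton_self π
  obtain ⟨p, hp, -, hpc, hp0⟩ :=
    LinearMap.exists_monic_and_natDegree_eq_and_coeff_mem_pow_and_aeval_eq_zero V
      (Algebra.lmul V (AdjoinRoot m) ((AdjoinRoot.mk m r) ^ m.natDegree)) (maximalIdeal V) hrange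
  have hp1 : aeval ((AdjoinRoot.mk m r) ^ m.natDegree) p = 0 := by
    rw [aeval_algHom_apply] at hp0
    have h1 := LinearMap.congr_fun hp0 1
    have h2 : (Algebra.lmul V (AdjoinRoot m) (aeval ((AdjoinRoot.mk m r) ^ m.natDegree) p)) 1 =
        aeval ((AdjoinRoot.mk m r) ^ m.natDegree) p * 1 := rfl
    rw [h2, mul_one] at h1
    exact h1
  have he : 0 < m.natDegree := Nat.pos_of_ne_zero hd
  have hpd : p.natDegree ≠ 0 := by
    intro h
    have h1 : p = 1 := hp.natDegree_eq_zero.1 h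
    rw [h1, map_one] at hp1
    have h2 : AdjoinRoot.mk m 1 = 0 := by rw [map_one, hp1]
    rw [AdjoinRoot.mk_eq_zero] at h2
    have h3 : m = 1 := hm.eq_one_of_isUnit (isUnit_of_dvd_one h2)
    rw [h3, natDegree_one] at hd
    exact hd rfl
  have hnd : (expand V m.natDegree p).natDegree = p.natDegree * m.natDegree :=
    natDegree_expand m.natDegree p
  refine ⟨expand V m.natDegree p, hp.expand he, ?_, ?_, ?_⟩
  · rw [hnd]
    exact Nat.mul_ne_zero hpd hd
  · intro j hj
    rw [hnd] at hj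
    rw [coeff_expand he]
    split_ifs with h
    · obtain ⟨k, rfl⟩ := h
      rw [Nat.mul_div_cancel_left _ he]
      have hk : k < p.natDegree := by
        rw [mul_comm] at hj
        exact Nat.lt_of_mul_lt_mul_right hj
      refine Ideal.pow_le_self (I := maximalIdeal V) (n := p.natDegree - k) ?_ (hpc k)
      omega
    · exact Ideal.zero_mem _
  · rw [expand_aeval]
    exact hp1

namespace Md

variable {V L k S SL Sk : Type} [CommRing V] [IsDomain V] [IsDiscreteValuationRing V] [Field L]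
  [Field k] [Algebra V L] [IsFractionRing V L] [Algebra V k] [CommRing S] [CommRing SL]
  [CommRing Sk] [Algebra V S] [Algebra L SL] [Algebra k Sk] (M : Md V L k S SL Sk)

/-- Proof: `exists_mu`; the isomorphism of `S / It {N} (μ u)` with `AdjoinRoot μ` (`dcA_iso`), `u ↦ root`, followed by `root ↦ mk r`. For `x ∈ N`: `x = aeval u p + ..` (`dcA_rep`) with `p.coeff 0` in the maximal ideal, the image is `mk (p.comp r)`. -/
theorem exists_psi [IsAdicComplete (maximalIdeal V) V] {π : V} (hπ : Irreducible π) {N : Ideal S}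
    (hN : Cs V N) (hk : ∀ s : S, ∃ c : V, s - algebraMap V S c ∈ N) {u : S} (hu : Rgl π N u)
    (hq : M.q u ≠ 0) {m : V[X]} (hm : m.Monic)
    (hl : ∀ j < m.natDegree, m.coeff j ∈ maximalIdeal V) (hd : m.natDegree ≠ 0) {r : V[X]}
    (hr : r.coeff 0 ∈ maximalIdeal V) : ∃ Ψ : S →ₐ[V] AdjoinRoot m, Ψ u = AdjoinRoot.mk m r ∧
      ∀ x ∈ N, ∃ p : V[X], Ψ x = AdjoinRoot.mk m p ∧ p.coeff 0 ∈ maximalIdeal V := by
  obtain ⟨μ, hμ, hμd, hμl, hμ0⟩ := exists_mu hm hl hd hr
  have hT : ∀ N' ∈ ({N} : Set (Ideal S)), N'.IsPrime := by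
    rintro _ rfl
    exact hN.1.isPrime
  obtain ⟨ψ, hψu, hψ⟩ := M.dcA_iso hπ hN hT hk hu hq hμ hμl
  let χ : AdjoinRoot μ →ₐ[V] AdjoinRoot m :=
    AdjoinRoot.liftAlgHom μ (Algebra.ofId V (AdjoinRoot m)) (AdjoinRoot.mk m r) hμ0
  have hχ : ∀ p : V[X], χ (AdjoinRoot.mk μ p) = aeval (AdjoinRoot.mk m r) p := fun p =>
    AdjoinRoot.liftAlgHom_mk _ _ _ _ _
  refine ⟨χ.comp ψ, ?_, fun x hx => ?_⟩
  · rw [AlgHom.comp_apply, hψu, ← AdjoinRoot.mk_X, hχ, aeval_X]
  · obtain ⟨p, -, hp⟩ := M.dcA_rep hπ hN hT hk hu hq hμ hμl x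
    refine ⟨p.comp r, ?_, ?_⟩
    · have h1 : ψ x = AdjoinRoot.mk μ p := by
        have h2 := (hψ _).2 hp
        rw [map_sub, sub_eq_zero] at h2
        rw [h2, ← aeval_algHom_apply, hψu, AdjoinRoot.aeval_eq]
      rw [AlgHom.comp_apply, h1, hχ]
      have h3 : aeval (AdjoinRoot.mk m r) p = aeval (AdjoinRoot.mkₐ m r) p := rfl
      rw [h3, aeval_algHom_apply, ← comp_eq_aeval]
      rfl
    · have h1 : aeval u p ∈ N := by
        have h2 := dcA_le hπ hN hT hu.1 hμ hμl (Nat.pos_of_ne_zero hμd) hp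
        have h3 := N.sub_mem hx h2
        rwa [sub_sub_cancel] at h3
      have h2 : algebraMap V S (p.coeff 0) ∈ N := by
        have h4 : aeval u p = aeval u p.divX * u + algebraMap V S (p.coeff 0) := by
          conv_lhs => rw [← divX_mul_X_add p]
          rw [map_add, map_mul, aeval_X, aeval_C]
        have h5 : algebraMap V S (p.coeff 0) = aeval u p - aeval u p.divX * u := by
          rw [h4, add_sub_cancel_left]
        rw [h5]
        exact N.sub_mem h1 (N.mul_mem_left _ hu.1)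
      have h3 : p.coeff 0 ∈ maximalIdeal V := by
        rw [mem_maximalIdeal]
        intro hun
        exact hN.1.ne_top (N.eq_top_of_isUnit_mem h2 (hun.map _))
      have h6 : (p.comp r).coeff 0 = p.divX.eval (r.coeff 0) * r.coeff 0 + p.coeff 0 := by
        rw [coeff_zero_eq_eval_zero, eval_comp, ← coeff_zero_eq_eval_zero]
        conv_lhs => rw [← divX_mul_X_add p]
        rw [eval_add, eval_mul, eval_X, eval_C]
      rw [h6]
      exact Ideal.add_mem _ (Ideal.mul_mem_left _ _ hr) h3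

end Md

end CV
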