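import Pool.Agent.Lib.MP_f80667_ag.Cv.Rp0
import Pool.Agent.Lib.MP_f80667_ag.Cv.Am

/-!
A closed point of the amalgam: local parameters.
-/

open IsLocalRing

namespace CV

/-- The kernel of a homomorphism to the residue field is a closed point of the special fibre. -/
theorem cs_ker {V k S : Type} [CommRing V] [IsLocalRing V] [Field k] [Algebra V k] [CommRing S]
    [Algebra V S] (hs : Function.Surjective (algebraMap V k))
    (h0 : ∀ c : V, algebraMap V k c = 0 ↔ c ∈ maximalIdeal V) (ε : S →ₐ[V] k) :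
    Cs V (RingHom.ker ε) ∧ ∀ s : S, ∃ c : V, s - algebraMap V S c ∈ RingHom.ker ε := by
  have hsur : Function.Surjective ε := fun x => by
    obtain ⟨c, rfl⟩ := hs x
    exact ⟨algebraMap V S c, ε.commutes c⟩
  refine ⟨⟨RingHom.ker_isMaximal_of_surjective ε hsur, fun c hc => ?_⟩, fun s => ?_⟩
  · rw [RingHom.mem_ker, ε.commutes]
    exact (h0 c).2 hc
  · obtain ⟨c, hc⟩ := hs (ε s)
    exact ⟨c, by rw [RingHom.mem_ker, map_sub, ε.commutes, hc, sub_self]⟩

/-- A rational closed point is the kernel of a homomorphism to the residue field. -/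
theorem exists_eps {V k S : Type} [CommRing V] [IsLocalRing V] [Field k] [Algebra V k] [CommRing S]
    [Algebra V S] (hs : Function.Surjective (algebraMap V k))
    (h0 : ∀ c : V, algebraMap V k c = 0 ↔ c ∈ maximalIdeal V) {N : Ideal S} (hN : Cs V N)
    (hk : ∀ s : S, ∃ c : V, s - algebraMap V S c ∈ N) :
    ∃ ε : S →ₐ[V] k, RingHom.ker ε = N := by
  have h1 : Function.Surjective (Algebra.ofId V (S ⧸ N)) := fun x => by
    obtain ⟨s, rfl⟩ := Ideal.Quotient.mk_surjective x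
    obtain ⟨c, hc⟩ := hk s
    exact ⟨c, (Ideal.Quotient.eq.2 hc).symm⟩
  have h2 : Function.Surjective (Algebra.ofId V k) := hs
  have h3 : ∀ c : V, algebraMap V S c ∈ N ↔ c ∈ maximalIdeal V := fun c => by
    refine ⟨fun h => ?_, hN.2 c⟩
    by_contra hc
    have hu : IsUnit c := not_not.1 hc
    exact hN.1.ne_top (N.eq_top_of_isUnit_mem h (hu.map (algebraMap V S)))
  have h4 : RingHom.ker (Algebra.ofId V (S ⧸ N)) = RingHom.ker (Algebra.ofId V k) := by
    ext c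
    rw [RingHom.mem_ker, RingHom.mem_ker]
    change Ideal.Quotient.mk N (algebraMap V S c) = 0 ↔ algebraMap V k c = 0
    rw [Ideal.Quotient.eq_zero_iff_mem, h3, h0]
  let e : (S ⧸ N) ≃ₐ[V] k :=
    ((Ideal.quotientKerAlgEquivOfSurjective h1).symm.trans (Ideal.quotientEquivAlgOfEq V h4)).trans
      (Ideal.quotientKerAlgEquivOfSurjective h2)
  refine ⟨e.toAlgHom.comp (Ideal.Quotient.mkₐ V N), ?_⟩
  ext s
  rw [RingHom.mem_ker]
  change e (Ideal.Quotient.mk N s) = 0 ↔ _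
  rw [map_eq_zero_iff e e.injective, Ideal.Quotient.eq_zero_iff_mem]

/-- **The local parameter of the amalgam.** `z` is a local parameter at the first point, `α` at the second, `ρ = z y + π y'`. Proof: `s = i1 s₁ * i2 s₂` (the elements from `Rgl`). By `Am.induct`: for every `x` there are `c ∈ V`, `y`, `y'` with `s (x - c) = z y + π y'` (for `x = i1 x₁ * i2 x₂`, `x₁ = c₁ + n₁`,
`x₂ = c₂ + n₂`: `s₁ n₁ ∈ (z, π)`, `s₂ n₂ ∈ (α, π)`, and `i2 α = i1 ρ ∈ (z, π)`); `c ∈ (π)` if `x` is in the kernel. -/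
theorem rgl_am {V k R₁ R₂ : Type} [CommRing V] [IsDomain V] [IsDiscreteValuationRing V] [Field k]
    [Algebra V k] [CommRing R₁] [CommRing R₂] [Algebra V R₁] [Algebra V R₂]
    (hs : Function.Surjective (algebraMap V k))
    (h0 : ∀ c : V, algebraMap V k c = 0 ↔ c ∈ maximalIdeal V) {π : V} (hπ : Irreducible π)
    (ε₁ : R₁ →ₐ[V] k) (ε₂ : R₂ →ₐ[V] k) {z ρ : R₁} {α : R₂} (hz : Rgl π (RingHom.ker ε₁) z)
    (hα : Rgl π (RingHom.ker ε₂) α) {y y' : R₁} (hρ : ρ = z * y + algebraMap V R₁ π * y')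
    (h : ε₁ ρ = ε₂ α) :
    Rgl π (RingHom.ker (Am.lift (A := V) (α := ρ) (ρ := α) ε₁ ε₂ h)) (Am.i1 V ρ α z) := by
  obtain ⟨hz1, s₁, hs₁, hz2⟩ := hz
  obtain ⟨hα1, s₂, hs₂, hα2⟩ := hα
  set ε := Am.lift (A := V) (α := ρ) (ρ := α) ε₁ ε₂ h with hε
  have hcomm : Am.i2 V ρ α α = Am.i1 V ρ α z * Am.i1 V ρ α y +
      algebraMap V (Am V ρ α) π * Am.i1 V ρ α y' := by
    rw [← Am.comm, hρ, map_add, map_mul, map_mul, AlgHom.commutes]
  have hεs : ε (Am.i1 V ρ α s₁ * Am.i2 V ρ α s₂) ≠ 0 := by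
    rw [map_mul, hε, Am.lift_i1, Am.lift_i2]
    exact mul_ne_zero hs₁ hs₂
  have key : ∀ x : Am V ρ α, ∃ (c : V) (u u' : Am V ρ α),
      Am.i1 V ρ α s₁ * Am.i2 V ρ α s₂ * (x - algebraMap V (Am V ρ α) c) =
        Am.i1 V ρ α z * u + algebraMap V (Am V ρ α) π * u' := by
    intro x
    induction x using Am.induct with
    | h x₁ x₂ =>
      obtain ⟨c₁, hc₁⟩ := (cs_ker hs h0 ε₁).2 x₁
      obtain ⟨c₂, hc₂⟩ := (cs_ker hs h0 ε₂).2 x₂
      obtain ⟨a, a', ha⟩ := hz2 _ hc₁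
      obtain ⟨b, b', hb⟩ := hα2 _ hc₂
      have ha2 := congrArg (Am.i1 V ρ α) ha
      have hb2 := congrArg (Am.i2 V ρ α) hb
      simp only [map_add, map_mul, map_sub, AlgHom.commutes] at ha2 hb2
      rw [hcomm] at hb2
      refine ⟨c₁ * c₂, Am.i1 V ρ α a * (Am.i2 V ρ α s₂ * Am.i2 V ρ α x₂) +
        algebraMap V (Am V ρ α) c₁ * Am.i1 V ρ α s₁ * (Am.i1 V ρ α y * Am.i2 V ρ α b),
        Am.i1 V ρ α a' * (Am.i2 V ρ α s₂ * Am.i2 V ρ α x₂) +
        algebraMap V (Am V ρ α) c₁ * Am.i1 V ρ α s₁ * (Am.i1 V ρ α y' * Am.i2 V ρ α b +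
          Am.i2 V ρ α b'), ?_⟩
      rw [map_mul]
      linear_combination (Am.i2 V ρ α s₂ * Am.i2 V ρ α x₂) * ha2 +
        (algebraMap V (Am V ρ α) c₁ * Am.i1 V ρ α s₁) * hb2
    | h' x x' hx hx' =>
      obtain ⟨c, u, u', hu⟩ := hx
      obtain ⟨d, w, w', hw⟩ := hx'
      refine ⟨c + d, u + w, u' + w', ?_⟩
      rw [map_add]
      linear_combination hu + hw
  refine ⟨?_, Am.i1 V ρ α s₁ * Am.i2 V ρ α s₂, hεs, fun x hx => ?_⟩
  · rw [RingHom.mem_ker, hε, Am.lift_i1]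
    exact hz1
  · obtain ⟨c, u, u', hu⟩ := key x
    have h5 := congrArg ε hu
    rw [map_mul, map_sub, AlgHom.commutes, RingHom.mem_ker.1 hx, zero_sub, map_add,
      map_mul ε (Am.i1 V ρ α z), map_mul ε (algebraMap V (Am V ρ α) π), AlgHom.commutes] at h5
    have h6 : ε (Am.i1 V ρ α z) = 0 := by
      rw [hε, Am.lift_i1]
      exact hz1
    have h7 : algebraMap V k π = 0 := by
      rw [h0, hπ.maximalIdeal_eq]
      exact Ideal.mem_span_singleton_self π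
    rw [h6, h7, zero_mul, zero_mul, add_zero] at h5
    have h8 : algebraMap V k c = 0 := neg_eq_zero.1 ((mul_eq_zero.1 h5).resolve_left hεs)
    rw [h0, hπ.maximalIdeal_eq] at h8
    obtain ⟨d, rfl⟩ := Ideal.mem_span_singleton.1 h8
    refine ⟨u, u' + Am.i1 V ρ α s₁ * Am.i2 V ρ α s₂ * algebraMap V (Am V ρ α) d, ?_⟩
    rw [map_mul] at hu
    linear_combination hu

end CV
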