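import Pool.Agent.Lib.MP_f80667_ag.Cv.Rp0

/-!
The curve `D` in the product of the affine line and of curves `C i`, `i ∈ J`.

`M i` is a model of `C i` over `V`, `ε i : S i → k` a rational closed point of the special fibre, `u i` a local parameter at it;
`m ∈ V[X]` is a monic polynomial with roots in the maximal ideal, `r i ∈ V[X]` with `r i (0)` in the maximal ideal.

`CxD`: a model `D` of a curve with a function `z` of unit type (the projection to the line), homomorphisms `j i` from the functions on `C i`,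
a rational closed point `ε'` of the special fibre above the `ε i` with the local parameter `z`, such that `u i = r i (w)` at the integral points above `ε'`
with `z = w`, `w` a root of `m`.
-/

open IsLocalRing Polynomial

namespace CV

/-- The curve `D`. -/
structure CxD {V L k : Type} [CommRing V] [IsDomain V] [IsDiscreteValuationRing V] [Field L]
    [Field k] [Algebra V L] [IsFractionRing V L] [Algebra V k] {ι : Type} {S SL Sk : ι → Type}
    [∀ i, CommRing (S i)] [∀ i, CommRing (SL i)] [∀ i, CommRing (Sk i)] [∀ i, Algebra V (S i)]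
    [∀ i, Algebra L (SL i)] [∀ i, Algebra k (Sk i)] (M : ∀ i, Md V L k (S i) (SL i) (Sk i))
    (ε : ∀ i, S i →ₐ[V] k) (u : ∀ i, S i) (r : ι → V[X]) (m : V[X]) (π : V) {Ω : Type} [Field Ω]
    [Algebra L Ω] (W : ValuationSubring Ω) (J : Finset ι) where
  S' : Type
  SL' : Type
  Sk' : Type
  [c1 : CommRing S']
  [c2 : CommRing SL']
  [c3 : CommRing Sk']
  [a1 : Algebra V S']
  [a2 : Algebra L SL']
  [a3 : Algebra k Sk']
  D : Md V L k S' SL' Sk'
  ε' : S' →ₐ[V] k
  z : S'
  n : ℕ
  n0 : 0 < n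
  ut : D.Ut z n
  rgl : Rgl π (RingHom.ker ε') z
  j : ∀ i ∈ J, S i →ₐ[V] S'
  jL : ∀ i ∈ J, SL i →ₐ[L] SL'
  comm : ∀ i h s, D.i (j i h s) = jL i h ((M i).i s)
  red : ∀ i h s, ε' (j i h s) = ε i s
  pos : ∀ i h x, 0 < (M i).DL.d x → 0 < D.DL.d (jL i h x)
  val : ∀ φ : SL' →ₐ[L] Ω, D.Ov W φ (RingHom.ker ε') →
    aeval (φ (D.i z)) (m.map (algebraMap V L)) = 0 →
    ∀ i h, φ (D.i (j i h (u i))) = aeval (φ (D.i z)) ((r i).map (algebraMap V L))

attribute [instance] CxD.c1 CxD.c2 CxD.c3 CxD.a1 CxD.a2 CxD.a3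

end CV
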