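import Pool.Agent.Lib.MP_f80667_ag.Cv.MdO

/-!
The affine line as a model.
-/

open IsLocalRing Polynomial

namespace CV

/-- The degree of polynomials. -/
noncomputable def Dg.poly (K : Type) [Field K] : Dg K K[X] where
  d := degree
  bot x := degree_eq_bot
  mul x y := degree_mul
  add x y := degree_add_le x y
  lead x y hy h := by
    refine ⟨x.leadingCoeff / y.leadingCoeff, ?_⟩
    have hy' : y.leadingCoeff ≠ 0 := leadingCoeff_ne_zero.2 hy
    have hx : x ≠ 0 := by
      rintro rfl
      rw [degree_zero] at h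
      exact hy (degree_eq_bot.1 h.symm)
    have hx' : x.leadingCoeff ≠ 0 := leadingCoeff_ne_zero.2 hx
    have hc : x.leadingCoeff / y.leadingCoeff ≠ 0 := div_ne_zero hx' hy'
    have h1 : ((x.leadingCoeff / y.leadingCoeff) • y).degree = x.degree := by
      rw [smul_eq_C_mul, degree_C_mul hc, h]
    rw [← h]
    refine degree_sub_lt h1.symm hx ?_
    rw [smul_eq_C_mul, leadingCoeff_mul, leadingCoeff_C, div_mul_cancel₀ _ hy']
  tail := ⟨0, fun n _ => ⟨X ^ n, degree_X_pow n⟩⟩

theorem Dg.poly_d {K : Type} [Field K] (x : K[X]) : (Dg.poly K).d x = x.degree := rfl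

section

variable {V L k : Type} [CommRing V] [IsDomain V] [ValuationRing V] [Field L] [Field k]
  [Algebra V L] [IsFractionRing V L] [Algebra V k]
  (hs : Function.Surjective (algebraMap V k))
  (h0 : ∀ c : V, algebraMap V k c = 0 ↔ c ∈ maximalIdeal V)

/-- The affine line. -/
noncomputable def Md.poly : Md V L k V[X] L[X] k[X] :=
  Md.ofBases hs h0 (basisMonomials V) (basisMonomials L) (basisMonomials k)
    (mapRingHom (algebraMap V L)) (mapRingHom (algebraMap V k))
    (fun c => by simp) (fun c => by simp)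
    (fun j => by simp) (fun j => by simp)
    (Dg.poly L) (Dg.poly k)
    ⟨0, fun n _ => ⟨X ^ n, by simp [Dg.poly_d], by simp [Dg.poly_d]⟩⟩

theorem Md.poly_i (x : V[X]) : (Md.poly (L := L) hs h0).i x = x.map (algebraMap V L) := rfl

theorem Md.poly_q (x : V[X]) : (Md.poly (L := L) hs h0).q x = x.map (algebraMap V k) := rfl

theorem Md.poly_ut : (Md.poly (L := L) hs h0).Ut X 1 := by
  refine ⟨?_, ?_⟩
  · change (Polynomial.map (algebraMap V L) X).degree = _
    simp
  · change (Polynomial.map (algebraMap V k) X).degree = _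
    simp

end

end CV
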