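import Pool.Agent.Lib.MP_f80667_ag.Cv.CxD
import Pool.Agent.Lib.MP_f80667_ag.Cv.CxP
import Pool.Agent.Lib.MP_f80667_ag.Cv.CxC

/-!
The curve `D`: the affine line.
-/

open IsLocalRing Polynomial

namespace CV

section

variable {V L k : Type} [CommRing V] [IsDomain V] [IsDiscreteValuationRing V] [Field L]
  [Field k] [Algebra V L] [IsFractionRing V L] [Algebra V k] {ι : Type} {S SL Sk : ι → Type}
  [∀ i, CommRing (S i)] [∀ i, CommRing (SL i)] [∀ i, CommRing (Sk i)] [∀ i, Algebra V (S i)]
  [∀ i, Algebra L (SL i)] [∀ i, Algebra k (Sk i)] {M : ∀ i, Md V L k (S i) (SL i) (Sk i)}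
  {ε : ∀ i, S i →ₐ[V] k} {u : ∀ i, S i} {r : ι → V[X]} {m : V[X]} {π : V} {Ω : Type} [Field Ω]
  [Algebra L Ω] {W : ValuationSubring Ω}

/-- The affine line. Proof: `Md.poly`, `z = X`, `ε' = ` the value at `0`. -/
theorem cxD_empty (hs : Function.Surjective (algebraMap V k))
    (h0 : ∀ c : V, algebraMap V k c = 0 ↔ c ∈ maximalIdeal V) (hπ : Irreducible π) :
    Nonempty (CxD M ε u r m π W ∅) := by
  classical
  refine ⟨{
    S' := V[X]
    SL' := L[X]
    Sk' := k[X]
    D := Md.poly hs h0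
    ε' := aeval (0 : k)
    z := X
    n := 1
    n0 := Nat.one_pos
    ut := Md.poly_ut hs h0
    rgl := ?_
    j := fun i h => absurd h (Finset.notMem_empty i)
    jL := fun i h => absurd h (Finset.notMem_empty i)
    comm := fun i h => absurd h (Finset.notMem_empty i)
    red := fun i h => absurd h (Finset.notMem_empty i)
    pos := fun i h => absurd h (Finset.notMem_empty i)
    val := fun φ _ _ i h => absurd h (Finset.notMem_empty i) }⟩
  refine ⟨?_, 1, ?_, ?_⟩
  · rw [RingHom.mem_ker]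
    exact aeval_X (0 : k)
  · rw [RingHom.mem_ker]
    intro h
    exact one_ne_zero ((map_one (aeval (R := V) (0 : k))).symm.trans h)
  · intro x hx
    rw [RingHom.mem_ker] at hx
    have h1 : algebraMap V k (x.coeff 0) = 0 := (coeff_zero_eq_aeval_zero' x).trans hx
    rw [h0, hπ.maximalIdeal_eq, Ideal.mem_span_singleton] at h1
    obtain ⟨c, hc⟩ := h1
    refine ⟨x.divX, C c, ?_⟩
    have h2 := divX_mul_X_add x
    rw [hc, C_mul] at h2
    rw [one_mul, ← C_eq_algebraMap]
    linear_combination (-1 : V[X]) * h2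

end

end CV
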