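import Mathlib

/-!
Polynomials of large degree prime to a given number.
-/

open IsLocalRing Polynomial

namespace CV

/-- Proof: `ρ = p %ₘ m + X ^ t * m` with `t ≥ 1` and `t + natDegree m = 1 + b q`, `q` large. -/
theorem exists_rho {V : Type} [CommRing V] [IsDomain V] [IsDiscreteValuationRing V] {π : V}
    (hπ : Irreducible π) {m p : V[X]} (hm : m.Monic)
    (hl : ∀ j < m.natDegree, m.coeff j ∈ maximalIdeal V) (hd : m.natDegree ≠ 0)
    (hp : p.coeff 0 ∈ maximalIdeal V) (b B : ℕ) (hb : b ≠ 0) : ∃ ρ : V[X], ρ.Monic ∧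
      B ≤ ρ.natDegree ∧ ρ.natDegree ≠ 0 ∧ Nat.Coprime ρ.natDegree b ∧ m ∣ ρ - p ∧
      ∃ y y' : V[X], ρ = X * y + C π * y' := by
  obtain ⟨t, ht⟩ : ∃ t, t + 1 + m.natDegree = 1 + b * (B + m.natDegree + 1) := by
    have h1 : 1 * (B + m.natDegree + 1) ≤ b * (B + m.natDegree + 1) :=
      Nat.mul_le_mul_right _ (Nat.one_le_iff_ne_zero.2 hb)
    refine ⟨b * (B + m.natDegree + 1) - m.natDegree, ?_⟩
    omega
  have h1 : 1 * (B + m.natDegree + 1) ≤ b * (B + m.natDegree + 1) :=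
    Nat.mul_le_mul_right _ (Nat.one_le_iff_ne_zero.2 hb)
  have hXm : (X ^ (t + 1) * m).Monic := (monic_X_pow (t + 1)).mul hm
  have hXd : (X ^ (t + 1) * m).natDegree = t + 1 + m.natDegree := by
    rw [(monic_X_pow (t + 1)).natDegree_mul hm, natDegree_X_pow]
  have hm1 : m ≠ 1 := by
    rintro rfl
    exact hd natDegree_one
  have hrd : (p %ₘ m).natDegree < m.natDegree := natDegree_modByMonic_lt p hm hm1
  have hlt : (p %ₘ m).degree < (X ^ (t + 1) * m).degree := by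
    refine lt_of_lt_of_le (degree_modByMonic_lt p hm) ?_
    rw [degree_eq_natDegree hm.ne_zero, degree_eq_natDegree hXm.ne_zero, hXd]
    exact_mod_cast Nat.le_add_left _ _
  have hmon : (p %ₘ m + X ^ (t + 1) * m).Monic := hXm.add_of_right hlt
  have hdeg : (p %ₘ m + X ^ (t + 1) * m).natDegree = 1 + b * (B + m.natDegree + 1) := by
    rw [natDegree_add_eq_right_of_degree_lt hlt, hXd, ht]
  have hdiv : p %ₘ m + m * (p /ₘ m) = p := modByMonic_add_div p m
  refine ⟨p %ₘ m + X ^ (t + 1) * m, hmon, ?_, ?_, ?_, ?_, ?_⟩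
  · rw [hdeg]
    omega
  · rw [hdeg]
    omega
  · rw [hdeg, Nat.coprime_add_mul_left_left]
    exact Nat.coprime_one_left b
  · refine ⟨X ^ (t + 1) - p /ₘ m, ?_⟩
    have h2 : p %ₘ m = p - m * (p /ₘ m) := by
      rw [eq_sub_iff_add_eq]
      exact hdiv
    rw [h2]
    ring
  · have h2 : (p %ₘ m).coeff 0 = p.coeff 0 - m.coeff 0 * (p /ₘ m).coeff 0 := by
      rw [eq_sub_iff_add_eq, ← mul_coeff_zero, ← coeff_add, hdiv]
    have h3 : (p %ₘ m + X ^ (t + 1) * m).coeff 0 ∈ maximalIdeal V := by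
      rw [coeff_add, mul_coeff_zero, pow_succ, mul_coeff_zero, coeff_X_zero, mul_zero, zero_mul,
        add_zero, h2]
      exact sub_mem hp (Ideal.mul_mem_right _ _ (hl 0 (Nat.pos_of_ne_zero hd)))
    rw [hπ.maximalIdeal_eq, Ideal.mem_span_singleton] at h3
    obtain ⟨c, hc⟩ := h3
    refine ⟨(p %ₘ m + X ^ (t + 1) * m).divX, C c, ?_⟩
    conv_lhs => rw [← X_mul_divX_add (p %ₘ m + X ^ (t + 1) * m)]
    rw [hc, C_mul]

end CV
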