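import Pool.Agent.Lib.MP_f80667_ag.Cv.Dc

/-!
Two points with the same value of a local parameter.
-/

open IsLocalRing Polynomial

namespace CV

namespace Md

variable {V L k S SL Sk : Type} [CommRing V] [IsDomain V] [IsDiscreteValuationRing V] [Field L]
  [Field k] [Algebra V L] [IsFractionRing V L] [Algebra V k] [CommRing S] [CommRing SL]
  [CommRing Sk] [Algebra V S] [Algebra L SL] [Algebra k Sk] (M : Md V L k S SL Sk) {Ω : Type}
  [Field Ω] [Algebra L Ω] {W : ValuationSubring Ω}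

/-- Evaluation at a root. -/
private noncomputable def cxVev {m : V[X]} {w : Ω}
    (hm : eval₂ ((algebraMap L Ω).comp (algebraMap V L)) w m = 0) : AdjoinRoot m →+* Ω :=
  AdjoinRoot.lift ((algebraMap L Ω).comp (algebraMap V L)) w hm

omit [IsDomain V] [IsDiscreteValuationRing V] [IsFractionRing V L] in
private theorem cxVev_mk {m : V[X]} {w : Ω}
    (hm : eval₂ ((algebraMap L Ω).comp (algebraMap V L)) w m = 0) (p : V[X]) :
    cxVev hm (AdjoinRoot.mk m p) = aeval w (p.map (algebraMap V L)) := by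
  unfold cxVev
  rw [AdjoinRoot.lift_mk, aeval_def, eval₂_map]

omit [IsFractionRing V L] in
private theorem cxV_mem (hW : Wv V L W) {w : Ω} (hw : w ∈ W.nonunits) (p : V[X]) :
    aeval w (p.map (algebraMap V L)) ∈ W := by
  rw [aeval_def, eval₂_map, eval₂_eq_sum_range]
  exact W.toSubring.sum_mem fun j _ => W.mul_mem _ _ (hW.mem _)
    (W.toSubring.pow_mem (dcA_nonunit_mem hw) _)

omit [IsFractionRing V L] in
private theorem cxV_non (hW : Wv V L W) {w : Ω} (hw : w ∈ W.nonunits) {p : V[X]}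
    (hp : p.coeff 0 ∈ maximalIdeal V) : aeval w (p.map (algebraMap V L)) ∈ W.nonunits := by
  have h1 : aeval w (p.map (algebraMap V L)) = aeval w (p.divX.map (algebraMap V L)) * w +
      algebraMap L Ω (algebraMap V L (p.coeff 0)) := by
    conv_lhs => rw [← divX_mul_X_add p]
    rw [Polynomial.map_add, Polynomial.map_mul, map_X, map_C, map_add, map_mul, aeval_X, aeval_C]
  rw [h1]
  exact W.nonunits.add_mem (dcA_mul_mem (cxV_mem hW hw _) hw) (hW.lt _ hp)

/-- **The value of `u`.** `Ψ : S → V[X] / (m)` is a homomorphism which maps `N` to elements `mk p` with `p (0)` in the maximal ideal, `w` a root of `m` in the maximal ideal of `W`, `α` a local parameter at `N`. `χ` is a point above `N` with the same value `Ψ α (w)` of `α` as `Ψ` followed by `X ↦ w`. Then `χ u = Ψ u (w)`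
for all `u ∈ S`.
Proof: the homomorphism `S → V[X] / (m) → Ω`, `X ↦ w`, extends to `χ₀ : SL → Ω` (`dcA_ext`); its values are in `W`, those on `N` in the maximal ideal (`p (w)` with `p (0)` in the maximal ideal), and those outside of `N` not (`N` is maximal: `s s' - 1 ∈ N`). So `χ₀` is a point above `N`, `disc_uniq` for `α`. -/
theorem cx_val [IsAdicComplete (maximalIdeal V) V] [CharZero L] [IsAlgClosure L Ω]
    (hW : Wv V L W) (hg : ∀ (σ : Ω ≃ₐ[L] Ω) (x : Ω), x ∈ W → σ x ∈ W) {π : V}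
    (hπ : Irreducible π) {N : Ideal S} (hN : Cs V N)
    (hk : ∀ s : S, ∃ c : V, s - algebraMap V S c ∈ N) {α : S} (hα : Rgl π N α)
    (hq : M.q α ≠ 0) {m : V[X]} (Ψ : S →ₐ[V] AdjoinRoot m)
    (hΨ : ∀ x ∈ N, ∃ p : V[X], Ψ x = AdjoinRoot.mk m p ∧ p.coeff 0 ∈ maximalIdeal V)
    {w : Ω} (hw : w ∈ W.nonunits) (hm : aeval w (m.map (algebraMap V L)) = 0) {p : V[X]}
    (hp : Ψ α = AdjoinRoot.mk m p) {χ : SL →ₐ[L] Ω} (h : M.Ov W χ N)
    (hχ : χ (M.i α) = aeval w (p.map (algebraMap V L))) {u : S} {r : V[X]}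
    (hr : Ψ u = AdjoinRoot.mk m r) : χ (M.i u) = aeval w (r.map (algebraMap V L)) := by
  have hm0 : eval₂ ((algebraMap L Ω).comp (algebraMap V L)) w m = 0 := by
    rw [← eval₂_map, ← aeval_def]
    exact hm
  obtain ⟨χ₀, h0⟩ := M.dcA_ext ((cxVev hm0).comp (Ψ : S →+* AdjoinRoot m)) (fun d => by
    show cxVev hm0 (Ψ (algebraMap V S d)) = _
    rw [Ψ.commutes]
    exact AdjoinRoot.lift_of hm0)
  have hval : ∀ (s : S) (p : V[X]), Ψ s = AdjoinRoot.mk m p →
      χ₀ (M.i s) = aeval w (p.map (algebraMap V L)) := by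
    intro s p hs
    rw [h0]
    show cxVev hm0 (Ψ s) = _
    rw [hs, cxVev_mk]
  have hN1 : ∀ s ∈ N, χ₀ (M.i s) ∈ W.nonunits := by
    intro s hs
    obtain ⟨p', hp1, hp2⟩ := hΨ s hs
    rw [hval s p' hp1]
    exact cxV_non hW hw hp2
  have hIg : M.Ig W χ₀ := by
    intro s
    obtain ⟨c, hc⟩ := hk s
    have h1 := dcA_nonunit_mem (hN1 _ hc)
    rw [map_sub, map_sub, M.dcA_alg] at h1
    have h2 := W.add_mem _ _ h1 (hW.mem c)
    rwa [sub_add_cancel] at h2
  have hOv : M.Ov W χ₀ N := by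
    refine ⟨hIg, fun s => ⟨hN1 s, fun hs => ?_⟩⟩
    by_contra hsN
    obtain ⟨c, c', hcc, hc⟩ := dcA_unit hN hk hsN
    have h1 := hN1 _ hc
    rw [map_sub, map_sub, M.dcA_alg] at h1
    have h3 : (-1 : Ω) * (χ₀ (M.i s) - algebraMap L Ω (algebraMap V L c)) ∈ W.nonunits :=
      dcA_mul_mem (W.neg_mem _ W.one_mem) h1
    have h2 := W.nonunits.add_mem hs h3
    have h4 : χ₀ (M.i s) + (-1 : Ω) * (χ₀ (M.i s) - algebraMap L Ω (algebraMap V L c)) =
        algebraMap L Ω (algebraMap V L c) := by ring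
    rw [h4] at h2
    exact dcA_unit_notin hW hcc h2
  have he : χ (M.i α) = χ₀ (M.i α) := by
    rw [hχ, hval α p hp]
  rw [M.disc_uniq hW hπ hN hk hg hα hq h hOv he]
  exact hval u r hr

end Md

end CV
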