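import Pool.Agent.Lib.MP_f80667_ag.Cv.DgT
import Pool.Agent.Lib.MP_f80667_ag.Cv.Am

/-!
# The degree function of the amalgam

For `G₁ : Dg K S₁`, `G₂ : Dg K S₂`, `d α = a`, `d ρ = b`, `a, b > 0` coprime, `Dg.am` is a degree
function on `Am K α ρ` with `d (i1 x * i2 y) = b * d x + a * d y` (`Dg.am_mul`).
-/

set_option autoImplicit false

open Module TensorProduct

namespace CV

lemma basis_ind {ι K M : Type} [Field K] [AddCommGroup M] [Module K M] (b : Basis ι K M)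
    {P : M → Prop} (h0 : P 0) (hb : ∀ i, P (b i)) (ha : ∀ x y, P x → P y → P (x + y))
    (hs : ∀ (c : K) x, P x → P (c • x)) (x : M) : P x := by
  refine Submodule.span_induction (p := fun y _ => P y) ?_ h0 (fun x y _ _ => ha x y)
    (fun c x _ => hs c x) (b.mem_span x)
  rintro _ ⟨i, rfl⟩
  exact hb i

namespace Dg

variable {K S₁ S₂ : Type} [Field K] [CommRing S₁] [CommRing S₂] [Algebra K S₁] [Algebra K S₂]
  (G₁ : Dg K S₁) (G₂ : Dg K S₂)

/-- the degrees `m` for which `m - a` is not a degree -/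
def Ap (a : ℕ) : Set ℕ := {m | m ∈ G₁.deg ∧ ∀ k ∈ G₁.deg, m ≠ k + a}

lemma deg_add {m n : ℕ} (hm : m ∈ G₁.deg) (hn : n ∈ G₁.deg) : m + n ∈ G₁.deg := by
  obtain ⟨x, hx⟩ := hm
  obtain ⟨y, hy⟩ := hn
  exact ⟨x * y, by rw [G₁.mul, hx, hy, Nat.cast_add]⟩

lemma deg_mul {m : ℕ} (hm : m ∈ G₁.deg) (k : ℕ) : k * m ∈ G₁.deg := by
  obtain ⟨x, hx⟩ := hm
  exact ⟨x ^ k, by rw [G₁.pow hx, Nat.mul_comm]⟩

lemma ap_exists {a : ℕ} (ha : 0 < a) (m : ℕ) (hm : m ∈ G₁.deg) : ∃ m₀ ∈ G₁.Ap a, ∃ k, m = m₀ + k * a := by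
  induction m using Nat.strong_induction_on with
  | _ m ih =>
    by_cases h : ∀ k ∈ G₁.deg, m ≠ k + a
    · exact ⟨m, ⟨hm, h⟩, 0, by simp⟩
    · push Not at h
      obtain ⟨k, hk, rfl⟩ := h
      obtain ⟨m₀, h0, j, hj⟩ := ih k (by omega) hk
      exact ⟨m₀, h0, j + 1, by rw [hj]; ring⟩

lemma ap_unique {a : ℕ} (haG : a ∈ G₁.deg) {m m' k k' : ℕ} (hm : m ∈ G₁.Ap a) (hm' : m' ∈ G₁.Ap a)
    (h : m + k * a = m' + k' * a) : m = m' := by
  wlog hk : k ≤ k' generalizing m m' k k'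
  · exact (this hm' hm h.symm (by omega)).symm
  obtain ⟨t, rfl⟩ := Nat.exists_eq_add_of_le hk
  rcases t with _ | t
  · simpa using h
  · exfalso
    have h1 : m = m' + t * a + a := by
      have : m + k * a = (m' + t * a + a) + k * a := by rw [h]; ring
      omega
    exact hm.2 (m' + t * a) (G₁.deg_add hm'.1 (G₁.deg_mul haG t)) h1

variable {α : S₁} {ρ : S₂} {a b : ℕ} (hα : G₁.d α = a) (hρ : G₂.d ρ = b) (ha : 0 < a) (hb : 0 < b)
  (hab : Nat.Coprime a b)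

/-- the family `el m * α ^ k` -/
noncomputable def fam (a : ℕ) (α : S₁) (p : G₁.Ap a × ℕ) : S₁ := G₁.el ⟨p.1, p.1.2.1⟩ * α ^ p.2

include hα in
lemma fam_d (p : G₁.Ap a × ℕ) : G₁.d (G₁.fam a α p) = (((p.1 : ℕ) + p.2 * a : ℕ) : WithBot ℕ) := by
  unfold fam
  rw [G₁.mul, G₁.el_d, G₁.pow hα, ← Nat.cast_add, Nat.mul_comm]

include hα ha in
lemma fam_inj : Function.Injective (fun p : G₁.Ap a × ℕ => (p.1 : ℕ) + p.2 * a) := by
  rintro ⟨m, k⟩ ⟨m', k'⟩ h
  have h1 := G₁.ap_unique ⟨α, hα⟩ m.2 m'.2 h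
  have h2 : m = m' := Subtype.ext h1
  subst h2
  simp only at h
  have h3 : k * a = k' * a := by omega
  rw [Nat.eq_of_mul_eq_mul_right ha h3]

/-- the basis `el m * α ^ k` of `S₁` -/
noncomputable def bas : Basis (G₁.Ap a × ℕ) K S₁ :=
  G₁.basis (G₁.fam a α) (fun p => (p.1 : ℕ) + p.2 * a) (G₁.fam_inj hα ha) (G₁.fam_d hα) (by
    intro n hn
    obtain ⟨m₀, h0, k, rfl⟩ := G₁.ap_exists ha n hn
    exact ⟨(⟨m₀, h0⟩, k), rfl⟩)

lemma bas_apply (p : G₁.Ap a × ℕ) : G₁.bas hα ha p = G₁.el ⟨p.1, p.1.2.1⟩ * α ^ p.2 := by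
  unfold bas; rw [basis_apply]; rfl

lemma bas_d (p : G₁.Ap a × ℕ) : G₁.d (G₁.bas hα ha p) = (((p.1 : ℕ) + p.2 * a : ℕ) : WithBot ℕ) := by
  unfold bas; rw [basis_apply]; exact G₁.fam_d hα p

/-- the `S₂`-coordinates on `S₁ ⊗ S₂` -/
noncomputable def crd (ρ : S₂) : S₁ ⊗[K] S₂ →ₗ[K] (G₁.Ap a →₀ S₂) :=
  TensorProduct.lift ((G₁.bas hα ha).constr K fun p =>
    (Finsupp.lsingle p.1) ∘ₗ (LinearMap.mulLeft K (ρ ^ p.2)))

lemma crd_tmul (p : G₁.Ap a × ℕ) (y : S₂) :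
    G₁.crd hα ha ρ (G₁.bas hα ha p ⊗ₜ y) = Finsupp.single p.1 (ρ ^ p.2 * y) := by
  unfold crd
  rw [TensorProduct.lift.tmul, Basis.constr_basis]
  rfl

lemma crd_ker (z : S₁ ⊗[K] S₂) :
    G₁.crd hα ha ρ ((α ⊗ₜ[K] (1 : S₂) - (1 : S₁) ⊗ₜ[K] ρ) * z) = 0 := by
  induction z using TensorProduct.induction_on with
  | zero => rw [mul_zero, map_zero]
  | add z w hz hw => rw [mul_add, map_add, hz, hw, add_zero]
  | tmul x y =>
    have h : ∀ x, (G₁.crd hα ha ρ) ((α * x) ⊗ₜ[K] y) = (G₁.crd hα ha ρ) (x ⊗ₜ[K] (ρ * y)) := by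
      intro x
      have h1 : (G₁.crd hα ha ρ) ∘ₗ ((TensorProduct.mk K S₁ S₂).flip y) ∘ₗ (LinearMap.mulLeft K α) =
          (G₁.crd hα ha ρ) ∘ₗ ((TensorProduct.mk K S₁ S₂).flip (ρ * y)) := by
        apply (G₁.bas hα ha).ext
        rintro ⟨m, k⟩
        have h2 : α * G₁.bas hα ha (m, k) = G₁.bas hα ha (m, k + 1) := by
          rw [bas_apply, bas_apply]; simp only; ring
        simp only [LinearMap.comp_apply, LinearMap.mulLeft_apply, LinearMap.flip_apply,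
          TensorProduct.mk_apply]
        rw [h2, crd_tmul, crd_tmul]
        simp only
        congr 1
        ring
      exact LinearMap.congr_fun h1 x
    rw [sub_mul, Algebra.TensorProduct.tmul_mul_tmul, Algebra.TensorProduct.tmul_mul_tmul, one_mul,
      one_mul, map_sub, h, sub_self]

/-- the family `i1 (el m) * i2 (el l)` -/
noncomputable def amf (α : S₁) (ρ : S₂) (a : ℕ) (p : G₁.Ap a × G₂.deg) : Am K α ρ :=
  Am.i1 K α ρ (G₁.el ⟨p.1, p.1.2.1⟩) * Am.i2 K α ρ (G₂.elB p.2)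

include hα ha in
lemma amf_linearIndependent : LinearIndependent K (amf G₁ G₂ α ρ a) := by
  rw [linearIndependent_iff]
  intro c hc
  rw [Finsupp.linearCombination_apply, Finsupp.sum] at hc
  have h1 : (∑ p ∈ c.support, c p • amf G₁ G₂ α ρ a p) = (Ideal.Quotient.mk _
      (∑ p ∈ c.support, c p • ((G₁.el ⟨p.1, p.1.2.1⟩) ⊗ₜ[K] (G₂.elB p.2))) : Am K α ρ) := by
    rw [map_sum]
    refine Finset.sum_congr rfl fun p _ => ?_
    unfold amf
    rw [← Am.mk_tmul]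
    rfl
  rw [h1, Ideal.Quotient.eq_zero_iff_mem, Ideal.mem_span_singleton'] at hc
  obtain ⟨w, hw⟩ := hc
  have h2 := G₁.crd_ker hα ha (ρ := ρ) w
  rw [mul_comm, hw, map_sum] at h2
  have h3 : ∀ p : G₁.Ap a × G₂.deg, G₁.crd hα ha ρ (c p • ((G₁.el ⟨p.1, p.1.2.1⟩) ⊗ₜ[K] (G₂.elB p.2)))
      = Finsupp.single p.1 (c p • G₂.elB p.2) := by
    intro p
    have h4 : G₁.el ⟨p.1, p.1.2.1⟩ = G₁.bas hα ha (p.1, 0) := by
      rw [bas_apply]; simp
    rw [map_smul, h4, crd_tmul, Finsupp.smul_single]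
    simp
  rw [Finset.sum_congr rfl (fun p _ => h3 p)] at h2
  ext ⟨m, l⟩
  have h5 := DFunLike.congr_fun h2 m
  rw [Finsupp.finsetSum_apply] at h5
  have hinj : Function.Injective (fun l : G₂.deg => (m, l)) := Prod.mk_right_injective m
  have h6 : ∑ p ∈ c.support, (Finsupp.single p.1 (c p • G₂.elB p.2) : G₁.Ap a →₀ S₂) m =
      Finsupp.linearCombination K G₂.elB (Finsupp.comapDomain (fun l => (m, l)) c hinj.injOn) := by
    classical
    rw [Finsupp.linearCombination_comapDomain]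
    rw [← Finset.sum_filter_add_sum_filter_not c.support (fun p => p.1 = m)]
    rw [Finset.sum_eq_zero (s := c.support.filter (fun p => ¬ p.1 = m)), add_zero]
    · refine Finset.sum_bij' (fun p _ => p.2) (fun l _ => (m, l)) ?_ ?_ ?_ ?_ ?_
      · rintro ⟨m', l'⟩ hp
        rw [Finset.mem_filter] at hp
        rw [Finset.mem_preimage]
        obtain ⟨hp1, hp2⟩ := hp
        simp only at hp2
        rw [← hp2]
        exact hp1
      · intro l' hl
        rw [Finset.mem_preimage] at hl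
        rw [Finset.mem_filter]
        exact ⟨hl, rfl⟩
      · rintro ⟨m', l'⟩ hp
        rw [Finset.mem_filter] at hp
        simp only at hp ⊢
        rw [hp.2]
      · intro l' _; rfl
      · rintro ⟨m', l'⟩ hp
        rw [Finset.mem_filter] at hp
        simp only at hp ⊢
        rw [hp.2, Finsupp.single_eq_same]
    · rintro ⟨m', l'⟩ hp
      rw [Finset.mem_filter] at hp
      simp only at hp ⊢
      rw [Finsupp.single_apply, if_neg hp.2]
  rw [h6] at h5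
  have h7 := (linearIndependent_iff.1 G₂.elB.linearIndependent) _ h5
  have h8 := DFunLike.congr_fun h7 l
  exact h8

include hα ha in
lemma amf_span (x : S₁) (y : S₂) :
    Am.i1 K α ρ x * Am.i2 K α ρ y ∈ Submodule.span K (Set.range (amf G₁ G₂ α ρ a)) := by
  have h1 : ∀ (m : G₁.Ap a) (y : S₂), Am.i1 K α ρ (G₁.el ⟨m, m.2.1⟩) * Am.i2 K α ρ y ∈
      Submodule.span K (Set.range (amf G₁ G₂ α ρ a)) := by
    intro m
    refine basis_ind G₂.elB ?_ ?_ ?_ ?_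
    · rw [map_zero, mul_zero]; exact zero_mem _
    · intro l; exact Submodule.subset_span ⟨(m, l), rfl⟩
    · intro y y' hy hy'; rw [map_add, mul_add]; exact add_mem hy hy'
    · intro c y hy; rw [map_smul, mul_smul_comm]; exact Submodule.smul_mem _ _ hy
  revert x
  refine basis_ind (G₁.bas hα ha) ?_ ?_ ?_ ?_
  · rw [map_zero, zero_mul]; exact zero_mem _
  · intro p
    rw [bas_apply, map_mul, map_pow, Am.comm, ← map_pow, mul_assoc, ← map_mul]
    exact h1 p.1 _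
  · intro y y' hy hy'; rw [map_add, add_mul]; exact add_mem hy hy'
  · intro c y hy; rw [map_smul, smul_mul_assoc]; exact Submodule.smul_mem _ _ hy

/-- the basis of the amalgam -/
noncomputable def amb : Basis (G₁.Ap a × G₂.deg) K (Am K α ρ) :=
  Basis.mk (G₁.amf_linearIndependent G₂ hα ha) (by
    intro z _
    induction z using Am.induct with
    | h x y => exact G₁.amf_span G₂ hα ha x y
    | h' z w hz hw => exact add_mem (hz trivial) (hw trivial))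

lemma amb_apply (p : G₁.Ap a × G₂.deg) : G₁.amb G₂ hα ha (ρ := ρ) p =
    Am.i1 K α ρ (G₁.el ⟨p.1, p.1.2.1⟩) * Am.i2 K α ρ (G₂.elB p.2) := by
  unfold amb; rw [Basis.mk_apply]; rfl

/-- the degree of a basis element -/
def ame (a b : ℕ) (p : G₁.Ap a × G₂.deg) : ℕ := b * p.1 + a * p.2

include hα ha hab in
lemma ame_inj : Function.Injective (ame G₁ G₂ a b) := by
  rintro ⟨m, l⟩ ⟨m', l'⟩ h
  unfold ame at h
  simp only at h
  have h1 : (m : ℕ) ≡ m' [MOD a] := by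
    have h2 : b * (m : ℕ) ≡ b * m' [MOD a] := by
      have h3 : b * (m : ℕ) + a * l ≡ b * m' + a * l' [MOD a] := by rw [h]
      have h4 : b * (m : ℕ) + a * l ≡ b * m [MOD a] := by
        simp [Nat.ModEq]
      have h5 : b * (m' : ℕ) + a * l' ≡ b * m' [MOD a] := by
        simp [Nat.ModEq]
      exact h4.symm.trans (h3.trans h5)
    exact Nat.ModEq.cancel_left_of_coprime hab h2
  have h6 : m = m' := by
    apply Subtype.ext
    rcases le_total (m : ℕ) m' with h | h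
    · obtain ⟨t, ht⟩ := (Nat.modEq_iff_dvd' h).1 h1
      refine G₁.ap_unique ⟨α, hα⟩ (k := t) (k' := 0) m.2 m'.2 ?_
      rw [Nat.mul_comm t a]
      omega
    · obtain ⟨t, ht⟩ := (Nat.modEq_iff_dvd' h).1 h1.symm
      refine G₁.ap_unique ⟨α, hα⟩ (k := 0) (k' := t) m.2 m'.2 ?_
      rw [Nat.mul_comm t a]
      omega
  subst h6
  have h7 : a * (l : ℕ) = a * l' := by omega
  have h8 : (l : ℕ) = l' := Nat.eq_of_mul_eq_mul_left ha h7
  rw [Subtype.ext h8]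

/-- the degree on the amalgam -/
noncomputable def amd (z : Am K α ρ) : WithBot ℕ := bd (amb G₁ G₂ hα ha (ρ := ρ)) (ame G₁ G₂ a b) z

lemma basis_sum {ι M : Type} [AddCommGroup M] [Module K M] (b : Basis ι K M) (x : M) :
    x = ∑ i ∈ (b.repr x).support, b.repr x i • b i := by
  have := b.linearCombination_repr x
  rw [Finsupp.linearCombination_apply, Finsupp.sum] at this
  exact this.symm

include hρ in
/-- first inequality -/
lemma amd_le {x : S₁} {y : S₂} {i j : ℕ} (hx : G₁.d x ≤ i) (hy : G₂.d y ≤ j) :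
    amd (b := b) G₁ G₂ hα ha (Am.i1 K α ρ x * Am.i2 K α ρ y) ≤ ((b * i + a * j : ℕ) : WithBot ℕ) := by
  have h1 : ∀ (m : G₁.Ap a) (y : S₂) (j : ℕ), G₂.d y ≤ j →
      amd (b := b) G₁ G₂ hα ha (Am.i1 K α ρ (G₁.el ⟨m, m.2.1⟩) * Am.i2 K α ρ y) ≤
        ((b * m + a * j : ℕ) : WithBot ℕ) := by
    intro m y j hy
    rw [G₂.d_eq_bd G₂.elB (fun n => (n : ℕ)) Subtype.val_injective G₂.elB_d] at hy
    rw [basis_sum G₂.elB y, map_sum, Finset.mul_sum]
    unfold amd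
    refine bd_sum_le _ _ _ fun l hl => ?_
    rw [map_smul, mul_smul_comm]
    refine (bd_smul_le _ _).trans ?_
    rw [← G₁.amb_apply G₂ hα ha (m, l), bd_self]
    have h2 : (l : ℕ) ≤ j := by
      have := bd_le_iff.1 hy l (Finsupp.mem_support_iff.1 hl)
      exact_mod_cast this
    unfold ame
    have h3 : a * (l : ℕ) ≤ a * j := Nat.mul_le_mul_left a h2
    exact_mod_cast (by omega : b * (m : ℕ) + a * (l : ℕ) ≤ b * m + a * j)
  rw [G₁.d_eq_bd (G₁.bas hα ha) (fun p => (p.1 : ℕ) + p.2 * a) (G₁.fam_inj hα ha)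
    (G₁.bas_d hα ha)] at hx
  rw [basis_sum (G₁.bas hα ha) x, map_sum, Finset.sum_mul]
  unfold amd
  refine bd_sum_le _ _ _ fun p hp => ?_
  rw [map_smul, smul_mul_assoc]
  refine (bd_smul_le _ _).trans ?_
  rw [bas_apply, map_mul, map_pow, Am.comm, ← map_pow, mul_assoc, ← map_mul]
  have h4 : G₂.d (ρ ^ p.2 * y) ≤ ((p.2 * b + j : ℕ) : WithBot ℕ) := by
    rw [G₂.mul, G₂.pow hρ, Nat.mul_comm b, Nat.cast_add]
    exact add_le_add le_rfl hy
  refine (h1 p.1 _ _ h4).trans ?_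
  have h5 : (p.1 : ℕ) + p.2 * a ≤ i := by
    have := bd_le_iff.1 hx p (Finsupp.mem_support_iff.1 hp)
    exact_mod_cast this
  have h6 : b * (p.1 : ℕ) + a * (p.2 * b + j) ≤ b * i + a * j := by
    have : b * ((p.1 : ℕ) + p.2 * a) ≤ b * i := Nat.mul_le_mul_left b h5
    nlinarith
  exact_mod_cast h6

lemma bd_neg {ι A : Type} [CommRing A] [Algebra K A] (β : Basis ι K A) (e : ι → ℕ) (z : A) :
    bd β e (-z) = bd β e z := by
  rw [← neg_one_smul K z]; exact bd_smul (by simp) z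

lemma bd_add_eq {ι A : Type} [CommRing A] [Algebra K A] {β : Basis ι K A} {e : ι → ℕ} {z w : A}
    (h : bd β e w < bd β e z) : bd β e (z + w) = bd β e z := by
  apply le_antisymm
  · exact (bd_add z w).trans (by rw [max_eq_left h.le])
  · by_contra hcon
    push Not at hcon
    have h1 := bd_add (b := β) (e := e) (z + w) (-w)
    rw [add_neg_cancel_right, bd_neg] at h1
    exact absurd (h1.trans_lt (max_lt hcon h)) (lt_irrefl _)

include hρ hb in
/-- the degree of a product of two elements -/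
lemma amd_mul {x : S₁} {y : S₂} {i j : ℕ} (hx : G₁.d x = i) (hy : G₂.d y = j) :
    amd (b := b) G₁ G₂ hα ha (Am.i1 K α ρ x * Am.i2 K α ρ y) = ((b * i + a * j : ℕ) : WithBot ℕ) := by
  have hx0 := G₁.ne_zero hx
  have hy0 := G₂.ne_zero hy
  obtain ⟨⟨m, k⟩, c, hc, hp, hp'⟩ := bd_lead (b := G₁.bas hα ha) (G₁.fam_inj hα ha) hx0
  rw [← G₁.d_eq_bd (G₁.bas hα ha) (fun p => (p.1 : ℕ) + p.2 * a) (G₁.fam_inj hα ha)
    (G₁.bas_d hα ha)] at hp hp'
  simp only at hp hp'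
  have hi : i = (m : ℕ) + k * a := by rw [hx] at hp; exact_mod_cast hp
  have hy1 : G₂.d (ρ ^ k * y) = ((k * b + j : ℕ) : WithBot ℕ) := by
    rw [G₂.mul, G₂.pow hρ, hy, Nat.mul_comm b, Nat.cast_add]
  obtain ⟨l, c', hc', hl, hl'⟩ := bd_lead (b := G₂.elB) (e := fun n : G₂.deg => (n : ℕ))
    Subtype.val_injective (G₂.ne_zero hy1)
  rw [← G₂.d_eq_bd G₂.elB (fun n => (n : ℕ)) Subtype.val_injective G₂.elB_d] at hl hl'
  have hj : (l : ℕ) = k * b + j := by rw [hy1] at hl; exact_mod_cast hl.symm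
  have e1 : Am.i1 K α ρ (c • G₁.bas hα ha (m, k)) * Am.i2 K α ρ y =
      c • (Am.i1 K α ρ (G₁.el ⟨m, m.2.1⟩) * Am.i2 K α ρ (ρ ^ k * y)) := by
    rw [bas_apply, map_smul, smul_mul_assoc, map_mul, map_pow, Am.comm, ← map_pow, mul_assoc,
      ← map_mul]
  have e2 : Am.i1 K α ρ (G₁.el ⟨m, m.2.1⟩) * Am.i2 K α ρ (ρ ^ k * y) =
      c' • amb G₁ G₂ hα ha (ρ := ρ) (m, l) +
      Am.i1 K α ρ (G₁.el ⟨m, m.2.1⟩) * Am.i2 K α ρ (ρ ^ k * y - c' • G₂.elB l) := by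
    rw [amb_apply, map_sub, mul_sub, map_smul, mul_smul_comm]
    ring
  have e3 : Am.i1 K α ρ x * Am.i2 K α ρ y =
      (c * c') • amb G₁ G₂ hα ha (ρ := ρ) (m, l) +
      (c • (Am.i1 K α ρ (G₁.el ⟨m, m.2.1⟩) * Am.i2 K α ρ (ρ ^ k * y - c' • G₂.elB l)) +
      Am.i1 K α ρ (x - c • G₁.bas hα ha (m, k)) * Am.i2 K α ρ y) := by
    have : Am.i1 K α ρ x * Am.i2 K α ρ y = Am.i1 K α ρ (c • G₁.bas hα ha (m, k)) * Am.i2 K α ρ y +
      Am.i1 K α ρ (x - c • G₁.bas hα ha (m, k)) * Am.i2 K α ρ y := by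
      rw [map_sub]; ring
    rw [this, e1, e2, smul_add, smul_smul]
    ring
  have hn : b * (m : ℕ) + a * (l : ℕ) = b * i + a * j := by
    rw [hj, hi]; ring
  have f1 : amd (b := b) G₁ G₂ hα ha ((c * c') • amb G₁ G₂ hα ha (ρ := ρ) (m, l)) =
      ((b * i + a * j : ℕ) : WithBot ℕ) := by
    unfold amd
    rw [bd_smul (mul_ne_zero hc hc'), bd_self]
    unfold ame
    simp only
    rw [hn]
  have f2 : amd (b := b) G₁ G₂ hα ha
      (c • (Am.i1 K α ρ (G₁.el ⟨m, m.2.1⟩) * Am.i2 K α ρ (ρ ^ k * y - c' • G₂.elB l))) <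
      ((b * i + a * j : ℕ) : WithBot ℕ) := by
    by_cases h0 : ρ ^ k * y - c' • G₂.elB l = 0
    · rw [h0, map_zero, mul_zero, smul_zero]
      unfold amd
      rw [bd_zero]
      exact WithBot.bot_lt_coe _
    · obtain ⟨l', h'⟩ := G₂.exists_nat h0
      have g1 := amd_le (b := b) G₁ G₂ hα hρ ha (G₁.el_d ⟨m, m.2.1⟩).le h'.le
      have g2 : l' < l := by rw [h'] at hl'; exact_mod_cast hl'
      refine (bd_smul_le _ _).trans_lt (g1.trans_lt ?_)
      have g3 : a * l' < a * l := Nat.mul_lt_mul_of_pos_left g2 ha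
      exact_mod_cast (by simp only; omega)
  have f3 : amd (b := b) G₁ G₂ hα ha (Am.i1 K α ρ (x - c • G₁.bas hα ha (m, k)) * Am.i2 K α ρ y) <
      ((b * i + a * j : ℕ) : WithBot ℕ) := by
    by_cases h0 : x - c • G₁.bas hα ha (m, k) = 0
    · rw [h0, map_zero, zero_mul]
      unfold amd
      rw [bd_zero]
      exact WithBot.bot_lt_coe _
    · obtain ⟨i', h'⟩ := G₁.exists_nat h0
      have g1 := amd_le (b := b) G₁ G₂ hα hρ ha h'.le hy.le
      have g2 : i' < i := by rw [h', ← hi] at hp'; exact_mod_cast hp'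
      refine g1.trans_lt ?_
      have g3 : b * i' < b * i := Nat.mul_lt_mul_of_pos_left g2 hb
      exact_mod_cast (by omega)
  rw [e3]
  unfold amd at *
  rw [bd_add_eq, f1]
  rw [f1]
  exact (bd_add _ _).trans_lt (max_lt f2 f3)

include ha hb hab in
/-- all large numbers are `b * i + a * j` with `i`, `j` large -/
lemma amt (N₁ N₂ : ℕ) {n : ℕ} (hn : b * (N₁ + a) + a * N₂ ≤ n) :
    ∃ i j, N₁ ≤ i ∧ N₂ ≤ j ∧ n = b * i + a * j := by
  have hab' : Nat.Coprime b a := hab.symm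
  obtain ⟨t, ht⟩ := Nat.exists_mul_mod_eq_of_coprime (n - b * N₁) hab' (by omega)
  have h1 : b * t ≡ n - b * N₁ [MOD a] := ht.2
  have h2 : t < a := ht.1
  have h3 : b * t ≤ b * a := Nat.mul_le_mul_left b h2.le
  have h4 : b * (N₁ + a) = b * N₁ + b * a := by ring
  obtain ⟨j, hj⟩ := (Nat.modEq_iff_dvd' (by omega)).1 h1
  refine ⟨N₁ + t, j, by omega, ?_, ?_⟩
  · have : a * N₂ ≤ a * j := by omega
    exact Nat.le_of_mul_le_mul_left this ha
  · rw [mul_add]; omega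

/-- the degree function of the amalgam -/
noncomputable def am : Dg K (Am K α ρ) :=
  ofBasis (amb G₁ G₂ hα ha) (ame G₁ G₂ a b) (ame_inj G₁ G₂ hα ha hab) (by
    rintro ⟨m, l⟩ ⟨m', l'⟩
    rw [amb_apply, amb_apply]
    have h1 : Am.i1 K α ρ (G₁.el ⟨m, m.2.1⟩) * Am.i2 K α ρ (G₂.elB l) *
        (Am.i1 K α ρ (G₁.el ⟨m', m'.2.1⟩) * Am.i2 K α ρ (G₂.elB l')) =
        Am.i1 K α ρ (G₁.el ⟨m, m.2.1⟩ * G₁.el ⟨m', m'.2.1⟩) *
        Am.i2 K α ρ (G₂.elB l * G₂.elB l') := by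
      rw [map_mul, map_mul]; ring
    have h2 : G₁.d (G₁.el ⟨m, m.2.1⟩ * G₁.el ⟨m', m'.2.1⟩) = ((m + m' : ℕ) : WithBot ℕ) := by
      rw [G₁.mul, G₁.el_d, G₁.el_d, Nat.cast_add]
    have h3 : G₂.d (G₂.elB l * G₂.elB l') = ((l + l' : ℕ) : WithBot ℕ) := by
      rw [G₂.mul, G₂.elB_d, G₂.elB_d, Nat.cast_add]
    have h4 := amd_mul (b := b) G₁ G₂ hα hρ ha hb h2 h3
    rw [h1]
    unfold amd at h4
    rw [h4]
    unfold ame
    simp only
    congr 1
    ring) (by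
    obtain ⟨N₁, h1⟩ := G₁.tail
    obtain ⟨N₂, h2⟩ := G₂.tail
    refine ⟨b * (N₁ + a) + a * N₂, fun n hn => ?_⟩
    obtain ⟨i, j, hi, hj, rfl⟩ := amt ha hb hab N₁ N₂ hn
    obtain ⟨x, hx⟩ := h1 i hi
    obtain ⟨y, hy⟩ := h2 j hj
    have h4 := amd_mul (b := b) G₁ G₂ hα hρ ha hb hx hy
    have h5 : Am.i1 K α ρ x * Am.i2 K α ρ y ≠ 0 := by
      intro h
      unfold amd at h4
      rw [h, bd_zero] at h4
      exact WithBot.bot_ne_coe h4
    obtain ⟨p, c, hc, hp, _⟩ := bd_lead (b := amb G₁ G₂ hα ha (ρ := ρ)) (ame_inj G₁ G₂ hα ha hab) h5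
    refine ⟨p, ?_⟩
    unfold amd at h4
    rw [h4] at hp
    exact_mod_cast hp.symm)

/-- `d (x * y) = b * d x + a * d y` -/
theorem am_mul {x : S₁} {y : S₂} {i j : ℕ} (hx : G₁.d x = i) (hy : G₂.d y = j) :
    (am G₁ G₂ hα hρ ha hb hab).d (Am.i1 K α ρ x * Am.i2 K α ρ y) =
      ((b * i + a * j : ℕ) : WithBot ℕ) :=
  amd_mul (b := b) G₁ G₂ hα hρ ha hb hx hy

theorem am_i1 {x : S₁} {i : ℕ} (hx : G₁.d x = i) :
    (am G₁ G₂ hα hρ ha hb hab).d (Am.i1 K α ρ x) = ((b * i : ℕ) : WithBot ℕ) := by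
  have := am_mul G₁ G₂ hα hρ ha hb hab hx (j := 0) (by rw [G₂.one]; rfl)
  rwa [map_one, mul_one, mul_zero, add_zero] at this

theorem am_i2 {y : S₂} {j : ℕ} (hy : G₂.d y = j) :
    (am G₁ G₂ hα hρ ha hb hab).d (Am.i2 K α ρ y) = ((a * j : ℕ) : WithBot ℕ) := by
  have := am_mul G₁ G₂ hα hρ ha hb hab (i := 0) (by rw [G₁.one]; rfl) hy
  rwa [map_one, one_mul, mul_zero, zero_add] at this

include G₁ G₂ hα hρ ha hb hab in
theorem am_i1_inj : Function.Injective (Am.i1 K α ρ) := by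
  rw [injective_iff_map_eq_zero]
  intro x hx
  by_contra h
  obtain ⟨i, hi⟩ := G₁.exists_nat h
  have := am_i1 G₁ G₂ hα hρ ha hb hab hi
  rw [hx, Dg.zero] at this
  exact WithBot.bot_ne_coe this

include G₁ G₂ hα hρ ha hb hab in
theorem am_i2_inj : Function.Injective (Am.i2 K α ρ) := by
  rw [injective_iff_map_eq_zero]
  intro x hx
  by_contra h
  obtain ⟨i, hi⟩ := G₂.exists_nat h
  have := am_i2 G₁ G₂ hα hρ ha hb hab hi
  rw [hx, Dg.zero] at this
  exact WithBot.bot_ne_coe this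

end Dg

end CV
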