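import Pool.Agent.Lib.MP_f80667_ag.Cv.DgQ

/-!
# Degree functions from a basis, and base change

* `bd b e x`: the largest index in the support of `x`, for a basis `b : Basis ι K A` and `e : ι → ℕ`.
* `Dg.ofBasis`: if `e` is injective, cofinite and `bd (b i * b j) = e i + e j`, this is a degree
  function.
* `Dg.exists_basis`: every degree function comes from a basis `b n`, `n` in the set of degrees, with
  `d (b n) = n`.
* `Dg.bc`: base change to a field `K'` over `K`, with `Dg.bc_tmul`.
-/

set_option autoImplicit false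

open Module TensorProduct

namespace CV

section basis

variable {ι K A : Type} [Field K] [CommRing A] [Algebra K A] (b : Basis ι K A) (e : ι → ℕ)

/-- the largest index in the support -/
noncomputable def bd (x : A) : WithBot ℕ := (b.repr x).support.sup (fun i => ((e i : ℕ) : WithBot ℕ))

variable {b e}

lemma bd_le_iff {x : A} {n : WithBot ℕ} :
    bd b e x ≤ n ↔ ∀ i, b.repr x i ≠ 0 → ((e i : ℕ) : WithBot ℕ) ≤ n := by
  unfold bd
  rw [Finset.sup_le_iff]
  simp only [Finsupp.mem_support_iff]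

lemma bd_bot {x : A} : bd b e x = ⊥ ↔ x = 0 := by
  rw [← le_bot_iff, bd_le_iff]
  constructor
  · intro h
    rw [← b.repr.map_eq_zero_iff]
    ext i
    by_contra hi
    exact WithBot.coe_ne_bot (le_bot_iff.1 (h i hi))
  · rintro rfl i hi
    simp at hi

variable (b e) in
lemma bd_zero : bd b e 0 = ⊥ := bd_bot.2 rfl

lemma bd_add (x y : A) : bd b e (x + y) ≤ max (bd b e x) (bd b e y) := by
  rw [bd_le_iff]
  intro i hi
  rw [map_add, Finsupp.add_apply] at hi
  by_cases h : b.repr x i = 0
  · rw [h, zero_add] at hi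
    exact le_max_of_le_right (bd_le_iff.1 le_rfl i hi)
  · exact le_max_of_le_left (bd_le_iff.1 le_rfl i h)

lemma bd_smul_le (c : K) (x : A) : bd b e (c • x) ≤ bd b e x := by
  rw [bd_le_iff]
  intro i hi
  rw [map_smul, Finsupp.smul_apply, smul_eq_mul] at hi
  exact bd_le_iff.1 le_rfl i (right_ne_zero_of_mul hi)

lemma bd_smul {c : K} (hc : c ≠ 0) (x : A) : bd b e (c • x) = bd b e x := by
  apply le_antisymm (bd_smul_le c x)
  have := bd_smul_le (b := b) (e := e) c⁻¹ (c • x)
  rwa [smul_smul, inv_mul_cancel₀ hc, one_smul] at this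

lemma bd_sum_le {κ : Type} (s : Finset κ) (f : κ → A) (n : WithBot ℕ)
    (h : ∀ i ∈ s, bd b e (f i) ≤ n) : bd b e (∑ i ∈ s, f i) ≤ n := by
  classical
  induction s using Finset.induction_on with
  | empty =>
    rw [Finset.sum_empty]
    exact (bd_zero b e).le.trans bot_le
  | insert a s ha ih =>
    rw [Finset.sum_insert ha]
    refine (bd_add _ _).trans (max_le (h a (Finset.mem_insert_self _ _)) ?_)
    exact ih (fun i hi => h i (Finset.mem_insert_of_mem hi))

lemma bd_self (i : ι) : bd b e (b i) = ((e i : ℕ) : WithBot ℕ) := by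
  unfold bd
  rw [b.repr_self, Finsupp.support_single _ (one_ne_zero)]
  simp

variable (hT : ∀ i j, bd b e (b i * b j) = ((e i + e j : ℕ) : WithBot ℕ))

include hT in
lemma bd_mul_le (x y : A) : bd b e (x * y) ≤ bd b e x + bd b e y := by
  have hx := b.linearCombination_repr x
  have hy := b.linearCombination_repr y
  rw [Finsupp.linearCombination_apply, Finsupp.sum] at hx hy
  rw [← hx, ← hy, Finset.sum_mul_sum, hx, hy]
  refine bd_sum_le _ _ _ fun i hi => bd_sum_le _ _ _ fun j hj => ?_
  rw [smul_mul_smul_comm]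
  refine (bd_smul_le _ _).trans ?_
  rw [hT, Nat.cast_add]
  exact add_le_add (bd_le_iff.1 le_rfl i (Finsupp.mem_support_iff.1 hi))
    (bd_le_iff.1 le_rfl j (Finsupp.mem_support_iff.1 hj))

variable (he : Function.Injective e)

include he in
/-- leading term -/
lemma bd_lead {x : A} (hx : x ≠ 0) : ∃ (i : ι) (c : K), c ≠ 0 ∧ bd b e x = ((e i : ℕ) : WithBot ℕ) ∧
    bd b e (x - c • b i) < ((e i : ℕ) : WithBot ℕ) := by
  classical
  have h0 : (b.repr x).support.Nonempty := by
    rw [Finsupp.support_nonempty_iff]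
    intro h
    exact hx ((b.repr.map_eq_zero_iff).1 h)
  obtain ⟨i, hi, hi'⟩ := Finset.exists_mem_eq_sup _ h0 (fun i => ((e i : ℕ) : WithBot ℕ))
  refine ⟨i, b.repr x i, Finsupp.mem_support_iff.1 hi, hi', ?_⟩
  have h1 : bd b e x = ((e i : ℕ) : WithBot ℕ) := hi'
  rcases eq_or_ne (x - b.repr x i • b i) 0 with h2 | h2
  · rw [h2, bd_zero]
    exact WithBot.bot_lt_coe _
  refine lt_of_le_of_ne ?_ ?_
  · rw [bd_le_iff]
    intro j hj
    rw [map_sub, map_smul, b.repr_self, Finsupp.sub_apply, Finsupp.smul_apply,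
      Finsupp.single_apply] at hj
    by_cases hij : i = j
    · subst hij
      simp at hj
    · rw [if_neg hij] at hj
      simp only [smul_eq_mul, mul_zero, sub_zero] at hj
      exact h1 ▸ bd_le_iff.1 le_rfl j hj
  · intro h3
    have h4 : (b.repr (x - b.repr x i • b i)).support.Nonempty := by
      rw [Finsupp.support_nonempty_iff]
      intro h
      exact h2 ((b.repr.map_eq_zero_iff).1 h)
    obtain ⟨j, hj, hj'⟩ := Finset.exists_mem_eq_sup _ h4 (fun i => ((e i : ℕ) : WithBot ℕ))
    have h5 : ((e j : ℕ) : WithBot ℕ) = ((e i : ℕ) : WithBot ℕ) := by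
      rw [← h3]; exact hj'.symm
    have h6 : j = i := he (by exact_mod_cast h5)
    subst h6
    rw [Finsupp.mem_support_iff] at hj
    apply hj
    simp

lemma lt_of_bd {a c n : WithBot ℕ} (h : a ≤ max c n) (hc : c < n) : a ≤ n :=
  h.trans (max_le hc.le le_rfl)

include hT he in
lemma bd_mul (x y : A) : bd b e (x * y) = bd b e x + bd b e y := by
  rcases eq_or_ne x 0 with rfl | hx
  · rw [zero_mul, bd_zero b e, WithBot.bot_add]
  rcases eq_or_ne y 0 with rfl | hy
  · rw [mul_zero, bd_zero b e, WithBot.add_bot]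
  apply le_antisymm (bd_mul_le hT x y)
  obtain ⟨i, c, hc, hi, hi'⟩ := bd_lead (b := b) he hx
  obtain ⟨j, c', hc', hj, hj'⟩ := bd_lead (b := b) he hy
  rw [hi, hj]
  by_contra hcon
  push Not at hcon
  have h1 : (c * c') • (b i * b j) = x * y - (x - c • b i) * y - (c • b i) * (y - c' • b j) := by
    rw [mul_smul, sub_mul, mul_sub, mul_smul_comm, smul_mul_assoc, smul_mul_assoc]
    rw [smul_comm c' c]
    ring
  have h2 : bd b e ((c * c') • (b i * b j)) = ((e i + e j : ℕ) : WithBot ℕ) := by
    rw [bd_smul (mul_ne_zero hc hc'), hT]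
  have neg : ∀ z : A, bd b e (-z) = bd b e z := fun z => by
    rw [← neg_one_smul K z]; exact bd_smul (by simp) z
  have key : ∀ z : A, bd b e z < (e i : WithBot ℕ) + (e j : WithBot ℕ) → ∀ w : A,
      bd b e w < (e i : WithBot ℕ) + (e j : WithBot ℕ) →
      bd b e (z - w) < (e i : WithBot ℕ) + (e j : WithBot ℕ) := by
    intro z hz w hw
    rw [sub_eq_add_neg]
    exact (bd_add _ _).trans_lt (max_lt hz (by rw [neg]; exact hw))
  have lt_add : ∀ a : WithBot ℕ, a < (e i : WithBot ℕ) → a + (e j : WithBot ℕ) <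
      (e i : WithBot ℕ) + (e j : WithBot ℕ) := by
    intro a ha
    cases a with
    | bot => rw [WithBot.bot_add]; exact WithBot.bot_lt_coe _
    | coe k =>
      change ((k : ℕ) : WithBot ℕ) < _ at ha
      change ((k : ℕ) : WithBot ℕ) + _ < _
      have : k < e i := by exact_mod_cast ha
      exact_mod_cast (by omega : k + e j < e i + e j)
  have lt_add' : ∀ a : WithBot ℕ, a < (e j : WithBot ℕ) → (e i : WithBot ℕ) + a <
      (e i : WithBot ℕ) + (e j : WithBot ℕ) := by
    intro a ha
    cases a with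
    | bot => rw [WithBot.add_bot]; exact WithBot.bot_lt_coe _
    | coe k =>
      change ((k : ℕ) : WithBot ℕ) < _ at ha
      change _ + ((k : ℕ) : WithBot ℕ) < _
      have : k < e j := by exact_mod_cast ha
      exact_mod_cast (by omega : e i + k < e i + e j)
  have h3 : bd b e ((x - c • b i) * y) < (e i : WithBot ℕ) + (e j : WithBot ℕ) := by
    refine (bd_mul_le hT _ _).trans_lt ?_
    rw [hj]
    exact lt_add _ hi'
  have h4 : bd b e ((c • b i) * (y - c' • b j)) < (e i : WithBot ℕ) + (e j : WithBot ℕ) := by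
    refine (bd_mul_le hT _ _).trans_lt ?_
    rw [bd_smul hc, bd_self]
    exact lt_add' _ hj'
  have h5 := key _ (key _ hcon _ h3) _ h4
  rw [← h1, h2, Nat.cast_add] at h5
  exact lt_irrefl _ h5

include he in
lemma bd_lead2 (x y : A) (hy : y ≠ 0) (hxy : bd b e x = bd b e y) :
    ∃ c : K, bd b e (x - c • y) < bd b e y := by
  obtain ⟨j, c', hc', hj, hj'⟩ := bd_lead (b := b) he hy
  have hx : x ≠ 0 := by
    rintro rfl
    rw [bd_zero b e, hj] at hxy
    exact WithBot.bot_ne_coe hxy
  obtain ⟨i, c, hc, hi, hi'⟩ := bd_lead (b := b) he hx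
  have hij : i = j := he (by
    have : ((e i : ℕ) : WithBot ℕ) = ((e j : ℕ) : WithBot ℕ) := by rw [← hi, hxy, hj]
    exact_mod_cast this)
  subst hij
  refine ⟨c / c', ?_⟩
  have h1 : x - (c / c') • y = (x - c • b i) + (-(c / c')) • (y - c' • b i) := by
    rw [smul_sub, smul_smul, neg_mul, div_mul_cancel₀ _ hc', neg_smul, neg_smul]
    ring
  rw [h1, hj]
  exact (bd_add _ _).trans_lt (max_lt hi' ((bd_smul_le _ _).trans_lt hj'))

end basis

namespace Dg

variable {ι K A : Type} [Field K] [CommRing A] [Algebra K A]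

/-- the degree function of a basis -/
noncomputable def ofBasis (b : Basis ι K A) (e : ι → ℕ) (he : Function.Injective e)
    (hT : ∀ i j, bd b e (b i * b j) = ((e i + e j : ℕ) : WithBot ℕ))
    (hn : ∃ n₀ : ℕ, ∀ n : ℕ, n₀ ≤ n → ∃ i, e i = n) : Dg K A where
  d := bd b e
  bot _ := bd_bot
  mul := bd_mul hT he
  add := bd_add
  lead := bd_lead2 he
  tail := by
    obtain ⟨n₀, h⟩ := hn
    refine ⟨n₀, fun n hn => ?_⟩
    obtain ⟨i, rfl⟩ := h n hn
    exact ⟨b i, bd_self i⟩

@[simp] lemma ofBasis_d (b : Basis ι K A) (e : ι → ℕ) (he : Function.Injective e)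
    (hT : ∀ i j, bd b e (b i * b j) = ((e i + e j : ℕ) : WithBot ℕ))
    (hn : ∃ n₀ : ℕ, ∀ n : ℕ, n₀ ≤ n → ∃ i, e i = n) (x : A) :
    (ofBasis b e he hT hn).d x = bd b e x := rfl

variable (G : Dg K A)

/-- the set of degrees -/
def deg : Set ℕ := {n | ∃ x, G.d x = n}

/-- Elements of different degrees are linearly independent. -/
theorem linearIndependent {κ : Type} (s : κ → A) (e : κ → ℕ) (he : Function.Injective e)
    (hs : ∀ i, G.d (s i) = e i) : LinearIndependent K s := by
  classical
  have h1 : ∀ (t : Finset κ) (c : κ → K), (∃ i ∈ t, c i ≠ 0) → ∃ i ∈ t, c i ≠ 0 ∧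
      G.d (∑ j ∈ t, c j • s j) = e i := by
    intro t c
    induction t using Finset.induction_on with
    | empty => rintro ⟨i, hi, _⟩; exact absurd hi (Finset.notMem_empty i)
    | insert a t ha ih =>
      rintro ⟨i, hi, hc⟩
      rw [Finset.sum_insert ha]
      by_cases hca : c a = 0
      · rw [hca, zero_smul, zero_add]
        have hit : i ∈ t := by
          rcases Finset.mem_insert.1 hi with h | h
          · rw [h] at hc; exact absurd hca hc
          · exact h
        obtain ⟨j, hj, hcj, hd⟩ := ih ⟨i, hit, hc⟩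
        exact ⟨j, Finset.mem_insert_of_mem hj, hcj, hd⟩
      · have h2 : G.d (c a • s a) = e a := by rw [G.smul hca, hs]
        by_cases h3 : ∃ i ∈ t, c i ≠ 0
        · obtain ⟨j, hj, hcj, hd⟩ := ih h3
          have hne : e a ≠ e j := fun h => ha (by rw [he h]; exact hj)
          rcases lt_or_gt_of_ne hne with h | h
          · refine ⟨j, Finset.mem_insert_of_mem hj, hcj, ?_⟩
            rw [← hd]
            apply G.add_eq
            rw [h2, hd]
            exact_mod_cast h
          · refine ⟨a, Finset.mem_insert_self _ _, hca, ?_⟩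
            rw [← h2]
            apply G.add_eq'
            rw [h2, hd]
            exact_mod_cast h
        · push Not at h3
          refine ⟨a, Finset.mem_insert_self _ _, hca, ?_⟩
          rw [Finset.sum_eq_zero (fun j hj => by rw [h3 j hj, zero_smul]), add_zero, h2]
  rw [linearIndependent_iff']
  intro t c hsum i hi
  by_contra hc
  obtain ⟨j, _, _, hd⟩ := h1 t c ⟨i, hi, hc⟩
  rw [hsum, G.zero] at hd
  exact WithBot.bot_ne_coe hd

theorem span_eq_top {κ : Type} (s : κ → A) (e : κ → ℕ) (hs : ∀ i, G.d (s i) = e i)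
    (hsur : ∀ n ∈ G.deg, ∃ i, e i = n) : ⊤ ≤ Submodule.span K (Set.range s) := by
  have h : ∀ n, G.L n ≤ Submodule.span K (Set.range s) := by
    intro n
    induction n with
    | zero =>
      rw [G.L_zero, Submodule.span_le, Set.singleton_subset_iff]
      obtain ⟨i, hi⟩ := hsur 0 ⟨1, by rw [G.one]; rfl⟩
      have h1 : G.d (1 : A) = G.d (s i) := by rw [hs, hi, G.one]; rfl
      obtain ⟨c, hc⟩ := G.lead 1 (s i) (G.ne_zero (hs i)) h1
      rw [hs, hi] at hc
      have h2 := G.eq_zero_of_lt hc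
      rw [sub_eq_zero] at h2
      rw [SetLike.mem_coe, h2]
      exact Submodule.smul_mem _ _ (Submodule.subset_span ⟨i, rfl⟩)
    | succ n ih =>
      by_cases h : ∃ y, G.d y = ((n + 1 : ℕ) : WithBot ℕ)
      · obtain ⟨i, hi⟩ := hsur (n + 1) h
        rw [G.L_succ_le (y := s i) (by rw [hs, hi])]
        refine sup_le ih ?_
        rw [Submodule.span_le, Set.singleton_subset_iff]
        exact Submodule.subset_span ⟨i, rfl⟩
      · rw [G.L_succ_eq h]; exact ih
  intro x _
  obtain ⟨n, hn⟩ := G.exists_mem_L x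
  exact h n hn

/-- a family with exactly the degrees of `A` is a basis -/
noncomputable def basis {κ : Type} (s : κ → A) (e : κ → ℕ) (he : Function.Injective e)
    (hs : ∀ i, G.d (s i) = e i) (hsur : ∀ n ∈ G.deg, ∃ i, e i = n) : Basis κ K A :=
  Basis.mk (G.linearIndependent s e he hs) (G.span_eq_top s e hs hsur)

lemma basis_apply {κ : Type} (s : κ → A) (e : κ → ℕ) (he : Function.Injective e)
    (hs : ∀ i, G.d (s i) = e i) (hsur : ∀ n ∈ G.deg, ∃ i, e i = n) (i : κ) :
    G.basis s e he hs hsur i = s i := by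
  unfold basis; rw [Basis.mk_apply]

/-- the degree is the largest index in the support -/
lemma d_eq_bd {κ : Type} (b : Basis κ K A) (e : κ → ℕ) (he : Function.Injective e)
    (hs : ∀ i, G.d (b i) = e i) (x : A) : G.d x = bd b e x := by
  by_cases hx : x = 0
  · rw [hx, G.zero, bd_zero b e]
  obtain ⟨n, hn⟩ : ∃ n : ℕ, bd b e x = n := by
    obtain ⟨n, hn⟩ := WithBot.ne_bot_iff_exists.1 (fun h => hx ((bd_bot (b := b) (e := e)).1 h))
    exact ⟨n, hn.symm⟩
  induction n using Nat.strong_induction_on generalizing x with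
  | _ n ih =>
    obtain ⟨i, c, hc, hi, hi'⟩ := bd_lead (b := b) he hx
    rw [hi]
    by_cases h0 : x - c • b i = 0
    · rw [sub_eq_zero] at h0
      rw [h0, G.smul hc, hs]
    · obtain ⟨m, hm⟩ : ∃ m : ℕ, bd b e (x - c • b i) = m := by
        obtain ⟨n, hn⟩ := WithBot.ne_bot_iff_exists.1 (fun h => h0 ((bd_bot (b := b) (e := e)).1 h))
        exact ⟨n, hn.symm⟩
      have h1 : m < n := by
        rw [hm, ← hi, hn] at hi'
        exact_mod_cast hi'
      have h2 := ih m h1 _ h0 hm
      rw [show x = (x - c • b i) + c • b i by ring]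
      have h3 : G.d (c • b i) = e i := by rw [G.smul hc, hs]
      rw [← h3]
      apply G.add_eq
      rw [h3, h2]
      exact hi'

/-- one element of every degree -/
noncomputable def el (n : G.deg) : A := n.2.choose

lemma el_d (n : G.deg) : G.d (G.el n) = ((n : ℕ) : WithBot ℕ) := n.2.choose_spec

/-- the basis of the chosen elements -/
noncomputable def elB : Basis G.deg K A :=
  G.basis G.el (fun n => (n : ℕ)) Subtype.val_injective G.el_d (fun n hn => ⟨⟨n, hn⟩, rfl⟩)

lemma elB_d (n : G.deg) : G.d (G.elB n) = ((n : ℕ) : WithBot ℕ) := by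
  unfold elB; rw [basis_apply]; exact G.el_d n

variable (K' : Type) [Field K'] [Algebra K K']

lemma bd_baseChange {κ : Type} (b : Basis κ K A) (e : κ → ℕ) (x : A) :
    bd (b.baseChange K') e ((1 : K') ⊗ₜ[K] x) = bd b e x := by
  unfold bd
  congr 1
  ext i
  rw [Finsupp.mem_support_iff, Finsupp.mem_support_iff, Basis.baseChange_repr_tmul]
  simp [Algebra.smul_def]

/-- base change -/
noncomputable def bc : Dg K' (K' ⊗[K] A) :=
  ofBasis (G.elB.baseChange K') (fun n => (n : ℕ)) Subtype.val_injective (by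
    intro i j
    rw [Basis.baseChange_apply, Basis.baseChange_apply, Algebra.TensorProduct.tmul_mul_tmul,
      one_mul, bd_baseChange, ← G.d_eq_bd G.elB _ Subtype.val_injective G.elB_d, G.mul, G.elB_d,
      G.elB_d, Nat.cast_add]) (by
    obtain ⟨n₀, h⟩ := G.tail
    exact ⟨n₀, fun n hn => ⟨⟨n, h n hn⟩, rfl⟩⟩)

lemma bc_one_tmul (x : A) : (G.bc K').d ((1 : K') ⊗ₜ[K] x) = G.d x := by
  unfold bc
  rw [ofBasis_d, bd_baseChange, ← G.d_eq_bd G.elB _ Subtype.val_injective G.elB_d]

lemma bc_tmul {c : K'} (hc : c ≠ 0) (x : A) : (G.bc K').d (c ⊗ₜ[K] x) = G.d x := by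
  rw [show c ⊗ₜ[K] x = c • ((1 : K') ⊗ₜ[K] x) by rw [TensorProduct.smul_tmul', smul_eq_mul, mul_one],
    (G.bc K').smul hc, bc_one_tmul]

end Dg

end CV
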