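import Pool.Agent.Lib.MP_f80667_ag.Cv.Md
import Pool.Agent.Lib.MP_f80667_ag.Cv.DgT

/-!
# Models from bases

`Md.ofBases`: a model over a valuation ring `V` from bases `b`, `bL`, `bk` of `S`, `SL`, `Sk` with
`i (b j) = bL j`, `q (b j) = bk j`, the two degree functions and the tail. All other fields of `Md`
(also `le`) are consequences.
-/

set_option autoImplicit false

open IsLocalRing Module

namespace CV

namespace MdO

section rep

variable {V L ι S SL : Type} [CommRing V] [CommRing L] [Algebra V L] [CommRing S] [CommRing SL]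
  [Algebra V S] [Algebra L SL]
  {b : Basis ι V S} {bL : Basis ι L SL} {i : S →+* SL}
  (i_alg : ∀ c : V, i (algebraMap V S c) = algebraMap L SL (algebraMap V L c))
  (hi : ∀ j, i (b j) = bL j)

include i_alg in
lemma i_smul (c : V) (s : S) : i (c • s) = algebraMap V L c • i s := by
  rw [Algebra.smul_def, map_mul, i_alg, Algebra.smul_def]

include i_alg hi in
lemma repr_i (s : S) (j : ι) : bL.repr (i s) j = algebraMap V L (b.repr s j) := by
  classical
  have h : ∀ s ∈ Submodule.span V (Set.range b), ∀ j, bL.repr (i s) j = algebraMap V L (b.repr s j) := by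
    intro s hs
    refine Submodule.span_induction (p := fun s _ => ∀ j, bL.repr (i s) j =
      algebraMap V L (b.repr s j)) ?_ ?_ ?_ ?_ hs
    · rintro _ ⟨l, rfl⟩ j
      rw [hi, bL.repr_self, b.repr_self, Finsupp.single_apply, Finsupp.single_apply]
      split_ifs <;> simp
    · intro j; simp
    · intro x y _ _ hx hy j
      rw [map_add, map_add, Finsupp.add_apply, hx, hy, map_add, Finsupp.add_apply, map_add]
    · intro c x _ hx j
      rw [i_smul i_alg, map_smul, Finsupp.smul_apply, hx, map_smul, Finsupp.smul_apply, smul_eq_mul,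
        smul_eq_mul, map_mul]
  exact h s (b.mem_span s) j

end rep

variable {V L k ι S SL Sk : Type} [CommRing V] [IsDomain V] [ValuationRing V] [Field L] [Field k]
  [Algebra V L] [IsFractionRing V L] [Algebra V k] [CommRing S] [CommRing SL] [CommRing Sk]
  [Algebra V S] [Algebra L SL] [Algebra k Sk]
  (res_surj : Function.Surjective (algebraMap V k))
  (res_zero : ∀ c : V, algebraMap V k c = 0 ↔ c ∈ maximalIdeal V)
  (b : Basis ι V S) (bL : Basis ι L SL) (bk : Basis ι k Sk) (i : S →+* SL) (q : S →+* Sk)
  (i_alg : ∀ c : V, i (algebraMap V S c) = algebraMap L SL (algebraMap V L c))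
  (q_alg : ∀ c : V, q (algebraMap V S c) = algebraMap k Sk (algebraMap V k c))
  (hi : ∀ j, i (b j) = bL j) (hq : ∀ j, q (b j) = bk j)

/-- a common divisor among finitely many elements of a valuation ring -/
lemma exists_min {κ : Type} (s : Finset κ) (hs : s.Nonempty) (f : κ → V) :
    ∃ j ∈ s, ∀ l ∈ s, f j ∣ f l := by
  classical
  induction hs using Finset.Nonempty.cons_induction with
  | singleton a => exact ⟨a, by simp, by simp⟩
  | cons a s ha hs ih =>
    obtain ⟨j, hj, hd⟩ := ih
    rcases ValuationRing.dvd_total (f a) (f j) with h | h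
    · refine ⟨a, by simp, ?_⟩
      intro l hl
      rcases Finset.mem_cons.1 hl with rfl | hl
      · exact dvd_rfl
      · exact h.trans (hd l hl)
    · refine ⟨j, by simp [hj], ?_⟩
      intro l hl
      rcases Finset.mem_cons.1 hl with rfl | hl
      · exact h
      · exact hd l hl

include i_alg hi in
lemma inj : Function.Injective i := by
  rw [injective_iff_map_eq_zero]
  intro s hs
  rw [← b.repr.map_eq_zero_iff]
  ext j
  have := repr_i i_alg hi s j
  rw [hs, map_zero, Finsupp.zero_apply] at this
  apply IsFractionRing.injective V L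
  rw [Finsupp.zero_apply, map_zero]
  exact this.symm

include i_alg hi in
lemma loc (x : SL) : ∃ c : V, c ≠ 0 ∧ ∃ s : S, algebraMap L SL (algebraMap V L c) * x = i s := by
  classical
  have h : ∀ x ∈ Submodule.span L (Set.range bL), ∃ c : V, c ≠ 0 ∧ ∃ s : S,
      algebraMap L SL (algebraMap V L c) * x = i s := by
    intro x hx
    refine Submodule.span_induction (p := fun x _ => ∃ c : V, c ≠ 0 ∧ ∃ s : S,
      algebraMap L SL (algebraMap V L c) * x = i s) ?_ ?_ ?_ ?_ hx
    · rintro _ ⟨l, rfl⟩
      exact ⟨1, one_ne_zero, b l, by rw [hi]; simp⟩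
    · exact ⟨1, one_ne_zero, 0, by simp⟩
    · rintro x y _ _ ⟨c, hc, s, hs⟩ ⟨c', hc', s', hs'⟩
      refine ⟨c * c', mul_ne_zero hc hc', c' • s + c • s', ?_⟩
      rw [map_add, i_smul i_alg, i_smul i_alg, ← hs, ← hs', map_mul, map_mul, Algebra.smul_def,
        Algebra.smul_def]
      ring
    · rintro a x _ ⟨c, hc, s, hs⟩
      obtain ⟨a1, a2, h2, rfl⟩ := IsFractionRing.div_surjective (A := V) a
      have h3 : a2 ≠ 0 := nonZeroDivisors.ne_zero h2
      have h4 : algebraMap V L a2 ≠ 0 := fun e => h3 (by
        apply IsFractionRing.injective V L; rw [e, map_zero])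
      refine ⟨c * a2, mul_ne_zero hc h3, a1 • s, ?_⟩
      rw [i_smul i_alg, ← hs, Algebra.smul_def, Algebra.smul_def]
      rw [show algebraMap L SL (algebraMap V L (c * a2)) * (algebraMap L SL (algebraMap V L a1 /
        algebraMap V L a2) * x) = algebraMap L SL (algebraMap V L c) * (algebraMap L SL
        (algebraMap V L a2) * algebraMap L SL (algebraMap V L a1 / algebraMap V L a2)) * x by
        rw [map_mul, map_mul]; ring]
      rw [← map_mul, mul_div_cancel₀ _ h4]
      ring
  exact h x (bL.mem_span x)

include res_surj q_alg hq in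
lemma surj : Function.Surjective q := by
  intro x
  have h : ∀ x ∈ Submodule.span k (Set.range bk), ∃ s, q s = x := by
    intro x hx
    refine Submodule.span_induction (p := fun x _ => ∃ s, q s = x) ?_ ?_ ?_ ?_ hx
    · rintro _ ⟨l, rfl⟩
      exact ⟨b l, hq l⟩
    · exact ⟨0, map_zero _⟩
    · rintro x y _ _ ⟨s, rfl⟩ ⟨s', rfl⟩
      exact ⟨s + s', map_add _ _ _⟩
    · rintro a x _ ⟨s, rfl⟩
      obtain ⟨c, rfl⟩ := res_surj a
      exact ⟨c • s, i_smul q_alg c s⟩
  exact h x (bk.mem_span x)

include q_alg hq in
lemma prim (s : S) (hs : s ≠ 0) : ∃ (c : V) (t : S), s = algebraMap V S c * t ∧ q t ≠ 0 := by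
  classical
  have h0 : (b.repr s).support.Nonempty := by
    rw [Finsupp.support_nonempty_iff]
    intro h
    exact hs ((b.repr.map_eq_zero_iff).1 h)
  obtain ⟨j, hj, hd⟩ := exists_min (b.repr s).support h0 (b.repr s)
  set c := b.repr s j with hc
  have hc0 : c ≠ 0 := Finsupp.mem_support_iff.1 hj
  choose! g hg using hd
  refine ⟨c, ∑ l ∈ (b.repr s).support, g l • b l, ?_, ?_⟩
  · rw [← Algebra.smul_def, Finset.smul_sum]
    conv_lhs => rw [← b.linearCombination_repr s, Finsupp.linearCombination_apply, Finsupp.sum]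
    refine Finset.sum_congr rfl fun l hl => ?_
    rw [smul_smul, ← hg l hl]
  · intro h
    have h1 : g j = 1 := by
      have := hg j hj
      rw [← hc] at this
      exact mul_left_cancel₀ hc0 (by rw [mul_one]; exact this.symm)
    have h2 := repr_i q_alg hq (∑ l ∈ (b.repr s).support, g l • b l) j
    rw [h, map_zero, Finsupp.zero_apply, map_sum, Finsupp.finsetSum_apply,
      Finset.sum_eq_single j] at h2
    · rw [map_smul, b.repr_self, Finsupp.smul_apply, Finsupp.single_eq_same, h1, smul_eq_mul,
        mul_one, map_one] at h2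
      exact zero_ne_one h2
    · intro l _ hlj
      rw [map_smul, b.repr_self, Finsupp.smul_apply, Finsupp.single_eq_of_ne hlj.symm, smul_zero]
    · intro h; exact absurd hj h

include i_alg hi in
lemma fin (DL : Dg L SL) (n : ℕ) : ∃ t : Finset S, ∀ s : S, DL.d (i s) ≤ n →
    s ∈ Submodule.span V (t : Set S) := by
  classical
  have h1 : (DL.L n).FG := by
    rw [← Module.Finite.iff_fg]; exact DL.finite_L n
  obtain ⟨u, hu⟩ := h1
  set T : Finset ι := u.biUnion (fun x => (bL.repr x).support) with hT
  have h2 : ∀ x ∈ DL.L n, (bL.repr x).support ⊆ T := by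
    intro x hx
    rw [← hu] at hx
    refine Submodule.span_induction (p := fun x _ => (bL.repr x).support ⊆ T) ?_ ?_ ?_ ?_ hx
    · intro x hx l hl
      exact Finset.mem_biUnion.2 ⟨x, hx, hl⟩
    · simp
    · intro x y _ _ hx hy
      rw [map_add]
      exact Finsupp.support_add.trans (Finset.union_subset hx hy)
    · intro c x _ hx
      rw [map_smul]
      exact Finsupp.support_smul.trans hx
  refine ⟨T.image b, ?_⟩
  intro s hs
  have h3 := h2 _ (DL.mem_L.2 hs)
  rw [← b.linearCombination_repr s, Finsupp.linearCombination_apply, Finsupp.sum]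
  refine Submodule.sum_mem _ fun l hl => Submodule.smul_mem _ _ ?_
  refine Submodule.subset_span ?_
  rw [Finset.coe_image]
  refine ⟨l, ?_, rfl⟩
  apply h3
  rw [Finsupp.mem_support_iff, repr_i i_alg hi]
  intro e
  rw [Finsupp.mem_support_iff] at hl
  exact hl (IsFractionRing.injective V L (by rw [e, map_zero]))

include i_alg q_alg in
/-- elements whose reductions are independent are independent over `L` -/
lemma indep (hinj : Function.Injective i) {κ : Type} [Finite κ] (s : κ → S)
    (h : LinearIndependent k (fun j => q (s j))) : LinearIndependent L (fun j => i (s j)) := by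
  classical
  cases nonempty_fintype κ
  rw [Fintype.linearIndependent_iff] at h ⊢
  intro c hc
  by_contra hcon
  push Not at hcon
  obtain ⟨j₀, hj₀⟩ := hcon
  obtain ⟨⟨d, hd⟩, hd'⟩ := IsLocalization.exist_integer_multiples_of_finite (nonZeroDivisors V) c
  choose g hg using hd'
  have hd0 : algebraMap V L d ≠ 0 := fun e => nonZeroDivisors.ne_zero hd (by
        apply IsFractionRing.injective V L; rw [e, map_zero])
  have hg' : ∀ j, algebraMap V L (g j) = algebraMap V L d * c j := by
    intro j
    have := hg j
    rw [Algebra.smul_def] at this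
    exact this
  have h1 : ∑ j, g j • s j = 0 := by
    apply hinj
    rw [map_zero, map_sum]
    have : ∀ j, i (g j • s j) = (algebraMap V L d) • (c j • i (s j)) := by
      intro j
      rw [i_smul i_alg, hg', mul_smul]
    rw [Finset.sum_congr rfl (fun j _ => this j), ← Finset.smul_sum, hc, smul_zero]
  obtain ⟨j, _, hj⟩ := exists_min (Finset.univ : Finset κ) ⟨j₀, Finset.mem_univ _⟩ g
  have hgj : g j ≠ 0 := by
    intro e
    have h2 := hj j₀ (Finset.mem_univ _)
    rw [e, zero_dvd_iff] at h2
    have h3 := hg' j₀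
    rw [h2, map_zero] at h3
    exact mul_ne_zero hd0 hj₀ h3.symm
  choose! g' hg2 using hj
  have h4 : ∑ l, g' l • s l = 0 := by
    have h5 : g j • ∑ l, g' l • s l = 0 := by
      rw [Finset.smul_sum, ← h1]
      refine Finset.sum_congr rfl fun l hl => ?_
      rw [smul_smul, ← hg2 l (Finset.mem_univ _)]
    apply hinj
    have h6 := congrArg i h5
    rw [i_smul i_alg, map_zero] at h6
    rw [map_zero]
    have h7 : algebraMap V L (g j) ≠ 0 := fun e => hgj (by
        apply IsFractionRing.injective V L; rw [e, map_zero])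
    exact (smul_eq_zero_iff_right h7).1 h6
  have h8 := congrArg q h4
  rw [map_zero, map_sum] at h8
  rw [Finset.sum_congr rfl (fun l _ => i_smul q_alg (g' l) (s l))] at h8
  have h9 := h _ h8 j
  have h10 : g' j = 1 := by
    have := hg2 j (Finset.mem_univ _)
    exact mul_left_cancel₀ hgj (by rw [mul_one]; exact this.symm)
  rw [h10, map_one] at h9
  exact one_ne_zero h9

include res_zero i_alg q_alg in
/-- the degree on the special fibre is at most the degree on the generic fibre -/
lemma le (hinj : Function.Injective i) (DL : Dg L SL) (Dk : Dg k Sk)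
    (tail : ∃ n₀ : ℕ, ∀ n : ℕ, n₀ ≤ n → ∃ e : S, DL.d (i e) = n ∧ Dk.d (q e) = n) (s : S) :
    Dk.d (q s) ≤ DL.d (i s) := by
  classical
  by_cases hq0 : q s = 0
  · rw [hq0, Dk.zero]; exact bot_le
  have hi0 : i s ≠ 0 := by
    intro h
    have : s = 0 := hinj (by rw [h, map_zero])
    rw [this, map_zero] at hq0
    exact hq0 rfl
  obtain ⟨n, hn⟩ := DL.exists_nat hi0
  obtain ⟨m, hm⟩ := Dk.exists_nat hq0
  rw [hn, hm]
  by_contra hcon
  push Not at hcon
  have hnm : n < m := by exact_mod_cast hcon
  rcases Nat.eq_zero_or_pos n with rfl | hpos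
  · obtain ⟨c, hc⟩ := DL.const (x := i s) (by rw [hn]; rfl)
    have hcV : ∃ v : V, algebraMap V L v = c := by
      rcases ValuationRing.isInteger_or_isInteger V c with h | h
      · exact h
      · obtain ⟨v, hv⟩ := h
        have hc0 : c ≠ 0 := by
          rintro rfl
          rw [map_zero] at hc
          exact hi0 hc
        have h1 : algebraMap V S v * s = 1 := by
          apply hinj
          rw [map_mul, i_alg, hc, hv, ← map_mul, inv_mul_cancel₀ hc0, map_one, map_one]
        have h2 : IsUnit v := by
          by_contra h3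
          have h4 := (res_zero v).2 ((IsLocalRing.mem_maximalIdeal v).2 h3)
          have h5 := congrArg q h1
          rw [map_mul, q_alg, h4, map_zero, zero_mul, map_one] at h5
          have := Dk.nontrivial
          exact zero_ne_one h5
        obtain ⟨w, rfl⟩ := h2
        refine ⟨((w⁻¹ : Vˣ) : V), ?_⟩
        have h6 : algebraMap V L ((w⁻¹ : Vˣ) : V) * algebraMap V L (w : V) = 1 := by
          rw [← map_mul, Units.inv_mul, map_one]
        rw [hv] at h6
        field_simp at h6
        exact h6
    obtain ⟨v, rfl⟩ := hcV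
    have h1 : s = algebraMap V S v := hinj (by rw [hc, i_alg])
    have h2 : Dk.d (q s) ≤ 0 := by
      rw [h1, q_alg]
      by_cases h0 : algebraMap V k v = 0
      · rw [h0, map_zero, Dk.zero]; exact bot_le
      · rw [Dk.d_cst h0]
    rw [hm] at h2
    have : m ≤ 0 := by exact_mod_cast h2
    omega
  · obtain ⟨n₀, ht⟩ := tail
    choose! e he using ht
    set r := n₀ + 1 with hr
    set K := r + n₀ with hK
    -- the family
    let f : Fin r ⊕ Fin (n * K - n₀ + 1) → S := Sum.elim
      (fun j => s ^ ((j : ℕ) + 1) * e (n * (K - (j + 1)))) (fun j => e (n₀ + j))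
    let g : Fin r ⊕ Fin (n * K - n₀ + 1) → ℕ := Sum.elim
      (fun j => n * K + (m - n) * (j + 1)) (fun j => n₀ + j)
    have hK1 : n₀ ≤ n * K := by
      have : 1 * K ≤ n * K := Nat.mul_le_mul_right K hpos
      omega
    have hdeg : ∀ j : Fin r, n₀ ≤ n * (K - (j + 1)) := by
      intro j
      have := j.2
      have h2 : 1 * (K - (j + 1)) ≤ n * (K - (j + 1)) := Nat.mul_le_mul_right _ hpos
      omega
    have hsplit : ∀ j : Fin r, n * K = n * (j + 1) + n * (K - (j + 1)) := by
      intro j
      have := j.2
      rw [← mul_add]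
      congr 1
      omega
    have hg : ∀ x, Dk.d (q (f x)) = g x := by
      rintro (j | j)
      · change Dk.d (q (s ^ ((j : ℕ) + 1) * e (n * (K - (j + 1))))) =
          ((n * K + (m - n) * (j + 1) : ℕ) : WithBot ℕ)
        rw [map_mul, map_pow, Dk.mul, Dk.pow hm, (he _ (hdeg j)).2, ← Nat.cast_add]
        congr 1
        have := hsplit j
        obtain ⟨d, rfl⟩ := Nat.exists_eq_add_of_le hnm.le
        have h3 : n + d - n = d := by omega
        rw [h3, this]
        ring
      · change Dk.d (q (e (n₀ + j))) = ((n₀ + j : ℕ) : WithBot ℕ)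
        exact (he _ (by omega)).2
    have hginj : Function.Injective g := by
      have hpos2 : 0 < m - n := by omega
      rintro (j | j) (j' | j') h
      · change n * K + (m - n) * (j + 1) = n * K + (m - n) * (j' + 1) at h
        have h1 : (m - n) * ((j : ℕ) + 1) = (m - n) * (j' + 1) := by omega
        have h2 := Nat.eq_of_mul_eq_mul_left hpos2 h1
        have h3 : (j : ℕ) = j' := by omega
        rw [Fin.ext h3]
      · exfalso
        change n * K + (m - n) * (j + 1) = n₀ + j' at h
        have h1 : 0 < (m - n) * ((j : ℕ) + 1) := Nat.mul_pos hpos2 (by omega)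
        have := j'.2
        omega
      · exfalso
        change n₀ + j = n * K + (m - n) * (j' + 1) at h
        have h1 : 0 < (m - n) * ((j' : ℕ) + 1) := Nat.mul_pos hpos2 (by omega)
        have := j.2
        omega
      · change n₀ + (j : ℕ) = n₀ + j' at h
        have h3 : (j : ℕ) = j' := by omega
        rw [Fin.ext h3]
    have h1 := Dk.linearIndependent (fun x => q (f x)) g hginj hg
    have h2 := indep i q i_alg q_alg hinj f h1
    have h3 : ∀ x, i (f x) ∈ DL.L (n * K) := by
      rintro (j | j)
      · change DL.d (i (s ^ ((j : ℕ) + 1) * e (n * (K - (j + 1))))) ≤ ((n * K : ℕ) : WithBot ℕ)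
        rw [map_mul, map_pow, DL.mul, DL.pow hn, (he _ (hdeg j)).1, ← Nat.cast_add]
        exact_mod_cast (hsplit j).ge
      · change DL.d (i (e (n₀ + j))) ≤ ((n * K : ℕ) : WithBot ℕ)
        rw [(he _ (by omega)).1]
        have := j.2
        exact_mod_cast (by omega : n₀ + (j : ℕ) ≤ n * K)
    have h4 : LinearIndependent L (fun x => (⟨i (f x), h3 x⟩ : DL.L (n * K))) := by
      apply LinearIndependent.of_comp (DL.L (n * K)).subtype
      exact h2
    have h5 := h4.fintype_card_le_finrank
    have h6 := DL.finrank_L_le (n * K)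
    rw [Fintype.card_sum, Fintype.card_fin, Fintype.card_fin] at h5
    omega

end MdO

/-- A model from bases. -/
noncomputable def Md.ofBases {V L k ι S SL Sk : Type} [CommRing V] [IsDomain V] [ValuationRing V]
    [Field L] [Field k] [Algebra V L] [IsFractionRing V L] [Algebra V k] [CommRing S] [CommRing SL]
    [CommRing Sk] [Algebra V S] [Algebra L SL] [Algebra k Sk]
    (res_surj : Function.Surjective (algebraMap V k))
    (res_zero : ∀ c : V, algebraMap V k c = 0 ↔ c ∈ maximalIdeal V)
    (b : Basis ι V S) (bL : Basis ι L SL) (bk : Basis ι k Sk) (i : S →+* SL) (q : S →+* Sk)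
    (i_alg : ∀ c : V, i (algebraMap V S c) = algebraMap L SL (algebraMap V L c))
    (q_alg : ∀ c : V, q (algebraMap V S c) = algebraMap k Sk (algebraMap V k c))
    (hi : ∀ j, i (b j) = bL j) (hq : ∀ j, q (b j) = bk j) (DL : Dg L SL) (Dk : Dg k Sk)
    (tail : ∃ n₀ : ℕ, ∀ n : ℕ, n₀ ≤ n → ∃ e : S, DL.d (i e) = n ∧ Dk.d (q e) = n) :
    Md V L k S SL Sk where
  res_surj := res_surj
  res_zero := res_zero
  i := i
  i_alg := i_alg
  inj := MdO.inj b bL i i_alg hi
  loc := MdO.loc b bL i i_alg hi
  q := q
  q_alg := q_alg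
  surj := MdO.surj res_surj b bk q q_alg hq
  prim := MdO.prim b bk q q_alg hq
  DL := DL
  Dk := Dk
  le := MdO.le res_zero i q i_alg q_alg (MdO.inj b bL i i_alg hi) DL Dk tail
  tail := tail
  fin := MdO.fin b bL i i_alg hi DL

end CV
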