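import Pool.Agent.Lib.MP_f80667_ag.Cv.MdU
import Pool.Agent.Lib.MP_f80667_ag.Cv.MdO
import Pool.Agent.Lib.MP_f80667_ag.Cv.AmB
import Pool.Agent.Lib.MP_f80667_ag.Cv.DgM

/-!
# The amalgam of two models over a discrete valuation ring

* `Am.mapR`: functoriality of the amalgam.
* `Md.basL`, `Md.basK`: a basis of `S` over `V` gives bases of both fibres.
* `Md.exists_basis`: over a discrete valuation ring `S` is free.
* `Md.am`: the model `Md V L k (Am V α ρ) (Am L (i α) (i ρ)) (Am k (q α) (q ρ))` for `α`, `ρ` of unit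
  type of coprime degrees `a`, `b > 0`, `a ≥ N` where `M₁` has elements of unit type of all degrees
  `≥ N`. Lemmas `am_i_i1`, `am_i_i2`, `am_q_i1`, `am_q_i2`, `am_ut`, `am_ut1`, `am_ut2`.
-/

set_option autoImplicit false

open IsLocalRing Module

namespace CV

namespace Am

section map

variable {A A' R₁ R₂ R₁' R₂' : Type} [CommRing A] [CommRing A'] [CommRing R₁] [CommRing R₂]
  [CommRing R₁'] [CommRing R₂'] [Algebra A R₁] [Algebra A R₂] [Algebra A' R₁'] [Algebra A' R₂']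
  (α : R₁) (ρ : R₂) (φ : A →+* A') (f₁ : R₁ →+* R₁') (f₂ : R₂ →+* R₂')
  (h₁ : ∀ c, f₁ (algebraMap A R₁ c) = algebraMap A' R₁' (φ c))
  (h₂ : ∀ c, f₂ (algebraMap A R₂ c) = algebraMap A' R₂' (φ c))

/-- functoriality -/
noncomputable def mapR : Am A α ρ →+* Am A' (f₁ α) (f₂ ρ) :=
  letI : Algebra A (Am A' (f₁ α) (f₂ ρ)) :=
    ((algebraMap A' (Am A' (f₁ α) (f₂ ρ))).comp φ).toAlgebra
  (Am.lift (A := A) (α := α) (ρ := ρ) (T := Am A' (f₁ α) (f₂ ρ))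
    { (Am.i1 A' (f₁ α) (f₂ ρ)).toRingHom.comp f₁ with
      commutes' := fun c => by
        change Am.i1 A' (f₁ α) (f₂ ρ) (f₁ (algebraMap A R₁ c)) = algebraMap A' _ (φ c)
        rw [h₁, AlgHom.commutes] }
    { (Am.i2 A' (f₁ α) (f₂ ρ)).toRingHom.comp f₂ with
      commutes' := fun c => by
        change Am.i2 A' (f₁ α) (f₂ ρ) (f₂ (algebraMap A R₂ c)) = algebraMap A' _ (φ c)
        rw [h₂, AlgHom.commutes] }
    (Am.comm A' (f₁ α) (f₂ ρ))).toRingHom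

lemma mapR_i1 (x : R₁) : mapR α ρ φ f₁ f₂ h₁ h₂ (Am.i1 A α ρ x) = Am.i1 A' (f₁ α) (f₂ ρ) (f₁ x) := by
  let _ : Algebra A (Am A' (f₁ α) (f₂ ρ)) :=
    ((algebraMap A' (Am A' (f₁ α) (f₂ ρ))).comp φ).toAlgebra
  exact Am.lift_i1 _ _ _ x

lemma mapR_i2 (y : R₂) : mapR α ρ φ f₁ f₂ h₁ h₂ (Am.i2 A α ρ y) = Am.i2 A' (f₁ α) (f₂ ρ) (f₂ y) := by
  let _ : Algebra A (Am A' (f₁ α) (f₂ ρ)) :=
    ((algebraMap A' (Am A' (f₁ α) (f₂ ρ))).comp φ).toAlgebra
  exact Am.lift_i2 _ _ _ y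

lemma mapR_alg (c : A) : mapR α ρ φ f₁ f₂ h₁ h₂ (algebraMap A _ c) = algebraMap A' _ (φ c) := by
  have h : algebraMap A (Am A α ρ) c = Am.i1 A α ρ (algebraMap A R₁ c) := by
    rw [AlgHom.commutes]
  rw [h, mapR_i1, h₁, AlgHom.commutes]

end map

end Am

namespace Md

variable {V L k S SL Sk : Type} [CommRing V] [IsDomain V] [ValuationRing V] [Field L] [Field k]
  [Algebra V L] [IsFractionRing V L] [Algebra V k] [CommRing S] [CommRing SL] [CommRing Sk]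
  [Algebra V S] [Algebra L SL] [Algebra k Sk] (M : Md V L k S SL Sk)

lemma am_i_smul (c : V) (s : S) : M.i (c • s) = algebraMap V L c • M.i s :=
  MdO.i_smul M.i_alg c s

lemma am_q_smul (c : V) (s : S) : M.q (c • s) = algebraMap V k c • M.q s :=
  MdO.i_smul M.q_alg c s

omit [IsDomain V] [ValuationRing V] in
lemma algL_ne {c : V} (hc : c ≠ 0) : algebraMap V L c ≠ 0 := fun e => hc (by
  apply IsFractionRing.injective V L; rw [e, map_zero])

section bas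

variable {ι : Type} (b : Basis ι V S)

lemma basL_li : LinearIndependent L (fun j => M.i (b j)) := by
  classical
  rw [linearIndependent_iff']
  intro t c hc j hj
  obtain ⟨⟨d, hd⟩, hd'⟩ := IsLocalization.exist_integer_multiples (nonZeroDivisors V) t c
  have hd0 : algebraMap V L d ≠ 0 := algL_ne (nonZeroDivisors.ne_zero hd)
  have hd1 : ∀ l : ι, ∃ g : V, l ∈ t → algebraMap V L g = algebraMap V L d * c l := by
    intro l
    by_cases hl : l ∈ t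
    · obtain ⟨g, hg⟩ := hd' l hl
      refine ⟨g, fun _ => ?_⟩
      rw [Algebra.smul_def] at hg
      exact hg
    · exact ⟨0, fun h => absurd h hl⟩
  choose g hg using hd1
  have h1 : ∑ l ∈ t, g l • b l = 0 := by
    apply M.inj
    rw [map_zero, map_sum]
    have : ∀ l ∈ t, M.i (g l • b l) = (algebraMap V L d) • (c l • M.i (b l)) := by
      intro l hl
      rw [M.am_i_smul, hg l hl, mul_smul]
    rw [Finset.sum_congr rfl this, ← Finset.smul_sum, hc, smul_zero]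
  have h2 := (linearIndependent_iff'.1 b.linearIndependent) t g h1 j hj
  have h3 := hg j hj
  rw [h2, map_zero, eq_comm, mul_eq_zero] at h3
  exact h3.resolve_left hd0

/-- the basis of the generic fibre -/
noncomputable def basL : Basis ι L SL :=
  Basis.mk (M.basL_li b) (by
    intro x _
    obtain ⟨c, hc, s, hs⟩ := M.loc x
    have hc0 : algebraMap V L c ≠ 0 := algL_ne hc
    have h1 : x = (algebraMap V L c)⁻¹ • M.i s := by
      rw [← hs, ← Algebra.smul_def, smul_smul, inv_mul_cancel₀ hc0, one_smul]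
    rw [h1]
    refine Submodule.smul_mem _ _ ?_
    have h2 : ∀ s : S, M.i s ∈ Submodule.span L (Set.range fun j => M.i (b j)) := by
      refine Am.basis_ind b ?_ ?_ ?_ ?_
      · rw [map_zero]; exact zero_mem _
      · intro j; exact Submodule.subset_span ⟨j, rfl⟩
      · intro x y hx hy; rw [map_add]; exact add_mem hx hy
      · intro c x hx; rw [M.am_i_smul]; exact Submodule.smul_mem _ _ hx
    exact h2 s)

lemma basL_apply (j : ι) : M.basL b j = M.i (b j) := by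
  unfold basL; rw [Basis.mk_apply]

lemma basK_li : LinearIndependent k (fun j => M.q (b j)) := by
  classical
  rw [linearIndependent_iff']
  intro t c hc j hj
  choose g hg using fun l => M.res_surj (c l)
  have h1 : M.q (∑ l ∈ t, g l • b l) = 0 := by
    rw [map_sum, ← hc]
    refine Finset.sum_congr rfl fun l _ => ?_
    rw [M.am_q_smul, hg]
  obtain ⟨d, hd, s, hs⟩ := M.ker h1
  rw [← Algebra.smul_def] at hs
  have h2 := congrArg (fun x => b.repr x j) hs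
  simp only [map_sum, map_smul, Finsupp.finsetSum_apply, Finsupp.smul_apply, b.repr_self,
    smul_eq_mul] at h2
  rw [Finset.sum_eq_single j] at h2
  · rw [Finsupp.single_eq_same, mul_one] at h2
    rw [← hg, M.res_zero, h2]
    exact Ideal.mul_mem_right _ _ hd
  · intro l _ hlj
    rw [Finsupp.single_eq_of_ne hlj.symm, mul_zero]
  · intro h; exact absurd hj h

/-- the basis of the special fibre -/
noncomputable def basK : Basis ι k Sk :=
  Basis.mk (M.basK_li b) (by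
    intro x _
    obtain ⟨s, rfl⟩ := M.surj x
    have h2 : ∀ s : S, M.q s ∈ Submodule.span k (Set.range fun j => M.q (b j)) := by
      refine Am.basis_ind b ?_ ?_ ?_ ?_
      · rw [map_zero]; exact zero_mem _
      · intro j; exact Submodule.subset_span ⟨j, rfl⟩
      · intro x y hx hy; rw [map_add]; exact add_mem hx hy
      · intro c x hx; rw [M.am_q_smul]; exact Submodule.smul_mem _ _ hx
    exact h2 s)

lemma basK_apply (j : ι) : M.basK b j = M.q (b j) := by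
  unfold basK; rw [Basis.mk_apply]

end bas

include M in
/-- Over a discrete valuation ring `S` is free. -/
theorem exists_basis [IsPrincipalIdealRing V] : ∃ m : ℕ, Nonempty (Basis (Fin m × ℕ) V S) := by
  obtain ⟨n₀, h⟩ := M.tail
  obtain ⟨u, hu⟩ := h (n₀ + 1) (by omega)
  obtain ⟨m, β, B, _⟩ := M.exists_basis_pow (N := n₀) h (u := u) (a := n₀ + 1) hu (by omega) (by omega)
  exact ⟨m, ⟨B⟩⟩

section am

variable [IsPrincipalIdealRing V] {S₁ SL₁ Sk₁ S₂ SL₂ Sk₂ : Type} [CommRing S₁] [CommRing SL₁]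
  [CommRing Sk₁] [CommRing S₂] [CommRing SL₂] [CommRing Sk₂] [Algebra V S₁] [Algebra L SL₁]
  [Algebra k Sk₁] [Algebra V S₂] [Algebra L SL₂] [Algebra k Sk₂]
  (M₁ : Md V L k S₁ SL₁ Sk₁) (M₂ : Md V L k S₂ SL₂ Sk₂) {α : S₁} {ρ : S₂} {a b N : ℕ}
  (hα : M₁.Ut α a) (hρ : M₂.Ut ρ b) (hN : ∀ n, N ≤ n → ∃ e, M₁.Ut e n) (haN : N ≤ a) (ha : 0 < a)
  (hb : 0 < b) (hab : Nat.Coprime a b)

include hN haN in
lemma am_exists : ∃ M : Md V L k (Am V α ρ) (Am L (M₁.i α) (M₂.i ρ)) (Am k (M₁.q α) (M₂.q ρ)),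
    M.i = Am.mapR α ρ (algebraMap V L) M₁.i M₂.i M₁.i_alg M₂.i_alg ∧
    M.q = Am.mapR α ρ (algebraMap V k) M₁.q M₂.q M₁.q_alg M₂.q_alg ∧
    M.DL = Dg.am M₁.DL M₂.DL hα.1 hρ.1 ha hb hab ∧
    M.Dk = Dg.am M₁.Dk M₂.Dk hα.2 hρ.2 ha hb hab := by
  obtain ⟨m, β, B, hB⟩ := M₁.exists_basis_pow hN hα haN ha
  obtain ⟨m₂, ⟨B₂⟩⟩ := M₂.exists_basis
  refine ⟨Md.ofBases M₁.res_surj M₁.res_zero (Am.basis ρ B hB B₂)
    (Am.basis (M₂.i ρ) (M₁.basL B) (α := M₁.i α) (β := fun μ => M₁.i (β μ))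
      (fun μ j => by rw [basL_apply, hB, map_mul, map_pow]) (M₂.basL B₂))
    (Am.basis (M₂.q ρ) (M₁.basK B) (α := M₁.q α) (β := fun μ => M₁.q (β μ))
      (fun μ j => by rw [basK_apply, hB, map_mul, map_pow]) (M₂.basK B₂))
    (Am.mapR α ρ (algebraMap V L) M₁.i M₂.i M₁.i_alg M₂.i_alg)
    (Am.mapR α ρ (algebraMap V k) M₁.q M₂.q M₁.q_alg M₂.q_alg)
    (Am.mapR_alg _ _ _ _ _ _ _) (Am.mapR_alg _ _ _ _ _ _ _) ?_ ?_
    (Dg.am M₁.DL M₂.DL hα.1 hρ.1 ha hb hab) (Dg.am M₁.Dk M₂.Dk hα.2 hρ.2 ha hb hab) ?_,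
    rfl, rfl, rfl, rfl⟩
  · intro p
    rw [Am.basis_apply, Am.basis_apply, map_mul, Am.mapR_i1, Am.mapR_i2, basL_apply]
  · intro p
    rw [Am.basis_apply, Am.basis_apply, map_mul, Am.mapR_i1, Am.mapR_i2, basK_apply]
  · obtain ⟨N₂, h2⟩ := M₂.tail
    refine ⟨b * (N + a) + a * N₂, fun n hn => ?_⟩
    obtain ⟨i, j, hi, hj, rfl⟩ := Dg.amt ha hb hab N N₂ hn
    obtain ⟨x, hx⟩ := hN i hi
    obtain ⟨y, hy⟩ := h2 j hj
    refine ⟨Am.i1 V α ρ x * Am.i2 V α ρ y, ?_, ?_⟩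
    · rw [map_mul, Am.mapR_i1, Am.mapR_i2, Dg.am_mul _ _ hα.1 hρ.1 ha hb hab hx.1 hy.1]
    · rw [map_mul, Am.mapR_i1, Am.mapR_i2, Dg.am_mul _ _ hα.2 hρ.2 ha hb hab hx.2 hy.2]

/-- The model of the amalgam. -/
noncomputable def am : Md V L k (Am V α ρ) (Am L (M₁.i α) (M₂.i ρ)) (Am k (M₁.q α) (M₂.q ρ)) :=
  (am_exists M₁ M₂ hα hρ hN haN ha hb hab).choose

lemma am_i : (am M₁ M₂ hα hρ hN haN ha hb hab).i =
    Am.mapR α ρ (algebraMap V L) M₁.i M₂.i M₁.i_alg M₂.i_alg :=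
  (am_exists M₁ M₂ hα hρ hN haN ha hb hab).choose_spec.1

lemma am_q : (am M₁ M₂ hα hρ hN haN ha hb hab).q =
    Am.mapR α ρ (algebraMap V k) M₁.q M₂.q M₁.q_alg M₂.q_alg :=
  (am_exists M₁ M₂ hα hρ hN haN ha hb hab).choose_spec.2.1

lemma am_DL : (am M₁ M₂ hα hρ hN haN ha hb hab).DL = Dg.am M₁.DL M₂.DL hα.1 hρ.1 ha hb hab :=
  (am_exists M₁ M₂ hα hρ hN haN ha hb hab).choose_spec.2.2.1

lemma am_Dk : (am M₁ M₂ hα hρ hN haN ha hb hab).Dk = Dg.am M₁.Dk M₂.Dk hα.2 hρ.2 ha hb hab :=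
  (am_exists M₁ M₂ hα hρ hN haN ha hb hab).choose_spec.2.2.2

lemma am_i_i1 (x : S₁) : (am M₁ M₂ hα hρ hN haN ha hb hab).i (Am.i1 V α ρ x) =
    Am.i1 L (M₁.i α) (M₂.i ρ) (M₁.i x) := by rw [am_i, Am.mapR_i1]

lemma am_i_i2 (y : S₂) : (am M₁ M₂ hα hρ hN haN ha hb hab).i (Am.i2 V α ρ y) =
    Am.i2 L (M₁.i α) (M₂.i ρ) (M₂.i y) := by rw [am_i, Am.mapR_i2]

lemma am_q_i1 (x : S₁) : (am M₁ M₂ hα hρ hN haN ha hb hab).q (Am.i1 V α ρ x) =
    Am.i1 k (M₁.q α) (M₂.q ρ) (M₁.q x) := by rw [am_q, Am.mapR_i1]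

lemma am_q_i2 (y : S₂) : (am M₁ M₂ hα hρ hN haN ha hb hab).q (Am.i2 V α ρ y) =
    Am.i2 k (M₁.q α) (M₂.q ρ) (M₂.q y) := by rw [am_q, Am.mapR_i2]

lemma am_ut {x : S₁} {y : S₂} {i j : ℕ} (hx : M₁.Ut x i) (hy : M₂.Ut y j) :
    (am M₁ M₂ hα hρ hN haN ha hb hab).Ut (Am.i1 V α ρ x * Am.i2 V α ρ y) (b * i + a * j) := by
  constructor
  · rw [map_mul, am_i_i1, am_i_i2, am_DL, Dg.am_mul _ _ hα.1 hρ.1 ha hb hab hx.1 hy.1]
  · rw [map_mul, am_q_i1, am_q_i2, am_Dk, Dg.am_mul _ _ hα.2 hρ.2 ha hb hab hx.2 hy.2]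

lemma am_ut1 {x : S₁} {i : ℕ} (hx : M₁.Ut x i) :
    (am M₁ M₂ hα hρ hN haN ha hb hab).Ut (Am.i1 V α ρ x) (b * i) := by
  have := am_ut M₁ M₂ hα hρ hN haN ha hb hab hx M₂.ut_one
  rwa [map_one, mul_one, mul_zero, add_zero] at this

lemma am_ut2 {y : S₂} {j : ℕ} (hy : M₂.Ut y j) :
    (am M₁ M₂ hα hρ hN haN ha hb hab).Ut (Am.i2 V α ρ y) (a * j) := by
  have := am_ut M₁ M₂ hα hρ hN haN ha hb hab M₁.ut_one hy
  rwa [map_one, one_mul, mul_zero, zero_add] at this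

end am

end Md

end CV
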