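import Pool.Agent.Lib.MP_f80667_ag.Cv.CxD
import Pool.Agent.Lib.MP_f80667_ag.Cv.CxA
import Pool.Agent.Lib.MP_f80667_ag.Cv.CxB
import Pool.Agent.Lib.MP_f80667_ag.Cv.CxC
import Pool.Agent.Lib.MP_f80667_ag.Cv.CxV
import Pool.Agent.Lib.MP_f80667_ag.Cv.CxR
import Pool.Agent.Lib.MP_f80667_ag.Cv.MdM
import Pool.Agent.Lib.MP_f80667_ag.Cv.Fz3

/-!
The curve `D`: one more factor.
-/

open IsLocalRing Polynomial

namespace CV

section

variable {V L k : Type} [CommRing V] [IsDomain V] [IsDiscreteValuationRing V] [Field L]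
  [Field k] [Algebra V L] [IsFractionRing V L] [Algebra V k] {ι : Type} {S SL Sk : ι → Type}
  [∀ i, CommRing (S i)] [∀ i, CommRing (SL i)] [∀ i, CommRing (Sk i)] [∀ i, Algebra V (S i)]
  [∀ i, Algebra L (SL i)] [∀ i, Algebra k (Sk i)] {M : ∀ i, Md V L k (S i) (SL i) (Sk i)}
  {ε : ∀ i, S i →ₐ[V] k} {u : ∀ i, S i} {r : ι → V[X]} {m : V[X]} {π : V} {Ω : Type} [Field Ω]
  [Algebra L Ω] {W : ValuationSubring Ω}

/-- One more homomorphism. -/
private theorem cxS_hom {S' SL' Sk' : Type} [CommRing S'] [CommRing SL'] [CommRing Sk']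
    [Algebra V S'] [Algebra L SL'] [Algebra k Sk'] (D' : Md V L k S' SL' Sk') (ε'' : S' →ₐ[V] k)
    {R RL Rk : Type} [CommRing R] [CommRing RL] [CommRing Rk] [Algebra V R] [Algebra L RL]
    [Algebra k Rk] (E : Md V L k R RL Rk) (δ : R →ₐ[V] k) (f : R →ₐ[V] S') (fL : RL →ₐ[L] SL')
    (hc : ∀ s, D'.i (f s) = fL (E.i s)) (hr : ∀ s, ε'' (f s) = δ s) {φ : SL' →ₐ[L] Ω}
    (h : D'.Ov W φ (RingHom.ker ε'')) : E.Ov W (φ.comp fL) (RingHom.ker δ) := by
  refine ⟨fun s => ?_, fun s => ?_⟩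
  · rw [AlgHom.comp_apply, ← hc]
    exact h.1 _
  · rw [AlgHom.comp_apply, ← hc, ← h.2, RingHom.mem_ker, RingHom.mem_ker, hr]

/-- **The step.** Proof: write `N = ker (ε i)`. `exists_psi` for `S i`, `N`, `u i`, `r i` and `m`: `Ψ : S i → V[X] / (m)`. Choose a prime number `b > D.n` with `b ≥ A₀` (`exists_par`) and `α ∈ S i` of unit type of degree `b`, a local parameter at `N`; `Ψ α = mk p`, `p (0)` in the maximal
ideal, and we may assume that the degree of `p` is less than the degree of `m` (`p %ₘ m`). Let `ρ = p + X ^ t * m`, `t ≥ 1`, such that its degree `t + natDegree m` is prime to `b` and large: `aeval z ρ` is of unit type of degree `D.n * (t + natDegree m)` (`ut_aeval`), prime to `b`, at least the bound in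
the tail of `D`. The new curve is `Am V (aeval z ρ) α` with `Md.am`, `z' = i1 z`, `ε'' = Am.lift ε' (ε i)` (`rgl_am`). `val` for the new index: let `φ` be a point of the new curve above `ε''` with `φ z' = w`, `χ` its restriction to `SL i`: a point above `N` with `χ α = ρ (w) = p (w)`. The
homomorphism `S i → V[X] / (m) → Ω`, `X ↦ w`, extends to a point `χ₀` of `SL i` above `N` (`dcA_ext`) with `χ₀ α = p (w)`. So `χ = χ₀` (`disc_uniq` for the local parameter `α`) and `χ (u i) = r i (w)`. -/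
theorem cxD_step [IsAdicComplete (maximalIdeal V) V] [CharZero L] [IsAlgClosure L Ω]
    (hW : Wv V L W) (hg : ∀ (σ : Ω ≃ₐ[L] Ω) (x : Ω), x ∈ W → σ x ∈ W) (hπ : Irreducible π)
    (hm : m.Monic) (hl : ∀ j < m.natDegree, m.coeff j ∈ maximalIdeal V) (hd : m.natDegree ≠ 0)
    (hr : ∀ i, (r i).coeff 0 ∈ maximalIdeal V) (hu : ∀ i, Rgl π (RingHom.ker (ε i)) (u i))
    (hq : ∀ i, (M i).q (u i) ≠ 0) [DecidableEq ι] {J : Finset ι} (D : CxD M ε u r m π W J)
    {i : ι} (hi : i ∉ J) : Nonempty (CxD M ε u r m π W (insert i J)) := by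
  classical
  obtain ⟨hN, hk⟩ := cs_ker (S := S i) (M i).res_surj (M i).res_zero (ε i)
  obtain ⟨Ψ, hΨu, hΨ⟩ := (M i).exists_psi hπ hN hk (hu i) (hq i) hm hl hd (hr i)
  obtain ⟨A₀, hA⟩ := (M i).exists_par hN hk (hu i)
  obtain ⟨b, hbA, hbp⟩ := Nat.exists_infinite_primes (A₀ + D.n + 1)
  obtain ⟨α, hαb, hα⟩ := hA b (by omega)
  obtain ⟨p, hp, hp0⟩ := hΨ α hα.1
  obtain ⟨B, hB⟩ := D.D.tail
  obtain ⟨ρ, hρm, hρB, hρ0, hρb, hρp, y, y', hρy⟩ :=
    exists_rho hπ hm hl hd hp0 b B hbp.pos.ne'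
  have hn0 : D.n ≠ 0 := D.n0.ne'
  have hut : D.D.Ut (aeval D.z ρ) (D.n * ρ.natDegree) := D.D.ut_aeval D.ut hn0 hρm
  have ha : 0 < D.n * ρ.natDegree := Nat.mul_pos D.n0 (Nat.pos_of_ne_zero hρ0)
  have hab : Nat.Coprime (D.n * ρ.natDegree) b := by
    refine Nat.Coprime.mul_left ?_ hρb
    exact (Nat.coprime_of_lt_prime hn0 (by omega) hbp).symm
  have haB : B ≤ D.n * ρ.natDegree := hρB.trans (Nat.le_mul_of_pos_left _ D.n0)
  obtain ⟨hN', hk'⟩ := cs_ker (S := D.S') D.D.res_surj D.D.res_zero D.ε'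
  have hρz : aeval D.z ρ = D.z * aeval D.z y + algebraMap V D.S' π * aeval D.z y' := by
    rw [hρy, map_add, map_mul, map_mul, aeval_X, aeval_C]
  have hπm : π ∈ maximalIdeal V := by
    rw [hπ.maximalIdeal_eq]
    exact Ideal.mem_span_singleton_self π
  have he1 : D.ε' (aeval D.z ρ) = 0 := by
    rw [← RingHom.mem_ker, hρz]
    exact Ideal.add_mem _ (Ideal.mul_mem_right _ _ D.rgl.1) (Ideal.mul_mem_right _ _ (hN'.2 π hπm))
  have he2 : ε i α = 0 := (RingHom.mem_ker).1 hα.1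
  have he : D.ε' (aeval D.z ρ) = ε i α := he1.trans he2.symm
  have hqα : (M i).q α ≠ 0 := (M i).Dk.ne_zero hαb.2
  let D' := Md.am D.D (M i) hut hαb hB haB ha hbp.pos hab
  let ε'' : Am V (aeval D.z ρ) α →ₐ[V] k := Am.lift D.ε' (ε i) he
  have hD1 : ∀ s, D'.i (Am.i1 V (aeval D.z ρ) α s) =
      Am.i1 L (D.D.i (aeval D.z ρ)) ((M i).i α) (D.D.i s) := fun s =>
    Md.am_i_i1 D.D (M i) hut hαb hB haB ha hbp.pos hab s
  have hD2 : ∀ s, D'.i (Am.i2 V (aeval D.z ρ) α s) =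
      Am.i2 L (D.D.i (aeval D.z ρ)) ((M i).i α) ((M i).i s) := fun s =>
    Md.am_i_i2 D.D (M i) hut hαb hB haB ha hbp.pos hab s
  have hrgl : Rgl π (RingHom.ker ε'') (Am.i1 V (aeval D.z ρ) α D.z) :=
    rgl_am D.D.res_surj D.D.res_zero hπ D.ε' (ε i) D.rgl hα hρz he
  have key : ∀ i' : ι, i' ∈ insert i J → ∃ (f : S i' →ₐ[V] Am V (aeval D.z ρ) α)
      (fL : SL i' →ₐ[L] Am L (D.D.i (aeval D.z ρ)) ((M i).i α)),
      (∀ s, D'.i (f s) = fL ((M i').i s)) ∧ (∀ s, ε'' (f s) = ε i' s) ∧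
      (∀ x, 0 < (M i').DL.d x → 0 < D'.DL.d (fL x)) ∧
      (∀ φ : Am L (D.D.i (aeval D.z ρ)) ((M i).i α) →ₐ[L] Ω, D'.Ov W φ (RingHom.ker ε'') →
        aeval (φ (D'.i (Am.i1 V (aeval D.z ρ) α D.z))) (m.map (algebraMap V L)) = 0 →
        φ (D'.i (f (u i'))) =
          aeval (φ (D'.i (Am.i1 V (aeval D.z ρ) α D.z))) ((r i').map (algebraMap V L))) := by
    intro i' hi'
    by_cases h' : i' = i
    · subst h'
      refine ⟨Am.i2 V (aeval D.z ρ) α, Am.i2 L _ _, hD2, fun s => Am.lift_i2 _ _ _ s, ?_, ?_⟩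
      · intro x hx
        obtain ⟨n, hn⟩ := (M i').DL.exists_nat (x := x) (by
          rintro rfl
          rw [(M i').DL.zero] at hx
          exact absurd hx (by simp))
        have h1 : D'.DL.d (Am.i2 L (D.D.i (aeval D.z ρ)) ((M i').i α) x) =
            ((D.n * ρ.natDegree * n : ℕ) : WithBot ℕ) := by
          rw [Md.am_DL]
          exact Dg.am_i2 _ _ hut.1 hαb.1 ha hbp.pos hab hn
        rw [h1]
        rw [hn] at hx
        have h2 : 0 < n := by exact_mod_cast hx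
        exact_mod_cast Nat.mul_pos ha h2
      · intro φ hφ hz
        have hχ := cxS_hom D' ε'' (M i') (ε i') (Am.i2 V (aeval D.z ρ) α)
          (Am.i2 L _ _) hD2 (fun s => Am.lift_i2 _ _ _ s) hφ
        have hw : φ (D'.i (Am.i1 V (aeval D.z ρ) α D.z)) ∈ W.nonunits := (hφ.2 _).1 hrgl.1
        have hv := (M i').cx_val hW hg hπ hN hk hα hqα Ψ hΨ hw hz hp hχ ?_ hΨu
        · rw [hD2]
          exact hv
        · obtain ⟨g, hg'⟩ := hρp
          have h1 : (Am.i2 L (D.D.i (aeval D.z ρ)) ((M i').i α)) ((M i').i α) =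
              (Am.i1 L (D.D.i (aeval D.z ρ)) ((M i').i α)) (D.D.i (aeval D.z ρ)) :=
            (Am.comm L _ _).symm
          rw [AlgHom.comp_apply, h1, ← hD1]
          have h2 : Am.i1 V (aeval D.z ρ) α (aeval D.z ρ) =
              aeval (Am.i1 V (aeval D.z ρ) α D.z) ρ := (aeval_algHom_apply _ _ _).symm
          rw [h2, Md.dcA_aeval]
          have h3 : ρ.map (algebraMap V L) = m.map (algebraMap V L) * g.map (algebraMap V L) +
              p.map (algebraMap V L) := by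
            rw [← Polynomial.map_mul, ← hg', Polynomial.map_sub, sub_add_cancel]
          rw [h3, map_add, map_mul, hz, zero_mul, zero_add]
    · have hJ : i' ∈ J := (Finset.mem_insert.1 hi').resolve_left h'
      have hc : ∀ s, D'.i (((Am.i1 V (aeval D.z ρ) α).comp (D.j i' hJ)) s) =
          ((Am.i1 L (D.D.i (aeval D.z ρ)) ((M i).i α)).comp (D.jL i' hJ)) ((M i').i s) := by
        intro s
        rw [AlgHom.comp_apply, hD1, D.comm, AlgHom.comp_apply]
      refine ⟨(Am.i1 V (aeval D.z ρ) α).comp (D.j i' hJ),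
        (Am.i1 L (D.D.i (aeval D.z ρ)) ((M i).i α)).comp (D.jL i' hJ), hc, ?_, ?_, ?_⟩
      · intro s
        rw [AlgHom.comp_apply]
        exact (Am.lift_i1 _ _ _ _).trans (D.red i' hJ s)
      · intro x hx
        have h0 := D.pos i' hJ x hx
        obtain ⟨n, hn⟩ := D.D.DL.exists_nat (x := D.jL i' hJ x) (by
          intro h
          rw [h, D.D.DL.zero] at h0
          exact absurd h0 (by simp))
        have h1 : D'.DL.d (Am.i1 L (D.D.i (aeval D.z ρ)) ((M i).i α) (D.jL i' hJ x)) =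
            ((b * n : ℕ) : WithBot ℕ) := by
          rw [Md.am_DL]
          exact Dg.am_i1 _ _ hut.1 hαb.1 ha hbp.pos hab hn
        rw [AlgHom.comp_apply, h1]
        rw [hn] at h0
        have h2 : 0 < n := by exact_mod_cast h0
        exact_mod_cast Nat.mul_pos hbp.pos h2
      · intro φ hφ hz
        have hχ := cxS_hom D' ε'' D.D D.ε' (Am.i1 V (aeval D.z ρ) α)
          (Am.i1 L _ _) hD1 (fun s => Am.lift_i1 _ _ _ s) hφ
        have h1 : φ (D'.i (Am.i1 V (aeval D.z ρ) α D.z)) =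
            (φ.comp (Am.i1 L (D.D.i (aeval D.z ρ)) ((M i).i α))) (D.D.i D.z) := by
          rw [hD1, AlgHom.comp_apply]
        rw [h1] at hz ⊢
        have h2 := D.val _ hχ hz i' hJ
        rw [← h2, AlgHom.comp_apply, AlgHom.comp_apply, hD1]
  choose f fL h1 h2 h3 h4 using key
  exact ⟨{
    S' := Am V (aeval D.z ρ) α
    SL' := Am L (D.D.i (aeval D.z ρ)) ((M i).i α)
    Sk' := Am k (D.D.q (aeval D.z ρ)) ((M i).q α)
    D := D'
    ε' := ε''
    z := Am.i1 V (aeval D.z ρ) α D.z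
    n := b * D.n
    n0 := Nat.mul_pos hbp.pos D.n0
    ut := Md.am_ut1 D.D (M i) hut hαb hB haB ha hbp.pos hab D.ut
    rgl := hrgl
    j := f
    jL := fL
    comm := h1
    red := h2
    pos := h3
    val := fun φ hφ hz i' hi' => h4 i' hi' φ hφ hz }⟩

end

end CV
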