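import Pool.Agent.Lib.MP_f80667_ag.Cv.CxD0
import Pool.Agent.Lib.MP_f80667_ag.Cv.CxS

/-!
The curve `D`: existence.
-/

open IsLocalRing Polynomial

namespace CV

section

variable {V L k : Type} [CommRing V] [IsDomain V] [IsDiscreteValuationRing V] [Field L]
  [Field k] [Algebra V L] [IsFractionRing V L] [Algebra V k] {ι : Type} {S SL Sk : ι → Type}
  [∀ i, CommRing (S i)] [∀ i, CommRing (SL i)] [∀ i, CommRing (Sk i)] [∀ i, Algebra V (S i)]
  [∀ i, Algebra L (SL i)] [∀ i, Algebra k (Sk i)] {M : ∀ i, Md V L k (S i) (SL i) (Sk i)}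
  {ε : ∀ i, S i →ₐ[V] k} {u : ∀ i, S i} {r : ι → V[X]} {m : V[X]} {π : V} {Ω : Type} [Field Ω]
  [Algebra L Ω] {W : ValuationSubring Ω}

/-- Proof: induction on `J`. -/
theorem cxD_exists [IsAdicComplete (maximalIdeal V) V] [CharZero L] [IsAlgClosure L Ω]
    (hW : Wv V L W) (hg : ∀ (σ : Ω ≃ₐ[L] Ω) (x : Ω), x ∈ W → σ x ∈ W) (hπ : Irreducible π)
    (hs : Function.Surjective (algebraMap V k))
    (h0 : ∀ c : V, algebraMap V k c = 0 ↔ c ∈ maximalIdeal V)
    (hm : m.Monic) (hl : ∀ j < m.natDegree, m.coeff j ∈ maximalIdeal V) (hd : m.natDegree ≠ 0)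
    (hr : ∀ i, (r i).coeff 0 ∈ maximalIdeal V) (hu : ∀ i, Rgl π (RingHom.ker (ε i)) (u i))
    (hq : ∀ i, (M i).q (u i) ≠ 0) (J : Finset ι) : Nonempty (CxD M ε u r m π W J) := by
  classical
  induction J using Finset.induction_on with
  | empty => exact cxD_empty hs h0 hπ
  | insert i J hi ih =>
    obtain ⟨D⟩ := ih
    exact cxD_step hW hg hπ hm hl hd hr hu hq D hi

end

end CV
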