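import Pool.Agent.Lib.MP_f80667_ag.Cv.Mo

/-!
The product `Vr.pi V` of a finite family of varieties with base points, the projections `pr i`, the sections `sc i`, the
push-forwards of cycles `psh i`, the Albanese kernel `AlbP` (the classes of all push-forwards to the factors are `0`).
`piR`: the component of a cycle in the Albanese kernel.
-/

open ZC BE Polynomial IntermediateField IsDedekindDomain NumberField

namespace CV

section defs

variable {F : Type} [Field F] {ι : Type} (V : ι → Vr F)

/-- The product of a family of varieties. -/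
def Vpi : Vr F where
  pt L := ∀ i, (V i).pt L
  map σ x := fun i => (V i).map σ (x i)
  red w x y := ∀ i, (V i).red w (x i) (y i)

variable {V} {K : Type} [Field K] [Algebra F K]

/-- The push-forward to a factor. -/
noncomputable def psh (i : ι) (z : Zc (Vpi V) K) : Zc (V i) K :=
  PE.push (V := Vpi V) (V' := V i) (fun x => x i) (fun _ _ => rfl) z

/-- `z` is in the Albanese kernel: its push-forwards to the factors are rationally equivalent to `0`. -/
def AlbP (z : Zc (Vpi V) K) : Prop := ∀ i, (psh i z).cl = 0

/-- The projections. -/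
def pr (i : ι) : Mo (Vpi V) (V i) where
  f _ _ _ x := x i
  nat _ _ _ _ _ _ _ _ := rfl
  red _ _ _ _ _ _ _ _ _ _ _ _ _ h := h i

theorem psh_eq (i : ι) (z : Zc (Vpi V) K) : psh i z = (pr i).dz K z := rfl

variable (o : ∀ i, Bp (V i))

open Classical in
/-- The sections. -/
noncomputable def sc (i : ι) : Mo (V i) (Vpi V) where
  f L _ _ x := Function.update (fun j => (o j).o L) i x
  nat L M _ _ _ _ σ x := by
    funext j
    change (V j).map σ (Function.update (fun j => (o j).o L) i x j) =
      Function.update (fun j => (o j).o M) i ((V i).map σ x) j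
    rcases eq_or_ne j i with rfl | h
    · rw [Function.update_self, Function.update_self]
    · rw [Function.update_of_ne h, Function.update_of_ne h, (o j).nat]
  red K L Ω _ _ _ _ _ _ _ w x y h := by
    intro j
    change (V j).red w (Function.update (fun j => (o j).o L) i x j)
      (Function.update (fun j => (o j).o Ω) i y j)
    rcases eq_or_ne j i with rfl | hj
    · rw [Function.update_self, Function.update_self]
      exact h
    · rw [Function.update_of_ne hj, Function.update_of_ne hj]
      exact (o j).red K L Ω w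

theorem pr_sc_self (i : ι) (z : Dz (V i) K) : (pr i).dz K ((sc o i).dz K z) = z := by
  classical
  rw [← Mo.dz_comp]
  refine Mo.dz_id (fun x => ?_) z
  change Function.update (fun j => (o j).o (AlgebraicClosure K)) i x i = x
  exact Function.update_self _ _ _

theorem pr_sc_ne {i j : ι} (h : j ≠ i) (z : Dz (V i) K) :
    (pr j).dz K ((sc o i).dz K z) = 0 := by
  classical
  rw [← Mo.dz_comp]
  refine Mo.dz_const ((o j).o _) (fun x => ?_) z
  change Function.update (fun j => (o j).o (AlgebraicClosure K)) i x j = _
  exact Function.update_of_ne h _ _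

variable (K) [Fintype ι]

/-- The component in the Albanese kernel. -/
noncomputable def piR : Dz (Vpi V) K →+ Dz (Vpi V) K :=
  AddMonoidHom.id _ - ∑ i, ((sc o i).dz K).comp ((pr i).dz K)

variable {K}

theorem piR_apply (z : Dz (Vpi V) K) :
    piR K o z = z - ∑ i, (sc o i).dz K ((pr i).dz K z) := by
  rw [piR, AddMonoidHom.sub_apply, AddMonoidHom.finsetSum_apply]
  rfl

theorem pr_piR (i : ι) (z : Dz (Vpi V) K) : (pr i).dz K (piR K o z) = 0 := by
  rw [piR_apply, map_sub, map_sum, Finset.sum_eq_single i, pr_sc_self, sub_self]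
  · intro j _ hj
    exact pr_sc_ne o hj.symm _
  · intro h
    exact absurd (Finset.mem_univ i) h

omit [Fintype ι] in
theorem cl_zero (W : Vr F) : Zc.cl (0 : Dz W K) = 0 := rfl

theorem alb_piR (z : Dz (Vpi V) K) : AlbP (V := V) (K := K) (piR K o z) := by
  intro i
  have h : Zc.cl ((pr i).dz K (piR K o z)) = 0 := by
    rw [pr_piR]
    rfl
  exact h

variable (K) in
/-- The component in the Albanese kernel, on classes. -/
noncomputable def piG : Gp (Vpi V) K →+ Gp (Vpi V) K :=
  AddMonoidHom.id _ - ∑ i, ((sc o i).gp K).comp ((pr i).gp K)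

theorem piG_apply (x : Gp (Vpi V) K) :
    piG K o x = x - ∑ i, (sc o i).gp K ((pr i).gp K x) := by
  rw [piG, AddMonoidHom.sub_apply, AddMonoidHom.finsetSum_apply]
  rfl

theorem piG_cl (z : Dz (Vpi V) K) :
    piG K o (Zc.cl (z : Zc (Vpi V) K)) = Zc.cl (piR K o z) := by
  rw [piG_apply, piR_apply]
  refine Eq.trans ?_ (map_sub (Gp.clsH (Vpi V) K) _ _).symm
  rw [map_sum]
  rfl

/-- A cycle in the Albanese kernel has the class of its component. -/
theorem piG_alb {z : Zc (Vpi V) K} (h : AlbP (V := V) (K := K) z) : piG K o z.cl = z.cl := by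
  rw [piG_apply, sub_eq_self]
  refine Finset.sum_eq_zero fun i _ => ?_
  have h3 : (pr i).gp K z.cl = 0 := h i
  rw [h3, map_zero]

include o in
/-- If the Albanese kernel is contained in the multiples of `n`, it is `n`-divisible. -/
theorem alb_div (n : ℕ) {z : Zc (Vpi V) K} (hz : AlbP z)
    (h : ∃ z' : Zc (Vpi V) K, z.cl = n • z'.cl) :
    ∃ z' : Zc (Vpi V) K, AlbP z' ∧ z.cl = n • z'.cl := by
  obtain ⟨z', h⟩ := h
  refine ⟨piR K o z', alb_piR o z', ?_⟩
  have h1 : piG K o z.cl = n • piG K o z'.cl := by rw [h, map_nsmul]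
  rw [piG_alb o hz] at h1
  exact h1.trans (congrArg (fun x => n • x) (piG_cl o z'))

end defs

end CV
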