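import Pool.Agent.Lib.MP_f80667_ag.Be.PlX
import Pool.Agent.Lib.MP_f80667_ag.Cv.Defs
import Pool.Agent.Lib.MP_f80667_ag.Cv.Pi
import Pool.Agent.Lib.MP_f80667_ag.Cv.PlD
import Pool.Agent.Lib.MP_f80667_ag.Cv.PlV

/-!
The generic point of a curve which maps to the curves `C i`: `h i` are the homomorphisms of the affine rings.

* `gpt h`: the point over the algebraic closure of the function field `E` of `A`.
* `rpt h φ`: the point over `Ω` given by a homomorphism `φ : A → Ω`.
-/

open ZC BE

namespace CV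

section gen

variable {F : Type} [Field F] {ι : Type} {C : ι → Crv F} {K A : Type} [Field K] [CommRing A]
  [Algebra K A] [Algebra F K] (h : ∀ i, (C i).A →+* A)
  (hF : ∀ i c, h i (algebraMap F (C i).A c) = algebraMap K A (algebraMap F K c))

/-- The point given by a homomorphism. -/
def rpt {Ω : Type} [Field Ω] [Algebra K Ω] [Algebra F Ω] [IsScalarTower F K Ω]
    (φ : A →ₐ[K] Ω) : (Vpi fun i => (C i).V).pt Ω := fun i =>
  some { toRingHom := (φ : A →+* Ω).comp (h i)
         commutes' := fun c => by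
          change φ (h i (algebraMap F (C i).A c)) = _
          rw [hF, φ.commutes, ← IsScalarTower.algebraMap_apply] }

variable {E : Type} [Field E] [Algebra A E] [Algebra K E] [IsScalarTower K A E] [Algebra F E]
  [IsScalarTower F K E]

variable (E) in
/-- The generic point. -/
noncomputable def gpt : (Vpi fun i => (C i).V).pt (AlgebraicClosure E) := fun i =>
  some { toRingHom := ((algebraMap E (AlgebraicClosure E)).comp (algebraMap A E)).comp (h i)
         commutes' := fun c => by
          change algebraMap E (AlgebraicClosure E) (algebraMap A E (h i (algebraMap F (C i).A c))) = _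
          rw [hF, ← IsScalarTower.algebraMap_apply K A E, ← IsScalarTower.algebraMap_apply F K E,
            ← IsScalarTower.algebraMap_apply F E (AlgebraicClosure E)] }

theorem gpt_rat : (Vpi fun i => (C i).V).Rat E (gpt h hF E) := by
  intro σ
  funext i
  refine congrArg some (AlgHom.ext fun a => ?_)
  exact σ.commutes _

theorem gpt_val {Ω : Type} [Field Ω] [IsAlgClosed Ω] [Algebra K Ω] [Algebra F Ω]
    [IsScalarTower F K Ω] {φ : A →ₐ[K] Ω} {w : Place K E Ω} (hw : Ab w φ) :
    (Vpi fun i => (C i).V).IsVal w (gpt h hF E) (rpt h hF φ) := by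
  obtain ⟨W, hW1, hW2⟩ := exists_above w
  refine ⟨W, hW1, hW2, fun i => Or.inr (Or.inr ⟨_, _, rfl, rfl, fun a => ?_⟩)⟩
  obtain ⟨h1, h2⟩ := hw (h i a)
  refine ⟨(hW1 _).2 h1, ?_⟩
  change φ (h i a) = W.res ⟨algebraMap E (AlgebraicClosure E) (algebraMap A E (h i a)), _⟩
  rw [hW2 _ h1, h2]

theorem gpt_inf [IsFractionRing A E] (G : Dg K A) {Ω : Type} [Field Ω] [IsAlgClosed Ω]
    [Algebra K Ω] [Algebra F Ω] [IsScalarTower F K Ω] (hp : ∀ i, ∃ a, 0 < G.d (h i a))
    {w : Place K E Ω} (hw : w.V = G.vi) :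
    (Vpi fun i => (C i).V).IsVal w (gpt h hF E) (fun _ => none) := by
  obtain ⟨W, hW1, hW2⟩ := exists_above w
  refine ⟨W, hW1, hW2, fun i => Or.inr (Or.inl ⟨_, rfl, ?_, rfl⟩)⟩
  obtain ⟨a, ha⟩ := hp i
  refine ⟨a, fun hm => ?_⟩
  have := G.nontrivial
  have h1 : algebraMap A E (h i a) ∈ w.V := (hW1 _).1 hm
  rw [hw] at h1
  have h2 : algebraMap A E (h i a) / algebraMap A E 1 ∈ G.vi (E := E) := by
    rwa [map_one, div_one]
  rw [G.mem_vi one_ne_zero, G.one] at h2
  exact absurd ha (not_lt.2 h2)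

end gen

end CV
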