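import Pool.Agent.Lib.MP_f80667_ag.Cv.Rp0
import Pool.Agent.Lib.MP_f80667_ag.Cv.Ct2

/-!
The disc of the integral points above a regular closed point with residue field `k`: the quotient of `S` by
`It {N} (m z)` for a monic polynomial `m` with lower coefficients in the maximal ideal of `V`.
-/

open IsLocalRing Polynomial

namespace CV

namespace Md

variable {V L k S SL Sk : Type} [CommRing V] [IsDomain V] [IsDiscreteValuationRing V] [Field L]
  [Field k] [Algebra V L] [IsFractionRing V L] [Algebra V k] [CommRing S] [CommRing SL]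
  [CommRing Sk] [Algebra V S] [Algebra L SL] [Algebra k Sk] (M : Md V L k S SL Sk) {Ω : Type}
  [Field Ω] [Algebra L Ω] {W : ValuationSubring Ω}

theorem dcA_alg (φ : SL →ₐ[L] Ω) (c : V) :
    φ (M.i (algebraMap V S c)) = algebraMap L Ω (algebraMap V L c) := by
  rw [M.i_alg, φ.commutes]

theorem dcA_aeval (φ : SL →ₐ[L] Ω) (s : S) (p : V[X]) :
    φ (M.i (aeval s p)) = aeval (φ (M.i s)) (p.map (algebraMap V L)) := by
  have h1 : φ (M.i (aeval s p)) =
      ((φ : SL →+* Ω).comp M.i) (eval₂ (algebraMap V S) s p) := rfl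
  rw [h1, hom_eval₂, aeval_def, eval₂_map]
  congr 1
  ext c
  exact M.dcA_alg φ c

/-- A monic polynomial whose lower coefficients are divisible by `π`. -/
theorem dcA_mon {π : V} (hπ : Irreducible π) {m : V[X]} (hm : m.Monic)
    (hl : ∀ j < m.natDegree, m.coeff j ∈ maximalIdeal V) (z : S) :
    ∃ g : S, aeval z m = z ^ m.natDegree + algebraMap V S π * g := by
  have h1 : ∀ j, ∃ d : V, j < m.natDegree → m.coeff j = π * d := by
    intro j
    by_cases hj : j < m.natDegree
    · have h2 := hl j hj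
      rw [hπ.maximalIdeal_eq, Ideal.mem_span_singleton] at h2
      obtain ⟨d, hd⟩ := h2
      exact ⟨d, fun _ => hd⟩
    · exact ⟨0, fun h => absurd h hj⟩
  choose d hd using h1
  refine ⟨∑ j ∈ Finset.range m.natDegree, algebraMap V S (d j) * z ^ j, ?_⟩
  rw [aeval_eq_sum_range, Finset.sum_range_succ, hm.coeff_natDegree, one_smul, add_comm,
    Finset.mul_sum]
  congr 1
  refine Finset.sum_congr rfl fun j hj => ?_
  rw [hd j (Finset.mem_range.1 hj), Algebra.smul_def, map_mul, mul_assoc]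

theorem dcA_q {π : V} (hπ : Irreducible π) {m : V[X]} (hm : m.Monic)
    (hl : ∀ j < m.natDegree, m.coeff j ∈ maximalIdeal V) {z : S} (hq : M.q z ≠ 0) :
    M.q (aeval z m) ≠ 0 := by
  have := M.Dk.isDomain
  obtain ⟨g, hg⟩ := dcA_mon (S := S) hπ hm hl z
  have h1 : M.q (aeval z m) = M.q (z ^ m.natDegree) := (M.q_eq_iff hπ).2 ⟨g, hg⟩
  rw [h1, map_pow]
  exact pow_ne_zero _ hq

/-- Elements outside `N` are units of `V` modulo `N`. -/
theorem dcA_unit {N : Ideal S} (hN : Cs V N) (hk : ∀ s : S, ∃ c : V, s - algebraMap V S c ∈ N)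
    {t : S} (ht : t ∉ N) : ∃ u u' : V, u * u' = 1 ∧ t - algebraMap V S u ∈ N := by
  obtain ⟨c, hc⟩ := hk t
  have h1 : c ∉ maximalIdeal V := fun h => ht (by
    have := N.add_mem hc (hN.2 c h)
    rwa [sub_add_cancel] at this)
  have h2 : IsUnit c := by
    by_contra h
    exact h1 ((mem_maximalIdeal c).2 h)
  obtain ⟨d, hd⟩ := h2.exists_right_inv
  exact ⟨c, d, hd, hc⟩

/-- Approximation by polynomials in the local parameter. -/
theorem dcA_step {π : V} {N : Ideal S} (hN : Cs V N)
    (hk : ∀ s : S, ∃ c : V, s - algebraMap V S c ∈ N) {z : S} (hz : Rgl π N z) (x : S) (j : ℕ) :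
    ∃ p : V[X], p.degree < j ∧ ∃ t, t ∉ N ∧ ∃ y y',
      t * (x - aeval z p) = z ^ j * y + algebraMap V S π * y' := by
  have hP := hN.1.isPrime
  induction j with
  | zero =>
    refine ⟨0, ?_, 1, fun h => hP.ne_top ((Ideal.eq_top_iff_one N).2 h), x, 0, by
      rw [map_zero]; ring⟩
    rw [degree_zero]
    exact WithBot.bot_lt_coe _
  | succ j ih =>
    obtain ⟨p, hp, t, ht, y, y', h⟩ := ih
    obtain ⟨u, u', hu, hn⟩ := dcA_unit hN hk ht
    obtain ⟨c, hc⟩ := hk y
    obtain ⟨s, hs, hw⟩ := hz.2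
    obtain ⟨w, w', h1⟩ := hw _ hc
    obtain ⟨w2, w2', h2⟩ := hw _ hn
    refine ⟨p + C (c * u') * X ^ j, ?_, t * s, fun h => (hP.mem_or_mem h).elim ht hs,
      w - algebraMap V S (c * u') * w2,
      z ^ j * w' + s * y' - algebraMap V S (c * u') * z ^ j * w2', ?_⟩
    · refine lt_of_le_of_lt (degree_add_le _ _) (max_lt ?_ ?_)
      · exact hp.trans (by exact_mod_cast Nat.lt_succ_self j)
      · refine lt_of_le_of_lt (degree_C_mul_X_pow_le j _) ?_
        exact_mod_cast Nat.lt_succ_self j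
    · have h3 : algebraMap V S u * algebraMap V S u' = 1 := by rw [← map_mul, hu, map_one]
      rw [map_add, map_mul, aeval_C, map_pow, aeval_X, map_mul]
      linear_combination s * h + z ^ j * h1 -
        algebraMap V S c * algebraMap V S u' * z ^ j * h2 -
        z ^ j * s * algebraMap V S c * h3

theorem dcA_rep [IsAdicComplete (maximalIdeal V) V] {π : V} (hπ : Irreducible π) {N : Ideal S}
    (hN : Cs V N) (hT : ∀ N' ∈ ({N} : Set (Ideal S)), N'.IsPrime)
    (hk : ∀ s : S, ∃ c : V, s - algebraMap V S c ∈ N) {z : S} (hz : Rgl π N z) (hq : M.q z ≠ 0)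
    {m : V[X]} (hm : m.Monic) (hl : ∀ j < m.natDegree, m.coeff j ∈ maximalIdeal V) (x : S) :
    ∃ p : V[X], p.degree < m.degree ∧ x - aeval z p ∈ It {N} hT (aeval z m) := by
  have hC : ∀ N' ∈ ({N} : Set (Ideal S)), Cs V N' := by
    rintro _ rfl
    exact hN
  have hqa := M.dcA_q hπ hm hl hq
  obtain ⟨g, hg⟩ := dcA_mon (S := S) hπ hm hl z
  have hfin : Module.Finite V (S ⧸ It {N} hT (aeval z m)) :=
    M.it_fin (Set.finite_singleton N) hC hT hqa
  have hm0 : m ≠ 0 := hm.ne_zero
  have key : ∀ x : S, ∃ p : V[X], p.degree < m.degree ∧ ∃ z',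
      x - aeval z p - algebraMap V S π * z' ∈ It {N} hT (aeval z m) := by
    intro x
    obtain ⟨p, hp, t, ht, y, y', h⟩ := dcA_step hN hk hz x m.natDegree
    have hts : t ∈ St ({N} : Set (Ideal S)) := by
      rintro _ rfl
      exact ht
    obtain ⟨z', hz'⟩ := M.it_pow (Set.finite_singleton N) hC hT hqa
      (x := x - aeval z p) (y := y) (z := y' - g * y) hts π (by
        rw [hg]
        linear_combination h)
    exact ⟨p, by rwa [degree_eq_natDegree hm0], z', hz'⟩
  let P : Submodule V (S ⧸ It {N} hT (aeval z m)) :=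
    (degreeLT V m.natDegree).map
      ((Ideal.Quotient.mkₐ V (It {N} hT (aeval z m))).comp (aeval z)).toLinearMap
  have hP : (⊤ : Submodule V (S ⧸ It {N} hT (aeval z m))) ≤ P := by
    refine Submodule.le_of_le_smul_of_le_jacobson_bot hfin.fg_top
      (IsLocalRing.maximalIdeal_le_jacobson ⊥) ?_
    rintro w -
    obtain ⟨x, rfl⟩ := Ideal.Quotient.mk_surjective w
    obtain ⟨p, hp, z', hz'⟩ := key x
    have h1 : Ideal.Quotient.mk (It {N} hT (aeval z m)) x =
        Ideal.Quotient.mk (It {N} hT (aeval z m)) (aeval z p) +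
          π • Ideal.Quotient.mk (It {N} hT (aeval z m)) z' := by
      have h2 : π • Ideal.Quotient.mk (It {N} hT (aeval z m)) z' =
          Ideal.Quotient.mk (It {N} hT (aeval z m)) (algebraMap V S π * z') := by
        rw [map_mul, Algebra.smul_def]
        rfl
      rw [h2, ← map_add, Ideal.Quotient.eq, ← sub_sub]
      exact hz'
    rw [h1]
    refine Submodule.add_mem_sup ?_ (Submodule.smul_mem_smul ?_ Submodule.mem_top)
    · refine Submodule.mem_map_of_mem (f := ((Ideal.Quotient.mkₐ V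
        (It {N} hT (aeval z m))).comp (aeval z)).toLinearMap) ?_
      rw [mem_degreeLT, ← degree_eq_natDegree hm0]
      exact hp
    · rw [hπ.maximalIdeal_eq]
      exact Ideal.mem_span_singleton_self π
  obtain ⟨p, hp, hpx⟩ := hP (Submodule.mem_top (x := Ideal.Quotient.mk _ x))
  refine ⟨p, ?_, ?_⟩
  · rw [SetLike.mem_coe, mem_degreeLT, ← degree_eq_natDegree hm0] at hp
    exact hp
  · rw [← Ideal.Quotient.eq]
    exact hpx.symm

/-- The order at `0` of the reduction of a polynomial. -/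
theorem dcA_ord {π : V} (hπ : Irreducible π) (z : S) (e : ℕ) : ∀ p : V[X], p.degree < e →
    p.map (residue V) ≠ 0 → ∃ i < e, ∃ (c c' : V) (u v : S), c * c' = 1 ∧
      aeval z p = algebraMap V S π * u + z ^ i * (algebraMap V S c + z * v) := by
  induction e with
  | zero =>
    intro p hp h0
    exfalso
    apply h0
    have h1 : p = 0 := by
      rw [← degree_eq_bot]
      rw [Nat.cast_zero] at hp
      exact Nat.WithBot.lt_zero_iff.1 hp
    rw [h1, Polynomial.map_zero]
  | succ e ih =>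
    intro p hp h0
    have h1 : aeval z p = aeval z p.divX * z + algebraMap V S (p.coeff 0) := by
      conv_lhs => rw [← divX_mul_X_add p]
      rw [map_add, map_mul, aeval_X, aeval_C]
    by_cases hc : p.coeff 0 ∈ maximalIdeal V
    · have h2 : p.divX.map (residue V) ≠ 0 := by
        intro h3
        apply h0
        rw [← divX_mul_X_add p, Polynomial.map_add, Polynomial.map_mul, h3, map_C,
          (residue_eq_zero_iff _).2 hc, map_zero, zero_mul, zero_add]
      have hp0 : p ≠ 0 := by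
        rintro rfl
        exact h0 (by rw [Polynomial.map_zero])
      have h3 : p.divX.degree < e := by
        refine lt_of_lt_of_le (degree_divX_lt hp0) ?_
        rw [degree_eq_natDegree hp0] at hp ⊢
        have h4 : p.natDegree < e + 1 := by exact_mod_cast hp
        exact_mod_cast Nat.lt_succ_iff.1 h4
      obtain ⟨i, hi, c, c', u, v, hcc, h4⟩ := ih _ h3 h2
      rw [hπ.maximalIdeal_eq, Ideal.mem_span_singleton] at hc
      obtain ⟨d, hd⟩ := hc
      refine ⟨i + 1, Nat.succ_lt_succ hi, c, c', z * u + algebraMap V S d, v, hcc, ?_⟩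
      rw [h1, h4, hd, map_mul]
      ring
    · have h2 : IsUnit (p.coeff 0) := by
        by_contra h
        exact hc ((mem_maximalIdeal _).2 h)
      obtain ⟨d, hd⟩ := h2.exists_right_inv
      exact ⟨0, Nat.succ_pos e, p.coeff 0, d, 0, aeval z p.divX, hd, by rw [h1]; ring⟩

theorem dcA_inj {π : V} (hπ : Irreducible π) {N : Ideal S}
    (hN : Cs V N) (hT : ∀ N' ∈ ({N} : Set (Ideal S)), N'.IsPrime) {z : S} (hzN : z ∈ N)
    (hq : M.q z ≠ 0)
    {m : V[X]} (hm : m.Monic) (hl : ∀ j < m.natDegree, m.coeff j ∈ maximalIdeal V) {p : V[X]}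
    (hp : p.degree < m.degree) (h : aeval z p ∈ It {N} hT (aeval z m)) : p = 0 := by
  classical
  by_contra hp0
  have hP := hN.1.isPrime
  have hdk := M.Dk.isDomain
  have hqa := M.dcA_q hπ hm hl hq
  obtain ⟨g, hg⟩ := dcA_mon (S := S) hπ hm hl z
  obtain ⟨inst⟩ : Nonempty (NormalizedGCDMonoid V) := inferInstance
  have hc0 : p.content ≠ 0 := by rwa [Ne, content_eq_zero_iff]
  have h1 : aeval z p.primPart ∈ It {N} hT (aeval z m) := by
    refine M.it_tf hT hqa hc0 ?_
    have h2 : algebraMap V S p.content * aeval z p.primPart = aeval z p := by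
      conv_rhs => rw [eq_C_content_mul_primPart p, map_mul, aeval_C]
    rw [h2]
    exact h
  have h2 : p.primPart.map (residue V) ≠ 0 := by
    intro h3
    have h4 : C π ∣ p.primPart := by
      rw [C_dvd_iff_dvd_coeff]
      intro i
      have h5 : residue V (p.primPart.coeff i) = 0 := by
        rw [← coeff_map, h3, coeff_zero]
      rw [residue_eq_zero_iff, hπ.maximalIdeal_eq, Ideal.mem_span_singleton] at h5
      exact h5
    exact hπ.not_isUnit (p.isPrimitive_primPart π h4)
  have h3 : p.primPart.degree < m.natDegree := by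
    rw [degree_eq_natDegree (fun h => h2 (by rw [h, Polynomial.map_zero])), natDegree_primPart,
      ← degree_eq_natDegree hp0, ← degree_eq_natDegree hm.ne_zero]
    exact hp
  obtain ⟨i, hi, c, c', u, v, hcc, h4⟩ := dcA_ord (S := S) hπ z _ _ h3 h2
  obtain ⟨t, ht, y, h5⟩ := mem_It.1 h1
  have htN : t ∉ N := ht N rfl
  obtain ⟨j, hj⟩ := Nat.exists_eq_add_of_lt hi
  have h6 : M.q (t * (algebraMap V S c + z * v) - z ^ (j + 1) * y) = 0 := by
    have h7 : M.q (z ^ i) * M.q (t * (algebraMap V S c + z * v) - z ^ (j + 1) * y) = 0 := by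
      rw [← map_mul, M.ker_iff hπ]
      refine ⟨g * y - t * u, ?_⟩
      rw [h4, hg, hj] at h5
      linear_combination h5
    rcases mul_eq_zero.1 h7 with h8 | h8
    · rw [map_pow] at h8
      exact absurd h8 (pow_ne_zero _ hq)
    · exact h8
  obtain ⟨w, hw⟩ := (M.ker_iff hπ).1 h6
  have hπN : algebraMap V S π ∈ N := hN.2 π (by
    rw [hπ.maximalIdeal_eq]
    exact Ideal.mem_span_singleton_self π)
  have h7 : t * algebraMap V S c ∈ N := by
    have h8 : t * algebraMap V S c = z * (z ^ j * y - t * v) + algebraMap V S π * w := by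
      linear_combination hw
    rw [h8]
    exact N.add_mem (N.mul_mem_right _ hzN) (N.mul_mem_right _ hπN)
  apply htN
  have h8 : t = t * algebraMap V S c * algebraMap V S c' := by
    rw [mul_assoc, ← map_mul, hcc, map_one, mul_one]
  rw [h8]
  exact N.mul_mem_right _ h7

/-- `It {N} (m z)` is contained in `N`. -/
theorem dcA_le {π : V} (hπ : Irreducible π) {N : Ideal S}
    (hN : Cs V N) (hT : ∀ N' ∈ ({N} : Set (Ideal S)), N'.IsPrime) {z : S} (hzN : z ∈ N)
    {m : V[X]} (hm : m.Monic) (hl : ∀ j < m.natDegree, m.coeff j ∈ maximalIdeal V)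
    (h0 : 0 < m.natDegree) : It {N} hT (aeval z m) ≤ N := by
  intro x hx
  have hP := hN.1.isPrime
  obtain ⟨s, hs, y, h⟩ := mem_It.1 hx
  obtain ⟨g, hg⟩ := dcA_mon (S := S) hπ hm hl z
  have hπN : algebraMap V S π ∈ N := hN.2 π (by
    rw [hπ.maximalIdeal_eq]
    exact Ideal.mem_span_singleton_self π)
  have h1 : s * x ∈ N := by
    rw [h, hg]
    exact N.mul_mem_right _ (N.add_mem (Ideal.pow_mem_of_mem N hzN _ h0)
      (N.mul_mem_right _ hπN))
  exact (hP.mem_or_mem h1).resolve_left (hs N rfl)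

/-- The quotient of `S` by `It {N} (m z)` is `V[X] / (m)`. -/
theorem dcA_iso [IsAdicComplete (maximalIdeal V) V] {π : V} (hπ : Irreducible π) {N : Ideal S}
    (hN : Cs V N) (hT : ∀ N' ∈ ({N} : Set (Ideal S)), N'.IsPrime)
    (hk : ∀ s : S, ∃ c : V, s - algebraMap V S c ∈ N) {z : S} (hz : Rgl π N z) (hq : M.q z ≠ 0)
    {m : V[X]} (hm : m.Monic) (hl : ∀ j < m.natDegree, m.coeff j ∈ maximalIdeal V) :
    ∃ ψ : S →ₐ[V] AdjoinRoot m, ψ z = AdjoinRoot.root m ∧
      ∀ x, ψ x = 0 ↔ x ∈ It {N} hT (aeval z m) := by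
  let I : Ideal S := It {N} hT (aeval z m)
  have haI : aeval z m ∈ I := mem_It.2 ⟨1, st_one hT, 1, by ring⟩
  have h0 : aeval (Ideal.Quotient.mkₐ V I z) m = 0 := by
    rw [aeval_algHom_apply]
    exact Ideal.Quotient.eq_zero_iff_mem.2 haI
  let f : AdjoinRoot m →ₐ[V] (S ⧸ I) :=
    AdjoinRoot.liftAlgHom m (Algebra.ofId V (S ⧸ I)) (Ideal.Quotient.mkₐ V I z) h0
  have hf : ∀ p : V[X], f (AdjoinRoot.mk m p) = Ideal.Quotient.mk I (aeval z p) := by
    intro p
    have h1 : f (AdjoinRoot.mk m p) = aeval (Ideal.Quotient.mkₐ V I z) p := by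
      exact AdjoinRoot.liftAlgHom_mk _ _ _ _ _
    rw [h1, aeval_algHom_apply]
    rfl
  have hinj : Function.Injective f := by
    rw [injective_iff_map_eq_zero]
    intro y hy
    obtain ⟨p, rfl⟩ := AdjoinRoot.mk_surjective y
    have h1 : AdjoinRoot.mk m p = AdjoinRoot.mk m (p %ₘ m) := by
      rw [AdjoinRoot.mk_eq_mk]
      exact ⟨p /ₘ m, by linear_combination -(modByMonic_add_div p m)⟩
    rw [h1, hf, Ideal.Quotient.eq_zero_iff_mem] at hy
    rw [h1, M.dcA_inj hπ hN hT hz.1 hq hm hl (degree_modByMonic_lt p hm) hy, map_zero]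
  have hsur : Function.Surjective f := by
    intro w
    obtain ⟨x, rfl⟩ := Ideal.Quotient.mk_surjective w
    obtain ⟨p, -, hp⟩ := M.dcA_rep hπ hN hT hk hz hq hm hl x
    refine ⟨AdjoinRoot.mk m p, ?_⟩
    rw [hf, eq_comm, Ideal.Quotient.eq]
    exact hp
  let e := AlgEquiv.ofBijective f ⟨hinj, hsur⟩
  refine ⟨(e.symm : (S ⧸ I) →ₐ[V] AdjoinRoot m).comp (Ideal.Quotient.mkₐ V I), ?_, ?_⟩
  · have h1 : e (AdjoinRoot.root m) = Ideal.Quotient.mkₐ V I z := by
      have h2 := hf X
      rw [aeval_X] at h2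
      exact h2
    have h3 : e.symm (Ideal.Quotient.mkₐ V I z) = AdjoinRoot.root m := by
      rw [← h1, AlgEquiv.symm_apply_apply]
    exact h3
  · intro x
    have h1 : ((e.symm : (S ⧸ I) →ₐ[V] AdjoinRoot m).comp (Ideal.Quotient.mkₐ V I)) x =
      e.symm (Ideal.Quotient.mk I x) := rfl
    rw [h1, map_eq_zero_iff _ e.symm.injective, Ideal.Quotient.eq_zero_iff_mem]

theorem dcA_mul_mem {a b : Ω} (ha : a ∈ W) (hb : b ∈ W.nonunits) : a * b ∈ W.nonunits := by
  rw [ValuationSubring.mem_nonunits_iff] at hb ⊢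
  rw [map_mul]
  have h1 : W.valuation a ≤ 1 := (W.valuation_le_one_iff a).2 ha
  calc W.valuation a * W.valuation b ≤ 1 * W.valuation b := mul_le_mul' h1 le_rfl
    _ = W.valuation b := one_mul _
    _ < 1 := hb

theorem dcA_one : (1 : Ω) ∉ W.nonunits := by
  rw [ValuationSubring.mem_nonunits_iff, map_one]
  exact lt_irrefl _

theorem dcA_nonunit_mem {a : Ω} (ha : a ∈ W.nonunits) : a ∈ W := by
  rw [ValuationSubring.mem_nonunits_iff] at ha
  exact (W.valuation_le_one_iff a).1 ha.le

omit [IsFractionRing V L] in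
theorem dcA_unit_notin (hW : Wv V L W) {u u' : V} (hu : u * u' = 1) :
    algebraMap L Ω (algebraMap V L u) ∉ W.nonunits := by
  intro h
  have h1 := dcA_mul_mem (hW.mem u') h
  rw [← map_mul, ← map_mul, mul_comm u', hu, map_one, map_one] at h1
  exact dcA_one h1

theorem dcA_val (hW : Wv V L W) {x : L} (hx : algebraMap L Ω x ∈ W) :
    ∃ c : V, algebraMap V L c = x := by
  rcases ValuationRing.isInteger_or_isInteger V x with h1 | h1
  · exact h1
  · obtain ⟨b, hb⟩ := h1
    by_cases hx0 : x = 0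
    · exact ⟨0, by rw [hx0, map_zero]⟩
    by_cases hu : IsUnit b
    · obtain ⟨d, hd⟩ := hu.exists_right_inv
      refine ⟨d, ?_⟩
      have h2 : algebraMap V L b * algebraMap V L d = 1 := by rw [← map_mul, hd, map_one]
      rw [hb] at h2
      have h3 : x * (x⁻¹ * algebraMap V L d) = x * 1 := by rw [h2]
      rwa [← mul_assoc, mul_inv_cancel₀ hx0, one_mul, mul_one] at h3
    · exfalso
      have h2 := dcA_mul_mem hx (hW.lt b ((mem_maximalIdeal b).2 hu))
      rw [hb, ← map_mul, mul_inv_cancel₀ hx0, map_one] at h2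
      exact dcA_one h2

omit [IsFractionRing V L] in
theorem dcA_val' (hW : Wv V L W) {c : V} (hc : algebraMap L Ω (algebraMap V L c) ∈ W.nonunits) :
    c ∈ maximalIdeal V := by
  rw [mem_maximalIdeal]
  intro hu
  obtain ⟨d, hd⟩ := hu.exists_right_inv
  exact dcA_unit_notin hW hd hc

/-- Automorphisms which preserve `W` preserve its maximal ideal. -/
theorem dcA_conj (hg : ∀ (σ : Ω ≃ₐ[L] Ω) (x : Ω), x ∈ W → σ x ∈ W) (σ : Ω ≃ₐ[L] Ω) {x : Ω}
    (hx : x ∈ W.nonunits) : σ x ∈ W.nonunits := by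
  by_cases hx0 : x = 0
  · rwa [hx0, map_zero, ← hx0]
  by_contra h
  have h1 : (σ x)⁻¹ ∈ W := by
    rcases W.mem_or_inv_mem (σ x)⁻¹ with h2 | h2
    · exact h2
    · rw [inv_inv] at h2
      rw [ValuationSubring.mem_nonunits_iff, not_lt] at h
      rw [← W.valuation_le_one_iff, map_inv₀]
      exact inv_le_one_of_one_le₀ h
  have h2 := hg σ.symm _ h1
  rw [map_inv₀, AlgEquiv.symm_apply_apply] at h2
  have h3 := dcA_mul_mem h2 hx
  rw [inv_mul_cancel₀ hx0] at h3
  exact dcA_one h3

/-- The lower coefficients of a product of linear factors with roots in the maximal ideal of `W`. -/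
theorem dcA_prod (s : Multiset Ω) (hs : ∀ a ∈ s, a ∈ W.nonunits) :
    ∀ j < s.card, ((s.map (fun a => X - C a)).prod).coeff j ∈ W.nonunits := by
  induction s using Multiset.induction_on with
  | empty =>
    intro j hj
    exact absurd hj (by simp)
  | cons a s ih =>
    intro j hj
    rw [Multiset.map_cons, Multiset.prod_cons, sub_mul, coeff_sub, coeff_C_mul]
    have ih' := ih fun b hb => hs b (Multiset.mem_cons_of_mem hb)
    have hcard : ((s.map (fun a => X - C a)).prod).natDegree = s.card := by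
      rw [natDegree_multiset_prod_of_monic]
      · simp
      · intro f hf
        obtain ⟨b, -, rfl⟩ := Multiset.mem_map.1 hf
        exact monic_X_sub_C b
    have hmon : ((s.map (fun a => X - C a)).prod).Monic := by
      refine monic_multiset_prod_of_monic _ _ fun b _ => monic_X_sub_C b
    have hall : ∀ i, ((s.map (fun a => X - C a)).prod).coeff i ∈ W := by
      intro i
      rcases lt_trichotomy i s.card with h1 | h1 | h1
      · exact dcA_nonunit_mem (ih' i h1)
      · rw [h1, ← hcard, hmon.coeff_natDegree]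
        exact W.one_mem
      · rw [coeff_eq_zero_of_natDegree_lt (by rw [hcard]; exact h1)]
        exact W.zero_mem
    have h1 : a * ((s.map (fun a => X - C a)).prod).coeff j ∈ W.nonunits := by
      rw [mul_comm]
      exact dcA_mul_mem (hall j) (hs a (Multiset.mem_cons_self a s))
    have h2 : (X * (s.map (fun a => X - C a)).prod).coeff j ∈ W.nonunits := by
      cases j with
      | zero =>
        rw [mul_coeff_zero, coeff_X_zero, zero_mul]
        exact W.nonunits.zero_mem
      | succ j =>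
        rw [coeff_X_mul]
        refine ih' j ?_
        rw [Multiset.card_cons] at hj
        omega
    rw [sub_eq_add_neg]
    refine W.nonunits.add_mem h2 ?_
    have h3 : -(a * ((s.map (fun a => X - C a)).prod).coeff j) =
        (-1) * (a * ((s.map (fun a => X - C a)).prod).coeff j) := by ring
    rw [h3]
    exact dcA_mul_mem (W.neg_mem _ W.one_mem) h1

/-- The minimal polynomial of an element of the maximal ideal of `W`. -/
theorem dcA_minpoly [IsAlgClosure L Ω] (hW : Wv V L W)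
    (hg : ∀ (σ : Ω ≃ₐ[L] Ω) (x : Ω), x ∈ W → σ x ∈ W) {c : Ω} (hc : c ∈ W.nonunits) :
    ∃ μ : V[X], μ.Monic ∧ μ.map (algebraMap V L) = minpoly L c ∧
      (∀ j < μ.natDegree, μ.coeff j ∈ maximalIdeal V) ∧ 0 < μ.natDegree := by
  have halg : IsAlgClosed Ω := IsAlgClosure.isAlgClosed L
  have hint : IsIntegral L c := (IsAlgClosure.isAlgebraic (R := L) (K := Ω)).isAlgebraic c |>.isIntegral
  have hmon := minpoly.monic hint
  have hroot : ∀ a ∈ ((minpoly L c).map (algebraMap L Ω)).roots, a ∈ W.nonunits := by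
    intro a ha
    rw [mem_roots (map_ne_zero hmon.ne_zero), IsRoot.def, eval_map, ← aeval_def] at ha
    have hn : Normal L Ω := IsAlgClosure.normal L Ω
    have h1 : IsConjRoot L c a := by
      rw [isConjRoot_iff_aeval_eq_zero hint]
      exact ha
    obtain ⟨σ, hσ⟩ := isConjRoot_iff_exists_algEquiv.1 h1
    have h2 := dcA_conj hg σ.symm hc
    rwa [← hσ, AlgEquiv.symm_apply_apply] at h2
  have hsp : (minpoly L c).map (algebraMap L Ω) =
      (((minpoly L c).map (algebraMap L Ω)).roots.map (fun a => X - C a)).prod := by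
    exact (IsAlgClosed.splits _).eq_prod_roots_of_monic (hmon.map _)
  have hcard : ((minpoly L c).map (algebraMap L Ω)).roots.card = (minpoly L c).natDegree := by
    rw [← natDegree_map (algebraMap L Ω)]
    exact (IsAlgClosed.splits _).natDegree_eq_card_roots.symm
  have hco : ∀ j < (minpoly L c).natDegree,
      algebraMap L Ω ((minpoly L c).coeff j) ∈ W.nonunits := by
    intro j hj
    rw [← coeff_map, hsp]
    exact dcA_prod _ hroot j (by rw [hcard]; exact hj)
  have hlift : minpoly L c ∈ lifts (algebraMap V L) := by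
    rw [lifts_iff_coeff_lifts]
    intro j
    rcases lt_trichotomy j (minpoly L c).natDegree with h1 | h1 | h1
    · exact dcA_val hW (dcA_nonunit_mem (hco j h1))
    · exact ⟨1, by rw [h1, hmon.coeff_natDegree, map_one]⟩
    · exact ⟨0, by rw [coeff_eq_zero_of_natDegree_lt h1, map_zero]⟩
  obtain ⟨μ, h1, h2, h3⟩ := lifts_and_degree_eq_and_monic hlift hmon
  have h4 : μ.natDegree = (minpoly L c).natDegree := natDegree_eq_of_degree_eq h2
  refine ⟨μ, h3, h1, ?_, ?_⟩
  · intro j hj
    rw [h4] at hj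
    refine dcA_val' hW ?_
    rw [← coeff_map, h1]
    exact hco j hj
  · rw [h4]
    exact minpoly.natDegree_pos hint

/-- The elements of `S` which vanish at a point above `N`. -/
theorem dcA_ker [IsAdicComplete (maximalIdeal V) V] {π : V} (hπ : Irreducible π) {N : Ideal S}
    (hN : Cs V N) (hT : ∀ N' ∈ ({N} : Set (Ideal S)), N'.IsPrime)
    (hk : ∀ s : S, ∃ c : V, s - algebraMap V S c ∈ N) {z : S} (hz : Rgl π N z) (hq : M.q z ≠ 0)
    {φ : SL →ₐ[L] Ω} (h : M.Ov W φ N) {μ : V[X]} (hm : μ.Monic)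
    (hl : ∀ j < μ.natDegree, μ.coeff j ∈ maximalIdeal V)
    (hμ : μ.map (algebraMap V L) = minpoly L (φ (M.i z))) (x : S) :
    φ (M.i x) = 0 ↔ x ∈ It {N} hT (aeval z μ) := by
  have ha : φ (M.i (aeval z μ)) = 0 := by
    rw [M.dcA_aeval, hμ, minpoly.aeval]
  have hback : ∀ x ∈ It {N} hT (aeval z μ), φ (M.i x) = 0 := by
    intro x hx
    obtain ⟨s, hs, y, e⟩ := mem_It.1 hx
    have h1 : φ (M.i s) * φ (M.i x) = 0 := by
      rw [← map_mul, ← map_mul, e, map_mul, map_mul, ha, zero_mul]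
    exact (mul_eq_zero.1 h1).resolve_left (M.ov_ne h (hs N rfl))
  refine ⟨fun hx => ?_, hback x⟩
  obtain ⟨p, hp, hpx⟩ := M.dcA_rep hπ hN hT hk hz hq hm hl x
  have h1 : φ (M.i (aeval z p)) = 0 := by
    have h2 := hback _ hpx
    rw [map_sub, map_sub, hx, zero_sub, neg_eq_zero] at h2
    exact h2
  rw [M.dcA_aeval] at h1
  have hinj : Function.Injective (algebraMap V L) := IsFractionRing.injective V L
  have h2 : p.map (algebraMap V L) = 0 := by
    by_contra h3
    have h4 := minpoly.degree_le_of_ne_zero L (φ (M.i z)) h3 h1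
    rw [← hμ, degree_map_eq_of_injective hinj, degree_map_eq_of_injective hinj] at h4
    exact absurd hp (not_lt.2 h4)
  have h3 : p = 0 := by
    rwa [Polynomial.map_eq_zero_iff hinj] at h2
  rw [h3, map_zero, sub_zero] at hpx
  exact hpx

/-- Homomorphisms of `S` extend to the generic fibre. -/
theorem dcA_ext (f : S →+* Ω) (hf : ∀ c : V, f (algebraMap V S c) =
    algebraMap L Ω (algebraMap V L c)) : ∃ φ : SL →ₐ[L] Ω, ∀ s, φ (M.i s) = f s := by
  let _ : Algebra S SL := M.i.toAlgebra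
  have hnt := M.DL.nontrivial
  have hinj : Function.Injective (algebraMap V L) := IsFractionRing.injective V L
  let P : Submonoid S := (nonZeroDivisors V).map (algebraMap V S)
  have hloc : IsLocalization P SL := by
    refine ⟨?_, ?_, ?_⟩
    · rintro ⟨_, c, hc, rfl⟩
      have h1 : algebraMap S SL (algebraMap V S c) = algebraMap L SL (algebraMap V L c) :=
        M.i_alg c
      show IsUnit (algebraMap S SL (algebraMap V S c))
      rw [h1]
      refine (IsUnit.mk0 _ ?_).map _
      rw [Ne, map_eq_zero_iff _ hinj]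
      exact nonZeroDivisors.ne_zero hc
    · intro x
      obtain ⟨c, hc, s, h⟩ := M.loc x
      refine ⟨(s, ⟨algebraMap V S c, c, mem_nonZeroDivisors_of_ne_zero hc, rfl⟩), ?_⟩
      show x * M.i (algebraMap V S c) = M.i s
      rw [M.i_alg, mul_comm, h]
    · intro x y h
      exact ⟨1, by rw [M.inj h]⟩
  have hu : ∀ y : P, IsUnit (f y) := by
    rintro ⟨_, c, hc, rfl⟩
    show IsUnit (f (algebraMap V S c))
    rw [hf]
    refine IsUnit.mk0 _ ?_
    rw [Ne, map_eq_zero_iff _ (algebraMap L Ω).injective, map_eq_zero_iff _ hinj]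
    exact nonZeroDivisors.ne_zero hc
  let g : SL →+* Ω := IsLocalization.lift hu
  have hg : ∀ s, g (M.i s) = f s := fun s => IsLocalization.lift_eq hu s
  have hcomp : g.comp (algebraMap L SL) = algebraMap L Ω := by
    refine IsLocalization.ringHom_ext (nonZeroDivisors V) ?_
    ext c
    show g (algebraMap L SL (algebraMap V L c)) = algebraMap L Ω (algebraMap V L c)
    rw [← M.i_alg, hg, hf]
  exact ⟨{ g with commutes' := fun l => RingHom.congr_fun hcomp l }, hg⟩

/-- The quotient description gives the points of the disc. -/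
theorem dcA_pt [IsAdicComplete (maximalIdeal V) V] [IsAlgClosure L Ω] (hW : Wv V L W) {π : V}
    (hπ : Irreducible π) {N : Ideal S} (hN : Cs V N)
    (hk : ∀ s : S, ∃ c : V, s - algebraMap V S c ∈ N)
    (hg : ∀ (σ : Ω ≃ₐ[L] Ω) (x : Ω), x ∈ W → σ x ∈ W) {z : S} (hz : Rgl π N z) (hq : M.q z ≠ 0)
    {c : Ω} (hc : c ∈ W.nonunits) : ∃ φ : SL →ₐ[L] Ω, M.Ov W φ N ∧ φ (M.i z) = c := by
  have hT : ∀ N' ∈ ({N} : Set (Ideal S)), N'.IsPrime := by
    rintro _ rfl
    exact hN.1.isPrime
  obtain ⟨μ, hm, hμ, hl, h0⟩ := dcA_minpoly (V := V) (L := L) hW hg hc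
  obtain ⟨ψ, hψz, hψ⟩ := M.dcA_iso hπ hN hT hk hz hq hm hl
  have hcμ : eval₂ ((algebraMap L Ω).comp (algebraMap V L)) c μ = 0 := by
    rw [← eval₂_map, hμ, ← aeval_def, minpoly.aeval]
  let χ : AdjoinRoot μ →+* Ω := AdjoinRoot.lift ((algebraMap L Ω).comp (algebraMap V L)) c hcμ
  obtain ⟨φ, hφ⟩ := M.dcA_ext (χ.comp (ψ : S →+* AdjoinRoot μ)) (fun d => by
    show χ (ψ (algebraMap V S d)) = _
    rw [ψ.commutes]
    exact AdjoinRoot.lift_of hcμ)
  have hφz : φ (M.i z) = c := by
    rw [hφ]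
    show χ (ψ z) = c
    rw [hψz]
    exact AdjoinRoot.lift_root hcμ
  have hI : ∀ x ∈ It {N} hT (aeval z μ), φ (M.i x) = 0 := by
    intro x hx
    rw [hφ]
    show χ (ψ x) = 0
    rw [(hψ x).2 hx, map_zero]
  have hsum : ∀ p : V[X], φ (M.i (aeval z p)) = c * φ (M.i (aeval z p.divX)) +
      algebraMap L Ω (algebraMap V L (p.coeff 0)) := by
    intro p
    conv_lhs => rw [← divX_mul_X_add p]
    rw [map_add, map_mul, aeval_X, aeval_C, map_add, map_mul, map_add, map_mul, hφz,
      M.dcA_alg, mul_comm]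
  have hpW : ∀ p : V[X], φ (M.i (aeval z p)) ∈ W := by
    intro p
    rw [M.dcA_aeval, hφz, aeval_def, eval₂_map, eval₂_eq_sum_range]
    exact W.toSubring.sum_mem fun j _ => W.mul_mem _ _ (hW.mem _)
      (W.toSubring.pow_mem (dcA_nonunit_mem hc) _)
  have hIg : M.Ig W φ := by
    intro s
    obtain ⟨p, -, hp⟩ := M.dcA_rep hπ hN hT hk hz hq hm hl s
    have h1 := hI _ hp
    rw [map_sub, map_sub, sub_eq_zero] at h1
    rw [h1]
    exact hpW p
  have hN1 : ∀ s ∈ N, φ (M.i s) ∈ W.nonunits := by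
    intro s hs
    obtain ⟨p, -, hp⟩ := M.dcA_rep hπ hN hT hk hz hq hm hl s
    have h1 := hI _ hp
    rw [map_sub, map_sub, sub_eq_zero] at h1
    have h2 : aeval z p ∈ N := by
      have h3 := dcA_le hπ hN hT hz.1 hm hl h0 hp
      have h4 := N.sub_mem hs h3
      rwa [sub_sub_cancel] at h4
    have h3 : algebraMap V S (p.coeff 0) ∈ N := by
      have h4 : aeval z p = aeval z p.divX * z + algebraMap V S (p.coeff 0) := by
        conv_lhs => rw [← divX_mul_X_add p]
        rw [map_add, map_mul, aeval_X, aeval_C]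
      have h5 : algebraMap V S (p.coeff 0) = aeval z p - aeval z p.divX * z := by
        rw [h4, add_sub_cancel_left]
      rw [h5]
      exact N.sub_mem h2 (N.mul_mem_left _ hz.1)
    have h4 : p.coeff 0 ∈ maximalIdeal V := by
      rw [mem_maximalIdeal]
      intro hu
      exact hN.1.ne_top (N.eq_top_of_isUnit_mem h3 (hu.map _))
    rw [h1, hsum]
    refine W.nonunits.add_mem ?_ (hW.lt _ h4)
    rw [mul_comm]
    exact dcA_mul_mem (hpW _) hc
  refine ⟨φ, ⟨hIg, fun s => ⟨hN1 s, fun hs => ?_⟩⟩, hφz⟩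
  by_contra hsN
  obtain ⟨u, u', hu, hn⟩ := dcA_unit hN hk hsN
  refine dcA_unit_notin (L := L) (Ω := Ω) hW hu ?_
  have h1 : algebraMap L Ω (algebraMap V L u) = φ (M.i s) +
      (-1) * φ (M.i (s - algebraMap V S u)) := by
    rw [map_sub, map_sub, M.dcA_alg]
    ring
  rw [h1]
  exact W.nonunits.add_mem hs (dcA_mul_mem (W.neg_mem _ W.one_mem) (hN1 _ hn))

theorem dcA_uniq [IsAdicComplete (maximalIdeal V) V] [IsAlgClosure L Ω] (hW : Wv V L W) {π : V}
    (hπ : Irreducible π) {N : Ideal S} (hN : Cs V N)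
    (hk : ∀ s : S, ∃ c : V, s - algebraMap V S c ∈ N)
    (hg : ∀ (σ : Ω ≃ₐ[L] Ω) (x : Ω), x ∈ W → σ x ∈ W) {z : S} (hz : Rgl π N z) (hq : M.q z ≠ 0)
    {φ φ' : SL →ₐ[L] Ω} (h : M.Ov W φ N) (h' : M.Ov W φ' N) (he : φ (M.i z) = φ' (M.i z)) :
    φ = φ' := by
  have hT : ∀ N' ∈ ({N} : Set (Ideal S)), N'.IsPrime := by
    rintro _ rfl
    exact hN.1.isPrime
  obtain ⟨μ, hm, hμ, hl, h0⟩ := dcA_minpoly (V := V) (L := L) hW hg ((h.2 z).1 hz.1)
  have hi : ∀ s, φ (M.i s) = φ' (M.i s) := by
    intro s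
    obtain ⟨p, -, hp⟩ := M.dcA_rep hπ hN hT hk hz hq hm hl s
    have h1 := (M.dcA_ker hπ hN hT hk hz hq h hm hl hμ _).2 hp
    have h2 := (M.dcA_ker hπ hN hT hk hz hq h' hm hl (by rw [hμ, he]) _).2 hp
    rw [map_sub, map_sub, sub_eq_zero, M.dcA_aeval] at h1 h2
    rw [h1, h2, he]
  refine AlgHom.ext fun x => ?_
  obtain ⟨c, hc, s, e⟩ := M.loc x
  have h1 : algebraMap L Ω (algebraMap V L c) ≠ 0 := by
    rw [Ne, map_eq_zero_iff _ (algebraMap L Ω).injective,
      map_eq_zero_iff _ (IsFractionRing.injective V L)]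
    exact hc
  refine mul_left_cancel₀ h1 ?_
  have h2 := congrArg φ e
  have h3 := congrArg φ' e
  rw [map_mul, AlgHom.commutes] at h2 h3
  rw [h2, h3, hi]

end Md

end CV
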