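import Pool.Agent.Lib.MP_f80667_ag.Cv.Cg
import Pool.Agent.Lib.MP_f80667_ag.Cv.Rp1
import Pool.Agent.Lib.MP_f80667_ag.Cv.Od
import Pool.Agent.Lib.MP_f80667_ag.Cv.DcA

/-!
The disc of the integral points above a regular closed point with residue field `k`.
-/

open IsLocalRing

namespace CV

namespace Md

variable {V L k S SL Sk : Type} [CommRing V] [IsDomain V] [IsDiscreteValuationRing V] [Field L]
  [Field k] [Algebra V L] [IsFractionRing V L] [Algebra V k] [CommRing S] [CommRing SL]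
  [CommRing Sk] [Algebra V S] [Algebra L SL] [Algebra k Sk] (M : Md V L k S SL Sk) {Ω : Type}
  [Field Ω] [Algebra L Ω] {W : ValuationSubring Ω}

open Polynomial in
/-- **The disc.** `z` is a local parameter at `N`, `S = V + N`: for every `c` in the maximal ideal of `W` there is an integral point `φ` above `N` with `φ z = c`.

Proof. Let `m ∈ V[X]` be the minimal polynomial of `c` over `L` (the conjugates of `c` are in the maximal ideal of `W` by `hg`, and `W ∩ L = V`), of degree `e`; its reduction is `X ^ e`. `a = m (z)`, `Λ = S / It {N} a`, a free `V`-module of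
finite rank (`it_fin`, `it_tf`). By induction on `j`: every `x ∈ S` is, up to an `s ∉ N`, a polynomial of degree `< j` in `z` modulo `(z ^ j, π)`; so `1, z, .., z ^ (e - 1)` generate `Λ / π Λ` and hence `Λ` over `V`, and they are a basis: the rank of `Λ` is `≥ e` (if `Σ_(i < e) c_i z ^ i = 0` in `Λ`, not all `c_i` divisible by `π`, then
`q` of it is a polynomial of order `< e` in `z` up to local units, but a multiple of `z ^ e`). So `Λ = V[X] / (m)`, and `X ↦ c` defines `φ`. -/
theorem disc_pt [IsAdicComplete (maximalIdeal V) V] [CharZero L] [IsAlgClosure L Ω] (hW : Wv V L W) {π : V}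
    (hπ : Irreducible π) {N : Ideal S} (hN : Cs V N)
    (hk : ∀ s : S, ∃ c : V, s - algebraMap V S c ∈ N)
    (hg : ∀ (σ : Ω ≃ₐ[L] Ω) (x : Ω), x ∈ W → σ x ∈ W) {z : S} (hz : Rgl π N z) (hq : M.q z ≠ 0)
    {c : Ω} (hc : c ∈ W.nonunits) : ∃ φ : SL →ₐ[L] Ω, M.Ov W φ N ∧ φ (M.i z) = c :=
  M.dcA_pt hW hπ hN hk hg hz hq hc

/-- The point is unique. Proof: the same description of `Λ`: `φ` and `φ'` vanish on `It {N} (m z)`, so they factor over `V[X] / (m)`. -/
theorem disc_uniq [IsAdicComplete (maximalIdeal V) V] [CharZero L] [IsAlgClosure L Ω] (hW : Wv V L W) {π : V}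
    (hπ : Irreducible π) {N : Ideal S} (hN : Cs V N)
    (hk : ∀ s : S, ∃ c : V, s - algebraMap V S c ∈ N)
    (hg : ∀ (σ : Ω ≃ₐ[L] Ω) (x : Ω), x ∈ W → σ x ∈ W) {z : S} (hz : Rgl π N z) (hq : M.q z ≠ 0)
    {φ φ' : SL →ₐ[L] Ω} (h : M.Ov W φ N) (h' : M.Ov W φ' N) (he : φ (M.i z) = φ' (M.i z)) :
    φ = φ' :=
  M.dcA_uniq hW hπ hN hk hg hz hq h h' he

open Polynomial in
/-- The order of a polynomial in `z`. Proof: let `c = φ z`, `μ` its minimal polynomial over `L`, in `V[X]`. By the description of `S / It {N} (μ z)` in `disc_pt` the elements of `S` which vanish at `φ` are those of `It {N} (μ z)`, so `od φ (i (μ z)) = 1` (`Rg φ`), and for `m = μ ^ j m'`, `m' (c) ≠ 0`, the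
order is `j`, which is the multiplicity of the root `c` of `m` (`μ` is separable). -/
theorem disc_od [IsAdicComplete (maximalIdeal V) V] [CharZero L] [IsAlgClosure L Ω]
    (hW : Wv V L W) {π : V} (hπ : Irreducible π) {N : Ideal S} (hN : Cs V N)
    (hk : ∀ s : S, ∃ c : V, s - algebraMap V S c ∈ N)
    (hg : ∀ (σ : Ω ≃ₐ[L] Ω) (x : Ω), x ∈ W → σ x ∈ W) {z : S} (hz : Rgl π N z) (hq : M.q z ≠ 0)
    {φ : SL →ₐ[L] Ω} (h : M.Ov W φ N) {m : V[X]} (hm : m ≠ 0) :
    od φ (M.i (aeval z m)) =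
      (m.map ((algebraMap L Ω).comp (algebraMap V L))).rootMultiplicity (φ (M.i z)) := by
  classical
  have halg : Algebra.IsAlgebraic L Ω := IsAlgClosure.isAlgebraic
  have hNp := hN.1.isPrime
  have hT : ∀ N' ∈ ({N} : Set (Ideal S)), N'.IsPrime := by
    rintro _ rfl
    exact hNp
  obtain ⟨μ, hμm, hμ, hl, h0⟩ := dcA_minpoly (V := V) (L := L) hW hg ((h.2 z).1 hz.1)
  have hcμ : φ (M.i (aeval z μ)) = 0 := by
    rw [M.dcA_aeval, hμ, minpoly.aeval]
  obtain ⟨g, -, hgφ, s, hs, hgs⟩ := M.rgl_gen hπ hN hz h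
  obtain ⟨s₁, hs₁, y, e₁⟩ := mem_It.1 ((M.dcA_ker hπ hN hT hk hz hq h hμm hl hμ g).1 hgφ)
  have hrg : Rg φ (M.i (aeval z μ)) := by
    refine M.gen_rg h hcμ (s := s₁ * s) (fun hm' => ?_) (fun x hx => ?_)
    · rcases hNp.mem_or_mem hm' with h1 | h1
      · exact hs₁ N rfl h1
      · exact hs h1
    · obtain ⟨w, hw⟩ := hgs x hx
      refine ⟨y * w, ?_⟩
      linear_combination s₁ * hw + w * e₁
  have hint : IsIntegral L (φ (M.i z)) := (Algebra.IsAlgebraic.isAlgebraic _).isIntegral
  have hirr := minpoly.irreducible hint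
  have hinj : Function.Injective (algebraMap V L) := IsFractionRing.injective V L
  have hmL : m.map (algebraMap V L) ≠ 0 := (Polynomial.map_ne_zero_iff hinj).2 hm
  obtain ⟨j, m', hm', hj⟩ := WfDvdMonoid.max_power_factor hmL hirr
  have hm'0 : aeval (φ (M.i z)) m' ≠ 0 := fun h1 => hm' (minpoly.dvd _ _ h1)
  have hae : ∀ p : V[X], M.i (aeval z p) = aeval (M.i z) (p.map (algebraMap V L)) := by
    intro p
    have h1 : M.i (aeval z p) = M.i (eval₂ (algebraMap V S) z p) := rfl
    rw [h1, hom_eval₂, aeval_def, eval₂_map]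
    congr 1
    ext c
    exact M.i_alg c
  have hφm' : φ (aeval (M.i z) m') ≠ 0 := by
    rw [← aeval_algHom_apply]
    exact hm'0
  have e2 : M.i (aeval z m) = M.i (aeval z μ) ^ j * aeval (M.i z) m' := by
    rw [hae, hae, hj, hμ, map_mul, map_pow]
  have hod : od φ (M.i (aeval z m)) = j := by
    refine M.DL.od_eq hrg ⟨1, aeval (M.i z) m', by rw [map_one]; exact one_ne_zero, hφm', ?_⟩
    rw [e2]
    ring
  rw [hod, ← Polynomial.map_map, hj, Polynomial.map_mul, Polynomial.map_pow]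
  have hsep : (minpoly L (φ (M.i z))).Separable := hirr.separable
  have hne1 : (minpoly L (φ (M.i z))).map (algebraMap L Ω) ≠ 0 :=
    (Polynomial.map_ne_zero_iff (algebraMap L Ω).injective).2 hirr.ne_zero
  have hne2 : m'.map (algebraMap L Ω) ≠ 0 := by
    intro h1
    apply hm'0
    rw [aeval_def, ← eval_map, h1, eval_zero]
  have hr1 : ((minpoly L (φ (M.i z))).map (algebraMap L Ω)).rootMultiplicity (φ (M.i z)) = 1 := by
    refine le_antisymm ?_ ?_
    · exact rootMultiplicity_le_one_of_separable hsep.map _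
    · rw [Nat.one_le_iff_ne_zero, ← pos_iff_ne_zero, rootMultiplicity_pos hne1, IsRoot.def,
        eval_map, ← aeval_def, minpoly.aeval]
  have hr2 : (m'.map (algebraMap L Ω)).rootMultiplicity (φ (M.i z)) = 0 := by
    rw [rootMultiplicity_eq_zero_iff, IsRoot.def, eval_map, ← aeval_def]
    exact fun h1 => absurd h1 hm'0
  rw [rootMultiplicity_mul (mul_ne_zero (pow_ne_zero j hne1) hne2), hr2, add_zero,
    ← count_roots, roots_pow, Multiset.count_nsmul, count_roots, hr1, mul_one]

end Md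

end CV
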