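import Pool.Agent.Lib.MP_f80667_ag.Cv.Clt
import Pool.Agent.Lib.MP_f80667_ag.Cv.Dc
import Pool.Agent.Lib.MP_f80667_ag.Cv.MdL
import Pool.Agent.Lib.MP_f80667_ag.Cv.SmA

/-!
The comparison of two polynomials in a local parameter at a rational closed point.
-/

open ZC BE PE Polynomial TensorProduct IntermediateField IsLocalRing

namespace CV

/-- The sum over the roots, as a sum over a finite set. -/
theorem cxH_sum {Ω X : Type} [Field Ω] [DecidableEq Ω] (P : Ω → X) (F : Polynomial Ω)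
    {Z : Finset Ω} (hZ : ∀ w ∈ F.roots, w ∈ Z) :
    (F.roots.map fun w => Finsupp.single (P w) (1 : ℤ)).sum =
      ∑ w ∈ Z, Finsupp.single (P w) (F.rootMultiplicity w : ℤ) := by
  rw [Finset.sum_multiset_map_count]
  have h1 : ∑ w ∈ F.roots.toFinset, F.roots.count w • Finsupp.single (P w) (1 : ℤ) =
      ∑ w ∈ F.roots.toFinset, Finsupp.single (P w) (F.rootMultiplicity w : ℤ) := by
    refine Finset.sum_congr rfl fun w _ => ?_
    rw [Finsupp.smul_single, count_roots, nsmul_eq_mul, mul_one]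
  rw [h1]
  refine Finset.sum_subset (fun w hw => hZ w (Multiset.mem_toFinset.1 hw)) fun w _ hw => ?_
  have h2 : F.roots.count w = 0 := Multiset.count_eq_zero.2 fun h => hw (Multiset.mem_toFinset.2 h)
  rw [← count_roots, h2, Nat.cast_zero, Finsupp.single_zero]

namespace Md

variable {K Ω : Type} [Field K] [CharZero K] [Field Ω] [Algebra K Ω] [IsAlgClosure K Ω]
  {L : Ld K Ω} {M : IntermediateField K Ω} [FiniteDimensional K M] {k S SM Sk : Type} [Field k]
  [Algebra (OM L M) k] [CommRing S] [CommRing SM] [CommRing Sk] [Algebra (OM L M) S]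
  [Algebra M SM] [Algebra k Sk] (D : Md (OM L M) M k S SM Sk)

/-- **The comparison of two polynomials in a local parameter `z`.** `f φ = P (φ z)` for the points `φ` above `N` whose value of `z` is a root of one of the polynomials. Proof: `cltc` for `T₀ = {N}`, `disc_pt`, `disc_uniq`, `disc_od`. -/
theorem md_rcy [PerfectField k] {π : OM L M} (hπ : Irreducible π) {N : Ideal S}
    (hN : Cs (OM L M) N) (hk : ∀ s : S, ∃ c : OM L M, s - algebraMap (OM L M) S c ∈ N) {z : S}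
    (hz : Rgl π N z) {f₀ g₀ h₀ : (OM L M)[X]} {r : ℕ} (hr : r ≠ 0) (hf : f₀.Monic) (hg : g₀.Monic)
    (hfl : ∀ i < f₀.natDegree, f₀.coeff i ∈ maximalIdeal (OM L M))
    (hfg : f₀ = g₀ + C (π ^ r) * h₀) {X : Type} (f : (SM →ₐ[M] Ω) → X) (P : Ω → X)
    (hP : ∀ φ : SM →ₐ[M] Ω, D.Ov L.V φ N →
      ((f₀ * g₀).map ((algebraMap M Ω).comp (algebraMap (OM L M) M))).IsRoot (φ (D.i z)) →
        f φ = P (φ (D.i z)))
    (hlt : ∀ w, ((f₀ * g₀).map ((algebraMap M Ω).comp (algebraMap (OM L M) M))).IsRoot w →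
      L.nm w < 1)
    {A B : AddSubgroup (X →₀ ℤ)} (hA : D.Rt f A) (hB : D.Bk L.V f B π r) :
    ((f₀.map ((algebraMap M Ω).comp (algebraMap (OM L M) M))).roots.map fun w =>
      Finsupp.single (P w) (1 : ℤ)).sum -
    ((g₀.map ((algebraMap M Ω).comp (algebraMap (OM L M) M))).roots.map fun w =>
      Finsupp.single (P w) (1 : ℤ)).sum ∈ A ⊔ B := by
  classical
  have iA : IsAlgClosure M Ω := algClM M
  have iC : CharZero M := charM M
  have hW := wvM L M
  have hq : D.q z ≠ 0 := D.rgl_q hπ hN hz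
  have hgal : ∀ (σ : Ω ≃ₐ[M] Ω) (x : Ω), x ∈ L.V → σ x ∈ L.V := by
    intro σ x hx
    rw [L.mem_V] at hx ⊢
    exact (L.act (σ.restrictScalars K) x).trans_le hx
  set ι := (algebraMap M Ω).comp (algebraMap (OM L M) M) with hι
  set F := f₀.map ι with hF
  set G := g₀.map ι with hG
  have hF0 : F ≠ 0 := (hf.map ι).ne_zero
  have hG0 : G ≠ 0 := (hg.map ι).ne_zero
  have hmul : (f₀ * g₀).map ι = F * G := Polynomial.map_mul ι
  let Z : Finset Ω := F.roots.toFinset ∪ G.roots.toFinset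
  have hZ : ∀ w, w ∈ Z ↔ (F * G).IsRoot w := by
    intro w
    rw [Finset.mem_union, Multiset.mem_toFinset, Multiset.mem_toFinset, mem_roots hF0,
      mem_roots hG0, IsRoot.def, IsRoot.def, IsRoot.def, eval_mul, mul_eq_zero]
  have hZn : ∀ w ∈ Z, w ∈ L.V.nonunits := fun w hw => (nonunits_iff L).2 (hlt w (by
    rw [hmul]
    exact (hZ w).1 hw))
  have hex : ∀ w ∈ L.V.nonunits, ∃ φ : SM →ₐ[M] Ω, D.Ov L.V φ N ∧ φ (D.i z) = w := fun w hw =>
    D.disc_pt hW hπ hN hk hgal hz hq hw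
  have hne : Nonempty (SM →ₐ[M] Ω) :=
    ⟨(hex 0 ((nonunits_iff L).2 (by rw [L.zero]; exact zero_lt_one))).choose⟩
  choose! pt hpt1 hpt2 using hex
  have hinj : Set.InjOn pt (Z : Set Ω) := by
    intro w hw w' hw' he
    rw [← hpt2 w (hZn w hw), he, hpt2 w' (hZn w' hw')]
  have hval : ∀ (φ : SM →ₐ[M] Ω) (m : (OM L M)[X]), φ (D.i (aeval z m)) =
      (m.map ι).eval (φ (D.i z)) := by
    intro φ m
    rw [D.dcA_aeval, ← eval_map_algebraMap, Polynomial.map_map]
  have key := D.cltc (Ω := Ω) hW hπ (T₀ := {N}) (Set.finite_singleton N)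
    (by rintro _ rfl; exact hN) (by rintro _ rfl; exact ⟨z, hz⟩) (g₁ := aeval z f₀)
    (g₂ := aeval z g₀) (c := aeval z h₀) (D.dcA_q hπ hf hfl hq) hr
    (by rw [hfg, map_add, map_mul, aeval_C]) hA hB (Z.image pt)
    (by
      intro φ hφ
      obtain ⟨w, hw, rfl⟩ := Finset.mem_image.1 hφ
      exact ⟨N, rfl, hpt1 w (hZn w hw)⟩)
    (by
      rintro φ ⟨N', hN', hov⟩ h0
      have e : N' = N := hN'
      subst e
      rw [hval, hval] at h0
      have h1 : φ (D.i z) ∈ Z := by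
        rw [hZ, IsRoot.def, eval_mul, mul_eq_zero]
        exact h0
      refine Finset.mem_image.2 ⟨_, h1, ?_⟩
      exact D.disc_uniq hW hπ hN hk hgal hz hq (hpt1 _ (hZn _ h1)) hov (hpt2 _ (hZn _ h1)))
  rw [Finset.sum_image hinj] at key
  have hs : ∑ w ∈ Z, Finsupp.single (f (pt w))
      ((od (pt w) (D.i (aeval z f₀)) : ℤ) - od (pt w) (D.i (aeval z g₀))) =
      ∑ w ∈ Z, Finsupp.single (P w) (F.rootMultiplicity w : ℤ) -
        ∑ w ∈ Z, Finsupp.single (P w) (G.rootMultiplicity w : ℤ) := by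
    rw [← Finset.sum_sub_distrib]
    refine Finset.sum_congr rfl fun w hw => ?_
    have h1 := hpt1 w (hZn w hw)
    have h2 := hpt2 w (hZn w hw)
    rw [D.disc_od hW hπ hN hk hgal hz hq h1 hf.ne_zero, D.disc_od hW hπ hN hk hgal hz hq h1
      hg.ne_zero, hP (pt w) h1 (by rw [hmul, h2]; exact (hZ w).1 hw), h2, ← Finsupp.single_sub]
  rw [hs] at key
  rw [cxH_sum P F (Z := Z) fun w hw => Finset.mem_union_left _ (Multiset.mem_toFinset.2 hw),
    cxH_sum P G (Z := Z) fun w hw => Finset.mem_union_right _ (Multiset.mem_toFinset.2 hw)]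
  exact key

end Md

end CV
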