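import Pool.Agent.Lib.MP_f80667_ag.Cv.ChtB
import Pool.Agent.Lib.MP_f80667_ag.Cv.CxE
import Pool.Agent.Lib.MP_f80667_ag.Cv.CxG
import Pool.Agent.Lib.MP_f80667_ag.Cv.CxH
import Pool.Agent.Lib.MP_f80667_ag.Cv.OmP
import Pool.Agent.Lib.MP_f80667_ag.Cv.UxC

/-!
The comparison of two polynomials on a curve in a product, for models over the integers of `M`.
-/

open ZC BE PE Polynomial TensorProduct IntermediateField IsLocalRing

namespace CV

/-- The product of two distinguished polynomials. -/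
theorem cxF_mul {V : Type} [CommRing V] [IsDomain V] [IsLocalRing V] {f g : V[X]} (hf : f.Monic)
    (hg : g.Monic) (hfl : ∀ i < f.natDegree, f.coeff i ∈ maximalIdeal V)
    (hgl : ∀ i < g.natDegree, g.coeff i ∈ maximalIdeal V) :
    ∀ i < (f * g).natDegree, (f * g).coeff i ∈ maximalIdeal V := by
  have key : ∀ {p : V[X]}, p.Monic → (∀ i < p.natDegree, p.coeff i ∈ maximalIdeal V) →
      p.map (residue V) = X ^ p.natDegree := by
    intro p hp hpl
    ext i
    rw [coeff_map, coeff_X_pow]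
    split_ifs with h
    · rw [h, hp.coeff_natDegree, map_one]
    · rcases lt_or_gt_of_ne h with h1 | h1
      · exact (residue_eq_zero_iff _).2 (hpl i h1)
      · rw [coeff_eq_zero_of_natDegree_lt h1, map_zero]
  intro i hi
  rw [← residue_eq_zero_iff, ← coeff_map, Polynomial.map_mul, key hf hfl, key hg hgl, ← pow_add,
    coeff_X_pow, if_neg]
  rw [hf.natDegree_mul hg] at hi
  exact hi.ne

variable {F : Type} [Field F] {K Ω : Type} [Field K] [CharZero K] [Field Ω]
  [Algebra K Ω] [Algebra F K] [Algebra F Ω] [IsScalarTower F K Ω] [IsAlgClosure K Ω] {L : Ld K Ω}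
  {M : IntermediateField K Ω} [FiniteDimensional K M]

omit [CharZero K] [IsAlgClosure K Ω] [FiniteDimensional K M] in
/-- Some function on the curve has a pole at infinity. -/
theorem cxF_pos {C : Crv F} {SM : Type} [CommRing SM] [Algebra M SM] (G : Dg M SM)
    (e : SM ≃ₐ[M] M ⊗[F] C.A) : ∃ a : C.A, 0 < G.d (e.symm (1 ⊗ₜ a)) := by
  by_contra hne
  push Not at hne
  have h1 : ∀ x : M ⊗[F] C.A, e.symm x ∈ G.L 0 := by
    intro x
    induction x using TensorProduct.induction_on with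
    | zero => rw [map_zero]; exact zero_mem _
    | tmul c a =>
      have h2 : (c ⊗ₜ[F] a : M ⊗[F] C.A) = c • (1 ⊗ₜ[F] a) := by
        rw [TensorProduct.smul_tmul', smul_eq_mul, mul_one]
      rw [h2, map_smul]
      exact (G.L 0).smul_mem c (G.mem_L.2 (by rw [Nat.cast_zero]; exact hne a))
    | add x y hx hy => rw [map_add]; exact add_mem hx hy
  obtain ⟨n₀, hn⟩ := G.tail
  obtain ⟨x, hx⟩ := hn (n₀ + 1) (by omega)
  have h3 := h1 (e x)
  rw [AlgEquiv.symm_apply_apply, G.mem_L, hx, Nat.cast_zero] at h3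
  have h4 : ((n₀ + 1 : ℕ) : WithBot ℕ) ≤ ((0 : ℕ) : WithBot ℕ) := by exact_mod_cast h3
  rw [Nat.cast_le] at h4
  omega

section cmp

variable {ι : Type} [Finite ι] {C : ι → Crv F} {m : ∀ i, Mod (C i) (Ok L) K} {k : Type} [Field k]
  [Algebra (OM L M) k] [PerfectField k] {S SM Sk : ι → Type} [∀ i, CommRing (S i)]
  [∀ i, CommRing (SM i)] [∀ i, CommRing (Sk i)] [∀ i, Algebra (OM L M) (S i)]
  [∀ i, Algebra M (SM i)] [∀ i, Algebra k (Sk i)]
  {D : ∀ i, Md (OM L M) M k (S i) (SM i) (Sk i)} [∀ i, IsDedekindDomain (Sk i)]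
  {e : ∀ i, SM i ≃ₐ[M] M ⊗[F] (C i).A} {ρ : ∀ i, (m i).R →+* S i}

/-- **ExCx for models over the integers of `M`.** -/
theorem cx_cmp (hs : Function.Surjective (algebraMap (OM L M) k))
    (h0 : ∀ c : OM L M, algebraMap (OM L M) k c = 0 ↔ c ∈ maximalIdeal (OM L M))
    (hc : ∀ i, Cmp (m i) (D i) (e i) (ρ i)) (T : ∀ i, Cht (m i) M) {r : ι → Polynomial Ω}
    (hr : ∀ i, Ipo L M (r i)) {f g : Polynomial Ω} {q : ℝ} (hf : Dpo L M f) (hg : Dpo L M g)
    (hd : f.natDegree = g.natDegree) (hq : q < 1)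
    (h : ∀ i, L.nm (f.coeff i - g.coeff i) ≤ q) :
    (rcy (V := Vpi fun i => (C i).V) (fun w i => (T i).P ((r i).eval w)) f -
      rcy (V := Vpi fun i => (C i).V) (fun w i => (T i).P ((r i).eval w)) g) ∈
        (Vpi fun i => (C i).V).ratEq M Ω ⊔ Dsp L (Vpi fun i => (C i).V) (NrP m q) M := by
  classical
  have iA : IsAlgClosure M Ω := algClM M
  have iC : CharZero M := charM M
  have iO : IsAlgClosed Ω := IsAlgClosure.isAlgClosed K
  have : Fintype ι := Fintype.ofFinite ι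
  have hW := wvM L M
  have hgal : ∀ (σ : Ω ≃ₐ[M] Ω) (x : Ω), x ∈ L.V → σ x ∈ L.V := by
    intro σ x hx
    rw [L.mem_V] at hx ⊢
    exact (L.act (σ.restrictScalars K) x).trans_le hx
  obtain ⟨π, hπ⟩ := IsDiscreteValuationRing.exists_irreducible (OM L M)
  obtain ⟨f₀, hf1, hf2, hf3, hf4⟩ := om_dpo hf
  obtain ⟨g₀, hg1, hg2, hg3, hg4⟩ := om_dpo hg
  rcases om_close hπ hf1 hg1 hq h with hfg | ⟨n, h₀, hn, hnq, hfg⟩
  · rw [hfg, sub_self]
    exact zero_mem _
  by_cases hf0 : f.natDegree = 0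
  · have e1 : f = 1 := hf.monic.natDegree_eq_zero.1 hf0
    have e2 : g = 1 := hg.monic.natDegree_eq_zero.1 (hd ▸ hf0)
    rw [e1, e2, sub_self]
    exact zero_mem _
  choose N u hN hk hu hP1 hP2 using fun i => cht_par (hc i) (T i)
  choose ε hε using fun i => exists_eps hs h0 (hN i) (hk i)
  choose r₀ hr1 hr2 using fun i => om_ipo (hr i)
  have hmon : (f₀ * g₀).Monic := hf3.mul hg3
  have hlow := cxF_mul hf3 hg3 hf4 hg4
  have hdeg : (f₀ * g₀).natDegree ≠ 0 := by
    rw [hf3.natDegree_mul hg3, hf2]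
    omega
  obtain ⟨X⟩ := cxD_exists (M := D) (ε := ε) (u := u) (r := r₀) (m := f₀ * g₀) (W := L.V) hW hgal
    hπ hs h0 hmon hlow hdeg hr2 (fun i => by rw [hε i]; exact hu i π hπ)
    (fun i => (D i).rgl_q hπ (hN i) (hu i π hπ)) Finset.univ
  have hmem : ∀ i : ι, i ∈ (Finset.univ : Finset ι) := Finset.mem_univ
  -- the homomorphisms of the affine rings
  let hh : ∀ i, (C i).A →+* X.SL' := fun i =>
    ((X.jL i (hmem i) : SM i →+* X.SL').comp ((e i).symm : M ⊗[F] (C i).A →+* SM i)).comp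
      (Algebra.TensorProduct.includeRight : (C i).A →ₐ[F] M ⊗[F] (C i).A).toRingHom
  have hhdef : ∀ i a, hh i a = X.jL i (hmem i) ((e i).symm (1 ⊗ₜ a)) := fun i a => rfl
  have hF : ∀ i c, hh i (algebraMap F (C i).A c) = algebraMap M X.SL' (algebraMap F M c) := by
    intro i c
    have h1 : (1 ⊗ₜ[F] algebraMap F (C i).A c : M ⊗[F] (C i).A) =
        algebraMap M (M ⊗[F] (C i).A) (algebraMap F M c) := by
      rw [Algebra.TensorProduct.algebraMap_apply, Algebra.algebraMap_eq_smul_one,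
        TensorProduct.tmul_smul, TensorProduct.smul_tmul', Algebra.algebraMap_eq_smul_one,
        algebraMap_smul]
    rw [hhdef, h1, AlgEquiv.commutes, AlgHom.commutes]
  have hp : ∀ i, ∃ a, 0 < X.D.DL.d (hh i a) := by
    intro i
    obtain ⟨a, ha⟩ := cxF_pos (D i).DL (e i)
    exact ⟨a, X.pos i (hmem i) _ ha⟩
  -- the points
  let fp : (X.SL' →ₐ[M] Ω) → (Vpi fun i => (C i).V).pt Ω := rpt hh hF
  have hfp : ∀ φ i, fp φ i = some (pe (e i) (φ.comp (X.jL i (hmem i)))) := fun φ i =>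
    congrArg some (AlgHom.ext fun a => rfl)
  have hig : ∀ φ, X.D.Ig L.V φ → ∀ i, (D i).Ig L.V (φ.comp (X.jL i (hmem i))) := by
    intro φ hφ i s
    change φ (X.jL i (hmem i) ((D i).i s)) ∈ L.V
    rw [← X.comm]
    exact hφ _
  have hov : ∀ φ, X.D.Ov L.V φ (RingHom.ker X.ε') →
      ∀ i, (D i).Ov L.V (φ.comp (X.jL i (hmem i))) (N i) := by
    intro φ hφ i
    refine ⟨hig φ hφ.1 i, fun s => ?_⟩
    change s ∈ N i ↔ φ (X.jL i (hmem i) ((D i).i s)) ∈ L.V.nonunits
    rw [← X.comm, ← hφ.2, RingHom.mem_ker, X.red, ← hε i, RingHom.mem_ker]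
  have idom : IsDomain X.SL' := X.D.DL.isDomain
  let iE : Algebra F (FractionRing X.SL') :=
    ((algebraMap M (FractionRing X.SL')).comp (algebraMap F M)).toAlgebra
  have iT : IsScalarTower F M (FractionRing X.SL') := IsScalarTower.of_algebraMap_eq fun _ => rfl
  have hA : X.D.Rt fp ((Vpi fun i => (C i).V).ratEq M Ω) :=
    X.D.rt_ratEq (E := FractionRing X.SL') _ (gpt hh hF _) (gpt_rat hh hF) fp (fun _ => none)
      (fun φ w hw => gpt_val hh hF hw) (fun w hw => gpt_inf hh hF X.D.DL hp hw)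
  have hB : X.D.Bk L.V fp (Dsp L (Vpi fun i => (C i).V) (NrP m q) M) π n := by
    refine X.D.bk_dsp hW hπ fp (fun γ φ => ?_) hn fun φ φ' hφ hφ' hs i => ?_
    · funext i
      exact congrArg some (AlgHom.ext fun a => rfl)
    · have h1 := (cmp_nr (hc i) (hig φ hφ i) (hig φ' hφ' i)
        (algebraMap M Ω (algebraMap (OM L M) M (π ^ n)))).1 (fun s => by
          obtain ⟨w, hw, he⟩ := hs (X.j i (hmem i) s)
          refine ⟨w, hw, ?_⟩
          change φ (X.jL i (hmem i) ((D i).i s)) - φ' (X.jL i (hmem i) ((D i).i s)) = _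
          rw [← X.comm]
          exact he)
      obtain ⟨ψ, ψ', e1, e2, h2⟩ := h1
      refine ⟨ψ, ψ', (hfp φ i).trans e1, (hfp φ' i).trans e2, fun a =>
        ⟨(h2 a).1, (h2 a).2.1, (h2 a).2.2.trans ?_⟩⟩
      rw [map_pow, map_pow, L.pow]
      exact hnq
  have hev : ∀ (p : (OM L M)[X]) (w : Ω), aeval w (p.map (algebraMap (OM L M) M)) =
      (p.map ((algebraMap M Ω).comp (algebraMap (OM L M) M))).eval w := by
    intro p w
    rw [← eval_map_algebraMap, Polynomial.map_map]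
  have hkk := cs_ker hs h0 X.ε'
  have key := X.D.md_rcy hπ hkk.1 hkk.2 X.rgl hn hf3 hg3 hf4 hfg fp
    (fun w i => (T i).P ((r i).eval w)) (by
      intro φ hφ hw
      funext i
      have h1 := hov φ hφ i
      rw [hfp, ← hP2 i _ h1]
      have h2 : φ.comp (X.jL i (hmem i)) ((D i).i (u i)) = (r i).eval (φ (X.D.i X.z)) := by
        change φ (X.jL i (hmem i) ((D i).i (u i))) = _
        rw [← X.comm, X.val φ hφ (by rw [hev]; exact hw) i (hmem i), hev, hr1]
      rw [h2]) (by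
      intro w hw
      rw [Polynomial.map_mul, hf1, hg1, IsRoot.def, eval_mul, mul_eq_zero] at hw
      rcases hw with hw | hw
      · exact om_root hf hw
      · exact om_root hg hw) hA hB
  rw [hf1, hg1] at key
  exact key

end cmp

end CV
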