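import Pool.Agent.Lib.MP_f80667_ag.Cv.Lc
import Pool.Agent.Lib.MP_f80667_ag.Cv.Ded
import Pool.Agent.Lib.MP_f80667_ag.Cv.DgT
import Pool.Agent.Lib.MP_f80667_ag.Cv.DgD

/-!
Ideals of `Ω ⊗ A` and cycles (`Ω` algebraically closed), 1: the maximal ideals are the ideals `mx φ` of the points.

* `Crv.dgO C Ω : Dg Ω (Ω ⊗ A)`, `Crv.dedO C Ω : IsDedekindDomain (Ω ⊗ A)`;
* `vx φ`: the value of the functions at `φ`; `mem_mx`, `mx_max`, `mx_ne_bot`, `mx_inj`, `finrank_mx`, `exists_mx`.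
-/

open TensorProduct

namespace CV

section

variable {F : Type} [Field F] (C : Crv F) (Ω : Type) [Field Ω] [Algebra F Ω]

/-- The order of the pole at infinity over `Ω`. -/
noncomputable def Crv.dgO : Dg Ω (Ω ⊗[F] C.A) := C.G.bc Ω

theorem Crv.dgO_one (a : C.A) : (C.dgO Ω).d (1 ⊗ₜ a) = C.G.d a := C.G.bc_one_tmul Ω a

theorem Crv.dedO : IsDedekindDomain (Ω ⊗[F] C.A) := by
  have := C.sm
  exact (C.dgO Ω).ded

theorem Crv.domO : IsDomain (Ω ⊗[F] C.A) := (C.dgO Ω).isDomain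

variable {C Ω}

/-- The value of the functions at a point. -/
noncomputable def vx (φ : C.A →ₐ[F] Ω) : Ω ⊗[F] C.A →ₐ[Ω] Ω :=
  Algebra.TensorProduct.lift (AlgHom.id Ω Ω) φ fun _ _ => Commute.all _ _

theorem vx_tmul (φ : C.A →ₐ[F] Ω) (c : Ω) (a : C.A) : vx φ (c ⊗ₜ a) = c * φ a := by
  unfold vx
  rw [Algebra.TensorProduct.lift_tmul]
  rfl

theorem mem_mx {φ : C.A →ₐ[F] Ω} {a : Ω ⊗[F] C.A} : a ∈ mx φ ↔ vx φ a = 0 := Iff.rfl

theorem vx_surj (φ : C.A →ₐ[F] Ω) : Function.Surjective (vx φ) := fun c =>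
  ⟨c ⊗ₜ 1, by rw [vx_tmul, map_one, mul_one]⟩

/-- Two points with the same functions `1 ⊗ a - φ a ⊗ 1` are equal. -/
theorem mx_inj : Function.Injective (mx : (C.A →ₐ[F] Ω) → Ideal (Ω ⊗[F] C.A)) := by
  intro φ ψ h
  ext a
  have h1 : (1 : Ω) ⊗ₜ[F] a - φ a ⊗ₜ[F] (1 : C.A) ∈ mx φ := by
    rw [mem_mx, map_sub, vx_tmul, vx_tmul, map_one, one_mul, mul_one, sub_self]
  rw [h, mem_mx, map_sub, vx_tmul, vx_tmul, map_one, one_mul, mul_one, sub_eq_zero] at h1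
  exact h1.symm

theorem mx_max (φ : C.A →ₐ[F] Ω) : (mx φ).IsMaximal :=
  RingHom.ker_isMaximal_of_surjective _ (vx_surj φ)

/-- A function of positive degree minus its value at the point. -/
theorem mx_ne_bot (φ : C.A →ₐ[F] Ω) : mx φ ≠ ⊥ := by
  obtain ⟨n₀, hn⟩ := (C.dgO Ω).tail
  obtain ⟨x, hx⟩ := hn (n₀ + 1) (by omega)
  intro h
  have h1 : x - algebraMap Ω (Ω ⊗[F] C.A) (vx φ x) ∈ mx φ := by
    rw [mem_mx, map_sub, AlgHom.commutes]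
    exact sub_self _
  rw [h, Submodule.mem_bot, sub_eq_zero] at h1
  have h2 := (C.dgO Ω).smul_le (vx φ x) 1
  rw [← Algebra.algebraMap_eq_smul_one, ← h1, hx, (C.dgO Ω).one, ← Nat.cast_zero, Nat.cast_le] at h2
  omega

theorem finrank_mx (φ : C.A →ₐ[F] Ω) : Module.Finite Ω ((Ω ⊗[F] C.A) ⧸ mx φ) ∧
    Module.finrank Ω ((Ω ⊗[F] C.A) ⧸ mx φ) = 1 := by
  have e : ((Ω ⊗[F] C.A) ⧸ mx φ) ≃ₐ[Ω] Ω :=
    Ideal.quotientKerAlgEquivOfSurjective (f := vx φ) (vx_surj φ)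
  exact ⟨Module.Finite.equiv e.symm.toLinearEquiv,
    by rw [e.toLinearEquiv.finrank_eq, Module.finrank_self]⟩

/-- Nullstellensatz. Proof: `Ω ⊗ A` is of finite type, the residue field is finite over `Ω`. -/
theorem exists_mx [IsAlgClosed Ω] {I : Ideal (Ω ⊗[F] C.A)} (hI : I.IsMaximal) :
    ∃ φ : C.A →ₐ[F] Ω, I = mx φ := by
  have := C.sm
  let : Field ((Ω ⊗[F] C.A) ⧸ I) := Ideal.Quotient.field I
  have hft : Algebra.FiniteType Ω ((Ω ⊗[F] C.A) ⧸ I) := inferInstance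
  have hfin : Module.Finite Ω ((Ω ⊗[F] C.A) ⧸ I) := finite_of_finite_type_of_isJacobsonRing _ _
  have hb : Function.Bijective (algebraMap Ω ((Ω ⊗[F] C.A) ⧸ I)) :=
    IsAlgClosed.algebraMap_bijective_of_isIntegral
  let e : Ω ≃ₐ[Ω] ((Ω ⊗[F] C.A) ⧸ I) := AlgEquiv.ofBijective (Algebra.ofId _ _) hb
  let g : Ω ⊗[F] C.A →ₐ[Ω] Ω := e.symm.toAlgHom.comp (Ideal.Quotient.mkₐ Ω I)
  let φ : C.A →ₐ[F] Ω := (g.restrictScalars F).comp Algebra.TensorProduct.includeRight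
  have hg : vx φ = g := by
    apply Algebra.TensorProduct.ext'
    intro c a
    rw [vx_tmul]
    have h1 : c ⊗ₜ[F] a = c • ((1 : Ω) ⊗ₜ[F] a) := by
      rw [TensorProduct.smul_tmul', smul_eq_mul, mul_one]
    rw [h1, map_smul]
    rfl
  refine ⟨φ, ?_⟩
  ext x
  rw [mem_mx, hg]
  change x ∈ I ↔ e.symm (Ideal.Quotient.mk I x) = 0
  rw [map_eq_zero_iff _ e.symm.injective, Ideal.Quotient.eq_zero_iff_mem]

end

end CV
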