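import Pool.Agent.Lib.MP_f80667_ag.Cv.CyA

/-!
Ideals of `Ω ⊗ A` and cycles (`Ω` algebraically closed), 2: the ideal `idl C z` of an effective cycle of finite points.

* `Efc z`: `z ≥ 0` and the coefficient of `∞` is `0`;
* `idl_single`, `idl_zero`, `idl_add`, `idl_ne_bot`.
-/

open TensorProduct

namespace CV

section

variable {F : Type} [Field F] {C : Crv F} {Ω : Type} [Field Ω] [Algebra F Ω]

/-- An effective cycle of finite points. -/
def Efc (z : C.V.pt Ω →₀ ℤ) : Prop := (∀ x, 0 ≤ z x) ∧ z none = 0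

theorem Efc.zero : Efc (0 : C.V.pt Ω →₀ ℤ) := ⟨fun _ => le_rfl, rfl⟩

theorem Efc.add {z w : C.V.pt Ω →₀ ℤ} (hz : Efc z) (hw : Efc w) : Efc (z + w) :=
  ⟨fun x => add_nonneg (hz.1 x) (hw.1 x), by rw [Finsupp.add_apply, hz.2, hw.2, add_zero]⟩

theorem efc_single (φ : C.A →ₐ[F] Ω) {n : ℤ} (hn : 0 ≤ n) :
    Efc (Finsupp.single (some φ) n : C.V.pt Ω →₀ ℤ) := by
  classical
  constructor
  · intro x
    rw [Finsupp.single_apply]
    split_ifs
    · exact hn
    · exact le_rfl
  · rw [Finsupp.single_apply, if_neg (by exact Option.some_ne_none φ)]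

theorem idl_zero : idl C (0 : C.V.pt Ω →₀ ℤ) = 1 := by
  unfold idl
  rw [Finsupp.prod_zero_index]

theorem idl_single (φ : C.A →ₐ[F] Ω) (n : ℤ) :
    idl C (Finsupp.single (some φ) n : C.V.pt Ω →₀ ℤ) = mx φ ^ n.toNat := by
  unfold idl
  rw [Finsupp.prod_single_index]
  simp

/-- Induction on effective cycles. -/
theorem efc_induction {P : (C.V.pt Ω →₀ ℤ) → Prop} (h0 : P 0)
    (h1 : ∀ (z : C.V.pt Ω →₀ ℤ) (φ : C.A →ₐ[F] Ω), Efc z → P z →
      P ((Finsupp.single (some φ) 1 : C.V.pt Ω →₀ ℤ) + z))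
    {z : C.V.pt Ω →₀ ℤ} (hz : Efc z) : P z := by
  classical
  let d : (C.V.pt Ω →₀ ℤ) →+ ℤ := Finsupp.liftAddHom fun _ => AddMonoidHom.id ℤ
  have hd : ∀ z : C.V.pt Ω →₀ ℤ, Efc z → 0 ≤ d z := by
    intro z hz
    change 0 ≤ z.sum fun _ n => n
    exact Finset.sum_nonneg fun x _ => hz.1 x
  induction hn : (d z).toNat using Nat.strong_induction_on generalizing z with
  | _ n ih =>
    by_cases h : z = 0
    · rw [h]
      exact h0
    obtain ⟨x, hx⟩ := Finsupp.support_nonempty_iff.2 h
    rw [Finsupp.mem_support_iff] at hx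
    rcases x with _ | φ
    · exact absurd hz.2 hx
    have hpos : 1 ≤ z (some φ) := by
      have h1 := hz.1 (some φ)
      omega
    have hz' : Efc (z - (Finsupp.single (some φ) 1 : C.V.pt Ω →₀ ℤ)) := by
      constructor
      · intro y
        rw [Finsupp.sub_apply, Finsupp.single_apply]
        split_ifs with h1
        · rw [← h1]
          omega
        · rw [sub_zero]
          exact hz.1 y
      · rw [Finsupp.sub_apply, hz.2, Finsupp.single_apply,
          if_neg (by exact Option.some_ne_none φ), sub_zero]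
    have hds : d (z - (Finsupp.single (some φ) 1 : C.V.pt Ω →₀ ℤ)) = d z - 1 := by
      rw [map_sub]
      congr 1
      exact Finsupp.liftAddHom_apply_single _ _ _
    have h2 := hd _ hz'
    have h3 := ih _ (by rw [← hn]; omega) hz' rfl
    have h4 := h1 _ φ hz' h3
    rwa [add_sub_cancel] at h4

/-- Proof: `Finsupp.prod_of_support_subset` with the union of the supports; `Int.toNat_add`, `pow_add`. -/
theorem idl_add {z w : C.V.pt Ω →₀ ℤ} (hz : ∀ x, 0 ≤ z x) (hw : ∀ x, 0 ≤ w x) :
    idl C (z + w) = idl C z * idl C w := by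
  classical
  unfold idl
  rw [Finsupp.prod_of_support_subset (z + w) Finsupp.support_add _ (fun x _ => by
      rcases x with _ | φ
      · rfl
      · exact pow_zero _),
    Finsupp.prod_of_support_subset z (Finset.subset_union_left (s₂ := w.support)) _ (fun x _ => by
      rcases x with _ | φ
      · rfl
      · exact pow_zero _),
    Finsupp.prod_of_support_subset w (Finset.subset_union_right (s₁ := z.support)) _ (fun x _ => by
      rcases x with _ | φ
      · rfl
      · exact pow_zero _), ← Finset.prod_mul_distrib]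
  refine Finset.prod_congr rfl fun x _ => ?_
  rcases x with _ | φ
  · exact (mul_one _).symm
  · change mx φ ^ ((z + w) (some φ)).toNat = mx φ ^ (z (some φ)).toNat * mx φ ^ (w (some φ)).toNat
    rw [← pow_add, Finsupp.add_apply, Int.toNat_add (hz _) (hw _)]

/-- Proof: a product of nonzero ideals of a domain. -/
theorem idl_ne_bot (z : C.V.pt Ω →₀ ℤ) : idl C z ≠ ⊥ := by
  have := C.domO Ω
  unfold idl
  rw [← Ideal.zero_eq_bot]
  refine Finset.prod_ne_zero_iff.2 fun x _ => ?_
  rcases x with _ | φ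
  · exact one_ne_zero
  · exact pow_ne_zero _ (mx_ne_bot φ)

end

end CV
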