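import Pool.Agent.Lib.MP_f80667_ag.Cv.CyE

/-!
Ideals of `Ω ⊗ A` and cycles (`Ω` algebraically closed), 3: the cycle `cy I` of an ideal `I ≠ ⊥`.
-/

open TensorProduct

namespace CV

section

variable {F : Type} [Field F] {C : Crv F} {Ω : Type} [Field Ω] [Algebra F Ω]

open Classical in
/-- The cycle of an ideal. -/
noncomputable def cy (I : Ideal (Ω ⊗[F] C.A)) : C.V.pt Ω →₀ ℤ :=
  if h : ∃ z : C.V.pt Ω →₀ ℤ, Efc z ∧ idl C z = I then h.choose else 0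

theorem cy_efc (I : Ideal (Ω ⊗[F] C.A)) : Efc (cy I) := by
  unfold cy
  split_ifs with h
  · exact h.choose_spec.1
  · exact Efc.zero

theorem cy_idl {z : C.V.pt Ω →₀ ℤ} (hz : Efc z) : cy (idl C z) = z := by
  have h : ∃ w : C.V.pt Ω →₀ ℤ, Efc w ∧ idl C w = idl C z := ⟨z, hz, rfl⟩
  unfold cy
  rw [dif_pos h]
  exact idl_inj h.choose_spec.1 hz h.choose_spec.2

theorem idl_cy [IsAlgClosed Ω] {I : Ideal (Ω ⊗[F] C.A)} (hI : I ≠ ⊥) : idl C (cy I) = I := by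
  have h := exists_idl hI
  unfold cy
  rw [dif_pos h]
  exact h.choose_spec.2

theorem cy_one : cy (1 : Ideal (Ω ⊗[F] C.A)) = 0 := by
  rw [← idl_zero, cy_idl Efc.zero]

theorem cy_mx (φ : C.A →ₐ[F] Ω) : cy (mx φ) = Finsupp.single (some φ) 1 := by
  have h := idl_single (C := C) (Ω := Ω) φ 1
  rw [Int.toNat_one, pow_one] at h
  exact (congrArg cy h.symm).trans (cy_idl (efc_single φ zero_le_one))

theorem cy_mul [IsAlgClosed Ω] {I J : Ideal (Ω ⊗[F] C.A)} (hI : I ≠ ⊥) (hJ : J ≠ ⊥) :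
    cy (I * J) = cy I + cy J := by
  have h1 : I * J = idl C (cy I + cy J) := by
    rw [idl_add (cy_efc I).1 (cy_efc J).1, idl_cy hI, idl_cy hJ]
  rw [h1, cy_idl ((cy_efc I).add (cy_efc J))]

theorem cy_inj [IsAlgClosed Ω] {I J : Ideal (Ω ⊗[F] C.A)} (hI : I ≠ ⊥) (hJ : J ≠ ⊥)
    (h : cy I = cy J) : I = J := by
  rw [← idl_cy hI, h, idl_cy hJ]

/-- The order at a point: `I ≤ mx φ ^ n` iff `n ≤ (cy I) (some φ)`. -/
theorem cy_pow [IsAlgClosed Ω] {I : Ideal (Ω ⊗[F] C.A)} (hI : I ≠ ⊥) (φ : C.A →ₐ[F] Ω) (n : ℕ) :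
    I ≤ mx φ ^ n ↔ (n : ℤ) ≤ cy I (some φ) := by
  rw [← idl_le_pow (cy_efc I) φ n, idl_cy hI]

theorem mem_support_cy [IsAlgClosed Ω] {I : Ideal (Ω ⊗[F] C.A)} (hI : I ≠ ⊥) (φ : C.A →ₐ[F] Ω) :
    some φ ∈ (cy I).support ↔ I ≤ mx φ := by
  have h := cy_pow hI φ 1
  rw [pow_one, Nat.cast_one] at h
  have h0 := (cy_efc I).1 (some φ)
  rw [h]
  constructor
  · intro h1
    have h2 : (cy I) (some φ) ≠ 0 := Finsupp.mem_support_iff.1 h1
    omega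
  · intro h1
    have h2 : (cy I) (some φ) ≠ 0 := by omega
    exact Finsupp.mem_support_iff.2 h2

theorem finrank_cy [IsAlgClosed Ω] {I : Ideal (Ω ⊗[F] C.A)} (hI : I ≠ ⊥) :
    Module.Finite Ω ((Ω ⊗[F] C.A) ⧸ I) ∧
      (Module.finrank Ω ((Ω ⊗[F] C.A) ⧸ I) : ℤ) = C.V.deg Ω (cy I) := by
  have h := finrank_idl (cy_efc I)
  rwa [idl_cy hI] at h

/-- The cycle of a function has degree `d f`. -/
theorem deg_cy_span [IsAlgClosed Ω] {f : Ω ⊗[F] C.A} {n : ℕ} (hf : (C.dgO Ω).d f = n) :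
    C.V.deg Ω (cy (Ideal.span {f})) = n := by
  have hI : (Ideal.span {f} : Ideal (Ω ⊗[F] C.A)) ≠ ⊥ := by
    rw [Ne, Ideal.span_singleton_eq_bot]
    exact (C.dgO Ω).ne_zero hf
  rw [← (finrank_cy hI).2, (C.dgO Ω).finrank_quot hf]

end

end CV
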