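import Pool.Agent.Lib.MP_f80667_ag.Cv.CyB

/-!
Ideals of `Ω ⊗ A` and cycles (`Ω` algebraically closed), 2b: every nonzero ideal is `idl C z` for exactly one effective cycle
of finite points: `exists_idl`, `idl_inj`, `idl_le_pow`, `finrank_idl`.
-/

open TensorProduct

namespace CV

section

variable {F : Type} [Field F] {C : Crv F} {Ω : Type} [Field Ω] [Algebra F Ω]

private theorem cyE_ne_top (φ : C.A →ₐ[F] Ω) : mx φ ≠ ⊤ := (mx_max φ).ne_top

private theorem cyE_idl_cons {z : C.V.pt Ω →₀ ℤ} (hz : Efc z) (φ : C.A →ₐ[F] Ω) (n : ℕ) :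
    idl C ((Finsupp.single (some φ) (n : ℤ) : C.V.pt Ω →₀ ℤ) + z) = mx φ ^ n * idl C z := by
  rw [idl_add (efc_single φ (Int.natCast_nonneg n)).1 hz.1, idl_single, Int.toNat_natCast]

private theorem cyE_idl_cons_one {z : C.V.pt Ω →₀ ℤ} (hz : Efc z) (φ : C.A →ₐ[F] Ω) :
    idl C ((Finsupp.single (some φ) 1 : C.V.pt Ω →₀ ℤ) + z) = mx φ * idl C z := by
  have h := cyE_idl_cons hz φ 1
  rwa [pow_one, Nat.cast_one] at h

/-- A point in the ideal of a cycle occurs in the cycle. -/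
private theorem cyE_le_mx {w : C.V.pt Ω →₀ ℤ} (hw : Efc w) (φ : C.A →ₐ[F] Ω) :
    idl C w ≤ mx φ → 1 ≤ w (some φ) := by
  refine efc_induction (P := fun w => idl C w ≤ mx φ → 1 ≤ w (some φ)) ?_ ?_ hw
  · intro h
    rw [idl_zero] at h
    exact absurd (top_le_iff.mp (by rwa [Ideal.one_eq_top] at h)) (cyE_ne_top φ)
  · intro z ψ hz ih h
    rw [cyE_idl_cons_one hz ψ] at h
    have hs : 0 ≤ (Finsupp.single (some ψ) 1 : C.V.pt Ω →₀ ℤ) (some φ) :=
      (efc_single ψ zero_le_one).1 _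
    rw [Finsupp.add_apply]
    rcases ((mx_max φ).isPrime.mul_le).mp h with h1 | h1
    · have h2 : mx ψ = mx φ := (mx_max ψ).eq_of_le (cyE_ne_top φ) h1
      have h3 : ψ = φ := mx_inj h2
      have h4 := hz.1 (some φ)
      rw [h3, Finsupp.single_eq_same]
      omega
    · have h2 := ih h1
      omega

/-- Splitting off a point. -/
private theorem cyE_split {w : C.V.pt Ω →₀ ℤ} (hw : Efc w) (φ : C.A →ₐ[F] Ω) (n : ℕ)
    (h : (n : ℤ) ≤ w (some φ)) :
    ∃ w' : C.V.pt Ω →₀ ℤ, Efc w' ∧ w = (Finsupp.single (some φ) (n : ℤ) : C.V.pt Ω →₀ ℤ) + w' := by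
  classical
  refine ⟨w - (Finsupp.single (some φ) (n : ℤ) : C.V.pt Ω →₀ ℤ), ⟨fun x => ?_, ?_⟩, ?_⟩
  · rw [Finsupp.sub_apply, Finsupp.single_apply]
    split_ifs with hx
    · rw [← hx]
      omega
    · rw [sub_zero]
      exact hw.1 x
  · rw [Finsupp.sub_apply, hw.2, (efc_single φ (Int.natCast_nonneg n)).2, sub_zero]
  · rw [add_sub_cancel]

/-- Every nonzero ideal is the ideal of an effective cycle. Proof: factorization in the Dedekind domain `Ω ⊗ A`, for example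
Noetherian induction: if `I ≠ ⊤` then `I ≤ mx φ` for some `φ` (`Ideal.exists_le_maximal`, `exists_mx`), `I = mx φ * J`. -/
theorem exists_idl [IsAlgClosed Ω] {I : Ideal (Ω ⊗[F] C.A)} (hI : I ≠ ⊥) :
    ∃ z : C.V.pt Ω →₀ ℤ, Efc z ∧ idl C z = I := by
  have hD := C.dedO Ω
  revert hI
  refine UniqueFactorizationMonoid.induction_on_prime
    (P := fun I => I ≠ ⊥ → ∃ z : C.V.pt Ω →₀ ℤ, Efc z ∧ idl C z = I) I ?_ ?_ ?_
  · intro h
    exact absurd rfl h
  · intro J hJ _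
    refine ⟨0, Efc.zero, ?_⟩
    rw [idl_zero, Ideal.one_eq_top]
    exact (Ideal.isUnit_iff.mp hJ).symm
  · intro J p hJ hp ih _
    obtain ⟨z, hz, hzJ⟩ := ih hJ
    have hpp : p.IsPrime := Ideal.isPrime_of_prime hp
    obtain ⟨φ, hφ⟩ := exists_mx (hpp.isMaximal hp.ne_zero)
    refine ⟨(Finsupp.single (some φ) 1 : C.V.pt Ω →₀ ℤ) + z, (efc_single φ zero_le_one).add hz, ?_⟩
    rw [cyE_idl_cons_one hz φ, hzJ, ← hφ]

/-- Proof: `efc_induction` on `z`: `mx φ` divides `idl w` so it divides one of the factors `mx ψ` (it is a prime ideal), `mx_inj`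
gives `w = single (some φ) 1 + w'`; cancel. -/
theorem idl_inj {z w : C.V.pt Ω →₀ ℤ} (hz : Efc z) (hw : Efc w) (h : idl C z = idl C w) : z = w := by
  have hD := C.dedO Ω
  revert w
  refine efc_induction (P := fun z => ∀ {w : C.V.pt Ω →₀ ℤ}, Efc w → idl C z = idl C w → z = w)
    ?_ ?_ hz
  · intro w hw h
    rw [idl_zero] at h
    refine efc_induction (P := fun w => (1 : Ideal (Ω ⊗[F] C.A)) = idl C w → 0 = w) ?_ ?_ hw h
    · intro _
      rfl
    · intro z φ hz _ h1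
      rw [cyE_idl_cons_one hz φ] at h1
      have h2 : (1 : Ideal (Ω ⊗[F] C.A)) ≤ mx φ := h1 ▸ (Ideal.mul_le_inf.trans inf_le_left)
      rw [Ideal.one_eq_top, top_le_iff] at h2
      exact absurd h2 (cyE_ne_top φ)
  · intro z φ hz ih w hw h
    rw [cyE_idl_cons_one hz φ] at h
    have h1 : idl C w ≤ mx φ := h ▸ (Ideal.mul_le_inf.trans inf_le_left)
    obtain ⟨w', hw', hww⟩ := cyE_split hw φ 1 (by exact_mod_cast cyE_le_mx hw φ h1)
    rw [Nat.cast_one] at hww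
    rw [hww, cyE_idl_cons_one hw' φ] at h
    rw [hww, ih hw' (mul_left_cancel₀ (mx_ne_bot φ) h)]

/-- The order of the ideal of a cycle at a point: `mx φ ^ n` contains `idl C z` iff `n ≤ z (some φ)`. -/
theorem idl_le_pow {z : C.V.pt Ω →₀ ℤ} (hz : Efc z) (φ : C.A →ₐ[F] Ω) (n : ℕ) :
    idl C z ≤ mx φ ^ n ↔ (n : ℤ) ≤ z (some φ) := by
  have hD := C.dedO Ω
  constructor
  · intro h
    induction n generalizing z with
    | zero => exact_mod_cast hz.1 (some φ)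
    | succ n ih =>
      have h1 : idl C z ≤ mx φ := h.trans (Ideal.pow_le_self (Nat.succ_ne_zero n))
      obtain ⟨z', hz', hzz⟩ := cyE_split hz φ 1 (by exact_mod_cast cyE_le_mx hz φ h1)
      rw [Nat.cast_one] at hzz
      rw [hzz, cyE_idl_cons_one hz' φ, pow_succ', ← Ideal.dvd_iff_le,
        mul_dvd_mul_iff_left (mx_ne_bot φ), Ideal.dvd_iff_le] at h
      have h2 := ih hz' h
      rw [hzz, Finsupp.add_apply, Finsupp.single_eq_same]
      push_cast
      omega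
  · intro h
    obtain ⟨z', hz', hzz⟩ := cyE_split hz φ n h
    rw [hzz, cyE_idl_cons hz' φ]
    exact Ideal.mul_le_inf.trans inf_le_left

/-- The degree is the dimension. Proof: `efc_induction`, `colen_mul`, `finrank_mx`. -/
theorem finrank_idl {z : C.V.pt Ω →₀ ℤ} (hz : Efc z) : Module.Finite Ω ((Ω ⊗[F] C.A) ⧸ idl C z) ∧
    (Module.finrank Ω ((Ω ⊗[F] C.A) ⧸ idl C z) : ℤ) = C.V.deg Ω z := by
  have hD := C.dedO Ω
  refine efc_induction (P := fun z => Module.Finite Ω ((Ω ⊗[F] C.A) ⧸ idl C z) ∧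
    (Module.finrank Ω ((Ω ⊗[F] C.A) ⧸ idl C z) : ℤ) = C.V.deg Ω z) ?_ ?_ hz
  · have hs : Subsingleton ((Ω ⊗[F] C.A) ⧸ idl C (0 : C.V.pt Ω →₀ ℤ)) := by
      rw [idl_zero, Ideal.one_eq_top]
      exact Ideal.Quotient.subsingleton_iff.mpr rfl
    refine ⟨inferInstance, ?_⟩
    rw [map_zero, Module.finrank_zero_of_subsingleton, Nat.cast_zero]
  · intro z φ hz ih
    obtain ⟨ih1, ih2⟩ := ih
    obtain ⟨h1, h2⟩ := finrank_mx φ
    obtain ⟨h3, h4⟩ := colen_mul (K := Ω) (mx_ne_bot φ) (idl_ne_bot z)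
    rw [cyE_idl_cons_one hz φ]
    refine ⟨h3, ?_⟩
    rw [h4, h2, map_add, ← ih2]
    have h5 : C.V.deg Ω (Finsupp.single (some φ) 1) = 1 := by
      unfold BE.Vr.deg
      rw [Finsupp.liftAddHom_apply_single]
      rfl
    rw [h5]
    push_cast
    ring

end

end CV
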