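import Pool.Agent.Lib.MP_f80667_ag.Cv.CyP

/-!
Ideals of `Ω ⊗ A` and cycles (`Ω` algebraically closed), 4: the Galois group.

* `gA C γ : Ω ⊗ A ≃+* Ω ⊗ A`: the action of `γ` on the coefficients.
-/

open TensorProduct

namespace CV

section

variable {F : Type} [Field F] (C : Crv F) {K Ω : Type} [Field K] [Field Ω] [Algebra K Ω]
  [Algebra F K] [Algebra F Ω] [IsScalarTower F K Ω]

/-- The action on the coefficients. -/
noncomputable def gA (γ : Ω ≃ₐ[K] Ω) : (Ω ⊗[F] C.A) ≃ₐ[F] (Ω ⊗[F] C.A) :=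
  Algebra.TensorProduct.congr (γ.restrictScalars F) AlgEquiv.refl

theorem gA_tmul (γ : Ω ≃ₐ[K] Ω) (c : Ω) (a : C.A) : gA C γ (c ⊗ₜ a) = γ c ⊗ₜ a := by
  unfold gA
  rw [Algebra.TensorProduct.congr_apply, Algebra.TensorProduct.map_tmul]
  rfl

theorem gA_one (x : Ω ⊗[F] C.A) : gA C (1 : Ω ≃ₐ[K] Ω) x = x := by
  induction x using TensorProduct.induction_on with
  | zero => rw [map_zero]
  | tmul c a => rw [gA_tmul]; rfl
  | add x y hx hy => rw [map_add, hx, hy]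

theorem gA_mul (γ δ : Ω ≃ₐ[K] Ω) (x : Ω ⊗[F] C.A) : gA C (γ * δ) x = gA C γ (gA C δ x) := by
  induction x using TensorProduct.induction_on with
  | zero => rw [map_zero, map_zero, map_zero]
  | tmul c a => rw [gA_tmul, gA_tmul, gA_tmul]; rfl
  | add x y hx hy => rw [map_add, map_add, map_add, hx, hy]

theorem gA_smul (γ : Ω ≃ₐ[K] Ω) (c : Ω) (x : Ω ⊗[F] C.A) : gA C γ (c • x) = γ c • gA C γ x := by
  have h1 : ∀ (c : Ω) (x : Ω ⊗[F] C.A), c • x = (c ⊗ₜ[F] (1 : C.A)) * x := by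
    intro c x
    rw [Algebra.smul_def, Algebra.TensorProduct.algebraMap_apply]
    rfl
  rw [h1, map_mul, gA_tmul, h1]

/-- Proof: `x` is a combination of the `1 ⊗ b n`, `b n` a basis with degrees `n` (`Dg.elB`, `Dg.bc_one_tmul`; `bd`). -/
theorem gA_d (γ : Ω ≃ₐ[K] Ω) (x : Ω ⊗[F] C.A) : (C.dgO Ω).d (gA C γ x) = (C.dgO Ω).d x := by
  change bd (C.G.elB.baseChange Ω) (fun n : C.G.deg => (n : ℕ)) (gA C γ x) =
    bd (C.G.elB.baseChange Ω) (fun n : C.G.deg => (n : ℕ)) x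
  have h1 : ∀ (x : Ω ⊗[F] C.A) (i : C.G.deg), (C.G.elB.baseChange Ω).repr (gA C γ x) i =
      γ ((C.G.elB.baseChange Ω).repr x i) := by
    intro x i
    induction x using TensorProduct.induction_on with
    | zero =>
      rw [map_zero, map_zero, Finsupp.zero_apply, map_zero]
    | tmul c a =>
      rw [gA_tmul, Module.Basis.baseChange_repr_tmul, Module.Basis.baseChange_repr_tmul]
      exact (map_smul (γ.restrictScalars F : Ω →ₐ[F] Ω) _ _).symm
    | add x y hx hy =>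
      rw [map_add, map_add, Finsupp.add_apply, hx, hy, map_add, Finsupp.add_apply, map_add]
  unfold bd
  have h2 : ((C.G.elB.baseChange Ω).repr (gA C γ x)).support =
      ((C.G.elB.baseChange Ω).repr x).support := by
    ext i
    rw [Finsupp.mem_support_iff, Finsupp.mem_support_iff, h1, Ne, Ne, map_eq_zero]
  rw [h2]

theorem vx_gA (γ : Ω ≃ₐ[K] Ω) (φ : C.A →ₐ[F] Ω) (x : Ω ⊗[F] C.A) :
    vx ((γ.restrictScalars F : Ω →ₐ[F] Ω).comp φ) (gA C γ x) = γ (vx φ x) := by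
  induction x using TensorProduct.induction_on with
  | zero => rw [map_zero, map_zero, map_zero, map_zero]
  | tmul c a =>
    rw [gA_tmul, vx_tmul, vx_tmul, map_mul]
    rfl
  | add x y hx hy => rw [map_add, map_add, hx, hy, map_add, map_add]

variable {C}

theorem act_none (γ : Ω ≃ₐ[K] Ω) : C.V.act γ (none : C.V.pt Ω) = none := rfl

theorem act_some (γ : Ω ≃ₐ[K] Ω) (φ : C.A →ₐ[F] Ω) : C.V.act γ (some φ : C.V.pt Ω) =
    some ((γ.restrictScalars F : Ω →ₐ[F] Ω).comp φ) := rfl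

private theorem cyG_act_inv (γ : Ω ≃ₐ[K] Ω) (x : C.V.pt Ω) :
    C.V.act γ⁻¹ (C.V.act γ x) = x := by
  rcases x with _ | φ
  · rfl
  · refine congrArg some (AlgHom.ext fun a => ?_)
    change γ⁻¹ (γ (φ a)) = φ a
    exact γ.symm_apply_apply (φ a)

private theorem cyG_act_inv' (γ : Ω ≃ₐ[K] Ω) (x : C.V.pt Ω) :
    C.V.act γ (C.V.act γ⁻¹ x) = x := by
  rcases x with _ | φ
  · rfl
  · refine congrArg some (AlgHom.ext fun a => ?_)
    change γ (γ⁻¹ (φ a)) = φ a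
    exact γ.apply_symm_apply (φ a)

private theorem cyG_act_inj (γ : Ω ≃ₐ[K] Ω) : Function.Injective (C.V.act γ) :=
  Function.LeftInverse.injective (cyG_act_inv γ)

theorem gA_mx (γ : Ω ≃ₐ[K] Ω) (φ : C.A →ₐ[F] Ω) :
    (mx φ).map (gA C γ) = mx ((γ.restrictScalars F : Ω →ₐ[F] Ω).comp φ) := by
  ext y
  rw [Ideal.mem_map_of_equiv, mem_mx]
  constructor
  · rintro ⟨x, hx, rfl⟩
    rw [vx_gA, mem_mx.1 hx, map_zero]
  · intro hy
    refine ⟨gA C γ⁻¹ y, ?_, ?_⟩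
    · rw [mem_mx]
      have h1 := vx_gA C γ φ (gA C γ⁻¹ y)
      rw [← gA_mul, mul_inv_cancel, gA_one, hy] at h1
      exact (map_eq_zero γ).1 h1.symm
    · rw [← gA_mul, mul_inv_cancel, gA_one]

theorem gA_span (γ : Ω ≃ₐ[K] Ω) (f : Ω ⊗[F] C.A) :
    (Ideal.span {f}).map (gA C γ) = Ideal.span {gA C γ f} := by
  rw [Ideal.map_span, Set.image_singleton]

theorem gA_ne_bot (γ : Ω ≃ₐ[K] Ω) {I : Ideal (Ω ⊗[F] C.A)} (hI : I ≠ ⊥) : I.map (gA C γ) ≠ ⊥ := by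
  rw [Ne, Ideal.map_eq_bot_iff_of_injective (gA C γ).injective]
  exact hI

theorem efc_map {γ : Ω ≃ₐ[K] Ω} {z : C.V.pt Ω →₀ ℤ} (hz : Efc z) :
    Efc (Finsupp.mapDomain (C.V.act γ) z) := by
  have h1 : ∀ x, Finsupp.mapDomain (C.V.act γ) z x = z (C.V.act γ⁻¹ x) := by
    intro x
    have h2 := Finsupp.mapDomain_apply (cyG_act_inj γ) z (C.V.act γ⁻¹ x)
    rwa [cyG_act_inv'] at h2
  refine ⟨fun x => ?_, ?_⟩
  · rw [h1]
    exact hz.1 _
  · rw [h1]
    exact hz.2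

theorem deg_map (γ : Ω ≃ₐ[K] Ω) (z : C.V.pt Ω →₀ ℤ) :
    C.V.deg Ω (Finsupp.mapDomain (C.V.act γ) z) = C.V.deg Ω z := by
  induction z using Finsupp.induction_linear with
  | zero => rw [Finsupp.mapDomain_zero]
  | add z w hz hw => rw [Finsupp.mapDomain_add, map_add, map_add, hz, hw]
  | single x n =>
    rw [Finsupp.mapDomain_single]
    unfold BE.Vr.deg
    rw [Finsupp.liftAddHom_apply_single, Finsupp.liftAddHom_apply_single]

/-- For every cycle. Proof: `act γ` is injective, `Ideal.map` of a product. -/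
theorem gA_idl (γ : Ω ≃ₐ[K] Ω) (z : C.V.pt Ω →₀ ℤ) :
    (idl C z).map (gA C γ) = idl C (Finsupp.mapDomain (C.V.act γ) z) := by
  unfold idl
  rw [Finsupp.prod_mapDomain_index_inj (cyG_act_inj γ)]
  have h1 : ∀ I : Ideal (Ω ⊗[F] C.A), I.map (gA C γ) = Ideal.mapHom (gA C γ) I := fun _ => rfl
  rw [h1, map_finsuppProd]
  refine Finset.prod_congr rfl fun x _ => ?_
  rcases x with _ | φ
  · exact map_one (Ideal.mapHom (gA C γ))
  · change Ideal.map (gA C γ) (mx φ ^ _) = mx ((γ.restrictScalars F : Ω →ₐ[F] Ω).comp φ) ^ _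
    rw [Ideal.map_pow, gA_mx]

theorem gA_cy [IsAlgClosed Ω] (γ : Ω ≃ₐ[K] Ω) {I : Ideal (Ω ⊗[F] C.A)} (hI : I ≠ ⊥) :
    cy (I.map (gA C γ)) = Finsupp.mapDomain (C.V.act γ) (cy I) := by
  conv_lhs => rw [← idl_cy hI]
  rw [gA_idl]
  exact cy_idl (efc_map (cy_efc I))

theorem pc_gal (γ : Ω ≃ₐ[K] Ω) {z : C.V.pt Ω →₀ ℤ} (hz : z ∈ Pc C Ω) :
    Finsupp.mapDomain (C.V.act γ) z ∈ Pc C Ω := by
  have h : Pc C Ω ≤ (Pc C Ω).comap (Finsupp.mapDomain.addMonoidHom (C.V.act γ)) := by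
    rw [Pc, AddSubgroup.closure_le]
    rintro w ⟨hd, f, g, hf, hg, hfg⟩
    change Finsupp.mapDomain (C.V.act γ) w ∈ Pc C Ω
    refine AddSubgroup.subset_closure ⟨by rw [deg_map, hd], gA C γ f, gA C γ g, ?_, ?_, ?_⟩
    · rw [Ne, map_eq_zero_iff _ (gA C γ).injective]
      exact hf
    · rw [Ne, map_eq_zero_iff _ (gA C γ).injective]
      exact hg
    · have h1 := congrArg (Ideal.map (gA C γ)) hfg
      rw [Ideal.map_mul, Ideal.map_mul, gA_span, gA_span, gA_idl, gA_idl] at h1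
      have h2 : Finsupp.mapDomain (C.V.act γ) (-w) = -Finsupp.mapDomain (C.V.act γ) w :=
        map_neg (Finsupp.mapDomain.addMonoidHom (M := ℤ) (C.V.act γ)) w
      rwa [h2] at h1
  exact h hz

/-- An ideal which is stable under `G_M` has a cycle which is stable under `G_M`. -/
theorem cy_fix [IsAlgClosed Ω] {M : IntermediateField K Ω} {I : Ideal (Ω ⊗[F] C.A)} (hI : I ≠ ⊥)
    (h : ∀ γ ∈ M.fixingSubgroup, I.map (gA C γ) = I) :
    ∀ γ ∈ M.fixingSubgroup, Finsupp.mapDomain (C.V.act γ) (cy I) = cy I := by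
  intro γ hγ
  rw [← gA_cy γ hI, h γ hγ]

end

end CV
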