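import Pool.Agent.Lib.MP_f80667_ag.Cv.CyC

/-!
Ideals of `Ω ⊗ A` and cycles (`Ω` algebraically closed), 3b: principal cycles: `mem_Pc`, `pc_iff`, `pc_of_rel`, `pc_span`.
-/

open TensorProduct

namespace CV

section

variable {F : Type} [Field F] {C : Crv F} {Ω : Type} [Field Ω] [Algebra F Ω]

/-- The positive part of a cycle, without `∞`. -/
noncomputable def zp (z : C.V.pt Ω →₀ ℤ) : C.V.pt Ω →₀ ℤ :=
  (z.mapRange (fun n : ℤ => max n 0) rfl).erase none

private theorem cyP_none (z : C.V.pt Ω →₀ ℤ) : zp z none = 0 := Finsupp.erase_same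

theorem pp_some (z : C.V.pt Ω →₀ ℤ) (φ : C.A →ₐ[F] Ω) : zp z (some φ) = max (z (some φ)) 0 := by
  unfold zp
  rw [Finsupp.erase_ne (by exact Option.some_ne_none φ)]
  rfl

theorem pp_efc (z : C.V.pt Ω →₀ ℤ) : Efc (zp z) := by
  refine ⟨fun x => ?_, cyP_none z⟩
  rcases x with _ | φ
  · exact (cyP_none z).ge
  · rw [pp_some]
    exact le_max_right _ _

theorem idl_pp (z : C.V.pt Ω →₀ ℤ) : idl C (zp z) = idl C z := by
  classical
  unfold idl
  have hs : (zp z).support ⊆ z.support := by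
    intro x hx
    rw [Finsupp.mem_support_iff] at hx ⊢
    rcases x with _ | φ
    · exact absurd (cyP_none z) hx
    · rw [pp_some] at hx
      intro h0
      rw [h0] at hx
      exact hx (max_self 0)
  rw [Finsupp.prod_of_support_subset (zp z) hs _ (fun x _ => by
      rcases x with _ | φ
      · rfl
      · exact pow_zero _)]
  refine Finset.prod_congr rfl fun x _ => ?_
  rcases x with _ | φ
  · rfl
  · change mx φ ^ ((zp z) (some φ)).toNat = mx φ ^ (z (some φ)).toNat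
    have h1 : ((zp z) (some φ)).toNat = (z (some φ)).toNat := by
      rw [pp_some]
      omega
    rw [h1]

private theorem cyP_single_none (k : ℤ) : (Finsupp.single (C.bp.o Ω) k : C.V.pt Ω →₀ ℤ) none = k :=
  Finsupp.single_eq_same

private theorem cyP_single_some (k : ℤ) (φ : C.A →ₐ[F] Ω) :
    (Finsupp.single (C.bp.o Ω) k : C.V.pt Ω →₀ ℤ) (some φ) = 0 :=
  Finsupp.single_eq_of_ne (by exact Option.some_ne_none φ)

theorem pp_sub (z : C.V.pt Ω →₀ ℤ) : z = zp z - zp (-z) + Finsupp.single (C.bp.o Ω) (z none) := by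
  ext x
  rcases x with _ | φ
  · rw [Finsupp.add_apply, Finsupp.sub_apply, cyP_none, cyP_none, cyP_single_none, sub_zero, zero_add]
  · rw [Finsupp.add_apply, Finsupp.sub_apply, pp_some, pp_some, cyP_single_some, Finsupp.neg_apply]
    omega

/-- If `z = a - b + k [∞]` with `a`, `b` effective then `idl z * idl b = idl (-z) * idl a`. Proof: `zp z + b = zp (-z) + a`. -/
theorem idl_cross {z a b : C.V.pt Ω →₀ ℤ} {k : ℤ} (ha : Efc a) (hb : Efc b)
    (h : z = a - b + Finsupp.single (C.bp.o Ω) k) : idl C z * idl C b = idl C (-z) * idl C a := by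
  rw [← idl_pp z, ← idl_pp (-z), ← idl_add (pp_efc z).1 hb.1, ← idl_add (pp_efc (-z)).1 ha.1]
  have h1 : zp z + b = zp (-z) + a := by
    ext x
    rcases x with _ | φ
    · rw [Finsupp.add_apply, Finsupp.add_apply, cyP_none, cyP_none, ha.2, hb.2]
    · rw [Finsupp.add_apply, Finsupp.add_apply, pp_some, pp_some, Finsupp.neg_apply, h,
        Finsupp.add_apply, Finsupp.sub_apply, cyP_single_some]
      omega
  rw [h1]

private theorem cyP_add (z w : C.V.pt Ω →₀ ℤ) :
    idl C (z + w) * (idl C (-z) * idl C (-w)) = idl C (-(z + w)) * (idl C z * idl C w) := by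
  rw [← idl_pp (z + w), ← idl_pp (-(z + w)), ← idl_pp z, ← idl_pp (-z), ← idl_pp w, ← idl_pp (-w),
    ← idl_add (pp_efc (-z)).1 (pp_efc (-w)).1, ← idl_add (pp_efc z).1 (pp_efc w).1,
    ← idl_add (pp_efc (z + w)).1 ((pp_efc (-z)).add (pp_efc (-w))).1,
    ← idl_add (pp_efc (-(z + w))).1 ((pp_efc z).add (pp_efc w)).1]
  have h1 : zp (z + w) + (zp (-z) + zp (-w)) = zp (-(z + w)) + (zp z + zp w) := by
    ext x
    rcases x with _ | φ
    · simp only [Finsupp.add_apply, cyP_none]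
    · simp only [Finsupp.add_apply, pp_some, Finsupp.neg_apply]
      omega
  rw [h1]

/-- The principal cycles. Proof: closure induction; `idl (z + w) * idl (-z) * idl (-w) = idl (-(z + w)) * idl z * idl w` and
cancellation in the Dedekind domain `Ω ⊗ A`. -/
theorem mem_Pc {z : C.V.pt Ω →₀ ℤ} : z ∈ Pc C Ω ↔ C.V.deg Ω z = 0 ∧
    ∃ f g : Ω ⊗[F] C.A, f ≠ 0 ∧ g ≠ 0 ∧ Ideal.span {f} * idl C (-z) = Ideal.span {g} * idl C z := by
  have := C.dedO Ω
  constructor
  · intro hz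
    refine AddSubgroup.closure_induction (p := fun z _ => C.V.deg Ω z = 0 ∧
      ∃ f g : Ω ⊗[F] C.A, f ≠ 0 ∧ g ≠ 0 ∧ Ideal.span {f} * idl C (-z) = Ideal.span {g} * idl C z)
      (fun z hz => hz) ?_ ?_ ?_ hz
    · exact ⟨map_zero _, 1, 1, one_ne_zero, one_ne_zero, by rw [neg_zero]⟩
    · rintro x y - - ⟨hx, f, g, hf, hg, h⟩ ⟨hy, f', g', hf', hg', h'⟩
      refine ⟨by rw [map_add, hx, hy, add_zero], f * f', g * g', mul_ne_zero hf hf',
        mul_ne_zero hg hg', ?_⟩
      have h0 : idl C x * idl C y ≠ 0 := mul_ne_zero (idl_ne_bot x) (idl_ne_bot y)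
      refine mul_right_cancel₀ h0 ?_
      rw [← Ideal.span_singleton_mul_span_singleton, ← Ideal.span_singleton_mul_span_singleton,
        mul_assoc, ← cyP_add]
      calc Ideal.span {f} * Ideal.span {f'} * (idl C (x + y) * (idl C (-x) * idl C (-y)))
          = idl C (x + y) * ((Ideal.span {f} * idl C (-x)) * (Ideal.span {f'} * idl C (-y))) := by
            ring
        _ = idl C (x + y) * ((Ideal.span {g} * idl C x) * (Ideal.span {g'} * idl C y)) := by
            rw [h, h']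
        _ = _ := by ring
    · rintro x - ⟨hx, f, g, hf, hg, h⟩
      exact ⟨by rw [map_neg, hx, neg_zero], g, f, hg, hf, by rw [neg_neg]; exact h.symm⟩
  · intro h
    exact AddSubgroup.subset_closure h

private theorem cyP_deg_single (x : C.V.pt Ω) (n : ℤ) : C.V.deg Ω (Finsupp.single x n) = n :=
  Finsupp.liftAddHom_apply_single _ _ _

/-- Equivalent ideals have equivalent cycles. Proof: `idl_cross` with `a = cy I`, `b = cy J`. -/
theorem pc_iff [IsAlgClosed Ω] {I J : Ideal (Ω ⊗[F] C.A)} (hI : I ≠ ⊥) (hJ : J ≠ ⊥) :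
    cy I - cy J - Finsupp.single (C.bp.o Ω) (C.V.deg Ω (cy I) - C.V.deg Ω (cy J)) ∈ Pc C Ω ↔
      ∃ f g : Ω ⊗[F] C.A, f ≠ 0 ∧ g ≠ 0 ∧ Ideal.span {f} * I = Ideal.span {g} * J := by
  have := C.dedO Ω
  set z := cy I - cy J - Finsupp.single (C.bp.o Ω) (C.V.deg Ω (cy I) - C.V.deg Ω (cy J)) with hz
  have hd : C.V.deg Ω z = 0 := by
    rw [hz, map_sub, map_sub, cyP_deg_single, sub_self]
  have hc : idl C z * J = idl C (-z) * I := by
    have h1 := idl_cross (z := z) (k := -(C.V.deg Ω (cy I) - C.V.deg Ω (cy J))) (cy_efc I) (cy_efc J)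
      (by rw [hz, Finsupp.single_neg, ← sub_eq_add_neg])
    rwa [idl_cy hI, idl_cy hJ] at h1
  have hz0 : idl C z ≠ 0 := idl_ne_bot z
  have hJ0 : J ≠ 0 := hJ
  rw [mem_Pc]
  constructor
  · rintro ⟨-, f, g, hf, hg, h⟩
    refine ⟨g, f, hg, hf, mul_left_cancel₀ hz0 ?_⟩
    calc idl C z * (Ideal.span {g} * I) = (Ideal.span {g} * idl C z) * I := by ring
      _ = (Ideal.span {f} * idl C (-z)) * I := by rw [h]
      _ = Ideal.span {f} * (idl C (-z) * I) := by ring
      _ = Ideal.span {f} * (idl C z * J) := by rw [hc]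
      _ = _ := by ring
  · rintro ⟨f, g, hf, hg, h⟩
    refine ⟨hd, g, f, hg, hf, mul_right_cancel₀ hJ0 ?_⟩
    calc Ideal.span {g} * idl C (-z) * J = idl C (-z) * (Ideal.span {g} * J) := by ring
      _ = idl C (-z) * (Ideal.span {f} * I) := by rw [h]
      _ = Ideal.span {f} * (idl C (-z) * I) := by ring
      _ = Ideal.span {f} * (idl C z * J) := by rw [hc]
      _ = _ := by ring

/-- A cycle of degree `0` which differs from `cy I - cy J` by a multiple of `∞` is principal if `I`, `J` are equivalent. -/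
theorem pc_of_rel [IsAlgClosed Ω] {I J : Ideal (Ω ⊗[F] C.A)} (hI : I ≠ ⊥) (hJ : J ≠ ⊥)
    {f g : Ω ⊗[F] C.A} (hf : f ≠ 0) (hg : g ≠ 0) (h : Ideal.span {f} * I = Ideal.span {g} * J)
    {z : C.V.pt Ω →₀ ℤ} (hz : C.V.deg Ω z = 0) {k : ℤ}
    (hk : z = cy I - cy J + Finsupp.single (C.bp.o Ω) k) : z ∈ Pc C Ω := by
  have h1 : k = -(C.V.deg Ω (cy I) - C.V.deg Ω (cy J)) := by
    rw [hk, map_add, map_sub, cyP_deg_single] at hz
    omega
  have h2 := (pc_iff hI hJ).2 ⟨f, g, hf, hg, h⟩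
  rwa [sub_eq_add_neg, ← Finsupp.single_neg, ← h1, ← hk] at h2

/-- The cycle of a function is principal. -/
theorem pc_span [IsAlgClosed Ω] {f : Ω ⊗[F] C.A} {n : ℕ} (hf : (C.dgO Ω).d f = n) :
    cy (Ideal.span {f}) - Finsupp.single (C.bp.o Ω) (n : ℤ) ∈ Pc C Ω := by
  have := C.domO Ω
  have hf0 : f ≠ 0 := (C.dgO Ω).ne_zero hf
  have hI : (Ideal.span {f} : Ideal (Ω ⊗[F] C.A)) ≠ ⊥ := by
    rw [Ne, Ideal.span_singleton_eq_bot]
    exact hf0
  refine pc_of_rel (I := Ideal.span {f}) (J := 1) hI one_ne_zero (f := 1) (g := f) one_ne_zero hf0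
    ?_ ?_ (k := -(n : ℤ)) ?_
  · rw [mul_one, Ideal.span_singleton_one, Ideal.top_mul]
  · rw [map_sub, deg_cy_span hf, cyP_deg_single, sub_self]
  · rw [cy_one, sub_zero, Finsupp.single_neg, ← sub_eq_add_neg]

theorem deg_Pc {z : C.V.pt Ω →₀ ℤ} (hz : z ∈ Pc C Ω) : C.V.deg Ω z = 0 := (mem_Pc.1 hz).1

end

end CV
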