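import Pool.Agent.Lib.MP_f80667_ag.Cv.CyP
import Pool.Agent.Lib.MP_f80667_ag.Cv.CyG
import Pool.Agent.Lib.MP_f80667_ag.Cv.ClM

/-!
The class of a cycle: `cz : (C.V.pt Ω →₀ ℤ) →+ Cg (Ω ⊗ A)`, the point at infinity has the class `0`.
-/

open ZC BE PE Polynomial TensorProduct IntermediateField

namespace CV

section

variable {F : Type} [Field F] {C : Crv F} {Ω : Type} [Field Ω] [Algebra F Ω]

instance ddO : IsDedekindDomain (Ω ⊗[F] C.A) := C.dedO Ω

/-- The class of a cycle. -/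
noncomputable def cz : (C.V.pt Ω →₀ ℤ) →+ Cg (Ω ⊗[F] C.A) :=
  Finsupp.liftAddHom fun x : C.V.pt Ω => (zmultiplesHom (Cg (Ω ⊗[F] C.A))) (match x with
    | none => 0
    | some φ => cls (mx φ))

theorem cz_none (n : ℤ) : cz (Finsupp.single (C.bp.o Ω) n) = (0 : Cg (Ω ⊗[F] C.A)) := by
  unfold cz
  rw [Finsupp.liftAddHom_apply_single, zmultiplesHom_apply]
  exact smul_zero n

theorem cz_some (φ : C.A →ₐ[F] Ω) (n : ℤ) :
    cz (Finsupp.single (some φ : C.V.pt Ω) n) = n • (cls (mx φ) : Cg (Ω ⊗[F] C.A)) := by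
  unfold cz
  rw [Finsupp.liftAddHom_apply_single, zmultiplesHom_apply]

/-- The class of a product of nonzero ideals. -/
private theorem cz_prod {A ι : Type} [CommRing A] [IsDedekindDomain A] (s : Finset ι)
    (f : ι → Ideal A) (hf : ∀ i ∈ s, f i ≠ ⊥) : cls (∏ i ∈ s, f i) = ∑ i ∈ s, cls (f i) := by
  classical
  induction s using Finset.induction_on with
  | empty => rw [Finset.prod_empty, Finset.sum_empty, Ideal.one_eq_top, cls_top]
  | insert a s ha ih =>
    rw [Finset.prod_insert ha, Finset.sum_insert ha, cls_mul (hf a (Finset.mem_insert_self a s)),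
      ih fun i hi => hf i (Finset.mem_insert_of_mem hi)]
    rw [← Ideal.zero_eq_bot]
    exact Finset.prod_ne_zero_iff.2 fun i hi => hf i (Finset.mem_insert_of_mem hi)

/-- The class of a point. -/
private noncomputable def czPt (x : C.V.pt Ω) : Cg (Ω ⊗[F] C.A) :=
  match x with
    | none => 0
    | some φ => cls (mx φ)

private theorem cz_sum (z : C.V.pt Ω →₀ ℤ) : cz z = ∑ x ∈ z.support, z x • czPt x := by
  rfl

private theorem cz_idl (z : C.V.pt Ω →₀ ℤ) :
    (cls (idl C z) : Cg (Ω ⊗[F] C.A)) = ∑ x ∈ z.support, (z x).toNat • czPt x := by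
  unfold idl
  rw [Finsupp.prod, cz_prod]
  · refine Finset.sum_congr rfl fun x _ => ?_
    rcases x with _ | φ
    · have h1 : cls (1 : Ideal (Ω ⊗[F] C.A)) = 0 := by rw [Ideal.one_eq_top, cls_top]
      exact h1.trans (smul_zero (M := ℕ) (A := Cg (Ω ⊗[F] C.A)) (z none).toNat).symm
    · exact cls_pow (mx_ne_bot φ) _
  · intro x _
    have := C.domO Ω
    rw [← Ideal.zero_eq_bot]
    rcases x with _ | φ
    · exact one_ne_zero
    · exact pow_ne_zero _ (mx_ne_bot φ)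

/-- Proof: `zp_sub`, `idl_zp`, `cz_efc`. -/
theorem cz_eq (z : C.V.pt Ω →₀ ℤ) :
    cz z = (cls (idl C z) - cls (idl C (-z)) : Cg (Ω ⊗[F] C.A)) := by
  rw [cz_sum, cz_idl, cz_idl, Finsupp.support_neg, ← Finset.sum_sub_distrib]
  refine Finset.sum_congr rfl fun x _ => ?_
  rw [← natCast_zsmul, ← natCast_zsmul, ← sub_smul]
  congr 1
  rw [Finsupp.neg_apply, Int.toNat_sub_toNat_neg]

/-- Effective cycles. Proof: `efc_induction` (`idl_add`, `cls_mul`), or directly from the definition of `idl`. -/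
theorem cz_efc {z : C.V.pt Ω →₀ ℤ} (hz : Efc z) : cz z = (cls (idl C z) : Cg (Ω ⊗[F] C.A)) := by
  rw [cz_sum, cz_idl]
  refine Finset.sum_congr rfl fun x _ => ?_
  rw [← natCast_zsmul, Int.toNat_of_nonneg (hz.1 x)]

theorem cz_cy [IsAlgClosed Ω] {I : Ideal (Ω ⊗[F] C.A)} (hI : I ≠ ⊥) : cz (cy I) = cls I := by
  rw [cz_efc (cy_efc I), idl_cy hI]

/-- Proof: `mem_Pc`, `cls_eq`, `cz_eq`. -/
theorem mem_Pc_cz {z : C.V.pt Ω →₀ ℤ} :
    z ∈ Pc C Ω ↔ C.V.deg Ω z = 0 ∧ cz z = (0 : Cg (Ω ⊗[F] C.A)) := by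
  rw [mem_Pc, cz_eq, sub_eq_zero, eq_comm (a := (cls (idl C z) : Cg (Ω ⊗[F] C.A))),
    cls_eq (idl_ne_bot _) (idl_ne_bot _)]

/-- Two cycles with the same class. -/
theorem pc_of_cz {z w : C.V.pt Ω →₀ ℤ} (h : cz z = (cz w : Cg (Ω ⊗[F] C.A))) :
    z - w - Finsupp.single (C.bp.o Ω) (C.V.deg Ω z - C.V.deg Ω w) ∈ Pc C Ω := by
  rw [mem_Pc_cz]
  refine ⟨?_, ?_⟩
  · rw [map_sub, map_sub]
    have h1 : ∀ n : ℤ, C.V.deg Ω (Finsupp.single (C.bp.o Ω) n) = n := fun n =>
      Finsupp.liftAddHom_apply_single _ _ _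
    rw [h1, sub_self]
  · rw [map_sub, map_sub, cz_none, h, sub_self, sub_zero]

end

section gal

variable {F : Type} [Field F] {C : Crv F} {K Ω : Type} [Field K] [Field Ω] [Algebra K Ω]
  [Algebra F K] [Algebra F Ω] [IsScalarTower F K Ω]

/-- Equivariance. Proof: `Finsupp` induction, `gA_mx`, `clMap_cls`. -/
theorem cz_act (γ : Ω ≃ₐ[K] Ω) (z : C.V.pt Ω →₀ ℤ) :
    cz (Finsupp.mapDomain (C.V.act γ) z) = clMap (gA C γ).toRingEquiv (cz z) := by
  induction z using Finsupp.induction_linear with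
  | zero => rw [Finsupp.mapDomain_zero, map_zero, map_zero]
  | add z w hz hw => rw [Finsupp.mapDomain_add, map_add, map_add, map_add, hz, hw]
  | single x n =>
    rw [Finsupp.mapDomain_single]
    rcases x with _ | φ
    · have h1 : cz (Finsupp.single (C.V.act γ (none : C.V.pt Ω)) n) =
          (0 : Cg (Ω ⊗[F] C.A)) := cz_none n
      have h2 : cz (Finsupp.single (none : C.V.pt Ω) n) = (0 : Cg (Ω ⊗[F] C.A)) := cz_none n
      exact h1.trans ((map_zero _).symm.trans (congrArg _ h2.symm))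
    · have h1 : cz (Finsupp.single (C.V.act γ (some φ : C.V.pt Ω)) n) =
          n • (cls (mx ((γ.restrictScalars F : Ω →ₐ[F] Ω).comp φ)) : Cg (Ω ⊗[F] C.A)) :=
        cz_some _ n
      have h2 : cz (Finsupp.single (some φ : C.V.pt Ω) n) =
          n • (cls (mx φ) : Cg (Ω ⊗[F] C.A)) := cz_some φ n
      have h3 : clMap (gA C γ).toRingEquiv (cls (mx φ)) =
          (cls (mx ((γ.restrictScalars F : Ω →ₐ[F] Ω).comp φ)) : Cg (Ω ⊗[F] C.A)) := by
        rw [clMap_cls _ (mx_ne_bot φ), ← gA_mx]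
        rfl
      refine h1.trans (Eq.trans ?_ (congrArg _ h2.symm))
      rw [map_zsmul, h3]

end gal

end CV
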