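import Pool.Agent.Lib.MP_f80667_ag.Cv.MdW
import Pool.Agent.Lib.MP_f80667_ag.Cv.Ded

/-!
The fibres of the models over the integers of `M` and of `Ω` are Dedekind domains.
-/

open ZC BE PE Polynomial TensorProduct IntermediateField IsLocalRing

namespace CV

section

variable {F : Type} [Field F] {K Ω : Type} [Field K] [Field Ω] [Algebra K Ω] [Algebra F K]
  {L : Ld K Ω} {C : Crv F} (m : Mod C (Ok L) K)

instance smR : Algebra.Smooth (Ok L) m.R := m.sm

instance ftR : Algebra.FiniteType (Ok L) m.R := inferInstance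

instance ddR : IsDedekindDomain (Ω ⊗[Ok L] m.R) := m.mdO.DL.ded

instance ddk : IsDedekindDomain (L.κ ⊗[Ok L] m.R) := m.mdO.Dk.ded

instance ddM (M : IntermediateField K Ω) : IsDedekindDomain (M ⊗[Ok L] m.R) := (m.mdM M).DL.ded

instance ddkM (M : IntermediateField K Ω) :
    IsDedekindDomain (ResidueField (OM L M) ⊗[Ok L] m.R) := (m.mdM M).Dk.ded

end

end CV
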