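import Mathlib

/-! Algebras which are smooth over an integrally closed domain. -/

open TensorProduct

namespace CV

/-- An algebra which is smooth over an integrally closed domain `P`, and a domain, is integrally closed, if its elements
are algebraic over `P`. Proof: `TensorProduct.toIntegralClosure_bijective_of_smooth` with `B = FractionRing P`
(`integralClosure P (FractionRing P)` is `P`): `S` is integrally closed in `S ⊗[P] FractionRing P`, the localization of `S` at
`P ∖ 0`; this is a domain which is algebraic over the field `FractionRing P`, so a field, the field of fractions of `S`. -/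
theorem intClosed_of_smooth {P S : Type} [CommRing P] [IsDomain P] [IsIntegrallyClosed P] [CommRing S]
    [IsDomain S] [Algebra P S] [Algebra.Smooth P S] [Algebra.IsAlgebraic P S]
    (hinj : Function.Injective (algebraMap P S)) : IsIntegrallyClosed S := by
  have hf : FaithfulSMul P S := (faithfulSMul_iff_algebraMap_injective P S).2 hinj
  have hL : IsLocalization (Algebra.algebraMapSubmonoid S (nonZeroDivisors P)) (FractionRing S) :=
    inferInstance
  have hT : IsLocalization (Algebra.algebraMapSubmonoid S (nonZeroDivisors P))
      (S ⊗[P] FractionRing P) := inferInstance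
  refine (IsLocalization.algEquiv (Algebra.algebraMapSubmonoid S (nonZeroDivisors P))
    (S ⊗[P] FractionRing P) (FractionRing S)).isIntegrallyClosedIn.1 ?_
  rw [isIntegrallyClosedIn_iff]
  refine ⟨IsLocalization.injective (M := Algebra.algebraMapSubmonoid S (nonZeroDivisors P)) _ ?_,
    fun {x} hx => ?_⟩
  · exact map_le_nonZeroDivisors_of_injective _ hinj le_rfl
  · obtain ⟨y, hy⟩ := (TensorProduct.toIntegralClosure_bijective_of_smooth (R := P) (S := S)
      (B := FractionRing P)).2 ⟨x, hx⟩
    have h1 : ∀ y : S ⊗[P] integralClosure P (FractionRing P), ∃ z : S,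
        algebraMap S (S ⊗[P] FractionRing P) z =
          (TensorProduct.toIntegralClosure P S (FractionRing P) y : S ⊗[P] FractionRing P) := by
      intro y
      induction y with
      | zero => exact ⟨0, by simp⟩
      | add a b ha hb =>
        obtain ⟨z, hz⟩ := ha
        obtain ⟨w, hw⟩ := hb
        exact ⟨z + w, by rw [map_add, map_add, hz, hw]; rfl⟩
      | tmul s b =>
        obtain ⟨c, hc⟩ := IsIntegrallyClosed.isIntegral_iff.1 b.2
        refine ⟨c • s, ?_⟩
        have h2 : (TensorProduct.toIntegralClosure P S (FractionRing P) (s ⊗ₜ b) :
            S ⊗[P] FractionRing P) = s ⊗ₜ (b : FractionRing P) := rfl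
        rw [h2, ← hc, Algebra.TensorProduct.algebraMap_apply, Algebra.algebraMap_self,
          RingHom.id_apply, Algebra.algebraMap_eq_smul_one, TensorProduct.smul_tmul]
    obtain ⟨z, hz⟩ := h1 y
    exact ⟨z, hz.trans (congrArg Subtype.val hy)⟩

end CV
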