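import Pool.Agent.Lib.MP_f80667_ag.Cv.DgL

/-!
Degree functions: `A` is finite over `K[x]`.
-/

namespace CV

namespace Dg

variable {K A : Type} [Field K] [CommRing A] [Algebra K A] (G : Dg K A)

/-- Every element is a sum of `x ^ i b`, `b` of bounded degree. Proof: induction on the degree of `a`: if `d a ≥ n₀ + m`
(`m` the degree of `x`) choose `e` of degree `d a - m` (`tail`) and `c` such that `a - c x e` has smaller degree (`lead`). -/
theorem fin_adjoin {x : A} {m : ℕ} (hx : G.d x = m) (hm : m ≠ 0) :
    Module.Finite (Algebra.adjoin K {x}) A := by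
  obtain ⟨n₀, hn₀⟩ := G.tail
  have hfin : (G.L (n₀ + m)).FG := Module.Finite.iff_fg.1 (G.L_fin (n₀ + m))
  obtain ⟨S, hS⟩ := hfin
  refine ⟨⟨S, ?_⟩⟩
  rw [eq_top_iff]
  have hL : ∀ a, G.d a ≤ ((n₀ + m : ℕ) : WithBot ℕ) →
      a ∈ Submodule.span (Algebra.adjoin K {x}) (S : Set A) := by
    intro a ha
    have h1 : a ∈ Submodule.span K (S : Set A) := by
      rw [hS]
      exact ha
    exact Submodule.span_le_restrictScalars K (Algebra.adjoin K {x}) _ h1
  have key : ∀ n : ℕ, ∀ a, G.d a ≤ (n : WithBot ℕ) →
      a ∈ Submodule.span (Algebra.adjoin K {x}) (S : Set A) := by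
    intro n
    induction n using Nat.strong_induction_on with
    | _ n ih =>
      intro a ha
      by_cases h : G.d a ≤ ((n₀ + m : ℕ) : WithBot ℕ)
      · exact hL a h
      · have ha0 : a ≠ 0 := by
          rintro rfl
          apply h
          rw [G.zero]
          exact bot_le
        obtain ⟨k, hk⟩ := G.exists_nat ha0
        rw [hk, Nat.cast_le] at h ha
        obtain ⟨e, he⟩ := hn₀ (k - m) (by omega)
        have he0 : e ≠ 0 := G.ne_zero he
        have hx0 : x ≠ 0 := G.ne_zero hx
        have hxe : G.d (x * e) = (k : ℕ) := by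
          rw [G.mul, hx, he, ← Nat.cast_add]
          congr 1
          omega
        obtain ⟨c, hc⟩ := G.lead a (x * e) (G.ne_zero hxe) (by rw [hk, hxe])
        have h1 : a - c • (x * e) ∈ Submodule.span (Algebra.adjoin K {x}) (S : Set A) := by
          by_cases hz : a - c • (x * e) = 0
          · rw [hz]
            exact zero_mem _
          · obtain ⟨l, hl⟩ := G.exists_nat hz
            rw [hl, hxe, Nat.cast_lt] at hc
            exact ih l (by omega) _ hl.le
        have h2 : e ∈ Submodule.span (Algebra.adjoin K {x}) (S : Set A) :=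
          ih (k - m) (by omega) e he.le
        have h3 : x * e ∈ Submodule.span (Algebra.adjoin K {x}) (S : Set A) := by
          have h4 : x * e = (⟨x, Algebra.self_mem_adjoin_singleton K x⟩ : Algebra.adjoin K {x}) • e :=
            rfl
          rw [h4]
          exact Submodule.smul_mem _ _ h2
        have h5 : c • (x * e) ∈ Submodule.span (Algebra.adjoin K {x}) (S : Set A) :=
          Submodule.smul_of_tower_mem _ c h3
        have h6 := Submodule.add_mem _ h1 h5
        rwa [sub_add_cancel] at h6
  intro a _
  by_cases ha : a = 0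
  · rw [ha]
    exact zero_mem _
  · obtain ⟨k, hk⟩ := G.exists_nat ha
    exact key k a hk.le

include G in
/-- Proof: `fin_adjoin` with `x` of positive degree (`tail`); `Algebra.adjoin K {x}` is Noetherian. -/
theorem noeth : IsNoetherianRing A := by
  obtain ⟨n₀, hn₀⟩ := G.tail
  obtain ⟨x, hx⟩ := hn₀ (n₀ + 1) (by omega)
  have h1 : Module.Finite (Algebra.adjoin K {x}) A := G.fin_adjoin hx (by omega)
  have h2 : Algebra.FiniteType K (Algebra.adjoin K {x}) := by
    rw [← Subalgebra.fg_iff_finiteType]
    exact ⟨{x}, by rw [Finset.coe_singleton]⟩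
  have h3 : Algebra.FiniteType (Algebra.adjoin K {x}) A := inferInstance
  have h4 : Algebra.FiniteType K A := Algebra.FiniteType.trans h2 h3
  exact Algebra.FiniteType.isNoetherianRing K A

theorem dgA_aeval {x : A} {m : ℕ} (hx : G.d x = m) (hm : m ≠ 0) (n : ℕ) :
    ∀ p : Polynomial K, p ≠ 0 → p.natDegree ≤ n →
      G.d (Polynomial.aeval x p) = ((m * p.natDegree : ℕ) : WithBot ℕ) := by
  induction n using Nat.strong_induction_on with
  | _ n ih =>
    intro p hp hpn
    have h1 : Polynomial.aeval x p = Polynomial.aeval x p.eraseLead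
        + p.leadingCoeff • x ^ p.natDegree := by
      conv_lhs => rw [← p.eraseLead_add_monomial_natDegree_leadingCoeff]
      rw [map_add, Polynomial.aeval_monomial, Algebra.smul_def]
    have h2 : G.d (p.leadingCoeff • x ^ p.natDegree) = ((m * p.natDegree : ℕ) : WithBot ℕ) := by
      rw [G.smul (Polynomial.leadingCoeff_ne_zero.2 hp), G.pow hx]
    rw [h1, ← h2]
    apply G.add_eq
    rw [h2]
    rcases Polynomial.eraseLead_natDegree_lt_or_eraseLead_eq_zero p with h3 | h3
    · by_cases h4 : p.eraseLead = 0
      · rw [h4, map_zero, G.zero]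
        exact WithBot.bot_lt_coe _
      · rw [ih (p.eraseLead.natDegree) (by omega) _ h4 le_rfl, Nat.cast_lt]
        exact Nat.mul_lt_mul_of_pos_left h3 (Nat.pos_of_ne_zero hm)
    · rw [h3, map_zero, G.zero]
      exact WithBot.bot_lt_coe _

/-- Proof: powers of `x` have different degrees. -/
theorem trans {x : A} {m : ℕ} (hx : G.d x = m) (hm : m ≠ 0) : Transcendental K x := by
  rw [transcendental_iff]
  intro p hp
  by_contra hne
  have h1 := G.dgA_aeval hx hm p.natDegree p hne le_rfl
  rw [hp, G.zero] at h1
  exact WithBot.bot_ne_coe h1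

end Dg

end CV
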