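import Pool.Agent.Lib.MP_f80667_ag.Cv.Dg

/-!
Degree functions: finite dimension of the spaces of elements of bounded degree.
-/

namespace CV

namespace Dg

variable {K A : Type} [Field K] [CommRing A] [Algebra K A] (G : Dg K A)

/-- Proof: induction on `n`; `L (n + 1)` is `L n` or `L n + K e` with `e` of degree `n + 1` (`lead`). -/
theorem L_fin (n : ℕ) : Module.Finite K (G.L n) := by
  induction n with
  | zero =>
    have hle : G.L 0 ≤ Submodule.span K {(1 : A)} := by
      intro x hx
      obtain ⟨c, hc⟩ := G.const (x := x) (by simpa using G.mem_L.1 hx)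
      rw [hc, Algebra.algebraMap_eq_smul_one]
      exact Submodule.smul_mem _ _ (Submodule.mem_span_singleton_self _)
    exact Submodule.finiteDimensional_of_le hle
  | succ n ih =>
    have hlt : ∀ x : A, G.d x < ((n + 1 : ℕ) : WithBot ℕ) → G.d x ≤ (n : WithBot ℕ) := by
      intro x hx
      by_cases h0 : x = 0
      · rw [h0, G.zero]
        exact bot_le
      · obtain ⟨k, hk⟩ := G.exists_nat h0
        rw [hk, Nat.cast_lt] at hx
        rw [hk, Nat.cast_le]
        omega
    by_cases he : ∃ e : A, G.d e = ((n + 1 : ℕ) : WithBot ℕ)
    · obtain ⟨e, he⟩ := he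
      have hle : G.L (n + 1) ≤ G.L n ⊔ Submodule.span K {e} := by
        intro x hx
        rcases lt_or_eq_of_le (G.mem_L.1 hx) with h | h
        · exact Submodule.mem_sup_left (hlt x h)
        · obtain ⟨c, hc⟩ := G.lead x e (G.ne_zero he) (by rw [h, he])
          rw [he] at hc
          have h1 : x - c • e ∈ G.L n := hlt _ hc
          have h2 : x = (x - c • e) + c • e := by rw [sub_add_cancel]
          rw [h2]
          exact Submodule.add_mem_sup h1
            (Submodule.smul_mem _ _ (Submodule.mem_span_singleton_self _))
      exact Submodule.finiteDimensional_of_le hle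
    · have hle : G.L (n + 1) ≤ G.L n := by
        intro x hx
        rcases lt_or_eq_of_le (G.mem_L.1 hx) with h | h
        · exact hlt x h
        · exact absurd ⟨x, h⟩ he
      exact Submodule.finiteDimensional_of_le hle

end Dg

end CV
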