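import Pool.Agent.Lib.MP_f80667_ag.Cv.MdC0
import Pool.Agent.Lib.MP_f80667_ag.Cv.Rp1

/-!
Points of the constant model.
-/

open TensorProduct IsLocalRing

namespace CV

section

variable {Ω A V L : Type} [Field Ω] [CommRing A] [Algebra Ω A] [CommRing V] [Algebra Ω V]

/-- The point over `V` given by the homomorphism `ξ : A → V`. -/
noncomputable def ptV (ξ : A →ₐ[Ω] V) : V ⊗[Ω] A →ₐ[V] V :=
  Algebra.TensorProduct.lift (AlgHom.id V V) ξ fun _ _ => Commute.all _ _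

theorem ptV_tmul (ξ : A →ₐ[Ω] V) (v : V) (a : A) : ptV ξ (v ⊗ₜ a) = v * ξ a := by
  unfold ptV
  rw [Algebra.TensorProduct.lift_tmul, AlgHom.id_apply]

end

section

variable {Ω A : Type} [Field Ω] [CommRing A] [Algebra Ω A] (G : Dg Ω A)
  {V L : Type} [CommRing V] [IsDomain V] [IsDiscreteValuationRing V] [Field L] [Algebra V L]
  [IsFractionRing V L] [Algebra Ω V] [Algebra Ω L] [IsScalarTower Ω V L]

/-- The values over the fraction field. Proof: induction on the tensor. -/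
theorem ptV_i (ξ : A →ₐ[Ω] V) (s : V ⊗[Ω] A) :
    ptV ((IsScalarTower.toAlgHom Ω V L).comp ξ) ((G.cst V L).i s) = algebraMap V L (ptV ξ s) := by
  induction s using TensorProduct.induction_on with
  | zero => rw [map_zero, map_zero, map_zero, map_zero]
  | tmul v a =>
    rw [G.cst_i, ptV_tmul, ptV_tmul, map_mul]
    rfl
  | add x y hx hy => rw [map_add, map_add, map_add, map_add, hx, hy]

/-- Congruent homomorphisms have the same reduction. Proof: `ptV ξ s - ptV ξ' s ∈ maximalIdeal V`, induction on the tensor. -/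
theorem ptV_comap {ξ ξ' : A →ₐ[Ω] V} (h : ∀ a, ξ a - ξ' a ∈ maximalIdeal V) :
    (maximalIdeal V).comap (ptV ξ) = (maximalIdeal V).comap (ptV ξ') := by
  have key : ∀ s : V ⊗[Ω] A, ptV ξ s - ptV ξ' s ∈ maximalIdeal V := by
    intro s
    induction s using TensorProduct.induction_on with
    | zero =>
      rw [map_zero, map_zero, sub_zero]
      exact Ideal.zero_mem _
    | tmul v a =>
      rw [ptV_tmul, ptV_tmul, ← mul_sub]
      exact Ideal.mul_mem_left _ _ (h a)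
    | add x y hx hy =>
      rw [map_add, map_add, add_sub_add_comm]
      exact Ideal.add_mem _ hx hy
  ext s
  rw [Ideal.mem_comap, Ideal.mem_comap]
  constructor
  · intro h1
    have h2 := Ideal.sub_mem _ h1 (key s)
    rwa [sub_sub_cancel] at h2
  · intro h1
    have h2 := Ideal.add_mem _ h1 (key s)
    rwa [add_sub_cancel] at h2

omit [IsDomain V] [IsDiscreteValuationRing V] in
private theorem dvP_sub (P : A →ₐ[Ω] Ω) (c : V) (a : A) :
    c ⊗ₜ[Ω] a - (ptV ((Algebra.ofId Ω V).comp P) (c ⊗ₜ[Ω] a)) ⊗ₜ[Ω] (1 : A) =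
      c ⊗ₜ[Ω] (a - algebraMap Ω A (P a)) := by
  have h1 : (c * algebraMap Ω V (P a)) ⊗ₜ[Ω] (1 : A) = c ⊗ₜ[Ω] (algebraMap Ω A (P a)) := by
    rw [mul_comm, ← Algebra.smul_def, TensorProduct.smul_tmul, Algebra.smul_def, mul_one]
  rw [TensorProduct.tmul_sub, ptV_tmul, ← h1]
  rfl

/-- **Local parameter** at a constant point. Proof: let `x' = ptV ((Algebra.ofId Ω V).comp P)`, `N = comap x' m`. For `y = Σ c_i ⊗ a_i ∈ N`: `y = Σ c_i ⊗ (a_i - P a_i) + x'(y) ⊗ 1`, and `(1 ⊗ s) (c_i ⊗ (a_i - P a_i)) = (1 ⊗ z) (c_i ⊗ u_i)`;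
`x'(y)` is a multiple of `π`. (So: for every `y`, `(1 ⊗ s) (y - x'(y) ⊗ 1)` is a multiple of `1 ⊗ z`; induction on the tensor.) -/
theorem rgl_cst {π : V} (hπ : Irreducible π) (P : A →ₐ[Ω] Ω) {z s : A} (hz : P z = 0)
    (hs : P s ≠ 0) (h : ∀ x, P x = 0 → z ∣ s * x) :
    Rgl π ((maximalIdeal V).comap (ptV ((Algebra.ofId Ω V).comp P))) ((1 : V) ⊗ₜ[Ω] z) := by
  have key : ∀ y : V ⊗[Ω] A, ∃ w : V ⊗[Ω] A, ((1 : V) ⊗ₜ[Ω] s) *
      (y - (ptV ((Algebra.ofId Ω V).comp P) y) ⊗ₜ[Ω] (1 : A)) = ((1 : V) ⊗ₜ[Ω] z) * w := by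
    intro y
    induction y using TensorProduct.induction_on with
    | zero => exact ⟨0, by rw [map_zero, TensorProduct.zero_tmul, sub_zero, mul_zero, mul_zero]⟩
    | tmul c a =>
      have h1 : P (a - algebraMap Ω A (P a)) = 0 := by
        rw [map_sub, P.commutes]
        exact sub_self _
      obtain ⟨u, hu⟩ := h _ h1
      refine ⟨c ⊗ₜ[Ω] u, ?_⟩
      rw [dvP_sub, Algebra.TensorProduct.tmul_mul_tmul, Algebra.TensorProduct.tmul_mul_tmul, hu]
    | add x y hx hy =>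
      obtain ⟨w, hw⟩ := hx
      obtain ⟨w', hw'⟩ := hy
      refine ⟨w + w', ?_⟩
      rw [mul_add, ← hw, ← hw', map_add, TensorProduct.add_tmul]
      ring
  refine ⟨?_, (1 : V) ⊗ₜ[Ω] s, ?_, ?_⟩
  · rw [Ideal.mem_comap, ptV_tmul, AlgHom.comp_apply, hz, map_zero, mul_zero]
    exact Ideal.zero_mem _
  · rw [Ideal.mem_comap, ptV_tmul, one_mul]
    intro h1
    have h2 : IsUnit (algebraMap Ω V (P s)) := (IsUnit.mk0 _ hs).map (algebraMap Ω V)
    exact (mem_maximalIdeal _).1 h1 h2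
  · intro x hx
    rw [Ideal.mem_comap, hπ.maximalIdeal_eq, Ideal.mem_span_singleton] at hx
    obtain ⟨c, hc⟩ := hx
    obtain ⟨w, hw⟩ := key x
    refine ⟨w, ((1 : V) ⊗ₜ[Ω] s) * (c ⊗ₜ[Ω] (1 : A)), ?_⟩
    rw [← hw, hc, Algebra.TensorProduct.algebraMap_apply, Algebra.algebraMap_self_apply]
    have h1 : (π * c) ⊗ₜ[Ω] (1 : A) = (π ⊗ₜ[Ω] (1 : A)) * (c ⊗ₜ[Ω] (1 : A)) := by
      rw [Algebra.TensorProduct.tmul_mul_tmul, mul_one]
    rw [h1]
    ring

/-- The kernel of a constant point. Proof: `⊇` is clear; `⊆`: `Σ c_i ⊗ a_i = Σ c_i ⊗ (a_i - P a_i) + x'(..) ⊗ 1`. -/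
theorem ker_cst {E : Type} [Field E] [Algebra Ω E] (P : A →ₐ[Ω] Ω) :
    RingHom.ker (ptV ((Algebra.ofId Ω E).comp P)) =
      (RingHom.ker P).map (Algebra.TensorProduct.includeRight : A →ₐ[Ω] E ⊗[Ω] A) := by
  have key : ∀ y : E ⊗[Ω] A, y - (ptV ((Algebra.ofId Ω E).comp P) y) ⊗ₜ[Ω] (1 : A) ∈
      (RingHom.ker P).map (Algebra.TensorProduct.includeRight : A →ₐ[Ω] E ⊗[Ω] A) := by
    intro y
    induction y using TensorProduct.induction_on with
    | zero =>
      rw [map_zero, TensorProduct.zero_tmul, sub_zero]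
      exact Ideal.zero_mem _
    | tmul c a =>
      have h1 : a - algebraMap Ω A (P a) ∈ RingHom.ker P := by
        rw [RingHom.mem_ker, map_sub, P.commutes]
        exact sub_self _
      have h2 : c ⊗ₜ[Ω] (a - algebraMap Ω A (P a)) = (c ⊗ₜ[Ω] (1 : A)) *
          (Algebra.TensorProduct.includeRight : A →ₐ[Ω] E ⊗[Ω] A) (a - algebraMap Ω A (P a)) := by
        rw [Algebra.TensorProduct.includeRight_apply, Algebra.TensorProduct.tmul_mul_tmul, mul_one,
          one_mul]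
      rw [dvP_sub, h2]
      exact Ideal.mul_mem_left _ _ (Ideal.mem_map_of_mem _ h1)
    | add x y hx hy =>
      have h3 : x + y - (ptV ((Algebra.ofId Ω E).comp P) (x + y)) ⊗ₜ[Ω] (1 : A) =
          (x - (ptV ((Algebra.ofId Ω E).comp P) x) ⊗ₜ[Ω] (1 : A)) +
            (y - (ptV ((Algebra.ofId Ω E).comp P) y) ⊗ₜ[Ω] (1 : A)) := by
        rw [map_add, TensorProduct.add_tmul]
        ring
      rw [h3]
      exact Ideal.add_mem _ hx hy
  apply le_antisymm
  · intro y hy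
    have h1 := key y
    rw [RingHom.mem_ker] at hy
    rwa [hy, TensorProduct.zero_tmul, sub_zero] at h1
  · rw [Ideal.map_le_iff_le_comap]
    intro a ha
    rw [RingHom.mem_ker] at ha
    rw [Ideal.mem_comap, RingHom.mem_ker, Algebra.TensorProduct.includeRight_apply, ptV_tmul,
      AlgHom.comp_apply, ha, map_zero, mul_zero]

end

end CV
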