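import Pool.Agent.Lib.MP_f80667_ag.Cv.Ex

/-! Totally ramified extensions `M / M₀`: a uniformizer `z` generates the integers. -/

open ZC BE PE Polynomial IntermediateField

namespace CV

variable {K Ω : Type} [Field K] [CharZero K] [Field Ω] [Algebra K Ω] [IsAlgClosure K Ω]
  {L : Ld K Ω}

/-- Every finite extension `M` of `K` has the residues of an unramified subextension. Proof: `exists_frob`, `frob_q`,
`frob_te` (`Pe/Ur.lean`). -/
theorem exists_ur (M : IntermediateField K Ω) [FiniteDimensional K M] : ∃ f ≠ 0, L.Rf M f := by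
  obtain ⟨φ, q, hφ⟩ := exists_frob L.toLf M
  obtain ⟨f, hf, hq, -⟩ := Ld.frob_q hφ
  rw [hq] at hφ
  obtain ⟨h1, h2⟩ := Ld.frob_te hφ
  exact ⟨f, hf, hf, sup_le bot_le (adjoin_le_iff.2 h2), h1⟩

omit [CharZero K] [IsAlgClosure K Ω] in
/-- A product of `X - w`, `nm w < 1`. -/
private theorem eis_prod (L : Ld K Ω) (s : Multiset Ω) (hs : ∀ w ∈ s, L.nm w < 1) :
    (∀ i, L.nm ((s.map fun w => X - C w).prod.coeff i) ≤ 1) ∧
      ∀ i, i ≠ Multiset.card s → L.nm ((s.map fun w => X - C w).prod.coeff i) < 1 := by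
  induction s using Multiset.induction_on with
  | empty =>
    rw [Multiset.map_zero, Multiset.prod_zero, Multiset.card_zero]
    constructor
    · intro i
      rw [coeff_one]
      split_ifs
      · rw [L.one]
      · rw [L.zero]
        exact zero_le_one
    · intro i hi
      rw [coeff_one, if_neg hi, L.zero]
      exact zero_lt_one
  | cons a s ih =>
    obtain ⟨ih1, ih2⟩ := ih fun w hw => hs w (Multiset.mem_cons_of_mem hw)
    have ha : L.nm a < 1 := hs a (Multiset.mem_cons_self a s)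
    obtain ⟨g, hg⟩ : ∃ g : Polynomial Ω, g = (s.map fun w => X - C w).prod := ⟨_, rfl⟩
    rw [← hg] at ih1 ih2
    rw [Multiset.map_cons, Multiset.prod_cons, ← hg, Multiset.card_cons, mul_comm]
    have h0 : (g * (X - C a)).coeff 0 = -(g.coeff 0 * a) := by
      rw [mul_coeff_zero, coeff_sub, coeff_X_zero, coeff_C_zero, zero_sub, mul_neg]
    have h1 : ∀ i, L.nm (g.coeff i * a) < 1 := fun i => by
      rw [L.mul]
      exact mul_lt_one_of_nonneg_of_lt_one_right (ih1 i) (L.nonneg _) ha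
    constructor
    · intro i
      rcases i with _ | i
      · rw [h0, L.neg]
        exact (h1 0).le
      · rw [coeff_mul_X_sub_C]
        exact (L.sub _ _).trans (max_le (ih1 i) (h1 (i + 1)).le)
    · intro i hi
      rcases i with _ | i
      · rw [h0, L.neg]
        exact h1 0
      · rw [coeff_mul_X_sub_C]
        exact (L.sub _ _).trans_lt (max_lt (ih2 i fun h => hi (by rw [h])) (h1 (i + 1)))

section pol

variable {M₀ M : IntermediateField K Ω}

omit [CharZero K] [IsAlgClosure K Ω] in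
/-- Division by a uniformizer. -/
private theorem eis_div {z w : Ω} (hz0 : 0 < L.nm z) (hz1 : L.nm z < 1) (hz : z ∈ M)
    (hu : ∀ x ∈ M, x ≠ 0 → ∃ n : ℤ, L.nm x = L.nm z ^ n) (hw : w ∈ M) (hw1 : L.nm w < 1) :
    ∃ w' ∈ M, L.nm w' ≤ 1 ∧ w = z * w' := by
  have hzne : z ≠ 0 := L.ne_zero hz0
  refine ⟨w / z, div_mem hw hz, ?_, (mul_div_cancel₀ _ hzne).symm⟩
  by_cases hw0 : w = 0
  · rw [hw0, zero_div, L.zero]
    exact zero_le_one
  obtain ⟨n, hn⟩ := hu w hw hw0
  rw [L.div, div_le_one hz0, hn]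
  rw [hn] at hw1
  have h1 : (0 : ℤ) < n := by
    by_contra hle
    rw [not_lt] at hle
    have h2 := one_le_zpow_of_nonpos₀ hz0 hz1.le hle
    exact absurd hw1 (not_lt.2 h2)
  have h2 : L.nm z ^ n ≤ L.nm z ^ (1 : ℤ) := zpow_le_zpow_right_of_le_one₀ hz0 hz1.le (by omega)
  rwa [zpow_one] at h2

omit [CharZero K] [IsAlgClosure K Ω] in
/-- The first `n` digits. -/
private theorem eis_dig (h : M₀ ≤ M) (hr : ∀ b ∈ M, L.nm b ≤ 1 → ∃ a ∈ M₀, L.nm (b - a) < 1)
    {z : Ω} (hz0 : 0 < L.nm z) (hz1 : L.nm z < 1) (hz : z ∈ M)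
    (hu : ∀ x ∈ M, x ≠ 0 → ∃ n : ℤ, L.nm x = L.nm z ^ n) (n : ℕ) :
    ∀ w ∈ M, L.nm w ≤ 1 → ∃ (a : ℕ → Ω) (w' : Ω), (∀ i, a i ∈ M₀ ∧ L.nm (a i) ≤ 1) ∧ w' ∈ M ∧
      L.nm w' ≤ 1 ∧ w = ∑ i ∈ Finset.range n, a i * z ^ i + z ^ n * w' := by
  induction n with
  | zero =>
    intro w hw hw1
    refine ⟨fun _ => 0, w, fun _ => ⟨zero_mem _, by rw [L.zero]; exact zero_le_one⟩, hw, hw1, ?_⟩
    rw [Finset.range_zero, Finset.sum_empty, pow_zero, one_mul, zero_add]
  | succ n ih =>
    intro w hw hw1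
    obtain ⟨b, hb, hb1⟩ := hr w hw hw1
    obtain ⟨w₁, hw₁, hw₁1, h1⟩ := eis_div hz0 hz1 hz hu (sub_mem hw (h hb)) hb1
    obtain ⟨a, w', ha, hw', hw'1, h2⟩ := ih w₁ hw₁ hw₁1
    have hbn : L.nm b ≤ 1 := by
      have h3 := L.sub w (w - b)
      rw [sub_sub_cancel] at h3
      exact h3.trans (max_le hw1 hb1.le)
    refine ⟨fun i => Nat.casesOn i b a, w', fun i => ?_, hw', hw'1, ?_⟩
    · rcases i with _ | i
      · exact ⟨hb, hbn⟩
      · exact ha i
    · rw [Finset.sum_range_succ']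
      have h3 : ∑ i ∈ Finset.range n, (Nat.casesOn (i + 1) b a : Ω) * z ^ (i + 1) =
          z * ∑ i ∈ Finset.range n, a i * z ^ i := by
        rw [Finset.mul_sum]
        refine Finset.sum_congr rfl fun i _ => ?_
        change a i * z ^ (i + 1) = _
        ring
      rw [h3]
      change w = z * ∑ i ∈ Finset.range n, a i * z ^ i + b * z ^ 0 + z ^ (n + 1) * w'
      have h4 : w = b + z * w₁ := by rw [← h1]; ring
      rw [h4, h2]
      ring

omit [CharZero K] [IsAlgClosure K Ω] in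
/-- Every integer of `M` is the value at `z` of a polynomial with integral coefficients in `M₀`. -/
private theorem eis_pol [FiniteDimensional K M] [FiniteDimensional K M₀] (h : M₀ ≤ M)
    (hr : ∀ b ∈ M, L.nm b ≤ 1 → ∃ a ∈ M₀, L.nm (b - a) < 1)
    {z : Ω} (hz0 : 0 < L.nm z) (hz1 : L.nm z < 1) (hz : z ∈ M)
    (hu : ∀ x ∈ M, x ≠ 0 → ∃ n : ℤ, L.nm x = L.nm z ^ n) {w : Ω} (hw : w ∈ M)
    (hw1 : L.nm w ≤ 1) : ∃ r : Polynomial Ω, (∀ i, r.coeff i ∈ M₀) ∧ (∀ i, L.nm (r.coeff i) ≤ 1) ∧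
      r.eval z = w := by
  classical
  obtain ⟨π, hπ, hπ0, hπ1, -⟩ := L.unif M₀ inferInstance
  have hπne : π ≠ 0 := L.ne_zero hπ0
  have hzne : z ≠ 0 := L.ne_zero hz0
  obtain ⟨e', he'⟩ := hu π (h hπ) hπne
  have he0 : 0 ≤ e' := by
    by_contra hlt
    rw [not_le] at hlt
    have h2 := one_le_zpow_of_nonpos₀ hz0 hz1.le hlt.le
    rw [← he'] at h2
    exact absurd hπ1 (not_lt.2 h2)
  obtain ⟨e, rfl⟩ := Int.eq_ofNat_of_zero_le he0
  rw [zpow_natCast] at he'
  have hstep : ∀ w : Ω, w ∈ M → L.nm w ≤ 1 → ∃ (a : ℕ → Ω) (w' : Ω),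
      (∀ i, a i ∈ M₀ ∧ L.nm (a i) ≤ 1) ∧ w' ∈ M ∧ L.nm w' ≤ 1 ∧
      w = ∑ i ∈ Finset.range e, a i * z ^ i + π * w' := by
    intro w hw hw1
    obtain ⟨a, w', ha, hw', hw'1, h1⟩ := eis_dig h hr hz0 hz1 hz hu e w hw hw1
    refine ⟨a, z ^ e / π * w', ha, mul_mem (div_mem (pow_mem hz e) (h hπ)) hw', ?_, ?_⟩
    · rw [L.mul, L.div, L.pow, ← he', div_self hπ0.ne', one_mul]
      exact hw'1
    · rw [h1]
      have h2 : π * (z ^ e / π * w') = z ^ e * w' := by field_simp
      rw [h2]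
  choose! A N hA using hstep
  have hW : ∀ j, N^[j] w ∈ M ∧ L.nm (N^[j] w) ≤ 1 := by
    intro j
    induction j with
    | zero => exact ⟨hw, hw1⟩
    | succ j ih =>
      rw [Function.iterate_succ_apply']
      obtain ⟨-, h2, h3, -⟩ := hA _ ih.1 ih.2
      exact ⟨h2, h3⟩
  have hx : ∀ n, w = ∑ i ∈ Finset.range e,
      (∑ j ∈ Finset.range n, π ^ j * A (N^[j] w) i) * z ^ i + π ^ n * N^[n] w := by
    intro n
    induction n with
    | zero =>
      simp
    | succ n ih =>
      obtain ⟨-, -, -, h4⟩ := hA _ (hW n).1 (hW n).2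
      rw [Function.iterate_succ_apply']
      have h5 : ∑ i ∈ Finset.range e,
          (∑ j ∈ Finset.range (n + 1), π ^ j * A (N^[j] w) i) * z ^ i =
          ∑ i ∈ Finset.range e, (∑ j ∈ Finset.range n, π ^ j * A (N^[j] w) i) * z ^ i +
            π ^ n * ∑ i ∈ Finset.range e, A (N^[n] w) i * z ^ i := by
        rw [Finset.mul_sum, ← Finset.sum_add_distrib]
        refine Finset.sum_congr rfl fun i _ => ?_
        rw [Finset.sum_range_succ]
        ring
      rw [h5]
      have h6 : π ^ n * N^[n] w = π ^ n * ∑ i ∈ Finset.range e, A (N^[n] w) i * z ^ i +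
          π ^ (n + 1) * N (N^[n] w) := by
        conv_lhs => rw [h4]
        ring
      rw [add_assoc, ← h6]
      exact ih
  have hcv : ∀ i, ∃ y ∈ M₀, ∀ n, L.nm (y - ∑ j ∈ Finset.range n, π ^ j * A (N^[j] w) i) ≤
      L.nm π ^ n := by
    intro i
    refine L.cpl M₀ inferInstance (L.nm π) hπ0.le hπ1
      (fun n => ∑ j ∈ Finset.range n, π ^ j * A (N^[j] w) i) (fun n => ?_) fun n => ?_
    · exact sum_mem fun j _ => mul_mem (pow_mem hπ j) ((hA _ (hW j).1 (hW j).2).1 i).1
    · change L.nm (∑ j ∈ Finset.range (n + 1), π ^ j * A (N^[j] w) i -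
        ∑ j ∈ Finset.range n, π ^ j * A (N^[j] w) i) ≤ _
      rw [Finset.sum_range_succ, add_sub_cancel_left, L.mul, L.pow]
      exact mul_le_of_le_one_right (pow_nonneg hπ0.le n) ((hA _ (hW n).1 (hW n).2).1 i).2
  choose y hyM hy using hcv
  have hy1 : ∀ i, L.nm (y i) ≤ 1 := by
    intro i
    have h1 := hy i 0
    rwa [Finset.range_zero, Finset.sum_empty, sub_zero, pow_zero] at h1
  have hco : ∀ j, (∑ i ∈ Finset.range e, C (y i) * X ^ i : Polynomial Ω).coeff j =
      if j < e then y j else 0 := by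
    intro j
    rw [finsetSum_coeff]
    simp only [coeff_C_mul_X_pow]
    rw [Finset.sum_ite_eq (Finset.range e) j y]
    simp only [Finset.mem_range]
  refine ⟨∑ i ∈ Finset.range e, C (y i) * X ^ i, fun i => ?_, fun i => ?_, ?_⟩
  · rw [hco]
    split_ifs
    · exact hyM i
    · exact zero_mem _
  · rw [hco]
    split_ifs
    · exact hy1 i
    · rw [L.zero]
      exact zero_le_one
  · have hev : (∑ i ∈ Finset.range e, C (y i) * X ^ i : Polynomial Ω).eval z =
        ∑ i ∈ Finset.range e, y i * z ^ i := by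
      rw [eval_finsetSum]
      refine Finset.sum_congr rfl fun i _ => ?_
      rw [eval_mul, eval_C, eval_pow, eval_X]
    rw [hev]
    have hle : ∀ n : ℕ, L.nm (∑ i ∈ Finset.range e, y i * z ^ i - w) ≤ L.nm π ^ n := by
      intro n
      have h1 : ∑ i ∈ Finset.range e, y i * z ^ i - w =
          ∑ i ∈ Finset.range e,
            (y i - ∑ j ∈ Finset.range n, π ^ j * A (N^[j] w) i) * z ^ i - π ^ n * N^[n] w := by
        conv_lhs => rw [hx n]
        rw [← sub_sub, ← Finset.sum_sub_distrib]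
        congr 1
        refine Finset.sum_congr rfl fun i _ => ?_
        ring
      rw [h1]
      refine (L.sub _ _).trans (max_le ?_ ?_)
      · refine L.sum_le _ _ (pow_nonneg hπ0.le n) fun i _ => ?_
        rw [L.mul, L.pow]
        exact (mul_le_of_le_one_right (L.nonneg _) (pow_le_one₀ hz0.le hz1.le)).trans (hy i n)
      · rw [L.mul, L.pow]
        exact mul_le_of_le_one_right (pow_nonneg hπ0.le n) (hW n).2
    by_contra hne
    have hpos := L.pos (sub_ne_zero.2 hne)
    obtain ⟨n, hn⟩ := exists_pow_lt_of_lt_one hpos hπ1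
    exact absurd (hle n) (not_le.2 hn)

end pol

/-- `z`: a generator of the maximal ideal of the integers of `M` (`L.unif M`); `f`: the minimal polynomial of `z` over
`M₀`, mapped to `Ω`: irreducible of characteristic `0`, so separable, its roots are the conjugates of `z` over `M₀`
(`Ω / K` is normal), their norm is `< 1` (`L.act`), so are the norms of the lower coefficients. `pol`: let `π₀` be a
generator for `M₀`, `nm π₀ = nm z ^ e`. By `hr` every integral `w ∈ M` is `∑ (i < e) a i z ^ i + π₀ w'`, `a i`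
integral in `M₀`, `w'` integral in `M`; iterate, the coefficients converge in `M₀` (`L.cpl M₀`), so
`w = r z`, `r` with integral coefficients in `M₀`, degree `< e`. `r 0` has norm `< 1` if `w` has. `fix`: by `pol` every
element of `M` is in `M₀(z)` (multiply with a power of `π₀`). -/
theorem eis {M₀ M : IntermediateField K Ω} [FiniteDimensional K M] (h : M₀ ≤ M)
    (hr : ∀ b ∈ M, L.nm b ≤ 1 → ∃ a ∈ M₀, L.nm (b - a) < 1) :
    ∃ z ∈ M, L.nm z < 1 ∧ ∃ f : Polynomial Ω, Dpo L M₀ f ∧ f.Separable ∧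
      (∀ w, w ∈ f.roots ↔ ∃ γ ∈ M₀.fixingSubgroup, w = γ z) ∧
      (∀ γ ∈ M₀.fixingSubgroup, γ z = z ↔ γ ∈ M.fixingSubgroup) ∧
      ∀ w ∈ M, L.nm w < 1 → ∃ r, Ipo L M₀ r ∧ r.eval z = w := by
  classical
  have hfin : FiniteDimensional K M₀ :=
    FiniteDimensional.of_injective (IntermediateField.inclusion h).toLinearMap
      (IntermediateField.inclusion_injective h)
  have hac : IsAlgClosed Ω := IsAlgClosure.isAlgClosed K
  have halg : Algebra.IsAlgebraic K Ω := IsAlgClosure.isAlgebraic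
  have hnor : Normal K Ω := inferInstance
  have hnor' : Normal M₀ Ω := Normal.tower_top_of_normal K M₀ Ω
  obtain ⟨z, hz, hz0, hz1, hu⟩ := L.unif M inferInstance
  have hintK : IsIntegral K z := (halg.isAlgebraic z).isIntegral
  have hint : IsIntegral M₀ z := hintK.tower_top
  have hpol : ∀ w ∈ M, L.nm w ≤ 1 → ∃ r : Polynomial Ω, (∀ i, r.coeff i ∈ M₀) ∧
      (∀ i, L.nm (r.coeff i) ≤ 1) ∧ r.eval z = w := fun w hw hw1 =>
    eis_pol h hr hz0 hz1 hz hu hw hw1
  obtain ⟨f, hf⟩ : ∃ f : Polynomial Ω, f = (minpoly M₀ z).map (algebraMap M₀ Ω) := ⟨_, rfl⟩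
  have hm : f.Monic := by
    rw [hf]
    exact (minpoly.monic hint).map _
  have hroot : ∀ w, w ∈ f.roots ↔ ∃ γ ∈ M₀.fixingSubgroup, w = γ z := by
    intro w
    rw [mem_roots hm.ne_zero, IsRoot.def, hf, eval_map_algebraMap]
    constructor
    · intro h0
      obtain ⟨σ, hσ⟩ := minpoly.exists_algEquiv_of_root hint.isAlgebraic h0
      refine ⟨σ.symm.restrictScalars K, ?_, ((AlgEquiv.symm_apply_eq σ).2 hσ.symm).symm⟩
      rw [IntermediateField.mem_fixingSubgroup_iff]
      intro x hx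
      exact σ.symm.commutes ⟨x, hx⟩
    · rintro ⟨γ, hγ, rfl⟩
      have h1 : (γ : Ω →+* Ω).comp (algebraMap M₀ Ω) = algebraMap M₀ Ω := by
        refine RingHom.ext fun x => ?_
        exact (IntermediateField.mem_fixingSubgroup_iff _ _).1 hγ _ x.2
      have h2 : (γ : Ω →+* Ω) (aeval z (minpoly M₀ z)) = 0 := by
        rw [minpoly.aeval, map_zero]
      rw [aeval_def, hom_eval₂, h1] at h2
      exact h2
  have hnr : ∀ w ∈ f.roots, L.nm w < 1 := by
    intro w hw
    obtain ⟨γ, -, rfl⟩ := (hroot w).1 hw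
    rw [L.act]
    exact hz1
  have hsplit : f.Splits := IsAlgClosed.splits f
  have hprod : f = (f.roots.map fun w => X - C w).prod := by
    have h1 := hsplit.eq_prod_roots
    rwa [hm.leadingCoeff, C_1, one_mul] at h1
  have hcard : Multiset.card f.roots = f.natDegree := hsplit.natDegree_eq_card_roots.symm
  refine ⟨z, hz, hz1, f, ⟨hm, fun i => ?_, fun i hi => ?_⟩, ?_, hroot, ?_, ?_⟩
  · rw [hf, coeff_map]
    exact ((minpoly M₀ z).coeff i).2
  · have h1 := (eis_prod L f.roots hnr).2 i (by rw [hcard]; exact hi.ne)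
    rwa [← hprod] at h1
  · rw [hf]
    exact (minpoly.irreducible hint).separable.map
  · intro γ hγ
    constructor
    · intro hγz
      have key : ∀ w ∈ M, L.nm w ≤ 1 → γ w = w := by
        intro w hw hw1
        obtain ⟨r, hr0, -, rfl⟩ := hpol w hw hw1
        rw [eval_eq_sum_range, map_sum]
        refine Finset.sum_congr rfl fun i _ => ?_
        rw [map_mul, map_pow, hγz, (IntermediateField.mem_fixingSubgroup_iff _ _).1 hγ _ (hr0 i)]
      rw [IntermediateField.mem_fixingSubgroup_iff]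
      intro w hw
      rcases le_total (L.nm w) 1 with h1 | h1
      · exact key w hw h1
      · have h2 : γ w⁻¹ = w⁻¹ := key w⁻¹ (inv_mem hw) (by
          rw [L.inv]
          exact inv_le_one_of_one_le₀ h1)
        rw [map_inv₀] at h2
        exact inv_injective h2
    · intro hγM
      exact (IntermediateField.mem_fixingSubgroup_iff _ _).1 hγM z hz
  · intro w hw hw1
    obtain ⟨r, hr0, hr1, hrw⟩ := hpol w hw hw1.le
    refine ⟨r, ⟨hr0, hr1, ?_⟩, hrw⟩
    have h1 : r.eval z = r.divX.eval z * z + r.coeff 0 := by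
      conv_lhs => rw [← divX_mul_X_add r]
      rw [eval_add, eval_mul, eval_X, eval_C]
    have h2 : r.coeff 0 = w - r.divX.eval z * z := by
      rw [← hrw, h1, add_sub_cancel_left]
    rw [h2]
    refine (L.sub _ _).trans_lt (max_lt hw1 ?_)
    rw [L.mul]
    refine mul_lt_one_of_nonneg_of_lt_one_right ?_ (L.nonneg _) hz1
    exact L.eval_le (fun i => by rw [coeff_divX]; exact hr1 _) hz1.le

end CV
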