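import Pool.Agent.Lib.MP_f80667_ag.Cv.Cl2

/-!
The functions over `Ω` of the functions over `M` of a model, the order at a point.
-/

open ZC BE PE Polynomial TensorProduct IntermediateField IsLocalRing

namespace CV

variable {F : Type} [Field F] {C : Crv F} {K Ω : Type} [Field K] [CharZero K] [Field Ω]
  [Algebra K Ω] [Algebra F K] [Algebra F Ω] [IsScalarTower F K Ω] [IsAlgClosure K Ω] {L : Ld K Ω}
  (m : Mod C (Ok L) K) (M : IntermediateField K Ω)

theorem em_mpOL (x : M ⊗[Ok L] m.R) : em (Ω := Ω) (isoE m M) x = isoE m Ω (m.mpOL M x) := by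
  have h : ∀ (c : M) (y : K ⊗[F] C.A), xi F C.A M Ω
      (Algebra.TensorProduct.cancelBaseChange F K M M C.A (c ⊗ₜ[K] y)) =
      Algebra.TensorProduct.cancelBaseChange F K Ω Ω C.A ((c : Ω) ⊗ₜ[K] y) := by
    intro c y
    induction y using TensorProduct.induction_on with
    | zero => rw [tmul_zero, map_zero, map_zero, tmul_zero, map_zero]
    | tmul k a =>
      rw [Algebra.TensorProduct.cancelBaseChange_tmul, Algebra.TensorProduct.cancelBaseChange_tmul,
        xi_tmul]
      congr 1
    | add x y hx hy => rw [tmul_add, map_add, map_add, hx, hy, tmul_add, map_add]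
  induction x using TensorProduct.induction_on with
  | zero => rw [map_zero, map_zero]; exact (congrArg _ (map_zero _)).trans (map_zero _)
  | tmul c r =>
    change xi F C.A M Ω (isoE m M (c ⊗ₜ r)) = _
    rw [isoE_tmul, h, Mod.mpOL_tmul, isoE_tmul]
  | add x y hx hy =>
    change xi F C.A M Ω (isoE m M (x + y)) = _
    rw [map_add, map_add, map_add, map_add, ← hx, ← hy]
    rfl

/-- **The order at a point.** -/
theorem od_ptE [FiniteDimensional K M] {x : M ⊗[Ok L] m.R} (hx : x ≠ 0) (φ : C.A →ₐ[F] Ω) :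
    (od (ptE m M φ) x : ℤ) = cy (Ideal.span {isoE m Ω (m.mpOL M x)}) (some φ) := by
  have h := em_od (isoE m M) hx (ptE m M φ)
  rw [pe_ptE, em_mpOL] at h
  exact h

end CV
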