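import Mathlib

/-! # The filtration argument for `e ≤ p - 2`

`T` is a subgroup of `G` (the Albanese kernel), `s i x y` a family of symbols (`i` an index of a
field and two discs over it, `x`, `y` in the ring of integers, `π i` the uniformizer),
`Ph p T π s n` the group generated by `p T` and the symbols of weight `≥ n`.

* `era_step`: one symbol of weight exactly `n` is of weight `n + 1`.
* `Era`: the hypotheses, `Era.main`: `T ≤ p T`. -/

set_option autoImplicit false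

open Finset

namespace CV

/-- The alternating sum of the `N`-th powers. -/
theorem sum_pow_factorial (N : ℕ) :
    ∑ k ∈ range (N + 1), ((-1 : ℤ) ^ (N - k) * N.choose k) * (k : ℤ) ^ N = N.factorial := by
  have h := congr_fun (fwdDiff_iter_eq_factorial (R := ℤ) (n := N)) 0
  rw [fwdDiff_iter_eq_sum_shift] at h
  simpa using h

/-- The alternating sum of the binomial coefficients. -/
theorem sum_sign_choose (N : ℕ) (hN : N ≠ 0) :
    ∑ k ∈ range (N + 1), ((-1 : ℤ) ^ (N - k) * N.choose k) = 0 := by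
  have h := fwdDiff_iter_eq_sum_shift (1 : ℤ) (fun _ : ℤ => (1 : ℤ)) N 0
  obtain ⟨m, rfl⟩ := Nat.exists_eq_succ_of_ne_zero hN
  have h2 : (fwdDiff (1 : ℤ))^[m + 1] (fun _ : ℤ => (1 : ℤ)) 0 = 0 := by
    rw [Function.iterate_succ_apply, fwdDiff_const]
    have : ∀ m : ℕ, (fwdDiff (1 : ℤ))^[m] (fun _ : ℤ => (0 : ℤ)) = fun _ => 0 := by
      intro m
      induction m with
      | zero => rfl
      | succ m ih => rw [Function.iterate_succ_apply, fwdDiff_const, ih]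
    rw [this]
  simp only [smul_eq_mul, mul_one] at h
  exact h.symm.trans h2

/-- The step: `u k` is the symbol `s (k^a x) (k^b y)`, `g` the symbol `s x y`. -/
theorem era_step {G : Type*} [AddCommGroup G] (p : ℕ) (hp : p.Prime) (N : ℕ) (hN : N < p)
    (V : AddSubgroup G) (g : G) (hpg : p • g ∈ V) (u : ℕ → G)
    (hu : ∀ k ≤ N, u k - (k ^ N) • g ∈ V)
    (hP : ∑ k ∈ range (N + 1), ((-1 : ℤ) ^ (N - k) * N.choose k) • u k ∈ V) : g ∈ V := by
  have h1 : ∑ k ∈ range (N + 1), ((-1 : ℤ) ^ (N - k) * N.choose k) • (u k - (k ^ N) • g) ∈ V :=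
    V.sum_mem fun k hk => V.zsmul_mem (hu k (Nat.lt_succ_iff.1 (mem_range.1 hk))) _
  have h2 := V.sub_mem hP h1
  rw [← sum_sub_distrib] at h2
  have h3 : ∀ k ∈ range (N + 1), ((-1 : ℤ) ^ (N - k) * N.choose k) • u k -
      ((-1 : ℤ) ^ (N - k) * N.choose k) • (u k - (k ^ N) • g) =
      (((-1 : ℤ) ^ (N - k) * N.choose k) * (k : ℤ) ^ N) • g := by
    intro k _
    rw [smul_sub, sub_sub_cancel, mul_smul _ ((k : ℤ) ^ N), ← natCast_zsmul g (k ^ N)]
    push_cast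
    rfl
  rw [sum_congr rfl h3, ← sum_smul, sum_pow_factorial] at h2
  -- `N!` and `p` are coprime
  have hcop : IsCoprime (N.factorial : ℤ) (p : ℤ) := by
    rw [Nat.isCoprime_iff_coprime, Nat.coprime_comm, hp.coprime_iff_not_dvd, hp.dvd_factorial]
    exact not_le.2 hN
  obtain ⟨a, b, hab⟩ := hcop
  have h4 := V.add_mem (V.zsmul_mem h2 a) (V.zsmul_mem (show (p : ℤ) • g ∈ V by
    rw [natCast_zsmul]
    exact hpg) b)
  rw [smul_smul, smul_smul, ← add_smul, hab, one_smul] at h4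
  exact h4

variable {G : Type*} [AddCommGroup G] (p : ℕ) (T : AddSubgroup G) {ι : Type*} {O : ι → Type*}
  [∀ i, CommRing (O i)] (π : ∀ i, O i) (s : ∀ i, O i → O i → G)

/-- `p T`. -/
def mulT : AddSubgroup G := T.map (nsmulAddMonoidHom p)

/-- The group generated by `p T` and the symbols of weight at least `n`. -/
def Ph (n : ℕ) : AddSubgroup G :=
  AddSubgroup.closure {g | ∃ (i : ι) (x y : O i) (I J : ℕ), I ≠ 0 ∧ J ≠ 0 ∧ n ≤ I + J ∧
    π i ^ I ∣ x ∧ π i ^ J ∣ y ∧ g = s i x y} ⊔ mulT p T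

variable {p T π s}

theorem mem_mulT {g : G} : g ∈ mulT p T ↔ ∃ t ∈ T, p • t = g := Iff.rfl

theorem smul_mem_mulT {g : G} (h : g ∈ T) : p • g ∈ mulT p T := ⟨g, h, rfl⟩

theorem mulT_le_Ph (n : ℕ) : mulT p T ≤ Ph p T π s n := le_sup_right

theorem mem_Ph {n : ℕ} {i : ι} {x y : O i} {I J : ℕ} (hI : I ≠ 0) (hJ : J ≠ 0) (hn : n ≤ I + J)
    (hx : π i ^ I ∣ x) (hy : π i ^ J ∣ y) : s i x y ∈ Ph p T π s n :=
  le_sup_left (a := AddSubgroup.closure _)
    (AddSubgroup.subset_closure ⟨i, x, y, I, J, hI, hJ, hn, hx, hy, rfl⟩)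

theorem Ph_anti {m n : ℕ} (h : m ≤ n) : Ph p T π s n ≤ Ph p T π s m := by
  refine sup_le ?_ (mulT_le_Ph m)
  rw [AddSubgroup.closure_le]
  rintro g ⟨i, x, y, I, J, hI, hJ, hn, hx, hy, rfl⟩
  exact mem_Ph hI hJ (h.trans hn) hx hy

variable (p T π s) in
/-- The hypotheses of the filtration argument (`Ψ N`: the group generated by the symbols with one
entry of level `N`). -/
structure Era (e : ℕ) (Ψ : ℕ → AddSubgroup G) : Prop where
  prime : p.Prime
  le : e + 2 ≤ p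
  sT : ∀ (i : ι) (x y : O i), π i ∣ x → π i ∣ y → s i x y ∈ T
  top : T ≤ Ph p T π s 2
  add₁ : ∀ (i : ι) (x y : O i) (I J h : ℕ), I ≠ 0 → J ≠ 0 → π i ^ I ∣ x → π i ^ J ∣ y →
    s i (h * x) y - h • s i x y ∈ Ph p T π s (I + J + 1)
  add₂ : ∀ (i : ι) (x y : O i) (I J h : ℕ), I ≠ 0 → J ≠ 0 → π i ^ I ∣ x → π i ^ J ∣ y →
    s i x (h * y) - h • s i x y ∈ Ph p T π s (I + J + 1)
  rel : ∀ (i : ι) (x y : O i) (N a b : ℕ), 2 ≤ N → N ≤ e + 1 → a + b = N → π i ∣ x → π i ∣ y →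
    π i ^ a ∣ x → π i ^ b ∣ y →
    ∑ k ∈ range (N + 1), ((-1 : ℤ) ^ (N - k) * N.choose k) •
      s i ((k ^ a : ℕ) * x) ((k ^ b : ℕ) * y) ∈ Ψ N
  Ψle : ∀ N, 2 ≤ N → N ≤ e → Ψ N ≤ Ph p T π s (N + 1)
  Ψend : Ψ (e + 1) ≤ mulT p T
  end₁ : ∀ (i : ι) (x y : O i), π i ^ (e + 1) ∣ x → π i ∣ y → s i x y ∈ mulT p T
  end₂ : ∀ (i : ι) (x y : O i), π i ∣ x → π i ^ (e + 1) ∣ y → s i x y ∈ mulT p T

namespace Era

variable {e : ℕ} {Ψ : ℕ → AddSubgroup G}

theorem succ (H : Era p T π s e Ψ) {n : ℕ} (hn : 2 ≤ n) (he : e ≠ 0) :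
    Ph p T π s n ≤ Ph p T π s (n + 1) := by
  refine sup_le ?_ (mulT_le_Ph _)
  rw [AddSubgroup.closure_le]
  rintro g ⟨i, x, y, I, J, hI, hJ, hIJ, hx, hy, rfl⟩
  rcases hIJ.lt_or_eq with hlt | heq
  · exact mem_Ph hI hJ hlt hx hy
  -- the weight is exactly `n`
  obtain ⟨N, hN⟩ : ∃ N, N = min n (e + 1) := ⟨_, rfl⟩
  obtain ⟨a, ha⟩ : ∃ a, a = min I N := ⟨_, rfl⟩
  obtain ⟨b, hb⟩ : ∃ b, b = N - a := ⟨_, rfl⟩
  have haI : a ≤ I := by omega
  have hbJ : b ≤ J := by omega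
  have hab : a + b = N := by omega
  have hN2 : 2 ≤ N := by omega
  have hNe : N ≤ e + 1 := by omega
  have hle := H.le
  have hx1 : π i ∣ x := (dvd_pow_self _ hI).trans hx
  have hy1 : π i ∣ y := (dvd_pow_self _ hJ).trans hy
  have hrel := H.rel i x y N a b hN2 hNe hab hx1 hy1 ((pow_dvd_pow _ haI).trans hx)
    ((pow_dvd_pow _ hbJ).trans hy)
  refine era_step p H.prime N (by omega) _ _ (mulT_le_Ph _ (smul_mem_mulT (H.sT i x y hx1 hy1)))
    (fun k => s i ((k ^ a : ℕ) * x) ((k ^ b : ℕ) * y)) ?_ ?_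
  · intro k _
    have h1 : s i ((k ^ a : ℕ) * x) ((k ^ b : ℕ) * y) - (k ^ a) • s i x ((k ^ b : ℕ) * y) ∈
        Ph p T π s (n + 1) := by
      have := H.add₁ i x ((k ^ b : ℕ) * y) I J (k ^ a) hI hJ hx (hy.mul_left _)
      rwa [← heq] at this
    have h2 : s i x ((k ^ b : ℕ) * y) - (k ^ b) • s i x y ∈ Ph p T π s (n + 1) := by
      have := H.add₂ i x y I J (k ^ b) hI hJ hx hy
      rwa [← heq] at this
    have h3 := (Ph p T π s (n + 1)).add_mem h1 ((Ph p T π s (n + 1)).nsmul_mem h2 (k ^ a))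
    have h4 : s i ((k ^ a : ℕ) * x) ((k ^ b : ℕ) * y) - (k ^ a) • s i x ((k ^ b : ℕ) * y) +
        (k ^ a) • (s i x ((k ^ b : ℕ) * y) - (k ^ b) • s i x y) =
        s i ((k ^ a : ℕ) * x) ((k ^ b : ℕ) * y) - (k ^ N) • s i x y := by
      rw [smul_sub, smul_smul, ← pow_add, hab]
      abel
    rw [h4] at h3
    exact h3
  · rcases Nat.lt_or_ge n (e + 1) with hlt | hge
    · have hNn : N = n := by omega
      have := H.Ψle N hN2 (by omega) hrel
      rwa [hNn] at this ⊢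
    · have hNn : N = e + 1 := by omega
      rw [hNn] at hrel ⊢
      exact mulT_le_Ph _ (H.Ψend hrel)

theorem end_le (H : Era p T π s e Ψ) : Ph p T π s (2 * e + 1) ≤ mulT p T := by
  refine sup_le ?_ le_rfl
  rw [AddSubgroup.closure_le]
  rintro g ⟨i, x, y, I, J, hI, hJ, hIJ, hx, hy, rfl⟩
  rcases Nat.lt_or_ge e I with h | h
  · exact H.end₁ i x y ((pow_dvd_pow _ h).trans hx) ((dvd_pow_self _ hJ).trans hy)
  · exact H.end₂ i x y ((dvd_pow_self _ hI).trans hx) ((pow_dvd_pow _ (by omega)).trans hy)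

theorem main (H : Era p T π s e Ψ) (he : e ≠ 0) : T ≤ mulT p T := by
  have h : ∀ m, Ph p T π s 2 ≤ Ph p T π s (m + 2) := by
    intro m
    induction m with
    | zero => exact le_rfl
    | succ m ih => exact ih.trans (H.succ (by omega) he)
  have h2 := h (2 * e - 1)
  have h3 : 2 * e - 1 + 2 = 2 * e + 1 := by omega
  rw [h3] at h2
  exact H.top.trans (h2.trans H.end_le)

end Era

end CV
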