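import Pool.Agent.Lib.MP_f80667_ag.Pe.NmL
import Pool.Agent.Lib.MP_f80667_ag.Cv.EraS

/-! # Symbols over the unramified tower

`Tw K Ω`: the unramified fields `U M`, the unramified extensions `Ex M M'`, the rings `O M` with the
uniformizer `π M`.

`Lv W l e A`: one curve. `A` = the cycles (or the cycle classes) with the Galois action, `D M r` the
group generated by the displacements of level `r` over `M`, `Nl M` the elements over `M` whose symbols
are `0` (principal cycles), `Ch M` the set of the functions `x ↦ [P x] - [P 0]`, `P` a chart over `M`.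

`top_le`: Lang's theorem and divisibility: all symbols are in the group generated by `l T` and the
symbols with one entry in `D M 1`.

`lev_le`: symbols with one entry in `D M r` and the other one arbitrary have weight `r + 1`.

`main₀` (`D M 1 ⊆ l J(M)`) and `main` (`e ≤ l - 2`): `T ≤ l T`. -/

set_option autoImplicit false

open PE Finset

namespace CV

/-- The tower of the unramified fields. -/
structure Tw (K Ω : Type) [Field K] [Field Ω] [Algebra K Ω] where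
  /-- `M` is unramified over `K` -/
  U : IntermediateField K Ω → Prop
  /-- `M'` is an unramified extension of `M` -/
  Ex : IntermediateField K Ω → IntermediateField K Ω → Prop
  /-- the ring of integers -/
  O : IntermediateField K Ω → Type
  ring : ∀ M, CommRing (O M)
  /-- the uniformizer -/
  π : ∀ M, O M
  fd : ∀ {M}, U M → FiniteDimensional K M
  le : ∀ {M M'}, Ex M M' → M ≤ M'
  up : ∀ {M M'}, U M → Ex M M' → U M'

attribute [instance] Tw.ring

variable {K Ω : Type} [Field K] [CharZero K] [Field Ω] [Algebra K Ω] [IsAlgClosure K Ω]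

/-- One curve, without charts. -/
structure Lv₀ (W : Tw K Ω) (l e : ℕ) (A : Type) [AddCommGroup A]
    [DistribMulAction (Ω ≃ₐ[K] Ω) A] where
  /-- the displacements of level `r` over `M` -/
  D : IntermediateField K Ω → ℕ → AddSubgroup A
  /-- the elements over `M` whose symbols are `0` -/
  Nl : IntermediateField K Ω → AddSubgroup A
  fx : ∀ {M r a}, W.U M → a ∈ D M r → Fx M a
  nx : ∀ {M a}, W.U M → a ∈ Nl M → Fx M a
  /-- levels above `e` are divisible by `l` -/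
  small : ∀ {M r a}, W.U M → e + 1 ≤ r → a ∈ D M r → ∃ a', Fx M a' ∧ a - l • a' ∈ Nl M
  /-- divisibility of the special fibre -/
  lift : ∀ {M a}, W.U M → Fx M a → ∃ M', W.Ex M M' ∧ ∃ a', Fx M' a' ∧ a - l • a' ∈ D M' 1
  /-- Lang's theorem -/
  lang : ∀ {M M' a}, W.U M → W.Ex M M' → Fx M a → ∃ a', Fx M' a' ∧ a - Nm M M' a' ∈ D M 1

/-- One curve, with charts. -/
structure Lv (W : Tw K Ω) (l e : ℕ) (A : Type) [AddCommGroup A]
    [DistribMulAction (Ω ≃ₐ[K] Ω) A] extends Lv₀ W l e A where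
  /-- the functions `x ↦ cl [P x] - cl [P 0]` -/
  Ch : ∀ M, Set (W.O M → A)
  chD : ∀ {M r α x}, W.U M → α ∈ Ch M → r ≠ 0 → W.π M ^ r ∣ x → α x ∈ D M r
  /-- generators of `D M r` -/
  gen : ∀ {M r}, W.U M → r ≠ 0 → D M r ≤ AddSubgroup.closure
    {a | ∃ M', W.Ex M M' ∧ ∃ α ∈ Ch M', ∃ x, W.π M' ^ r ∣ x ∧ a = Nm M M' (α x)} ⊔ Nl M
  /-- restriction -/
  res : ∀ {M M' r}, W.U M → W.Ex M M' → r ≠ 0 → D M r ≤ D M' r
  chR : ∀ {M M' r α x}, W.U M → W.Ex M M' → r ≠ 0 → α ∈ Ch M → W.π M ^ r ∣ x →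
    ∃ α' ∈ Ch M', ∃ x', W.π M' ^ r ∣ x' ∧ α' x' = α x
  /-- additivity up to the next level -/
  mul : ∀ {M r α x} (h : ℕ), W.U M → α ∈ Ch M → r ≠ 0 → W.π M ^ r ∣ x →
    α (h * x) - h • α x ∈ D M (r + 1)
  /-- norms up to the next level -/
  nm : ∀ {M M' r α x}, W.U M → W.Ex M M' → r ≠ 0 → α ∈ Ch M → W.π M ^ r ∣ x →
    ∃ a' ∈ D M' r, α x - Nm M M' a' ∈ D M (r + 1)

section sym

variable {A B G : Type} [AddCommGroup A] [AddCommGroup B] [AddCommGroup G]
  [DistribMulAction (Ω ≃ₐ[K] Ω) A] [DistribMulAction (Ω ≃ₐ[K] Ω) B] (S : Sc K Ω A B G)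
  {M N : IntermediateField K Ω}

omit [CharZero K] [IsAlgClosure K Ω] in
theorem swap_T : S.swap.T = S.T := by
  unfold Sc.T
  congr 1
  ext x
  constructor
  · rintro ⟨M, Q, P, h1, h2, h3, h4⟩
    exact ⟨M, P, Q, h1, h3, h2, h4⟩
  · rintro ⟨M, P, Q, h1, h2, h3, h4⟩
    exact ⟨M, Q, P, h1, h3, h2, h4⟩

omit [CharZero K] [IsAlgClosure K Ω] in
theorem sy_memT [FiniteDimensional K M] {a : A} {b : B} (ha : Fx M a) (hb : Fx M b) :
    S.sy M a b ∈ S.T :=
  AddSubgroup.subset_closure ⟨M, a, b, inferInstance, ha, hb, rfl⟩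

variable {S}

theorem sy_zero₁ [FiniteDimensional K M] {b : B} (hb : Fx M b) : S.sy M 0 b = 0 := by
  have h1 := S.add₁ M 0 0 b Fx.zero Fx.zero hb
  rw [add_zero] at h1
  exact left_eq_add.1 h1

theorem sy_zero₂ [FiniteDimensional K M] {a : A} (ha : Fx M a) : S.sy M a 0 = 0 :=
  sy_zero₁ (S := S.swap) ha

theorem sy_neg₁ [FiniteDimensional K M] {a : A} {b : B} (ha : Fx M a) (hb : Fx M b) :
    S.sy M (-a) b = -S.sy M a b := by
  have h1 := S.add₁ M a (-a) b ha ha.neg hb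
  rw [add_neg_cancel, sy_zero₁ hb] at h1
  exact (neg_eq_of_add_eq_zero_right h1.symm).symm

theorem sy_sub₁ [FiniteDimensional K M] {a a' : A} {b : B} (ha : Fx M a) (ha' : Fx M a')
    (hb : Fx M b) : S.sy M (a - a') b = S.sy M a b - S.sy M a' b := by
  rw [sub_eq_add_neg, S.add₁ M a (-a') b ha ha'.neg hb, sy_neg₁ ha' hb, ← sub_eq_add_neg]

theorem sy_sub₂ [FiniteDimensional K M] {a : A} {b b' : B} (ha : Fx M a) (hb : Fx M b)
    (hb' : Fx M b') : S.sy M a (b - b') = S.sy M a b - S.sy M a b' :=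
  sy_sub₁ (S := S.swap) hb hb' ha

theorem sy_smul₁ [FiniteDimensional K M] {a : A} {b : B} (ha : Fx M a) (hb : Fx M b) (n : ℕ) :
    S.sy M (n • a) b = n • S.sy M a b := by
  induction n with
  | zero => rw [zero_nsmul, zero_nsmul, sy_zero₁ hb]
  | succ n ih => rw [succ_nsmul, S.add₁ M _ _ b (ha.nsmul n) ha hb, ih, succ_nsmul]

theorem sy_smul₂ [FiniteDimensional K M] {a : A} {b : B} (ha : Fx M a) (hb : Fx M b) (n : ℕ) :
    S.sy M a (n • b) = n • S.sy M a b :=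
  sy_smul₁ (S := S.swap) hb ha n

/-- If the first entry is in the closure of elements whose symbols are in `V`, its symbol is. -/
theorem sy_closure₁ [FiniteDimensional K M] {b : B} (hb : Fx M b) {V : AddSubgroup G} {s : Set A}
    (hs : ∀ a ∈ s, Fx M a ∧ S.sy M a b ∈ V) {a : A} (ha : a ∈ AddSubgroup.closure s) :
    Fx M a ∧ S.sy M a b ∈ V := by
  induction ha using AddSubgroup.closure_induction with
  | mem a h => exact hs a h
  | zero => exact ⟨Fx.zero, by rw [sy_zero₁ hb]; exact V.zero_mem⟩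
  | add a a' _ _ h h' =>
    exact ⟨h.1.add h'.1, by rw [S.add₁ M a a' b h.1 h'.1 hb]; exact V.add_mem h.2 h'.2⟩
  | neg a _ h => exact ⟨h.1.neg, by rw [sy_neg₁ h.1 hb]; exact V.neg_mem h.2⟩

/-- The same modulo elements whose symbols are `0`. -/
theorem sy_sup₁ [FiniteDimensional K M] {b : B} (hb : Fx M b) {V : AddSubgroup G} {s : Set A}
    {H : AddSubgroup A} (hs : ∀ a ∈ s, Fx M a ∧ S.sy M a b ∈ V)
    (hH : ∀ a ∈ H, Fx M a ∧ S.sy M a b = 0) {a : A} (ha : a ∈ AddSubgroup.closure s ⊔ H) :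
    Fx M a ∧ S.sy M a b ∈ V := by
  obtain ⟨a₁, h₁, a₂, h₂, rfl⟩ := AddSubgroup.mem_sup.1 ha
  have h3 := sy_closure₁ hb hs h₁
  have h4 := hH a₂ h₂
  refine ⟨h3.1.add h4.1, ?_⟩
  rw [S.add₁ M a₁ a₂ b h3.1 h4.1 hb, h4.2, add_zero]
  exact h3.2

end sym

section lang

variable {A B G : Type} [AddCommGroup A] [AddCommGroup B] [AddCommGroup G]
  [DistribMulAction (Ω ≃ₐ[K] Ω) A] [DistribMulAction (Ω ≃ₐ[K] Ω) B] {S : Sc K Ω A B G}
  {W : Tw K Ω} {l e : ℕ} (X : Lv₀ W l e A) (Y : Lv₀ W l e B)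

/-- The symbols of the null elements of the first curve are `0`. -/
def Null (X : Lv₀ W l e A) (S : Sc K Ω A B G) : Prop :=
  ∀ (M : IntermediateField K Ω) (a : A) (b : B), W.U M → a ∈ X.Nl M → Fx M b → S.sy M a b = 0

theorem small_mem (hX : Null X S) {M : IntermediateField K Ω} {r : ℕ} {a : A} {b : B}
    (hM : W.U M) (hr : e + 1 ≤ r) (ha : a ∈ X.D M r) (hb : Fx M b) :
    S.sy M a b ∈ mulT l S.T := by
  have := W.fd hM
  obtain ⟨a', ha', h⟩ := X.small hM hr ha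
  have h1 := X.fx hM ha
  have e1 : S.sy M a b = S.sy M (l • a') b + S.sy M (a - l • a') b := by
    rw [← S.add₁ M _ _ b (ha'.nsmul l) (h1.sub (ha'.nsmul l)) hb, add_sub_cancel]
  rw [e1, hX M _ b hM h hb, add_zero, sy_smul₁ ha' hb]
  exact smul_mem_mulT (sy_memT S ha' hb)

/-- Lang's theorem and divisibility. -/
theorem top_le (V : AddSubgroup G) (hV : mulT l S.T ≤ V)
    (hgen : S.T ≤ AddSubgroup.closure {g | ∃ M a b, W.U M ∧ Fx M a ∧ Fx M b ∧ g = S.sy M a b})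
    (h₁ : ∀ {M a b}, W.U M → a ∈ X.D M 1 → Fx M b → S.sy M a b ∈ V)
    (h₂ : ∀ {M a b}, W.U M → Fx M a → b ∈ Y.D M 1 → S.sy M a b ∈ V) : S.T ≤ V := by
  refine hgen.trans ?_
  rw [AddSubgroup.closure_le]
  rintro g ⟨M, a, b, hM, ha, hb, rfl⟩
  have := W.fd hM
  obtain ⟨M', hM', a', ha', ha1⟩ := X.lift hM ha
  have hU' := W.up hM hM'
  have := W.fd hU'
  have hle := W.le hM'
  obtain ⟨b', hb', hb1⟩ := Y.lang hM hM' hb
  have hbf := Y.fx hM hb1
  have haf := X.fx hU' ha1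
  have hnb : Fx M (Nm M M' b') := nm_fx hle hb'
  -- `b = Nm b' + (b - Nm b')`
  have e1 : S.sy M a b = S.sy M a (Nm M M' b') + S.sy M a (b - Nm M M' b') := by
    rw [← S.add₂ M a _ _ ha hnb hbf, add_sub_cancel]
  have e2 : S.sy M a (Nm M M' b') = S.sy M' a b' := (S.nm₂ M M' a b' hle ha hb').symm
  have e3 : S.sy M' a b' = l • S.sy M' a' b' + S.sy M' (a - l • a') b' := by
    rw [← sy_smul₁ ha' hb' l, ← S.add₁ M' _ _ b' (ha'.nsmul l) haf hb', add_sub_cancel]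
  rw [SetLike.mem_coe, e1, e2, e3]
  exact V.add_mem (V.add_mem (hV (smul_mem_mulT (sy_memT S ha' hb'))) (h₁ hU' ha1 hb'))
    (h₂ hM ha hb1)

/-- The case where the first level is divisible by `l`. -/
theorem main₀ (X : Lv₀ W l e A) (Y : Lv₀ W l e B) (hX : Null X S) (hY : Null Y S.swap)
    (h0 : e = 0) (hgen : S.T ≤ AddSubgroup.closure {g | ∃ M a b, W.U M ∧ Fx M a ∧ Fx M b ∧ g = S.sy M a b}) :
    S.T ≤ mulT l S.T := by
  subst h0
  refine top_le X Y _ le_rfl hgen ?_ ?_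
  · intro M a b hM ha hb
    exact small_mem X hX hM le_rfl ha hb
  · intro M a b hM ha hb
    have h := small_mem (S := S.swap) Y hY hM le_rfl hb ha
    rw [swap_T] at h
    exact h

end lang

section era

variable {A B G : Type} [AddCommGroup A] [AddCommGroup B] [AddCommGroup G]
  [DistribMulAction (Ω ≃ₐ[K] Ω) A] [DistribMulAction (Ω ≃ₐ[K] Ω) B] {S : Sc K Ω A B G}
  {W : Tw K Ω} {l e : ℕ} (X : Lv W l e A) (Y : Lv W l e B)

/-- Symbols with one entry of level `r`. -/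
theorem lev_le (hX : Null X.toLv₀ S) (V : ℕ → AddSubgroup G) (hanti : ∀ r, V (r + 1) ≤ V r) (hV : ∀ r, mulT l S.T ≤ V r)
    (h : ∀ {M r a b}, W.U M → r ≠ 0 → a ∈ X.D M r → b ∈ Y.D M 1 → S.sy M a b ∈ V (r + 1))
    {M : IntermediateField K Ω} {r : ℕ} {a : A} {b : B} (hM : W.U M) (hr : r ≠ 0)
    (ha : a ∈ X.D M r) (hb : Fx M b) : S.sy M a b ∈ V (r + 1) := by
  have main : ∀ d r, r ≠ 0 → e + 1 ≤ r + d → ∀ M (a : A) (b : B), W.U M → a ∈ X.D M r →
      Fx M b → S.sy M a b ∈ V (r + 1) := by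
    intro d
    induction d with
    | zero =>
      intro r hr he M a b hM ha hb
      exact hV _ (small_mem X.toLv₀ hX hM he ha hb)
    | succ d ih =>
      intro r hr he M₀ a₀ b hM₀ ha₀ hb₀
      have := W.fd hM₀
      refine (sy_sup₁ hb₀ ?_ (fun a ha => ⟨X.nx hM₀ ha, hX M₀ a b hM₀ ha hb₀⟩)
        (X.gen hM₀ hr ha₀)).2
      rintro a ⟨M, hM₁, α, hα, x, hx, rfl⟩
      have hM := W.up hM₀ hM₁
      have := W.fd hM
      have hle₁ := W.le hM₁
      have ha := X.chD hM hα hr hx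
      have hb := hb₀.mono hle₁
      refine ⟨nm_fx hle₁ (X.fx hM ha), ?_⟩
      rw [← S.nm₁ M₀ M (α x) b hle₁ (X.fx hM ha) hb₀]
      obtain ⟨M', hM', b', hb', hb1⟩ := Y.lift hM hb
      have hU' := W.up hM hM'
      have := W.fd hU'
      have hle := W.le hM'
      have hbf := Y.fx hU' hb1
      obtain ⟨a', ha', ha1⟩ := X.nm hM hM' hr hα hx
      have hfa' := X.fx hU' ha'
      have hna : Fx M (Nm M M' a') := nm_fx hle hfa'
      have e1 : S.sy M (α x) b = S.sy M (Nm M M' a') b + S.sy M (α x - Nm M M' a') b := by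
        rw [← S.add₁ M _ _ b hna (X.fx hM ha1) hb, add_sub_cancel]
      have e2 : S.sy M (Nm M M' a') b = S.sy M' a' b := (S.nm₁ M M' a' b hle hfa' hb).symm
      have e3 : S.sy M' a' b = l • S.sy M' a' b' + S.sy M' a' (b - l • b') := by
        rw [← sy_smul₂ hfa' hb' l, ← S.add₂ M' a' _ _ hfa' (hb'.nsmul l) hbf, add_sub_cancel]
      rw [e1, e2, e3]
      refine (V (r + 1)).add_mem ((V (r + 1)).add_mem
        (hV _ (smul_mem_mulT (sy_memT S hfa' hb'))) (h hU' hr ha' hb1)) ?_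
      exact hanti _ (ih (r + 1) (Nat.succ_ne_zero r) (by omega) M _ b hM ha1 hb)
  exact main (e + 1) r hr (by omega) M a b hM ha hb

/-- The index of a family of symbols: an unramified field and two charts over it. -/
structure Ix where
  M : IntermediateField K Ω
  hM : W.U M
  α : W.O M → A
  hα : α ∈ X.Ch M
  β : W.O M → B
  hβ : β ∈ Y.Ch M

/-- The family of the symbols of the displacements in two charts. -/
def sI (S : Sc K Ω A B G) (i : Ix X Y) (x y : W.O i.M) : G := S.sy i.M (i.α x) (i.β y)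

/-- The filtration. -/
noncomputable def Fil (S : Sc K Ω A B G) (n : ℕ) : AddSubgroup G :=
  Ph l S.T (fun i : Ix X Y => W.π i.M) (sI X Y S) n

variable {X Y}

/-- Symbols of two displacements. -/
theorem dd_mem (hX : Null X.toLv₀ S) (hY : Null Y.toLv₀ S.swap) {M : IntermediateField K Ω} {I J : ℕ} {a : A} {b : B} (hM : W.U M) (hI : I ≠ 0)
    (hJ : J ≠ 0) (ha : a ∈ X.D M I) (hb : b ∈ Y.D M J) : S.sy M a b ∈ Fil X Y S (I + J) := by
  have hb0 := Y.fx hM hb
  have := W.fd hM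
  refine (sy_sup₁ hb0 ?_ (fun a ha => ⟨X.nx hM ha, hX M a b hM ha hb0⟩) (X.gen hM hI ha)).2
  rintro a ⟨M', hM', α, hα, x, hx, rfl⟩
  have hU' := W.up hM hM'
  have := W.fd hU'
  have hle := W.le hM'
  have hαx := X.fx hU' (X.chD hU' hα hI hx)
  refine ⟨nm_fx hle hαx, ?_⟩
  rw [← S.nm₁ M M' (α x) b hle hαx hb0]
  have hb' := Y.res hM hM' hJ hb
  refine (sy_sup₁ (S := S.swap) hαx ?_
    (fun b hb => ⟨Y.nx hU' hb, hY M' b _ hU' hb hαx⟩) (Y.gen hU' hJ hb')).2
  rintro b ⟨M'', hM'', β, hβ, y, hy, rfl⟩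
  have hU'' := W.up hU' hM''
  have := W.fd hU''
  have hle' := W.le hM''
  have hβy := Y.fx hU'' (Y.chD hU'' hβ hJ hy)
  refine ⟨nm_fx hle' hβy, ?_⟩
  change S.sy M' (α x) (Nm M' M'' (β y)) ∈ _
  rw [← S.nm₂ M' M'' (α x) (β y) hle' hαx hβy]
  obtain ⟨α', hα', x', hx', e⟩ := X.chR hU' hM'' hI hα hx
  rw [← e]
  exact mem_Ph (i := (⟨M'', hU'', α', hα', β, hβ⟩ : Ix X Y)) hI hJ le_rfl hx' hy

theorem d1_mem (hX : Null X.toLv₀ S) (hY : Null Y.toLv₀ S.swap) {M : IntermediateField K Ω} {r : ℕ} {a : A} {b : B} (hM : W.U M) (hr : r ≠ 0)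
    (ha : a ∈ X.D M r) (hb : Fx M b) : S.sy M a b ∈ Fil X Y S (r + 1) :=
  lev_le X Y hX (Fil X Y S) (fun r => Ph_anti (Nat.le_succ r)) (fun r => mulT_le_Ph r)
    (fun hM hr ha hb => dd_mem hX hY hM hr one_ne_zero ha hb) hM hr ha hb

theorem d2_mem (hX : Null X.toLv₀ S) (hY : Null Y.toLv₀ S.swap) {M : IntermediateField K Ω} {r : ℕ} {a : A} {b : B} (hM : W.U M) (hr : r ≠ 0)
    (ha : Fx M a) (hb : b ∈ Y.D M r) : S.sy M a b ∈ Fil X Y S (r + 1) := by
  refine lev_le (S := S.swap) Y X hY (Fil X Y S) (fun r => Ph_anti (Nat.le_succ r)) (fun r => ?_)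
    (fun hM hr hb ha => ?_) hM hr hb ha
  · rw [swap_T]
    exact mulT_le_Ph r
  · rename_i M r b a
    have h := dd_mem (S := S) hX hY hM one_ne_zero hr ha hb
    rw [add_comm 1 r] at h
    exact h

/-- The group generated by the symbols with one entry of level `r`. -/
def Psi (X : Lv W l e A) (Y : Lv W l e B) (S : Sc K Ω A B G) (r : ℕ) : AddSubgroup G :=
  AddSubgroup.closure {g | ∃ M a b, W.U M ∧ ((a ∈ X.D M r ∧ Fx M b) ∨ (Fx M a ∧ b ∈ Y.D M r)) ∧
    g = S.sy M a b}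

omit [CharZero K] [IsAlgClosure K Ω] in
theorem psi_mem₁ {M : IntermediateField K Ω} {r : ℕ} {a : A} {b : B} (hM : W.U M)
    (ha : a ∈ X.D M r) (hb : Fx M b) : S.sy M a b ∈ Psi X Y S r :=
  AddSubgroup.subset_closure ⟨M, a, b, hM, Or.inl ⟨ha, hb⟩, rfl⟩

omit [CharZero K] [IsAlgClosure K Ω] in
theorem psi_mem₂ {M : IntermediateField K Ω} {r : ℕ} {a : A} {b : B} (hM : W.U M)
    (ha : Fx M a) (hb : b ∈ Y.D M r) : S.sy M a b ∈ Psi X Y S r :=
  AddSubgroup.subset_closure ⟨M, a, b, hM, Or.inr ⟨ha, hb⟩, rfl⟩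

/-- The hypotheses of `Era` hold. -/
theorem era (hX : Null X.toLv₀ S) (hY : Null Y.toLv₀ S.swap) (hl : l.Prime) (he : e + 2 ≤ l)
    (hgen : S.T ≤ AddSubgroup.closure {g | ∃ M a b, W.U M ∧ Fx M a ∧ Fx M b ∧ g = S.sy M a b})
    (rel : ∀ (M : IntermediateField K Ω) (α : W.O M → A) (β : W.O M → B) (x y : W.O M)
      (N a b : ℕ), W.U M → α ∈ X.Ch M → β ∈ Y.Ch M → 2 ≤ N → N ≤ e + 1 → a + b = N →
      W.π M ∣ x → W.π M ∣ y → W.π M ^ a ∣ x → W.π M ^ b ∣ y →
      ∑ k ∈ range (N + 1), ((-1 : ℤ) ^ (N - k) * N.choose k) •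
        S.sy M (α ((k ^ a : ℕ) * x)) (β ((k ^ b : ℕ) * y)) ∈ Psi X Y S N) :
    Era l S.T (fun i : Ix X Y => W.π i.M) (sI X Y S) e (Psi X Y S) where
  prime := hl
  le := he
  sT i x y hx hy := by
    have := W.fd i.hM
    rw [← pow_one (W.π i.M)] at hx hy
    exact sy_memT S (X.fx i.hM (X.chD i.hM i.hα one_ne_zero hx))
      (Y.fx i.hM (Y.chD i.hM i.hβ one_ne_zero hy))
  top := top_le X.toLv₀ Y.toLv₀ _ (mulT_le_Ph 2) hgen
    (fun hM ha hb => d1_mem hX hY hM one_ne_zero ha hb)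
    (fun hM ha hb => d2_mem hX hY hM one_ne_zero ha hb)
  add₁ i x y I J h hI hJ hx hy := by
    have := W.fd i.hM
    have h1 := X.chD i.hM i.hα hI hx
    have h2 := Y.chD i.hM i.hβ hJ hy
    have h3 := X.mul h i.hM i.hα hI hx
    have h4 := X.fx i.hM (X.chD i.hM i.hα hI (hx.mul_left (h : W.O i.M)))
    have e : sI X Y S i (h * x) y - h • sI X Y S i x y =
        S.sy i.M (i.α (h * x) - h • i.α x) (i.β y) := by
      rw [sy_sub₁ h4 ((X.fx i.hM h1).nsmul h) (Y.fx i.hM h2),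
        sy_smul₁ (X.fx i.hM h1) (Y.fx i.hM h2)]
      rfl
    rw [e]
    have h5 := dd_mem (S := S) hX hY i.hM (Nat.succ_ne_zero I) hJ h3 h2
    have h6 : I + 1 + J = I + J + 1 := by omega
    rw [h6] at h5
    exact h5
  add₂ i x y I J h hI hJ hx hy := by
    have := W.fd i.hM
    have h1 := X.chD i.hM i.hα hI hx
    have h2 := Y.chD i.hM i.hβ hJ hy
    have h3 := Y.mul h i.hM i.hβ hJ hy
    have h4 := Y.fx i.hM (Y.chD i.hM i.hβ hJ (hy.mul_left (h : W.O i.M)))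
    have e : sI X Y S i x (h * y) - h • sI X Y S i x y =
        S.sy i.M (i.α x) (i.β (h * y) - h • i.β y) := by
      rw [sy_sub₂ (X.fx i.hM h1) h4 ((Y.fx i.hM h2).nsmul h),
        sy_smul₂ (X.fx i.hM h1) (Y.fx i.hM h2)]
      rfl
    rw [e]
    have h5 := dd_mem (S := S) hX hY i.hM hI (Nat.succ_ne_zero J) h1 h3
    have h6 : I + (J + 1) = I + J + 1 := by omega
    rw [h6] at h5
    exact h5
  rel i x y N a b hN hNe hab hx hy hxa hyb :=
    rel i.M i.α i.β x y N a b i.hM i.hα i.hβ hN hNe hab hx hy hxa hyb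
  Ψle N hN hNe := by
    unfold Psi
    rw [AddSubgroup.closure_le]
    rintro g ⟨M, a, b, hM, h | h, rfl⟩
    · exact d1_mem hX hY hM (by omega) h.1 h.2
    · exact d2_mem hX hY hM (by omega) h.1 h.2
  Ψend := by
    unfold Psi
    rw [AddSubgroup.closure_le]
    rintro g ⟨M, a, b, hM, h | h, rfl⟩
    · exact small_mem X.toLv₀ hX hM le_rfl h.1 h.2
    · have h3 := small_mem (S := S.swap) Y.toLv₀ hY hM le_rfl h.2 h.1
      rw [swap_T] at h3
      exact h3
  end₁ i x y hx hy := by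
    have := W.fd i.hM
    rw [← pow_one (W.π i.M)] at hy
    have h1 := X.chD i.hM i.hα (Nat.succ_ne_zero e) hx
    have h2 := Y.fx i.hM (Y.chD i.hM i.hβ one_ne_zero hy)
    exact small_mem X.toLv₀ hX i.hM le_rfl h1 h2
  end₂ i x y hx hy := by
    have := W.fd i.hM
    rw [← pow_one (W.π i.M)] at hx
    have h1 := X.fx i.hM (X.chD i.hM i.hα one_ne_zero hx)
    have h2 := Y.chD i.hM i.hβ (Nat.succ_ne_zero e) hy
    have h3 := small_mem (S := S.swap) Y.toLv₀ hY i.hM le_rfl h2 h1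
    rw [swap_T] at h3
    exact h3

/-- The main theorem of the filtration argument. -/
theorem era_main (X : Lv W l e A) (Y : Lv W l e B) (hX : Null X.toLv₀ S)
    (hY : Null Y.toLv₀ S.swap) (hl : l.Prime) (he0 : e ≠ 0) (he : e + 2 ≤ l)
    (hgen : S.T ≤ AddSubgroup.closure {g | ∃ M a b, W.U M ∧ Fx M a ∧ Fx M b ∧ g = S.sy M a b})
    (rel : ∀ (M : IntermediateField K Ω) (α : W.O M → A) (β : W.O M → B) (x y : W.O M)
      (N a b : ℕ), W.U M → α ∈ X.Ch M → β ∈ Y.Ch M → 2 ≤ N → N ≤ e + 1 → a + b = N →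
      W.π M ∣ x → W.π M ∣ y → W.π M ^ a ∣ x → W.π M ^ b ∣ y →
      ∑ k ∈ range (N + 1), ((-1 : ℤ) ^ (N - k) * N.choose k) •
        S.sy M (α ((k ^ a : ℕ) * x)) (β ((k ^ b : ℕ) * y)) ∈ Psi X Y S N) :
    S.T ≤ mulT l S.T :=
  (era hX hY hl he hgen rel).main he0

end era

end CV
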