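import Pool.Agent.Lib.MP_f80667_ag.Cv.Ex
import Pool.Agent.Lib.MP_f80667_ag.Pe.Zc

/-!
The action of the Galois group on cycles, the exterior product of cycles, the symbols.

* `Hf V`: `V` is a functor. `zact`: the action on the cycles.
* `bx a b`: the exterior product. `rd o a`: the cycle `a - deg a [∞]`.
* `scC`: the symbols: `sy M a b` is the class of the trace of the exterior product of `rd a` and `rd b`.
-/

open ZC BE PE Polynomial TensorProduct IntermediateField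

namespace CV

section hf

variable {F : Type} [Field F]

/-- The variety is a functor. -/
class Hf (V : Vr F) : Prop where
  out : Fct V

instance (C : Crv F) : Hf C.V := ⟨C.fct⟩

instance (V W : Vr F) [Hf V] [Hf W] : Hf (Vpr V W) := ⟨Fct.pr Hf.out Hf.out⟩

instance {ι : Type} (V : ι → Vr F) [∀ i, Hf (V i)] : Hf (Vpi V) := ⟨Fct.pi fun _ => Hf.out⟩

variable {K Ω : Type} [Field K] [Field Ω] [Algebra K Ω] [Algebra F K] [Algebra F Ω]
  [IsScalarTower F K Ω]

/-- The action on the cycles. -/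
noncomputable instance zact (V : Vr F) [Hf V] : DistribMulAction (Ω ≃ₐ[K] Ω) (V.pt Ω →₀ ℤ) where
  smul γ z := Finsupp.mapDomain (V.act γ) z
  one_smul z := by
    change Finsupp.mapDomain (V.act (1 : Ω ≃ₐ[K] Ω)) z = z
    have h : V.act (1 : Ω ≃ₐ[K] Ω) = id := funext fun x => act_one Hf.out x
    rw [h, Finsupp.mapDomain_id]
  mul_smul γ δ z := by
    change Finsupp.mapDomain (V.act (γ * δ)) z = Finsupp.mapDomain (V.act γ)
      (Finsupp.mapDomain (V.act δ) z)
    have h : V.act (γ * δ) = V.act γ ∘ V.act δ := funext fun x => act_mul Hf.out γ δ x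
    rw [h, Finsupp.mapDomain_comp]
  smul_zero γ := Finsupp.mapDomain_zero
  smul_add γ a b := Finsupp.mapDomain_add

variable {V W : Vr F} [Hf V] [Hf W]

theorem smul_def (γ : Ω ≃ₐ[K] Ω) (z : V.pt Ω →₀ ℤ) : γ • z = Finsupp.mapDomain (V.act γ) z := rfl

theorem smul_single (γ : Ω ≃ₐ[K] Ω) (x : V.pt Ω) (n : ℤ) :
    γ • (Finsupp.single x n : V.pt Ω →₀ ℤ) = Finsupp.single (V.act γ x) n :=
  Finsupp.mapDomain_single

theorem deg_smul (γ : Ω ≃ₐ[K] Ω) (z : V.pt Ω →₀ ℤ) : V.deg Ω (γ • z) = V.deg Ω z := Mo.deg _ z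

theorem fx_single {M : IntermediateField K Ω} {x : V.pt Ω} (h : Fp V M x) (n : ℤ) :
    Fx M (Finsupp.single x n : V.pt Ω →₀ ℤ) := fun γ hγ => by rw [smul_single, h γ hγ]

theorem fp_of_fx {M : IntermediateField K Ω} {x : V.pt Ω}
    (h : Fx M (Finsupp.single x 1 : V.pt Ω →₀ ℤ)) : Fp V M x := fun γ hγ => by
  have h1 := h γ hγ
  rw [smul_single] at h1
  exact Finsupp.single_left_injective one_ne_zero h1

theorem mem_Zd {M : IntermediateField K Ω} {z : V.pt Ω →₀ ℤ} :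
    z ∈ Zd V M ↔ Fx M z ∧ V.deg Ω z = 0 := Iff.rfl

end hf

section bil

variable {F : Type} [Field F] {V W : Vr F} {Ω : Type} [Field Ω] [Algebra F Ω]

/-- The point of the product. -/
def pp (x : V.pt Ω) (y : W.pt Ω) : (Vpr V W).pt Ω := (x, y)

/-- The exterior product. -/
noncomputable def bx : (V.pt Ω →₀ ℤ) →+ (W.pt Ω →₀ ℤ) →+ ((Vpr V W).pt Ω →₀ ℤ) :=
  Finsupp.liftAddHom fun x => zmultiplesHom _
    (Finsupp.mapDomain.addMonoidHom fun y : W.pt Ω => pp x y)

theorem bx_single (x : V.pt Ω) (m : ℤ) (b : W.pt Ω →₀ ℤ) :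
    bx (Finsupp.single x m) b =
      m • Finsupp.mapDomain (fun y : W.pt Ω => pp x y) b := by
  unfold bx
  rw [Finsupp.liftAddHom_apply_single]
  rfl

theorem bx_ss (x : V.pt Ω) (y : W.pt Ω) (m n : ℤ) :
    bx (Finsupp.single x m) (Finsupp.single y n) = Finsupp.single (pp x y) (m * n) := by
  rw [bx_single, Finsupp.mapDomain_single, Finsupp.smul_single, smul_eq_mul]

/-- The cycle `a - deg a [∞]`. -/
noncomputable def rd (o : Bp V) : (V.pt Ω →₀ ℤ) →+ (V.pt Ω →₀ ℤ) where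
  toFun a := a - Finsupp.single (o.o Ω) (V.deg Ω a)
  map_zero' := by rw [map_zero, Finsupp.single_zero, sub_zero]
  map_add' a b := by
    rw [map_add, Finsupp.single_add]
    abel

theorem rd_apply (o : Bp V) (a : V.pt Ω →₀ ℤ) :
    rd o a = a - Finsupp.single (o.o Ω) (V.deg Ω a) := rfl

theorem rd_deg (o : Bp V) (a : V.pt Ω →₀ ℤ) : V.deg Ω (rd o a) = 0 := by
  rw [rd_apply, map_sub]
  simp [Vr.deg]

theorem rd_of {o : Bp V} {a : V.pt Ω →₀ ℤ} (h : V.deg Ω a = 0) : rd o a = a := by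
  rw [rd_apply, h, Finsupp.single_zero, sub_zero]

theorem rd_o (o : Bp V) (n : ℤ) : rd o (Finsupp.single (o.o Ω) n) = 0 := by
  rw [rd_apply]
  simp [Vr.deg]

end bil

section eqv

variable {F : Type} [Field F] {V W : Vr F} [Hf V] [Hf W] {K Ω : Type} [Field K] [Field Ω]
  [Algebra K Ω] [Algebra F K] [Algebra F Ω] [IsScalarTower F K Ω]

theorem bx_smul (γ : Ω ≃ₐ[K] Ω) (a : V.pt Ω →₀ ℤ) (b : W.pt Ω →₀ ℤ) :
    γ • bx a b = bx (γ • a) (γ • b) := by
  induction a using Finsupp.induction_linear with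
  | zero => simp only [smul_zero, map_zero, AddMonoidHom.zero_apply]
  | add f g hf hg => rw [map_add, AddMonoidHom.add_apply, smul_add, hf, hg, smul_add, map_add,
      AddMonoidHom.add_apply]
  | single x m =>
    induction b using Finsupp.induction_linear with
    | zero => simp only [smul_zero, map_zero]
    | add f g hf hg => rw [map_add, smul_add, hf, hg, smul_add, map_add]
    | single y n =>
      rw [bx_ss, smul_single, smul_single, smul_single, bx_ss]
      rfl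

theorem rd_smul (o : Bp V) (γ : Ω ≃ₐ[K] Ω) (a : V.pt Ω →₀ ℤ) : γ • rd o a = rd o (γ • a) := by
  rw [rd_apply, rd_apply, smul_sub, smul_single, deg_smul]
  congr 2
  exact o.nat Ω Ω _

theorem rd_fx (o : Bp V) {M : IntermediateField K Ω} {a : V.pt Ω →₀ ℤ} (h : Fx M a) :
    Fx M (rd o a) := fun γ hγ => by rw [rd_smul, h γ hγ]

theorem bx_fx {M : IntermediateField K Ω} {a : V.pt Ω →₀ ℤ} {b : W.pt Ω →₀ ℤ} (ha : Fx M a)
    (hb : Fx M b) : Fx M (bx a b) := fun γ hγ => by rw [bx_smul, ha γ hγ, hb γ hγ]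

omit [Algebra F K] [Algebra F Ω] [IsScalarTower F K Ω] in
theorem fin_le {M N : IntermediateField K Ω} (h : M ≤ N) [FiniteDimensional K N] :
    FiniteDimensional K M :=
  FiniteDimensional.of_injective (IntermediateField.inclusion h).toLinearMap
    (IntermediateField.inclusion_injective h)

variable [CharZero K] [IsAlgClosure K Ω]

/-- Norms and equivariant homomorphisms. -/
theorem hom_nm {A B : Type} [AddCommGroup A] [AddCommGroup B] [DistribMulAction (Ω ≃ₐ[K] Ω) A]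
    [DistribMulAction (Ω ≃ₐ[K] Ω) B] (φ : A →+ B) {M N : IntermediateField K Ω} (h : M ≤ N)
    [FiniteDimensional K N] (hφ : ∀ γ ∈ M.fixingSubgroup, ∀ a, φ (γ • a) = γ • φ a) (a : A) :
    φ (Nm M N a) = Nm M N (φ a) := by
  obtain ⟨s, -, h1, -, h3⟩ := nm_rep h
  rw [h3, h3, map_sum]
  exact Finset.sum_congr rfl fun γ hγ => hφ γ (h1 γ hγ) a

/-- The symbols. -/
noncomputable def scC (o₁ : Bp V) (o₂ : Bp W) : Sc K Ω (V.pt Ω →₀ ℤ) (W.pt Ω →₀ ℤ)
    (((Vpr V W).pt Ω →₀ ℤ) ⧸ (Vpr V W).ratEq K Ω) where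
  sy M a b := QuotientAddGroup.mk (Nm (K := K) ⊥ M (bx (rd o₁ a) (rd o₂ b)))
  add₁ M _ P P' Q h h' hQ := by
    rw [map_add, map_add, AddMonoidHom.add_apply, nm_add bot_le]
    rfl
  add₂ M _ P Q Q' h h' hQ := by
    rw [map_add, map_add, nm_add bot_le]
    rfl
  nm₁ M N _ P Q h hP hQ := by
    have hM : FiniteDimensional K M := fin_le h
    congr 1
    rw [nm_tr bot_le h (bx_fx (rd_fx o₁ hP) (rd_fx o₂ (hQ.mono h)))]
    congr 1
    refine (hom_nm ((bx.flip (rd o₂ Q)).comp (rd o₁)) h (fun γ hγ a => ?_) P).symm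
    change bx (rd o₁ (γ • a)) (rd o₂ Q) = γ • bx (rd o₁ a) (rd o₂ Q)
    rw [bx_smul, rd_smul, rd_smul, hQ γ hγ]
  nm₂ M N _ P Q h hP hQ := by
    have hM : FiniteDimensional K M := fin_le h
    congr 1
    rw [nm_tr bot_le h (bx_fx (rd_fx o₁ (hP.mono h)) (rd_fx o₂ hQ))]
    congr 1
    refine (hom_nm ((bx (rd o₁ P)).comp (rd o₂)) h (fun γ hγ a => ?_) Q).symm
    change bx (rd o₁ P) (rd o₂ (γ • a)) = γ • bx (rd o₁ P) (rd o₂ a)
    rw [bx_smul, rd_smul, rd_smul, hP γ hγ]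

theorem scC_sy (o₁ : Bp V) (o₂ : Bp W) (M : IntermediateField K Ω) (a : V.pt Ω →₀ ℤ)
    (b : W.pt Ω →₀ ℤ) : (scC (K := K) o₁ o₂).sy M a b =
      QuotientAddGroup.mk (Nm (K := K) ⊥ M (bx (rd o₁ a) (rd o₂ b))) := rfl

end eqv

end CV
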