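import Pool.Agent.Lib.MP_f80667_ag.Cv.EtN
import Pool.Agent.Lib.MP_f80667_ag.Cv.Hc

/-! # The comparison of polynomials (CLX) for two curves -/

set_option autoImplicit false

open ZC BE PE Polynomial TensorProduct IntermediateField

namespace CV

variable {F : Type} [Field F] {K Ω : Type} [Field K] [CharZero K] [Field Ω] [Algebra K Ω]
  [Algebra F K] [Algebra F Ω] [IsScalarTower F K Ω] [IsAlgClosure K Ω] {L : Ld K Ω}

/-- **CLX** for two curves. -/
def ExC2 {C₁ C₂ : Crv F} (m₁ : Mod C₁ (Ok L) K) (m₂ : Mod C₂ (Ok L) K) : Prop :=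
  ∀ (M : IntermediateField K Ω), FiniteDimensional K M → ∀ (T₁ : Cht m₁ M) (T₂ : Cht m₂ M)
  (r₁ r₂ : Polynomial Ω), Ipo L M r₁ → Ipo L M r₂ →
  ∀ (f g : Polynomial Ω) (ρ : ℝ), Dpo L M f → Dpo L M g → f.natDegree = g.natDegree → ρ < 1 →
  (∀ i, L.nm (f.coeff i - g.coeff i) ≤ ρ) →
    (rcy (V := Vpr C₁.V C₂.V) (fun w => pp (T₁.P (r₁.eval w)) (T₂.P (r₂.eval w))) f -
      rcy (V := Vpr C₁.V C₂.V) (fun w => pp (T₁.P (r₁.eval w)) (T₂.P (r₂.eval w))) g) ∈
        (Vpr C₁.V C₂.V).ratEq M Ω ⊔ Dsp L (Vpr C₁.V C₂.V) (Nr₂ m₁ m₂ ρ) M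

/-- The projection to two factors. -/
private def pr2 {ι : Type} (C : ι → Crv F) (i j : ι) :
    Mo (Vpi fun k => (C k).V) (Vpr (C i).V (C j).V) where
  f _ _ _ x := (x i, x j)
  nat _ _ _ _ _ _ _ _ := rfl
  red _ _ _ _ _ _ _ _ _ _ _ _ _ h := ⟨h i, h j⟩

omit [Field K] [CharZero K] [Algebra K Ω] [Algebra F K] [IsScalarTower F K Ω]
  [IsAlgClosure K Ω] in
private theorem rcy_map {V W : Vr F} (g : V.pt Ω → W.pt Ω) (P : Ω → V.pt Ω) (f : Polynomial Ω) :
    Finsupp.mapDomain.addMonoidHom (M := ℤ) g (rcy P f) = rcy (V := W) (fun w => g (P w)) f := by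
  unfold rcy
  rw [map_multiset_sum, Multiset.map_map]
  refine congrArg Multiset.sum (Multiset.map_congr rfl fun w _ => ?_)
  exact Finsupp.mapDomain_single

private theorem dsp_map {V W : Vr F} [Hf V] [Hf W] (φ : Mo V W) {nr : V.pt Ω → V.pt Ω → Prop}
    {nr' : W.pt Ω → W.pt Ω → Prop} (h : ∀ x y, nr x y → nr' (φ.f Ω x) (φ.f Ω y))
    {M : IntermediateField K Ω} [FiniteDimensional K M] {z : V.pt Ω →₀ ℤ}
    (hz : z ∈ Dsp L V nr M) :
    Finsupp.mapDomain.addMonoidHom (M := ℤ) (φ.f Ω) z ∈ Dsp L W nr' M := by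
  have hfp : ∀ (M' : IntermediateField K Ω) (y : V.pt Ω), Fp V M' y → Fp W M' (φ.f Ω y) :=
    fun M' y hy γ hγ => by rw [φ.act γ y, hy γ hγ]
  rw [dsp_gen] at hz
  induction hz using AddSubgroup.closure_induction with
  | mem z hz =>
    obtain ⟨M', y, y', he, h4, h5, h6, rfl⟩ := hz
    have := he.fd
    rw [hom_nm (Finsupp.mapDomain.addMonoidHom (M := ℤ) (φ.f Ω)) he.1 (fun γ _ a => ?_), map_sub,
      dsp_gen]
    · refine AddSubgroup.subset_closure ⟨M', φ.f Ω y, φ.f Ω y', he, hfp _ _ h4, hfp _ _ h5,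
        h _ _ h6, ?_⟩
      rw [Finsupp.mapDomain.addMonoidHom_apply, Finsupp.mapDomain.addMonoidHom_apply,
        Finsupp.mapDomain_single, Finsupp.mapDomain_single]
    · rw [smul_def, smul_def, Finsupp.mapDomain.addMonoidHom_apply,
        Finsupp.mapDomain.addMonoidHom_apply, ← Finsupp.mapDomain_comp, ← Finsupp.mapDomain_comp]
      exact congrArg (fun g => Finsupp.mapDomain g a) (funext fun x => (φ.act γ x).symm)
  | zero => rw [map_zero]; exact zero_mem _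
  | add a b _ _ ha hb => rw [map_add]; exact add_mem ha hb
  | neg a _ ha => rw [map_neg]; exact neg_mem ha

/-- Proof: charts `T k` for all `k` from `T₁`, `T₂` by `hij`, `hne` (classically); the projection
`x ↦ (x i, x j)` from `Vpi` to `Vpr` is a morphism (`Mo.ratEq`, over `M`), it commutes with the Galois action, so with
`Nm` (`hom_nm`, `dsp_gen`), and maps `rcy` to `rcy`. -/
theorem cx2 {ι : Type} {C : ι → Crv F} (m : ∀ i, Mod (C i) (Ok L) K) (i j : ι)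
    (hij : ∀ k, k = i ∨ k = j) (hne : i ≠ j) (hcx : ExCx m) : ExC2 (m i) (m j) := by
  classical
  intro M hM T₁ T₂ r₁ r₂ hr₁ hr₂ f g ρ hf hg hd hρ hc
  obtain ⟨T, hTi, hTj⟩ : ∃ T : ∀ k, Cht (m k) M, T i = T₁ ∧ T j = T₂ := by
    refine ⟨fun k => if h : k = i then h ▸ T₁ else ((hij k).resolve_left h) ▸ T₂, ?_, ?_⟩
    · exact dif_pos rfl
    · exact dif_neg hne.symm
  obtain ⟨r, hri, hrj⟩ : ∃ r : ι → Polynomial Ω, r i = r₁ ∧ r j = r₂ :=
    ⟨fun k => if k = i then r₁ else r₂, if_pos rfl, if_neg hne.symm⟩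
  have hr : ∀ k, Ipo L M (r k) := by
    intro k
    rcases hij k with rfl | rfl
    · rw [hri]; exact hr₁
    · rw [hrj]; exact hr₂
  have h1 := hcx M hM T r hr f g ρ hf hg hd hρ hc
  obtain ⟨a, ha, b, hb, hab⟩ := AddSubgroup.mem_sup.1 h1
  have h2 := congrArg (Finsupp.mapDomain.addMonoidHom (M := ℤ) ((pr2 C i j).f Ω)) hab
  rw [map_add, map_sub, rcy_map, rcy_map] at h2
  have h3 : (fun w => (pr2 C i j).f Ω (fun k => (T k).P ((r k).eval w))) =
      fun w => pp (V := (C i).V) (W := (C j).V) (T₁.P (r₁.eval w)) (T₂.P (r₂.eval w)) := by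
    funext w
    rw [← hTi, ← hTj, ← hri, ← hrj]
    rfl
  rw [h3] at h2
  rw [← h2]
  exact AddSubgroup.mem_sup.2 ⟨_, (pr2 C i j).ratEq M Ω ha, _,
    dsp_map (pr2 C i j) (fun x y h => ⟨h i, h j⟩) hb, rfl⟩

end CV
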