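import Pool.Agent.Lib.MP_f80667_ag.Pe.Ld

/-! # Products of linear factors over a field with an absolute value -/

set_option autoImplicit false

open ZC BE PE Polynomial IntermediateField

namespace CV

section poly

variable {K Ω : Type} [Field K] [CharZero K] [Field Ω] [Algebra K Ω] [IsAlgClosure K Ω]
  {L : Ld K Ω}

omit [CharZero K] [IsAlgClosure K Ω] in
private theorem etP_sub (x y : Ω) : L.nm (x - y) ≤ max (L.nm x) (L.nm y) := by
  have h := L.add x (-y)
  rwa [L.neg, ← sub_eq_add_neg] at h

omit [CharZero K] [IsAlgClosure K Ω] in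
/-- Multiplication by a linear factor. -/
private theorem etP_mul {r : ℝ} (hr : 0 ≤ r) {a : Ω} (ha : L.nm a ≤ 1) {f : Polynomial Ω}
    (hf : ∀ i, L.nm (f.coeff i) ≤ r) (i : ℕ) : L.nm (((X - C a) * f).coeff i) ≤ r := by
  have h2 : L.nm (a * f.coeff i) ≤ r := by
    rw [L.mul]
    calc L.nm a * L.nm (f.coeff i) ≤ 1 * r :=
        mul_le_mul ha (hf i) (L.nonneg _) zero_le_one
      _ = r := one_mul r
  rw [sub_mul, coeff_sub, coeff_C_mul]
  refine (etP_sub _ _).trans (max_le ?_ h2)
  rcases i with _ | i
  · rw [coeff_X_mul_zero, L.zero]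
    exact hr
  · rw [coeff_X_mul]
    exact hf i

omit [CharZero K] [IsAlgClosure K Ω] in
private theorem etP_le (s : Multiset Ω) (h : ∀ c ∈ s, L.nm c ≤ 1) (i : ℕ) :
    L.nm ((s.map fun c => X - C c).prod.coeff i) ≤ 1 := by
  induction s using Multiset.induction_on generalizing i with
  | empty =>
    rw [Multiset.map_zero, Multiset.prod_zero, coeff_one]
    split_ifs
    · exact L.one.le
    · rw [L.zero]
      exact zero_le_one
  | cons a s ih =>
    rw [Multiset.map_cons, Multiset.prod_cons]
    exact etP_mul zero_le_one (h a (Multiset.mem_cons_self a s))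
      (ih fun c hc => h c (Multiset.mem_cons_of_mem hc)) i

omit [CharZero K] [IsAlgClosure K Ω] in
private theorem etP_sum (s : Multiset Ω) {ρ : ℝ} (h0 : 0 ≤ ρ) (h : ∀ c ∈ s, L.nm c ≤ ρ) :
    L.nm s.sum ≤ ρ := by
  induction s using Multiset.induction_on with
  | empty =>
    rw [Multiset.sum_zero, L.zero]
    exact h0
  | cons a s ih =>
    rw [Multiset.sum_cons]
    exact (L.add _ _).trans (max_le (h a (Multiset.mem_cons_self a s))
      (ih fun c hc => h c (Multiset.mem_cons_of_mem hc)))

/-- Proof: induction on the multiset. -/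
theorem lin_lt (s : Multiset Ω) (h : ∀ c ∈ s, L.nm c < 1) (i : ℕ) (hi : i < s.card) :
    L.nm ((s.map fun c => X - C c).prod.coeff i) < 1 := by
  induction s using Multiset.induction_on generalizing i with
  | empty => exact absurd hi (Nat.not_lt_zero i)
  | cons a s ih =>
    rw [Multiset.card_cons] at hi
    have hs : ∀ c ∈ s, L.nm c < 1 := fun c hc => h c (Multiset.mem_cons_of_mem hc)
    rw [Multiset.map_cons, Multiset.prod_cons, sub_mul, coeff_sub, coeff_C_mul]
    refine (etP_sub _ _).trans_lt (max_lt ?_ ?_)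
    · rcases i with _ | i
      · rw [coeff_X_mul_zero, L.zero]
        exact zero_lt_one
      · rw [coeff_X_mul]
        exact ih hs i (by omega)
    · rw [L.mul]
      exact mul_lt_one_of_nonneg_of_lt_one_left (L.nonneg _)
        (h a (Multiset.mem_cons_self a s)) (etP_le s (fun c hc => (hs c hc).le) i)

/-- Proof: both sides are congruent to `X ^ n - (sum) X ^ (n - 1)`: the coefficients of
`∏ (X - c)` below `n - 1` are sums of products of at least two of the `c`. Induction on the multiset: with
`g (s) = X ^ (card s - 1) (X - sum s)` prove `g (a ::ₘ s) - (X - a) g (s) = a (sum s) X ^ (card s - 1)` up to sign. -/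
theorem pr_cong2 (s : Multiset Ω) (hs : s ≠ 0) {ρ : ℝ} (h0 : 0 ≤ ρ) (h1 : ρ ≤ 1)
    (h : ∀ c ∈ s, L.nm c ≤ ρ) (i : ℕ) :
    L.nm (((s.map fun c => X - C c).prod - X ^ (s.card - 1) * (X - C s.sum)).coeff i) ≤ ρ ^ 2 := by
  induction s using Multiset.induction_on generalizing i with
  | empty => exact absurd rfl hs
  | cons a t ih =>
    rcases eq_or_ne t 0 with rfl | ht
    · have e : ((a ::ₘ (0 : Multiset Ω)).map fun c => (X : Polynomial Ω) - C c).prod -
          X ^ ((a ::ₘ (0 : Multiset Ω)).card - 1) * (X - C (a ::ₘ (0 : Multiset Ω)).sum) = 0 := by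
        simp
      rw [e, coeff_zero, L.zero]
      exact sq_nonneg ρ
    · have hta : ∀ c ∈ t, L.nm c ≤ ρ := fun c hc => h c (Multiset.mem_cons_of_mem hc)
      have ha : L.nm a ≤ ρ := h a (Multiset.mem_cons_self a t)
      obtain ⟨m, hm⟩ : ∃ m, t.card = m + 1 :=
        Nat.exists_eq_succ_of_ne_zero fun h => ht (Multiset.card_eq_zero.1 h)
      have e : ((a ::ₘ t).map fun c => (X : Polynomial Ω) - C c).prod -
          X ^ ((a ::ₘ t).card - 1) * (X - C (a ::ₘ t).sum) =
          (X - C a) * ((t.map fun c => (X : Polynomial Ω) - C c).prod -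
            X ^ (t.card - 1) * (X - C t.sum)) + C (a * t.sum) * X ^ m := by
        rw [Multiset.map_cons, Multiset.prod_cons, Multiset.card_cons, Multiset.sum_cons, hm,
          C_add, C_mul, Nat.add_sub_cancel, Nat.add_sub_cancel]
        ring
      rw [e, coeff_add]
      refine (L.add _ _).trans (max_le ?_ ?_)
      · exact etP_mul (sq_nonneg ρ) (ha.trans h1) (fun j => ih ht hta j) i
      · rw [coeff_C_mul, coeff_X_pow]
        split_ifs
        · rw [mul_one, L.mul, sq]
          exact mul_le_mul ha (etP_sum t h0 hta) (L.nonneg _) h0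
        · rw [mul_zero, L.zero]
          exact sq_nonneg ρ

end poly

end CV
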