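import Pool.Agent.Lib.MP_f80667_ag.Cv.HdA

/-! Cycles of the roots of polynomials. -/

open ZC BE PE Polynomial IntermediateField

namespace CV

variable {F : Type} [Field F] {V : Vr F} [Hf V] {K Ω : Type} [Field K] [Field Ω] [Algebra K Ω]
  [Algebra F K] [Algebra F Ω] [IsScalarTower F K Ω] [CharZero K] [IsAlgClosure K Ω]

/-- The norm of the point `P z` is the cycle of the conjugates. Proof: `nm_rep`: the conjugates `γ z`, `γ ∈ s`, are
distinct and they are all roots of `f`; `f.roots` has no duplicates. -/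
theorem nm_rcy {M₀ M : IntermediateField K Ω} [FiniteDimensional K M] (h : M₀ ≤ M) {z : Ω}
    {f : Polynomial Ω} (hs : f.Separable)
    (hf : ∀ w, w ∈ f.roots ↔ ∃ γ ∈ M₀.fixingSubgroup, w = γ z)
    (hz : ∀ γ ∈ M₀.fixingSubgroup, γ z = z ↔ γ ∈ M.fixingSubgroup) (P : Ω → V.pt Ω)
    (hP : ∀ γ ∈ M₀.fixingSubgroup, V.act γ (P z) = P (γ z)) :
    Nm M₀ M (Finsupp.single (P z) 1) = rcy P f := by
  classical
  obtain ⟨s, -, h1, h2, h3⟩ := nm_rep (K := K) (Ω := Ω) h
  have hinj : Set.InjOn (fun γ : Ω ≃ₐ[K] Ω => γ z) s := by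
    intro γ hγ δ hδ he
    have hγ' := h1 γ hγ
    have hδ' := h1 δ hδ
    dsimp only at he
    have h4 : γ⁻¹ * δ ∈ M.fixingSubgroup := by
      refine (hz _ (M₀.fixingSubgroup.mul_mem (M₀.fixingSubgroup.inv_mem hγ') hδ')).1 ?_
      rw [AlgEquiv.mul_apply, ← he, ← AlgEquiv.mul_apply, inv_mul_cancel, AlgEquiv.one_apply]
    have h5 : δ⁻¹ * δ ∈ M.fixingSubgroup := by
      rw [inv_mul_cancel]
      exact M.fixingSubgroup.one_mem
    exact (h2 δ hδ').unique ⟨hγ, h4⟩ ⟨hδ, h5⟩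
  have hroots : (⟨f.roots, nodup_roots hs⟩ : Finset Ω) = s.image (fun γ => γ z) := by
    ext w
    rw [Finset.mem_mk, hf, Finset.mem_image]
    constructor
    · rintro ⟨γ, hγ, rfl⟩
      obtain ⟨δ, ⟨hδ, hδγ⟩, -⟩ := h2 γ hγ
      refine ⟨δ, hδ, ?_⟩
      have h6 := (hz _ (M₀.fixingSubgroup.mul_mem (M₀.fixingSubgroup.inv_mem (h1 δ hδ)) hγ)).2 hδγ
      rw [AlgEquiv.mul_apply] at h6
      have h7 := congrArg δ h6
      rw [← AlgEquiv.mul_apply, mul_inv_cancel, AlgEquiv.one_apply] at h7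
      exact h7.symm
    · rintro ⟨γ, hγ, rfl⟩
      exact ⟨γ, h1 γ hγ, rfl⟩
  have hr : rcy P f = ∑ w ∈ (⟨f.roots, nodup_roots hs⟩ : Finset Ω), Finsupp.single (P w) (1 : ℤ) :=
    rfl
  rw [hr, hroots, Finset.sum_image hinj, h3]
  refine Finset.sum_congr rfl fun γ hγ => ?_
  rw [smul_single, hP γ (h1 γ hγ)]

theorem rcy_X_pow {V : Vr F} (P : Ω → V.pt Ω) (n : ℕ) :
    rcy P (X ^ n : Polynomial Ω) = Finsupp.single (P 0) (n : ℤ) := by
  rw [rcy, roots_X_pow, Multiset.map_nsmul, Multiset.map_singleton, Multiset.sum_nsmul,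
    Multiset.sum_singleton, Finsupp.smul_single, nsmul_eq_mul, mul_one]

theorem rcy_mul {V : Vr F} (P : Ω → V.pt Ω) {f g : Polynomial Ω} (hf : f ≠ 0) (hg : g ≠ 0) :
    rcy P (f * g) = rcy P f + rcy P g := by
  rw [rcy, roots_mul (mul_ne_zero hf hg), Multiset.map_add, Multiset.sum_add]
  rfl

theorem rcy_X_sub {V : Vr F} (P : Ω → V.pt Ω) (c : Ω) :
    rcy P (X - C c : Polynomial Ω) = Finsupp.single (P c) 1 := by
  rw [rcy, roots_X_sub_C, Multiset.map_singleton, Multiset.sum_singleton]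

omit [CharZero K] [IsAlgClosure K Ω] in
private theorem rcy_sum_lt (L : Ld K Ω) (s : Finset ℕ) (f : ℕ → Ω)
    (h : ∀ i ∈ s, L.nm (f i) < 1) : L.nm (∑ i ∈ s, f i) < 1 := by
  classical
  induction s using Finset.induction_on with
  | empty =>
    rw [Finset.sum_empty, (L.zero_iff 0).2 rfl]
    exact zero_lt_one
  | insert a s ha ih =>
    rw [Finset.sum_insert ha]
    exact (L.add _ _).trans_lt (max_lt (h a (Finset.mem_insert_self _ _))
      (ih fun i hi => h i (Finset.mem_insert_of_mem hi)))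

private theorem rcy_root_lt {L : Ld K Ω} {M : IntermediateField K Ω} {f : Polynomial Ω}
    (hf : Dpo L M f) {w : Ω} (hw : w ∈ f.roots) : L.nm w < 1 := by
  have hev : f.eval w = 0 := (mem_roots'.1 hw).2
  have hle : ∀ i, L.nm (f.coeff i) ≤ 1 := by
    intro i
    rcases lt_trichotomy i f.natDegree with h | h | h
    · exact (hf.lt i h).le
    · rw [h, coeff_natDegree, hf.monic.leadingCoeff, L.one]
    · rw [coeff_eq_zero_of_natDegree_lt h, (L.zero_iff 0).2 rfl]
      exact zero_le_one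
  have hw1 : L.nm w ≤ 1 := L.root_le hf.monic hle hev
  by_contra hlt
  rw [not_lt] at hlt
  have h1 := congrArg (fun p => p.eval w) hf.monic.as_sum
  simp only [eval_add, eval_pow, eval_X, eval_finsetSum, eval_mul, eval_C] at h1
  rw [hev] at h1
  have h2 : w ^ f.natDegree = -∑ i ∈ Finset.range f.natDegree, f.coeff i * w ^ i :=
    eq_neg_of_add_eq_zero_left h1.symm
  have h3 : L.nm (w ^ f.natDegree) < 1 := by
    rw [h2, L.neg]
    refine rcy_sum_lt L _ _ fun i hi => ?_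
    rw [L.mul, L.pow]
    exact mul_lt_one_of_nonneg_of_lt_one_left (L.nonneg _) (hf.lt i (Finset.mem_range.1 hi))
      (pow_le_one₀ (L.nonneg _) hw1)
  rw [L.pow] at h3
  exact absurd (one_le_pow₀ hlt) (not_le.2 h3)

/-- Proof: `γ` permutes the roots of `f`. -/
theorem rcy_fx {L : Ld K Ω} {M : IntermediateField K Ω} {f : Polynomial Ω} (hf : Dpo L M f)
    (P : Ω → V.pt Ω) (hP : ∀ γ ∈ M.fixingSubgroup, ∀ w, L.nm w < 1 → V.act γ (P w) = P (γ w)) :
    Fx M (rcy P f) := by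
  intro γ hγ
  have hcl : IsAlgClosed Ω := IsAlgClosure.isAlgClosed K
  have hmap : f.map (γ : Ω →+* Ω) = f := by
    ext i
    rw [coeff_map]
    exact (IntermediateField.mem_fixingSubgroup_iff M γ).1 hγ _ (hf.mem i)
  have hroots : f.roots.map (γ : Ω →+* Ω) = f.roots := by
    have h1 := (IsAlgClosed.splits f).roots_map_of_injective (i := (γ : Ω →+* Ω)) γ.injective
    rw [hmap] at h1
    exact h1.symm
  have h2 : γ • rcy P f = (f.roots.map fun w => γ • (Finsupp.single (P w) (1 : ℤ))).sum := by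
    rw [rcy, Multiset.smul_sum, Multiset.map_map]
    rfl
  have h3 : (f.roots.map fun w => γ • (Finsupp.single (P w) (1 : ℤ) : V.pt Ω →₀ ℤ)) =
      f.roots.map fun w => Finsupp.single (P (γ w)) (1 : ℤ) := by
    refine Multiset.map_congr rfl fun w hw => ?_
    rw [smul_single, hP γ hγ w (rcy_root_lt hf hw)]
  have h4 : (f.roots.map fun w => Finsupp.single (P (γ w)) (1 : ℤ)) =
      (f.roots.map (γ : Ω →+* Ω)).map fun w => (Finsupp.single (P w) (1 : ℤ) : V.pt Ω →₀ ℤ) := by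
    rw [Multiset.map_map]
    rfl
  rw [h2, h3, h4, hroots]
  rfl

/-- The roots of `f` are in the open unit disc. Proof: `L.root_lt` or directly. -/
theorem Dpo.root_lt {L : Ld K Ω} {M : IntermediateField K Ω} {f : Polynomial Ω} (hf : Dpo L M f)
    {w : Ω} (hw : w ∈ f.roots) : L.nm w < 1 := by
  exact rcy_root_lt hf hw

end CV
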