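import Pool.Agent.Lib.MP_f80667_ag.Cv.EtN
import Pool.Agent.Lib.MP_f80667_ag.Cv.EtP
import Pool.Agent.Lib.MP_f80667_ag.Cv.Rcy

/-! # Additivity up to the next level (from CLC) -/

set_option autoImplicit false

open ZC BE PE Polynomial TensorProduct IntermediateField

namespace CV

variable {F : Type} [Field F] {K Ω : Type} [Field K] [CharZero K] [Field Ω] [Algebra K Ω]
  [Algebra F K] [Algebra F Ω] [IsScalarTower F K Ω] [IsAlgClosure K Ω] {L : Ld K Ω}
  {C : Crv F} {m : Mod C (Ok L) K}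

/-- The displacement `[P w] - [P 0]` of a chart. -/
noncomputable def dsc {M : IntermediateField K Ω} (T : Cht m M) (w : Ω) : C.V.pt Ω →₀ ℤ :=
  Finsupp.single (T.P w) 1 - Finsupp.single (T.P 0) 1

private theorem cl_mul_rcy {V : Vr F} (P : Ω → V.pt Ω) (w : Ω) (n : ℕ) :
    rcy P ((X - Polynomial.C w) ^ n : Polynomial Ω) = n • Finsupp.single (P w) (1 : ℤ) := by
  rw [rcy, roots_pow, roots_X_sub_C, Multiset.map_nsmul, Multiset.map_singleton,
    Multiset.sum_nsmul, Multiset.sum_singleton]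

/-- Multiples. Proof: `h = 0`: both are `0`. `h > 0`: `hcl` for `f = (X - w) ^ h`, `g = X ^ (h - 1) (X - h w)`
(`pr_cong2` for the multiset with `h` elements `w`), `rcy_mul`, `rcy_X_pow`, `rcy_X_sub`; `Dpo`: the coefficients are in
`M`, the roots have norm `≤ ρ`. -/
theorem cl_mul (hcl : ExCl m) {M : IntermediateField K Ω} [FiniteDimensional K M] (T : Cht m M)
    (h : ℕ) {w : Ω} (hw : w ∈ M) {ρ : ℝ} (h0 : 0 ≤ ρ) (h1 : ρ < 1) (hρ : L.nm w ≤ ρ) :
    dsc T (h * w) - h • dsc T w ∈ Pc C Ω ⊔ Dsp L C.V (Nr m (ρ ^ 2)) M := by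
  rcases h with _ | n
  · have e : dsc T (((0 : ℕ) : Ω) * w) - (0 : ℕ) • dsc T w = 0 := by
      rw [Nat.cast_zero, zero_mul, zero_nsmul, sub_zero, dsc, sub_self]
    rw [e]
    exact zero_mem _
  · have hf : ((Multiset.replicate (n + 1) w).map fun c => X - Polynomial.C c).prod =
        (X - Polynomial.C w) ^ (n + 1) := by
      rw [Multiset.map_replicate, Multiset.prod_replicate]
    have hsum : (Multiset.replicate (n + 1) w).sum = ((n + 1 : ℕ) : Ω) * w := by
      rw [Multiset.sum_replicate, nsmul_eq_mul]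
    have hmem : ∀ c ∈ Multiset.replicate (n + 1) w, L.nm c ≤ ρ := fun c hc => by
      rw [Multiset.eq_of_mem_replicate hc]
      exact hρ
    have hcong : ∀ i, L.nm (((X - Polynomial.C w) ^ (n + 1) : Polynomial Ω).coeff i -
        (X ^ n * (X - Polynomial.C (((n + 1 : ℕ) : Ω) * w)) : Polynomial Ω).coeff i) ≤ ρ ^ 2 := by
      intro i
      have := pr_cong2 (L := L) (Multiset.replicate (n + 1) w)
        (Multiset.card_pos.1 (by rw [Multiset.card_replicate]; omega)) h0 h1.le hmem i
      rw [hf, hsum, Multiset.card_replicate, Nat.add_sub_cancel, coeff_sub] at this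
      exact this
    have hcong' : ∀ i, L.nm ((X ^ n * (X - Polynomial.C (((n + 1 : ℕ) : Ω) * w)) :
        Polynomial Ω).coeff i - ((X - Polynomial.C w) ^ (n + 1) : Polynomial Ω).coeff i) ≤
        ρ ^ 2 := by
      intro i
      rw [← L.neg, neg_sub]
      exact hcong i
    have hρ2 : ρ ^ 2 < 1 := pow_lt_one₀ h0 h1 two_ne_zero
    have hfm : ((X - Polynomial.C w) ^ (n + 1) : Polynomial Ω).Monic := (monic_X_sub_C w).pow _
    have hgm : (X ^ n * (X - Polynomial.C (((n + 1 : ℕ) : Ω) * w)) : Polynomial Ω).Monic :=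
      (monic_X_pow n).mul (monic_X_sub_C _)
    have hfd : ((X - Polynomial.C w) ^ (n + 1) : Polynomial Ω).natDegree = n + 1 := by
      rw [(monic_X_sub_C w).natDegree_pow, natDegree_X_sub_C, mul_one]
    have hgd : (X ^ n * (X - Polynomial.C (((n + 1 : ℕ) : Ω) * w)) : Polynomial Ω).natDegree =
        n + 1 := by
      rw [(monic_X_pow n).natDegree_mul (monic_X_sub_C _), natDegree_X_pow, natDegree_X_sub_C]
    have hflt : ∀ i < n + 1, L.nm (((X - Polynomial.C w) ^ (n + 1) : Polynomial Ω).coeff i) < 1 := by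
      intro i hi
      rw [← hf]
      refine lin_lt _ (fun c hc => (hmem c hc).trans_lt h1) i ?_
      rw [Multiset.card_replicate]
      exact hi
    have hDf : Dpo L M ((X - Polynomial.C w) ^ (n + 1)) := by
      refine ⟨hfm, fun i => ?_, fun i hi => hflt i (hfd ▸ hi)⟩
      have e : ((X - Polynomial.C w) ^ (n + 1) : Polynomial Ω) =
          ((X - Polynomial.C (⟨w, hw⟩ : M)) ^ (n + 1) : Polynomial M).map (algebraMap M Ω) := by
        rw [Polynomial.map_pow, Polynomial.map_sub, map_X, map_C]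
        rfl
      rw [e, coeff_map]
      exact SetLike.coe_mem _
    have hDg : Dpo L M (X ^ n * (X - Polynomial.C (((n + 1 : ℕ) : Ω) * w))) := by
      refine ⟨hgm, fun i => ?_, fun i hi => ?_⟩
      · have e : (X ^ n * (X - Polynomial.C (((n + 1 : ℕ) : Ω) * w)) : Polynomial Ω) =
            (X ^ n * (X - Polynomial.C (((n + 1 : ℕ) : M) * ⟨w, hw⟩)) : Polynomial M).map
              (algebraMap M Ω) := by
          have e2 : algebraMap M Ω (((n + 1 : ℕ) : M) * ⟨w, hw⟩) = ((n + 1 : ℕ) : Ω) * w := by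
            rw [map_mul, map_natCast]
            rfl
          rw [Polynomial.map_mul, Polynomial.map_pow, Polynomial.map_sub, map_X, map_C, e2]
        rw [e, coeff_map]
        exact SetLike.coe_mem _
      · have h2 := L.add ((X ^ n * (X - Polynomial.C (((n + 1 : ℕ) : Ω) * w)) :
          Polynomial Ω).coeff i - ((X - Polynomial.C w) ^ (n + 1) : Polynomial Ω).coeff i)
          (((X - Polynomial.C w) ^ (n + 1) : Polynomial Ω).coeff i)
        rw [sub_add_cancel] at h2
        exact h2.trans_lt (max_lt ((hcong' i).trans_lt hρ2) (hflt i (hgd ▸ hi)))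
    have key := hcl M inferInstance T _ _ (ρ ^ 2) hDg hDf (hgd.trans hfd.symm) hρ2 hcong'
    rw [rcy_mul T.P (monic_X_pow n).ne_zero (monic_X_sub_C _).ne_zero, rcy_X_pow, rcy_X_sub,
      cl_mul_rcy] at key
    have e : dsc T (((n + 1 : ℕ) : Ω) * w) - (n + 1) • dsc T w =
        Finsupp.single (T.P 0) (n : ℤ) + Finsupp.single (T.P (((n + 1 : ℕ) : Ω) * w)) 1 -
          (n + 1) • Finsupp.single (T.P w) (1 : ℤ) := by
      have e1 : (Finsupp.single (T.P 0) (n : ℤ) : C.V.pt Ω →₀ ℤ) =
          n • Finsupp.single (T.P 0) (1 : ℤ) := by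
        rw [Finsupp.smul_single, nsmul_eq_mul, mul_one]
      rw [e1, dsc, dsc, smul_sub, succ_nsmul _ n, succ_nsmul _ n]
      abel
    rw [e]
    exact key

end CV
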