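import Pool.Agent.Lib.MP_f80667_ag.Cv.EtC

/-! # Congruences of points of one curve, charts over extensions -/

set_option autoImplicit false

open ZC BE PE Polynomial TensorProduct IntermediateField

namespace CV

variable {F : Type} [Field F] {K Ω : Type} [Field K] [CharZero K] [Field Ω] [Algebra K Ω]
  [Algebra F K] [Algebra F Ω] [IsScalarTower F K Ω] [IsAlgClosure K Ω] {L : Ld K Ω}

omit [CharZero K] [IsAlgClosure K Ω] in
private theorem ev_def {C : Crv F} {m : Mod C (Ok L) K} (φ : C.A →ₐ[F] Ω) (a : m.R) :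
    ev m φ a = Algebra.TensorProduct.lift (Algebra.ofId K Ω) φ (fun _ _ => Commute.all _ _)
      (m.iso (1 ⊗ₜ a)) := rfl

omit [CharZero K] [IsAlgClosure K Ω] in
private theorem ev_comp {C : Crv F} {m : Mod C (Ok L) K} (γ : Ω ≃ₐ[K] Ω) (φ : C.A →ₐ[F] Ω)
    (a : m.R) : ev m ((γ.restrictScalars F : Ω →ₐ[F] Ω).comp φ) a = γ (ev m φ a) := by
  rw [ev_def, ev_def]
  generalize m.iso (1 ⊗ₜ a) = z
  induction z using TensorProduct.induction_on with
  | zero => rw [map_zero, map_zero, map_zero]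
  | tmul c b =>
    rw [Algebra.TensorProduct.lift_tmul, Algebra.TensorProduct.lift_tmul, map_mul]
    change algebraMap K Ω c * γ (φ b) = γ (algebraMap K Ω c) * γ (φ b)
    rw [γ.commutes]
  | add x y hx hy => rw [map_add, map_add, map_add, hx, hy]

section nr

variable {C : Crv F} {m : Mod C (Ok L) K} {M M' : IntermediateField K Ω} {r r' : ℝ}
  {x y : C.V.pt Ω}

theorem nr_mono (h : r ≤ r') (hx : Nr m r x y) : Nr m r' x y := by
  obtain ⟨φ, ψ, h1, h2, h3⟩ := hx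
  exact ⟨φ, ψ, h1, h2, fun a => ⟨(h3 a).1, (h3 a).2.1, (h3 a).2.2.trans h⟩⟩

/-- Proof: `ev m (γ ∘ φ) a = γ (ev m φ a)` (on `C.A` by definition; `m.iso` is over `K`), `L.act`. -/
theorem nr_act (γ : Ω ≃ₐ[K] Ω) (h : Nr m r x y) : Nr m r (C.V.act γ x) (C.V.act γ y) := by
  obtain ⟨φ, ψ, rfl, rfl, h3⟩ := h
  refine ⟨(γ.restrictScalars F : Ω →ₐ[F] Ω).comp φ, (γ.restrictScalars F : Ω →ₐ[F] Ω).comp ψ,
    rfl, rfl, fun a => ?_⟩
  rw [ev_comp, ev_comp, ← map_sub, L.act, L.act, L.act]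
  exact h3 a

theorem nr_symm (h : Nr m r x y) : Nr m r y x := by
  obtain ⟨φ, ψ, h1, h2, h3⟩ := h
  refine ⟨ψ, φ, h2, h1, fun a => ⟨(h3 a).2.1, (h3 a).1, ?_⟩⟩
  rw [L.sub_comm]
  exact (h3 a).2.2

theorem nr_int (h : Nr m r x y) : Nr m 1 x x ∧ Nr m 1 y y := by
  obtain ⟨φ, ψ, h1, h2, h3⟩ := h
  refine ⟨⟨φ, φ, h1, h1, fun a => ⟨(h3 a).1, (h3 a).1, ?_⟩⟩,
    ⟨ψ, ψ, h2, h2, fun a => ⟨(h3 a).2.1, (h3 a).2.1, ?_⟩⟩⟩
  · rw [sub_self, L.zero]
    exact zero_le_one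
  · rw [sub_self, L.zero]
    exact zero_le_one

/-- The values of the functions of the model at a point over `M` are in `M`. Proof: `fp_val` (`Cv/HdB.lean`). -/
theorem ev_mem {φ : C.A →ₐ[F] Ω} (h : Fp C.V M (some φ)) (a : m.R) : ev m φ a ∈ M := by
  rw [ev_def]
  generalize m.iso (1 ⊗ₜ a) = z
  induction z using TensorProduct.induction_on with
  | zero => rw [map_zero]; exact zero_mem M
  | tmul c b =>
    rw [Algebra.TensorProduct.lift_tmul]
    exact mul_mem (M.algebraMap_mem c) (fp_val.1 h b)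
  | add x y hx hy => rw [map_add]; exact add_mem hx hy

/-- Congruent points over an unramified field are congruent modulo the uniformizer. Proof: `ev_mem`, `Um.lt` for
`i = 0`. -/
theorem nr_val {π : K} (hπ : Uf L π) (hM : Um L M) (hx : Fp C.V M x) (hy : Fp C.V M y)
    (hr : r < 1) (h : Nr m r x y) : Nr m (L.nm (algebraMap K Ω π) ^ 1) x y := by
  obtain ⟨φ, ψ, rfl, rfl, h3⟩ := h
  refine ⟨φ, ψ, rfl, rfl, fun a => ⟨(h3 a).1, (h3 a).2.1, ?_⟩⟩
  refine Um.lt hπ hM (sub_mem (ev_mem hx a) (ev_mem hy a)) ?_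
  rw [pow_zero]
  exact (h3 a).2.2.trans_lt hr

/-- Proof: `dsp_gen`, `Um.up`, `nr_val`. -/
theorem dsp_val {π : K} (hπ : Uf L π) (hM : Um L M) (hr : r < 1) :
    Dsp L C.V (Nr m r) M ≤ Dsp L C.V (Nr m (L.nm (algebraMap K Ω π) ^ 1)) M := by
  refine AddSubgroup.closure_mono ?_
  rintro z ⟨N, M', y, y', hN, hle, hle', hy, hy', hn, e⟩
  exact ⟨N, M', y, y', hN, hle, hle', hy, hy',
    nr_val hπ (Um.up hM ⟨hle, N, hN, hle'⟩) hy hy' hr hn, e⟩

/-- The parameter of a point over `M` in a chart over `M`. Proof: `T.eqv`, `T.near` for `r = 0` (`Nr m 0 (P w) (P w)`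
by `T.near`). -/
theorem cht_fp (T : Cht m M) {w : Ω} (hw : L.nm w < 1) : Fp C.V M (T.P w) ↔ w ∈ M := by
  constructor
  · intro h
    refine fx_mem.1 fun γ hγ => ?_
    have h1 : Nr m 0 (T.P w) (T.P w) := by
      refine (T.near w w hw hw 0 le_rfl zero_le_one).2 ?_
      rw [sub_self, L.zero]
    have h2 : T.P w = T.P (γ w) := by rw [← T.eqv γ hγ w hw, h γ hγ]
    have hγw : L.nm (γ w) < 1 := by rwa [L.act]
    have h3 : Nr m 0 (T.P w) (T.P (γ w)) := by rw [← h2]; exact h1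
    have h4 := (T.near w (γ w) hw hγw 0 le_rfl zero_le_one).1 h3
    have h5 := (L.zero_iff _).1 (le_antisymm h4 (L.nonneg _))
    exact (sub_eq_zero.1 h5).symm
  · intro h γ hγ
    rw [T.eqv γ hγ w hw]
    exact congrArg T.P ((IntermediateField.mem_fixingSubgroup_iff M γ).1 hγ w h)

/-- A chart over `M` is a chart over `M'`. -/
theorem cht_up (T : Cht m M) (h : M ≤ M') : ∃ T' : Cht m M', T'.P = T.P := by
  refine ⟨⟨T.P, T.a, Subring.closure_mono ?_ T.ha, T.val, T.near, T.surj, fun γ hγ =>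
    T.eqv γ (BE.fix_le h hγ)⟩, rfl⟩
  rintro z (⟨x, hx, hx', rfl⟩ | ⟨s, rfl⟩)
  · exact Or.inl ⟨x, h hx, hx', rfl⟩
  · exact Or.inr ⟨s, rfl⟩

end nr

end CV
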