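import Mathlib

/-!
Extension of homomorphisms to an algebraically closed field (Atiyah - Macdonald, Proposition 5.23):
`A ⊆ B` domains, `B` of finite type over `A`, `b ≠ 0` in `B`. There is `a ≠ 0` in `A` such that every
homomorphism `φ : A → Ω` with `φ a ≠ 0` extends to a homomorphism `ψ : B → Ω` with `ψ b ≠ 0`.
-/

open MvPolynomial

namespace CV

/-- Homomorphisms to an algebraically closed field extend to integral extensions. -/
theorem int_lift {R S Ω : Type*} [CommRing R] [CommRing S] [Algebra R S] [Field Ω] [IsAlgClosed Ω]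
    [Algebra.IsIntegral R S] (hinj : Function.Injective (algebraMap R S)) (φ : R →+* Ω) :
    ∃ ψ : S →+* Ω, ψ.comp (algebraMap R S) = φ := by
  have hP : (RingHom.ker φ).IsPrime := RingHom.ker_isPrime φ
  obtain ⟨Q, -, hQ, hQP⟩ := Ideal.exists_ideal_over_prime_of_isIntegral (S := S)
    (RingHom.ker φ) ⊥ (by
      intro x hx
      rw [Ideal.mem_comap, Ideal.mem_bot] at hx
      have : x = 0 := hinj (by rw [hx, map_zero])
      rw [this]
      exact zero_mem _)
  have hlo : Q.LiesOver (RingHom.ker φ) := ⟨hQP.symm⟩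
  let _ : Algebra (R ⧸ RingHom.ker φ) Ω := (RingHom.kerLift φ).toAlgebra
  have h1 : IsDomain (R ⧸ RingHom.ker φ) := Ideal.Quotient.isDomain _
  have h2 : IsDomain (S ⧸ Q) := Ideal.Quotient.isDomain _
  have h3 : Algebra.IsIntegral (R ⧸ RingHom.ker φ) (S ⧸ Q) := inferInstance
  have h4 : FaithfulSMul (R ⧸ RingHom.ker φ) Ω := by
    rw [faithfulSMul_iff_algebraMap_injective]
    exact RingHom.kerLift_injective φ
  have h5 : Module.IsTorsionFree (R ⧸ RingHom.ker φ) Ω := inferInstance
  have h6 : Algebra.IsAlgebraic (R ⧸ RingHom.ker φ) (S ⧸ Q) := inferInstance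
  have h7 : Module.IsTorsionFree (R ⧸ RingHom.ker φ) (S ⧸ Q) := inferInstance
  let θ : (S ⧸ Q) →ₐ[R ⧸ RingHom.ker φ] Ω := IsAlgClosed.lift
  refine ⟨θ.toRingHom.comp (Ideal.Quotient.mk Q), ?_⟩
  ext x
  change θ (Ideal.Quotient.mk Q (algebraMap R S x)) = φ x
  have h8 : Ideal.Quotient.mk Q (algebraMap R S x) =
      algebraMap (R ⧸ RingHom.ker φ) (S ⧸ Q) (Ideal.Quotient.mk _ x) := rfl
  rw [h8, θ.commutes]
  rfl


/-- The algebraic case. -/
theorem alg_lift {A B Ω : Type*} [CommRing A] [CommRing B] [IsDomain A] [IsDomain B] [Algebra A B]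
    [Field Ω] [IsAlgClosed Ω] (hinj : Function.Injective (algebraMap A B)) [Algebra.FiniteType A B]
    [Algebra.IsAlgebraic A B] (b : B) (hb : b ≠ 0) :
    ∃ a : A, a ≠ 0 ∧ ∀ φ : A →+* Ω, φ a ≠ 0 → ∃ ψ : B →+* Ω, ψ.comp (algebraMap A B) = φ ∧
      ψ b ≠ 0 := by
  classical
  obtain ⟨s, hs⟩ := (inferInstance : Algebra.FiniteType A B).out
  obtain ⟨y, hy, hys⟩ := Algebra.IsAlgebraic.exists_integral_multiples A s
  obtain ⟨c, hc, d, hd⟩ := (Algebra.IsAlgebraic.isAlgebraic (R := A) b).exists_nonzero_dvd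
    (mem_nonZeroDivisors_of_ne_zero hb)
  refine ⟨y * c, mul_ne_zero hy hc, fun φ hφ => ?_⟩
  rw [map_mul] at hφ
  have hφy : φ y ≠ 0 := left_ne_zero_of_mul hφ
  have hφc : φ c ≠ 0 := right_ne_zero_of_mul hφ
  let I := integralClosure A B
  have hI : Function.Injective (algebraMap A I) := fun a a' h =>
    hinj (congrArg (algebraMap I B) h)
  obtain ⟨ψ₀, hψ₀⟩ := int_lift (Ω := Ω) hI φ
  have key : ∀ z : B, ∃ n : ℕ, IsIntegral A ((algebraMap A B y) ^ n * z) := by
    intro z
    have hz : z ∈ Algebra.adjoin A (s : Set B) := by rw [hs]; trivial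
    induction hz using Algebra.adjoin_induction with
    | mem x hx =>
      refine ⟨1, ?_⟩
      rw [pow_one, ← Algebra.smul_def]
      exact hys x hx
    | algebraMap r => exact ⟨0, by rw [pow_zero, one_mul]; exact isIntegral_algebraMap⟩
    | add x x' _ _ hx hx' =>
      obtain ⟨n, hn⟩ := hx
      obtain ⟨n', hn'⟩ := hx'
      refine ⟨n + n', ?_⟩
      have : (algebraMap A B y) ^ (n + n') * (x + x') =
          (algebraMap A B y) ^ n' * ((algebraMap A B y) ^ n * x) +
          (algebraMap A B y) ^ n * ((algebraMap A B y) ^ n' * x') := by ring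
      rw [this]
      exact ((isIntegral_algebraMap.pow _).mul hn).add ((isIntegral_algebraMap.pow _).mul hn')
    | mul x x' _ _ hx hx' =>
      obtain ⟨n, hn⟩ := hx
      obtain ⟨n', hn'⟩ := hx'
      refine ⟨n + n', ?_⟩
      have : (algebraMap A B y) ^ (n + n') * (x * x') =
          ((algebraMap A B y) ^ n * x) * ((algebraMap A B y) ^ n' * x') := by ring
      rw [this]
      exact hn.mul hn'
  let L := Localization.Away (algebraMap A B y)
  have hyB : algebraMap A B y ≠ 0 := by
    intro h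
    exact hy (hinj (by rw [h, map_zero]))
  let y' : I := algebraMap A I y
  have hloc : IsLocalization (Submonoid.powers y') L := by
    refine ⟨?_, ?_, ?_⟩
    · rintro ⟨_, n, rfl⟩
      have h1 : algebraMap I L (y' ^ n) = algebraMap B L (algebraMap A B y) ^ n := by
        rw [IsScalarTower.algebraMap_apply I B L, map_pow, map_pow]
        rfl
      change IsUnit (algebraMap I L (y' ^ n))
      rw [h1]
      exact (IsLocalization.Away.algebraMap_isUnit (S := L) (algebraMap A B y)).pow n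
    · intro z
      obtain ⟨⟨w, ⟨_, n, rfl⟩⟩, hw⟩ := IsLocalization.surj (Submonoid.powers (algebraMap A B y)) z
      obtain ⟨m, hm⟩ := key w
      refine ⟨⟨⟨_, hm⟩, ⟨y' ^ (m + n), m + n, rfl⟩⟩, ?_⟩
      change z * algebraMap I L (y' ^ (m + n)) = algebraMap I L ⟨_, hm⟩
      rw [IsScalarTower.algebraMap_apply I B L, IsScalarTower.algebraMap_apply I B L]
      have h1 : algebraMap I B (y' ^ (m + n)) = (algebraMap A B y) ^ m * (algebraMap A B y) ^ n := by
        rw [map_pow, pow_add]
        rfl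
      have h2 : algebraMap I B ⟨_, hm⟩ = (algebraMap A B y) ^ m * w := rfl
      rw [h1, h2, map_mul, map_mul, ← hw]
      change z * (_ * algebraMap B L (algebraMap A B y ^ n)) = _ * (z * algebraMap B L (algebraMap A B y ^ n))
      ring
    · intro x x' h
      refine ⟨1, ?_⟩
      rw [IsScalarTower.algebraMap_apply I B L, IsScalarTower.algebraMap_apply I B L] at h
      have h1 : Function.Injective (algebraMap B L) :=
        IsLocalization.injective L (powers_le_nonZeroDivisors_of_noZeroDivisors hyB)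
      have h2 : x = x' := Subtype.ext (h1 h)
      rw [h2]
  have hu : ∀ z : Submonoid.powers y', IsUnit (ψ₀ z) := by
    rintro ⟨_, n, rfl⟩
    change IsUnit (ψ₀ (y' ^ n))
    rw [map_pow]
    refine IsUnit.pow _ (IsUnit.mk0 _ ?_)
    have : ψ₀ y' = φ y := by rw [← hψ₀]; rfl
    rw [this]
    exact hφy
  let θ : L →+* Ω := IsLocalization.lift (M := Submonoid.powers y') hu
  have hθ : ∀ x : I, θ (algebraMap I L x) = ψ₀ x := fun x => IsLocalization.lift_eq hu x
  refine ⟨θ.comp (algebraMap B L), ?_, ?_⟩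
  · ext a
    change θ (algebraMap B L (algebraMap A B a)) = φ a
    have h1 : algebraMap B L (algebraMap A B a) = algebraMap I L (algebraMap A I a) := by
      rw [IsScalarTower.algebraMap_apply I B L]
      rfl
    rw [h1, hθ, ← hψ₀]
    rfl
  · intro h
    apply hφc
    have h1 : φ c = θ (algebraMap B L (algebraMap A B c)) := by
      have h2 : algebraMap B L (algebraMap A B c) = algebraMap I L (algebraMap A I c) := by
        rw [IsScalarTower.algebraMap_apply I B L]
        rfl
      rw [h2, hθ, ← hψ₀]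
      rfl
    rw [h1, hd, map_mul, map_mul]
    change θ (algebraMap B L b) = 0 at h
    rw [h, zero_mul]

/-- A polynomial with coefficients in a domain which is not `0` under `φ` has a value `≠ 0`. -/
theorem mv_lift {A Ω σ : Type*} [CommRing A] [Field Ω] [Infinite Ω]
    (p : MvPolynomial σ A) (hp : p ≠ 0) :
    ∃ a : A, a ≠ 0 ∧ ∀ φ : A →+* Ω, φ a ≠ 0 → ∃ ξ : σ → Ω, eval₂ φ ξ p ≠ 0 := by
  obtain ⟨m, hm⟩ := MvPolynomial.ne_zero_iff.1 hp
  refine ⟨coeff m p, hm, fun φ hφ => ?_⟩
  by_contra h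
  push Not at h
  apply hφ
  have h1 : MvPolynomial.map φ p = 0 := by
    refine MvPolynomial.funext fun ξ => ?_
    rw [eval_map, h ξ, map_zero]
  rw [← coeff_map, h1, coeff_zero]

/-- **Extension of homomorphisms.** -/
theorem ext_lift {A B Ω : Type*} [CommRing A] [CommRing B] [IsDomain A] [IsDomain B] [Algebra A B]
    [Field Ω] [IsAlgClosed Ω] (hinj : Function.Injective (algebraMap A B)) [Algebra.FiniteType A B]
    (b : B) (hb : b ≠ 0) :
    ∃ a : A, a ≠ 0 ∧ ∀ φ : A →+* Ω, φ a ≠ 0 → ∃ ψ : B →+* Ω, ψ.comp (algebraMap A B) = φ ∧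
      ψ b ≠ 0 := by
  classical
  have : FaithfulSMul A B := (faithfulSMul_iff_algebraMap_injective A B).2 hinj
  obtain ⟨t, ht⟩ := exists_isTranscendenceBasis A B
  let P := MvPolynomial t A
  let f : P →ₐ[A] B := aeval ((↑) : t → B)
  have hf : Function.Injective f := ht.1
  let _ : Algebra P B := f.toRingHom.toAlgebra
  have hsc : IsScalarTower A P B := IsScalarTower.of_algebraMap_eq fun a => (f.commutes a).symm
  have hft : Algebra.FiniteType P B := Algebra.FiniteType.of_restrictScalars_finiteType A P B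
  have halg : Algebra.IsAlgebraic P B := by
    have h1 := ht.isAlgebraic
    refine h1.ringHom_of_comp_eq (ht.1.aevalEquiv.symm : _ →+* P) (RingHom.id B)
      ht.1.aevalEquiv.symm.injective Function.surjective_id ?_
    ext z
    obtain ⟨q, rfl⟩ := ht.1.aevalEquiv.surjective z
    change f (ht.1.aevalEquiv.symm (ht.1.aevalEquiv q)) = _
    rw [AlgEquiv.symm_apply_apply]
    exact (ht.1.algebraMap_aevalEquiv q).symm
  obtain ⟨p, hp, hp'⟩ := alg_lift (A := P) (B := B) (Ω := Ω) hf b hb
  obtain ⟨a, ha, ha'⟩ := mv_lift (Ω := Ω) p hp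
  refine ⟨a, ha, fun φ hφ => ?_⟩
  obtain ⟨ξ, hξ⟩ := ha' φ hφ
  obtain ⟨ψ, hψ, hψb⟩ := hp' (eval₂Hom φ ξ) hξ
  refine ⟨ψ, ?_, hψb⟩
  rw [IsScalarTower.algebraMap_eq A P B, ← RingHom.comp_assoc, hψ]
  ext x
  exact eval₂_C φ ξ x

end CV
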