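import Pool.Agent.Lib.MP_f80667_ag.Cv.Pi

/-!
`FbP K V Λ`: there are a number `N ≠ 0` prime to the `l ∈ Λ` and a finite subset `E` of the Albanese kernel `T` with
`N T ⊆ E + n T` for all `n ≠ 0`.
-/

open ZC BE PE IntermediateField IsDedekindDomain NumberField

namespace CV

section def_

variable {F : Type} [Field F] {ι : Type}

/-- Let `T` be the Albanese kernel over `K`. There are a number `N ≠ 0` which is not divisible by the numbers in `Λ` and a
finite subset `E` of `T` such that `N T` is contained in `E + n T` for all `n ≠ 0`. -/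
def FbP (K : Type) [Field K] [Algebra F K] (V : ι → Vr F) (Λ : Set ℕ) : Prop :=
  ∃ N : ℕ, N ≠ 0 ∧ (∀ l ∈ Λ, ¬ l ∣ N) ∧ ∃ E : Set (Zc (Vpi V) K), E.Finite ∧ (∀ e ∈ E, AlbP e) ∧
    ∀ n : ℕ, n ≠ 0 → ∀ z : Zc (Vpi V) K, AlbP z →
      ∃ e ∈ E, ∃ z' : Zc (Vpi V) K, AlbP z' ∧ N • z.cl = e.cl + n • z'.cl

end def_

end CV
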