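import Pool.Agent.Lib.MP_f80667_ag.Cv.Gr
import Pool.Agent.Lib.MP_f80667_ag.Cv.LocN

/-! The theorems for products of curves. -/

open ZC BE PE Polynomial IntermediateField IsDedekindDomain NumberField

namespace CV

/-- The local theorem. -/
theorem lcT {F : Type} [Field F] {ι : Type} [Finite ι] (C : ι → Crv F) {l : ℕ} (hl : l.Prime) :
    LcT C l := by
  intro K Ω _ _ _ _ _ _ _ _ L hm h
  exact loc (fun i => (hm i).some) hl h

section loc

variable {F₀ : Type} [Field F₀] [NumberField F₀] {v : HeightOneSpectrum (𝓞 F₀)} {F : Type}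
  [Field F] [Algebra F (FK F₀ v)] {ι : Type} [Fintype ι] {C : ι → Crv F}

/-- **The local theorem** for the completions of number fields. -/
theorem fin_loc {l : ℕ} (hl : l.Prime) (h : Gr (Iv v) C l) :
    DvP (FK F₀ v) (fun i => (C i).V) l := by
  have hch : CharZero (FK F₀ v) :=
    charZero_of_injective_algebraMap (algebraMap F₀ (FK F₀ v)).injective
  exact grd_dvP (lcT C hl) h.grd

/-- **Potentially good reduction.** -/
theorem fin_pot (h : PrG (Iv v) C) :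
    {l : ℕ | l.Prime ∧ ¬ DvP (FK F₀ v) (fun i => (C i).V) l}.Finite := by
  have hch : CharZero (FK F₀ v) :=
    charZero_of_injective_algebraMap (algebraMap F₀ (FK F₀ v)).injective
  exact (pgd_fin h.pgd).subset fun l hl => ⟨hl.1, fun hg => hl.2 (grd_dvP (lcT C hl.1) hg)⟩

end loc

section glob

variable {F : Type} [Field F] [NumberField F] {ι : Type} [Fintype ι]

/-- **Almost all places.** -/
theorem fin_all (C : ι → Crv F) : {v : HeightOneSpectrum (𝓞 F) | ¬ ∀ m : ℕ, m ≠ 0 →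
    DvP (FK F v) (fun i => (C i).V) m}.Finite :=
  glb_fin fun _ hl => lcT C hl

/-- **Potentially good reduction at all places.** -/
theorem fin_pgd (C : ι → Crv F) (h : ∀ v : HeightOneSpectrum (𝓞 F), PrG (Iv v) C) :
    {l : ℕ | l.Prime ∧ ¬ ∀ v : HeightOneSpectrum (𝓞 F),
      DvP (FK F v) (fun i => (C i).V) l}.Finite := by
  refine ((fin_all C).biUnion (t := fun v => {l : ℕ | l.Prime ∧
    ¬ DvP (FK F v) (fun i => (C i).V) l}) fun v _ => fin_pot (h v)).subset ?_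
  rintro l ⟨hl, h1⟩
  by_contra h2
  refine h1 fun v => ?_
  by_cases hv : v ∈ {v : HeightOneSpectrum (𝓞 F) | ¬ ∀ m : ℕ, m ≠ 0 →
      DvP (FK F v) (fun i => (C i).V) m}
  · by_contra h3
    exact h2 (Set.mem_biUnion hv ⟨hl, h3⟩)
  · exact not_not.1 hv l hl.ne_zero

/-- **The global theorem.** -/
theorem fin_glob {V : ι → Vr F} (o : ∀ i, Bp (V i)) {Λ : Set ℕ}
    (h : ∀ l ∈ Λ, l.Prime ∧ l ≠ 2 ∧ ∀ v : HeightOneSpectrum (𝓞 F), DvP (FK F v) V l) :
    (∀ m : ℕ, m ≠ 0 → Sf Λ m → ∀ c : Fam (Vpi V), AlbPA c →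
      ∃ c' : Fam (Vpi V), AlbPA c' ∧ c.cl = m • c'.cl) ∧
    ∀ (z : LHat (FA (Vpi V))) (z' : ∀ i, LHat (FA (V i))), (∀ i, IsPs i z (z' i)) →
      (ImDeS Λ z ↔ ∀ i, ImDeS Λ (z' i)) := by
  have h1 := fam_dvP (V := V) (Λ := Λ) (fun h2 => (h 2 h2).2.1 rfl)
    fun l hl _ v => (h l hl).2.2 v
  refine ⟨h1, fun z z' hz => imDeS_iff o (fun n hn hS c hc => ?_) hz⟩
  obtain ⟨c', -, hc'⟩ := h1 n hn hS c hc
  exact ⟨c', hc'⟩

end glob

end CV
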