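import Mathlib

/-! # Lang's theorem for a divisible union of finite groups

`T` an abelian group with an endomorphism `φ` (Frobenius), `T_n = {x | φ^n x = x}` finite for every
`n ≥ 1`, `T` the union of the `T_n` and divisible. Then `φ^m - 1` is onto and the norm
`T_m → T_1`, `x ↦ ∑ i < m, φ^i x` is onto. -/

set_option autoImplicit false

namespace CV

variable {T : Type*} [AddCommGroup T]

/-- The iterate of an endomorphism as an endomorphism. -/
def itH (φ : T →+ T) (n : ℕ) : T →+ T where
  toFun := φ^[n]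
  map_zero' := by
    induction n with
    | zero => rfl
    | succ n ih => rw [Function.iterate_succ_apply', ih, map_zero]
  map_add' x y := by
    induction n with
    | zero => rfl
    | succ n ih => rw [Function.iterate_succ_apply', Function.iterate_succ_apply',
        Function.iterate_succ_apply', ih, map_add]

@[simp] theorem itH_apply (φ : T →+ T) (n : ℕ) (x : T) : itH φ n x = φ^[n] x := rfl

theorem fix_mul {φ : T →+ T} {m : ℕ} {x : T} (h : φ^[m] x = x) (k : ℕ) : φ^[m * k] x = x := by
  rw [Function.iterate_mul]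
  induction k with
  | zero => rfl
  | succ k ih => rw [Function.iterate_succ_apply', ih, h]

/-- The cokernel of `φ - 1` has at most `|T_1|` elements, hence it is `0` if `T` is divisible. -/
theorem lang_one (φ : T →+ T) (fin : ∀ n : ℕ, n ≠ 0 → {x : T | φ^[n] x = x}.Finite)
    (tor : ∀ x : T, ∃ n : ℕ, n ≠ 0 ∧ φ^[n] x = x)
    (dv : ∀ n : ℕ, n ≠ 0 → ∀ x : T, ∃ y : T, n • y = x) (x : T) : ∃ y : T, φ y - y = x := by
  classical
  set δ : T →+ T := φ - AddMonoidHom.id T with hδ
  have hδa : ∀ y, δ y = φ y - y := fun y => by simp [hδ]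
  set H : AddSubgroup T := δ.range with hH
  -- every finite set of representatives has at most `|T_1|` elements
  have key : ∀ s : Finset (T ⧸ H), s.card ≤ (fin 1 one_ne_zero).toFinset.card := by
    intro s
    -- common period
    obtain ⟨N, hN, hNs⟩ : ∃ N : ℕ, N ≠ 0 ∧ ∀ c ∈ s, φ^[N] (Quotient.out c) = Quotient.out c := by
      induction s using Finset.induction_on with
      | empty => exact ⟨1, one_ne_zero, fun c hc => absurd hc (Finset.notMem_empty c)⟩
      | insert a s _ ih =>
        obtain ⟨N, hN, h⟩ := ih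
        obtain ⟨m, hm, h'⟩ := tor (Quotient.out a)
        refine ⟨N * m, mul_ne_zero hN hm, fun c hc => ?_⟩
        rcases Finset.mem_insert.1 hc with rfl | hc
        · rw [mul_comm]
          exact fix_mul h' N
        · exact fix_mul (h c hc) m
    -- the finite group `T_N`
    let A : AddSubgroup T :=
      { carrier := {x | φ^[N] x = x}
        zero_mem' := map_zero (itH φ N)
        add_mem' := fun {a b} ha hb => by
          have h := map_add (itH φ N) a b
          simp only [itH_apply] at h
          rw [Set.mem_ofPred_eq, h, ha, hb]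
        neg_mem' := fun {a} ha => by
          have h := map_neg (itH φ N) a
          simp only [itH_apply] at h
          rw [Set.mem_ofPred_eq, h, ha] }
    have hA : ∀ x, x ∈ A ↔ φ^[N] x = x := fun x => Iff.rfl
    have : Finite A := (fin N hN).to_subtype
    have hφA : ∀ x ∈ A, φ x ∈ A := by
      intro x hx
      rw [hA] at hx ⊢
      rw [← Function.iterate_succ_apply, Function.iterate_succ_apply', hx]
    let d : A →+ A := (δ.comp A.subtype).codRestrict A (fun x => by
      rw [AddMonoidHom.comp_apply, AddSubgroup.coe_subtype, hδa]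
      exact A.sub_mem (hφA _ x.2) x.2)
    have hd : ∀ x : A, ((d x : A) : T) = δ x := fun x => rfl
    -- `|A / d A| = |ker d| ≤ |T_1|`
    have h1 : Nat.card (A ⧸ d.range) = Nat.card d.ker := by
      have e1 : Nat.card (A ⧸ d.range) * Nat.card d.range = Nat.card A :=
        (AddSubgroup.card_eq_card_quotient_mul_card_addSubgroup d.range).symm
      have e2 : Nat.card (A ⧸ d.ker) * Nat.card d.ker = Nat.card A :=
        (AddSubgroup.card_eq_card_quotient_mul_card_addSubgroup d.ker).symm
      have e3 : Nat.card (A ⧸ d.ker) = Nat.card d.range :=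
        Nat.card_congr (QuotientAddGroup.quotientKerEquivRange d).toEquiv
      have e4 : 0 < Nat.card d.range := Nat.card_pos
      rw [e3, mul_comm] at e2
      exact Nat.eq_of_mul_eq_mul_right e4 (e1.trans e2.symm)
    have h2 : Nat.card d.ker ≤ (fin 1 one_ne_zero).toFinset.card := by
      rw [← Set.ncard_eq_toFinset_card _ (fin 1 one_ne_zero)]
      have := (fin 1 one_ne_zero).to_subtype
      rw [← Nat.card_coe_set_eq]
      refine Nat.card_le_card_of_injective (fun x : d.ker => (⟨((x : A) : T), ?_⟩ :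
        {x : T | φ^[1] x = x})) ?_
      · have h3 : d (x : A) = 0 := x.2
        have h4 : δ ((x : A) : T) = 0 := by rw [← hd, h3, ZeroMemClass.coe_zero]
        rw [hδa] at h4
        exact sub_eq_zero.1 h4
      · intro x y h
        have h5 : ((x : A) : T) = ((y : A) : T) :=
          congrArg (fun w : {x : T | φ^[1] x = x} => (w : T)) h
        exact Subtype.ext (Subtype.ext h5)
    -- the representatives
    have h3 : s.card ≤ Nat.card (A ⧸ d.range) := by
      have : Function.Injective (fun c : s => (QuotientAddGroup.mk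
          (⟨Quotient.out (c : T ⧸ H), hNs c c.2⟩ : A) : A ⧸ d.range)) := by
        intro c c' h
        have h4 := QuotientAddGroup.eq.1 h
        obtain ⟨z, hz⟩ := h4
        have h5 : δ (z : T) = -Quotient.out (c : T ⧸ H) + Quotient.out (c' : T ⧸ H) := by
          rw [← hd, hz]
          rfl
        have h6 : (QuotientAddGroup.mk (Quotient.out (c : T ⧸ H)) : T ⧸ H) =
            QuotientAddGroup.mk (Quotient.out (c' : T ⧸ H)) :=
          QuotientAddGroup.eq.2 ⟨z, h5⟩
        have h7 : ∀ e : T ⧸ H, (QuotientAddGroup.mk (Quotient.out e) : T ⧸ H) = e :=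
          fun e => Quotient.out_eq e
        rw [h7, h7] at h6
        exact Subtype.ext h6
      have h8 := Nat.card_le_card_of_injective _ this
      rwa [Nat.card_eq_fintype_card, Fintype.card_coe] at h8
    exact h3.trans (h1.le.trans h2)
  have hfin : Finite (T ⧸ H) := by
    by_contra h
    rw [not_finite_iff_infinite] at h
    obtain ⟨s, hs⟩ := Infinite.exists_subset_card_eq (T ⧸ H)
      ((fin 1 one_ne_zero).toFinset.card + 1)
    have := key s
    omega
  obtain ⟨y, hy⟩ := dv (Nat.card (T ⧸ H)) (Nat.card_pos).ne' x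
  have h9 : (QuotientAddGroup.mk x : T ⧸ H) = 0 := by
    rw [← hy, QuotientAddGroup.mk_nsmul, card_nsmul_eq_zero']
  obtain ⟨z, hz⟩ := (QuotientAddGroup.eq_zero_iff x).1 h9
  exact ⟨z, by rw [← hδa, hz]⟩

/-- `φ^m - 1` is onto. -/
theorem lang_pow (φ : T →+ T) (fin : ∀ n : ℕ, n ≠ 0 → {x : T | φ^[n] x = x}.Finite)
    (tor : ∀ x : T, ∃ n : ℕ, n ≠ 0 ∧ φ^[n] x = x)
    (dv : ∀ n : ℕ, n ≠ 0 → ∀ x : T, ∃ y : T, n • y = x) (m : ℕ) (hm : m ≠ 0) (x : T) :
    ∃ y : T, φ^[m] y - y = x := by
  have hit : ∀ (n : ℕ) (y : T), (itH φ m)^[n] y = φ^[m * n] y := by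
    intro n y
    rw [Function.iterate_mul]
    rfl
  refine lang_one (itH φ m) (fun n hn => ?_) (fun y => ?_) dv x
  · have h := fin (m * n) (mul_ne_zero hm hn)
    simpa only [hit] using h
  · obtain ⟨n, hn, h⟩ := tor y
    refine ⟨n, hn, ?_⟩
    rw [hit, mul_comm]
    exact fix_mul h m

/-- The norm `T_m → T_1` is onto. -/
theorem norm_onto (φ : T →+ T) (fin : ∀ n : ℕ, n ≠ 0 → {x : T | φ^[n] x = x}.Finite)
    (tor : ∀ x : T, ∃ n : ℕ, n ≠ 0 ∧ φ^[n] x = x)
    (dv : ∀ n : ℕ, n ≠ 0 → ∀ x : T, ∃ y : T, n • y = x) (m : ℕ) (hm : m ≠ 0) (b : T)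
    (hb : φ b = b) : ∃ b' : T, φ^[m] b' = b' ∧ ∑ i ∈ Finset.range m, φ^[i] b' = b := by
  obtain ⟨c, hc⟩ := lang_pow φ fin tor dv m hm b
  have hsub : ∀ (n : ℕ) (x y : T), φ^[n] (x - y) = φ^[n] x - φ^[n] y :=
    fun n x y => map_sub (itH φ n) x y
  refine ⟨φ c - c, ?_, ?_⟩
  · rw [hsub, ← Function.iterate_succ_apply, Function.iterate_succ_apply']
    have h1 : φ^[m] c = b + c := by rw [← hc, sub_add_cancel]
    rw [h1, map_add, hb]
    abel
  · have h2 : ∀ n : ℕ, ∑ i ∈ Finset.range n, φ^[i] (φ c - c) = φ^[n] c - c := by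
      intro n
      induction n with
      | zero => simp
      | succ n ih =>
        rw [Finset.sum_range_succ, ih, hsub, ← Function.iterate_succ_apply]
        abel
    rw [h2, hc]

end CV
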