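import Pool.Agent.Lib.MP_f80667_ag.Cv.Rd1
import Pool.Agent.Lib.MP_f80667_ag.Cv.LangA

/-!
A ring automorphism `e` of a Dedekind domain `A` with a degree function, which preserves the degree. If every maximal ideal is
fixed by a power of `e`, and every power fixes only finitely many maximal ideals, then the same is true for the classes.
-/

namespace CV

/-- The action of `e` on the ideals. -/
abbrev mpI {A : Type} [CommRing A] (e : A ≃+* A) : Ideal A → Ideal A :=
  fun I => I.map (e : A →+* A)

section

variable {A : Type} [CommRing A] (e : A ≃+* A)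

theorem mpI_mul (n : ℕ) (I J : Ideal A) : (mpI e)^[n] (I * J) = (mpI e)^[n] I * (mpI e)^[n] J := by
  induction n with
  | zero => rfl
  | succ n ih =>
    rw [Function.iterate_succ_apply', Function.iterate_succ_apply', Function.iterate_succ_apply', ih]
    exact Ideal.map_mul _ _ _

theorem mpI_inj : Function.Injective (mpI e) := by
  intro I J h
  have h1 := congrArg (Ideal.map (e.symm : A →+* A)) h
  change (I.map (e : A →+* A)).map (e.symm : A →+* A) = (J.map (e : A →+* A)).map (e.symm : A →+* A) at h1
  rw [Ideal.map_map, Ideal.map_map, RingEquiv.symm_comp, Ideal.map_id, Ideal.map_id] at h1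
  exact h1

/-- A maximal ideal goes to a maximal ideal. -/
theorem mpI_max {N : Ideal A} (h : N.IsMaximal) (n : ℕ) : ((mpI e)^[n] N).IsMaximal := by
  induction n with
  | zero => exact h
  | succ n ih =>
    rw [Function.iterate_succ_apply']
    rcases Ideal.map_eq_top_or_isMaximal_of_surjective (e : A →+* A) e.surjective ih with h1 | h1
    · exfalso
      apply ih.ne_top
      apply mpI_inj e
      change ((mpI e)^[n] N).map (e : A →+* A) = (⊤ : Ideal A).map (e : A →+* A)
      rw [h1, Ideal.map_top]
    · exact h1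

theorem mpI_bot {I : Ideal A} (h : I ≠ ⊥) (n : ℕ) : (mpI e)^[n] I ≠ ⊥ := by
  induction n with
  | zero => exact h
  | succ n ih =>
    rw [Function.iterate_succ_apply']
    intro h1
    exact ih ((Ideal.map_eq_bot_iff_of_injective (f := (e : A →+* A)) e.injective).1 h1)

/-- Proof: induction on `n`, `Ideal.map_map`. -/
theorem mpI_pow (n : ℕ) (I : Ideal A) : (mpI e)^[n] I = I.map ((e ^ n : A ≃+* A) : A →+* A) := by
  induction n with
  | zero =>
    rw [Function.iterate_zero_apply, pow_zero]
    exact (Ideal.map_id I).symm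
  | succ n ih =>
    rw [Function.iterate_succ_apply', ih]
    change (I.map ((e ^ n : A ≃+* A) : A →+* A)).map (e : A →+* A) = _
    rw [Ideal.map_map, pow_succ']
    rfl

end

section

variable {K A : Type} [Field K] [CommRing A] [IsDedekindDomain A] [Algebra K A] {G : Dg K A}
  {e : A ≃+* A}

theorem clMap_iter (n : ℕ) {I : Ideal A} (hI : I ≠ ⊥) :
    (clMap e)^[n] (cls I) = cls ((mpI e)^[n] I) := by
  induction n with
  | zero => rfl
  | succ n ih => rw [Function.iterate_succ_apply', Function.iterate_succ_apply', ih,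
      clMap_cls e (mpI_bot e hI n)]

/-- Every class is fixed by a power. Proof: `c = cls I`, `I` a product of maximal ideals `N_j`, each fixed by `n_j` steps; take the product of the `n_j` (`fix_mul` of `LangA.lean` or
`Function.IsPeriodicPt`). -/
theorem cl_tor (hpt : ∀ N : Ideal A, N.IsMaximal → ∃ n : ℕ, n ≠ 0 ∧ (mpI e)^[n] N = N) (c : Cg A) :
    ∃ n : ℕ, n ≠ 0 ∧ (clMap e)^[n] c = c := by
  have hmul : ∀ (I : Ideal A) (m k : ℕ), (mpI e)^[m] I = I → (mpI e)^[m * k] I = I := by
    intro I m k h
    rw [Function.iterate_mul]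
    induction k with
    | zero => rfl
    | succ k ih => rw [Function.iterate_succ_apply', ih, h]
  have key : ∀ I : Ideal A, I ≠ ⊥ → ∃ n : ℕ, n ≠ 0 ∧ (mpI e)^[n] I = I := by
    intro I
    induction I using UniqueFactorizationMonoid.induction_on_prime with
    | h₁ => exact fun h => absurd rfl h
    | h₂ I hI =>
      intro _
      refine ⟨1, one_ne_zero, ?_⟩
      rw [Ideal.isUnit_iff.1 hI, Function.iterate_one]
      exact Ideal.map_top _
    | h₃ I N hI hN ih =>
      intro _
      obtain ⟨n, hn, h1⟩ := hpt N ((Ideal.isPrime_of_prime hN).isMaximal hN.ne_zero)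
      obtain ⟨m, hm, h2⟩ := ih hI
      refine ⟨n * m, mul_ne_zero hn hm, ?_⟩
      rw [mpI_mul, hmul N n m h1, mul_comm n m, hmul I m n h2]
  obtain ⟨I, hI, rfl⟩ := cls_surj c
  obtain ⟨n, hn, h⟩ := key I hI
  exact ⟨n, hn, by rw [clMap_iter n hI, h]⟩

/-- The reduced ideal of a fixed class is fixed (`Dg.red_fix` for `e ^ n`). -/
theorem red_iter (he : ∀ a, G.d (e a) = G.d a) {c : Cg A} {I : Ideal A} (h : G.Red c I) {n : ℕ}
    (hc : (clMap e)^[n] c = c) : (mpI e)^[n] I = I := by
  have h1 : ∀ (k : ℕ) (a : A), G.d ((e ^ k : A ≃+* A) a) = G.d a := by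
    intro k
    induction k with
    | zero =>
      intro a
      rw [pow_zero]
      rfl
    | succ k ih =>
      intro a
      rw [pow_succ']
      change G.d (e ((e ^ k : A ≃+* A) a)) = G.d a
      rw [he, ih]
  have h2 : clMap (e ^ n : A ≃+* A) c = c := by
    obtain ⟨J, hJ, rfl⟩ := cls_surj c
    rw [clMap_cls _ hJ, ← mpI_pow, ← clMap_iter n hJ]
    exact hc
  rw [mpI_pow]
  exact Dg.red_fix (e ^ n) (h1 n) h h2

end

end CV
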