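import Pool.Agent.Lib.MP_f80667_ag.Cv.Fn1
import Pool.Agent.Lib.MP_f80667_ag.Cv.DivA

/-!
The points of `κ ⊗ R` over an algebraically closed field `κ`, and the action of a Frobenius automorphism.
-/

open TensorProduct

namespace CV

section

variable {O R κ : Type} [CommRing O] [CommRing R] [Algebra O R] [Field κ] [Algebra O κ]

/-- The values at a point. -/
noncomputable def evx (x : R →ₐ[O] κ) : κ ⊗[O] R →ₐ[κ] κ :=
  Algebra.TensorProduct.lift (AlgHom.id κ κ) x fun _ _ => Commute.all _ _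

theorem evx_tmul (x : R →ₐ[O] κ) (c : κ) (r : R) : evx x (c ⊗ₜ r) = c * x r := by
  unfold evx
  rw [Algebra.TensorProduct.lift_tmul, AlgHom.id_apply]

/-- The maximal ideal of a point. -/
noncomputable def nx (x : R →ₐ[O] κ) : Ideal (κ ⊗[O] R) := RingHom.ker (evx x)

/-- The semilinear automorphism of `κ ⊗ R`. -/
noncomputable def eT (R : Type) [CommRing R] [Algebra O R] (σ : κ ≃ₐ[O] κ) : κ ⊗[O] R ≃+* κ ⊗[O] R :=
  (Algebra.TensorProduct.congr σ (AlgEquiv.refl : R ≃ₐ[O] R)).toRingEquiv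

theorem eT_tmul (σ : κ ≃ₐ[O] κ) (c : κ) (r : R) : eT R σ (c ⊗ₜ r) = σ c ⊗ₜ r := rfl

theorem nx_max (x : R →ₐ[O] κ) : (nx x).IsMaximal := max_of_pt (evx x)

/-- Proof: `1 ⊗ r - x r ⊗ 1` is in `nx x`. -/
theorem nx_inj {x y : R →ₐ[O] κ} (h : nx x = nx y) : x = y := by
  refine AlgHom.ext fun r => ?_
  have h1 : (1 : κ) ⊗ₜ[O] r - (x r) ⊗ₜ[O] (1 : R) ∈ nx x := by
    unfold nx
    rw [RingHom.mem_ker, map_sub, evx_tmul, evx_tmul, map_one, one_mul, mul_one, sub_self]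
  rw [h] at h1
  unfold nx at h1
  rw [RingHom.mem_ker, map_sub, evx_tmul, evx_tmul, map_one, one_mul, mul_one, sub_eq_zero] at h1
  exact h1.symm

/-- Proof: `pt_of_max`; restrict to `R`. -/
theorem exists_nx [IsAlgClosed κ] [Algebra.FiniteType O R] {N : Ideal (κ ⊗[O] R)}
    (hN : N.IsMaximal) : ∃ x : R →ₐ[O] κ, N = nx x := by
  obtain ⟨y, hy⟩ := pt_of_max (Ω := κ) hN
  refine ⟨(y.restrictScalars O).comp Algebra.TensorProduct.includeRight, ?_⟩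
  have h1 : evx ((y.restrictScalars O).comp Algebra.TensorProduct.includeRight) = y := by
    refine Algebra.TensorProduct.ext' fun c r => ?_
    rw [evx_tmul]
    change c * y ((1 : κ) ⊗ₜ[O] r) = y (c ⊗ₜ[O] r)
    rw [← smul_eq_mul, ← map_smul, TensorProduct.smul_tmul', smul_eq_mul, mul_one]
  unfold nx
  rw [h1, hy]

private theorem fn2_evx (σ : κ ≃ₐ[O] κ) (x : R →ₐ[O] κ) (z : κ ⊗[O] R) :
    evx ((σ : κ →ₐ[O] κ).comp x) (eT R σ z) = σ (evx x z) := by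
  induction z using TensorProduct.induction_on with
  | zero => rw [map_zero, map_zero, map_zero, map_zero]
  | tmul c r =>
    rw [eT_tmul, evx_tmul, evx_tmul, map_mul]
    rfl
  | add a b ha hb => rw [map_add, map_add, ha, hb, map_add, map_add]

/-- Proof: `evx (σ ∘ x) (eT σ z) = σ (evx x z)`. -/
theorem map_nx (σ : κ ≃ₐ[O] κ) (x : R →ₐ[O] κ) : mpI (eT R σ) (nx x) = nx ((σ : κ →ₐ[O] κ).comp x) := by
  apply le_antisymm
  · refine Ideal.map_le_iff_le_comap.2 fun z hz => ?_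
    have hz' : evx x z = 0 := hz
    rw [Ideal.mem_comap]
    change evx ((σ : κ →ₐ[O] κ).comp x) (eT R σ z) = 0
    rw [fn2_evx, hz', map_zero]
  · intro w hw
    have hw' : evx ((σ : κ →ₐ[O] κ).comp x) w = 0 := hw
    have h1 : (eT R σ) ((eT R σ).symm w) = w := RingEquiv.apply_symm_apply _ _
    rw [← h1, fn2_evx, map_eq_zero_iff _ σ.injective] at hw'
    have h2 : (eT R σ).symm w ∈ nx x := hw'
    have h3 := Ideal.mem_map_of_mem ((eT R σ : κ ⊗[O] R ≃+* κ ⊗[O] R) : κ ⊗[O] R →+* κ ⊗[O] R) h2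
    have h4 : ((eT R σ : κ ⊗[O] R ≃+* κ ⊗[O] R) : κ ⊗[O] R →+* κ ⊗[O] R) ((eT R σ).symm w) = w := h1
    rw [h4] at h3
    exact h3

/-- Proof: induction. -/
theorem iter_nx (σ : κ ≃ₐ[O] κ) (x : R →ₐ[O] κ) (n : ℕ) :
    (mpI (eT R σ))^[n] (nx x) = nx (((σ ^ n : κ ≃ₐ[O] κ) : κ →ₐ[O] κ).comp x) := by
  induction n with
  | zero => rfl
  | succ n ih =>
    rw [Function.iterate_succ_apply', ih, map_nx]
    congr 1
    refine AlgHom.ext fun r => ?_
    change σ ((σ ^ n : κ ≃ₐ[O] κ) (x r)) = (σ ^ (n + 1) : κ ≃ₐ[O] κ) (x r)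
    rw [pow_succ']
    rfl

theorem iter_fix (σ : κ ≃ₐ[O] κ) (x : R →ₐ[O] κ) (n : ℕ) :
    (mpI (eT R σ))^[n] (nx x) = nx x ↔ ∀ r, (σ ^ n : κ ≃ₐ[O] κ) (x r) = x r := by
  rw [iter_nx]
  constructor
  · intro h r
    have h1 := nx_inj h
    exact DFunLike.congr_fun h1 r
  · intro h
    congr 1
    exact AlgHom.ext h

private theorem fn2_gen [Algebra.FiniteType O R] : ∃ s : Finset R, Algebra.adjoin O (s : Set R) = ⊤ :=
  Algebra.FiniteType.out

private theorem fn2_mul (σ : κ ≃ₐ[O] κ) {c : κ} {n : ℕ} (h : (σ ^ n : κ ≃ₐ[O] κ) c = c) (k : ℕ) :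
    (σ ^ (n * k) : κ ≃ₐ[O] κ) c = c := by
  induction k with
  | zero => rfl
  | succ k ih =>
    rw [Nat.mul_succ, pow_add]
    change (σ ^ (n * k) : κ ≃ₐ[O] κ) ((σ ^ n : κ ≃ₐ[O] κ) c) = c
    rw [h, ih]

/-- Every point is fixed by a power, if this is true for every element of `κ`. Proof: the finitely many values at generators of `R`. -/
theorem nx_tor [IsAlgClosed κ] [Algebra.FiniteType O R] (σ : κ ≃ₐ[O] κ)
    (hσ : ∀ c : κ, ∃ n : ℕ, n ≠ 0 ∧ (σ ^ n : κ ≃ₐ[O] κ) c = c) {N : Ideal (κ ⊗[O] R)} (hN : N.IsMaximal) :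
    ∃ n : ℕ, n ≠ 0 ∧ (mpI (eT R σ))^[n] N = N := by
  classical
  obtain ⟨x, rfl⟩ := exists_nx hN
  obtain ⟨s, hs⟩ := fn2_gen (O := O) (R := R)
  choose g hg0 hg using hσ
  refine ⟨∏ r ∈ s, g (x r), Finset.prod_ne_zero_iff.2 fun r _ => hg0 _, ?_⟩
  rw [iter_fix]
  have h1 : ((σ ^ (∏ r ∈ s, g (x r)) : κ ≃ₐ[O] κ) : κ →ₐ[O] κ).comp x = x := by
    refine AlgHom.ext_of_adjoin_eq_top hs fun r hr => ?_
    obtain ⟨k, hk⟩ := Finset.dvd_prod_of_mem (fun r => g (x r)) (Finset.mem_coe.1 hr)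
    change (σ ^ (∏ r ∈ s, g (x r)) : κ ≃ₐ[O] κ) (x r) = x r
    rw [hk]
    exact fn2_mul σ (hg (x r)) k
  intro r
  exact DFunLike.congr_fun h1 r

/-- Only finitely many points are fixed by a power, if the fixed fields are finite. Proof: `x` is determined by the values at finitely many generators of `R`. -/
theorem nx_fin [IsAlgClosed κ] [Algebra.FiniteType O R] (σ : κ ≃ₐ[O] κ)
    (hσ : ∀ n : ℕ, n ≠ 0 → {c : κ | (σ ^ n : κ ≃ₐ[O] κ) c = c}.Finite) (n : ℕ) (hn : n ≠ 0) :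
    {N : Ideal (κ ⊗[O] R) | N.IsMaximal ∧ (mpI (eT R σ))^[n] N = N}.Finite := by
  classical
  obtain ⟨s, hs⟩ := fn2_gen (O := O) (R := R)
  have hT : {x : R →ₐ[O] κ | ∀ r, (σ ^ n : κ ≃ₐ[O] κ) (x r) = x r}.Finite := by
    have hF : Finite {c : κ | (σ ^ n : κ ≃ₐ[O] κ) c = c} := (hσ n hn).to_subtype
    let F : {x : R →ₐ[O] κ | ∀ r, (σ ^ n : κ ≃ₐ[O] κ) (x r) = x r} →
        (s → {c : κ | (σ ^ n : κ ≃ₐ[O] κ) c = c}) := fun x r => ⟨x.1 r.1, x.2 r.1⟩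
    have hinj : Function.Injective F := by
      intro x y hxy
      refine Subtype.ext (AlgHom.ext_of_adjoin_eq_top hs fun r hr => ?_)
      have h1 := congrFun hxy ⟨r, Finset.mem_coe.1 hr⟩
      exact congrArg Subtype.val h1
    have : Finite {x : R →ₐ[O] κ | ∀ r, (σ ^ n : κ ≃ₐ[O] κ) (x r) = x r} :=
      Finite.of_injective F hinj
    exact Set.toFinite _
  refine (hT.image nx).subset ?_
  rintro N ⟨hN, hfix⟩
  obtain ⟨x, rfl⟩ := exists_nx hN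
  exact ⟨x, (iter_fix σ x n).1 hfix, rfl⟩

end

end CV
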