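import Pool.Agent.Lib.MP_f80667_ag.Cv.Fn1

/-!
Only finitely many classes are fixed by a power of the automorphism.
-/

namespace CV

section

variable {K A : Type} [Field K] [CommRing A] [IsDedekindDomain A] [Algebra K A]

open UniqueFactorizationMonoid in
/-- The number of the prime factors is at most the colength. -/
private theorem fn3_card {I : Ideal A} (hI : I ≠ ⊥) [Module.Finite K (A ⧸ I)] :
    (normalizedFactors I).card ≤ Module.finrank K (A ⧸ I) := by
  classical
  have key : ∀ I : Ideal A, I ≠ ⊥ → Module.Finite K (A ⧸ I) →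
      (normalizedFactors I).card ≤ Module.finrank K (A ⧸ I) := by
    intro I
    induction I using UniqueFactorizationMonoid.induction_on_prime with
    | h₁ => exact fun h => absurd rfl h
    | h₂ I hI =>
      intro _ _
      rw [normalizedFactors_of_isUnit hI, Multiset.card_zero]
      exact Nat.zero_le _
    | h₃ I N hI hN ih =>
      intro h1 h2
      have hN0 : N ≠ ⊥ := hN.ne_zero
      have hle1 : N * I ≤ N := Ideal.mul_le_inf.trans inf_le_left
      have hle2 : N * I ≤ I := Ideal.mul_le_inf.trans inf_le_right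
      obtain ⟨f1, -⟩ := colen_le (K := K) hle1
      obtain ⟨f2, -⟩ := colen_le (K := K) hle2
      obtain ⟨-, h3⟩ := colen_mul (K := K) hN0 hI
      have h4 := ih hI f2
      have h5 : Nontrivial (A ⧸ N) := Ideal.Quotient.nontrivial_iff.2
        (Ideal.isPrime_of_prime hN).ne_top
      have h6 : 0 < Module.finrank K (A ⧸ N) := Module.finrank_pos
      rw [normalizedFactors_mul hN0 hI, normalizedFactors_irreducible hN.irreducible,
        Multiset.card_add, Multiset.card_singleton, h3]
      omega
  exact key I hI inferInstance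

open UniqueFactorizationMonoid in
/-- Prime factors of a fixed ideal are fixed by a high power. -/
private theorem fn3_fix {e : A ≃+* A} {n n₀ : ℕ} {I : Ideal A} (hI : I ≠ ⊥)
    (hfix : (mpI e)^[n] I = I) (hcard : (normalizedFactors I).card ≤ n₀) {N : Ideal A}
    (hN : N ∈ normalizedFactors I) : (mpI e)^[n * n₀.factorial] N = N := by
  classical
  have hmem : ∀ N : Ideal A, N ∈ normalizedFactors I ↔ Prime N ∧ N ∣ I := fun N =>
    mem_normalizedFactors_iff hI
  have hstep : ∀ N : Ideal A, N ∈ normalizedFactors I → (mpI e)^[n] N ∈ normalizedFactors I := by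
    intro N hN
    rw [hmem] at hN ⊢
    obtain ⟨hp, J, hJ⟩ := hN
    have h2 : N.IsMaximal := (Ideal.isPrime_of_prime hp).isMaximal hp.ne_zero
    have h3 := mpI_max e h2 n
    have h4 := mpI_bot e (I := N) hp.ne_zero n
    refine ⟨Ideal.prime_of_isPrime h4 h3.isPrime, (mpI e)^[n] J, ?_⟩
    rw [← mpI_mul, ← hJ, hfix]
  let f : {N // N ∈ (normalizedFactors I).toFinset} → {N // N ∈ (normalizedFactors I).toFinset} :=
    fun N => ⟨(mpI e)^[n] N.1, Multiset.mem_toFinset.2 (hstep _ (Multiset.mem_toFinset.1 N.2))⟩
  have hinj : Function.Injective f := by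
    intro N N' h
    exact Subtype.ext ((mpI_inj e).iterate n (congrArg Subtype.val h))
  let σ : Equiv.Perm {N // N ∈ (normalizedFactors I).toFinset} :=
    Equiv.ofBijective f (Finite.injective_iff_bijective.1 hinj)
  have hσ : σ ^ (Fintype.card {N // N ∈ (normalizedFactors I).toFinset}).factorial = 1 := by
    rw [← Fintype.card_perm]
    exact pow_card_eq_one
  have hdvd : (Fintype.card {N // N ∈ (normalizedFactors I).toFinset}).factorial ∣
      n₀.factorial := by
    apply Nat.factorial_dvd_factorial
    rw [Fintype.card_coe]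
    exact (Multiset.toFinset_card_le _).trans hcard
  have hσ2 : σ ^ n₀.factorial = 1 := by
    obtain ⟨k, hk⟩ := hdvd
    rw [hk, pow_mul, hσ, one_pow]
  have hit : ∀ (k : ℕ) (x : {N // N ∈ (normalizedFactors I).toFinset}),
      ((σ ^ k) x).1 = ((mpI e)^[n])^[k] x.1 := by
    intro k
    induction k with
    | zero => intro x; rfl
    | succ k ih =>
      intro x
      rw [pow_succ', Function.iterate_succ_apply', ← ih x]
      rfl
  have h1 := hit n₀.factorial ⟨N, Multiset.mem_toFinset.2 hN⟩
  rw [hσ2] at h1
  rw [Function.iterate_mul]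
  exact h1.symm

variable {G : Dg K A} {e : A ≃+* A}

open UniqueFactorizationMonoid in
/-- **Finiteness.** Proof: let `c` be fixed by the `n`-th power and `I` its reduced ideal (`exists_red`, `red_iter`), of colength `≤ n₀` (`red_colen`); `I` has at most `n₀` prime factors (each has colength `≥ 1`, `colen_mul`), and `(mpI e)^[n]` permutes the set of the
prime factors, so `(mpI e)^[n * n₀ !]` fixes each of them. So `I` is a product of at most `n₀` elements of a finite set of maximal ideals: there are only finitely many such `I`, and `c = cls I`. -/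
theorem cl_fin (he : ∀ a, G.d (e a) = G.d a)
    (hfin : ∀ n : ℕ, n ≠ 0 → {N : Ideal A | N.IsMaximal ∧ (mpI e)^[n] N = N}.Finite) (n : ℕ)
    (hn : n ≠ 0) : {c : Cg A | (clMap e)^[n] c = c}.Finite := by
  classical
  obtain ⟨n₀, h0⟩ := G.tail
  have hF := hfin (n * n₀.factorial) (mul_ne_zero hn (Nat.factorial_ne_zero _))
  set F : Finset (Ideal A) := hF.toFinset.filter (fun N => N ≠ ⊥) with hFdef
  set J : Ideal A := (n₀ • F.val).prod with hJdef
  have hJ : J ≠ 0 := by
    rw [hJdef]
    apply Multiset.prod_ne_zero
    intro h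
    have h1 := Multiset.mem_of_mem_nsmul h
    have h2 : (0 : Ideal A) ∈ F := h1
    rw [hFdef, Finset.mem_filter] at h2
    exact h2.2 rfl
  have hfinJ : {I : Ideal A | I ∣ J}.Finite := by
    have h1 : Fintype {I : Ideal A // I ∣ J} := fintypeSubtypeDvd J hJ
    have h2 : Finite {I : Ideal A // I ∣ J} := inferInstance
    exact Set.finite_coe_iff.1 h2
  refine (hfinJ.image cls).subset ?_
  intro c hc
  obtain ⟨I, hI⟩ := G.exists_red c
  have hI0 := hI.ne_bot
  obtain ⟨hf, hr⟩ := G.red_colen h0 hI
  have hcard : (normalizedFactors I).card ≤ n₀ := (fn3_card (K := K) hI0).trans hr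
  refine ⟨I, ?_, hI.cls⟩
  change I ∣ J
  have h1 : (normalizedFactors I).prod = I := Ideal.prod_normalizedFactors_eq_self hI0
  rw [← h1, hJdef]
  apply Multiset.prod_dvd_prod_of_le
  rw [Multiset.le_iff_count]
  intro N
  by_cases hN : N ∈ normalizedFactors I
  · have h2 := (mem_normalizedFactors_iff hI0).1 hN
    have h3 : N.IsMaximal := (Ideal.isPrime_of_prime h2.1).isMaximal h2.1.ne_zero
    have h4 := fn3_fix hI0 (red_iter he hI hc) hcard hN
    have h5 : N ∈ F := by
      rw [hFdef, Finset.mem_filter, Set.Finite.mem_toFinset]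
      exact ⟨⟨h3, h4⟩, h2.1.ne_zero⟩
    rw [Multiset.count_nsmul]
    have h6 : 1 ≤ Multiset.count N F.val := Multiset.one_le_count_iff_mem.2 h5
    have h7 := (Multiset.count_le_card N (normalizedFactors I)).trans hcard
    nlinarith
  · rw [Multiset.count_eq_zero_of_notMem hN]
    exact Nat.zero_le _

end

end CV
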