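import Pool.Agent.Lib.MP_f80667_ag.Cv.Fn1

/-!
A fixed ideal is a product of orbits of maximal ideals.
-/

namespace CV

section

variable {K A : Type} [Field K] [CommRing A] [IsDedekindDomain A] [Algebra K A] {G : Dg K A}
  {e : A ≃+* A}

omit [IsDedekindDomain A] in
private theorem fn4_top (n : ℕ) : (mpI e)^[n] (1 : Ideal A) = 1 := by
  induction n with
  | zero => rfl
  | succ n ih =>
    rw [Function.iterate_succ_apply', ih, Ideal.one_eq_top]
    exact Ideal.map_top _

omit [IsDedekindDomain A] in
private theorem fn4_prod (n : ℕ) (g : ℕ → Ideal A) (r : ℕ) :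
    (mpI e)^[n] (∏ i ∈ Finset.range r, g i) = ∏ i ∈ Finset.range r, (mpI e)^[n] (g i) := by
  induction r with
  | zero => simp only [Finset.range_zero, Finset.prod_empty]; exact fn4_top n
  | succ r ih => rw [Finset.prod_range_succ, Finset.prod_range_succ, mpI_mul, ih]

omit [IsDedekindDomain A] in
private theorem fn4_mono (n : ℕ) {I J : Ideal A} (h : I ≤ J) :
    (mpI e)^[n] I ≤ (mpI e)^[n] J := by
  induction n with
  | zero => exact h
  | succ n ih =>
    rw [Function.iterate_succ_apply', Function.iterate_succ_apply']
    exact Ideal.map_mono ih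

private theorem fn4_cls {g : ℕ → Ideal A} (hg : ∀ i, g i ≠ ⊥) (r : ℕ) :
    (∏ i ∈ Finset.range r, g i) ≠ ⊥ ∧
      cls (∏ i ∈ Finset.range r, g i) = ∑ i ∈ Finset.range r, cls (g i) := by
  induction r with
  | zero =>
    simp only [Finset.range_zero, Finset.prod_empty, Finset.sum_empty]
    exact ⟨one_ne_zero, by rw [Ideal.one_eq_top]; exact cls_top⟩
  | succ r ih =>
    rw [Finset.prod_range_succ, Finset.sum_range_succ]
    exact ⟨mul_ne_zero ih.1 (hg r), by rw [cls_mul ih.1 (hg r), ih.2]⟩

/-- **Decomposition into orbits.** Proof: induction on the number of prime factors of `I` (Noetherian induction). Let `f = (mpI e)^[n]`. If `I ≠ ⊤` let `N` be a maximal ideal which contains `I`; `f` permutes the finite set of the prime factors of `I`, let `r` be the period of `N`.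
The `f^[i] N`, `i < r`, are distinct maximal ideals which contain `I`, so their product `D` divides `I`: `I = D I'`; `f D = D`, so `f I' = I'` by cancellation; `cls I = cls D + cls I'`. -/
theorem orb_mem {n : ℕ} {I : Ideal A} (hI : I ≠ ⊥) (h : (mpI e)^[n] I = I) :
    cls I ∈ AddSubgroup.closure {c : Cg A | ∃ (N : Ideal A) (r : ℕ), N.IsMaximal ∧ r ≠ 0 ∧
      (mpI e)^[n * r] N = N ∧ c = ∑ i ∈ Finset.range r, (clMap e)^[n * i] (cls N)} := by
  classical
  obtain ⟨k, hk⟩ : ∃ k, k = (UniqueFactorizationMonoid.normalizedFactors I).card := ⟨_, rfl⟩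
  induction k using Nat.strong_induction_on generalizing I with
  | _ k IH =>
    by_cases htop : I = ⊤
    · rw [htop, cls_top]
      exact AddSubgroup.zero_mem _
    obtain ⟨N, hN, hIN⟩ := Ideal.exists_le_maximal I htop
    have hNbot : N ≠ ⊥ := fun hc => hI (le_bot_iff.1 (hc ▸ hIN))
    set f : Ideal A → Ideal A := (mpI e)^[n] with hf
    have hfinj : Function.Injective f := (mpI_inj e).iterate n
    have hfi : ∀ i : ℕ, ∀ J : Ideal A, f^[i] J = (mpI e)^[n * i] J := by
      intro i J
      rw [Function.iterate_mul]
    have hfI : ∀ i : ℕ, f^[i] I = I := by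
      intro i
      induction i with
      | zero => rfl
      | succ i ih => rw [Function.iterate_succ_apply', ih, h]
    have hgmax : ∀ i : ℕ, (f^[i] N).IsMaximal := fun i => by rw [hfi]; exact mpI_max e hN _
    have hgbot : ∀ i : ℕ, f^[i] N ≠ ⊥ := fun i => by rw [hfi]; exact mpI_bot e hNbot _
    have hgprime : ∀ i : ℕ, Prime (f^[i] N) := fun i =>
      Ideal.prime_of_isPrime (hgbot i) (hgmax i).isPrime
    have hgdvd : ∀ i : ℕ, f^[i] N ∣ I := by
      intro i
      rw [Ideal.dvd_iff_le]
      have h1 := fn4_mono (e := e) (n * i) hIN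
      rw [← hfi, ← hfi, hfI] at h1
      exact h1
    -- the orbit is finite
    have hper : N ∈ Function.periodicPts f := by
      have hmem : ∀ i : ℕ, f^[i] N ∈
          ((UniqueFactorizationMonoid.normalizedFactors I).toFinset : Set (Ideal A)) := by
        intro i
        rw [Finset.mem_coe, Multiset.mem_toFinset,
          UniqueFactorizationMonoid.mem_normalizedFactors_iff hI]
        exact ⟨hgprime i, hgdvd i⟩
      obtain ⟨a, b, hab, he⟩ := Set.Finite.exists_lt_map_eq_of_forall_mem hmem
        (Finset.finite_toSet _)
      refine Function.mem_periodicPts.2 ⟨b - a, by omega, ?_⟩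
      have h1 : f^[a] (f^[b - a] N) = f^[a] N := by
        rw [← Function.iterate_add_apply, show a + (b - a) = b by omega]
        exact he.symm
      exact (hfinj.iterate a) h1
    set r := Function.minimalPeriod f N with hr
    have hr0 : 0 < r := Function.minimalPeriod_pos_of_mem_periodicPts hper
    have hrN : f^[r] N = N := Function.iterate_minimalPeriod
    set D : Ideal A := ∏ i ∈ Finset.range r, f^[i] N with hD
    have hDI : D ∣ I := by
      have hinj : Set.InjOn (fun i => f^[i] N) (Finset.range r : Set ℕ) := by
        intro a ha b hb hab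
        rw [Finset.coe_range] at ha hb
        exact Function.iterate_injOn_Iio_minimalPeriod ha hb hab
      have h1 : ∏ p ∈ (Finset.range r).image (fun i => f^[i] N), p ∣ I := by
        refine Finset.prod_primes_dvd I ?_ ?_
        · intro p hp
          obtain ⟨i, _, rfl⟩ := Finset.mem_image.1 hp
          exact hgprime i
        · intro p hp
          obtain ⟨i, _, rfl⟩ := Finset.mem_image.1 hp
          exact hgdvd i
      rwa [Finset.prod_image hinj] at h1
    obtain ⟨I', hI'⟩ := hDI
    have hD0 : D ≠ ⊥ := (fn4_cls hgbot r).1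
    have hI'0 : I' ≠ ⊥ := by
      rintro rfl
      exact hI (by rw [hI', Ideal.mul_bot])
    have hfD : f D = D := by
      have h1 : f D = ∏ i ∈ Finset.range r, f^[i + 1] N := by
        rw [hD, hf, fn4_prod]
        refine Finset.prod_congr rfl fun i _ => ?_
        rw [Function.iterate_succ_apply']
      have h2 : (∏ i ∈ Finset.range r, f^[i + 1] N) * N = (∏ i ∈ Finset.range r, f^[i] N) * N := by
        have h3 := Finset.prod_range_succ' (fun i => f^[i] N) r
        have h4 := Finset.prod_range_succ (fun i => f^[i] N) r
        rw [h4] at h3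
        simp only [Function.iterate_zero, id_eq] at h3
        rw [hrN] at h3
        exact h3.symm
      rw [h1]
      exact mul_right_cancel₀ hNbot h2
    have hfI' : f I' = I' := by
      have h1 : D * f I' = D * I' := by
        have h2 : f (D * I') = f D * f I' := mpI_mul e n D I'
        rw [← hI', h, hfD] at h2
        rw [← h2, hI']
      exact mul_left_cancel₀ hD0 h1
    have hcard : (UniqueFactorizationMonoid.normalizedFactors I').card < k := by
      rw [hk, hI', UniqueFactorizationMonoid.normalizedFactors_mul hD0 hI'0, Multiset.card_add]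
      have h1 : N ∈ UniqueFactorizationMonoid.normalizedFactors D := by
        rw [UniqueFactorizationMonoid.mem_normalizedFactors_iff hD0]
        have h2 := Finset.dvd_prod_of_mem (fun i => f^[i] N) (Finset.mem_range.2 hr0)
        simp only [Function.iterate_zero, id_eq] at h2
        exact ⟨Ideal.prime_of_isPrime hNbot hN.isPrime, h2⟩
      have h2 := Multiset.card_pos_iff_exists_mem.2 ⟨N, h1⟩
      omega
    have hrec := IH _ hcard hI'0 hfI' rfl
    rw [hI', cls_mul hD0 hI'0]
    refine AddSubgroup.add_mem _ (AddSubgroup.subset_closure ?_) hrec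
    refine ⟨N, r, hN, hr0.ne', by rw [← hfi]; exact hrN, ?_⟩
    rw [hD, (fn4_cls hgbot r).2]
    refine Finset.sum_congr rfl fun i _ => ?_
    rw [clMap_iter (n * i) hNbot, hfi]

end

end CV
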