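import Pool.Agent.Lib.MP_f80667_ag.Cv.MdW
import Pool.Agent.Lib.MP_f80667_ag.Cv.MdJ

/-!
# The automorphisms of the model over the integers of `Ω`

`Mod.auO γ : m.mdO.Au` for `γ : Ω ≃ₐ[K] Ω`: `eS = mpG γ`, `eL = mpGL γ`, `ek = mpGk γ`.
-/

set_option autoImplicit false

open ZC BE PE Polynomial TensorProduct IntermediateField IsLocalRing Module

namespace CV

section

variable {F : Type} [Field F] {K Ω : Type} [Field K] [Field Ω] [Algebra K Ω] [Algebra F K]
  {L : Ld K Ω} {C : Crv F} (m : Mod C (Ok L) K)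

namespace Mod

theorem actV_inv (γ : Ω ≃ₐ[K] Ω) (c : L.V) : actV L γ⁻¹ (actV L γ c) = c :=
  Subtype.ext (by rw [actV_coe, actV_coe]; exact γ.symm_apply_apply _)

theorem actV_inv' (γ : Ω ≃ₐ[K] Ω) (c : L.V) : actV L γ (actV L γ⁻¹ c) = c :=
  Subtype.ext (by rw [actV_coe, actV_coe]; exact γ.apply_symm_apply _)

theorem resG (γ : Ω ≃ₐ[K] Ω) (c : L.V) :
    resMap (actV L γ) (residue L.V c) = residue L.V (actV L γ c) :=
  resMap_residue (actV L γ) c

theorem mpG_tmul (γ : Ω ≃ₐ[K] Ω) (c : L.V) (r : m.R) :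
    m.mpG γ (c ⊗ₜ r) = actV L γ c ⊗ₜ r := mpS_tmul _ _ _

theorem mpGk_tmul (γ : Ω ≃ₐ[K] Ω) (c : L.V) (r : m.R) :
    m.mpGk γ (residue L.V c ⊗ₜ r) = residue L.V (actV L γ c) ⊗ₜ r := by
  unfold mpGk
  rw [Fb.mp_tmul, resG]

theorem mpG_inv (γ : Ω ≃ₐ[K] Ω) (s : L.V ⊗[Ok L] m.R) : m.mpG γ⁻¹ (m.mpG γ s) = s := by
  induction s using TensorProduct.induction_on with
  | zero => simp only [map_zero]
  | tmul c r => rw [mpG_tmul, mpG_tmul, actV_inv]
  | add x y hx hy => simp only [map_add, hx, hy]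

theorem mpG_inv' (γ : Ω ≃ₐ[K] Ω) (s : L.V ⊗[Ok L] m.R) : m.mpG γ (m.mpG γ⁻¹ s) = s := by
  induction s using TensorProduct.induction_on with
  | zero => simp only [map_zero]
  | tmul c r => rw [mpG_tmul, mpG_tmul, actV_inv']
  | add x y hx hy => simp only [map_add, hx, hy]

theorem mpGL_inv (γ : Ω ≃ₐ[K] Ω) (s : Ω ⊗[Ok L] m.R) : m.mpGL γ⁻¹ (m.mpGL γ s) = s := by
  induction s using TensorProduct.induction_on with
  | zero => simp only [map_zero]
  | tmul c r =>
    rw [mpGL_tmul, mpGL_tmul]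
    congr 1
    exact γ.symm_apply_apply c
  | add x y hx hy => simp only [map_add, hx, hy]

theorem mpGL_inv' (γ : Ω ≃ₐ[K] Ω) (s : Ω ⊗[Ok L] m.R) : m.mpGL γ (m.mpGL γ⁻¹ s) = s := by
  induction s using TensorProduct.induction_on with
  | zero => simp only [map_zero]
  | tmul c r =>
    rw [mpGL_tmul, mpGL_tmul]
    congr 1
    exact γ.apply_symm_apply c
  | add x y hx hy => simp only [map_add, hx, hy]

theorem mpGk_inv (γ : Ω ≃ₐ[K] Ω) (s : L.κ ⊗[Ok L] m.R) : m.mpGk γ⁻¹ (m.mpGk γ s) = s := by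
  induction s using TensorProduct.induction_on with
  | zero => simp only [map_zero]
  | tmul c r =>
    obtain ⟨c, rfl⟩ := residue_surjective c
    rw [mpGk_tmul, mpGk_tmul, actV_inv]
  | add x y hx hy => simp only [map_add, hx, hy]

theorem mpGk_inv' (γ : Ω ≃ₐ[K] Ω) (s : L.κ ⊗[Ok L] m.R) : m.mpGk γ (m.mpGk γ⁻¹ s) = s := by
  induction s using TensorProduct.induction_on with
  | zero => simp only [map_zero]
  | tmul c r =>
    obtain ⟨c, rfl⟩ := residue_surjective c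
    rw [mpGk_tmul, mpGk_tmul, actV_inv']
  | add x y hx hy => simp only [map_add, hx, hy]

/-- The action of the Galois group on the model over the integers of `Ω`. -/
noncomputable def auO (γ : Ω ≃ₐ[K] Ω) : m.mdO.Au where
  eS := { toFun := m.mpG γ
          invFun := m.mpG γ⁻¹
          left_inv := m.mpG_inv γ
          right_inv := m.mpG_inv' γ
          map_mul' := fun x y => map_mul (m.mpG γ) x y
          map_add' := fun x y => map_add (m.mpG γ) x y }
  eL := { toFun := m.mpGL γ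
          invFun := m.mpGL γ⁻¹
          left_inv := m.mpGL_inv γ
          right_inv := m.mpGL_inv' γ
          map_mul' := fun x y => map_mul (m.mpGL γ) x y
          map_add' := fun x y => map_add (m.mpGL γ) x y }
  ek := { toFun := m.mpGk γ
          invFun := m.mpGk γ⁻¹
          left_inv := m.mpGk_inv γ
          right_inv := m.mpGk_inv' γ
          map_mul' := fun x y => map_mul (m.mpGk γ) x y
          map_add' := fun x y => map_add (m.mpGk γ) x y }
  hi s := m.mpG_i γ s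
  hq s := m.mpG_q γ s
  dL x := m.mpGL_d γ x
  dk x := m.mpGk_d γ x

theorem auO_eS (γ : Ω ≃ₐ[K] Ω) (s : L.V ⊗[Ok L] m.R) : (m.auO γ).eS s = m.mpG γ s := rfl

theorem auO_eL (γ : Ω ≃ₐ[K] Ω) (s : Ω ⊗[Ok L] m.R) : (m.auO γ).eL s = m.mpGL γ s := rfl

theorem auO_ek (γ : Ω ≃ₐ[K] Ω) (s : L.κ ⊗[Ok L] m.R) : (m.auO γ).ek s = m.mpGk γ s := rfl

end Mod

end

end CV
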