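import Pool.Agent.Lib.MP_f80667_ag.Cv.Spz
import Pool.Agent.Lib.MP_f80667_ag.Cv.MdAu

/-!
Equivariance of the specialisation of cycles.
-/

open ZC BE PE Polynomial TensorProduct IntermediateField IsLocalRing

namespace CV

section

variable {F : Type} [Field F] {K Ω : Type} [Field K] [Field Ω] [Algebra K Ω] [Algebra F K]
  {L : Ld K Ω} {C : Crv F} (m : Mod C (Ok L) K)

/-- Proof: on the tensors `residue c ⊗ r` both sides are `residue (γ c) ⊗ r`. -/
theorem auO_ek (γ : Ω ≃ₐ[K] Ω) : (m.auO γ).ek = eT m.R (sgk L γ) := by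
  refine RingEquiv.ext fun s => ?_
  rw [Mod.auO_ek]
  induction s using TensorProduct.induction_on with
  | zero => rw [map_zero, map_zero]
  | tmul c r =>
    obtain ⟨c, rfl⟩ := residue_surjective c
    rw [Mod.mpGk_tmul, eT_tmul, sgk_residue]
  | add x y hx hy => rw [map_add, map_add, hx, hy]

/-- The degree is invariant. -/
theorem eT_d (γ : Ω ≃ₐ[K] Ω) (x : L.κ ⊗[Ok L] m.R) :
    m.mdO.Dk.d (eT m.R (sgk L γ) x) = m.mdO.Dk.d x := by
  rw [← auO_ek]
  exact (m.auO γ).dk x

variable [Algebra F Ω] [IsScalarTower F K Ω]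

/-- Proof: `isoE_tmul`; both sides are additive, `γ` is the identity on `K`. -/
theorem isoE_gA (γ : Ω ≃ₐ[K] Ω) (x : Ω ⊗[Ok L] m.R) :
    isoE m Ω ((m.auO γ).eL x) = gA C γ (isoE m Ω x) := by
  have key : ∀ (c : Ω) (y : K ⊗[F] C.A),
      Algebra.TensorProduct.cancelBaseChange F K Ω Ω C.A (γ c ⊗ₜ[K] y) =
        gA C γ (Algebra.TensorProduct.cancelBaseChange F K Ω Ω C.A (c ⊗ₜ[K] y)) := by
    intro c y
    induction y using TensorProduct.induction_on with
    | zero => rw [tmul_zero, tmul_zero, map_zero, map_zero]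
    | tmul k a =>
      rw [Algebra.TensorProduct.cancelBaseChange_tmul, Algebra.TensorProduct.cancelBaseChange_tmul,
        gA_tmul, map_smul]
    | add x y hx hy => rw [tmul_add, tmul_add, map_add, map_add, map_add, hx, hy]
  induction x using TensorProduct.induction_on with
  | zero => rw [map_zero, map_zero, map_zero]
  | tmul c r => rw [Mod.auO_eL, Mod.mpGL_tmul, isoE_tmul, isoE_tmul, key]
  | add x y hx hy => rw [map_add, map_add, map_add, map_add, hx, hy]

variable {m}

/-- **Equivariance.** Proof: `cz_act`; `clMap_trans` with `isoE_gA`; `Md.spc_clMap` for `m.auO γ`, `auO_ek`. -/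
theorem spz_act (h : m.mdO.InfC) (γ : Ω ≃ₐ[K] Ω) (z : C.V.pt Ω →₀ ℤ) :
    spz m h (Finsupp.mapDomain (C.V.act γ) z) = clMap (eT m.R (sgk L γ)) (spz m h z) := by
  have h1 : (gA C γ).toRingEquiv.trans (isoE m Ω).symm.toRingEquiv =
      (isoE m Ω).symm.toRingEquiv.trans (m.auO γ).eL := by
    refine RingEquiv.ext fun x => ?_
    change (isoE m Ω).symm (gA C γ x) = (m.auO γ).eL ((isoE m Ω).symm x)
    rw [AlgEquiv.symm_apply_eq, isoE_gA, AlgEquiv.apply_symm_apply]
  change Md.spc h (clMap (isoE m Ω).symm.toRingEquiv (cz (Finsupp.mapDomain (C.V.act γ) z))) =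
    clMap (eT m.R (sgk L γ)) (Md.spc h (clMap (isoE m Ω).symm.toRingEquiv (cz z)))
  rw [cz_act, ← clMap_trans, h1, clMap_trans, Md.spc_clMap h (m.auO γ), auO_ek]

end

end CV
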