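import Pool.Agent.Lib.MP_f80667_ag.Cv.FroA
import Pool.Agent.Lib.MP_f80667_ag.Cv.SpA
import Pool.Agent.Lib.MP_f80667_ag.Cv.Fn3
import Pool.Agent.Lib.MP_f80667_ag.Cv.Fn4
import Pool.Agent.Lib.MP_f80667_ag.Cv.LangA

/-!
The Frobenius automorphism on the class group of the special fibre.
-/

open ZC BE PE Polynomial TensorProduct IntermediateField IsLocalRing

namespace CV

section

variable {F : Type} [Field F] {K Ω : Type} [Field K] [CharZero K] [Field Ω] [Algebra K Ω]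
  [Algebra F K] [IsAlgClosure K Ω] {L : Ld K Ω} {C : Crv F} (m : Mod C (Ok L) K)

/-- The Frobenius automorphism on the classes of the special fibre. -/
noncomputable def Frb (φ : Ω ≃ₐ[K] Ω) : Cg (L.κ ⊗[Ok L] m.R) →+ Cg (L.κ ⊗[Ok L] m.R) :=
  clMap (eT m.R (sgk L φ))

/-- Proof: `cl_tor`, `nx_tor`, `sgk_tor`. -/
theorem frb_tor {M : IntermediateField K Ω} {φ : Ω ≃ₐ[K] Ω} {q : ℕ} (hφ : Frob L.toLf M φ q)
    (c : Cg (L.κ ⊗[Ok L] m.R)) : ∃ n : ℕ, n ≠ 0 ∧ (Frb m φ)^[n] c = c := by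
  have hΩ : IsAlgClosed Ω := IsAlgClosure.isAlgClosed K
  have hκ : IsAlgClosed L.κ := L.κ_closed
  exact cl_tor (fun _ hN => nx_tor (sgk L φ) (sgk_tor L hφ) hN) c

/-- Proof: `cl_fin` (`eT_d`), `nx_fin`, `sgk_fin`. -/
theorem frb_fin {M : IntermediateField K Ω} {φ : Ω ≃ₐ[K] Ω} {q : ℕ} (hφ : Frob L.toLf M φ q)
    (n : ℕ) (hn : n ≠ 0) : {c : Cg (L.κ ⊗[Ok L] m.R) | (Frb m φ)^[n] c = c}.Finite := by
  have hΩ : IsAlgClosed Ω := IsAlgClosure.isAlgClosed K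
  have hκ : IsAlgClosed L.κ := L.κ_closed
  exact cl_fin (G := m.mdO.Dk) (eT_d m φ)
    (fun n hn => nx_fin (sgk L φ) (sgk_fin L hφ) n hn) n hn

variable [Algebra F Ω] [IsScalarTower F K Ω]

/-- Proof: `spz_act`, induction. -/
theorem spz_frb (h : m.mdO.InfC) (φ : Ω ≃ₐ[K] Ω) (n : ℕ) (z : C.V.pt Ω →₀ ℤ) :
    spz m h (Finsupp.mapDomain (C.V.act (φ ^ n)) z) = (Frb m φ)^[n] (spz m h z) := by
  induction n generalizing z with
  | zero =>
    have h1 : (C.V.act (φ ^ 0) : C.V.pt Ω → C.V.pt Ω) = id := by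
      funext x
      rw [pow_zero]
      cases x <;> rfl
    rw [h1, Finsupp.mapDomain_id]
    rfl
  | succ n ih =>
    have h1 : (C.V.act (φ ^ (n + 1)) : C.V.pt Ω → C.V.pt Ω) = C.V.act φ ∘ C.V.act (φ ^ n) := by
      funext x
      rw [pow_succ']
      cases x <;> rfl
    rw [h1, Finsupp.mapDomain_comp, spz_act, ih, Function.iterate_succ_apply']
    rfl

end

end CV
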