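import Pool.Agent.Lib.MP_f80667_ag.Cv.Spz
import Pool.Agent.Lib.MP_f80667_ag.Pe.Ur

/-!
The Frobenius automorphism on the residue field of `Ω`.
-/

open ZC BE PE Polynomial TensorProduct IntermediateField IsLocalRing

namespace CV

section kap

variable {K Ω : Type} [Field K] [CharZero K] [Field Ω] [Algebra K Ω] [IsAlgClosure K Ω] (L : Ld K Ω)

omit [CharZero K] [IsAlgClosure K Ω] in
private theorem froA_eq {x y : L.V} (h : L.nm ((x : Ω) - y) < 1) :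
    residue L.V x = residue L.V y := by
  rw [← sub_eq_zero, ← map_sub, residue_eq_zero_iff, maxOV]
  exact h

/-- Every element of the residue field of `Ω` is in a finite field. Proof: it is the residue of `x ∈ Ω`, `x` is in a finite extension `M`; `exists_frob`, `frob_q`, `frob_te` (or `exists_rf`): `x` is congruent to `z` with `z ^ p ^ n = z`. -/
theorem kap_tor (c : L.κ) : ∃ n : ℕ, n ≠ 0 ∧ c ^ L.p ^ n = c := by
  obtain ⟨x, rfl⟩ := residue_surjective c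
  obtain ⟨N, hN, z, hz, hxz⟩ := Ld.te_rep (L := L) (x := (x : Ω)) x.2
  have hz1 : L.nm z ≤ 1 := Ld.te_int hN hz
  have e : residue L.V x = residue L.V ⟨z, hz1⟩ := froA_eq L hxz
  refine ⟨N, hN, ?_⟩
  rw [e, ← map_pow]
  congr 1
  exact Subtype.ext hz

omit [CharZero K] [IsAlgClosure K Ω] in
theorem sgk_frob {M : IntermediateField K Ω} {φ : Ω ≃ₐ[K] Ω} {q : ℕ} (hφ : Frob L.toLf M φ q)
    (c : L.κ) : sgk L φ c = c ^ q := by
  obtain ⟨x, rfl⟩ := residue_surjective c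
  rw [sgk_residue, ← map_pow]
  exact froA_eq L (hφ.frob x x.2)

omit [CharZero K] [IsAlgClosure K Ω] in
theorem sgk_frob_pow {M : IntermediateField K Ω} {φ : Ω ≃ₐ[K] Ω} {q : ℕ} (hφ : Frob L.toLf M φ q)
    (n : ℕ) (c : L.κ) : (sgk L φ ^ n : L.κ ≃ₐ[Ok L] L.κ) c = c ^ q ^ n := by
  induction n generalizing c with
  | zero =>
    rw [pow_zero, pow_zero, pow_one]
    rfl
  | succ n ih =>
    rw [pow_succ, AlgEquiv.mul_apply, ih, sgk_frob L hφ, ← pow_mul, ← pow_succ']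

/-- Proof: `kap_tor`, `q = p ^ f` (`frob_q`). -/
theorem sgk_tor {M : IntermediateField K Ω} {φ : Ω ≃ₐ[K] Ω} {q : ℕ} (hφ : Frob L.toLf M φ q)
    (c : L.κ) : ∃ n : ℕ, n ≠ 0 ∧ (sgk L φ ^ n : L.κ ≃ₐ[Ok L] L.κ) c = c := by
  obtain ⟨n, hn, hc⟩ := kap_tor L c
  obtain ⟨f, -, hq, -⟩ := Ld.frob_q hφ
  refine ⟨n, hn, ?_⟩
  rw [sgk_frob_pow L hφ, hq, ← pow_mul, mul_comm, pow_mul]
  have h : ∀ k : ℕ, c ^ (L.p ^ n) ^ k = c := by
    intro k
    induction k with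
    | zero => rw [pow_zero, pow_one]
    | succ k ih => rw [pow_succ, pow_mul, ih, hc]
  exact h f

omit [CharZero K] [IsAlgClosure K Ω] in
/-- Proof: the roots of `X ^ q ^ n - X`. -/
theorem sgk_fin {M : IntermediateField K Ω} {φ : Ω ≃ₐ[K] Ω} {q : ℕ} (hφ : Frob L.toLf M φ q)
    (n : ℕ) (hn : n ≠ 0) : {c : L.κ | (sgk L φ ^ n : L.κ ≃ₐ[Ok L] L.κ) c = c}.Finite := by
  classical
  have h0 : (X ^ q ^ n - X : L.κ[X]) ≠ 0 :=
    FiniteField.X_pow_card_sub_X_ne_zero L.κ (Nat.one_lt_pow hn hφ.one_lt)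
  refine (Finset.finite_toSet (X ^ q ^ n - X : L.κ[X]).roots.toFinset).subset fun c hc => ?_
  have hc' : (sgk L φ ^ n : L.κ ≃ₐ[Ok L] L.κ) c = c := hc
  rw [sgk_frob_pow L hφ] at hc'
  rw [Finset.mem_coe, Multiset.mem_toFinset, mem_roots h0, IsRoot.def, eval_sub, eval_pow, eval_X,
    hc', sub_self]

end kap

end CV
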