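import Pool.Agent.Lib.MP_f80667_ag.Cv.DgA
import Pool.Agent.Lib.MP_f80667_ag.Cv.DgQ

/-!
A `K`-algebra with a degree function as a module over `K[u]`: the trace form.
-/

open Polynomial

namespace CV

/-- `A` as an algebra over `K[X]`, `X ↦ u`. -/
@[reducible] noncomputable def pal {K A : Type} [Field K] [CommRing A] [Algebra K A] (u : A) : Algebra K[X] A :=
  (aeval u : K[X] →ₐ[K] A).toRingHom.toAlgebra

namespace Dg

variable {K A : Type} [Field K] [CommRing A] [Algebra K A] (G : Dg K A)

private lemma fz1_smul (u : A) (p : K[X]) (x : A) :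
    letI := pal (K := K) u; p • x = aeval u p * x := rfl

private lemma fz1_map (u : A) (p : K[X]) :
    letI := pal (K := K) u; algebraMap K[X] A p = aeval u p := rfl

/-- Proof: `fin_adjoin`. -/
theorem pal_fin {u : A} {m : ℕ} (hu : G.d u = m) (hm : m ≠ 0) :
    letI := pal (K := K) u; Module.Finite K[X] A := by
  let _ := pal (K := K) u
  have h := G.fin_adjoin hu hm
  obtain ⟨S, hS⟩ := h.fg_top
  refine ⟨⟨S, ?_⟩⟩
  rw [eq_top_iff]
  intro x _
  have hx : x ∈ Submodule.span (Algebra.adjoin K {u}) (S : Set A) := by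
    rw [hS]
    trivial
  induction hx using Submodule.span_induction with
  | mem y hy => exact Submodule.subset_span hy
  | zero => exact zero_mem _
  | add y z _ _ hy hz => exact add_mem (hy trivial) (hz trivial)
  | smul a y _ hy =>
    obtain ⟨a, ha⟩ := a
    have ha' := ha
    rw [Algebra.adjoin_singleton_eq_range_aeval] at ha'
    obtain ⟨p, hp⟩ := ha'
    have h1 : (⟨a, ha⟩ : Algebra.adjoin K {u}) • y = p • y := by
      rw [fz1_smul]
      change a * y = _
      rw [← hp]
      rfl
    rw [h1]
    exact Submodule.smul_mem _ _ (hy trivial)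

private lemma fz1_aeval_ne {u : A} {m : ℕ} (hu : G.d u = m) (hm : m ≠ 0) {p : K[X]} (hp : p ≠ 0) :
    aeval u p ≠ 0 := fun h => hp ((transcendental_iff.1 (G.trans hu hm)) p h)

/-- Proof: `A` is torsion-free over the principal ideal domain `K[X]` (`u` is transcendental, `A` is a domain). -/
theorem pal_free {u : A} {m : ℕ} (hu : G.d u = m) (hm : m ≠ 0) :
    letI := pal (K := K) u; Module.Free K[X] A := by
  let _ := pal (K := K) u
  have := G.pal_fin hu hm
  have hd := G.isDomain
  have h1 : Function.Injective (algebraMap K[X] A) := by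
    rw [injective_iff_map_eq_zero]
    intro p hp
    by_contra h
    exact G.fz1_aeval_ne hu hm h hp
  have h2 : FaithfulSMul K[X] A := (faithfulSMul_iff_algebraMap_injective K[X] A).2 h1
  have h3 : Module.IsTorsionFree K[X] A := inferInstance
  exact Module.free_of_finite_type_torsion_free'

/-- Proof: the rank is the dimension of `A / u A` (`finrank_quot` in `DgQ.lean`). -/
theorem pal_rank {u : A} {m : ℕ} (hu : G.d u = m) (hm : m ≠ 0) :
    letI := pal (K := K) u; Module.finrank K[X] A = m := by
  let _ := pal (K := K) u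
  have hfin : Module.Finite K[X] A := G.pal_fin hu hm
  have hfree : Module.Free K[X] A := G.pal_free hu hm
  let b := Module.finBasis K[X] A
  have hC : ∀ (c : K) (x : A), c • x = (C c : K[X]) • x := by
    intro c x
    rw [fz1_smul, aeval_C, Algebra.smul_def]
  let φ : A →ₗ[K] (Fin (Module.finrank K[X] A) → K) :=
    { toFun := fun x i => (b.repr x i).coeff 0
      map_add' := fun x y => by
        ext i
        simp
      map_smul' := fun c x => by
        ext i
        rw [hC, map_smul]
        simp }
  have hφ : ∀ x i, φ x i = (b.repr x i).coeff 0 := fun _ _ => rfl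
  have hsurj : Function.Surjective φ := by
    intro w
    refine ⟨∑ i, (C (w i) : K[X]) • b i, ?_⟩
    ext i
    rw [hφ, b.repr_sum_self]
    simp
  have hker : LinearMap.ker φ = (Ideal.span {u}).restrictScalars K := by
    ext x
    rw [LinearMap.mem_ker, Submodule.restrictScalars_mem, Ideal.mem_span_singleton]
    constructor
    · intro hx
      have h1 : ∀ i, X ∣ b.repr x i := by
        intro i
        rw [X_dvd_iff]
        exact congrFun hx i
      choose q hq using h1
      refine ⟨∑ i, q i • b i, ?_⟩
      have h2 : u * ∑ i, q i • b i = (X : K[X]) • ∑ i, q i • b i := by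
        rw [fz1_smul, aeval_X]
      rw [h2, Finset.smul_sum]
      conv_lhs => rw [← b.sum_repr x]
      refine Finset.sum_congr rfl fun i _ => ?_
      rw [hq i, mul_smul]
    · rintro ⟨y, hy⟩
      have h2 : x = (X : K[X]) • y := by
        rw [fz1_smul, aeval_X, hy]
      ext i
      rw [hφ, h2, map_smul]
      simp
  have e := φ.quotKerEquivOfSurjective hsurj
  have h3 := e.finrank_eq
  rw [hker] at h3
  have h4 := G.finrank_quot hu
  rw [Module.finrank_fin_fun] at h3
  rw [← h3]
  exact h4

/-- The trace form is not degenerate. Proof: every `x ≠ 0` divides a nonzero `g (u)`, `g ∈ K[X]` (`A` is integral over `K[u]`): `x y = g (u)`, whose trace is `m g ≠ 0`. -/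
theorem pal_tr {u : A} {m : ℕ} (hu : G.d u = m) (hm : (m : K) ≠ 0) {x : A} (hx : x ≠ 0) :
    letI := pal (K := K) u; ∃ y : A, Algebra.trace K[X] A (x * y) ≠ 0 := by
  let _ := pal (K := K) u
  have hm0 : m ≠ 0 := by
    rintro rfl
    exact hm Nat.cast_zero
  have hfin : Module.Finite K[X] A := G.pal_fin hu hm0
  have hfree : Module.Free K[X] A := G.pal_free hu hm0
  have hd := G.isDomain
  have h1 : (Ideal.span {x}).comap (algebraMap K[X] A) ≠ ⊥ :=
    Ideal.comap_ne_bot_of_integral_mem hx (Ideal.mem_span_singleton_self x)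
      (Algebra.IsIntegral.isIntegral x)
  obtain ⟨g, hg, hg0⟩ := Submodule.exists_mem_ne_zero_of_ne_bot h1
  rw [Ideal.mem_comap, Ideal.mem_span_singleton] at hg
  obtain ⟨y, hy⟩ := hg
  refine ⟨y, ?_⟩
  rw [← hy, Algebra.trace_algebraMap, G.pal_rank hu hm0, nsmul_eq_mul]
  refine mul_ne_zero ?_ hg0
  rw [← map_natCast (C : K →+* K[X])]
  exact C_ne_zero.2 hm

/-- The discriminant: there is `D ≠ 0` such that `D x` is a combination of the dual basis; in the form: if `c` divides all traces `tr (x y)` then `c (u)` divides `D (u) x`. Proof: `D` is the determinant of the matrix of the trace form for a basis, not `0` by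
`pal_tr`; the adjugate matrix. -/
theorem pal_disc {u : A} {m : ℕ} (hu : G.d u = m) (hm : (m : K) ≠ 0) :
    letI := pal (K := K) u; ∃ D : K[X], D ≠ 0 ∧ ∀ (c : K[X]) (x : A),
      (∀ y : A, c ∣ Algebra.trace K[X] A (x * y)) → aeval u c ∣ aeval u D * x := by
  let _ := pal (K := K) u
  have hm0 : m ≠ 0 := by
    rintro rfl
    exact hm Nat.cast_zero
  have hfin : Module.Finite K[X] A := G.pal_fin hu hm0
  have hfree : Module.Free K[X] A := G.pal_free hu hm0
  let b := Module.finBasis K[X] A
  let M : Matrix (Fin (Module.finrank K[X] A)) (Fin (Module.finrank K[X] A)) K[X] :=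
    Matrix.of fun i j => Algebra.trace K[X] A (b i * b j)
  have hM : ∀ i j, M i j = Algebra.trace K[X] A (b i * b j) := fun _ _ => rfl
  have hkey : ∀ (v : Fin (Module.finrank K[X] A) → K[X]) (i),
      M.mulVec v i = Algebra.trace K[X] A ((∑ j, v j • b j) * b i) := by
    intro v i
    rw [Finset.sum_mul, map_sum]
    change ∑ j, M i j * v j = _
    refine Finset.sum_congr rfl fun j _ => ?_
    rw [hM, smul_mul_assoc, map_smul, smul_eq_mul, mul_comm (b i) (b j), mul_comm]
  refine ⟨M.det, ?_, ?_⟩
  · intro h0
    obtain ⟨v, hv, hv0⟩ := Matrix.exists_mulVec_eq_zero_iff.2 h0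
    have hx : (∑ j, v j • b j) ≠ 0 := by
      intro h1
      apply hv
      ext1 j
      exact Fintype.linearIndependent_iff.1 b.linearIndependent v h1 j
    obtain ⟨y, hy⟩ := G.pal_tr hu hm hx
    apply hy
    rw [← b.sum_repr y, Finset.mul_sum, map_sum]
    refine Finset.sum_eq_zero fun i _ => ?_
    rw [mul_smul_comm, map_smul, ← hkey v i, hv0, Pi.zero_apply, smul_zero]
  · intro c x hc
    choose w hw using fun i => hc (b i)
    have h1 : M.mulVec (fun i => b.repr x i) = c • w := by
      ext1 i
      rw [hkey, b.sum_repr, hw i]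
      rfl
    have h2 : M.adjugate.mulVec (M.mulVec (fun i => b.repr x i)) = M.det • (fun i => b.repr x i) := by
      rw [Matrix.mulVec_mulVec, Matrix.adjugate_mul, Matrix.smul_mulVec, Matrix.one_mulVec]
    rw [h1, Matrix.mulVec_smul] at h2
    refine ⟨∑ i, M.adjugate.mulVec w i • b i, ?_⟩
    have h3 : aeval u M.det * x = M.det • x := by rw [fz1_smul]
    have h4 : aeval u c * ∑ i, M.adjugate.mulVec w i • b i
        = c • ∑ i, M.adjugate.mulVec w i • b i := by rw [fz1_smul]
    rw [h3, h4, Finset.smul_sum]
    conv_lhs => rw [← b.sum_repr x, Finset.smul_sum]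
    refine Finset.sum_congr rfl fun i _ => ?_
    rw [smul_smul, smul_smul]
    have h5 := congrFun h2 i
    simp only [Pi.smul_apply, smul_eq_mul] at h5
    rw [h5]

end Dg

end CV
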