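import Pool.Agent.Lib.MP_f80667_ag.Cv.Fz1

/-!
Fibres of `u` which are reduced.
-/

open Polynomial

namespace CV

namespace Dg

variable {K A : Type} [Field K] [CommRing A] [Algebra K A] (G : Dg K A)

/-- The trace of an element which is nilpotent modulo an irreducible polynomial `c` is divisible by `c`. Proof: base change to the field `K[X] / (c)`: the trace of a nilpotent endomorphism of a finite dimensional vector space is `0`
(`Algebra.trace` commutes with base change for free algebras; or: the trace of the matrix of the multiplication modulo `c`). -/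
theorem tr_nil {u : A} {m : ℕ} (hu : G.d u = m) (hm : m ≠ 0) {c : K[X]} (hc : Irreducible c)
    {x : A} {j : ℕ} (hx : aeval u c ∣ x ^ j) :
    letI := pal (K := K) u; c ∣ Algebra.trace K[X] A x := by
  let _ := pal (K := K) u
  have hfin : Module.Finite K[X] A := G.pal_fin hu hm
  have hfree : Module.Free K[X] A := G.pal_free hu hm
  let b := Module.finBasis K[X] A
  have hp : (Ideal.span {c}).IsPrime := (Ideal.span_singleton_prime hc.ne_zero).2 hc.prime
  have hdom : IsDomain (K[X] ⧸ Ideal.span {c}) := Ideal.Quotient.isDomain _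
  let φ : K[X] →+* K[X] ⧸ Ideal.span {c} := Ideal.Quotient.mk (Ideal.span {c})
  obtain ⟨y, hy⟩ := hx
  have h1 : x ^ j = c • y := hy
  have h2 : (φ.mapMatrix (Algebra.leftMulMatrix b x)) ^ j = 0 := by
    rw [← map_pow, ← map_pow, h1, map_smul]
    ext i k
    simp only [RingHom.mapMatrix_apply, Matrix.map_apply, Matrix.smul_apply, smul_eq_mul,
      Matrix.zero_apply]
    rw [map_mul]
    have h3 : φ c = 0 := Ideal.Quotient.eq_zero_iff_mem.2 (Ideal.mem_span_singleton_self c)
    rw [h3, zero_mul]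
  have h3 : IsNilpotent (φ.mapMatrix (Algebra.leftMulMatrix b x)).trace :=
    Matrix.isNilpotent_trace_of_isNilpotent ⟨j, h2⟩
  have h4 := h3.eq_zero
  have h5 : (φ.mapMatrix (Algebra.leftMulMatrix b x)).trace =
      φ (Algebra.leftMulMatrix b x).trace := by
    simp [Matrix.trace, map_sum]
  rw [h5, ← Algebra.trace_eq_matrix_trace b x] at h4
  exact Ideal.mem_span_singleton.1 (Ideal.Quotient.eq_zero_iff_mem.1 h4)

/-- For all irreducible `c` which do not divide `D` the ring `A / (c (u))` is reduced. Proof: `tr_nil`, `pal_disc`, `c` and `D` are coprime. -/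
theorem red_u {u : A} {m : ℕ} (hu : G.d u = m) (hm : (m : K) ≠ 0) : ∃ D : K[X], D ≠ 0 ∧
    ∀ c : K[X], Irreducible c → ¬ c ∣ D → ∀ (x : A) (j : ℕ), aeval u c ∣ x ^ j → aeval u c ∣ x := by
  let _ := pal (K := K) u
  have hm0 : m ≠ 0 := by
    rintro rfl
    exact hm Nat.cast_zero
  obtain ⟨D, hD, h⟩ := G.pal_disc hu hm
  refine ⟨D, hD, fun c hc hcD x j hx => ?_⟩
  have h1 : aeval u c ∣ aeval u D * x := by
    refine h c x fun y => ?_
    refine G.tr_nil hu hm0 hc (j := j) ?_
    rw [mul_pow]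
    exact Dvd.dvd.mul_right hx _
  obtain ⟨p, q, hpq⟩ := (hc.coprime_iff_not_dvd).2 hcD
  have h2 := congrArg (aeval u) hpq
  rw [map_add, map_mul, map_mul, map_one] at h2
  have h3 : x = aeval u c * (aeval u p * x) + aeval u q * (aeval u D * x) := by
    calc x = 1 * x := (one_mul x).symm
      _ = (aeval u p * aeval u c + aeval u q * aeval u D) * x := by rw [h2]
      _ = _ := by ring
  rw [h3]
  exact dvd_add (Dvd.intro _ rfl) (Dvd.dvd.mul_left h1 _)

include G in
/-- If `A / (f)` is reduced then `f` is a local parameter at the maximal ideals `N` with `f ∈ N`. Proof: `A / (f)` is Artinian (finite dimensional) and reduced, so the intersection of its maximal ideals is `0`; choose `s` in all of them except `N` (Chinese remainders). -/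
theorem red_reg {f : A} (hf : f ≠ 0) (h : ∀ (x : A) (j : ℕ), f ∣ x ^ j → f ∣ x) {N : Ideal A}
    (hN : N.IsMaximal) (hfN : f ∈ N) : ∃ s, s ∉ N ∧ ∀ x ∈ N, f ∣ s * x := by
  classical
  have hfin := G.finite_quot hf
  have hart : IsArtinianRing (A ⧸ Ideal.span {f}) := IsArtinianRing.of_finite K _
  have hred : IsReduced (A ⧸ Ideal.span {f}) := by
    refine ⟨fun q hq => ?_⟩
    obtain ⟨x, rfl⟩ := Ideal.Quotient.mk_surjective q
    obtain ⟨j, hj⟩ := hq
    rw [← map_pow, Ideal.Quotient.eq_zero_iff_mem, Ideal.mem_span_singleton] at hj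
    rw [Ideal.Quotient.eq_zero_iff_mem, Ideal.mem_span_singleton]
    exact h x j hj
  have hle : Ideal.span {f} ≤ N := (Ideal.span_singleton_le_iff_mem _).2 hfN
  have hmax : (N.map (Ideal.Quotient.mk (Ideal.span {f}))).IsMaximal :=
    Ideal.IsMaximal.map_of_surjective_of_ker_le Ideal.Quotient.mk_surjective (by rwa [Ideal.mk_ker])
  let m₀ : MaximalSpectrum (A ⧸ Ideal.span {f}) := ⟨_, hmax⟩
  obtain ⟨q, hq⟩ := (IsArtinianRing.equivPi (A ⧸ Ideal.span {f})).surjective (Pi.single m₀ 1)
  obtain ⟨s, rfl⟩ := Ideal.Quotient.mk_surjective q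
  have hcomp : ∀ m : MaximalSpectrum (A ⧸ Ideal.span {f}),
      Ideal.Quotient.mk m.asIdeal (Ideal.Quotient.mk (Ideal.span {f}) s) =
        (Pi.single m₀ 1 : ∀ I : MaximalSpectrum (A ⧸ Ideal.span {f}), _ ⧸ I.asIdeal) m := by
    intro m
    rw [← hq]
    rfl
  refine ⟨s, ?_, ?_⟩
  · intro hs
    have h1 := hcomp m₀
    rw [Pi.single_eq_same] at h1
    have h2 : Ideal.Quotient.mk m₀.asIdeal (Ideal.Quotient.mk (Ideal.span {f}) s) = 0 :=
      Ideal.Quotient.eq_zero_iff_mem.2 (Ideal.mem_map_of_mem _ hs)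
    rw [h2] at h1
    have : Nontrivial ((A ⧸ Ideal.span {f}) ⧸ m₀.asIdeal) :=
      Ideal.Quotient.nontrivial_iff.2 hmax.ne_top
    exact zero_ne_one h1
  · intro x hx
    rw [← Ideal.mem_span_singleton, ← Ideal.Quotient.eq_zero_iff_mem]
    apply (IsArtinianRing.equivPi (A ⧸ Ideal.span {f})).injective
    rw [map_zero]
    funext m
    change Ideal.Quotient.mk m.asIdeal (Ideal.Quotient.mk (Ideal.span {f}) (s * x)) = 0
    rw [map_mul, map_mul, hcomp]
    by_cases hm : m = m₀
    · subst hm
      have h2 : Ideal.Quotient.mk m₀.asIdeal (Ideal.Quotient.mk (Ideal.span {f}) x) = 0 :=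
        Ideal.Quotient.eq_zero_iff_mem.2 (Ideal.mem_map_of_mem _ hx)
      rw [h2, mul_zero]
    · rw [Pi.single_eq_of_ne hm, zero_mul]

end Dg

end CV
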