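import Mathlib

/-!
Galois descent for subspaces and ideals.
-/

open Module

namespace CV

/-- **Galois descent for subspaces.** `W' = k' ⊗ W` (corresponding bases `b`, `b'`), `H` a group of automorphisms of `k'` with the fixed field `k`, `e γ` the semilinear action on `W'` which fixes the basis. A stable subspace `U` of `W'` is spanned by its elements in `W`. Proof: otherwise let `u ∈ U`, not in the span `U₀` of `U ∩ j W`,
with a support of minimal cardinality; scale it such that one coordinate is `1`. For `γ ∈ H` the element `e γ u - u ∈ U` has smaller support, so it is in `U₀`. If a coordinate `c` of `u` is not in `k` there is `γ` with `γ c ≠ c`; `u - c / (γ c - c) (e γ u - u)` has smaller support than `u`, so it is in `U₀`, and then `u ∈ U₀`: contradiction.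
So all coordinates of `u` are in `k`, `u ∈ j W`: contradiction. -/
theorem gal_sub {k k' W W' ι : Type} [Field k] [Field k'] [Algebra k k'] [AddCommGroup W]
    [Module k W] [AddCommGroup W'] [Module k' W'] (j : W →+ W')
    (hj : ∀ (c : k) w, j (c • w) = algebraMap k k' c • j w) (b : Basis ι k W) (b' : Basis ι k' W')
    (hb : ∀ i, j (b i) = b' i) (H : Set (k' ≃+* k'))
    (hH : ∀ c : k', (∀ γ ∈ H, γ c = c) → ∃ c₀ : k, c = algebraMap k k' c₀)
    (e : (k' ≃+* k') → W' →+ W') (he : ∀ γ ∈ H, ∀ (c : k') i, e γ (c • b' i) = γ c • b' i)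
    (U : Submodule k' W') (hU : ∀ γ ∈ H, ∀ u ∈ U, e γ u ∈ U) :
    ∀ u ∈ U, u ∈ Submodule.span k' {x | x ∈ U ∧ ∃ w, x = j w} := by
  classical
  have hrep : ∀ γ ∈ H, ∀ u : W', ∀ i, b'.repr (e γ u) i = γ (b'.repr u i) := by
    intro γ hγ u i
    have h1 : e γ u = ∑ x ∈ (b'.repr u).support, γ (b'.repr u x) • b' x := by
      conv_lhs => rw [← b'.linearCombination_repr u, Finsupp.linearCombination_apply, Finsupp.sum]
      rw [map_sum]
      exact Finset.sum_congr rfl fun x _ => he γ hγ _ x
    rw [h1, map_sum, Finsupp.finsetSum_apply]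
    have h2 : ∀ x ∈ (b'.repr u).support,
        (b'.repr (γ (b'.repr u x) • b' x)) i = if x = i then γ (b'.repr u i) else 0 := by
      intro x _
      rw [map_smul, b'.repr_self, Finsupp.smul_apply, Finsupp.single_apply, smul_eq_mul]
      by_cases hx : x = i
      · rw [if_pos hx, if_pos hx, mul_one, hx]
      · rw [if_neg hx, if_neg hx, mul_zero]
    rw [Finset.sum_congr rfl h2, Finset.sum_ite_eq']
    by_cases hi : i ∈ (b'.repr u).support
    · rw [if_pos hi]
    · rw [if_neg hi, Finsupp.notMem_support_iff.1 hi, map_zero]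
  set U₀ := Submodule.span k' {x | x ∈ U ∧ ∃ w, x = j w} with hU₀
  suffices h : ∀ n : ℕ, ∀ u ∈ U, (b'.repr u).support.card = n → u ∈ U₀ from
    fun u hu => h _ u hu rfl
  intro n
  induction n using Nat.strong_induction_on with
  | _ n IH =>
    intro u hu hn
    by_cases hu0 : b'.repr u = 0
    · have h1 : u = 0 := (LinearEquiv.map_eq_zero_iff _).1 hu0
      rw [h1]
      exact zero_mem _
    obtain ⟨i₀, hi₀⟩ := Finsupp.ne_iff.1 hu0
    rw [Finsupp.zero_apply] at hi₀
    set c₀ := b'.repr u i₀ with hc₀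
    obtain ⟨v, hv⟩ : ∃ v, v = c₀⁻¹ • u := ⟨_, rfl⟩
    have hvU : v ∈ U := by
      rw [hv]
      exact U.smul_mem _ hu
    have hvi : ∀ i, b'.repr v i = c₀⁻¹ * b'.repr u i := by
      intro i
      rw [hv, map_smul, Finsupp.smul_apply, smul_eq_mul]
    have hv1 : b'.repr v i₀ = 1 := by rw [hvi, ← hc₀, inv_mul_cancel₀ hi₀]
    have hvs : (b'.repr v).support = (b'.repr u).support := by
      ext i
      rw [Finsupp.mem_support_iff, Finsupp.mem_support_iff, hvi, ne_eq, ne_eq, mul_eq_zero,
        or_iff_right (inv_ne_zero hi₀)]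
    suffices hv0 : v ∈ U₀ by
      have h1 : u = c₀ • v := by rw [hv, smul_smul, mul_inv_cancel₀ hi₀, one_smul]
      rw [h1]
      exact U₀.smul_mem _ hv0
    have small : ∀ y ∈ U, ∀ i, b'.repr v i ≠ 0 → b'.repr y i = 0 →
        (∀ l, b'.repr v l = 0 → b'.repr y l = 0) → y ∈ U₀ := by
      intro y hy i hi hyi hl
      refine IH _ ?_ y hy rfl
      rw [← hn, ← hvs]
      apply Finset.card_lt_card
      refine ⟨?_, ?_⟩
      · intro l hl'
        rw [Finsupp.mem_support_iff] at hl' ⊢
        exact fun h => hl' (hl l h)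
      · intro hss
        have := hss (Finsupp.mem_support_iff.2 hi)
        rw [Finsupp.mem_support_iff] at this
        exact this hyi
    have hdiff : ∀ γ ∈ H, e γ v - v ∈ U₀ := by
      intro γ hγ
      refine small _ (U.sub_mem (hU γ hγ v hvU) hvU) i₀ (by rw [hv1]; exact one_ne_zero) ?_ ?_
      · rw [map_sub, Finsupp.sub_apply, hrep γ hγ, hv1, map_one, sub_self]
      · intro l hl
        rw [map_sub, Finsupp.sub_apply, hrep γ hγ, hl, map_zero, sub_self]
    by_cases hall : ∀ i, ∃ c : k, b'.repr v i = algebraMap k k' c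
    · refine Submodule.subset_span ⟨hvU, ?_⟩
      choose c hc using hall
      refine ⟨∑ x ∈ (b'.repr v).support, c x • b x, ?_⟩
      conv_lhs => rw [← b'.linearCombination_repr v, Finsupp.linearCombination_apply, Finsupp.sum]
      rw [map_sum]
      refine Finset.sum_congr rfl fun x _ => ?_
      rw [hj, hb, hc]
    · push Not at hall
      obtain ⟨i, hi⟩ := hall
      set c := b'.repr v i with hc
      have hγ : ∃ γ ∈ H, γ c ≠ c := by
        by_contra hcon
        push Not at hcon
        obtain ⟨c₁, h1⟩ := hH c hcon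
        exact hi c₁ h1
      obtain ⟨γ, hγ, hne⟩ := hγ
      have hc0 : c ≠ 0 := fun h => hi 0 (by rw [h, map_zero])
      have hd : γ c - c ≠ 0 := sub_ne_zero.2 hne
      have h1 : v - (c / (γ c - c)) • (e γ v - v) ∈ U₀ := by
        refine small _ (U.sub_mem hvU (U.smul_mem _ (U.sub_mem (hU γ hγ v hvU) hvU))) i hc0 ?_ ?_
        · rw [map_sub, map_smul, map_sub, Finsupp.sub_apply, Finsupp.smul_apply, Finsupp.sub_apply,
            hrep γ hγ, ← hc, smul_eq_mul, div_mul_cancel₀ _ hd, sub_self]
        · intro l hl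
          rw [map_sub, map_smul, map_sub, Finsupp.sub_apply, Finsupp.smul_apply, Finsupp.sub_apply,
            hrep γ hγ, hl, map_zero, sub_zero, smul_zero, sub_zero]
      have h2 : v = (v - (c / (γ c - c)) • (e γ v - v)) + (c / (γ c - c)) • (e γ v - v) := by
        rw [sub_add_cancel]
      rw [h2]
      exact U₀.add_mem h1 (U₀.smul_mem _ (hdiff γ hγ))

/-- **Galois descent for ideals.** -/
theorem gal_ideal {k k' A A' ι : Type} [Field k] [Field k'] [Algebra k k'] [CommRing A]
    [CommRing A'] [Algebra k A] [Algebra k' A'] (j : A →+* A')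
    (hj : ∀ c, j (algebraMap k A c) = algebraMap k' A' (algebraMap k k' c)) (b : Basis ι k A)
    (b' : Basis ι k' A') (hb : ∀ i, j (b i) = b' i) (H : Set (k' ≃+* k'))
    (hH : ∀ c : k', (∀ γ ∈ H, γ c = c) → ∃ c₀ : k, c = algebraMap k k' c₀)
    (e : (k' ≃+* k') → A' →+* A') (he : ∀ γ ∈ H, ∀ c, e γ (algebraMap k' A' c) = algebraMap k' A' (γ c))
    (he' : ∀ γ ∈ H, ∀ a, e γ (j a) = j a) (U : Ideal A') (hU : ∀ γ ∈ H, U.map (e γ) ≤ U) :
    U = (U.comap j).map j := by
  apply le_antisymm
  · intro u hu
    have h := gal_sub (W := A) (W' := A') j.toAddMonoidHom (fun c w => ?_) b b' (fun i => hb i) H hH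
      (fun γ => (e γ).toAddMonoidHom) (fun γ hγ c i => ?_) (U.restrictScalars k') (fun γ hγ u hu => ?_)
      u hu
    · refine Submodule.span_induction (p := fun y _ => y ∈ (U.comap j).map j) ?_ ?_ ?_ ?_ h
      · rintro _ ⟨hx, w, rfl⟩
        exact Ideal.mem_map_of_mem _ hx
      · exact zero_mem _
      · intro x y _ _ h1 h2
        exact add_mem h1 h2
      · intro a x _ h1
        rw [Algebra.smul_def]
        exact Ideal.mul_mem_left _ _ h1
    · change j (c • w) = algebraMap k k' c • j w
      rw [Algebra.smul_def, map_mul, hj, ← Algebra.smul_def]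
    · change e γ (c • b' i) = γ c • b' i
      rw [Algebra.smul_def, map_mul, he γ hγ, ← hb, he' γ hγ, ← Algebra.smul_def]
    · exact hU γ hγ (Ideal.mem_map_of_mem _ hu)
  · exact Ideal.map_comap_le

end CV
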