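import Mathlib

/-!
Functions with simple zeros on an affine curve in characteristic `p`.
-/

namespace CV

/-- **Functions with simple zeros.** `A` is a ring of characteristic `p`, `d` a degree function, `δ` a derivation,
`I` an ideal, `T` a finite set of maximal ideals, `u ∈ A` such that only finitely many maximal ideals contain `δ u`. For all
large `n` there is `f = u + h ^ p ∈ u + I` of degree `p n` such that `f ∉ N`, for the maximal ideals `N ∈ T` which do not
contain `I`, and `f ∉ N ^ 2` for all maximal ideals `N` which do not contain `I`.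
Proof: `δ f = δ u`, so `f ∈ N ^ 2` implies `δ u ∈ N`; let `T'` be the union of `T` and these finitely many ideals. By the
Chinese remainder theorem there is `h₀ ∈ I` with `h₀ ≡ 1` modulo the `N ∈ T'` which contain `u` and `h₀ ≡ 0` modulo the other
ones; `h = h₀ + j` with `j` in the intersection of `I` and the ideals of `T'`, of large degree. -/
theorem gf_core {A : Type*} [CommRing A] {p : ℕ} (hp : p.Prime) [CharP A p] (d : A → WithBot ℕ)
    (hadd : ∀ x y, d x < d y → d (x + y) = d y)
    (hpow : ∀ x (n : ℕ), d x = n → d (x ^ p) = (p * n : ℕ))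
    (δ : Derivation ℤ A A) (u : A) (I : Ideal A) (T : Set (Ideal A)) (hT : T.Finite)
    (hTm : ∀ N ∈ T, N.IsMaximal) (hfin : {N : Ideal A | N.IsMaximal ∧ δ u ∈ N}.Finite)
    (hlarge : ∀ S : Finset (Ideal A), (∀ N ∈ S, N.IsMaximal) →
      ∃ n₀ : ℕ, ∀ n ≥ n₀, ∃ j ∈ I, (∀ N ∈ S, j ∈ N) ∧ d j = n) :
    ∃ n₀ : ℕ, ∀ n ≥ n₀, ∃ f, f - u ∈ I ∧ d f = (p * n : ℕ) ∧
      ∀ N : Ideal A, N.IsMaximal → ¬ I ≤ N → f ∈ N → N ∉ T ∧ f ∉ N ^ 2 := by
  classical
  have hT' : (T ∪ {N : Ideal A | N.IsMaximal ∧ δ u ∈ N}).Finite := hT.union hfin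
  set S : Finset (Ideal A) := hT'.toFinset with hS
  have hSm : ∀ N ∈ S, N.IsMaximal := by
    intro N hN
    rw [hS, Set.Finite.mem_toFinset] at hN
    rcases hN with h | h
    · exact hTm N h
    · exact h.1
  -- the element `h₀`
  obtain ⟨h₀, hh₀, hh₁⟩ : ∃ h₀ ∈ I, ∀ N ∈ S, ¬ I ≤ N →
      (u ∈ N → h₀ - 1 ∈ N) ∧ (u ∉ N → h₀ ∈ N) := by
    set S' : Finset (Ideal A) := S.filter (fun N => ¬ I ≤ N) with hS'
    have hmax : ∀ i : S', (i : Ideal A).IsMaximal := fun i =>
      hSm _ (Finset.mem_of_mem_filter _ i.2)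
    have hnI : ∀ i : S', ¬ I ≤ (i : Ideal A) := fun i => (Finset.mem_filter.1 i.2).2
    have hcI : ∀ i : S', IsCoprime I (i : Ideal A) := by
      intro b
      rw [Ideal.isCoprime_iff_sup_eq]
      by_contra hne
      have := (hmax b).eq_of_le hne le_sup_right
      exact hnI b (by rw [this]; exact le_sup_left)
    let J : Option S' → Ideal A := fun o => o.elim I (fun i => (i : Ideal A))
    have hcop : Pairwise (Function.onFun IsCoprime J) := by
      intro a b hab
      match a, b with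
      | none, none => exact absurd rfl hab
      | none, some b => exact hcI b
      | some a, none => exact (hcI a).symm
      | some a, some b =>
        have hne : (a : Ideal A) ≠ (b : Ideal A) := fun h => hab (by rw [Subtype.ext h])
        have h1 := hmax a
        have h2 := hmax b
        change IsCoprime (a : Ideal A) (b : Ideal A)
        exact Ideal.isCoprime_of_isMaximal hne
    obtain ⟨x, hx⟩ := Ideal.exists_forall_sub_mem_ideal hcop
      (fun o => o.elim 0 (fun i => if u ∈ (i : Ideal A) then 1 else 0))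
    refine ⟨x, by simpa [J] using hx none, fun N hN hI => ?_⟩
    have hN' : N ∈ S' := Finset.mem_filter.2 ⟨hN, hI⟩
    have h1 := hx (some ⟨N, hN'⟩)
    simp only [J, Option.elim] at h1
    constructor
    · intro hu
      rwa [if_pos hu] at h1
    · intro hu
      rwa [if_neg hu, sub_zero] at h1
  obtain ⟨n₀, hn₀⟩ := hlarge S hSm
  obtain ⟨n₁, hn₁⟩ : ∃ n₁ : ℕ, d h₀ < n₁ ∧ d u < (n₁ : ℕ) := by
    obtain ⟨a, ha⟩ : ∃ a : ℕ, d h₀ ≤ a := by
      match h : d h₀ with
      | ⊥ => exact ⟨0, bot_le⟩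
      | (a : ℕ) => exact ⟨a, le_rfl⟩
    obtain ⟨b, hb⟩ : ∃ b : ℕ, d u ≤ b := by
      match h : d u with
      | ⊥ => exact ⟨0, bot_le⟩
      | (b : ℕ) => exact ⟨b, le_rfl⟩
    refine ⟨a + b + 1, lt_of_le_of_lt ha ?_, lt_of_le_of_lt hb ?_⟩
    · exact WithBot.coe_lt_coe.2 (Nat.lt_succ_of_le (Nat.le_add_right a b))
    · exact WithBot.coe_lt_coe.2 (Nat.lt_succ_of_le (Nat.le_add_left b a))
  refine ⟨max n₀ n₁, fun n hn => ?_⟩
  obtain ⟨j, hjI, hjS, hjd⟩ := hn₀ n (le_trans (le_max_left _ _) hn)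
  have hnn : n₁ ≤ n := le_trans (le_max_right _ _) hn
  have hd1 : d (h₀ + j) = n := by
    rw [hadd _ _ (by rw [hjd]; exact lt_of_lt_of_le hn₁.1 (WithBot.coe_le_coe.2 hnn)), hjd]
  have hd2 := hpow _ n hd1
  have hhI : (h₀ + j) ∈ I := I.add_mem hh₀ hjI
  refine ⟨u + (h₀ + j) ^ p, ?_, ?_, ?_⟩
  · rw [add_sub_cancel_left]
    exact I.pow_mem_of_mem hhI p hp.pos
  · rw [hadd _ _ ?_, hd2]
    rw [hd2]
    refine lt_of_lt_of_le hn₁.2 (WithBot.coe_le_coe.2 ?_)
    calc n₁ ≤ n := hnn
      _ ≤ p * n := Nat.le_mul_of_pos_left n hp.pos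
  · intro N hN hI hf
    have hδ : δ (u + (h₀ + j) ^ p) = δ u := by
      rw [map_add, Derivation.leibniz_pow, nsmul_eq_mul, CharP.cast_eq_zero, zero_mul, add_zero]
    have hnot : N ∉ S := by
      intro hNS
      obtain ⟨h1, h2⟩ := hh₁ N hNS hI
      by_cases hu : u ∈ N
      · have h3 : (h₀ + j) ^ p ∈ N := by
          have := N.sub_mem hf hu
          rwa [add_sub_cancel_left] at this
        have h4 : h₀ + j ∈ N := hN.isPrime.mem_of_pow_mem p h3
        have h5 : (1 : A) ∈ N := by
          have h6 : (1 : A) = (h₀ + j) - j - (h₀ - 1) := by ring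
          rw [h6]
          exact N.sub_mem (N.sub_mem h4 (hjS N hNS)) (h1 hu)
        exact hN.ne_top ((Ideal.eq_top_iff_one N).2 h5)
      · have h3 : (h₀ + j) ^ p ∈ N :=
          N.pow_mem_of_mem (N.add_mem (h2 hu) (hjS N hNS)) p hp.pos
        apply hu
        have := N.sub_mem hf h3
        rwa [add_sub_cancel_right] at this
    refine ⟨fun h => hnot ?_, fun h => hnot ?_⟩
    · rw [hS, Set.Finite.mem_toFinset]
      exact Or.inl h
    · rw [hS, Set.Finite.mem_toFinset]
      refine Or.inr ⟨hN, ?_⟩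
      rw [← hδ]
      -- a derivation maps `N ^ 2` to `N`
      have key : ∀ x ∈ N ^ 2, δ x ∈ N := by
        intro x hx
        rw [pow_two] at hx
        refine Submodule.mul_induction_on hx ?_ ?_
        · intro a ha b hb
          rw [Derivation.leibniz]
          exact N.add_mem (N.mul_mem_right _ ha) (N.mul_mem_right _ hb)
        · intro a b ha hb
          rw [map_add]
          exact N.add_mem ha hb
      exact key _ h

end CV
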