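import Pool.Agent.Lib.MP_f80667_ag.Cv.GlbD
import Pool.Agent.Lib.MP_f80667_ag.Cv.Fin
import Pool.Agent.Lib.MP_f80667_ag.Be.HatA

/-!
Products of curves: the finite form, from the local theorem `LcF` to the completions and the number fields.

* `fnG_up`: from an extension of degree prime to `n`.
* `fdP_gq`: good reduction over an extension of degree prime to `l` for all `l ∈ Λ`.
* `fdP_glob`: number fields.
-/

open ZC BE PE Polynomial IntermediateField IsDedekindDomain NumberField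

namespace CV

section fng

variable {F : Type} [Field F] {ι : Type} {V : ι → Vr F} {K : Type} [Field K] [Algebra F K]

/-- From an extension of degree prime to `n`. -/
theorem fnG_up [Fintype ι] (o : ∀ i, Bp (V i)) {Ω : Type} [Field Ω] [Algebra K Ω] [Algebra F Ω]
    [IsScalarTower F K Ω] [CharZero K] [IsAlgClosure K Ω] (hV : ∀ i, Fct (V i))
    (M : IntermediateField K Ω) [FiniteDimensional K M] [IsScalarTower F M Ω] {n : ℕ}
    (hc : (Module.finrank K M).Coprime n) (h : FnG V M Ω n) : FnG V K Ω n := by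
  obtain ⟨E, hE, h0, h⟩ := h
  have hX : Fct (Vpi V) := Fct.pi hV
  have hb := Nat.gcd_eq_gcd_ab (Module.finrank K M) n
  rw [hc.gcd_eq_one, Nat.cast_one] at hb
  set a : ℤ := (Module.finrank K M).gcdA n
  set b : ℤ := (Module.finrank K M).gcdB n
  have hv : ∀ e ∈ (Vpi V).D0 M Ω,
      (∀ i, Finsupp.mapDomain ((pr i).f Ω) e ∈ (V i).ratEq M Ω) →
      ∀ i, Finsupp.mapDomain ((pr i).f Ω) (vtr hX K M e) ∈ (V i).ratEq K Ω := by
    intro e _ he i
    rw [vtr_map hX M (hV i) (pr i)]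
    exact tr_ratEqV (hV i) M (he i)
  refine ⟨(fun e => a • vtr hX K M e) '' E, hE.image _, ?_, fun z hz ha => ?_⟩
  · rintro _ ⟨e, he, rfl⟩
    refine ⟨AddSubgroup.zsmul_mem _ (vtr_D0 hX M (h0 e he).1) _, fun i => ?_⟩
    have e1 : Finsupp.mapDomain.addMonoidHom ((pr i).f Ω) (a • vtr hX K M e) ∈
        (V i).ratEq K Ω := by
      rw [map_zsmul]
      exact AddSubgroup.zsmul_mem _ (hv e (h0 e he).1 (h0 e he).2 i) _
    exact e1
  · have hz0 := piC_D0 o hz
    have hp0 : ∀ i, Finsupp.mapDomain ((pr i).f Ω) (piC o z) = 0 := fun i => pr_piC o i hz.2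
    obtain ⟨e, he, z', hz', ha', hr⟩ := h (piC o z) (D0_res hz0) fun i => by
      rw [hp0 i]
      exact zero_mem _
    have h1 : vtr hX K M (piC o z - e - n • z') ∈ (Vpi V).ratEq K Ω := tr_ratEqV hX M hr
    rw [map_sub, map_sub, map_nsmul, vtr_res hX M hz0.1] at h1
    refine ⟨_, ⟨e, he, rfl⟩, a • vtr hX K M z' + b • piC o z,
      AddSubgroup.add_mem _ (AddSubgroup.zsmul_mem _ (vtr_D0 hX M hz') _)
        (AddSubgroup.zsmul_mem _ hz0 _), fun i => ?_, ?_⟩
    · have e : Finsupp.mapDomain.addMonoidHom ((pr i).f Ω)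
          (a • vtr hX K M z' + b • piC o z) ∈ (V i).ratEq K Ω := by
        rw [map_add, map_zsmul, map_zsmul]
        refine AddSubgroup.add_mem _ (AddSubgroup.zsmul_mem _ (hv z' hz' ha' i) _)
          (AddSubgroup.zsmul_mem _ ?_ _)
        have e1 : Finsupp.mapDomain.addMonoidHom ((pr i).f Ω) (piC o z) = 0 := hp0 i
        rw [e1]
        exact zero_mem _
      exact e
    · have h4 : piC o z - a • vtr hX K M e - n • (a • vtr hX K M z' + b • piC o z) =
          a • (Module.finrank K M • piC o z - vtr hX K M e - n • vtr hX K M z') := by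
        have h5 : piC o z - a • vtr hX K M e - n • (a • vtr hX K M z' + b • piC o z) -
            a • (Module.finrank K M • piC o z - vtr hX K M e - n • vtr hX K M z') =
            (1 - ((Module.finrank K M : ℤ) * a + n * b)) • piC o z := by
          simp only [← natCast_zsmul]
          module
        rw [← hb, sub_self, zero_smul] at h5
        exact sub_eq_zero.1 h5
      have h6 : z - a • vtr hX K M e - n • (a • vtr hX K M z' + b • piC o z) = (z - piC o z) +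
          (piC o z - a • vtr hX K M e - n • (a • vtr hX K M z' + b • piC o z)) := by abel
      change z - a • vtr hX K M e - n • (a • vtr hX K M z' + b • piC o z) ∈ _
      rw [h6, h4]
      exact add_mem (sub_piC o ha) (AddSubgroup.zsmul_mem _ h1 _)

/-- In terms of classes. -/
theorem FnG.fnP {n : ℕ} (h : FnG V K (AlgebraicClosure K) n) : FnP K V n := by
  obtain ⟨E, hE, h0, h⟩ := h
  refine ⟨(fun e : Zc (Vpi V) K => e.cy) ⁻¹' E,
    hE.preimage fun x _ y _ hxy => Subtype.ext hxy, fun e he => ?_, fun z hz => ?_⟩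
  · exact (albP_iff e).2 (h0 e.cy he).2
  · obtain ⟨e, he, z', hz', ha, hr⟩ := h z.cy z.2 ((albP_iff z).1 hz)
    refine ⟨⟨e, (h0 e he).1⟩, he, ⟨z', hz'⟩, (albP_iff _).2 ha, ?_⟩
    let w : Dz (Vpi V) K := ⟨z', hz'⟩
    let w1 : Dz (Vpi V) K := ⟨e, (h0 e he).1⟩
    let w0 : Dz (Vpi V) K := z
    have h6 : Zc.cl (V := Vpi V) (K := K) ⟨e, (h0 e he).1⟩ +
        n • (Zc.cl (V := Vpi V) (K := K) ⟨z', hz'⟩) = Gp.clsH (Vpi V) K (w1 + n • w) := by
      rw [map_add, map_nsmul]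
      rfl
    rw [h6]
    refine Gp.cls_eq.2 ?_
    have h7 : (w0 : (Vpi V).pt (AlgebraicClosure K) →₀ ℤ) -
        ((w1 + n • w : Dz (Vpi V) K) : (Vpi V).pt (AlgebraicClosure K) →₀ ℤ) =
        z.cy - e - n • z' := by
      rw [AddSubgroup.coe_add, AddSubgroup.coe_nsmul]
      change z.cy - (e + n • z') = _
      abel
    have h8 : (w0 : (Vpi V).pt (AlgebraicClosure K) →₀ ℤ) -
        ((w1 + n • w : Dz (Vpi V) K) : (Vpi V).pt (AlgebraicClosure K) →₀ ℤ) ∈
          (Vpi V).ratEq K (AlgebraicClosure K) := by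
      rw [h7]
      exact hr
    exact h8

end fng

section fnp

variable {F : Type} [Field F] {ι : Type} {V : ι → Vr F} {K : Type} [Field K] [Algebra F K]

private theorem fnp_add {z z' : Dz (Vpi V) K} (h : AlbP (K := K) z) (h' : AlbP (K := K) z') :
    AlbP (K := K) (z + z' : Dz (Vpi V) K) := by
  intro i
  change Gp.clsH (V i) K ((pr i).dz K (z + z')) = 0
  rw [map_add, map_add]
  have e : Gp.clsH (V i) K ((pr i).dz K z) = 0 := h i
  have e' : Gp.clsH (V i) K ((pr i).dz K z') = 0 := h' i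
  rw [e, e', add_zero]

private theorem fnp_smul {z : Dz (Vpi V) K} (h : AlbP (K := K) z) (a : ℤ) :
    AlbP (K := K) (a • z : Dz (Vpi V) K) := by
  intro i
  change Gp.clsH (V i) K ((pr i).dz K (a • z)) = 0
  rw [map_zsmul, map_zsmul]
  have e : Gp.clsH (V i) K ((pr i).dz K z) = 0 := h i
  rw [e, smul_zero]

private theorem fnp_zero : AlbP (K := K) (0 : Dz (Vpi V) K) := by
  intro i
  change Gp.clsH (V i) K ((pr i).dz K 0) = 0
  rw [map_zero, map_zero]

/-- If the kernel is divisible, the finite set is `{0}`. -/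
theorem DvP.fnP {n : ℕ} (h : DvP K V n) : FnP K V n := by
  refine ⟨{(0 : Dz (Vpi V) K)}, Set.finite_singleton _, ?_, fun z hz => ?_⟩
  · rintro _ rfl
    exact fnp_zero
  · obtain ⟨z', hz', e⟩ := h z hz
    refine ⟨_, rfl, z', hz', ?_⟩
    have e1 : Zc.cl (V := Vpi V) (K := K) (0 : Dz (Vpi V) K) = 0 := map_zero (Gp.clsH (Vpi V) K)
    rw [e1, zero_add, e]

theorem FnP.one : FnP K V 1 :=
  DvP.fnP fun z hz => ⟨z, hz, (one_nsmul _).symm⟩

theorem FnP.mul {a b : ℕ} (h : FnP K V a) (h' : FnP K V b) : FnP K V (a * b) := by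
  obtain ⟨E, hE, h0, h⟩ := h
  obtain ⟨E', hE', h0', h'⟩ := h'
  refine ⟨Set.image2 (fun e e' : Dz (Vpi V) K => (e + (a : ℤ) • e' : Dz (Vpi V) K)) E E',
    hE.image2 _ hE', ?_, fun z hz => ?_⟩
  · rintro _ ⟨e, he, e', he', rfl⟩
    exact fnp_add (h0 e he) (fnp_smul (h0' e' he') a)
  · obtain ⟨e, he, z₁, hz₁, e1⟩ := h z hz
    obtain ⟨e', he', z₂, hz₂, e2⟩ := h' z₁ hz₁
    refine ⟨_, ⟨e, he, e', he', rfl⟩, z₂, hz₂, ?_⟩
    have e3 : Zc.cl (V := Vpi V) (K := K)
        ((show Dz (Vpi V) K from e) + (a : ℤ) • (show Dz (Vpi V) K from e') : Dz (Vpi V) K) =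
        e.cl + a • e'.cl := by
      change Gp.clsH (Vpi V) K ((show Dz (Vpi V) K from e) +
        (a : ℤ) • (show Dz (Vpi V) K from e')) = _
      rw [map_add, map_zsmul, natCast_zsmul]
      rfl
    rw [e1, e2, smul_add, ← add_assoc, mul_smul, e3]

theorem fnP_of {Λ : Set ℕ} (h : ∀ l ∈ Λ, l.Prime → FnP K V l) (n : ℕ) (hn : n ≠ 0)
    (hS : Sf Λ n) : FnP K V n := by
  induction n using induction_on_primes with
  | zero => exact absurd rfl hn
  | one => exact FnP.one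
  | prime_mul p m hp ih =>
    have hm : m ≠ 0 := right_ne_zero_of_mul hn
    exact (h p (hS p hp (dvd_mul_right p m)) hp).mul
      (ih hm fun l hl hd => hS l hl (hd.mul_left p))

/-- The part of a number at a set of prime numbers. -/
private theorem fnp_part (Λ : Set ℕ) {N : ℕ} (hN : N ≠ 0) :
    ∃ a b : ℕ, N = a * b ∧ a ≠ 0 ∧ Sf Λ a ∧ ∀ n, Sf Λ n → n ≠ 0 → b.Coprime n := by
  induction N using induction_on_primes with
  | zero => exact absurd rfl hN
  | one => exact ⟨1, 1, rfl, one_ne_zero, fun l hl hd => absurd (Nat.dvd_one.1 hd) hl.one_lt.ne',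
      fun n _ _ => Nat.coprime_one_left n⟩
  | prime_mul p m hp ih =>
    obtain ⟨a, b, e, ha, hS, hc⟩ := ih (right_ne_zero_of_mul hN)
    by_cases hpΛ : p ∈ Λ
    · refine ⟨p * a, b, by rw [e, mul_assoc], mul_ne_zero hp.ne_zero ha, fun l hl hd => ?_, hc⟩
      rcases (Nat.Prime.dvd_mul hl).1 hd with h | h
      · rw [(Nat.prime_dvd_prime_iff_eq hl hp).1 h]
        exact hpΛ
      · exact hS l hl h
    · refine ⟨a, p * b, by rw [e]; ring, ha, hS, fun n hn hn0 => ?_⟩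
      refine Nat.Coprime.mul_left ((Nat.Prime.coprime_iff_not_dvd hp).2 fun hd => ?_) (hc n hn hn0)
      exact hpΛ (hn p hp hd)

/-- Bounded and finite modulo the prime numbers in `Λ`. -/
theorem fdP_of {Λ : Set ℕ} {N : ℕ} (hN : N ≠ 0) (hB : ∀ n : ℕ, n ≠ 0 → BdP K V N n)
    (h : ∀ l ∈ Λ, l.Prime → FnP K V l) : FdP K V Λ := by
  obtain ⟨a, b, hab, ha, hS, hc⟩ := fnp_part Λ hN
  obtain ⟨E, hE, h0, h1⟩ := fnP_of h a ha hS
  refine ⟨E, hE, h0, fun n hn hSn z hz => ?_⟩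
  obtain ⟨e, he, z₁, hz₁, e1⟩ := h1 z hz
  obtain ⟨z₂, hz₂, e2⟩ := hB n hn z₁ hz₁
  have hg := Nat.gcd_eq_gcd_ab b n
  rw [(hc n hSn hn).gcd_eq_one, Nat.cast_one] at hg
  set u : ℤ := b.gcdA n
  set w : ℤ := b.gcdB n
  refine ⟨e, he, (u • (show Dz (Vpi V) K from z₂) +
    (w * a : ℤ) • (show Dz (Vpi V) K from z₁) : Dz (Vpi V) K),
    fnp_add (fnp_smul hz₂ u) (fnp_smul hz₁ _), ?_⟩
  have e3 : Zc.cl (V := Vpi V) (K := K) (u • (show Dz (Vpi V) K from z₂) +
      (w * a : ℤ) • (show Dz (Vpi V) K from z₁) : Dz (Vpi V) K) = u • z₂.cl + (w * a : ℤ) • z₁.cl := by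
    change Gp.clsH (Vpi V) K (u • (show Dz (Vpi V) K from z₂) +
      (w * a : ℤ) • (show Dz (Vpi V) K from z₁)) = _
    rw [map_add, map_zsmul, map_zsmul]
    rfl
  rw [e1, e3]
  congr 1
  have e4 : (a : ℤ) • z₁.cl = ((b : ℤ) * u + n * w) • ((a : ℤ) • z₁.cl) := by
    rw [← hg, one_smul]
  have e5 : ((a : ℤ) * b) • z₁.cl = (n : ℤ) • z₂.cl := by
    rw [← Nat.cast_mul, ← hab, natCast_zsmul, natCast_zsmul]
    exact e2
  have e6 : a • z₁.cl = (a : ℤ) • z₁.cl := (natCast_zsmul _ _).symm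
  have e7 : n • (u • z₂.cl + (w * a : ℤ) • z₁.cl) =
      (n : ℤ) • (u • z₂.cl + (w * a : ℤ) • z₁.cl) := (natCast_zsmul _ _).symm
  rw [e6, e7, e4]
  have e8 : ((b : ℤ) * u + n * w) • ((a : ℤ) • z₁.cl) =
      u • (((a : ℤ) * b) • z₁.cl) + (n : ℤ) • ((w * a : ℤ) • z₁.cl) := by
    module
  rw [e8, e5]
  module

end fnp

section loc

variable {F₀ : Type} [Field F₀] [NumberField F₀] {v : HeightOneSpectrum (𝓞 F₀)} {F : Type}
  [Field F] [Algebra F (FK F₀ v)] {ι : Type} [Fintype ι] {C : ι → Crv F}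

/-- Good reduction over an extension of degree prime to `l`. -/
theorem fnP_gq (hC : LcF C) {l : ℕ} (hl : l.Prime) (h : Gq (Iv v) C l) :
    FnP (FK F₀ v) (fun i => (C i).V) l := by
  have hch : CharZero (FK F₀ v) :=
    charZero_of_injective_algebraMap (algebraMap F₀ (FK F₀ v)).injective
  obtain ⟨M, O, hM, hc, hO, hm⟩ := h
  obtain ⟨L₀, h₀⟩ := exists_ldI v
  obtain ⟨L, -, hL⟩ := L₀.exists_bsL M
  have h1 : Iv v = Ok L₀ := SetLike.ext fun x => (h₀ x).symm
  obtain rfl := Gr_uniq L₀ M L hL O (hO.trans h1)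
  have h0 : CharZero M := charZero_of_injective_algebraMap (algebraMap (FK F₀ v) M).injective
  have h2 : IsScalarTower F M (AlgebraicClosure (FK F₀ v)) :=
    IsScalarTower.of_algebraMap_eq fun _ => rfl
  have h3 : IsAlgClosure M (AlgebraicClosure (FK F₀ v)) :=
    ⟨inferInstance, Algebra.IsAlgebraic.tower_top (K := FK F₀ v) M⟩
  by_cases hp : l = L.p
  · subst hp
    exact (fnG_up (fun i => (C i).bp) (fun i => (C i).fct) M hc
      (hC M (AlgebraicClosure (FK F₀ v)) L hm)).fnP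
  · exact (fin_loc hl ⟨M, Ok L, hM, hc, hO, hm, Ok_unit L hl hp⟩).fnP

/-- **The finite form** over the completions of number fields. -/
theorem fdP_gq (hA : LcA C) (hC : LcF C) {Λ : Set ℕ} (h : ∀ l ∈ Λ, l.Prime ∧ Gq (Iv v) C l) :
    FdP (FK F₀ v) (fun i => (C i).V) Λ := by
  rcases Λ.eq_empty_or_nonempty with rfl | ⟨l, hl⟩
  · refine ⟨{(0 : Dz (Vpi fun i => (C i).V) (FK F₀ v))}, Set.finite_singleton _, ?_,
      fun n hn hS z hz => ⟨_, rfl, z, hz, ?_⟩⟩
    · rintro _ rfl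
      exact fnp_zero
    · have hn1 : n = 1 := by
        by_contra h1
        obtain ⟨p, hp, hd⟩ := Nat.exists_prime_and_dvd h1
        exact (hS p hp hd).elim
      have e1 : Zc.cl (V := Vpi fun i => (C i).V) (K := FK F₀ v)
        (0 : Dz (Vpi fun i => (C i).V) (FK F₀ v)) = 0 :=
        map_zero (Gp.clsH (Vpi fun i => (C i).V) (FK F₀ v))
      rw [hn1, one_smul, e1, zero_add]
  · obtain ⟨N, hN, hB⟩ := bdA_pot hA (h l hl).2.prG
    exact fdP_of hN hB fun l hl hp => fnP_gq hC hp (h l hl).2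

end loc

section glob

variable {F : Type} [Field F] [NumberField F] {ι : Type}

omit [NumberField F] in
/-- Divisible groups. -/
theorem fdP_dvP {V : ι → Vr F} {K : Type} [Field K] [Algebra F K] {Λ : Set ℕ}
    (h : ∀ n : ℕ, n ≠ 0 → Sf Λ n → DvP K V n) : ∀ n : ℕ, n ≠ 0 → Sf Λ n →
      ∀ z : Zc (Vpi V) K, AlbP z → ∃ z' : Zc (Vpi V) K, AlbP z' ∧
        z.cl = Zc.cl (V := Vpi V) (K := K) (0 : Dz (Vpi V) K) + n • z'.cl := by
  intro n hn hS z hz
  obtain ⟨z', hz', e⟩ := h n hn hS z hz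
  refine ⟨z', hz', ?_⟩
  have e1 : Zc.cl (V := Vpi V) (K := K) (0 : Dz (Vpi V) K) = 0 := map_zero (Gp.clsH (Vpi V) K)
  rw [e1, zero_add, e]

omit [NumberField F] in
private theorem gfz_cl {W : Vr F} {K : Type} [Field K] [Algebra F K] :
    (Zc.clN (V := W) (K := K) (0 : Dz W K)) = 0 :=
  map_zero (Gb.clsH W K)

omit [NumberField F] in
private theorem gfz_psh {V : ι → Vr F} {K : Type} [Field K] [Algebra F K] (i : ι) :
    (Zc.clN (psh (K := K) i (0 : Dz (Vpi V) K))) = 0 :=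
  map_zero ((Gb.clsH (V i) K).comp ((pr i).dz K))

/-- Families. -/
theorem fam_fdP {V : ι → Vr F} {Λ : Set ℕ} (h2 : 2 ∉ Λ)
    (hf : {v : HeightOneSpectrum (𝓞 F) | ¬ ∀ m : ℕ, m ≠ 0 → DvP (FK F v) V m}.Finite)
    (h : ∀ v : HeightOneSpectrum (𝓞 F), FdP (FK F v) V Λ) :
    ∃ E : Set (Fam (Vpi V)), E.Finite ∧ (∀ e ∈ E, AlbPA e) ∧
      ∀ n : ℕ, n ≠ 0 → Sf Λ n → ∀ c : Fam (Vpi V), AlbPA c →
        ∃ e ∈ E, ∃ c' : Fam (Vpi V), AlbPA c' ∧ c.cl = e.cl + n • c'.cl := by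
  classical
  choose E hE h0 h1 using h
  set S : Set (HeightOneSpectrum (𝓞 F)) := {v | ¬ ∀ m : ℕ, m ≠ 0 → DvP (FK F v) V m} with hS
  have hfin : Finite S := hf
  let ex : (∀ v : S, Zc (Vpi V) (FK F v.1)) → Fam (Vpi V) := fun g =>
    (fun v => if hv : v ∈ S then g ⟨v, hv⟩ else (0 : Dz (Vpi V) (FK F v)),
      fun v => (0 : Dz (Vpi V) (IK F v)))
  have hpos : ∀ g v (hv : v ∈ S), (ex g).f v = g ⟨v, hv⟩ := fun g v hv => dif_pos hv
  have hneg : ∀ g v (_ : v ∉ S), (ex g).f v = (0 : Dz (Vpi V) (FK F v)) := fun g v hv =>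
    dif_neg hv
  refine ⟨ex '' Set.pi Set.univ (fun v : S => E v.1),
    (Set.Finite.pi fun v : S => hE v.1).image _, ?_, fun n hn hSn c hc => ?_⟩
  · rintro _ ⟨g, hg, rfl⟩
    intro i
    refine Prod.ext (funext fun v => ?_) (funext fun v => gfz_psh i)
    change (psh i ((ex g).f v)).cl = 0
    by_cases hv : v ∈ S
    · rw [hpos g v hv]
      exact h0 v _ (hg ⟨v, hv⟩ (Set.mem_univ _)) i
    · rw [hneg g v hv]
      exact fnp_zero i
  · have h3 : ∀ v, AlbP (c.f v) := fun v i => congrFun (congrArg Prod.fst (hc i)) v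
    have h4 : ∀ v i, (psh i (c.i v)).clN = 0 := fun v i =>
      congrFun (congrArg Prod.snd (hc i)) v
    have key : ∀ v, ∃ e : Zc (Vpi V) (FK F v), (v ∈ S → e ∈ E v) ∧
        (v ∉ S → e = (0 : Dz (Vpi V) (FK F v))) ∧
        ∃ z' : Zc (Vpi V) (FK F v), AlbP z' ∧ (c.f v).cl = e.cl + n • z'.cl := by
      intro v
      by_cases hv : v ∈ S
      · obtain ⟨e, he, z', hz', e1⟩ := h1 v n hn hSn (c.f v) (h3 v)
        exact ⟨e, fun _ => he, fun h => absurd hv h, z', hz', e1⟩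
      · have hv' : ∀ m : ℕ, m ≠ 0 → DvP (FK F v) V m := by
          rw [hS, Set.mem_ofPred_eq, not_not] at hv
          exact hv
        obtain ⟨z', hz', e1⟩ := fdP_dvP (fun m hm _ => hv' m hm) n hn hSn (c.f v) (h3 v)
        exact ⟨_, fun h => absurd h hv, fun _ => rfl, z', hz', e1⟩
    choose e he1 he0 z' hz' hcl using key
    refine ⟨_, ⟨fun v => e v.1, fun v _ => he1 v.1 v.2, rfl⟩, (z', c.i),
      fun i => Prod.ext (funext fun v => hz' v i) (funext fun v => h4 v i), ?_⟩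
    have hef : ∀ v, (ex fun v => e v.1).f v = e v := by
      intro v
      by_cases hv : v ∈ S
      · exact hpos (fun v : S => e v.1) v hv
      · exact (hneg (fun v : S => e v.1) v hv).trans (he0 v hv).symm
    refine Prod.ext (funext fun v => ?_) (funext fun v => ?_)
    · change (c.f v).cl = ((ex fun v => e v.1).f v).cl + n • (z' v).cl
      rw [hef v]
      exact hcl v
    · change (c.i v).clN = Zc.clN (V := Vpi V) (K := IK F v) (0 : Dz (Vpi V) (IK F v)) +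
        n • (c.i v).clN
      have h5 : Odd n := by
        rw [← Nat.not_even_iff_odd, even_iff_two_dvd]
        exact fun h' => h2 (hSn 2 Nat.prime_two h')
      obtain ⟨k, rfl⟩ := h5
      rw [gfz_cl, zero_add, add_smul, one_smul, mul_smul, smul_comm, clN_two, smul_zero, zero_add]

variable [Fintype ι] {V : ι → Vr F} (o : ∀ i, Bp (V i))

omit [NumberField F] in
private theorem gf_rep {G : Type} [AddCommGroup G] {x : LHat G} {m m' : ℕ+} (h : m ∣ m') {a : G}
    (ha : x.Rep m' a) : x.Rep m a := x.2 m m' h a ha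

include o in
/-- The finite form of the completed statement. -/
theorem imDeS_fd {Λ : Set ℕ} {E : Set (Fam (Vpi V))} (hE : E.Finite)
    (hd : ∀ n : ℕ, n ≠ 0 → Sf Λ n → ∀ c : Fam (Vpi V), AlbPA c →
      ∃ e ∈ E, ∃ c' : Fam (Vpi V), c.cl = e.cl + n • c'.cl)
    {z : LHat (FA (Vpi V))} {z' : ∀ i, LHat (FA (V i))} (h : ∀ i, IsPs i z (z' i))
    (h' : ∀ i, ImDeS Λ (z' i)) : ∃ e ∈ E, ImDeS Λ (LHat.tr z (-e.cl)) := by
  classical
  choose x hx using h'
  set x0 : LHat (Gp (Vpi V) F) := lsum fun i => LHat.map ((sc o i).gp F) (x i) with hx0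
  have key : ∀ m : ℕ+, Sf Λ m → ∃ e ∈ E, ∃ (c : Zc (Vpi V) F) (c' : Fam (Vpi V)), IsBcF c c' ∧
      x0.Rep m c.cl ∧ (LHat.tr z (-e.cl)).Rep m c'.cl := by
    intro m hm
    obtain ⟨a, ha⟩ := z.exists_rep m
    obtain ⟨c, rfl⟩ := clA_surj a
    choose b b' hb hr hs using fun i => hx i m hm
    choose w hw using fun i => rep_sub (hs i) (h i m c ha)
    obtain ⟨e, he, c', hc'⟩ := hd (m : ℕ) m.ne_zero hm _ (albPA_piA o c)
    have hbc : IsBcF (V := Vpi V) (∑ i, (sc o i).dz F (b i) : Dz (Vpi V) F)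
        (∑ i, (sc o i).ad (b' i) : AdF (Vpi V)) := isBcF_sum _ fun i _ => (sc o i).isBcF (hb i)
    refine ⟨e, he, _, _, hbc, ?_, ?_⟩
    · have e0 := rep_lsum fun i => (hr i).map ((sc o i).gp F)
      have e1 : ∑ i, (sc o i).gp F (b i).cl =
          Gp.clsH (Vpi V) F (∑ i, (sc o i).dz F (b i) : Dz (Vpi V) F) := by
        rw [map_sum]
        rfl
      rw [e1] at e0
      exact e0
    · have e0 : clH (Vpi V) (piA o c) = e.cl + (m : ℕ) • clH (Vpi V) c' := hc'
      have e1 : ∀ i, clH (Vpi V) ((sc o i).ad (b' i)) =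
          clH (Vpi V) ((sc o i).ad ((pr i).ad c)) + (m : ℕ) • (sc o i).fa (w i) := by
        intro i
        rw [← Mo.fa_cl, ← Mo.fa_cl, ← map_nsmul, ← map_add]
        exact congrArg (sc o i).fa (hw i)
      have e4 : clH (Vpi V) (∑ i, (sc o i).ad ((pr i).ad c)) =
          clH (Vpi V) c - clH (Vpi V) (piA o c) := by
        rw [piA_apply, map_sub]
        abel
      have e2 : clH (Vpi V) (∑ i, (sc o i).ad (b' i) : AdF (Vpi V)) =
          (clH (Vpi V) c + -e.cl) + (m : ℕ) • (∑ i, (sc o i).fa (w i) - clH (Vpi V) c') := by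
        rw [map_sum, Finset.sum_congr rfl fun i _ => e1 i, Finset.sum_add_distrib, ← map_sum, e4,
          e0, ← Finset.smul_sum, smul_sub]
        abel
      have e6 : (LHat.tr z (-e.cl)).Rep m
          (clH (Vpi V) (∑ i, (sc o i).ad (b' i) : AdF (Vpi V))) := by
        rw [e2]
        exact rep_add (rep_tr ha (-e.cl)) _
      exact e6
  by_contra hcon
  have h1 : ∀ e ∈ E, ∃ m : ℕ+, Sf Λ m ∧ ¬ ∃ (c : Zc (Vpi V) F) (c' : Fam (Vpi V)), IsBcF c c' ∧
      x0.Rep m c.cl ∧ (LHat.tr z (-e.cl)).Rep m c'.cl := by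
    intro e he
    by_contra h2
    push Not at h2
    refine hcon ⟨e, he, x0, fun m hm => ?_⟩
    obtain ⟨c, c', h3, h4, h5⟩ := h2 m hm
    exact ⟨c, c', h3, h4, h5⟩
  choose! m hmS hm using h1
  obtain ⟨e, he, c, c', h3, h4, h5⟩ := key (∏ e ∈ hE.toFinset, m e) (by
    intro l hl hd
    have e0 : ((∏ e ∈ hE.toFinset, m e : ℕ+) : ℕ) = ∏ e ∈ hE.toFinset, (m e : ℕ) :=
      map_prod PNat.coeMonoidHom _ _
    rw [e0] at hd
    obtain ⟨e, he, hd'⟩ := (Prime.dvd_finsetProd_iff hl.prime _).1 hd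
    exact hmS e (hE.mem_toFinset.1 he) l hl hd')
  have hdv : m e ∣ ∏ e ∈ hE.toFinset, m e :=
    Finset.dvd_prod_of_mem m (hE.mem_toFinset.2 he)
  exact hm e he ⟨c, c', h3, gf_rep hdv h4, gf_rep hdv h5⟩

omit [Fintype ι] in
/-- Translation by a family in the Albanese kernel does not change the push-forwards. -/
theorem isPs_tr {i : ι} {z : LHat (FA (Vpi V))} {z' : LHat (FA (V i))} (h : IsPs i z z')
    {e : Fam (Vpi V)} (he : AlbPA e) : IsPs i (LHat.tr z (-e.cl)) z' := by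
  intro m c hc
  have h1 : z.Rep m (c.cl + e.cl) := by
    have h2 := rep_tr hc e.cl
    have h3 : LHat.tr (LHat.tr z (-e.cl)) e.cl = z := by
      refine Subtype.ext (funext fun m => ?_)
      change z.1 m + QuotientAddGroup.mk (-e.cl) + QuotientAddGroup.mk e.cl = z.1 m
      rw [add_assoc, ← QuotientAddGroup.mk_add, neg_add_cancel, QuotientAddGroup.mk_zero, add_zero]
    rwa [h3] at h2
  have h4 : c.cl + e.cl = Fam.cl (V := Vpi V) ((show AdF (Vpi V) from c) + (show AdF (Vpi V) from e) :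
      AdF (Vpi V)) := (map_add (clH (Vpi V)) (show AdF (Vpi V) from c) e).symm
  rw [h4] at h1
  have h5 := h m _ h1
  have h6 : (pshA i ((show AdF (Vpi V) from c) + (show AdF (Vpi V) from e) : AdF (Vpi V))).cl =
      (pshA i c).cl + (pshA i e).cl :=
    (congrArg (clH (V i)) (map_add (pr i).ad (show AdF (Vpi V) from c) e)).trans
      (map_add (clH (V i)) _ _)
  rw [h6, he i, add_zero] at h5
  exact h5

include o in
/-- **The global theorem**, finite form. -/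
theorem fdP_glob {Λ : Set ℕ} (h2 : 2 ∉ Λ)
    (hf : {v : HeightOneSpectrum (𝓞 F) | ¬ ∀ m : ℕ, m ≠ 0 → DvP (FK F v) V m}.Finite)
    (h : ∀ v : HeightOneSpectrum (𝓞 F), FdP (FK F v) V Λ) :
    ∃ E : Set (Fam (Vpi V)), E.Finite ∧ (∀ e ∈ E, AlbPA e) ∧
      (∀ n : ℕ, n ≠ 0 → Sf Λ n → ∀ c : Fam (Vpi V), AlbPA c →
        ∃ e ∈ E, ∃ c' : Fam (Vpi V), AlbPA c' ∧ c.cl = e.cl + n • c'.cl) ∧
      ∀ (z : LHat (FA (Vpi V))) (z' : ∀ i, LHat (FA (V i))), (∀ i, IsPs i z (z' i)) →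
        ((∀ i, ImDeS Λ (z' i)) ↔ ∃ e ∈ E, ImDeS Λ (LHat.tr z (-e.cl))) := by
  obtain ⟨E, hE, h0, h1⟩ := fam_fdP h2 hf h
  refine ⟨E, hE, h0, h1, fun z z' hz => ⟨fun hi => imDeS_fd o hE (fun n hn hS c hc => ?_) hz hi,
    fun ⟨e, he, hi⟩ i => imDeS_psh i (isPs_tr (hz i) (h0 e he)) hi⟩⟩
  obtain ⟨e, he, c', -, hc'⟩ := h1 n hn hS c hc
  exact ⟨e, he, c', hc'⟩

end glob

end CV
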