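import Pool.Agent.Lib.MP_f80667_ag.Cv.GlbE
import Pool.Agent.Lib.MP_f80667_ag.Cv.FbD

/-!
Products of curves: the bounded and the finite form in one statement.

* `FbP K V Λ`: there are a number `N ≠ 0` prime to the `l ∈ Λ` and a finite subset `E` of the Albanese kernel `T` with
  `N T ⊆ E + n T` for all `n ≠ 0`.
* `fbP_pot`: potentially good reduction. `fbP_glob`: number fields.
-/

open ZC BE PE Polynomial IntermediateField IsDedekindDomain NumberField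

namespace CV

section def_

variable {F : Type} [Field F] {ι : Type}
variable {V : ι → Vr F} {K : Type} [Field K] [Algebra F K]

theorem FbP.mono {Λ Λ' : Set ℕ} (h : Λ' ⊆ Λ) (h' : FbP K V Λ) : FbP K V Λ' := by
  obtain ⟨N, hN, hl, hE⟩ := h'
  exact ⟨N, hN, fun l hl' => hl l (h hl'), hE⟩

private theorem gfb_smul {z : Dz (Vpi V) K} (h : AlbP (K := K) z) (a : ℕ) :
    AlbP (K := K) (a • z : Dz (Vpi V) K) := by
  intro i
  change Gp.clsH (V i) K ((pr i).dz K (a • z)) = 0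
  rw [map_nsmul, map_nsmul]
  have e : Gp.clsH (V i) K ((pr i).dz K z) = 0 := h i
  rw [e, smul_zero]

private theorem gfb_zero : AlbP (K := K) (0 : Dz (Vpi V) K) := by
  intro i
  change Gp.clsH (V i) K ((pr i).dz K 0) = 0
  rw [map_zero, map_zero]

/-- The part of a number at a set of numbers. -/
private theorem gfb_part (Λ : Set ℕ) {N : ℕ} (hN : N ≠ 0) :
    ∃ a b : ℕ, N = a * b ∧ a ≠ 0 ∧ b ≠ 0 ∧ Sf Λ a ∧ ∀ l ∈ Λ, l.Prime → ¬ l ∣ b := by
  induction N using induction_on_primes with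
  | zero => exact absurd rfl hN
  | one => exact ⟨1, 1, rfl, one_ne_zero, one_ne_zero,
      fun l hl hd => absurd (Nat.dvd_one.1 hd) hl.one_lt.ne',
      fun l _ hl hd => absurd (Nat.dvd_one.1 hd) hl.one_lt.ne'⟩
  | prime_mul p m hp ih =>
    obtain ⟨a, b, e, ha, hb, hS, hc⟩ := ih (right_ne_zero_of_mul hN)
    by_cases hpΛ : p ∈ Λ
    · refine ⟨p * a, b, by rw [e, mul_assoc], mul_ne_zero hp.ne_zero ha, hb,
        fun l hl hd => ?_, hc⟩
      rcases (Nat.Prime.dvd_mul hl).1 hd with h | h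
      · rw [(Nat.prime_dvd_prime_iff_eq hl hp).1 h]
        exact hpΛ
      · exact hS l hl h
    · refine ⟨a, p * b, by rw [e]; ring, ha, mul_ne_zero hp.ne_zero hb, hS,
        fun l hl hlp hd => ?_⟩
      rcases (Nat.Prime.dvd_mul hlp).1 hd with h | h
      · exact hpΛ ((Nat.prime_dvd_prime_iff_eq hlp hp).1 h ▸ hl)
      · exact hc l hl hlp h

/-- Bounded, and finite modulo the prime numbers in `Λ`. -/
theorem fbP_of {Λ : Set ℕ} (hΛ : ∀ l ∈ Λ, l.Prime) {N : ℕ} (hN : N ≠ 0)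
    (hB : ∀ n : ℕ, n ≠ 0 → BdP K V N n) (h : ∀ l ∈ Λ, FnP K V l) : FbP K V Λ := by
  obtain ⟨a, b, hab, ha, hb, hS, hc⟩ := gfb_part Λ hN
  obtain ⟨E, hE, h0, h1⟩ := fnP_of (fun l hl _ => h l hl) a ha hS
  refine ⟨b, hb, fun l hl => hc l hl (hΛ l hl),
    (fun e : Dz (Vpi V) K => (b • e : Dz (Vpi V) K)) '' E, hE.image _, ?_, fun n hn z hz => ?_⟩
  · rintro _ ⟨e, he, rfl⟩
    exact gfb_smul (h0 e he) b
  · obtain ⟨e, he, z₁, hz₁, e1⟩ := h1 z hz
    obtain ⟨z₂, hz₂, e2⟩ := hB n hn z₁ hz₁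
    refine ⟨_, ⟨e, he, rfl⟩, z₂, hz₂, ?_⟩
    have e3 : Zc.cl (V := Vpi V) (K := K) (b • (show Dz (Vpi V) K from e) : Dz (Vpi V) K) =
        b • e.cl := map_nsmul (Gp.clsH (Vpi V) K) b (show Dz (Vpi V) K from e)
    have e4 : b • a • z₁.cl = N • z₁.cl := by
      rw [← mul_smul, hab, mul_comm b a]
    change b • z.cl =
      Zc.cl (V := Vpi V) (K := K) (b • (show Dz (Vpi V) K from e) : Dz (Vpi V) K) + n • z₂.cl
    rw [e1, smul_add, e4, e2, e3]

end def_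

section loc

variable {F₀ : Type} [Field F₀] [NumberField F₀] {v : HeightOneSpectrum (𝓞 F₀)} {F : Type}
  [Field F] [Algebra F (FK F₀ v)] {ι : Type} [Fintype ι] {C : ι → Crv F}

/-- **Potentially good reduction** over the completions of number fields. -/
theorem fbP_pot (hA : LcA C) (hC : LcF C) (h : PrG (Iv v) C) :
    FbP (FK F₀ v) (fun i => (C i).V) {l | l.Prime ∧ Gq (Iv v) C l} := by
  obtain ⟨N, hN, hB⟩ := bdA_pot hA h
  exact fbP_of (fun l hl => hl.1) hN hB fun l hl => fnP_gq hC hl.1 hl.2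

end loc

section glob

variable {F : Type} [Field F] [NumberField F] {ι : Type}

omit [NumberField F] in
private theorem gfb_cl {W : Vr F} {K : Type} [Field K] [Algebra F K] :
    (Zc.clN (V := W) (K := K) (0 : Dz W K)) = 0 :=
  map_zero (Gb.clsH W K)

omit [NumberField F] in
private theorem gfb_psh {V : ι → Vr F} {K : Type} [Field K] [Algebra F K] (i : ι) :
    (Zc.clN (psh (K := K) i (0 : Dz (Vpi V) K))) = 0 :=
  map_zero ((Gb.clsH (V i) K).comp ((pr i).dz K))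

/-- Families. -/
theorem fam_fbP {V : ι → Vr F} {Λ : Set ℕ} (hΛ : ∀ l ∈ Λ, l.Prime ∧ l ≠ 2)
    (hf : {v : HeightOneSpectrum (𝓞 F) | ¬ ∀ m : ℕ, m ≠ 0 → DvP (FK F v) V m}.Finite)
    (h : ∀ v : HeightOneSpectrum (𝓞 F), FbP (FK F v) V Λ) :
    ∃ N : ℕ, N ≠ 0 ∧ (∀ l ∈ Λ, ¬ l ∣ N) ∧
      ∃ E : Set (Fam (Vpi V)), E.Finite ∧ (∀ e ∈ E, AlbPA e) ∧
        ∀ n : ℕ, n ≠ 0 → ∀ c : Fam (Vpi V), AlbPA c →
          ∃ e ∈ E, ∃ c' : Fam (Vpi V), AlbPA c' ∧ N • c.cl = e.cl + n • c'.cl := by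
  classical
  choose N₀ hN₀ hl₀ E hE h0 h1 using h
  set S : Set (HeightOneSpectrum (𝓞 F)) := {v | ¬ ∀ m : ℕ, m ≠ 0 → DvP (FK F v) V m} with hS
  have hfin : Finite S := hf
  obtain ⟨P, hP⟩ : ∃ P : ℕ, P = ∏ v ∈ hf.toFinset, N₀ v := ⟨_, rfl⟩
  have hP0 : P ≠ 0 := by
    rw [hP]
    exact Finset.prod_ne_zero_iff.2 fun v _ => hN₀ v
  have hPv : ∀ v ∈ S, ∃ k, P = k * N₀ v := by
    intro v hv
    obtain ⟨k, hk⟩ := Finset.dvd_prod_of_mem N₀ (hf.mem_toFinset.2 hv)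
    exact ⟨k, by rw [hP, hk, mul_comm]⟩
  choose! k hk using hPv
  have hPl : ∀ l ∈ Λ, ¬ l ∣ P := by
    intro l hl hd
    rw [hP] at hd
    obtain ⟨v, -, hv⟩ := (Prime.dvd_finsetProd_iff (hΛ l hl).1.prime _).1 hd
    exact hl₀ v l hl hv
  let ex : (∀ v : S, Zc (Vpi V) (FK F v.1)) → Fam (Vpi V) := fun g =>
    (fun v => if hv : v ∈ S then (2 * k v) • (show Dz (Vpi V) (FK F v) from g ⟨v, hv⟩) else
      (0 : Dz (Vpi V) (FK F v)), fun v => (0 : Dz (Vpi V) (IK F v)))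
  have hpos : ∀ g v (hv : v ∈ S),
      (ex g).f v = ((2 * k v) • (show Dz (Vpi V) (FK F v) from g ⟨v, hv⟩) :
        Dz (Vpi V) (FK F v)) := fun g v hv => dif_pos hv
  have hneg : ∀ g v (_ : v ∉ S), (ex g).f v = (0 : Dz (Vpi V) (FK F v)) := fun g v hv =>
    dif_neg hv
  refine ⟨2 * P, mul_ne_zero two_ne_zero hP0, fun l hl hd => ?_,
    ex '' Set.pi Set.univ (fun v : S => E v.1),
    (Set.Finite.pi fun v : S => hE v.1).image _, ?_, fun n hn c hc => ?_⟩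
  · rcases (Nat.Prime.dvd_mul (hΛ l hl).1).1 hd with h2 | h2
    · exact (hΛ l hl).2 ((Nat.prime_dvd_prime_iff_eq (hΛ l hl).1 Nat.prime_two).1 h2)
    · exact hPl l hl h2
  · rintro _ ⟨g, hg, rfl⟩
    intro i
    refine Prod.ext (funext fun v => ?_) (funext fun v => gfb_psh i)
    change (psh i ((ex g).f v)).cl = 0
    by_cases hv : v ∈ S
    · rw [hpos g v hv]
      exact gfb_smul (h0 v _ (hg ⟨v, hv⟩ (Set.mem_univ _))) _ i
    · rw [hneg g v hv]
      exact gfb_zero i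
  · have h3 : ∀ v, AlbP (c.f v) := fun v i => congrFun (congrArg Prod.fst (hc i)) v
    have key : ∀ v, ∃ e : Zc (Vpi V) (FK F v), (v ∈ S → e ∈ E v) ∧
        ∃ z' : Zc (Vpi V) (FK F v), AlbP z' ∧
          (v ∈ S → (2 * P) • (c.f v).cl = (2 * k v) • e.cl + n • z'.cl) ∧
          (v ∉ S → (2 * P) • (c.f v).cl = n • z'.cl) := by
      intro v
      by_cases hv : v ∈ S
      · obtain ⟨e, he, z', hz', e1⟩ := h1 v n hn (c.f v) (h3 v)
        refine ⟨e, fun _ => he, ((2 * k v) • (show Dz (Vpi V) (FK F v) from z') :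
          Dz (Vpi V) (FK F v)), gfb_smul hz' _, fun _ => ?_, fun h => absurd hv h⟩
        have e3 : Zc.cl (V := Vpi V) (K := FK F v)
            ((2 * k v) • (show Dz (Vpi V) (FK F v) from z') : Dz (Vpi V) (FK F v)) =
            (2 * k v) • z'.cl :=
          map_nsmul (Gp.clsH (Vpi V) (FK F v)) (2 * k v) (show Dz (Vpi V) (FK F v) from z')
        have e4 : (2 * P) • (c.f v).cl = (2 * k v) • N₀ v • (c.f v).cl := by
          rw [← mul_smul, mul_assoc, ← hk v hv]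
        rw [e3, e4, e1, smul_add, smul_comm (2 * k v) n]
      · have hv' : ∀ m : ℕ, m ≠ 0 → DvP (FK F v) V m := by
          rw [hS, Set.mem_ofPred_eq, not_not] at hv
          exact hv
        obtain ⟨z', hz', e1⟩ := (hv' n hn).bdP (N := 2 * P) (c.f v) (h3 v)
        exact ⟨(0 : Dz (Vpi V) (FK F v)), fun h => absurd h hv, z', hz',
          fun h => absurd h hv, fun _ => e1⟩
    choose e he1 z' hz' hcl hcl' using key
    refine ⟨_, ⟨fun v => e v.1, fun v _ => he1 v.1 v.2, rfl⟩,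
      (z', fun v => (0 : Dz (Vpi V) (IK F v))),
      fun i => Prod.ext (funext fun v => hz' v i) (funext fun v => gfb_psh i), ?_⟩
    refine Prod.ext (funext fun v => ?_) (funext fun v => ?_)
    · change (2 * P) • (c.f v).cl = ((ex fun v => e v.1).f v).cl + n • (z' v).cl
      by_cases hv : v ∈ S
      · have e5 : (ex fun v => e v.1).f v = ((2 * k v) • (show Dz (Vpi V) (FK F v) from e v) :
            Dz (Vpi V) (FK F v)) := hpos (fun v : S => e v.1) v hv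
        have e6 : Zc.cl (V := Vpi V) (K := FK F v)
            ((2 * k v) • (show Dz (Vpi V) (FK F v) from e v) : Dz (Vpi V) (FK F v)) =
            (2 * k v) • (e v).cl :=
          map_nsmul (Gp.clsH (Vpi V) (FK F v)) (2 * k v) (show Dz (Vpi V) (FK F v) from e v)
        rw [e5, e6]
        exact hcl v hv
      · have e5 : (ex fun v => e v.1).f v = (0 : Dz (Vpi V) (FK F v)) :=
          hneg (fun v : S => e v.1) v hv
        have e6 : Zc.cl (V := Vpi V) (K := FK F v) (0 : Dz (Vpi V) (FK F v)) = 0 :=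
          map_zero (Gp.clsH (Vpi V) (FK F v))
        rw [e5, e6, zero_add]
        exact hcl' v hv
    · change (2 * P) • (c.i v).clN = Zc.clN (V := Vpi V) (K := IK F v) (0 : Dz (Vpi V) (IK F v)) +
        n • Zc.clN (V := Vpi V) (K := IK F v) (0 : Dz (Vpi V) (IK F v))
      rw [gfb_cl, smul_zero, add_zero, mul_comm, mul_smul, clN_two, smul_zero]

variable [Fintype ι] {V : ι → Vr F} (o : ∀ i, Bp (V i))

omit [NumberField F] in
private theorem gfb_rep {G : Type} [AddCommGroup G] {x : LHat G} {m m' : ℕ+} (h : m ∣ m') {a : G}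
    (ha : x.Rep m' a) : x.Rep m a := x.2 m m' h a ha

include o in
/-- The completed statement. -/
theorem imDeS_fb {Λ : Set ℕ} {N : ℕ} {E : Set (Fam (Vpi V))} (hE : E.Finite)
    (hd : ∀ n : ℕ, n ≠ 0 → Sf Λ n → ∀ c : Fam (Vpi V), AlbPA c →
      ∃ e ∈ E, ∃ c' : Fam (Vpi V), N • c.cl = e.cl + n • c'.cl)
    {z : LHat (FA (Vpi V))} {z' : ∀ i, LHat (FA (V i))} (h : ∀ i, IsPs i z (z' i))
    (h' : ∀ i, ImDeS Λ (z' i)) : ∃ e ∈ E, ImDeS Λ (LHat.tr (nML N z) (-e.cl)) := by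
  classical
  choose x hx using h'
  set x0 : LHat (Gp (Vpi V) F) := nML N (lsum fun i => LHat.map ((sc o i).gp F) (x i)) with hx0
  have key : ∀ m : ℕ+, Sf Λ m → ∃ e ∈ E, ∃ (c : Zc (Vpi V) F) (c' : Fam (Vpi V)), IsBcF c c' ∧
      x0.Rep m c.cl ∧ (LHat.tr (nML N z) (-e.cl)).Rep m c'.cl := by
    intro m hm
    obtain ⟨a, ha⟩ := z.exists_rep m
    obtain ⟨c, rfl⟩ := clA_surj a
    choose b b' hb hr hs using fun i => hx i m hm
    choose w hw using fun i => rep_sub (hs i) (h i m c ha)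
    obtain ⟨e, he, c', hc'⟩ := hd (m : ℕ) m.ne_zero hm _ (albPA_piA o c)
    have hbc : IsBcF (V := Vpi V) (∑ i, (sc o i).dz F (b i) : Dz (Vpi V) F)
        (∑ i, (sc o i).ad (b' i) : AdF (Vpi V)) := isBcF_sum _ fun i _ => (sc o i).isBcF (hb i)
    have hbN : IsBcF (V := Vpi V)
        (∑ _k ∈ Finset.range N, (∑ i, (sc o i).dz F (b i) : Dz (Vpi V) F) : Dz (Vpi V) F)
        (∑ _k ∈ Finset.range N, (∑ i, (sc o i).ad (b' i) : AdF (Vpi V)) : AdF (Vpi V)) :=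
      isBcF_sum _ fun _ _ => hbc
    refine ⟨e, he, _, _, hbN, ?_, ?_⟩
    · have e0 := rep_lsum fun i => (hr i).map ((sc o i).gp F)
      have e1 : ∑ i, (sc o i).gp F (b i).cl =
          Gp.clsH (Vpi V) F (∑ i, (sc o i).dz F (b i) : Dz (Vpi V) F) := by
        rw [map_sum]
        rfl
      rw [e1] at e0
      have e2 := nML_rep N e0
      have e3 : N • Gp.clsH (Vpi V) F (∑ i, (sc o i).dz F (b i) : Dz (Vpi V) F) =
          Gp.clsH (Vpi V) F
            (∑ _k ∈ Finset.range N, (∑ i, (sc o i).dz F (b i) : Dz (Vpi V) F)) := by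
        rw [Finset.sum_const, Finset.card_range, map_nsmul]
      rw [e3] at e2
      exact e2
    · have e0 : N • clH (Vpi V) (piA o c) = e.cl + (m : ℕ) • clH (Vpi V) c' := hc'
      have e1 : ∀ i, clH (Vpi V) ((sc o i).ad (b' i)) =
          clH (Vpi V) ((sc o i).ad ((pr i).ad c)) + (m : ℕ) • (sc o i).fa (w i) := by
        intro i
        rw [← Mo.fa_cl, ← Mo.fa_cl, ← map_nsmul, ← map_add]
        exact congrArg (sc o i).fa (hw i)
      have e4 : N • clH (Vpi V) (∑ i, (sc o i).ad ((pr i).ad c)) =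
          N • clH (Vpi V) c - N • clH (Vpi V) (piA o c) := by
        rw [← smul_sub, piA_apply, map_sub]
        congr 1
        abel
      have e2 : clH (Vpi V) (∑ _k ∈ Finset.range N, (∑ i, (sc o i).ad (b' i) : AdF (Vpi V))) =
          (N • clH (Vpi V) c + -e.cl) +
            (m : ℕ) • (N • ∑ i, (sc o i).fa (w i) - clH (Vpi V) c') := by
        rw [Finset.sum_const, Finset.card_range, map_nsmul, map_sum,
          Finset.sum_congr rfl fun i _ => e1 i, Finset.sum_add_distrib, ← map_sum, smul_add, e4,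
          e0, ← Finset.smul_sum, smul_sub, smul_comm N (m : ℕ)]
        abel
      have e6 : (LHat.tr (nML N z) (-e.cl)).Rep m
          (clH (Vpi V) (∑ _k ∈ Finset.range N, (∑ i, (sc o i).ad (b' i) : AdF (Vpi V)))) := by
        rw [e2]
        exact rep_add (rep_tr (nML_rep N ha) (-e.cl)) _
      exact e6
  by_contra hcon
  have h1 : ∀ e ∈ E, ∃ m : ℕ+, Sf Λ m ∧ ¬ ∃ (c : Zc (Vpi V) F) (c' : Fam (Vpi V)), IsBcF c c' ∧
      x0.Rep m c.cl ∧ (LHat.tr (nML N z) (-e.cl)).Rep m c'.cl := by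
    intro e he
    by_contra h2
    push Not at h2
    refine hcon ⟨e, he, x0, fun m hm => ?_⟩
    obtain ⟨c, c', h3, h4, h5⟩ := h2 m hm
    exact ⟨c, c', h3, h4, h5⟩
  choose! m hmS hm using h1
  obtain ⟨e, he, c, c', h3, h4, h5⟩ := key (∏ e ∈ hE.toFinset, m e) (by
    intro l hl hd
    have e0 : ((∏ e ∈ hE.toFinset, m e : ℕ+) : ℕ) = ∏ e ∈ hE.toFinset, (m e : ℕ) :=
      map_prod PNat.coeMonoidHom _ _
    rw [e0] at hd
    obtain ⟨e, he, hd'⟩ := (Prime.dvd_finsetProd_iff hl.prime _).1 hd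
    exact hmS e (hE.mem_toFinset.1 he) l hl hd')
  have hdv : m e ∣ ∏ e ∈ hE.toFinset, m e :=
    Finset.dvd_prod_of_mem m (hE.mem_toFinset.2 he)
  exact hm e he ⟨c, c', h3, gfb_rep hdv h4, gfb_rep hdv h5⟩

include o in
/-- **The global theorem.** -/
theorem fbP_glob {Λ : Set ℕ} (hΛ : ∀ l ∈ Λ, l.Prime ∧ l ≠ 2)
    (hf : {v : HeightOneSpectrum (𝓞 F) | ¬ ∀ m : ℕ, m ≠ 0 → DvP (FK F v) V m}.Finite)
    (h : ∀ v : HeightOneSpectrum (𝓞 F), FbP (FK F v) V Λ) :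
    ∃ N : ℕ, N ≠ 0 ∧ (∀ l ∈ Λ, ¬ l ∣ N) ∧
      ∃ E : Set (Fam (Vpi V)), E.Finite ∧ (∀ e ∈ E, AlbPA e) ∧
        (∀ n : ℕ, n ≠ 0 → ∀ c : Fam (Vpi V), AlbPA c →
          ∃ e ∈ E, ∃ c' : Fam (Vpi V), AlbPA c' ∧ N • c.cl = e.cl + n • c'.cl) ∧
        ∀ (Λ' : Set ℕ) (z : LHat (FA (Vpi V))) (z' : ∀ i, LHat (FA (V i))),
          (∀ i, IsPs i z (z' i)) → (∀ i, ImDeS Λ' (z' i)) →
            ∃ e ∈ E, ImDeS Λ' (LHat.tr (nML N z) (-e.cl)) := by
  obtain ⟨N, hN, hl, E, hE, h0, h1⟩ := fam_fbP hΛ hf h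
  refine ⟨N, hN, hl, E, hE, h0, h1, fun Λ' z z' hz hi =>
    imDeS_fb o hE (fun n hn hS c hc => ?_) hz hi⟩
  obtain ⟨e, he, c', -, hc'⟩ := h1 n hn c hc
  exact ⟨e, he, c', hc'⟩

end glob

end CV
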