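import Pool.Agent.Lib.MP_f80667_ag.Cv.Pi
import Pool.Agent.Lib.MP_f80667_ag.Pe.GlE

/-!
The completed statement for a product of varieties over a number field.

* `pshA i`: the push-forward of families to the factor `i`, `IsPs i z z'`: `z'` is the push-forward of `z`.
* `AlbPA z`: the family `z` is in the Albanese kernel at all places.
* `imDeS_iff`: if the classes of the families in the Albanese kernel are divisible by the numbers with all prime factors
  in `Λ`, then the components of `z` at `Λ` are in the image of `Δ` if and only if this holds for the push-forwards of `z`.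
-/

open ZC BE PE Polynomial IntermediateField IsDedekindDomain NumberField

namespace CV

variable {F : Type} [Field F] [NumberField F] {ι : Type} {V : ι → Vr F}

/-- The push-forward of families to a factor. -/
noncomputable def pshA (i : ι) (z : Fam (Vpi V)) : Fam (V i) :=
  (fun v => psh i (z.f v), fun v => psh i (z.i v))

/-- The family is in the Albanese kernel: its push-forwards to the factors are rationally equivalent to `0` at the finite
places and rationally equivalent to `0` modulo norms at the infinite places. -/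
def AlbPA (z : Fam (Vpi V)) : Prop := ∀ i, (pshA i z).cl = 0

/-- `z'` is the push-forward of `z` to the factor `i`. -/
def IsPs (i : ι) (z : LHat (FA (Vpi V))) (z' : LHat (FA (V i))) : Prop :=
  ∀ (m : ℕ+) (c : Fam (Vpi V)), z.Rep m c.cl → z'.Rep m (pshA i c).cl

section hat

variable {G : Type} [AddCommGroup G] [Fintype ι]

/-- The sum of elements of the completion. -/
def lsum (x : ι → LHat G) : LHat G :=
  ⟨fun m => ∑ i, (x i).1 m, by
    intro m m' hm a h
    choose b hb using fun i => (x i).exists_rep m'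
    have h1 : ∀ i, (x i).1 m' = QuotientAddGroup.mk (b i) := fun i => hb i
    have h2 : (QuotientAddGroup.mk a : G ⧸ mlt G m') = QuotientAddGroup.mk (∑ i, b i) := by
      rw [← h, QuotientAddGroup.mk_sum]
      exact Finset.sum_congr rfl fun i _ => h1 i
    have h3 : (QuotientAddGroup.mk a : G ⧸ mlt G m) = QuotientAddGroup.mk (∑ i, b i) := by
      rw [QuotientAddGroup.eq] at h2 ⊢
      obtain ⟨w, hw⟩ := h2
      obtain ⟨k, hk⟩ := hm
      refine ⟨(k : ℕ) • w, ?_⟩
      change (m : ℕ) • ((k : ℕ) • w) = _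
      rw [← mul_smul]
      have h4 : (m' : ℕ) • w = -a + ∑ i, b i := hw
      rw [← h4, hk, PNat.mul_coe]
    change ∑ i, (x i).1 m = _
    rw [h3, QuotientAddGroup.mk_sum]
    exact Finset.sum_congr rfl fun i _ => (x i).2 m m' hm (b i) (h1 i)⟩

theorem rep_lsum {x : ι → LHat G} {m : ℕ+} {a : ι → G} (h : ∀ i, (x i).Rep m (a i)) :
    (lsum x).Rep m (∑ i, a i) := by
  change ∑ i, (x i).1 m = _
  rw [QuotientAddGroup.mk_sum]
  exact Finset.sum_congr rfl fun i _ => h i

end hat

theorem pshA_eq (i : ι) (z : AdF (Vpi V)) : pshA (V := V) i z = (pr i).ad z := rfl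

/-- If `z` is in the image of `Δ`, so are its push-forwards. -/
theorem imDeS_psh {Λ : Set ℕ} (i : ι) {z : LHat (FA (Vpi V))} {z' : LHat (FA (V i))}
    (h : IsPs i z z') (hz : ImDeS Λ z) : ImDeS Λ z' := by
  obtain ⟨x, hx⟩ := hz
  refine ⟨LHat.map ((pr i).gp F) x, fun m hm => ?_⟩
  obtain ⟨c, c', hbc, hc, hc'⟩ := hx m hm
  exact ⟨(pr i).dz F c, (pr i).ad c', (pr i).isBcF hbc, hc.map ((pr i).gp F), h m c' hc'⟩

variable (o : ∀ i, Bp (V i)) [Fintype ι]

/-- The component of a family in the Albanese kernel. -/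
noncomputable def piA : AdF (Vpi V) →+ AdF (Vpi V) :=
  AddMonoidHom.id _ - ∑ i, (sc o i).ad.comp (pr i).ad

theorem piA_apply (z : AdF (Vpi V)) : piA o z = z - ∑ i, (sc o i).ad ((pr i).ad z) := by
  rw [piA, AddMonoidHom.sub_apply, AddMonoidHom.finsetSum_apply]
  rfl

theorem isBcF_sum {W : Vr F} {κ : Type} (t : Finset κ) {c : κ → Dz W F} {c' : κ → AdF W}
    (h : ∀ i ∈ t, IsBcF (V := W) (c i) (c' i)) :
    IsBcF (V := W) (∑ i ∈ t, c i : Dz W F) (∑ i ∈ t, c' i : AdF W) := by
  classical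
  induction t using Finset.induction_on with
  | empty =>
    rw [Finset.sum_empty, Finset.sum_empty]
    exact ⟨fun v => (Finsupp.mapDomain_zero (f := W.map (BE.emb F (FK F v)))).symm,
      fun v => (Finsupp.mapDomain_zero (f := W.map (BE.emb F (IK F v)))).symm⟩
  | insert i t hi ih =>
    rw [Finset.sum_insert hi, Finset.sum_insert hi]
    have h1 := h i (Finset.mem_insert_self i t)
    have h2 := ih fun j hj => h j (Finset.mem_insert_of_mem hj)
    refine ⟨fun v => ?_, fun v => ?_⟩
    · refine Eq.trans ?_ (bc_add (V := W) (K := FK F v) (c i).1 (∑ i ∈ t, c i : Dz W F).1).symm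
      have e1 := h1.1 v
      have e2 := h2.1 v
      unfold Zc.cy at e1 e2
      rw [← e1, ← e2]
      rfl
    · refine Eq.trans ?_ (bc_add (V := W) (K := IK F v) (c i).1 (∑ i ∈ t, c i : Dz W F).1).symm
      have e1 := h1.2 v
      have e2 := h2.2 v
      unfold Zc.cy at e1 e2
      rw [← e1, ← e2]
      rfl

theorem albPA_piA (c : AdF (Vpi V)) : AlbPA (V := V) (piA o c) := by
  intro i
  have h : (pr i).ad (piA o c) = 0 := by
    have e1 : ∀ z : AdF (V i), (pr i).ad ((sc o i).ad z) = z := fun z =>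
      Prod.ext (funext fun v => pr_sc_self o i (z.1 v)) (funext fun v => pr_sc_self o i (z.2 v))
    have e2 : ∀ j, i ≠ j → ∀ z : AdF (V j), (pr i).ad ((sc o j).ad z) = 0 := fun j hj z =>
      Prod.ext (funext fun v => pr_sc_ne o hj (z.1 v)) (funext fun v => pr_sc_ne o hj (z.2 v))
    rw [piA_apply, map_sub, map_sum, Finset.sum_eq_single i, e1, sub_self]
    · intro j _ hj
      exact e2 j hj.symm _
    · intro h
      exact absurd (Finset.mem_univ i) h
  change clH (V i) ((pr i).ad (piA o c)) = 0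
  rw [h, map_zero]

include o in
/-- The completed statement, if the classes of the families in the Albanese kernel are divisible. -/
theorem imDeS_of {Λ : Set ℕ} (hd : ∀ n : ℕ, n ≠ 0 → Sf Λ n → ∀ c : Fam (Vpi V), AlbPA c →
      ∃ c' : Fam (Vpi V), c.cl = n • c'.cl)
    {z : LHat (FA (Vpi V))} {z' : ∀ i, LHat (FA (V i))} (h : ∀ i, IsPs i z (z' i))
    (h' : ∀ i, ImDeS Λ (z' i)) : ImDeS Λ z := by
  choose x hx using h'
  refine ⟨lsum fun i => LHat.map ((sc o i).gp F) (x i), fun m hm => ?_⟩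
  obtain ⟨a, ha⟩ := z.exists_rep m
  obtain ⟨c, rfl⟩ := clA_surj a
  choose b b' hb hr hs using fun i => hx i m hm
  choose w hw using fun i => rep_sub (hs i) (h i m c ha)
  obtain ⟨c', hc'⟩ := hd (m : ℕ) m.ne_zero hm _ (albPA_piA o c)
  refine ⟨(∑ i, (sc o i).dz F (b i) : Dz (Vpi V) F), (∑ i, (sc o i).ad (b' i) : AdF (Vpi V)),
    isBcF_sum _ fun i _ => (sc o i).isBcF (hb i), ?_, ?_⟩
  · have e := rep_lsum fun i => (hr i).map ((sc o i).gp F)
    have e1 : ∑ i, (sc o i).gp F (b i).cl =
        Gp.clsH (Vpi V) F (∑ i, (sc o i).dz F (b i) : Dz (Vpi V) F) := by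
      rw [map_sum]
      rfl
    rw [e1] at e
    exact e
  · have e0 : clH (Vpi V) (piA o c) = (m : ℕ) • clH (Vpi V) c' := hc'
    have e1 : ∀ i, clH (Vpi V) ((sc o i).ad (b' i)) =
        clH (Vpi V) ((sc o i).ad ((pr i).ad c)) + (m : ℕ) • (sc o i).fa (w i) := by
      intro i
      rw [← Mo.fa_cl, ← Mo.fa_cl, ← map_nsmul, ← map_add]
      exact congrArg (sc o i).fa (hw i)
    have e2 : clH (Vpi V) (∑ i, (sc o i).ad (b' i)) = clH (Vpi V) c +
        (m : ℕ) • (∑ i, (sc o i).fa (w i) - clH (Vpi V) c') := by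
      rw [map_sum, Finset.sum_congr rfl fun i _ => e1 i, Finset.sum_add_distrib, ← map_sum,
        ← Finset.smul_sum, smul_sub, ← e0, piA_apply, map_sub]
      abel
    have e6 : z.Rep m (clH (Vpi V) (∑ i, (sc o i).ad (b' i))) := by
      rw [e2]
      exact rep_add ha _
    exact e6

include o in
/-- **The completed statement.** -/
theorem imDeS_iff {Λ : Set ℕ} (hd : ∀ n : ℕ, n ≠ 0 → Sf Λ n → ∀ c : Fam (Vpi V), AlbPA c →
      ∃ c' : Fam (Vpi V), c.cl = n • c'.cl)
    {z : LHat (FA (Vpi V))} {z' : ∀ i, LHat (FA (V i))} (h : ∀ i, IsPs i z (z' i)) :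
    ImDeS Λ z ↔ ∀ i, ImDeS Λ (z' i) :=
  ⟨fun hz i => imDeS_psh i (h i) hz, fun h' => imDeS_of o hd h h'⟩

/-- The Albanese kernel over `K` is `n`-divisible. -/
def DvP (K : Type) [Field K] [Algebra F K] (V : ι → Vr F) (n : ℕ) : Prop :=
  ∀ z : Zc (Vpi V) K, AlbP z → ∃ z' : Zc (Vpi V) K, AlbP z' ∧ z.cl = n • z'.cl

omit [NumberField F] [Fintype ι] in
theorem dvP_of {K : Type} [Field K] [Algebra F K] {Λ : Set ℕ}
    (h : ∀ l ∈ Λ, l.Prime → DvP K V l) (n : ℕ) (hn : n ≠ 0) (hS : Sf Λ n) : DvP K V n := by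
  induction n using induction_on_primes with
  | zero => exact absurd rfl hn
  | one => exact fun z hz => ⟨z, hz, (one_nsmul _).symm⟩
  | prime_mul p m hp ih =>
    intro z hz
    obtain ⟨y, hy, e⟩ := h p (hS p hp (dvd_mul_right p m)) hp z hz
    obtain ⟨x, hx, e'⟩ := ih (right_ne_zero_of_mul hn) (fun l hl hd => hS l hl (hd.mul_left p)) y hy
    exact ⟨x, hx, by rw [e, e', mul_nsmul']⟩

omit [Fintype ι] in
/-- The Albanese kernel of the families is divisible by the numbers with all prime factors in `Λ`. -/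
theorem fam_dvP {Λ : Set ℕ} (h2 : 2 ∉ Λ)
    (h : ∀ l ∈ Λ, l.Prime → ∀ v : HeightOneSpectrum (𝓞 F), DvP (FK F v) V l)
    (n : ℕ) (hn : n ≠ 0) (hS : Sf Λ n) (c : Fam (Vpi V)) (hc : AlbPA c) :
    ∃ c' : Fam (Vpi V), AlbPA c' ∧ c.cl = n • c'.cl := by
  have h1 : ∀ v, AlbP (c.f v) := fun v i => congrFun (congrArg Prod.fst (hc i)) v
  choose g hg using fun v => dvP_of (fun l hl hp => h l hl hp v) n hn hS (c.f v) (h1 v)
  have h3 : Odd n := by
    rw [← Nat.not_even_iff_odd, even_iff_two_dvd]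
    exact fun h' => h2 (hS 2 Nat.prime_two h')
  refine ⟨(g, c.i), fun i => Prod.ext (funext fun v => (hg v).1 i)
    (by have h4 := congrArg Prod.snd (hc i); exact h4), Prod.ext (funext fun v => (hg v).2) (funext fun v => ?_)⟩
  change (c.i v).clN = n • (c.i v).clN
  obtain ⟨k, rfl⟩ := h3
  rw [add_smul, one_smul, mul_smul, smul_comm, clN_two, smul_zero, zero_add]

end CV
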