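import Pool.Agent.Lib.MP_f80667_ag.Cv.Cg

/-!
Existence of the integral point at a simple zero.
-/

open IsLocalRing

namespace CV

/-- A monogenic presentation. -/
private theorem hl_mono {V k Λ A : Type} [CommRing V] [IsDomain V] [IsDiscreteValuationRing V]
    [Field k] [Algebra V k] [CommRing Λ] [Algebra V Λ] [Module.Finite V Λ] [Field A] [Algebra k A]
    (pb : PowerBasis k A) (hs : Function.Surjective (algebraMap V k)) {π : V} (hπ : Irreducible π)
    (hk : ∀ c : V, algebraMap V k c = 0 → ∃ d, c = π * d) (r : Λ →+* A)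
    (hr : Function.Surjective r)
    (hrV : ∀ c : V, r (algebraMap V Λ c) = algebraMap k A (algebraMap V k c))
    (hr0 : ∀ x, r x = 0 → ∃ z, x = algebraMap V Λ π * z)
    (htf : ∀ x, algebraMap V Λ π * x = 0 → x = 0) :
    ∃ (θ : Λ) (h : Polynomial V), h.Monic ∧ Polynomial.aeval θ h = 0 ∧
      (∀ x, ∃ g : Polynomial V, Polynomial.aeval θ g = x) ∧
      ∀ g : Polynomial V, Polynomial.aeval θ g = 0 → h ∣ g := by
  obtain ⟨θ, hθ⟩ := hr pb.gen
  have hred : ∀ g : Polynomial V, r (Polynomial.aeval θ g) =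
      Polynomial.aeval pb.gen (g.map (algebraMap V k)) := by
    intro g
    rw [Polynomial.aeval_def, Polynomial.hom_eval₂, Polynomial.aeval_def, Polynomial.eval₂_map, hθ]
    congr 1
    ext c
    exact hrV c
  have hd : 0 < pb.dim := pb.dim_pos
  let F : Polynomial V →ₗ[V] Λ := (Polynomial.aeval θ).toLinearMap
  have hF : ∀ g, F g = Polynomial.aeval θ g := fun _ => rfl
  let P : Submodule V Λ := Submodule.map F (Polynomial.degreeLT V pb.dim)
  have htop : (⊤ : Submodule V Λ) ≤ P := by
    refine Submodule.le_of_le_smul_of_le_jacobson_bot (I := maximalIdeal V) Module.Finite.fg_top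
      (IsLocalRing.maximalIdeal_le_jacobson _) ?_
    intro x _
    obtain ⟨f, hf, hfx⟩ := pb.exists_eq_aeval (r x)
    obtain ⟨g, hg, hgd⟩ := Polynomial.exists_natDegree_eq_of_mem_lifts
      (Polynomial.mem_lifts_of_surjective hs f)
    have h1 : r (x - Polynomial.aeval θ g) = 0 := by
      rw [map_sub, hred, hg, hfx, sub_self]
    obtain ⟨z, hz⟩ := hr0 _ h1
    have h2 : x = Polynomial.aeval θ g + π • z := by
      rw [Algebra.smul_def, ← hz, add_sub_cancel]
    rw [h2]
    refine Submodule.add_mem_sup ?_ ?_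
    · refine ⟨g, ?_, rfl⟩
      rw [SetLike.mem_coe, Polynomial.mem_degreeLT]
      refine lt_of_le_of_lt Polynomial.degree_le_natDegree ?_
      rw [hgd]
      exact_mod_cast hf
    · exact Submodule.smul_mem_smul ((mem_maximalIdeal _).2 hπ.not_isUnit) Submodule.mem_top
  have hsur : ∀ x : Λ, ∃ g : Polynomial V, g.degree < pb.dim ∧ Polynomial.aeval θ g = x := by
    intro x
    obtain ⟨g, hg, hgx⟩ := htop (Submodule.mem_top (x := x))
    exact ⟨g, Polynomial.mem_degreeLT.1 hg, hgx⟩
  have hzero : ∀ n : ℕ, ∀ g : Polynomial V, g.degree < pb.dim → Polynomial.aeval θ g = 0 →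
      Polynomial.C (π ^ n) ∣ g := by
    intro n
    induction n with
    | zero =>
      intro g _ _
      rw [pow_zero, Polynomial.C_1]
      exact one_dvd _
    | succ n ih =>
      intro g hg hg0
      have h1 : g.map (algebraMap V k) = 0 := by
        by_contra hne
        have h2 := pb.dim_le_degree_of_root hne (by rw [← hred, hg0, map_zero])
        exact absurd (lt_of_le_of_lt Polynomial.degree_map_le hg) (not_lt.2 h2)
      have h2 : Polynomial.C π ∣ g := by
        rw [Polynomial.C_dvd_iff_dvd_coeff]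
        intro i
        have h3 : algebraMap V k (g.coeff i) = 0 := by
          rw [← Polynomial.coeff_map, h1, Polynomial.coeff_zero]
        obtain ⟨d, hd⟩ := hk _ h3
        exact ⟨d, hd⟩
      obtain ⟨g', rfl⟩ := h2
      have h3 : Polynomial.aeval θ g' = 0 := by
        apply htf
        rw [map_mul, Polynomial.aeval_C] at hg0
        exact hg0
      have h4 : g'.degree < pb.dim := by
        rwa [Polynomial.degree_C_mul hπ.ne_zero] at hg
      obtain ⟨g'', rfl⟩ := ih g' h4 h3
      exact ⟨g'', by rw [pow_succ', Polynomial.C_mul, mul_assoc]⟩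
  have hinj : ∀ g : Polynomial V, g.degree < pb.dim → Polynomial.aeval θ g = 0 → g = 0 := by
    intro g hg hg0
    ext i
    rw [Polynomial.coeff_zero]
    by_contra hne
    obtain ⟨j, u, hj⟩ := IsDiscreteValuationRing.eq_unit_mul_pow_irreducible hne hπ
    have h1 := (Polynomial.C_dvd_iff_dvd_coeff _ _).1 (hzero (j + 1) g hg hg0) i
    rw [hj, pow_succ] at h1
    have h2 : π ^ j * π ∣ π ^ j * u := by
      rw [mul_comm (π ^ j) (u : V)]
      exact h1
    have h3 : π ∣ (u : V) := (mul_dvd_mul_iff_left (pow_ne_zero j hπ.ne_zero)).1 h2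
    exact hπ.not_isUnit (isUnit_of_dvd_unit h3 u.isUnit)
  obtain ⟨g₀, hg₀, hg₀'⟩ := hsur (θ ^ pb.dim)
  have hmon : (Polynomial.X ^ pb.dim - g₀ : Polynomial V).Monic :=
    Polynomial.monic_X_pow_sub hg₀
  have hh0 : Polynomial.aeval θ (Polynomial.X ^ pb.dim - g₀ : Polynomial V) = 0 := by
    rw [map_sub, hg₀', map_pow, Polynomial.aeval_X, sub_self]
  have hdeg : (Polynomial.X ^ pb.dim - g₀ : Polynomial V).degree = pb.dim := by
    rw [Polynomial.degree_sub_eq_left_of_degree_lt]
    · rw [Polynomial.degree_X_pow]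
    · rw [Polynomial.degree_X_pow]
      exact hg₀
  refine ⟨θ, Polynomial.X ^ pb.dim - g₀, hmon, hh0, ?_, ?_⟩
  · intro x
    obtain ⟨g, -, h⟩ := hsur x
    exact ⟨g, h⟩
  · intro g hg
    rw [← Polynomial.modByMonic_eq_zero_iff_dvd hmon]
    apply hinj
    · rw [← hdeg]
      exact Polynomial.degree_modByMonic_lt _ hmon
    · have h1 := Polynomial.modByMonic_add_div g (Polynomial.X ^ pb.dim - g₀ : Polynomial V)
      have h2 := congrArg (Polynomial.aeval θ) h1
      rw [map_add, map_mul, hh0, zero_mul, add_zero, hg] at h2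
      exact h2

/-- Roots with a given residue. -/
private theorem hl_root {V Ω : Type} [CommRing V] [Field Ω] [IsAlgClosed Ω]
    {W : ValuationSubring Ω} (ι : V →+* W) {h : Polynomial V} (hm : h.Monic) (t : ResidueField W)
    (ht : Polynomial.eval₂ ((residue W).comp ι) t h = 0) :
    ∃ w : W, Polynomial.eval₂ ι w h = 0 ∧ residue W w = t := by
  obtain ⟨t, rfl⟩ := residue_surjective t
  set f : Polynomial Ω := h.map ((algebraMap W Ω).comp ι) with hf
  have hfm : f.Monic := hm.map _
  have hsp : f.Splits := IsAlgClosed.splits f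
  have hroot : ∀ a ∈ f.roots, ∃ w : W, (w : Ω) = a ∧ Polynomial.eval₂ ι w h = 0 := by
    intro a ha
    have h1 : Polynomial.eval a f = 0 := (Polynomial.mem_roots'.1 ha).2
    have h2 : IsIntegral W a := by
      refine ⟨h.map ι, hm.map ι, ?_⟩
      rw [Polynomial.eval₂_map, ← h1, hf, Polynomial.eval_map]
    obtain ⟨w, hw⟩ := IsIntegrallyClosed.isIntegral_iff.1 h2
    refine ⟨w, hw, ?_⟩
    have h3 : algebraMap W Ω (Polynomial.eval₂ ι w h) = 0 := by
      rw [Polynomial.hom_eval₂, hw, ← h1, hf, Polynomial.eval_map]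
    exact Subtype.ext h3
  have h1 : (algebraMap W Ω (Polynomial.eval₂ ι t h)) = Polynomial.eval (t : Ω) f := by
    rw [Polynomial.hom_eval₂, hf, Polynomial.eval_map]
    rfl
  have h2 : residue W (Polynomial.eval₂ ι t h) = 0 := by
    rw [Polynomial.hom_eval₂]
    exact ht
  by_contra hcon
  push Not at hcon
  have h3 : ∀ a ∈ f.roots, W.valuation ((t : Ω) - a) = 1 := by
    intro a ha
    obtain ⟨w, rfl, hw⟩ := hroot a ha
    have h4 := hcon w hw
    have h5 : IsUnit (t - w) := by
      by_contra hu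
      have h6 : residue W (t - w) = 0 := (residue_eq_zero_iff _).2 ((mem_maximalIdeal _).2 hu)
      rw [map_sub, sub_eq_zero] at h6
      exact h4 h6.symm
    have h6 := (W.valuation_eq_one_iff (t - w)).1 h5
    rw [← h6]
    rfl
  have h4 : W.valuation (Polynomial.eval (t : Ω) f) = 1 := by
    rw [hsp.eval_eq_prod_roots_of_monic hfm, map_multiset_prod]
    apply Multiset.prod_eq_one
    intro x hx
    rw [Multiset.mem_map] at hx
    obtain ⟨y, hy, rfl⟩ := hx
    rw [Multiset.mem_map] at hy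
    obtain ⟨a, ha, rfl⟩ := hy
    exact h3 a ha
  have h5 : IsUnit (Polynomial.eval₂ ι t h) := by
    rw [W.valuation_eq_one_iff]
    rw [← h1] at h4
    exact h4
  have h6 : Polynomial.eval₂ ι t h ∈ maximalIdeal W := (residue_eq_zero_iff _).1 h2
  exact (mem_maximalIdeal _).1 h6 h5

/-- The lift of a residue homomorphism. -/
private theorem hl_lift {V Λ Ω : Type} [CommRing V] [CommRing Λ] [Algebra V Λ] [Field Ω]
    [IsAlgClosed Ω] {W : ValuationSubring Ω} (ι : V →+* W) (θ : Λ) {h : Polynomial V}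
    (hm : h.Monic) (h0 : Polynomial.aeval θ h = 0)
    (hsur : ∀ x, ∃ g : Polynomial V, Polynomial.aeval θ g = x)
    (hker : ∀ g : Polynomial V, Polynomial.aeval θ g = 0 → h ∣ g) (r : Λ →+* ResidueField W)
    (hr : ∀ c : V, r (algebraMap V Λ c) = residue W (ι c)) :
    ∃ ψ : Λ →+* W, (∀ c : V, ψ (algebraMap V Λ c) = ι c) ∧ ∀ x, residue W (ψ x) = r x := by
  have hcomp : r.comp (algebraMap V Λ) = (residue W).comp ι := RingHom.ext hr
  have h1 : Polynomial.eval₂ ((residue W).comp ι) (r θ) h = 0 := by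
    rw [← hcomp, ← Polynomial.hom_eval₂, ← Polynomial.aeval_def, h0, map_zero]
  obtain ⟨w, hw, hwr⟩ := hl_root ι hm (r θ) h1
  let p : Polynomial V →+* Λ := (Polynomial.aeval θ : Polynomial V →ₐ[V] Λ).toRingHom
  have hp : Function.Surjective p := hsur
  let g : Polynomial V →+* W := Polynomial.eval₂RingHom ι w
  have hg : RingHom.ker p ≤ RingHom.ker g := by
    intro x hx
    obtain ⟨y, rfl⟩ := hker x hx
    rw [RingHom.mem_ker, map_mul]
    have h2 : g h = 0 := hw
    rw [h2, zero_mul]
  let ψ : Λ →+* W := (RingHom.liftOfSurjective p hp) ⟨g, hg⟩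
  have hψ : ∀ q : Polynomial V, ψ (Polynomial.aeval θ q) = Polynomial.eval₂ ι w q := by
    intro q
    exact RingHom.liftOfSurjective_comp_apply p hp ⟨g, hg⟩ q
  refine ⟨ψ, fun c => ?_, fun x => ?_⟩
  · have h2 := hψ (Polynomial.C c)
    rw [Polynomial.aeval_C, Polynomial.eval₂_C] at h2
    exact h2
  · obtain ⟨q, rfl⟩ := hsur x
    rw [hψ, Polynomial.hom_eval₂, hwr, Polynomial.aeval_def, Polynomial.hom_eval₂, hcomp]

namespace Md

variable {V L k S SL Sk : Type} [CommRing V] [IsDomain V] [IsDiscreteValuationRing V] [Field L]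
  [Field k] [Algebra V L] [IsFractionRing V L] [Algebra V k] [CommRing S] [CommRing SL]
  [CommRing Sk] [Algebra V S] [Algebra L SL] [Algebra k Sk] (M : Md V L k S SL Sk) {Ω : Type}
  [Field Ω] [Algebra L Ω] {W : ValuationSubring Ω}

/-- Homomorphisms extend to the generic fibre. -/
private theorem hl_ext (ψ : S →+* Ω)
    (hψ : ∀ c : V, ψ (algebraMap V S c) = algebraMap L Ω (algebraMap V L c)) :
    ∃ φ : SL →ₐ[L] Ω, ∀ s, φ (M.i s) = ψ s := by
  have hnt := M.DL.nontrivial
  let _ : Algebra S SL := M.i.toAlgebra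
  have hi : ∀ s, algebraMap S SL s = M.i s := fun _ => rfl
  have hV : ∀ c : V, c ≠ 0 → algebraMap V L c ≠ 0 := fun c hc h =>
    hc (IsFractionRing.injective V L (by rw [h, map_zero]))
  have hloc : IsLocalization (Submonoid.map (algebraMap V S) (nonZeroDivisors V)) SL := by
    refine ⟨⟨?_, ?_, ?_⟩⟩
    · rintro ⟨_, c, hc, rfl⟩
      change IsUnit (M.i (algebraMap V S c))
      rw [M.i_alg]
      exact (isUnit_iff_ne_zero.2 (hV c (nonZeroDivisors.ne_zero hc))).map _
    · intro z
      obtain ⟨c, hc, s, hs⟩ := M.loc z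
      refine ⟨⟨s, ⟨algebraMap V S c, c, mem_nonZeroDivisors_of_ne_zero hc, rfl⟩⟩, ?_⟩
      change z * M.i (algebraMap V S c) = M.i s
      rw [M.i_alg, mul_comm, hs]
    · intro x y hxy
      exact ⟨1, by rw [M.inj hxy]⟩
  have hu : ∀ y : Submonoid.map (algebraMap V S) (nonZeroDivisors V), IsUnit (ψ y) := by
    rintro ⟨_, c, hc, rfl⟩
    change IsUnit (ψ (algebraMap V S c))
    rw [hψ]
    exact (isUnit_iff_ne_zero.2 (hV c (nonZeroDivisors.ne_zero hc))).map _
  let φ : SL →+* Ω := IsLocalization.lift hu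
  have hφ : ∀ s, φ (M.i s) = ψ s := fun s => IsLocalization.lift_eq hu s
  have hL : φ.comp (algebraMap L SL) = algebraMap L Ω := by
    refine IsLocalization.ringHom_ext (nonZeroDivisors V) ?_
    ext c
    change φ (algebraMap L SL (algebraMap V L c)) = algebraMap L Ω (algebraMap V L c)
    rw [← M.i_alg, hφ, hψ]
  exact ⟨{ φ with commutes' := fun l => RingHom.congr_fun hL l }, hφ⟩

/-- **Simple zeros lift.** `f` is a local parameter at `N`, the kernel of a homomorphism `ρ` from `S` to the residue field of `W`: there is an integral point `φ` with `φ f = 0` and residues `ρ`.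

Proof. `Λ = S / It {N} f` is a finitely generated torsion-free `V`-module (`it_fin`, `it_tf`), so free, and `Λ / π Λ = S / N =: l` (`s x = f y + π y'` for `x ∈ N`; `it_pow`), a field, finite and separable over `k`. Let `θ ∈ Λ` be the lift of a primitive element of `l / k`; `1, θ, .., θ ^ (d - 1)`,
`d = [l : k]`, is a basis of `Λ` (Nakayama), `h` the monic polynomial of degree `d` over `V` with `h (θ) = 0`: `Λ = V[X] / (h)`. The residue `ρ θ` is a simple root of the reduction of `h`; `h` has a root `w ∈ W` with this residue (`Ω` is algebraically closed, `W` is integrally closed: the reduction of `h` is the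
product of the `X - residue`). `φ` is `S → Λ → W`, `θ ↦ w`, extended to `SL` (`loc`: `SL` is the localization of `S` at `V ∖ 0`). Its residue is `ρ` because both are equal on `V` and `θ`. -/
theorem lift_pt [IsAdicComplete (maximalIdeal V) V] [PerfectField k] [IsAlgClosed Ω]
    (hW : Wv V L W) {π : V} (hπ : Irreducible π) (ρ : S →+* ResidueField W)
    (hρ : ∀ c : V, ρ (algebraMap V S c) = residue W ⟨_, hW.mem c⟩)
    {f : S} (hf : Rgl π (RingHom.ker ρ) f) (hq : M.q f ≠ 0) :
    ∃ φ : SL →ₐ[L] Ω, φ (M.i f) = 0 ∧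
      ∀ s : S, ∃ h : φ (M.i s) ∈ W, residue W ⟨_, h⟩ = ρ s := by
  classical
  -- the homomorphism from `V` to `W`
  let ι : V →+* W :=
    { toFun := fun c => ⟨algebraMap L Ω (algebraMap V L c), hW.mem c⟩
      map_one' := by
        apply Subtype.ext
        simp
      map_mul' := fun a b => by
        apply Subtype.ext
        simp
      map_zero' := by
        apply Subtype.ext
        simp
      map_add' := fun a b => by
        apply Subtype.ext
        simp }
  have hι : ∀ c : V, ρ (algebraMap V S c) = residue W (ι c) := hρ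
  set N : Ideal S := RingHom.ker ρ with hN
  have hP : N.IsPrime := RingHom.ker_isPrime ρ
  have hm : ∀ c ∈ maximalIdeal V, algebraMap V S c ∈ N := by
    intro c hc
    rw [hN, RingHom.mem_ker, hι, residue_eq_zero_iff]
    exact (ValuationSubring.coe_mem_nonunits_iff (a := ι c)).1 (hW.lt c hc)
  have hπm : π ∈ maximalIdeal V := (mem_maximalIdeal _).2 hπ.not_isUnit
  have hfN : f ∈ N := hf.1
  -- the residue field
  have hkk : ∀ c : V, algebraMap V k c = 0 → ∃ d, c = π * d := by
    intro c hc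
    have h1 := (M.res_zero c).1 hc
    rw [hπ.maximalIdeal_eq, Ideal.mem_span_singleton] at h1
    obtain ⟨d, hd⟩ := h1
    exact ⟨d, hd⟩
  let j : k →+* S ⧸ N := (RingHom.liftOfSurjective (algebraMap V k) M.res_surj)
    ⟨(Ideal.Quotient.mk N).comp (algebraMap V S), by
      intro c hc
      rw [RingHom.mem_ker, RingHom.comp_apply, Ideal.Quotient.eq_zero_iff_mem]
      exact hm c ((M.res_zero c).1 hc)⟩
  have hj : ∀ c : V, j (algebraMap V k c) = Ideal.Quotient.mk N (algebraMap V S c) := fun c =>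
    RingHom.liftOfSurjective_comp_apply _ M.res_surj _ c
  let _ : Algebra k (S ⧸ N) := j.toAlgebra
  have hqN : ∀ s : S, M.q s = 0 → s ∈ N := by
    intro s hs
    obtain ⟨t, rfl⟩ := (M.ker_iff hπ).1 hs
    exact N.mul_mem_right _ (hm π hπm)
  let g : Sk →+* S ⧸ N := (RingHom.liftOfSurjective M.q M.surj)
    ⟨Ideal.Quotient.mk N, by
      intro s hs
      rw [RingHom.mem_ker, Ideal.Quotient.eq_zero_iff_mem]
      exact hqN s hs⟩
  have hg : ∀ s : S, g (M.q s) = Ideal.Quotient.mk N s := fun s =>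
    RingHom.liftOfSurjective_comp_apply _ M.surj _ s
  let gA : Sk →ₐ[k] S ⧸ N :=
    { g with
      commutes' := fun c => by
        obtain ⟨c, rfl⟩ := M.res_surj c
        change g (algebraMap k Sk (algebraMap V k c)) = j (algebraMap V k c)
        rw [← M.q_alg, hg, hj] }
  have hfin : Module.Finite k (Sk ⧸ Ideal.span {M.q f}) := M.Dk.finite_quot hq
  have hgf : ∀ a ∈ Ideal.span {M.q f}, gA a = 0 := by
    intro a ha
    obtain ⟨b, rfl⟩ := Ideal.mem_span_singleton.1 ha
    have h1 : gA (M.q f) = 0 := by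
      change g (M.q f) = 0
      rw [hg, Ideal.Quotient.eq_zero_iff_mem]
      exact hfN
    rw [map_mul, h1, zero_mul]
  have hfinA : Module.Finite k (S ⧸ N) := by
    refine Module.Finite.of_surjective
      (Ideal.Quotient.liftₐ (Ideal.span {M.q f}) gA hgf).toLinearMap ?_
    intro x
    obtain ⟨s, rfl⟩ := Ideal.Quotient.mk_surjective x
    refine ⟨Ideal.Quotient.mk _ (M.q s), ?_⟩
    exact hg s
  have hfield : IsField (S ⧸ N) := isField_of_isIntegral_of_isField' (Field.toIsField k)
  have hmax : N.IsMaximal := Ideal.Quotient.maximal_of_isField N hfield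
  let _ : Field (S ⧸ N) := Ideal.Quotient.field N
  let pb : PowerBasis k (S ⧸ N) := Field.powerBasisOfFiniteOfSeparable k (S ⧸ N)
  -- the quotient
  have hC : ∀ N' ∈ ({N} : Set (Ideal S)), Cs V N' := by
    rintro N' rfl
    exact ⟨hmax, hm⟩
  have hT : ∀ N' ∈ ({N} : Set (Ideal S)), N'.IsPrime := by
    rintro N' rfl
    exact hP
  have hItN : It {N} hT f ≤ N := by
    intro x hx
    obtain ⟨s, hs, y, e⟩ := mem_It.1 hx
    have h1 : s * x ∈ N := by
      rw [e]
      exact N.mul_mem_right _ hfN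
    exact (hP.mem_or_mem h1).resolve_left (hs N rfl)
  have hfinΛ : Module.Finite V (S ⧸ It {N} hT f) := M.it_fin (Set.finite_singleton N) hC hT hq
  let r : (S ⧸ It {N} hT f) →+* S ⧸ N := Ideal.Quotient.factor hItN
  have hr : ∀ s : S, r (Ideal.Quotient.mk _ s) = Ideal.Quotient.mk N s := fun _ => rfl
  obtain ⟨θ, h, hmon, h0, hsur, hker⟩ := hl_mono pb M.res_surj hπ hkk r
    (Ideal.Quotient.factor_surjective hItN) (fun c => by
      change r (Ideal.Quotient.mk _ (algebraMap V S c)) = j (algebraMap V k c)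
      rw [hr, hj]) (fun x hx => by
      obtain ⟨s, rfl⟩ := Ideal.Quotient.mk_surjective x
      rw [hr, Ideal.Quotient.eq_zero_iff_mem] at hx
      obtain ⟨s₀, hs₀, h1⟩ := hf.2
      obtain ⟨y, y', e⟩ := h1 s hx
      obtain ⟨z, hz⟩ := M.it_pow (Set.finite_singleton N) hC hT hq (s := s₀) (x := s) (y := y)
        (z := y') (by
          rintro N' rfl
          exact hs₀) π e
      refine ⟨Ideal.Quotient.mk _ z, ?_⟩
      change _ = Ideal.Quotient.mk _ (algebraMap V S π) * Ideal.Quotient.mk _ z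
      rw [← map_mul]
      exact Ideal.Quotient.eq.2 hz) (fun x hx => by
      obtain ⟨s, rfl⟩ := Ideal.Quotient.mk_surjective x
      change Ideal.Quotient.mk _ (algebraMap V S π) * Ideal.Quotient.mk _ s = 0 at hx
      rw [← map_mul, Ideal.Quotient.eq_zero_iff_mem] at hx
      exact Ideal.Quotient.eq_zero_iff_mem.2 (M.it_tf hT hq hπ.ne_zero hx))
  let rκ : (S ⧸ It {N} hT f) →+* ResidueField W := Ideal.Quotient.lift _ ρ (fun a ha => hItN ha)
  have hrκ : ∀ s : S, rκ (Ideal.Quotient.mk _ s) = ρ s := fun _ => rfl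
  obtain ⟨ψ, hψV, hψr⟩ := hl_lift ι θ hmon h0 hsur hker rκ (fun c => by
    change rκ (Ideal.Quotient.mk _ (algebraMap V S c)) = _
    rw [hrκ, hι])
  let Ψ : S →+* Ω := (algebraMap W Ω).comp (ψ.comp (Ideal.Quotient.mk _))
  have hΨ : ∀ s, Ψ s = (ψ (Ideal.Quotient.mk _ s) : Ω) := fun _ => rfl
  obtain ⟨φ, hφ⟩ := M.hl_ext Ψ (fun c => by
    rw [hΨ]
    have h1 : ψ (Ideal.Quotient.mk _ (algebraMap V S c)) = ι c := hψV c
    rw [h1]
    rfl)
  refine ⟨φ, ?_, fun s => ?_⟩
  · have h1 : Ideal.Quotient.mk (It {N} hT f) f = 0 := by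
      rw [Ideal.Quotient.eq_zero_iff_mem]
      exact mem_It.2 ⟨1, st_one hT, 1, by ring⟩
    rw [hφ, hΨ, h1, map_zero]
    rfl
  · have h1 : φ (M.i s) = (ψ (Ideal.Quotient.mk _ s) : Ω) := by rw [hφ, hΨ]
    have h2 : φ (M.i s) ∈ W := by
      rw [h1]
      exact (ψ (Ideal.Quotient.mk _ s)).2
    refine ⟨h2, ?_⟩
    have h3 : (⟨φ (M.i s), h2⟩ : W) = ψ (Ideal.Quotient.mk _ s) := Subtype.ext h1
    rw [h3, hψr, hrκ]

end Md

end CV
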