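import Pool.Agent.Lib.MP_f80667_ag.Cv.Inf
import Pool.Agent.Lib.MP_f80667_ag.Cv.MdK

/-!
Models: the values at an integral point; transport of integral ideals to another model.
-/

open IsLocalRing

namespace CV.Md

section val

variable {V L k S SL Sk : Type} [CommRing V] [IsDomain V] [ValuationRing V] [Field L] [Field k]
  [Algebra V L] [IsFractionRing V L] [Algebra V k] [CommRing S] [CommRing SL] [CommRing Sk]
  [Algebra V S] [Algebra L SL] [Algebra k Sk] (M : Md V L k S SL Sk)

/-- The values at an integral point are integral. Proof: `S / (u)` is finite over `V`. -/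
theorem int_val {L' : Type} [Field L'] [Algebra L L'] [Algebra V L'] [IsScalarTower V L L']
    (x : SL →ₐ[L] L') (h : M.Int (RingHom.ker x)) (s : S) : IsIntegral V (x (M.i s)) := by
  obtain ⟨u, n, hu, hx⟩ := h
  have hfin := M.quot_fin hu
  have hint : IsIntegral V (Ideal.Quotient.mk (Ideal.span {u}) s) :=
    Algebra.IsIntegral.isIntegral _
  let g : S →ₐ[V] L' :=
    { toRingHom := (x : SL →+* L').comp M.i
      commutes' := fun c => by
        change x (M.i (algebraMap V S c)) = algebraMap V L' c
        rw [M.i_alg, AlgHom.commutes, ← IsScalarTower.algebraMap_apply] }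
  let g' : (S ⧸ Ideal.span {u}) →ₐ[V] L' := Ideal.Quotient.liftₐ _ g (by
    intro a ha
    obtain ⟨b, rfl⟩ := Ideal.mem_span_singleton'.1 ha
    rw [map_mul]
    have h0 : g u = 0 := hx
    rw [h0, mul_zero])
  exact hint.map g'

/-- The values at an integral point over the fraction field are in `V`. -/
theorem int_val' (x : SL →ₐ[L] L) (h : M.Int (RingHom.ker x)) (s : S) :
    ∃ c : V, algebraMap V L c = x (M.i s) :=
  IsIntegrallyClosed.isIntegral_iff.1 (M.int_val x h s)

end val

section map

variable {V L k S SL Sk : Type} [CommRing V] [IsDomain V] [ValuationRing V] [Field L] [Field k]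
  [Algebra V L] [IsFractionRing V L] [Algebra V k] [CommRing S] [CommRing SL] [CommRing Sk]
  [Algebra V S] [Algebra L SL] [Algebra k Sk] {M : Md V L k S SL Sk}
  {V' L' k' S' SL' Sk' : Type} [CommRing V'] [IsDomain V'] [ValuationRing V'] [Field L'] [Field k']
  [Algebra V' L'] [IsFractionRing V' L'] [Algebra V' k'] [CommRing S'] [CommRing SL'] [CommRing Sk']
  [Algebra V' S'] [Algebra L' SL'] [Algebra k' Sk'] {M' : Md V' L' k' S' SL' Sk'}

/-- Transport of integral ideals. -/
theorem Int.map {jS : S → S'} {jL : SL →+* SL'} (hji : ∀ s, M'.i (jS s) = jL (M.i s))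
    (hut : ∀ s n, M.Ut s n → M'.Ut (jS s) n) {J : Ideal SL} (h : M.Int J) : M'.Int (J.map jL) := by
  obtain ⟨u, n, hu, hJ⟩ := h
  exact ⟨jS u, n, hut u n hu, by rw [hji]; exact Ideal.mem_map_of_mem _ hJ⟩

end map

end CV.Md
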