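import Pool.Agent.Lib.MP_f80667_ag.Cv.MdW
import Pool.Agent.Lib.MP_f80667_ag.Cv.IfB
import Pool.Agent.Lib.MP_f80667_ag.Cv.HdB
import Pool.Agent.Lib.MP_f80667_ag.Cv.CyG
import Pool.Agent.Lib.MP_f80667_ag.Cv.MdJ
import Pool.Agent.Lib.MP_f80667_ag.Cv.Dd

/-!
Moving a point of the curve off infinity, over the field `M` of definition.

* `tO m M : M ⊗ R →+* Ω ⊗ R`, `tA m M : M ⊗ R →+* Ω ⊗ A`; `exists_xM`: the point over `M`; `ker_tO`: the ideal of the point.
* `move_M`: the point is integral, or `mx φ * J' = (g)` with an integral ideal `J'` which comes from `M`.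
* `int_pt`: the points of an integral ideal are integral.
-/

open ZC BE PE Polynomial TensorProduct IntermediateField IsLocalRing

namespace CV

section

variable {F : Type} [Field F] {K Ω : Type} [Field K] [Field Ω] [Algebra K Ω] [Algebra F K]
  [Algebra F Ω] [IsScalarTower F K Ω] {L : Ld K Ω} {C : Crv F} (m : Mod C (Ok L) K)

/-- The values of a point over `M` are in `M`. -/
theorem ev_memM {M : IntermediateField K Ω} {φ : C.A →ₐ[F] Ω} (h : ∀ a, φ a ∈ M) (r : m.R) :
    ev m φ r ∈ M := by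
  rw [ev_def]
  induction m.iso ((1 : K) ⊗ₜ r) using TensorProduct.induction_on with
  | zero => rw [map_zero]; exact zero_mem _
  | tmul k a =>
    rw [Algebra.TensorProduct.lift_tmul]
    exact mul_mem (M.algebraMap_mem k) (h a)
  | add x y hx hy => rw [map_add]; exact add_mem hx hy

/-- The point over `M`. -/
theorem exists_xM {M : IntermediateField K Ω} {φ : C.A →ₐ[F] Ω} (h : ∀ a, φ a ∈ M) :
    ∃ x : M ⊗[Ok L] m.R →ₐ[M] M, ∀ y, ((x y : M) : Ω) = ptE m M φ y := by
  have h1 : ∀ y, ptE m M φ y ∈ (⊥ : Subalgebra M Ω) := by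
    intro y
    induction y using TensorProduct.induction_on with
    | zero => rw [map_zero]; exact zero_mem _
    | tmul c r =>
      rw [ptE_tmul]
      exact mul_mem (Subalgebra.algebraMap_mem _ c)
        (Algebra.mem_bot.2 ⟨⟨_, ev_memM m h r⟩, rfl⟩)
    | add x y hx hy => rw [map_add]; exact add_mem hx hy
  let e := Algebra.botEquivOfInjective (R := M) (A := Ω) (algebraMap M Ω).injective
  refine ⟨e.toAlgHom.comp ((ptE m M φ).codRestrict ⊥ h1), fun y => ?_⟩
  have h2 : e.symm (e ((ptE m M φ).codRestrict ⊥ h1 y)) = (ptE m M φ).codRestrict ⊥ h1 y :=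
    e.symm_apply_apply _
  have h3 := congrArg (fun z : (⊥ : Subalgebra M Ω) => (z : Ω)) h2
  have h4 : ∀ c : M, ((e.symm c : (⊥ : Subalgebra M Ω)) : Ω) = (c : Ω) := fun c => by
    have h5 : e.symm c = algebraMap M (⊥ : Subalgebra M Ω) c := e.symm.commutes c
    rw [h5]
    rfl
  rw [h4] at h3
  exact h3

/-- The map of the functions over `M` to the functions of the curve over `Ω`. -/
noncomputable def tA (M : IntermediateField K Ω) : M ⊗[Ok L] m.R →+* Ω ⊗[F] C.A :=
  (isoE m Ω).toAlgHom.toRingHom.comp (m.mpOL M).toRingHom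

theorem tA_apply (M : IntermediateField K Ω) (x : M ⊗[Ok L] m.R) :
    tA m M x = isoE m Ω (m.mpOL M x) := rfl

theorem mpOL_inj (M : IntermediateField K Ω) : Function.Injective (m.mpOL M) := by
  rw [injective_iff_map_eq_zero]
  intro x hx
  rw [← (m.mdM M).DL.bot, ← m.mpOL_d M, hx, m.mdO.DL.zero]

theorem tA_inj (M : IntermediateField K Ω) : Function.Injective (tA m M) := fun x y h =>
  mpOL_inj m M ((isoE m Ω).injective h)

theorem vx_tA (M : IntermediateField K Ω) (φ : C.A →ₐ[F] Ω) (x : M ⊗[Ok L] m.R) :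
    vx φ (tA m M x) = ptE m M φ x := by
  rw [← ptE_mpOL, ← lift_isoE]
  rfl

/-- The ideal of a point over `M`. -/
theorem ker_mpOL {M : IntermediateField K Ω} {φ : C.A →ₐ[F] Ω} (h : ∀ a, φ a ∈ M)
    {x : M ⊗[Ok L] m.R →ₐ[M] M} (hx : ∀ y, ((x y : M) : Ω) = ptE m M φ y) :
    (RingHom.ker x).map (m.mpOL M).toRingHom =
      RingHom.ker (ptE m Ω φ) := by
  apply le_antisymm
  · rw [Ideal.map_le_iff_le_comap]
    intro y hy
    have h1 : x y = 0 := hy
    change ptE m Ω φ (m.mpOL M y) = 0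
    rw [ptE_mpOL, ← hx, h1]
    rfl
  · have key : ∀ y : Ω ⊗[Ok L] m.R, y - (ptE m Ω φ y) ⊗ₜ[Ok L] (1 : m.R) ∈
        (RingHom.ker x).map (m.mpOL M).toRingHom := by
      intro y
      induction y using TensorProduct.induction_on with
      | zero => rw [map_zero, TensorProduct.zero_tmul, sub_zero]; exact zero_mem _
      | tmul c r =>
        have h1 : c ⊗ₜ[Ok L] r - ptE m Ω φ (c ⊗ₜ[Ok L] r) ⊗ₜ[Ok L] (1 : m.R) =
            (c ⊗ₜ[Ok L] (1 : m.R)) * m.mpOL M
              ((1 : M) ⊗ₜ[Ok L] r - (⟨ev m φ r, ev_memM m h r⟩ : M) ⊗ₜ[Ok L] (1 : m.R)) := by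
          rw [ptE_tmul, map_sub, Mod.mpOL_tmul, Mod.mpOL_tmul, mul_sub,
            Algebra.TensorProduct.tmul_mul_tmul, Algebra.TensorProduct.tmul_mul_tmul, mul_one,
            one_mul]
          change _ = (c * ((1 : M) : Ω)) ⊗ₜ[Ok L] r - _
          have h2 : ((1 : M) : Ω) = 1 := rfl
          rw [h2, mul_one]
          rfl
        rw [h1]
        refine Ideal.mul_mem_left _ _ (Ideal.mem_map_of_mem _ ?_)
        rw [RingHom.mem_ker]
        have h3 : ((x ((1 : M) ⊗ₜ[Ok L] r -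
            (⟨ev m φ r, ev_memM m h r⟩ : M) ⊗ₜ[Ok L] (1 : m.R)) : M) : Ω) = 0 := by
          rw [hx, map_sub, ptE_tmul, ptE_tmul, map_one, one_mul, map_one, mul_one]
          exact sub_self _
        exact Subtype.ext h3
      | add y z hy hz =>
        rw [map_add, TensorProduct.add_tmul, add_sub_add_comm]
        exact add_mem hy hz
    intro y hy
    have h2 := key y
    have h3 : ptE m Ω φ y = 0 := hy
    rwa [h3, TensorProduct.zero_tmul, sub_zero] at h2

/-- The ideal of a point. -/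
theorem mx_eq (φ : C.A →ₐ[F] Ω) :
    (RingHom.ker (ptE m Ω φ)).map (isoE m Ω).toAlgHom.toRingHom = mx φ := by
  ext y
  rw [Ideal.mem_map_iff_of_surjective (isoE m Ω).toAlgHom.toRingHom
    (isoE m Ω).surjective]
  constructor
  · rintro ⟨x, hx, rfl⟩
    exact (mx_isoE m φ x).2 hx
  · intro hy
    obtain ⟨x, rfl⟩ := (isoE m Ω).surjective y
    exact ⟨x, (mx_isoE m φ x).1 hy, rfl⟩

theorem mx_tA {M : IntermediateField K Ω} {φ : C.A →ₐ[F] Ω} (h : ∀ a, φ a ∈ M)
    {x : M ⊗[Ok L] m.R →ₐ[M] M} (hx : ∀ y, ((x y : M) : Ω) = ptE m M φ y) :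
    (RingHom.ker x).map (tA m M) = mx φ := by
  rw [← mx_eq m φ, ← ker_mpOL m h hx, Ideal.map_map]
  rfl

/-- The points of an integral ideal are integral. -/
theorem int_pt {φ : C.A →ₐ[F] Ω} (h : m.mdO.Int (RingHom.ker (ptE m Ω φ))) (r : m.R) :
    L.nm (ev m φ r) ≤ 1 := by
  refine (intO_iff m φ).1 (fun s => ?_) r
  obtain ⟨c, hc⟩ := m.mdO.int_val' (ptE m Ω φ) h s
  rw [← hc]
  exact c.2

/-- Integral ideals over `M` are integral over `Ω`. -/
theorem int_mpOL {M : IntermediateField K Ω} {J : Ideal (M ⊗[Ok L] m.R)} (h : (m.mdM M).Int J) :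
    m.mdO.Int (J.map (m.mpOL M).toRingHom) :=
  Md.Int.map (jS := m.mpO M) (fun s => m.mpO_i M s) (fun s n hs => (m.mpO_ut M s n).2 hs) h

variable [CharZero K] [IsAlgClosure K Ω]

/-- **Moving off infinity over `M`.** -/
theorem move_M {M : IntermediateField K Ω} [FiniteDimensional K M] {φ : C.A →ₐ[F] Ω}
    (h : ∀ a, φ a ∈ M) : m.mdO.Int (RingHom.ker (ptE m Ω φ)) ∨
      ∃ (f : M ⊗[Ok L] m.R) (J : Ideal (M ⊗[Ok L] m.R)), f ≠ 0 ∧ (m.mdM M).Int J ∧
        RingHom.ker (ptE m Ω φ) * J.map (m.mpOL M).toRingHom =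
          Ideal.span {m.mpOL M f} := by
  obtain ⟨x, hx⟩ := exists_xM m h
  have hs : Function.Surjective x := fun c => ⟨algebraMap M _ c, x.commutes c⟩
  rcases (m.mdM M).pt_move x hs with h1 | ⟨f, J, hf, hJ, e⟩
  · left
    rw [← ker_mpOL m h hx]
    exact int_mpOL m h1
  · right
    refine ⟨(m.mdM M).i f, J, fun h0 => hf ((m.mdM M).inj (by rw [h0, map_zero])), hJ, ?_⟩
    rw [← ker_mpOL m h hx, ← Ideal.map_mul, e, Ideal.map_span, Set.image_singleton]
    rfl

end

end CV
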