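import Pool.Agent.Lib.MP_f80667_ag.Cv.Md
import Pool.Agent.Lib.MP_f80667_ag.Cv.DgQ

/-!
Models: ideals with finite quotient.
-/

open IsLocalRing

namespace CV

namespace Dg

variable {K A : Type} [Field K] [CommRing A] [Algebra K A] (G : Dg K A)

/-- The degree of a monic polynomial expression. -/
theorem infE_sum {x : A} {m : ℕ} (hx : G.d x = m) (hm : m ≠ 0) (r : ℕ) (c : ℕ → K) :
    G.d (x ^ r + ∑ i ∈ Finset.range r, c i • x ^ i) = (m * r : ℕ) := by
  have h1 : G.d (x ^ r) = (m * r : ℕ) := G.pow hx r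
  by_cases hr : r = 0
  · subst hr
    rw [Finset.sum_range_zero, add_zero, h1]
  have h2 : G.d (∑ i ∈ Finset.range r, c i • x ^ i) ≤ ((m * r - 1 : ℕ) : WithBot ℕ) := by
    apply G.sum_le
    intro i hi
    refine (G.smul_le _ _).trans ?_
    rw [G.pow hx]
    have h3 : m * i < m * r :=
      Nat.mul_lt_mul_of_pos_left (Finset.mem_range.1 hi) (Nat.pos_of_ne_zero hm)
    exact_mod_cast (by omega : m * i ≤ m * r - 1)
  rw [add_comm, G.add_eq, h1]
  rw [h1]
  refine lt_of_le_of_lt h2 ?_
  have h3 : 0 < m * r := Nat.mul_pos (Nat.pos_of_ne_zero hm) (Nat.pos_of_ne_zero hr)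
  exact_mod_cast (by omega : m * r - 1 < m * r)

end Dg

namespace Md

variable {V L k S SL Sk : Type} [CommRing V] [IsDomain V] [IsDiscreteValuationRing V] [Field L]
  [Field k] [Algebra V L] [IsFractionRing V L] [Algebra V k] [CommRing S] [CommRing SL]
  [CommRing Sk] [Algebra V S] [Algebra L SL] [Algebra k Sk] (M : Md V L k S SL Sk)

theorem i_smul (c : V) (s : S) : M.i (c • s) = algebraMap V L c • M.i s := by
  rw [Algebra.smul_def, map_mul, M.i_alg, ← Algebra.smul_def]

theorem q_smul (c : V) (s : S) : M.q (c • s) = algebraMap V k c • M.q s := by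
  rw [Algebra.smul_def, map_mul, M.q_alg, ← Algebra.smul_def]

/-- A monic polynomial expression in an element of unit type is of unit type. -/
theorem ut_sum {u : S} {m : ℕ} (hu : M.Ut u m) (hm : m ≠ 0) (r : ℕ) (c : ℕ → V) :
    M.Ut (u ^ r + ∑ i ∈ Finset.range r, c i • u ^ i) (m * r) := by
  constructor
  · rw [map_add, map_pow, map_sum]
    simp only [i_smul, map_pow]
    exact M.DL.infE_sum hu.1 hm r (fun i => algebraMap V L (c i))
  · rw [map_add, map_pow, map_sum]
    simp only [q_smul, map_pow]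
    exact M.Dk.infE_sum hu.2 hm r (fun i => algebraMap V k (c i))

/-- There are elements of unit type of positive degree. -/
theorem exists_ut : ∃ (u : S) (m : ℕ), m ≠ 0 ∧ M.Ut u m := by
  obtain ⟨n₀, h⟩ := M.tail
  obtain ⟨e, he⟩ := h (n₀ + 1) (by omega)
  exact ⟨e, n₀ + 1, by omega, he⟩

/-- An ideal `J` of `S` with finite quotient generates an integral ideal: `u` of unit type of degree `≥ 1` is integral
modulo `J`, a monic polynomial in `u` is of unit type. -/
theorem int_of_finite (J : Ideal S) (h : Module.Finite V (S ⧸ J)) : M.Int (J.map M.i) := by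
  obtain ⟨u, m, hm, hu⟩ := M.exists_ut
  obtain ⟨p, hp, hp'⟩ := Algebra.IsIntegral.isIntegral (R := V) (Ideal.Quotient.mk J u)
  refine ⟨_, _, M.ut_sum hu hm p.natDegree p.coeff, Ideal.mem_map_of_mem _ ?_⟩
  rw [← Ideal.Quotient.eq_zero_iff_mem, ← hp', Polynomial.eval₂_eq_sum_range,
    Finset.sum_range_succ, hp.coeff_natDegree, map_add, map_sum, map_pow, map_one, one_mul,
    add_comm]
  congr 1
  refine Finset.sum_congr rfl fun i _ => ?_
  rw [Algebra.smul_def, map_mul, map_pow]
  rfl

end Md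

end CV
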