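import Pool.Agent.Lib.MP_f80667_ag.Cv.InfC
import Pool.Agent.Lib.MP_f80667_ag.Cv.InfE

/-!
Models: moving a closed point of the generic fibre off infinity.
-/

open IsLocalRing

namespace CV.Md

variable {V L k S SL Sk : Type} [CommRing V] [IsDomain V] [IsDiscreteValuationRing V] [Field L]
  [Field k] [Algebra V L] [IsFractionRing V L] [Algebra V k] [CommRing S] [CommRing SL]
  [CommRing Sk] [Algebra V S] [Algebra L SL] [Algebra k Sk] (M : Md V L k S SL Sk)
  {L' : Type} [Field L'] [Algebra L L'] [Algebra V L'] [IsScalarTower V L L']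

theorem finite_comap {A : Type} [CommRing A] [Algebra V A] (I : Ideal A) (J : Ideal (A ⧸ I))
    (h : Module.Finite V ((A ⧸ I) ⧸ J)) :
    Module.Finite V (A ⧸ J.comap (Ideal.Quotient.mk I)) := by
  have hf : Function.Injective (Ideal.quotientMapₐ J (Ideal.Quotient.mkₐ V I)
      (le_refl (J.comap (Ideal.Quotient.mkₐ V I)))) := by
    apply Ideal.quotientMap_injective
  have : IsNoetherianRing V := inferInstance
  exact Module.Finite.of_injective (Ideal.quotientMapₐ J (Ideal.Quotient.mkₐ V I)
      (le_refl (J.comap (Ideal.Quotient.mkₐ V I)))).toLinearMap hf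

/-- The product formula. -/
theorem ker_mul [IsDedekindDomain SL] (x : SL →ₐ[L] L') {f : S} (hf : x (M.i f) = 0)
    (hq : M.q f ≠ 0) :
    RingHom.ker x * ((annKer (M.ptQ x hf)).comap (Ideal.Quotient.mk (Ideal.span {f}))).map M.i =
      Ideal.span {M.i f} := by
  have hcu : ∀ c : V, c ≠ 0 → algebraMap V L c ≠ 0 := fun c hc h =>
    hc ((map_eq_zero_iff _ (IsFractionRing.injective V L)).1 h)
  apply le_antisymm
  · rw [Ideal.mul_le]
    intro p hp
    intro y hy
    refine Submodule.span_induction (p := fun y _ => p * y ∈ Ideal.span {M.i f}) ?_ ?_ ?_ ?_ hy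
    · rintro _ ⟨s, hs, rfl⟩
      obtain ⟨c, hc, a, ha⟩ := M.loc p
      have h1 : M.ptQ x hf (Ideal.Quotient.mk _ a) = 0 := by
        rw [M.ptQ_mk, ← ha, map_mul, (RingHom.mem_ker.1 hp : x p = 0), mul_zero]
      have h2 : Ideal.Quotient.mk (Ideal.span {f}) s * Ideal.Quotient.mk _ a = 0 :=
        (Ideal.mem_comap.1 hs) _ h1
      rw [← map_mul, Ideal.Quotient.eq_zero_iff_mem, Ideal.mem_span_singleton] at h2
      obtain ⟨t, ht⟩ := h2
      rw [Ideal.mem_span_singleton]
      refine ⟨algebraMap L SL (algebraMap V L c)⁻¹ * M.i t, ?_⟩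
      have h3 : algebraMap L SL (algebraMap V L c)⁻¹ * algebraMap L SL (algebraMap V L c) = 1 := by
        rw [← map_mul, inv_mul_cancel₀ (hcu c hc), map_one]
      calc p * M.i s = algebraMap L SL (algebraMap V L c)⁻¹ *
            (algebraMap L SL (algebraMap V L c) * p) * M.i s := by
            rw [← mul_assoc, h3, one_mul]
        _ = algebraMap L SL (algebraMap V L c)⁻¹ * M.i (s * a) := by
            rw [ha, map_mul]
            ring
        _ = _ := by
            rw [ht, map_mul]
            ring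
    · rw [mul_zero]
      exact zero_mem _
    · intro y z _ _ h1 h2
      rw [mul_add]
      exact add_mem h1 h2
    · intro b y _ h1
      rw [smul_eq_mul, mul_left_comm]
      exact Ideal.mul_mem_left _ _ h1
  · have h1 : Ideal.span {M.i f} ≤ RingHom.ker x := by
      rw [Ideal.span_singleton_le_iff_mem]
      exact hf
    obtain ⟨J', hJ'⟩ := Ideal.dvd_iff_le.2 h1
    rw [hJ']
    refine Ideal.mul_mono_right ?_
    intro h hh
    obtain ⟨c, hc, s, hs⟩ := M.loc h
    have h2 : s ∈ (annKer (M.ptQ x hf)).comap (Ideal.Quotient.mk (Ideal.span {f})) := by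
      rw [Ideal.mem_comap]
      intro a' ha'
      obtain ⟨a, rfl⟩ := Ideal.Quotient.mk_surjective a'
      rw [← map_mul, Ideal.Quotient.eq_zero_iff_mem, Ideal.mem_span_singleton]
      apply M.dvd_of_dvd hq
      have h3 : M.i a ∈ RingHom.ker x := ha'
      have h4 : M.i (s * a) = algebraMap L SL (algebraMap V L c) * (M.i a * h) := by
        rw [map_mul, ← hs]
        ring
      rw [← Ideal.mem_span_singleton, hJ', h4]
      exact Ideal.mul_mem_left _ _ (Ideal.mul_mem_mul h3 hh)
    have h3 : h = algebraMap L SL (algebraMap V L c)⁻¹ * M.i s := by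
      rw [← hs, ← mul_assoc, ← map_mul, inv_mul_cancel₀ (hcu c hc), map_one, one_mul]
    rw [h3]
    exact Ideal.mul_mem_left _ _ (Ideal.mem_map_of_mem _ h2)

/-- **Moving off infinity.** The kernel of a closed point is integral or its product with an integral ideal is principal. -/
theorem pt_move [IsAdicComplete (maximalIdeal V) V] [IsDedekindDomain SL] [FiniteDimensional L L']
    (x : SL →ₐ[L] L') (hx : Function.Surjective x) :
    M.Int (RingHom.ker x) ∨
    ∃ (f : S) (J : Ideal SL), f ≠ 0 ∧ M.Int J ∧ RingHom.ker x * J = Ideal.span {M.i f} := by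
  rcases M.pt_dich x with ⟨u, n, hu, hx0⟩ | ⟨a, ha, ha1⟩
  · exact Or.inl ⟨u, n, hu, hx0⟩
  · right
    obtain ⟨f, n, hf, hn, hm⟩ := M.pt_exact x hx ha ha1
    have hq : M.q f ≠ 0 := M.Dk.ne_zero hn
    have hf0 : f ≠ 0 := by
      rintro rfl
      exact hq (map_zero _)
    refine ⟨f, _, hf0, M.int_of_finite _ (finite_comap _ (annKer (M.ptQ x hf)) ?_),
      M.ker_mul x hf hq⟩
    have := faithful V L L'
    have := M.tf_quot hq
    have : Algebra.IsAlgebraic V L' := (IsFractionRing.comap_isAlgebraic_iff (K := L)).2 inferInstance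
    have hr := M.finrank_quot hq hm
    have h0 : Module.finrank V (S ⧸ Ideal.span {f}) ≠ 0 := by
      rw [hr]
      have := Module.finrank_pos (R := L) (M := L')
      omega
    obtain ⟨b, hb⟩ := M.exists_fam hn
    obtain ⟨t, ht⟩ := M.exists_indep x hx
    exact ((move_le (M.ptQ x hf) h0 (fun i => Ideal.Quotient.mk _ (t i)) ht
      (a := Ideal.Quotient.mk _ a) ha (mk_sub_one ha1 _) b hb).2 hr).1

end CV.Md
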