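import Pool.Agent.Lib.MP_f80667_ag.Cv.Dg

/-!
Models over a valuation ring `V` (with fraction field `L` and residue field `k`; for example a discrete valuation ring, or
the ring of integers of an algebraic closure) of curves with one place at infinity: a `V`-algebra `S`, its generic fibre
`SL` and its special fibre `Sk`, both with a degree function.
-/

open IsLocalRing

namespace CV

/-- A model over a valuation ring. -/
structure Md (V L k S SL Sk : Type) [CommRing V] [IsDomain V] [ValuationRing V] [Field L]
    [Field k] [Algebra V L] [IsFractionRing V L] [Algebra V k] [CommRing S] [CommRing SL]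
    [CommRing Sk] [Algebra V S] [Algebra L SL] [Algebra k Sk] where
  /-- the residue map -/
  res_surj : Function.Surjective (algebraMap V k)
  res_zero : ∀ c : V, algebraMap V k c = 0 ↔ c ∈ maximalIdeal V
  /-- the map to the generic fibre -/
  i : S →+* SL
  i_alg : ∀ c : V, i (algebraMap V S c) = algebraMap L SL (algebraMap V L c)
  inj : Function.Injective i
  loc : ∀ x : SL, ∃ c : V, c ≠ 0 ∧ ∃ s : S, algebraMap L SL (algebraMap V L c) * x = i s
  /-- the map to the special fibre -/
  q : S →+* Sk
  q_alg : ∀ c : V, q (algebraMap V S c) = algebraMap k Sk (algebraMap V k c)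
  surj : Function.Surjective q
  prim : ∀ s : S, s ≠ 0 → ∃ (c : V) (t : S), s = algebraMap V S c * t ∧ q t ≠ 0
  /-- the degree on the generic fibre -/
  DL : Dg L SL
  /-- the degree on the special fibre -/
  Dk : Dg k Sk
  le : ∀ s : S, Dk.d (q s) ≤ DL.d (i s)
  tail : ∃ n₀ : ℕ, ∀ n : ℕ, n₀ ≤ n → ∃ e : S, DL.d (i e) = n ∧ Dk.d (q e) = n
  fin : ∀ n : ℕ, ∃ t : Finset S, ∀ s : S, DL.d (i s) ≤ n → s ∈ Submodule.span V (t : Set S)

namespace Md

variable {V L k S SL Sk : Type} [CommRing V] [IsDomain V] [ValuationRing V] [Field L] [Field k]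
  [Algebra V L] [IsFractionRing V L] [Algebra V k] [CommRing S] [CommRing SL] [CommRing Sk]
  [Algebra V S] [Algebra L SL] [Algebra k Sk] (M : Md V L k S SL Sk)

/-- `u` is of unit type of degree `n`: its degrees on both fibres are `n`. -/
def Ut (u : S) (n : ℕ) : Prop := M.DL.d (M.i u) = n ∧ M.Dk.d (M.q u) = n

/-- An ideal of the generic fibre is integral if it contains an element of unit type. -/
def Int (J : Ideal SL) : Prop := ∃ (u : S) (n : ℕ), M.Ut u n ∧ M.i u ∈ J

/-- The specialisation of an ideal of the generic fibre. -/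
def sp (J : Ideal SL) : Ideal Sk := (J.comap M.i).map M.q

end Md

end CV
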