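import Pool.Agent.Lib.MP_f80667_ag.Cv.InfD
import Pool.Agent.Lib.MP_f80667_ag.Cv.Md
import Pool.Agent.Lib.MP_f80667_ag.Cv.DgQ

/-!
Models: closed points of the generic fibre.
-/

open IsLocalRing

namespace CV

/-- A monic polynomial in an element of positive degree. -/
theorem infA_monic {K A : Type} [Field K] [CommRing A] [Algebra K A] (G : Dg K A)
    {P : Polynomial K} (hP : P.Monic) {u : A} {n : ℕ} (hn : 0 < n) (hu : G.d u = n) :
    G.d (Polynomial.aeval u P) = (n * P.natDegree : ℕ) := by
  have h1 : Polynomial.aeval u P =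
      u ^ P.natDegree + ∑ j ∈ Finset.range P.natDegree, P.coeff j • u ^ j := by
    conv_lhs => rw [hP.as_sum]
    rw [map_add, map_sum, map_pow, Polynomial.aeval_X]
    congr 1
    refine Finset.sum_congr rfl fun j _ => ?_
    rw [map_mul, Polynomial.aeval_C, map_pow, Polynomial.aeval_X, Algebra.smul_def]
  rw [h1]
  have h2 := G.pow hu P.natDegree
  rw [G.add_eq', h2]
  rw [h2]
  rcases Nat.eq_zero_or_pos P.natDegree with h0 | h0
  · rw [h0, Finset.range_zero, Finset.sum_empty, G.zero]
    exact WithBot.bot_lt_coe _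
  · refine lt_of_le_of_lt (G.sum_le _ _ ((n * (P.natDegree - 1) : ℕ) : WithBot ℕ) ?_) ?_
    · intro j hj
      rw [Finset.mem_range] at hj
      refine (G.smul_le _ _).trans ?_
      rw [G.pow hu j]
      exact_mod_cast Nat.mul_le_mul_left n (by omega)
    · exact_mod_cast Nat.mul_lt_mul_of_pos_left (by omega) hn

/-- The value of a polynomial under a homomorphism. -/
theorem infA_ev {V K S A : Type} [CommRing V] [Field K] [CommRing S] [CommRing A] [Algebra V S]
    [Algebra K A] [Algebra V K] (g : S →+* A)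
    (hg : ∀ c : V, g (algebraMap V S c) = algebraMap K A (algebraMap V K c)) (u : S)
    (Q : Polynomial V) :
    g (Polynomial.aeval u Q) = Polynomial.aeval (g u) (Q.map (algebraMap V K)) := by
  have h1 : g.comp (algebraMap V S) = (algebraMap K A).comp (algebraMap V K) :=
    RingHom.ext hg
  rw [Polynomial.aeval_def, Polynomial.aeval_def, Polynomial.hom_eval₂, h1,
    Polynomial.eval₂_map]

end CV

namespace CV.Md

variable {V L k S SL Sk : Type} [CommRing V] [IsDomain V] [IsDiscreteValuationRing V] [Field L]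
  [Field k] [Algebra V L] [IsFractionRing V L] [Algebra V k] [CommRing S] [CommRing SL]
  [CommRing Sk] [Algebra V S] [Algebra L SL] [Algebra k Sk] (M : Md V L k S SL Sk)
  {L' : Type} [Field L'] [Algebra L L'] [Algebra V L'] [IsScalarTower V L L']

/-- The point as a homomorphism on the model. -/
def pt (x : SL →ₐ[L] L') : S →ₐ[V] L' :=
  { toRingHom := (x : SL →+* L').comp M.i
    commutes' := fun c => by
      change x (M.i (algebraMap V S c)) = algebraMap V L' c
      rw [M.i_alg, AlgHom.commutes, ← IsScalarTower.algebraMap_apply] }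

theorem pt_apply (x : SL →ₐ[L] L') (s : S) : M.pt x s = x (M.i s) := rfl

/-- The kernel of a closed point contains an element of unit type or an element which is `1` modulo the maximal ideal.

Proof. `u` of unit type of degree `n ≥ 1`, `y = x (i u)`, algebraic over `L`; `inf_dich` for its minimal polynomial: in the
first case `Q (u)` is of unit type of degree `n (deg Q)`, in the second case `Q (u) - 1` is in the maximal ideal times `S`. -/
theorem pt_dich [IsAdicComplete (maximalIdeal V) V] [Algebra.IsAlgebraic L L'] (x : SL →ₐ[L] L') :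
    (∃ (u : S) (n : ℕ), M.Ut u n ∧ x (M.i u) = 0) ∨
    (∃ a : S, x (M.i a) = 0 ∧ a - 1 ∈ (maximalIdeal V) • (⊤ : Submodule V S)) := by
  obtain ⟨n₀, hn₀⟩ := M.tail
  obtain ⟨u, hu1, hu2⟩ := hn₀ (max n₀ 1) (le_max_left _ _)
  have hn : 0 < max n₀ 1 := lt_of_lt_of_le Nat.one_pos (le_max_right _ _)
  have hint : IsIntegral L (x (M.i u)) := Algebra.IsIntegral.isIntegral _
  have hval : ∀ Q : Polynomial V, x (M.i (Polynomial.aeval u Q)) =
      Polynomial.aeval (x (M.i u)) (Q.map (algebraMap V L)) := by
    intro Q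
    rw [Polynomial.aeval_map_algebraMap, ← M.pt_apply x, ← M.pt_apply x,
      Polynomial.aeval_algHom_apply]
  rcases inf_dich (V := V) (minpoly L (x (M.i u))) (minpoly.monic hint)
    (minpoly.irreducible hint) with ⟨Q, hQ, hQP⟩ | ⟨Q, hQ0, hQ1, c, hc⟩
  · left
    refine ⟨Polynomial.aeval u Q, max n₀ 1 * Q.natDegree, ⟨?_, ?_⟩, ?_⟩
    · rw [infA_ev M.i M.i_alg u Q, infA_monic M.DL (hQ.map _) hn hu1, hQ.natDegree_map]
    · rw [infA_ev M.q M.q_alg u Q, infA_monic M.Dk (hQ.map _) hn hu2, hQ.natDegree_map]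
    · rw [hval, hQP, minpoly.aeval]
  · right
    refine ⟨Polynomial.aeval u Q, ?_, ?_⟩
    · rw [hval, hc, map_mul, minpoly.aeval, mul_zero]
    · rw [Polynomial.aeval_eq_sum_range, Finset.sum_range_succ', hQ0, one_smul, pow_zero,
        add_sub_cancel_right]
      exact Submodule.sum_mem _ fun j _ =>
        Submodule.smul_mem_smul (hQ1 _ (Nat.succ_pos j)) Submodule.mem_top

end CV.Md
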