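import Pool.Agent.Lib.MP_f80667_ag.Cv.Md
import Pool.Agent.Lib.MP_f80667_ag.Cv.DgQ

/-!
Models: the quotient `S / (f)` for `f` not divisible by the uniformizer.
-/

open IsLocalRing

namespace CV.Md

variable {V L k S SL Sk : Type} [CommRing V] [IsDomain V] [IsDiscreteValuationRing V] [Field L]
  [Field k] [Algebra V L] [IsFractionRing V L] [Algebra V k] [CommRing S] [CommRing SL]
  [CommRing Sk] [Algebra V S] [Algebra L SL] [Algebra k Sk] (M : Md V L k S SL Sk)

/-- An element of the kernel of `q` is divisible by the uniformizer. -/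
lemma infR_div {ϖ : V} (hϖ : Irreducible ϖ) {t : S} (ht : M.q t = 0) :
    ∃ t' : S, t = algebraMap V S ϖ * t' := by
  by_cases h0 : t = 0
  · exact ⟨0, by rw [h0, mul_zero]⟩
  obtain ⟨c, t', rfl, hq⟩ := M.prim t h0
  have := M.Dk.isDomain
  rw [map_mul, M.q_alg, mul_eq_zero, or_iff_left hq, FaithfulSMul.algebraMap_eq_zero_iff,
    M.res_zero, (IsDiscreteValuationRing.irreducible_iff_uniformizer ϖ).1 hϖ,
    Ideal.mem_span_singleton'] at ht
  obtain ⟨d, rfl⟩ := ht
  exact ⟨algebraMap V S d * t', by rw [map_mul]; ring⟩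

include M in
lemma infR_reg {c : V} (hc : c ≠ 0) {x y : S} (h : algebraMap V S c * x = algebraMap V S c * y) :
    x = y := by
  have := M.DL.isDomain
  apply M.inj
  have h1 := congrArg M.i h
  rw [map_mul, map_mul, M.i_alg] at h1
  refine mul_left_cancel₀ ?_ h1
  rw [Ne, FaithfulSMul.algebraMap_eq_zero_iff, FaithfulSMul.algebraMap_eq_zero_iff]
  exact hc

lemma infR_pow {f : S} (hf : M.q f ≠ 0) {ϖ : V} (hϖ : Irreducible ϖ) (n : ℕ) :
    ∀ s t : S, algebraMap V S ϖ ^ n * s = f * t → f ∣ s := by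
  induction n with
  | zero => intro s t h; exact ⟨t, by rw [← h, pow_zero, one_mul]⟩
  | succ n ih =>
    intro s t h
    have := M.Dk.isDomain
    have h1 : M.q t = 0 := by
      have h2 := congrArg M.q h
      have h3 : algebraMap V k ϖ = 0 := by
        rw [M.res_zero, (IsDiscreteValuationRing.irreducible_iff_uniformizer ϖ).1 hϖ]
        exact Ideal.mem_span_singleton_self ϖ
      rw [map_mul, map_mul, map_pow, M.q_alg, h3, map_zero, zero_pow (Nat.succ_ne_zero n),
        zero_mul] at h2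
      exact (mul_eq_zero.1 h2.symm).resolve_left hf
    obtain ⟨t', rfl⟩ := M.infR_div hϖ h1
    refine ih s t' (M.infR_reg hϖ.ne_zero ?_)
    rw [← mul_assoc, ← pow_succ', h]
    ring

lemma infR_cancel {f : S} (hf : M.q f ≠ 0) {c : V} (hc : c ≠ 0) {s t : S}
    (h : algebraMap V S c * s = f * t) : f ∣ s := by
  obtain ⟨ϖ, hϖ⟩ := IsDiscreteValuationRing.exists_irreducible V
  obtain ⟨n, u, rfl⟩ := IsDiscreteValuationRing.eq_unit_mul_pow_irreducible hc hϖ
  refine M.infR_pow hf hϖ n s (algebraMap V S (↑u⁻¹ : V) * t) ?_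
  have h1 : algebraMap V S (↑u⁻¹ : V) * algebraMap V S (u : V) = 1 := by
    rw [← map_mul, Units.inv_mul, map_one]
  calc algebraMap V S ϖ ^ n * s
      = (algebraMap V S (↑u⁻¹ : V) * algebraMap V S (u : V)) * algebraMap V S ϖ ^ n * s := by
        rw [h1, one_mul]
    _ = algebraMap V S (↑u⁻¹ : V) * (algebraMap V S ((u : V) * ϖ ^ n) * s) := by
        rw [map_mul, map_pow]; ring
    _ = f * (algebraMap V S (↑u⁻¹ : V) * t) := by rw [h]; ring

/-- `(i f) ∩ S = (f)`. Proof: `i s = i f * y`, take `c ≠ 0` with `c y = i t`: `c s = f t`; cancel the uniformizer from `c` as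
long as `c` is not a unit: `q f * q t = 0` and `Sk` is a domain. -/
theorem dvd_of_dvd {f : S} (hf : M.q f ≠ 0) {s : S} (h : M.i f ∣ M.i s) : f ∣ s := by
  obtain ⟨y, hy⟩ := h
  obtain ⟨c, hc, t, ht⟩ := M.loc y
  refine M.infR_cancel hf hc (t := t) (M.inj ?_)
  rw [map_mul, map_mul, M.i_alg, hy, ← ht]
  ring

/-- `S / (f)` is torsion free. (As in `dvd_of_dvd`.) -/
theorem tf_quot {f : S} (hf : M.q f ≠ 0) : Module.IsTorsionFree V (S ⧸ Ideal.span {f}) := by
  refine ⟨fun c hc x y hxy => ?_⟩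
  rw [← sub_eq_zero] at hxy ⊢
  rw [← smul_sub] at hxy
  obtain ⟨s, hs⟩ := Ideal.Quotient.mk_surjective (x - y)
  rw [← hs] at hxy ⊢
  rw [Algebra.smul_def] at hxy
  have h1 : Ideal.Quotient.mk (Ideal.span {f}) (algebraMap V S c * s) = 0 := by
    rw [map_mul]; exact hxy
  rw [Ideal.Quotient.eq_zero_iff_mem, Ideal.mem_span_singleton] at h1 ⊢
  obtain ⟨t, ht⟩ := h1
  exact M.infR_cancel hf hc.ne_zero ht

/-- The rank of `S / (f)` is the degree of `f` on the generic fibre. (`Dg.finrank_quot`; `SL / (i f)` is the localization of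
`S / (f)`: the elements of a basis of `SL / (i f)`, multiplied by constants, come from `S`; `dvd_of_dvd`.) -/
theorem finrank_quot {f : S} (hf : M.q f ≠ 0) {m : ℕ} (hm : M.DL.d (M.i f) = m) :
    Module.finrank V (S ⧸ Ideal.span {f}) = m := by
  let : Algebra V SL := ((algebraMap L SL).comp (algebraMap V L)).toAlgebra
  have : IsScalarTower V L SL := IsScalarTower.of_algebraMap_eq' rfl
  let iA : S →ₐ[V] SL := { M.i with commutes' := M.i_alg }
  have hle : Ideal.span {f} ≤ (Ideal.span {M.i f}).comap iA := by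
    rw [Ideal.span_le, Set.singleton_subset_iff]
    exact Ideal.mem_span_singleton_self (M.i f)
  let g : (S ⧸ Ideal.span {f}) →ₗ[V] (SL ⧸ Ideal.span {M.i f}) :=
    (Ideal.quotientMapₐ (Ideal.span {M.i f}) iA (I := Ideal.span {f}) hle).toLinearMap
  have hg : ∀ s : S, g (Ideal.Quotient.mk _ s) = Ideal.Quotient.mk (Ideal.span {M.i f}) (M.i s) :=
    fun s => rfl
  have hinj : Function.Injective g := by
    rw [injective_iff_map_eq_zero]
    intro x hx
    obtain ⟨s, rfl⟩ := Ideal.Quotient.mk_surjective x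
    rw [hg, Ideal.Quotient.eq_zero_iff_mem, Ideal.mem_span_singleton] at hx
    rw [Ideal.Quotient.eq_zero_iff_mem, Ideal.mem_span_singleton]
    exact M.dvd_of_dvd hf hx
  have hloc : IsLocalizedModule (nonZeroDivisors V) g := by
    refine ⟨fun c => ?_, fun y => ?_, fun {x y} hxy => ⟨1, by rw [hinj hxy]⟩⟩
    · have hc : algebraMap V L c ≠ 0 := IsFractionRing.to_map_ne_zero_of_mem_nonZeroDivisors c.2
      rw [Module.End.isUnit_iff]
      constructor
      · intro x y hxy
        simp only [Module.algebraMap_end_apply] at hxy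
        rw [← IsScalarTower.algebraMap_smul L (c : V) x,
          ← IsScalarTower.algebraMap_smul L (c : V) y] at hxy
        exact smul_right_injective _ hc hxy
      · intro y
        refine ⟨(algebraMap V L c)⁻¹ • y, ?_⟩
        rw [Module.algebraMap_end_apply, ← IsScalarTower.algebraMap_smul L (c : V), smul_smul,
          mul_inv_cancel₀ hc, one_smul]
    · obtain ⟨x, rfl⟩ := Ideal.Quotient.mk_surjective y
      obtain ⟨c, hc, s, hs⟩ := M.loc x
      refine ⟨⟨Ideal.Quotient.mk _ s, ⟨c, mem_nonZeroDivisors_of_ne_zero hc⟩⟩, ?_⟩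
      rw [hg, ← hs, map_mul]
      change (c : V) • (Ideal.Quotient.mk (Ideal.span {M.i f}) x) = _
      rw [Algebra.smul_def]
      rfl
  rw [← IsLocalizedModule.finrank_eq (nonZeroDivisors V) g le_rfl,
    ← IsLocalization.finrank_eq L (nonZeroDivisors V) le_rfl, M.DL.finrank_quot hm]

/-- A family of `n = deg (q f)` elements of `S / (f)` which is independent modulo the maximal ideal: lift a basis of
`Sk / (q f)` (`Dg.finrank_quot`). -/
theorem exists_fam {f : S} {n : ℕ} (hn : M.Dk.d (M.q f) = n) :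
    ∃ b : Fin n → S ⧸ Ideal.span {f}, ∀ c : Fin n → V,
      ∑ i, c i • b i ∈ (maximalIdeal V) • (⊤ : Submodule V (S ⧸ Ideal.span {f})) →
      ∀ i, c i ∈ maximalIdeal V := by
  have hfin := M.Dk.finite_quot (M.Dk.ne_zero hn)
  let B := Module.finBasisOfFinrankEq k (Sk ⧸ Ideal.span {M.q f}) (M.Dk.finrank_quot hn)
  have hle : Ideal.span {f} ≤ (Ideal.span {M.q f}).comap M.q := by
    rw [Ideal.span_le, Set.singleton_subset_iff]
    exact Ideal.mem_span_singleton_self (M.q f)
  let π : (S ⧸ Ideal.span {f}) →+* (Sk ⧸ Ideal.span {M.q f}) :=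
    Ideal.quotientMap (Ideal.span {M.q f}) M.q hle
  have hπs : ∀ (c : V) (x : S ⧸ Ideal.span {f}), π (c • x) = algebraMap V k c • π x := by
    intro c x
    obtain ⟨s, rfl⟩ := Ideal.Quotient.mk_surjective x
    rw [Algebra.smul_def, Algebra.smul_def, map_mul]
    congr 1
    change Ideal.Quotient.mk (Ideal.span {M.q f}) (M.q (algebraMap V S c)) = _
    rw [M.q_alg]
    rfl
  have hπ : ∀ x ∈ (maximalIdeal V) • (⊤ : Submodule V (S ⧸ Ideal.span {f})), π x = 0 := by
    intro x hx
    induction hx using Submodule.smul_induction_on' with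
    | smul c hc x hx =>
      rw [hπs, (M.res_zero c).2 hc, zero_smul]
    | add x hx y hy h1 h2 => rw [map_add, h1, h2, add_zero]
  have hsurj : ∀ i : Fin n, ∃ s : S, Ideal.Quotient.mk (Ideal.span {M.q f}) (M.q s) = B i := by
    intro i
    obtain ⟨y, hy⟩ := Ideal.Quotient.mk_surjective (B i)
    obtain ⟨s, hs⟩ := M.surj y
    exact ⟨s, by rw [hs, hy]⟩
  choose s hs using hsurj
  refine ⟨fun i => Ideal.Quotient.mk _ (s i), fun c hc i => ?_⟩
  have h1 := hπ _ hc
  rw [map_sum] at h1
  have h2 : ∑ i, algebraMap V k (c i) • B i = 0 := by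
    rw [← h1]
    refine Finset.sum_congr rfl fun i _ => ?_
    rw [hπs, ← hs i]
    rfl
  have h3 := Fintype.linearIndependent_iff.1 B.linearIndependent _ h2 i
  exact (M.res_zero (c i)).1 h3

end CV.Md
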