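import Pool.Agent.Lib.MP_f80667_ag.Cv.InfA
import Pool.Agent.Lib.MP_f80667_ag.Cv.InfR
import Pool.Agent.Lib.MP_f80667_ag.Cpe.Mv

/-!
Models: the degree of an element of the kernel of a point which is not integral drops.
-/

open IsLocalRing

namespace CV.Md

variable {V L k S SL Sk : Type} [CommRing V] [IsDomain V] [IsDiscreteValuationRing V] [Field L]
  [Field k] [Algebra V L] [IsFractionRing V L] [Algebra V k] [CommRing S] [CommRing SL]
  [CommRing Sk] [Algebra V S] [Algebra L SL] [Algebra k Sk] (M : Md V L k S SL Sk)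
  {L' : Type} [Field L'] [Algebra L L'] [Algebra V L'] [IsScalarTower V L L']

/-- The point on the quotient. -/
def ptQ (x : SL →ₐ[L] L') {f : S} (hf : x (M.i f) = 0) : S ⧸ Ideal.span {f} →ₐ[V] L' :=
  Ideal.Quotient.liftₐ _ (M.pt x) (fun a ha => by
    obtain ⟨t, rfl⟩ := Ideal.mem_span_singleton'.1 ha
    rw [map_mul]
    change _ * x (M.i f) = 0
    rw [hf, mul_zero])

theorem ptQ_mk (x : SL →ₐ[L] L') {f : S} (hf : x (M.i f) = 0) (s : S) :
    M.ptQ x hf (Ideal.Quotient.mk _ s) = x (M.i s) := rfl

/-- A basis of `L'` up to constants in `V`. -/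
theorem exists_indep [FiniteDimensional L L'] (x : SL →ₐ[L] L') (hx : Function.Surjective x) :
    ∃ t : Fin (Module.finrank L L') → S, LinearIndependent V (fun i => x (M.i (t i))) := by
  let B := Module.finBasis L L'
  choose s hs using fun i => hx (B i)
  choose c hc t ht using fun i => M.loc (s i)
  refine ⟨t, ?_⟩
  have h1 : ∀ i, x (M.i (t i)) = algebraMap V L (c i) • B i := fun i => by
    rw [← ht i, map_mul, AlgHom.commutes, hs i, Algebra.smul_def]
  rw [Fintype.linearIndependent_iff]
  intro g hg i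
  have h2 : ∑ j, (algebraMap V L (g j) * algebraMap V L (c j)) • B j = 0 := by
    rw [← hg]
    refine Finset.sum_congr rfl fun j _ => ?_
    rw [h1 j, mul_smul, algebraMap_smul]
  have h3 := Fintype.linearIndependent_iff.1 B.linearIndependent _ h2 i
  rcases mul_eq_zero.1 h3 with h4 | h4
  · exact (map_eq_zero_iff _ (IsFractionRing.injective V L)).1 h4
  · exact absurd ((map_eq_zero_iff _ (IsFractionRing.injective V L)).1 h4) (hc i)

theorem faithful (V L L' : Type) [CommRing V] [Field L] [Field L'] [Algebra V L] [Algebra L L']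
    [Algebra V L'] [IsScalarTower V L L'] [IsFractionRing V L] : FaithfulSMul V L' := by
  rw [faithfulSMul_iff_algebraMap_injective, IsScalarTower.algebraMap_eq V L L']
  exact (algebraMap L L').injective.comp (IsFractionRing.injective V L)

theorem mk_sub_one {a : S} (ha1 : a - 1 ∈ (maximalIdeal V) • (⊤ : Submodule V S)) (I : Ideal S) :
    Ideal.Quotient.mk I a - 1 ∈ (maximalIdeal V) • (⊤ : Submodule V (S ⧸ I)) := by
  have h := Submodule.mem_map_of_mem (f := (Ideal.Quotient.mkₐ V I).toLinearMap) ha1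
  rw [Submodule.map_smul''] at h
  have h2 := Submodule.smul_mono le_rfl le_top h
  simpa using h2

/-- In the second case the degree drops by at least the degree of the point: `CV.move_le` for `Q = S / (f)`. -/
theorem pt_drop [FiniteDimensional L L'] (x : SL →ₐ[L] L') (hx : Function.Surjective x)
    {a : S} (ha : x (M.i a) = 0) (ha1 : a - 1 ∈ (maximalIdeal V) • (⊤ : Submodule V S))
    {f : S} (hf : x (M.i f) = 0) {m n : ℕ} (hm : M.DL.d (M.i f) = m) (hn : M.Dk.d (M.q f) = n) :
    n + Module.finrank L L' ≤ m := by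
  have hqf : M.q f ≠ 0 := M.Dk.ne_zero hn
  have := faithful V L L'
  have := M.tf_quot hqf
  have : Algebra.IsAlgebraic V L' := (IsFractionRing.comap_isAlgebraic_iff (K := L)).2 inferInstance
  have hr := M.finrank_quot hqf hm
  have h0 : Module.finrank V (S ⧸ Ideal.span {f}) ≠ 0 := by
    rw [hr]
    rintro rfl
    obtain ⟨c, hc⟩ := M.DL.const (by rw [hm]; rfl)
    have h1 : c = 0 := by
      rw [hc, AlgHom.commutes] at hf
      exact (map_eq_zero _).1 hf
    rw [hc, h1, map_zero, M.DL.zero] at hm
    exact WithBot.bot_ne_coe hm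
  obtain ⟨b, hb⟩ := M.exists_fam hn
  obtain ⟨t, ht⟩ := M.exists_indep x hx
  have h1 := (move_le (M.ptQ x hf) h0 (fun i => Ideal.Quotient.mk _ (t i)) ht
    (a := Ideal.Quotient.mk _ a) ha (mk_sub_one ha1 _) b hb).1
  rwa [hr] at h1

end CV.Md
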