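import Pool.Agent.Lib.MP_f80667_ag.Cv.Md
import Pool.Agent.Lib.MP_f80667_ag.Cv.DgQ

/-!
Models: lifting with bounded degree.
-/

open IsLocalRing

namespace CV.Md

variable {V L k S SL Sk : Type} [CommRing V] [IsDomain V] [IsDiscreteValuationRing V] [Field L]
  [Field k] [Algebra V L] [IsFractionRing V L] [Algebra V k] [CommRing S] [CommRing SL]
  [CommRing Sk] [Algebra V S] [Algebra L SL] [Algebra k Sk] (M : Md V L k S SL Sk)

/-- multiples by elements of the valuation ring on the generic fibre -/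
private theorem infQ_i (a : V) (e : S) :
    M.i (algebraMap V S a * e) = algebraMap V L a • M.i e := by
  rw [map_mul, M.i_alg, Algebra.smul_def]

private theorem infQ_q (a : V) (e : S) :
    M.q (algebraMap V S a * e) = algebraMap V k a • M.q e := by
  rw [map_mul, M.q_alg, Algebra.smul_def]

private theorem infQ_step {N : ℕ} (s e : S) (he : M.Ut e (N + 1))
    (hs : M.DL.d (M.i s) = ((N + 1 : ℕ) : WithBot ℕ)) (hk : M.Dk.d (M.q s) ≤ N) :
    ∃ s' : S, M.q s' = M.q s ∧ M.DL.d (M.i s') ≤ N := by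
  obtain ⟨he1, he2⟩ := he
  have he0 : M.i e ≠ 0 := M.DL.ne_zero he1
  obtain ⟨c, hc⟩ := M.DL.lead (M.i s) (M.i e) he0 (by rw [hs, he1])
  rw [he1, M.DL.lt_succ] at hc
  have hlt : ((N : ℕ) : WithBot ℕ) < ((N + 1 : ℕ) : WithBot ℕ) := by exact_mod_cast Nat.lt_succ_self N
  -- the integral case
  have key : ∀ a : V, algebraMap V L a = c → ∃ s' : S, M.q s' = M.q s ∧ M.DL.d (M.i s') ≤ N := by
    intro a ha
    have h1 : M.DL.d (M.i (s - algebraMap V S a * e)) ≤ N := by
      rw [map_sub, M.infQ_i, ha]; exact hc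
    by_cases hm : a ∈ maximalIdeal V
    · refine ⟨s - algebraMap V S a * e, ?_, h1⟩
      rw [map_sub, M.infQ_q, (M.res_zero a).2 hm, zero_smul, sub_zero]
    · exfalso
      have h2 : algebraMap V k a ≠ 0 := fun h0 => hm ((M.res_zero a).1 h0)
      have h3 : M.Dk.d (algebraMap V k a • M.q e) = ((N + 1 : ℕ) : WithBot ℕ) := by
        rw [M.Dk.smul h2, he2]
      have h4 := M.le (s - algebraMap V S a * e)
      rw [map_sub, M.infQ_q, M.Dk.sub_eq (by rw [h3]; exact lt_of_le_of_lt hk hlt), h3] at h4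
      exact absurd (h4.trans h1) (not_le.2 hlt)
  rcases ValuationRing.isInteger_or_isInteger V c with ⟨a, ha⟩ | ⟨b, hb⟩
  · exact key a ha
  by_cases hc0 : c = 0
  · exact key 0 (by rw [map_zero, hc0])
  by_cases hbm : b ∈ maximalIdeal V
  · exfalso
    have h1 : M.DL.d (M.i (algebraMap V S b * s - e)) ≤ N := by
      have h2 : M.i (algebraMap V S b * s - e) = c⁻¹ • (M.i s - c • M.i e) := by
        rw [map_sub, M.infQ_i, hb, smul_sub, smul_smul, inv_mul_cancel₀ hc0, one_smul]
      rw [h2, M.DL.smul (inv_ne_zero hc0)]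
      exact hc
    have h4 := M.le (algebraMap V S b * s - e)
    rw [map_sub, M.infQ_q, (M.res_zero b).2 hbm, zero_smul, zero_sub, M.Dk.neg, he2] at h4
    exact absurd (h4.trans h1) (not_le.2 hlt)
  · have hu : IsUnit b := by
      by_contra hnu
      exact hbm ((mem_maximalIdeal b).2 hnu)
    obtain ⟨u, rfl⟩ := hu
    refine key ((u⁻¹ : Vˣ) : V) ?_
    have h5 : algebraMap V L ((u⁻¹ : Vˣ) : V) * algebraMap V L (u : V) = 1 := by
      rw [← map_mul, Units.inv_mul, map_one]
    rw [hb] at h5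
    calc algebraMap V L ((u⁻¹ : Vˣ) : V) = algebraMap V L ((u⁻¹ : Vˣ) : V) * c⁻¹ * c := by
          rw [mul_assoc, inv_mul_cancel₀ hc0, mul_one]
      _ = c := by rw [h5, one_mul]

/-- The elements of `Sk` of degree `≤ n` lift to elements of degree `≤ n` (`n + 1 ≥ n₀`).

Proof. Take any lift `s`, `N` the degree of `i s`. If `N > n` (so `N ≥ n₀`): `e` of unit type of degree `N`, `c : L` with
`d (i s - c e) < N`. If `c` is not in `V`, then `c⁻¹` is in the maximal ideal and `c⁻¹ s - e` is in `S` (up to the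
identification), of degree `< N` on the generic fibre and `= N` on the special one: contradiction with `le`. If `c` is a unit
of `V`, then `s - c e` has degree `N` on the special fibre (`q s = x` has degree `≤ n < N`): the same contradiction.
So `c` is in the maximal ideal, `s - c e` is another lift of smaller degree: induction on `N`. -/
theorem lift_le {n₀ : ℕ} (h : ∀ n : ℕ, n₀ ≤ n → ∃ e : S, M.Ut e n) {n : ℕ} (hn : n₀ ≤ n + 1) (x : Sk)
    (hx : M.Dk.d x ≤ n) : ∃ s : S, M.q s = x ∧ M.DL.d (M.i s) ≤ n := by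
  obtain ⟨s₀, hs₀⟩ := M.surj x
  have main : ∀ N : ℕ, ∀ s : S, M.q s = x → M.DL.d (M.i s) ≤ N →
      ∃ s' : S, M.q s' = x ∧ M.DL.d (M.i s') ≤ n := by
    intro N
    induction N with
    | zero =>
      intro s hs h0
      exact ⟨s, hs, h0.trans (by exact_mod_cast Nat.zero_le n)⟩
    | succ N ih =>
      intro s hs h0
      by_cases h1 : M.DL.d (M.i s) ≤ n
      · exact ⟨s, hs, h1⟩
      by_cases h2 : M.DL.d (M.i s) ≤ N
      · exact ih s hs h2
      have h3 : M.DL.d (M.i s) = ((N + 1 : ℕ) : WithBot ℕ) := by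
        refine le_antisymm h0 ?_
        by_contra h4
        exact h2 (M.DL.lt_succ.1 (not_le.1 h4))
      have h4 : n ≤ N := by
        rw [h3] at h1
        by_contra h5
        exact h1 (by exact_mod_cast (by omega : N + 1 ≤ n))
      obtain ⟨e, he⟩ := h (N + 1) (by omega)
      obtain ⟨s', hs', hd⟩ := M.infQ_step s e he h3 (by
        rw [hs]; exact hx.trans (by exact_mod_cast h4))
      exact ih s' (by rw [hs', hs]) hd
  obtain ⟨N, hN⟩ := M.DL.exists_mem_L (M.i s₀)
  exact main N s₀ hs₀ (M.DL.mem_L.1 hN)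

end CV.Md
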