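import Pool.Agent.Lib.MP_f80667_ag.Cv.InfB
import Pool.Agent.Lib.MP_f80667_ag.Cv.InfQ

/-!
Models: the degree drops exactly.
-/

open IsLocalRing

namespace CV.Md

variable {V L k S SL Sk : Type} [CommRing V] [IsDomain V] [IsDiscreteValuationRing V] [Field L]
  [Field k] [Algebra V L] [IsFractionRing V L] [Algebra V k] [CommRing S] [CommRing SL]
  [CommRing Sk] [Algebra V S] [Algebra L SL] [Algebra k Sk] (M : Md V L k S SL Sk)
  {L' : Type} [Field L'] [Algebra L L'] [Algebra V L'] [IsScalarTower V L L']

/-- There is an element of the kernel whose degree drops exactly by the degree of the point.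

Proof. `m` large, `S_m` the elements of `S` of degree `≤ m` (finitely generated by `M.fin`), `p_m` those in the kernel.
`S_m / p_m` is torsion free of rank `≤ d`, so it is free of rank `≤ d` and the reduction of `p_m` has codimension `≤ d` in
the reduction of `S_m`, which is `L_k (m)` (`lift_le`). By `pt_drop` the reduction of `p_m` is contained in `L_k (m - d)`,
which has codimension `d` in `L_k (m)` (`Dg.finrank_L_add`): it is equal to it. Take `f` in `p_m` with `Dk.d (q f) = m - d`;
`pt_drop` gives `DL.d (i f) = m`. -/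
theorem pt_exact [FiniteDimensional L L'] (x : SL →ₐ[L] L') (hx : Function.Surjective x)
    {a : S} (ha : x (M.i a) = 0) (ha1 : a - 1 ∈ (maximalIdeal V) • (⊤ : Submodule V S)) :
    ∃ (f : S) (n : ℕ), x (M.i f) = 0 ∧ M.Dk.d (M.q f) = n ∧
      M.DL.d (M.i f) = (n + Module.finrank L L' : ℕ) := by
  classical
  obtain ⟨n₀, hn₀⟩ := M.tail
  obtain ⟨d, hd⟩ : ∃ d, d = Module.finrank L L' := ⟨_, rfl⟩
  obtain ⟨t, ht⟩ := M.fin (n₀ + d)
  -- the evaluation at the point
  let φ : S →ₗ[V] L' :=
    { toFun := fun s => x (M.i s)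
      map_add' := fun s t => by rw [map_add, map_add]
      map_smul' := fun c s => by
        rw [Algebra.smul_def, map_mul, M.i_alg, map_mul, x.commutes,
          ← IsScalarTower.algebraMap_apply V L L', ← Algebra.smul_def]
        rfl }
  have hφ : ∀ s, φ s = x (M.i s) := fun _ => rfl
  -- the elements of bounded degree
  let Sm : Submodule V S :=
    { carrier := {s | M.DL.d (M.i s) ≤ ((n₀ + d : ℕ) : WithBot ℕ)}
      add_mem' := fun {s t} hs ht => by
        change M.DL.d (M.i (s + t)) ≤ _
        rw [map_add]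
        exact (M.DL.add _ _).trans (max_le hs ht)
      zero_mem' := by
        change M.DL.d (M.i 0) ≤ _
        rw [map_zero, M.DL.zero]
        exact bot_le
      smul_mem' := fun c s hs => by
        change M.DL.d (M.i (c • s)) ≤ _
        rw [Algebra.smul_def, map_mul, M.i_alg, ← Algebra.smul_def]
        exact (M.DL.smul_le _ _).trans hs }
  have hSm : ∀ s, s ∈ Sm ↔ M.DL.d (M.i s) ≤ ((n₀ + d : ℕ) : WithBot ℕ) := fun _ => Iff.rfl
  have hq : ∀ (c : V) (s : S), M.q (c • s) = algebraMap V k c • M.q s := by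
    intro c s
    rw [Algebra.smul_def, map_mul, M.q_alg, ← Algebra.smul_def]
  -- the reductions of the elements of bounded degree in the kernel
  let W : Submodule k Sk :=
    { carrier := {y | ∃ f, f ∈ Sm ∧ φ f = 0 ∧ M.q f = y}
      add_mem' := by
        rintro _ _ ⟨f, hf, hf', rfl⟩ ⟨g, hg, hg', rfl⟩
        exact ⟨f + g, Sm.add_mem hf hg, by rw [map_add, hf', hg', add_zero], by rw [map_add]⟩
      zero_mem' := ⟨0, Sm.zero_mem, by rw [map_zero], by rw [map_zero]⟩
      smul_mem' := by
        rintro c _ ⟨f, hf, hf', rfl⟩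
        obtain ⟨c, rfl⟩ := M.res_surj c
        exact ⟨c • f, Sm.smul_mem c hf, by rw [map_smul, hf', smul_zero], hq c f⟩ }
  have hWmem : ∀ y, y ∈ W ↔ ∃ f, f ∈ Sm ∧ φ f = 0 ∧ M.q f = y := fun _ => Iff.rfl
  have hWle : W ≤ M.Dk.L n₀ := by
    intro y hy
    obtain ⟨f, hf, hf', rfl⟩ := (hWmem y).1 hy
    rw [M.Dk.mem_L]
    by_cases h0 : M.q f = 0
    · rw [h0, M.Dk.zero]
      exact bot_le
    · have hf0 : M.i f ≠ 0 := by
        intro h
        rw [← map_zero M.i] at h
        apply h0
        rw [M.inj h, map_zero]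
      obtain ⟨n, hn⟩ := M.Dk.exists_nat h0
      obtain ⟨m, hm⟩ := M.DL.exists_nat hf0
      have h1 := M.pt_drop x hx ha ha1 (f := f) hf' hm hn
      have h2 := (hSm f).1 hf
      rw [hm, Nat.cast_le] at h2
      rw [hn, Nat.cast_le]
      omega
  have hWfin : Module.Finite k W := Submodule.finiteDimensional_of_le hWle
  -- the image of the evaluation
  have hinj : Function.Injective (algebraMap V L') := by
    rw [IsScalarTower.algebraMap_eq V L L']
    exact (algebraMap L L').injective.comp (IsFractionRing.injective V L)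
  have htf : Module.IsTorsionFree V L' := by
    have : FaithfulSMul V L' := (faithfulSMul_iff_algebraMap_injective V L').2 hinj
    infer_instance
  have hnoe : IsNoetherian V Sm := by
    have h1 : IsNoetherian V (Submodule.span V (t : Set S)) :=
      isNoetherian_span_of_finite V t.finite_toSet
    exact isNoetherian_of_le (t := Submodule.span V (t : Set S)) fun s hs => ht s hs
  have hfree : Module.Free V (Sm.map φ) := inferInstance
  let b := Module.Free.chooseBasis V (Sm.map φ)
  have hli : LinearIndependent L fun i => ((b i : Sm.map φ) : L') := by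
    rw [← LinearIndependent.iff_fractionRing V L]
    exact b.linearIndependent.map' (Sm.map φ).subtype (Submodule.ker_subtype _)
  have hcard : Fintype.card (Module.Free.ChooseBasisIndex V (Sm.map φ)) ≤ d := by
    rw [hd]
    exact hli.fintype_card_le_finrank
  have hlift : ∀ i, ∃ s, s ∈ Sm ∧ φ s = b i := fun i => (Submodule.mem_map.1 (b i).2)
  choose s hs hs' using hlift
  have hle : M.Dk.L (n₀ + d) ≤ W ⊔ Submodule.span k (Set.range fun i => M.q (s i)) := by
    intro y hy
    obtain ⟨z, hz, hz'⟩ := M.lift_le hn₀ (n := n₀ + d) (by omega) y (M.Dk.mem_L.1 hy)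
    have h1 : φ z ∈ Sm.map φ := Submodule.mem_map_of_mem ((hSm z).2 hz')
    have h2 := b.sum_repr ⟨φ z, h1⟩
    obtain ⟨c, hc⟩ : ∃ c : Module.Free.ChooseBasisIndex V (Sm.map φ) → V,
        c = b.repr ⟨φ z, h1⟩ := ⟨_, rfl⟩
    have h3 : φ z = ∑ i, c i • φ (s i) := by
      have h4 := congrArg Subtype.val h2
      rw [AddSubmonoidClass.coe_finsetSum] at h4
      refine h4.symm.trans ?_
      refine Finset.sum_congr rfl fun i _ => ?_
      rw [hs', hc]
      rfl
    have h5 : y = M.q (z - ∑ i, c i • s i) + ∑ i, algebraMap V k (c i) • M.q (s i) := by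
      rw [map_sub, map_sum, hz]
      simp only [hq]
      ring
    rw [h5]
    refine Submodule.add_mem_sup ?_ ?_
    · refine (hWmem _).2 ⟨z - ∑ i, c i • s i, ?_, ?_, rfl⟩
      · exact Sm.sub_mem ((hSm z).2 hz') (Sm.sum_mem fun i _ => Sm.smul_mem _ (hs i))
      · rw [map_sub, map_sum, h3, sub_eq_zero]
        exact Finset.sum_congr rfl fun i _ => (map_smul φ _ _).symm
    · exact Submodule.sum_mem _ fun i _ => Submodule.smul_mem _ _ (Submodule.subset_span ⟨i, rfl⟩)
  have hrk : Module.finrank k (M.Dk.L (n₀ + d)) ≤ Module.finrank k W + d := by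
    have hfd : FiniteDimensional k (Submodule.span k (Set.range fun i => M.q (s i))) :=
      FiniteDimensional.span_of_finite k (Set.finite_range _)
    have h1 := Submodule.finrank_mono hle
    have h2 := Submodule.finrank_add_le_finrank_add_finrank W
      (Submodule.span k (Set.range fun i => M.q (s i)))
    have h3 := finrank_range_le_card (R := k) (fun i => M.q (s i))
    rw [Set.finrank] at h3
    omega
  rw [M.Dk.finrank_L_add (N := n₀) fun n hn => by
    obtain ⟨e, _, he⟩ := hn₀ n hn
    exact ⟨_, he⟩] at hrk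
  have hWeq : W = M.Dk.L n₀ := Submodule.eq_of_le_of_finrank_le hWle (by omega)
  obtain ⟨e, _, he⟩ := hn₀ n₀ le_rfl
  have h1 : M.q e ∈ W := by
    rw [hWeq, M.Dk.mem_L, he]
  obtain ⟨f, hf, hf', hfe⟩ := (hWmem _).1 h1
  refine ⟨f, n₀, hf', by rw [hfe, he], ?_⟩
  have hf0 : M.i f ≠ 0 := by
    intro h
    rw [← map_zero M.i] at h
    rw [M.inj h, map_zero] at hfe
    rw [← hfe, M.Dk.zero] at he
    exact WithBot.bot_ne_coe he
  obtain ⟨m, hm⟩ := M.DL.exists_nat hf0
  have h2 := M.pt_drop x hx ha ha1 (f := f) hf' hm (by rw [hfe, he])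
  have h3 := (hSm f).1 hf
  rw [hm, Nat.cast_le] at h3
  rw [hm, Nat.cast_inj]
  omega

end CV.Md
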