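import Mathlib

/-!
Irreducible polynomials over the fraction field of a complete discrete valuation ring: the coefficients are integral or they
are all small compared with the constant coefficient.
-/

open IsLocalRing Polynomial

namespace CV

/-- Weierstrass preparation for a polynomial: both factors are polynomials. -/
private theorem InfD_wp {V : Type} [CommRing V] [IsDomain V] [IsLocalRing V]
    [IsAdicComplete (maximalIdeal V) V] (p : V[X]) (hp : p.map (residue V) ≠ 0) :
    ∃ f h : V[X], f.IsDistinguishedAt (maximalIdeal V) ∧ IsUnit (h.coeff 0) ∧ p = f * h := by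
  have hp' : (p : PowerSeries V).map (residue V) ≠ 0 := by
    rw [← Polynomial.polynomial_map_coe]
    exact_mod_cast hp
  obtain ⟨f, h, H⟩ := PowerSeries.exists_isWeierstrassFactorization hp'
  have hd : f.IsDistinguishedAt (maximalIdeal V) := H.isDistinguishedAt
  have hI : maximalIdeal V ≠ ⊤ := Ideal.IsMaximal.ne_top inferInstance
  have hW := hd.isWeierstrassDivisorAt hI
  have hnd : ((f : PowerSeries V).map (Ideal.Quotient.mk (maximalIdeal V))).order.toNat =
      f.natDegree := by
    have hF : (f : PowerSeries V).IsWeierstrassFactorizationAt f 1 (maximalIdeal V) :=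
      ⟨hd, isUnit_one, by rw [mul_one]⟩
    exact (hF.natDegree_eq_toNat_order_map_of_ne_top hI).symm
  have hdeg : (p %ₘ f).degree <
      ((f : PowerSeries V).map (Ideal.Quotient.mk (maximalIdeal V))).order.toNat := by
    rw [hnd, ← Polynomial.degree_eq_natDegree hd.monic.ne_zero]
    exact Polynomial.degree_modByMonic_lt p hd.monic
  have heq : (f : PowerSeries V) * ((p /ₘ f : V[X]) : PowerSeries V) +
      ((p %ₘ f : V[X]) : PowerSeries V) = (f : PowerSeries V) * h + ((0 : V[X]) : PowerSeries V) := by
    rw [Polynomial.coe_zero, add_zero, ← H.eq_mul, ← Polynomial.coe_mul, ← Polynomial.coe_add,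
      add_comm, Polynomial.modByMonic_add_div]
  obtain ⟨h1, h2⟩ := hW.eq_of_mul_add_eq_mul_add hdeg
    (by rw [Polynomial.degree_zero]; exact WithBot.bot_lt_coe _) heq
  refine ⟨f, p /ₘ f, hd, ?_, ?_⟩
  · have h3 : IsUnit (PowerSeries.constantCoeff h) := PowerSeries.isUnit_iff_constantCoeff.1 H.isUnit
    rw [← h1] at h3
    simpa using h3
  · conv_lhs => rw [← Polynomial.modByMonic_add_div p f, h2, zero_add]

/-- A nonzero polynomial over the fraction field has a multiple with coefficients in `V`, not all of them
in the maximal ideal. -/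
private theorem InfD_scale {V L : Type} [CommRing V] [IsDomain V] [IsDiscreteValuationRing V]
    [Field L] [Algebra V L] [IsFractionRing V L] (R : L[X]) (hR : R ≠ 0) :
    ∃ (p : V[X]) (a : L), a ≠ 0 ∧ p.map (algebraMap V L) = C a * R ∧ p.map (residue V) ≠ 0 := by
  classical
  obtain ⟨inst⟩ : Nonempty (NormalizedGCDMonoid V) := inferInstance
  obtain ⟨b, hb⟩ := IsLocalization.integerNormalization_map_to_map (nonZeroDivisors V) R
  set p0 := IsLocalization.integerNormalization (nonZeroDivisors V) R with hp0
  have hinj : Function.Injective (algebraMap V L) := IsFractionRing.injective V L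
  have hb0 : algebraMap V L (b : V) ≠ 0 := by
    rw [Ne, map_eq_zero_iff _ hinj]
    exact nonZeroDivisors.coe_ne_zero b
  have hb' : p0.map (algebraMap V L) = C (algebraMap V L (b : V)) * R := by
    rw [hb, ← algebraMap_smul L (b : V) R, Polynomial.smul_eq_C_mul]
  have hp0' : p0 ≠ 0 := by
    intro h
    rw [h, Polynomial.map_zero] at hb'
    exact mul_ne_zero (Polynomial.C_ne_zero.2 hb0) hR hb'.symm
  have hc0 : algebraMap V L p0.content ≠ 0 := by
    rw [Ne, map_eq_zero_iff _ hinj, Polynomial.content_eq_zero_iff]
    exact hp0'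
  have hpp : C (algebraMap V L p0.content) * p0.primPart.map (algebraMap V L) =
      C (algebraMap V L (b : V)) * R := by
    rw [← hb']
    conv_rhs => rw [Polynomial.eq_C_content_mul_primPart p0, Polynomial.map_mul, Polynomial.map_C]
  refine ⟨p0.primPart, (algebraMap V L p0.content)⁻¹ * algebraMap V L (b : V),
    mul_ne_zero (inv_ne_zero hc0) hb0, ?_, ?_⟩
  · rw [Polynomial.C_mul, mul_assoc, ← hpp, ← mul_assoc, ← Polynomial.C_mul, inv_mul_cancel₀ hc0,
      Polynomial.C_1, one_mul]
  · intro h
    obtain ⟨ϖ, hϖ⟩ := IsDiscreteValuationRing.exists_irreducible V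
    have h1 : C ϖ ∣ p0.primPart := by
      rw [Polynomial.C_dvd_iff_dvd_coeff]
      intro i
      have h2 : residue V (p0.primPart.coeff i) = 0 := by
        rw [← Polynomial.coeff_map, h, Polynomial.coeff_zero]
      rw [residue_eq_zero_iff, hϖ.maximalIdeal_eq, Ideal.mem_span_singleton] at h2
      exact h2
    exact hϖ.not_isUnit (p0.isPrimitive_primPart ϖ h1)

private theorem InfD_irr_mirror {L : Type} [Field L] (P : L[X]) (hi : Irreducible P) :
    Irreducible P.mirror := by
  have hu : ∀ a : L[X], IsUnit a.mirror → IsUnit a := by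
    intro a ha
    obtain ⟨c, hc⟩ := ha.exists_right_inv
    have h1 : a * c.mirror = 1 := by
      have h2 := congrArg Polynomial.mirror hc
      rw [Polynomial.mirror_mul_of_domain, Polynomial.mirror_mirror] at h2
      rw [h2, ← Polynomial.C_1, Polynomial.mirror_C]
    exact IsUnit.of_mul_eq_one _ h1
  constructor
  · intro h
    exact hi.not_isUnit (hu P h)
  · intro a b hab
    have h1 : P = a.mirror * b.mirror := by
      rw [← Polynomial.mirror_mul_of_domain, ← hab, Polynomial.mirror_mirror]
    rcases hi.isUnit_or_isUnit h1 with h | h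
    · exact Or.inl (hu a h)
    · exact Or.inr (hu b h)

private theorem InfD_map_mirror {V L : Type} [CommRing V] [Field L] (φ : V →+* L)
    (hφ : Function.Injective φ) (p : V[X]) : (p.map φ).mirror = p.mirror.map φ := by
  have h1 : (p.map φ).natDegree = p.natDegree := Polynomial.natDegree_map_eq_of_injective hφ p
  have h2 : (p.map φ).natTrailingDegree = p.natTrailingDegree := by
    by_cases h0 : p = 0
    · rw [h0, Polynomial.map_zero, Polynomial.natTrailingDegree_zero,
        Polynomial.natTrailingDegree_zero]
    · have h3 : p.map φ ≠ 0 := (Polynomial.map_ne_zero_iff hφ).2 h0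
      refine le_antisymm ?_ ?_
      · refine Polynomial.natTrailingDegree_le_of_ne_zero ?_
        rw [Polynomial.coeff_map, Ne, map_eq_zero_iff _ hφ]
        exact Polynomial.trailingCoeff_nonzero_iff_nonzero.2 h0
      · refine Polynomial.natTrailingDegree_le_of_ne_zero ?_
        intro h4
        have h5 : (p.map φ).coeff (p.map φ).natTrailingDegree = 0 := by
          rw [Polynomial.coeff_map, h4, map_zero]
        exact Polynomial.trailingCoeff_nonzero_iff_nonzero.2 h3 h5
  ext i
  rw [Polynomial.coeff_mirror, h1, h2, Polynomial.coeff_map, Polynomial.coeff_map,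
    Polynomial.coeff_mirror]

/-- A monic irreducible polynomial over the fraction field `L` of the complete discrete valuation ring `V` has coefficients
in `V`, or it is its constant coefficient times a polynomial `1 + c₁ X + ⋯` with `c_i` in the maximal ideal.

Proof. Multiply `P` by a constant: `p` in `V[X]` with a unit among its coefficients, degree `r`. Let `s` be the degree of the
reduction of `p`. The reversed polynomial `T^r p (1 / T)` is a power series whose reduction has order `r - s`; by Weierstrass
preparation (`PowerSeries`, `V` complete) it is a distinguished polynomial of degree `r - s` times a unit, and the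
second factor is a polynomial by the uniqueness of the Weierstrass division. So `P` has factors of degree `s` and `r - s`:
`s = r` (the leading coefficient of `p` is a unit) or `s = 0` (only the constant coefficient is a unit). -/
theorem inf_dich {V L : Type} [CommRing V] [IsDomain V] [IsDiscreteValuationRing V]
    [IsAdicComplete (maximalIdeal V) V] [Field L] [Algebra V L] [IsFractionRing V L]
    (P : L[X]) (hm : P.Monic) (hi : Irreducible P) :
    (∃ Q : V[X], Q.Monic ∧ Q.map (algebraMap V L) = P) ∨
    (∃ Q : V[X], Q.coeff 0 = 1 ∧ (∀ i, 0 < i → Q.coeff i ∈ maximalIdeal V) ∧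
      ∃ c : L, Q.map (algebraMap V L) = Polynomial.C c * P) := by
  have hinj : Function.Injective (algebraMap V L) := IsFractionRing.injective V L
  by_cases hP0 : P.coeff 0 = 0
  · left
    have h1 : (X : L[X]) ∣ P := Polynomial.X_dvd_iff.2 hP0
    have h2 : Associated (X : L[X]) P := Polynomial.irreducible_X.associated_of_dvd hi h1
    refine ⟨X, Polynomial.monic_X, ?_⟩
    rw [Polynomial.map_X]
    exact Polynomial.eq_of_monic_of_associated Polynomial.monic_X hm h2
  have ht : P.natTrailingDegree = 0 := by
    rw [Polynomial.natTrailingDegree_eq_zero]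
    exact Or.inr hP0
  have hR0 : P.mirror.coeff 0 = 1 := by
    rw [Polynomial.coeff_mirror, ht, add_zero, Polynomial.revAt_le (Nat.zero_le _), Nat.sub_zero]
    exact hm
  have hiR : Irreducible P.mirror := InfD_irr_mirror P hi
  obtain ⟨p, a, ha, hpa, hpr⟩ := InfD_scale (V := V) P.mirror hiR.ne_zero
  obtain ⟨f, h, hd, hu, hfh⟩ := InfD_wp p hpr
  have hirr : Irreducible (C a * P.mirror) :=
    (irreducible_isUnit_mul (Polynomial.isUnit_C.2 ha.isUnit)).2 hiR
  have hfac : C a * P.mirror = f.map (algebraMap V L) * h.map (algebraMap V L) := by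
    rw [← hpa, hfh, Polynomial.map_mul]
  rcases hirr.isUnit_or_isUnit hfac with hf | hh
  · left
    have hf1 : f = 1 := by
      have h1 : f.map (algebraMap V L) = 1 := (hd.monic.map _).eq_one_of_isUnit hf
      have h2 : f.map (algebraMap V L) = (1 : V[X]).map (algebraMap V L) := by
        rw [h1, Polynomial.map_one]
      exact Polynomial.map_injective _ hinj h2
    rw [hf1, one_mul] at hfh
    rw [← hfh] at hu
    obtain ⟨u, hu'⟩ := hu
    have hau : algebraMap V L u = a := by
      have h1 := congrArg (fun q : L[X] => q.coeff 0) hpa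
      simp only [Polynomial.coeff_map, Polynomial.coeff_C_mul, hR0, mul_one] at h1
      rw [hu', h1]
    have hQ0 : (C ((u⁻¹ : Vˣ) : V) * p).map (algebraMap V L) = P.mirror := by
      rw [Polynomial.map_mul, Polynomial.map_C, hpa, ← mul_assoc, ← Polynomial.C_mul, ← hau,
        ← map_mul, Units.inv_mul, map_one, Polynomial.C_1, one_mul]
    have hQ : (C ((u⁻¹ : Vˣ) : V) * p).mirror.map (algebraMap V L) = P := by
      rw [← InfD_map_mirror _ hinj, hQ0, Polynomial.mirror_mirror]
    refine ⟨_, ?_, hQ⟩
    refine Polynomial.monic_of_injective hinj ?_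
    rw [hQ]
    exact hm
  · right
    have hh1 : h.natDegree = 0 := by
      rw [← Polynomial.natDegree_map_eq_of_injective hinj h]
      exact Polynomial.natDegree_eq_zero_of_isUnit hh
    obtain ⟨u, hu'⟩ := hu
    have hhC : h = C (u : V) := by
      rw [hu']
      exact Polynomial.eq_C_of_natDegree_eq_zero hh1
    have hfp : f = C ((u⁻¹ : Vˣ) : V) * p := by
      rw [hfh, hhC, mul_comm f, ← mul_assoc, ← Polynomial.C_mul, Units.inv_mul, Polynomial.C_1,
        one_mul]
    have hfL : f.map (algebraMap V L) = C (algebraMap V L ((u⁻¹ : Vˣ) : V) * a) * P.mirror := by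
      rw [hfp, Polynomial.map_mul, Polynomial.map_C, hpa, ← mul_assoc, ← Polynomial.C_mul]
    have hf0 : f.coeff 0 ≠ 0 := by
      intro h0
      have h1 := congrArg (fun q : L[X] => q.coeff 0) hfL
      simp only [Polynomial.coeff_map, Polynomial.coeff_C_mul, hR0, mul_one, h0, map_zero] at h1
      have h2 : algebraMap V L ((u⁻¹ : Vˣ) : V) ≠ 0 := by
        rw [Ne, map_eq_zero_iff _ hinj]
        exact (u⁻¹).ne_zero
      exact mul_ne_zero h2 ha h1.symm
    have htf : f.natTrailingDegree = 0 := by
      rw [Polynomial.natTrailingDegree_eq_zero]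
      exact Or.inr hf0
    refine ⟨f.mirror, ?_, ?_, algebraMap V L ((u⁻¹ : Vˣ) : V) * a, ?_⟩
    · rw [Polynomial.coeff_mirror, htf, add_zero, Polynomial.revAt_le (Nat.zero_le _), Nat.sub_zero]
      exact hd.monic
    · intro i hi0
      rw [Polynomial.coeff_mirror, htf, add_zero]
      rcases le_or_gt i f.natDegree with hle | hgt
      · rw [Polynomial.revAt_le hle]
        exact hd.mem (by omega)
      · rw [Polynomial.revAt_eq_self_of_lt hgt, Polynomial.coeff_eq_zero_of_natDegree_lt hgt]
        exact Ideal.zero_mem _
    · rw [← InfD_map_mirror _ hinj, hfL, Polynomial.mirror_mul_of_domain, Polynomial.mirror_C,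
        Polynomial.mirror_mirror]

end CV
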