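import Pool.Agent.Lib.MP_f80667_ag.Cv.CyA
import Pool.Agent.Lib.MP_f80667_ag.Cv.ClX

/-!
The Jacobian of a pointed curve.

* `bA C σ`: the base change `L ⊗ A → M ⊗ A` of functions. `cpt x`: the class of `[x] - [∞]`.
* `Crv.J`: the Jacobian of `C`: the points over `L` are the ideal classes of the Dedekind domain `L ⊗ A`, that is, the
  divisor classes of degree `0` of `C` over `L` (the only place at infinity has degree `1`); `map σ`: the extension of
  ideals; the reduction at a place `w` of `L`: if `x` becomes, over an extension `L'` of `L` with a place `w'` over `w`, the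
  class of `∑ e i ([P i] - [∞])`, then its reduction is the class of `∑ e i ([Q i] - [∞])`, `Q i` the reduction of `P i`
  at `w'`.
-/

open TensorProduct ZC BE

namespace CV

section

variable {F : Type} [Field F] (C : Crv F)

instance Crv.isDed (L : Type) [Field L] [Algebra F L] : IsDedekindDomain (L ⊗[F] C.A) := C.dedO L

/-- The base change of functions. -/
noncomputable def bA {L M : Type} [Field L] [Field M] [Algebra F L] [Algebra F M]
    (σ : L →ₐ[F] M) : L ⊗[F] C.A →+* M ⊗[F] C.A :=
  (Algebra.TensorProduct.map σ (AlgHom.id F C.A)).toRingHom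

variable {C} in
/-- The class of the divisor `[x] - [∞]`. -/
noncomputable def cpt {L : Type} [Field L] [Algebra F L] (x : C.V.pt L) : Cg (L ⊗[F] C.A) :=
  match x with
  | none => 0
  | some φ => cls (mx φ)

/-- The place `w'` of `L'` is an extension of the place `w` of `L`. -/
def Pov {K L L' Ω : Type} [Field K] [Field L] [Field L'] [Field Ω] [Algebra K L] [Algebra K L']
    [Algebra K Ω] [Algebra L L'] (w : Place K L Ω) (w' : Place K L' Ω) : Prop :=
  (∀ a : L, algebraMap L L' a ∈ w'.V ↔ a ∈ w.V) ∧
    ∀ (a : L) (h : a ∈ w.V) (h' : algebraMap L L' a ∈ w'.V), w'.res ⟨_, h'⟩ = w.res ⟨a, h⟩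

/-- **The Jacobian** of a pointed curve. -/
noncomputable def Crv.J : Vr F where
  pt L _ _ := Cg (L ⊗[F] C.A)
  map σ := clX (bA C σ)
  red {K L Ω} _ _ _ _ _ _ _ w x y := ∃ (L' : Type) (_ : Field L') (_ : Algebra L L')
    (_ : Algebra K L') (_ : Algebra F L') (_ : IsScalarTower K L L') (_ : IsScalarTower F L L')
    (w' : Place K L' Ω), Pov w w' ∧ ∃ (n : ℕ) (e : Fin n → ℤ) (P : Fin n → C.V.pt L')
      (Q : Fin n → C.V.pt Ω), (∀ i, C.V.red w' (P i) (Q i)) ∧
        clX (bA C (IsScalarTower.toAlgHom F L L')) x = ∑ i, e i • cpt (P i) ∧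
        y = ∑ i, e i • cpt (Q i)

end

end CV
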