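import Pool.Agent.Lib.MP_f80667_ag.Cv.Jc
import Pool.Agent.Lib.MP_f80667_ag.Cv.Tc

/-!
The Jacobian is a functor.
-/

open TensorProduct ZC BE

namespace CV

section

variable {F : Type} [Field F] {C : Crv F}

section map

variable {L M N : Type} [Field L] [Field M] [Field N] [Algebra F L] [Algebra F M] [Algebra F N]

theorem bA_tmul (σ : L →ₐ[F] M) (c : L) (a : C.A) : bA C σ (c ⊗ₜ a) = σ c ⊗ₜ a := by
  unfold bA
  rfl

theorem bA_id : bA C (AlgHom.id F L) = RingHom.id _ := by
  unfold bA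
  rw [Algebra.TensorProduct.map_id]
  rfl

theorem bA_comp (σ : L →ₐ[F] M) (τ : M →ₐ[F] N) : bA C (τ.comp σ) = (bA C τ).comp (bA C σ) := by
  refine RingHom.ext fun x => ?_
  induction x using TensorProduct.induction_on with
  | zero => rw [map_zero, map_zero]
  | tmul c a => rw [RingHom.comp_apply, bA_tmul, bA_tmul, bA_tmul]; rfl
  | add x y hx hy => rw [map_add, map_add, hx, hy]

theorem bA_inj (σ : L →ₐ[F] M) : Function.Injective (bA C σ) := by
  have h := Module.Flat.rTensor_preserves_injective_linearMap (M := C.A) σ.toLinearMap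
    (RingHom.injective (σ : L →+* M))
  intro x y hxy
  apply h
  have e : ∀ z : L ⊗[F] C.A, σ.toLinearMap.rTensor C.A z = bA C σ z := by
    intro z
    induction z using TensorProduct.induction_on with
    | zero => rw [map_zero, map_zero]
    | tmul c a => rw [LinearMap.rTensor_tmul, bA_tmul]; rfl
    | add x y hx hy => rw [map_add, map_add, hx, hy]
  rw [e, e, hxy]

/-- The generators of the ideal of a point. -/
theorem mx_gen (φ : C.A →ₐ[F] L) :
    mx φ = Ideal.span (Set.range fun a : C.A => (1 : L) ⊗ₜ[F] a - φ a ⊗ₜ[F] (1 : C.A)) := by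
  apply le_antisymm
  · have key : ∀ x : L ⊗[F] C.A, x - vx φ x ⊗ₜ[F] (1 : C.A) ∈
        Ideal.span (Set.range fun a : C.A => (1 : L) ⊗ₜ[F] a - φ a ⊗ₜ[F] (1 : C.A)) := by
      intro x
      induction x using TensorProduct.induction_on with
      | zero => rw [map_zero, TensorProduct.zero_tmul, sub_zero]; exact zero_mem _
      | tmul c a =>
        have h1 : c ⊗ₜ[F] a - vx φ (c ⊗ₜ[F] a) ⊗ₜ[F] (1 : C.A) =
            (c ⊗ₜ[F] (1 : C.A)) * ((1 : L) ⊗ₜ[F] a - φ a ⊗ₜ[F] (1 : C.A)) := by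
          rw [vx_tmul, mul_sub, Algebra.TensorProduct.tmul_mul_tmul,
            Algebra.TensorProduct.tmul_mul_tmul, mul_one, one_mul, mul_one]
        rw [h1]
        exact Ideal.mul_mem_left _ _ (Ideal.subset_span ⟨a, rfl⟩)
      | add x y hx hy =>
        rw [map_add, TensorProduct.add_tmul, add_sub_add_comm]
        exact add_mem hx hy
    intro x hx
    have h2 := key x
    rwa [mem_mx.1 hx, TensorProduct.zero_tmul, sub_zero] at h2
  · rw [Ideal.span_le]
    rintro _ ⟨a, rfl⟩
    rw [SetLike.mem_coe, mem_mx, map_sub, vx_tmul, vx_tmul, map_one, one_mul, mul_one, sub_self]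

theorem mx_map (σ : L →ₐ[F] M) (φ : C.A →ₐ[F] L) : (mx φ).map (bA C σ) = mx (σ.comp φ) := by
  rw [mx_gen, mx_gen, Ideal.map_span, ← Set.range_comp]
  congr 2
  funext a
  rw [Function.comp_apply, map_sub, bA_tmul, bA_tmul, map_one]
  rfl

theorem cpt_none : cpt (C := C) (L := L) none = 0 := rfl

theorem cpt_some (φ : C.A →ₐ[F] L) : cpt (C := C) (L := L) (some φ) = cls (mx φ) := rfl

theorem cpt_map (σ : L →ₐ[F] M) (x : C.V.pt L) : clX (bA C σ) (cpt x) = cpt (C.V.map σ x) := by
  rcases x with _ | φ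
  · exact map_zero _
  · change clX (bA C σ) (cls (mx φ)) = cls (mx (σ.comp φ))
    rw [clX_cls (bA_inj σ) (mx_ne_bot φ), mx_map]

end map

theorem Pov.refl {K L Ω : Type} [Field K] [Field L] [Field Ω] [Algebra K L] [Algebra K Ω]
    (w : Place K L Ω) : Pov w w := ⟨fun _ => Iff.rfl, fun _ _ _ => rfl⟩

/-- The Jacobian is a functor. -/
theorem Crv.fctJ (C : Crv F) : Fct C.J where
  id L _ _ x := by
    change clX (bA C (AlgHom.id F L)) x = x
    rw [bA_id, clX_id]
  comp L M N _ _ _ _ _ _ σ τ x := by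
    change clX (bA C (τ.comp σ)) x = clX (bA C τ) (clX (bA C σ) x)
    rw [bA_comp, clX_comp (bA_inj σ) (bA_inj τ)]
  gal K Ω _ _ _ _ _ _ M E _ _ _ _ _ γ w x y h := by
    obtain ⟨L', i1, i2, i3, i4, i5, i6, w', hw, n, e, P, Q, h1, h2, h3⟩ := h
    let i7 : Algebra K L' := ((algebraMap M L').comp (algebraMap K M)).toAlgebra
    have i8 : IsScalarTower K M L' := IsScalarTower.of_algebraMap_eq fun _ => rfl
    have i9 : IsScalarTower K E L' := IsScalarTower.of_algebraMap_eq fun a => by
      rw [IsScalarTower.algebraMap_apply K M E, ← IsScalarTower.algebraMap_apply M E L']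
      rfl
    refine ⟨L', i1, i2, i7, i4, i9, i6, temb γ w', ⟨hw.1, fun a ha ha' => ?_⟩, n, e, P,
      fun i => C.V.act γ (Q i), fun i => C.fct.gal K Ω M L' γ w' _ _ (h1 i), h2, ?_⟩
    · rw [temb_res]
      exact congrArg γ (hw.2 a ha ha')
    · change clX (bA C (γ.restrictScalars F : Ω →ₐ[F] Ω)) y = _
      rw [h3, map_sum]
      refine Finset.sum_congr rfl fun i _ => ?_
      rw [map_zsmul, cpt_map]
      rfl

end

end CV
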