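import Pool.Agent.Lib.MP_f80667_ag.Cv.Tc

/-!
The component of a cycle in the Albanese kernel for a product of varieties with base points, over any algebraically closed
field; descent of divisibility from an extension of degree prime to `m` (`dvG_up`), without a hypothesis on the factors.
-/

open ZC BE Polynomial IntermediateField

namespace CV

section piC

variable {F : Type} [Field F] {ι : Type} {V : ι → Vr F} (o : ∀ i, Bp (V i)) {Ω : Type} [Field Ω]
  [Algebra F Ω]

theorem map_cst {V V' : Vr F} {φ : Mo V V'} (p : V'.pt Ω) (h : ∀ x : V.pt Ω, φ.f Ω x = p)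
    {z : V.pt Ω →₀ ℤ} (hz : V.deg Ω z = 0) : Finsupp.mapDomain (φ.f Ω) z = 0 := by
  have h1 : φ.f Ω = fun _ => p := funext h
  have h2 : ∀ u : V.pt Ω →₀ ℤ, Finsupp.mapDomain (fun _ => p) u =
      Finsupp.single p (V.deg Ω u) := by
    intro u
    induction u using Finsupp.induction_linear with
    | zero => simp
    | add f g hf hg => rw [Finsupp.mapDomain_add, hf, hg, map_add, Finsupp.single_add]
    | single a n => rw [Finsupp.mapDomain_single, Vr.deg, Finsupp.liftAddHom_apply_single]; rfl
  rw [h1, h2, hz, Finsupp.single_zero]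

variable [Fintype ι]

/-- The component in the Albanese kernel. -/
noncomputable def piC (z : (Vpi V).pt Ω →₀ ℤ) : (Vpi V).pt Ω →₀ ℤ :=
  z - ∑ i, Finsupp.mapDomain ((sc o i).f Ω) (Finsupp.mapDomain ((pr i).f Ω) z)

theorem pr_piC (i : ι) {z : (Vpi V).pt Ω →₀ ℤ} (hz : (Vpi V).deg Ω z = 0) :
    Finsupp.mapDomain ((pr i).f Ω) (piC o z) = 0 := by
  classical
  have h1 : ∀ u : (V i).pt Ω →₀ ℤ,
      Finsupp.mapDomain ((pr i).f Ω) (Finsupp.mapDomain ((sc o i).f Ω) u) = u := by
    intro u
    rw [← Finsupp.mapDomain_comp]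
    have e : (pr i).f Ω ∘ (sc o i).f Ω = id := funext fun x => by
      change Function.update (fun j => (o j).o Ω) i x i = x
      exact Function.update_self _ _ _
    rw [e]
    exact Finsupp.mapDomain_id
  have h2 : ∀ j, j ≠ i → Finsupp.mapDomain ((pr i).f Ω) (Finsupp.mapDomain ((sc o j).f Ω)
      (Finsupp.mapDomain ((pr j).f Ω) z)) = 0 := by
    intro j hj
    have e := map_cst (φ := ((pr i).comp (sc o j)).comp (pr j)) ((o i).o Ω) (fun x => by
      change Function.update (fun k => (o k).o Ω) j (x j) i = _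
      exact Function.update_of_ne hj.symm _ _) hz
    rw [← Finsupp.mapDomain_comp, ← Finsupp.mapDomain_comp]
    exact e
  have h3 : Finsupp.mapDomain.addMonoidHom ((pr i).f Ω) (piC o z) = 0 := by
    rw [piC, map_sub, map_sum, Finset.sum_eq_single i]
    · exact sub_eq_zero.2 (h1 _).symm
    · intro j _ hj
      exact h2 j hj
    · intro h
      exact absurd (Finset.mem_univ i) h
  exact h3

variable {K : Type} [Field K] [Algebra F K] [Algebra K Ω]

theorem sub_piC {z : (Vpi V).pt Ω →₀ ℤ}
    (h : ∀ i, Finsupp.mapDomain ((pr i).f Ω) z ∈ (V i).ratEq K Ω) :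
    z - piC o z ∈ (Vpi V).ratEq K Ω := by
  rw [piC, sub_sub_cancel]
  exact sum_mem fun i _ => (sc o i).ratEq K Ω (h i)

variable [IsScalarTower F K Ω]

theorem piC_D0 {z : (Vpi V).pt Ω →₀ ℤ} (hz : z ∈ (Vpi V).D0 K Ω) :
    piC o z ∈ (Vpi V).D0 K Ω :=
  sub_mem hz (sum_mem fun i _ => (sc o i).D0 ((pr i).D0 hz))

include o in
/-- From an extension of degree prime to `m`, without hypotheses on the factors. -/
theorem dvG_up [CharZero K] [IsAlgClosure K Ω] (hV : ∀ i, Fct (V i)) (M : IntermediateField K Ω)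
    [FiniteDimensional K M] [IsScalarTower F M Ω] {m : ℕ} (hc : (Module.finrank K M).Coprime m)
    (h : DvG V M Ω m) : DvG V K Ω m := by
  intro z hz ha
  have hz0 := piC_D0 o hz
  have hp0 : ∀ i, Finsupp.mapDomain ((pr i).f Ω) (piC o z) = 0 := fun i => pr_piC o i hz.2
  obtain ⟨z', hz', ha', hr⟩ := h (piC o z) (D0_res hz0) fun i => by
    rw [hp0 i]
    exact zero_mem _
  have hX : Fct (Vpi V) := Fct.pi hV
  set t := vtr hX K M z' with ht
  have h3 : t ∈ (Vpi V).D0 K Ω := vtr_D0 hX M hz'
  have h5 : ∀ i, Finsupp.mapDomain ((pr i).f Ω) t ∈ (V i).ratEq K Ω := by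
    intro i
    rw [ht, vtr_map hX M (hV i) (pr i)]
    exact tr_ratEqV (hV i) M (ha' i)
  have h1 : vtr hX K M (piC o z - m • z') ∈ (Vpi V).ratEq K Ω := tr_ratEqV hX M hr
  rw [map_sub, map_nsmul, vtr_res hX M hz0.1] at h1
  have hb := Nat.gcd_eq_gcd_ab (Module.finrank K M) m
  rw [hc.gcd_eq_one, Nat.cast_one] at hb
  set a : ℤ := (Module.finrank K M).gcdA m
  set b : ℤ := (Module.finrank K M).gcdB m
  refine ⟨a • t + b • piC o z, AddSubgroup.add_mem _ (AddSubgroup.zsmul_mem _ h3 _)
    (AddSubgroup.zsmul_mem _ hz0 _), fun i => ?_, ?_⟩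
  · have e : Finsupp.mapDomain.addMonoidHom ((pr i).f Ω) (a • t + b • piC o z) ∈
        (V i).ratEq K Ω := by
      rw [map_add, map_zsmul, map_zsmul]
      refine AddSubgroup.add_mem _ (AddSubgroup.zsmul_mem _ (h5 i) _)
        (AddSubgroup.zsmul_mem _ ?_ _)
      have e1 : Finsupp.mapDomain.addMonoidHom ((pr i).f Ω) (piC o z) = 0 := hp0 i
      rw [e1]
      exact zero_mem _
    exact e
  have h4 : piC o z - m • (a • t + b • piC o z) =
      a • (Module.finrank K M • piC o z - m • t) := by
    have h5 : piC o z - m • (a • t + b • piC o z) -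
        a • (Module.finrank K M • piC o z - m • t) =
        (1 - ((Module.finrank K M : ℤ) * a + m * b)) • piC o z := by
      simp only [← natCast_zsmul]
      module
    rw [← hb, sub_self, zero_smul] at h5
    exact sub_eq_zero.1 h5
  have h6 : z - m • (a • t + b • piC o z) = (z - piC o z) +
      (piC o z - m • (a • t + b • piC o z)) := by abel
  rw [h6, h4]
  exact add_mem (sub_piC o ha) (AddSubgroup.zsmul_mem _ h1 _)

end piC

end CV
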