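import Pool.Agent.Lib.MP_f80667_ag.Cv.JcB
import Pool.Agent.Lib.MP_f80667_ag.Cv.Td

/-!
The morphism `piJ n : C ^ n → J`, `(P i) ↦ ∑ i, [P i] - [∞]`; the sum `smJ` of a cycle on the Jacobian.
-/

open TensorProduct ZC BE

namespace CV

section

variable {F : Type} [Field F] (C : Crv F)

/-- The group structure of the Jacobian. -/
noncomputable instance Crv.grpJ (L : Type) [Field L] [Algebra F L] : AddCommGroup (C.J.pt L) :=
  inferInstanceAs (AddCommGroup (Cg (L ⊗[F] C.A)))

/-- The morphism from the power of the curve to the Jacobian. -/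
noncomputable def piJ (n : ℕ) : Mo (Vpi fun _ : Fin n => C.V) C.J where
  f L _ _ x := (∑ i, cpt (C := C) (x i) : Cg (L ⊗[F] C.A))
  nat L M _ _ _ _ σ x := by
    change clX (bA C σ) (∑ i, cpt (C := C) (x i)) = ∑ i, cpt (C.V.map σ (x i))
    rw [map_sum]
    exact Finset.sum_congr rfl fun i _ => cpt_map σ (x i)
  red K L Ω _ _ _ _ _ _ _ w x y h := by
    refine ⟨L, inferInstance, Algebra.id L, inferInstance, inferInstance, inferInstance,
      inferInstance, w, Pov.refl w, n, fun _ => 1, x, y, h, ?_, ?_⟩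
    · have e : IsScalarTower.toAlgHom F L L = AlgHom.id F L := AlgHom.ext fun _ => rfl
      rw [e, bA_id, clX_id]
      exact Finset.sum_congr rfl fun i _ => (one_zsmul _).symm
    · exact Finset.sum_congr rfl fun i _ => (one_zsmul _).symm

/-- The Abel - Jacobi map. -/
noncomputable def ajJ : Mo C.V C.J where
  f L _ _ x := cpt x
  nat L M _ _ _ _ σ x := cpt_map σ x
  red K L Ω _ _ _ _ _ _ _ w x y h := by
    refine ⟨L, inferInstance, Algebra.id L, inferInstance, inferInstance, inferInstance,
      inferInstance, w, Pov.refl w, 1, fun _ => 1, fun _ => x, fun _ => y, fun _ => h, ?_, ?_⟩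
    · have e : IsScalarTower.toAlgHom F L L = AlgHom.id F L := AlgHom.ext fun _ => rfl
      rw [e, bA_id, clX_id, Fin.sum_univ_one, one_zsmul]
    · rw [Fin.sum_univ_one, one_zsmul]

variable {C}

theorem sc_self {ι : Type} {V : ι → Vr F} (o : ∀ i, Bp (V i)) (i : ι) {L : Type} [Field L]
    [Algebra F L] (x : (V i).pt L) : (sc o i).f L x i = x := by
  classical
  change Function.update (fun j => (o j).o L) i x i = x
  exact Function.update_self _ _ _

theorem sc_ne {ι : Type} {V : ι → Vr F} (o : ∀ i, Bp (V i)) {i j : ι} (h : j ≠ i) {L : Type}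
    [Field L] [Algebra F L] (x : (V i).pt L) : (sc o i).f L x j = (o j).o L := by
  classical
  change Function.update (fun j => (o j).o L) i x j = _
  exact Function.update_of_ne h _ _

/-- On the `i`-th axis the morphism is the Abel - Jacobi map. -/
theorem piJ_sc (n : ℕ) (i : Fin n) {L : Type} [Field L] [Algebra F L] (x : C.V.pt L) :
    (piJ C n).f L ((sc (fun _ => C.bp) i).f L x) = (ajJ C).f L x := by
  change ∑ j, cpt (C := C) ((sc (V := fun _ : Fin n => C.V) (fun _ => C.bp) i).f L x j) = cpt x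
  rw [Finset.sum_eq_single i]
  · exact congrArg cpt (sc_self (V := fun _ : Fin n => C.V) (fun _ => C.bp) i x)
  · intro j _ hj
    exact congrArg cpt (sc_ne (V := fun _ : Fin n => C.V) (fun _ => C.bp) hj x)
  · intro h
    exact absurd (Finset.mem_univ i) h

variable {Ω : Type} [Field Ω] [Algebra F Ω]

variable (C Ω) in
/-- The sum of a cycle on the Jacobian. -/
noncomputable def smJ : (C.J.pt Ω →₀ ℤ) →+ Cg (Ω ⊗[F] C.A) :=
  Finsupp.liftAddHom fun x => (smulAddHom ℤ (Cg (Ω ⊗[F] C.A))).flip x

theorem smJ_single (x : C.J.pt Ω) (n : ℤ) :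
    smJ C Ω (Finsupp.single x n) = n • (x : Cg (Ω ⊗[F] C.A)) := by
  unfold smJ
  rw [Finsupp.liftAddHom_apply_single]
  rfl

variable (C Ω) in
/-- The class of a cycle on the curve. -/
noncomputable def smC : (C.V.pt Ω →₀ ℤ) →+ Cg (Ω ⊗[F] C.A) :=
  Finsupp.liftAddHom fun x => (smulAddHom ℤ (Cg (Ω ⊗[F] C.A))).flip (cpt x)

theorem smC_single (x : C.V.pt Ω) (n : ℤ) :
    smC C Ω (Finsupp.single x n) = n • cpt x := by
  unfold smC
  rw [Finsupp.liftAddHom_apply_single]
  rfl

theorem smJ_aj (z : C.V.pt Ω →₀ ℤ) :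
    smJ C Ω (Finsupp.mapDomain ((ajJ C).f Ω) z) = smC C Ω z := by
  induction z using Finsupp.induction_linear with
  | zero => rw [Finsupp.mapDomain_zero, map_zero, map_zero]
  | add f g hf hg => rw [Finsupp.mapDomain_add, map_add, map_add, hf, hg]
  | single a n => rw [Finsupp.mapDomain_single, smJ_single, smC_single]; rfl

theorem smJ_pi (n : ℕ) (z : (Vpi fun _ : Fin n => C.V).pt Ω →₀ ℤ) :
    smJ C Ω (Finsupp.mapDomain ((piJ C n).f Ω) z) =
      ∑ i, smC C Ω (Finsupp.mapDomain ((pr i).f Ω) z) := by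
  induction z using Finsupp.induction_linear with
  | zero =>
    rw [Finsupp.mapDomain_zero, map_zero]
    refine (Finset.sum_eq_zero fun i _ => ?_).symm
    rw [Finsupp.mapDomain_zero, map_zero]
  | add f g hf hg =>
    rw [Finsupp.mapDomain_add, map_add, hf, hg, ← Finset.sum_add_distrib]
    refine Finset.sum_congr rfl fun i _ => ?_
    rw [Finsupp.mapDomain_add, map_add]
  | single a m =>
    rw [Finsupp.mapDomain_single, smJ_single]
    change m • (∑ i, cpt (C := C) (a i)) = _
    rw [Finset.smul_sum]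
    refine Finset.sum_congr rfl fun i _ => ?_
    rw [Finsupp.mapDomain_single, smC_single]
    rfl

end

end CV
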