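import Pool.Agent.Lib.MP_f80667_ag.Cv.Rd1
import Pool.Agent.Lib.MP_f80667_ag.Cv.DgT

/-!
The genus of a degree function is the number of the gaps; the colength of a reduced ideal is at most the genus.
-/

open Module TensorProduct

namespace CV

namespace Dg

variable {K A : Type} [Field K] [CommRing A] [Algebra K A] (G : Dg K A)

/-- The genus: the number of the gaps. -/
noncomputable def gen : ℕ := {n : ℕ | ¬ ∃ x, G.d x = n}.ncard

/-- Proof: `tail`. -/
theorem gaps_fin : {n : ℕ | ¬ ∃ x, G.d x = n}.Finite := by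
  obtain ⟨N, hN⟩ := G.tail
  refine (Set.finite_lt_nat N).subset fun n hn => ?_
  by_contra h
  exact hn (hN n (not_lt.1 h))

private theorem jcD_rank (n : ℕ) :
    n + 1 = finrank K (G.L n) + {m : ℕ | m ≤ n ∧ ¬ ∃ x, G.d x = m}.ncard := by
  induction n with
  | zero =>
    have := G.nontrivial
    have h1 : {m : ℕ | m ≤ 0 ∧ ¬ ∃ x, G.d x = m} = ∅ := by
      rw [Set.eq_empty_iff_forall_notMem]
      rintro m ⟨hm, h⟩
      have h2 : m = 0 := by omega
      subst h2
      exact h ⟨1, G.one⟩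
    rw [h1, Set.ncard_empty, G.L_zero, finrank_span_singleton one_ne_zero]
  | succ n ih =>
    by_cases h : ∃ y, G.d y = ((n + 1 : ℕ) : WithBot ℕ)
    · obtain ⟨y, hy⟩ := h
      have h1 : {m : ℕ | m ≤ n + 1 ∧ ¬ ∃ x, G.d x = m} = {m : ℕ | m ≤ n ∧ ¬ ∃ x, G.d x = m} := by
        ext m
        constructor
        · rintro ⟨hm, h⟩
          refine ⟨?_, h⟩
          rcases Nat.lt_or_ge n m with h2 | h2
          · have h3 : m = n + 1 := by omega
            subst h3
            exact absurd ⟨y, hy⟩ h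
          · exact h2
        · rintro ⟨hm, h⟩
          exact ⟨by omega, h⟩
      rw [h1, G.finrank_L_succ hy]
      omega
    · have h1 : {m : ℕ | m ≤ n + 1 ∧ ¬ ∃ x, G.d x = m} =
          insert (n + 1) {m : ℕ | m ≤ n ∧ ¬ ∃ x, G.d x = m} := by
        ext m
        rw [Set.mem_insert_iff]
        constructor
        · rintro ⟨hm, h⟩
          rcases Nat.lt_or_ge n m with h2 | h2
          · left; omega
          · exact Or.inr ⟨h2, h⟩
        · rintro (rfl | ⟨hm, h⟩)
          · exact ⟨le_rfl, h⟩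
          · exact ⟨by omega, h⟩
      have hfin : {m : ℕ | m ≤ n ∧ ¬ ∃ x, G.d x = m}.Finite :=
        (Set.finite_le_nat n).subset fun m hm => hm.1
      have hn : n + 1 ∉ {m : ℕ | m ≤ n ∧ ¬ ∃ x, G.d x = m} := by
        rintro ⟨hm, -⟩
        omega
      rw [h1, Set.ncard_insert_of_notMem hn hfin, G.L_succ_eq h]
      omega

/-- Proof: by induction on `n` the dimension of `L n` is the number of the degrees `≤ n` (`finrank_L_succ`, `L_succ_eq`,
`L_zero`); the other numbers `≤ n` are gaps. -/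
theorem finrank_ge (n : ℕ) : n + 1 ≤ finrank K (G.L n) + G.gen := by
  have h1 := G.jcD_rank n
  have h2 : {m : ℕ | m ≤ n ∧ ¬ ∃ x, G.d x = m}.ncard ≤ G.gen :=
    Set.ncard_le_ncard (fun m hm => hm.2) G.gaps_fin
  omega

/-- Base change. Proof: `bc_one_tmul`; the degrees of the base change are degrees of `G` (`ofBasis_d`, `bd_lead`). -/
theorem gen_bc (K' : Type) [Field K'] [Algebra K K'] : (G.bc K').gen = G.gen := by
  have h1 : ∀ n : ℕ, (∃ x, (G.bc K').d x = n) ↔ ∃ x, G.d x = n := by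
    intro n
    constructor
    · rintro ⟨x, hx⟩
      have hx0 := (G.bc K').ne_zero hx
      have hx' : bd (G.elB.baseChange K') (fun n : G.deg => (n : ℕ)) x = n := hx
      obtain ⟨i, c, -, hi, -⟩ := bd_lead (b := G.elB.baseChange K')
        (e := fun n : G.deg => (n : ℕ)) Subtype.val_injective hx0
      rw [hx', Nat.cast_inj] at hi
      rw [hi]
      exact i.2
    · rintro ⟨x, hx⟩
      exact ⟨1 ⊗ₜ x, by rw [bc_one_tmul, hx]⟩
  unfold gen
  simp only [h1]

/-- The colength of a reduced ideal is at most the genus. Proof: as `red_colen` with `finrank_ge`: there is `g ≠ 0` in `J`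
with `d g ≤ gen + dim A / J`. -/
theorem red_gen [IsDedekindDomain A] {c : Cg A} {I : Ideal A} (h : G.Red c I) :
    Module.Finite K (A ⧸ I) ∧ finrank K (A ⧸ I) ≤ G.gen := by
  have hI := h.ne_bot
  obtain ⟨J, f, hJ, hc, hf, e⟩ := h
  have hfin := G.finite_quot hf.2.1
  obtain ⟨m, hm⟩ := G.exists_nat hf.2.1
  have h1 : Ideal.span {f} ≤ I := by rw [← e]; exact Ideal.mul_le_inf.trans inf_le_left
  have h2 : Ideal.span {f} ≤ J := by rw [← e]; exact Ideal.mul_le_inf.trans inf_le_right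
  obtain ⟨hI1, -⟩ := colen_le (K := K) h1
  obtain ⟨hJ1, -⟩ := colen_le (K := K) h2
  refine ⟨hI1, ?_⟩
  obtain ⟨-, h3⟩ := colen_mul (K := K) hI hJ
  rw [e, G.finrank_quot hm] at h3
  obtain ⟨r, hr⟩ : ∃ r, r = finrank K (A ⧸ J) := ⟨_, rfl⟩
  rw [← hr] at h3
  have h4 : ∃ g ∈ J, g ≠ 0 ∧ G.d g ≤ ((G.gen + r : ℕ) : WithBot ℕ) := by
    have h5 : finrank K (A ⧸ J) < finrank K (G.L (G.gen + r)) := by
      have h6 := G.finrank_ge (G.gen + r)
      rw [← hr]
      omega
    obtain ⟨x, hx, hx0⟩ := Submodule.exists_mem_ne_zero_of_ne_bot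
      (LinearMap.ker_ne_bot_of_finrank_lt
        (f := (Ideal.Quotient.mkₐ K J).toLinearMap ∘ₗ (G.L (G.gen + r)).subtype) h5)
    refine ⟨x.1, ?_, fun h => hx0 (Subtype.ext h), x.2⟩
    exact Ideal.Quotient.eq_zero_iff_mem.1 hx
  obtain ⟨g, hg, hg0, hgd⟩ := h4
  have h7 := (hf.2.2 g hg hg0).trans hgd
  rw [hm, Nat.cast_le] at h7
  omega

end Dg

end CV
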