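import Mathlib

/-!
Effective cycles of degree `n` on a set `X` and their orderings.

* `oc P`: the cycle of `P : Fin n → X`. `sy P`: the sum of the `P ∘ σ`, `σ` a permutation, a cycle on `Fin n → X`.
-/

namespace CV

namespace Sm

variable {X Y : Type} {n : ℕ}

/-- The cycle of a family. -/
noncomputable def oc (P : Fin n → X) : X →₀ ℤ := ∑ i, Finsupp.single (P i) 1

/-- The sum of the orderings. -/
noncomputable def sy (P : Fin n → X) : (Fin n → X) →₀ ℤ :=
  ∑ σ : Equiv.Perm (Fin n), Finsupp.single (P ∘ σ) 1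

private theorem jcS_apply [DecidableEq X] (P : Fin n → X) (x : X) :
    oc P x = (Fintype.card {i // P i = x} : ℤ) := by
  unfold oc
  rw [Finsupp.finsetSum_apply, Fintype.card_subtype]
  simp only [Finsupp.single_apply]
  rw [Finset.sum_boole]

/-- Proof: induction on `n`; if the degree is positive there is `x` with `z x > 0`, subtract `single x 1`, `Fin.cons`. -/
theorem exists_oc (z : X →₀ ℤ) (h0 : ∀ x, 0 ≤ z x) (hn : (z.sum fun _ m => m) = n) :
    ∃ P : Fin n → X, oc P = z := by
  classical
  induction n generalizing z with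
  | zero =>
    refine ⟨Fin.elim0, ?_⟩
    have hz : z = 0 := by
      ext x
      by_contra hx
      have hx' : z x ≠ 0 := by simpa using hx
      have h1 : (z.sum fun _ m => m) = ∑ a ∈ z.support, z a := rfl
      have h2 : z x ≤ ∑ a ∈ z.support, z a :=
        Finset.single_le_sum (f := fun a => z a) (fun a _ => h0 a) (Finsupp.mem_support_iff.mpr hx')
      have h3 := h0 x
      rw [h1] at hn
      have h4 : (∑ a ∈ z.support, z a) = 0 := by simpa using hn
      omega
    rw [hz]
    unfold oc
    simp
  | succ n ih =>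
    obtain ⟨x, hx⟩ : ∃ x, 0 < z x := by
      by_contra hc
      push Not at hc
      have hz : z = 0 := by
        ext x
        have h1 := hc x
        have h2 := h0 x
        simp
        omega
      rw [hz] at hn
      simp at hn
      omega
    obtain ⟨P, hP⟩ := ih (z - Finsupp.single x 1) (by
      intro y
      rw [Finsupp.sub_apply, Finsupp.single_apply]
      have h2 := h0 y
      split_ifs with h
      · rw [← h]; omega
      · omega) (by
      rw [Finsupp.sum_sub_index (fun _ _ _ => rfl), hn, Finsupp.sum_single_index rfl]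
      push_cast
      ring)
    refine ⟨Fin.cons x P, ?_⟩
    unfold oc at hP ⊢
    rw [Fin.sum_univ_succ]
    simp only [Fin.cons_zero, Fin.cons_succ]
    rw [hP]
    abel

/-- Families with the same cycle differ by a permutation. Proof: the multisets `univ.val.map P`, `univ.val.map Q` are equal
(counts), or induction on `n`. -/
theorem oc_perm {P Q : Fin n → X} (h : oc P = oc Q) : ∃ σ : Equiv.Perm (Fin n), Q = P ∘ σ := by
  classical
  have h1 : ∀ x, Nonempty ({i // Q i = x} ≃ {i // P i = x}) := by
    intro x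
    have h2 := jcS_apply P x
    rw [h, jcS_apply Q x] at h2
    exact ⟨Fintype.equivOfCardEq (by exact_mod_cast h2)⟩
  let e : ∀ x, {i // Q i = x} ≃ {i // P i = x} := fun x => (h1 x).some
  refine ⟨((Equiv.sigmaFiberEquiv Q).symm.trans (Equiv.sigmaCongrRight e)).trans (Equiv.sigmaFiberEquiv P), ?_⟩
  funext i
  exact ((e (Q i) ⟨i, rfl⟩).2).symm

theorem sy_perm (P : Fin n → X) (τ : Equiv.Perm (Fin n)) : sy (P ∘ τ) = sy P := by
  unfold sy
  exact Equiv.sum_comp (Equiv.mulLeft τ) (fun σ : Equiv.Perm (Fin n) => Finsupp.single (P ∘ σ) (1 : ℤ))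

theorem sy_eq {P Q : Fin n → X} (h : oc P = oc Q) : sy P = sy Q := by
  obtain ⟨σ, hσ⟩ := oc_perm h
  rw [hσ, sy_perm]

theorem oc_map (f : X → Y) (P : Fin n → X) : Finsupp.mapDomain f (oc P) = oc (f ∘ P) := by
  unfold oc
  rw [Finsupp.mapDomain_finsetSum]
  exact Finset.sum_congr rfl fun i _ => Finsupp.mapDomain_single

theorem sy_map (f : X → Y) (P : Fin n → X) :
    Finsupp.mapDomain (fun x : Fin n → X => f ∘ x) (sy P) = sy (f ∘ P) := by
  unfold sy
  rw [Finsupp.mapDomain_finsetSum]
  exact Finset.sum_congr rfl fun i _ => Finsupp.mapDomain_single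

/-- A symmetric map is constant on the orderings. -/
theorem sy_const {A : Type} [AddCommMonoid A] (g : X → A) (P : Fin n → X) :
    Finsupp.mapDomain (fun x : Fin n → X => ∑ i, g (x i)) (sy P) =
      Finsupp.single (∑ i, g (P i)) ((n.factorial : ℕ) : ℤ) := by
  unfold sy
  rw [Finsupp.mapDomain_finsetSum]
  have h : ∀ σ ∈ (Finset.univ : Finset (Equiv.Perm (Fin n))),
      Finsupp.mapDomain (fun x : Fin n → X => ∑ i, g (x i)) (Finsupp.single (P ∘ σ) (1 : ℤ)) =
        Finsupp.single (∑ i, g (P i)) 1 := by
    intro σ _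
    rw [Finsupp.mapDomain_single]
    have h2 : (∑ i, g ((P ∘ σ) i)) = ∑ i, g (P i) := Equiv.sum_comp σ (fun i => g (P i))
    rw [h2]
  rw [Finset.sum_congr rfl h, Finset.sum_const, Finset.card_univ, Fintype.card_perm, Fintype.card_fin,
    Finsupp.smul_single]
  simp

end Sm

end CV
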