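import Pool.Agent.Lib.MP_f80667_ag.Cv.JcC
import Pool.Agent.Lib.MP_f80667_ag.Cv.JcD
import Pool.Agent.Lib.MP_f80667_ag.Cv.JcS
import Pool.Agent.Lib.MP_f80667_ag.Cv.CyG

/-!
The canonical effective cycle of degree `g` in a class of degree `0`.
-/

open TensorProduct ZC BE

namespace CV

section

variable {F : Type} [Field F] (C : Crv F)

/-- The genus. -/
noncomputable def Crv.gen : ℕ := C.G.gen

variable {C} {Ω : Type} [Field Ω] [Algebra F Ω]

theorem genO : (C.dgO Ω).gen = C.gen := C.G.gen_bc Ω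

/-- The reduced ideal of a class. -/
noncomputable def rdI (c : Cg (Ω ⊗[F] C.A)) : Ideal (Ω ⊗[F] C.A) :=
  ((C.dgO Ω).exists_red c).choose

theorem rdI_red (c : Cg (Ω ⊗[F] C.A)) : (C.dgO Ω).Red c (rdI c) :=
  ((C.dgO Ω).exists_red c).choose_spec

/-- The canonical cycle of a class. -/
noncomputable def ec (c : Cg (Ω ⊗[F] C.A)) : C.V.pt Ω →₀ ℤ :=
  cy (rdI c) + Finsupp.single (C.bp.o Ω) ((C.gen : ℤ) - C.V.deg Ω (cy (rdI c)))

/-- The class of an effective cycle of finite points. Proof: `efc_induction`. -/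
theorem smC_efc {z : C.V.pt Ω →₀ ℤ} (hz : Efc z) : smC C Ω z = cls (idl C z) := by
  refine efc_induction (P := fun z => smC C Ω z = cls (idl C z)) ?_ (fun z φ hz ih => ?_) hz
  · rw [map_zero, idl_zero, Ideal.one_eq_top, cls_top]
  · have h1 : Efc (Finsupp.single (some φ) 1 : C.V.pt Ω →₀ ℤ) := efc_single φ zero_le_one
    have h2 := smC_single (C := C) (some φ) 1
    rw [cpt_some, one_zsmul] at h2
    rw [map_add, ih, idl_add h1.1 hz.1, idl_single, h2, Int.toNat_one, pow_one,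
      cls_mul (mx_ne_bot φ) (idl_ne_bot z)]

theorem smC_inf (n : ℤ) : smC C Ω (Finsupp.single (C.bp.o Ω) n) = 0 := by
  rw [smC_single]
  exact smul_zero n

private theorem jcE_deg (x : C.V.pt Ω) (n : ℤ) : C.V.deg Ω (Finsupp.single x n) = n := by
  unfold BE.Vr.deg
  rw [Finsupp.liftAddHom_apply_single]
  rfl

/-- Every cycle is a difference of effective cycles of finite points plus a multiple of infinity. -/
private theorem jcE_dec (z : C.V.pt Ω →₀ ℤ) : ∃ (a b : C.V.pt Ω →₀ ℤ) (k : ℤ), Efc a ∧ Efc b ∧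
    z = a - b + Finsupp.single (C.bp.o Ω) k := by
  induction z using Finsupp.induction_linear with
  | zero => exact ⟨0, 0, 0, Efc.zero, Efc.zero, by rw [Finsupp.single_zero, sub_zero, add_zero]⟩
  | add f g hf hg =>
    obtain ⟨a, b, k, ha, hb, e⟩ := hf
    obtain ⟨a', b', k', ha', hb', e'⟩ := hg
    refine ⟨a + a', b + b', k + k', ha.add ha', hb.add hb', ?_⟩
    rw [e, e', Finsupp.single_add]
    abel
  | single x n =>
    rcases x with _ | φ
    · refine ⟨0, 0, n, Efc.zero, Efc.zero, ?_⟩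
      rw [sub_zero, zero_add]
      rfl
    · rcases le_total 0 n with hn | hn
      · refine ⟨Finsupp.single (some φ) n, 0, 0, efc_single φ hn, Efc.zero, ?_⟩
        rw [Finsupp.single_zero, sub_zero, add_zero]
      · refine ⟨0, Finsupp.single (some φ) (-n), 0, Efc.zero, efc_single φ (by omega), ?_⟩
        rw [Finsupp.single_zero, Finsupp.single_neg, zero_sub, neg_neg, add_zero]

variable [IsAlgClosed Ω]

/-- Proof: `finrank_cy`, `red_gen`, `genO`. -/
theorem ec_nonneg (c : Cg (Ω ⊗[F] C.A)) (x : C.V.pt Ω) : 0 ≤ ec c x := by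
  classical
  have h0 := (rdI_red c).ne_bot
  have h1 := (C.dgO Ω).red_gen (rdI_red c)
  have h2 := finrank_cy h0
  have h3 : 0 ≤ (C.gen : ℤ) - C.V.deg Ω (cy (rdI c)) := by
    rw [← h2.2, ← genO (C := C) (Ω := Ω)]
    have := h1.2
    omega
  unfold ec
  rw [Finsupp.add_apply]
  refine add_nonneg ((cy_efc _).1 x) ?_
  rw [Finsupp.single_apply]
  split_ifs
  · exact h3
  · exact le_rfl

omit [IsAlgClosed Ω] in
theorem ec_deg (c : Cg (Ω ⊗[F] C.A)) : C.V.deg Ω (ec c) = C.gen := by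
  unfold ec
  rw [map_add, jcE_deg]
  ring

/-- Proof: `smC_efc`, `idl_cy`, `Red.cls`. -/
theorem ec_cls (c : Cg (Ω ⊗[F] C.A)) : smC C Ω (ec c) = c := by
  have h0 := (rdI_red c).ne_bot
  unfold ec
  rw [map_add, smC_inf, add_zero, smC_efc (cy_efc _), idl_cy h0]
  exact (rdI_red c).cls

/-- The converse of the theorem of Abel: a cycle of degree `0` and class `0` is principal. Proof: `zp`: `z = a - b + k [∞]`,
`a`, `b` effective of finite points, `cls (idl a) = cls (idl b)` (`smC_efc`), `cls_eq`, `pc_of_rel`. -/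
theorem pc_of_smC {z : C.V.pt Ω →₀ ℤ} (h0 : C.V.deg Ω z = 0) (h : smC C Ω z = 0) : z ∈ Pc C Ω := by
  obtain ⟨a, b, k, ha, hb, e⟩ := jcE_dec z
  have h1 : cls (idl C a) = cls (idl C b) := by
    rw [e, map_add, map_sub, smC_inf, add_zero, smC_efc ha, smC_efc hb] at h
    exact sub_eq_zero.1 h
  obtain ⟨f, g, hf, hg, hfg⟩ := (cls_eq (idl_ne_bot a) (idl_ne_bot b)).1 h1
  refine pc_of_rel (idl_ne_bot a) (idl_ne_bot b) hf hg hfg h0 (k := k) ?_
  rw [cy_idl ha, cy_idl hb]
  exact e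

variable {K : Type} [Field K] [Algebra K Ω] [Algebra F K] [IsScalarTower F K Ω]

omit [IsAlgClosed Ω] in
/-- Proof: both are the extension of ideals along the same homomorphism (`clX_cls`, `clMap_cls`). -/
theorem act_J (γ : Ω ≃ₐ[K] Ω) (c : Cg (Ω ⊗[F] C.A)) :
    C.J.act γ (c : C.J.pt Ω) = clMap (gA C γ).toRingEquiv c := by
  have h1 : bA C (γ.restrictScalars F : Ω →ₐ[F] Ω) =
      ((gA C γ).toRingEquiv : (Ω ⊗[F] C.A) →+* (Ω ⊗[F] C.A)) := by
    refine RingHom.ext fun x => ?_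
    change bA C (γ.restrictScalars F : Ω →ₐ[F] Ω) x = gA C γ x
    induction x using TensorProduct.induction_on with
    | zero => rw [map_zero, map_zero]
    | tmul c a => rw [bA_tmul, gA_tmul]; rfl
    | add x y hx hy => rw [map_add, map_add, hx, hy]
  change clX (bA C (γ.restrictScalars F : Ω →ₐ[F] Ω)) c = _
  rw [h1, clX_clMap]

/-- Proof: `Red.map` with `gA_d`, `red_uniq`, `gA_cy`. -/
theorem ec_act (γ : Ω ≃ₐ[K] Ω) (c : Cg (Ω ⊗[F] C.A)) :
    Finsupp.mapDomain (C.V.act γ) (ec c) = ec (C.J.act γ (c : C.J.pt Ω) : Cg (Ω ⊗[F] C.A)) := by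
  have h0 := (rdI_red c).ne_bot
  have h1 : rdI (clMap (gA C γ).toRingEquiv c) = (rdI c).map (gA C γ) := by
    have h2 := (rdI_red c).map (G' := C.dgO Ω) (gA C γ).toRingEquiv (fun a => gA_d C γ a)
    exact (C.dgO Ω).red_uniq (rdI_red _) h2
  rw [act_J]
  unfold ec
  rw [h1, gA_cy γ h0, deg_map, Finsupp.mapDomain_add, Finsupp.mapDomain_single]
  rfl

end

end CV
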