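import Pool.Agent.Lib.MP_f80667_ag.Cv.JcE

/-!
The Albanese kernel of the Jacobian is `l`-divisible for `l` larger than the genus if the Albanese kernel of the power
`C ^ g` is.
-/

open TensorProduct ZC BE

namespace CV

section

variable {F : Type} [Field F] {C : Crv F} {K Ω : Type} [Field K] [Field Ω]
  [Algebra K Ω] [Algebra F K] [Algebra F Ω] [IsScalarTower F K Ω] [IsAlgClosed Ω]

/-- An ordering of the canonical cycle. -/
theorem exists_ec (c : C.J.pt Ω) : ∃ P : Fin C.gen → C.V.pt Ω,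
    Sm.oc P = ec (c : Cg (Ω ⊗[F] C.A)) :=
  Sm.exists_oc _ (ec_nonneg _) (by
    have h := ec_deg (C := C) (Ω := Ω) c
    rw [Vr.deg, Finsupp.liftAddHom_apply] at h
    exact h)

/-- An ordering of the canonical cycle. -/
noncomputable def eP (c : C.J.pt Ω) : Fin C.gen → C.V.pt Ω := (exists_ec c).choose

theorem eP_spec (c : C.J.pt Ω) : Sm.oc (eP c) = ec (c : Cg (Ω ⊗[F] C.A)) :=
  (exists_ec c).choose_spec

theorem smC_oc {n : ℕ} (P : Fin n → C.V.pt Ω) : smC C Ω (Sm.oc P) = ∑ i, cpt (P i) := by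
  unfold Sm.oc
  rw [map_sum]
  exact Finset.sum_congr rfl fun i _ => by rw [smC_single, one_zsmul]

theorem eP_sum (c : C.J.pt Ω) : ∑ i, cpt (eP c i) = (c : Cg (Ω ⊗[F] C.A)) := by
  rw [← smC_oc, eP_spec, ec_cls]

variable (C Ω) in
/-- The cycle of the orderings. -/
noncomputable def yh : (C.J.pt Ω →₀ ℤ) →+ ((Vpi fun _ : Fin C.gen => C.V).pt Ω →₀ ℤ) :=
  Finsupp.liftAddHom fun a => (smulAddHom ℤ ((Vpi fun _ : Fin C.gen => C.V).pt Ω →₀ ℤ)).flip
    (Sm.sy (eP a))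

theorem yh_single (a : C.J.pt Ω) (n : ℤ) : yh C Ω (Finsupp.single a n) = n • Sm.sy (eP a) := by
  unfold yh
  rw [Finsupp.liftAddHom_apply_single]
  rfl

theorem yh_act (γ : Ω ≃ₐ[K] Ω) (z : C.J.pt Ω →₀ ℤ) :
    Finsupp.mapDomain ((Vpi fun _ : Fin C.gen => C.V).act γ) (yh C Ω z) =
      yh C Ω (Finsupp.mapDomain (C.J.act γ) z) := by
  induction z using Finsupp.induction_linear with
  | zero => rw [map_zero, Finsupp.mapDomain_zero, Finsupp.mapDomain_zero, map_zero]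
  | add f g hf hg => rw [map_add, Finsupp.mapDomain_add, Finsupp.mapDomain_add, map_add, hf, hg]
  | single a n =>
    rw [Finsupp.mapDomain_single, yh_single, yh_single]
    have h1 : Finsupp.mapDomain ((Vpi fun _ : Fin C.gen => C.V).act γ) (n • Sm.sy (eP a)) =
        n • Finsupp.mapDomain (fun x : Fin C.gen → C.V.pt Ω => C.V.act γ ∘ x) (Sm.sy (eP a)) :=
      (Finsupp.mapDomain.addMonoidHom (M := ℤ) (fun x : Fin C.gen → C.V.pt Ω =>
        C.V.act γ ∘ x)).map_zsmul _ _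
    rw [h1, Sm.sy_map]
    congr 1
    apply Sm.sy_eq
    rw [← Sm.oc_map, eP_spec, eP_spec, ec_act]

theorem yh_pi (z : C.J.pt Ω →₀ ℤ) :
    Finsupp.mapDomain ((piJ C C.gen).f Ω) (yh C Ω z) = ((C.gen.factorial : ℕ) : ℤ) • z := by
  induction z using Finsupp.induction_linear with
  | zero => rw [map_zero, Finsupp.mapDomain_zero, smul_zero]
  | add f g hf hg => rw [map_add, Finsupp.mapDomain_add, hf, hg, smul_add]
  | single a n =>
    rw [yh_single]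
    have h1 : Finsupp.mapDomain ((piJ C C.gen).f Ω) (n • Sm.sy (eP a)) =
        n • Finsupp.mapDomain (fun x : Fin C.gen → C.V.pt Ω =>
          (∑ i, cpt (C := C) (x i) : Cg (Ω ⊗[F] C.A))) (Sm.sy (eP a)) :=
      (Finsupp.mapDomain.addMonoidHom (M := ℤ) (fun x : Fin C.gen → C.V.pt Ω =>
        (∑ i, cpt (C := C) (x i) : Cg (Ω ⊗[F] C.A)))).map_zsmul _ _
    rw [h1, Sm.sy_const, eP_sum]
    change n • Finsupp.single (a : C.J.pt Ω) ((C.gen.factorial : ℕ) : ℤ) = _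
    rw [Finsupp.smul_single, Finsupp.smul_single, smul_eq_mul, smul_eq_mul, mul_comm]

/-- **The Albanese kernel of the Jacobian.** -/
theorem Crv.dvJ {l : ℕ} (hl : l.Prime) (hg : C.gen < l)
    (hpr : ∀ z ∈ Pc C Ω, z ∈ C.V.D0 K Ω → z ∈ C.V.ratEq K Ω)
    (h : DvG (fun _ : Fin C.gen => C.V) K Ω l) {z : C.J.pt Ω →₀ ℤ} (hz : z ∈ C.J.D0 K Ω)
    (hs : smJ C Ω z = 0) : ∃ z' ∈ C.J.D0 K Ω, smJ C Ω z' = 0 ∧ z - l • z' ∈ C.J.ratEq K Ω := by
  obtain ⟨y, hy⟩ : ∃ y, y = yh C Ω z := ⟨_, rfl⟩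
  have hpi : Finsupp.mapDomain ((piJ C C.gen).f Ω) y = ((C.gen.factorial : ℕ) : ℤ) • z := by
    rw [hy, yh_pi]
  have hyD : y ∈ (Vpi fun _ : Fin C.gen => C.V).D0 K Ω := by
    refine ⟨fun γ => ?_, ?_⟩
    · rw [hy, yh_act, hz.1 γ]
    · have h1 := Mo.deg ((piJ C C.gen).f Ω) y
      rw [hpi, map_zsmul] at h1
      have h2 : C.J.deg Ω z = 0 := hz.2
      rw [h2, smul_zero] at h1
      exact h1.symm
  have o : ∀ i : Fin C.gen, Bp ((fun _ : Fin C.gen => C.V) i) := fun _ => C.bp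
  obtain ⟨y', hy'⟩ : ∃ y', y' = piC (fun _ : Fin C.gen => C.bp) y := ⟨_, rfl⟩
  have hy'D : y' ∈ (Vpi fun _ : Fin C.gen => C.V).D0 K Ω := by
    rw [hy']
    exact piC_D0 _ hyD
  obtain ⟨y₂, hy₂, hy₂r, hy₂'⟩ := h y' hy'D fun i => by
    rw [hy', pr_piC _ i hyD.2]
    exact zero_mem _
  obtain ⟨y₃, hy₃⟩ : ∃ y₃, y₃ = piC (fun _ : Fin C.gen => C.bp) y₂ := ⟨_, rfl⟩
  have hy₃D : y₃ ∈ (Vpi fun _ : Fin C.gen => C.V).D0 K Ω := by
    rw [hy₃]
    exact piC_D0 _ hy₂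
  have h3 : y' - l • y₃ ∈ (Vpi fun _ : Fin C.gen => C.V).ratEq K Ω := by
    have h4 := sub_piC (fun _ : Fin C.gen => C.bp) hy₂r
    rw [← hy₃] at h4
    have h5 : y' - l • y₃ = (y' - l • y₂) + l • (y₂ - y₃) := by
      rw [smul_sub]
      abel
    rw [h5]
    exact add_mem hy₂' (nsmul_mem h4 l)
  -- the part on the axes
  obtain ⟨w, hw⟩ : ∃ w : C.V.pt Ω →₀ ℤ, w = ∑ i : Fin C.gen, Finsupp.mapDomain
    ((pr (V := fun _ : Fin C.gen => C.V) i).f Ω) y := ⟨_, rfl⟩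
  have hwD : w ∈ C.V.D0 K Ω := by
    rw [hw]
    exact sum_mem fun i _ => (pr (V := fun _ : Fin C.gen => C.V) i).D0 hyD
  have hw0 : smC C Ω w = 0 := by
    rw [hw, map_sum, ← smJ_pi, hpi, map_zsmul, hs, smul_zero]
  have hwr : w ∈ C.V.ratEq K Ω := hpr w (pc_of_smC hwD.2 hw0) hwD
  have hax : Finsupp.mapDomain ((piJ C C.gen).f Ω) (y - y') =
      Finsupp.mapDomain ((ajJ C).f Ω) w := by
    have h6 : y - y' = ∑ i : Fin C.gen, Finsupp.mapDomain
        ((sc (V := fun _ : Fin C.gen => C.V) (fun _ => C.bp) i).f Ω)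
        (Finsupp.mapDomain ((pr (V := fun _ : Fin C.gen => C.V) i).f Ω) y) := by
      rw [hy', piC, sub_sub_cancel]
    rw [h6, hw, Finsupp.mapDomain_finsetSum, Finsupp.mapDomain_finsetSum]
    refine Finset.sum_congr rfl fun i _ => ?_
    rw [← Finsupp.mapDomain_comp]
    exact congrArg (fun f => Finsupp.mapDomain f _) (funext fun x => piJ_sc C.gen i x)
  have hkey : ((C.gen.factorial : ℕ) : ℤ) • z - l • Finsupp.mapDomain ((piJ C C.gen).f Ω) y₃ ∈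
      C.J.ratEq K Ω := by
    have h7 := (piJ C C.gen).ratEq K Ω h3
    have h8 := (ajJ C).ratEq K Ω hwr
    rw [← hax] at h8
    have h9 : ((C.gen.factorial : ℕ) : ℤ) • z -
        l • Finsupp.mapDomain ((piJ C C.gen).f Ω) y₃ =
        Finsupp.mapDomain ((piJ C C.gen).f Ω) (y - y') +
          Finsupp.mapDomain ((piJ C C.gen).f Ω) (y' - l • y₃) := by
      rw [← hpi]
      change Finsupp.mapDomain.addMonoidHom ((piJ C C.gen).f Ω) y -
        l • Finsupp.mapDomain.addMonoidHom ((piJ C C.gen).f Ω) y₃ =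
        Finsupp.mapDomain.addMonoidHom ((piJ C C.gen).f Ω) (y - y') +
          Finsupp.mapDomain.addMonoidHom ((piJ C C.gen).f Ω) (y' - l • y₃)
      rw [map_sub, map_sub, map_nsmul]
      abel
    rw [h9]
    exact add_mem h8 h7
  have hc : (C.gen.factorial).Coprime l := by
    rw [Nat.coprime_comm, hl.coprime_iff_not_dvd, hl.dvd_factorial]
    omega
  have hb := Nat.gcd_eq_gcd_ab C.gen.factorial l
  rw [hc.gcd_eq_one, Nat.cast_one] at hb
  obtain ⟨a, ha⟩ : ∃ a : ℤ, a = (C.gen.factorial).gcdA l := ⟨_, rfl⟩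
  obtain ⟨b, hb'⟩ : ∃ b : ℤ, b = (C.gen.factorial).gcdB l := ⟨_, rfl⟩
  rw [← ha, ← hb'] at hb
  obtain ⟨z₁, hz₁⟩ : ∃ z₁, z₁ = Finsupp.mapDomain ((piJ C C.gen).f Ω) y₃ := ⟨_, rfl⟩
  rw [← hz₁] at hkey
  have hz₁D : z₁ ∈ C.J.D0 K Ω := by
    rw [hz₁]
    exact (piJ C C.gen).D0 hy₃D
  have hz₁s : smJ C Ω z₁ = 0 := by
    rw [hz₁, smJ_pi]
    refine Finset.sum_eq_zero fun i _ => ?_
    rw [hy₃, pr_piC _ i hy₂.2, map_zero]
  refine ⟨a • z₁ + b • z, add_mem (AddSubgroup.zsmul_mem _ hz₁D _)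
    (AddSubgroup.zsmul_mem _ hz _), ?_, ?_⟩
  · rw [map_add, map_zsmul, map_zsmul, hz₁s, hs, smul_zero, smul_zero, add_zero]
  · have h10 : z - l • (a • z₁ + b • z) = a • (((C.gen.factorial : ℕ) : ℤ) • z - l • z₁) := by
      have h11 : z - l • (a • z₁ + b • z) - a • (((C.gen.factorial : ℕ) : ℤ) • z - l • z₁) =
          (1 - ((C.gen.factorial : ℤ) * a + l * b)) • z := by
        simp only [← natCast_zsmul]
        module
      rw [← hb, sub_self, zero_smul] at h11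
      exact sub_eq_zero.1 h11
    rw [h10]
    exact AddSubgroup.zsmul_mem _ hkey _

end

end CV
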