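import Pool.Agent.Lib.MP_f80667_ag.Cv.MdP
import Pool.Agent.Lib.MP_f80667_ag.Cv.MdK
import Pool.Agent.Lib.MP_f80667_ag.Cv.Ct1

/-!
Integral ideals with the same specialisation: elements of unit type which generate them near the common specialisation.
-/

open IsLocalRing

namespace CV

namespace Md

variable {V L k S SL Sk : Type} [CommRing V] [IsDomain V] [IsDiscreteValuationRing V] [Field L]
  [Field k] [Algebra V L] [IsFractionRing V L] [Algebra V k] [CommRing S] [CommRing SL]
  [CommRing Sk] [Algebra V S] [Algebra L SL] [Algebra k Sk] (M : Md V L k S SL Sk)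

/-- Lifting of elements of an integral ideal with a bound for the degree. Proof: `u` of unit type of degree `a` with `i u ∈ I`. Induction on the degree `d` of `i s` (as in `Md.lift`): if `d > n ≥ a + n₀` subtract `c u e`, `e` of unit type of degree `d - a`
(`leadV`: the degree becomes smaller); `c ∈ maximalIdeal V` (otherwise `q s` would have degree `d > n`), so `q` does not change. -/
theorem lift_int {n₀ : ℕ} (h0 : M.Tail n₀) {I : Ideal SL} {u : S} {a : ℕ} (hu : M.Ut u a)
    (huI : M.i u ∈ I) {n : ℕ} (hn : a + n₀ ≤ n) {s : S} (hs : M.i s ∈ I) (hd : M.Dk.d (M.q s) ≤ n) :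
    ∃ s' : S, M.i s' ∈ I ∧ M.q s' = M.q s ∧ M.DL.d (M.i s') ≤ n := by
  suffices H : ∀ (N : ℕ) (s : S), M.DL.d (M.i s) ≤ N → M.i s ∈ I → M.Dk.d (M.q s) ≤ n →
      ∃ s' : S, M.i s' ∈ I ∧ M.q s' = M.q s ∧ M.DL.d (M.i s') ≤ n by
    by_cases h0 : M.i s = 0
    · exact ⟨s, hs, rfl, by rw [h0, M.DL.zero]; exact bot_le⟩
    · obtain ⟨N, hN⟩ := M.DL.exists_nat h0
      exact H N s hN.le hs hd
  clear hs hd s
  intro N
  induction N with
  | zero =>
    intro s h1 hs _
    exact ⟨s, hs, rfl, h1.trans (by exact_mod_cast Nat.zero_le n)⟩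
  | succ N ih =>
    intro s h1 hs hd
    by_cases hN : N + 1 ≤ n
    · exact ⟨s, hs, rfl, h1.trans (by exact_mod_cast hN)⟩
    obtain ⟨e, he⟩ := h0 (N + 1 - a) (by omega)
    have hue : M.Ut (u * e) (N + 1) := by
      have h2 := Ut.mul hu he
      have h3 : a + (N + 1 - a) = N + 1 := by omega
      rwa [h3] at h2
    obtain ⟨c, hc⟩ := M.leadV hue h1
    have hc1 : M.DL.d (M.i (s - algebraMap V S c * (u * e))) ≤ (N : ℕ) := by
      generalize M.DL.d (M.i (s - algebraMap V S c * (u * e))) = t at hc ⊢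
      induction t with
      | bot => exact bot_le
      | coe t =>
        have h2 : t < N + 1 := WithBot.coe_lt_coe.1 hc
        exact WithBot.coe_le_coe.2 (Nat.lt_succ_iff.1 h2)
    have hcm : c ∈ maximalIdeal V := by
      by_contra hcm
      have hk : algebraMap V k c ≠ 0 := fun h => hcm ((M.res_zero c).1 h)
      have h2 : M.Dk.d (M.q (s - algebraMap V S c * (u * e))) < M.Dk.d (algebraMap V k c • M.q (u * e)) := by
        rw [M.Dk.smul hk, hue.2]
        exact (M.le _).trans_lt hc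
      have h3 := M.Dk.add_eq h2
      have h4 : M.q (s - algebraMap V S c * (u * e)) + algebraMap V k c • M.q (u * e) = M.q s := by
        rw [map_sub, map_mul M.q (algebraMap V S c), M.q_alg, Algebra.smul_def, sub_add_cancel]
      rw [h4, M.Dk.smul hk, hue.2] at h3
      rw [h3, Nat.cast_le] at hd
      exact hN hd
    have hq : M.q (s - algebraMap V S c * (u * e)) = M.q s := by
      rw [map_sub, M.q_alg_mul hcm, sub_zero]
    have hI : M.i (s - algebraMap V S c * (u * e)) ∈ I := by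
      rw [map_sub, map_mul, map_mul]
      exact I.sub_mem hs (I.mul_mem_left _ (I.mul_mem_right _ huI))
    obtain ⟨s', h2, h3, h4⟩ := ih _ hc1 hI (by rw [hq]; exact hd)
    exact ⟨s', h2, h3.trans hq, h4⟩

/-- An ideal `I ≠ ⊥` of a Dedekind domain which contains elements of all large degrees in its square: a generator modulo `I ^ 2` of a given large degree. Proof: `IsDedekindDomain.exists_sup_span_eq` for `I ^ 2 ≤ I` gives `a`; add an element of `I ^ 2` of degree `n` greater than the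
degree of `a`. Then `(g) = I J` and `J ⊔ I = ⊤`. -/
theorem exists_bar {k B : Type} [Field k] [CommRing B] [IsDedekindDomain B] [Algebra k B] (G : Dg k B)
    {I : Ideal B} (hI : I ≠ ⊥) {m : ℕ} (hm : ∀ n : ℕ, m ≤ n → ∃ b ∈ I ^ 2, G.d b = n) :
    ∃ m' : ℕ, ∀ n : ℕ, m' ≤ n → ∃ g ∈ I, G.d g = n ∧ ∃ J : Ideal B, Ideal.span {g} = I * J ∧
      J ⊔ I = ⊤ := by
  obtain ⟨a, ha⟩ := IsDedekindDomain.exists_sup_span_eq (I := I ^ 2) (J := I)
    (Ideal.pow_le_self two_ne_zero) (pow_ne_zero 2 hI)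
  obtain ⟨t, ht⟩ : ∃ t : ℕ, G.d a < t := by
    by_cases h0 : a = 0
    · exact ⟨0, by rw [h0, G.zero]; exact WithBot.bot_lt_coe 0⟩
    · obtain ⟨t, ht⟩ := G.exists_nat h0
      exact ⟨t + 1, by rw [ht]; exact_mod_cast Nat.lt_succ_self t⟩
  refine ⟨max m t, fun n hn => ?_⟩
  obtain ⟨b, hb, hbn⟩ := hm n ((le_max_left _ _).trans hn)
  have haI : a ∈ I := by
    rw [← ha]
    exact Ideal.mem_sup_right (Ideal.mem_span_singleton_self a)
  have hbI : b ∈ I := Ideal.pow_le_self two_ne_zero hb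
  have hdeg : G.d (a + b) = n := by
    rw [← hbn]
    refine G.add_eq (ht.trans_le ?_)
    rw [hbn]
    exact_mod_cast (le_max_right _ _).trans hn
  refine ⟨a + b, I.add_mem haI hbI, hdeg, ?_⟩
  obtain ⟨J, hJ⟩ := Ideal.dvd_iff_le.2 ((Ideal.span_singleton_le_iff_mem _).2 (I.add_mem haI hbI))
  refine ⟨J, hJ, ?_⟩
  have h1 : I ^ 2 ⊔ Ideal.span {a + b} = I := by
    refine le_antisymm (sup_le (Ideal.pow_le_self two_ne_zero)
      ((Ideal.span_singleton_le_iff_mem _).2 (I.add_mem haI hbI))) ?_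
    conv_lhs => rw [← ha]
    refine sup_le le_sup_left ((Ideal.span_singleton_le_iff_mem _).2 ?_)
    have h2 : (a + b) - b ∈ I ^ 2 ⊔ Ideal.span {a + b} :=
      Ideal.sub_mem _ (Ideal.mem_sup_right (Ideal.mem_span_singleton_self _))
        (Ideal.mem_sup_left hb)
    rwa [add_sub_cancel_right] at h2
  rw [hJ, pow_two, ← Ideal.mul_sup] at h1
  have h2 : I * (I ⊔ J) = I * ⊤ := by rw [h1, Ideal.mul_top]
  rw [sup_comm]
  exact mul_left_cancel₀ hI h2

/-- `sp` of a principal ideal generated by an element of unit type. Proof: `Ideal.span {q u} ≤ sp (span {i u})` and the dimensions are the same (`finrank_sp`, `Dg.finrank_quot`). -/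
theorem sp_ut {u : S} {n : ℕ} (hu : M.Ut u n) :
    M.sp (Ideal.span {M.i u}) = Ideal.span {M.q u} := by
  have hJ : M.Int (Ideal.span {M.i u}) := ⟨u, n, hu, Ideal.mem_span_singleton_self _⟩
  have hmem : M.q u ∈ M.sp (Ideal.span {M.i u}) :=
    M.mem_sp.2 ⟨u, Ideal.mem_span_singleton_self _, rfl⟩
  have hfin : Module.Finite k (Sk ⧸ Ideal.span {M.q u}) := M.Dk.finite_quot (M.Dk.ne_zero hu.2)
  refine (eq_of_colen (K := k) ((Ideal.span_singleton_le_iff_mem _).2 hmem) ?_).symm
  rw [M.Dk.finrank_quot hu.2, M.finrank_sp hJ, M.DL.finrank_quot hu.1]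

end Md

end CV
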