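import Pool.Agent.Lib.MP_f80667_ag.Cv.Kr1

/-!
Integral ideals with the same specialisation: elements of unit type which generate them near the common specialisation.
-/

open IsLocalRing

namespace CV

namespace Md

variable {V L k S SL Sk : Type} [CommRing V] [IsDomain V] [IsDiscreteValuationRing V] [Field L]
  [Field k] [Algebra V L] [IsFractionRing V L] [Algebra V k] [CommRing S] [CommRing SL]
  [CommRing Sk] [Algebra V S] [Algebra L SL] [Algebra k Sk] (M : Md V L k S SL Sk)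

/-- An element of an integral ideal with a given specialisation of degree `n` can be chosen of unit type. -/
private theorem kr2_lift {n₀ : ℕ} (h0 : M.Tail n₀) {I : Ideal SL} {u : S} {a : ℕ} (hu : M.Ut u a)
    (huI : M.i u ∈ I) {n : ℕ} (hn : a + n₀ ≤ n) {g : Sk} (hg : g ∈ M.sp I) (hd : M.Dk.d g = n) :
    ∃ G : S, M.Ut G n ∧ M.i G ∈ I ∧ M.q G = g := by
  obtain ⟨s, hs, rfl⟩ := M.mem_sp.1 hg
  obtain ⟨s', h1, h2, h3⟩ := M.lift_int h0 hu huI hn hs hd.le
  refine ⟨s', ⟨le_antisymm h3 ?_, by rw [h2, hd]⟩, h1, h2⟩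
  rw [← hd, ← h2]
  exact M.le s'

/-- A proper ideal above a closed point. -/
private theorem kr2_top {N : Ideal S} (hN : Cs V N) : N.map M.q ≠ ⊤ := by
  intro h
  have h1 : (1 : Sk) ∈ N.map M.q := by
    rw [h]
    exact Submodule.mem_top
  obtain ⟨s, hs, hs1⟩ := (Ideal.mem_map_iff_of_surjective M.q M.surj).1 h1
  have h2 : M.q (1 - s) = 0 := by rw [map_sub, hs1, map_one, sub_self]
  obtain ⟨c, hc, t, ht⟩ := M.ker h2
  have h3 : (1 : S) - s ∈ N := by
    rw [ht]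
    exact N.mul_mem_right _ (hN.2 c hc)
  have h4 : (1 : S) ∈ N := by
    have h5 : (1 : S) = (1 - s) + s := by ring
    rw [h5]
    exact N.add_mem h3 hs
  exact hN.1.ne_top ((Ideal.eq_top_iff_one N).2 h4)

private theorem kr2_sp_le {I : Ideal SL} {N : Ideal S} (h : I.comap M.i ≤ N) :
    M.sp I ≤ N.map M.q := Ideal.map_mono h

/-- The complementary ideal. -/
private theorem kr2_compl [IsDedekindDomain SL] [IsDedekindDomain Sk] {I : Ideal SL} (hI : M.Int I)
    {G : S} {n : ℕ} (hG : M.Ut G n) (hGI : M.i G ∈ I) {J₀ : Ideal Sk}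
    (h : Ideal.span {M.q G} = M.sp I * J₀) : ∃ J : Ideal SL, Ideal.span {M.i G} = I * J ∧
      M.sp J = J₀ := by
  obtain ⟨J, hJ⟩ := Ideal.dvd_iff_le.2 ((Ideal.span_singleton_le_iff_mem I).2 hGI)
  refine ⟨J, hJ, ?_⟩
  have hJi : M.Int J := by
    refine ⟨G, n, hG, ?_⟩
    have h1 : M.i G ∈ Ideal.span {M.i G} := Ideal.mem_span_singleton_self _
    rw [hJ] at h1
    exact Ideal.mul_le_right h1
  have h2 : M.sp I * M.sp J = M.sp I * J₀ := by
    rw [← M.sp_mul hI hJi, ← hJ, M.sp_ut hG, h]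
  exact mul_left_cancel₀ hI.ne_bot.2 h2

/-- **Two integral ideals with the same specialisation.** Proof: `exists_bar` for `sp I` (`q u ∈ sp I` for an element of unit type of `I`, so `q (u ^ 2 e) ∈ (sp I) ^ 2` for all `e` of unit type) gives `g` of large degree `n`; `g = q s`, `i s ∈ I` (`mem_sp`) and `g = q s'`, `i s' ∈ I'`; by
`lift_int` we may assume that the degrees are `≤ n`, so they are `n` (`M.le`). `J`, `J'` by divisibility in `SL`; they are integral (they contain `i G`, `i G'`). `(g) = sp (i G) = sp I * sp J` (`sp_mul`, `sp_span`: `sp (span {i G}) = span {q G}`, since `G` is of unit type: colength, or from the proof of `sp_span`), so by cancellation `sp J ⊔ sp I = ⊤`. If `N` is a closed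
point with `comap i I ≤ N`, `comap i J ≤ N` then `map q N` is a proper ideal which contains `sp I` and `sp J`. -/
theorem exists_GG [IsDedekindDomain SL] [IsDedekindDomain Sk] {I I' : Ideal SL} (hI : M.Int I)
    (hI' : M.Int I') (h : M.sp I = M.sp I') : ∃ (G G' : S) (n : ℕ) (J J' : Ideal SL),
      M.Ut G n ∧ M.Ut G' n ∧ M.q G = M.q G' ∧ Ideal.span {M.i G} = I * J ∧
      Ideal.span {M.i G'} = I' * J' ∧ ∀ N : Ideal S, Cs V N →
        (I.comap M.i ≤ N ∨ I'.comap M.i ≤ N) → ¬ J.comap M.i ≤ N ∧ ¬ J'.comap M.i ≤ N := by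
  obtain ⟨n₀, h0⟩ := M.exists_tail
  obtain ⟨u, a, hu, huI⟩ := id hI
  obtain ⟨u', a', hu', huI'⟩ := id hI'
  have hm : ∀ n : ℕ, 2 * a + n₀ ≤ n → ∃ b ∈ M.sp I ^ 2, M.Dk.d b = n := by
    intro n hn
    obtain ⟨e, he⟩ := h0 (n - 2 * a) (by omega)
    have h1 : M.q u ∈ M.sp I := M.mem_sp.2 ⟨u, huI, rfl⟩
    refine ⟨M.q u ^ 2 * M.q e, Ideal.mul_mem_right _ _ (Ideal.pow_mem_pow h1 2), ?_⟩
    rw [M.Dk.mul, M.Dk.pow hu.2, he.2, ← Nat.cast_add]
    have h2 : a * 2 + (n - 2 * a) = n := by omega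
    rw [h2]
  obtain ⟨m', hm'⟩ := exists_bar M.Dk hI.ne_bot.2 hm
  obtain ⟨g, hg, hgd, J₀, hJ₀, hJ₁⟩ := hm' (max m' (max (a + n₀) (a' + n₀))) (le_max_left _ _)
  have hn1 : a + n₀ ≤ max m' (max (a + n₀) (a' + n₀)) :=
    (le_max_left _ _).trans (le_max_right _ _)
  have hn2 : a' + n₀ ≤ max m' (max (a + n₀) (a' + n₀)) :=
    (le_max_right _ _).trans (le_max_right _ _)
  obtain ⟨G, hG, hGI, hGq⟩ := kr2_lift M h0 hu huI hn1 hg hgd
  obtain ⟨G', hG', hGI', hGq'⟩ := kr2_lift M h0 hu' huI' hn2 (h ▸ hg) hgd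
  obtain ⟨J, hJ, hJs⟩ := kr2_compl M hI hG hGI (J₀ := J₀) (by rw [hGq, hJ₀])
  obtain ⟨J', hJ', hJs'⟩ := kr2_compl M hI' hG' hGI' (J₀ := J₀) (by rw [hGq', hJ₀, h])
  refine ⟨G, G', _, J, J', hG, hG', by rw [hGq, hGq'], hJ, hJ', ?_⟩
  intro N hN hle
  have h1 : M.sp I ≤ N.map M.q := by
    rcases hle with hle | hle
    · exact kr2_sp_le M hle
    · rw [h]
      exact kr2_sp_le M hle
  have h2 : ¬ J₀ ≤ N.map M.q := by
    intro h3
    refine kr2_top M hN (top_le_iff.1 ?_)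
    rw [← hJ₁]
    exact sup_le h3 h1
  refine ⟨fun h3 => h2 ?_, fun h3 => h2 ?_⟩
  · rw [← hJs]
    exact kr2_sp_le M h3
  · rw [← hJs']
    exact kr2_sp_le M h3

/-- An integral ideal whose specialisation is principal: after multiplication by an element of unit type it has the specialisation of an element of unit type. Proof: `e` of unit type of large degree, `y = h q(e)` of degree `n ≥ n₀`; `h' ∈ S` with `q h' = y` of degree `≤ n` (`Md.lift`), so of unit type; `sp (I (i e)) = (h) (q e)`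
(`sp_mul`, `sp_ut`). -/
theorem exists_hh [IsDedekindDomain SL] [IsDedekindDomain Sk] {I : Ideal SL} (hI : M.Int I) {h : Sk}
    (h1 : M.sp I = Ideal.span {h}) : ∃ (e h' : S) (m n : ℕ), M.Ut e m ∧ M.Ut h' n ∧
      M.sp (I * Ideal.span {M.i e}) = M.sp (Ideal.span {M.i h'}) := by
  obtain ⟨n₀, h0⟩ := M.exists_tail
  obtain ⟨e, he⟩ := h0 n₀ le_rfl
  have hh : h ≠ 0 := by
    rintro rfl
    apply hI.ne_bot.2
    rw [h1]
    exact Ideal.span_singleton_eq_bot.2 rfl
  obtain ⟨d, hd⟩ := M.Dk.exists_nat hh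
  obtain ⟨s, hs⟩ := M.surj (h * M.q e)
  have hd1 : M.Dk.d (h * M.q e) = (d + n₀ : ℕ) := by
    rw [M.Dk.mul, hd, he.2, Nat.cast_add]
  obtain ⟨h', h2, h3⟩ := M.lift h0 (n := d + n₀) (by omega) (x := s) (by rw [hs, hd1])
  have hU : M.Ut h' (d + n₀) := by
    refine ⟨le_antisymm h2 ?_, by rw [h3, hs, hd1]⟩
    rw [← hd1, ← hs, ← h3]
    exact M.le h'
  have hei : M.Int (Ideal.span {M.i e}) := ⟨e, n₀, he, Ideal.mem_span_singleton_self _⟩
  refine ⟨e, h', n₀, d + n₀, he, hU, ?_⟩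
  rw [M.sp_mul hI hei, h1, M.sp_ut he, M.sp_ut hU, Ideal.span_singleton_mul_span_singleton, h3, hs]

end Md

end CV
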