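import Pool.Agent.Lib.MP_f80667_ag.Cv.DgQ
import Pool.Agent.Lib.MP_f80667_ag.Cv.DgD

/-!
Descent of the property to be principal.
-/

open Module

namespace CV

section kr3

variable {k k' A A' σ : Type} [Field k] [Field k'] [Algebra k k'] [CommRing A]
    [CommRing A'] [Algebra k A] [Algebra k' A']

/-- The element with the given coordinates. -/
private noncomputable def kr3Phi (e : σ → k') (j : A →+* A') : (σ →₀ A) →+ A' :=
  Finsupp.liftAddHom fun s => (AddMonoidHom.mulLeft (algebraMap k' A' (e s))).comp j.toAddMonoidHom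

private theorem kr3Phi_single (e : σ → k') (j : A →+* A') (s : σ) (a : A) :
    kr3Phi e j (Finsupp.single s a) = algebraMap k' A' (e s) * j a := by
  rw [kr3Phi, Finsupp.liftAddHom_apply_single]
  rfl

private theorem kr3Phi_sum (e : σ → k') (j : A →+* A') (h : σ →₀ A) :
    kr3Phi e j h = ∑ s ∈ h.support, algebraMap k' A' (e s) * j (h s) := by
  rw [kr3Phi, Finsupp.liftAddHom_apply, Finsupp.sum]
  rfl

private theorem kr3_sum_lt (G : Dg k' A') {m : WithBot ℕ} (hm : m ≠ ⊥) (S : Finset σ) (f : σ → A')
    (hf : ∀ s ∈ S, G.d (f s) < m) : G.d (∑ s ∈ S, f s) < m := by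
  classical
  induction S using Finset.induction_on with
  | empty =>
    rw [Finset.sum_empty, G.zero]
    exact bot_lt_iff_ne_bot.2 hm
  | insert a s ha ih =>
    rw [Finset.sum_insert ha]
    exact (G.add _ _).trans_lt (max_lt (hf a (Finset.mem_insert_self _ _))
      (ih fun i hi => hf i (Finset.mem_insert_of_mem hi)))

private theorem kr3_deg (G : Dg k A) (G' : Dg k' A') (j : A →+* A')
    (hj : ∀ c, j (algebraMap k A c) = algebraMap k' A' (algebraMap k k' c))
    (hd : ∀ a, G'.d (j a) = G.d a) {e : σ → k'} (he : LinearIndependent k e) {h : σ →₀ A}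
    (hh : h ≠ 0) : ∃ s, h s ≠ 0 ∧ G'.d (kr3Phi e j h) = G.d (h s) := by
  classical
  obtain ⟨s₀, hs₀, hmax⟩ := Finset.exists_max_image h.support (fun s => G.d (h s))
    (Finsupp.support_nonempty_iff.2 hh)
  have h0 : h s₀ ≠ 0 := Finsupp.mem_support_iff.1 hs₀
  refine ⟨s₀, h0, ?_⟩
  have hbot : G.d (h s₀) ≠ ⊥ := G.ne_bot h0
  have hex : ∀ s, ∃ c : k, (s ∈ h.support → G.d (h s - c • h s₀) < G.d (h s₀)) ∧
      (s = s₀ → c = 1) := by
    intro s
    rcases eq_or_ne s s₀ with rfl | hne
    · refine ⟨1, fun _ => ?_, fun _ => rfl⟩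
      rw [one_smul, sub_self, G.zero]
      exact bot_lt_iff_ne_bot.2 hbot
    · by_cases hs : s ∈ h.support
      · rcases (hmax s hs).lt_or_eq with hlt | heq
        · exact ⟨0, fun _ => by rw [zero_smul, sub_zero]; exact hlt, fun hc => absurd hc hne⟩
        · obtain ⟨c, hc⟩ := G.lead (h s) (h s₀) h0 heq
          exact ⟨c, fun _ => hc, fun hc => absurd hc hne⟩
      · exact ⟨0, fun hc => absurd hc hs, fun hc => absurd hc hne⟩
  choose c hc hc1 using hex
  have hjs : ∀ (r : k) (a : A), j (r • a) = algebraMap k' A' (algebraMap k k' r) * j a := by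
    intro r a
    rw [Algebra.smul_def, map_mul, hj]
  set c' : k' := ∑ s ∈ h.support, c s • e s with hc'
  have hne : c' ≠ 0 := by
    intro hz
    have h1 := linearIndependent_iff'.1 he h.support c hz s₀ hs₀
    rw [hc1 s₀ rfl] at h1
    exact one_ne_zero h1
  have key : kr3Phi e j h = (∑ s ∈ h.support, algebraMap k' A' (e s) * j (h s - c s • h s₀)) +
      c' • j (h s₀) := by
    rw [kr3Phi_sum, hc', Finset.sum_smul, ← Finset.sum_add_distrib]
    refine Finset.sum_congr rfl fun s _ => ?_
    rw [map_sub, hjs, Algebra.smul_def, Algebra.smul_def, map_mul]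
    ring
  rw [key, G'.add_eq, G'.smul hne, hd]
  rw [G'.smul hne, hd]
  refine kr3_sum_lt G' hbot _ _ fun s hs => ?_
  rw [← Algebra.smul_def]
  exact (G'.smul_le _ _).trans_lt (by rw [hd]; exact hc s hs)

private theorem kr3_surj {ι : Type} (j : A →+* A')
    (hj : ∀ c, j (algebraMap k A c) = algebraMap k' A' (algebraMap k k' c))
    (b : ι → A) (b' : Basis ι k' A') (hb : ∀ i, j (b i) = b' i) {e : σ → k'}
    (he : ⊤ ≤ Submodule.span k (Set.range e)) (x : A') : ∃ h, kr3Phi e j h = x := by
  have hjs : ∀ (r : k) (a : A), j (r • a) = algebraMap k' A' (algebraMap k k' r) * j a := by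
    intro r a
    rw [Algebra.smul_def, map_mul, hj]
  have hA : ∀ c' : k', ∀ a : A, ∃ h, kr3Phi e j h = algebraMap k' A' c' * j a := by
    intro c'
    have hc' : c' ∈ Submodule.span k (Set.range e) := he trivial
    induction hc' using Submodule.span_induction with
    | mem y hy =>
      obtain ⟨s, rfl⟩ := hy
      exact fun a => ⟨Finsupp.single s a, kr3Phi_single e j s a⟩
    | zero => exact fun a => ⟨0, by rw [map_zero, map_zero, zero_mul]⟩
    | add y z _ _ hy hz =>
      intro a
      obtain ⟨f, hf⟩ := hy a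
      obtain ⟨g, hg⟩ := hz a
      exact ⟨f + g, by rw [map_add, hf, hg, map_add, add_mul]⟩
    | smul r y _ hy =>
      intro a
      obtain ⟨f, hf⟩ := hy (r • a)
      refine ⟨f, ?_⟩
      rw [hf, hjs, Algebra.smul_def, map_mul]
      ring
  have hx : x ∈ (kr3Phi e j).range := by
    rw [← b'.linearCombination_repr x, Finsupp.linearCombination_apply, Finsupp.sum]
    refine sum_mem fun i _ => ?_
    obtain ⟨f, hf⟩ := hA (b'.repr x i) (b i)
    exact ⟨f, by rw [hf, hb, Algebra.smul_def]⟩
  exact hx

private theorem kr3_mul (e : σ → k') (j : A →+* A') (y : A) (h : σ →₀ A) :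
    kr3Phi e j (Finsupp.mapRange.addMonoidHom (AddMonoidHom.mulRight y) h) =
      kr3Phi e j h * j y := by
  induction h using Finsupp.induction_linear with
  | zero => rw [map_zero, map_zero, zero_mul]
  | add f g hf hg => rw [map_add, map_add, map_add, hf, hg, add_mul]
  | single s a =>
    rw [Finsupp.mapRange.addMonoidHom_apply, Finsupp.mapRange_single, kr3Phi_single,
      kr3Phi_single]
    change algebraMap k' A' (e s) * j (a * y) = _
    rw [map_mul, mul_assoc]

private theorem kr3_mem {e : σ → k'} {j : A →+* A'} (hs : ∀ x, ∃ h, kr3Phi e j h = x) {I : Ideal A}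
    {x : A'} (hx : x ∈ I.map j) : ∃ g : σ →₀ A, (∀ s, g s ∈ I) ∧ kr3Phi e j g = x := by
  rw [Ideal.map, Ideal.span] at hx
  induction hx using Submodule.closure_induction with
  | zero => exact ⟨0, fun s => zero_mem _, map_zero _⟩
  | add y z _ _ hy hz =>
    obtain ⟨f, hf, hf'⟩ := hy
    obtain ⟨g, hg, hg'⟩ := hz
    exact ⟨f + g, fun s => add_mem (hf s) (hg s), by rw [map_add, hf', hg']⟩
  | smul_mem r y hy =>
    obtain ⟨z, hz, rfl⟩ := hy
    obtain ⟨h, rfl⟩ := hs r
    exact ⟨_, fun s => I.mul_mem_left (h s) hz, kr3_mul e j z h⟩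

private theorem kr3_dim (j : A →+* A')
    (hj : ∀ c, j (algebraMap k A c) = algebraMap k' A' (algebraMap k k' c))
    {e : σ → k'} (hs : ∀ x, ∃ h, kr3Phi e j h = x) {I : Ideal A} [Module.Finite k (A ⧸ I)] :
    finrank k' (A' ⧸ I.map j) ≤ finrank k (A ⧸ I) := by
  have hjs : ∀ (r : k) (a : A), j (r • a) = algebraMap k k' r • j a := by
    intro r a
    rw [Algebra.smul_def, map_mul, hj, Algebra.smul_def]
  let w := Module.finBasis k (A ⧸ I)
  choose a ha using fun r => Ideal.Quotient.mk_surjective (w r)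
  have hspan : ∀ y : A, Ideal.Quotient.mk (I.map j) (j y) ∈
      Submodule.span k' (Set.range fun r => Ideal.Quotient.mk (I.map j) (j (a r))) := by
    intro y
    have h1 := w.sum_repr (Ideal.Quotient.mk I y)
    have h2 : Ideal.Quotient.mk I (∑ r, w.repr (Ideal.Quotient.mk I y) r • a r) =
        Ideal.Quotient.mk I y := by
      conv_rhs => rw [← h1]
      rw [map_sum]
      refine Finset.sum_congr rfl fun r _ => ?_
      rw [← ha r]
      rfl
    rw [Ideal.Quotient.eq] at h2
    have h3 := Ideal.mem_map_of_mem j h2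
    rw [map_sub, ← Ideal.Quotient.eq] at h3
    rw [← h3, map_sum, map_sum]
    refine sum_mem fun r _ => ?_
    rw [hjs]
    exact Submodule.smul_mem _ _ (Submodule.subset_span (Set.mem_range_self r))
  have htop : Submodule.span k' (Set.range fun r => Ideal.Quotient.mk (I.map j) (j (a r))) =
      ⊤ := by
    rw [eq_top_iff]
    rintro x -
    obtain ⟨x, rfl⟩ := Ideal.Quotient.mk_surjective x
    obtain ⟨h, rfl⟩ := hs x
    induction h using Finsupp.induction_linear with
    | zero =>
      rw [map_zero, map_zero]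
      exact zero_mem _
    | add f g hf hg =>
      rw [map_add, map_add]
      exact add_mem hf hg
    | single s y =>
      rw [kr3Phi_single, ← Algebra.smul_def]
      exact Submodule.smul_mem _ (e s) (hspan y)
  have h4 := finrank_range_le_card (R := k') (fun r => Ideal.Quotient.mk (I.map j) (j (a r)))
  rw [Set.finrank, htop, finrank_top, Fintype.card_fin] at h4
  exact h4

end kr3

/-- **Principal ideals over an extension of the field of constants.** `A' = k' ⊗ A` (`b`, `b'` corresponding bases). If `I` generates a principal ideal of `A'` then it is principal.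
Proof: let `n = G'.d h'`. `dim A / I = dim A' / I A' = n` (`finrank_quot`; the second is the base change of the first: `A' / I A'` has the same dimension because `I` has a `k`-basis, complete it to a basis of `A`; or use `A' = k' ⊗ A`, `LinearEquiv` from the bases). The space `I ∩ L_n` is not `0`: otherwise
`L_n(A) → A / I` is injective, hence so is `L_n(A') → A' / I A'` (linear algebra: `L_n(A')` is spanned by the image of `L_n(A)`, because `G'.d (j a) = G.d a` and the elements of different degrees are independent), but `h'` is in the kernel. So there is `h ∈ I`, `h ≠ 0`, of degree `≤ n`, and `span {h} ≤ I` with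
`dim A / (h) = G.d h ≤ n = dim A / I`: equality by `eq_of_colen`. -/
theorem prin_desc {k k' A A' ι : Type} [Field k] [Field k'] [Algebra k k'] [CommRing A]
    [CommRing A'] [IsDedekindDomain A] [Algebra k A] [Algebra k' A'] (G : Dg k A) (G' : Dg k' A')
    (j : A →+* A') (hj : ∀ c, j (algebraMap k A c) = algebraMap k' A' (algebraMap k k' c))
    (b : Basis ι k A) (b' : Basis ι k' A') (hb : ∀ i, j (b i) = b' i)
    (hd : ∀ a, G'.d (j a) = G.d a) {I : Ideal A} (hI : I ≠ ⊥) {h' : A'}
    (h : I.map j = Ideal.span {h'}) : ∃ h : A, I = Ideal.span {h} := by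
  let e := Module.Basis.ofVectorSpace k k'
  have hs : ∀ x, ∃ f, kr3Phi (e : _ → k') j f = x :=
    kr3_surj j hj b b' hb e.span_eq.ge
  obtain ⟨f, hf, hf0⟩ := Submodule.exists_mem_ne_zero_of_ne_bot hI
  have hfin : Module.Finite k (A ⧸ Ideal.span {f}) := G.finite_quot hf0
  have hIfin : Module.Finite k (A ⧸ I) :=
    (colen_le (K := k) ((Ideal.span_singleton_le_iff_mem I).2 hf)).1
  have hh0 : h' ≠ 0 := by
    rintro rfl
    have h1 : j f ∈ I.map j := Ideal.mem_map_of_mem j hf
    rw [h, Ideal.mem_span_singleton, zero_dvd_iff] at h1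
    have h2 := hd f
    rw [h1, G'.zero] at h2
    exact hf0 ((G.bot f).1 h2.symm)
  obtain ⟨n, hn⟩ := G'.exists_nat hh0
  have hN : n ≤ finrank k (A ⧸ I) := by
    have h1 := kr3_dim j hj hs (I := I)
    rw [h, G'.finrank_quot hn] at h1
    exact h1
  have hmem : h' ∈ I.map j := by
    rw [h]
    exact Ideal.mem_span_singleton_self h'
  obtain ⟨g, hg, hg'⟩ := kr3_mem hs hmem
  have hg0 : g ≠ 0 := by
    rintro rfl
    rw [map_zero] at hg'
    exact hh0 hg'.symm
  obtain ⟨s, hs0, hs1⟩ := kr3_deg G G' j hj hd e.linearIndependent hg0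
  rw [hg', hn] at hs1
  have hsfin : Module.Finite k (A ⧸ Ideal.span {g s}) := G.finite_quot hs0
  refine ⟨g s, (eq_of_colen (K := k) ((Ideal.span_singleton_le_iff_mem I).2 (hg s)) ?_).symm⟩
  rw [G.finrank_quot hs1.symm]
  exact hN

end CV
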