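import Pool.Agent.Lib.MP_f80667_ag.Cv.EmO
import Pool.Agent.Lib.MP_f80667_ag.Cv.Dd
import Pool.Agent.Lib.MP_f80667_ag.Cv.CyZ

/-!
The cycle `cyM m M I` of an ideal `I` of the functions over `M`.
-/

open ZC BE PE Polynomial TensorProduct IntermediateField IsLocalRing

namespace CV

section

variable {F : Type} [Field F] {C : Crv F} {K Ω : Type} [Field K] [CharZero K] [Field Ω]
  [Algebra K Ω] [Algebra F K] [Algebra F Ω] [IsScalarTower F K Ω] [IsAlgClosure K Ω] {L : Ld K Ω}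
  (m : Mod C (Ok L) K) (M : IntermediateField K Ω)

/-- The functions over `M` as functions over `Ω`. -/
noncomputable def jO : M ⊗[Ok L] m.R →+* Ω ⊗[F] C.A :=
  ((isoE m Ω).toAlgHom.toRingHom).comp (m.mpOL M).toRingHom

omit [CharZero K] [IsAlgClosure K Ω] in
theorem jO_apply (x : M ⊗[Ok L] m.R) : jO m M x = isoE m Ω (m.mpOL M x) := rfl

omit [CharZero K] [IsAlgClosure K Ω] in
/-- The value at a point (`lift_isoE`, `ptE_mpOL`). -/
theorem vx_jO (φ : C.A →ₐ[F] Ω) (x : M ⊗[Ok L] m.R) : vx φ (jO m M x) = ptE m M φ x := by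
  rw [jO_apply, ← ptE_mpOL, ← lift_isoE]
  rfl

omit [CharZero K] [IsAlgClosure K Ω] in
/-- Proof: the degree is preserved (`mpOL_d`), so only `0` goes to `0`. -/
theorem jO_inj : Function.Injective (jO m M) := by
  rw [injective_iff_map_eq_zero]
  intro x hx
  rw [jO_apply] at hx
  have h1 : m.mpOL M x = 0 := (map_eq_zero_iff _ (isoE m Ω).injective).1 hx
  have h2 := m.mpOL_d M x
  rw [h1, m.mdO.DL.zero] at h2
  exact ((m.mdM M).DL.bot x).1 h2.symm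

/-- The cycle of an ideal over `M`. -/
noncomputable def cyM (I : Ideal (M ⊗[Ok L] m.R)) : C.V.pt Ω →₀ ℤ := cy (I.map (jO m M))

variable {M}

omit [CharZero K] [IsAlgClosure K Ω] in
theorem jO_bot {I : Ideal (M ⊗[Ok L] m.R)} (hI : I ≠ ⊥) : I.map (jO m M) ≠ ⊥ := by
  rw [Ne, Ideal.map_eq_bot_iff_of_injective (jO_inj m M)]
  exact hI

theorem cyM_mul {I J : Ideal (M ⊗[Ok L] m.R)} (hI : I ≠ ⊥) (hJ : J ≠ ⊥) :
    cyM m M (I * J) = cyM m M I + cyM m M J := by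
  have : IsAlgClosed Ω := IsAlgClosure.isAlgClosed K
  unfold cyM
  rw [Ideal.map_mul, cy_mul (jO_bot m hI) (jO_bot m hJ)]

theorem cyM_none (I : Ideal (M ⊗[Ok L] m.R)) : cyM m M I (C.bp.o Ω) = 0 :=
  (cy_efc (I.map (jO m M))).2

theorem cyM_nonneg (I : Ideal (M ⊗[Ok L] m.R)) : 0 ≤ cyM m M I := fun x =>
  (cy_efc (I.map (jO m M))).1 x

/-- The multiplicity at a point (`cy_pow` for `n = 1`, `vx_jO`). -/
theorem cyM_pos {I : Ideal (M ⊗[Ok L] m.R)} (hI : I ≠ ⊥) (φ : C.A →ₐ[F] Ω) :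
    cyM m M I (some φ) = 0 ↔ ∃ x ∈ I, ptE m M φ x ≠ 0 := by
  have : IsAlgClosed Ω := IsAlgClosure.isAlgClosed K
  have h1 := cy_pow (jO_bot m hI) φ 1
  rw [pow_one, Nat.cast_one] at h1
  have h2 : I.map (jO m M) ≤ mx φ ↔ ∀ x ∈ I, ptE m M φ x = 0 := by
    rw [Ideal.map_le_iff_le_comap]
    refine forall₂_congr fun x _ => ?_
    rw [Ideal.mem_comap, mem_mx, vx_jO]
  have h3 : 0 ≤ cyM m M I (some φ) := cyM_nonneg m I (some φ)
  have h4 : (1 : ℤ) ≤ cyM m M I (some φ) ↔ ∀ x ∈ I, ptE m M φ x = 0 := h1.symm.trans h2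
  constructor
  · intro h
    by_contra hne
    push Not at hne
    have h5 := h4.2 hne
    omega
  · rintro ⟨x, hx, hne⟩
    by_contra h0
    exact hne (h4.1 (by omega) x hx)

/-- Principal ideals (`od_ptE`). -/
theorem cyM_od [FiniteDimensional K M] {x : M ⊗[Ok L] m.R} (hx : x ≠ 0) (φ : C.A →ₐ[F] Ω) :
    cyM m M (Ideal.span {x}) (some φ) = (od (ptE m M φ) x : ℤ) := by
  unfold cyM
  rw [od_ptE m M hx φ, Ideal.map_span, Set.image_singleton, jO_apply]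

theorem cz_cyM {I : Ideal (M ⊗[Ok L] m.R)} (hI : I ≠ ⊥) :
    cz (cyM m M I) = (cls (I.map (jO m M)) : Cg (Ω ⊗[F] C.A)) := by
  have : IsAlgClosed Ω := IsAlgClosure.isAlgClosed K
  exact cz_cy (jO_bot m hI)

theorem cz_cyM_mul {I J : Ideal (M ⊗[Ok L] m.R)} (hI : I ≠ ⊥) (hJ : J ≠ ⊥) :
    cz (cyM m M (I * J)) = (cz (cyM m M I) + cz (cyM m M J) : Cg (Ω ⊗[F] C.A)) := by
  rw [cyM_mul m hI hJ, map_add]

/-- Principal ideals have the class `0`. -/
theorem cz_cyM_span {x : M ⊗[Ok L] m.R} (hx : x ≠ 0) :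
    cz (cyM m M (Ideal.span {x})) = (0 : Cg (Ω ⊗[F] C.A)) := by
  have h : (Ideal.span {x} : Ideal (M ⊗[Ok L] m.R)) ≠ ⊥ := by
    rw [Ne, Ideal.span_singleton_eq_bot]
    exact hx
  rw [cz_cyM m h, Ideal.map_span, Set.image_singleton, cls_span]

/-- Ideals with the same class over `M` have the same class over `Ω` (`cls_eq`). -/
theorem cz_cyM_eq {I J : Ideal (M ⊗[Ok L] m.R)} (hI : I ≠ ⊥) (hJ : J ≠ ⊥)
    (h : (cls I : Cg (M ⊗[Ok L] m.R)) = cls J) :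
    cz (cyM m M I) = (cz (cyM m M J) : Cg (Ω ⊗[F] C.A)) := by
  obtain ⟨f, g, hf, hg, e⟩ := (cls_eq hI hJ).1 h
  rw [cz_cyM m hI, cz_cyM m hJ, cls_eq (jO_bot m hI) (jO_bot m hJ)]
  refine ⟨jO m M f, jO m M g, ?_, ?_, ?_⟩
  · rw [Ne, map_eq_zero_iff _ (jO_inj m M)]
    exact hf
  · rw [Ne, map_eq_zero_iff _ (jO_inj m M)]
    exact hg
  · have h1 := congrArg (Ideal.map (jO m M)) e
    rwa [Ideal.map_mul, Ideal.map_mul, Ideal.map_span, Ideal.map_span, Set.image_singleton,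
      Set.image_singleton] at h1

end

end CV
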