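import Pool.Agent.Lib.MP_f80667_ag.Cv.KrA
import Pool.Agent.Lib.MP_f80667_ag.Cv.Kr2
import Pool.Agent.Lib.MP_f80667_ag.Cv.Cl0

/-!
Two integral ideals with the same specialisation: their cycles differ by a principal cycle and a displacement.
-/

open ZC BE PE Polynomial TensorProduct IntermediateField IsLocalRing

namespace CV

/-- A difference of cycles as a sum over finitely many points. -/
private theorem krB_sum {X ι : Type} (z w : X →₀ ℤ) (s : Finset ι) (p : ι → X)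
    (hp : Function.Injective p) (n : ι → ℤ) (h1 : ∀ i ∈ s, z (p i) - w (p i) = n i)
    (h2 : ∀ x, (∀ i ∈ s, p i ≠ x) → z x = w x) : z - w = ∑ i ∈ s, Finsupp.single (p i) (n i) := by
  classical
  ext x
  rw [Finsupp.sub_apply, Finsupp.finsetSum_apply]
  by_cases hx : ∃ i ∈ s, p i = x
  · obtain ⟨i, hi, rfl⟩ := hx
    rw [Finset.sum_eq_single_of_mem i hi, Finsupp.single_eq_same, h1 i hi]
    intro j _ hj
    exact Finsupp.single_eq_of_ne fun h => hj (hp h.symm)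
  · have h3 : ∀ i ∈ s, p i ≠ x := fun i hi h => hx ⟨i, hi, h⟩
    rw [h2 x h3, sub_self, Finset.sum_eq_zero]
    intro i hi
    exact Finsupp.single_eq_of_ne fun h => h3 i hi h.symm

section abs

variable {F : Type} [Field F] {C : Crv F} {K Ω : Type} [Field K] [CharZero K] [Field Ω]
  [Algebra K Ω] [Algebra F K] [Algebra F Ω] [IsScalarTower F K Ω] [IsAlgClosure K Ω] {L : Ld K Ω}
  {M : IntermediateField K Ω} [FiniteDimensional K M] {k S SM Sk : Type} [Field k]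
  [Algebra (OM L M) k] [CommRing S] [CommRing SM] [CommRing Sk] [Algebra (OM L M) S]
  [Algebra M SM] [Algebra k Sk] {m : Mod C (Ok L) K} {D : Md (OM L M) M k S SM Sk}
  {e : SM ≃ₐ[M] M ⊗[F] C.A} {ρ : m.R →+* S}

/-- The properties of `cyM`. -/
private structure KrBCy (D : Md (OM L M) M k S SM Sk) (e : SM ≃ₐ[M] M ⊗[F] C.A)
    (cyc : Ideal SM → C.V.pt Ω →₀ ℤ) (pt : (C.A →ₐ[F] Ω) → SM →ₐ[M] Ω) : Prop where
  pe_pt : ∀ ψ, pe e (pt ψ) = ψ
  pt_pe : ∀ φ, pt (pe e φ) = φ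
  mul : ∀ I J : Ideal SM, I ≠ ⊥ → J ≠ ⊥ → cyc (I * J) = cyc I + cyc J
  none : ∀ I : Ideal SM, cyc I none = 0
  pos : ∀ I : Ideal SM, I ≠ ⊥ → ∀ ψ, cyc I (some ψ) = 0 ↔ ∃ x ∈ I, pt ψ x ≠ 0
  od : ∀ x : SM, x ≠ 0 → ∀ ψ, cyc (Ideal.span {x}) (some ψ) = (od (pt ψ) x : ℤ)

variable {cyc : Ideal SM → C.V.pt Ω →₀ ℤ} {pt : (C.A →ₐ[F] Ω) → SM →ₐ[M] Ω}

omit [CharZero K] [IsAlgClosure K Ω] in
/-- At a point above a closed point at which the complement `J` is trivial. -/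
private theorem krB_pt (hC : KrBCy D e cyc pt) {I J : Ideal SM} {G : S}
    (hI : I ≠ ⊥) (hJ : J ≠ ⊥) (hG : D.i G ≠ 0)
    (hIJ : Ideal.span {D.i G} = I * J) {N : Ideal S}
    (hN : ¬ J.comap D.i ≤ N) {ψ : C.A →ₐ[F] Ω}
    (hO : D.Ov L.V (pt ψ) N) :
    (od (pt ψ) (D.i G) : ℤ) = cyc I (some ψ) := by
  rw [← hC.od _ hG ψ, hIJ, hC.mul _ _ hI hJ, Finsupp.add_apply]
  have h1 : cyc J (some ψ) = 0 := by
    rw [hC.pos _ hJ]
    obtain ⟨s, hs, hsN⟩ := SetLike.not_le_iff_exists.1 hN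
    exact ⟨D.i s, hs, D.ov_ne hO hsN⟩
  rw [h1, add_zero]

omit [CharZero K] in
/-- A point with a positive multiplicity in `I` is above a closed point of `I`. -/
private theorem krB_ov (hC : KrBCy D e cyc pt) {I : Ideal SM} {G : S} {n : ℕ}
    (hI : I ≠ ⊥) (hG : D.Ut G n) (hGI : D.i G ∈ I) {ψ : C.A →ₐ[F] Ω}
    (h : cyc I (some ψ) ≠ 0) : (pt ψ) (D.i G) = 0 ∧
      ∃ N : Ideal S, Cs (OM L M) N ∧ I.comap D.i ≤ N ∧ D.Ov L.V (pt ψ) N := by
  have halg : Algebra.IsAlgebraic M Ω := by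
    have h1 : Algebra.IsAlgebraic K Ω := IsAlgClosure.isAlgebraic
    exact Algebra.IsAlgebraic.tower_top (K := K) M
  have h1 : ∀ x ∈ I, pt ψ x = 0 := by
    intro x hx
    by_contra hne
    exact h ((hC.pos _ hI ψ).2 ⟨x, hx, hne⟩)
  obtain ⟨N, hN, hO⟩ := D.ig_ov (wvM L M) (D.ut_ig (wvM L M) hG (h1 _ hGI))
  refine ⟨h1 _ hGI, N, hN, fun s hs => ?_, hO⟩
  rw [hO.2, h1 _ hs]
  exact L.V.nonunits.zero_mem

private theorem krB_main [PerfectField k] [IsDedekindDomain SM] [IsDedekindDomain Sk]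
    (hc : Cmp m D e ρ) (hC : KrBCy D e cyc pt) {I I' : Ideal SM} (hI : D.Int I) (hI' : D.Int I')
    (h : D.sp I = D.sp I') :
    ∃ r : ℝ, r < 1 ∧ cyc I - cyc I' ∈ Pc C Ω ⊔ Dsp L C.V (Nr m r) M := by
  classical
  have halg : Algebra.IsAlgebraic M Ω := by
    have h1 : Algebra.IsAlgebraic K Ω := IsAlgClosure.isAlgebraic
    exact Algebra.IsAlgebraic.tower_top (K := K) M
  obtain ⟨π, hπ⟩ := IsDiscreteValuationRing.exists_irreducible (OM L M)
  obtain ⟨G, G', n, J, J', hG, hG', hq, hJ, hJ', hN⟩ := D.exists_GG hI hI' h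
  obtain ⟨c, hgc⟩ := (D.q_eq_iff hπ).1 hq
  have hI0 : I ≠ ⊥ := hI.ne_bot.1
  have hI0' : I' ≠ ⊥ := hI'.ne_bot.1
  have hG0 : D.i G ≠ 0 := D.DL.ne_zero hG.1
  have hG0' : D.i G' ≠ 0 := D.DL.ne_zero hG'.1
  have hJ0 : J ≠ ⊥ := by
    rintro rfl
    rw [Ideal.mul_bot, Ideal.span_singleton_eq_bot] at hJ
    exact hG0 hJ
  have hJ0' : J' ≠ ⊥ := by
    rintro rfl
    rw [Ideal.mul_bot, Ideal.span_singleton_eq_bot] at hJ'
    exact hG0' hJ'
  have hGI : D.i G ∈ I := by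
    have h1 : D.i G ∈ I * J := by
      rw [← hJ]
      exact Ideal.mem_span_singleton_self _
    exact Ideal.mul_le_left h1
  have hGI' : D.i G' ∈ I' := by
    have h1 : D.i G' ∈ I' * J' := by
      rw [← hJ']
      exact Ideal.mem_span_singleton_self _
    exact Ideal.mul_le_left h1
  have hqG : D.q G ≠ 0 := D.Dk.ne_zero hG.2
  have hqG' : D.q G' ≠ 0 := D.Dk.ne_zero hG'.2
  -- the closed points of `I` and `I'`
  set T₀ : Set (Ideal S) :=
    {N | Cs (OM L M) N ∧ (I.comap D.i ≤ N ∨ I'.comap D.i ≤ N)} with hT₀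
  have hfin : T₀.Finite := by
    refine ((D.cs_fin hqG).union (D.cs_fin hqG')).subset ?_
    rintro N ⟨h1, h2 | h2⟩
    · exact Or.inl ⟨h1, h2 hGI⟩
    · exact Or.inr ⟨h1, h2 hGI'⟩
  -- the points above them
  have hΦf : {φ : SM →ₐ[M] Ω | (∃ N ∈ T₀, D.Ov L.V φ N) ∧
      (φ (D.i G) = 0 ∨ φ (D.i G') = 0)}.Finite := by
    refine ((D.DL.zeros_fin (Ω := Ω) hG0).union
      (D.DL.zeros_fin (Ω := Ω) hG0')).subset ?_
    rintro φ ⟨-, h1 | h1⟩
    · exact Or.inl h1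
    · exact Or.inr h1
  have hmem : ∀ φ : SM →ₐ[M] Ω, φ ∈ hΦf.toFinset ↔
      (∃ N ∈ T₀, D.Ov L.V φ N) ∧ (φ (D.i G) = 0 ∨ φ (D.i G') = 0) := by
    intro φ
    rw [Set.Finite.mem_toFinset]
    exact Iff.rfl
  have hr1 : L.nm ((π : M) : Ω) < 1 := by
    have h1 : π ∈ maximalIdeal (OM L M) := (mem_maximalIdeal _).2 hπ.not_isUnit
    exact (maxOM L M π).1 h1
  refine ⟨L.nm ((π : M) : Ω), hr1, ?_⟩
  have key := clt_cmp hc hπ (T₀ := T₀) hfin (fun N hN => hN.1) (g₁ := G) (g₂ := G')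
    (c := c) hqG (r := 1) one_ne_zero (by rw [pow_one]; exact hgc) (q := L.nm ((π : M) : Ω))
    (by rw [pow_one]) hΦf.toFinset (fun φ hφ => ((hmem φ).1 hφ).1)
    (fun φ h1 h2 => (hmem φ).2 ⟨h1, h2⟩)
  have hinj : Function.Injective (fun φ : SM →ₐ[M] Ω => (some (pe e φ) : C.V.pt Ω)) := by
    intro φ φ' h1
    have h2 : pe e φ = pe e φ' := Option.some_injective _ h1
    rw [← hC.pt_pe φ, h2, hC.pt_pe]
  have hsum := krB_sum (cyc I) (cyc I') hΦf.toFinset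
    (fun φ : SM →ₐ[M] Ω => (some (pe e φ) : C.V.pt Ω)) hinj
    (fun φ => (od φ (D.i G) : ℤ) - od φ (D.i G')) (by
      intro φ hφ
      obtain ⟨⟨N, hN0, hO⟩, -⟩ := (hmem _).1 hφ
      obtain ⟨h1, h2⟩ := hN N hN0.1 hN0.2
      obtain ⟨ψ, rfl⟩ : ∃ ψ, pt ψ = φ := ⟨pe e φ, hC.pt_pe φ⟩
      have e1 := krB_pt hC hI0 hJ0 hG0 hJ h1 hO
      have e2 := krB_pt hC hI0' hJ0' hG0' hJ' h2 hO
      have e3 : (some (pe e (pt ψ)) : C.V.pt Ω) = some ψ := congrArg some (hC.pe_pt ψ)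
      change cyc I (some (pe e (pt ψ))) - cyc I' (some (pe e (pt ψ))) =
        (od (pt ψ) (D.i G) : ℤ) - od (pt ψ) (D.i G')
      rw [e1, e2]
      exact congrArg (fun x => cyc I x - cyc I' x) e3) (by
      intro x hx
      rcases x with _ | ψ
      · exact (hC.none I).trans (hC.none I').symm
      · have hψ : pt ψ ∉ hΦf.toFinset := fun h1 => hx _ h1 (congrArg some (hC.pe_pt ψ))
        have e1 : cyc I (some ψ) = 0 := by
          by_contra hne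
          obtain ⟨h1, N, h2, h3, h4⟩ := krB_ov hC hI0 hG hGI hne
          exact hψ ((hmem _).2 ⟨⟨N, ⟨h2, Or.inl h3⟩, h4⟩, Or.inl h1⟩)
        have e2 : cyc I' (some ψ) = 0 := by
          by_contra hne
          obtain ⟨h1, N, h2, h3, h4⟩ := krB_ov hC hI0' hG' hGI' hne
          exact hψ ((hmem _).2 ⟨⟨N, ⟨h2, Or.inr h3⟩, h4⟩, Or.inr h1⟩)
        exact e1.trans e2.symm)
  rw [hsum]
  exact key

end abs

section

variable {F : Type} [Field F] {C : Crv F} {K Ω : Type} [Field K] [CharZero K] [Field Ω]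
  [Algebra K Ω] [Algebra F K] [Algebra F Ω] [IsScalarTower F K Ω] [IsAlgClosure K Ω] {L : Ld K Ω}
  (m : Mod C (Ok L) K) {M : IntermediateField K Ω} [FiniteDimensional K M]

/-- **CLI.** Proof: `G`, `G'`, `J`, `J'` from `Md.exists_GG` for `D = m.mdM M`; `π` irreducible in `OM L M`; `G = G' + π c` because `q G = q G'` (`Md.q_eq_iff`). Let `T₀` be the set of the closed points `N` (`Cs`) with `comap i I ≤ N` or `comap i I' ≤ N`: finite, because `G ∈ comap i I`, `G' ∈ comap i I'` (`Md.cs_fin`; `q G ≠ 0` since `G` is of unit type). Let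
`Φ` be the finite set of the points `φ : M ⊗ R → Ω` above an element of `T₀` with `φ (i G) = 0` or `φ (i G') = 0` (`Dg.zeros_fin` in `Od.lean`). `clt_cmp` (for `cmp_mdM`, `r = 1`, `q = nm π < 1`) gives `∑ φ ∈ Φ, (od φ (i G) - od φ (i G')) [pe φ] ∈ Pc ⊔ Dsp`. It remains to show that this cycle is `cyM I - cyM I'`. At `∞` both are `0` (`cyM_none`). Let `ψ` be a point, `φ = ptE m M ψ`, `pe φ = ψ`.
(1) `φ ∈ Φ`, above `N ∈ T₀`: `od φ (i G) = cyM (span {i G}) ψ = cyM I ψ + cyM J ψ` (`cyM_od`, `cyM_mul`), and `cyM J ψ = 0`: otherwise (`cyM_pos`) `J ≤ ker φ`, so `comap i J ≤ N` (`Ov`: the elements `s` with `φ (i s) = 0` are in `N`), which contradicts `exists_GG`. The same for `G'`. (2) `φ ∉ Φ`: if `cyM I ψ ≠ 0` then `φ` is `0` on `I`, so `φ (i G) = 0`;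
`φ` is integral (`Md.ut_ig`, `G` of unit type), `Ov φ N` for some `N` (`Md.ig_ov`), `comap i I ≤ N`, so `N ∈ T₀` and `φ ∈ Φ`. So `cyM I ψ = 0 = cyM I' ψ`. -/
theorem cli {I I' : Ideal (M ⊗[Ok L] m.R)} (hI : (m.mdM M).Int I) (hI' : (m.mdM M).Int I')
    (h : (m.mdM M).sp I = (m.mdM M).sp I') :
    ∃ r : ℝ, r < 1 ∧ cyM m M I - cyM m M I' ∈ Pc C Ω ⊔ Dsp L C.V (Nr m r) M := by
  exact krB_main (cmp_mdM m M) ⟨pe_ptE m M, ptE_pe m M, fun I J hI hJ => cyM_mul m hI hJ,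
    cyM_none m, fun I hI ψ => cyM_pos m hI ψ, fun x hx ψ => cyM_od m hx ψ⟩ hI hI' h

end

end CV
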