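import Pool.Agent.Lib.MP_f80667_ag.Cv.KrD
import Pool.Agent.Lib.MP_f80667_ag.Cv.InfM

/-!
Every class over `M` contains the cycle of an integral ideal.
-/

open ZC BE PE Polynomial TensorProduct IntermediateField IsLocalRing

namespace CV

section

variable {V L k S SL Sk : Type} [CommRing V] [IsDomain V] [IsDiscreteValuationRing V] [Field L]
  [Field k] [Algebra V L] [IsFractionRing V L] [Algebra V k] [CommRing S] [CommRing SL]
  [CommRing Sk] [Algebra V S] [Algebra L SL] [Algebra k Sk] (M : Md V L k S SL Sk)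

/-- Every class of the generic fibre contains an integral ideal. -/
private theorem krC_cls [IsAdicComplete (maximalIdeal V) V] [IsDedekindDomain SL]
    [IsDedekindDomain Sk] {I J : Ideal SL} (hJ : J ≠ ⊥) :
    ∃ I' : Ideal SL, M.Int I' ∧ I' * J ≠ ⊥ ∧ cls (I' * J) = cls I := by
  obtain ⟨I₁, I₂, h3, h4, h5⟩ := M.infC (cls I - cls J)
  have hI₁ := h3.ne_bot.1
  have hI₂ := h4.ne_bot.1
  obtain ⟨u, n, hu, hu2⟩ := h4
  obtain ⟨J₃, h6⟩ := Ideal.dvd_iff_le.2 ((Ideal.span_singleton_le_iff_mem I₂).2 hu2)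
  have h7 : M.Int J₃ := by
    refine ⟨u, n, hu, ?_⟩
    have h8 : M.i u ∈ Ideal.span {M.i u} := Ideal.mem_span_singleton_self _
    rw [h6] at h8
    exact Ideal.mul_le_right h8
  have hJ₃ := h7.ne_bot.1
  have h8 := cls_mul hI₂ hJ₃
  rw [← h6, cls_span] at h8
  have h9 := h3.mul h7
  refine ⟨I₁ * J₃, h9, mul_ne_zero h9.ne_bot.1 hJ, ?_⟩
  have h10 : cls J₃ = -cls I₂ := eq_neg_of_add_eq_zero_right h8.symm
  rw [cls_mul h9.ne_bot.1 hJ, cls_mul hI₁ hJ₃, h10, ← sub_eq_add_neg, ← h5, sub_add_cancel]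

end

section

variable {F : Type} [Field F] {C : Crv F} {K Ω : Type} [Field K] [CharZero K] [Field Ω]
  [Algebra K Ω] [Algebra F K] [Algebra F Ω] [IsScalarTower F K Ω] [IsAlgClosure K Ω] {L : Ld K Ω}
  (m : Mod C (Ok L) K) {M : IntermediateField K Ω}

omit [CharZero K] [IsAlgClosure K Ω] in
private theorem krC_inv (γ : Ω ≃ₐ[K] Ω) (x : C.V.pt Ω) :
    C.V.act γ (C.V.act γ⁻¹ x) = x := by
  rcases x with _ | φ
  · rfl
  · refine congrArg some (AlgHom.ext fun a => ?_)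
    exact γ.apply_symm_apply (φ a)

omit [CharZero K] [IsAlgClosure K Ω] in
private theorem krC_inv' (γ : Ω ≃ₐ[K] Ω) (x : C.V.pt Ω) :
    C.V.act γ⁻¹ (C.V.act γ x) = x := by
  rcases x with _ | φ
  · rfl
  · refine congrArg some (AlgHom.ext fun a => ?_)
    exact γ.symm_apply_apply (φ a)

omit [CharZero K] [IsAlgClosure K Ω] in
/-- A fixed cycle is constant on the orbits. -/
private theorem krC_fix (γ : Ω ≃ₐ[K] Ω) {z : C.V.pt Ω →₀ ℤ} :
    Finsupp.mapDomain (C.V.act γ) z = z ↔ ∀ x, z (C.V.act γ x) = z x := by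
  have hi : Function.Injective (C.V.act γ : C.V.pt Ω → C.V.pt Ω) := fun x y h => by
    rw [← krC_inv' γ x, h, krC_inv']
  constructor
  · intro h x
    have h1 := Finsupp.mapDomain_apply hi z x
    rw [h] at h1
    exact h1
  · intro h
    refine Finsupp.ext fun x => ?_
    rw [← krC_inv γ x, Finsupp.mapDomain_apply hi, h]

omit [CharZero K] [IsAlgClosure K Ω] in
private theorem krC_zp (γ : Ω ≃ₐ[K] Ω) {z : C.V.pt Ω →₀ ℤ}
    (h : Finsupp.mapDomain (C.V.act γ) z = z) : Finsupp.mapDomain (C.V.act γ) (zp z) = zp z := by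
  rw [krC_fix] at h ⊢
  intro x
  rcases x with _ | φ
  · rfl
  · have h1 := h (some φ)
    have h2 : zp z (C.V.act γ (some φ)) = max (z (C.V.act γ (some φ))) 0 := pp_some z _
    rw [h2, h1]
    exact (pp_some z φ).symm

/-- Proof: `pp_sub`: `z = zp z - zp (-z) + z(∞) [∞]`; both parts are fixed (the action permutes the points and fixes `∞`). -/
theorem zd_split {z : C.V.pt Ω →₀ ℤ} (hz : z ∈ Zd C.V M) :
    ∃ (I J : Ideal (M ⊗[Ok L] m.R)) (k : ℤ), I ≠ ⊥ ∧ J ≠ ⊥ ∧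
      z = cyM m M I - cyM m M J + Finsupp.single (C.bp.o Ω) k := by
  have hz' := (Zd C.V M).neg_mem hz
  obtain ⟨I, hI, h1⟩ := exists_ideal m (pp_efc z) fun γ hγ => krC_zp γ (hz.1 γ hγ)
  obtain ⟨J, hJ, h2⟩ := exists_ideal m (pp_efc (-z)) fun γ hγ => krC_zp γ (hz'.1 γ hγ)
  exact ⟨I, J, z none, hI, hJ, by rw [h1, h2]; exact pp_sub z⟩

/-- **Every class over `M` contains an integral ideal.** Proof: `zd_split`; `cls I - cls J = cls I₁ - cls I₂` with integral `I₁`, `I₂` (`Md.infC`); `i u ∈ I₂`, `u` of unit type, `(i u) = I₂ J₃`, `J₃` is integral (it contains `i u`); `I₁ J₃` has the class `cls I₁ - cls I₂`. Then `cz_cyM_eq` for `I (I₂)` and `J I₁` etc., `cz_none`. -/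
theorem zd_int [FiniteDimensional K M] {z : C.V.pt Ω →₀ ℤ} (hz : z ∈ Zd C.V M) :
    ∃ I : Ideal (M ⊗[Ok L] m.R), (m.mdM M).Int I ∧
      cz z = (cz (cyM m M I) : Cg (Ω ⊗[F] C.A)) := by
  obtain ⟨I, J, k, hI, hJ, rfl⟩ := zd_split m hz
  have h1 : IsDedekindDomain (M ⊗[Ok L] m.R) := (m.mdM M).DL.ded
  have h2 : IsDedekindDomain (ResidueField (OM L M) ⊗[Ok L] m.R) := ded_mdM m M
  obtain ⟨I', h3, h4, h5⟩ := krC_cls (m.mdM M) (I := I) hJ
  have h6 := cz_cyM_eq m h4 hI h5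
  have h7 : cz (cyM m M I - cyM m M J + Finsupp.single (C.bp.o Ω) k) =
      (cz (cyM m M I) - cz (cyM m M J) : Cg (Ω ⊗[F] C.A)) := by
    rw [map_add, map_sub, cz_none, add_zero]
  have h8 : cz (cyM m M (I' * J)) = (cz (cyM m M I) : Cg (Ω ⊗[F] C.A)) := h6
  have h9 : cz (cyM m M (I' * J)) = (cz (cyM m M I') + cz (cyM m M J) : Cg (Ω ⊗[F] C.A)) :=
    cz_cyM_mul m h3.ne_bot.1 hJ
  exact ⟨I', h3, h7.trans (sub_eq_of_eq_add (h8.symm.trans h9))⟩

end

end CV
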