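import Pool.Agent.Lib.MP_f80667_ag.Cv.KrA
import Pool.Agent.Lib.MP_f80667_ag.Cv.GalD

/-!
Effective cycles over `M` are cycles of ideals over `M`.
-/

open ZC BE PE Polynomial TensorProduct IntermediateField IsLocalRing

namespace CV

section

variable {F : Type} [Field F] {C : Crv F} {K Ω : Type} [Field K] [CharZero K] [Field Ω]
  [Algebra K Ω] [Algebra F K] [Algebra F Ω] [IsScalarTower F K Ω] [IsAlgClosure K Ω] {L : Ld K Ω}
  (m : Mod C (Ok L) K) {M : IntermediateField K Ω}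

/-- Effective cycles over `M`. Proof: `idl C a` is stable under `gA C γ`, `γ` over `M` (`gA_idl`). `gal_ideal` with `k = M`, `k' = Ω`, `j = jO m M`, `b = m.b.baseChange M`, `b' = (m.b.baseChange Ω).map (isoE m Ω)`, `H` = the automorphisms over `M` (as ring automorphisms, `e σ = gA C γ` if `σ` is the ring automorphism of `γ : Ω ≃ₐ[K] Ω`, by choice, and the identity otherwise);
the fixed field of `M.fixingSubgroup` is `M`. `I = (idl C a).comap (jO m M)`, `cy_idl`. -/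
theorem exists_ideal {a : C.V.pt Ω →₀ ℤ} (ha : Efc a)
    (hfix : ∀ γ ∈ M.fixingSubgroup, Finsupp.mapDomain (C.V.act γ) a = a) :
    ∃ I : Ideal (M ⊗[Ok L] m.R), I ≠ ⊥ ∧ cyM m M I = a := by
  classical
  have hgal : IsGalois K Ω := ⟨⟩
  let H : Set (Ω ≃+* Ω) := {σ | ∃ γ ∈ M.fixingSubgroup, (γ : Ω ≃ₐ[K] Ω).toRingEquiv = σ}
  let e : (Ω ≃+* Ω) → (Ω ⊗[F] C.A) →+* (Ω ⊗[F] C.A) := fun σ =>
    if h : ∃ γ ∈ M.fixingSubgroup, (γ : Ω ≃ₐ[K] Ω).toRingEquiv = σ then
      (gA C h.choose : (Ω ⊗[F] C.A) →+* (Ω ⊗[F] C.A)) else RingHom.id _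
  have hH : ∀ σ ∈ H, ∃ γ ∈ M.fixingSubgroup, (∀ c, γ c = σ c) ∧ ∀ x, e σ x = gA C γ x := by
    intro σ hσ
    have hσ' : ∃ γ ∈ M.fixingSubgroup, (γ : Ω ≃ₐ[K] Ω).toRingEquiv = σ := hσ
    refine ⟨hσ'.choose, hσ'.choose_spec.1, fun c => ?_, fun x => ?_⟩
    · conv_rhs => rw [← hσ'.choose_spec.2]
      rfl
    · change (if h : ∃ γ ∈ M.fixingSubgroup, (γ : Ω ≃ₐ[K] Ω).toRingEquiv = σ then
        (gA C h.choose : (Ω ⊗[F] C.A) →+* (Ω ⊗[F] C.A)) else RingHom.id _) x = _
      rw [dif_pos hσ']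
      rfl
  have hfx : ∀ γ ∈ M.fixingSubgroup, ∀ x : M ⊗[Ok L] m.R, gA C γ (jO m M x) = jO m M x := by
    intro γ hγ x
    have key : ∀ (c : Ω) (y : K ⊗[F] C.A),
        gA C γ (Algebra.TensorProduct.cancelBaseChange F K Ω Ω C.A (c ⊗ₜ[K] y)) =
          Algebra.TensorProduct.cancelBaseChange F K Ω Ω C.A (γ c ⊗ₜ[K] y) := by
      intro c y
      induction y using TensorProduct.induction_on with
      | zero => rw [tmul_zero, tmul_zero, map_zero, map_zero]
      | tmul k a =>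
        rw [Algebra.TensorProduct.cancelBaseChange_tmul,
          Algebra.TensorProduct.cancelBaseChange_tmul, gA_tmul, map_smul]
      | add x y hx hy => rw [tmul_add, tmul_add, map_add, map_add, map_add, hx, hy]
    induction x using TensorProduct.induction_on with
    | zero => rw [map_zero, map_zero]
    | tmul c r =>
      rw [jO_apply, Mod.mpOL_tmul, isoE_tmul, key, (IntermediateField.mem_fixingSubgroup_iff _ _).1 hγ _ c.2]
    | add x y hx hy => rw [map_add, map_add, hx, hy]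
  have hj : ∀ c : M, jO m M (c ⊗ₜ[Ok L] (1 : m.R)) =
      algebraMap Ω (Ω ⊗[F] C.A) (algebraMap M Ω c) := by
    intro c
    rw [jO_apply, Mod.mpOL_tmul]
    exact (isoE m Ω).commutes (c : Ω)
  have hmain := gal_ideal (k := M) (k' := Ω) (jO m M) (fun c => hj c) (m.b.baseChange M)
    ((m.b.baseChange Ω).map (isoE m Ω).toLinearEquiv) (fun i => by
      rw [Module.Basis.baseChange_apply, Module.Basis.map_apply, Module.Basis.baseChange_apply,
        jO_apply, Mod.mpOL_tmul]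
      rfl) H (fun c hc => by
      have h1 : c ∈ IntermediateField.fixedField M.fixingSubgroup := by
        rw [IntermediateField.mem_fixedField_iff]
        intro γ hγ
        exact hc _ ⟨γ, hγ, rfl⟩
      rw [InfiniteGalois.fixedField_fixingSubgroup] at h1
      exact ⟨⟨c, h1⟩, rfl⟩) e (fun σ hσ c => by
      obtain ⟨γ, hγ, h1, h2⟩ := hH σ hσ
      rw [h2]
      have h3 : ∀ c : Ω, algebraMap Ω (Ω ⊗[F] C.A) c = c ⊗ₜ[F] (1 : C.A) := fun _ => rfl
      rw [h3, h3, gA_tmul, h1]) (fun σ hσ x => by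
      obtain ⟨γ, hγ, h1, h2⟩ := hH σ hσ
      rw [h2, hfx γ hγ]) (idl C a) (fun σ hσ => by
      obtain ⟨γ, hγ, h1, h2⟩ := hH σ hσ
      rw [Ideal.map_le_iff_le_comap]
      intro x hx
      rw [Ideal.mem_comap, h2]
      have h3 : gA C γ x ∈ (idl C a).map (gA C γ) := Ideal.mem_map_of_mem _ hx
      rw [gA_idl, hfix γ hγ] at h3
      exact h3)
  refine ⟨(idl C a).comap (jO m M), fun h => ?_, ?_⟩
  · rw [h, Ideal.map_bot] at hmain
    exact idl_ne_bot a hmain
  · unfold cyM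
    rw [← hmain, cy_idl ha]

end

end CV
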