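import Pool.Agent.Lib.MP_f80667_ag.Cv.Dd
import Pool.Agent.Lib.MP_f80667_ag.Cv.MdJ
import Pool.Agent.Lib.MP_f80667_ag.Cv.CyZ
import Pool.Agent.Lib.MP_f80667_ag.Cv.Fn2

/-!
Specialisation of cycles: `spz : (C.V.pt Ω →₀ ℤ) →+ Cg (κ ⊗ R)`, `κ` the residue field of `Ω`.

* `Rdx m φ x`: the reduction of the point `φ` is `x : R → κ`.
* `sgk L γ`: the automorphism of `κ` given by the automorphism `γ` of `Ω`.
-/

open ZC BE PE Polynomial TensorProduct IntermediateField IsLocalRing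

namespace CV

section res

variable {K Ω : Type} [Field K] [Field Ω] [Algebra K Ω] (L : Ld K Ω)

/-- The automorphism of the residue field. -/
noncomputable def sgk (γ : Ω ≃ₐ[K] Ω) : L.κ ≃ₐ[Ok L] L.κ :=
  AlgEquiv.ofAlgHom ((resMap (actV L γ)).restrictScalars (Ok L))
    ((resMap (actV L γ⁻¹)).restrictScalars (Ok L)) (by
      ext c
      obtain ⟨c, rfl⟩ := residue_surjective c
      change resMap (actV L γ) (resMap (actV L γ⁻¹) (algebraMap L.V L.κ c)) = algebraMap L.V L.κ c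
      rw [resMap_residue, resMap_residue]
      congr 1
      exact Subtype.ext (AlgEquiv.apply_symm_apply γ (c : Ω))) (by
      ext c
      obtain ⟨c, rfl⟩ := residue_surjective c
      change resMap (actV L γ⁻¹) (resMap (actV L γ) (algebraMap L.V L.κ c)) = algebraMap L.V L.κ c
      rw [resMap_residue, resMap_residue]
      congr 1
      exact Subtype.ext (AlgEquiv.symm_apply_apply γ (c : Ω)))

theorem sgk_residue (γ : Ω ≃ₐ[K] Ω) (c : L.V) :
    sgk L γ (residue L.V c) = residue L.V (actV L γ c) := resMap_residue (actV L γ) c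

theorem sgk_hv (γ : Ω ≃ₐ[K] Ω) {x : Ω} {r : L.κ} (h : L.rs.Hv x r) : L.rs.Hv (γ x) (sgk L γ r) := by
  obtain ⟨h1, h2⟩ := h
  refine ⟨(actV L γ ⟨x, h1⟩).2, ?_⟩
  rw [← h2]
  exact (sgk_residue L γ ⟨x, h1⟩).symm

theorem sgk_mul (γ δ : Ω ≃ₐ[K] Ω) (c : L.κ) : sgk L (γ * δ) c = sgk L γ (sgk L δ c) := by
  obtain ⟨c, rfl⟩ := residue_surjective c
  rw [sgk_residue, sgk_residue, sgk_residue]
  rfl

/-- Powers. -/
theorem sgk_pow (γ : Ω ≃ₐ[K] Ω) (n : ℕ) (c : L.κ) : (sgk L γ ^ n : L.κ ≃ₐ[Ok L] L.κ) c =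
    sgk L (γ ^ n) c := by
  induction n generalizing c with
  | zero =>
    rw [pow_zero, pow_zero]
    obtain ⟨c, rfl⟩ := residue_surjective c
    rw [sgk_residue]
    rfl
  | succ n ih => rw [pow_succ, pow_succ, sgk_mul, ← ih]; rfl

end res

section

variable {F : Type} [Field F] {K Ω : Type} [Field K] [Field Ω] [Algebra K Ω] [Algebra F K]
  [Algebra F Ω] [IsScalarTower F K Ω] {L : Ld K Ω} {C : Crv F} (m : Mod C (Ok L) K)

/-- The specialisation of cycles. -/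
noncomputable def spz (h : m.mdO.InfC) : (C.V.pt Ω →₀ ℤ) →+ Cg (L.κ ⊗[Ok L] m.R) :=
  (Md.spc h).comp ((clMap (isoE m Ω).symm.toRingEquiv).comp cz)

/-- The reduction of the point `φ` is `x`. -/
def Rdx (φ : C.A →ₐ[F] Ω) (x : m.R →ₐ[Ok L] L.κ) : Prop := ∀ r, L.rs.Hv (ev m φ r) (x r)

variable {m} (h : m.mdO.InfC)

theorem spz_Pc {z : C.V.pt Ω →₀ ℤ} (hz : z ∈ Pc C Ω) : spz m h z = 0 := by
  have h1 := (mem_Pc_cz.1 hz).2
  change Md.spc h (clMap (isoE m Ω).symm.toRingEquiv (cz z)) = 0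
  rw [h1, map_zero, map_zero]

theorem spz_none (n : ℤ) : spz m h (Finsupp.single (C.bp.o Ω) n) = 0 := by
  change Md.spc h (clMap (isoE m Ω).symm.toRingEquiv (cz (Finsupp.single (C.bp.o Ω) n))) = 0
  rw [cz_none, map_zero, map_zero]

/-- The values of the functions at an integral point. -/
private noncomputable def Spz_ev {φ : C.A →ₐ[F] Ω} (hφ : ∀ r, L.nm (ev m φ r) ≤ 1) :
    m.R →ₐ[Ok L] L.V where
  toFun r := ⟨ev m φ r, hφ r⟩
  map_one' := Subtype.ext (map_one _)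
  map_mul' a b := Subtype.ext (map_mul _ a b)
  map_zero' := Subtype.ext (map_zero _)
  map_add' a b := Subtype.ext (map_add _ a b)
  commutes' c := Subtype.ext ((ev m φ).commutes c)

/-- Every integral point has a reduction. Proof: `r ↦ residue ⟨ev m φ r, _⟩`. -/
theorem exists_rdx {φ : C.A →ₐ[F] Ω} (hφ : ∀ r, L.nm (ev m φ r) ≤ 1) : ∃ x, Rdx m φ x := by
  let x : m.R →ₐ[Ok L] L.κ :=
    { (residue L.V).comp (Spz_ev hφ : m.R →+* L.V) with
      commutes' := fun c => congrArg (residue L.V) ((Spz_ev hφ).commutes c) }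
  exact ⟨x, fun r => ⟨hφ r, rfl⟩⟩

/-- **The specialisation of an integral point.** Proof: `cz_some`, `clMap_cls`; `(mx φ).map (isoE m Ω).symm = ker (ptE m Ω φ)` (`mx_isoE`); the point `L.V ⊗ R → L.V` (lift of the identity and of `ev m φ`), `Md.int_ker`, `Md.sp_ker` with `xL = ptE m Ω φ`, `xk = evx x`; `spc_cls`. -/
theorem spz_some {φ : C.A →ₐ[F] Ω} {x : m.R →ₐ[Ok L] L.κ} (hx : Rdx m φ x) :
    spz m h (Finsupp.single (some φ : C.V.pt Ω) 1) = cls (nx x) := by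
  have hφ : ∀ r, L.nm (ev m φ r) ≤ 1 := fun r => (hx r).1
  let x₀ : L.V ⊗[Ok L] m.R →ₐ[L.V] L.V :=
    Algebra.TensorProduct.lift (AlgHom.id L.V L.V) (Spz_ev hφ) fun _ _ => Commute.all _ _
  have hx₀ : ∀ (c : L.V) (r : m.R), x₀ (c ⊗ₜ r) = c * Spz_ev hφ r := fun c r => by
    rw [Algebra.TensorProduct.lift_tmul, AlgHom.id_apply]
  have hxa : ∀ c : L.V, (x₀ : L.V ⊗[Ok L] m.R →+* L.V) (algebraMap L.V _ c) = c := fun c =>
    x₀.commutes c
  have hL : ∀ s, (ptE m Ω φ : Ω ⊗[Ok L] m.R →+* Ω) (m.mdO.i s) =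
      algebraMap L.V Ω ((x₀ : L.V ⊗[Ok L] m.R →+* L.V) s) := by
    intro s
    change ptE m Ω φ (m.mdO.i s) = algebraMap L.V Ω (x₀ s)
    induction s using TensorProduct.induction_on with
    | zero => rw [map_zero, map_zero, map_zero, map_zero]
    | tmul c r =>
      rw [ptE_iO, hx₀]
      rfl
    | add a b ha hb => rw [map_add, map_add, ha, hb, map_add, map_add]
  have hk : ∀ s, (evx x : L.κ ⊗[Ok L] m.R →+* L.κ) (m.mdO.q s) =
      algebraMap L.V L.κ ((x₀ : L.V ⊗[Ok L] m.R →+* L.V) s) := by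
    intro s
    change evx x (m.mdO.q s) = residue L.V (x₀ s)
    induction s using TensorProduct.induction_on with
    | zero => rw [map_zero, map_zero, map_zero, map_zero]
    | tmul c r =>
      rw [Mod.mdO_q, evx_tmul, hx₀, map_mul]
      congr 1
      obtain ⟨h1, h2⟩ := hx r
      rw [← h2]
      rfl
    | add a b ha hb => rw [map_add, map_add, ha, hb, map_add, map_add]
  have hJ : m.mdO.Int (RingHom.ker (ptE m Ω φ : Ω ⊗[Ok L] m.R →+* Ω)) := Md.int_ker _ hxa hL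
  have hmap : (mx φ).map ((isoE m Ω).symm.toRingEquiv : Ω ⊗[F] C.A →+* Ω ⊗[Ok L] m.R) =
      RingHom.ker (ptE m Ω φ : Ω ⊗[Ok L] m.R →+* Ω) := by
    ext y
    rw [Ideal.mem_map_iff_of_surjective
      ((isoE m Ω).symm.toRingEquiv : Ω ⊗[F] C.A →+* Ω ⊗[Ok L] m.R)
      (isoE m Ω).symm.surjective, RingHom.mem_ker]
    constructor
    · rintro ⟨w, hw, rfl⟩
      change ptE m Ω φ ((isoE m Ω).symm w) = 0
      rw [← mx_isoE, AlgEquiv.apply_symm_apply]
      exact hw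
    · intro hy
      refine ⟨isoE m Ω y, (mx_isoE m φ y).2 hy, (isoE m Ω).symm_apply_apply y⟩
  change Md.spc h (clMap (isoE m Ω).symm.toRingEquiv (cz (Finsupp.single (some φ : C.V.pt Ω) 1))) = _
  rw [cz_some, one_smul, clMap_cls _ (mx_ne_bot φ), hmap, Md.spc_cls h hJ,
    m.mdO.sp_ker hxa hL hk]
  rfl

theorem rdx_act (γ : Ω ≃ₐ[K] Ω) {φ : C.A →ₐ[F] Ω} {x : m.R →ₐ[Ok L] L.κ} (hx : Rdx m φ x) :
    Rdx m ((γ.restrictScalars F : Ω →ₐ[F] Ω).comp φ) ((sgk L γ : L.κ →ₐ[Ok L] L.κ).comp x) := by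
  intro r
  have h1 : ev m ((γ.restrictScalars F : Ω →ₐ[F] Ω).comp φ) r = γ (ev m φ r) := ev_comp m γ φ r
  rw [h1]
  exact sgk_hv L γ (hx r)

end

end CV
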