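import Pool.Agent.Lib.MP_f80667_ag.Cv.KrA
import Pool.Agent.Lib.MP_f80667_ag.Cv.CoB
import Pool.Agent.Lib.MP_f80667_ag.Cv.Spz

/-!
The specialisation of the cycle of an integral ideal over `M`.
-/

open ZC BE PE Polynomial TensorProduct IntermediateField IsLocalRing Module

namespace CV

section

variable {F : Type} [Field F] {C : Crv F} {K Ω : Type} [Field K] [CharZero K] [Field Ω]
  [Algebra K Ω] [Algebra F K] [Algebra F Ω] [IsScalarTower F K Ω] [IsAlgClosure K Ω] {L : Ld K Ω}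
  (m : Mod C (Ok L) K) {M : IntermediateField K Ω}

omit [CharZero K] [IsAlgClosure K Ω] [Algebra F Ω] [IsScalarTower F K Ω] in
/-- The extension of an integral ideal is integral (`mpO_ut`, `mpO_i`). -/
private theorem krE_int {I : Ideal (M ⊗[Ok L] m.R)} (hI : (m.mdM M).Int I) :
    m.mdO.Int (I.map (m.mpOL M).toRingHom) := by
  obtain ⟨u, n, hu, huI⟩ := hI
  refine ⟨m.mpO M u, n, (m.mpO_ut M u n).2 hu, ?_⟩
  rw [m.mpO_i M u]
  exact Ideal.mem_map_of_mem _ huI

omit [CharZero K] [IsAlgClosure K Ω] [Algebra F Ω] [IsScalarTower F K Ω] in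
private theorem KrE_colenk {I : Ideal (ResidueField (OM L M) ⊗[Ok L] m.R)}
    [Module.Finite (ResidueField (OM L M)) ((ResidueField (OM L M) ⊗[Ok L] m.R) ⧸ I)] :
    Module.Finite L.κ ((L.κ ⊗[Ok L] m.R) ⧸ I.map (m.mpOk M).toRingHom) ∧
    finrank L.κ ((L.κ ⊗[Ok L] m.R) ⧸ I.map (m.mpOk M).toRingHom) =
      finrank (ResidueField (OM L M)) ((ResidueField (OM L M) ⊗[Ok L] m.R) ⧸ I) := by
  let _ : Algebra (ResidueField (OM L M)) L.κ := (resMap (omV L M)).toRingHom.toAlgebra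
  have key : ∀ (c : ResidueField (OM L M)) (r : m.R),
      m.mpOk M (c ⊗ₜ r) = (resMap (omV L M) c) ⊗ₜ r := fun c r => Fb.mp_tmul _ _ _
  refine colen_bc (k := ResidueField (OM L M)) (k' := L.κ) (m.mpOk M).toRingHom (fun c => ?_)
    (m.b.baseChange (ResidueField (OM L M))) (m.b.baseChange L.κ) (fun i => ?_) I
  · change m.mpOk M (c ⊗ₜ 1) = (algebraMap (ResidueField (OM L M)) L.κ c) ⊗ₜ 1
    rw [key]
    rfl
  · rw [Basis.baseChange_apply, Basis.baseChange_apply]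
    change m.mpOk M ((1 : ResidueField (OM L M)) ⊗ₜ m.b i) = 1 ⊗ₜ m.b i
    rw [key, map_one]

omit [CharZero K] [IsAlgClosure K Ω] [Algebra F Ω] [IsScalarTower F K Ω] in
/-- Specialisation and extension of `M` to `Ω`. Proof: `⊇`: `mpO_i`, `mpO_q`. The colengths are the same: `Md.finrank_sp` over `M` and over `Ω`, `colen_bc` with the bases `m.b.baseChange _` for `mpOL` and `mpOk`; `eq_of_colen`. -/
theorem sp_mpOL {I : Ideal (M ⊗[Ok L] m.R)} (hI : (m.mdM M).Int I) :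
    m.mdO.sp (I.map (m.mpOL M).toRingHom) = ((m.mdM M).sp I).map (m.mpOk M).toRingHom := by
  have f1 := ((m.mdM M).finrank_gen hI).1
  have f2 : Module.Finite (ResidueField (OM L M))
      ((ResidueField (OM L M) ⊗[Ok L] m.R) ⧸ (m.mdM M).sp I) := ((m.mdM M).finrank_spe hI).1
  have hle : ((m.mdM M).sp I).map (m.mpOk M).toRingHom ≤
      m.mdO.sp (I.map (m.mpOL M).toRingHom) := by
    rw [Md.sp, Ideal.map_map, Ideal.map_le_iff_le_comap]
    intro s hs
    rw [Ideal.mem_comap] at hs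
    rw [Ideal.mem_comap]
    have h1 : ((m.mpOk M).toRingHom.comp (m.mdM M).q) s = m.mdO.q (m.mpO M s) :=
      (m.mpO_q M s).symm
    rw [h1]
    refine Ideal.mem_map_of_mem _ ?_
    rw [Ideal.mem_comap, m.mpO_i M s]
    exact Ideal.mem_map_of_mem _ hs
  obtain ⟨g1, g2⟩ := KrE_colenk m (I := (m.mdM M).sp I)
  have g3 := (colen_bc (k := M) (k' := Ω) (m.mpOL M).toRingHom (fun c => by
    change m.mpOL M (c ⊗ₜ 1) = (algebraMap M Ω c) ⊗ₜ 1
    rw [m.mpOL_tmul M c 1]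
    rfl) (m.b.baseChange M) (m.b.baseChange Ω) (fun i => by
    rw [Basis.baseChange_apply, Basis.baseChange_apply]
    change m.mpOL M ((1 : M) ⊗ₜ m.b i) = 1 ⊗ₜ m.b i
    rw [m.mpOL_tmul M 1 (m.b i)]
    rfl) I).2
  have g4 := Md.finrank_sp _ hI
  have g5 := Md.finrank_sp _ (krE_int m hI)
  refine (eq_of_colen (K := L.κ) hle ?_).symm
  exact ((g2.trans g4).trans (g5.trans g3).symm).le

/-- **The specialisation of the cycle of an integral ideal.** Proof: `cz_cyM`; `clMap_cls` (`(I.map (jO m M)).map (isoE m Ω).symm = I.map mpOL`); `Md.spc_cls` (`krE_int`); `sp_mpOL`. -/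
theorem spz_cyM (h : m.mdO.InfC) {I : Ideal (M ⊗[Ok L] m.R)} (hI : (m.mdM M).Int I) :
    spz m h (cyM m M I) = cls (((m.mdM M).sp I).map (m.mpOk M).toRingHom) := by
  have hI0 : I ≠ ⊥ := hI.ne_bot.1
  have h1 : (I.map (jO m M)).map ((isoE m Ω).symm.toRingEquiv : Ω ⊗[F] C.A →+* Ω ⊗[Ok L] m.R) =
      I.map (m.mpOL M).toRingHom := by
    rw [Ideal.map_map]
    congr 1
    apply RingHom.ext
    intro x
    exact (isoE m Ω).symm_apply_apply (m.mpOL M x)
  change Md.spc h (clMap (isoE m Ω).symm.toRingEquiv (cz (cyM m M I))) = _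
  rw [cz_cyM m hI0, clMap_cls _ (jO_bot m hI0), h1, Md.spc_cls h (krE_int m hI), sp_mpOL m hI]

end

end CV
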