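import Pool.Agent.Lib.MP_f80667_ag.Cv.Kr3
import Pool.Agent.Lib.MP_f80667_ag.Cv.Dd
import Pool.Agent.Lib.MP_f80667_ag.Cv.ClM

/-!
The specialisation of an ideal over `M` is principal if it is principal over the residue field of `Ω`.
-/

open ZC BE PE Polynomial TensorProduct IntermediateField IsLocalRing

namespace CV

section

variable {F : Type} [Field F] {C : Crv F} {K Ω : Type} [Field K] [Field Ω]
  [Algebra K Ω] [Algebra F K] {L : Ld K Ω}
  (m : Mod C (Ok L) K) {M : IntermediateField K Ω}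

/-- Proof: `cls_eq_zero`; `prin_desc` with `k = ResidueField (OM L M)`, `k' = L.κ` (the algebra structure given by `resMap (omV L M)`), `j = mpOk`, the bases `m.b.baseChange _`, `mpOk_d`. -/
theorem prin_M {I : Ideal (M ⊗[Ok L] m.R)} (hI : (m.mdM M).Int I)
    (h : cls (((m.mdM M).sp I).map (m.mpOk M).toRingHom) = 0) :
    ∃ h : ResidueField (OM L M) ⊗[Ok L] m.R, (m.mdM M).sp I = Ideal.span {h} := by
  obtain ⟨u, n, hu, huI⟩ := hI
  have h1 : (m.mdM M).q u ∈ (m.mdM M).sp I :=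
    Ideal.mem_map_of_mem _ (Ideal.mem_comap.2 huI)
  have h2 : (m.mdM M).q u ≠ 0 := (m.mdM M).Dk.ne_zero hu.2
  have h3 : (m.mdM M).sp I ≠ ⊥ := fun h0 => by
    rw [h0, Ideal.mem_bot] at h1
    exact h2 h1
  have h4 : m.mdO.Dk.d (m.mpOk M ((m.mdM M).q u)) = n := by
    rw [m.mpOk_d]
    exact hu.2
  have h5 : m.mpOk M ((m.mdM M).q u) ∈ ((m.mdM M).sp I).map (m.mpOk M).toRingHom :=
    Ideal.mem_map_of_mem (m.mpOk M).toRingHom h1
  have h6 : ((m.mdM M).sp I).map (m.mpOk M).toRingHom ≠ ⊥ := fun h0 => by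
    rw [h0, Ideal.mem_bot] at h5
    exact m.mdO.Dk.ne_zero h4 h5
  obtain ⟨h', hh'⟩ := (cls_eq_zero h6).1 h
  let alg : Algebra (ResidueField (OM L M)) L.κ := (resMap (omV L M)).toRingHom.toAlgebra
  refine @prin_desc (ResidueField (OM L M)) L.κ (ResidueField (OM L M) ⊗[Ok L] m.R)
    (L.κ ⊗[Ok L] m.R) _ _ _ alg _ _ (ddkM m M) _ _ (m.mdM M).Dk m.mdO.Dk
    (m.mpOk M).toRingHom ?_ (m.b.baseChange (ResidueField (OM L M))) (m.b.baseChange L.κ)
    ?_ (fun a => m.mpOk_d M a) _ h3 h' hh'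
  · intro c
    change m.mpOk M (c ⊗ₜ 1) = (resMap (omV L M) c) ⊗ₜ 1
    exact Fb.mp_tmul _ _ _
  · intro i
    rw [Module.Basis.baseChange_apply, Module.Basis.baseChange_apply]
    change m.mpOk M (1 ⊗ₜ m.b i) = 1 ⊗ₜ m.b i
    refine (Fb.mp_tmul _ _ _).trans ?_
    rw [map_one]

end

end CV
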