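import Pool.Agent.Lib.MP_f80667_ag.Cv.KrB
import Pool.Agent.Lib.MP_f80667_ag.Cv.KrC
import Pool.Agent.Lib.MP_f80667_ag.Cv.KrE
import Pool.Agent.Lib.MP_f80667_ag.Cv.KrP
import Pool.Agent.Lib.MP_f80667_ag.Cv.EtC

/-!
The kernel of the specialisation on the cycles over `M`.
-/

open ZC BE PE Polynomial TensorProduct IntermediateField IsLocalRing

namespace CV

section

variable {F : Type} [Field F] {C : Crv F} {K Ω : Type} [Field K] [CharZero K] [Field Ω]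
  [Algebra K Ω] [Algebra F K] [Algebra F Ω] [IsScalarTower F K Ω] [IsAlgClosure K Ω] {L : Ld K Ω}
  (m : Mod C (Ok L) K) {M : IntermediateField K Ω} [FiniteDimensional K M]

/-- **KER.** A cycle over `M` with the specialisation `0` is a displacement up to a principal cycle. -/
theorem ker_spz (h : m.mdO.InfC) {z : C.V.pt Ω →₀ ℤ} (hz : z ∈ Zd C.V M)
    (h0 : spz m h z = 0) :
    ∃ r : ℝ, r < 1 ∧ z ∈ Pc C Ω ⊔ Dsp L C.V (Nr m r) M := by
  obtain ⟨I, hI, hzI⟩ := zd_int m hz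
  have h1 : spz m h (cyM m M I) = 0 := by
    rw [← h0]
    change Md.spc h (clMap (isoE m Ω).symm.toRingEquiv (cz (cyM m M I))) =
      Md.spc h (clMap (isoE m Ω).symm.toRingEquiv (cz z))
    rw [hzI]
  rw [spz_cyM m h hI] at h1
  obtain ⟨g, hg⟩ := prin_M m hI h1
  obtain ⟨e, h', a, n, he, hh', hs⟩ := (m.mdM M).exists_hh hI hg
  have hie : (m.mdM M).Int (Ideal.span {(m.mdM M).i e}) :=
    ⟨e, a, he, Ideal.mem_span_singleton_self _⟩
  have hih : (m.mdM M).Int (Ideal.span {(m.mdM M).i h'}) :=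
    ⟨h', n, hh', Ideal.mem_span_singleton_self _⟩
  obtain ⟨r, hr, hc⟩ := cli m (hI.mul hie) hih hs
  refine ⟨r, hr, ?_⟩
  have he0 : (m.mdM M).i e ≠ 0 := he.ne.2.1
  have hh0 : (m.mdM M).i h' ≠ 0 := hh'.ne.2.1
  have hdeg : C.V.deg Ω (cyM m M (I * Ideal.span {(m.mdM M).i e}) -
      cyM m M (Ideal.span {(m.mdM M).i h'})) = 0 := by
    obtain ⟨p, hp, d, hd, hpd⟩ := AddSubgroup.mem_sup.1 hc
    rw [← hpd, map_add, deg_Pc hp, dsp_deg hd, add_zero]
  have h2 : z - (cyM m M (I * Ideal.span {(m.mdM M).i e}) -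
      cyM m M (Ideal.span {(m.mdM M).i h'})) ∈ Pc C Ω := by
    rw [mem_Pc_cz]
    refine ⟨?_, ?_⟩
    · rw [map_sub, hdeg, hz.2, sub_zero]
    · have h3 : cz (cyM m M (I * Ideal.span {(m.mdM M).i e})) =
          (cz (cyM m M I) + cz (cyM m M (Ideal.span {(m.mdM M).i e})) : Cg (Ω ⊗[F] C.A)) :=
        cz_cyM_mul m hI.ne_bot.1 hie.ne_bot.1
      have h4 : cz (cyM m M (Ideal.span {(m.mdM M).i e})) = (0 : Cg (Ω ⊗[F] C.A)) :=
        cz_cyM_span m he0
      have h5 : cz (cyM m M (Ideal.span {(m.mdM M).i h'})) = (0 : Cg (Ω ⊗[F] C.A)) :=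
        cz_cyM_span m hh0
      rw [map_sub, map_sub, h3, h4, h5, hzI, add_zero, sub_zero, sub_self]
  have h6 := AddSubgroup.add_mem _ (AddSubgroup.mem_sup_left (T := Dsp L C.V (Nr m r) M) h2) hc
  rwa [sub_add_cancel] at h6

end

end CV
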