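import Pool.Agent.Lib.MP_f80667_ag.Cv.Md

/-! Models over a valuation ring: basic properties. -/

open IsLocalRing

namespace CV

namespace Md

variable {V L k S SL Sk : Type} [CommRing V] [IsDomain V] [ValuationRing V] [Field L] [Field k]
  [Algebra V L] [IsFractionRing V L] [Algebra V k] [CommRing S] [CommRing SL] [CommRing Sk]
  [Algebra V S] [Algebra L SL] [Algebra k Sk] (M : Md V L k S SL Sk)

private theorem mdA_i_alg_mul (c : V) (s : S) :
    M.i (algebraMap V S c * s) = algebraMap L SL (algebraMap V L c) * M.i s := by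
  rw [map_mul, M.i_alg]

private theorem mdA_q_alg_mul (c : V) (s : S) :
    M.q (algebraMap V S c * s) = algebraMap k Sk (algebraMap V k c) * M.q s := by
  rw [map_mul, M.q_alg]

omit [IsDomain V] [ValuationRing V] in
private theorem mdA_ne {c : V} (hc : c ≠ 0) : algebraMap V L c ≠ 0 := by
  intro h
  apply hc
  apply IsFractionRing.injective V L
  rw [h, map_zero]

/-- Products of elements of unit type. -/
theorem Ut.mul {M : Md V L k S SL Sk} {u v : S} {m n : ℕ} (hu : M.Ut u m) (hv : M.Ut v n) :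
    M.Ut (u * v) (m + n) := by
  refine ⟨?_, ?_⟩
  · rw [map_mul, M.DL.mul, hu.1, hv.1, Nat.cast_add]
  · rw [map_mul, M.Dk.mul, hu.2, hv.2, Nat.cast_add]

theorem ut_one : M.Ut 1 0 := by
  refine ⟨?_, ?_⟩
  · rw [map_one, M.DL.one, Nat.cast_zero]
  · rw [map_one, M.Dk.one, Nat.cast_zero]

theorem Ut.ne {M : Md V L k S SL Sk} {u : S} {m : ℕ} (hu : M.Ut u m) :
    u ≠ 0 ∧ M.i u ≠ 0 ∧ M.q u ≠ 0 := by
  have h1 : M.i u ≠ 0 := M.DL.ne_zero hu.1
  refine ⟨?_, h1, M.Dk.ne_zero hu.2⟩
  rintro rfl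
  exact h1 (map_zero M.i)

theorem d_alg {c : V} (hc : c ≠ 0) (s : S) : M.DL.d (M.i (algebraMap V S c * s)) = M.DL.d (M.i s) := by
  rw [mdA_i_alg_mul, M.DL.mul, M.DL.d_cst (mdA_ne (L := L) hc), zero_add]

include M in
/-- `S` has no torsion over `V`. -/
theorem alg_cancel {c : V} (hc : c ≠ 0) {s t : S} (h : algebraMap V S c * s = algebraMap V S c * t) :
    s = t := by
  have hd : IsDomain SL := M.DL.isDomain
  have h1 := congrArg M.i h
  rw [mdA_i_alg_mul, mdA_i_alg_mul] at h1
  have h2 : algebraMap L SL (algebraMap V L c) ≠ 0 := by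
    rw [Ne, FaithfulSMul.algebraMap_eq_zero_iff]
    exact mdA_ne hc
  exact M.inj (mul_left_cancel₀ h2 h1)

theorem q_alg_mul {c : V} (hc : c ∈ maximalIdeal V) (s : S) : M.q (algebraMap V S c * s) = 0 := by
  rw [mdA_q_alg_mul, (M.res_zero c).2 hc, map_zero, zero_mul]

/-- The kernel of `q`. Proof: `prim`. -/
theorem ker {s : S} (hs : M.q s = 0) : ∃ c ∈ maximalIdeal V, ∃ t : S, s = algebraMap V S c * t := by
  have hd : IsDomain Sk := M.Dk.isDomain
  by_cases h0 : s = 0
  · exact ⟨0, Ideal.zero_mem _, 0, by rw [h0, mul_zero]⟩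
  obtain ⟨c, t, hst, ht⟩ := M.prim s h0
  refine ⟨c, ?_, t, hst⟩
  rw [hst, mdA_q_alg_mul] at hs
  have h1 : algebraMap k Sk (algebraMap V k c) = 0 := (mul_eq_zero.1 hs).resolve_right ht
  rw [FaithfulSMul.algebraMap_eq_zero_iff] at h1
  exact (M.res_zero c).1 h1

/-- Leading coefficients are in `V`. Proof: `DL.lead` gives a coefficient `c` in `L`; if it is not in `V`, `c⁻¹` is in the
maximal ideal: `c⁻¹ s - e` has smaller degree than `n` on the generic fibre, and its image in the special fibre is `- q e`,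
of degree `n`: contradiction to `le`. -/
theorem lead_V {s e : S} {n : ℕ} (hs : M.DL.d (M.i s) = n) (he : M.Ut e n) :
    ∃ c : V, M.DL.d (M.i (s - algebraMap V S c * e)) < n := by
  obtain ⟨c, hc⟩ := M.DL.lead (M.i s) (M.i e) he.ne.2.1 (by rw [hs, he.1])
  rw [he.1] at hc
  rcases ValuationRing.isInteger_or_isInteger V c with ⟨v, hv⟩ | ⟨w, hw⟩
  · refine ⟨v, ?_⟩
    rw [map_sub, mdA_i_alg_mul, hv, ← Algebra.smul_def]
    exact hc
  · by_cases hu : w ∈ maximalIdeal V
    · exfalso
      have hc0 : c ≠ 0 := by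
        rintro rfl
        rw [zero_smul, sub_zero, hs] at hc
        exact lt_irrefl _ hc
      have h1 : M.DL.d (M.i (algebraMap V S w * s - e)) < n := by
        have h2 : M.i (algebraMap V S w * s - e) = c⁻¹ • (M.i s - c • M.i e) := by
          rw [map_sub, mdA_i_alg_mul, hw, smul_sub, smul_smul, inv_mul_cancel₀ hc0, one_smul,
            ← Algebra.smul_def]
        rw [h2, M.DL.smul (inv_ne_zero hc0)]
        exact hc
      have h3 : M.Dk.d (M.q (algebraMap V S w * s - e)) = n := by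
        rw [map_sub, M.q_alg_mul hu, zero_sub, M.Dk.neg, he.2]
      have h4 := M.le (algebraMap V S w * s - e)
      rw [h3] at h4
      exact absurd h1 (not_lt.2 h4)
    · have hw1 : IsUnit w := by
        by_contra hcon
        exact hu ((mem_maximalIdeal w).2 hcon)
      obtain ⟨v, hv⟩ := hw1.exists_right_inv
      refine ⟨v, ?_⟩
      have h5 : algebraMap V L v = c := by
        have h6 : algebraMap V L w * algebraMap V L v = 1 := by rw [← map_mul, hv, map_one]
        rw [hw] at h6
        have hc0 : c ≠ 0 := by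
          rintro rfl
          rw [inv_zero, zero_mul] at h6
          exact zero_ne_one h6
        calc algebraMap V L v = c * (c⁻¹ * algebraMap V L v) := by
              rw [← mul_assoc, mul_inv_cancel₀ hc0, one_mul]
          _ = c := by rw [h6, mul_one]
      rw [map_sub, mdA_i_alg_mul, h5, ← Algebra.smul_def]
      exact hc

/-- Saturation: if `c s` is in the ideal of an element of unit type so is `s`. Proof: `c s = u t = u c' t'` with `q t' ≠ 0`
(`prim`); if `c` does not divide `c'`, then `c = c' c''` with `c''` in the maximal ideal, `c'' s = u t'` and `q (u t') = 0`: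
contradiction. So `s = (c' / c) u t'`. -/
theorem sat {u : S} {n : ℕ} (hu : M.Ut u n) {c : V} (hc : c ≠ 0) {s : S}
    (h : algebraMap V S c * s ∈ Ideal.span {u}) : s ∈ Ideal.span {u} := by
  have hd : IsDomain Sk := M.Dk.isDomain
  rw [Ideal.mem_span_singleton] at h ⊢
  obtain ⟨r, hr⟩ := h
  by_cases hr0 : r = 0
  · have h1 : s = 0 := M.alg_cancel hc (by rw [hr, hr0, mul_zero, mul_zero])
    rw [h1]
    exact dvd_zero u
  obtain ⟨c', t, hrt, ht⟩ := M.prim r hr0
  have key : ∀ d : V, c' = c * d → u ∣ s := by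
    intro d hcd
    refine ⟨algebraMap V S d * t, M.alg_cancel hc ?_⟩
    rw [hr, hrt, hcd, map_mul]
    ring
  rcases ValuationRing.dvd_total c c' with ⟨d, hd1⟩ | ⟨d, hd1⟩
  · exact key d hd1
  · by_cases hu1 : IsUnit d
    · obtain ⟨v, hv⟩ := hu1.exists_right_inv
      refine key v ?_
      rw [hd1, mul_assoc, hv, mul_one]
    · exfalso
      have hc' : c' ≠ 0 := by
        rintro rfl
        exact hc (by rw [hd1, zero_mul])
      have h2 : algebraMap V S d * s = u * t := by
        apply M.alg_cancel hc'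
        rw [← mul_assoc, ← map_mul, ← hd1, hr, hrt]
        ring
      have h3 := congrArg M.q h2
      rw [M.q_alg_mul ((mem_maximalIdeal d).2 hu1), map_mul] at h3
      rcases mul_eq_zero.1 h3.symm with h4 | h4
      · exact hu.ne.2.2 h4
      · exact ht h4

/-- Primitive elements of the generic fibre. Proof: `loc`, `prim`. -/
theorem primL {f : SL} (hf : f ≠ 0) : ∃ (c : L) (s : S), c ≠ 0 ∧ f = algebraMap L SL c * M.i s ∧
    M.q s ≠ 0 := by
  have hd : IsDomain SL := M.DL.isDomain
  obtain ⟨c₀, hc₀, s₀, h₀⟩ := M.loc f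
  have hL0 : algebraMap V L c₀ ≠ 0 := mdA_ne hc₀
  have hs0 : s₀ ≠ 0 := by
    rintro rfl
    rw [map_zero] at h₀
    rcases mul_eq_zero.1 h₀ with h1 | h1
    · rw [FaithfulSMul.algebraMap_eq_zero_iff] at h1
      exact hL0 h1
    · exact hf h1
  obtain ⟨c₁, t, hst, ht⟩ := M.prim s₀ hs0
  have hc₁ : c₁ ≠ 0 := by
    rintro rfl
    exact hs0 (by rw [hst, map_zero, zero_mul])
  refine ⟨(algebraMap V L c₀)⁻¹ * algebraMap V L c₁, t,
    mul_ne_zero (inv_ne_zero hL0) (mdA_ne hc₁), ?_, ht⟩
  rw [map_mul, mul_assoc, ← mdA_i_alg_mul, ← hst, ← h₀, ← mul_assoc, ← map_mul,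
    inv_mul_cancel₀ hL0, map_one, one_mul]

end Md

end CV
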