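import Pool.Agent.Lib.MP_f80667_ag.Cv.MdF

/-! Models over a valuation ring: integral ideals. -/

open IsLocalRing

namespace CV

namespace Md

variable {V L k S SL Sk : Type} [CommRing V] [IsDomain V] [ValuationRing V] [Field L] [Field k]
  [Algebra V L] [IsFractionRing V L] [Algebra V k] [CommRing S] [CommRing SL] [CommRing Sk]
  [Algebra V S] [Algebra L SL] [Algebra k Sk] (M : Md V L k S SL Sk)

theorem mem_sp {J : Ideal SL} {x : Sk} : x ∈ M.sp J ↔ ∃ s : S, M.i s ∈ J ∧ M.q s = x := by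
  unfold sp
  rw [Ideal.mem_map_iff_of_surjective M.q M.surj]
  simp only [Ideal.mem_comap]

theorem Int.ne_bot {M : Md V L k S SL Sk} {J : Ideal SL} (hJ : M.Int J) : J ≠ ⊥ ∧ M.sp J ≠ ⊥ := by
  obtain ⟨u, n, hu, huJ⟩ := hJ
  obtain ⟨_, h1, h2⟩ := hu.ne
  refine ⟨?_, ?_⟩
  · rintro rfl
    exact h1 ((Submodule.mem_bot SL).1 huJ)
  · intro h
    have h3 : M.q u ∈ M.sp J := M.mem_sp.2 ⟨u, huJ, rfl⟩
    rw [h] at h3
    exact h2 ((Submodule.mem_bot Sk).1 h3)

/-- The ideal `J ∩ S` is saturated. -/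
theorem comap_sat {J : Ideal SL} {c : V} (hc : c ≠ 0) {s : S}
    (h : algebraMap V S c * s ∈ J.comap M.i) : s ∈ J.comap M.i := by
  rw [Ideal.mem_comap] at h ⊢
  rw [map_mul, M.i_alg] at h
  have hc' : algebraMap V L c ≠ 0 := by
    intro h0
    exact hc ((IsFractionRing.injective V L) (by rw [h0, map_zero]))
  have h1 := J.mul_mem_left (algebraMap L SL (algebraMap V L c)⁻¹) h
  rwa [← mul_assoc, ← map_mul, inv_mul_cancel₀ hc', map_one, one_mul] at h1

/-- `S / (J ∩ S)` is finite and free over `V`. Proof: it is a quotient of `S / (u)` (`quot_fin`), without torsion (`i_alg`), so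
flat (`Module.flat_iff_torsion_eq_bot_of_isBezout`) and free (`Module.free_of_flat_of_isLocalRing`). -/
theorem quot_free {J : Ideal SL} (hJ : M.Int J) : Module.Finite V (S ⧸ J.comap M.i) ∧
    Module.Free V (S ⧸ J.comap M.i) := by
  obtain ⟨u, n, hu, huJ⟩ := hJ
  have hf : Module.Finite V (S ⧸ Ideal.span {u}) := M.quot_fin hu
  have hle : Ideal.span {u} ≤ J.comap M.i := by
    rw [Ideal.span_singleton_le_iff_mem]
    exact huJ
  have hfin : Module.Finite V (S ⧸ J.comap M.i) :=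
    Module.Finite.of_surjective (Ideal.Quotient.factorₐ V hle).toLinearMap
      (Ideal.Quotient.factor_surjective hle)
  have htf : Submodule.torsion V (S ⧸ J.comap M.i) = ⊥ := by
    rw [eq_bot_iff]
    rintro x hx
    rw [Submodule.mem_torsion_iff] at hx
    obtain ⟨⟨c, hc⟩, hcx⟩ := hx
    obtain ⟨s, rfl⟩ := Ideal.Quotient.mk_surjective x
    rw [Submodule.mem_bot, Ideal.Quotient.eq_zero_iff_mem]
    apply M.comap_sat (nonZeroDivisors.ne_zero hc)
    rw [← Ideal.Quotient.eq_zero_iff_mem, map_mul]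
    have h1 : (⟨c, hc⟩ : nonZeroDivisors V) • (Ideal.Quotient.mk (J.comap M.i)) s =
        c • (Ideal.Quotient.mk (J.comap M.i)) s := rfl
    rw [h1, Algebra.smul_def] at hcx
    exact hcx
  have hflat : Module.Flat V (S ⧸ J.comap M.i) :=
    Module.Flat.flat_iff_torsion_eq_bot_of_isBezout.2 htf
  exact ⟨hfin, Module.free_of_flat_of_isLocalRing⟩

end Md

end CV
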