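import Pool.Agent.Lib.MP_f80667_ag.Cv.MdB

/-! Models over a valuation ring: the special fibre of an integral ideal. -/

open IsLocalRing

namespace CV

namespace Md

variable {V L k S SL Sk : Type} [CommRing V] [IsDomain V] [ValuationRing V] [Field L] [Field k]
  [Algebra V L] [IsFractionRing V L] [Algebra V k] [CommRing S] [CommRing SL] [CommRing Sk]
  [Algebra V S] [Algebra L SL] [Algebra k Sk] (M : Md V L k S SL Sk)

private theorem mds_le (J : Ideal SL) : J.comap M.i ≤ (M.sp J).comap M.q :=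
  Ideal.le_comap_map

/-- The reduction of `S / (J ∩ S)`. -/
private def mdsPhi (J : Ideal SL) : S ⧸ J.comap M.i →+* Sk ⧸ M.sp J :=
  Ideal.quotientMap (M.sp J) M.q (M.mds_le J)

private theorem mdsPhi_mk (J : Ideal SL) (s : S) :
    M.mdsPhi J (Ideal.Quotient.mk (J.comap M.i) s) = Ideal.Quotient.mk (M.sp J) (M.q s) :=
  Ideal.quotientMap_mk

private theorem mdsPhi_smul (J : Ideal SL) (v : V) (y : S ⧸ J.comap M.i) :
    M.mdsPhi J (v • y) = algebraMap V k v • M.mdsPhi J y := by
  obtain ⟨s, rfl⟩ := Ideal.Quotient.mk_surjective y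
  have h1 : v • (Ideal.Quotient.mk (J.comap M.i) s) =
      Ideal.Quotient.mk (J.comap M.i) (algebraMap V S v * s) := by
    rw [← Algebra.smul_def]
    rfl
  have h2 : algebraMap V k v • (Ideal.Quotient.mk (M.sp J) (M.q s)) =
      Ideal.Quotient.mk (M.sp J) (algebraMap k Sk (algebraMap V k v) * M.q s) := by
    rw [← Algebra.smul_def]
    rfl
  rw [h1, mdsPhi_mk, mdsPhi_mk, map_mul, M.q_alg, h2]

private theorem mdsPhi_surj (J : Ideal SL) : Function.Surjective (M.mdsPhi J) := by
  intro x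
  obtain ⟨y, rfl⟩ := Ideal.Quotient.mk_surjective x
  obtain ⟨s, rfl⟩ := M.surj y
  exact ⟨Ideal.Quotient.mk _ s, M.mdsPhi_mk J s⟩

private theorem mdsPhi_ker (J : Ideal SL) {y : S ⧸ J.comap M.i} (hy : M.mdsPhi J y = 0) :
    ∃ c ∈ maximalIdeal V, ∃ z : S ⧸ J.comap M.i, y = c • z := by
  obtain ⟨s, rfl⟩ := Ideal.Quotient.mk_surjective y
  rw [mdsPhi_mk, Ideal.Quotient.eq_zero_iff_mem, M.mem_sp] at hy
  obtain ⟨t, ht, htq⟩ := hy
  obtain ⟨c, hc, t', ht'⟩ := M.ker (s := s - t) (by rw [map_sub, htq, sub_self])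
  refine ⟨c, hc, Ideal.Quotient.mk _ t', ?_⟩
  have h1 : c • (Ideal.Quotient.mk (J.comap M.i) t') =
      Ideal.Quotient.mk (J.comap M.i) (algebraMap V S c * t') := by
    rw [← Algebra.smul_def]
    rfl
  rw [h1, ← ht', Ideal.Quotient.eq, sub_sub_cancel]
  exact ht

/-- The rank of `S / (J ∩ S)` is the dimension on the special fibre. Proof: a basis of `S / (J ∩ S)` over `V` gives a
basis of `Sk / sp J` over `k` (`surj`, `ker`, `res_zero`). -/
theorem finrank_spe {J : Ideal SL} (hJ : M.Int J) : Module.Finite k (Sk ⧸ M.sp J) ∧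
    Module.finrank k (Sk ⧸ M.sp J) = Module.finrank V (S ⧸ J.comap M.i) := by
  obtain ⟨hfin, hfree⟩ := M.quot_free hJ
  let b := Module.Free.chooseBasis V (S ⧸ J.comap M.i)
  have li : LinearIndependent k fun j => M.mdsPhi J (b j) := by
    rw [Fintype.linearIndependent_iff]
    intro g hg j
    choose v hv using fun j => M.res_surj (g j)
    have h1 : M.mdsPhi J (∑ j, v j • b j) = 0 := by
      rw [map_sum, ← hg]
      refine Finset.sum_congr rfl fun j _ => ?_
      rw [mdsPhi_smul, hv]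
    obtain ⟨c, hc, z, hz⟩ := M.mdsPhi_ker J h1
    have h2 : v j = c * b.repr z j := by
      have h3 := congrArg (fun y => b.repr y j) hz
      rw [Module.Basis.repr_sum_self, map_smul, Finsupp.smul_apply, smul_eq_mul] at h3
      exact h3
    rw [← hv j, M.res_zero, h2]
    exact Ideal.mul_mem_right _ _ hc
  have hs : ⊤ ≤ Submodule.span k (Set.range fun j => M.mdsPhi J (b j)) := by
    intro x _
    obtain ⟨y, rfl⟩ := M.mdsPhi_surj J x
    rw [← b.sum_repr y, map_sum]
    refine Submodule.sum_mem _ fun j _ => ?_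
    rw [mdsPhi_smul]
    exact Submodule.smul_mem _ _ (Submodule.subset_span ⟨j, rfl⟩)
  let B := Module.Basis.mk li hs
  exact ⟨Module.Finite.of_basis B,
    by rw [Module.finrank_eq_card_basis B, Module.finrank_eq_card_basis b]⟩

end Md

end CV
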