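import Pool.Agent.Lib.MP_f80667_ag.Cv.MdG
import Pool.Agent.Lib.MP_f80667_ag.Cv.MdS
import Pool.Agent.Lib.MP_f80667_ag.Cv.DgD

/-! Models over a valuation ring: specialisation is multiplicative. -/

open IsLocalRing

namespace CV

namespace Md

variable {V L k S SL Sk : Type} [CommRing V] [IsDomain V] [ValuationRing V] [Field L] [Field k]
  [Algebra V L] [IsFractionRing V L] [Algebra V k] [CommRing S] [CommRing SL] [CommRing Sk]
  [Algebra V S] [Algebra L SL] [Algebra k Sk] (M : Md V L k S SL Sk)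

theorem Int.mono {M : Md V L k S SL Sk} {J J' : Ideal SL} (h : J ≤ J') (hJ : M.Int J) : M.Int J' := by
  obtain ⟨u, n, hu, hm⟩ := hJ
  exact ⟨u, n, hu, h hm⟩

theorem Int.mul {M : Md V L k S SL Sk} {J J' : Ideal SL} (hJ : M.Int J) (hJ' : M.Int J') :
    M.Int (J * J') := by
  obtain ⟨u, n, hu, hm⟩ := hJ
  obtain ⟨u', n', hu', hm'⟩ := hJ'
  refine ⟨u * u', n + n', hu.mul hu', ?_⟩
  rw [map_mul]
  exact Ideal.mul_mem_mul hm hm'

theorem int_top : M.Int ⊤ := by
  exact ⟨1, 0, M.ut_one, Submodule.mem_top⟩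

theorem sp_mono {J J' : Ideal SL} (h : J ≤ J') : M.sp J ≤ M.sp J' := by
  exact Ideal.map_mono (Ideal.comap_mono h)

theorem sp_top : M.sp ⊤ = ⊤ := by
  rw [sp, Ideal.comap_top, Ideal.map_top]

/-- The dimension does not change under specialisation. -/
theorem finrank_sp {J : Ideal SL} (hJ : M.Int J) :
    Module.finrank k (Sk ⧸ M.sp J) = Module.finrank L (SL ⧸ J) := by
  rw [(M.finrank_spe hJ).2, (M.finrank_gen hJ).2]

/-- Specialisation is multiplicative. Proof: `sp J * sp J' ≤ sp (J * J')` and the colengths agree (`finrank_sp`,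
`colen_mul`, `eq_of_colen`). -/
theorem sp_mul [IsDedekindDomain SL] [IsDedekindDomain Sk] {J J' : Ideal SL} (hJ : M.Int J)
    (hJ' : M.Int J') : M.sp (J * J') = M.sp J * M.sp J' := by
  have f1 : Module.Finite k (Sk ⧸ M.sp J) := (M.finrank_spe hJ).1
  have f2 : Module.Finite k (Sk ⧸ M.sp J') := (M.finrank_spe hJ').1
  have f3 : Module.Finite L (SL ⧸ J) := (M.finrank_gen hJ).1
  have f4 : Module.Finite L (SL ⧸ J') := (M.finrank_gen hJ').1
  have hle : M.sp J * M.sp J' ≤ M.sp (J * J') := by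
    rw [sp, sp, ← Ideal.map_mul]
    exact Ideal.map_mono (Ideal.le_comap_mul M.i)
  obtain ⟨g1, g2⟩ := colen_mul (K := k) hJ.ne_bot.2 hJ'.ne_bot.2
  obtain ⟨-, g4⟩ := colen_mul (K := L) hJ.ne_bot.1 hJ'.ne_bot.1
  refine (eq_of_colen (K := k) hle ?_).symm
  rw [g2, M.finrank_sp (hJ.mul hJ'), g4, M.finrank_sp hJ, M.finrank_sp hJ']

end Md

end CV
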