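import Pool.Agent.Lib.MP_f80667_ag.Cv.MdR

/-!
The constant model: `A` is a curve over the field `Ω`, `V` a valuation ring over `Ω`.
-/

open TensorProduct IsLocalRing

namespace CV

namespace Dg

variable {Ω A : Type} [Field Ω] [CommRing A] [Algebra Ω A] (G : Dg Ω A)

theorem exists_el : ∃ (N : ℕ) (e : ℕ → A), ∀ j, G.d (e j) = (N + j : ℕ) := by
  obtain ⟨N, h⟩ := G.tail
  choose e he using fun j : ℕ => h (N + j) (Nat.le_add_right _ _)
  exact ⟨N, e, he⟩

/-- The number in `exists_el`. -/
noncomputable def cN : ℕ := G.exists_el.choose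

/-- The elements of degree `cN + j`. -/
noncomputable def ce : ℕ → A := G.exists_el.choose_spec.choose

theorem ce_d (j : ℕ) : G.d (G.ce j) = (G.cN + j : ℕ) := G.exists_el.choose_spec.choose_spec j

/-- The fibre. -/
noncomputable def cF (E : Type) [Field E] [Algebra Ω E] : Fb Ω G.ce G.cN E where
  G := G.bc E
  hi j := by rw [G.bc_one_tmul, G.ce_d]

/-- **The constant model.** -/
noncomputable def cst (V L : Type) [CommRing V] [IsDomain V] [ValuationRing V] [Field L]
    [Algebra V L] [IsFractionRing V L] [Algebra Ω V] [Algebra Ω L] [IsScalarTower Ω V L] :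
    Md V L (ResidueField V) (V ⊗[Ω] A) (L ⊗[Ω] A) (ResidueField V ⊗[Ω] A) :=
  Fb.md G.elB (G.cF L) (G.cF (ResidueField V)) residue_surjective
    fun c => residue_eq_zero_iff c

variable (V L : Type) [CommRing V] [IsDomain V] [ValuationRing V] [Field L] [Algebra V L]
  [IsFractionRing V L] [Algebra Ω V] [Algebra Ω L] [IsScalarTower Ω V L]

theorem cst_i (v : V) (a : A) : (G.cst V L).i (v ⊗ₜ a) = algebraMap V L v ⊗ₜ a := Fb.iL_tmul v a

theorem cst_q (v : V) (a : A) : (G.cst V L).q (v ⊗ₜ a) = residue V v ⊗ₜ a := Fb.iL_tmul v a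

theorem cst_DL : (G.cst V L).DL = G.bc L := rfl

theorem cst_Dk : (G.cst V L).Dk = G.bc (ResidueField V) := rfl

end Dg

end CV
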