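import Pool.Agent.Lib.MP_f80667_ag.Cv.MdA

/-! Models over a valuation ring: the quotient by an element of unit type is finite. -/

open IsLocalRing

namespace CV

namespace Md

variable {V L k S SL Sk : Type} [CommRing V] [IsDomain V] [ValuationRing V] [Field L] [Field k]
  [Algebra V L] [IsFractionRing V L] [Algebra V k] [CommRing S] [CommRing SL] [CommRing Sk]
  [Algebra V S] [Algebra L SL] [Algebra k Sk] (M : Md V L k S SL Sk)

/-- The quotient by an element of unit type is finite over `V`. Proof: modulo `u` every element is congruent to an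
element of degree `≤ n + n₀` (`tail`, `lead_V` with `e_(m-n) * u`, strong induction on the degree); these are in the span
of a finite set (`fin`). -/
theorem quot_fin {u : S} {n : ℕ} (hu : M.Ut u n) : Module.Finite V (S ⧸ Ideal.span {u}) := by
  obtain ⟨n₀, hn₀⟩ := M.tail
  obtain ⟨t, ht⟩ := M.fin (n + n₀)
  have key : ∀ m : ℕ, ∀ s : S, M.DL.d (M.i s) ≤ m →
      ∃ s' : S, s - s' ∈ Ideal.span {u} ∧ M.DL.d (M.i s') ≤ (n + n₀ : ℕ) := by
    intro m
    induction m using Nat.strong_induction_on with
    | _ m ih =>
      intro s hs
      by_cases hm : m ≤ n + n₀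
      · exact ⟨s, by rw [sub_self]; exact zero_mem _, hs.trans (by exact_mod_cast hm)⟩
      · by_cases hlt : M.DL.d (M.i s) < m
        · by_cases h0 : M.i s = 0
          · refine ⟨s, by rw [sub_self]; exact zero_mem _, ?_⟩
            rw [h0, M.DL.zero]
            exact bot_le
          · obtain ⟨l, hl⟩ := M.DL.exists_nat h0
            rw [hl, Nat.cast_lt] at hlt
            exact ih l hlt s hl.le
        · have hd : M.DL.d (M.i s) = m := le_antisymm hs (not_lt.1 hlt)
          obtain ⟨e, he⟩ := hn₀ (m - n) (by omega)
          have he' : M.Ut e (m - n) := he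
          have heu : M.Ut (e * u) m := by
            have h1 := he'.mul hu
            have h2 : m - n + n = m := by omega
            rwa [h2] at h1
          obtain ⟨c, hc⟩ := M.lead_V hd heu
          have h3 : ∃ s' : S, (s - algebraMap V S c * (e * u)) - s' ∈ Ideal.span {u} ∧
              M.DL.d (M.i s') ≤ (n + n₀ : ℕ) := by
            by_cases h0 : M.i (s - algebraMap V S c * (e * u)) = 0
            · refine ⟨s - algebraMap V S c * (e * u), by rw [sub_self]; exact zero_mem _, ?_⟩
              rw [h0, M.DL.zero]
              exact bot_le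
            · obtain ⟨l, hl⟩ := M.DL.exists_nat h0
              rw [hl, Nat.cast_lt] at hc
              exact ih l hc _ hl.le
          obtain ⟨s', hs', hd'⟩ := h3
          refine ⟨s', ?_, hd'⟩
          have h4 : algebraMap V S c * (e * u) ∈ Ideal.span {u} := by
            rw [← mul_assoc]
            exact Ideal.mul_mem_left _ _ (Ideal.subset_span rfl)
          have h5 := add_mem hs' h4
          have h6 : s - algebraMap V S c * (e * u) - s' + algebraMap V S c * (e * u) = s - s' := by
            ring
          rwa [h6] at h5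
  refine Module.Finite.of_surjective
    ((Ideal.Quotient.mkₐ V (Ideal.span {u})).toLinearMap.comp
      (Submodule.span V (t : Set S)).subtype) ?_
  intro y
  obtain ⟨s, rfl⟩ := Ideal.Quotient.mk_surjective y
  have h7 : ∃ s' : S, s - s' ∈ Ideal.span {u} ∧ M.DL.d (M.i s') ≤ (n + n₀ : ℕ) := by
    by_cases h0 : M.i s = 0
    · refine ⟨s, by rw [sub_self]; exact zero_mem _, ?_⟩
      rw [h0, M.DL.zero]
      exact bot_le
    · obtain ⟨l, hl⟩ := M.DL.exists_nat h0
      exact key l s hl.le
  obtain ⟨s', hs', hd'⟩ := h7
  refine ⟨⟨s', ht s' hd'⟩, ?_⟩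
  exact (Ideal.Quotient.eq.2 hs').symm

end Md

end CV
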