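import Pool.Agent.Lib.MP_f80667_ag.Cv.MdB

/-! Models over a valuation ring: the generic fibre of an integral ideal. -/

open IsLocalRing

namespace CV

namespace Md

variable {V L k S SL Sk : Type} [CommRing V] [IsDomain V] [ValuationRing V] [Field L] [Field k]
  [Algebra V L] [IsFractionRing V L] [Algebra V k] [CommRing S] [CommRing SL] [CommRing Sk]
  [Algebra V S] [Algebra L SL] [Algebra k Sk] (M : Md V L k S SL Sk)

/-- The rank of `S / (J ∩ S)` is the dimension on the generic fibre. Proof: a basis of `S / (J ∩ S)` over `V` gives a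
basis of `SL / J` over `L` (`loc`; `IsFractionRing`). -/
theorem finrank_gen {J : Ideal SL} (hJ : M.Int J) : Module.Finite L (SL ⧸ J) ∧
    Module.finrank L (SL ⧸ J) = Module.finrank V (S ⧸ J.comap M.i) := by
  obtain ⟨hfin, hfree⟩ := M.quot_free hJ
  let : Algebra V SL := ((algebraMap L SL).comp (algebraMap V L)).toAlgebra
  have : IsScalarTower V L SL := IsScalarTower.of_algebraMap_eq' rfl
  let iA : S →ₐ[V] SL := { M.i with commutes' := M.i_alg }
  let f : (S ⧸ J.comap M.i) →ₗ[V] (SL ⧸ J) :=
    (Ideal.quotientMapₐ J iA (I := J.comap M.i) le_rfl).toLinearMap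
  have hf : ∀ s : S, f (Ideal.Quotient.mk _ s) = Ideal.Quotient.mk J (M.i s) := fun s => rfl
  have hinj : Function.Injective f := by
    rw [injective_iff_map_eq_zero]
    intro x hx
    obtain ⟨s, rfl⟩ := Ideal.Quotient.mk_surjective x
    rw [hf, Ideal.Quotient.eq_zero_iff_mem] at hx
    rw [Ideal.Quotient.eq_zero_iff_mem]
    exact hx
  have hloc : IsLocalizedModule (nonZeroDivisors V) f := by
    refine ⟨fun c => ?_, fun y => ?_, fun {x y} hxy => ⟨1, by rw [hinj hxy]⟩⟩
    · have hc : algebraMap V L c ≠ 0 := IsFractionRing.to_map_ne_zero_of_mem_nonZeroDivisors c.2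
      rw [Module.End.isUnit_iff]
      constructor
      · intro x y hxy
        simp only [Module.algebraMap_end_apply] at hxy
        rw [← IsScalarTower.algebraMap_smul L (c : V) x,
          ← IsScalarTower.algebraMap_smul L (c : V) y] at hxy
        exact smul_right_injective _ hc hxy
      · intro y
        refine ⟨(algebraMap V L c)⁻¹ • y, ?_⟩
        rw [Module.algebraMap_end_apply, ← IsScalarTower.algebraMap_smul L (c : V), smul_smul,
          mul_inv_cancel₀ hc, one_smul]
    · obtain ⟨x, rfl⟩ := Ideal.Quotient.mk_surjective y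
      obtain ⟨c, hc, s, hs⟩ := M.loc x
      refine ⟨⟨Ideal.Quotient.mk _ s, ⟨c, mem_nonZeroDivisors_of_ne_zero hc⟩⟩, ?_⟩
      rw [hf, ← hs, map_mul]
      change (c : V) • (Ideal.Quotient.mk J x) = _
      rw [Algebra.smul_def]
      rfl
  have h1 := Module.finrank_of_isLocalizedModule_of_free L (nonZeroDivisors V) f
  refine ⟨?_, h1⟩
  exact Module.Finite.of_basis ((Module.Free.chooseBasis V (S ⧸ J.comap M.i)).ofIsLocalizedModule L
    (nonZeroDivisors V) f)

end Md

end CV
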