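import Pool.Agent.Lib.MP_f80667_ag.Cv.MdL

/-!
# Functoriality of the models of `Mod`

* `dg_hom`: a semilinear homomorphism which preserves the degrees of a basis preserves the degree.
* `Fb.mp σ : E ⊗[O] R →ₐ[O] E' ⊗[O] R` for `σ : E →ₐ[K] E'`; `Fb.bc_mp`: it preserves the degree.
* `mpS v : V ⊗[O] R →ₐ[O] V' ⊗[O] R` for `v : V →ₐ[O] V'`; `Mod.i_mpS`, `Mod.q_mpS`, `Mod.ut_mpS`.
* `Mod.mdM M`, `Mod.mdO`: the models over the integers of `M` and of `Ω`.
-/

set_option autoImplicit false

open ZC BE PE Polynomial TensorProduct IntermediateField IsLocalRing Module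

namespace CV

section hom

variable {ι K A K' A' : Type} [Field K] [CommRing A] [Algebra K A] [Field K'] [CommRing A']
  [Algebra K' A'] (G : Dg K A) (G' : Dg K' A') (σ : K →+* K') (f : A →+* A')
  (hf : ∀ c x, f (c • x) = σ c • f x) (b : Basis ι K A) (e : ι → ℕ) (he : Function.Injective e)
  (hb : ∀ i, G.d (b i) = e i) (hb' : ∀ i, G'.d (f (b i)) = e i)

include hf he hb hb' in
/-- A semilinear homomorphism which preserves the degrees of a basis preserves the degree. -/
theorem dg_hom (x : A) : G'.d (f x) = G.d x := by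
  suffices h : ∀ (n : ℕ) (x : A), G.d x < n → G'.d (f x) = G.d x by
    obtain ⟨n, hn⟩ : ∃ n : ℕ, G.d x < n := by
      cases hx : G.d x with
      | bot => exact ⟨0, WithBot.bot_lt_coe 0⟩
      | coe a => exact ⟨a + 1, WithBot.coe_lt_coe.2 (Nat.lt_succ_self a)⟩
    exact h n x hn
  intro n
  induction n with
  | zero =>
    intro x hx
    have h0 : x = 0 := by
      by_contra hne
      obtain ⟨a, ha⟩ := WithBot.ne_bot_iff_exists.1 (fun h => hne ((G.bot x).1 h))
      rw [← ha] at hx
      exact absurd (WithBot.coe_lt_coe.1 hx) (Nat.not_lt_zero a)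
    rw [h0, map_zero, G.zero, G'.zero]
  | succ n ih =>
    intro x hx
    by_cases h0 : x = 0
    · rw [h0, map_zero, G.zero, G'.zero]
    obtain ⟨i, c, hc, h1, h2⟩ := bd_lead (b := b) he h0
    rw [← G.d_eq_bd b e he hb] at h1 h2
    have h3 : G.d (x - c • b i) < n := by
      refine lt_of_lt_of_le h2 ?_
      rw [h1] at hx
      exact WithBot.coe_le_coe.2 (Nat.lt_succ_iff.1 (WithBot.coe_lt_coe.1 hx))
    have h4 := ih _ h3
    have h5 : f x = f (x - c • b i) + σ c • f (b i) := by
      rw [← hf, ← map_add, sub_add_cancel]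
    have hσ : σ c ≠ 0 := (map_ne_zero σ).2 hc
    have h6 : G'.d (σ c • f (b i)) = e i := by rw [G'.smul hσ, hb']
    rw [h1, h5]
    rw [← h6]
    refine G'.add_eq ?_
    rw [h6, h4]
    exact h2

end hom

namespace Fb

section mp

variable {O : Type} (R : Type) [CommRing O] [CommRing R] [Algebra O R]
  {K E E' : Type} [Field K] [Algebra O K] [Field E] [Algebra O E] [Algebra K E] [IsScalarTower O K E]
  [Field E'] [Algebra O E'] [Algebra K E'] [IsScalarTower O K E']

/-- the map of the functions on the fibres -/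
noncomputable def mp (σ : E →ₐ[K] E') : E ⊗[O] R →ₐ[O] E' ⊗[O] R :=
  Algebra.TensorProduct.map (σ.restrictScalars O) (AlgHom.id O R)

variable {R}

lemma mp_tmul (σ : E →ₐ[K] E') (c : E) (r : R) : mp R σ (c ⊗ₜ[O] r) = σ c ⊗ₜ r := by
  unfold mp; simp

lemma mp_smul (σ : E →ₐ[K] E') (c : E) (x : E ⊗[O] R) : mp R σ (c • x) = σ c • mp R σ x := by
  rw [Algebra.smul_def, map_mul, Algebra.smul_def, Algebra.TensorProduct.algebraMap_apply, mp_tmul,
    Algebra.TensorProduct.algebraMap_apply]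
  rfl

lemma mp_cancel (σ : E →ₐ[K] E') (y : K ⊗[O] R) :
    mp R σ (Algebra.TensorProduct.cancelBaseChange O K E E R ((1 : E) ⊗ₜ[K] y)) =
      Algebra.TensorProduct.cancelBaseChange O K E' E' R ((1 : E') ⊗ₜ[K] y) := by
  induction y using TensorProduct.induction_on with
  | zero => rw [tmul_zero, map_zero, map_zero, tmul_zero, map_zero]
  | tmul c r =>
    rw [Algebra.TensorProduct.cancelBaseChange_tmul, Algebra.TensorProduct.cancelBaseChange_tmul,
      mp_tmul, map_smul, map_one]
  | add x y hx hy => rw [tmul_add, map_add, map_add, hx, hy, tmul_add, map_add]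

variable {e : ℕ → R} {N : ℕ} (F : Fb O e N K)

/-- The maps of the fibres preserve the degree. -/
theorem bc_mp (σ : E →ₐ[K] E') (x : E ⊗[O] R) : (F.bc E').G.d (mp R σ x) = (F.bc E).G.d x := by
  refine dg_hom (F.bc E).G (F.bc E').G σ.toRingHom (mp R σ).toRingHom
    (fun c x => mp_smul σ c x)
    ((F.G.elB.baseChange E).map
      (Algebra.TensorProduct.cancelBaseChange O K E E R).toLinearEquiv)
    (fun n => (n : ℕ)) Subtype.val_injective (fun j => ?_) (fun j => ?_) x
  · rw [Basis.map_apply, Basis.baseChange_apply]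
    change (F.G.bc E).d ((Algebra.TensorProduct.cancelBaseChange O K E E R).symm
      (Algebra.TensorProduct.cancelBaseChange O K E E R _)) = _
    rw [AlgEquiv.symm_apply_apply, Dg.bc_one_tmul, Dg.elB_d]
  · rw [Basis.map_apply, Basis.baseChange_apply]
    change (F.G.bc E').d ((Algebra.TensorProduct.cancelBaseChange O K E' E' R).symm
      (mp R σ (Algebra.TensorProduct.cancelBaseChange O K E E R _))) = _
    rw [mp_cancel, AlgEquiv.symm_apply_apply, Dg.bc_one_tmul, Dg.elB_d]

end mp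

end Fb

section mpS

variable {O : Type} (R : Type) [CommRing O] [CommRing R] [Algebra O R]
  {V V' : Type} [CommRing V] [CommRing V'] [Algebra O V] [Algebra O V']

/-- the map of the functions on the models -/
noncomputable def mpS (v : V →ₐ[O] V') : V ⊗[O] R →ₐ[O] V' ⊗[O] R :=
  Algebra.TensorProduct.map v (AlgHom.id O R)

variable {R}

lemma mpS_tmul (v : V →ₐ[O] V') (c : V) (r : R) : mpS R v (c ⊗ₜ[O] r) = v c ⊗ₜ r := by
  unfold mpS; simp

lemma mpS_alg (v : V →ₐ[O] V') (c : V) :
    mpS R v (algebraMap V _ c) = algebraMap V' _ (v c) := by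
  rw [Algebra.TensorProduct.algebraMap_apply, mpS_tmul, Algebra.TensorProduct.algebraMap_apply]
  rfl

lemma mpS_smul (v : V →ₐ[O] V') (c : V) (x : V ⊗[O] R) : mpS R v (c • x) = v c • mpS R v x := by
  rw [Algebra.smul_def, map_mul, mpS_alg, Algebra.smul_def]

end mpS

namespace Mod

variable {F : Type} [Field F] {C : Crv F} {O K : Type} [CommRing O] [IsLocalRing O] [Field K]
  [Algebra O K] [Algebra F K] (m : Mod C O K)

section fun2

variable {V L k : Type} [CommRing V] [IsDomain V] [ValuationRing V]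
    [Field L] [Field k] [Algebra V L] [IsFractionRing V L] [Algebra V k] [Algebra O V] [Algebra O L]
    [IsScalarTower O V L] [Algebra O k] [IsScalarTower O V k]
    [Algebra K L] [IsScalarTower O K L] [Algebra (ResidueField O) k]
    [IsScalarTower O (ResidueField O) k]
    {V' L' k' : Type} [CommRing V'] [IsDomain V'] [ValuationRing V']
    [Field L'] [Field k'] [Algebra V' L'] [IsFractionRing V' L'] [Algebra V' k'] [Algebra O V']
    [Algebra O L'] [IsScalarTower O V' L'] [Algebra O k'] [IsScalarTower O V' k']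
    [Algebra K L'] [IsScalarTower O K L'] [Algebra (ResidueField O) k']
    [IsScalarTower O (ResidueField O) k']
    (rs : Function.Surjective (algebraMap V k))
    (rz : ∀ c : V, algebraMap V k c = 0 ↔ c ∈ maximalIdeal V)
    (rs' : Function.Surjective (algebraMap V' k'))
    (rz' : ∀ c : V', algebraMap V' k' c = 0 ↔ c ∈ maximalIdeal V')
    (v : V →ₐ[O] V') (σ : L →ₐ[K] L') (τ : k →ₐ[ResidueField O] k')
    (hσ : ∀ c, σ (algebraMap V L c) = algebraMap V' L' (v c))
    (hτ : ∀ c, τ (algebraMap V k c) = algebraMap V' k' (v c))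

lemma md_i (c : V) (r : m.R) : (m.md rs rz : Md V L k _ _ _).i (c ⊗ₜ r) = algebraMap V L c ⊗ₜ r :=
  Fb.iL_tmul c r

lemma md_q (c : V) (r : m.R) : (m.md rs rz : Md V L k _ _ _).q (c ⊗ₜ r) = algebraMap V k c ⊗ₜ r :=
  Fb.iL_tmul c r

include hσ in
theorem i_mpS (s : V ⊗[O] m.R) : (m.md rs' rz' : Md V' L' k' _ _ _).i (mpS m.R v s) =
    Fb.mp m.R σ ((m.md rs rz : Md V L k _ _ _).i s) := by
  induction s using TensorProduct.induction_on with
  | zero => simp only [map_zero]
  | tmul c r => rw [mpS_tmul, md_i, md_i, Fb.mp_tmul, hσ]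
  | add x y hx hy => simp only [map_add, hx, hy]

include hτ in
theorem q_mpS (s : V ⊗[O] m.R) : (m.md rs' rz' : Md V' L' k' _ _ _).q (mpS m.R v s) =
    Fb.mp m.R τ ((m.md rs rz : Md V L k _ _ _).q s) := by
  induction s using TensorProduct.induction_on with
  | zero => simp only [map_zero]
  | tmul c r => rw [mpS_tmul, md_q, md_q, Fb.mp_tmul, hτ]
  | add x y hx hy => simp only [map_add, hx, hy]

include hσ in
theorem dL_mpS (s : V ⊗[O] m.R) :
    (m.md rs' rz' : Md V' L' k' _ _ _).DL.d ((m.md rs' rz' : Md V' L' k' _ _ _).i (mpS m.R v s)) =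
    (m.md rs rz : Md V L k _ _ _).DL.d ((m.md rs rz : Md V L k _ _ _).i s) := by
  rw [m.i_mpS (L := L) (L' := L') (k := k) (k' := k') rs rz rs' rz' v σ hσ s]
  exact Fb.bc_mp (E := L) (E' := L') m.fK σ _

include hτ in
theorem dk_mpS (s : V ⊗[O] m.R) :
    (m.md rs' rz' : Md V' L' k' _ _ _).Dk.d ((m.md rs' rz' : Md V' L' k' _ _ _).q (mpS m.R v s)) =
    (m.md rs rz : Md V L k _ _ _).Dk.d ((m.md rs rz : Md V L k _ _ _).q s) := by
  rw [m.q_mpS (L := L) (L' := L') (k := k) (k' := k') rs rz rs' rz' v τ hτ s]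
  exact Fb.bc_mp (E := k) (E' := k') m.fk τ _

include hσ hτ in
theorem ut_mpS (s : V ⊗[O] m.R) (n : ℕ) : (m.md rs' rz' : Md V' L' k' _ _ _).Ut (mpS m.R v s) n ↔
    (m.md rs rz : Md V L k _ _ _).Ut s n := by
  unfold Md.Ut
  rw [m.dL_mpS (L := L) (L' := L') (k := k) (k' := k') rs rz rs' rz' v σ hσ s,
    m.dk_mpS (L := L) (L' := L') (k := k) (k' := k') rs rz rs' rz' v τ hτ s]

theorem ut_e (j : ℕ) : (m.md rs rz : Md V L k _ _ _).Ut (1 ⊗ₜ m.e j) (m.N + j) := by
  constructor
  · rw [md_i, map_one]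
    exact (m.fK.bc L).hi j
  · rw [md_q, map_one]
    exact (m.fk.bc k).hi j

/-- Elements of unit type of all degrees `≥ N`. -/
theorem exists_ut (n : ℕ) (hn : m.N ≤ n) : ∃ e, (m.md rs rz : Md V L k _ _ _).Ut e n := by
  obtain ⟨j, rfl⟩ := Nat.exists_eq_add_of_le hn
  exact ⟨_, m.ut_e rs rz j⟩

end fun2

end Mod

end CV
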