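import Pool.Agent.Lib.MP_f80667_ag.Cv.MdC
import Pool.Agent.Lib.MP_f80667_ag.Cv.DgQ

/-! Models over a valuation ring: specialisation of principal ideals and of relations. -/

open IsLocalRing

namespace CV

namespace Md

variable {V L k S SL Sk : Type} [CommRing V] [IsDomain V] [ValuationRing V] [Field L] [Field k]
  [Algebra V L] [IsFractionRing V L] [Algebra V k] [CommRing S] [CommRing SL] [CommRing Sk]
  [Algebra V S] [Algebra L SL] [Algebra k Sk] (M : Md V L k S SL Sk)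

/-- The specialisation of a principal ideal is principal. Proof: `f = c * i s` (`primL`), `q s` is in `sp (f)`, and
`dim Sk / (q s) = Dk.d (q s) ≤ DL.d f = dim SL / (f) = dim Sk / sp (f)`. -/
theorem sp_span [IsDedekindDomain SL] [IsDedekindDomain Sk] {f : SL} (hf : f ≠ 0)
    (hJ : M.Int (Ideal.span {f})) : ∃ g : Sk, g ≠ 0 ∧ M.sp (Ideal.span {f}) = Ideal.span {g} := by
  obtain ⟨c, s, hc, hfs, hq⟩ := M.primL hf
  refine ⟨M.q s, hq, ?_⟩
  have hc' : IsUnit (algebraMap L SL c) := (Ne.isUnit hc).map _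
  have hspan : Ideal.span {f} = Ideal.span {M.i s} := by
    rw [hfs, mul_comm]
    exact Ideal.span_singleton_mul_right_unit hc' _
  have hmem : M.q s ∈ M.sp (Ideal.span {f}) := by
    rw [M.mem_sp]
    exact ⟨s, by rw [hspan]; exact Ideal.mem_span_singleton_self _, rfl⟩
  obtain ⟨m, hm⟩ := M.DL.exists_nat hf
  obtain ⟨n, hn⟩ := M.Dk.exists_nat hq
  have hdf : M.DL.d f = M.DL.d (M.i s) := by
    rw [hfs, M.DL.mul, M.DL.d_cst hc, zero_add]
  have hle := M.le s
  rw [hn, ← hdf, hm, Nat.cast_le] at hle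
  have hfin : Module.Finite k (Sk ⧸ Ideal.span {M.q s}) := M.Dk.finite_quot hq
  refine (eq_of_colen (K := k) ((Ideal.span_singleton_le_iff_mem _).2 hmem) ?_).symm
  rw [M.Dk.finrank_quot hn, M.finrank_sp hJ, M.DL.finrank_quot hm]
  exact hle

/-- **Specialisation of a relation.** Proof: `u` of unit type in `J'`, `(u) = J' J''`; `f J J'' = (g u)`, so `J J''` is principal;
specialise both and cancel `sp J''`. -/
theorem sp_rel [IsDedekindDomain SL] [IsDedekindDomain Sk] {J J' : Ideal SL} (hJ : M.Int J)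
    (hJ' : M.Int J') {f g : SL} (hf : f ≠ 0) (hg : g ≠ 0)
    (h : Ideal.span {f} * J = Ideal.span {g} * J') : ∃ f' g' : Sk, f' ≠ 0 ∧ g' ≠ 0 ∧
      Ideal.span {f'} * M.sp J = Ideal.span {g'} * M.sp J' := by
  obtain ⟨u, n, hu, huJ⟩ := id hJ'
  have hu0 : M.i u ≠ 0 := hu.ne.2.1
  obtain ⟨J'', hJ''⟩ := Ideal.dvd_iff_le.2 ((Ideal.span_singleton_le_iff_mem _).2 huJ)
  have hI'' : M.Int J'' := by
    refine ⟨u, n, hu, ?_⟩
    have h1 : M.i u ∈ Ideal.span {M.i u} := Ideal.mem_span_singleton_self _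
    rw [hJ''] at h1
    exact Ideal.mul_le_right h1
  have h1 : Ideal.span {f} * (J * J'') = Ideal.span {g * M.i u} := by
    rw [← mul_assoc, h, mul_assoc, ← hJ'', Ideal.span_singleton_mul_span_singleton]
  obtain ⟨r, hr⟩ : ∃ r, g * M.i u = f * r := by
    have h2 : g * M.i u ∈ Ideal.span {f} := by
      have h3 : g * M.i u ∈ Ideal.span {g * M.i u} := Ideal.mem_span_singleton_self _
      rw [← h1] at h3
      exact Ideal.mul_le_left h3
    obtain ⟨r, hr⟩ := Ideal.mem_span_singleton'.1 h2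
    exact ⟨r, by rw [← hr, mul_comm]⟩
  have hr0 : r ≠ 0 := by
    rintro rfl
    rw [mul_zero] at hr
    exact mul_ne_zero hg hu0 hr
  have hfs : Ideal.span {f} ≠ ⊥ := by
    rwa [Ne, Ideal.span_singleton_eq_bot]
  have h4 : J * J'' = Ideal.span {r} := by
    rw [hr, ← Ideal.span_singleton_mul_span_singleton] at h1
    exact mul_left_cancel₀ hfs h1
  obtain ⟨r', hr', hsr⟩ := M.sp_span hr0 (by rw [← h4]; exact hJ.mul hI'')
  obtain ⟨u', hu', hsu⟩ := M.sp_span hu0 (by rw [hJ'']; exact hJ'.mul hI'')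
  rw [← h4, M.sp_mul hJ hI''] at hsr
  rw [hJ'', M.sp_mul hJ' hI''] at hsu
  refine ⟨u', r', hu', hr', ?_⟩
  apply mul_right_cancel₀ hI''.ne_bot.2
  rw [mul_assoc, hsr, mul_assoc, hsu, mul_comm]

end Md

end CV
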