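import Pool.Agent.Lib.MP_f80667_ag.Cv.MdO
import Pool.Agent.Lib.MP_f80667_ag.Cv.Defs

/-!
# Base change of `Mod` to a model over a valuation ring

* `Dg.congr`: transport along an isomorphism.
* `Fb O e N E`: a degree function on the fibre `E ⊗[O] R` with `d (1 ⊗ e j) = N + j`;
  `Fb.bc`: base change to a field extension `E'` of `E` (`Fb.bc_d`: same degree of `1 ⊗ r`).
* `Fb.md`: for a valuation ring `V` over `O` with fraction field `L` and residue field `k`, a basis of
  `R` over `O` and the two fibres over `L` and `k`: `Md V L k (V ⊗[O] R) (L ⊗[O] R) (k ⊗[O] R)`.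
* `Mod.fK`, `Mod.fk`: the two fibres of `Mod C O K`; `Mod.md`: the model for `O → V` local, `K → L`,
  `κ → k`; `Mod.mdK`: the model for `V` over `K` (for instance `Ω[[τ]]`, `L = Ω((τ))`, `k = Ω`).
-/

set_option autoImplicit false

open IsLocalRing Module TensorProduct

namespace CV

/-- transport of a degree function -/
noncomputable def Dg.congr {K A B : Type} [Field K] [CommRing A] [Algebra K A] [CommRing B]
    [Algebra K B] (G : Dg K B) (e : A ≃ₐ[K] B) : Dg K A where
  d x := G.d (e x)
  bot x := by rw [G.bot, EmbeddingLike.map_eq_zero_iff]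
  mul x y := by rw [map_mul, G.mul]
  add x y := by rw [map_add]; exact G.add _ _
  lead x y hy h := by
    obtain ⟨c, hc⟩ := G.lead (e x) (e y) ((EmbeddingLike.map_ne_zero_iff).2 hy) h
    exact ⟨c, by rwa [map_sub, map_smul]⟩
  tail := by
    obtain ⟨n₀, h⟩ := G.tail
    refine ⟨n₀, fun n hn => ?_⟩
    obtain ⟨x, hx⟩ := h n hn
    exact ⟨e.symm x, by rw [AlgEquiv.apply_symm_apply, hx]⟩

@[simp] lemma Dg.congr_d {K A B : Type} [Field K] [CommRing A] [Algebra K A] [CommRing B]
    [Algebra K B] (G : Dg K B) (e : A ≃ₐ[K] B) (x : A) : (G.congr e).d x = G.d (e x) := rfl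

/-- A fibre with the tail `e`. -/
structure Fb (O : Type) {R : Type} [CommRing O] [CommRing R] [Algebra O R] (e : ℕ → R) (N : ℕ) (E : Type)
    [Field E] [Algebra O E] where
  /-- the degree function -/
  G : Dg E (E ⊗[O] R)
  hi : ∀ j, G.d (1 ⊗ₜ e j) = (N + j : ℕ)

namespace Fb

variable {O R : Type} [CommRing O] [CommRing R] [Algebra O R] {e : ℕ → R} {N : ℕ}

section bc

variable {E : Type} [Field E] [Algebra O E] (F : Fb O e N E) (E' : Type) [Field E'] [Algebra O E']
  [Algebra E E'] [IsScalarTower O E E']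

/-- base change of a fibre -/
noncomputable def bc : Fb O e N E' where
  G := (F.G.bc E').congr (Algebra.TensorProduct.cancelBaseChange O E E' E' R).symm
  hi j := by
    rw [Dg.congr_d]
    have h : (Algebra.TensorProduct.cancelBaseChange O E E' E' R).symm ((1 : E') ⊗ₜ[O] e j) =
        (1 : E') ⊗ₜ[E] ((1 : E) ⊗ₜ[O] e j) := by
      rw [AlgEquiv.symm_apply_eq]; simp
    rw [h, Dg.bc_one_tmul, F.hi]

lemma bc_d (r : R) : (F.bc E').G.d ((1 : E') ⊗ₜ[O] r) = F.G.d ((1 : E) ⊗ₜ[O] r) := by
  change (F.G.bc E').d ((Algebra.TensorProduct.cancelBaseChange O E E' E' R).symm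
    ((1 : E') ⊗ₜ[O] r)) = _
  have h : (Algebra.TensorProduct.cancelBaseChange O E E' E' R).symm ((1 : E') ⊗ₜ[O] r) =
      (1 : E') ⊗ₜ[E] ((1 : E) ⊗ₜ[O] r) := by
    rw [AlgEquiv.symm_apply_eq]; simp
  rw [h, Dg.bc_one_tmul]

end bc

section iL

/-- the map to the generic fibre -/
noncomputable def iL (O R V L : Type) [CommRing O] [CommRing R] [Algebra O R] [CommRing V] [Field L]
    [Algebra V L] [Algebra O V] [Algebra O L] [IsScalarTower O V L] : V ⊗[O] R →+* L ⊗[O] R :=
  (Algebra.TensorProduct.map (IsScalarTower.toAlgHom O V L) (AlgHom.id O R)).toRingHom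

variable {V L : Type} [CommRing V] [Field L] [Algebra V L] [Algebra O V] [Algebra O L]
  [IsScalarTower O V L]

lemma iL_tmul (v : V) (r : R) : iL O R V L (v ⊗ₜ r) = algebraMap V L v ⊗ₜ r := by
  unfold iL; simp

lemma iL_alg (v : V) : iL O R V L (algebraMap V (V ⊗[O] R) v) =
    algebraMap L (L ⊗[O] R) (algebraMap V L v) := by
  rw [Algebra.TensorProduct.algebraMap_apply, Algebra.TensorProduct.algebraMap_apply, iL_tmul]
  simp

end iL

section md

variable {ι V L k : Type} [CommRing V] [IsDomain V] [ValuationRing V]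
    [Field L] [Field k] [Algebra V L] [IsFractionRing V L] [Algebra V k] [Algebra O V] [Algebra O L]
    [IsScalarTower O V L] [Algebra O k] [IsScalarTower O V k]

/-- The model over a valuation ring. -/
noncomputable def md (b : Basis ι O R) (FL : Fb O e N L) (Fk : Fb O e N k)
    (res_surj : Function.Surjective (algebraMap V k))
    (res_zero : ∀ c : V, algebraMap V k c = 0 ↔ c ∈ maximalIdeal V) :
    Md V L k (V ⊗[O] R) (L ⊗[O] R) (k ⊗[O] R) :=
  Md.ofBases res_surj res_zero (b.baseChange V) (b.baseChange L) (b.baseChange k) (iL O R V L)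
    (iL O R V k) iL_alg iL_alg (by
      intro j
      rw [Basis.baseChange_apply, Basis.baseChange_apply, iL_tmul, map_one]) (by
      intro j
      rw [Basis.baseChange_apply, Basis.baseChange_apply, iL_tmul, map_one]) FL.G Fk.G (by
      refine ⟨N, fun n hn => ?_⟩
      obtain ⟨j, rfl⟩ := Nat.exists_eq_add_of_le hn
      refine ⟨1 ⊗ₜ e j, ?_, ?_⟩
      · rw [iL_tmul, map_one, FL.hi]
      · rw [iL_tmul, map_one, Fk.hi])

end md

end Fb

namespace Mod

variable {F : Type} [Field F] {C : Crv F} {O K : Type} [CommRing O] [IsLocalRing O] [Field K]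
  [Algebra O K] [Algebra F K] (m : Mod C O K)

/-- the tail -/
noncomputable def e (j : ℕ) : m.R := m.b (.inr j)

/-- the generic fibre -/
noncomputable def fK : Fb O m.e m.N K where
  G := m.Gg
  hi j := (m.hi j).1

/-- the special fibre -/
noncomputable def fk : Fb O m.e m.N (ResidueField O) where
  G := m.Gs
  hi j := (m.hi j).2

section arith

variable {V L k : Type} [CommRing V] [IsDomain V] [ValuationRing V]
    [Field L] [Field k] [Algebra V L] [IsFractionRing V L] [Algebra V k] [Algebra O V] [Algebra O L]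
    [IsScalarTower O V L] [Algebra O k] [IsScalarTower O V k]
    [Algebra K L] [IsScalarTower O K L]

/-- The model over a valuation ring `V` with `K → L` and `κ → k`. -/
noncomputable def md [Algebra (ResidueField O) k] [IsScalarTower O (ResidueField O) k]
    (res_surj : Function.Surjective (algebraMap V k))
    (res_zero : ∀ c : V, algebraMap V k c = 0 ↔ c ∈ maximalIdeal V) :
    Md V L k (V ⊗[O] m.R) (L ⊗[O] m.R) (k ⊗[O] m.R) :=
  Fb.md m.b (m.fK.bc L) (m.fk.bc k) res_surj res_zero

/-- The model over a valuation ring `V` which contains `K`. -/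
noncomputable def mdK [Algebra K k] [IsScalarTower O K k]
    (res_surj : Function.Surjective (algebraMap V k))
    (res_zero : ∀ c : V, algebraMap V k c = 0 ↔ c ∈ maximalIdeal V) :
    Md V L k (V ⊗[O] m.R) (L ⊗[O] m.R) (k ⊗[O] m.R) :=
  Fb.md m.b (m.fK.bc L) (m.fK.bc k) res_surj res_zero

end arith

end Mod

end CV
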