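import Pool.Agent.Lib.MP_f80667_ag.Cv.MdF
import Pool.Agent.Lib.MP_f80667_ag.Cv.DgQ

/-!
# Bases of a model over a discrete valuation ring

Let `M : Md V L k S SL Sk`, `V` a discrete valuation ring, with elements of unit type of every degree
`n ≥ N`, and `u` of unit type of degree `a > 0`, `a ≥ N`. Then `S` is free over `V[u]` with a finite
basis: `Md.exists_basis_pow` gives `m`, `β : Fin m → S` and a basis `B` of `S` over `V` indexed by
`Fin m × ℕ` with `B (μ, j) = β μ * u ^ j`.
-/

set_option autoImplicit false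

open IsLocalRing Module

namespace CV

namespace Md

variable {V L k S SL Sk : Type} [CommRing V] [IsDomain V] [ValuationRing V] [Field L] [Field k]
  [Algebra V L] [IsFractionRing V L] [Algebra V k] [CommRing S] [CommRing SL] [CommRing Sk]
  [Algebra V S] [Algebra L SL] [Algebra k Sk] (M : Md V L k S SL Sk)

include M in
lemma smul_cancel {c : V} (hc : c ≠ 0) {s t : S} (h : c • s = c • t) : s = t :=
  M.alg_cancel hc (by rwa [Algebra.smul_def, Algebra.smul_def] at h)

/-- the elements of degree less than `N` -/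
def Lo (N : ℕ) : Submodule V S where
  carrier := {s | M.DL.d (M.i s) < N}
  add_mem' := by
    intro a b ha hb
    change M.DL.d (M.i (a + b)) < N
    rw [map_add]
    exact (M.DL.add _ _).trans_lt (max_lt ha hb)
  zero_mem' := by
    change M.DL.d (M.i 0) < N
    rw [map_zero, M.DL.zero]
    exact WithBot.bot_lt_coe _
  smul_mem' := by
    intro c s hs
    change M.DL.d (M.i (c • s)) < N
    by_cases hc : c = 0
    · rw [hc, zero_smul, map_zero, M.DL.zero]
      exact WithBot.bot_lt_coe _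
    · rw [Algebra.smul_def, M.d_alg hc]
      exact hs

lemma mem_Lo {N : ℕ} {s : S} : s ∈ M.Lo N ↔ M.DL.d (M.i s) < N := Iff.rfl

/-- reduction modulo `u` -/
lemma red_u {N : ℕ} (hN : ∀ n, N ≤ n → ∃ e, M.Ut e n) {u : S} {a : ℕ} (hu : M.Ut u a) (s : S) :
    ∃ t, M.DL.d (M.i (s - u * t)) < ((N + a : ℕ) : WithBot ℕ) := by
  by_cases h0 : M.i s = 0
  · refine ⟨0, ?_⟩
    rw [mul_zero, sub_zero, h0, M.DL.zero]
    exact WithBot.bot_lt_coe _
  obtain ⟨n, hn⟩ := M.DL.exists_nat h0
  induction n using Nat.strong_induction_on generalizing s with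
  | _ n ih =>
    by_cases h1 : n < N + a
    · refine ⟨0, ?_⟩
      rw [mul_zero, sub_zero, hn]
      exact_mod_cast h1
    · obtain ⟨e, he⟩ := hN (n - a) (by omega)
      have heu : M.Ut (u * e) n := by
        have h2 := hu.mul he
        rwa [show a + (n - a) = n by omega] at h2
      obtain ⟨c, hc⟩ := M.lead_V hn heu
      by_cases h2 : M.i (s - algebraMap V S c * (u * e)) = 0
      · refine ⟨algebraMap V S c * e, ?_⟩
        rw [show s - u * (algebraMap V S c * e) = s - algebraMap V S c * (u * e) by ring, h2,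
          M.DL.zero]
        exact WithBot.bot_lt_coe _
      · obtain ⟨l, hl⟩ := M.DL.exists_nat h2
        rw [hl] at hc
        obtain ⟨t, ht⟩ := ih l (by exact_mod_cast hc) _ h2 hl
        refine ⟨algebraMap V S c * e + t, ?_⟩
        rw [show s - u * (algebraMap V S c * e + t) = s - algebraMap V S c * (u * e) - u * t by ring]
        exact ht

/-- the span of the elements of degree less than `N` and of the multiples of `u` -/
def Wu (N : ℕ) (u : S) : Submodule V S := M.Lo N ⊔ (LinearMap.range (LinearMap.mulLeft V u))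

lemma mem_Wu {N : ℕ} {u s : S} : s ∈ M.Wu N u ↔ ∃ x ∈ M.Lo N, ∃ t, x + u * t = s := by
  unfold Wu
  rw [Submodule.mem_sup]
  constructor
  · rintro ⟨x, hx, y, ⟨t, rfl⟩, rfl⟩
    exact ⟨x, hx, t, rfl⟩
  · rintro ⟨x, hx, t, rfl⟩
    exact ⟨x, hx, _, ⟨t, rfl⟩, rfl⟩

/-- divisibility by a constant -/
lemma dvd_of {c d : V} (hc : c ≠ 0) (hd : d ≠ 0) {s z : S} (hz : M.q z ≠ 0)
    (h : algebraMap V S c * s = algebraMap V S d * z) : ∃ g, s = algebraMap V S g * z := by
  rcases ValuationRing.dvd_total c d with ⟨g, rfl⟩ | ⟨g, rfl⟩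
  · refine ⟨g, M.alg_cancel hc ?_⟩
    rw [h, map_mul]; ring
  · have h1 : algebraMap V S g * s = z := M.alg_cancel hd (by rw [← h, map_mul]; ring)
    by_cases hg : g ∈ maximalIdeal V
    · exfalso
      apply hz
      rw [← h1]
      exact M.q_alg_mul hg s
    · have hg' : IsUnit g := by
        by_contra h2
        exact hg ((IsLocalRing.mem_maximalIdeal g).2 h2)
      obtain ⟨w, rfl⟩ := hg'
      refine ⟨((w⁻¹ : Vˣ) : V), ?_⟩
      rw [← h1, ← mul_assoc, ← map_mul, Units.inv_mul, map_one, one_mul]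

lemma q_ne {N : ℕ} {u : S} {a : ℕ} (hu : M.Ut u a) (haN : N ≤ a) {x t : S} (hx : x ∈ M.Lo N)
    (h : M.q x ≠ 0 ∨ M.q t ≠ 0) : M.q (x + u * t) ≠ 0 := by
  have hx' : M.Dk.d (M.q x) < N := (M.le x).trans_lt hx
  by_cases ht : M.q t = 0
  · rw [map_add, map_mul, ht, mul_zero, add_zero]
    rcases h with h | h
    · exact h
    · exact absurd ht h
  · obtain ⟨n, hn⟩ := M.Dk.exists_nat ht
    have h1 : M.Dk.d (M.q (u * t)) = ((a + n : ℕ) : WithBot ℕ) := by
      rw [map_mul, M.Dk.mul, hu.2, hn, Nat.cast_add]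
    have h2 : M.Dk.d (M.q x) < M.Dk.d (M.q (u * t)) := by
      rw [h1]
      refine hx'.trans_le ?_
      exact_mod_cast (by omega : N ≤ a + n)
    intro h3
    rw [map_add] at h3
    have h4 := M.Dk.add_eq h2
    rw [h3, M.Dk.zero, h1] at h4
    exact WithBot.bot_ne_coe h4

lemma Wu_sat {N : ℕ} {u : S} {a : ℕ} (hu : M.Ut u a) (haN : N ≤ a) {c : V} (hc : c ≠ 0) {s : S}
    (h : c • s ∈ M.Wu N u) : s ∈ M.Wu N u := by
  rw [mem_Wu] at h ⊢
  obtain ⟨x, hx, t, h⟩ := h
  rw [Algebra.smul_def] at h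
  by_cases hx0 : x = 0
  · by_cases ht0 : t = 0
    · subst hx0; subst ht0
      rw [mul_zero, add_zero] at h
      refine ⟨0, zero_mem _, 0, ?_⟩
      rw [mul_zero, add_zero]
      exact (M.alg_cancel hc (by rw [← h, mul_zero])).symm
    · obtain ⟨d, t', rfl, ht'⟩ := M.prim t ht0
      subst hx0
      have hd : d ≠ 0 := by
        rintro rfl
        rw [map_zero, zero_mul] at ht0
        exact ht0 rfl
      have h1 := M.q_ne hu haN (zero_mem (M.Lo N)) (Or.inr ht')
      obtain ⟨g, hg⟩ := M.dvd_of hc hd h1 (s := s) (by rw [← h]; ring)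
      refine ⟨0, zero_mem _, algebraMap V S g * t', ?_⟩
      rw [hg]; ring
  · obtain ⟨d, x', rfl, hx'⟩ := M.prim x hx0
    have hd : d ≠ 0 := by
      rintro rfl
      rw [map_zero, zero_mul] at hx0
      exact hx0 rfl
    have hx1 : x' ∈ M.Lo N := by
      rw [mem_Lo, M.d_alg hd] at hx
      exact hx
    by_cases ht0 : t = 0
    · subst ht0
      have h1 := M.q_ne hu haN hx1 (t := 0) (Or.inl hx')
      obtain ⟨g, hg⟩ := M.dvd_of hc hd h1 (s := s) (by rw [← h]; ring)
      refine ⟨algebraMap V S g * x', ?_, 0, ?_⟩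
      · rw [← Algebra.smul_def]; exact Submodule.smul_mem _ _ hx1
      · rw [hg]; ring
    · obtain ⟨d', t', rfl, ht'⟩ := M.prim t ht0
      have hd' : d' ≠ 0 := by
        rintro rfl
        rw [map_zero, zero_mul] at ht0
        exact ht0 rfl
      rcases ValuationRing.dvd_total d d' with ⟨g, rfl⟩ | ⟨g, rfl⟩
      · have h1 := M.q_ne hu haN hx1 (t := algebraMap V S g * t') (Or.inl hx')
        obtain ⟨f, hf⟩ := M.dvd_of hc hd h1 (s := s) (by rw [← h, map_mul]; ring)
        refine ⟨algebraMap V S f * x', ?_, algebraMap V S f * (algebraMap V S g * t'), ?_⟩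
        · rw [← Algebra.smul_def]; exact Submodule.smul_mem _ _ hx1
        · rw [hf]; ring
      · have hx2 : algebraMap V S g * x' ∈ M.Lo N := by
          rw [← Algebra.smul_def]; exact Submodule.smul_mem _ _ hx1
        have h1 := M.q_ne hu haN hx2 (t := t') (Or.inr ht')
        obtain ⟨f, hf⟩ := M.dvd_of hc hd' h1 (s := s) (by rw [← h, map_mul]; ring)
        refine ⟨algebraMap V S f * (algebraMap V S g * x'), ?_, algebraMap V S f * t', ?_⟩
        · rw [← Algebra.smul_def]; exact Submodule.smul_mem _ _ hx2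
        · rw [hf]; ring

section dvr

variable [IsPrincipalIdealRing V]

include M in
lemma torsionFree : Module.IsTorsionFree V S := by
  rw [Module.isTorsionFree_iff_smul_eq_zero]
  intro c s h
  by_cases hc : c = 0
  · exact Or.inl hc
  · exact Or.inr (M.smul_cancel hc (by rw [h, smul_zero]))

lemma finite_Lo (N : ℕ) : Module.Finite V (M.Lo N) := by
  obtain ⟨t, ht⟩ := M.fin N
  have h1 : M.Lo N ≤ Submodule.span V (t : Set S) := fun s hs => ht s (le_of_lt hs)
  have h2 : Module.Finite V (Submodule.span V (t : Set S)) := Module.Finite.span_finset V t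
  exact Module.Finite.of_injective (Submodule.inclusion h1) (Submodule.inclusion_injective h1)

lemma free_Lo (N : ℕ) : Module.Free V (M.Lo N) := by
  have htf := M.torsionFree
  have := M.finite_Lo N
  have h : Module.IsTorsionFree V (M.Lo N) := by
    rw [Module.isTorsionFree_iff_smul_eq_zero]
    intro c s h
    rcases (Module.isTorsionFree_iff_smul_eq_zero.1 htf) c (s : S) (congrArg Subtype.val h) with h | h
    · exact Or.inl h
    · exact Or.inr (Subtype.ext h)
  exact Module.free_of_finite_type_torsion_free'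

lemma finite_quot_Wu {N : ℕ} (hN : ∀ n, N ≤ n → ∃ e, M.Ut e n) {u : S} {a : ℕ} (hu : M.Ut u a) :
    Module.Finite V (S ⧸ M.Wu N u) := by
  have h1 := M.finite_Lo (N + a)
  refine Module.Finite.of_surjective ((M.Wu N u).mkQ.comp (M.Lo (N + a)).subtype) ?_
  intro y
  obtain ⟨s, rfl⟩ := Submodule.mkQ_surjective _ y
  obtain ⟨t, ht⟩ := M.red_u hN hu s
  refine ⟨⟨s - u * t, ht⟩, ?_⟩
  rw [LinearMap.comp_apply, ← sub_eq_zero, ← map_sub, Submodule.mkQ_apply,
    Submodule.Quotient.mk_eq_zero]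
  rw [Submodule.subtype_apply]
  refine M.mem_Wu.2 ⟨0, zero_mem _, -t, ?_⟩
  ring

lemma free_quot_Wu {N : ℕ} (hN : ∀ n, N ≤ n → ∃ e, M.Ut e n) {u : S} {a : ℕ} (hu : M.Ut u a)
    (haN : N ≤ a) : Module.Free V (S ⧸ M.Wu N u) := by
  have := M.finite_quot_Wu hN hu
  have h : Module.IsTorsionFree V (S ⧸ M.Wu N u) := by
    rw [Module.isTorsionFree_iff_smul_eq_zero]
    intro c y h
    obtain ⟨s, rfl⟩ := Submodule.mkQ_surjective _ y
    by_cases hc : c = 0
    · exact Or.inl hc
    · right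
      rw [← map_smul, Submodule.mkQ_apply, Submodule.Quotient.mk_eq_zero] at h
      rw [Submodule.mkQ_apply, Submodule.Quotient.mk_eq_zero]
      exact M.Wu_sat hu haN hc h
  exact Module.free_of_finite_type_torsion_free'

/-- a finite family which is a basis of `S` over `V[u]`: first properties -/
lemma exists_famU {N : ℕ} (hN : ∀ n, N ≤ n → ∃ e, M.Ut e n) {u : S} {a : ℕ} (hu : M.Ut u a)
    (haN : N ≤ a) : ∃ (h g : ℕ) (β : Fin h ⊕ Fin g → S),
      (∀ (c : Fin h ⊕ Fin g → V) (t : S), ∑ μ, c μ • β μ = u * t → (∀ μ, c μ = 0) ∧ t = 0) ∧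
      (∀ s ∈ M.Lo N, ∃ c : Fin h ⊕ Fin g → V, s = ∑ μ, c μ • β μ) ∧
      (∀ s, ∃ (c : Fin h ⊕ Fin g → V) (t : S), s = ∑ μ, c μ • β μ + u * t) ∧
      (∀ μ, M.DL.d (M.i (β μ)) < ((N + a : ℕ) : WithBot ℕ)) := by
  classical
  have := M.finite_Lo N
  have := M.free_Lo N
  have := M.finite_quot_Wu hN hu
  have := M.free_quot_Wu hN hu haN
  let v := Module.finBasis V (M.Lo N)
  let w' := Module.finBasis V (S ⧸ M.Wu N u)
  have hw : ∀ j, ∃ w : S, (M.Wu N u).mkQ w = w' j ∧ M.DL.d (M.i w) < ((N + a : ℕ) : WithBot ℕ) := by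
    intro j
    obtain ⟨w, hw⟩ := Submodule.mkQ_surjective _ (w' j)
    obtain ⟨t, ht⟩ := M.red_u hN hu w
    refine ⟨w - u * t, ?_, ht⟩
    rw [← hw, ← sub_eq_zero, ← map_sub, Submodule.mkQ_apply, Submodule.Quotient.mk_eq_zero]
    exact M.mem_Wu.2 ⟨0, zero_mem _, -t, by ring⟩
  choose w hw1 hw2 using hw
  refine ⟨_, _, Sum.elim (fun i => (v i : S)) w, ?_, ?_, ?_, ?_⟩
  · intro c t h
    rw [Fintype.sum_sum_type] at h
    simp only [Sum.elim_inl, Sum.elim_inr] at h
    have h1 : ∑ i, c (Sum.inl i) • ((v i : M.Lo N) : S) =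
        ((∑ i, c (Sum.inl i) • v i : M.Lo N) : S) := by
      simp
    have h2 : ∀ j, c (Sum.inr j) = 0 := by
      have h3 := congrArg (M.Wu N u).mkQ h
      rw [map_add] at h3
      have h4 : (M.Wu N u).mkQ (∑ i, c (Sum.inl i) • ((v i : M.Lo N) : S)) = 0 := by
        rw [Submodule.mkQ_apply, Submodule.Quotient.mk_eq_zero, h1]
        exact M.mem_Wu.2 ⟨_, Subtype.property _, 0, by ring⟩
      have h5 : (M.Wu N u).mkQ (u * t) = 0 := by
        rw [Submodule.mkQ_apply, Submodule.Quotient.mk_eq_zero]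
        exact M.mem_Wu.2 ⟨0, zero_mem _, t, by ring⟩
      rw [h4, h5, zero_add, map_sum] at h3
      simp only [map_smul, hw1] at h3
      exact fun j => (Fintype.linearIndependent_iff.1 w'.linearIndependent) _ h3 j
    have h6 : ∑ j, c (Sum.inr j) • w j = 0 :=
      Finset.sum_eq_zero (fun j _ => by rw [h2 j, zero_smul])
    rw [h6, add_zero, h1] at h
    have ht : t = 0 := by
      by_contra ht
      have h7 : M.i t ≠ 0 := fun e => ht (M.inj (by rw [e, map_zero]))
      obtain ⟨n, hn⟩ := M.DL.exists_nat h7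
      have h8 : M.DL.d (M.i ((∑ i, c (Sum.inl i) • v i : M.Lo N) : S)) < N :=
        (Subtype.property (∑ i, c (Sum.inl i) • v i : M.Lo N))
      rw [h, map_mul, M.DL.mul, hu.1, hn, ← Nat.cast_add] at h8
      have h9 : a + n < N := by exact_mod_cast h8
      omega
    refine ⟨?_, ht⟩
    rw [ht, mul_zero] at h
    have h7 : (∑ i, c (Sum.inl i) • v i : M.Lo N) = 0 := Subtype.ext h
    have h8 := (Fintype.linearIndependent_iff.1 v.linearIndependent) _ h7
    rintro (i | j)
    · exact h8 i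
    · exact h2 j
  · intro s hs
    refine ⟨Sum.elim (fun i => v.repr ⟨s, hs⟩ i) (fun _ => 0), ?_⟩
    rw [Fintype.sum_sum_type]
    simp only [Sum.elim_inl, Sum.elim_inr, zero_smul, Finset.sum_const_zero, add_zero]
    have := congrArg Subtype.val (v.sum_repr ⟨s, hs⟩)
    simp only [Submodule.coe_sum, Submodule.coe_smul] at this
    exact this.symm
  · intro s
    have h1 := w'.sum_repr ((M.Wu N u).mkQ s)
    have h2 : s - ∑ j, (w'.repr ((M.Wu N u).mkQ s) j) • w j ∈ M.Wu N u := by
      rw [← Submodule.Quotient.mk_eq_zero, ← Submodule.mkQ_apply, map_sub, map_sum]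
      simp only [map_smul, hw1]
      rw [h1, sub_self]
    obtain ⟨x, hx, t, h3⟩ := M.mem_Wu.1 h2
    refine ⟨Sum.elim (fun i => v.repr ⟨x, hx⟩ i) (fun j => w'.repr ((M.Wu N u).mkQ s) j), t, ?_⟩
    rw [Fintype.sum_sum_type]
    simp only [Sum.elim_inl, Sum.elim_inr]
    have h4 := congrArg Subtype.val (v.sum_repr ⟨x, hx⟩)
    simp only [Submodule.coe_sum, Submodule.coe_smul] at h4
    rw [h4]
    rw [eq_sub_iff_add_eq] at h3
    conv_lhs => rw [← h3]
    ring
  · rintro (i | j)
    · have h1 : M.DL.d (M.i (v i : S)) < N := (v i).2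
      exact h1.trans_le (by exact_mod_cast Nat.le_add_right N a)
    · exact hw2 j

/-- `S` is free over `V[u]`. -/
theorem exists_basis_pow {N : ℕ} (hN : ∀ n, N ≤ n → ∃ e, M.Ut e n) {u : S} {a : ℕ} (hu : M.Ut u a)
    (haN : N ≤ a) (ha : 0 < a) : ∃ (m : ℕ) (β : Fin m → S) (B : Basis (Fin m × ℕ) V S),
      ∀ μ j, B (μ, j) = β μ * u ^ j := by
  classical
  obtain ⟨h, g, β, h1, h2, h3, h4⟩ := M.exists_famU hN hu haN
  let eq := (finSumFinEquiv (m := h) (n := g))
  -- the family
  let f : (Fin h ⊕ Fin g) × ℕ → S := fun p => β p.1 * u ^ p.2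
  have hu0 : u ≠ 0 := (hu.ne).1
  -- independence
  have hind : ∀ (K : ℕ) (c : ℕ → Fin h ⊕ Fin g → V),
      ∑ j ∈ Finset.range K, ∑ μ, c j μ • (β μ * u ^ j) = 0 → ∀ j < K, ∀ μ, c j μ = 0 := by
    intro K
    induction K with
    | zero => intro c _ j hj; exact absurd hj (Nat.not_lt_zero j)
    | succ K ih =>
      intro c hc
      rw [Finset.sum_range_succ'] at hc
      have h5 : ∑ j ∈ Finset.range K, ∑ μ, c (j + 1) μ • (β μ * u ^ (j + 1)) =
          u * ∑ j ∈ Finset.range K, ∑ μ, c (j + 1) μ • (β μ * u ^ j) := by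
        rw [Finset.mul_sum]
        refine Finset.sum_congr rfl fun j _ => ?_
        rw [Finset.mul_sum]
        refine Finset.sum_congr rfl fun μ _ => ?_
        rw [mul_smul_comm]
        congr 1
        ring
      have h6 : ∑ μ, c 0 μ • (β μ * u ^ 0) = ∑ μ, c 0 μ • β μ := by simp
      rw [h5, h6] at hc
      have h7 := h1 (c 0) (-(∑ j ∈ Finset.range K, ∑ μ, c (j + 1) μ • (β μ * u ^ j))) (by
        rw [mul_neg, eq_neg_iff_add_eq_zero, add_comm]; exact hc)
      have h8 := ih (fun j μ => c (j + 1) μ) (neg_eq_zero.1 h7.2)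
      intro j hj μ
      rcases j with _ | j
      · exact h7.1 μ
      · exact h8 j (by omega) μ
  have hli : LinearIndependent V f := by
    rw [linearIndependent_iff']
    intro t c hc p hp
    obtain ⟨K, hK⟩ : ∃ K, ∀ p ∈ t, p.2 < K := by
      refine ⟨(t.sup (fun p => p.2)) + 1, fun p hp => Nat.lt_succ_of_le ?_⟩
      exact Finset.le_sup (f := fun p : (Fin h ⊕ Fin g) × ℕ => p.2) hp
    have h5 := hind K (fun j μ => if (μ, j) ∈ t then c (μ, j) else 0) (by
      rw [← hc]
      have h6 : ∀ j ∈ Finset.range K, ∑ μ, (if (μ, j) ∈ t then c (μ, j) else 0) • (β μ * u ^ j) =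
          ∑ μ, if (μ, j) ∈ t then c (μ, j) • f (μ, j) else 0 := by
        intro j _
        refine Finset.sum_congr rfl fun μ _ => ?_
        split_ifs
        · rfl
        · rw [zero_smul]
      rw [Finset.sum_congr rfl h6, Finset.sum_comm, ← Finset.sum_product', Finset.sum_ite_mem]
      refine Finset.sum_congr ?_ fun p _ => rfl
      ext p
      rw [Finset.mem_inter, Finset.mem_product, Finset.mem_range]
      exact ⟨fun h => h.2, fun h => ⟨⟨Finset.mem_univ _, hK p h⟩, h⟩⟩)
    have h6 := h5 p.2 (hK p hp) p.1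
    simp only [Prod.mk.eta, hp, if_true] at h6
    exact h6
  have hspan : ∀ s, s ∈ Submodule.span V (Set.range f) := by
    have hmul : ∀ x ∈ Submodule.span V (Set.range f), u * x ∈ Submodule.span V (Set.range f) := by
      intro x hx
      refine Submodule.span_induction (p := fun x _ => u * x ∈ Submodule.span V (Set.range f))
        ?_ ?_ ?_ ?_ hx
      · rintro _ ⟨⟨μ, j⟩, rfl⟩
        refine Submodule.subset_span ⟨(μ, j + 1), ?_⟩
        change β μ * u ^ (j + 1) = u * (β μ * u ^ j)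
        ring
      · rw [mul_zero]; exact zero_mem _
      · intro x y _ _ hx hy
        rw [mul_add]; exact add_mem hx hy
      · intro c x _ hx
        rw [mul_smul_comm]; exact Submodule.smul_mem _ _ hx
    have hβ : ∀ c : Fin h ⊕ Fin g → V, ∑ μ, c μ • β μ ∈ Submodule.span V (Set.range f) := by
      intro c
      refine Submodule.sum_mem _ fun μ _ => Submodule.smul_mem _ _ (Submodule.subset_span ?_)
      exact ⟨(μ, 0), by change β μ * u ^ 0 = β μ; rw [pow_zero, mul_one]⟩
    intro s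
    by_cases h0 : M.i s = 0
    · have : s = 0 := M.inj (by rw [h0, map_zero])
      rw [this]; exact zero_mem _
    obtain ⟨n, hn⟩ := M.DL.exists_nat h0
    induction n using Nat.strong_induction_on generalizing s with
    | _ n ih =>
      by_cases hnN : n < N
      · obtain ⟨c, hc⟩ := h2 s (by rw [mem_Lo, hn]; exact_mod_cast hnN)
        rw [hc]; exact hβ c
      · obtain ⟨c, t, hs⟩ := h3 s
        rw [hs]
        refine add_mem (hβ c) (hmul t ?_)
        by_cases ht0 : M.i t = 0
        · have : t = 0 := M.inj (by rw [ht0, map_zero])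
          rw [this]; exact zero_mem _
        obtain ⟨l, hl⟩ := M.DL.exists_nat ht0
        refine ih l ?_ t ht0 hl
        have h5 : u * t = s - ∑ μ, c μ • β μ := by
          rw [eq_sub_iff_add_eq, add_comm]; exact hs.symm
        have h6 : ∑ μ, c μ • β μ ∈ M.Lo (N + a) :=
          Submodule.sum_mem _ fun μ _ => Submodule.smul_mem _ _ (h4 μ)
        have h7 : M.DL.d (M.i (u * t)) ≤ max (M.DL.d (M.i s)) (M.DL.d (M.i (∑ μ, c μ • β μ))) := by
          rw [h5, map_sub]; exact M.DL.sub _ _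
        rw [map_mul, M.DL.mul, hu.1, hl, hn, ← Nat.cast_add] at h7
        rcases le_max_iff.1 h7 with h8 | h8
        · have : a + l ≤ n := by exact_mod_cast h8
          omega
        · have h9 := h8.trans_lt h6
          have : a + l < N + a := by exact_mod_cast h9
          omega
  let B₀ : Basis ((Fin h ⊕ Fin g) × ℕ) V S := Basis.mk hli (fun s _ => hspan s)
  refine ⟨h + g, fun μ => β (eq.symm μ), B₀.reindex (Equiv.prodCongr eq (Equiv.refl ℕ)), ?_⟩
  intro μ j
  rw [Basis.reindex_apply, Basis.mk_apply]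
  rfl

end dvr

end Md

end CV
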