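import Pool.Agent.Lib.MP_f80667_ag.Pe.St
import Pool.Agent.Lib.MP_f80667_ag.Be.HatA

/-!
Morphisms of varieties `Mo V V'` (natural maps of points which are compatible with the reduction) and their
push-forwards on zero-cycles: `Mo.ratEq`, `Mo.nrm`, `Mo.D0`, the homomorphisms `Mo.dz`, `Mo.gp`, `Mo.gb` and for families
`Mo.ad`, `Mo.fa`. Base points `Bp V` and the constant morphisms `Mo.cst`.
-/

open ZC BE Polynomial IntermediateField IsDedekindDomain NumberField

namespace CV

section defs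

variable {F : Type} [Field F]

/-- A morphism of varieties. -/
structure Mo (V V' : Vr F) where
  /-- the map of points -/
  f : ∀ (L : Type) [Field L] [Algebra F L], V.pt L → V'.pt L
  nat : ∀ (L M : Type) [Field L] [Field M] [Algebra F L] [Algebra F M] (σ : L →ₐ[F] M)
    (x : V.pt L), V'.map σ (f L x) = f M (V.map σ x)
  red : ∀ (K L Ω : Type) [Field K] [Field L] [Field Ω] [Algebra K L] [Algebra K Ω]
    [Algebra F L] [Algebra F Ω] (w : Place K L Ω) (x : V.pt L) (y : V.pt Ω),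
    V.red w x y → V'.red w (f L x) (f Ω y)

/-- A base point. -/
structure Bp (V : Vr F) where
  /-- the point -/
  o : ∀ (L : Type) [Field L] [Algebra F L], V.pt L
  nat : ∀ (L M : Type) [Field L] [Field M] [Algebra F L] [Algebra F M] (σ : L →ₐ[F] M),
    V.map σ (o L) = o M
  red : ∀ (K L Ω : Type) [Field K] [Field L] [Field Ω] [Algebra K L] [Algebra K Ω]
    [Algebra F L] [Algebra F Ω] (w : Place K L Ω), V.red w (o L) (o Ω)

namespace Mo

variable {V V' V'' : Vr F}

/-- The composite. -/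
def comp (ψ : Mo V' V'') (φ : Mo V V') : Mo V V'' where
  f L _ _ x := ψ.f L (φ.f L x)
  nat L M _ _ _ _ σ x := by rw [ψ.nat, φ.nat]
  red K L Ω _ _ _ _ _ _ _ w x y h := ψ.red K L Ω w _ _ (φ.red K L Ω w x y h)

/-- The constant morphism. -/
def cst (V : Vr F) (o : Bp V') : Mo V V' where
  f L _ _ _ := o.o L
  nat L M _ _ _ _ σ _ := o.nat L M σ
  red K L Ω _ _ _ _ _ _ _ w _ _ _ := o.red K L Ω w

/-- Cycles rationally equivalent to `0` go to such cycles. -/
theorem ratEq (φ : Mo V V') (K : Type) [Field K] [Algebra F K] (Ω : Type)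
    [Field Ω] [Algebra K Ω] [Algebra F Ω] {z : V.pt Ω →₀ ℤ} (hz : z ∈ V.ratEq K Ω) :
    Finsupp.mapDomain (φ.f Ω) z ∈ V'.ratEq K Ω := by
  have h : V.ratEq K Ω ≤ (V'.ratEq K Ω).comap (Finsupp.mapDomain.addMonoidHom (φ.f Ω)) := by
    rw [Vr.ratEq, AddSubgroup.closure_le]
    rintro _ ⟨E, i1, i2, i3, i4, hE, g, x, hg, hx, S, m, y, hS, hv, rfl⟩
    change Finsupp.mapDomain (φ.f Ω) _ ∈ V'.ratEq K Ω
    rw [Finsupp.mapDomain_finsetSum]
    refine AddSubgroup.subset_closure ⟨E, i1, i2, i3, i4, hE, g, φ.f _ x, hg, fun σ => ?_, S, m,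
      fun w => φ.f Ω (y w), hS, fun w hw => ⟨(hv w hw).1, ?_⟩, ?_⟩
    · change V'.map _ (φ.f _ x) = φ.f _ x
      rw [φ.nat]
      exact congrArg (φ.f _) (hx σ)
    · obtain ⟨W, h1, h2, h3⟩ := (hv w hw).2
      exact ⟨W, h1, h2, φ.red _ _ _ W x (y w) h3⟩
    · refine Finset.sum_congr rfl fun w _ => ?_
      rw [Finsupp.mapDomain_single]
  exact h hz

section eqv

variable {K : Type} [Field K] [Algebra F K] {Ω : Type} [Field Ω] [Algebra K Ω] [Algebra F Ω]
  [IsScalarTower F K Ω]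

theorem act (φ : Mo V V') (σ : Ω ≃ₐ[K] Ω) (x : V.pt Ω) :
    V'.act σ (φ.f Ω x) = φ.f Ω (V.act σ x) := φ.nat Ω Ω _ x

/-- Norms go to norms. -/
theorem nrm (φ : Mo V V') {z : V.pt Ω →₀ ℤ} (hz : z ∈ V.nrm K Ω) :
    Finsupp.mapDomain (φ.f Ω) z ∈ V'.nrm K Ω := by
  have h : V.nrm K Ω ≤ (V'.nrm K Ω).comap (Finsupp.mapDomain.addMonoidHom (φ.f Ω)) := by
    rw [Vr.nrm, AddSubgroup.closure_le]
    rintro _ ⟨x, rfl⟩
    change Finsupp.mapDomain.addMonoidHom (φ.f Ω) _ ∈ V'.nrm K Ω
    rcases finite_or_infinite (Ω ≃ₐ[K] Ω) with hfin | hinf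
    · rw [map_finsum _ (Set.toFinite _)]
      refine AddSubgroup.subset_closure ⟨φ.f Ω x, finsum_congr fun σ => ?_⟩
      rw [Finsupp.mapDomain.addMonoidHom_apply, Finsupp.mapDomain_single, φ.act]
    · rw [finsum_of_infinite_support, map_zero]
      · exact zero_mem _
      · have h1 : (Function.support fun σ : Ω ≃ₐ[K] Ω =>
            Finsupp.single (V.act σ x) (1 : ℤ)) = Set.univ := by
          refine Set.eq_univ_of_forall fun σ => ?_
          rw [Function.mem_support, Ne, Finsupp.single_eq_zero]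
          exact one_ne_zero
        rw [h1]
        exact Set.infinite_univ
  exact h hz

/-- Galois invariant cycles go to such cycles. -/
theorem cyc (φ : Mo V V') {z : V.pt Ω →₀ ℤ} (hz : z ∈ V.cyc K Ω) :
    Finsupp.mapDomain (φ.f Ω) z ∈ V'.cyc K Ω := by
  intro σ
  rw [← Finsupp.mapDomain_comp]
  have h1 : V'.act σ ∘ φ.f Ω = φ.f Ω ∘ V.act σ := funext fun x => φ.act σ x
  rw [h1, Finsupp.mapDomain_comp]
  exact congrArg _ (hz σ)

omit [Field K] [Algebra F K] [Algebra K Ω] [IsScalarTower F K Ω] in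
theorem deg (f : V.pt Ω → V'.pt Ω) (z : V.pt Ω →₀ ℤ) :
    V'.deg Ω (Finsupp.mapDomain f z) = V.deg Ω z := by
  have h1 : (V'.deg Ω).comp (Finsupp.mapDomain.addMonoidHom f) = V.deg Ω := by
    refine Finsupp.addHom_ext fun x n => ?_
    simp [Vr.deg, Finsupp.mapDomain_single]
  rw [← h1]
  rfl

/-- Cycles of degree `0` go to such cycles. -/
theorem D0 (φ : Mo V V') {z : V.pt Ω →₀ ℤ} (hz : z ∈ V.D0 K Ω) :
    Finsupp.mapDomain (φ.f Ω) z ∈ V'.D0 K Ω :=
  ⟨φ.cyc hz.1, (deg _ z).trans hz.2⟩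

theorem sup (φ : Mo V V') {z : V.pt Ω →₀ ℤ} (hz : z ∈ V.ratEq K Ω ⊔ V.nrm K Ω) :
    Finsupp.mapDomain (φ.f Ω) z ∈ V'.ratEq K Ω ⊔ V'.nrm K Ω := by
  obtain ⟨a, ha, b, hb, rfl⟩ := AddSubgroup.mem_sup.1 hz
  exact AddSubgroup.mem_sup.2 ⟨_, φ.ratEq K Ω ha, _, φ.nrm hb, Finsupp.mapDomain_add.symm⟩

end eqv

variable (K : Type) [Field K] [Algebra F K]

/-- The push-forward of cycles of degree `0`. -/
noncomputable def dz (φ : Mo V V') : Dz V K →+ Dz V' K where
  toFun z := ⟨Finsupp.mapDomain (φ.f _) z.1, φ.D0 z.2⟩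
  map_zero' := Subtype.ext (Finsupp.mapDomain_zero (f := φ.f (AlgebraicClosure K)))
  map_add' _ _ := Subtype.ext (Finsupp.mapDomain_add (f := φ.f (AlgebraicClosure K)))

variable {K} in
theorem dz_coe (φ : Mo V V') (z : Dz V K) :
    ((φ.dz K z : Dz V' K) : V'.pt (AlgebraicClosure K) →₀ ℤ) = Finsupp.mapDomain (φ.f _) z.1 := rfl

/-- The push-forward of classes. -/
noncomputable def gp (φ : Mo V V') : Gp V K →+ Gp V' K := Gp.map (φ.dz K) fun _ h => φ.ratEq K _ h

/-- The push-forward of classes modulo norms. -/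
noncomputable def gb (φ : Mo V V') : Gb V K →+ Gb V' K := Gb.map (φ.dz K) fun _ h => φ.sup h

variable {K}

theorem gp_cl (φ : Mo V V') (z : Zc V K) : φ.gp K z.cl = Zc.cl (φ.dz K z) := rfl

theorem gb_cl (φ : Mo V V') (z : Zc V K) : φ.gb K z.clN = Zc.clN (φ.dz K z) := rfl

theorem dz_comp (ψ : Mo V' V'') (φ : Mo V V') (z : Dz V K) :
    (ψ.comp φ).dz K z = ψ.dz K (φ.dz K z) :=
  Subtype.ext (Finsupp.mapDomain_comp (v := z.1) (f := φ.f (AlgebraicClosure K)) (g := ψ.f _))

/-- Two morphisms with the same maps on points over the algebraic closure. -/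
theorem dz_congr {φ ψ : Mo V V'} (h : ∀ x : V.pt (AlgebraicClosure K), φ.f _ x = ψ.f _ x)
    (z : Dz V K) : φ.dz K z = ψ.dz K z :=
  Subtype.ext (congrArg (fun g => Finsupp.mapDomain g z.1) (funext h))

theorem dz_id {φ : Mo V V} (h : ∀ x : V.pt (AlgebraicClosure K), φ.f _ x = x) (z : Dz V K) :
    φ.dz K z = z := by
  have h1 : φ.f (AlgebraicClosure K) = id := funext h
  refine Subtype.ext ?_
  rw [dz_coe, h1]
  exact Finsupp.mapDomain_id

/-- The push-forward by a constant map is `0`. -/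
theorem dz_const {φ : Mo V V'} (o : V'.pt (AlgebraicClosure K))
    (h : ∀ x : V.pt (AlgebraicClosure K), φ.f _ x = o) (z : Dz V K) : φ.dz K z = 0 := by
  have h1 : φ.f (AlgebraicClosure K) = fun _ => o := funext h
  have h2 : ∀ u : V.pt (AlgebraicClosure K) →₀ ℤ, Finsupp.mapDomain (fun _ => o) u =
      Finsupp.single o (V.deg (AlgebraicClosure K) u) := by
    intro u
    induction u using Finsupp.induction_linear with
    | zero => simp
    | add f g hf hg => rw [Finsupp.mapDomain_add, hf, hg, map_add, Finsupp.single_add]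
    | single a n => rw [Finsupp.mapDomain_single, Vr.deg, Finsupp.liftAddHom_apply_single]; rfl
  refine Subtype.ext ?_
  rw [dz_coe, h1, h2]
  have h3 : V.deg (AlgebraicClosure K) z.1 = 0 := z.2.2
  rw [h3, Finsupp.single_zero]
  rfl

/-- The push-forward commutes with base change. -/
theorem bc_map (φ : Mo V V') (z : V.pt (AlgebraicClosure F) →₀ ℤ) :
    BE.bc (V := V') K (Finsupp.mapDomain (φ.f _) z) =
      Finsupp.mapDomain (φ.f _) (BE.bc (V := V) K z) := by
  unfold BE.bc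
  rw [← Finsupp.mapDomain_comp, ← Finsupp.mapDomain_comp]
  exact congrArg (fun g => Finsupp.mapDomain g z) (funext fun x => φ.nat _ _ (BE.emb F K) x)

end Mo

theorem bc_add {V : Vr F} {K : Type} [Field K] [Algebra F K]
    (z z' : V.pt (AlgebraicClosure F) →₀ ℤ) : BE.bc K (z + z') = BE.bc K z + BE.bc K z' :=
  Finsupp.mapDomain_add

end defs

section fam

variable {F : Type} [Field F] [NumberField F] {V V' V'' : Vr F}

namespace Mo

/-- The push-forward of families. -/
noncomputable def ad (φ : Mo V V') : AdF V →+ AdF V' where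
  toFun c := (fun v => φ.dz (FK F v) (c.1 v), fun v => φ.dz (IK F v) (c.2 v))
  map_zero' := Prod.ext (funext fun _ => map_zero _) (funext fun _ => map_zero _)
  map_add' _ _ := Prod.ext (funext fun _ => map_add _ _ _) (funext fun _ => map_add _ _ _)

/-- The push-forward of classes of families. -/
noncomputable def fa (φ : Mo V V') : FA V →+ FA V' where
  toFun x := (fun v => φ.gp (FK F v) (x.1 v), fun v => φ.gb (IK F v) (x.2 v))
  map_zero' := Prod.ext (funext fun _ => map_zero _) (funext fun _ => map_zero _)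
  map_add' _ _ := Prod.ext (funext fun _ => map_add _ _ _) (funext fun _ => map_add _ _ _)

theorem fa_cl (φ : Mo V V') (c : AdF V) : φ.fa (clH V c) = clH V' (φ.ad c) := rfl

/-- The push-forward of the family of base changes. -/
theorem isBcF (φ : Mo V V') {c : Zc V F} {c' : Fam V} (h : IsBcF c c') :
    IsBcF (V := V') (φ.dz F c) (φ.ad c') := by
  refine ⟨fun v => ?_, fun v => ?_⟩
  · refine Eq.trans ?_ (φ.bc_map (K := FK F v) c.cy).symm
    rw [← h.1 v]
    rfl
  · refine Eq.trans ?_ (φ.bc_map (K := IK F v) c.cy).symm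
    rw [← h.2 v]
    rfl

end Mo

end fam

end CV
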