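import Pool.Agent.Lib.MP_f80667_ag.Cv.Dg

/-!
Monic tables. `R` is an algebra over the commutative ring `B` with a basis `e m`, `m` in a cofinite submonoid of `ℕ`, such
that `e 0 = 1` and `e m e n - e (m + n)` is a combination of the `e k` with `k < m + n`. This is stable under base change
(`Mt.bc`). Over a field it gives a degree function (`Mt.dg`).
-/

open TensorProduct

namespace CV

/-- A basis with a monic table. -/
structure Mt (B R : Type) [CommRing B] [CommRing R] [Algebra B R] where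
  /-- the indices -/
  S : AddSubmonoid ℕ
  fin : ∃ n₀ : ℕ, ∀ n, n₀ ≤ n → n ∈ S
  /-- the basis -/
  e : Module.Basis S B R
  one : e 0 = 1
  tab : ∀ m n : S, e m * e n - e (m + n) ∈
    Submodule.span B (e '' {k | (k : ℕ) < (m : ℕ) + n})

namespace Mt

variable {B R : Type} [CommRing B] [CommRing R] [Algebra B R] (T : Mt B R)

/-- The combinations of the `e k` with `k < n`. -/
def W (n : ℕ) : Submodule B R := Submodule.span B (T.e '' {k | (k : ℕ) < n})

/-- The combinations of the `e k` with `k ≤ n`. -/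
def L (n : ℕ) : Submodule B R := T.W (n + 1)

theorem mem_W {n : ℕ} {x : R} : x ∈ T.W n ↔ ∀ k ∈ (T.e.repr x).support, (k : ℕ) < n := by
  rw [W, T.e.mem_span_image]
  rfl

theorem mem_L {n : ℕ} {x : R} : x ∈ T.L n ↔ ∀ k ∈ (T.e.repr x).support, (k : ℕ) ≤ n := by
  rw [L, mem_W]
  exact forall₂_congr fun k _ => Nat.lt_succ_iff

theorem W_mono {m n : ℕ} (h : m ≤ n) : T.W m ≤ T.W n :=
  fun _ hx => T.mem_W.2 fun k hk => (T.mem_W.1 hx k hk).trans_le h

theorem L_mono {m n : ℕ} (h : m ≤ n) : T.L m ≤ T.L n := T.W_mono (Nat.succ_le_succ h)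

theorem W_le_L (n : ℕ) : T.W n ≤ T.L n := T.W_mono n.le_succ

theorem e_mem (k : T.S) : T.e k ∈ T.L k :=
  Submodule.subset_span ⟨k, Nat.lt_succ_self _, rfl⟩

theorem e_mem_W {k : T.S} {n : ℕ} (h : (k : ℕ) < n) : T.e k ∈ T.W n :=
  Submodule.subset_span ⟨k, h, rfl⟩

theorem exists_L (x : R) : ∃ n, x ∈ T.L n := by
  classical
  refine ⟨(T.e.repr x).support.sup fun k => (k : ℕ), T.mem_L.2 fun k hk => ?_⟩
  exact Finset.le_sup (f := fun k : T.S => (k : ℕ)) hk

theorem tab' (m n : T.S) : T.e m * T.e n ∈ T.L ((m : ℕ) + n) := by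
  have h1 := T.W_le_L _ (T.tab m n)
  have h2 := T.e_mem (m + n)
  have h3 := (T.L ((m : ℕ) + n)).add_mem h1 h2
  rwa [sub_add_cancel] at h3

theorem mul_W {m n : ℕ} {x y : R} (hx : x ∈ T.W m) (hy : y ∈ T.W (n + 1)) :
    x * y ∈ T.W (m + n) := by
  rw [W] at hx
  induction hx using Submodule.span_induction with
  | mem x hx =>
    obtain ⟨i, hi, rfl⟩ := hx
    rw [W] at hy
    induction hy using Submodule.span_induction with
    | mem y hy =>
      obtain ⟨j, hj, rfl⟩ := hy
      refine T.W_mono ?_ (T.tab' i j)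
      have h1 : (i : ℕ) < m := hi
      have h2 : (j : ℕ) < n + 1 := hj
      omega
    | zero => rw [mul_zero]; exact zero_mem _
    | add a b _ _ ha hb => rw [mul_add]; exact add_mem ha hb
    | smul c a _ ha => rw [mul_smul_comm]; exact Submodule.smul_mem _ _ ha
  | zero => rw [zero_mul]; exact zero_mem _
  | add a b _ _ ha hb => rw [add_mul]; exact add_mem ha hb
  | smul c a _ ha => rw [smul_mul_assoc]; exact Submodule.smul_mem _ _ ha

theorem mul_L {m n : ℕ} {x y : R} (hx : x ∈ T.L m) (hy : y ∈ T.L n) : x * y ∈ T.L (m + n) := by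
  have h := T.mul_W hx hy
  have e : m + 1 + n = m + n + 1 := by omega
  rw [e] at h
  exact h

theorem lt_of_L {m : T.S} {x : R} (hx : x ∈ T.L m) :
    x - T.e.repr x m • T.e m ∈ T.W m := by
  classical
  refine T.mem_W.2 fun k hk => ?_
  have h1 : (T.e.repr (x - T.e.repr x m • T.e m)) k ≠ 0 := Finsupp.mem_support_iff.1 hk
  rw [map_sub, map_smul, T.e.repr_self, Finsupp.sub_apply, Finsupp.smul_apply] at h1
  rcases eq_or_ne k m with rfl | hkm
  · rw [Finsupp.single_eq_same, smul_eq_mul, mul_one, sub_self] at h1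
    exact absurd rfl h1
  · rw [Finsupp.single_eq_of_ne hkm, smul_zero, sub_zero] at h1
    have h2 := T.mem_L.1 hx k (Finsupp.mem_support_iff.2 h1)
    refine lt_of_le_of_ne h2 fun h => hkm (Subtype.ext h)

theorem repr_W {m : T.S} {x : R} (hx : x ∈ T.W m) : T.e.repr x m = 0 := by
  by_contra h
  exact lt_irrefl _ (T.mem_W.1 hx m (Finsupp.mem_support_iff.2 h))

/-- The leading term of a product. -/
theorem mul_lead {m n : T.S} {x y : R} (hx : x ∈ T.L m) (hy : y ∈ T.L n) :
    x * y - (T.e.repr x m * T.e.repr y n) • T.e (m + n) ∈ T.W ((m : ℕ) + n) := by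
  have h1 := T.lt_of_L hx
  have h2 := T.lt_of_L hy
  set a := T.e.repr x m
  set b := T.e.repr y n
  have h3 : (x - a • T.e m) * y ∈ T.W ((m : ℕ) + n) := T.mul_W h1 hy
  have h4 : (y - b • T.e n) * T.e m ∈ T.W ((n : ℕ) + m) := T.mul_W h2 (T.e_mem m)
  rw [add_comm (n : ℕ)] at h4
  have h5 := T.tab m n
  have e : x * y - (a * b) • T.e (m + n) = (x - a • T.e m) * y + a • ((y - b • T.e n) * T.e m) +
      (a * b) • (T.e m * T.e n - T.e (m + n)) := by
    simp only [smul_sub, sub_mul, smul_mul_assoc, mul_smul]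
    rw [mul_comm (T.e n) (T.e m), mul_comm y (T.e m)]
    abel
  rw [e]
  exact add_mem (add_mem h3 (Submodule.smul_mem _ _ h4)) (Submodule.smul_mem _ _ h5)

open Classical in
/-- The degree: the largest index. -/
noncomputable def d (x : R) : WithBot ℕ := (T.e.repr x).support.sup fun k => ((k : ℕ) : WithBot ℕ)

theorem d_bot (x : R) : T.d x = ⊥ ↔ x = 0 := by
  classical
  rw [d, Finset.sup_eq_bot_iff]
  constructor
  · intro h
    by_contra hx
    have h1 : T.e.repr x ≠ 0 := fun h => hx ((LinearEquiv.map_eq_zero_iff _).1 h)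
    obtain ⟨k, hk⟩ := Finsupp.support_nonempty_iff.2 h1
    exact WithBot.coe_ne_bot (h k hk)
  · rintro rfl k hk
    rw [map_zero] at hk
    exact absurd hk (Finset.notMem_empty k)

theorem d_le {x : R} {n : ℕ} : T.d x ≤ n ↔ x ∈ T.L n := by
  classical
  rw [d, Finset.sup_le_iff, mem_L]
  exact forall₂_congr fun k _ => by exact_mod_cast Iff.rfl

theorem d_lt {x : R} {n : ℕ} : T.d x < n ↔ x ∈ T.W n := by
  classical
  rw [d, Finset.sup_lt_iff (show (⊥ : WithBot ℕ) < (n : WithBot ℕ) from WithBot.bot_lt_coe n), mem_W]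
  exact forall₂_congr fun k _ => by exact_mod_cast Iff.rfl

theorem d_mem {x : R} {n : ℕ} (h : T.d x = n) : ∃ k : T.S, (k : ℕ) = n ∧ T.e.repr x k ≠ 0 := by
  classical
  have hx : x ≠ 0 := by
    rintro rfl
    rw [(T.d_bot 0).2 rfl] at h
    exact WithBot.bot_ne_coe h
  have h1 : T.e.repr x ≠ 0 := fun h => hx ((LinearEquiv.map_eq_zero_iff _).1 h)
  obtain ⟨k, hk, he⟩ := Finset.exists_mem_eq_sup (T.e.repr x).support
    (Finsupp.support_nonempty_iff.2 h1) (fun k => ((k : ℕ) : WithBot ℕ))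
  have h2 : ((k : ℕ) : WithBot ℕ) = n := he.symm.trans h
  have h3 : (k : ℕ) = n := by exact_mod_cast h2
  exact ⟨k, h3, Finsupp.mem_support_iff.1 hk⟩

theorem d_eq {x : R} {m : T.S} (hx : x ∈ T.L m) (h : T.e.repr x m ≠ 0) : T.d x = (m : ℕ) := by
  classical
  refine le_antisymm (T.d_le.2 hx) ?_
  exact Finset.le_sup (f := fun k : T.S => ((k : ℕ) : WithBot ℕ)) (Finsupp.mem_support_iff.2 h)

theorem d_e [Nontrivial B] (m : T.S) : T.d (T.e m) = (m : ℕ) := by
  refine T.d_eq (T.e_mem m) ?_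
  rw [T.e.repr_self, Finsupp.single_eq_same]
  exact one_ne_zero

theorem d_add (x y : R) : T.d (x + y) ≤ max (T.d x) (T.d y) := by
  classical
  rcases eq_or_ne x 0 with rfl | hx
  · rw [zero_add]; exact le_max_right _ _
  rcases eq_or_ne y 0 with rfl | hy
  · rw [add_zero]; exact le_max_left _ _
  obtain ⟨m, hm⟩ := WithBot.ne_bot_iff_exists.1 (fun h => hx ((T.d_bot x).1 h))
  obtain ⟨n, hn⟩ := WithBot.ne_bot_iff_exists.1 (fun h => hy ((T.d_bot y).1 h))
  rw [← hm, ← hn]
  have h1 : x ∈ T.L (max m n) := T.L_mono (le_max_left _ _) (T.d_le.1 hm.symm.le)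
  have h2 : y ∈ T.L (max m n) := T.L_mono (le_max_right _ _) (T.d_le.1 hn.symm.le)
  exact (T.d_le.2 (add_mem h1 h2)).trans (by exact_mod_cast le_refl _)

/-- An element of nonnegative degree. -/
theorem exists_d {x : R} (hx : x ≠ 0) : ∃ k : T.S, T.d x = (k : ℕ) ∧ T.e.repr x k ≠ 0 := by
  obtain ⟨m, hm⟩ := WithBot.ne_bot_iff_exists.1 (fun h => hx ((T.d_bot x).1 h))
  obtain ⟨k, hk, h⟩ := T.d_mem hm.symm
  subst hk
  exact ⟨k, hm.symm, h⟩

theorem d_mul [IsDomain B] (x y : R) : T.d (x * y) = T.d x + T.d y := by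
  rcases eq_or_ne x 0 with rfl | hx
  · rw [zero_mul, (T.d_bot 0).2 rfl, WithBot.bot_add]
  rcases eq_or_ne y 0 with rfl | hy
  · rw [mul_zero, (T.d_bot 0).2 rfl, WithBot.add_bot]
  obtain ⟨m, hm, hcm⟩ := T.exists_d hx
  obtain ⟨n, hn, hcn⟩ := T.exists_d hy
  have hx' : x ∈ T.L m := T.d_le.1 hm.le
  have hy' : y ∈ T.L n := T.d_le.1 hn.le
  have h1 := T.mul_lead hx' hy'
  generalize T.e.repr x m = a at h1 hcm
  generalize T.e.repr y n = b at h1 hcn
  have h2 : T.e.repr (x * y) (m + n) = a * b := by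
    have h3 := T.repr_W (m := m + n) h1
    rw [map_sub, map_smul, T.e.repr_self, Finsupp.sub_apply, Finsupp.smul_apply,
      Finsupp.single_eq_same, smul_eq_mul, mul_one, sub_eq_zero] at h3
    exact h3
  have h4 := T.d_eq (m := m + n) (T.mul_L hx' hy') (by rw [h2]; exact mul_ne_zero hcm hcn)
  rw [h4, hm, hn]
  rfl

theorem d_lead {K : Type} [Field K] [Algebra K R] (T : Mt K R) (x y : R) (hy : y ≠ 0)
    (h : T.d x = T.d y) : ∃ c : K, T.d (x - c • y) < T.d y := by
  obtain ⟨n, hn, hcn⟩ := T.exists_d hy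
  have h1 := T.lt_of_L (T.d_le.1 hn.le)
  have h2 := T.lt_of_L (x := x) (m := n) (T.d_le.1 (by rw [h]; exact hn.le))
  generalize T.e.repr y n = b at h1 hcn
  generalize T.e.repr x n = a at h2
  refine ⟨a / b, ?_⟩
  rw [hn]
  refine T.d_lt.2 ?_
  have e : x - (a / b) • y = (x - a • T.e n) - (a / b) • (y - b • T.e n) := by
    rw [smul_sub, smul_smul, div_mul_cancel₀ _ hcn]
    abel
  rw [e]
  exact sub_mem h2 (Submodule.smul_mem _ _ h1)

/-- The degree function over a field. -/
noncomputable def dg {K : Type} [Field K] [Algebra K R] (T : Mt K R) : Dg K R where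
  d := T.d
  bot := T.d_bot
  mul := T.d_mul
  add := T.d_add
  lead := T.d_lead
  tail := by
    obtain ⟨n₀, h⟩ := T.fin
    exact ⟨n₀, fun n hn => ⟨T.e ⟨n, h n hn⟩, T.d_e _⟩⟩

section bc

variable (B' : Type) [CommRing B'] [Algebra B B']

theorem bc_mem {n : ℕ} {x : R} (hx : x ∈ T.W n) : (1 : B') ⊗ₜ[B] x ∈
    Submodule.span B' (Algebra.TensorProduct.basis B' T.e '' {k | (k : ℕ) < n}) := by
  rw [W] at hx
  induction hx using Submodule.span_induction with
  | mem x hx =>
    obtain ⟨k, hk, rfl⟩ := hx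
    exact Submodule.subset_span ⟨k, hk, Algebra.TensorProduct.basis_apply T.e k⟩
  | zero => rw [tmul_zero]; exact zero_mem _
  | add a b _ _ ha hb => rw [tmul_add]; exact add_mem ha hb
  | smul c a _ ha =>
    have e : (1 : B') ⊗ₜ[B] (c • a) = algebraMap B B' c • ((1 : B') ⊗ₜ[B] a) := by
      rw [tmul_smul, algebraMap_smul]
    rw [e]
    exact Submodule.smul_mem _ _ ha

/-- The base change. -/
noncomputable def bc : Mt B' (B' ⊗[B] R) where
  S := T.S
  fin := T.fin
  e := Algebra.TensorProduct.basis B' T.e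
  one := by rw [Algebra.TensorProduct.basis_apply, T.one]; rfl
  tab m n := by
    rw [Algebra.TensorProduct.basis_apply, Algebra.TensorProduct.basis_apply,
      Algebra.TensorProduct.basis_apply, Algebra.TensorProduct.tmul_mul_tmul, one_mul, ← tmul_sub]
    exact T.bc_mem B' (T.tab m n)

/-- The base change to an isomorphic algebra. -/
noncomputable def ofEquiv {R' : Type} [CommRing R'] [Algebra B R'] (f : R ≃ₐ[B] R') : Mt B R' where
  S := T.S
  fin := T.fin
  e := T.e.map f.toLinearEquiv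
  one := by
    rw [Module.Basis.map_apply, T.one]
    exact map_one f
  tab m n := by
    have h1 := Submodule.mem_map_of_mem (f := f.toLinearMap) (T.tab m n)
    rw [Submodule.map_span, ← Set.image_comp] at h1
    have e : f.toLinearMap (T.e m * T.e n - T.e (m + n)) = f (T.e m) * f (T.e n) - f (T.e (m + n)) := by
      change f _ = _
      rw [map_sub, map_mul]
    rw [e] at h1
    exact h1

end bc

end Mt

end CV
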