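import Pool.Agent.Lib.MP_f80667_ag.Cv.HdA
import Pool.Agent.Lib.MP_f80667_ag.Cv.HdB

/-! Maps to a product of curves whose coordinates are morphisms or constant points. -/

open ZC BE PE Polynomial IntermediateField

namespace CV

variable {F : Type} [Field F] {K Ω : Type} [Field K] [Field Ω] [Algebra K Ω]
  [Algebra F K] [Algebra F Ω] [IsScalarTower F K Ω] [CharZero K] [IsAlgClosure K Ω]
  {ι : Type} {C : ι → Crv F}

/-- One coordinate of the new point. -/
private theorem nfA_coord {V : Vr F} {M : IntermediateField K Ω} (D : Crv F)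
    (f : V.pt Ω → D.V.pt Ω)
    (hf : (∃ φ : Mo V D.V, ∀ x, f x = φ.f Ω x) ∨ ∃ y : D.V.pt Ω, Fp D.V M y ∧ ∀ x, f x = y)
    (E : Type) [Field E] [Algebra M E] [Algebra F E] [IsScalarTower F M E]
    (x : V.pt (AlgebraicClosure E)) (hx : V.Rat E x) :
    ∃ x' : D.V.pt (AlgebraicClosure E), D.V.Rat E x' ∧
      ∀ (W : Place M (AlgebraicClosure E) Ω) (p : V.pt Ω), V.red W x p → D.V.red W x' (f p) := by
  rcases hf with ⟨φ, hφ⟩ | ⟨y, hy, hfy⟩
  · refine ⟨φ.f _ x, fun σ => ?_, fun W p hp => ?_⟩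
    · change D.V.map _ (φ.f _ x) = φ.f _ x
      rw [φ.nat]
      exact congrArg (φ.f _) (hx σ)
    · rw [hφ]
      exact φ.red _ _ _ W x p hp
  · rcases y with _ | ψ
    · refine ⟨none, fun σ => rfl, fun W p _ => ?_⟩
      rw [hfy]
      exact Or.inl ⟨rfl, rfl⟩
    · have hm : ∀ a, ψ a ∈ M := fp_val.1 hy
      let χ : D.A →ₐ[F] AlgebraicClosure E :=
        { toFun := fun a => algebraMap M (AlgebraicClosure E) ⟨ψ a, hm a⟩
          map_one' := by
            have h : (⟨ψ 1, hm 1⟩ : M) = 1 := Subtype.ext (map_one ψ)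
            rw [h, map_one]
          map_mul' := fun a b => by
            have h : (⟨ψ (a * b), hm (a * b)⟩ : M) = ⟨ψ a, hm a⟩ * ⟨ψ b, hm b⟩ :=
              Subtype.ext (map_mul ψ a b)
            rw [h, map_mul]
          map_zero' := by
            have h : (⟨ψ 0, hm 0⟩ : M) = 0 := Subtype.ext (map_zero ψ)
            rw [h, map_zero]
          map_add' := fun a b => by
            have h : (⟨ψ (a + b), hm (a + b)⟩ : M) = ⟨ψ a, hm a⟩ + ⟨ψ b, hm b⟩ :=
              Subtype.ext (map_add ψ a b)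
            rw [h, map_add]
          commutes' := fun r => by
            have h : (⟨ψ (algebraMap F D.A r), hm _⟩ : M) = algebraMap F M r :=
              Subtype.ext ((ψ.commutes r).trans ((IsScalarTower.algebraMap_apply F K Ω r).trans
                (congrArg Subtype.val (IsScalarTower.algebraMap_apply F K M r)).symm))
            rw [h]
            exact (IsScalarTower.algebraMap_apply F M (AlgebraicClosure E) r).symm }
      refine ⟨some χ, fun σ => ?_, fun W p _ => ?_⟩
      · refine congrArg some (AlgHom.ext fun a => ?_)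
        change σ (algebraMap M (AlgebraicClosure E) ⟨ψ a, hm a⟩) =
          algebraMap M (AlgebraicClosure E) ⟨ψ a, hm a⟩
        rw [IsScalarTower.algebraMap_apply M E (AlgebraicClosure E), AlgEquiv.commutes]
      · rw [hfy]
        refine Or.inr (Or.inr ⟨χ, ψ, rfl, rfl, fun a => ⟨W.mem _, ?_⟩⟩)
        exact (W.res_k ⟨ψ a, hm a⟩).symm

/-- Proof: as `Mo.ratEq` (`Cv/Mo.lean`); a point of `C i` over `M` is the constant point over the algebraic closure
of the function field `E / M` (`fp_val`), its value at every place `W` over `M` is the point (`W.mem`, `W.res_k`). -/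
theorem mor_ratEq {V : Vr F} {M : IntermediateField K Ω}
    (f : V.pt Ω → (Vpi fun i => (C i).V).pt Ω)
    (hf : ∀ i, (∃ φ : Mo V (C i).V, ∀ x, f x i = φ.f Ω x) ∨
      ∃ y : (C i).V.pt Ω, Fp (C i).V M y ∧ ∀ x, f x i = y)
    {z : V.pt Ω →₀ ℤ} (hz : z ∈ V.ratEq M Ω) :
    Finsupp.mapDomain f z ∈ (Vpi fun i => (C i).V).ratEq M Ω := by
  have h : V.ratEq M Ω ≤ ((Vpi fun i => (C i).V).ratEq M Ω).comap
      (Finsupp.mapDomain.addMonoidHom f) := by
    rw [Vr.ratEq, AddSubgroup.closure_le]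
    rintro _ ⟨E, i1, i2, i3, i4, hE, g, x, hg, hx, S, m, y, hS, hv, rfl⟩
    change Finsupp.mapDomain f _ ∈ (Vpi fun i => (C i).V).ratEq M Ω
    rw [Finsupp.mapDomain_finsetSum]
    choose x' hx' hr using fun i => nfA_coord (C i) (fun p => f p i) (hf i) E x hx
    refine AddSubgroup.subset_closure ⟨E, i1, i2, i3, i4, hE, g, x', hg, fun σ => ?_, S, m,
      fun w => f (y w), hS, fun w hw => ⟨(hv w hw).1, ?_⟩, ?_⟩
    · exact funext fun i => hx' i σ
    · obtain ⟨W, h1, h2, h3⟩ := (hv w hw).2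
      exact ⟨W, h1, h2, fun i => hr i W (y w) h3⟩
    · refine Finset.sum_congr rfl fun w _ => ?_
      rw [Finsupp.mapDomain_single]
  exact h hz

open Classical in
/-- One coordinate changed. -/
noncomputable def u₁ (w : (Vpi fun i => (C i).V).pt Ω) (i : ι) (p : (C i).V.pt Ω) :
    (Vpi fun i => (C i).V).pt Ω := Function.update w i p

open Classical in
/-- Two coordinates changed. -/
noncomputable def u₂ (w : (Vpi fun i => (C i).V).pt Ω) (i j : ι)
    (p : (Vpr (C i).V (C j).V).pt Ω) : (Vpi fun i => (C i).V).pt Ω :=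
  Function.update (Function.update w i p.1) j p.2

theorem u₁_act {M : IntermediateField K Ω} {w : (Vpi fun i => (C i).V).pt Ω}
    (hw : Fp (Vpi fun i => (C i).V) M w) (i : ι) (p : (C i).V.pt Ω) {γ : Ω ≃ₐ[K] Ω}
    (hγ : γ ∈ M.fixingSubgroup) : (Vpi fun i => (C i).V).act γ (u₁ w i p) =
      u₁ w i ((C i).V.act γ p) := by
  classical
  funext j
  change (C j).V.act γ (Function.update w i p j) = Function.update w i ((C i).V.act γ p) j
  rcases eq_or_ne j i with rfl | h
  · rw [Function.update_self, Function.update_self]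
  · rw [Function.update_of_ne h, Function.update_of_ne h]
    exact congrFun (hw γ hγ) j

theorem u₂_act {M : IntermediateField K Ω} {w : (Vpi fun i => (C i).V).pt Ω}
    (hw : Fp (Vpi fun i => (C i).V) M w) (i j : ι) (p : (Vpr (C i).V (C j).V).pt Ω) {γ : Ω ≃ₐ[K] Ω}
    (hγ : γ ∈ M.fixingSubgroup) : (Vpi fun i => (C i).V).act γ (u₂ w i j p) =
      u₂ w i j ((Vpr (C i).V (C j).V).act γ p) := by
  classical
  funext l
  change (C l).V.act γ (Function.update (Function.update w i p.1) j p.2 l) =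
    Function.update (Function.update w i ((C i).V.act γ p.1)) j ((C j).V.act γ p.2) l
  rcases eq_or_ne l j with rfl | h
  · rw [Function.update_self, Function.update_self]
  · rw [Function.update_of_ne h, Function.update_of_ne h]
    rcases eq_or_ne l i with rfl | h'
    · rw [Function.update_self, Function.update_self]
    · rw [Function.update_of_ne h', Function.update_of_ne h']
      exact congrFun (hw γ hγ) l

/-- Proof: `mor_ratEq`. -/
theorem u₁_ratEq {M : IntermediateField K Ω} {w : (Vpi fun i => (C i).V).pt Ω}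
    (hw : Fp (Vpi fun i => (C i).V) M w) (i : ι) {z : (C i).V.pt Ω →₀ ℤ}
    (hz : z ∈ (C i).V.ratEq M Ω) :
    Finsupp.mapDomain (u₁ w i) z ∈ (Vpi fun i => (C i).V).ratEq M Ω := by
  classical
  refine mor_ratEq (u₁ w i) (fun j => ?_) hz
  rcases eq_or_ne j i with rfl | h
  · exact Or.inl ⟨⟨fun L _ _ x => x, fun _ _ _ _ _ _ _ _ => rfl,
      fun _ _ _ _ _ _ _ _ _ _ _ _ _ h => h⟩, fun x => Function.update_self _ _ _⟩
  · exact Or.inr ⟨w j, fun γ hγ => congrFun (hw γ hγ) j, fun x => Function.update_of_ne h _ _⟩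

/-- Proof: `mor_ratEq`. -/
theorem u₂_ratEq {M : IntermediateField K Ω} {w : (Vpi fun i => (C i).V).pt Ω}
    (hw : Fp (Vpi fun i => (C i).V) M w) {i j : ι} (hij : i ≠ j)
    {z : (Vpr (C i).V (C j).V).pt Ω →₀ ℤ} (hz : z ∈ (Vpr (C i).V (C j).V).ratEq M Ω) :
    Finsupp.mapDomain (u₂ w i j) z ∈ (Vpi fun i => (C i).V).ratEq M Ω := by
  classical
  refine mor_ratEq (u₂ w i j) (fun l => ?_) hz
  rcases eq_or_ne l j with rfl | h
  · exact Or.inl ⟨⟨fun L _ _ x => x.2, fun _ _ _ _ _ _ _ _ => rfl,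
      fun _ _ _ _ _ _ _ _ _ _ _ _ _ h => h.2⟩, fun x => Function.update_self _ _ _⟩
  · rcases eq_or_ne l i with rfl | h'
    · exact Or.inl ⟨⟨fun L _ _ x => x.1, fun _ _ _ _ _ _ _ _ => rfl,
        fun _ _ _ _ _ _ _ _ _ _ _ _ _ h => h.1⟩, fun x =>
          (Function.update_of_ne h _ _).trans (Function.update_self _ _ _)⟩
    · exact Or.inr ⟨w l, fun γ hγ => congrFun (hw γ hγ) l, fun x =>
        (Function.update_of_ne h _ _).trans (Function.update_of_ne h' _ _)⟩

end CV
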