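import Pool.Agent.Lib.MP_f80667_ag.Cv.Eis
import Pool.Agent.Lib.MP_f80667_ag.Cv.Rcy
import Pool.Agent.Lib.MP_f80667_ag.Cv.HdB

/-! Integral points of a product of curves are rationally equivalent to unramified points. -/

open ZC BE PE Polynomial IntermediateField

namespace CV

variable {F : Type} [Field F] {K Ω : Type} [Field K] [Field Ω] [Algebra K Ω]
  [Algebra F K] [Algebra F Ω] [IsScalarTower F K Ω] [CharZero K] [IsAlgClosure K Ω] {L : Ld K Ω}
  {ι : Type} {C : ι → Crv F} (m : ∀ i, Mod (C i) (Ok L) K)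

/-- The cycles generated by the norms of the integral points over unramified extensions. -/
noncomputable def Uz : AddSubgroup ((Vpi fun i => (C i).V).pt Ω →₀ ℤ) :=
  AddSubgroup.closure {z | ∃ (N : ℕ) (M : IntermediateField K Ω) (y : (Vpi fun i => (C i).V).pt Ω),
    N ≠ 0 ∧ M ≤ L.Ur ⊥ N ∧ Fp (Vpi fun i => (C i).V) M y ∧ NrP m 1 y y ∧
    z = Nm (⊥ : IntermediateField K Ω) M (Finsupp.single y 1)}

private theorem S3n_nm_zero {A : Type} [AddCommGroup A] [DistribMulAction (Ω ≃ₐ[K] Ω) A]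
    {M N : IntermediateField K Ω} (h : M ≤ N) [FiniteDimensional K N] : Nm M N (0 : A) = 0 := by
  have h1 := nm_add h (0 : A) 0
  rw [add_zero] at h1
  exact left_eq_add.1 h1

private theorem S3n_nm_neg {A : Type} [AddCommGroup A] [DistribMulAction (Ω ≃ₐ[K] Ω) A]
    {M N : IntermediateField K Ω} (h : M ≤ N) [FiniteDimensional K N] (P : A) :
    Nm M N (-P) = -Nm M N P := by
  have h1 := nm_add h P (-P)
  rw [add_neg_cancel, S3n_nm_zero h] at h1
  exact (neg_eq_of_add_eq_zero_right h1.symm).symm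

omit [CharZero K] [IsAlgClosure K Ω] in
/-- The first point is integral. -/
private theorem S3n_nr_left {C : Crv F} {m : Mod C (Ok L) K} {r : ℝ} {x y : C.V.pt Ω}
    (h : Nr m r x y) : Nr m 1 x x := by
  obtain ⟨φ, ψ, hφ, -, h1⟩ := h
  refine ⟨φ, φ, hφ, hφ, fun a => ⟨(h1 a).1, (h1 a).1, ?_⟩⟩
  rw [sub_self, L.zero]
  exact zero_le_one

omit [CharZero K] [IsAlgClosure K Ω] in
/-- The second point is integral. -/
private theorem S3n_nr_right {C : Crv F} {m : Mod C (Ok L) K} {r : ℝ} {x y : C.V.pt Ω}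
    (h : Nr m r x y) : Nr m 1 y y := by
  obtain ⟨φ, ψ, -, hψ, h1⟩ := h
  refine ⟨ψ, ψ, hψ, hψ, fun a => ⟨(h1 a).2.1, (h1 a).2.1, ?_⟩⟩
  rw [sub_self, L.zero]
  exact zero_le_one

/-- Charts: `x` integral over `M`, `M₀` has the residues of `M`: `x = P w` with a chart over `M₀`, `w ∈ M`. Proof: `hrs`:
`x` is congruent to `y` over `M₀`; `hch`: chart `T` at `y`; `T.surj`: `x = T.P w`; `w = evO m φ T.a` (`T.val`) is fixed by
`M.fixingSubgroup` (`T.ha`, `x` over `M`; or by `T.eqv` and `T.near` with `r = 0`). -/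
theorem chart_pt {C : Crv F} {m : Mod C (Ok L) K} (hrs : ExRs m) (hch : ExCh m)
    {M₀ M : IntermediateField K Ω} [FiniteDimensional K M] (h : M₀ ≤ M)
    (hr : ∀ b ∈ M, L.nm b ≤ 1 → ∃ a ∈ M₀, L.nm (b - a) < 1) {x : C.V.pt Ω} (hx : Fp C.V M x)
    (hi : Nr m 1 x x) : ∃ (T : Cht m M₀) (w : Ω), w ∈ M ∧ L.nm w < 1 ∧ x = T.P w := by
  have hfd : FiniteDimensional K M₀ := fin_le h
  obtain ⟨y, hy, r, hr1, hxy⟩ := hrs M₀ M inferInstance h hr x hi hx
  obtain ⟨T, hT⟩ := hch M₀ hfd y (S3n_nr_right hxy) hy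
  obtain ⟨w, hw, rfl⟩ := T.surj x r hr1 (by rw [hT]; exact hxy)
  refine ⟨T, w, ?_, hw, rfl⟩
  rw [← fx_mem]
  intro γ hγ
  change γ w = w
  have hγw : L.nm (γ w) < 1 := by
    rw [L.act]
    exact hw
  have h1 : T.P (γ w) = T.P w := by
    rw [← T.eqv γ (fix_le h hγ) w hw]
    exact hx γ hγ
  have h2 : Nr m 0 (T.P (γ w)) (T.P w) := by
    rw [h1]
    refine (T.near w w hw hw 0 le_rfl zero_le_one).2 ?_
    rw [sub_self, L.zero]
  have h3 := (T.near (γ w) w hγw hw 0 le_rfl zero_le_one).1 h2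
  have h4 : γ w - w = 0 := (L.zero_iff _).1 (le_antisymm h3 (L.nonneg _))
  exact sub_eq_zero.1 h4

/-- Displacements over an unramified `M` have norms in `Uz`. Proof: generators; `rtr_eq`, `nm_tr`, `ur_ur`, `ur_dvd`,
`ur_mono`. -/
theorem dsp_uz {M : IntermediateField K Ω} [FiniteDimensional K M] {N : ℕ} (hN : N ≠ 0)
    (hM : M ≤ L.Ur ⊥ N) {ρ : ℝ} (hρ : ρ < 1) {z : (Vpi fun i => (C i).V).pt Ω →₀ ℤ}
    (hz : z ∈ Dsp L (Vpi fun i => (C i).V) (NrP m ρ) M) :
    Nm (⊥ : IntermediateField K Ω) M z ∈ Uz m := by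
  refine AddSubgroup.closure_induction
    (p := fun z _ => Nm (⊥ : IntermediateField K Ω) M z ∈ Uz m) ?_ ?_ ?_ ?_ hz
  · rintro z ⟨N', M', y, y', hN', h1, h2, hy, hy', hn, rfl⟩
    have h3 : FiniteDimensional K (L.Ur M N') := Ld.ur_fin M N' hN'
    have h4 : FiniteDimensional K M' := fin_le h2
    have h5 : M' ≤ L.Ur (⊥ : IntermediateField K Ω) (N * N') := by
      refine h2.trans ((Ld.ur_mono hM N').trans ((Ld.ur_dvd _ (Dvd.intro_left N rfl)).trans ?_))
      rw [Ld.ur_ur _ (Dvd.intro N' rfl)]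
    have key : ∀ u : (Vpi fun i => (C i).V).pt Ω, Fp (Vpi fun i => (C i).V) M' u → NrP m 1 u u →
        Nm (⊥ : IntermediateField K Ω) M' (Finsupp.single u 1) ∈ Uz m := fun u hu hu1 =>
      AddSubgroup.subset_closure ⟨N * N', M', u, mul_ne_zero hN hN', h5, hu, hu1, rfl⟩
    rw [rtr_eq h1, ← nm_tr bot_le h1 ((fx_single hy 1).sub (fx_single hy' 1)), sub_eq_add_neg,
      nm_add bot_le, S3n_nm_neg bot_le]
    exact add_mem (key y hy fun i => S3n_nr_left (hn i))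
      (neg_mem (key y' hy' fun i => S3n_nr_right (hn i)))
  · rw [S3n_nm_zero bot_le]
    exact zero_mem _
  · intro a b _ _ ha hb
    rw [nm_add bot_le]
    exact add_mem ha hb
  · intro a _ ha
    rw [S3n_nm_neg bot_le]
    exact neg_mem ha

end CV
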