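import Pool.Agent.Lib.MP_f80667_ag.Cv.NfA
import Pool.Agent.Lib.MP_f80667_ag.Cv.S3n

/-! The points of a product of curves are rationally equivalent to points over unramified extensions. -/

open ZC BE PE Polynomial IntermediateField

namespace CV

variable {F : Type} [Field F] {K Ω : Type} [Field K] [Field Ω] [Algebra K Ω]
  [Algebra F K] [Algebra F Ω] [IsScalarTower F K Ω] [CharZero K] [IsAlgClosure K Ω] {L : Ld K Ω}
  {ι : Type} {C : ι → Crv F}

variable (L C) in
/-- The cycles generated by the norms of the points over unramified extensions. -/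
noncomputable def Uo : AddSubgroup ((Vpi fun i => (C i).V).pt Ω →₀ ℤ) :=
  AddSubgroup.closure {z | ∃ (N : ℕ) (M : IntermediateField K Ω) (y : (Vpi fun i => (C i).V).pt Ω),
    N ≠ 0 ∧ M ≤ L.Ur ⊥ N ∧ Fp (Vpi fun i => (C i).V) M y ∧
    z = Nm (⊥ : IntermediateField K Ω) M (Finsupp.single y 1)}

variable (m : ∀ i, Mod (C i) (Ok L) K)

/-- The cycles generated by the norms of the points with all coordinates integral or infinite. -/
noncomputable def Io : AddSubgroup ((Vpi fun i => (C i).V).pt Ω →₀ ℤ) :=
  AddSubgroup.closure {z | ∃ (M : IntermediateField K Ω) (y : (Vpi fun i => (C i).V).pt Ω),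
    FiniteDimensional K M ∧ Fp (Vpi fun i => (C i).V) M y ∧
    (∀ i, y i = none ∨ Nr (m i) 1 (y i) (y i)) ∧
    z = Nm (⊥ : IntermediateField K Ω) M (Finsupp.single y 1)}

omit [CharZero K] [IsAlgClosure K Ω] [Algebra K Ω] [Field K] [Algebra F K]
  [IsScalarTower F K Ω] in
/-- The degree of a principal cycle. -/
private theorem nfB_deg {D : Crv F} {z : D.V.pt Ω →₀ ℤ} (hz : z ∈ Pc D Ω) :
    D.V.deg Ω z = 0 := by
  have h : Pc D Ω ≤ (D.V.deg Ω).ker := by
    rw [Pc, AddSubgroup.closure_le]
    rintro z ⟨h, -⟩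
    exact h
  exact h hz

/-- Moving the coordinates. Proof: induction on the number of coordinates `i` with `x i` neither `none` nor integral:
`hI i` over `M`: `[x i] - z - k [∞]` is principal and invariant, so in `ratEq M Ω` (`hP i`); push forward with
`u₁ x i` (`u₁_ratEq`, `u₁_act`), take the norm (`nm_ratEq`); `z = ∑ ± Nm M M' [y]` (`rtr_eq`), `y` integral:
`Nm ⊥ M (u₁ x i).map (Nm M M' [y]) = Nm ⊥ M' [u₁ x i y]` (`hom_nm`, `nm_tr`). -/
theorem move [Finite ι] (hP : ∀ i, ExPr (C i) K Ω) (hI : ∀ i, ExIf (m i))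
    {M : IntermediateField K Ω} [FiniteDimensional K M] {x : (Vpi fun i => (C i).V).pt Ω}
    (hM : Fp (Vpi fun i => (C i).V) M x) :
    Nm (⊥ : IntermediateField K Ω) M (Finsupp.single x 1) ∈
      (Vpi fun i => (C i).V).ratEq K Ω ⊔ Io m := by
  classical
  have key : ∀ s : Finset ι, ∀ (M : IntermediateField K Ω) (x : (Vpi fun i => (C i).V).pt Ω),
      FiniteDimensional K M → Fp (Vpi fun i => (C i).V) M x →
      (∀ i ∉ s, x i = none ∨ Nr (m i) 1 (x i) (x i)) →
      Nm (⊥ : IntermediateField K Ω) M (Finsupp.single x 1) ∈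
        (Vpi fun i => (C i).V).ratEq K Ω ⊔ Io m := by
    intro s
    induction s using Finset.induction_on with
    | empty =>
      intro M x hfd hx h
      exact AddSubgroup.mem_sup_right (AddSubgroup.subset_closure
        ⟨M, x, hfd, hx, fun i => h i (Finset.notMem_empty i), rfl⟩)
    | insert i s hi ih =>
      intro M x hfd hx h
      have hxi : Fp (C i).V M (x i) := fun γ hγ => congrFun (hx γ hγ) i
      obtain ⟨z, hz, k, hk⟩ := hI i M hfd (x i) hxi
      -- the new points satisfy the induction hypothesis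
      have hgood : ∀ (N : IntermediateField K Ω) (p : (C i).V.pt Ω), FiniteDimensional K N →
          M ≤ N → Fp (C i).V N p → (p = none ∨ Nr (m i) 1 p p) →
          Nm (⊥ : IntermediateField K Ω) N (Finsupp.single (u₁ x i p) 1) ∈
            (Vpi fun i => (C i).V).ratEq K Ω ⊔ Io m := by
        intro N p hN hMN hp hpi
        have hxN : Fp (Vpi fun i => (C i).V) N x := fun γ hγ => hx γ (fix_le hMN hγ)
        refine ih N (u₁ x i p) hN (fun γ hγ => ?_) fun j hj => ?_
        · rw [u₁_act hxN i p hγ, hp γ hγ]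
        · rcases eq_or_ne j i with rfl | hji
          · have e : u₁ x j p j = p := Function.update_self _ _ _
            rw [e]
            exact hpi
          · have e : u₁ x i p j = x j := Function.update_of_ne hji _ _
            rw [e]
            exact h j fun hjs => (Finset.mem_insert.1 hjs).elim hji hj
      -- the additive map
      let φ : ((C i).V.pt Ω →₀ ℤ) →+ ((Vpi fun i => (C i).V).pt Ω →₀ ℤ) :=
        Finsupp.mapDomain.addMonoidHom (u₁ x i)
      have hφ1 : ∀ p : (C i).V.pt Ω, ∀ n : ℤ, φ (Finsupp.single p n) =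
          Finsupp.single (u₁ x i p) n := fun p n => Finsupp.mapDomain_single
      have hφ : ∀ γ ∈ M.fixingSubgroup, ∀ a, φ (γ • a) = γ • φ a := by
        intro γ hγ a
        rw [smul_def, smul_def]
        change Finsupp.mapDomain (u₁ x i) (Finsupp.mapDomain ((C i).V.act γ) a) =
          Finsupp.mapDomain ((Vpi fun i => (C i).V).act γ) (Finsupp.mapDomain (u₁ x i) a)
        rw [← Finsupp.mapDomain_comp, ← Finsupp.mapDomain_comp]
        congr 1
        funext p
        exact (u₁_act hx i p hγ).symm
      let g : ((C i).V.pt Ω →₀ ℤ) →+ ((Vpi fun i => (C i).V).pt Ω →₀ ℤ) :=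
        AddMonoidHom.mk' (fun a => Nm (⊥ : IntermediateField K Ω) M (φ a)) fun a b => by
          rw [map_add, nm_add bot_le]
      have hzx : Fx M z ∧ g z ∈ (Vpi fun i => (C i).V).ratEq K Ω ⊔ Io m := by
        refine AddSubgroup.closure_induction
          (p := fun z _ => Fx M z ∧ g z ∈ (Vpi fun i => (C i).V).ratEq K Ω ⊔ Io m)
          ?_ ?_ ?_ ?_ hz
        · rintro z ⟨M', y, hM', hfd', hy1, hy, rfl⟩
          rw [rtr_eq hM']
          refine ⟨nm_fx hM' (fx_single hy 1), ?_⟩
          change Nm (⊥ : IntermediateField K Ω) M (φ (Nm M M' (Finsupp.single y 1))) ∈ _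
          have hfx : Fx M' (φ (Finsupp.single y 1)) := fun γ hγ => by
            rw [← hφ γ (fix_le hM' hγ), smul_single, hy γ hγ]
          rw [hom_nm φ hM' hφ, ← nm_tr bot_le hM' hfx, hφ1]
          exact hgood M' y hfd' hM' hy (Or.inr hy1)
        · refine ⟨Fx.zero, ?_⟩
          rw [map_zero]
          exact zero_mem _
        · intro a b _ _ ha hb
          refine ⟨ha.1.add hb.1, ?_⟩
          rw [map_add]
          exact add_mem ha.2 hb.2
        · intro a _ ha
          refine ⟨ha.1.neg, ?_⟩
          rw [map_neg]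
          exact neg_mem ha.2
      have hno : Fp (C i).V M ((C i).bp.o Ω) := fun γ _ => (C i).bp.nat Ω Ω _
      have ho : g (Finsupp.single ((C i).bp.o Ω) k) ∈
          (Vpi fun i => (C i).V).ratEq K Ω ⊔ Io m := by
        have e : (Finsupp.single ((C i).bp.o Ω) k : (C i).V.pt Ω →₀ ℤ) =
            k • Finsupp.single ((C i).bp.o Ω) 1 := by
          rw [Finsupp.smul_single, smul_eq_mul, mul_one]
        rw [e, map_zsmul]
        refine zsmul_mem ?_ k
        change Nm (⊥ : IntermediateField K Ω) M (φ (Finsupp.single ((C i).bp.o Ω) 1)) ∈ _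
        rw [hφ1]
        exact hgood M _ hfd le_rfl hno (Or.inl rfl)
      have hkx : Fx M (Finsupp.single (x i) 1 - z - Finsupp.single ((C i).bp.o Ω) k :
          (C i).V.pt Ω →₀ ℤ) :=
        ((fx_single hxi 1).sub hzx.1).sub (fx_single hno k)
      have hr : φ (Finsupp.single (x i) 1 - z - Finsupp.single ((C i).bp.o Ω) k) ∈
          (Vpi fun i => (C i).V).ratEq M Ω :=
        u₁_ratEq hx i (hP i M hfd _ hk ⟨hkx, nfB_deg hk⟩)
      have hrx : Fx M (φ (Finsupp.single (x i) 1 - z - Finsupp.single ((C i).bp.o Ω) k)) :=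
        fun γ hγ => by rw [← hφ γ hγ, hkx γ hγ]
      have h0 : g (Finsupp.single (x i) 1 - z - Finsupp.single ((C i).bp.o Ω) k) ∈
          (Vpi fun i => (C i).V).ratEq K Ω ⊔ Io m :=
        AddSubgroup.mem_sup_left (nm_ratEq hr hrx)
      have e : Nm (⊥ : IntermediateField K Ω) M (Finsupp.single x 1) =
          g (Finsupp.single (x i) 1) := by
        change _ = Nm (⊥ : IntermediateField K Ω) M (φ (Finsupp.single (x i) 1))
        have e1 : u₁ x i (x i) = x := Function.update_eq_self i x
        rw [hφ1, e1]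
      have e2 : g (Finsupp.single (x i) 1) =
          g (Finsupp.single (x i) 1 - z - Finsupp.single ((C i).bp.o Ω) k) + g z +
            g (Finsupp.single ((C i).bp.o Ω) k) := by
        rw [← map_add, ← map_add]
        congr 1
        abel
      rw [e, e2]
      exact add_mem (add_mem h0 hzx.2) ho
  have hfin := Fintype.ofFinite ι
  exact key Finset.univ M x inferInstance hM fun i hi => absurd (Finset.mem_univ i) hi

end CV
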