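import Pool.Agent.Lib.MP_f80667_ag.ZC.Defs
import Pool.Agent.Lib.MP_f80667_ag.Cv.DgA

/-!
The field of fractions of a `K`-algebra with a degree function is a function field of one variable.
-/

open ZC

namespace CV

namespace Dg

variable {K A E : Type} [Field K] [CommRing A] [Algebra K A] [Field E] [Algebra A E]
  [IsFractionRing A E] [Algebra K E] [IsScalarTower K A E] (G : Dg K A)

include G in
/-- `E` is a function field of one variable. Proof: `t` of degree `m ≥ 1` (`tail`), transcendental by `trans`; the
`K(t)`-subalgebra of `E` generated by `A` is spanned by the images of the finitely many generators of `A` over `K[t]`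
(`fin_adjoin`), so it is finite dimensional, hence a field (`Subalgebra.inv_mem_of_algebraic`), hence `E`. -/
theorem ff : IsFunField K E := by
  have hdom : IsDomain A := G.isDomain
  obtain ⟨n₀, hn₀⟩ := G.tail
  obtain ⟨x, hx⟩ := hn₀ (n₀ + 1) (by omega)
  have hfin : Module.Finite (Algebra.adjoin K {x}) A := G.fin_adjoin hx (by omega)
  have htr : Transcendental K x := G.trans hx (by omega)
  have hinj : Function.Injective (algebraMap A E) := IsFractionRing.injective A E
  refine ⟨algebraMap A E x, (transcendental_algebraMap_iff hinj).2 htr, ?_⟩
  have hF : ∀ y ∈ Algebra.adjoin K {x},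
      algebraMap A E y ∈ IntermediateField.adjoin K {algebraMap A E x} := by
    intro y hy
    have h1 : algebraMap A E y ∈ (Algebra.adjoin K {x}).map (IsScalarTower.toAlgHom K A E) :=
      ⟨y, hy, rfl⟩
    rw [AlgHom.map_adjoin, Set.image_singleton] at h1
    exact IntermediateField.algebra_adjoin_le_adjoin K _ h1
  obtain ⟨j, hj⟩ : ∃ j : Algebra.adjoin K {x} →+* IntermediateField.adjoin K {algebraMap A E x},
      ∀ y, ((j y : IntermediateField.adjoin K {algebraMap A E x}) : E) = algebraMap A E y := by
    refine ⟨((algebraMap A E).comp (Algebra.adjoin K {x}).subtype).codRestrict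
      (IntermediateField.adjoin K {algebraMap A E x}).toSubring (fun y => hF y.1 y.2), fun y => rfl⟩
  have hint : ∀ a : A, IsIntegral (IntermediateField.adjoin K {algebraMap A E x})
      (algebraMap A E a) := by
    intro a
    have h1 : IsIntegral (Algebra.adjoin K {x}) a := Algebra.IsIntegral.isIntegral a
    refine h1.map_of_comp_eq j (algebraMap A E) ?_
    ext y
    exact hj y
  obtain ⟨S, hS⟩ := hfin.fg_top
  have hfd : FiniteDimensional (IntermediateField.adjoin K {algebraMap A E x})
      (IntermediateField.adjoin (IntermediateField.adjoin K {algebraMap A E x})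
        ((algebraMap A E) '' (S : Set A))) := by
    have hSf : Finite ((algebraMap A E) '' (S : Set A)) := (S.finite_toSet.image _)
    apply IntermediateField.finiteDimensional_adjoin
    rintro _ ⟨a, _, rfl⟩
    exact hint a
  have hA : ∀ a : A, algebraMap A E a ∈
      IntermediateField.adjoin (IntermediateField.adjoin K {algebraMap A E x})
        ((algebraMap A E) '' (S : Set A)) := by
    intro a
    have h1 : a ∈ Submodule.span (Algebra.adjoin K {x}) (S : Set A) := by
      rw [hS]
      exact Submodule.mem_top
    induction h1 using Submodule.span_induction with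
    | mem s hs => exact IntermediateField.subset_adjoin _ _ ⟨s, hs, rfl⟩
    | zero =>
      rw [map_zero]
      exact zero_mem _
    | add u v _ _ hu hv =>
      rw [map_add]
      exact add_mem hu hv
    | smul y u _ hu =>
      have h2 : algebraMap A E (y • u) = (j y) • algebraMap A E u := by
        rw [Algebra.smul_def, Algebra.smul_def, map_mul]
        congr 1
        exact (hj y).symm
      rw [h2]
      exact (IntermediateField.adjoin (IntermediateField.adjoin K {algebraMap A E x})
        ((algebraMap A E) '' (S : Set A))).smul_mem hu
  have htop : IntermediateField.adjoin (IntermediateField.adjoin K {algebraMap A E x})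
        ((algebraMap A E) '' (S : Set A)) = ⊤ := by
    rw [eq_top_iff]
    intro e _
    obtain ⟨a, b, _, rfl⟩ := IsFractionRing.div_surjective (A := A) e
    exact div_mem (hA a) (hA b)
  rw [htop] at hfd
  exact Module.Finite.equiv
    (IntermediateField.topEquiv (F := IntermediateField.adjoin K {algebraMap A E x})
      (E := E)).toLinearEquiv

end Dg

end CV
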