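import Pool.Agent.Lib.MP_f80667_ag.Cv.PlV
import Pool.Agent.Lib.MP_f80667_ag.Cv.DgA

/-!
The only valuation ring of `E` over `K` which does not contain `A` is the ring at infinity.
-/

open ZC

namespace CV

namespace Dg

variable {K A E : Type} [Field K] [CommRing A] [Algebra K A] [Field E] [Algebra A E]
  [IsFractionRing A E] [Algebra K E] [IsScalarTower K A E] (G : Dg K A)

/-- The valuation of `V` has a maximum on the elements of degree at most `n`. -/
theorem PlI_max (V : ValuationSubring E) (hK : ∀ c : K, algebraMap K E c ∈ V) (n : ℕ) :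
    ∃ a₀ : A, a₀ ≠ 0 ∧ G.d a₀ ≤ n ∧
      ∀ a : A, G.d a ≤ n → V.valuation (algebraMap A E a) ≤ V.valuation (algebraMap A E a₀) := by
  classical
  have := G.nontrivial
  have := G.isDomain
  have hinj : Function.Injective (algebraMap A E) := IsFractionRing.injective A E
  obtain ⟨S, hS⟩ := (G.L_fin n).fg_top
  have h1 : (1 : A) ∈ G.L n := by
    rw [G.mem_L, G.one]
    exact_mod_cast Nat.zero_le n
  have hSne : S.Nonempty := by
    rw [Finset.nonempty_iff_ne_empty]
    intro h0
    rw [h0] at hS
    have h2 : (⟨1, h1⟩ : G.L n) ∈ Submodule.span K ((∅ : Finset (G.L n)) : Set (G.L n)) := by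
      rw [hS]
      trivial
    rw [Finset.coe_empty, Submodule.span_empty, Submodule.mem_bot] at h2
    exact one_ne_zero (congrArg Subtype.val h2)
  obtain ⟨a₀, ha₀, hmax⟩ := S.exists_max_image
    (fun a : G.L n => V.valuation (algebraMap A E (a : A))) hSne
  have hall : ∀ a : G.L n, V.valuation (algebraMap A E (a : A))
      ≤ V.valuation (algebraMap A E (a₀ : A)) := by
    intro a
    have ha : a ∈ Submodule.span K ((S : Finset (G.L n)) : Set (G.L n)) := by
      rw [hS]
      trivial
    induction ha using Submodule.span_induction with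
    | mem x hx => exact hmax x hx
    | zero =>
      rw [Submodule.coe_zero, map_zero, map_zero]
      exact zero_le
    | add x y _ _ hx hy =>
      rw [Submodule.coe_add, map_add]
      exact (V.valuation.map_add _ _).trans (max_le hx hy)
    | smul c x _ hx =>
      rw [Submodule.coe_smul, Algebra.smul_def, map_mul, map_mul,
        ← IsScalarTower.algebraMap_apply K A E]
      have h3 : V.valuation (algebraMap K E c) ≤ 1 := (V.valuation_le_one_iff _).2 (hK c)
      calc _ ≤ 1 * V.valuation (algebraMap A E (x : A)) := by gcongr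
        _ ≤ _ := by rw [one_mul]; exact hx
  refine ⟨a₀, ?_, a₀.2, fun a ha => hall ⟨a, ha⟩⟩
  intro h0
  have h4 := hall ⟨1, h1⟩
  rw [h0, map_zero, map_zero, map_one, map_one] at h4
  exact absurd h4 (not_le.2 zero_lt_one)

/-- A valuation ring of `E` which contains `K` and `1 / g` contains `f / g` for `d f ≤ d g`, `d g ≥ 1`. Proof: let `k = d g`, `N` the
`K[1/g]`-submodule of `E` of all `a / g ^ j`, `d a ≤ k j`. It is generated by `a / g ^ J`, `a ∈ L (k J)`, for one `J` with
`n₀ + k ≤ k J` (`n₀` of `tail`): for `j > J` and `d a ≤ k j` use induction on `j` and `d a`: if `d a ≤ k (j - 1)` then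
`a / g ^ j = (1/g) (a / g ^ (j-1))`, otherwise choose `e` of degree `d a - k` (`tail`) and `c` such that `a - c e g` has
smaller degree (`lead`): `a / g ^ j = c e / g ^ (j-1) + (a - c e g) / g ^ j`. So `N` is finitely generated (`L_fin`), it contains
`1` and is closed under multiplication by `f / g`: `f / g` is integral over `K[1/g]` (`isIntegral_of_smul_mem_submodule`), which is contained in the
valuation ring. -/
theorem div_mem (V : ValuationSubring E) (hK : ∀ c : K, algebraMap K E c ∈ V) {f g : A}
    (hg : 1 ≤ G.d g) (hV : (algebraMap A E g)⁻¹ ∈ V) (hfg : G.d f ≤ G.d g) :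
    algebraMap A E f / algebraMap A E g ∈ V := by
  classical
  have := G.nontrivial
  have := G.isDomain
  have hinj : Function.Injective (algebraMap A E) := IsFractionRing.injective A E
  have hg0 : g ≠ 0 := by
    rintro rfl
    rw [G.zero] at hg
    exact absurd hg (by simp)
  obtain ⟨k, hk⟩ := G.exists_nat hg0
  have hk1 : 1 ≤ k := by
    rw [hk] at hg
    exact_mod_cast hg
  obtain ⟨n₀, htail⟩ := G.tail
  set φ := algebraMap A E with hφ
  set v := V.valuation with hv
  have hφg : φ g ≠ 0 := fun h => hg0 (hinj (by rw [h, map_zero]))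
  have hvg : v (φ g) ≠ 0 := v.ne_zero_iff.2 hφg
  have hvg1 : v (φ g)⁻¹ ≤ 1 := (V.valuation_le_one_iff _).2 hV
  obtain ⟨J, hJ⟩ : ∃ J, n₀ + k ≤ k * J := ⟨n₀ + k, Nat.le_mul_of_pos_left _ hk1⟩
  obtain ⟨a₀, ha₀, hda₀, hmax⟩ := G.PlI_max V hK (k * J)
  have hB : v (φ a₀ / φ g ^ J) ≠ 0 := by
    apply v.ne_zero_iff.2
    exact div_ne_zero (fun h => ha₀ (hinj (by rw [h, map_zero]))) (pow_ne_zero _ hφg)
  -- the bound
  have hcl : ∀ j : ℕ, ∀ n : ℕ, ∀ a : A, G.d a ≤ n → n ≤ k * j →
      v (φ a / φ g ^ j) ≤ v (φ a₀ / φ g ^ J) := by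
    intro j
    induction j with
    | zero =>
      intro n a ha hn
      have h1 : φ a / φ g ^ 0 = φ (a * g ^ J) / φ g ^ J := by
        rw [map_mul, map_pow]
        field_simp
      rw [h1, map_div₀, map_div₀ v (φ a₀)]
      have h2 : G.d (a * g ^ J) ≤ (k * J : ℕ) := by
        rw [G.mul, G.pow hk]
        have h3 : n = 0 := by omega
        rw [h3] at ha
        calc G.d a + ((k * J : ℕ) : WithBot ℕ) ≤ ((0 : ℕ) : WithBot ℕ) + ((k * J : ℕ) : WithBot ℕ) := by gcongr
          _ = _ := by rw [Nat.cast_zero, zero_add]
      exact div_le_div_of_nonneg_right (hmax _ h2) zero_le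
    | succ j ihj =>
      intro n
      induction n using Nat.strong_induction_on with
      | _ n ihn =>
        intro a ha hn
        by_cases hjJ : j + 1 ≤ J
        · obtain ⟨i, hi⟩ := Nat.exists_eq_add_of_le hjJ
          have h1 : φ a / φ g ^ (j + 1) = φ (a * g ^ i) / φ g ^ J := by
            rw [map_mul, map_pow, hi, pow_add]
            field_simp
            ring
          rw [h1, map_div₀, map_div₀ v (φ a₀)]
          have h2 : G.d (a * g ^ i) ≤ (k * J : ℕ) := by
            rw [G.mul, G.pow hk]
            calc G.d a + ((k * i : ℕ) : WithBot ℕ) ≤ ((n : ℕ) : WithBot ℕ) + ((k * i : ℕ) : WithBot ℕ) := by gcongr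
              _ ≤ _ := by
                rw [← Nat.cast_add, Nat.cast_le, hi, mul_add]
                omega
          exact div_le_div_of_nonneg_right (hmax _ h2) zero_le
        · have hstep : φ a / φ g ^ (j + 1) = (φ g)⁻¹ * (φ a / φ g ^ j) := by
            rw [pow_succ]
            field_simp
          by_cases hnj : n ≤ k * j
          · rw [hstep, map_mul]
            calc v (φ g)⁻¹ * v (φ a / φ g ^ j) ≤ 1 * v (φ a / φ g ^ j) := by gcongr
              _ ≤ _ := by rw [one_mul]; exact ihj n a ha hnj
          · push Not at hnj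
            by_cases han : G.d a < n
            · by_cases ha0 : a = 0
              · rw [ha0, map_zero, zero_div, map_zero]
                exact zero_le
              · obtain ⟨n', hn'⟩ := G.exists_nat ha0
                rw [hn', Nat.cast_lt] at han
                exact ihn n' han a hn'.le (by omega)
            · have hda : G.d a = n := le_antisymm ha (not_lt.1 han)
              have hkj : k * J ≤ k * j := Nat.mul_le_mul_left k (by omega)
              have hnk : n₀ ≤ n - k := by omega
              obtain ⟨e, he⟩ := htail (n - k) hnk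
              have hdeg : G.d (e * g) = n := by
                rw [G.mul, he, hk, ← Nat.cast_add]
                congr 1
                omega
              obtain ⟨c, hc⟩ := G.lead a (e * g) (G.ne_zero hdeg) (by rw [hda, hdeg])
              rw [hdeg] at hc
              have hrest : v (φ (a - c • (e * g)) / φ g ^ (j + 1)) ≤ v (φ a₀ / φ g ^ J) := by
                by_cases hr0 : a - c • (e * g) = 0
                · rw [hr0, map_zero, zero_div, map_zero]
                  exact zero_le
                · obtain ⟨n', hn'⟩ := G.exists_nat hr0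
                  rw [hn', Nat.cast_lt] at hc
                  exact ihn n' hc _ hn'.le (by omega)
              have he2 : v (φ e / φ g ^ j) ≤ v (φ a₀ / φ g ^ J) := by
                refine ihj (n - k) e he.le ?_
                rw [Nat.mul_succ] at hn
                omega
              have hsplit : φ a / φ g ^ (j + 1) = algebraMap K E c * (φ e / φ g ^ j)
                  + φ (a - c • (e * g)) / φ g ^ (j + 1) := by
                have hc2 : φ (algebraMap K A c) = algebraMap K E c :=
                  (IsScalarTower.algebraMap_apply K A E c).symm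
                rw [map_sub, Algebra.smul_def, map_mul, map_mul, hc2]
                field_simp
                ring
              rw [hsplit]
              refine (v.map_add _ _).trans (max_le ?_ hrest)
              rw [map_mul]
              have hcv : v (algebraMap K E c) ≤ 1 := (V.valuation_le_one_iff _).2 (hK c)
              calc v (algebraMap K E c) * v (φ e / φ g ^ j) ≤ 1 * v (φ e / φ g ^ j) := by gcongr
                _ ≤ _ := by rw [one_mul]; exact he2
  have hfin := hcl (J + 1) (k * (J + 1)) (f * a₀) (by
    rw [G.mul]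
    calc G.d f + G.d a₀ ≤ ((k : ℕ) : WithBot ℕ) + ((k * J : ℕ) : WithBot ℕ) := by
          rw [hk] at hfg
          gcongr
      _ = _ := by
        rw [← Nat.cast_add]
        congr 1
        ring) le_rfl
  have hz : φ (f * a₀) / φ g ^ (J + 1) = (φ f / φ g) * (φ a₀ / φ g ^ J) := by
    rw [map_mul, pow_succ]
    field_simp
  rw [hz, map_mul] at hfin
  rw [← V.valuation_le_one_iff]
  by_contra hcon
  push Not at hcon
  have hpos : 0 < v (φ a₀ / φ g ^ J) := zero_lt_iff.2 hB
  have h9 : v (φ a₀ / φ g ^ J) < v (φ f / φ g) * v (φ a₀ / φ g ^ J) := by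
    calc v (φ a₀ / φ g ^ J) = 1 * v (φ a₀ / φ g ^ J) := (one_mul _).symm
      _ < _ := mul_lt_mul_of_pos_right hcon hpos
  exact absurd hfin (not_le.2 h9)

/-- An element of positive degree is not in `V`. -/
theorem PlI_not_mem (V : ValuationSubring E) (hK : ∀ c : K, algebraMap K E c ∈ V)
    {b : A} (hb : algebraMap A E b ∉ V) {g : A} (hg : 1 ≤ G.d g) : algebraMap A E g ∉ V := by
  classical
  intro hgV
  have := G.nontrivial
  have := G.isDomain
  have hinj : Function.Injective (algebraMap A E) := IsFractionRing.injective A E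
  have hg0 : g ≠ 0 := by
    rintro rfl
    rw [G.zero] at hg
    exact absurd hg (by simp)
  obtain ⟨k, hk⟩ := G.exists_nat hg0
  have hk1 : 1 ≤ k := by
    rw [hk] at hg
    exact_mod_cast hg
  obtain ⟨n₀, htail⟩ := G.tail
  obtain ⟨a₀, ha₀, hda₀, hmax⟩ := G.PlI_max V hK (n₀ + k)
  set φ := algebraMap A E with hφ
  set v := V.valuation with hv
  have hvg1 : v (φ g) ≤ 1 := (V.valuation_le_one_iff _).2 hgV
  have hcl : ∀ n : ℕ, ∀ a : A, G.d a ≤ n → v (φ a) ≤ v (φ a₀) := by
    intro n
    induction n using Nat.strong_induction_on with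
    | _ n ihn =>
      intro a ha
      by_cases hn : n ≤ n₀ + k
      · exact hmax a (ha.trans (by exact_mod_cast hn))
      · push Not at hn
        by_cases han : G.d a < n
        · by_cases ha0 : a = 0
          · rw [ha0, map_zero, map_zero]
            exact zero_le
          · obtain ⟨n', hn'⟩ := G.exists_nat ha0
            rw [hn', Nat.cast_lt] at han
            exact ihn n' han a hn'.le
        · have hda : G.d a = n := le_antisymm ha (not_lt.1 han)
          obtain ⟨e, he⟩ := htail (n - k) (by omega)
          have hdeg : G.d (e * g) = n := by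
            rw [G.mul, he, hk, ← Nat.cast_add]
            congr 1
            omega
          obtain ⟨c, hc⟩ := G.lead a (e * g) (G.ne_zero hdeg) (by rw [hda, hdeg])
          rw [hdeg] at hc
          have hrest : v (φ (a - c • (e * g))) ≤ v (φ a₀) := by
            by_cases hr0 : a - c • (e * g) = 0
            · rw [hr0, map_zero, map_zero]
              exact zero_le
            · obtain ⟨n', hn'⟩ := G.exists_nat hr0
              rw [hn', Nat.cast_lt] at hc
              exact ihn n' hc _ hn'.le
          have he2 : v (φ e) ≤ v (φ a₀) := ihn (n - k) (by omega) e he.le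
          have hsplit : φ a = algebraMap K E c * (φ e * φ g) + φ (a - c • (e * g)) := by
            have hc2 : φ (algebraMap K A c) = algebraMap K E c :=
              (IsScalarTower.algebraMap_apply K A E c).symm
            rw [map_sub, Algebra.smul_def, map_mul, map_mul, hc2]
            ring
          rw [hsplit]
          refine (v.map_add _ _).trans (max_le ?_ hrest)
          rw [map_mul, map_mul]
          have hcv : v (algebraMap K E c) ≤ 1 := (V.valuation_le_one_iff _).2 (hK c)
          calc v (algebraMap K E c) * (v (φ e) * v (φ g)) ≤ 1 * (v (φ e) * 1) := by gcongr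
            _ ≤ _ := by rw [one_mul, mul_one]; exact he2
  obtain ⟨m, hm⟩ : ∃ m : ℕ, G.d (b * a₀) ≤ m := by
    by_cases h0 : b * a₀ = 0
    · exact ⟨0, by rw [h0, G.zero]; exact bot_le⟩
    · obtain ⟨m, hm⟩ := G.exists_nat h0
      exact ⟨m, hm.le⟩
  have hfin := hcl m (b * a₀) hm
  rw [map_mul, map_mul] at hfin
  apply hb
  rw [← V.valuation_le_one_iff]
  by_contra hcon
  push Not at hcon
  have hpos : 0 < v (φ a₀) := zero_lt_iff.2 (v.ne_zero_iff.2 (fun h => ha₀ (hinj (by rw [h, map_zero]))))
  have h9 : v (φ a₀) < v (φ b) * v (φ a₀) := by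
    calc v (φ a₀) = 1 * v (φ a₀) := (one_mul _).symm
      _ < _ := mul_lt_mul_of_pos_right hcon hpos
  exact absurd hfin (not_le.2 h9)

/-- A valuation ring of `E` which contains `K` and not `A` is the ring at infinity. Proof: some `b ∈ A` is not in `V`; if `d g ≥ 1` then
`g ∉ V` because `A` is integral over `K[g]` (`fin_adjoin`), so `1 / g ∈ V` and `div_mem` gives `vi ≤ V`
(`d g = 0`: `const`); and `vi` is a maximal subring: if `z ∈ V`, `z ∉ vi` then every `e ∈ E` is `z ^ k (e / z ^ k)` with
`e / z ^ k ∈ vi` for large `k`, so `V = ⊤`. -/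
theorem eq_vi (V : ValuationSubring E) (hK : ∀ c : K, algebraMap K E c ∈ V) (hV : V ≠ ⊤)
    {b : A} (hb : algebraMap A E b ∉ V) : V = G.vi := by
  classical
  have := G.nontrivial
  have := G.isDomain
  have hinj : Function.Injective (algebraMap A E) := IsFractionRing.injective A E
  have hle : ∀ x : E, x ∈ G.vi (E := E) → x ∈ V := by
    intro x hx
    obtain ⟨f, g, hg, rfl⟩ := IsFractionRing.div_surjective (A := A) x
    have hg0 : g ≠ 0 := nonZeroDivisors.ne_zero hg
    rw [G.mem_vi hg0] at hx
    by_cases h1 : 1 ≤ G.d g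
    · refine G.div_mem V hK h1 ?_ hx
      rcases V.mem_or_inv_mem (algebraMap A E g) with h2 | h2
      · exact absurd h2 (G.PlI_not_mem V hK hb h1)
      · exact h2
    · have h2 : G.d g ≤ 0 := by
        obtain ⟨k, hk⟩ := G.exists_nat hg0
        rw [hk] at h1 ⊢
        have h3 : ¬ (1 ≤ k) := fun h => h1 (by exact_mod_cast h)
        exact_mod_cast (show k ≤ 0 by omega)
      obtain ⟨c, hc⟩ := G.const h2
      obtain ⟨c', hc'⟩ := G.const (hx.trans h2)
      rw [hc, hc', ← IsScalarTower.algebraMap_apply K A E, ← IsScalarTower.algebraMap_apply K A E,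
        ← map_div₀]
      exact hK _
  apply le_antisymm
  · intro z hz
    by_contra hzv
    apply hV
    rw [eq_top_iff]
    intro e _
    obtain ⟨f, g, hg, rfl⟩ := IsFractionRing.div_surjective (A := A) z
    have hg0 : g ≠ 0 := nonZeroDivisors.ne_zero hg
    rw [G.mem_vi hg0, not_le] at hzv
    have hf0 : f ≠ 0 := by
      rintro rfl
      rw [G.zero] at hzv
      exact absurd hzv not_lt_bot
    obtain ⟨a, s, hs, rfl⟩ := IsFractionRing.div_surjective (A := A) e
    have hs0 : s ≠ 0 := nonZeroDivisors.ne_zero hs
    obtain ⟨p, hp⟩ := G.exists_nat hf0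
    obtain ⟨q, hq⟩ := G.exists_nat hg0
    obtain ⟨t, ht⟩ := G.exists_nat hs0
    rw [hp, hq, Nat.cast_lt] at hzv
    obtain ⟨m, hm⟩ : ∃ m : ℕ, G.d a ≤ m := by
      by_cases h0 : a = 0
      · exact ⟨0, by rw [h0, G.zero]; exact bot_le⟩
      · obtain ⟨m, hm⟩ := G.exists_nat h0
        exact ⟨m, hm.le⟩
    have h1 : algebraMap A E (a * g ^ m) / algebraMap A E (s * f ^ m) ∈ G.vi (E := E) := by
      rw [G.mem_vi (mul_ne_zero hs0 (pow_ne_zero _ hf0)), G.mul, G.mul, G.pow hq, G.pow hp, ht]
      calc G.d a + ((q * m : ℕ) : WithBot ℕ) ≤ ((m : ℕ) : WithBot ℕ) + ((q * m : ℕ) : WithBot ℕ) := by gcongr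
        _ ≤ _ := by
          rw [← Nat.cast_add, ← Nat.cast_add, Nat.cast_le]
          have h2 : (q + 1) * m ≤ p * m := Nat.mul_le_mul_right m hzv
          rw [add_mul, one_mul] at h2
          omega
    have h2 := V.mul_mem _ _ (V.pow_mem hz m) (hle _ h1)
    have hφ : ∀ x : A, x ≠ 0 → algebraMap A E x ≠ 0 := fun x hx h => hx (hinj (by rw [h, map_zero]))
    have h3 : (algebraMap A E f / algebraMap A E g) ^ m
        * (algebraMap A E (a * g ^ m) / algebraMap A E (s * f ^ m))
        = algebraMap A E a / algebraMap A E s := by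
      have hf1 := hφ f hf0
      have hg1 := hφ g hg0
      have hs1 := hφ s hs0
      rw [map_mul, map_mul, map_pow, map_pow, div_pow]
      field_simp
    rw [h3] at h2
    exact h2
  · exact fun x hx => hle x hx

end Dg

end CV
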