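import Pool.Agent.Lib.MP_f80667_ag.Pe.PlcA
import Pool.Agent.Lib.MP_f80667_ag.Cv.PlE
import Pool.Agent.Lib.MP_f80667_ag.Cv.PlI
import Pool.Agent.Lib.MP_f80667_ag.Cv.PlD

/-!
The finite places of the field of fractions `E` of a `K`-algebra `A` with a degree function: places above the homomorphisms
`φ : A → Ω`.
-/

open ZC

namespace CV

namespace Dg

variable {K A E : Type} [Field K] [CommRing A] [Algebra K A] [Field E] [Algebra A E]
  [IsFractionRing A E] [Algebra K E] [IsScalarTower K A E] (G : Dg K A) {Ω : Type} [Field Ω]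
  [Algebra K Ω]

include G in
/-- A place is the place at infinity or above a homomorphism. Proof: `eq_vi`; if `A ⊆ V` take the residues. -/
theorem inf_or_ab (w : Place K E Ω) : w.V = G.vi ∨ ∃ φ : A →ₐ[K] Ω, Ab w φ := by
  by_cases h : ∀ a : A, algebraMap A E a ∈ w.V
  · right
    have hc : ∀ c : K, algebraMap A E (algebraMap K A c) = algebraMap K E c := fun c =>
      (IsScalarTower.algebraMap_apply K A E c).symm
    let r : A →+* Ω :=
      { toFun := fun a => w.res ⟨algebraMap A E a, h a⟩
        map_one' := by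
          rw [← map_one w.res]
          exact congrArg w.res (Subtype.ext (map_one _))
        map_mul' := by
          intro x y
          rw [← map_mul w.res]
          exact congrArg w.res (Subtype.ext (map_mul _ _ _))
        map_zero' := by
          rw [← map_zero w.res]
          exact congrArg w.res (Subtype.ext (map_zero _))
        map_add' := by
          intro x y
          rw [← map_add w.res]
          exact congrArg w.res (Subtype.ext (map_add _ _ _)) }
    have hr : ∀ c : K, r (algebraMap K A c) = algebraMap K Ω c := by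
      intro c
      change w.res ⟨algebraMap A E (algebraMap K A c), _⟩ = algebraMap K Ω c
      rw [← w.res_k c]
      exact congrArg w.res (Subtype.ext (hc c))
    let φ : A →ₐ[K] Ω := { r with commutes' := hr }
    exact ⟨φ, fun a => ⟨h a, rfl⟩⟩
  · left
    push Not at h
    obtain ⟨b, hb⟩ := h
    exact G.eq_vi w.V w.mem w.ne_top hb

/-- Proof: some `a ∈ A` is not in `vi` (`tail`). -/
theorem not_ab_inf {w : Place K E Ω} (h : w.V = G.vi) (φ : A →ₐ[K] Ω) : ¬ Ab w φ := by
  intro hab
  have := G.nontrivial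
  obtain ⟨n₀, hn₀⟩ := G.tail
  obtain ⟨x, hx⟩ := hn₀ (n₀ + 1) (by omega)
  obtain ⟨hmem, -⟩ := hab x
  rw [h] at hmem
  have h1 : algebraMap A E x = algebraMap A E x / algebraMap A E 1 := by
    rw [map_one, div_one]
  rw [h1, G.mem_vi one_ne_zero, hx, G.one, ← Nat.cast_zero, Nat.cast_le] at hmem
  omega

include G in
/-- Proof: `exists_plcA` for the image of `A` in `E`, `ff`; `a = ` a nonzero element of the kernel (`φ` is not injective: `Ω` is
algebraic over `K`, elements of positive degree are transcendental). -/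
theorem exists_ab [CharZero K] [IsAlgClosure K Ω] (φ : A →ₐ[K] Ω) : ∃ w : Place K E Ω, Ab w φ := by
  have hΩ : IsAlgClosed Ω := IsAlgClosure.isAlgClosed K
  have halg : Algebra.IsAlgebraic K Ω := IsAlgClosure.isAlgebraic
  have hinj : Function.Injective (IsScalarTower.toAlgHom K A E) := IsFractionRing.injective A E
  let e : A ≃ₐ[K] (IsScalarTower.toAlgHom K A E).range :=
    AlgEquiv.ofInjective (IsScalarTower.toAlgHom K A E) hinj
  obtain ⟨n₀, hn₀⟩ := G.tail
  obtain ⟨x, hx⟩ := hn₀ (n₀ + 1) (by omega)
  have htr : Transcendental K x := G.trans hx (by omega)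
  obtain ⟨p, hp, hpx⟩ := halg.isAlgebraic (φ x)
  have ha0 : Polynomial.aeval x p ≠ 0 := by
    intro h0
    exact hp ((transcendental_iff.1 htr) p h0)
  have haφ : φ (Polynomial.aeval x p) = 0 := by
    rw [← Polynomial.aeval_algHom_apply, hpx]
  have hff : IsFunField K E := by
    first
      | exact G.ff
      | exact ff
  obtain ⟨w, hw⟩ := PE.exists_plcA (Ω := Ω) hff (IsScalarTower.toAlgHom K A E).range
    (φ.comp e.symm.toAlgHom) (e (Polynomial.aeval x p))
    (fun h0 => ha0 (e.injective (h0.trans (map_zero e).symm)))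
    (by
      change φ (e.symm (e (Polynomial.aeval x p))) = 0
      rw [e.symm_apply_apply, haφ])
  refine ⟨w, fun a => ?_⟩
  obtain ⟨h, hres⟩ := hw (e a)
  refine ⟨h, ?_⟩
  have h2 : (φ.comp e.symm.toAlgHom) (e a) = φ a := by
    change φ (e.symm (e a)) = φ a
    rw [e.symm_apply_apply]
  rw [← h2, ← hres]
  rfl

/-- Units of the local ring are units at the places above. -/
theorem lu_unit {w : Place K E Ω} {φ : A →ₐ[K] Ω} (h : Ab w φ) {x y : A} (hx : x ≠ 0) (hy : y ≠ 0)
    (hl : Lu φ x y) : algebraMap A E x / algebraMap A E y ∈ w.V ∧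
      (algebraMap A E x / algebraMap A E y)⁻¹ ∈ w.V := by
  obtain ⟨s, s', hs, hs', hss⟩ := hl
  have hinj : Function.Injective (algebraMap A E) := IsFractionRing.injective A E
  have hne : ∀ t : A, t ≠ 0 → algebraMap A E t ≠ 0 := fun t ht h0 =>
    ht (hinj (h0.trans (map_zero _).symm))
  have hinv : ∀ t : A, φ t ≠ 0 → (algebraMap A E t)⁻¹ ∈ w.V := by
    intro t ht
    obtain ⟨hm, hr⟩ := h t
    have hu : IsUnit (⟨algebraMap A E t, hm⟩ : w.V) := by
      by_contra hnu
      exact ht (by rw [← hr, w.res_zero _ hnu])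
    obtain ⟨u, hu⟩ := hu
    have h1 : ((u : w.V) : E) * ((u⁻¹ : (w.V)ˣ) : w.V) = 1 := by
      exact congrArg Subtype.val u.mul_inv
    have h2 : ((u : w.V) : E) = algebraMap A E t := congrArg Subtype.val hu
    rw [h2] at h1
    rw [← eq_inv_of_mul_eq_one_right h1]
    exact ((u⁻¹ : (w.V)ˣ) : w.V).2
  have hs0 : s ≠ 0 := fun h0 => hs (by rw [h0, map_zero])
  have hs'0 : s' ≠ 0 := fun h0 => hs' (by rw [h0, map_zero])
  have heq : algebraMap A E x / algebraMap A E y = algebraMap A E s' / algebraMap A E s := by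
    rw [div_eq_div_iff (hne y hy) (hne s hs0), ← map_mul, ← map_mul, mul_comm x s, hss]
  rw [heq]
  constructor
  · rw [div_eq_mul_inv]
    exact w.V.mul_mem _ _ (h s').1 (hinv s hs)
  · rw [inv_div, div_eq_mul_inv]
    exact w.V.mul_mem _ _ (h s).1 (hinv s' hs')

end Dg

end CV
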