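import Pool.Agent.Lib.MP_f80667_ag.Cv.DgA
import Pool.Agent.Lib.MP_f80667_ag.Cv.PlD

/-!
Regular homomorphisms `φ : A → Ω`: the local ring is a discrete valuation ring.
-/

open ZC

namespace CV

namespace Dg

variable {K A : Type} [Field K] [CommRing A] [Algebra K A] (G : Dg K A) {Ω : Type} [Field Ω]
  [Algebra K Ω]

include G in
/-- Every element is a power of `t` up to a unit of the local ring. Proof: `A` is Noetherian (`noeth`), so `A` localized at the kernel of `φ` is a
Noetherian local domain whose maximal ideal is generated by `t`; `t` is not `0` (`φ` is not injective), so it is a discrete valuation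
ring (`IsDiscreteValuationRing.TFAE` or Krull's intersection theorem). -/
theorem rg_fac [Algebra.IsAlgebraic K Ω] {φ : A →ₐ[K] Ω} {t : A} (h : Rg φ t) {x : A} (hx : x ≠ 0) :
    ∃ m : ℕ, Lu φ x (t ^ m) := by
  have hdom := G.isDomain
  have hno := G.noeth
  obtain ⟨ht, s0, hs0, hdiv⟩ := h
  by_contra hcon
  push Not at hcon
  have key : ∀ n : ℕ, ∃ s : A, φ s ≠ 0 ∧ t ^ n ∣ s * x := by
    intro n
    induction n with
    | zero => exact ⟨1, by rw [map_one]; exact one_ne_zero, by rw [pow_zero]; exact one_dvd _⟩
    | succ n ih =>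
      obtain ⟨s, hs, y, hy⟩ := ih
      by_cases hφ : φ y = 0
      · obtain ⟨z, hz⟩ := hdiv y hφ
        refine ⟨s0 * s, ?_, z, ?_⟩
        · rw [map_mul]
          exact mul_ne_zero hs0 hs
        · rw [mul_assoc, hy, pow_succ, mul_left_comm, hz]
          ring
      · exact absurd ⟨s, y, hs, hφ, by rw [hy, mul_comm]⟩ (hcon n)
  set P : Ideal A := RingHom.ker φ.toRingHom with hP
  have hPp : P.IsPrime := RingHom.ker_isPrime _
  have hmem : ∀ a : A, a ∈ P ↔ φ a = 0 := fun a => RingHom.mem_ker
  let R := Localization.AtPrime P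
  have hRn : IsNoetherianRing R := IsLocalization.isNoetherianRing P.primeCompl R hno
  have hle : P.primeCompl ≤ nonZeroDivisors A := P.primeCompl_le_nonZeroDivisors
  have hinj : Function.Injective (algebraMap A R) := IsLocalization.injective R hle
  have hRd : IsDomain R := IsLocalization.isDomain_of_le_nonZeroDivisors R hle
  have hI : Ideal.span {algebraMap A R t} ≠ ⊤ := by
    rw [Ne, Ideal.span_singleton_eq_top, IsLocalization.AtPrime.isUnit_to_map_iff R P]
    intro h1
    exact h1 ((hmem t).2 ht)
  have hbot := Ideal.iInf_pow_eq_bot_of_isDomain _ hI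
  have hx0 : algebraMap A R x ∈ ⨅ n : ℕ, Ideal.span {algebraMap A R t} ^ n := by
    rw [Ideal.mem_iInf]
    intro n
    obtain ⟨s, hs, hsx⟩ := key n
    rw [Ideal.span_singleton_pow, Ideal.mem_span_singleton]
    have hu : IsUnit (algebraMap A R s) :=
      (IsLocalization.AtPrime.isUnit_to_map_iff R P s).2 (fun h1 => hs ((hmem s).1 h1))
    have h2 : algebraMap A R t ^ n ∣ algebraMap A R s * algebraMap A R x := by
      rw [← map_pow, ← map_mul]
      exact map_dvd _ hsx
    exact (hu.dvd_mul_left).1 h2
  rw [hbot, Ideal.mem_bot] at hx0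
  exact hx (hinj (by rw [hx0, map_zero]))

end Dg

end CV
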