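import Pool.Agent.Lib.MP_f80667_ag.Cv.PlG
import Pool.Agent.Lib.MP_f80667_ag.ZC.Place

/-!
The place above a regular homomorphism `φ : A → Ω` and the orders.
-/

open ZC

namespace CV

namespace Dg

variable {K A E : Type} [Field K] [CommRing A] [Algebra K A] [Field E] [Algebra A E]
  [IsFractionRing A E] [Algebra K E] [IsScalarTower K A E] (G : Dg K A) {Ω : Type} [Field Ω]
  [Algebra K Ω]

/-- The degree of a polynomial in an element. -/
private theorem plh_aeval {x : A} {m : ℕ} (hx : G.d x = m) (hm : 0 < m) (k : ℕ) :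
    ∀ p : Polynomial K, p ≠ 0 → p.natDegree = k →
      G.d (Polynomial.aeval x p) = (m * k : ℕ) := by
  induction k using Nat.strong_induction_on with
  | _ k ih =>
    intro p hp hk
    have hlc : p.leadingCoeff ≠ 0 := Polynomial.leadingCoeff_ne_zero.2 hp
    have e : Polynomial.aeval x p =
        Polynomial.aeval x p.eraseLead + p.leadingCoeff • x ^ k := by
      conv_lhs => rw [← p.eraseLead_add_monomial_natDegree_leadingCoeff]
      rw [map_add, hk, Polynomial.aeval_monomial, Algebra.smul_def]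
    have h1 : G.d (p.leadingCoeff • x ^ k) = (m * k : ℕ) := by
      rw [G.smul hlc, G.pow hx]
    by_cases h0 : p.eraseLead = 0
    · rw [e, h0, map_zero, zero_add, h1]
    · have h2 : p.eraseLead.natDegree < k := by
        have h3 : 2 ≤ p.support.card := by
          by_contra hcon
          apply h0
          have h4 : p.support.card - 1 = 0 := by omega
          have h5 := Polynomial.card_support_eraseLead (f := p)
          rw [h4, Finset.card_eq_zero] at h5
          exact Polynomial.support_eq_empty.1 h5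
        rw [← hk]
        exact Polynomial.eraseLead_natDegree_lt h3
      have h3 := ih _ h2 p.eraseLead h0 rfl
      rw [e, G.add_eq, h1]
      rw [h3, h1, Nat.cast_lt]
      exact Nat.mul_lt_mul_of_pos_left h2 hm

include G in
/-- The parameter is not zero: `φ` is not injective. -/
private theorem plh_ne [Algebra.IsAlgebraic K Ω] {φ : A →ₐ[K] Ω} {t : A} (h : Rg φ t) : t ≠ 0 := by
  have := G.isDomain
  rintro rfl
  obtain ⟨n₀, h0⟩ := G.tail
  obtain ⟨x, hx⟩ := h0 (n₀ + 1) (Nat.le_succ _)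
  obtain ⟨p, hp, hp0⟩ := Algebra.IsAlgebraic.isAlgebraic (R := K) (φ x)
  have h1 : Polynomial.aeval x p ≠ 0 :=
    G.ne_zero (plh_aeval G hx (Nat.succ_pos _) _ p hp rfl)
  have h2 : φ (Polynomial.aeval x p) = 0 := by
    rw [← Polynomial.aeval_algHom_apply]
    exact hp0
  obtain ⟨-, s, hs, h3⟩ := h
  have h4 := zero_dvd_iff.1 (h3 _ h2)
  rcases mul_eq_zero.1 h4 with h5 | h5
  · rw [h5, map_zero] at hs
    exact hs rfl
  · exact h1 h5

omit [IsFractionRing A E] [IsScalarTower K A E] in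
/-- An element which does not vanish is a unit. -/
private theorem plh_unit {w : Place K E Ω} {φ : A →ₐ[K] Ω} (hw : Ab w φ) {a : A} (ha : φ a ≠ 0) :
    algebraMap A E a ≠ 0 ∧ algebraMap A E a ∈ w.V ∧ (algebraMap A E a)⁻¹ ∈ w.V := by
  obtain ⟨h, hr⟩ := hw a
  have hu : IsUnit (⟨algebraMap A E a, h⟩ : w.V) := by
    by_contra hcon
    have h1 := w.res_zero _ hcon
    rw [hr] at h1
    exact ha h1
  obtain ⟨b, hb⟩ := hu.exists_right_inv
  have hb' : algebraMap A E a * (b : E) = 1 := congrArg Subtype.val hb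
  have hne : algebraMap A E a ≠ 0 := left_ne_zero_of_mul_eq_one hb'
  refine ⟨hne, h, ?_⟩
  rw [inv_eq_of_mul_eq_one_right hb']
  exact b.2

omit [IsFractionRing A E] [IsScalarTower K A E] in
/-- An element which vanishes is not a unit. -/
private theorem plh_non {w : Place K E Ω} {φ : A →ₐ[K] Ω} (hw : Ab w φ) {a : A} (ha : φ a = 0) :
    (algebraMap A E a)⁻¹ ∈ w.V → algebraMap A E a = 0 := by
  intro h1
  by_contra hne
  obtain ⟨h, hr⟩ := hw a
  have h2 : (⟨algebraMap A E a, h⟩ : w.V) * ⟨(algebraMap A E a)⁻¹, h1⟩ = 1 :=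
    Subtype.ext (mul_inv_cancel₀ hne)
  have h3 := congrArg w.res h2
  rw [map_mul, hr, ha, zero_mul, map_one] at h3
  exact zero_ne_one h3

omit [IsFractionRing A E] [IsScalarTower K A E] in
/-- The quotient is a unit times a power of the parameter. -/
private theorem plh_quo {w : Place K E Ω} {φ : A →ₐ[K] Ω} {t : A} (ht : algebraMap A E t ≠ 0)
    (hw : Ab w φ) {x y : A} {m n : ℕ} (hx : Lu φ x (t ^ m)) (hy : Lu φ y (t ^ n)) :
    ∃ U : E, U ∈ w.V ∧ U⁻¹ ∈ w.V ∧ U ≠ 0 ∧ algebraMap A E y ≠ 0 ∧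
      algebraMap A E x / algebraMap A E y = U * (algebraMap A E t ^ m / algebraMap A E t ^ n) := by
  obtain ⟨a, a', ha, ha', h1⟩ := hx
  obtain ⟨b, b', hb, hb', h2⟩ := hy
  obtain ⟨a1, a2, a3⟩ := plh_unit hw ha
  obtain ⟨a1', a2', a3'⟩ := plh_unit hw ha'
  obtain ⟨b1, b2, b3⟩ := plh_unit hw hb
  obtain ⟨b1', b2', b3'⟩ := plh_unit hw hb'
  have e1 : algebraMap A E a * algebraMap A E x = algebraMap A E a' * algebraMap A E t ^ m := by
    rw [← map_mul, h1, map_mul, map_pow]
  have e2 : algebraMap A E b * algebraMap A E y = algebraMap A E b' * algebraMap A E t ^ n := by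
    rw [← map_mul, h2, map_mul, map_pow]
  have hy0 : algebraMap A E y ≠ 0 := by
    intro h0
    rw [h0, mul_zero] at e2
    exact mul_ne_zero b1' (pow_ne_zero n ht) e2.symm
  refine ⟨(algebraMap A E a)⁻¹ * algebraMap A E a' * (algebraMap A E b * (algebraMap A E b')⁻¹),
    mul_mem (mul_mem a3 a2') (mul_mem b2 b3'), ?_, ?_, hy0, ?_⟩
  · rw [mul_inv, mul_inv, mul_inv, inv_inv, inv_inv]
    exact mul_mem (mul_mem a2 a3') (mul_mem b3 b2')
  · exact mul_ne_zero (mul_ne_zero (inv_ne_zero a1) a1') (mul_ne_zero b1 (inv_ne_zero b1'))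
  · have ht' : algebraMap A E t ^ n ≠ 0 := pow_ne_zero n ht
    rw [eq_comm]
    field_simp
    linear_combination (-(algebraMap A E b * algebraMap A E y)) * e1 +
      (algebraMap A E a * algebraMap A E x) * e2

include G

/-- The valuation ring of a place above `φ`. Proof: `x / y` with `Lu φ x (t ^ m)`, `Lu φ y (t ^ n)` is in `w.V` iff `n ≤ m`
(`w.res t = 0`, so `t` is a nonunit of `w.V`). -/
theorem rg_mem [Algebra.IsAlgebraic K Ω] {w : Place K E Ω} {φ : A →ₐ[K] Ω} {t : A} (h : Rg φ t)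
    (hw : Ab w φ) {x y : A} {m n : ℕ} (hx : Lu φ x (t ^ m)) (hy : Lu φ y (t ^ n)) :
    algebraMap A E x / algebraMap A E y ∈ w.V ↔ n ≤ m := by
  have := G.isDomain
  have ht : algebraMap A E t ≠ 0 := by
    rw [Ne, FaithfulSMul.algebraMap_eq_zero_iff]
    exact plh_ne G h
  obtain ⟨U, hU1, hU2, hU3, hy0, hU⟩ := plh_quo ht hw hx hy
  rw [hU]
  constructor
  · intro h1
    by_contra hcon
    push Not at hcon
    have h2 : algebraMap A E t ^ m / algebraMap A E t ^ n ∈ w.V := by
      have h3 := mul_mem hU2 h1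
      rwa [inv_mul_cancel_left₀ hU3] at h3
    have h3 : (algebraMap A E t)⁻¹ ∈ w.V := by
      have h4 : (algebraMap A E t)⁻¹ = algebraMap A E t ^ (n - m - 1) *
          (algebraMap A E t ^ m / algebraMap A E t ^ n) := by
        rw [eq_comm, ← mul_div_assoc, ← pow_add, div_eq_iff (pow_ne_zero n ht),
          show n = (n - m - 1 + m) + 1 by omega, pow_succ _ (n - m - 1 + m)]
        rw [show n - m - 1 + m + 1 - m - 1 + m = n - m - 1 + m by omega]
        field_simp
      rw [h4]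
      exact mul_mem (pow_mem (hw t).1 _) h2
    exact ht (plh_non hw h.1 h3)
  · intro h1
    refine mul_mem hU1 ?_
    have h2 : algebraMap A E t ^ m / algebraMap A E t ^ n = algebraMap A E t ^ (m - n) := by
      rw [div_eq_iff (pow_ne_zero n ht), ← pow_add, Nat.sub_add_cancel h1]
    rw [h2]
    exact pow_mem (hw t).1 _

/-- An element of the valuation ring is a quotient with denominator not vanishing. -/
private theorem plh_res [Algebra.IsAlgebraic K Ω] {w : Place K E Ω} {φ : A →ₐ[K] Ω} {t : A}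
    (h : Rg φ t) (hw : Ab w φ) {z : E} (hz : z ∈ w.V) :
    ∃ x y : A, φ y ≠ 0 ∧ z * algebraMap A E y = algebraMap A E x := by
  have := G.isDomain
  obtain ⟨x, y, hy0, rfl⟩ := IsFractionRing.div_surjective (A := A) z
  have hy1 : y ≠ 0 := nonZeroDivisors.ne_zero hy0
  by_cases hx0 : x = 0
  · refine ⟨0, 1, ?_, ?_⟩
    · rw [map_one]
      exact one_ne_zero
    · rw [hx0, map_zero, zero_div, zero_mul]
  obtain ⟨m, hm⟩ := G.rg_fac h hx0
  obtain ⟨n, hn⟩ := G.rg_fac h hy1
  have hnm := (rg_mem G h hw hm hn).1 hz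
  obtain ⟨a, a', ha, ha', h1⟩ := hm
  obtain ⟨b, b', hb, hb', h2⟩ := hn
  refine ⟨a' * b * t ^ (m - n), a * b', ?_, ?_⟩
  · rw [map_mul]
    exact mul_ne_zero ha hb'
  · have hye : algebraMap A E y ≠ 0 := by
      rw [Ne, FaithfulSMul.algebraMap_eq_zero_iff]
      exact hy1
    have e3 : a * x * (b' * t ^ n) = a' * b * t ^ (m - n) * y * t ^ n := by
      rw [h1, ← h2]
      have e4 : t ^ m = t ^ (m - n) * t ^ n := by rw [← pow_add, Nat.sub_add_cancel hnm]
      rw [e4]
      ring
    have ht0 : t ^ n ≠ 0 := pow_ne_zero n (plh_ne G h)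
    have e5 : a * x * b' = a' * b * t ^ (m - n) * y := by
      apply mul_right_cancel₀ ht0
      rw [← e3]
      ring
    rw [div_mul_eq_mul_div, div_eq_iff hye, ← map_mul, ← map_mul, ← e5]
    congr 1
    ring

omit G [IsFractionRing A E] [IsScalarTower K A E] in
private theorem plh_val {w : Place K E Ω} {φ : A →ₐ[K] Ω} (hw : Ab w φ) {z : E} (hz : z ∈ w.V)
    {x y : A} (hy : φ y ≠ 0) (e : z * algebraMap A E y = algebraMap A E x) :
    w.res ⟨z, hz⟩ = φ x / φ y := by
  obtain ⟨h1, h2⟩ := hw x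
  obtain ⟨h3, h4⟩ := hw y
  have h5 : (⟨z, hz⟩ : w.V) * ⟨algebraMap A E y, h3⟩ = ⟨algebraMap A E x, h1⟩ := Subtype.ext e
  have h6 := congrArg w.res h5
  rw [map_mul, h2, h4] at h6
  rw [eq_div_iff hy]
  exact h6

/-- At a regular `φ` there is one place. Proof: `rg_mem`, `rg_fac`: the valuation rings are the same, and every element of it is
`x / y` with `φ y ≠ 0` (multiply numerator and denominator), with residue `φ x / φ y`. -/
theorem rg_uniq [Algebra.IsAlgebraic K Ω] {w w' : Place K E Ω} {φ : A →ₐ[K] Ω} {t : A} (h : Rg φ t)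
    (hw : Ab w φ) (hw' : Ab w' φ) : w = w' := by
  have key : ∀ {w w' : Place K E Ω}, Ab w φ → Ab w' φ → ∀ z : E, z ∈ w.V → z ∈ w'.V := by
    intro w w' hw hw' z hz
    obtain ⟨x, y, hy, e⟩ := plh_res G h hw hz
    obtain ⟨h1, h2, h3⟩ := plh_unit hw' hy
    rw [← eq_mul_inv_iff_mul_eq₀ h1] at e
    rw [e]
    exact mul_mem (hw' x).1 h3
  refine Place.ext' (SetLike.ext fun z => ⟨key hw hw' z, key hw' hw z⟩) fun z hz hz' => ?_
  obtain ⟨x, y, hy, e⟩ := plh_res G h hw hz
  rw [plh_val hw hz hy e, plh_val hw' hz' hy e]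

/-- The order at a regular `φ`. Proof: `π = t`, `rg_fac`, `rg_mem`. -/
theorem rg_ord [Algebra.IsAlgebraic K Ω] {w : Place K E Ω} {φ : A →ₐ[K] Ω} {t : A} (h : Rg φ t)
    (hw : Ab w φ) {x y : A} {m n : ℕ} (hx : Lu φ x (t ^ m)) (hy : Lu φ y (t ^ n)) :
    w.IsOrd (algebraMap A E x / algebraMap A E y) (m - n : ℤ) := by
  have := G.isDomain
  have ht : algebraMap A E t ≠ 0 := by
    rw [Ne, FaithfulSMul.algebraMap_eq_zero_iff]
    exact plh_ne G h
  obtain ⟨U, hU1, hU2, hU3, hy0, hU⟩ := plh_quo ht hw hx hy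
  refine ⟨algebraMap A E t, U, ht, fun z => ?_, hU1, hU2, hU3, ?_⟩
  · obtain ⟨a, b, hb0, rfl⟩ := IsFractionRing.div_surjective (A := A) z
    have hb1 : b ≠ 0 := nonZeroDivisors.ne_zero hb0
    have hbe : algebraMap A E b ≠ 0 := by
      rw [Ne, FaithfulSMul.algebraMap_eq_zero_iff]
      exact hb1
    by_cases ha0 : a = 0
    · rw [ha0, map_zero, zero_div, zero_div]
      refine ⟨fun _ => zero_mem _, fun _ => ?_⟩
      rw [ValuationSubring.mem_nonunits_iff, map_zero]
      exact zero_lt_one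
    have hae : algebraMap A E a ≠ 0 := by
      rw [Ne, FaithfulSMul.algebraMap_eq_zero_iff]
      exact ha0
    obtain ⟨i, hi⟩ := G.rg_fac h ha0
    obtain ⟨j, hj⟩ := G.rg_fac h hb1
    have h1 : algebraMap A E a / algebraMap A E b ∈ w.V.nonunits ↔
        ¬ algebraMap A E b / algebraMap A E a ∈ w.V := by
      have h2 := w.V.inv_mem_nonunits_iff (x := algebraMap A E b / algebraMap A E a)
      rw [inv_div] at h2
      rw [h2, or_iff_right (div_ne_zero hbe hae)]
    have hjt : Lu φ (b * t) (t ^ (j + 1)) := by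
      obtain ⟨s, s', hs, hs', h2⟩ := hj
      exact ⟨s, s', hs, hs', by rw [← mul_assoc, h2, pow_succ, mul_assoc]⟩
    have h3 := rg_mem G h hw hi hjt
    rw [map_mul, ← div_div] at h3
    rw [h1, rg_mem G h hw hj hi, h3]
    omega
  · rw [hU, zpow_sub₀ ht, zpow_natCast, zpow_natCast]

end Dg

end CV
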