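import Pool.Agent.Lib.MP_f80667_ag.Cv.PlV

/-!
The place at infinity of the field of fractions `E` of a `K`-algebra `A` with a degree function.
-/

open ZC

namespace CV

namespace Dg

variable {K A E : Type} [Field K] [CommRing A] [Algebra K A] [Field E] [Algebra A E]
  [IsFractionRing A E] [Algebra K E] [IsScalarTower K A E] (G : Dg K A)

omit [Algebra K E] [IsScalarTower K A E] in
include G in
private theorem PlO_ne {x : A} (hx : x ≠ 0) : algebraMap A E x ≠ 0 := by
  have := G.isDomain
  intro h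
  exact hx (IsFractionRing.injective A E (by rw [h, map_zero]))

private theorem PlO_cst (a : K) : algebraMap K E a ∈ G.vi (E := E) := by
  have := G.nontrivial
  have h1 : algebraMap K E a = algebraMap A E (algebraMap K A a) / algebraMap A E 1 := by
    rw [map_one, div_one, IsScalarTower.algebraMap_apply K A E]
  rw [h1, G.mem_vi one_ne_zero, G.one]
  by_cases ha : a = 0
  · rw [ha, map_zero, G.zero]
    exact bot_le
  · rw [G.d_cst ha]

/-- Every element of `vi` is a constant plus a nonunit. -/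
private theorem PlO_split {x : E} (hx : x ∈ G.vi (E := E)) :
    ∃ c : K, x - algebraMap K E c ∈ (G.vi (E := E)).nonunits := by
  have := G.isDomain
  obtain ⟨f, g, hg, hfg, rfl⟩ : ∃ f g : A, g ≠ 0 ∧ G.d f ≤ G.d g ∧
      x = algebraMap A E f / algebraMap A E g := hx
  rcases lt_or_eq_of_le hfg with h | h
  · refine ⟨0, ?_⟩
    rw [map_zero, sub_zero, G.non_vi hg]
    exact h
  · obtain ⟨c, hc⟩ := G.lead f g hg h
    refine ⟨c, ?_⟩
    have h1 : algebraMap A E f / algebraMap A E g - algebraMap K E c =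
        algebraMap A E (f - c • g) / algebraMap A E g := by
      have hg' : algebraMap A E g ≠ 0 := G.PlO_ne hg
      rw [map_sub, Algebra.smul_def, map_mul, ← IsScalarTower.algebraMap_apply K A E]
      field_simp
    rw [h1, G.non_vi hg]
    exact hc

variable {Ω : Type} [Field Ω] [Algebra K Ω]

/-- The place at infinity. Proof of existence: `V = vi`; every element of `vi` is `algebraMap c` plus a nonunit, `c ∈ K` unique (`lead`), the residue map is
`c ↦ algebraMap K Ω c`. -/
theorem exists_inf : ∃ w : Place K E Ω, w.V = G.vi := by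
  have hA := G.isDomain
  have hnt := G.nontrivial
  let V : ValuationSubring E := G.vi
  let ι : K →+* V :=
    { toFun := fun a => ⟨algebraMap K E a, G.PlO_cst a⟩
      map_one' := Subtype.ext (map_one _)
      map_mul' := fun a b => Subtype.ext (map_mul _ a b)
      map_zero' := Subtype.ext (map_zero _)
      map_add' := fun a b => Subtype.ext (map_add _ a b) }
  have hbij : Function.Bijective ((IsLocalRing.residue V).comp ι) := by
    refine ⟨RingHom.injective _, fun z => ?_⟩
    obtain ⟨x, rfl⟩ := IsLocalRing.residue_surjective z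
    obtain ⟨c, hc⟩ := G.PlO_split x.2
    refine ⟨c, ?_⟩
    have h1 : x - ι c ∈ IsLocalRing.maximalIdeal V := by
      rw [← ValuationSubring.coe_mem_nonunits_iff]
      exact hc
    have h2 : IsLocalRing.residue V (x - ι c) = 0 := (IsLocalRing.residue_eq_zero_iff _).2 h1
    rw [map_sub, sub_eq_zero] at h2
    rw [RingHom.comp_apply, ← h2]
  let e : K ≃+* IsLocalRing.ResidueField V := RingEquiv.ofBijective _ hbij
  let ρ : V →+* Ω := (algebraMap K Ω).comp (e.symm.toRingHom.comp (IsLocalRing.residue V))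
  refine ⟨⟨V, ?_, G.PlO_cst, ρ, ?_, ?_⟩, rfl⟩
  · intro h
    obtain ⟨n₀, hn⟩ := G.tail
    obtain ⟨x, hx⟩ := hn (n₀ + 1) (by omega)
    have h1 : algebraMap A E x / algebraMap A E 1 ∈ V := by
      rw [h]
      trivial
    have h2 := (G.mem_vi one_ne_zero).1 h1
    rw [hx, G.one, ← Nat.cast_zero, Nat.cast_le] at h2
    omega
  · intro a
    have h1 : e.symm (IsLocalRing.residue V (ι a)) = a := e.symm_apply_apply a
    exact congrArg (algebraMap K Ω) h1
  · intro x hx
    have h1 : IsLocalRing.residue V x = 0 :=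
      (IsLocalRing.residue_eq_zero_iff _).2 ((IsLocalRing.mem_maximalIdeal x).2 hx)
    change algebraMap K Ω (e.symm (IsLocalRing.residue V x)) = 0
    rw [h1, map_zero, map_zero]

/-- Proof: the residue of `x = c + y`, `c ∈ K`, `y` a nonunit is `c`. -/
theorem inf_uniq {w w' : Place K E Ω} (h : w.V = G.vi) (h' : w'.V = G.vi) : w = w' := by
  obtain ⟨V, n1, m1, r1, k1, z1⟩ := w
  obtain ⟨V', n2, m2, r2, k2, z2⟩ := w'
  dsimp only at h h'
  subst h
  subst h'
  have key : r1 = r2 := by
    refine RingHom.ext fun x => ?_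
    obtain ⟨c, hc⟩ := G.PlO_split x.2
    have hc1 : algebraMap K E c ∈ G.vi (E := E) := G.PlO_cst c
    have h1 : ¬ IsUnit (x - (⟨algebraMap K E c, hc1⟩ : G.vi (E := E))) := by
      have h2 := ValuationSubring.coe_mem_nonunits_iff
        (a := x - (⟨algebraMap K E c, hc1⟩ : G.vi (E := E))).1 hc
      rwa [IsLocalRing.mem_maximalIdeal] at h2
    have h3 := z1 _ h1
    have h4 := z2 _ h1
    rw [map_sub, sub_eq_zero, k1] at h3
    rw [map_sub, sub_eq_zero, k2] at h4
    rw [h3, h4]
  subst key
  rfl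

private theorem PlO_unit {p q : A} {i : ℕ} (hp : G.d p = i) (hq : G.d q = i) :
    algebraMap A E p / algebraMap A E q ∈ G.vi (E := E) ∧
      (algebraMap A E p / algebraMap A E q)⁻¹ ∈ G.vi (E := E) ∧
      algebraMap A E p / algebraMap A E q ≠ 0 := by
  refine ⟨?_, ?_, div_ne_zero (G.PlO_ne (G.ne_zero hp)) (G.PlO_ne (G.ne_zero hq))⟩
  · rw [G.mem_vi (G.ne_zero hq), hp, hq]
  · rw [inv_div, G.mem_vi (G.ne_zero hp), hp, hq]

/-- The order at infinity is minus the degree. Proof: `π = x / y` with `d y = d x + 1` (`tail`), `non_vi`. -/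
theorem inf_ord {w : Place K E Ω} (h : w.V = G.vi) {f g : A} {m n : ℕ} (hf : G.d f = m)
    (hg : G.d g = n) : w.IsOrd (algebraMap A E f / algebraMap A E g) (n - m : ℤ) := by
  have hA := G.isDomain
  obtain ⟨n₀, hn⟩ := G.tail
  obtain ⟨a, ha⟩ := hn n₀ le_rfl
  obtain ⟨b, hb⟩ := hn (n₀ + 1) (by omega)
  have ha0 : algebraMap A E a ≠ 0 := G.PlO_ne (G.ne_zero ha)
  have hb0 : algebraMap A E b ≠ 0 := G.PlO_ne (G.ne_zero hb)
  have hf0 : algebraMap A E f ≠ 0 := G.PlO_ne (G.ne_zero hf)
  have hg0 : algebraMap A E g ≠ 0 := G.PlO_ne (G.ne_zero hg)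
  have hpi : algebraMap A E a / algebraMap A E b ≠ 0 := div_ne_zero ha0 hb0
  refine ⟨algebraMap A E a / algebraMap A E b,
    algebraMap A E f / algebraMap A E g * (algebraMap A E b / algebraMap A E a) ^ (n - m : ℤ),
    hpi, ?_, ?_⟩
  · intro x
    rw [h]
    obtain ⟨p, q, hq, rfl⟩ := IsFractionRing.div_surjective (A := A) x
    have hq1 : q ≠ 0 := nonZeroDivisors.ne_zero hq
    have hq0 : algebraMap A E q ≠ 0 := G.PlO_ne hq1
    have h1 : algebraMap A E p / algebraMap A E q / (algebraMap A E a / algebraMap A E b) =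
        algebraMap A E (p * b) / algebraMap A E (q * a) := by
      rw [map_mul, map_mul]
      field_simp
    rw [h1, G.non_vi hq1, G.mem_vi (mul_ne_zero hq1 (G.ne_zero ha)), G.mul, G.mul, ha, hb]
    obtain ⟨j, hj⟩ := G.exists_nat hq1
    by_cases hp : p = 0
    · rw [hp, G.zero, WithBot.bot_add, hj]
      exact ⟨fun _ => bot_le, fun _ => WithBot.bot_lt_coe j⟩
    · obtain ⟨i, hi⟩ := G.exists_nat hp
      rw [hi, hj, ← Nat.cast_add, ← Nat.cast_add, Nat.cast_lt, Nat.cast_le]
      omega
  · rw [h]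
    have h2 : algebraMap A E f / algebraMap A E g =
        algebraMap A E f / algebraMap A E g * (algebraMap A E b / algebraMap A E a) ^ (n - m : ℤ) *
          (algebraMap A E a / algebraMap A E b) ^ (n - m : ℤ) := by
      rw [mul_assoc, ← mul_zpow, div_mul_div_comm, mul_comm (algebraMap A E a),
        div_self (mul_ne_zero hb0 ha0), one_zpow, mul_one]
    have h3 : ∃ (p q : A) (i : ℕ), G.d p = i ∧ G.d q = i ∧
        algebraMap A E f / algebraMap A E g * (algebraMap A E b / algebraMap A E a) ^ (n - m : ℤ) =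
          algebraMap A E p / algebraMap A E q := by
      rcases le_total m n with hmn | hmn
      · obtain ⟨j, rfl⟩ := Nat.exists_eq_add_of_le hmn
        have h4 : (((m + j : ℕ) : ℤ) - m) = (j : ℕ) := by
          push_cast
          ring
        refine ⟨f * b ^ j, g * a ^ j, m + (n₀ + 1) * j, ?_, ?_, ?_⟩
        · rw [G.mul, hf, G.pow hb, ← Nat.cast_add]
        · rw [G.mul, hg, G.pow ha, ← Nat.cast_add]
          congr 1
          ring
        · rw [h4, zpow_natCast, div_pow, div_mul_div_comm, map_mul, map_mul, map_pow, map_pow]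
      · obtain ⟨j, rfl⟩ := Nat.exists_eq_add_of_le hmn
        have h4 : ((n : ℤ) - (n + j : ℕ)) = -(j : ℕ) := by
          push_cast
          ring
        refine ⟨f * a ^ j, g * b ^ j, n + (n₀ + 1) * j, ?_, ?_, ?_⟩
        · rw [G.mul, hf, G.pow ha, ← Nat.cast_add]
          congr 1
          ring
        · rw [G.mul, hg, G.pow hb, ← Nat.cast_add]
        · rw [h4, zpow_neg, zpow_natCast, ← inv_pow, inv_div, div_pow, div_mul_div_comm, map_mul,
            map_mul, map_pow, map_pow]
    obtain ⟨p, q, i, hp, hq, h5⟩ := h3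
    obtain ⟨h6, h7, h8⟩ := G.PlO_unit (E := E) hp hq
    rw [← h5] at h6 h7 h8
    exact ⟨h6, h7, h8, h2⟩

end Dg

end CV
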