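import Pool.Agent.Lib.MP_f80667_ag.Be.PlX
import Pool.Agent.Lib.MP_f80667_ag.Cv.PlF
import Pool.Agent.Lib.MP_f80667_ag.Cv.PlH
import Pool.Agent.Lib.MP_f80667_ag.Cv.PlO

/-!
The divisor of a quotient `x / y` of elements of a `K`-algebra with a degree function as an element of `ratEq`.
-/

open ZC BE

namespace CV

/-- A place above `φ` determines `φ`. -/
theorem plR_ab_inj {K A Ω : Type} [Field K] [CommRing A] [Algebra K A] [Field Ω] [Algebra K Ω]
    {E : Type} [Field E] [Algebra K E] [Algebra A E] {w : Place K E Ω} {φ ψ : A →ₐ[K] Ω}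
    (h : Ab w φ) (h' : Ab w ψ) : φ = ψ := by
  ext a
  obtain ⟨h1, h2⟩ := h a
  obtain ⟨h3, h4⟩ := h' a
  rw [← h2, ← h4]

namespace Dg

variable {F : Type} [Field F] {K A : Type} [Field K] [CharZero K] [CommRing A] [Algebra K A]
  [Algebra F K] {E : Type} [Field E] [Algebra A E] [IsFractionRing A E] [Algebra K E]
  [IsScalarTower K A E] [Algebra F E] [IsScalarTower F K E] (G : Dg K A) {Ω : Type} [Field Ω]
  [Algebra K Ω] [Algebra F Ω] [IsAlgClosure K Ω]

/-- **The divisor of `x / y`.** `x`, `y ∈ A` of degrees `m`, `n`; `S` is a finite set of homomorphisms `φ : A → Ω` at which `A` is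
regular, `x ~ t ^ a`, `y ~ t ^ b` for a generator `t` of the maximal ideal of the local ring; at the other homomorphisms `x` and
`y` differ by a unit of the local ring. `P` is an `E`-point of the variety `V`, `f φ` its value at the places above `φ ∈ S`, `o`
its value at the place at infinity.
Proof: `S'` = the places above the elements of `S` (`exists_ab`, `rg_uniq`) and the place at infinity (`exists_inf`, `inf_uniq`); at the other places
`x / y` is a unit (`inf_or_ab`, `lu_unit`); the orders are `rg_ord`, `inf_ord`; the sum over `S'` is the sum over `S` and infinity (a place above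
`φ` determines `φ`). -/
theorem div_ratEq (V : Vr F) {x y : A} {m n : ℕ} (hx : G.d x = m) (hy : G.d y = n)
    (S : Finset (A →ₐ[K] Ω)) (a b : (A →ₐ[K] Ω) → ℕ)
    (hS : ∀ φ ∈ S, ∃ t, Rg φ t ∧ Lu φ x (t ^ a φ) ∧ Lu φ y (t ^ b φ))
    (hn : ∀ φ, φ ∉ S → Lu φ x y) (P : V.pt (AlgebraicClosure E)) (hP : V.Rat E P)
    (f : (A →ₐ[K] Ω) → V.pt Ω) (o : V.pt Ω)
    (hf : ∀ φ ∈ S, ∀ w : Place K E Ω, Ab w φ → V.IsVal w P (f φ))
    (ho : ∀ w : Place K E Ω, w.V = G.vi → V.IsVal w P o) :
    ∑ φ ∈ S, Finsupp.single (f φ) ((a φ : ℤ) - b φ) - Finsupp.single o ((m : ℤ) - n) ∈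
      V.ratEq K Ω := by
  classical
  have hdom : IsDomain A := G.isDomain
  have halg : Algebra.IsAlgebraic K Ω := IsAlgClosure.isAlgebraic
  have hx0 : x ≠ 0 := G.ne_zero hx
  have hy0 : y ≠ 0 := G.ne_zero hy
  have hinj : Function.Injective (algebraMap A E) := IsFractionRing.injective A E
  have hx1 : algebraMap A E x ≠ 0 := (map_ne_zero_iff _ hinj).2 hx0
  have hy1 : algebraMap A E y ≠ 0 := (map_ne_zero_iff _ hinj).2 hy0
  have hff : IsFunField K E := by
    first
    | exact G.ff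
    | exact ff
  have hex : ∀ φ : A →ₐ[K] Ω, ∃ w : Place K E Ω, Ab w φ := by
    intro φ
    first
    | exact G.exists_ab φ
    | exact exists_ab φ
  choose W hW using hex
  obtain ⟨wi, hwi⟩ := G.exists_inf (E := E) (Ω := Ω)
  have hni : ∀ φ, W φ ≠ wi := by
    intro φ h
    exact G.not_ab_inf hwi φ (h ▸ hW φ)
  let m' : Place K E Ω → ℤ := fun w => if w = wi then (n : ℤ) - m else
    if h : ∃ φ, Ab w φ then (a h.choose : ℤ) - b h.choose else 0
  let y' : Place K E Ω → V.pt Ω := fun w => if w = wi then o else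
    if h : ∃ φ, Ab w φ then f h.choose else o
  have hmi : m' wi = (n : ℤ) - m := if_pos rfl
  have hyi : y' wi = o := if_pos rfl
  have hch : ∀ φ (h : ∃ ψ, Ab (W φ) ψ), h.choose = φ := fun φ h =>
    plR_ab_inj h.choose_spec (hW φ)
  have hmW : ∀ φ, m' (W φ) = (a φ : ℤ) - b φ := by
    intro φ
    have h : ∃ ψ, Ab (W φ) ψ := ⟨φ, hW φ⟩
    change (if W φ = wi then (n : ℤ) - m else
      if h : ∃ ψ, Ab (W φ) ψ then (a h.choose : ℤ) - b h.choose else 0) = _
    rw [if_neg (hni φ), dif_pos h, hch φ h]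
  have hyW : ∀ φ, y' (W φ) = f φ := by
    intro φ
    have h : ∃ ψ, Ab (W φ) ψ := ⟨φ, hW φ⟩
    change (if W φ = wi then o else
      if h : ∃ ψ, Ab (W φ) ψ then f h.choose else o) = _
    rw [if_neg (hni φ), dif_pos h, hch φ h]
  have hWinj : ∀ φ ψ, W φ = W ψ → φ = ψ := fun φ ψ h =>
    plR_ab_inj (hW φ) (h ▸ hW ψ)
  have hnot : wi ∉ S.image W := by
    intro h
    obtain ⟨φ, _, h1⟩ := Finset.mem_image.1 h
    exact hni φ h1
  refine AddSubgroup.subset_closure ⟨E, inferInstance, inferInstance, inferInstance,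
    inferInstance, hff, algebraMap A E x / algebraMap A E y, P, div_ne_zero hx1 hy1, hP,
    insert wi (S.image W), m', y', ?_, ?_, ?_⟩
  · intro w hw
    rw [Finset.mem_insert, not_or] at hw
    rcases G.inf_or_ab w with h | ⟨φ, h⟩
    · exact absurd (G.inf_uniq h hwi) hw.1
    · by_cases hφ : φ ∈ S
      · obtain ⟨t, ht, -, -⟩ := hS φ hφ
        have h1 : w = W φ := by
          first
          | exact G.rg_uniq ht h (hW φ)
          | exact rg_uniq ht h (hW φ)
        exact absurd (Finset.mem_image.2 ⟨φ, hφ, h1.symm⟩) hw.2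
      · first
        | exact G.lu_unit h hx0 hy0 (hn φ hφ)
        | exact lu_unit h hx0 hy0 (hn φ hφ)
  · intro w hw
    rcases Finset.mem_insert.1 hw with h | h
    · subst h
      rw [hmi, hyi]
      exact ⟨G.inf_ord hwi hx hy, ho w hwi⟩
    · obtain ⟨φ, hφ, h1⟩ := Finset.mem_image.1 h
      subst h1
      obtain ⟨t, ht, hxt, hyt⟩ := hS φ hφ
      rw [hmW, hyW]
      refine ⟨?_, hf φ hφ _ (hW φ)⟩
      first
      | exact G.rg_ord ht (hW φ) hxt hyt
      | exact rg_ord ht (hW φ) hxt hyt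
  · rw [Finset.sum_insert hnot, hmi, hyi,
      Finset.sum_image (fun φ _ ψ _ h => hWinj φ ψ h)]
    have h1 : ∀ φ ∈ S, Finsupp.single (y' (W φ)) (m' (W φ)) =
        Finsupp.single (f φ) ((a φ : ℤ) - b φ) := fun φ _ => by rw [hmW, hyW]
    rw [Finset.sum_congr rfl h1]
    have h2 : Finsupp.single o ((n : ℤ) - m) = - Finsupp.single o ((m : ℤ) - n) := by
      rw [← Finsupp.single_neg, neg_sub]
    rw [h2]
    abel

end Dg

end CV
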