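import Pool.Agent.Lib.MP_f80667_ag.Cv.ClM
import Pool.Agent.Lib.MP_f80667_ag.Cv.DgQ
import Pool.Agent.Lib.MP_f80667_ag.Cv.DgD

/-!
Reduced ideals. `A` is a Dedekind domain with a degree function over a field `K`. Every class `c` contains a canonical ideal
`I`: if `J` is an ideal of the class `-c` and `f ≠ 0` an element of `J` of minimal degree, then `I J = (f)`. It does not
depend on the choice of `J`, `f`, and so it is respected by every isomorphism of rings which preserves the degree (even if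
it is only semilinear).
-/

open Module

namespace CV

namespace Dg

variable {K A : Type} [Field K] [CommRing A] [Algebra K A] (G : Dg K A)

/-- `f` is a nonzero element of `J` of minimal degree. -/
def Mn (J : Ideal A) (f : A) : Prop := f ∈ J ∧ f ≠ 0 ∧ ∀ g ∈ J, g ≠ 0 → G.d f ≤ G.d g

theorem exists_mn {J : Ideal A} (hJ : J ≠ ⊥) : ∃ f, G.Mn J f := by
  classical
  have h0 : ∃ n : ℕ, ∃ f ∈ J, G.d f = n := by
    obtain ⟨f, hf, h0⟩ := Submodule.exists_mem_ne_zero_of_ne_bot hJ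
    obtain ⟨n, hn⟩ := G.exists_nat h0
    exact ⟨n, f, hf, hn⟩
  obtain ⟨f, hf, hn⟩ := Nat.find_spec h0
  refine ⟨f, hf, G.ne_zero hn, fun g hg h => ?_⟩
  obtain ⟨m, hm⟩ := G.exists_nat h
  rw [hn, hm, Nat.cast_le]
  exact Nat.find_min' h0 ⟨g, hg, hm⟩

/-- Proof: a combination of two elements of minimal degree has a smaller degree. -/
theorem mn_uniq {J : Ideal A} {f g : A} (hf : G.Mn J f) (hg : G.Mn J g) :
    ∃ c : K, c ≠ 0 ∧ f = c • g := by
  have h1 : G.d f = G.d g := le_antisymm (hf.2.2 g hg.1 hg.2.1) (hg.2.2 f hf.1 hf.2.1)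
  obtain ⟨c, hc⟩ := G.lead f g hg.2.1 h1
  have h2 : f - c • g = 0 := by
    by_contra h
    have h3 : f - c • g ∈ J := by
      rw [Algebra.smul_def]
      exact J.sub_mem hf.1 (J.mul_mem_left _ hg.1)
    exact absurd (hg.2.2 _ h3 h) (not_le.2 hc)
  refine ⟨c, ?_, sub_eq_zero.1 h2⟩
  rintro rfl
  exact hf.2.1 (by rw [sub_eq_zero.1 h2, zero_smul])

theorem span_smul {c : K} (hc : c ≠ 0) (g : A) : Ideal.span {c • g} = Ideal.span {g} := by
  rw [Algebra.smul_def]
  exact Ideal.span_singleton_mul_left_unit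
    ((IsUnit.mk0 c hc).map (algebraMap K A)) g

variable [IsDedekindDomain A]

/-- `I` is the reduced ideal of the class `c`. -/
def Red (c : Cg A) (I : Ideal A) : Prop :=
  ∃ (J : Ideal A) (f : A), J ≠ ⊥ ∧ cls J = -c ∧ G.Mn J f ∧ I * J = Ideal.span {f}

theorem exists_red (c : Cg A) : ∃ I, G.Red c I := by
  obtain ⟨J, hJ, hc⟩ := cls_surj (-c)
  obtain ⟨f, hf⟩ := G.exists_mn hJ
  have h1 : J ∣ Ideal.span {f} := Ideal.dvd_iff_le.2 ((Ideal.span_singleton_le_iff_mem _).2 hf.1)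
  obtain ⟨I, hI⟩ := h1
  exact ⟨I, J, f, hJ, hc.symm, hf, by rw [hI, mul_comm]⟩

theorem Red.ne_bot {c : Cg A} {I : Ideal A} (h : G.Red c I) : I ≠ ⊥ := by
  obtain ⟨J, f, hJ, hc, hf, e⟩ := h
  rintro rfl
  rw [Ideal.bot_mul] at e
  exact hf.2.1 (Ideal.span_singleton_eq_bot.1 e.symm)

theorem Red.cls {c : Cg A} {I : Ideal A} (h : G.Red c I) : cls I = c := by
  have h0 := h.ne_bot
  obtain ⟨J, f, hJ, hc, hf, e⟩ := h
  have h1 := congrArg CV.cls e
  rw [cls_mul h0 hJ, cls_span, hc] at h1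
  exact add_neg_eq_zero.1 h1

/-- Two ideals of the same class: their elements of minimal degree correspond. -/
theorem mn_rel {J J' : Ideal A} {a b f : A} (ha : a ≠ 0) (hb : b ≠ 0)
    (e : Ideal.span {a} * J = Ideal.span {b} * J') (hf : G.Mn J f) :
    ∃ f', G.Mn J' f' ∧ a * f = b * f' := by
  have h1 : a * f ∈ Ideal.span {b} * J' := by
    rw [← e]
    exact Ideal.mul_mem_mul (Ideal.mem_span_singleton_self a) hf.1
  obtain ⟨f', hf', h2⟩ := Ideal.mem_span_singleton_mul.1 h1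
  refine ⟨f', ⟨hf', ?_, fun g hg hg0 => ?_⟩, h2.symm⟩
  · rintro rfl
    rw [mul_zero] at h2
    exact (mul_ne_zero ha hf.2.1) h2.symm
  · have h3 : b * g ∈ Ideal.span {a} * J := by
      rw [e]
      exact Ideal.mul_mem_mul (Ideal.mem_span_singleton_self b) hg
    obtain ⟨g', hg', h4⟩ := Ideal.mem_span_singleton_mul.1 h3
    have h5 : g' ≠ 0 := by
      rintro rfl
      rw [mul_zero] at h4
      exact (mul_ne_zero hb hg0) h4.symm
    have h6 := hf.2.2 g' hg' h5
    have h7 : f' ≠ 0 := by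
      rintro rfl
      rw [mul_zero] at h2
      exact (mul_ne_zero ha hf.2.1) h2.symm
    obtain ⟨na, hna⟩ := G.exists_nat ha
    obtain ⟨nb, hnb⟩ := G.exists_nat hb
    obtain ⟨nf, hnf⟩ := G.exists_nat hf.2.1
    obtain ⟨nf', hnf'⟩ := G.exists_nat h7
    obtain ⟨ng, hng⟩ := G.exists_nat hg0
    obtain ⟨ng', hng'⟩ := G.exists_nat h5
    have h8 := congrArg G.d h2
    have h9 := congrArg G.d h4
    rw [G.mul, G.mul, hna, hnb, hnf, hnf', ← Nat.cast_add, ← Nat.cast_add, Nat.cast_inj] at h8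
    rw [G.mul, G.mul, hna, hnb, hng, hng', ← Nat.cast_add, ← Nat.cast_add, Nat.cast_inj] at h9
    rw [hnf, hng', Nat.cast_le] at h6
    rw [hnf', hng, Nat.cast_le]
    omega

/-- **Uniqueness.** -/
theorem red_uniq {c : Cg A} {I I' : Ideal A} (h : G.Red c I) (h' : G.Red c I') : I = I' := by
  obtain ⟨J, f, hJ, hc, hf, e⟩ := h
  obtain ⟨J', f', hJ', hc', hf', e'⟩ := h'
  obtain ⟨a, b, ha, hb, hab⟩ := (cls_eq hJ hJ').1 (hc.trans hc'.symm)
  obtain ⟨f₁, hf₁, h1⟩ := G.mn_rel ha hb hab hf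
  obtain ⟨k, hk, h2⟩ := G.mn_uniq hf₁ hf'
  have h3 : Ideal.span {a} * (I * J) = Ideal.span {b} * (I' * J') := by
    rw [e, e', Ideal.span_singleton_mul_span_singleton, Ideal.span_singleton_mul_span_singleton,
      h1, h2, mul_smul_comm, span_smul hk]
  have h4 : I * (Ideal.span {a} * J) = I' * (Ideal.span {a} * J) := by
    calc I * (Ideal.span {a} * J) = Ideal.span {a} * (I * J) := by ring
      _ = Ideal.span {b} * (I' * J') := h3
      _ = I' * (Ideal.span {b} * J') := by ring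
      _ = I' * (Ideal.span {a} * J) := by rw [hab]
  exact mul_right_cancel₀ (mul_ne_zero (fun h => ha (Ideal.span_singleton_eq_bot.1 h)) hJ) h4

/-- The colength of a reduced ideal is bounded. Proof: there is `g ≠ 0` in `J` with `d g ≤ n₀ + dim A / J`. -/
theorem red_colen {n₀ : ℕ} (h0 : ∀ n : ℕ, n₀ ≤ n → ∃ x, G.d x = n) {c : Cg A} {I : Ideal A}
    (h : G.Red c I) : Module.Finite K (A ⧸ I) ∧ finrank K (A ⧸ I) ≤ n₀ := by
  have hI := h.ne_bot
  obtain ⟨J, f, hJ, hc, hf, e⟩ := h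
  have hfin := G.finite_quot hf.2.1
  obtain ⟨m, hm⟩ := G.exists_nat hf.2.1
  have h1 : Ideal.span {f} ≤ I := by rw [← e]; exact Ideal.mul_le_inf.trans inf_le_left
  have h2 : Ideal.span {f} ≤ J := by rw [← e]; exact Ideal.mul_le_inf.trans inf_le_right
  obtain ⟨hI1, -⟩ := colen_le (K := K) h1
  obtain ⟨hJ1, -⟩ := colen_le (K := K) h2
  refine ⟨hI1, ?_⟩
  obtain ⟨-, h3⟩ := colen_mul (K := K) hI hJ
  rw [e, G.finrank_quot hm] at h3
  obtain ⟨r, hr⟩ : ∃ r, r = finrank K (A ⧸ J) := ⟨_, rfl⟩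
  rw [← hr] at h3
  -- an element of small degree of `J`
  have h4 : ∃ g ∈ J, g ≠ 0 ∧ G.d g ≤ ((n₀ + r : ℕ) : WithBot ℕ) := by
    have h5 : finrank K (A ⧸ J) < finrank K (G.L (n₀ + r)) := by
      rw [G.finrank_L_add h0, ← hr]
      have h6 : 0 < finrank K (G.L n₀) := by
        rw [Module.finrank_pos_iff_exists_ne_zero]
        refine ⟨⟨1, ?_⟩, fun h => one_ne_zero (congrArg Subtype.val h)⟩
        rw [G.mem_L, G.one]
        exact_mod_cast Nat.zero_le n₀
      omega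
    obtain ⟨x, hx, hx0⟩ := Submodule.exists_mem_ne_zero_of_ne_bot
      (LinearMap.ker_ne_bot_of_finrank_lt
        (f := (Ideal.Quotient.mkₐ K J).toLinearMap ∘ₗ (G.L (n₀ + r)).subtype) h5)
    refine ⟨x.1, ?_, fun h => hx0 (Subtype.ext h), x.2⟩
    exact Ideal.Quotient.eq_zero_iff_mem.1 hx
  obtain ⟨g, hg, hg0, hgd⟩ := h4
  have h7 := (hf.2.2 g hg hg0).trans hgd
  rw [hm, Nat.cast_le] at h7
  omega

omit [IsDedekindDomain A] in
/-- Isomorphisms which preserve the degree. -/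
theorem Mn.map {K' B : Type} [Field K'] [CommRing B] [Algebra K' B] {G : Dg K A} {G' : Dg K' B}
    (e : A ≃+* B) (he : ∀ a, G'.d (e a) = G.d a) {J : Ideal A} {f : A} (h : G.Mn J f) :
    G'.Mn (J.map (e : A →+* B)) (e f) := by
  refine ⟨Ideal.mem_map_of_mem _ h.1, fun h0 => h.2.1 ((map_eq_zero_iff e e.injective).1 h0),
    fun g hg hg0 => ?_⟩
  obtain ⟨g', hg', rfl⟩ := (Ideal.mem_map_iff_of_surjective (e : A →+* B) e.surjective).1 hg
  rw [he]
  change _ ≤ G'.d (e g')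
  rw [he]
  refine h.2.2 g' hg' ?_
  rintro rfl
  exact hg0 (map_zero _)

theorem Red.map {K' B : Type} [Field K'] [CommRing B] [IsDedekindDomain B] [Algebra K' B]
    {G : Dg K A} {G' : Dg K' B} (e : A ≃+* B) (he : ∀ a, G'.d (e a) = G.d a) {c : Cg A}
    {I : Ideal A} (h : G.Red c I) : G'.Red (clMap e c) (I.map (e : A →+* B)) := by
  obtain ⟨J, f, hJ, hc, hf, h1⟩ := h
  refine ⟨J.map (e : A →+* B), e f, map_ne_bot e hJ, ?_, hf.map e he, ?_⟩
  · rw [← clMap_cls e hJ, hc, map_neg]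
  · rw [← Ideal.map_mul, h1, Ideal.map_span, Set.image_singleton]
    rfl

/-- An automorphism which preserves the degree fixes a class iff it fixes the reduced ideal. -/
theorem red_fix {G : Dg K A} (e : A ≃+* A) (he : ∀ a, G.d (e a) = G.d a) {c : Cg A}
    {I : Ideal A} (h : G.Red c I) (hc : clMap e c = c) : I.map (e : A →+* A) = I := by
  have h1 := h.map e he
  rw [hc] at h1
  exact G.red_uniq h1 h

end Dg

end CV
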