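import Pool.Agent.Lib.MP_f80667_ag.Cv.Rp1
import Pool.Agent.Lib.MP_f80667_ag.Cv.Od
import Pool.Agent.Lib.MP_f80667_ag.Cv.PlR

/-!
Equivalent elements have rationally equivalent divisors.
-/

open IsLocalRing ZC BE

namespace CV

namespace Md

variable {F : Type} [Field F] {V L k S SL Sk : Type} [CommRing V] [IsDomain V]
  [IsDiscreteValuationRing V] [Field L] [CharZero L] [Field k] [Algebra V L] [IsFractionRing V L]
  [Algebra V k] [CommRing S] [CommRing SL] [CommRing Sk] [Algebra V S] [Algebra L SL]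
  [Algebra k Sk] (M : Md V L k S SL Sk) {Ω : Type} [Field Ω] [Algebra L Ω] [IsAlgClosure L Ω]
  [Algebra F L] [Algebra F Ω] {W : ValuationSubring Ω} {E : Type} [Field E] [Algebra SL E]
  [IsFractionRing SL E] [Algebra L E] [IsScalarTower L SL E] [Algebra F E] [IsScalarTower F L E]

/-- **Equivalent elements have rationally equivalent divisors.** `T` is a finite set of regular closed points of the special fibre, `a ~ b` with respect to `T`. `Φ` is a finite set of integral points above `T` which contains all zeros of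
`a` and `b` above `T`.
Proof: `x`, `y` from the definition of `Eqv`. Apply `div_ratEq` to `i x`, `i y` and the finite set `Φ'` of all points above `T` which are in `Φ` or zeros of `x` or `y` (`zeros_fin`), with the exponents `od φ (i x)`, `od φ (i y)` (`rgl_gen`, `gen_rg`, `od_spec`). At the points
outside of `Φ'`: if `x` and `y` are not `0` at `φ` they differ by a unit; otherwise `φ` is integral (`ut_ig`), its reduction is not in `T` (`ig_ov`), and `As {N} x y` gives the claim (`as_lu`). `As T (a y) (b x)` gives `od a + od y = od b + od x`, and for `φ ∈ Φ'`, `φ ∉ Φ` both `od a` and `od b`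
are `0`. The degrees of `x` and `y` are the same, so the point at infinity does not occur. -/
theorem eqv_ratEq (Vr' : Vr F) (hW : Wv V L W) {π : V} (hπ : Irreducible π) {T : Set (Ideal S)}
    (hf : T.Finite) (hC : ∀ N ∈ T, Cs V N) (hR : ∀ N ∈ T, ∃ z, Rgl π N z) {a b : S} (ha : a ≠ 0)
    (hb : b ≠ 0) (h : M.Eqv T a b) (Φ : Finset (SL →ₐ[L] Ω)) (hΦ : ∀ φ ∈ Φ, ∃ N ∈ T, M.Ov W φ N)
    (hΦ' : ∀ φ, (∃ N ∈ T, M.Ov W φ N) → φ (M.i a) = 0 ∨ φ (M.i b) = 0 → φ ∈ Φ)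
    (P : Vr'.pt (AlgebraicClosure E)) (hP : Vr'.Rat E P) (f : (SL →ₐ[L] Ω) → Vr'.pt Ω)
    (o : Vr'.pt Ω)
    (hfv : ∀ φ, (∃ N ∈ T, M.Ov W φ N) → ∀ w : Place L E Ω, Ab w φ → Vr'.IsVal w P (f φ))
    (ho : ∀ w : Place L E Ω, w.V = M.DL.vi → Vr'.IsVal w P o) :
    ∑ φ ∈ Φ, Finsupp.single (f φ) ((od φ (M.i a) : ℤ) - od φ (M.i b)) ∈ Vr'.ratEq L Ω := by
  classical
  have halg : Algebra.IsAlgebraic L Ω := IsAlgClosure.isAlgebraic
  obtain ⟨x, y, n, hx, hy, h1, h2⟩ := h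
  have hdom : IsDomain SL := M.DL.isDomain
  have hi : ∀ s : S, s ≠ 0 → M.i s ≠ 0 := fun s hs h0 => hs (M.inj (by rw [h0, map_zero]))
  have hx0 : x ≠ 0 := M.ut_ne hx
  have hy0 : y ≠ 0 := M.ut_ne hy
  -- regularity of the points above `T`
  have hreg : ∀ φ : SL →ₐ[L] Ω, (∃ N ∈ T, M.Ov W φ N) → ∃ t, Rg φ t := by
    rintro φ ⟨N, hN, hov⟩
    obtain ⟨z, hz⟩ := hR N hN
    obtain ⟨g, -, hg, s, hs, hgs⟩ := M.rgl_gen hπ (hC N hN) hz hov
    exact ⟨M.i g, M.gen_rg hov hg hs hgs⟩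
  have hfin : ({φ : SL →ₐ[L] Ω | φ (M.i x) = 0} ∪ {φ : SL →ₐ[L] Ω | φ (M.i y) = 0} ∪
      (Φ : Set (SL →ₐ[L] Ω))).Finite :=
    ((M.DL.zeros_fin (hi x hx0)).union (M.DL.zeros_fin (hi y hy0))).union Φ.finite_toSet
  obtain ⟨Φ', hΦ1⟩ := (hfin.inter_of_left {φ : SL →ₐ[L] Ω | ∃ N ∈ T, M.Ov W φ N}).exists_finset
  have hΦ2 : ∀ φ, φ ∈ Φ' ↔ ((φ (M.i x) = 0 ∨ φ (M.i y) = 0) ∨ φ ∈ Φ) ∧
      ∃ N ∈ T, M.Ov W φ N := by
    intro φ
    rw [hΦ1]
    rfl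
  have hsub : Φ ⊆ Φ' := fun φ hφ => (hΦ2 φ).2 ⟨Or.inr hφ, hΦ φ hφ⟩
  have key := M.DL.div_ratEq Vr' hx.1 hy.1 Φ' (fun φ => od φ (M.i x)) (fun φ => od φ (M.i y))
    (fun φ hφ => by
      obtain ⟨t, ht⟩ := hreg φ ((hΦ2 φ).1 hφ).2
      exact ⟨t, ht, M.DL.od_spec ht (hi x hx0), M.DL.od_spec ht (hi y hy0)⟩)
    (fun φ hφ => by
      by_cases h0 : φ (M.i x) = 0 ∨ φ (M.i y) = 0
      · have hig : M.Ig W φ := h0.elim (M.ut_ig hW hx) (M.ut_ig hW hy)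
        obtain ⟨N, hN, hov⟩ := M.ig_ov hW hig
        have hNT : N ∉ T := fun hNT => hφ ((hΦ2 φ).2 ⟨Or.inl h0, N, hNT, hov⟩)
        exact M.as_lu (Set.mem_singleton N) hov (h2 N hN hNT)
      · rw [not_or] at h0
        exact ⟨M.i y, M.i x, h0.2, h0.1, mul_comm _ _⟩) P hP f o
    (fun φ hφ w hw => hfv φ ((hΦ2 φ).1 hφ).2 w hw) ho
  rw [sub_self, Finsupp.single_zero, sub_zero] at key
  have hod : ∀ φ ∈ Φ', (od φ (M.i x) : ℤ) - od φ (M.i y) = (od φ (M.i a) : ℤ) - od φ (M.i b) := by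
    intro φ hφ
    obtain ⟨N, hN, hov⟩ := ((hΦ2 φ).1 hφ).2
    obtain ⟨t, ht⟩ := hreg φ ⟨N, hN, hov⟩
    have e1 := M.as_lu hN hov h1
    rw [map_mul, map_mul] at e1
    have e2 := M.DL.od_lu ht (mul_ne_zero (hi a ha) (hi y hy0))
      (mul_ne_zero (hi b hb) (hi x hx0)) e1
    rw [M.DL.od_mul ht (hi a ha) (hi y hy0), M.DL.od_mul ht (hi b hb) (hi x hx0)] at e2
    omega
  rw [Finset.sum_congr rfl (fun φ hφ => by rw [hod φ hφ])] at key
  rw [Finset.sum_subset hsub]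
  · exact key
  · intro φ hφ hφ'
    obtain ⟨N, hN, hov⟩ := ((hΦ2 φ).1 hφ).2
    obtain ⟨t, ht⟩ := hreg φ ⟨N, hN, hov⟩
    have e1 : φ (M.i a) ≠ 0 := fun e => hφ' (hΦ' φ ⟨N, hN, hov⟩ (Or.inl e))
    have e2 : φ (M.i b) ≠ 0 := fun e => hφ' (hΦ' φ ⟨N, hN, hov⟩ (Or.inr e))
    rw [M.DL.od_zero ht e1, M.DL.od_zero ht e2, Nat.cast_zero, sub_self, Finsupp.single_zero]

end Md

end CV
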