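import Pool.Agent.Lib.MP_f80667_ag.Cv.Xp4
import Pool.Agent.Lib.MP_f80667_ag.Cv.Rt
import Pool.Agent.Lib.MP_f80667_ag.Cv.UxB

/-!
Divisors of functions over `M` are principal cycles. `SM` is a ring with an isomorphism `e` to `M ⊗ C.A`.

* `pe e φ`: the point of the curve of a homomorphism `φ : SM → Ω`; `em e x`: the function over `Ω` of `x ∈ SM`.
-/

open ZC BE PE Polynomial TensorProduct IntermediateField

namespace CV

variable {F : Type} [Field F] {C : Crv F} {K Ω : Type} [Field K] [CharZero K] [Field Ω]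
  [Algebra K Ω] [Algebra F K] [Algebra F Ω] [IsScalarTower F K Ω] [IsAlgClosure K Ω]
  {M : IntermediateField K Ω} {SM : Type} [CommRing SM] [Algebra M SM]
  (e : SM ≃ₐ[M] M ⊗[F] C.A)

/-- The point of the curve. -/
noncomputable def pe (φ : SM →ₐ[M] Ω) : C.A →ₐ[F] Ω :=
  ((φ.comp e.symm.toAlgHom).restrictScalars F).comp Algebra.TensorProduct.includeRight

/-- The function over `Ω`. -/
noncomputable def em (x : SM) : Ω ⊗[F] C.A := xi F C.A M Ω (e x)

theorem pe_apply (φ : SM →ₐ[M] Ω) (a : C.A) : pe e φ a = φ (e.symm (1 ⊗ₜ a)) := rfl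

theorem pe_xl (φ : SM →ₐ[M] Ω) (x : SM) : φ x = xl M (pe e φ) (e x) := by
  have h1 : ∀ y : M ⊗[F] C.A, φ (e.symm y) = xl M (pe e φ) y := by
    intro y
    induction y with
    | zero => rw [map_zero, map_zero, map_zero]
    | tmul c a =>
      have h2 : c ⊗ₜ[F] a = c • ((1 : M) ⊗ₜ[F] a) := by
        rw [TensorProduct.smul_tmul', smul_eq_mul, mul_one]
      rw [xl_tmul, pe_apply, h2, map_smul, map_smul, Algebra.smul_def]
    | add y z hy hz => rw [map_add, map_add, map_add, hy, hz]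
  have h3 := h1 (e x)
  rwa [AlgEquiv.symm_apply_apply] at h3

theorem pe_inj : Function.Injective (pe e : (SM →ₐ[M] Ω) → C.A →ₐ[F] Ω) := by
  intro φ ψ h
  apply AlgHom.ext
  intro x
  rw [pe_xl e φ x, pe_xl e ψ x, h]

theorem pe_surj : Function.Surjective (pe e : (SM →ₐ[M] Ω) → C.A →ₐ[F] Ω) := by
  intro χ
  refine ⟨(xl M χ).comp e.toAlgHom, ?_⟩
  apply AlgHom.ext
  intro a
  rw [pe_apply]
  have h1 : ((xl M χ).comp e.toAlgHom) (e.symm (1 ⊗ₜ a)) = xl M χ (e (e.symm (1 ⊗ₜ a))) := rfl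
  rw [h1, AlgEquiv.apply_symm_apply, xl_tmul, map_one, one_mul]

theorem em_mul (x y : SM) : em (Ω := Ω) e (x * y) = em e x * em e y := by
  unfold em
  rw [map_mul, map_mul]

theorem em_inj : Function.Injective (em (Ω := Ω) e) := fun _ _ h => e.injective (xi_inj h)

theorem vx_em (φ : SM →ₐ[M] Ω) (x : SM) : vx (pe e φ) (em e x) = φ x := by
  rw [pe_xl e φ x]
  unfold em
  generalize e x = y
  generalize pe e φ = χ
  induction y with
  | zero => rw [map_zero, map_zero, map_zero]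
  | tmul c a => rw [xi_tmul, vx_tmul, xl_tmul]
  | add y z hy hz => rw [map_add, map_add, map_add, hy, hz]

/-- The Galois group of `Ω / M` acts trivially on the functions over `M`. -/
theorem gA_em (γ : Ω ≃ₐ[K] Ω) (hγ : γ ∈ M.fixingSubgroup) (x : SM) : gA C γ (em e x) = em e x := by
  unfold em
  generalize e x = y
  induction y with
  | zero => rw [map_zero, map_zero]
  | tmul c a =>
    have h1 : γ (algebraMap M Ω c) = algebraMap M Ω c :=
      (IntermediateField.mem_fixingSubgroup_iff M γ).1 hγ _ c.2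
    rw [xi_tmul, gA_tmul, h1]
  | add y z hy hz => rw [map_add, map_add, hy, hz]

/-- The point is equivariant. -/
theorem pe_ag (γ : M.fixingSubgroup) (φ : SM →ₐ[M] Ω) :
    (some (pe e (Md.ag γ φ)) : C.V.pt Ω) = C.V.act (γ : Ω ≃ₐ[K] Ω) (some (pe e φ)) := by
  have h1 : pe e (Md.ag γ φ) =
      (((γ : Ω ≃ₐ[K] Ω).restrictScalars F : Ω ≃ₐ[F] Ω) : Ω →ₐ[F] Ω).comp (pe e φ) := by
    apply AlgHom.ext
    intro a
    rfl
  rw [h1]
  rfl

/-- The degree function is unique. Proof: `finrank_quot`: the degree is the dimension of the quotient by `x`, over `M` for both degree functions; `xi_d`. -/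
theorem em_d (G : Dg M SM) (x : SM) : (C.dgO Ω).d (em e x) = G.d x := by
  have h1 : (C.dgO Ω).d (em e x) = (C.G.bc M).d (e x) := xi_d C.G (e x)
  rw [h1]
  by_cases hx : x = 0
  · rw [hx, map_zero, G.zero, (C.G.bc M).zero]
  obtain ⟨n, hn⟩ := G.exists_nat hx
  have hx' : e x ≠ 0 := by
    rwa [Ne, map_eq_zero_iff e e.injective]
  obtain ⟨m, hm⟩ := (C.G.bc M).exists_nat hx'
  have h2 := G.finrank_quot hn
  have h3 := (C.G.bc M).finrank_quot hm
  have h4 : Ideal.span {e x} = (Ideal.span {x}).map (e : SM →+* M ⊗[F] C.A) := by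
    rw [Ideal.map_span, Set.image_singleton]
    rfl
  have h5 := (Ideal.quotientEquivAlg (Ideal.span {x}) (Ideal.span {e x}) e h4).toLinearEquiv.finrank_eq
  rw [hn, hm]
  congr 1
  omega

end CV
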