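import Mathlib

/-!
The saturation `satI Σ I = {x | ∃ s ∈ Σ, s x ∈ I}` of an ideal with respect to a multiplicative set `Σ`. In a Dedekind domain
it is the part of `I` at the primes which are disjoint from `Σ`, and it is multiplicative.
-/

namespace CV

section

variable {B : Type} [CommRing B]

/-- The saturation. -/
def satI (T : Submonoid B) (I : Ideal B) : Ideal B where
  carrier := {x | ∃ s ∈ T, s * x ∈ I}
  zero_mem' := ⟨1, T.one_mem, by rw [mul_zero]; exact I.zero_mem⟩
  add_mem' := by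
    rintro x y ⟨s, hs, hx⟩ ⟨t, ht, hy⟩
    refine ⟨s * t, T.mul_mem hs ht, ?_⟩
    have h1 : s * t * (x + y) = t * (s * x) + s * (t * y) := by ring
    rw [h1]
    exact I.add_mem (I.mul_mem_left _ hx) (I.mul_mem_left _ hy)
  smul_mem' := by
    rintro c x ⟨s, hs, hx⟩
    refine ⟨s, hs, ?_⟩
    have h1 : s * (c • x) = c * (s * x) := by rw [smul_eq_mul]; ring
    rw [h1]
    exact I.mul_mem_left _ hx

variable {T : Submonoid B} {I J : Ideal B}

theorem mem_satI {x : B} : x ∈ satI T I ↔ ∃ s ∈ T, s * x ∈ I := Iff.rfl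

theorem le_sat : I ≤ satI T I := fun x hx => ⟨1, T.one_mem, by rwa [one_mul]⟩

theorem sat_mono (h : I ≤ J) : satI T I ≤ satI T J := fun x ⟨s, hs, hx⟩ => ⟨s, hs, h hx⟩

theorem sat_sat : satI T (satI T I) = satI T I := by
  refine le_antisymm ?_ le_sat
  rintro x ⟨s, hs, t, ht, hx⟩
  exact ⟨t * s, T.mul_mem ht hs, by rwa [mul_assoc]⟩

theorem sat_top : satI T (⊤ : Ideal B) = ⊤ := top_le_iff.1 le_sat

theorem sat_eq_top {s : B} (hs : s ∈ T) (h : s ∈ I) : satI T I = ⊤ :=
  (Ideal.eq_top_iff_one _).2 ⟨s, hs, by rwa [mul_one]⟩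

/-- A prime ideal disjoint from `T` is saturated. -/
theorem sat_prime {P : Ideal B} (hP : P.IsPrime) (h : ∀ s ∈ T, s ∉ P) : satI T P = P := by
  refine le_antisymm ?_ le_sat
  rintro x ⟨s, hs, hx⟩
  exact (hP.mem_or_mem hx).resolve_left (h s hs)

/-- If `I` is comaximal to all elements of `T` then it is saturated. Proof: `1 = i + s t`, so `x = i x + t (s x)`. -/
theorem sat_self (h : ∀ s ∈ T, I ⊔ Ideal.span {s} = ⊤) : satI T I = I := by
  refine le_antisymm ?_ le_sat
  rintro x ⟨s, hs, hx⟩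
  have h1 : (1 : B) ∈ I ⊔ Ideal.span {s} := by rw [h s hs]; exact Submodule.mem_top
  obtain ⟨i, hi, j, hj, hij⟩ := Submodule.mem_sup.1 h1
  obtain ⟨t, rfl⟩ := Ideal.mem_span_singleton'.1 hj
  have h2 : x = i * x + t * (s * x) := by
    calc x = 1 * x := (one_mul x).symm
      _ = (i + t * s) * x := by rw [hij]
      _ = i * x + t * (s * x) := by ring
  rw [h2]
  exact I.add_mem (I.mul_mem_right _ hi) (I.mul_mem_left _ hx)

/-- Elements which differ by elements of `T`. -/
theorem sat_span_eq {a b s s' : B} (hs : s ∈ T) (hs' : s' ∈ T) (h : s * a = s' * b) :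
    satI T (Ideal.span {a}) = satI T (Ideal.span {b}) := by
  have key : ∀ (a b s s' : B), s ∈ T → s' ∈ T → s * a = s' * b →
      satI T (Ideal.span {a}) ≤ satI T (Ideal.span {b}) := by
    intro a b s s' hs hs' h x hx
    obtain ⟨r, hr, hx⟩ := hx
    obtain ⟨c, hc⟩ := Ideal.mem_span_singleton'.1 hx
    refine ⟨s * r, T.mul_mem hs hr, Ideal.mem_span_singleton'.2 ⟨c * s', ?_⟩⟩
    calc c * s' * b = c * (s' * b) := by ring
      _ = c * (s * a) := by rw [h]
      _ = s * (c * a) := by ring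
      _ = s * (r * x) := by rw [hc]
      _ = s * r * x := by ring
  exact le_antisymm (key a b s s' hs hs' h) (key b a s' s hs' hs h.symm)

theorem sat_ne_bot (h : I ≠ ⊥) : satI T I ≠ ⊥ := fun h0 => h (le_bot_iff.1 (h0 ▸ le_sat))

variable [IsDedekindDomain B]

/-- A maximal ideal which meets `T` does not contain a saturation. Proof: otherwise `satI T I = P D`, and for `s ∈ T ∩ P`:
`s D ⊆ P D = satI T I`, so `D ⊆ satI T (satI T I) = P D`; cancel `D`. -/
theorem sat_not_le {P : Ideal B} (hP : P.IsPrime) (hP0 : P ≠ ⊥) {s : B} (hs : s ∈ T) (hsP : s ∈ P)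
    (hI : I ≠ ⊥) : ¬ satI T I ≤ P := by
  intro hle
  obtain ⟨D, hD⟩ := Ideal.dvd_iff_le.2 hle
  have hM : satI T I ≠ ⊥ := sat_ne_bot hI
  have hD0 : D ≠ ⊥ := by
    rintro rfl
    exact hM (by rw [hD, Ideal.mul_bot])
  have h1 : D ≤ P * D := by
    intro x hx
    rw [← hD, ← sat_sat]
    refine ⟨s, hs, ?_⟩
    rw [hD]
    exact Ideal.mul_mem_mul hsP hx
  have h2 : P * D = 1 * D := by
    rw [one_mul]
    exact le_antisymm (Ideal.mul_le.2 fun a _ b hb => D.mul_mem_left a hb) h1
  have h3 : P = 1 := mul_right_cancel₀ hD0 h2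
  exact hP.ne_top (by rw [h3, Ideal.one_eq_top])

/-- **The saturation is multiplicative.** Proof: `satI T I * satI T J = satI T (I J) * D` for an ideal `D` (both contain `I J`; first:
`satI T I * satI T J ≤ satI T (I J)`, directly). If `D ≠ ⊤` there is a maximal ideal `P` with `D ≤ P`. Let `A = satI T I * satI T J`. An element `x` of
`satI T (I J)` has `s x ∈ I J ≤ A`, `s ∈ T`. There is one `s ∈ T` with `s * satI T (I J) ≤ A` (the ideal is finitely generated), so `(s) * satI T (I J) ≤ A = satI T (I J) D`,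
so `s ∈ D ≤ P` by cancellation. On the other hand `P ∣ A` so `P ∣ satI T I` or `P ∣ satI T J` (`P` is prime), which contradicts `sat_not_le`. -/
theorem sat_mul (hI : I ≠ ⊥) (hJ : J ≠ ⊥) : satI T (I * J) = satI T I * satI T J := by
  have hA0 : satI T I * satI T J ≠ ⊥ := mul_ne_zero (sat_ne_bot hI) (sat_ne_bot hJ)
  have hIJ : satI T (I * J) ≠ ⊥ := sat_ne_bot (mul_ne_zero hI hJ)
  have hle : satI T I * satI T J ≤ satI T (I * J) := by
    rw [Ideal.mul_le]
    rintro r ⟨s, hs, hr⟩ u ⟨t, ht, hu⟩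
    refine ⟨s * t, T.mul_mem hs ht, ?_⟩
    have h1 : s * t * (r * u) = s * r * (t * u) := by ring
    rw [h1]
    exact Ideal.mul_mem_mul hr hu
  obtain ⟨D, hD⟩ := Ideal.dvd_iff_le.2 hle
  have hfin : ∃ s ∈ T, ∀ x ∈ satI T (I * J), s * x ∈ I * J := by
    obtain ⟨F, hF⟩ := (isNoetherian_def.1 (inferInstance : IsNoetherian B B)) (satI T (I * J))
    have hind : ∀ G : Finset B, (∀ x ∈ G, x ∈ satI T (I * J)) →
        ∃ s ∈ T, ∀ x ∈ G, s * x ∈ I * J := by
      intro G
      classical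
      induction G using Finset.induction_on with
      | empty => intro _; exact ⟨1, T.one_mem, fun x hx => absurd hx (Finset.notMem_empty x)⟩
      | insert a G _ ih =>
        intro hG
        obtain ⟨s, hs, h1⟩ := ih (fun x hx => hG x (Finset.mem_insert_of_mem hx))
        obtain ⟨t, ht, h2⟩ := hG a (Finset.mem_insert_self a G)
        refine ⟨s * t, T.mul_mem hs ht, fun x hx => ?_⟩
        rcases Finset.mem_insert.1 hx with rfl | hx
        · rw [mul_assoc]; exact (I * J).mul_mem_left _ h2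
        · have h3 : s * t * x = t * (s * x) := by ring
          rw [h3]; exact (I * J).mul_mem_left _ (h1 x hx)
    obtain ⟨s, hs, h1⟩ := hind F (fun x hx => by rw [← hF]; exact Submodule.subset_span hx)
    refine ⟨s, hs, fun x hx => ?_⟩
    rw [← hF] at hx
    refine Submodule.span_induction (p := fun x _ => s * x ∈ I * J) (fun x hx => h1 x hx) ?_ ?_ ?_ hx
    · rw [mul_zero]; exact (I * J).zero_mem
    · intro x y _ _ hx hy
      rw [mul_add]; exact (I * J).add_mem hx hy
    · intro c x _ hx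
      have h3 : s * (c • x) = c * (s * x) := by rw [smul_eq_mul]; ring
      rw [h3]; exact (I * J).mul_mem_left _ hx
  obtain ⟨s, hs, h1⟩ := hfin
  have hsD : s ∈ D := by
    have h2 : satI T (I * J) * Ideal.span {s} ≤ satI T (I * J) * D := by
      rw [← hD, Ideal.mul_le]
      intro x hx y hy
      obtain ⟨c, rfl⟩ := Ideal.mem_span_singleton'.1 hy
      have h3 : x * (c * s) = c * (s * x) := by ring
      rw [h3]
      exact Ideal.mul_mem_left _ _ (Ideal.mul_mono le_sat le_sat (h1 x hx))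
    have h4 : D ∣ Ideal.span {s} :=
      (mul_dvd_mul_iff_left (show satI T (I * J) ≠ 0 from hIJ)).1 (Ideal.dvd_iff_le.2 h2)
    exact Ideal.dvd_iff_le.1 h4 (Ideal.mem_span_singleton_self s)
  have hDtop : D = ⊤ := by
    by_contra hne
    obtain ⟨P, hPm, hDP⟩ := Ideal.exists_le_maximal D hne
    have hPA : P ∣ satI T I * satI T J := by
      rw [hD]
      exact Dvd.dvd.mul_left (Ideal.dvd_iff_le.2 hDP) _
    have hP0 : P ≠ ⊥ := by
      rintro rfl
      exact hA0 (by rw [hD, le_bot_iff.1 hDP, Ideal.mul_bot])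
    have hPp : P.IsPrime := hPm.isPrime
    rcases ((Ideal.prime_iff_isPrime hP0).2 hPp).dvd_or_dvd hPA with h | h
    · exact sat_not_le hPp hP0 hs (hDP hsD) hI (Ideal.dvd_iff_le.1 h)
    · exact sat_not_le hPp hP0 hs (hDP hsD) hJ (Ideal.dvd_iff_le.1 h)
  rw [hD, hDtop, Ideal.mul_top]

theorem sat_pow (hI : I ≠ ⊥) (n : ℕ) : satI T (I ^ n) = satI T I ^ n := by
  induction n with
  | zero => rw [pow_zero, pow_zero, Ideal.one_eq_top, sat_top]
  | succ n ih => rw [pow_succ, pow_succ, sat_mul (pow_ne_zero n hI) hI, ih]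

end

end CV
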