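import Pool.Agent.Lib.MP_f80667_ag.Cv.Mt

/-!
Curves `C_(n,d)`: rings with elements `x`, `u` such that the monomials `x ^ i u ^ j`, `j < n`, are a basis and
`u ^ n - x ^ d` is a combination of monomials of weight `n i + d j < n d`, `n` and `d` coprime. The monomials are a basis
with a monic table, the index of `x ^ i u ^ j` is `n i + d j`.
-/

namespace CV

namespace Se

/-- The semigroup generated by `n` and `d`. -/
def idx (n d : ℕ) : AddSubmonoid ℕ where
  carrier := {m | ∃ i j, m = n * i + d * j}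
  zero_mem' := ⟨0, 0, by simp⟩
  add_mem' := by
    rintro a b ⟨i, j, rfl⟩ ⟨k, l, rfl⟩
    exact ⟨i + k, j + l, by ring⟩

theorem mem_idx {n d m : ℕ} : m ∈ idx n d ↔ ∃ i j, m = n * i + d * j := Iff.rfl

theorem idx_fin {n d : ℕ} (hn : 0 < n) (hco : n.Coprime d) :
    ∃ n₀ : ℕ, ∀ m, n₀ ≤ m → m ∈ idx n d := by
  refine ⟨d * n, fun m hm => ?_⟩
  -- `d r = m` modulo `n`
  obtain ⟨r, hr, hmod⟩ : ∃ r, r < n ∧ d * r ≡ m [MOD n] := by
    have h1 : IsUnit ((d : ℕ) : ZMod n) := (ZMod.isUnit_iff_coprime d n).2 hco.symm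
    obtain ⟨v, hv⟩ := h1
    have : NeZero n := ⟨hn.ne'⟩
    refine ⟨((v⁻¹ : (ZMod n)ˣ) * (m : ZMod n) : ZMod n).val, ZMod.val_lt _, ?_⟩
    rw [← ZMod.natCast_eq_natCast_iff]
    push_cast
    rw [ZMod.natCast_val, ZMod.cast_id', id, ← hv, ← mul_assoc, Units.mul_inv, one_mul]
  have h2 : d * r ≤ m := (Nat.mul_le_mul_left d hr.le).trans hm
  obtain ⟨i, hi⟩ := (Nat.modEq_iff_dvd' h2).1 hmod
  exact ⟨i, r, by omega⟩

theorem ix_bij {n d : ℕ} (hn : 0 < n) (hco : n.Coprime d) :
    Function.Bijective fun p : ℕ × Fin n => (⟨n * p.1 + d * p.2, p.1, p.2, rfl⟩ : idx n d) := by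
  constructor
  · rintro ⟨i, j⟩ ⟨k, l⟩ h
    have h1 : n * i + d * j = n * k + d * l := congrArg Subtype.val h
    have h2 : d * j ≡ d * l [MOD n] := by
      have : n * i + d * j ≡ n * k + d * l [MOD n] := by rw [h1]
      have h3 : n * i ≡ n * k [MOD n] :=
        ((Nat.modEq_zero_iff_dvd.2 (dvd_mul_right n i))).trans
          (Nat.modEq_zero_iff_dvd.2 (dvd_mul_right n k)).symm
      exact Nat.ModEq.add_left_cancel h3 this
    have h3 : (j : ℕ) ≡ l [MOD n] := Nat.ModEq.cancel_left_of_coprime hco h2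
    have h4 : (j : ℕ) = l := Nat.ModEq.eq_of_lt_of_lt h3 j.2 l.2
    have h5 : j = l := Fin.ext h4
    subst h5
    have h6 : i = k := Nat.eq_of_mul_eq_mul_left hn (by omega)
    rw [h6]
  · rintro ⟨m, i, j, rfl⟩
    refine ⟨(i + d * (j / n), ⟨j % n, Nat.mod_lt j hn⟩), Subtype.ext ?_⟩
    change n * (i + d * (j / n)) + d * (j % n) = n * i + d * j
    have h := Nat.div_add_mod j n
    calc n * (i + d * (j / n)) + d * (j % n) = n * i + d * (n * (j / n) + j % n) := by ring
      _ = n * i + d * j := by rw [h]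

/-- The weight as a bijection. -/
noncomputable def ix {n d : ℕ} (hn : 0 < n) (hco : n.Coprime d) : ℕ × Fin n ≃ idx n d :=
  Equiv.ofBijective _ (ix_bij hn hco)

theorem ix_apply {n d : ℕ} (hn : 0 < n) (hco : n.Coprime d) (p : ℕ × Fin n) :
    (ix hn hco p : ℕ) = n * p.1 + d * p.2 := rfl

section table

variable {S A : Type} [CommRing S] [CommRing A] [Algebra S A] {n d : ℕ}

/-- The weight `n i + d j` as an index. -/
def wt (n d i j : ℕ) : idx n d := ⟨n * i + d * j, i, j, rfl⟩

theorem wt_lt (hn : 0 < n) (hco : n.Coprime d) (b : Module.Basis (ℕ × Fin n) S A) {i j : ℕ}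
    (hj : j < n) : b.reindex (ix hn hco) (wt n d i j) = b (i, ⟨j, hj⟩) := by
  have h : wt n d i j = ix hn hco (i, ⟨j, hj⟩) := rfl
  rw [h, Module.Basis.reindex_apply, Equiv.symm_apply_apply]

/-- Every monomial is the basis element of its weight plus lower terms. -/
theorem mono_sub (hn : 0 < n) (hco : n.Coprime d) {x u : A}
    (b : Module.Basis (ℕ × Fin n) S A) (hb : ∀ p, b p = x ^ p.1 * u ^ (p.2 : ℕ))
    (hrel : u ^ n - x ^ d ∈ Submodule.span S {y | ∃ i j, n * i + d * j < n * d ∧ y = x ^ i * u ^ j})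
    (c a : ℕ) : x ^ a * u ^ c - b.reindex (ix hn hco) (wt n d a c) ∈
      Submodule.span S (b.reindex (ix hn hco) '' {k | (k : ℕ) < n * a + d * c}) := by
  induction c using Nat.strong_induction_on generalizing a with
  | _ c ih =>
    rcases Nat.lt_or_ge c n with hc | hc
    · rw [wt_lt hn hco b hc, hb, sub_self]
      exact zero_mem _
    obtain ⟨c', rfl⟩ := Nat.exists_eq_add_of_le hc
    have e1 : x ^ a * u ^ (n + c') = x ^ (a + d) * u ^ c' + x ^ a * u ^ c' * (u ^ n - x ^ d) := by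
      ring
    have e2 : wt n d a (n + c') = wt n d (a + d) c' := by
      refine Subtype.ext ?_
      change n * a + d * (n + c') = n * (a + d) + d * c'
      ring
    have e3 : n * a + d * (n + c') = n * (a + d) + d * c' := by ring
    have h1 := ih c' (by omega) (a + d)
    rw [← e2, ← e3] at h1
    have h2 : ∀ y ∈ Submodule.span S {y | ∃ i j, n * i + d * j < n * d ∧ y = x ^ i * u ^ j},
        x ^ a * u ^ c' * y ∈
          Submodule.span S (b.reindex (ix hn hco) '' {k | (k : ℕ) < n * a + d * (n + c')}) := by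
      intro y hy
      induction hy using Submodule.span_induction with
      | mem y hy =>
        obtain ⟨i, j, hij, rfl⟩ := hy
        have hj : j < n := by
          by_contra hj
          have : d * n ≤ d * j := Nat.mul_le_mul_left d (not_lt.1 hj)
          rw [mul_comm d n] at this
          omega
        have hw : n * (a + i) + d * (c' + j) < n * a + d * (n + c') := by
          have : n * (a + i) + d * (c' + j) = n * a + d * c' + (n * i + d * j) := by ring
          have h' : n * a + d * (n + c') = n * a + d * c' + n * d := by ring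
          omega
        have h3 := ih (c' + j) (by omega) (a + i)
        have h4 : x ^ a * u ^ c' * (x ^ i * u ^ j) = (x ^ (a + i) * u ^ (c' + j) -
            b.reindex (ix hn hco) (wt n d (a + i) (c' + j))) +
              b.reindex (ix hn hco) (wt n d (a + i) (c' + j)) := by
          ring
        rw [h4]
        refine add_mem (Submodule.span_mono (Set.image_mono fun k hk => lt_trans hk hw) h3) ?_
        exact Submodule.subset_span ⟨_, hw, rfl⟩
      | zero => rw [mul_zero]; exact zero_mem _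
      | add y z _ _ hy hz => rw [mul_add (x ^ a * u ^ c') y z]; exact add_mem hy hz
      | smul r y _ hy => rw [mul_smul_comm]; exact Submodule.smul_mem _ _ hy
    rw [e1, add_sub_right_comm]
    exact add_mem h1 (h2 _ hrel)

/-- The monic table. -/
noncomputable def mt (hn : 0 < n) (hco : n.Coprime d) {x u : A}
    (b : Module.Basis (ℕ × Fin n) S A) (hb : ∀ p, b p = x ^ p.1 * u ^ (p.2 : ℕ))
    (hrel : u ^ n - x ^ d ∈ Submodule.span S {y | ∃ i j, n * i + d * j < n * d ∧ y = x ^ i * u ^ j}) :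
    Mt S A where
  S := idx n d
  fin := idx_fin hn hco
  e := b.reindex (ix hn hco)
  one := by
    have h : (0 : idx n d) = wt n d 0 0 := Subtype.ext (by simp [wt])
    rw [h, wt_lt hn hco b hn, hb]
    simp
  tab m k := by
    obtain ⟨⟨i, j⟩, rfl⟩ := (ix hn hco).surjective m
    obtain ⟨⟨i', j'⟩, rfl⟩ := (ix hn hco).surjective k
    have h := mono_sub hn hco b hb hrel (j + j') (i + i')
    have e1 : wt n d (i + i') (j + j') = ix hn hco (i, j) + ix hn hco (i', j') := by
      refine Subtype.ext ?_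
      change n * (i + i') + d * (j + j') = (n * i + d * j) + (n * i' + d * j')
      ring
    have e2 : n * (i + i') + d * (j + j') = ((ix hn hco (i, j) : idx n d) : ℕ) +
        (ix hn hco (i', j') : idx n d) := congrArg Subtype.val e1
    have e3 : b.reindex (ix hn hco) (ix hn hco (i, j)) = x ^ i * u ^ (j : ℕ) := by
      rw [Module.Basis.reindex_apply, Equiv.symm_apply_apply, hb]
    have e4 : b.reindex (ix hn hco) (ix hn hco (i', j')) = x ^ i' * u ^ (j' : ℕ) := by
      rw [Module.Basis.reindex_apply, Equiv.symm_apply_apply, hb]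
    rw [e1, e2] at h
    rw [e3, e4]
    have e5 : x ^ i * u ^ (j : ℕ) * (x ^ i' * u ^ (j' : ℕ)) =
        x ^ (i + i') * u ^ ((j : ℕ) + j') := by ring
    rw [e5]
    exact h

theorem mt_e (hn : 0 < n) (hco : n.Coprime d) {x u : A}
    (b : Module.Basis (ℕ × Fin n) S A) (hb : ∀ p, b p = x ^ p.1 * u ^ (p.2 : ℕ))
    (hrel : u ^ n - x ^ d ∈ Submodule.span S {y | ∃ i j, n * i + d * j < n * d ∧ y = x ^ i * u ^ j})
    {i j : ℕ} (hj : j < n) : (mt hn hco b hb hrel).e (wt n d i j) = x ^ i * u ^ j := by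
  have h := wt_lt hn hco b (i := i) hj
  rw [hb] at h
  exact h

theorem exists_st (hn : 0 < n) (hd : 0 < d) (hco : n.Coprime d) :
    ∃ s t : ℕ, d * s = n * t + 1 := by
  rcases Nat.eq_or_lt_of_le (Nat.succ_le_of_lt hn) with h1 | h1
  · have h2 : n = 1 := h1.symm
    exact ⟨1, d - 1, by rw [h2]; omega⟩
  · obtain ⟨s, hs⟩ := Nat.exists_mul_mod_eq_one_of_coprime hco.symm h1
    refine ⟨s, d * s / n, ?_⟩
    have h2 := Nat.div_add_mod (d * s) n
    omega

/-- The scaled basis. -/
noncomputable def scB (b : Module.Basis (ℕ × Fin n) S A) (c : Sˣ) (s t : ℕ) :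
    Module.Basis (ℕ × Fin n) S A :=
  b.unitsSMul fun p => c ^ (s * p.1 + t * p.2)

theorem scB_apply {x u : A} (b : Module.Basis (ℕ × Fin n) S A)
    (hb : ∀ p, b p = x ^ p.1 * u ^ (p.2 : ℕ)) (c : Sˣ) (s t : ℕ) (p : ℕ × Fin n) :
    scB b c s t p = (((c : S) ^ s) • x) ^ p.1 * (((c : S) ^ t) • u) ^ (p.2 : ℕ) := by
  rw [scB, Module.Basis.unitsSMul_apply, hb, smul_pow, smul_pow, smul_mul_smul_comm, ← pow_mul,
    ← pow_mul, ← pow_add, Units.smul_def]
  push_cast
  rfl

theorem sc_rel {x u : A} (c : Sˣ) {s t : ℕ} (hst : d * s = n * t + 1)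
    (hrel : u ^ n - (c : S) • x ^ d ∈
      Submodule.span S {y | ∃ i j, n * i + d * j < n * d ∧ y = x ^ i * u ^ j}) :
    (((c : S) ^ t) • u) ^ n - (((c : S) ^ s) • x) ^ d ∈ Submodule.span S {y | ∃ i j,
      n * i + d * j < n * d ∧ y = (((c : S) ^ s) • x) ^ i * (((c : S) ^ t) • u) ^ j} := by
  have e1 : (((c : S) ^ t) • u) ^ n - (((c : S) ^ s) • x) ^ d =
      ((c : S) ^ (n * t)) • (u ^ n - (c : S) • x ^ d) := by
    rw [smul_pow, smul_pow, ← pow_mul, ← pow_mul, smul_sub, smul_smul, ← pow_succ, mul_comm t n,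
      mul_comm s d, hst]
  rw [e1]
  refine Submodule.smul_mem _ _ ?_
  refine Submodule.span_le.2 ?_ hrel
  rintro y ⟨i, j, hij, rfl⟩
  have e2 : x ^ i * u ^ j = (((c⁻¹ : Sˣ) : S) ^ (s * i + t * j)) •
      ((((c : S) ^ s) • x) ^ i * (((c : S) ^ t) • u) ^ j) := by
    rw [smul_pow, smul_pow, smul_mul_smul_comm, ← pow_mul, ← pow_mul, ← pow_add, smul_smul,
      ← mul_pow, Units.inv_mul, one_pow, one_smul]
  rw [e2]
  exact Submodule.smul_mem _ _ (Submodule.subset_span ⟨i, j, hij, rfl⟩)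

/-- The monic table if `u ^ n = c x ^ d + ..` with a unit `c`: scale `x` and `u` by powers of `c`. -/
noncomputable def mtU (hn : 0 < n) (hd : 0 < d) (hco : n.Coprime d) {x u : A}
    (b : Module.Basis (ℕ × Fin n) S A) (hb : ∀ p, b p = x ^ p.1 * u ^ (p.2 : ℕ)) (c : Sˣ)
    (hrel : u ^ n - (c : S) • x ^ d ∈
      Submodule.span S {y | ∃ i j, n * i + d * j < n * d ∧ y = x ^ i * u ^ j}) : Mt S A :=
  mt hn hco (scB b c (exists_st hn hd hco).choose (exists_st hn hd hco).choose_spec.choose)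
    (scB_apply b hb c _ _) (sc_rel c (exists_st hn hd hco).choose_spec.choose_spec hrel)

/-- The degree of `x` is `n`. -/
theorem mtU_d [Nontrivial S] (hn : 0 < n) (hd : 0 < d) (hco : n.Coprime d) {x u : A}
    (b : Module.Basis (ℕ × Fin n) S A) (hb : ∀ p, b p = x ^ p.1 * u ^ (p.2 : ℕ)) (c : Sˣ)
    (hrel : u ^ n - (c : S) • x ^ d ∈
      Submodule.span S {y | ∃ i j, n * i + d * j < n * d ∧ y = x ^ i * u ^ j}) :
    (mtU hn hd hco b hb c hrel).d x = n := by
  set T := mtU hn hd hco b hb c hrel with hT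
  set s := (exists_st hn hd hco).choose
  set t := (exists_st hn hd hco).choose_spec.choose
  have h1 : T.e (wt n d 1 0) = ((c : S) ^ s) • x := by
    have := mt_e hn hco (scB b c s t) (scB_apply b hb c s t)
      (sc_rel c (exists_st hn hd hco).choose_spec.choose_spec hrel) (i := 1) (j := 0) hn
    rw [pow_one, pow_zero, mul_one] at this
    exact this
  have h2 : x = (((c⁻¹ : Sˣ) : S) ^ s) • T.e (wt n d 1 0) := by
    rw [h1, smul_smul, ← mul_pow, Units.inv_mul, one_pow, one_smul]
  have h3 : ((wt n d 1 0 : idx n d) : ℕ) = n := by simp [wt]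
  have h4 := T.d_eq (m := wt n d 1 0) (x := x)
    (by rw [h2]; exact Submodule.smul_mem _ _ (T.e_mem _)) (by
      rw [h2, map_smul, T.e.repr_self, Finsupp.smul_apply, Finsupp.single_eq_same, smul_eq_mul,
        mul_one]
      exact (IsUnit.pow s (Units.isUnit c⁻¹)).ne_zero)
  rw [h4, h3]

end table

end Se

end CV
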