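import Pool.Agent.Lib.MP_f80667_ag.Cv.SeA

/-!
The ring `S[x, u] / (u ^ n - a(x))`: basis, monic table, universal property, smoothness.
-/

open Polynomial

namespace CV

namespace Se

variable {S : Type} [CommRing S]

/-- The equation. -/
noncomputable def eqn (n : ℕ) (a : S[X]) : S[X][X] := X ^ n - C a

/-- The ring `S[x, u] / (u ^ n - a(x))`. -/
abbrev Rg (n : ℕ) (a : S[X]) : Type := AdjoinRoot (eqn n a)

/-- The element `x`. -/
noncomputable def gx (n : ℕ) (a : S[X]) : Rg n a := algebraMap S[X] (Rg n a) X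

/-- The element `u`. -/
noncomputable def gu (n : ℕ) (a : S[X]) : Rg n a := AdjoinRoot.root (eqn n a)

theorem aeval_gx (n : ℕ) (a f : S[X]) : aeval (gx n a) f = algebraMap S[X] (Rg n a) f := by
  have h := aeval_algHom_apply (IsScalarTower.toAlgHom S S[X] (Rg n a)) X f
  rw [aeval_X_left_apply] at h
  exact h

theorem gu_pow (n : ℕ) (a : S[X]) : gu n a ^ n = aeval (gx n a) a := by
  have h : eval₂ (AdjoinRoot.of (eqn n a)) (AdjoinRoot.root (eqn n a)) (eqn n a) = 0 :=
    AdjoinRoot.eval₂_root (eqn n a)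
  rw [eqn, eval₂_sub, eval₂_pow, eval₂_X, eval₂_C, sub_eq_zero] at h
  rw [aeval_gx]
  exact h

section lift

variable {n : ℕ} {a : S[X]} {B : Type*} [CommRing B] [Algebra S B]

theorem lift_aux {x u : B} (h : u ^ n = aeval x a) :
    eval₂ ((aeval x : S[X] →ₐ[S] B) : S[X] →+* B) u (eqn n a) = 0 := by
  rw [eqn, eval₂_sub, eval₂_pow, eval₂_X, eval₂_C, sub_eq_zero]
  exact h

/-- The universal property. -/
noncomputable def lift {x u : B} (h : u ^ n = aeval x a) : Rg n a →ₐ[S] B :=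
  AdjoinRoot.liftAlgHom (eqn n a) (aeval x) u (lift_aux h)

theorem lift_gx {x u : B} (h : u ^ n = aeval x a) : lift h (gx n a) = x := by
  have h1 : lift h (gx n a) = aeval x (X : S[X]) :=
    AdjoinRoot.liftAlgHom_of (eqn n a) (aeval x) u (lift_aux h) X
  rw [h1, aeval_X]

theorem lift_gu {x u : B} (h : u ^ n = aeval x a) : lift h (gu n a) = u :=
  AdjoinRoot.liftAlgHom_root (eqn n a) (aeval x) u (lift_aux h)

end lift

theorem eqn_monic {n : ℕ} (hn : n ≠ 0) (a : S[X]) : (eqn n a).Monic := monic_X_pow_sub_C a hn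

theorem eqn_deg [Nontrivial S] (n : ℕ) (a : S[X]) : (eqn n a).natDegree = n :=
  natDegree_X_pow_sub_C

/-- The basis of the monomials `x ^ i u ^ j`, `j < n`. -/
noncomputable def bs [Nontrivial S] {n : ℕ} (hn : n ≠ 0) (a : S[X]) :
    Module.Basis (ℕ × Fin n) S (Rg n a) :=
  ((basisMonomials S).smulTower (AdjoinRoot.powerBasis' (eqn_monic hn a)).basis).reindex
    (Equiv.prodCongr (Equiv.refl ℕ) (finCongr (eqn_deg n a)))

theorem bs_apply [Nontrivial S] {n : ℕ} (hn : n ≠ 0) (a : S[X]) (p : ℕ × Fin n) :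
    bs hn a p = gx n a ^ p.1 * gu n a ^ (p.2 : ℕ) := by
  rw [bs, Module.Basis.reindex_apply, Module.Basis.smulTower_apply, PowerBasis.basis_eq_pow,
    Algebra.smul_def, coe_basisMonomials]
  congr 1
  change algebraMap S[X] (Rg n a) (monomial p.1 1) = _
  rw [← X_pow_eq_monomial, map_pow]
  rfl

/-- `x` and `u` generate the ring. -/
theorem gen [Nontrivial S] {n : ℕ} (hn : n ≠ 0) (a : S[X]) :
    Algebra.adjoin S {gx n a, gu n a} = ⊤ := by
  rw [eq_top_iff]
  intro y _
  have h : y ∈ Submodule.span S (Set.range (bs hn a)) := by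
    rw [(bs hn a).span_eq]
    trivial
  refine Submodule.span_le (p := (Algebra.adjoin S {gx n a, gu n a}).toSubmodule).2 ?_ h
  rintro z ⟨p, rfl⟩
  rw [bs_apply]
  have h1 : gx n a ^ p.1 * gu n a ^ (p.2 : ℕ) ∈ Algebra.adjoin S {gx n a, gu n a} :=
    mul_mem (pow_mem (Algebra.subset_adjoin (by simp)) _)
      (pow_mem (Algebra.subset_adjoin (by simp)) _)
  exact h1

theorem rel (n : ℕ) (hn : 0 < n) (a : S[X]) (c : Sˣ) (hc : (c : S) = a.leadingCoeff) :
    gu n a ^ n - (c : S) • gx n a ^ a.natDegree ∈ Submodule.span S {y | ∃ i j,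
      n * i + a.natDegree * j < n * a.natDegree ∧ y = gx n a ^ i * gu n a ^ j} := by
  rw [gu_pow, aeval_eq_sum_range, Finset.sum_range_succ, hc, leadingCoeff, add_sub_cancel_right]
  refine Submodule.sum_mem _ fun i hi => Submodule.smul_mem _ _ (Submodule.subset_span
    ⟨i, 0, ?_, by rw [pow_zero, mul_one]⟩)
  rw [mul_zero, add_zero]
  exact Nat.mul_lt_mul_of_pos_left (Finset.mem_range.1 hi) hn

/-- The monic table. -/
noncomputable def tb [Nontrivial S] {n : ℕ} (hn : 0 < n) {a : S[X]} (hd : 0 < a.natDegree)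
    (hco : n.Coprime a.natDegree) (hl : IsUnit a.leadingCoeff) : Mt S (Rg n a) :=
  mtU hn hd hco (bs hn.ne' a) (bs_apply hn.ne' a) hl.unit (rel n hn a hl.unit hl.unit_spec)

theorem tb_d [Nontrivial S] {n : ℕ} (hn : 0 < n) {a : S[X]} (hd : 0 < a.natDegree)
    (hco : n.Coprime a.natDegree) (hl : IsUnit a.leadingCoeff) :
    (tb hn hd hco hl).d (gx n a) = n :=
  mtU_d hn hd hco (bs hn.ne' a) (bs_apply hn.ne' a) hl.unit (rel n hn a hl.unit hl.unit_spec)

/-- The Jacobian criterion. -/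
theorem smooth {n : ℕ} (hn : 0 < n) (hu : IsUnit (n : S)) {a : S[X]}
    (h : ∃ b c : S[X], b * a + c * derivative a = 1) : Algebra.Smooth S (Rg n a) := by
  have hf : Algebra.FormallySmooth S (Rg n a) := by
    refine .of_comp_surjective fun B _ _ I hI f => ?_
    obtain ⟨x₀, hx₀⟩ := Ideal.Quotient.mk_surjective (f (gx n a))
    obtain ⟨u₀, hu₀⟩ := Ideal.Quotient.mk_surjective (f (gu n a))
    obtain ⟨b, c, hbc⟩ := h
    obtain ⟨m, hm⟩ := hu
    have hsq : ∀ y ∈ I, y ^ 2 = 0 := fun y hy => by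
      have := Ideal.pow_mem_pow hy 2
      rwa [hI, Submodule.mem_bot] at this
    -- the defect
    have hP : u₀ ^ n - aeval x₀ a ∈ I := by
      rw [← Ideal.Quotient.eq, map_pow, hu₀, ← map_pow, gu_pow, ← aeval_algHom_apply, ← hx₀]
      exact aeval_algHom_apply (Ideal.Quotient.mkₐ S I) x₀ a
    set P := u₀ ^ n - aeval x₀ a with hPdef
    have hbc' : aeval x₀ b * aeval x₀ a + aeval x₀ c * aeval x₀ (derivative a) = 1 := by
      rw [← map_mul, ← map_mul, ← map_add, hbc, map_one]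
    set k : B := algebraMap S B ((m⁻¹ : Sˣ) : S) with hk
    have hkn : (n : B) * k = 1 := by
      rw [hk, ← map_natCast (algebraMap S B) n, ← map_mul, ← hm, Units.mul_inv, map_one]
    have hε : -(k * u₀ * aeval x₀ b * P) ∈ I := I.neg_mem (Ideal.mul_mem_left _ _ hP)
    have hδ : aeval x₀ c * P ∈ I := Ideal.mul_mem_left _ _ hP
    have e1 : (u₀ + -(k * u₀ * aeval x₀ b * P)) ^ n = aeval (x₀ + aeval x₀ c * P) a := by
      rw [aeval_add_of_sq_eq_zero _ _ _ (hsq _ hδ)]
      have h2 := aeval_add_of_sq_eq_zero (X ^ n : S[X]) u₀ (-(k * u₀ * aeval x₀ b * P))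
        (hsq _ hε)
      rw [map_pow, map_pow, aeval_X, aeval_X, derivative_X_pow, map_mul, map_pow, aeval_X,
        aeval_C, map_natCast] at h2
      rw [h2]
      have h3 : u₀ ^ (n - 1) * u₀ = P + aeval x₀ a := by
        rw [← pow_succ, Nat.sub_add_cancel hn, hPdef, sub_add_cancel]
      have h4 : (n : B) * u₀ ^ (n - 1) * -(k * u₀ * aeval x₀ b * P) =
          -(((n : B) * k) * (u₀ ^ (n - 1) * u₀) * aeval x₀ b * P) := by ring
      have hPP : P * P = 0 := by
        rw [← sq]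
        exact hsq _ hP
      rw [h4, h3, hkn]
      have h5 : u₀ ^ n = P + aeval x₀ a := by rw [hPdef, sub_add_cancel]
      rw [h5]
      have h6 : P + aeval x₀ a + -(1 * (P + aeval x₀ a) * aeval x₀ b * P) -
          (aeval x₀ a + aeval x₀ (derivative a) * (aeval x₀ c * P)) =
          (1 - (aeval x₀ b * aeval x₀ a + aeval x₀ c * aeval x₀ (derivative a))) * P -
            aeval x₀ b * (P * P) := by ring
      rw [hbc', hPP, sub_self, zero_mul, mul_zero, sub_self] at h6
      exact sub_eq_zero.1 h6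
    refine ⟨lift e1, ?_⟩
    refine AdjoinRoot.algHom_ext' ?_ ?_
    · refine Polynomial.algHom_ext ?_
      change Ideal.Quotient.mk I (lift e1 (gx n a)) = f (gx n a)
      rw [lift_gx, ← hx₀, Ideal.Quotient.eq, add_sub_cancel_left]
      exact hδ
    · change Ideal.Quotient.mk I (lift e1 (gu n a)) = f (gu n a)
      rw [lift_gu, ← hu₀, Ideal.Quotient.eq, add_sub_cancel_left]
      exact hε
  exact ⟨hf, inferInstance⟩

end Se

end CV
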