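import Pool.Agent.Lib.MP_f80667_ag.Cv.SeB
import Pool.Agent.Lib.MP_f80667_ag.Cv.Sp2

/-!
The curve `u ^ n = a(x)`: the pointed curve (`crv`), presentations (`Ps`), good reduction from an affine change of
variables (`mod_of`).
-/

open Polynomial TensorProduct

namespace CV

namespace Se

/-- A presentation of `A` by the equation `u ^ n = a(x)`. -/
structure Ps (M A : Type) [Field M] [CommRing A] [Algebra M A] (n : ℕ) (a : M[X]) where
  /-- the element `x` -/
  x : A
  /-- the element `u` -/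
  u : A
  eq : u ^ n = aeval x a
  gen : Algebra.adjoin M {x, u} = ⊤
  lift : ∀ (B : Type) [CommRing B] [Algebra M B] (y v : B), v ^ n = aeval y a →
    ∃ φ : A →ₐ[M] B, φ x = y ∧ φ u = v

section crv

variable {M : Type} [Field M] {n : ℕ} {a : M[X]}

/-- The presentation of the standard ring. -/
noncomputable def psRg (hn : 0 < n) (a : M[X]) : Ps M (Rg n a) n a where
  x := gx n a
  u := gu n a
  eq := gu_pow n a
  gen := gen hn.ne' a
  lift _ _ _ _ _ h := ⟨Se.lift h, lift_gx h, lift_gu h⟩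

theorem lc_unit (hd : 0 < a.natDegree) : IsUnit a.leadingCoeff := by
  refine isUnit_iff_ne_zero.2 (leadingCoeff_ne_zero.2 ?_)
  rintro rfl
  simp at hd

/-- The curve `u ^ n = a(x)`. -/
noncomputable def crv (hn : 0 < n) (hM : (n : M) ≠ 0) (ha : a.Separable) (hd : 0 < a.natDegree)
    (hco : n.Coprime a.natDegree) : Crv M where
  A := Rg n a
  sm := smooth hn (isUnit_iff_ne_zero.2 hM) ha
  G := (tb hn hd hco (lc_unit hd)).dg

theorem crv_deg (hn : 0 < n) (hM : (n : M) ≠ 0) (ha : a.Separable) (hd : 0 < a.natDegree)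
    (hco : n.Coprime a.natDegree) : (crv hn hM ha hd hco).G.d (gx n a) = n :=
  tb_d hn hd hco (lc_unit hd)

/-- Exchange of the variables. -/
def Ps.swap {A : Type} [CommRing A] [Algebra M A] {m : ℕ} {α : M}
    (P : Ps M A n (X ^ m + C α)) : Ps M A m (X ^ n - C α) where
  x := P.u
  u := P.x
  eq := by
    have h := P.eq
    rw [map_add, map_pow, aeval_X, aeval_C] at h
    rw [map_sub, map_pow, aeval_X, aeval_C, h, add_sub_cancel_right]
  gen := by
    rw [Set.pair_comm]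
    exact P.gen
  lift B _ _ y v h := by
    obtain ⟨φ, h1, h2⟩ := P.lift B v y (by
      rw [map_sub, map_pow, aeval_X, aeval_C] at h
      rw [map_add, map_pow, aeval_X, aeval_C, h, sub_add_cancel])
    exact ⟨φ, h2, h1⟩

end crv

section iso

variable {O M A : Type} [CommRing O] [Field M] [Algebra O M] [CommRing A] [Algebra M A]

theorem iso_core {R : Type} [CommRing R] [Algebra O R] (φ : M ⊗[O] R →ₐ[M] A)
    (ψ : A →ₐ[M] M ⊗[O] R) {X U : A} (hA : Algebra.adjoin M {X, U} = ⊤) {x u : R}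
    (hR : Algebra.adjoin O {x, u} = ⊤) (h1 : φ (ψ X) = X) (h2 : φ (ψ U) = U)
    (h3 : ψ (φ ((1 : M) ⊗ₜ[O] x)) = (1 : M) ⊗ₜ[O] x)
    (h4 : ψ (φ ((1 : M) ⊗ₜ[O] u)) = (1 : M) ⊗ₜ[O] u) : Nonempty (M ⊗[O] R ≃ₐ[M] A) := by
  refine ⟨AlgEquiv.ofAlgHom φ ψ ?_ ?_⟩
  · refine AlgHom.ext_of_adjoin_eq_top hA ?_
    rintro z (rfl | rfl)
    · exact h1
    · exact h2
  · refine Algebra.TensorProduct.ext (by ext) ?_
    refine AlgHom.ext_of_adjoin_eq_top hR ?_
    rintro z (rfl | rfl)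
    · exact h3
    · exact h4

variable {n : ℕ} {a : M[X]} {a₀ : O[X]}

/-- The change of variables `X = p x + q`, `U = r u`. -/
theorem iso_un [Nontrivial O] (P : Ps M A n a) (hn : n ≠ 0) (p q r : M) (hp : p ≠ 0) (hr : r ≠ 0)
    (h : a.comp (C p * X + C q) = C (r ^ n) * a₀.map (algebraMap O M)) :
    Nonempty (M ⊗[O] Rg n a₀ ≃ₐ[M] A) := by
  let _ : Algebra O A := ((algebraMap M A).comp (algebraMap O M)).toAlgebra
  have : IsScalarTower O M A := IsScalarTower.of_algebraMap_eq fun _ => rfl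
  -- the map to `A`
  have hx : aeval P.x a = algebraMap M A (r ^ n) *
      aeval (algebraMap M A p⁻¹ * (P.x - algebraMap M A q)) a₀ := by
    have e1 : aeval (algebraMap M A p⁻¹ * (P.x - algebraMap M A q)) (C p * X + C q) = P.x := by
      rw [map_add, map_mul, aeval_C, aeval_X, aeval_C, ← mul_assoc, ← map_mul,
        mul_inv_cancel₀ hp, map_one, one_mul, sub_add_cancel]
    have e2 := congrArg (aeval (algebraMap M A p⁻¹ * (P.x - algebraMap M A q))) h
    rw [aeval_comp, e1, map_mul, aeval_C, aeval_map_algebraMap] at e2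
    exact e2
  have h1 : (algebraMap M A r⁻¹ * P.u) ^ n =
      aeval (algebraMap M A p⁻¹ * (P.x - algebraMap M A q)) a₀ := by
    rw [mul_pow, P.eq, hx, ← mul_assoc, ← map_pow, ← map_mul, ← mul_pow, inv_mul_cancel₀ hr,
      one_pow, map_one, one_mul]
  let φ : M ⊗[O] Rg n a₀ →ₐ[M] A :=
    Algebra.TensorProduct.lift (Algebra.ofId M A) (Se.lift h1) fun _ _ => Commute.all _ _
  have φx : φ ((1 : M) ⊗ₜ[O] gx n a₀) = algebraMap M A p⁻¹ * (P.x - algebraMap M A q) := by
    rw [Algebra.TensorProduct.lift_tmul, map_one, one_mul, lift_gx]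
  have φu : φ ((1 : M) ⊗ₜ[O] gu n a₀) = algebraMap M A r⁻¹ * P.u := by
    rw [Algebra.TensorProduct.lift_tmul, map_one, one_mul, lift_gu]
  -- the map from `A`
  set B := M ⊗[O] Rg n a₀
  have e3 : ((1 : M) ⊗ₜ[O] gu n a₀ : B) ^ n =
      aeval ((1 : M) ⊗ₜ[O] gx n a₀ : B) (a₀.map (algebraMap O M)) := by
    rw [Algebra.TensorProduct.tmul_pow, one_pow, gu_pow, aeval_map_algebraMap]
    exact (aeval_algHom_apply (Algebra.TensorProduct.includeRight : Rg n a₀ →ₐ[O] B) _ _).symm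
  have h2 : (algebraMap M B r * ((1 : M) ⊗ₜ[O] gu n a₀ : B)) ^ n =
      aeval (algebraMap M B p * ((1 : M) ⊗ₜ[O] gx n a₀ : B) + algebraMap M B q) a := by
    have e4 : aeval ((1 : M) ⊗ₜ[O] gx n a₀ : B) (C p * X + C q) =
        algebraMap M B p * ((1 : M) ⊗ₜ[O] gx n a₀ : B) + algebraMap M B q := by
      rw [map_add, map_mul, aeval_C, aeval_X, aeval_C]
    have e5 := congrArg (aeval ((1 : M) ⊗ₜ[O] gx n a₀ : B)) h
    rw [aeval_comp, e4, map_mul, aeval_C] at e5
    rw [e5, mul_pow, e3, ← map_pow]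
  obtain ⟨ψ, ψx, ψu⟩ := P.lift B _ _ h2
  refine iso_core φ ψ P.gen (gen hn a₀) ?_ ?_ ?_ ?_
  · rw [ψx, map_add, map_mul, AlgHom.commutes, AlgHom.commutes, φx, ← mul_assoc, ← map_mul,
      mul_inv_cancel₀ hp, map_one, one_mul, sub_add_cancel]
  · rw [ψu, map_mul, AlgHom.commutes, φu, ← mul_assoc, ← map_mul, mul_inv_cancel₀ hr, map_one,
      one_mul]
  · rw [φx, map_mul, map_sub, AlgHom.commutes, AlgHom.commutes, ψx, add_sub_cancel_right,
      ← mul_assoc, ← map_mul, inv_mul_cancel₀ hp, map_one, one_mul]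
  · rw [φu, map_mul, AlgHom.commutes, ψu, ← mul_assoc, ← map_mul, inv_mul_cancel₀ hr, map_one,
      one_mul]

end iso

/-- **Good reduction** after a change of variables. -/
theorem mod_of {O M : Type} [CommRing O] [IsLocalRing O] [Field M] [Algebra O M] (C₀ : Crv M)
    {n : ℕ} {a : M[X]} (P : Ps M C₀.A n a) {a₀ : O[X]} (hn : 0 < n) (hu : IsUnit (n : O))
    (hl : IsUnit a₀.leadingCoeff) (hd : 0 < a₀.natDegree) (hco : n.Coprime a₀.natDegree)
    (hs : ∃ b c : O[X], b * a₀ + c * derivative a₀ = 1) (p q r : M) (hp : p ≠ 0) (hr : r ≠ 0)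
    (h : a.comp (C p * X + C q) = C (r ^ n) * a₀.map (algebraMap O M)) :
    Nonempty (Mod C₀ O M) := by
  obtain ⟨e⟩ := iso_un P hn.ne' p q r hp hr h
  exact modOf C₀ O M (Rg n a₀) (smooth hn hu hs) (tb hn hd hco hl)
    (e.trans (Algebra.TensorProduct.lid M C₀.A).symm)

end Se

end CV
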