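import Pool.Agent.Lib.MP_f80667_ag.Cv.SeC

/-!
The polynomials `((c X + 1) ^ N - 1) / c ^ N`, `c ^ (N - 1) = N`, `N` a prime number, and the Nakayama argument for the
discriminant.
-/

open Polynomial IsLocalRing

namespace CV

namespace Se

section nak

variable {O : Type} [CommRing O] [IsLocalRing O]

/-- If the derivative of a monic polynomial is `1` modulo the maximal ideal, the discriminant is a unit. -/
theorem nak {a : O[X]} (ha : a.Monic)
    (h : ∀ i, (1 - derivative a).coeff i ∈ maximalIdeal O) :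
    ∃ b c : O[X], b * a + c * derivative a = 1 := by
  set J : Ideal O[X] := Ideal.span {a, derivative a} with hJ
  have hfin : Module.Finite O (O[X] ⧸ J) := by
    have h1 : Module.Finite O (O[X] ⧸ Ideal.span {a}) :=
      (ha.finite_adjoinRoot : Module.Finite O (AdjoinRoot a))
    have h2 : Ideal.span {a} ≤ J := Ideal.span_mono (by simp)
    exact Module.Finite.of_surjective
      (Ideal.Quotient.factorₐ O h2).toLinearMap (Ideal.Quotient.factor_surjective h2)
  have hd : (Ideal.Quotient.mk J) (derivative a) = 0 :=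
    Ideal.Quotient.eq_zero_iff_mem.2 (Ideal.subset_span (by simp))
  -- `f` is in `m N` for all `f`
  have key : (⊤ : Submodule O (O[X] ⧸ J)) ≤ maximalIdeal O • (⊤ : Submodule O (O[X] ⧸ J)) := by
    intro y _
    obtain ⟨f, rfl⟩ := Ideal.Quotient.mk_surjective y
    have e1 : Ideal.Quotient.mk J f = Ideal.Quotient.mk J (f * (1 - derivative a)) := by
      rw [map_mul, map_sub, map_one, hd, sub_zero, mul_one]
    rw [e1, (1 - derivative a).as_sum_range_C_mul_X_pow, Finset.mul_sum, map_sum]
    refine Submodule.sum_mem _ fun i _ => ?_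
    have e2 : Ideal.Quotient.mk J (f * (C ((1 - derivative a).coeff i) * X ^ i)) =
        (1 - derivative a).coeff i • Ideal.Quotient.mk J (f * X ^ i) := by
      have e3 : f * (C ((1 - derivative a).coeff i) * X ^ i) =
          (1 - derivative a).coeff i • (f * X ^ i) := by
        rw [smul_eq_C_mul]
        ring
      rw [e3]
      rfl
    rw [e2]
    exact Submodule.smul_mem_smul (h i) trivial
  have h3 := Submodule.eq_bot_of_le_smul_of_le_jacobson_bot (maximalIdeal O)
    (⊤ : Submodule O (O[X] ⧸ J)) hfin.fg_top key (IsLocalRing.maximalIdeal_le_jacobson _)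
  have h4 : Ideal.Quotient.mk J (1 : O[X]) = 0 := by
    have : Ideal.Quotient.mk J (1 : O[X]) ∈ (⊤ : Submodule O (O[X] ⧸ J)) := trivial
    rw [h3] at this
    exact (Submodule.mem_bot O).1 this
  have h5 : (1 : O[X]) ∈ J := Ideal.Quotient.eq_zero_iff_mem.1 h4
  exact Ideal.mem_span_pair.1 h5

end nak

section ep

variable {O : Type} [CommRing O]

/-- The coefficients of lower degree. -/
noncomputable def lo (N : ℕ) (c : O) : O[X] :=
  ∑ k ∈ Finset.Ico 1 N, C (((N.choose k / N : ℕ) : O) * c ^ (k - 1)) * X ^ k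

/-- The polynomial `((c X + 1) ^ N - 1) / c ^ N`. -/
noncomputable def Ep (N : ℕ) (c : O) : O[X] := X ^ N + lo N c

theorem lo_coeff (N : ℕ) (c : O) (k : ℕ) :
    (lo N c).coeff k = if 1 ≤ k ∧ k < N then ((N.choose k / N : ℕ) : O) * c ^ (k - 1) else 0 := by
  rw [lo, finsetSum_coeff]
  simp only [coeff_C_mul, coeff_X_pow]
  by_cases h : 1 ≤ k ∧ k < N
  · rw [if_pos h, Finset.sum_eq_single k]
    · simp
    · intro j _ hj
      rw [if_neg (Ne.symm hj), mul_zero]
    · intro hk
      exact absurd (Finset.mem_Ico.2 h) hk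
  · rw [if_neg h]
    refine Finset.sum_eq_zero fun j hj => ?_
    have : k ≠ j := by
      rintro rfl
      exact h (Finset.mem_Ico.1 hj)
    rw [if_neg this, mul_zero]

theorem lo_deg (N : ℕ) (c : O) : (lo N c).degree < N := by
  refine (degree_lt_iff_coeff_zero _ _).2 fun k hk => ?_
  rw [lo_coeff, if_neg]
  omega

theorem Ep_monic (N : ℕ) (c : O) : (Ep N c).Monic :=
  monic_X_pow_add (lo_deg N c)

theorem Ep_natDegree [Nontrivial O] (N : ℕ) (c : O) : (Ep N c).natDegree = N := by
  rw [Ep, natDegree_add_eq_left_of_degree_lt, natDegree_X_pow]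
  rw [degree_X_pow]
  exact lo_deg N c

theorem Ep_eq (N : ℕ) (hN : N.Prime) (c : O) (hc : c ^ (N - 1) = N) :
    C (c ^ N) * Ep N c = (C c * X + 1) ^ N - 1 := by
  have e1 : (C c * X + 1 : O[X]) ^ N - 1 =
      C (c ^ N) * X ^ N + ∑ k ∈ Finset.Ico 1 N, C (c ^ k * (N.choose k : O)) * X ^ k := by
    rw [add_pow, Finset.sum_range_succ, Finset.range_eq_Ico,
      Finset.sum_eq_sum_Ico_succ_bot hN.pos]
    have e2 : ∀ k, (C c * X : O[X]) ^ k * 1 ^ (N - k) * ((N.choose k : ℕ) : O[X]) =
        C (c ^ k * (N.choose k : O)) * X ^ k := by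
      intro k
      rw [mul_pow, one_pow, mul_one, C_mul, C_pow, ← C_eq_natCast]
      ring
    have e3 : (C (c ^ N) : O[X]) = C c ^ N := C_pow
    simp only [e2, e3, zero_add, pow_zero, Nat.choose_zero_right, Nat.choose_self, Nat.cast_one,
      mul_one]
    ring
  rw [e1, Ep, lo, mul_add, Finset.mul_sum]
  congr 1
  refine Finset.sum_congr rfl fun k hk => ?_
  obtain ⟨hk1, hk2⟩ := Finset.mem_Ico.1 hk
  have h1 : N ∣ N.choose k := hN.dvd_choose_self (by omega) hk2
  have h2 : (N.choose k : O) = ((N.choose k / N : ℕ) : O) * c ^ (N - 1) := by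
    rw [hc, ← Nat.cast_mul, Nat.div_mul_cancel h1]
  rw [← mul_assoc, ← C_mul, h2]
  congr 2
  have h3 : c ^ N * c ^ (k - 1) = c ^ k * c ^ (N - 1) := by
    rw [← pow_add, ← pow_add]
    congr 1
    have := hN.pos
    omega
  calc c ^ N * (((N.choose k / N : ℕ) : O) * c ^ (k - 1)) =
      ((N.choose k / N : ℕ) : O) * (c ^ N * c ^ (k - 1)) := by ring
    _ = c ^ k * (((N.choose k / N : ℕ) : O) * c ^ (N - 1)) := by rw [h3]; ring

/-- The discriminant of `Ep N c` is a unit. -/
theorem Ep_sep [IsLocalRing O] (N : ℕ) (hN : N.Prime) (c : O) (hc : c ^ (N - 1) = N)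
    (hm : (N : O) ∈ maximalIdeal O) :
    ∃ b d : O[X], b * Ep N c + d * derivative (Ep N c) = 1 := by
  have h2 := hN.two_le
  have hcm : c ∈ maximalIdeal O := by
    have h1 : c ^ (N - 1) ∈ maximalIdeal O := by rw [hc]; exact hm
    exact Ideal.IsPrime.mem_of_pow_mem inferInstance _ h1
  refine nak (Ep_monic N c) fun i => ?_
  rw [coeff_sub, coeff_derivative, Ep, coeff_add, coeff_X_pow, lo_coeff, coeff_one]
  by_cases hi : i = 0
  · subst hi
    have h3 : ¬ (0 + 1 = N) := by omega
    have h4 : 1 ≤ 0 + 1 ∧ 0 + 1 < N := by omega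
    rw [if_pos rfl, if_neg h3, if_pos h4]
    have h5 : N.choose (0 + 1) / N = 1 := by
      rw [zero_add, Nat.choose_one_right, Nat.div_self hN.pos]
    rw [h5]
    simp
  · rw [if_neg hi, zero_sub, Ideal.neg_mem_iff]
    by_cases h3 : i + 1 = N
    · have h4 : ¬ (1 ≤ i + 1 ∧ i + 1 < N) := by omega
      rw [if_pos h3, if_neg h4, add_zero, one_mul]
      have h5 : ((i : O) + 1) = (N : O) := by rw [← h3]; push_cast; rfl
      rw [h5]
      exact hm
    · rw [if_neg h3, zero_add]
      by_cases h4 : 1 ≤ i + 1 ∧ i + 1 < N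
      · rw [if_pos h4]
        refine Ideal.mul_mem_right _ _ (Ideal.mul_mem_left _ _ (Ideal.pow_mem_of_mem _ hcm _ ?_))
        omega
      · rw [if_neg h4, zero_mul]
        exact zero_mem _

end ep

end Se

end CV
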