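import Pool.Agent.Lib.MP_f80667_ag.Cv.SeD

/-!
Good reduction of `u ^ n = a(x)` and potentially good reduction of `u ^ n = x ^ m + α`.

* `mod_good`: `a` with coefficients in `O`, `n`, the leading coefficient and the discriminant units.
* `mod_tame`: `u ^ n = x ^ m + α`, `n`, `m` units, `α = y ^ (n m)`.
* `mod_m`, `mod_n`: residue characteristic `m`, respectively `n`.
* `mod_pot`: all residue characteristics.
-/

open Polynomial IsLocalRing

namespace CV

namespace Se

variable {O M : Type} [CommRing O] [IsLocalRing O] [Field M] [Algebra O M] {C₀ : Crv M}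

/-- Good reduction. -/
theorem mod_good {n : ℕ} {a₀ : O[X]} (P : Ps M C₀.A n (a₀.map (algebraMap O M))) (hn : 0 < n)
    (hu : IsUnit (n : O)) (hl : IsUnit a₀.leadingCoeff) (hd : 0 < a₀.natDegree)
    (hco : n.Coprime a₀.natDegree) (hs : ∃ b c : O[X], b * a₀ + c * derivative a₀ = 1) :
    Nonempty (Mod C₀ O M) := by
  refine mod_of C₀ P hn hu hl hd hco hs 1 0 1 one_ne_zero one_ne_zero ?_
  rw [one_pow, map_one, map_zero, one_mul, one_mul, add_zero, comp_X]

theorem xm_natDegree (m : ℕ) : (X ^ m + 1 : O[X]).natDegree = m := by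
  have : (X ^ m + 1 : O[X]) = X ^ m + C 1 := by rw [map_one]
  rw [this, natDegree_X_pow_add_C]

/-- The tame case. -/
theorem mod_tame {n m : ℕ} {α : M} (P : Ps M C₀.A n (X ^ m + C α)) (hn : 0 < n) (hm : 0 < m)
    (hu : IsUnit (n : O)) (hv : IsUnit (m : O)) (hco : n.Coprime m) (hα : α ≠ 0) {y : M}
    (hy : y ^ (n * m) = α) : Nonempty (Mod C₀ O M) := by
  have hy0 : y ≠ 0 := by
    rintro rfl
    rw [zero_pow (Nat.mul_ne_zero hn.ne' hm.ne')] at hy
    exact hα hy.symm
  have hmon : (X ^ m + 1 : O[X]).Monic := by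
    have : (X ^ m + 1 : O[X]) = X ^ m + C 1 := by rw [map_one]
    rw [this]
    exact monic_X_pow_add_C 1 hm.ne'
  refine mod_of C₀ P (a₀ := X ^ m + 1) hn hu ?_ ?_ ?_ ?_ (y ^ n) 0 (y ^ m) (pow_ne_zero _ hy0)
    (pow_ne_zero _ hy0) ?_
  · rw [hmon.leadingCoeff]
    exact isUnit_one
  · rw [xm_natDegree]
    exact hm
  · rw [xm_natDegree]
    exact hco
  · obtain ⟨v, hv⟩ := hv
    refine ⟨1, -(C ((v⁻¹ : Oˣ) : O) * X), ?_⟩
    rw [derivative_add, derivative_one, add_zero, derivative_X_pow, one_mul]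
    have h1 : (C ((v⁻¹ : Oˣ) : O) * C (m : O) : O[X]) = 1 := by
      rw [← C_mul, ← hv, Units.inv_mul, map_one]
    have h2 : (X : O[X]) * X ^ (m - 1) = X ^ m := by
      rw [← pow_succ', Nat.sub_add_cancel hm]
    calc X ^ m + 1 + -(C ((v⁻¹ : Oˣ) : O) * X) * (C (m : O) * X ^ (m - 1)) =
        X ^ m + 1 - (C ((v⁻¹ : Oˣ) : O) * C (m : O)) * (X * X ^ (m - 1)) := by ring
      _ = 1 := by rw [h1, h2]; ring
  · rw [map_zero, add_zero, add_comp, pow_comp, X_comp, C_comp, mul_pow, ← C_pow, ← pow_mul, hy,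
      ← pow_mul, mul_comm m n, hy, Polynomial.map_add, Polynomial.map_pow, map_X,
      Polynomial.map_one, mul_add, mul_one]

/-- Residue characteristic `m`. -/
theorem mod_m [CharZero M] {n m : ℕ} {α : M} (P : Ps M C₀.A n (X ^ m + C α)) (hn : 0 < n)
    (hm : m.Prime) (hu : IsUnit (n : O)) (hv : (m : O) ∈ maximalIdeal O) (hco : n.Coprime m)
    (hα : α ≠ 0) {β l : M} {c : O} (hβ : β ^ m = -α) (hc : c ^ (m - 1) = m)
    (hl : l ^ n = β * algebraMap O M c) : Nonempty (Mod C₀ O M) := by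
  have hβ0 : β ≠ 0 := by
    rintro rfl
    rw [zero_pow hm.ne_zero] at hβ
    exact hα (neg_eq_zero.1 hβ.symm)
  have hc' : algebraMap O M c ^ (m - 1) = (m : M) := by
    rw [← map_pow, hc, map_natCast]
  have hc0 : algebraMap O M c ≠ 0 := by
    intro h
    rw [h, zero_pow (by have := hm.two_le; omega)] at hc'
    exact Nat.cast_ne_zero.2 hm.ne_zero hc'.symm
  have hl0 : l ≠ 0 := by
    rintro rfl
    rw [zero_pow hn.ne'] at hl
    exact mul_ne_zero hβ0 hc0 hl.symm
  refine mod_of C₀ P (a₀ := Ep m c) hn hu ?_ ?_ ?_ (Ep_sep m hm c hc hv) (β * algebraMap O M c) β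
    (l ^ m) (mul_ne_zero hβ0 hc0) (pow_ne_zero _ hl0) ?_
  · rw [(Ep_monic m c).leadingCoeff]
    exact isUnit_one
  · rw [Ep_natDegree]
    exact hm.pos
  · rw [Ep_natDegree]
    exact hco
  · have h1 := congrArg (Polynomial.map (algebraMap O M)) (Ep_eq m hm c hc)
    rw [Polynomial.map_mul, map_C, Polynomial.map_sub, Polynomial.map_pow, Polynomial.map_add,
      Polynomial.map_mul, map_C, map_X, Polynomial.map_one, map_pow] at h1
    have h2 : (l ^ m) ^ n = β ^ m * algebraMap O M c ^ m := by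
      rw [← pow_mul, mul_comm m n, pow_mul, hl, mul_pow]
    have h3 : α = -(β ^ m) := by rw [hβ, neg_neg]
    have h4 : C ((l ^ m) ^ n) * Polynomial.map (algebraMap O M) (Ep m c) =
        C (β ^ m) * ((C (algebraMap O M c) * X + 1) ^ m - 1) := by
      rw [h2, C_mul, mul_assoc, h1]
    have h5 : C (β * algebraMap O M c) * X + C β = C β * (C (algebraMap O M c) * X + 1) := by
      rw [C_mul]
      ring
    rw [h4, add_comp, pow_comp, X_comp, C_comp, h3, h5, mul_pow, map_neg, map_pow]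
    ring

/-- Residue characteristic `n`: exchange the variables. -/
theorem mod_n [CharZero M] {n m : ℕ} {α : M} (P : Ps M C₀.A n (X ^ m + C α)) (hn : n.Prime)
    (hm : 0 < m) (hu : (n : O) ∈ maximalIdeal O) (hv : IsUnit (m : O)) (hco : n.Coprime m)
    (hα : α ≠ 0) {γ l : M} {c : O} (hγ : γ ^ n = α) (hc : c ^ (n - 1) = n)
    (hl : l ^ m = γ * algebraMap O M c) : Nonempty (Mod C₀ O M) := by
  have P' : Ps M C₀.A m (X ^ n + C (-α)) := by
    have h := P.swap
    rw [sub_eq_add_neg, ← map_neg] at h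
    exact h
  exact mod_m P' hm hn hv hu hco.symm (neg_ne_zero.2 hα) (by rw [neg_neg]; exact hγ) hc hl

/-- **Potentially good reduction** of `u ^ n = x ^ m + α`, `n ≠ m` prime numbers, everywhere. -/
theorem mod_pot [IsDomain O] [IsIntegrallyClosed O] [IsFractionRing O M] [CharZero M] {n m : ℕ}
    {α : M} (P : Ps M C₀.A n (X ^ m + C α)) (hn : n.Prime) (hm : m.Prime) (hnm : n ≠ m)
    (hα : α ≠ 0) (h₁ : ∃ y : M, y ^ (n * m) = α)
    (h₂ : ∃ β c l : M, β ^ m = -α ∧ c ^ (m - 1) = m ∧ l ^ n = β * c)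
    (h₃ : ∃ γ c l : M, γ ^ n = α ∧ c ^ (n - 1) = n ∧ l ^ m = γ * c) :
    Nonempty (Mod C₀ O M) := by
  have hco : n.Coprime m := (Nat.coprime_primes hn hm).2 hnm
  have int : ∀ (N : ℕ) (hN : N.Prime) (c : M), c ^ (N - 1) = N →
      ∃ c' : O, c' ^ (N - 1) = N ∧ algebraMap O M c' = c := by
    intro N hN c hc
    have hpos : 0 < N - 1 := by have := hN.two_le; omega
    obtain ⟨c', hc'⟩ := IsIntegrallyClosed.exists_algebraMap_eq_of_isIntegral_pow
      (R := O) (K := M) (x := c) hpos (by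
        rw [hc, ← map_natCast (algebraMap O M)]
        exact isIntegral_algebraMap)
    refine ⟨c', ?_, hc'⟩
    apply IsFractionRing.injective O M
    rw [map_pow, hc', hc, map_natCast]
  by_cases hu : IsUnit (n : O)
  · by_cases hv : IsUnit (m : O)
    · obtain ⟨y, hy⟩ := h₁
      exact mod_tame P hn.pos hm.pos hu hv hco hα hy
    · obtain ⟨β, c, l, hβ, hc, hl⟩ := h₂
      obtain ⟨c', hc', rfl⟩ := int m hm c hc
      exact mod_m P hn.pos hm hu ((mem_maximalIdeal _).2 hv) hco hα hβ hc' hl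
  · have hv : IsUnit (m : O) := by
      by_contra hv
      have h1 : (1 : O) ∈ maximalIdeal O := by
        have h2 : IsCoprime (n : ℤ) (m : ℤ) := Nat.isCoprime_iff_coprime.2 hco
        obtain ⟨s, t, hst⟩ := h2
        have h3 : ((s : O) * (n : O) + (t : O) * (m : O)) = 1 := by
          have := congrArg (Int.cast : ℤ → O) hst
          push_cast at this
          exact this
        rw [← h3]
        exact add_mem (Ideal.mul_mem_left _ _ ((mem_maximalIdeal _).2 hu))
          (Ideal.mul_mem_left _ _ ((mem_maximalIdeal _).2 hv))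
      exact (mem_maximalIdeal _).1 h1 isUnit_one
    obtain ⟨γ, c, l, hγ, hc, hl⟩ := h₃
    obtain ⟨c', hc', rfl⟩ := int n hn c hc
    exact mod_n P hn hm.pos ((mem_maximalIdeal _).2 hu) hv hco hα hγ hc' hl

end Se

end CV
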