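import Pool.Agent.Lib.MP_f80667_ag.Cv.SeE

/-!
Good reduction of the Fermat curve `u ^ d = x ^ d + (1 + ε x) ^ d`, `ε ^ d = -1`, and of the curve
`u ^ 2 = -x ^ 5 + π ^ 3 x ^ 4 + 2 π ^ 2 x ^ 3 + 2 π x ^ 2 + x` in residue characteristic `5`.

* `cop_res`: a polynomial with a unit leading coefficient and a separable reduction.
* `mod_fer`, `mod_quint`.
-/

open Polynomial IsLocalRing

namespace CV

namespace Se

section cop

variable {O : Type} [CommRing O] [IsLocalRing O]

/-- If `b a + c a' = 1` modulo the maximal ideal, there is such a relation over `O`. -/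
theorem nak' {a : O[X]} (hl : IsUnit a.leadingCoeff) (b₁ c₁ : O[X])
    (h : ∀ i, (1 - (b₁ * a + c₁ * derivative a)).coeff i ∈ maximalIdeal O) :
    ∃ b c : O[X], b * a + c * derivative a = 1 := by
  obtain ⟨r, hr⟩ : ∃ r : O[X], r = 1 - (b₁ * a + c₁ * derivative a) := ⟨_, rfl⟩
  rw [← hr] at h
  set J : Ideal O[X] := Ideal.span {a, derivative a} with hJ
  obtain ⟨u, hu⟩ := hl
  have hmon : (C ((u⁻¹ : Oˣ) : O) * a).Monic := by
    have h1 := leadingCoeff_mul' (p := C ((u⁻¹ : Oˣ) : O)) (q := a)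
      (by rw [leadingCoeff_C, ← hu, Units.inv_mul]; exact one_ne_zero)
    rw [Monic, h1, leadingCoeff_C, ← hu, Units.inv_mul]
  have ha : a ∈ J := Ideal.subset_span (by simp)
  have ha' : derivative a ∈ J := Ideal.subset_span (by simp)
  have hfin : Module.Finite O (O[X] ⧸ J) := by
    have h1 : Module.Finite O (O[X] ⧸ Ideal.span {C ((u⁻¹ : Oˣ) : O) * a}) :=
      (hmon.finite_adjoinRoot : Module.Finite O (AdjoinRoot (C ((u⁻¹ : Oˣ) : O) * a)))
    have h2 : Ideal.span {C ((u⁻¹ : Oˣ) : O) * a} ≤ J := by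
      rw [Ideal.span_le, Set.singleton_subset_iff]
      exact J.mul_mem_left _ ha
    exact Module.Finite.of_surjective
      (Ideal.Quotient.factorₐ O h2).toLinearMap (Ideal.Quotient.factor_surjective h2)
  have hd : Ideal.Quotient.mk J r = 1 := by
    rw [hr, map_sub, map_one, Ideal.Quotient.eq_zero_iff_mem.2
      (J.add_mem (J.mul_mem_left _ ha) (J.mul_mem_left _ ha')), sub_zero]
  have key : (⊤ : Submodule O (O[X] ⧸ J)) ≤ maximalIdeal O • (⊤ : Submodule O (O[X] ⧸ J)) := by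
    intro y _
    obtain ⟨f, rfl⟩ := Ideal.Quotient.mk_surjective y
    have e1 : Ideal.Quotient.mk J f = Ideal.Quotient.mk J (f * r) := by
      rw [map_mul, hd, mul_one]
    rw [e1, r.as_sum_range_C_mul_X_pow, Finset.mul_sum, map_sum]
    refine Submodule.sum_mem _ fun i _ => ?_
    have e2 : Ideal.Quotient.mk J (f * (C (r.coeff i) * X ^ i)) =
        r.coeff i • Ideal.Quotient.mk J (f * X ^ i) := by
      have e3 : f * (C (r.coeff i) * X ^ i) = r.coeff i • (f * X ^ i) := by
        rw [smul_eq_C_mul]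
        ring
      rw [e3]
      rfl
    rw [e2]
    exact Submodule.smul_mem_smul (h i) trivial
  have h3 := Submodule.eq_bot_of_le_smul_of_le_jacobson_bot (maximalIdeal O)
    (⊤ : Submodule O (O[X] ⧸ J)) hfin.fg_top key (IsLocalRing.maximalIdeal_le_jacobson _)
  have h4 : Ideal.Quotient.mk J (1 : O[X]) = 0 := by
    have : Ideal.Quotient.mk J (1 : O[X]) ∈ (⊤ : Submodule O (O[X] ⧸ J)) := trivial
    rw [h3] at this
    exact (Submodule.mem_bot O).1 this
  have h5 : (1 : O[X]) ∈ J := Ideal.Quotient.eq_zero_iff_mem.1 h4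
  exact Ideal.mem_span_pair.1 h5

/-- A polynomial with a unit leading coefficient and a separable reduction. -/
theorem cop_res {a : O[X]} (hl : IsUnit a.leadingCoeff)
    (hs : (a.map (residue O)).Separable) : ∃ b c : O[X], b * a + c * derivative a = 1 := by
  obtain ⟨b, c, h⟩ := hs
  obtain ⟨b₁, hb⟩ := map_surjective (residue O) residue_surjective b
  obtain ⟨c₁, hc⟩ := map_surjective (residue O) residue_surjective c
  refine nak' hl b₁ c₁ fun i => ?_
  rw [← residue_eq_zero_iff, ← coeff_map, Polynomial.map_sub, Polynomial.map_one,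
    Polynomial.map_add, Polynomial.map_mul, Polynomial.map_mul, ← derivative_map, hb, hc, h,
    sub_self, coeff_zero]

end cop

section fer

variable {O : Type} [CommRing O]

private theorem fe_eq {d : ℕ} {e : O} (hd : 0 < d) (he : e ^ d = -1) :
    (X ^ d + (1 + C e * X) ^ d : O[X]) = X ^ d - (X + C (-e ^ (d - 1))) ^ d := by
  have h1 : C e * C (-e ^ (d - 1)) = (1 : O[X]) := by
    rw [← C_mul, mul_neg, ← pow_succ', Nat.sub_add_cancel hd, he, neg_neg, map_one]
  have h2 : (1 + C e * X : O[X]) = C e * (X + C (-e ^ (d - 1))) := by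
    rw [mul_add, h1, add_comm]
  rw [h2, mul_pow, ← C_pow, he, map_neg, map_one]
  ring

private theorem fe_coeff {d : ℕ} {e : O} (hd : 0 < d) (he : e ^ d = -1) (k : ℕ) :
    (X ^ d + (1 + C e * X) ^ d : O[X]).coeff k =
      if k < d then -((-e ^ (d - 1)) ^ (d - k) * (d.choose k : ℕ)) else 0 := by
  rw [fe_eq hd he, coeff_sub, coeff_X_pow, coeff_X_add_C_pow]
  split_ifs with h1 h2 h2
  · omega
  · rw [h1, Nat.sub_self, pow_zero, one_mul, Nat.choose_self, Nat.cast_one, sub_self]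
  · rw [zero_sub]
  · rw [Nat.choose_eq_zero_of_lt (by omega), Nat.cast_zero, mul_zero, sub_zero]

private theorem fe_unit {d : ℕ} {e : O} (hd : 0 < d) (he : e ^ d = -1) : IsUnit e := by
  refine IsUnit.of_mul_eq_one (-e ^ (d - 1)) ?_
  rw [mul_neg, ← pow_succ', Nat.sub_add_cancel hd, he, neg_neg]

theorem fer_lead [Nontrivial O] {d : ℕ} {e : O} (hd : 2 ≤ d) (hu : IsUnit (d : O))
    (he : e ^ d = -1) : (X ^ d + (1 + C e * X) ^ d : O[X]).natDegree = d - 1 ∧
      IsUnit (X ^ d + (1 + C e * X) ^ d : O[X]).leadingCoeff := by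
  have h1 : IsUnit ((X ^ d + (1 + C e * X) ^ d : O[X]).coeff (d - 1)) := by
    rw [fe_coeff (by omega) he, if_pos (by omega)]
    have h2 : d - (d - 1) = 1 := by omega
    have h3 : d.choose (d - 1) = d := by
      have h4 := Nat.choose_symm (n := d) (k := 1) (by omega)
      rw [h4, Nat.choose_one_right]
    rw [h2, pow_one, h3]
    exact (((fe_unit (by omega) he).pow (d - 1)).neg.mul hu).neg
  have h2 : (X ^ d + (1 + C e * X) ^ d : O[X]).natDegree = d - 1 := by
    refine natDegree_eq_of_le_of_coeff_ne_zero ?_ h1.ne_zero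
    refine natDegree_le_iff_coeff_eq_zero.2 fun k hk => ?_
    rw [fe_coeff (by omega) he, if_neg (by omega)]
  refine ⟨h2, ?_⟩
  rw [leadingCoeff, h2]
  exact h1

theorem fer_cop {d : ℕ} {e : O} (hd : 2 ≤ d) (hu : IsUnit (d : O)) :
    ∃ b c : O[X], b * (X ^ d + (1 + C e * X) ^ d) +
      c * derivative (X ^ d + (1 + C e * X) ^ d) = 1 := by
  obtain ⟨v, hv⟩ := hu
  obtain ⟨m, rfl⟩ : ∃ m, d = m + 1 := ⟨d - 1, by omega⟩
  have h1 : IsCoprime (X : O[X]) (1 + C e * X) := ⟨-C e, 1, by ring⟩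
  obtain ⟨p, q, hpq⟩ := h1.pow (m := m) (n := m)
  have hder : derivative (X ^ (m + 1) + (1 + C e * X) ^ (m + 1) : O[X]) =
      C ((m + 1 : ℕ) : O) * (X ^ m + C e * (1 + C e * X) ^ m) := by
    rw [derivative_add, derivative_X_pow, derivative_pow, derivative_add, derivative_one,
      derivative_C_mul, derivative_X, Nat.add_sub_cancel]
    ring
  have hinv : C ((v⁻¹ : Oˣ) : O) * C ((m + 1 : ℕ) : O) = (1 : O[X]) := by
    rw [← C_mul, ← hv, Units.inv_mul, map_one]
  refine ⟨-(C e * p) + q, C ((v⁻¹ : Oˣ) : O) * (p * (1 + C e * X) - q * X), ?_⟩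
  rw [hder]
  calc (-(C e * p) + q) * (X ^ (m + 1) + (1 + C e * X) ^ (m + 1)) +
      C ((v⁻¹ : Oˣ) : O) * (p * (1 + C e * X) - q * X) *
        (C ((m + 1 : ℕ) : O) * (X ^ m + C e * (1 + C e * X) ^ m)) =
      (-(C e * p) + q) * (X ^ (m + 1) + (1 + C e * X) ^ (m + 1)) +
        (C ((v⁻¹ : Oˣ) : O) * C ((m + 1 : ℕ) : O)) * ((p * (1 + C e * X) - q * X) *
          (X ^ m + C e * (1 + C e * X) ^ m)) := by ring
    _ = p * X ^ m + q * (1 + C e * X) ^ m := by
      rw [hinv]
      ring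
    _ = 1 := hpq

end fer

/-- The polynomial of the quotient curve of the Fermat quintic. -/
noncomputable def q5 {R : Type} [CommRing R] (π : R) : R[X] :=
  -X ^ 5 + C (π ^ 3) * X ^ 4 + C (2 * π ^ 2) * X ^ 3 + C (2 * π) * X ^ 2 + X

theorem q5_map {R S : Type} [CommRing R] [CommRing S] (f : R →+* S) (π : R) :
    (q5 π).map f = q5 (f π) := by
  unfold q5
  simp only [Polynomial.map_add, Polynomial.map_neg, Polynomial.map_pow, Polynomial.map_mul,
    map_X, map_C, map_mul f, map_pow f, map_ofNat f]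

theorem q5_lead {R : Type} [CommRing R] [Nontrivial R] (π : R) :
    (q5 π).natDegree = 5 ∧ (q5 π).leadingCoeff = -1 := by
  have h1 : (q5 π).natDegree = 5 := by
    unfold q5
    compute_degree!
  refine ⟨h1, ?_⟩
  rw [leadingCoeff, h1, q5]
  simp only [coeff_add, coeff_neg, coeff_C_mul, coeff_X_pow, coeff_X]
  norm_num

variable {O M : Type} [CommRing O] [IsLocalRing O] [Field M] [Algebra O M] {C₀ : Crv M}

/-- Good reduction of the Fermat curve of degree `d` if `d` is a unit. -/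
theorem mod_fer {d : ℕ} {e : O}
    (P : Ps M C₀.A d ((X ^ d + (1 + C e * X) ^ d : O[X]).map (algebraMap O M))) (hd : 2 ≤ d)
    (hu : IsUnit (d : O)) (he : e ^ d = -1) : Nonempty (Mod C₀ O M) := by
  obtain ⟨h1, h2⟩ := fer_lead hd hu he
  refine mod_good P (by omega) hu h2 (by omega) ?_ (fer_cop hd hu)
  rw [h1]
  have h3 : (d - 1).Coprime (d - 1 + 1) := (Nat.coprime_self_add_right).2 (Nat.coprime_one_right _)
  rw [Nat.sub_add_cancel (by omega)] at h3
  exact h3.symm

theorem q5_cop (π : O) (h5 : (5 : O) ∈ maximalIdeal O) (hπ : π ∈ maximalIdeal O) :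
    ∃ b c : O[X], b * q5 π + c * derivative (q5 π) = 1 := by
  refine nak' (by rw [(q5_lead π).2]; exact isUnit_one.neg) 0 1 fun i => ?_
  have h : (1 - (0 * q5 π + 1 * derivative (q5 π)) : O[X]) =
      C 5 * X ^ 4 - C π * (C (4 * π ^ 2) * X ^ 3 + C (6 * π) * X ^ 2 + C 4 * X) := by
    unfold q5
    simp only [derivative_add, derivative_neg, derivative_C_mul, derivative_X_pow, derivative_X]
    simp only [map_mul, map_pow, map_ofNat, Nat.cast_ofNat]
    ring
  rw [h, coeff_sub, coeff_C_mul, coeff_C_mul]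
  exact sub_mem (Ideal.mul_mem_right _ _ h5) (Ideal.mul_mem_right _ _ hπ)

/-- Good reduction of `u ^ 2 = q5(x)` in residue characteristic `5`. -/
theorem mod_quint {π : O} (P : Ps M C₀.A 2 ((q5 π).map (algebraMap O M))) (h2 : IsUnit (2 : O))
    (h5 : (5 : O) ∈ maximalIdeal O) (hπ : π ∈ maximalIdeal O) : Nonempty (Mod C₀ O M) := by
  obtain ⟨h3, h4⟩ := q5_lead π
  refine mod_good P (by norm_num) (by exact_mod_cast h2) ?_ ?_ ?_ (q5_cop π h5 hπ)
  · rw [h4]
    exact isUnit_one.neg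
  · rw [h3]
    norm_num
  · rw [h3]
    norm_num

end Se

end CV
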