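import Pool.Agent.Lib.MP_f80667_ag.Cv.Sm1
import Pool.Agent.Lib.MP_f80667_ag.Cv.Rt

/-!
Divisors above sets of closed points, the group of the differences `Z(b) - Z(b - π ^ k w)` for a fixed element `b` of unit
type.

* `M.Zt W f T s`: the divisor of `s` above `T`.
* `M.Bd W f π b k w`: the difference `Z(b) - Z(b - π ^ k w)` above the zeros of `b` on the special fibre.
* `M.Gk ..`: the group of the cycles which differ from some `Bd` by an element of `P`.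
-/

open IsLocalRing

namespace CV

namespace Md

section zt

variable {V L k S SL Sk : Type} [CommRing V] [IsDomain V] [IsDiscreteValuationRing V] [Field L]
  [Field k] [Algebra V L] [IsFractionRing V L] [Algebra V k] [CommRing S] [CommRing SL]
  [CommRing Sk] [Algebra V S] [Algebra L SL] [Algebra k Sk] (M : Md V L k S SL Sk) {Ω : Type}
  [Field Ω] [Algebra L Ω]

open Classical in
/-- The divisor of `s` above `T`. -/
noncomputable def Zt (W : ValuationSubring Ω) {X : Type} (f : (SL →ₐ[L] Ω) → X)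
    (T : Set (Ideal S)) (s : S) : X →₀ ℤ :=
  ∑ᶠ φ : SL →ₐ[L] Ω, if ∃ N ∈ T, M.Ov W φ N then Finsupp.single (f φ) (od φ (M.i s) : ℤ) else 0

variable [Algebra.IsAlgebraic L Ω] {W : ValuationSubring Ω} {X : Type} {f : (SL →ₐ[L] Ω) → X}
  {π : V} (hπ : Irreducible π) {T : Set (Ideal S)} (hC : ∀ N ∈ T, Cs V N)
  (hR : ∀ N ∈ T, ∃ z, Rgl π N z)

include hπ hC hR

/-- The divisor as a finite sum. -/
theorem zt_sum {s : S} (hs : s ≠ 0) (Φ : Finset (SL →ₐ[L] Ω))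
    (hΦ : ∀ φ ∈ Φ, ∃ N ∈ T, M.Ov W φ N)
    (hΦ' : ∀ φ, (∃ N ∈ T, M.Ov W φ N) → φ (M.i s) = 0 → φ ∈ Φ) :
    M.Zt W f T s = ∑ φ ∈ Φ, Finsupp.single (f φ) (od φ (M.i s) : ℤ) := by
  classical
  have _ := hs
  rw [Zt, finsum_eq_sum_of_support_subset (s := Φ)]
  · exact Finset.sum_congr rfl fun φ hφ => if_pos (hΦ φ hφ)
  · intro φ hφ
    rw [Function.mem_support] at hφ
    by_cases h : ∃ N ∈ T, M.Ov W φ N
    · rw [if_pos h] at hφ
      refine hΦ' φ h ?_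
      by_contra h0
      obtain ⟨t, ht⟩ := M.rgl_rg hπ hC hR h
      rw [M.DL.od_zero ht h0, Nat.cast_zero, Finsupp.single_zero] at hφ
      exact hφ rfl
    · rw [if_neg h] at hφ
      exact absurd rfl hφ

/-- A finite set of points above `T` which contains the zeros of finitely many elements. -/
theorem zt_exists (F : Finset S) (hF : ∀ s ∈ F, s ≠ 0) : ∃ Φ : Finset (SL →ₐ[L] Ω),
    (∀ φ ∈ Φ, ∃ N ∈ T, M.Ov W φ N) ∧
      ∀ s ∈ F, ∀ φ, (∃ N ∈ T, M.Ov W φ N) → φ (M.i s) = 0 → φ ∈ Φ := by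
  classical
  have _ := hπ
  have _ := hC
  have _ := hR
  have hi : ∀ s : S, s ≠ 0 → M.i s ≠ 0 := fun s hs h0 => hs (M.inj (by rw [h0, map_zero]))
  have hfin : (⋃ s ∈ (F : Set S), {φ : SL →ₐ[L] Ω | φ (M.i s) = 0}).Finite :=
    Set.Finite.biUnion F.finite_toSet fun s hs => M.DL.zeros_fin (hi s (hF s hs))
  obtain ⟨Φ, hΦ⟩ := (hfin.inter_of_left {φ : SL →ₐ[L] Ω | ∃ N ∈ T, M.Ov W φ N}).exists_finset
  refine ⟨Φ, fun φ hφ => ((hΦ φ).1 hφ).2, fun s hs φ h h0 => (hΦ φ).2 ⟨?_, h⟩⟩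
  exact Set.mem_biUnion (Finset.mem_coe.2 hs) h0

theorem zt_mul {a b : S} (ha : a ≠ 0) (hb : b ≠ 0) :
    M.Zt W f T (a * b) = M.Zt W f T a + M.Zt W f T b := by
  classical
  have hdom := M.dom
  have hi : ∀ s : S, s ≠ 0 → M.i s ≠ 0 := fun s hs h0 => hs (M.inj (by rw [h0, map_zero]))
  obtain ⟨Φ, h1, h2⟩ := M.zt_exists hπ hC hR (W := W) {a, b, a * b} (by
    intro s hs
    simp only [Finset.mem_insert, Finset.mem_singleton] at hs
    rcases hs with rfl | rfl | rfl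
    · exact ha
    · exact hb
    · exact mul_ne_zero ha hb)
  rw [M.zt_sum hπ hC hR (mul_ne_zero ha hb) Φ h1 (h2 _ (by simp)),
    M.zt_sum hπ hC hR ha Φ h1 (h2 _ (by simp)), M.zt_sum hπ hC hR hb Φ h1 (h2 _ (by simp)),
    ← Finset.sum_add_distrib]
  refine Finset.sum_congr rfl fun φ hφ => ?_
  obtain ⟨t, ht⟩ := M.rgl_rg hπ hC hR (h1 φ hφ)
  rw [map_mul, M.DL.od_mul ht (hi a ha) (hi b hb), Nat.cast_add, Finsupp.single_add]

theorem zt_one : M.Zt W f T 1 = 0 := by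
  have hdom := M.dom
  have h := M.zt_mul hπ hC hR (W := W) (f := f) (one_ne_zero (α := S)) (one_ne_zero (α := S))
  rw [mul_one] at h
  exact left_eq_add.1 h

theorem zt_pow {a : S} (ha : a ≠ 0) (n : ℕ) : M.Zt W f T (a ^ n) = n • M.Zt W f T a := by
  have hdom := M.dom
  induction n with
  | zero => rw [pow_zero, zero_smul, M.zt_one hπ hC hR]
  | succ n ih =>
    rw [pow_succ, M.zt_mul hπ hC hR (pow_ne_zero n ha) ha, ih, succ_nsmul]

/-- Elements without zeros at the other closed points. -/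
theorem zt_mono {T₁ : Set (Ideal S)} (hT : T₁ ⊆ T) {s : S} (hs : s ≠ 0)
    (h : ∀ N ∈ T, N ∉ T₁ → s ∉ N) : M.Zt W f T s = M.Zt W f T₁ s := by
  classical
  obtain ⟨Φ, h1, h2⟩ := M.zt_exists hπ (fun N hN => hC N (hT hN)) (fun N hN => hR N (hT hN))
    (W := W) (T := T₁) {s} (by
      intro s' hs'
      rw [Finset.mem_singleton] at hs'
      rw [hs']
      exact hs)
  rw [M.zt_sum hπ hC hR hs Φ (fun φ hφ => by
      obtain ⟨N, hN, hov⟩ := h1 φ hφ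
      exact ⟨N, hT hN, hov⟩) (fun φ hφ h0 => by
      obtain ⟨N, hN, hov⟩ := hφ
      refine h2 s (Finset.mem_singleton_self s) φ ⟨N, ?_, hov⟩ h0
      by_contra hN1
      exact M.ov_ne hov (h N hN hN1) h0),
    M.zt_sum hπ (fun N hN => hC N (hT hN)) (fun N hN => hR N (hT hN)) hs Φ h1
      (h2 s (Finset.mem_singleton_self s))]

/-- Equivalent elements have equivalent divisors. -/
theorem zt_eqv (hW : Wv V L W) {P : AddSubgroup (X →₀ ℤ)} (hP : M.Rt f P) {a b : S} (ha : a ≠ 0)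
    (hb : b ≠ 0) (h : M.Eqv T a b) : M.Zt W f T a - M.Zt W f T b ∈ P := by
  classical
  obtain ⟨Φ, h1, h2⟩ := M.zt_exists hπ hC hR (W := W) {a, b} (by
    intro s hs
    simp only [Finset.mem_insert, Finset.mem_singleton] at hs
    rcases hs with rfl | rfl
    · exact ha
    · exact hb)
  have h3 := M.eqv_rt hW hπ hC hR ha hb h hP Φ h1 (fun φ hφ h0 => by
    rcases h0 with h0 | h0
    · exact h2 a (by simp) φ hφ h0
    · exact h2 b (by simp) φ hφ h0)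
  rw [M.zt_sum hπ hC hR ha Φ h1 (h2 _ (by simp)), M.zt_sum hπ hC hR hb Φ h1 (h2 _ (by simp)),
    ← Finset.sum_sub_distrib]
  rwa [Finset.sum_congr rfl fun φ _ => Finsupp.single_sub _ _ _] at h3

end zt

section gk

variable {V L k S SL Sk : Type} [CommRing V] [IsDomain V] [IsDiscreteValuationRing V] [Field L]
  [Field k] [Algebra V L] [IsFractionRing V L] [Algebra V k] [CommRing S] [CommRing SL]
  [CommRing Sk] [Algebra V S] [Algebra L SL] [Algebra k Sk] (M : Md V L k S SL Sk) {Ω : Type}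
  [Field Ω] [Algebra L Ω]

/-- The closed points of the special fibre at which `b` vanishes. -/
def Vb (V : Type) {S : Type} [CommRing V] [IsLocalRing V] [CommRing S] [Algebra V S] (b : S) :
    Set (Ideal S) := {N | Cs V N ∧ b ∈ N}

/-- The difference of the divisors of `b` and `b - π ^ k w`. -/
noncomputable def Bd (W : ValuationSubring Ω) {X : Type} (f : (SL →ₐ[L] Ω) → X) (π : V) (b : S)
    (k : ℕ) (w : S) : X →₀ ℤ :=
  M.Zt W f (Vb V b) b - M.Zt W f (Vb V b) (b - algebraMap V S (π ^ k) * w)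

variable [Algebra.IsAlgebraic L Ω] {W : ValuationSubring Ω} {X : Type} {f : (SL →ₐ[L] Ω) → X}
  {P : AddSubgroup (X →₀ ℤ)} {π : V} {b : S}

/-- The hypotheses on the fixed element `b`. -/
structure Blk (W : ValuationSubring Ω) {X : Type} (f : (SL →ₐ[L] Ω) → X)
    (P : AddSubgroup (X →₀ ℤ)) (π : V) (b : S) : Prop where
  ac : IsAdicComplete (maximalIdeal V) V
  wv : Wv V L W
  irr : Irreducible π
  rg : ∀ N : Ideal S, Cs V N → ∃ z, Rgl π N z
  rt : M.Rt f P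
  fin : (Vb V b).Finite
  ut : ∃ n₀ n : ℕ, M.Tail n₀ ∧ n₀ ≤ n ∧ M.Ut b n

variable {M} (H : M.Blk W f P π b)

include H

theorem Blk.b_ne : b ≠ 0 := by
  obtain ⟨n₀, n, h0, hn, hb⟩ := H.ut
  exact M.ut_ne hb

theorem Blk.q_ne : M.q b ≠ 0 := by
  obtain ⟨n₀, n, h0, hn, hb⟩ := H.ut
  exact M.Dk.ne_zero hb.2

theorem Blk.q_sub {k : ℕ} (hk : k ≠ 0) (w : S) : M.q (b - algebraMap V S (π ^ k) * w) ≠ 0 := by
  rw [M.sm1_q H.irr hk]
  exact H.q_ne

theorem Blk.ne_of_q {x : S} (h : M.q x ≠ 0) : x ≠ 0 := by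
  have _ := H
  exact fun h0 => h (by rw [h0, map_zero])

/-- `b - π ^ k w` has no zeros at the other closed points. -/
theorem Blk.sub_nmem {k : ℕ} (hk : k ≠ 0) (w : S) {N : Ideal S} (hN : Cs V N)
    (h : N ∉ Vb V b) : b - algebraMap V S (π ^ k) * w ∉ N := by
  intro h1
  refine h ⟨hN, ?_⟩
  have h2 : algebraMap V S (π ^ k) * w ∈ N := by
    refine Ideal.mul_mem_right _ _ (hN.2 _ ?_)
    rw [H.irr.maximalIdeal_eq]
    exact Ideal.mem_span_singleton.2 (dvd_pow_self π hk)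
  have h3 := N.add_mem h1 h2
  rwa [sub_add_cancel] at h3

theorem Blk.bd_zero (k : ℕ) : M.Bd W f π b k 0 = 0 := by
  have _ := H
  rw [Bd, mul_zero, sub_zero, sub_self]

/-- The moving lemma. -/
theorem Blk.move {T : Set (Ideal S)} (hf : T.Finite) (hC : ∀ N ∈ T, Cs V N) (hT : Vb V b ⊆ T)
    {g₁ g₂ c : S} (hg : M.q g₁ ≠ 0) {k : ℕ} (hk : k ≠ 0)
    (hc : g₁ = g₂ + algebraMap V S (π ^ k) * c) :
    ∃ w : S, M.Zt W f T g₁ - M.Zt W f T g₂ + M.Bd W f π b k w ∈ P := by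
  have hac := H.ac
  have hdom := M.dom
  have hR : ∀ N ∈ T, ∃ z, Rgl π N z := fun N hN => H.rg N (hC N hN)
  obtain ⟨n₀, n, h0, hn, hb⟩ := H.ut
  obtain ⟨w, hw⟩ := M.clt H.irr hf hC h0 hn hb (fun N hN hbN => hT ⟨hN, hbN⟩) hg hk hc
  have hg1 : g₁ ≠ 0 := H.ne_of_q hg
  have hg2 : g₂ ≠ 0 := by
    refine H.ne_of_q ?_
    have e : g₂ = g₁ - algebraMap V S (π ^ k) * c := by rw [hc]; ring
    rw [e, M.sm1_q H.irr hk]
    exact hg
  have hbw : b - algebraMap V S (π ^ k) * w ≠ 0 := H.ne_of_q (H.q_sub hk w)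
  have h1 := M.zt_eqv H.irr hC hR H.wv H.rt (mul_ne_zero hg1 H.b_ne) (mul_ne_zero hg2 hbw) hw
  rw [M.zt_mul H.irr hC hR hg1 H.b_ne, M.zt_mul H.irr hC hR hg2 hbw,
    M.zt_mono H.irr hC hR hT H.b_ne (fun N hN h hbN => h ⟨hC N hN, hbN⟩),
    M.zt_mono H.irr hC hR hT hbw (fun N hN h => H.sub_nmem hk w (hC N hN) h)] at h1
  refine ⟨w, ?_⟩
  rw [Bd]
  have e : M.Zt W f T g₁ - M.Zt W f T g₂ + (M.Zt W f (Vb V b) b -
      M.Zt W f (Vb V b) (b - algebraMap V S (π ^ k) * w)) =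
      M.Zt W f T g₁ + M.Zt W f (Vb V b) b -
      (M.Zt W f T g₂ + M.Zt W f (Vb V b) (b - algebraMap V S (π ^ k) * w)) := by abel
  rw [e]
  exact h1

theorem Blk.neg {k : ℕ} (hk : k ≠ 0) (w : S) :
    ∃ w' : S, M.Bd W f π b k w + M.Bd W f π b k w' ∈ P := by
  obtain ⟨w', h⟩ := H.move H.fin (fun N hN => hN.1) (Set.Subset.refl _) (g₁ := b)
    (g₂ := b - algebraMap V S (π ^ k) * w) (c := w) H.q_ne hk (by ring)
  exact ⟨w', h⟩

theorem Blk.add {k : ℕ} (hk : k ≠ 0) (w w' : S) :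
    ∃ w'' : S, M.Bd W f π b k w + M.Bd W f π b k w' + M.Bd W f π b k w'' ∈ P := by
  have hdom := M.dom
  have hdk := M.Dk.isDomain
  obtain ⟨w'', h⟩ := H.move H.fin (fun N hN => hN.1) (Set.Subset.refl _) (g₁ := b * b)
    (g₂ := (b - algebraMap V S (π ^ k) * w) * (b - algebraMap V S (π ^ k) * w'))
    (c := b * w + b * w' - algebraMap V S (π ^ k) * w * w')
    (by rw [map_mul]; exact mul_ne_zero H.q_ne H.q_ne) hk (by ring)
  refine ⟨w'', ?_⟩
  have hR : ∀ N ∈ Vb V b, ∃ z, Rgl π N z := fun N hN => H.rg N hN.1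
  rw [M.zt_mul H.irr (fun N hN => hN.1) hR H.b_ne H.b_ne,
    M.zt_mul H.irr (fun N hN => hN.1) hR (H.ne_of_q (H.q_sub hk w)) (H.ne_of_q (H.q_sub hk w'))] at h
  have e : M.Bd W f π b k w + M.Bd W f π b k w' + M.Bd W f π b k w'' =
      M.Zt W f (Vb V b) b + M.Zt W f (Vb V b) b -
        (M.Zt W f (Vb V b) (b - algebraMap V S (π ^ k) * w) +
          M.Zt W f (Vb V b) (b - algebraMap V S (π ^ k) * w')) + M.Bd W f π b k w'' := by
    rw [Bd, Bd]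
    abel
  rw [e]
  exact h

/-- The group of the cycles which differ from some `Bd` by an element of `P`. -/
def Blk.Gk {k : ℕ} (hk : k ≠ 0) : AddSubgroup (X →₀ ℤ) where
  carrier := {z | ∃ w, z - M.Bd W f π b k w ∈ P}
  zero_mem' := ⟨0, by rw [H.bd_zero, sub_zero]; exact P.zero_mem⟩
  add_mem' := by
    rintro x y ⟨w, hw⟩ ⟨w', hw'⟩
    obtain ⟨v, hv⟩ := H.add hk w w'
    obtain ⟨v', hv'⟩ := H.neg hk v
    refine ⟨v', ?_⟩
    have e : x + y - M.Bd W f π b k v' = (x - M.Bd W f π b k w) + (y - M.Bd W f π b k w') +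
        (M.Bd W f π b k w + M.Bd W f π b k w' + M.Bd W f π b k v) -
          (M.Bd W f π b k v + M.Bd W f π b k v') := by abel
    rw [e]
    exact P.sub_mem (P.add_mem (P.add_mem hw hw') hv) hv'
  neg_mem' := by
    rintro x ⟨w, hw⟩
    obtain ⟨v, hv⟩ := H.neg hk w
    refine ⟨v, ?_⟩
    have e : -x - M.Bd W f π b k v = -(x - M.Bd W f π b k w) -
        (M.Bd W f π b k w + M.Bd W f π b k v) := by abel
    rw [e]
    exact P.sub_mem (P.neg_mem hw) hv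

theorem Blk.mem_Gk {k : ℕ} (hk : k ≠ 0) {z : X →₀ ℤ} :
    z ∈ H.Gk hk ↔ ∃ w, z - M.Bd W f π b k w ∈ P := Iff.rfl

theorem Blk.le_Gk {k : ℕ} (hk : k ≠ 0) : P ≤ H.Gk hk := fun z hz =>
  ⟨0, by rw [H.bd_zero, sub_zero]; exact hz⟩

theorem Blk.bd_mem {k : ℕ} (hk : k ≠ 0) (w : S) : M.Bd W f π b k w ∈ H.Gk hk :=
  ⟨w, by rw [sub_self]; exact P.zero_mem⟩

/-- Congruent elements have divisors which differ by an element of `Gk`. -/
theorem Blk.zt_mem {T : Set (Ideal S)} (hf : T.Finite) (hC : ∀ N ∈ T, Cs V N) (hT : Vb V b ⊆ T)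
    {g₁ g₂ c : S} (hg : M.q g₁ ≠ 0) {k : ℕ} (hk : k ≠ 0)
    (hc : g₁ = g₂ + algebraMap V S (π ^ k) * c) :
    M.Zt W f T g₁ - M.Zt W f T g₂ ∈ H.Gk hk := by
  obtain ⟨w, hw⟩ := H.move hf hC hT hg hk hc
  have h1 := (H.Gk hk).sub_mem (H.le_Gk hk hw) (H.bd_mem hk w)
  rwa [add_sub_cancel_right] at h1

/-- **The bulk of every element is in `Gk`.** -/
theorem Blk.bk (hfin : ∀ g : S, M.q g ≠ 0 → (Vb V g).Finite) {k : ℕ} (hk : k ≠ 0) :
    M.Bk W f (H.Gk hk) π k := by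
  classical
  intro g w hg _ Φ hΦ hΦ'
  have hgw : M.q (g - algebraMap V S (π ^ k) * w) ≠ 0 := by
    rw [M.sm1_q H.irr hk]
    exact hg
  have hC : ∀ N ∈ Vb V g ∪ Vb V b, Cs V N := by
    rintro N (hN | hN)
    · exact hN.1
    · exact hN.1
  have hR : ∀ N ∈ Vb V g ∪ Vb V b, ∃ z, Rgl π N z := fun N hN => H.rg N (hC N hN)
  have hCg : ∀ N ∈ Vb V g, Cs V N := fun N hN => hN.1
  have hRg : ∀ N ∈ Vb V g, ∃ z, Rgl π N z := fun N hN => H.rg N hN.1
  have h1 := H.zt_mem ((hfin g hg).union H.fin) hC Set.subset_union_right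
    (g₁ := g) (g₂ := g - algebraMap V S (π ^ k) * w) (c := w) hg hk (by ring)
  have hgN : ∀ N ∈ Vb V g ∪ Vb V b, N ∉ Vb V g → g ∉ N := fun N hN h hgN => h ⟨hC N hN, hgN⟩
  have hgwN : ∀ N ∈ Vb V g ∪ Vb V b, N ∉ Vb V g → g - algebraMap V S (π ^ k) * w ∉ N := by
    intro N hN h h1
    refine hgN N hN h ?_
    have h2 : algebraMap V S (π ^ k) * w ∈ N := by
      refine Ideal.mul_mem_right _ _ ((hC N hN).2 _ ?_)
      rw [H.irr.maximalIdeal_eq]
      exact Ideal.mem_span_singleton.2 (dvd_pow_self π hk)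
    have h3 := N.add_mem h1 h2
    rwa [sub_add_cancel] at h3
  rw [M.zt_mono H.irr hC hR Set.subset_union_left (H.ne_of_q hg) hgN,
    M.zt_mono H.irr hC hR Set.subset_union_left (H.ne_of_q hgw) hgwN] at h1
  have hΦ1 : ∀ φ ∈ Φ, ∃ N ∈ Vb V g, M.Ov W φ N := by
    intro φ hφ
    obtain ⟨N, h1, h2, h3⟩ := hΦ φ hφ
    exact ⟨N, ⟨h1, h2⟩, h3⟩
  have hΦ2 : ∀ φ, (∃ N ∈ Vb V g, M.Ov W φ N) →
      φ (M.i g) = 0 ∨ φ (M.i (g - algebraMap V S (π ^ k) * w)) = 0 → φ ∈ Φ := by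
    rintro φ ⟨N, hN, hov⟩ h0
    exact hΦ' φ ⟨N, hN.1, hN.2, hov⟩ h0
  rw [M.zt_sum H.irr hCg hRg (H.ne_of_q hg) Φ hΦ1 (fun φ hφ h0 => hΦ2 φ hφ (Or.inl h0)),
    M.zt_sum H.irr hCg hRg (H.ne_of_q hgw) Φ hΦ1 (fun φ hφ h0 => hΦ2 φ hφ (Or.inr h0)),
    ← Finset.sum_sub_distrib] at h1
  rwa [Finset.sum_congr rfl fun φ _ => Finsupp.single_sub _ _ _]

/-- **Small displacements are divisible.** -/
theorem Blk.small {l v s : ℕ} (hl : l.Prime) {ε : Vˣ} (hlv : (l : V) = ε * π ^ v)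
    (hs : v < (l - 1) * s) (hsv : s + v ≠ 0) {z : X →₀ ℤ} (hz : z ∈ H.Gk hsv) :
    ∃ w, z - l • M.Bd W f π b s w ∈ P := by
  have hac := H.ac
  have hdom := M.dom
  have hs0 : s ≠ 0 := by
    rintro rfl
    omega
  have hC : ∀ N ∈ Vb V b, Cs V N := fun N hN => hN.1
  have hR : ∀ N ∈ Vb V b, ∃ z, Rgl π N z := fun N hN => H.rg N hN.1
  obtain ⟨u, hu⟩ := hz
  obtain ⟨n₀, n, h0, hn, hb⟩ := H.ut
  obtain ⟨w, hw⟩ := M.small H.irr H.fin hC h0 hn hb (fun N hN hbN => ⟨hN, hbN⟩) hl hlv hs u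
  have h1 := H.ne_of_q (H.q_sub hsv u)
  have h2 := H.ne_of_q (H.q_sub hs0 w)
  have h3 := M.zt_eqv H.irr hC hR H.wv H.rt (mul_ne_zero h1 (pow_ne_zero l H.b_ne))
    (mul_ne_zero (pow_ne_zero l h2) H.b_ne) hw
  rw [M.zt_mul H.irr hC hR h1 (pow_ne_zero l H.b_ne), M.zt_mul H.irr hC hR (pow_ne_zero l h2) H.b_ne,
    M.zt_pow H.irr hC hR H.b_ne, M.zt_pow H.irr hC hR h2] at h3
  refine ⟨w, ?_⟩
  have e : z - l • M.Bd W f π b s w = (z - M.Bd W f π b (s + v) u) -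
      (M.Zt W f (Vb V b) (b - algebraMap V S (π ^ (s + v)) * u) + l • M.Zt W f (Vb V b) b -
        (l • M.Zt W f (Vb V b) (b - algebraMap V S (π ^ s) * w) + M.Zt W f (Vb V b) b)) := by
    rw [Bd, Bd, smul_sub]
    abel
  rw [e]
  exact P.sub_mem hu h3

end gk

end Md

end CV
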