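import Pool.Agent.Lib.MP_f80667_ag.Cv.Sm2
import Pool.Agent.Lib.MP_f80667_ag.Cv.Clt
import Pool.Agent.Lib.MP_f80667_ag.Cv.Cg
import Pool.Agent.Lib.MP_f80667_ag.Cv.SmA

/-!
Two congruent sections differ by an element of `Gk`; small displacements of sections are divisible.

* `Blk.sec`: `x₁`, `x₂ : S → V` congruent modulo `π ^ k`: the difference of the points is in `Gk`.
* `Blk.sec_small`: it is `l • Bd` modulo `P`.
-/

open IsLocalRing

namespace CV

namespace Md

variable {V L k S SL Sk : Type} [CommRing V] [IsDomain V] [IsDiscreteValuationRing V] [Field L]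
  [Field k] [Algebra V L] [IsFractionRing V L] [Algebra V k] [CommRing S] [CommRing SL]
  [CommRing Sk] [Algebra V S] [Algebra L SL] [Algebra k Sk] (M : Md V L k S SL Sk) {Ω : Type}
  [Field Ω] [Algebra L Ω] {W : ValuationSubring Ω}

omit [IsFractionRing V L] in
/-- `W` dominates `V`. -/
theorem sm3_non (hW : Wv V L W) (c : V) :
    algebraMap L Ω (algebraMap V L c) ∈ W.nonunits ↔ c ∈ maximalIdeal V := by
  refine ⟨fun h => ?_, hW.lt c⟩
  by_contra hc
  have hu : IsUnit c := by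
    by_contra h1
    exact hc ((mem_maximalIdeal _).2 h1)
  obtain ⟨d, hd⟩ := hu.exists_right_inv
  have h1 : algebraMap L Ω (algebraMap V L c) * algebraMap L Ω (algebraMap V L d) = 1 := by
    rw [← map_mul, ← map_mul, hd, map_one, map_one]
  rw [ValuationSubring.mem_nonunits_iff] at h
  have h2 := congrArg W.valuation h1
  rw [map_mul, map_one] at h2
  have h3 : W.valuation (algebraMap L Ω (algebraMap V L d)) ≤ 1 :=
    (W.valuation_le_one_iff _).2 (hW.mem d)
  have h4 : W.valuation (algebraMap L Ω (algebraMap V L c)) *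
      W.valuation (algebraMap L Ω (algebraMap V L d)) < 1 :=
    mul_lt_one_of_lt_of_le h h3
  rw [h2] at h4
  exact lt_irrefl _ h4

/-- The closed point of a section. -/
theorem sec_cs (x : S →ₐ[V] V) : Cs V ((maximalIdeal V).comap x) := by
  refine ⟨Ideal.comap_isMaximal_of_surjective x fun c => ⟨algebraMap V S c, x.commutes c⟩,
    fun c hc => ?_⟩
  rw [Ideal.mem_comap]
  have h : x (algebraMap V S c) = c := x.commutes c
  rw [h]
  exact hc

variable {M}

theorem sec_ov (hW : Wv V L W) {x : S →ₐ[V] V} {φ : SL →ₐ[L] Ω}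
    (h : ∀ s, φ (M.i s) = algebraMap L Ω (algebraMap V L (x s))) :
    M.Ov W φ ((maximalIdeal V).comap x) := by
  refine ⟨fun s => ?_, fun s => ?_⟩
  · rw [h]
    exact hW.mem _
  · rw [h, sm3_non hW, Ideal.mem_comap]

variable [Algebra.IsAlgebraic L Ω]

/-- The order of a local parameter at a point. -/
theorem sm3_od {π : V} (hπ : Irreducible π) {N : Ideal S} (hN : Cs V N) {z : S}
    (hz : Rgl π N z) {φ : SL →ₐ[L] Ω} (h : M.Ov W φ N) :
    (φ (M.i z) = 0 → od φ (M.i z) = 1) ∧ (φ (M.i z) ≠ 0 → od φ (M.i z) = 0) := by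
  constructor
  · intro h0
    obtain ⟨s, hs, hgs⟩ := M.rgl_simple hπ hN hz h h0
    exact M.DL.od_one (M.gen_rg h h0 hs hgs)
  · intro h0
    obtain ⟨g, -, hg, s, hs, hgs⟩ := M.rgl_gen hπ hN hz h
    exact M.DL.od_zero (M.gen_rg h hg hs hgs) h0

variable {X : Type} {f : (SL →ₐ[L] Ω) → X} {P : AddSubgroup (X →₀ ℤ)} {π : V} {b : S}

/-- **Congruent sections differ by an element of `Gk`.** -/
theorem Blk.sec (H : M.Blk W f P π b) [PerfectField k] {r : ℕ} (hr : r ≠ 0) {x₁ x₂ : S →ₐ[V] V}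
    {φ₁ φ₂ : SL →ₐ[L] Ω} (e₁ : ∀ s, φ₁ (M.i s) = algebraMap L Ω (algebraMap V L (x₁ s)))
    (e₂ : ∀ s, φ₂ (M.i s) = algebraMap L Ω (algebraMap V L (x₂ s)))
    (hx : ∀ s, π ^ r ∣ x₁ s - x₂ s) :
    (Finsupp.single (f φ₁) 1 - Finsupp.single (f φ₂) 1 : X →₀ ℤ) ∈ H.Gk hr := by
  classical
  have hac := H.ac
  by_cases hne : φ₁ = φ₂
  · rw [hne, sub_self]
    exact (H.Gk hr).zero_mem
  have hπm : π ∈ maximalIdeal V := by
    rw [H.irr.maximalIdeal_eq]
    exact Ideal.mem_span_singleton_self π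
  have hdm : ∀ s, x₁ s - x₂ s ∈ maximalIdeal V := by
    intro s
    obtain ⟨c, hc⟩ := hx s
    rw [hc]
    exact Ideal.mul_mem_right _ _ (Ideal.pow_mem_of_mem _ hπm r (Nat.pos_of_ne_zero hr))
  obtain ⟨N, hNdef⟩ : ∃ N, N = (maximalIdeal V).comap x₁ := ⟨_, rfl⟩
  have hN12 : (maximalIdeal V).comap x₂ = N := by
    rw [hNdef]
    ext s
    rw [Ideal.mem_comap, Ideal.mem_comap]
    constructor
    · intro h
      have h1 := (maximalIdeal V).add_mem (hdm s) h
      rwa [sub_add_cancel] at h1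
    · intro h
      have h1 := (maximalIdeal V).sub_mem h (hdm s)
      rwa [sub_sub_cancel] at h1
  have hN : Cs V N := hNdef ▸ sec_cs x₁
  have ho₁ : M.Ov W φ₁ N := hNdef ▸ sec_ov H.wv e₁
  have ho₂ : M.Ov W φ₂ N := hN12 ▸ sec_ov H.wv e₂
  obtain ⟨t, ht⟩ := H.rg N hN
  have htN : t ∈ N := ht.1
  have hx1 : x₁ t ∈ maximalIdeal V := by
    rw [hNdef] at htN
    exact htN
  have hx2 : x₂ t ∈ maximalIdeal V := by
    rw [← hN12] at htN
    exact htN
  -- the local parameters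
  have hrg : ∀ c ∈ maximalIdeal V, Rgl π N (t - algebraMap V S c) := by
    intro c hc
    rw [H.irr.maximalIdeal_eq, Ideal.mem_span_singleton] at hc
    obtain ⟨d, rfl⟩ := hc
    have h1 : algebraMap V S (π * d) ∈ N := hN.2 _ (Ideal.mul_mem_right _ _ hπm)
    obtain ⟨-, s, hs, h2⟩ := ht
    refine ⟨N.sub_mem htN h1, s, hs, fun y hy => ?_⟩
    obtain ⟨z, z', e⟩ := h2 y hy
    refine ⟨z, algebraMap V S d * z + z', ?_⟩
    rw [e, map_mul]
    ring
  -- the points above `N` with value `0`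
  have huniq : ∀ (x : S →ₐ[V] V) (ψ : SL →ₐ[L] Ω), (maximalIdeal V).comap x = N →
      (∀ s, ψ (M.i s) = algebraMap L Ω (algebraMap V L (x s))) → ∀ φ : SL →ₐ[L] Ω,
      M.Ov W φ N → φ (M.i (t - algebraMap V S (x t))) = 0 → φ = ψ := by
    intro x ψ hx ex φ hφ h0
    have hxt : x t ∈ maximalIdeal V := by
      have h1 := htN
      rw [← hx] at h1
      exact h1
    refine M.pt_uniq H.wv H.irr hN (hrg _ hxt) (M.rgl_q H.irr hN (hrg _ hxt)) hφ
      (hx ▸ sec_ov H.wv ex) (fun s => ?_) h0 ?_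
    · have h1 : s - algebraMap V S (x s) ∈ N := by
        rw [← hx, Ideal.mem_comap, map_sub]
        have h2 : x (algebraMap V S (x s)) = x s := x.commutes _
        rw [h2, sub_self]
        exact (maximalIdeal V).zero_mem
      have h2 := (hφ.2 _).1 h1
      rw [map_sub, map_sub, M.i_alg, φ.commutes] at h2
      rw [ex]
      exact h2
    · rw [ex, map_sub]
      have h2 : x (algebraMap V S (x t)) = x t := x.commutes _
      rw [h2, sub_self, map_zero, map_zero]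
  have hz₁ : φ₁ (M.i (t - algebraMap V S (x₁ t))) = 0 := by
    rw [e₁, map_sub]
    have h2 : x₁ (algebraMap V S (x₁ t)) = x₁ t := x₁.commutes _
    rw [h2, sub_self, map_zero, map_zero]
  have hz₂ : φ₂ (M.i (t - algebraMap V S (x₂ t))) = 0 := by
    rw [e₂, map_sub]
    have h2 : x₂ (algebraMap V S (x₂ t)) = x₂ t := x₂.commutes _
    rw [h2, sub_self, map_zero, map_zero]
  have hz₃ : φ₁ (M.i (t - algebraMap V S (x₂ t))) ≠ 0 := fun h0 =>
    hne (huniq x₂ φ₂ hN12 e₂ φ₁ ho₁ h0)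
  have hz₄ : φ₂ (M.i (t - algebraMap V S (x₁ t))) ≠ 0 := fun h0 =>
    hne (huniq x₁ φ₁ hNdef.symm e₁ φ₂ ho₂ h0).symm
  obtain ⟨c, hc⟩ := hx t
  have key := M.cltc H.wv H.irr (T₀ := {N}) (Set.finite_singleton N)
    (fun N' hN' => by
      rw [Set.mem_singleton_iff] at hN'
      rw [hN']
      exact hN)
    (fun N' hN' => by
      rw [Set.mem_singleton_iff] at hN'
      rw [hN']
      exact ⟨t, ht⟩)
    (g₁ := t - algebraMap V S (x₁ t)) (g₂ := t - algebraMap V S (x₂ t))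
    (c := -algebraMap V S c) (M.rgl_q H.irr hN (hrg _ hx1)) hr
    (by
      have h1 : x₁ t = x₂ t + π ^ r * c := by rw [← hc]; ring
      rw [h1, map_add, map_mul]
      ring)
    H.rt (H.bk (fun g hg => M.cs_fin hg) hr) {φ₁, φ₂}
    (fun φ hφ => by
      rw [Finset.mem_insert, Finset.mem_singleton] at hφ
      rcases hφ with rfl | rfl
      · exact ⟨N, rfl, ho₁⟩
      · exact ⟨N, rfl, ho₂⟩)
    (fun φ hφ h0 => by
      obtain ⟨N', hN', hov⟩ := hφ
      rw [Set.mem_singleton_iff] at hN'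
      rw [hN'] at hov
      rw [Finset.mem_insert, Finset.mem_singleton]
      rcases h0 with h0 | h0
      · exact Or.inl (huniq x₁ φ₁ hNdef.symm e₁ φ hov h0)
      · exact Or.inr (huniq x₂ φ₂ hN12 e₂ φ hov h0))
  rw [Finset.sum_pair hne, (sm3_od H.irr hN (hrg _ hx1) ho₁).1 hz₁,
    (sm3_od H.irr hN (hrg _ hx2) ho₁).2 hz₃, (sm3_od H.irr hN (hrg _ hx1) ho₂).2 hz₄,
    (sm3_od H.irr hN (hrg _ hx2) ho₂).1 hz₂, sup_eq_right.2 (H.le_Gk hr)] at key
  have e : (Finsupp.single (f φ₁) 1 - Finsupp.single (f φ₂) 1 : X →₀ ℤ) =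
      Finsupp.single (f φ₁) (((1 : ℕ) : ℤ) - ((0 : ℕ) : ℤ)) +
        Finsupp.single (f φ₂) (((0 : ℕ) : ℤ) - ((1 : ℕ) : ℤ)) := by
    rw [Nat.cast_one, Nat.cast_zero, sub_zero, zero_sub, Finsupp.single_neg, sub_eq_add_neg]
  rw [e]
  exact key

/-- **Small displacements of sections are divisible.** -/
theorem Blk.sec_small (H : M.Blk W f P π b) [PerfectField k] {l v s : ℕ} (hl : l.Prime) {ε : Vˣ}
    (hlv : (l : V) = ε * π ^ v) (hs : v < (l - 1) * s) {x₁ x₂ : S →ₐ[V] V}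
    {φ₁ φ₂ : SL →ₐ[L] Ω} (e₁ : ∀ s, φ₁ (M.i s) = algebraMap L Ω (algebraMap V L (x₁ s)))
    (e₂ : ∀ s, φ₂ (M.i s) = algebraMap L Ω (algebraMap V L (x₂ s)))
    (hx : ∀ y, π ^ (s + v) ∣ x₁ y - x₂ y) : ∃ w,
      (Finsupp.single (f φ₁) 1 - Finsupp.single (f φ₂) 1 : X →₀ ℤ) - l • M.Bd W f π b s w ∈ P := by
  have hs0 : s ≠ 0 := by
    rintro rfl
    omega
  exact H.small hl hlv hs (by omega) (H.sec (by omega) e₁ e₂ hx)

end Md

end CV
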