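import Pool.Agent.Lib.MP_f80667_ag.Cv.Sm3
import Pool.Agent.Lib.MP_f80667_ag.Cv.Rgx
import Pool.Agent.Lib.MP_f80667_ag.Cv.RtQ
import Pool.Agent.Lib.MP_f80667_ag.Cv.Dd
import Pool.Agent.Lib.MP_f80667_ag.Cv.HdA

/-!
Small displacements `[y] - [y']` over `M` are divisible modulo principal cycles.

* `Md.zt_gal`, `Md.bd_gal`: divisors are invariant under the Galois group.
* `Md.exists_sec`: an integral point over `M` is a section.
* `Mod.exists_blk`: the element `b`.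
* `sm_pt`: the theorem.
-/

open ZC BE PE Polynomial TensorProduct IntermediateField IsLocalRing

namespace CV

namespace Md

section gal

variable {F : Type} [Field F] {K Ω : Type} [Field K] [CharZero K] [Field Ω] [Algebra K Ω]
  [Algebra F K] [Algebra F Ω] [IsScalarTower F K Ω] [IsAlgClosure K Ω] {L : Ld K Ω}
  {M : IntermediateField K Ω} {V k S SM Sk : Type} [CommRing V] [IsDomain V]
  [IsDiscreteValuationRing V] [Field k] [Algebra V M] [IsFractionRing V M] [Algebra V k]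
  [CommRing S] [CommRing SM] [CommRing Sk] [Algebra V S] [Algebra M SM] [Algebra k Sk]
  (D : Md V M k S SM Sk) {V' : Vr F} [Hf V'] {f : (SM →ₐ[M] Ω) → V'.pt Ω}
  (hf : ∀ (γ : M.fixingSubgroup) (φ : SM →ₐ[M] Ω), f (ag γ φ) = V'.act (γ : Ω ≃ₐ[K] Ω) (f φ))

/-- The action as a permutation of the points. -/
noncomputable def agE {A : Type} [CommRing A] [Algebra M A] (γ : M.fixingSubgroup) :
    (A →ₐ[M] Ω) ≃ (A →ₐ[M] Ω) where
  toFun := ag γ
  invFun := ag γ⁻¹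
  left_inv φ := AlgHom.ext fun x => by
    rw [ag_apply, ag_apply]
    exact (γ : Ω ≃ₐ[K] Ω).symm_apply_apply _
  right_inv φ := AlgHom.ext fun x => by
    rw [ag_apply, ag_apply]
    exact (γ : Ω ≃ₐ[K] Ω).apply_symm_apply _

theorem ag_inv {A : Type} [CommRing A] [Algebra M A] (γ : M.fixingSubgroup) (φ : A →ₐ[M] Ω) :
    ag γ⁻¹ (ag γ φ) = φ := (agE γ).left_inv φ

theorem ag_ov_iff {φ : SM →ₐ[M] Ω} {N : Ideal S} (γ : M.fixingSubgroup) :
    D.Ov L.V (ag γ φ) N ↔ D.Ov L.V φ N := by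
  refine ⟨fun h => ?_, fun h => D.ag_ov h γ⟩
  have h1 := D.ag_ov h γ⁻¹
  rwa [ag_inv] at h1

include hf

/-- Divisors are invariant. -/
theorem zt_gal (T : Set (Ideal S)) (s : S) (γ : M.fixingSubgroup) :
    (γ : Ω ≃ₐ[K] Ω) • D.Zt L.V f T s = D.Zt L.V f T s := by
  classical
  have hinj : Function.Injective
      (DistribSMul.toAddMonoidHom (V'.pt Ω →₀ ℤ) (γ : Ω ≃ₐ[K] Ω)) :=
    MulAction.injective (γ : Ω ≃ₐ[K] Ω)
  have h1 := AddMonoidHom.map_finsum_of_injective _ hinj (fun φ : SM →ₐ[M] Ω =>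
    if ∃ N ∈ T, D.Ov L.V φ N then Finsupp.single (f φ) (od φ (D.i s) : ℤ) else 0)
  change (γ : Ω ≃ₐ[K] Ω) • D.Zt L.V f T s = _ at h1
  rw [h1]
  have h2 : ∀ φ : SM →ₐ[M] Ω, DistribSMul.toAddMonoidHom (V'.pt Ω →₀ ℤ) (γ : Ω ≃ₐ[K] Ω)
      (if ∃ N ∈ T, D.Ov L.V φ N then Finsupp.single (f φ) (od φ (D.i s) : ℤ) else 0) =
      (if ∃ N ∈ T, D.Ov L.V (agE γ φ) N then
        Finsupp.single (f (agE γ φ)) (od (agE γ φ) (D.i s) : ℤ) else 0) := by
    intro φ
    have h3 : (∃ N ∈ T, D.Ov L.V (agE γ φ) N) ↔ ∃ N ∈ T, D.Ov L.V φ N :=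
      exists_congr fun N => and_congr_right fun _ => D.ag_ov_iff γ
    by_cases h : ∃ N ∈ T, D.Ov L.V φ N
    · rw [if_pos h, if_pos (h3.2 h)]
      change (γ : Ω ≃ₐ[K] Ω) • (Finsupp.single (f φ) (od φ (D.i s) : ℤ)) =
        Finsupp.single (f (ag γ φ)) (od (ag γ φ) (D.i s) : ℤ)
      rw [smul_single, hf, ag_od]
    · rw [if_neg h, if_neg (fun h' => h (h3.1 h')), map_zero]
  rw [finsum_congr h2]
  exact finsum_comp_equiv (agE γ) (f := fun φ : SM →ₐ[M] Ω =>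
    if ∃ N ∈ T, D.Ov L.V φ N then Finsupp.single (f φ) (od φ (D.i s) : ℤ) else 0)

theorem bd_gal (π : V) (b : S) (r : ℕ) (w : S) : Fx M (D.Bd L.V f π b r w) := by
  intro γ hγ
  have h1 := D.zt_gal (L := L) hf (Vb V b) b ⟨γ, hγ⟩
  have h2 := D.zt_gal (L := L) hf (Vb V b) (b - algebraMap V S (π ^ r) * w) ⟨γ, hγ⟩
  change γ • D.Zt L.V f (Vb V b) b = _ at h1
  change γ • D.Zt L.V f (Vb V b) (b - algebraMap V S (π ^ r) * w) = _ at h2
  rw [Bd, smul_sub, h1, h2]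

end gal

section sec

variable {K Ω : Type} [Field K] [CharZero K] [Field Ω] [Algebra K Ω] [IsAlgClosure K Ω] {L : Ld K Ω}
  {M : IntermediateField K Ω} [FiniteDimensional K M] {k S SM Sk : Type} [Field k]
  [Algebra (OM L M) k] [CommRing S] [CommRing SM] [CommRing Sk] [Algebra (OM L M) S]
  [Algebra M SM] [Algebra k Sk] (D : Md (OM L M) M k S SM Sk)

/-- An integral point over `M` is a section. -/
theorem exists_sec {φ : SM →ₐ[M] Ω} (h : D.Ig L.V φ)
    (h' : ∀ γ : M.fixingSubgroup, ag γ φ = φ) : ∃ x : S →ₐ[OM L M] OM L M,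
      ∀ s, φ (D.i s) = algebraMap M Ω (algebraMap (OM L M) M (x s)) := by
  have hM : ∀ s, φ (D.i s) ∈ M := fun s => mem_of_fix M fun γ hγ => by
    have h1 := DFunLike.congr_fun (h' ⟨γ, hγ⟩) (D.i s)
    exact h1
  have hinj : Function.Injective (fun c : OM L M => ((c : M) : Ω)) := fun a b hab =>
    Subtype.ext (Subtype.ext hab)
  let x : S →ₐ[OM L M] OM L M :=
    { toFun := fun s => ⟨⟨φ (D.i s), hM s⟩, h s⟩
      map_one' := hinj (by
        change φ (D.i 1) = 1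
        rw [map_one, map_one])
      map_mul' := fun a b => hinj (by
        change φ (D.i (a * b)) = φ (D.i a) * φ (D.i b)
        rw [map_mul, map_mul])
      map_zero' := hinj (by
        change φ (D.i 0) = 0
        rw [map_zero, map_zero])
      map_add' := fun a b => hinj (by
        change φ (D.i (a + b)) = φ (D.i a) + φ (D.i b)
        rw [map_add, map_add])
      commutes' := fun c => hinj (by
        change φ (D.i (algebraMap (OM L M) S c)) = _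
        rw [D.i_alg, φ.commutes]
        rfl) }
  exact ⟨x, fun s => rfl⟩

end sec

end Md

section cptS

variable {F : Type} [Field F] {C : Crv F} {K Ω : Type} [Field K] [CharZero K] [Field Ω]
  [Algebra K Ω] [Algebra F K] [Algebra F Ω] [IsScalarTower F K Ω] [IsAlgClosure K Ω] {L : Ld K Ω}
  {M : IntermediateField K Ω} {SM : Type} [CommRing SM] [Algebra M SM]
  (e : SM ≃ₐ[M] M ⊗[F] C.A)

/-- The point of the curve. -/
noncomputable def cptS (φ : SM →ₐ[M] Ω) : C.V.pt Ω := some (pe e φ)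

theorem cptS_ag (γ : M.fixingSubgroup) (φ : SM →ₐ[M] Ω) :
    cptS e (Md.ag γ φ) = C.V.act (γ : Ω ≃ₐ[K] Ω) (cptS e φ) := pe_ag e γ φ

theorem cptS_inj : Function.Injective (cptS e : (SM →ₐ[M] Ω) → C.V.pt Ω) := fun _ _ h =>
  pe_inj e (Option.some.inj h)

theorem deg_one (x : C.V.pt Ω) : C.V.deg Ω (Finsupp.single x 1) = 1 := by
  simp [Vr.deg]

variable [FiniteDimensional K M] {k S Sk : Type} [Field k]
  [Algebra (OM L M) k] [CommRing S] [CommRing Sk] [Algebra (OM L M) S] [Algebra k Sk]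
  (D : Md (OM L M) M k S SM Sk) [PerfectField k] [IsDedekindDomain Sk]

omit [PerfectField k] in
/-- The element `b`. -/
theorem exists_blk {π : OM L M} (hπ : Irreducible π) :
    ∃ b, D.Blk L.V (cptS e) (Pc C Ω) π b := by
  obtain ⟨n₀, h0⟩ := D.exists_tail
  obtain ⟨b, hb⟩ := h0 n₀ le_rfl
  exact ⟨b, acOM L M, wvM L M, hπ, fun N hN => D.exists_rgl hπ hN,
    rt_pc e D, D.cs_fin (D.Dk.ne_zero hb.2), n₀, n₀, h0, le_rfl, hb⟩

/-- **Small displacements over `M` are divisible.** `π` is a uniformizer of `M`, `(l) = (π ^ v)`, `v < (l - 1) s`; the points are congruent modulo `π ^ (s + v)`. -/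
theorem sm_cpt {π : OM L M} (hπ : Irreducible π) {l v s : ℕ} (hl : l.Prime)
    (hlv : L.nm (l : Ω) = L.nm ((π : M) : Ω) ^ v) (hs : v < (l - 1) * s) {φ ψ : SM →ₐ[M] Ω}
    (h₁ : D.Ig L.V φ) (h₂ : D.Ig L.V ψ) (g₁ : Fp C.V M (cptS e φ)) (g₂ : Fp C.V M (cptS e ψ))
    (h : ∀ (y : S) (x : OM L M), ((x : M) : Ω) = φ (D.i y) - ψ (D.i y) → π ^ (s + v) ∣ x) :
    ∃ z' ∈ Zd C.V M,
      Finsupp.single (cptS e φ) 1 - Finsupp.single (cptS e ψ) 1 - l • z' ∈ Pc C Ω := by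
  obtain ⟨b, H⟩ := exists_blk e D hπ
  have hfix : ∀ χ : SM →ₐ[M] Ω, Fp C.V M (cptS e χ) → ∀ γ : M.fixingSubgroup,
      Md.ag γ χ = χ := by
    intro χ hχ γ
    refine cptS_inj e ?_
    rw [cptS_ag]
    exact hχ _ γ.2
  obtain ⟨x, hx⟩ := D.exists_sec h₁ (hfix φ g₁)
  obtain ⟨x', hx'⟩ := D.exists_sec h₂ (hfix ψ g₂)
  -- the unit
  have hlv' : L.nm ((((l : OM L M) : M) : Ω)) = L.nm (((π ^ v : OM L M) : M) : Ω) := by
    have e1 : (((l : OM L M) : M) : Ω) = (l : Ω) := by simp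
    have e2 : L.nm (((π ^ v : OM L M) : M) : Ω) = L.nm ((π : M) : Ω) ^ v := by
      rw [← L.pow]
      rfl
    rw [e1, e2, hlv]
  obtain ⟨ε, hε⟩ : Associated (π ^ v) (l : OM L M) := by
    refine associated_of_dvd_dvd ?_ ?_
    · rw [dvd_iff_nm, hlv']
    · rw [dvd_iff_nm, hlv']
  obtain ⟨w, hw⟩ := H.sec_small hl (ε := ε) (by rw [← hε, mul_comm]) hs hx hx' (fun y => by
    refine h y _ ?_
    rw [hx, hx']
    rfl)
  refine ⟨_, mem_Zd.2 ⟨D.bd_gal (L := L) (cptS_ag e) π b s w, ?_⟩, hw⟩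
  -- the degree
  have h5 := deg_Pc hw
  rw [map_sub, map_sub, map_nsmul, deg_one, deg_one, sub_self, zero_sub, neg_eq_zero,
    nsmul_eq_mul] at h5
  exact (mul_eq_zero.1 h5).resolve_left (Nat.cast_ne_zero.2 hl.ne_zero)

end cptS

section mod

variable {F : Type} [Field F] {C : Crv F} {K Ω : Type} [Field K] [CharZero K] [Field Ω]
  [Algebra K Ω] [Algebra F K] [Algebra F Ω] [IsScalarTower F K Ω] [IsAlgClosure K Ω] {L : Ld K Ω}
  (m : Mod C (Ok L) K) (M : IntermediateField K Ω)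

theorem cptS_ptE (φ : C.A →ₐ[F] Ω) : cptS (isoE m M) (ptE m M φ) = (some φ : C.V.pt Ω) := by
  refine congrArg some (AlgHom.ext fun a => ?_)
  rw [pe_apply, ← lift_isoE, AlgEquiv.apply_symm_apply, Algebra.TensorProduct.lift_tmul, map_one,
    one_mul]

/-- **Small displacements over `M` are divisible.** `π` is a uniformizer of `M`, `(l) = (π ^ v)`, `v < (l - 1) s`; the points are congruent modulo `π ^ (s + v)`. -/
theorem sm_pt [FiniteDimensional K M] {π : OM L M} (hπ : Irreducible π) {l v s : ℕ} (hl : l.Prime)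
    (hlv : L.nm (l : Ω) = L.nm ((π : M) : Ω) ^ v) (hs : v < (l - 1) * s) {r : ℝ}
    (hr : ∀ x : OM L M, L.nm ((x : M) : Ω) ≤ r → π ^ (s + v) ∣ x) {y y' : C.V.pt Ω}
    (hy : Fp C.V M y) (hy' : Fp C.V M y') (h : Nr m r y y') :
    ∃ z' ∈ Zd C.V M, Finsupp.single y 1 - Finsupp.single y' 1 - l • z' ∈ Pc C Ω := by
  obtain ⟨φ, ψ, rfl, rfl, -⟩ := id h
  have h0 : 0 ≤ r := by
    obtain ⟨φ', ψ', -, -, h1⟩ := h
    exact (L.nonneg _).trans (h1 0).2.2
  obtain ⟨h1, h2, h3⟩ := (nr_iff m M h0).1 h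
  rw [← cptS_ptE m M φ] at hy ⊢
  rw [← cptS_ptE m M ψ] at hy' ⊢
  refine sm_cpt (isoE m M) (m.mdM M) hπ hl hlv hs h1 h2 hy hy' fun y x hx => hr x ?_
  rw [hx]
  exact h3 y

end mod

end CV
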