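import Pool.Agent.Lib.MP_f80667_ag.Cv.Mt

/-!
Spreading out, first part. For an algebra `A` with degree function over a field `K` there is a basis with a monic table, with
the same degree function, such that all structure constants are in the subring generated by a finite set `C` of constants and
all elements of the basis are in the subring generated by finitely many of them.
-/

namespace CV

namespace Dg

variable {K A : Type} [Field K] [CommRing A] [Algebra K A] (G : Dg K A)

/-- The degrees. -/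
def sg : AddSubmonoid ℕ where
  carrier := {n | ∃ x, G.d x = n}
  zero_mem' := ⟨1, G.one⟩
  add_mem' := by
    rintro m n ⟨x, hx⟩ ⟨y, hy⟩
    exact ⟨x * y, by rw [G.mul, hx, hy, ← Nat.cast_add]⟩

/-- The elements of degree `< n`. -/
def W (n : ℕ) : Submodule K A where
  carrier := {x | G.d x < n}
  zero_mem' := by
    change G.d 0 < n
    rw [G.zero]
    exact WithBot.bot_lt_coe n
  add_mem' {x y} hx hy := (G.add x y).trans_lt (max_lt hx hy)
  smul_mem' c x hx := (G.smul_le c x).trans_lt hx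

theorem mem_W {n : ℕ} {x : A} : x ∈ G.W n ↔ G.d x < n := Iff.rfl

section basis

variable {G} (e : G.sg → A) (he : ∀ m : G.sg, G.d (e m) = (m : ℕ))

include he

theorem W_le (n : ℕ) {x : A} (hx : G.d x < n) :
    x ∈ Submodule.span K (e '' {k | (k : ℕ) < n}) := by
  induction n generalizing x with
  | zero =>
    have h : x = 0 := by
      by_contra h
      obtain ⟨m, hm⟩ := G.exists_nat h
      rw [hm] at hx
      exact absurd (by exact_mod_cast hx) (Nat.not_lt_zero m)
    rw [h]
    exact zero_mem _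
  | succ n ih =>
    rcases eq_or_ne x 0 with rfl | h
    · exact zero_mem _
    obtain ⟨m, hm⟩ := G.exists_nat h
    have h1 : m < n + 1 := by
      rw [hm] at hx
      exact_mod_cast hx
    let k : G.sg := ⟨m, x, hm⟩
    obtain ⟨c, hc⟩ := G.lead x (e k) (G.ne_zero (he k)) (by rw [he k, hm])
    rw [he k] at hc
    have h2 : x - c • e k ∈ Submodule.span K (e '' {k | (k : ℕ) < n}) :=
      ih (hc.trans_le (by exact_mod_cast Nat.lt_succ_iff.1 h1))
    have h3 : e k ∈ Submodule.span K (e '' {k | (k : ℕ) < n + 1}) :=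
      Submodule.subset_span ⟨k, h1, rfl⟩
    have h4 := Submodule.span_mono (R := K) (Set.image_mono (f := e)
      (fun k (hk : (k : ℕ) < n) => (hk.trans n.lt_succ_self : (k : ℕ) < n + 1))) h2
    have h5 := add_mem h4 (Submodule.smul_mem _ c h3)
    rwa [sub_add_cancel] at h5

theorem span_le (n : ℕ) : Submodule.span K (e '' {k | (k : ℕ) < n}) ≤ G.W n := by
  rw [Submodule.span_le]
  rintro _ ⟨k, hk, rfl⟩
  change G.d (e k) < n
  rw [he]
  exact_mod_cast hk

theorem e_indep : LinearIndependent K e := by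
  classical
  rw [linearIndependent_iff]
  intro l hl
  by_contra hne
  have hs : l.support.Nonempty := Finsupp.support_nonempty_iff.2 hne
  obtain ⟨k, hk, hmax⟩ := l.support.exists_max_image (fun k => (k : ℕ)) hs
  have h1 : l.sum (fun i a => a • e i) = l k • e k + (l.erase k).sum (fun i a => a • e i) := by
    rw [← Finsupp.add_sum_erase l k _ hk]
  have h2 : (l.erase k).sum (fun i a => a • e i) ∈ G.W k := by
    refine sum_mem fun i hi => Submodule.smul_mem _ _ ?_
    rw [Finsupp.support_erase, Finset.mem_erase] at hi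
    change G.d (e i) < (k : ℕ)
    rw [he]
    have h3 := hmax i hi.2
    have h4 : (i : ℕ) ≠ k := fun h => hi.1 (Subtype.ext h)
    exact_mod_cast lt_of_le_of_ne h3 h4
  rw [Finsupp.linearCombination_apply, h1] at hl
  have h5 : l k • e k ∈ G.W k := by
    rw [eq_neg_of_add_eq_zero_left hl]
    exact neg_mem h2
  have h6 : G.d (l k • e k) < (k : ℕ) := h5
  rw [G.smul (Finsupp.mem_support_iff.1 hk), he] at h6
  exact lt_irrefl _ h6

theorem e_span : ⊤ ≤ Submodule.span K (Set.range e) := by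
  intro x _
  rcases eq_or_ne x 0 with rfl | h
  · exact zero_mem _
  obtain ⟨m, hm⟩ := G.exists_nat h
  have h1 := W_le e he (m + 1) (x := x) (by rw [hm]; exact_mod_cast m.lt_succ_self)
  exact Submodule.span_mono (Set.image_subset_range _ _) h1

end basis

/-- A basis with leading coefficients `1`. -/
noncomputable def mt (e : G.sg → A) (he : ∀ m : G.sg, G.d (e m) = (m : ℕ)) (h1 : e 0 = 1)
    (ht : ∀ m n : G.sg, G.d (e m * e n - e (m + n)) < ((m : ℕ) + n : ℕ)) : Mt K A where
  S := G.sg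
  fin := G.tail
  e := Module.Basis.mk (e_indep e he) (e_span e he)
  one := by rw [Module.Basis.mk_apply, h1]
  tab m n := by
    rw [Module.Basis.mk_apply, Module.Basis.mk_apply, Module.Basis.mk_apply, Module.Basis.coe_mk]
    exact W_le e he _ (ht m n)

theorem mt_e (e : G.sg → A) (he : ∀ m : G.sg, G.d (e m) = (m : ℕ)) (h1 : e 0 = 1)
    (ht : ∀ m n : G.sg, G.d (e m * e n - e (m + n)) < ((m : ℕ) + n : ℕ)) (k : G.sg) :
    (G.mt e he h1 ht).e k = e k := Module.Basis.mk_apply (e_indep e he) (e_span e he) k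

theorem mt_d (e : G.sg → A) (he : ∀ m : G.sg, G.d (e m) = (m : ℕ)) (h1 : e 0 = 1)
    (ht : ∀ m n : G.sg, G.d (e m * e n - e (m + n)) < ((m : ℕ) + n : ℕ)) (x : A) :
    (G.mt e he h1 ht).d x = G.d x := by
  set T := G.mt e he h1 ht
  have key : ∀ n : ℕ, T.d x < n ↔ G.d x < n := by
    intro n
    rw [T.d_lt, Mt.W]
    have h2 : (T.e '' {k | (k : ℕ) < n}) = e '' {k | (k : ℕ) < n} :=
      Set.image_congr fun k _ => G.mt_e e he h1 ht k
    constructor
    · intro h
      have h3 := Submodule.span_mono (R := K) h2.le h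
      exact span_le e he n h3
    · intro h
      exact Submodule.span_mono (R := K) h2.ge (W_le e he n h)
  rcases eq_or_ne x 0 with rfl | hx
  · rw [(T.d_bot 0).2 rfl, G.zero]
  obtain ⟨m, hm⟩ := G.exists_nat hx
  obtain ⟨n, hn, -⟩ := T.exists_d hx
  rw [hm, hn]
  have h3 := key m
  have h4 := key (n : ℕ)
  have h5 := key (m + 1)
  have h6 := key ((n : ℕ) + 1)
  rw [hm, hn] at h3 h4 h5 h6
  have a1 : ¬ ((n : ℕ) : WithBot ℕ) < (m : ℕ) := fun h => lt_irrefl _ (h3.1 h)
  have a2 : ¬ ((m : ℕ) : WithBot ℕ) < (n : ℕ) := fun h => lt_irrefl _ (h4.2 h)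
  have a3 : ((n : ℕ) : WithBot ℕ) = (m : ℕ) := le_antisymm (not_lt.1 a2) (not_lt.1 a1)
  exact a3

section lc

variable {G} {N : ℕ} {u y : A} (hu : G.d u = N) (hy : G.d y = (N + 1 : ℕ))

/-- `c` is the leading coefficient of `f` with respect to `u`, `y`. -/
def IsLc (G : Dg K A) (N : ℕ) (u y f : A) (c : K) : Prop :=
  ∃ m : ℕ, G.d f = m ∧ G.d (f * u ^ m - c • y ^ m) < (m * (N + 1) : ℕ)

include hu hy

theorem exists_lc {f : A} (hf : f ≠ 0) : ∃ c : K, c ≠ 0 ∧ IsLc G N u y f c := by
  obtain ⟨m, hm⟩ := G.exists_nat hf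
  have h1 : G.d (f * u ^ m) = (m * (N + 1) : ℕ) := by
    rw [G.mul, hm, G.pow hu, ← Nat.cast_add]
    congr 1
    ring
  have h2 : G.d (y ^ m) = (m * (N + 1) : ℕ) := by
    rw [G.pow hy]
    congr 1
    ring
  obtain ⟨c, hc⟩ := G.lead (f * u ^ m) (y ^ m) (G.ne_zero h2) (h1.trans h2.symm)
  rw [h2] at hc
  refine ⟨c, ?_, m, hm, hc⟩
  rintro rfl
  rw [zero_smul, sub_zero, h1] at hc
  exact lt_irrefl _ hc

omit hu in
theorem lc_unique {f : A} {c c' : K} (h : IsLc G N u y f c) (h' : IsLc G N u y f c') :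
    c = c' := by
  obtain ⟨m, hm, h1⟩ := h
  obtain ⟨m', hm', h2⟩ := h'
  rw [hm] at hm'
  obtain rfl : m = m' := by exact_mod_cast hm'
  by_contra hne
  have h3 : G.d ((c' - c) • y ^ m) < (m * (N + 1) : ℕ) := by
    have e : (c' - c) • y ^ m = (f * u ^ m - c • y ^ m) - (f * u ^ m - c' • y ^ m) := by
      rw [sub_smul]
      abel
    rw [e]
    exact (G.sub _ _).trans_lt (max_lt h1 h2)
  rw [G.smul (sub_ne_zero.2 (Ne.symm hne)), G.pow hy, mul_comm (N + 1) m] at h3
  exact lt_irrefl _ h3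

theorem lc_mul {f g : A} {c c' : K} (h : IsLc G N u y f c) (h' : IsLc G N u y g c') :
    IsLc G N u y (f * g) (c * c') := by
  obtain ⟨m, hm, h1⟩ := h
  obtain ⟨n, hn, h2⟩ := h'
  refine ⟨m + n, by rw [G.mul, hm, hn, ← Nat.cast_add], ?_⟩
  have e : f * g * u ^ (m + n) - (c * c') • y ^ (m + n) =
      (f * u ^ m - c • y ^ m) * (g * u ^ n) + c • (y ^ m * (g * u ^ n - c' • y ^ n)) := by
    simp only [sub_mul, mul_sub, smul_sub, smul_mul_assoc, mul_smul_comm, mul_smul, pow_add]
    have e1 : f * g * (u ^ m * u ^ n) = f * u ^ m * (g * u ^ n) := by ring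
    rw [e1]
    abel
  have d1 : G.d (g * u ^ n) = (n * (N + 1) : ℕ) := by
    rw [G.mul, hn, G.pow hu, ← Nat.cast_add]
    congr 1
    ring
  have d2 : G.d (y ^ m) = (m * (N + 1) : ℕ) := by
    rw [G.pow hy]
    congr 1
    ring
  have lt_add : ∀ a b : A, ∀ i j : ℕ, G.d a < i → G.d b = j → G.d (a * b) < (i + j : ℕ) := by
    intro a b i j ha hb
    rcases eq_or_ne a 0 with rfl | h0
    · rw [zero_mul, G.zero]
      exact WithBot.bot_lt_coe _
    obtain ⟨k, hk⟩ := G.exists_nat h0
    rw [hk] at ha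
    have ha' : k < i := by exact_mod_cast ha
    rw [G.mul, hk, hb, ← Nat.cast_add]
    exact_mod_cast Nat.add_lt_add_right ha' j
  rw [e, add_mul m n (N + 1)]
  refine (G.add _ _).trans_lt (max_lt (lt_add _ _ _ _ h1 d1) ?_)
  refine (G.smul_le _ _).trans_lt ?_
  rw [mul_comm (y ^ m), add_comm (m * (N + 1))]
  exact lt_add _ _ _ _ h2 d2

omit hu hy in
theorem lc_smul {f : A} {c : K} (h : IsLc G N u y f c) {a : K} (ha : a ≠ 0) :
    IsLc G N u y (a • f) (a * c) := by
  obtain ⟨m, hm, h1⟩ := h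
  refine ⟨m, by rw [G.smul ha, hm], ?_⟩
  rw [smul_mul_assoc, mul_smul, ← smul_sub, G.smul ha]
  exact h1

omit hu hy in
theorem lc_one : IsLc G N u y 1 1 := by
  refine ⟨0, G.one, ?_⟩
  rw [pow_zero, pow_zero, one_mul, one_smul, sub_self, G.zero]
  exact WithBot.bot_lt_coe _

omit hy in
theorem lc_sub {f g : A} {c : K} (h : IsLc G N u y f c) (h' : IsLc G N u y g c) {m : ℕ}
    (hf : G.d f = m) (hg : G.d g = m) : G.d (f - g) < m := by
  obtain ⟨m1, hm, h1⟩ := h
  obtain ⟨m2, hm', h2⟩ := h'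
  rw [hf] at hm
  rw [hg] at hm'
  obtain rfl : m = m1 := by exact_mod_cast hm
  obtain rfl : m = m2 := by exact_mod_cast hm'
  by_contra hlt
  have h3 : G.d (f - g) = m := by
    refine le_antisymm ((G.sub _ _).trans ?_) (not_lt.1 hlt)
    rw [hf, hg, max_self]
  have h4 : G.d ((f - g) * u ^ m) = (m * (N + 1) : ℕ) := by
    rw [G.mul, h3, G.pow hu, ← Nat.cast_add]
    congr 1
    ring
  have h5 : G.d ((f - g) * u ^ m) < (m * (N + 1) : ℕ) := by
    have e : (f - g) * u ^ m = (f * u ^ m - c • y ^ m) - (g * u ^ m - c • y ^ m) := by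
      rw [sub_mul]
      abel
    rw [e]
    exact (G.sub _ _).trans_lt (max_lt h1 h2)
  rw [h4] at h5
  exact lt_irrefl _ h5

end lc

end Dg

end CV
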