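import Pool.Agent.Lib.MP_f80667_ag.Cv.Sp1

/-!
Spreading out: there is a basis with a monic table such that all structure constants are in the subring generated by a finite
set of constants and all elements of the basis are in the subring generated by finitely many of them.
-/

namespace CV

namespace Dg

variable {K A : Type} [Field K] [CommRing A] [Algebra K A] (G : Dg K A)

theorem lc_pow {G : Dg K A} {N : ℕ} {u y : A} (hu : G.d u = N) (hy : G.d y = (N + 1 : ℕ)) {f : A}
    (h : IsLc G N u y f 1) (n : ℕ) : IsLc G N u y (f ^ n) 1 := by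
  induction n with
  | zero => rw [pow_zero]; exact lc_one
  | succ n ih =>
    rw [pow_succ]
    have h1 := lc_mul hu hy ih h
    rwa [mul_one] at h1

/-- **Finitely many structure constants.** -/
theorem exists_mt : ∃ (T : Mt K A) (C : Finset K) (I : Finset T.S), (∀ x, T.d x = G.d x) ∧
    (∀ B : Subring K, (∀ c ∈ C, c ∈ B) → ∀ m n k : T.S, T.e.repr (T.e m * T.e n) k ∈ B) ∧
    ∀ R : Subring A, (∀ k ∈ I, T.e k ∈ R) → ∀ m, T.e m ∈ R := by
  classical
  obtain ⟨n₀, htail⟩ := G.tail
  set N : ℕ := n₀ + 1 with hN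
  obtain ⟨u₀, hu₀⟩ := htail N (Nat.le_succ n₀)
  obtain ⟨y, hy⟩ := htail (N + 1) (by omega)
  obtain ⟨cu, hcu, hlu⟩ := exists_lc hu₀ hy (G.ne_zero hu₀)
  set u : A := cu⁻¹ • u₀ with hu
  have hdu : G.d u = N := by rw [hu, G.smul (inv_ne_zero hcu), hu₀]
  have hlu1 : IsLc G N u₀ y u 1 := by
    have h := lc_smul hlu (inv_ne_zero hcu)
    rwa [inv_mul_cancel₀ hcu] at h
  have hb0 : ∀ k : ℕ, ∃ x : A, k ∈ G.sg → G.d x = k ∧ IsLc G N u₀ y x 1 ∧ (k = 0 → x = 1) := by
    intro k
    by_cases hk : k ∈ G.sg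
    · rcases eq_or_ne k 0 with rfl | h0
      · exact ⟨1, fun _ => ⟨G.one, lc_one, fun _ => rfl⟩⟩
      · obtain ⟨x, hx⟩ := hk
        obtain ⟨c, hc, hl⟩ := exists_lc hu₀ hy (G.ne_zero hx)
        refine ⟨c⁻¹ • x, fun _ => ⟨by rw [G.smul (inv_ne_zero hc), hx], ?_, fun h => absurd h h0⟩⟩
        have h := lc_smul hl (inv_ne_zero hc)
        rwa [inv_mul_cancel₀ hc] at h
    · exact ⟨0, fun h => absurd h hk⟩
  choose b hb using hb0
  set s : ℕ → ℕ := fun m => sInf {k | k ∈ G.sg ∧ k ≡ m [MOD N]} with hs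
  have s_ne : ∀ m, {k | k ∈ G.sg ∧ k ≡ m [MOD N]}.Nonempty := fun m =>
    ⟨m + N * n₀, htail _ (by nlinarith), Nat.add_mul_mod_self_left m N n₀⟩
  have s_mem : ∀ m, s m ∈ G.sg ∧ s m ≡ m [MOD N] := fun m => Nat.sInf_mem (s_ne m)
  have s_congr : ∀ m m', m ≡ m' [MOD N] → s m = s m' := by
    intro m m' h
    have e : {k | k ∈ G.sg ∧ k ≡ m [MOD N]} = {k | k ∈ G.sg ∧ k ≡ m' [MOD N]} := by
      ext k
      exact and_congr_right fun _ => ⟨fun h1 => h1.trans h, fun h1 => h1.trans h.symm⟩
    simp only [hs, e]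
  have s_le : ∀ m, m ∈ G.sg → s m ≤ m := fun m hm => Nat.sInf_le ⟨hm, rfl⟩
  set q : ℕ → ℕ := fun m => (m - s m) / N with hq
  have q_eq : ∀ m, m ∈ G.sg → s m + N * q m = m := by
    intro m hm
    have h1 : N ∣ m - s m := (Nat.modEq_iff_dvd' (s_le m hm)).1 (s_mem m).2
    have h2 : N * ((m - s m) / N) = m - s m := Nat.mul_div_cancel' h1
    have h3 := s_le m hm
    change s m + N * ((m - s m) / N) = m
    omega
  have hNsg : N ∈ G.sg := ⟨u, hdu⟩
  have sN : ∀ m, s (m + N) = s m := fun m => s_congr _ _ (Nat.add_modEq_right)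
  have qN : ∀ m, m ∈ G.sg → q (m + N) = q m + 1 := by
    intro m hm
    have h3 := s_le m hm
    change (m + N - s (m + N)) / N = (m - s m) / N + 1
    rw [sN]
    have h4 : m + N - s m = (m - s m) + N := by omega
    rw [h4, Nat.add_div_right _ (by omega)]
  have ss : ∀ m, s (s m) = s m := fun m => s_congr _ _ (s_mem m).2
  have qs : ∀ m, q (s m) = 0 := by
    intro m
    change (s m - s (s m)) / N = 0
    rw [ss, Nat.sub_self, Nat.zero_div]
  have s0 : s 0 = 0 := Nat.le_zero.1 (s_le 0 G.sg.zero_mem)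
  have q0 : q 0 = 0 := by
    have := qs 0
    rwa [s0] at this
  let e : G.sg → A := fun m => u ^ q m * b (s m)
  have he : ∀ m : G.sg, G.d (e m) = (m : ℕ) := by
    intro m
    change G.d (u ^ q m * b (s m)) = _
    rw [G.mul, G.pow hdu, (hb _ (s_mem m).1).1, ← Nat.cast_add]
    congr 1
    have := q_eq m m.2
    omega
  have hl : ∀ m : G.sg, IsLc G N u₀ y (e m) 1 := by
    intro m
    have h := lc_mul hu₀ hy (lc_pow hu₀ hy hlu1 (q m)) (hb _ (s_mem m).1).2.1
    rwa [mul_one] at h
  have h1 : e 0 = 1 := by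
    change u ^ q ((0 : G.sg) : ℕ) * b (s ((0 : G.sg) : ℕ)) = 1
    have e0 : ((0 : G.sg) : ℕ) = 0 := rfl
    rw [e0, q0, s0, pow_zero, one_mul]
    exact (hb 0 G.sg.zero_mem).2.2 rfl
  have ht : ∀ m n : G.sg, G.d (e m * e n - e (m + n)) < ((m : ℕ) + n : ℕ) := by
    intro m n
    have h2 := lc_mul hu₀ hy (hl m) (hl n)
    rw [mul_one] at h2
    refine lc_sub hu₀ h2 (hl (m + n)) ?_ (he (m + n))
    rw [G.mul, he, he, ← Nat.cast_add]
  set T : Mt K A := G.mt e he h1 ht with hT
  have hTe : ∀ k : G.sg, T.e k = e k := G.mt_e e he h1 ht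
  let N' : T.S := (⟨N, hNsg⟩ : G.sg)
  have hue : ∀ k : G.sg, u * e k = e (k + ⟨N, hNsg⟩) := by
    intro k
    change u * (u ^ q k * b (s k)) = u ^ q ((k : ℕ) + N) * b (s ((k : ℕ) + N))
    rw [sN, qN _ k.2, pow_succ]
    ring
  have hes : ∀ m, e ⟨s m, (s_mem m).1⟩ = b (s m) := by
    intro m
    change u ^ q (s m) * b (s (s m)) = b (s m)
    rw [qs, ss, pow_zero, one_mul]
  have heu : e ⟨N, hNsg⟩ = u := by
    have h := hue 0
    rw [h1, mul_one, zero_add] at h
    exact h.symm
  have smod : ∀ m, s m = s (m % N) := fun m => s_congr _ _ (Nat.mod_modEq m N).symm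
  have hNpos : 0 < N := by omega
  have hTe' : ∀ k : T.S, T.e k = u ^ q k * b (s k) := hTe
  have hueT : ∀ k : T.S, u * T.e k = T.e (k + N') := fun k =>
    (congrArg (fun x => u * x) (hTe k)).trans ((hue k).trans (hTe _).symm)
  refine ⟨T, (Finset.range N ×ˢ Finset.range N).biUnion fun p =>
      (T.e.repr (b (s p.1) * b (s p.2))).support.image fun k => T.e.repr (b (s p.1) * b (s p.2)) k,
    insert N' ((Finset.range N).image fun r => (⟨s r, (s_mem r).1⟩ : T.S)),
    fun x => G.mt_d e he h1 ht x, ?_, ?_⟩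
  · intro B hB
    have hbb : ∀ m n : ℕ, ∀ k, T.e.repr (b (s m) * b (s n)) k ∈ B := by
      intro m n k
      by_cases hk : T.e.repr (b (s m) * b (s n)) k = 0
      · rw [hk]; exact B.zero_mem
      · refine hB _ ?_
        rw [Finset.mem_biUnion]
        refine ⟨(m % N, n % N), Finset.mem_product.2 ⟨Finset.mem_range.2 (Nat.mod_lt _ hNpos),
          Finset.mem_range.2 (Nat.mod_lt _ hNpos)⟩, ?_⟩
        rw [Finset.mem_image]
        dsimp only
        rw [← smod m, ← smod n]
        exact ⟨k, Finsupp.mem_support_iff.2 hk, rfl⟩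
    have hshift : ∀ x, T.e.repr (u * x) = Finsupp.mapDomain (fun k : T.S => k + N')
        (T.e.repr x) := by
      intro x
      have hlin : T.e.repr.toLinearMap ∘ₗ (LinearMap.mulLeft K u) =
          (Finsupp.lmapDomain K K (fun k : T.S => k + N')) ∘ₗ T.e.repr.toLinearMap := by
        refine T.e.ext fun k => ?_
        change T.e.repr (u * T.e k) = Finsupp.mapDomain _ (T.e.repr (T.e k))
        rw [T.e.repr_self, Finsupp.mapDomain_single, hueT, T.e.repr_self]
      exact LinearMap.congr_fun hlin x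
    have hu1 : ∀ x, (∀ k, T.e.repr x k ∈ B) → ∀ k, T.e.repr (u * x) k ∈ B := by
      intro x hx k
      rw [hshift]
      by_cases hk : k ∈ Set.range fun k : T.S => k + N'
      · obtain ⟨k', rfl⟩ := hk
        have hinj : Function.Injective fun k : T.S => k + N' := fun a b hab => by
          have h3 : (a : ℕ) + N = b + N := congrArg (fun x : T.S => (x : ℕ)) hab
          exact Subtype.ext (by omega)
        rw [Finsupp.mapDomain_apply hinj]
        exact hx k'
      · rw [Finsupp.mapDomain_of_notMem_range _ _ hk]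
        exact B.zero_mem
    have hun : ∀ (j : ℕ) x, (∀ k, T.e.repr x k ∈ B) → ∀ k, T.e.repr (u ^ j * x) k ∈ B := by
      intro j
      induction j with
      | zero => intro x hx k; rw [pow_zero, one_mul]; exact hx k
      | succ j ih =>
        intro x hx k
        rw [pow_succ, mul_assoc]
        exact ih _ (hu1 x hx) k
    intro m n k
    have h2 : T.e m * T.e n = u ^ (q m + q n) * (b (s m) * b (s n)) := by
      rw [hTe', hTe', pow_add]
      ring
    rw [h2]
    exact hun _ _ (hbb m n) k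
  · intro R hR m
    have h2 : u ∈ R := by
      have h3 := hR N' (Finset.mem_insert_self _ _)
      have h4 : T.e N' = u := (hTe _).trans heu
      rwa [h4] at h3
    have h3 : b (s m) ∈ R := by
      have h4 := hR ⟨s (m % N), (s_mem (m % N)).1⟩ (Finset.mem_insert_of_mem (Finset.mem_image.2
        ⟨m % N, Finset.mem_range.2 (Nat.mod_lt _ hNpos), rfl⟩))
      have h5 : T.e ⟨s (m % N), (s_mem (m % N)).1⟩ = b (s m) := by
        refine (hTe _).trans ((hes _).trans ?_)
        rw [← smod]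
      rwa [h5] at h4
    rw [hTe']
    exact R.mul_mem (R.pow_mem h2 _) h3

end Dg

end CV
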