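import Pool.Agent.Lib.MP_f80667_ag.Pe.Zc
import Pool.Agent.Lib.MP_f80667_ag.Pe.Pv
import Pool.Agent.Lib.MP_f80667_ag.Pe.SiC
import Pool.Agent.Lib.MP_f80667_ag.Pe.SiB

/-!
Symbols of zero-cycles on a product of two sets with base points `o₁`, `o₂` on which the Galois group acts. Group theory.

* `px a b`: the product of the cycles `a` and `b`; `nr o a = a - deg a [o]`; `tx o₁ o₂ a b = nr o₁ a × nr o₂ b`.
* `scC R`: the symbols `{a, b}_M`, the classes modulo `R` of the traces of `tx o₁ o₂ a b` from `M` to `K`.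
-/

open ZC BE PE Polynomial

namespace CV

attribute [local instance] Finsupp.comapDistribMulAction

section px

variable {X Y : Type}

/-- The product of two cycles. -/
noncomputable def px : (X →₀ ℤ) →+ (Y →₀ ℤ) →+ (X × Y →₀ ℤ) :=
  Finsupp.liftAddHom fun x => zmultiplesHom _ (Finsupp.mapDomain.addMonoidHom fun y => (x, y))

theorem px_single (x : X) (m : ℤ) (b : Y →₀ ℤ) :
    px (Finsupp.single x m) b = m • Finsupp.mapDomain (fun y => (x, y)) b := by
  unfold px
  rw [Finsupp.liftAddHom_apply_single, zmultiplesHom_apply]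
  rfl

theorem px_single' (x : X) (y : Y) (m n : ℤ) :
    px (Finsupp.single x m) (Finsupp.single y n) = Finsupp.single (x, y) (m * n) := by
  rw [px_single, Finsupp.mapDomain_single, Finsupp.smul_single, smul_eq_mul]

/-- A cycle on `X × {y}`. -/
theorem px_right (a : X →₀ ℤ) (y : Y) :
    px a (Finsupp.single y 1) = Finsupp.mapDomain (fun x => (x, y)) a := by
  have h : (px.flip (Finsupp.single y 1) : (X →₀ ℤ) →+ (X × Y →₀ ℤ)) =
      Finsupp.mapDomain.addMonoidHom fun x => (x, y) := by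
    refine Finsupp.addHom_ext fun x m => ?_
    rw [AddMonoidHom.flip_apply, px_single', Finsupp.mapDomain.addMonoidHom_apply,
      Finsupp.mapDomain_single, mul_one]
  exact DFunLike.congr_fun h a

theorem px_left (x : X) (b : Y →₀ ℤ) :
    px (Finsupp.single x 1) b = Finsupp.mapDomain (fun y => (x, y)) b := by
  rw [px_single, one_smul]

/-- The product is natural. -/
theorem px_map {X' Y' : Type} (f : X → X') (g : Y → Y') (a : X →₀ ℤ) (b : Y →₀ ℤ) :
    Finsupp.mapDomain (fun z : X × Y => (f z.1, g z.2)) (px a b) =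
      px (Finsupp.mapDomain f a) (Finsupp.mapDomain g b) := by
  have h : ((AddMonoidHom.compHom (Finsupp.mapDomain.addMonoidHom
      (fun z : X × Y => (f z.1, g z.2)))).comp px : (X →₀ ℤ) →+ (Y →₀ ℤ) →+ (X' × Y' →₀ ℤ)) =
      (AddMonoidHom.compl₂ (px.comp (Finsupp.mapDomain.addMonoidHom f))
        (Finsupp.mapDomain.addMonoidHom g)) := by
    refine Finsupp.addHom_ext fun x m => ?_
    refine Finsupp.addHom_ext fun y n => ?_
    change Finsupp.mapDomain (fun z : X × Y => (f z.1, g z.2))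
      (px (Finsupp.single x m) (Finsupp.single y n)) =
      px (Finsupp.mapDomain f (Finsupp.single x m)) (Finsupp.mapDomain g (Finsupp.single y n))
    rw [px_single', Finsupp.mapDomain_single, Finsupp.mapDomain_single, Finsupp.mapDomain_single,
      px_single']
  exact DFunLike.congr_fun (DFunLike.congr_fun h a) b

theorem px_fst (a : X →₀ ℤ) (b : Y →₀ ℤ) : Finsupp.mapDomain Prod.fst (px a b) = dg b • a := by
  induction a using Finsupp.induction_linear with
  | zero => rw [map_zero, AddMonoidHom.zero_apply, Finsupp.mapDomain_zero, smul_zero]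
  | add a a' h h' => rw [map_add, AddMonoidHom.add_apply, Finsupp.mapDomain_add, h, h', smul_add]
  | single x m =>
    induction b using Finsupp.induction_linear with
    | zero => rw [map_zero, Finsupp.mapDomain_zero, map_zero, zero_smul]
    | add b b' h h' => rw [map_add, Finsupp.mapDomain_add, h, h', map_add, add_smul]
    | single y n =>
      rw [px_single', Finsupp.mapDomain_single, sib_dg_single, Finsupp.smul_single, smul_eq_mul,
        mul_comm]


theorem px_snd (a : X →₀ ℤ) (b : Y →₀ ℤ) : Finsupp.mapDomain Prod.snd (px a b) = dg a • b := by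
  induction a using Finsupp.induction_linear with
  | zero => rw [map_zero, AddMonoidHom.zero_apply, Finsupp.mapDomain_zero, map_zero, zero_smul]
  | add a a' h h' =>
    rw [map_add, AddMonoidHom.add_apply, Finsupp.mapDomain_add, h, h', map_add, add_smul]
  | single x m =>
    induction b using Finsupp.induction_linear with
    | zero => rw [map_zero, Finsupp.mapDomain_zero, smul_zero]
    | add b b' h h' => rw [map_add, Finsupp.mapDomain_add, h, h', smul_add]
    | single y n =>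
      rw [px_single', Finsupp.mapDomain_single, sib_dg_single, Finsupp.smul_single, smul_eq_mul]

/-- The cycle `a - deg a [o]`. -/
noncomputable def nr (o : X) : (X →₀ ℤ) →+ (X →₀ ℤ) :=
  AddMonoidHom.id _ - (zmultiplesHom (X →₀ ℤ) (Finsupp.single o 1)).comp dg

theorem nr_apply (o : X) (a : X →₀ ℤ) : nr o a = a - dg a • Finsupp.single o 1 := rfl

theorem dg_nr (o : X) (a : X →₀ ℤ) : dg (nr o a) = 0 := by
  rw [nr_apply, map_sub, map_zsmul, sib_dg_single, smul_eq_mul, mul_one, sub_self]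

theorem nr_eq {o : X} {a : X →₀ ℤ} (h : dg a = 0) : nr o a = a := by
  rw [nr_apply, h, zero_smul, sub_zero]

theorem nr_base (o : X) (m : ℤ) : nr o (Finsupp.single o m) = 0 := by
  rw [nr_apply, sib_dg_single, Finsupp.smul_single, smul_eq_mul, mul_one, sub_self]

theorem nr_map {X' : Type} (f : X → X') (o : X) (a : X →₀ ℤ) :
    Finsupp.mapDomain f (nr o a) = nr (f o) (Finsupp.mapDomain f a) := by
  rw [nr_apply, nr_apply, sib_dg_map]
  change Finsupp.mapDomain.addMonoidHom f _ = _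
  rw [map_sub, map_zsmul, Finsupp.mapDomain.addMonoidHom_apply,
    Finsupp.mapDomain.addMonoidHom_apply, Finsupp.mapDomain_single]

/-- The product of `a - deg a [o₁]` and `b - deg b [o₂]`. -/
noncomputable def tx (o₁ : X) (o₂ : Y) : (X →₀ ℤ) →+ (Y →₀ ℤ) →+ (X × Y →₀ ℤ) :=
  (px.comp (nr o₁)).compl₂ (nr o₂)

theorem tx_apply (o₁ : X) (o₂ : Y) (a : X →₀ ℤ) (b : Y →₀ ℤ) :
    tx o₁ o₂ a b = px (nr o₁ a) (nr o₂ b) := rfl

theorem tx_single (o₁ : X) (o₂ : Y) (x : X) (y : Y) :
    tx o₁ o₂ (Finsupp.single x 1) (Finsupp.single y 1) = Finsupp.single (x, y) 1 -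
      Finsupp.single (x, o₂) 1 - Finsupp.single (o₁, y) 1 + Finsupp.single (o₁, o₂) 1 := by
  rw [tx_apply, nr_apply, nr_apply, sib_dg_single, sib_dg_single, one_smul, one_smul, map_sub,
    map_sub, AddMonoidHom.sub_apply, AddMonoidHom.sub_apply, px_single', px_single', px_single',
    px_single', mul_one]
  abel

end px

section act

variable {Γ X Y : Type} [Group Γ] [MulAction Γ X] [MulAction Γ Y] {o₁ : X} {o₂ : Y}

theorem smul_tx {γ : Γ} (h₁ : γ • o₁ = o₁) (h₂ : γ • o₂ = o₂) (a : X →₀ ℤ) (b : Y →₀ ℤ) :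
    Finsupp.mapDomain (fun z : X × Y => γ • z) (tx o₁ o₂ a b) = tx o₁ o₂ (γ • a) (γ • b) := by
  have e : (fun z : X × Y => γ • z) = fun z => (γ • z.1, γ • z.2) := rfl
  rw [e, tx_apply, tx_apply, px_map, nr_map, nr_map, h₁, h₂]
  rfl

end act

section sc

variable {K Ω : Type} [Field K] [CharZero K] [Field Ω] [Algebra K Ω] [IsAlgClosure K Ω]
  {X Y : Type} [MulAction (Ω ≃ₐ[K] Ω) X] [MulAction (Ω ≃ₐ[K] Ω) Y] {o₁ : X} {o₂ : Y}

omit [CharZero K] [IsAlgClosure K Ω] in
theorem cy_fin {M N : IntermediateField K Ω} (h : M ≤ N) [FiniteDimensional K N] :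
    FiniteDimensional K M :=
  FiniteDimensional.of_injective (IntermediateField.inclusion h).toLinearMap
    (IntermediateField.inclusion_injective h)

/-- The trace from `N` is the trace from `M` of the sum over the cosets. -/
theorem trG_nm {Z : Type} [MulAction (Ω ≃ₐ[K] Ω) Z] {M N : IntermediateField K Ω} (h : M ≤ N)
    [FiniteDimensional K N] {z : Z →₀ ℤ} (hz : Fx N z) :
    trG Z N.fixingSubgroup z = trG Z M.fixingSubgroup (Nm M N z) :=
  trG_tr (opn_fin _ (opn_fix N)) (fix_le h) hz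

omit [CharZero K] [IsAlgClosure K Ω] in
theorem tx_fx {M : IntermediateField K Ω} (ho₁ : ∀ γ : Ω ≃ₐ[K] Ω, γ • o₁ = o₁)
    (ho₂ : ∀ γ : Ω ≃ₐ[K] Ω, γ • o₂ = o₂) {a : X →₀ ℤ} {b : Y →₀ ℤ} (ha : Fx M a) (hb : Fx M b) :
    Fx M (tx o₁ o₂ a b) := by
  intro γ hγ
  change Finsupp.mapDomain (fun z : X × Y => γ • z) (tx o₁ o₂ a b) = _
  rw [smul_tx (ho₁ γ) (ho₂ γ), ha γ hγ, hb γ hγ]

theorem tx_nm₁ {M N : IntermediateField K Ω} (h : M ≤ N) [FiniteDimensional K N]
    (ho₁ : ∀ γ : Ω ≃ₐ[K] Ω, γ • o₁ = o₁) (ho₂ : ∀ γ : Ω ≃ₐ[K] Ω, γ • o₂ = o₂) {a : X →₀ ℤ}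
    {b : Y →₀ ℤ} (hb : Fx M b) : Nm M N (tx o₁ o₂ a b) = tx o₁ o₂ (Nm M N a) b := by
  obtain ⟨s, -, h₁, -, h₃⟩ := nm_rep (K := K) (Ω := Ω) h
  rw [h₃, h₃, map_sum, AddMonoidHom.finsetSum_apply]
  refine Finset.sum_congr rfl fun γ hγ => ?_
  change Finsupp.mapDomain (fun z : X × Y => γ • z) (tx o₁ o₂ a b) = _
  rw [smul_tx (ho₁ γ) (ho₂ γ), hb γ (h₁ γ hγ)]

theorem tx_nm₂ {M N : IntermediateField K Ω} (h : M ≤ N) [FiniteDimensional K N]
    (ho₁ : ∀ γ : Ω ≃ₐ[K] Ω, γ • o₁ = o₁) (ho₂ : ∀ γ : Ω ≃ₐ[K] Ω, γ • o₂ = o₂) {a : X →₀ ℤ}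
    {b : Y →₀ ℤ} (ha : Fx M a) : Nm M N (tx o₁ o₂ a b) = tx o₁ o₂ a (Nm M N b) := by
  obtain ⟨s, -, h₁, -, h₃⟩ := nm_rep (K := K) (Ω := Ω) h
  rw [h₃, h₃, map_sum]
  refine Finset.sum_congr rfl fun γ hγ => ?_
  change Finsupp.mapDomain (fun z : X × Y => γ • z) (tx o₁ o₂ a b) = _
  rw [smul_tx (ho₁ γ) (ho₂ γ), ha γ (h₁ γ hγ)]

/-- The symbols modulo `R`. -/
noncomputable def scC (o₁ : X) (o₂ : Y) (ho₁ : ∀ γ : Ω ≃ₐ[K] Ω, γ • o₁ = o₁)
    (ho₂ : ∀ γ : Ω ≃ₐ[K] Ω, γ • o₂ = o₂) (R : AddSubgroup (X × Y →₀ ℤ)) :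
    Sc K Ω (X →₀ ℤ) (Y →₀ ℤ) ((X × Y →₀ ℤ) ⧸ R) where
  sy M a b := QuotientAddGroup.mk' R (trG (X × Y) M.fixingSubgroup (tx o₁ o₂ a b))
  add₁ M _ a a' b _ _ _ := by rw [map_add, AddMonoidHom.add_apply, map_add, map_add]
  add₂ M _ a b b' _ _ _ := by rw [map_add, map_add, map_add]
  nm₁ M N _ a b h ha hb := by
    rw [trG_nm h (tx_fx ho₁ ho₂ ha (hb.mono h)), tx_nm₁ h ho₁ ho₂ hb]
  nm₂ M N _ a b h ha hb := by
    rw [trG_nm h (tx_fx ho₁ ho₂ (ha.mono h) hb), tx_nm₂ h ho₁ ho₂ ha]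

/-- The field of definition of a point over `M`. -/
theorem cy_fld (hX : ∀ x : X, ∃ M : IntermediateField K Ω, FiniteDimensional K M ∧
      ∀ γ ∈ M.fixingSubgroup, γ • x = x) (M : IntermediateField K Ω) [FiniteDimensional K M]
    (x : X) : ∃ N : IntermediateField K Ω, FiniteDimensional K N ∧ M ≤ N ∧
      ∀ γ ∈ M.fixingSubgroup, γ • x = x ↔ γ ∈ N.fixingSubgroup := by
  obtain ⟨M₁, hM₁, h₁⟩ := hX x
  have hop : opn K Ω (M.fixingSubgroup ⊓ MulAction.stabilizer (Ω ≃ₐ[K] Ω) x) := by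
    refine ⟨M ⊔ M₁, inferInstance, le_inf (fix_le le_sup_left) ?_⟩
    intro γ hγ
    rw [MulAction.mem_stabilizer_iff]
    exact h₁ γ (fix_le le_sup_right hγ)
  obtain ⟨N, hN, hN'⟩ := exists_fix hop
  refine ⟨N, hN, le_of_fix_le (hN'.le.trans inf_le_left), fun γ hγ => ?_⟩
  rw [hN', Subgroup.mem_inf, MulAction.mem_stabilizer_iff]
  exact ⟨fun h => ⟨hγ, h⟩, fun h => h.2⟩

/-- Invariant cycles are combinations of traces of points. -/
theorem cy_gen (hX : ∀ x : X, ∃ M : IntermediateField K Ω, FiniteDimensional K M ∧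
      ∀ γ ∈ M.fixingSubgroup, γ • x = x) (M : IntermediateField K Ω) [FiniteDimensional K M]
    {a : X →₀ ℤ} (ha : Fx M a) :
    a ∈ AddSubgroup.closure {z : X →₀ ℤ | ∃ (N : IntermediateField K Ω) (x : X),
      FiniteDimensional K N ∧ M ≤ N ∧ x ∈ a.support ∧ (∀ γ ∈ N.fixingSubgroup, γ • x = x) ∧
        z = Nm M N (Finsupp.single x 1)} := by
  classical
  suffices H : ∀ (n : ℕ) (b : X →₀ ℤ), b.support ⊆ a.support → Fx M b → b.support.card = n →
      b ∈ AddSubgroup.closure {z : X →₀ ℤ | ∃ (N : IntermediateField K Ω) (x : X),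
      FiniteDimensional K N ∧ M ≤ N ∧ x ∈ a.support ∧ (∀ γ ∈ N.fixingSubgroup, γ • x = x) ∧
        z = Nm M N (Finsupp.single x 1)} from H _ a Finset.Subset.rfl ha rfl
  intro n
  induction n using Nat.strong_induction_on with
  | _ n ih =>
    intro b hba hb hn
    by_cases h0 : b = 0
    · rw [h0]
      exact zero_mem _
    · obtain ⟨x, hx⟩ := Finsupp.support_nonempty_iff.2 h0
      obtain ⟨N, hN, hMN, hfix⟩ := cy_fld hX M x
      have hfix' : ∀ γ ∈ N.fixingSubgroup, γ • x = x := fun γ hγ =>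
        (hfix γ (fix_le hMN hγ)).2 hγ
      have hsx : Fx N (Finsupp.single x (1 : ℤ)) := fun γ hγ => by
        change Finsupp.mapDomain (fun z : X => γ • z) _ = _
        rw [Finsupp.mapDomain_single, hfix' γ hγ]
      -- the values of `b` on the orbit
      have hval : ∀ γ ∈ M.fixingSubgroup, b (γ • x) = b x := by
        intro γ hγ
        have h1 : Finsupp.mapDomain (fun z : X => γ • z) b = b := hb γ hγ
        calc b (γ • x) = Finsupp.mapDomain (fun z : X => γ • z) b (γ • x) := by rw [h1]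
          _ = b x := Finsupp.mapDomain_apply (MulAction.injective γ) b x
      obtain ⟨s, -, h₁, h₂, h₃⟩ := nm_rep (K := K) (Ω := Ω) hMN
      have hnm : Nm M N (Finsupp.single x (1 : ℤ)) =
          ∑ y ∈ s.image (fun γ => γ • x), Finsupp.single y 1 := by
        rw [h₃, Finset.sum_image]
        · refine Finset.sum_congr rfl fun γ _ => ?_
          change Finsupp.mapDomain (fun z : X => γ • z) _ = _
          rw [Finsupp.mapDomain_single]
        · intro γ hγ δ hδ he
          rw [Finset.mem_coe] at hγ hδ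
          dsimp only at he
          have h4 : γ⁻¹ * δ ∈ N.fixingSubgroup := by
            refine (hfix _ (M.fixingSubgroup.mul_mem (M.fixingSubgroup.inv_mem (h₁ γ hγ))
              (h₁ δ hδ))).1 ?_
            rw [mul_smul, ← he, inv_smul_smul]
          have h5 : δ⁻¹ * δ ∈ N.fixingSubgroup := by
            rw [inv_mul_cancel]
            exact N.fixingSubgroup.one_mem
          exact (h₂ δ (h₁ δ hδ)).unique ⟨hγ, h4⟩ ⟨hδ, h5⟩
      have happ : ∀ y, Nm M N (Finsupp.single x (1 : ℤ)) y =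
          if y ∈ s.image (fun γ => γ • x) then 1 else 0 := by
        intro y
        rw [hnm, Finsupp.finsetSum_apply]
        simp only [Finsupp.single_apply]
        rw [Finset.sum_ite_eq']
      have hxs : x ∈ s.image (fun γ => γ • x) := by
        obtain ⟨δ, ⟨hδ, hδ'⟩, -⟩ := h₂ 1 M.fixingSubgroup.one_mem
        rw [mul_one] at hδ'
        refine Finset.mem_image.2 ⟨δ, hδ, ?_⟩
        have h4 := hfix' _ hδ'
        rwa [inv_smul_eq_iff, eq_comm] at h4
      have hys : ∀ y ∈ s.image (fun γ => γ • x), b y = b x := by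
        intro y hy
        obtain ⟨γ, hγ, rfl⟩ := Finset.mem_image.1 hy
        exact hval γ (h₁ γ hγ)
      have hb' : Fx M (b - b x • Nm M N (Finsupp.single x (1 : ℤ))) := by
        refine hb.sub fun γ hγ => ?_
        rw [smul_comm, nm_fx hMN hsx γ hγ]
      have hb'app : ∀ y, (b - b x • Nm M N (Finsupp.single x (1 : ℤ))) y =
          if y ∈ s.image (fun γ => γ • x) then 0 else b y := by
        intro y
        rw [Finsupp.sub_apply, Finsupp.smul_apply, happ]
        split_ifs with h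
        · rw [hys y h, smul_eq_mul, mul_one, sub_self]
        · rw [smul_zero, sub_zero]
      have hsub : (b - b x • Nm M N (Finsupp.single x (1 : ℤ))).support ⊆ b.support := by
        intro y hy
        rw [Finsupp.mem_support_iff, hb'app] at hy
        rw [Finsupp.mem_support_iff]
        intro h
        rw [h, ite_self] at hy
        exact hy rfl
      have hcard : (b - b x • Nm M N (Finsupp.single x (1 : ℤ))).support.card < n := by
        rw [← hn]
        refine Finset.card_lt_card ((Finset.ssubset_iff_of_subset hsub).2 ⟨x, hx, ?_⟩)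
        rw [Finsupp.mem_support_iff, hb'app, if_pos hxs]
        exact fun h => h rfl
      have h6 := ih _ hcard _ (hsub.trans hba) hb' rfl
      have h7 := AddSubgroup.subset_closure (k := {z : X →₀ ℤ |
        ∃ (N : IntermediateField K Ω) (x : X), FiniteDimensional K N ∧ M ≤ N ∧ x ∈ a.support ∧
          (∀ γ ∈ N.fixingSubgroup, γ • x = x) ∧ z = Nm M N (Finsupp.single x 1)})
        ⟨N, x, hN, hMN, hba hx, hfix', rfl⟩
      have h8 := add_mem h6 (zsmul_mem h7 (b x))
      rwa [sub_add_cancel] at h8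

/-- The symbols of principal cycles vanish: `P N` are cycles of degree `0` such that their products with the points over `N`
have traces in `R`. -/
theorem sy_zero₁ (ho₁ : ∀ γ : Ω ≃ₐ[K] Ω, γ • o₁ = o₁) (ho₂ : ∀ γ : Ω ≃ₐ[K] Ω, γ • o₂ = o₂)
    {R : AddSubgroup (X × Y →₀ ℤ)}
    (hY : ∀ y : Y, ∃ M : IntermediateField K Ω, FiniteDimensional K M ∧
      ∀ γ ∈ M.fixingSubgroup, γ • y = y)
    (P : IntermediateField K Ω → AddSubgroup (X →₀ ℤ)) (hmono : ∀ M N, M ≤ N → P M ≤ P N)
    (hfx : ∀ M, ∀ a ∈ P M, Fx M a) (hdg : ∀ M, ∀ a ∈ P M, dg a = 0)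
    (hR : ∀ N : IntermediateField K Ω, FiniteDimensional K N → ∀ a ∈ P N, ∀ y : Y,
      (∀ γ ∈ N.fixingSubgroup, γ • y = y) →
        trG (X × Y) N.fixingSubgroup (Finsupp.mapDomain (fun x => (x, y)) a) ∈ R)
    (M : IntermediateField K Ω) [FiniteDimensional K M] {a : X →₀ ℤ} (ha : a ∈ P M) {b : Y →₀ ℤ}
    (hb : Fx M b) : (scC o₁ o₂ ho₁ ho₂ R).sy M a b = 0 := by
  have key : ∀ N : IntermediateField K Ω, FiniteDimensional K N → M ≤ N → ∀ y : Y,
      (∀ γ ∈ N.fixingSubgroup, γ • y = y) →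
        (scC o₁ o₂ ho₁ ho₂ R).sy N a (Finsupp.single y 1) = 0 := by
    intro N hN hMN y hy
    change QuotientAddGroup.mk' R (trG (X × Y) N.fixingSubgroup _) = 0
    refine (QuotientAddGroup.eq_zero_iff _).2 ?_
    rw [tx_apply, nr_eq (hdg M a ha), nr_apply, sib_dg_single, one_smul, map_sub, map_sub,
      px_right, px_right]
    exact R.sub_mem (hR N hN a (hmono M N hMN ha) y hy)
      (hR N hN a (hmono M N hMN ha) o₂ fun γ _ => ho₂ γ)
  have h := cy_gen hY M hb
  -- the symbol is additive on the invariant cycles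
  have hcl : b ∈ (AddSubgroup.closure {z : Y →₀ ℤ | Fx M z ∧
      (scC o₁ o₂ ho₁ ho₂ R).sy M a z = 0}) := by
    refine AddSubgroup.closure_mono ?_ h
    rintro _ ⟨N, y, hN, hMN, -, hy, rfl⟩
    have hsy : Fx N (Finsupp.single y (1 : ℤ)) := fun γ hγ => by
      change Finsupp.mapDomain (fun z : Y => γ • z) _ = _
      rw [Finsupp.mapDomain_single, hy γ hγ]
    refine ⟨nm_fx hMN hsy, ?_⟩
    rw [← (scC o₁ o₂ ho₁ ho₂ R).nm₂ M N a _ hMN (hfx M a ha) hsy]
    exact key N hN hMN y hy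
  have key2 : ∀ b' ∈ AddSubgroup.closure {z : Y →₀ ℤ | Fx M z ∧
      (scC o₁ o₂ ho₁ ho₂ R).sy M a z = 0}, Fx M b' ∧ (scC o₁ o₂ ho₁ ho₂ R).sy M a b' = 0 := by
    intro b' hb'
    induction hb' using AddSubgroup.closure_induction with
    | mem z hz => exact hz
    | zero =>
      refine ⟨Fx.zero, ?_⟩
      change QuotientAddGroup.mk' R (trG (X × Y) M.fixingSubgroup _) = 0
      rw [map_zero, map_zero, map_zero]
    | add z z' _ _ h h' =>
      refine ⟨h.1.add h'.1, ?_⟩
      rw [(scC o₁ o₂ ho₁ ho₂ R).add₂ M a z z' (hfx M a ha) h.1 h'.1, h.2, h'.2, add_zero]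
    | neg z _ h =>
      refine ⟨h.1.neg, ?_⟩
      have h1 := (scC o₁ o₂ ho₁ ho₂ R).add₂ M a z (-z) (hfx M a ha) h.1 h.1.neg
      rw [add_neg_cancel, h.2, zero_add] at h1
      rw [← h1]
      change QuotientAddGroup.mk' R (trG (X × Y) M.fixingSubgroup _) = 0
      rw [map_zero, map_zero, map_zero]
  exact (key2 b hcl).2

end sc

end CV
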