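import Pool.Agent.Lib.MP_f80667_ag.Cv.Ct4
import Pool.Agent.Lib.MP_f80667_ag.Cv.Rp0
import Pool.Agent.Lib.MP_f80667_ag.Cv.MdF

/-!
An integral prime ideal of the generic fibre is above one closed point of the special fibre.
-/

open IsLocalRing

namespace CV

namespace Md

variable {V L k S SL Sk : Type} [CommRing V] [IsDomain V] [IsDiscreteValuationRing V] [Field L]
  [Field k] [Algebra V L] [IsFractionRing V L] [Algebra V k] [CommRing S] [CommRing SL]
  [CommRing Sk] [Algebra V S] [Algebra L SL] [Algebra k Sk] (M : Md V L k S SL Sk)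

/-- An integral prime ideal of the generic fibre is above exactly one closed point of the special fibre. Proof: `C = S / comap i P` is a domain, finite over the complete discrete valuation ring
`V` (`quot_fin`). Existence of `N`: `C ≠ 0`, so `C / mC ≠ 0` by Nakayama (the maximal ideals of `C` contain `m`, because `C` is integral over `V`). Uniqueness: if `C` has two different maximal ideals then
`C / π C` has an idempotent `≠ 0, 1` modulo the nilradical, hence one (`exists_isIdempotentElem_eq_of_ker_isNilpotent`) which lifts to an idempotent of `C` (`IsAdicComplete.henselianRing`, the polynomial `X ^ 2 - X`, see the private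
lemmas of `Ct4.lean`, `Ct4.crt` etc.); but `C` is a domain. -/
theorem int_cs [IsAdicComplete (maximalIdeal V) V] {P : Ideal SL} (hP : P.IsPrime) (h : M.Int P) :
    ∃ N : Ideal S, Cs V N ∧ P.comap M.i ≤ N ∧ ∀ N' : Ideal S, Cs V N' → P.comap M.i ≤ N' →
      N' = N := by
  obtain ⟨u, n, hu, huP⟩ := h
  have hJ : (P.comap M.i).IsPrime := Ideal.comap_isPrime M.i P
  have huJ : u ∈ P.comap M.i := huP
  obtain ⟨N, hN, hJN⟩ := Ideal.exists_le_maximal _ hJ.ne_top
  have hNC : Cs V N := M.cs_of_ut hu hN (hJN huJ)
  refine ⟨N, hNC, hJN, ?_⟩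
  intro N' hN' hJN'
  by_contra hne
  obtain ⟨e, he, heN, he'⟩ := M.exists_idem (T := {N}) (Set.finite_singleton N)
    (by rintro Q rfl; exact hNC) hu
  have h1 : Ideal.span {u} ≤ P.comap M.i := (Ideal.span_singleton_le_iff_mem _).2 huJ
  have h2 : e * (e - 1) ∈ P.comap M.i := by
    have h3 := h1 he
    have h4 : e * e - e = e * (e - 1) := by ring
    rwa [h4] at h3
  rcases hJ.mem_or_mem h2 with h3 | h3
  · exact heN N rfl (hJN h3)
  · have h4 : e ∈ N' := he' N' hN' hne (hJN' huJ)
    apply hN'.1.ne_top
    rw [Ideal.eq_top_iff_one]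
    have h5 := N'.sub_mem h4 (hJN' h3)
    rwa [sub_sub_cancel] at h5

end Md

end CV
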