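import Pool.Agent.Lib.MP_f80667_ag.Cv.Tp0
import Pool.Agent.Lib.MP_f80667_ag.Cv.Ct7
import Pool.Agent.Lib.MP_f80667_ag.Cv.Sat
import Pool.Agent.Lib.MP_f80667_ag.Cv.Fz3

/-!
The part of an ideal of the generic fibre above a finite set `T` of closed points of the special fibre.
-/

open IsLocalRing

namespace CV

section

variable {S : Type} [CommRing S]

/-- The submonoid of the elements outside all ideals of `T`. -/
def stm {T : Set (Ideal S)} (hT : ∀ N ∈ T, N.IsPrime) : Submonoid S where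
  carrier := St T
  one_mem' := st_one hT
  mul_mem' := st_mul hT

theorem mem_stm {T : Set (Ideal S)} {hT : ∀ N ∈ T, N.IsPrime} {s : S} : s ∈ stm hT ↔ s ∈ St T :=
  Iff.rfl

/-- Prime avoidance: `T` is finite. If `{s | s a ∈ (b)}` is not contained in an ideal of `T` then it contains an element outside of
all ideals of `T`. -/
theorem As.glue {T : Set (Ideal S)} (hf : T.Finite) (hT : ∀ N ∈ T, N.IsPrime) {a b : S}
    (h : ∀ N ∈ T, ∃ s, s ∉ N ∧ ∃ y, s * a = b * y) : ∃ s ∈ St T, ∃ y, s * a = b * y := by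
  let J : Ideal S :=
    { carrier := {c | ∃ y, c * a = b * y}
      zero_mem' := ⟨0, by ring⟩
      add_mem' := by
        rintro c d ⟨u, h⟩ ⟨u', h'⟩
        exact ⟨u + u', by linear_combination h + h'⟩
      smul_mem' := by
        rintro e c ⟨u, h⟩
        exact ⟨e * u, by rw [smul_eq_mul]; linear_combination e * h⟩ }
  by_contra hcon
  push Not at hcon
  have h1 : (J : Set S) ⊆ ⋃ N ∈ ((hf.toFinset : Finset (Ideal S)) : Set (Ideal S)),
      ((fun N : Ideal S => N) N : Set S) := by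
    intro c hc
    obtain ⟨y, hy⟩ := hc
    by_contra hcu
    refine hcon c ?_ y hy
    intro N hN hcN
    apply hcu
    rw [Set.mem_iUnion₂]
    exact ⟨N, by simpa using hN, hcN⟩
  rw [Ideal.subset_union_prime ⊤ ⊤ (fun N hN _ _ => hT N (by simpa using hN))] at h1
  obtain ⟨N, hN, hJN⟩ := h1
  obtain ⟨s, hs, y, hy⟩ := h N (by simpa using hN)
  exact hs (hJN ⟨y, hy⟩)

/-- Elements of a domain which are associated at every `N ∈ T` are associated at `T`. Proof: `As.glue` twice: `s a = b y`, `s' b = a y'`, so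
`s s' = y y'` and `y ∈ St T` (`ct7_as_of_It`). -/
theorem As.of_all [IsDomain S] {T : Set (Ideal S)} (hf : T.Finite) (hT : ∀ N ∈ T, N.IsPrime)
    {a b : S} (ha : a ≠ 0) (h : ∀ N ∈ T, As {N} a b) : As T a b := by
  have h1 : ∃ s ∈ St T, ∃ y, s * a = b * y := by
    refine As.glue hf hT fun N hN => ?_
    obtain ⟨s, hs, s', hs', e⟩ := h N hN
    exact ⟨s, hs N rfl, s', by rw [e, mul_comm]⟩
  have h2 : ∃ s ∈ St T, ∃ y, s * b = a * y := by
    refine As.glue hf hT fun N hN => ?_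
    obtain ⟨s, hs, s', hs', e⟩ := h N hN
    exact ⟨s', hs' N rfl, s, by rw [← e, mul_comm]⟩
  exact Md.ct7_as_of_It hT ha h1 h2

end

namespace Md

variable {V L k S SL Sk : Type} [CommRing V] [IsDomain V] [IsDiscreteValuationRing V] [Field L]
  [Field k] [Algebra V L] [IsFractionRing V L] [Algebra V k] [CommRing S] [CommRing SL]
  [CommRing Sk] [Algebra V S] [Algebra L SL] [Algebra k Sk] (M : Md V L k S SL Sk)

/-- `Eqv` for a larger set: `a`, `b` are units at the new points. Proof: at the points of `T'` outside of `T` the elements `x`, `y` are associated, and `a`, `b` are outside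
of the ideal; `As.of_all`. -/
theorem eqv_mono {T T' : Set (Ideal S)} (hf : T'.Finite) (hC : ∀ N ∈ T', Cs V N) (h : T ⊆ T')
    {a b : S} (ha : a ≠ 0) (hab : ∀ N ∈ T', N ∉ T → a ∉ N ∧ b ∉ N) (he : M.Eqv T a b) :
    M.Eqv T' a b := by
  have := M.dom
  obtain ⟨x, y, n, hx, hy, h1, h2⟩ := he
  have hT' : ∀ N ∈ T', N.IsPrime := fun N hN => (hC N hN).1.isPrime
  refine ⟨x, y, n, hx, hy, ?_, fun N hN hNT => h2 N hN fun hNT' => hNT (h hNT')⟩
  refine As.of_all hf hT' (mul_ne_zero ha (M.ut_ne hy)) fun N hN => ?_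
  by_cases hNT : N ∈ T
  · exact h1.mono (Set.singleton_subset_iff.2 hNT)
  · obtain ⟨haN, hbN⟩ := hab N hN hNT
    obtain ⟨s, hs, s', hs', e⟩ := h2 N (hC N hN) hNT
    have hNp := hT' N hN
    refine ⟨b * s', ?_, a * s, ?_, by linear_combination (- a * b) * e⟩
    · rintro Q rfl hQ
      exact (hNp.mem_or_mem hQ).elim hbN (hs' _ rfl)
    · rintro Q rfl hQ
      exact (hNp.mem_or_mem hQ).elim haN (hs _ rfl)

/-- The part of the ideal `I` of the generic fibre above `T`. -/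
def tp {T : Set (Ideal S)} (hT : ∀ N ∈ T, N.IsPrime) (I : Ideal SL) : Ideal SL :=
  satI ((stm hT).map M.i) I

theorem mem_tp {T : Set (Ideal S)} {hT : ∀ N ∈ T, N.IsPrime} {I : Ideal SL} {x : SL} :
    x ∈ M.tp hT I ↔ ∃ s ∈ St T, M.i s * x ∈ I := by
  constructor
  · rintro ⟨_, ⟨s, hs, rfl⟩, h⟩
    exact ⟨s, hs, h⟩
  · rintro ⟨s, hs, h⟩
    exact ⟨M.i s, ⟨s, hs, rfl⟩, h⟩

theorem tp_as {T : Set (Ideal S)} (hT : ∀ N ∈ T, N.IsPrime) {a b : S} (h : As T a b) :
    M.tp hT (Ideal.span {M.i a}) = M.tp hT (Ideal.span {M.i b}) := by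
  obtain ⟨s, hs, s', hs', e⟩ := h
  refine sat_span_eq (s := M.i s) (s' := M.i s') ⟨s, hs, rfl⟩ ⟨s', hs', rfl⟩ ?_
  rw [← map_mul, e, map_mul]

/-- Units at `T`. -/
theorem tp_unit {T : Set (Ideal S)} (hT : ∀ N ∈ T, N.IsPrime) {a : S} (h : a ∈ St T) :
    M.tp hT (Ideal.span {M.i a}) = ⊤ :=
  sat_eq_top (s := M.i a) ⟨a, h, rfl⟩ (Ideal.mem_span_singleton_self _)

end Md

end CV
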