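import Pool.Agent.Lib.MP_f80667_ag.Cv.Tp1
import Pool.Agent.Lib.MP_f80667_ag.Cv.ClM

/-!
Equivalent elements: their parts above `T` have the same class.
-/

open IsLocalRing

namespace CV

namespace Md

variable {V L k S SL Sk : Type} [CommRing V] [IsDomain V] [IsDiscreteValuationRing V] [Field L]
  [Field k] [Algebra V L] [IsFractionRing V L] [Algebra V k] [CommRing S] [CommRing SL]
  [CommRing Sk] [Algebra V S] [Algebra L SL] [Algebra k Sk] (M : Md V L k S SL Sk)

/-- One inclusion. Proof: let `c ∈ tp T (i a)`, `s (c) = a d` with `s ∈ St T` (all in `SL`), and `A = {h | h (i y) c ∈ (i x) tp T (i b)}`, an ideal of `SL`. We have to show `A = ⊤`; let `P` be a maximal ideal with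
`A ≤ P`. From `As T (a y) (b x)`: `σ a y = σ' b x`, `σ`, `σ' ∈ St T`, so `σ s y c = σ' b x d`. (1) `y c ∈ tp T (i b)` because `σ s ∈ St T`. So `i x ∈ A ≤ P`, and `P` is integral. Let `N` be the closed point below `P` (`int_cs`).
(2) `N ∈ T`: `σ s y c = x (σ' b d) ∈ (x) tp T (i b)`, so `i (σ s) ∈ A ≤ P`, `σ s ∈ N`: contradiction. (3) `N ∉ T`: `As {N} x y`: `t x = t' y`, `t`, `t' ∉ N`. By prime avoidance (`T` is finite) there is `u ∈ comap i P` outside of all
`N' ∈ T` (by `int_cs` `comap i P` is not contained in `N'`). By `sat_not_le` there is `v ∈ tp T (i b)`, `v ∉ P`. Then `t' y c v = x (t c v)` is in `(x) tp T (i b)`, so `i t' v ∈ A ≤ P`: contradiction. -/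
theorem eqv_le [IsAdicComplete (maximalIdeal V) V] [IsDedekindDomain SL] {T : Set (Ideal S)}
    (hf : T.Finite) (hC : ∀ N ∈ T, Cs V N) (hT : ∀ N ∈ T, N.IsPrime) {a b x y : S} {n : ℕ}
    (hb : b ≠ 0) (hx : M.Ut x n) (hy : M.Ut y n) (h1 : As T (a * y) (b * x))
    (h2 : ∀ N : Ideal S, Cs V N → N ∉ T → As {N} x y) :
    Ideal.span {M.i y} * M.tp hT (Ideal.span {M.i a}) ≤
      Ideal.span {M.i x} * M.tp hT (Ideal.span {M.i b}) := by
  have hdom := M.dom
  rw [Ideal.span_singleton_mul_le_iff]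
  intro z hz
  obtain ⟨s, hs, hsz⟩ := M.mem_tp.1 hz
  obtain ⟨d, hd⟩ := Ideal.mem_span_singleton.1 hsz
  obtain ⟨σ, hσ, σ', hσ', e1⟩ := h1
  have e1' := congrArg M.i e1
  simp only [map_mul] at e1'
  have key : M.i (σ * s) * (M.i y * z) = M.i x * (M.i b * (M.i σ' * d)) := by
    rw [map_mul]
    linear_combination M.i σ * M.i y * hd + d * e1'
  have hbT : ∀ w : SL, M.i b * w ∈ M.tp hT (Ideal.span {M.i b}) := fun w =>
    le_sat (Ideal.mem_span_singleton.2 ⟨w, rfl⟩)
  have hyz : M.i y * z ∈ M.tp hT (Ideal.span {M.i b}) := by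
    refine M.mem_tp.2 ⟨σ * s, st_mul hT hσ hs, ?_⟩
    rw [key]
    exact Ideal.mem_span_singleton.2 ⟨M.i x * (M.i σ' * d), by ring⟩
  let J : Ideal SL := Ideal.span {M.i x} * M.tp hT (Ideal.span {M.i b})
  let A : Ideal SL :=
    { carrier := {h | h * (M.i y * z) ∈ J}
      zero_mem' := by
        have h3 : (0 : SL) * (M.i y * z) ∈ J := by
          rw [zero_mul]
          exact J.zero_mem
        exact h3
      add_mem' := by
        intro c e hc he
        have h3 : c * (M.i y * z) ∈ J := hc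
        have h4 : e * (M.i y * z) ∈ J := he
        have h5 : (c + e) * (M.i y * z) ∈ J := by
          rw [add_mul]
          exact J.add_mem h3 h4
        exact h5
      smul_mem' := by
        intro c e he
        have h3 : e * (M.i y * z) ∈ J := he
        have h4 : (c * e) * (M.i y * z) ∈ J := by
          rw [mul_assoc]
          exact J.mul_mem_left c h3
        exact h4 }
  have hA : ∀ h : SL, h ∈ A ↔ h * (M.i y * z) ∈
      Ideal.span {M.i x} * M.tp hT (Ideal.span {M.i b}) := fun h => Iff.rfl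
  suffices hAt : (1 : SL) ∈ A by
    have h3 := (hA 1).1 hAt
    rwa [one_mul] at h3
  rw [← Ideal.eq_top_iff_one]
  by_contra hAne
  obtain ⟨P, hPm, hAP⟩ := Ideal.exists_le_maximal A hAne
  have hP : P.IsPrime := hPm.isPrime
  have hxP : M.i x ∈ P := hAP ((hA _).2 (Ideal.mul_mem_mul (Ideal.mem_span_singleton_self _) hyz))
  obtain ⟨N, hN, hPN, huniq⟩ := M.int_cs hP ⟨x, n, hx, hxP⟩
  have hσs : M.i (σ * s) ∈ P := by
    refine hAP ((hA _).2 ?_)
    rw [key]
    exact Ideal.mul_mem_mul (Ideal.mem_span_singleton_self _) (hbT _)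
  by_cases hNT : N ∈ T
  · exact st_mul hT hσ hs N hNT (hPN hσs)
  · obtain ⟨t, ht, t', ht', e2⟩ := h2 N hN hNT
    have e2' := congrArg M.i e2
    simp only [map_mul] at e2'
    have hu : ∃ u ∈ P.comap M.i, u ∈ St T := by
      by_contra hcon
      push Not at hcon
      have h3 : ((P.comap M.i : Ideal S) : Set S) ⊆
          ⋃ N ∈ ((hf.toFinset : Finset (Ideal S)) : Set (Ideal S)),
            ((fun N : Ideal S => N) N : Set S) := by
        intro c hc
        by_contra hcu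
        refine hcon c hc ?_
        intro N' hN' hcN
        apply hcu
        rw [Set.mem_iUnion₂]
        exact ⟨N', by simpa using hN', hcN⟩
      rw [Ideal.subset_union_prime ⊤ ⊤ (fun N' hN' _ _ => hT N' (by simpa using hN'))] at h3
      obtain ⟨N', hN', hJN⟩ := h3
      have hN'T : N' ∈ T := by simpa using hN'
      have h4 := huniq N' (hC N' hN'T) hJN
      rw [h4] at hN'T
      exact hNT hN'T
    obtain ⟨u, huP, huT⟩ := hu
    have hP0 : P ≠ ⊥ := by
      rintro rfl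
      have h3 : M.i x = 0 := hxP
      exact M.ut_ne hx (M.inj (by rw [h3, map_zero]))
    have hb0 : Ideal.span {M.i b} ≠ ⊥ := by
      intro h3
      have h4 := Ideal.span_singleton_eq_bot.1 h3
      exact hb (M.inj (by rw [h4, map_zero]))
    have h5 : ¬ M.tp hT (Ideal.span {M.i b}) ≤ P :=
      sat_not_le hP hP0 (s := M.i u) ⟨u, huT, rfl⟩ huP hb0
    obtain ⟨v, hv, hvP⟩ := Set.not_subset.1 h5
    have h6 : M.i t' * v ∈ A := by
      rw [hA]
      have e3 : M.i t' * v * (M.i y * z) = M.i x * (M.i t * z * v) := by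
        linear_combination (-(z * v)) * e2'
      rw [e3]
      exact Ideal.mul_mem_mul (Ideal.mem_span_singleton_self _) (Ideal.mul_mem_left _ _ hv)
    rcases hP.mem_or_mem (hAP h6) with h7 | h7
    · exact ht' N rfl (hPN h7)
    · exact hvP h7

/-- **Equivalent elements.** Proof: `eqv_le` twice. -/
theorem eqv_tp [IsAdicComplete (maximalIdeal V) V] [IsDedekindDomain SL] {T : Set (Ideal S)}
    (hf : T.Finite) (hC : ∀ N ∈ T, Cs V N) (hT : ∀ N ∈ T, N.IsPrime) {a b : S} (ha : a ≠ 0)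
    (hb : b ≠ 0) (h : M.Eqv T a b) : ∃ x y : S, x ≠ 0 ∧ y ≠ 0 ∧
      Ideal.span {M.i y} * M.tp hT (Ideal.span {M.i a}) =
        Ideal.span {M.i x} * M.tp hT (Ideal.span {M.i b}) := by
  obtain ⟨x, y, n, hx, hy, h1, h2⟩ := h
  refine ⟨x, y, M.ut_ne hx, M.ut_ne hy, le_antisymm (M.eqv_le hf hC hT hb hx hy h1 h2)
    (M.eqv_le hf hC hT ha hy hx h1.symm fun N hN hNT => (h2 N hN hNT).symm)⟩

include M in
theorem i_ne {a : S} (ha : a ≠ 0) : M.i a ≠ 0 := fun h => ha (M.inj (by rw [h, map_zero]))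

theorem tp_ne {T : Set (Ideal S)} (hT : ∀ N ∈ T, N.IsPrime) {I : Ideal SL} (h : I ≠ ⊥) :
    M.tp hT I ≠ ⊥ := sat_ne_bot h

theorem tp_mul [IsDedekindDomain SL] {T : Set (Ideal S)} (hT : ∀ N ∈ T, N.IsPrime) {I J : Ideal SL}
    (hI : I ≠ ⊥) (hJ : J ≠ ⊥) : M.tp hT (I * J) = M.tp hT I * M.tp hT J := sat_mul hI hJ

/-- The class of the part of `a` above `T`. -/
noncomputable def tc [IsDedekindDomain SL] {T : Set (Ideal S)} (hT : ∀ N ∈ T, N.IsPrime) (a : S) :
    Cg SL := cls (M.tp hT (Ideal.span {M.i a}))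

theorem tc_mul [IsDedekindDomain SL] {T : Set (Ideal S)} (hT : ∀ N ∈ T, N.IsPrime) {a b : S}
    (ha : a ≠ 0) (hb : b ≠ 0) : M.tc hT (a * b) = M.tc hT a + M.tc hT b := by
  have h1 : Ideal.span {M.i a} ≠ ⊥ := fun h => M.i_ne ha (Ideal.span_singleton_eq_bot.1 h)
  have h2 : Ideal.span {M.i b} ≠ ⊥ := fun h => M.i_ne hb (Ideal.span_singleton_eq_bot.1 h)
  unfold tc
  rw [map_mul, ← Ideal.span_singleton_mul_span_singleton, M.tp_mul hT h1 h2,
    cls_mul (M.tp_ne hT h1) (M.tp_ne hT h2)]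

theorem tc_pow [IsDedekindDomain SL] {T : Set (Ideal S)} (hT : ∀ N ∈ T, N.IsPrime) {a : S}
    (ha : a ≠ 0) (n : ℕ) : M.tc hT (a ^ n) = n • M.tc hT a := by
  have := M.dom
  induction n with
  | zero =>
    rw [pow_zero, zero_nsmul]
    unfold tc
    rw [M.tp_unit hT (st_one hT), cls_top]
  | succ n ih => rw [pow_succ, M.tc_mul hT (pow_ne_zero n ha) ha, ih, succ_nsmul]

/-- **Equivalent elements** have the same class. -/
theorem eqv_tc [IsAdicComplete (maximalIdeal V) V] [IsDedekindDomain SL] {T : Set (Ideal S)}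
    (hf : T.Finite) (hC : ∀ N ∈ T, Cs V N) (hT : ∀ N ∈ T, N.IsPrime) {a b : S} (ha : a ≠ 0)
    (hb : b ≠ 0) (h : M.Eqv T a b) : M.tc hT a = M.tc hT b := by
  obtain ⟨x, y, hx, hy, e⟩ := M.eqv_tp hf hC hT ha hb h
  have h1 : Ideal.span {M.i a} ≠ ⊥ := fun h => M.i_ne ha (Ideal.span_singleton_eq_bot.1 h)
  have h2 : Ideal.span {M.i b} ≠ ⊥ := fun h => M.i_ne hb (Ideal.span_singleton_eq_bot.1 h)
  exact (cls_eq (M.tp_ne hT h1) (M.tp_ne hT h2)).2 ⟨M.i y, M.i x, M.i_ne hy, M.i_ne hx, e⟩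

end Md

end CV
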