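import Pool.Agent.Lib.MP_f80667_ag.Cv.DgT
import Pool.Agent.Lib.MP_f80667_ag.Cv.Lc

/-! Base change of models: `Mod.up` from `O`, `K` to `O'`, `M`, and the case of local fields. -/

open ZC BE PE Polynomial TensorProduct IntermediateField

namespace CV

/-- Transport of a degree function. -/
def Dg.ofEquiv {K A A' : Type} [Field K] [CommRing A] [Algebra K A] [CommRing A'] [Algebra K A']
    (G : Dg K A) (f : A ≃ₐ[K] A') : Dg K A' where
  d x := G.d (f.symm x)
  bot x := by rw [G.bot, map_eq_zero_iff _ f.symm.injective]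
  mul x y := by rw [map_mul, G.mul]
  add x y := by rw [map_add]; exact G.add _ _
  lead x y hy h := by
    obtain ⟨c, hc⟩ := G.lead (f.symm x) (f.symm y)
      (fun h => hy ((map_eq_zero_iff _ f.symm.injective).1 h)) h
    exact ⟨c, by rw [map_sub, map_smul]; exact hc⟩
  tail := by
    obtain ⟨n₀, h⟩ := G.tail
    refine ⟨n₀, fun n hn => ?_⟩
    obtain ⟨x, hx⟩ := h n hn
    exact ⟨f x, by rw [f.symm_apply_apply]; exact hx⟩

theorem Dg.ofEquiv_d {K A A' : Type} [Field K] [CommRing A] [Algebra K A] [CommRing A']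
    [Algebra K A'] (G : Dg K A) (f : A ≃ₐ[K] A') (x : A') : (G.ofEquiv f).d x = G.d (f.symm x) :=
  rfl

section up

variable {F : Type} [Field F] {C : Crv F} {O K O' M : Type} [CommRing O] [IsLocalRing O] [Field K]
  [Algebra O K] [Algebra F K] [CommRing O'] [IsLocalRing O'] [Field M] [Algebra O' M]
  [Algebra F M] [Algebra O O'] [Algebra K M] [Algebra O M] [IsScalarTower O O' M]
  [IsScalarTower O K M] [IsScalarTower F K M]

/-- The generic fibre after base change. -/
noncomputable def upG (m : Mod C O K) :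
    M ⊗[K] (K ⊗[O] m.R) ≃ₐ[M] M ⊗[O'] (O' ⊗[O] m.R) :=
  (Algebra.TensorProduct.cancelBaseChange O K M M m.R).trans
    (Algebra.TensorProduct.cancelBaseChange O O' M M m.R).symm

omit [IsLocalRing O'] [Algebra F M] [IsScalarTower F K M] in
theorem upG_symm (m : Mod C O K) (x : m.R) :
    (upG (O' := O') (M := M) m).symm ((1 : M) ⊗ₜ[O'] ((1 : O') ⊗ₜ[O] x)) =
      (1 : M) ⊗ₜ[K] ((1 : K) ⊗ₜ[O] x) := by
  rw [AlgEquiv.symm_apply_eq, upG, AlgEquiv.trans_apply,
    Algebra.TensorProduct.cancelBaseChange_tmul, one_smul,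
    Algebra.TensorProduct.cancelBaseChange_symm_tmul]

/-- The isomorphism after base change. -/
noncomputable def upI (m : Mod C O K) : M ⊗[O'] (O' ⊗[O] m.R) ≃ₐ[M] M ⊗[F] C.A :=
  (upG (O' := O') (M := M) m).symm.trans ((Algebra.TensorProduct.congr AlgEquiv.refl m.iso).trans
    (Algebra.TensorProduct.cancelBaseChange F K M M C.A))

variable [IsLocalHom (algebraMap O O')]

/-- The special fibre after base change. -/
noncomputable def upS (m : Mod C O K) :
    (IsLocalRing.ResidueField O') ⊗[IsLocalRing.ResidueField O]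
      ((IsLocalRing.ResidueField O) ⊗[O] m.R) ≃ₐ[IsLocalRing.ResidueField O']
      (IsLocalRing.ResidueField O') ⊗[O'] (O' ⊗[O] m.R) :=
  (Algebra.TensorProduct.cancelBaseChange O (IsLocalRing.ResidueField O)
    (IsLocalRing.ResidueField O') (IsLocalRing.ResidueField O') m.R).trans
    (Algebra.TensorProduct.cancelBaseChange O O' (IsLocalRing.ResidueField O')
      (IsLocalRing.ResidueField O') m.R).symm

theorem upS_symm (m : Mod C O K) (x : m.R) :
    (upS (O' := O') m).symm ((1 : IsLocalRing.ResidueField O') ⊗ₜ[O'] ((1 : O') ⊗ₜ[O] x)) =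
      (1 : IsLocalRing.ResidueField O') ⊗ₜ[IsLocalRing.ResidueField O]
        ((1 : IsLocalRing.ResidueField O) ⊗ₜ[O] x) := by
  rw [AlgEquiv.symm_apply_eq, upS, AlgEquiv.trans_apply,
    Algebra.TensorProduct.cancelBaseChange_tmul, one_smul,
    Algebra.TensorProduct.cancelBaseChange_symm_tmul]

/-- **Base change of a model.** -/
noncomputable def Mod.up (m : Mod C O K) : Mod C O' M where
  R := O' ⊗[O] m.R
  sm := by
    have := m.sm
    exact inferInstance
  iso := upI m
  Gg := (m.Gg.bc M).ofEquiv (upG m)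
  Gs := (m.Gs.bc (IsLocalRing.ResidueField O')).ofEquiv (upS m)
  h := m.h
  N := m.N
  b := m.b.baseChange O'
  lo i := by
    rw [Module.Basis.baseChange_apply]
    rw [Dg.ofEquiv_d, Dg.ofEquiv_d, upG_symm, upS_symm, Dg.bc_one_tmul, Dg.bc_one_tmul]
    exact m.lo i
  hi j := by
    rw [Module.Basis.baseChange_apply]
    rw [Dg.ofEquiv_d, Dg.ofEquiv_d, upG_symm, upS_symm, Dg.bc_one_tmul, Dg.bc_one_tmul]
    exact m.hi j

end up

section val

variable {F : Type} [Field F] {C : Crv F} {O K : Type} [CommRing O] [IsLocalRing O] [Field K]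
  [Algebra O K] [Algebra F K] {Ω : Type} [Field Ω] [Algebra K Ω] [Algebra F Ω]
  [IsScalarTower F K Ω]

/-- The value of a function of the model at a point. -/
noncomputable def evK (m : Mod C O K) (φ : C.A →ₐ[F] Ω) (a : m.R) : Ω :=
  (Algebra.TensorProduct.lift (Algebra.ofId K Ω) φ fun _ _ => Commute.all _ _)
    (m.iso ((1 : K) ⊗ₜ[O] a))

theorem lift_cancel {M A : Type} [Field M] [CommRing A] [Algebra F A] [Algebra F M] [Algebra K M]
    [Algebra M Ω] [IsScalarTower F M Ω] [IsScalarTower K M Ω] [IsScalarTower F K M]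
    (φ : A →ₐ[F] Ω) (c : M) (x : K ⊗[F] A) :
    (Algebra.TensorProduct.lift (Algebra.ofId M Ω) φ fun _ _ => Commute.all _ _)
      (Algebra.TensorProduct.cancelBaseChange F K M M A (c ⊗ₜ[K] x)) =
    algebraMap M Ω c *
      (Algebra.TensorProduct.lift (Algebra.ofId K Ω) φ fun _ _ => Commute.all _ _) x := by
  induction x using TensorProduct.induction_on with
  | zero => rw [tmul_zero, map_zero, map_zero, map_zero, mul_zero]
  | tmul k a =>
    rw [Algebra.TensorProduct.cancelBaseChange_tmul, Algebra.TensorProduct.lift_tmul,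
      Algebra.TensorProduct.lift_tmul, Algebra.ofId_apply, Algebra.ofId_apply, Algebra.smul_def,
      map_mul, ← IsScalarTower.algebraMap_apply K M Ω]
    ring
  | add x y hx hy => rw [tmul_add, map_add, map_add, hx, hy, map_add, mul_add]

variable {O' M : Type} [CommRing O'] [IsLocalRing O'] [Field M] [Algebra O' M]
  [Algebra F M] [Algebra O O'] [Algebra K M] [Algebra O M] [IsScalarTower O O' M]
  [IsScalarTower O K M] [IsScalarTower F K M] [IsLocalHom (algebraMap O O')] [Algebra M Ω]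
  [IsScalarTower F M Ω] [IsScalarTower K M Ω]

/-- The values of the functions of the model after base change. -/
theorem evK_up (m : Mod C O K) (φ : C.A →ₐ[F] Ω) (c : O') (a : m.R) :
    evK (m.up : Mod C O' M) φ (c ⊗ₜ[O] a) = algebraMap M Ω (algebraMap O' M c) * evK m φ a := by
  have h1 : upI (O' := O') (M := M) m ((1 : M) ⊗ₜ[O'] (c ⊗ₜ[O] a)) =
      Algebra.TensorProduct.cancelBaseChange F K M M C.A
        ((algebraMap O' M c) ⊗ₜ[K] (m.iso ((1 : K) ⊗ₜ[O] a))) := by
    have h2 : (upG (O' := O') (M := M) m).symm ((1 : M) ⊗ₜ[O'] (c ⊗ₜ[O] a)) =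
        (algebraMap O' M c) ⊗ₜ[K] ((1 : K) ⊗ₜ[O] a) := by
      rw [AlgEquiv.symm_apply_eq, upG, AlgEquiv.trans_apply,
        Algebra.TensorProduct.cancelBaseChange_tmul, one_smul, AlgEquiv.eq_symm_apply,
        Algebra.TensorProduct.cancelBaseChange_tmul, Algebra.smul_def, mul_one]
    rw [upI, AlgEquiv.trans_apply, AlgEquiv.trans_apply, h2]
    rfl
  change (Algebra.TensorProduct.lift (Algebra.ofId M Ω) φ fun _ _ => Commute.all _ _)
    (upI (O' := O') (M := M) m ((1 : M) ⊗ₜ[O'] (c ⊗ₜ[O] a))) = _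
  rw [h1, lift_cancel]
  rfl

end val

section loc

variable {F : Type} [Field F] {C : Crv F} {K Ω : Type} [Field K] [Field Ω] [Algebra K Ω]
  [Algebra F K] [Algebra F Ω] [IsScalarTower F K Ω]

/-- The integers of `K` go to those of `M`. -/
def okMap {L : Ld K Ω} {M : IntermediateField K Ω} {L' : Ld M Ω} (h : ∀ x, L'.nm x = L.nm x) :
    Ok L →+* Ok L' :=
  ((algebraMap K M).comp (Ok L).subtype).codRestrict (Ok L').toSubring fun x => by
    have hx : L.nm (algebraMap K Ω x.1) ≤ 1 := x.2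
    change L'.nm (algebraMap M Ω (algebraMap K M x.1)) ≤ 1
    rw [h, ← IsScalarTower.algebraMap_apply K M Ω]
    exact hx

theorem okMap_coe {L : Ld K Ω} {M : IntermediateField K Ω} {L' : Ld M Ω}
    (h : ∀ x, L'.nm x = L.nm x) (x : Ok L) : ((okMap h x : Ok L') : M) = algebraMap K M x.1 := rfl

theorem okMap_local {L : Ld K Ω} {M : IntermediateField K Ω} {L' : Ld M Ω}
    (h : ∀ x, L'.nm x = L.nm x) : IsLocalHom (okMap h) := by
  refine ⟨fun x hx => ?_⟩
  obtain ⟨y, hy⟩ := hx.exists_right_inv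
  have h1 : algebraMap K M x.1 * (y : M) = 1 := congrArg (fun z : Ok L' => (z : M)) hy
  have hx0 : (x : K) ≠ 0 := by
    intro h0
    rw [h0, map_zero, zero_mul] at h1
    exact zero_ne_one h1
  have h2 : (y : M) = algebraMap K M (x.1)⁻¹ := by
    have h3 : algebraMap K M x.1 ≠ 0 := (_root_.map_ne_zero _).2 hx0
    rw [map_inv₀]
    exact eq_inv_of_mul_eq_one_right h1
  have h4 : (x.1)⁻¹ ∈ Ok L := by
    have h5 : L'.nm (algebraMap M Ω (y : M)) ≤ 1 := y.2
    rw [h2, h, ← IsScalarTower.algebraMap_apply K M Ω] at h5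
    exact h5
  exact IsUnit.of_mul_eq_one (⟨_, h4⟩ : Ok L) (Subtype.ext (mul_inv_cancel₀ hx0))

/-- **Base change of a model over a local field.** -/
noncomputable def Mod.upL {L : Ld K Ω} (m : Mod C (Ok L) K) {M : IntermediateField K Ω}
    {L' : Ld M Ω} (h : ∀ x, L'.nm x = L.nm x) : Mod C (Ok L') M :=
  letI _i1 : Algebra (Ok L) (Ok L') := (okMap h).toAlgebra
  letI _i2 : Algebra (Ok L) M := ((algebraMap K M).comp (Ok L).subtype).toAlgebra
  haveI _i3 : IsScalarTower (Ok L) (Ok L') M := IsScalarTower.of_algebraMap_eq fun _ => rfl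
  haveI _i4 : IsScalarTower (Ok L) K M := IsScalarTower.of_algebraMap_eq fun _ => rfl
  haveI _i5 : IsLocalHom (algebraMap (Ok L) (Ok L')) := okMap_local h
  haveI _i6 : IsScalarTower F K M := inferInstance
  Mod.up (O := Ok L) (K := K) (O' := Ok L') (M := M) m

theorem ev_eq {L : Ld K Ω} (m : Mod C (Ok L) K) (φ : C.A →ₐ[F] Ω) (a : m.R) :
    ev m φ a = evK m φ a := rfl

/-- The norms of the values after base change. -/
theorem nr_upL {L : Ld K Ω} (m : Mod C (Ok L) K) {M : IntermediateField K Ω} {L' : Ld M Ω}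
    (h : ∀ x, L'.nm x = L.nm x) [IsScalarTower F M Ω] {r : ℝ} (hr : 0 ≤ r) (x y : C.V.pt Ω) :
    Nr (m.upL h) r x y ↔ Nr m r x y := by
  let _i1 : Algebra (Ok L) (Ok L') := (okMap h).toAlgebra
  let _i2 : Algebra (Ok L) M := ((algebraMap K M).comp (Ok L).subtype).toAlgebra
  have _i3 : IsScalarTower (Ok L) (Ok L') M := IsScalarTower.of_algebraMap_eq fun _ => rfl
  have _i4 : IsScalarTower (Ok L) K M := IsScalarTower.of_algebraMap_eq fun _ => rfl
  have _i5 : IsLocalHom (algebraMap (Ok L) (Ok L')) := okMap_local h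
  have _i6 : IsScalarTower F K M := inferInstance
  have key : ∀ (φ : C.A →ₐ[F] Ω) (c : Ok L') (a : m.R),
      ev (m.upL h) φ (c ⊗ₜ[Ok L] a) = algebraMap M Ω c * ev m φ a := fun φ c a =>
    evK_up (O := Ok L) (K := K) (O' := Ok L') (M := M) m φ c a
  have hle : ∀ c : Ok L', L.nm (algebraMap M Ω c) ≤ 1 := fun c => by
    have h1 : L'.nm (algebraMap M Ω c) ≤ 1 := c.2
    rwa [h] at h1
  constructor
  · rintro ⟨φ, ψ, rfl, rfl, h1⟩
    refine ⟨φ, ψ, rfl, rfl, fun a => ?_⟩
    have h2 := h1 ((1 : Ok L') ⊗ₜ[Ok L] a)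
    rw [key, key, h, h, h] at h2
    have h3 : algebraMap M Ω ((1 : Ok L') : M) = 1 := map_one _
    rw [h3, one_mul, one_mul] at h2
    exact h2
  · rintro ⟨φ, ψ, rfl, rfl, h1⟩
    refine ⟨φ, ψ, rfl, rfl, fun a => ?_⟩
    rw [h, h, h]
    have h2 : ∀ b : (Ok L') ⊗[Ok L] m.R, L.nm (ev (m.upL h) φ b) ≤ 1 ∧
        L.nm (ev (m.upL h) ψ b) ≤ 1 ∧ L.nm (ev (m.upL h) φ b - ev (m.upL h) ψ b) ≤ r := by
      intro b
      induction b using TensorProduct.induction_on with
      | zero =>
        have e1 : ev (m.upL h) φ (0 : (Ok L') ⊗[Ok L] m.R) = 0 := map_zero _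
        have e2 : ev (m.upL h) ψ (0 : (Ok L') ⊗[Ok L] m.R) = 0 := map_zero _
        rw [e1, e2, sub_self, L.zero]
        exact ⟨zero_le_one, zero_le_one, hr⟩
      | tmul c a =>
        rw [key, key, L.mul, L.mul, ← mul_sub, L.mul]
        obtain ⟨a1, a2, a3⟩ := h1 a
        have h4 := hle c
        have h5 := L.nonneg (algebraMap M Ω c)
        exact ⟨mul_le_one₀ h4 (L.nonneg _) a1, mul_le_one₀ h4 (L.nonneg _) a2,
          (mul_le_of_le_one_left (L.nonneg _) h4).trans a3⟩
      | add b b' hb hb' =>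
        have e1 : ∀ χ : C.A →ₐ[F] Ω, ev (m.upL h) χ (b + b') =
            ev (m.upL h) χ b + ev (m.upL h) χ b' := fun χ => map_add _ _ _
        rw [e1, e1, add_sub_add_comm]
        exact ⟨(L.add _ _).trans (max_le hb.1 hb'.1), (L.add _ _).trans (max_le hb.2.1 hb'.2.1),
          (L.add _ _).trans (max_le hb.2.2 hb'.2.2)⟩
    exact h2 a

end loc

end CV
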