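import Pool.Agent.Lib.MP_f80667_ag.Cv.Lc
import Pool.Agent.Lib.MP_f80667_ag.Pe.Ur
import Pool.Agent.Lib.MP_f80667_ag.Be.Gal

/-!
Invariant families of pairs of neighbouring points are displacements.
-/

open ZC BE PE Polynomial TensorProduct IntermediateField

namespace CV

section uxAsum

variable {G I : Type*} [Group G] [MulAction G I]

private theorem uxA_inj (H : Subgroup G) (i : I) (hH : ∀ γ : G, γ ∈ H ↔ γ • i = i) :
    Function.Injective fun q : G ⧸ H => q.out • i := by
  intro q q' h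
  have h' : q.out • i = q'.out • i := h
  have h1 : q'.out⁻¹ * q.out ∈ H := by
    rw [hH, mul_smul, h', inv_smul_smul]
  rw [← QuotientGroup.out_eq' q, ← QuotientGroup.out_eq' q']
  exact (QuotientGroup.eq.2 h1).symm

open Classical in
private theorem uxA_sum [Fintype I] {A : Type*} [AddCommMonoid A] (H : Subgroup G) (i : I)
    (hH : ∀ γ : G, γ ∈ H ↔ γ • i = i) [Fintype (G ⧸ H)] (f : I → A) :
    ∑ q : G ⧸ H, f (q.out • i) =
      ∑ j ∈ Finset.univ.filter (fun j => ∃ γ : G, γ • i = j), f j := by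
  refine Finset.sum_bij (fun q _ => q.out • i) ?_ ?_ ?_ ?_
  · intro q _
    exact Finset.mem_filter.2 ⟨Finset.mem_univ _, q.out, rfl⟩
  · intro q _ q' _ h
    exact uxA_inj H i hH h
  · intro j hj
    obtain ⟨γ, hγ⟩ := (Finset.mem_filter.1 hj).2
    refine ⟨(γ : G ⧸ H), Finset.mem_univ _, ?_⟩
    have h1 : (γ : G)⁻¹ * (γ : G ⧸ H).out ∈ H :=
      QuotientGroup.eq.1 (QuotientGroup.out_eq' (γ : G ⧸ H)).symm
    rw [hH, mul_smul, inv_smul_eq_iff] at h1
    rw [h1, hγ]
  · intro q _
    rfl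

end uxAsum

variable {F : Type} [Field F] {K Ω : Type} [Field K] [CharZero K] [Field Ω] [Algebra K Ω]
  [Algebra F K] [Algebra F Ω] [IsScalarTower F K Ω] [IsAlgClosure K Ω] {L : Ld K Ω}

/-- A subgroup of `M.fixingSubgroup` which contains the automorphisms over an unramified extension is the group of an intermediate field.
Proof: `fixedField`; the subgroup is open (`ur_fin`), hence closed (`InfiniteGalois`, `Be/Gal.lean`). -/
theorem ux_fld {M : IntermediateField K Ω} [FiniteDimensional K M] {N : ℕ} (hN : N ≠ 0)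
    (H : Subgroup (Ω ≃ₐ[K] Ω)) (hH : H ≤ M.fixingSubgroup) (hH' : (L.Ur M N).fixingSubgroup ≤ H) :
    ∃ M' : IntermediateField K Ω, M ≤ M' ∧ M' ≤ L.Ur M N ∧ M'.fixingSubgroup = H := by
  obtain ⟨M', -, h⟩ := exists_fix (K := K) (Ω := Ω) (H := H) ⟨L.Ur M N, Ld.ur_fin M N hN, hH'⟩
  exact ⟨M', le_of_fix_le (by rw [h]; exact hH), le_of_fix_le (by rw [h]; exact hH'), h⟩

open Classical in
/-- The trace of a point is the sum over the orbit. `G = M.fixingSubgroup` acts on the finite set `I`, `x : I → V(Ω)` is equivariant, `M'` is the fixed field of the stabilizer of `i`. Proof: `orbitEquivQuotientStabilizer`. -/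
theorem ux_rtr {V : Vr F} {M M' : IntermediateField K Ω} {I : Type} [Fintype I]
    [MulAction M.fixingSubgroup I] (x : I → V.pt Ω)
    (hx : ∀ (γ : M.fixingSubgroup) (i : I), x (γ • i) = V.act (γ : Ω ≃ₐ[K] Ω) (x i)) (i : I)
    (hi : ∀ γ : M.fixingSubgroup, (γ : Ω ≃ₐ[K] Ω) ∈ M'.fixingSubgroup ↔ γ • i = i) :
    rtr V M M' (Finsupp.single (x i) 1) =
      ∑ j ∈ Finset.univ.filter (fun j => ∃ γ : M.fixingSubgroup, γ • i = j),
        Finsupp.single (x j) (1 : ℤ) := by
  have hH : ∀ γ : M.fixingSubgroup,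
      γ ∈ M'.fixingSubgroup.subgroupOf M.fixingSubgroup ↔ γ • i = i := fun γ => by
    rw [Subgroup.mem_subgroupOf]
    exact hi γ
  have hfin : Finite (M.fixingSubgroup ⧸ M'.fixingSubgroup.subgroupOf M.fixingSubgroup) :=
    Finite.of_injective _ (uxA_inj _ i hH)
  have hft := Fintype.ofFinite (M.fixingSubgroup ⧸ M'.fixingSubgroup.subgroupOf M.fixingSubgroup)
  rw [rtr, finsum_eq_sum_of_fintype, AddMonoidHom.finsetSum_apply,
    ← uxA_sum _ i hH fun j => Finsupp.single (x j) (1 : ℤ)]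
  refine Finset.sum_congr rfl fun q _ => ?_
  rw [Finsupp.mapDomain.addMonoidHom_apply, Finsupp.mapDomain_single, hx]

/-- **Invariant families of pairs are displacements.** Proof: induction on the number of elements of an invariant subset `J` of `I`: for `i ∈ J` let `H` be the stabilizer of `i` in `M.fixingSubgroup` (as a subgroup of the automorphisms of
`Ω / K`), `M'` its field (`ux_fld`). The sum over the orbit of `i` is `rtr V M M' (single (a i) 1 - single (b i) 1)` (`ux_rtr`), an element of `Dsp`. -/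
theorem orb_dsp {V : Vr F} {nr : V.pt Ω → V.pt Ω → Prop} {M : IntermediateField K Ω}
    [FiniteDimensional K M] {I : Type} [Fintype I] [MulAction M.fixingSubgroup I]
    (a b : I → V.pt Ω) (ha : ∀ (γ : M.fixingSubgroup) (i : I), a (γ • i) = V.act (γ : Ω ≃ₐ[K] Ω) (a i))
    (hb : ∀ (γ : M.fixingSubgroup) (i : I), b (γ • i) = V.act (γ : Ω ≃ₐ[K] Ω) (b i))
    (hnr : ∀ i, nr (a i) (b i)) {N : ℕ} (hN : N ≠ 0)
    (hI : ∀ γ : M.fixingSubgroup, (γ : Ω ≃ₐ[K] Ω) ∈ (L.Ur M N).fixingSubgroup → ∀ i : I, γ • i = i) :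
    ∑ i, (Finsupp.single (a i) (1 : ℤ) - Finsupp.single (b i) 1) ∈ Dsp L V nr M := by
  classical
  have key : ∀ (n : ℕ) (J : Finset I), J.card ≤ n →
      (∀ (γ : M.fixingSubgroup) (i : I), i ∈ J → γ • i ∈ J) →
      ∑ i ∈ J, (Finsupp.single (a i) (1 : ℤ) - Finsupp.single (b i) 1) ∈ Dsp L V nr M := by
    intro n
    induction n with
    | zero =>
      intro J hJ _
      rw [Finset.card_eq_zero.1 (Nat.le_zero.1 hJ), Finset.sum_empty]
      exact zero_mem _
    | succ n ih =>
      intro J hJ hinv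
      rcases J.eq_empty_or_nonempty with rfl | ⟨i, hi⟩
      · rw [Finset.sum_empty]
        exact zero_mem _
      obtain ⟨O, hO⟩ : ∃ O : Finset I,
          O = Finset.univ.filter (fun j => ∃ γ : M.fixingSubgroup, γ • i = j) := ⟨_, rfl⟩
      have hOJ : O ⊆ J := by
        intro j hj
        rw [hO] at hj
        obtain ⟨γ, rfl⟩ := (Finset.mem_filter.1 hj).2
        exact hinv γ i hi
      have hiO : i ∈ O := by
        rw [hO]
        exact Finset.mem_filter.2 ⟨Finset.mem_univ _, 1, one_smul _ i⟩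
      rw [← Finset.sum_sdiff hOJ]
      refine add_mem (ih _ ?_ ?_) ?_
      · have h1 : (J \ O).card < J.card := Finset.card_lt_card
          (Finset.ssubset_iff_subset_ne.2 ⟨Finset.sdiff_subset, fun h => by
            rw [← h] at hi
            exact (Finset.mem_sdiff.1 hi).2 hiO⟩)
        omega
      · intro γ j hj
        obtain ⟨h1, h2⟩ := Finset.mem_sdiff.1 hj
        refine Finset.mem_sdiff.2 ⟨hinv γ j h1, fun h3 => h2 ?_⟩
        rw [hO] at h3 ⊢
        obtain ⟨δ, hδ⟩ := (Finset.mem_filter.1 h3).2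
        refine Finset.mem_filter.2 ⟨Finset.mem_univ _, γ⁻¹ * δ, ?_⟩
        rw [mul_smul, hδ, inv_smul_smul]
      · obtain ⟨M', hM1, hM2, hM'⟩ := ux_fld (L := L) hN
          ((MulAction.stabilizer M.fixingSubgroup i).map M.fixingSubgroup.subtype)
          (Subgroup.map_subtype_le _) (fun γ hγ =>
            ⟨⟨γ, fix_le Ld.ur_le hγ⟩, hI ⟨γ, fix_le Ld.ur_le hγ⟩ hγ i, rfl⟩)
        have hi' : ∀ γ : M.fixingSubgroup,
            (γ : Ω ≃ₐ[K] Ω) ∈ M'.fixingSubgroup ↔ γ • i = i := by
          intro γ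
          rw [hM']
          constructor
          · rintro ⟨δ, hδ, hδγ⟩
            have h1 : δ = γ := Subtype.ext hδγ
            rw [← h1]
            exact hδ
          · intro h
            exact ⟨γ, h, rfl⟩
        refine AddSubgroup.subset_closure ⟨N, M', a i, b i, hN, hM1, hM2, ?_, ?_, hnr i, ?_⟩
        · intro γ hγ
          have h1 := (hi' ⟨γ, fix_le hM1 hγ⟩).1 hγ
          have h2 := ha ⟨γ, fix_le hM1 hγ⟩ i
          rw [h1] at h2
          exact h2.symm
        · intro γ hγ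
          have h1 := (hi' ⟨γ, fix_le hM1 hγ⟩).1 hγ
          have h2 := hb ⟨γ, fix_le hM1 hγ⟩ i
          rw [h1] at h2
          exact h2.symm
        · rw [map_sub, ux_rtr a ha i hi', ux_rtr b hb i hi', Finset.sum_sub_distrib, hO]
  exact key _ Finset.univ le_rfl fun _ _ _ => Finset.mem_univ _

end CV
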