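import Pool.Agent.Lib.MP_f80667_ag.Cv.XpD

/-!
Base change of degree functions to `M ⊆ Ω`; the elements of `Ω ⊗ A` which are fixed by the Galois group of `Ω / M`.
-/

open TensorProduct

namespace CV

variable {F A M Ω : Type} [Field F] [CommRing A] [Algebra F A] [Field M] [Field Ω] [Algebra F M]
  [Algebra M Ω] [Algebra F Ω] [IsScalarTower F M Ω]

private theorem xp1_repr_xi {ι : Type} (b : Module.Basis ι F A) (x : M ⊗[F] A) (i : ι) :
    (b.baseChange Ω).repr (xi F A M Ω x) i = algebraMap M Ω ((b.baseChange M).repr x i) := by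
  induction x with
  | zero => rw [map_zero, map_zero, map_zero, Finsupp.zero_apply, Finsupp.zero_apply, map_zero]
  | tmul c a =>
    rw [xi_tmul, Module.Basis.baseChange_repr_tmul, Module.Basis.baseChange_repr_tmul,
      Algebra.smul_def, Algebra.smul_def, map_mul, ← IsScalarTower.algebraMap_apply]
  | add x y hx hy =>
    rw [map_add, map_add, map_add, Finsupp.add_apply, Finsupp.add_apply, map_add, hx, hy]

private theorem xp1_repr_xg {ι : Type} (b : Module.Basis ι F A) (γ : Ω ≃ₐ[F] Ω) (x : Ω ⊗[F] A)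
    (i : ι) : (b.baseChange Ω).repr (xg A γ x) i = γ ((b.baseChange Ω).repr x i) := by
  induction x with
  | zero => rw [map_zero, map_zero, Finsupp.zero_apply, map_zero]
  | tmul c a =>
    rw [xg_tmul, Module.Basis.baseChange_repr_tmul, Module.Basis.baseChange_repr_tmul,
      Algebra.smul_def, Algebra.smul_def, map_mul, AlgEquiv.commutes]
  | add x y hx hy =>
    rw [map_add, map_add, map_add, Finsupp.add_apply, Finsupp.add_apply, map_add, hx, hy]

/-- Proof: `bd` with the basis `elB`: the supports are the same. -/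
theorem xi_d (G : Dg F A) (x : M ⊗[F] A) : (G.bc Ω).d (xi F A M Ω x) = (G.bc M).d x := by
  unfold Dg.bc
  rw [Dg.ofBasis_d, Dg.ofBasis_d]
  unfold bd
  have h : ((G.elB.baseChange Ω).repr (xi F A M Ω x)).support =
      ((G.elB.baseChange M).repr x).support := by
    ext i
    rw [Finsupp.mem_support_iff, Finsupp.mem_support_iff, xp1_repr_xi, Ne, Ne,
      FaithfulSMul.algebraMap_eq_zero_iff]
  rw [h]

/-- Proof: `bd` with the basis `elB`: the supports are the same. -/
theorem xg_d (G : Dg F A) (γ : Ω ≃ₐ[F] Ω) (x : Ω ⊗[F] A) :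
    (G.bc Ω).d (xg A γ x) = (G.bc Ω).d x := by
  unfold Dg.bc
  rw [Dg.ofBasis_d, Dg.ofBasis_d]
  unfold bd
  have h : ((G.elB.baseChange Ω).repr (xg A γ x)).support =
      ((G.elB.baseChange Ω).repr x).support := by
    ext i
    rw [Finsupp.mem_support_iff, Finsupp.mem_support_iff, xp1_repr_xg, Ne, Ne,
      map_eq_zero_iff γ γ.injective]
  rw [h]

theorem xg_mul (γ γ' : Ω ≃ₐ[F] Ω) (x : Ω ⊗[F] A) : xg A (γ * γ') x = xg A γ (xg A γ' x) := by
  induction x with
  | zero => rw [map_zero, map_zero, map_zero]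
  | tmul c a => rw [xg_tmul, xg_tmul, xg_tmul, AlgEquiv.mul_apply]
  | add x y hx hy => rw [map_add, map_add, map_add, hx, hy]

/-- The elements which come from `M ⊗ A` are fixed. -/
theorem xg_xi (γ : Ω ≃ₐ[M] Ω) (x : M ⊗[F] A) :
    xg A (γ.restrictScalars F) (xi F A M Ω x) = xi F A M Ω x := by
  induction x with
  | zero => rw [map_zero, map_zero]
  | tmul c a =>
    rw [xi_tmul, xg_tmul]
    have h : (γ.restrictScalars F) (algebraMap M Ω c) = algebraMap M Ω c := γ.commutes c
    rw [h]
  | add x y hx hy => rw [map_add, map_add, hx, hy]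

/-- **Descent of elements.** Proof: the coordinates with respect to a basis of `A` over `F` are fixed by the Galois group, so they are in `M`. -/
theorem xg_fix [CharZero M] [IsAlgClosure M Ω] {x : Ω ⊗[F] A}
    (h : ∀ γ : Ω ≃ₐ[M] Ω, xg A (γ.restrictScalars F) x = x) : ∃ y, xi F A M Ω y = x := by
  have hg : IsGalois M Ω := inferInstance
  have hb := Module.Basis.ofVectorSpace F A
  have h1 : ∀ i, ∃ c : M, algebraMap M Ω c = (hb.baseChange Ω).repr x i := by
    intro i
    have h2 : (hb.baseChange Ω).repr x i ∈ (⊥ : IntermediateField M Ω) := by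
      rw [InfiniteGalois.mem_bot_iff_fixed]
      intro γ
      have h3 := xp1_repr_xg hb (γ.restrictScalars F) x i
      rw [h γ] at h3
      exact h3.symm
    exact IntermediateField.mem_bot.1 h2
  choose c hc using h1
  refine ⟨∑ i ∈ ((hb.baseChange Ω).repr x).support, c i ⊗ₜ[F] hb i, ?_⟩
  rw [map_sum]
  have h4 := (hb.baseChange Ω).linearCombination_repr x
  rw [Finsupp.linearCombination_apply, Finsupp.sum] at h4
  refine Eq.trans (Finset.sum_congr rfl fun i _ => ?_) h4
  rw [xi_tmul, hc, Module.Basis.baseChange_apply, TensorProduct.smul_tmul', smul_eq_mul, mul_one]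

end CV
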