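import Pool.Agent.Lib.MP_f80667_ag.Cv.Xp1

/-!
Descent of functions.
-/

open TensorProduct

namespace CV

variable {F A M Ω : Type} [Field F] [CommRing A] [Algebra F A] [Field M] [Field Ω] [Algebra F M]
  [Algebra M Ω] [Algebra F Ω] [IsScalarTower F M Ω]

private theorem xp2_smul (γ : Ω ≃ₐ[F] Ω) (c : Ω) (x : Ω ⊗[F] A) :
    xg A γ (c • x) = γ c • xg A γ x := by
  rw [Algebra.smul_def, Algebra.smul_def, map_mul]
  congr 1

private theorem xp2_one (x : Ω ⊗[F] A) : xg A ((1 : Ω ≃ₐ[M] Ω).restrictScalars F) x = x := by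
  induction x with
  | zero => simp
  | tmul c a => simp
  | add x y hx hy => rw [map_add, hx, hy]

private theorem xp2_mul (γ γ' : Ω ≃ₐ[M] Ω) (x : Ω ⊗[F] A) :
    xg A ((γ * γ').restrictScalars F) x =
      xg A (γ.restrictScalars F) (xg A (γ'.restrictScalars F) x) := by
  have h : (γ * γ').restrictScalars F = γ.restrictScalars F * γ'.restrictScalars F := by
    ext z; rfl
  rw [h, xg_mul]

private theorem xp2_inj (γ : Ω ≃ₐ[M] Ω) :
    Function.Injective (xg A (γ.restrictScalars F)) := by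
  intro x y h
  have h1 := congrArg (xg A (γ⁻¹.restrictScalars F)) h
  rw [← xp2_mul, ← xp2_mul, inv_mul_cancel, xp2_one, xp2_one] at h1
  exact h1

private theorem xp2_dep (g : Ω ⊗[F] A) : ∃ T : Finset Ω, ∀ γ γ' : Ω ≃ₐ[M] Ω,
    (∀ t ∈ T, γ t = γ' t) →
      xg A (γ.restrictScalars F) g = xg A (γ'.restrictScalars F) g := by
  classical
  induction g with
  | zero => exact ⟨∅, fun γ γ' _ => by simp⟩
  | tmul c a =>
    refine ⟨{c}, fun γ γ' h => ?_⟩
    have h1 := h c (Finset.mem_singleton_self c)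
    rw [xg_tmul, xg_tmul]
    change γ c ⊗ₜ a = γ' c ⊗ₜ a
    rw [h1]
  | add x y hx hy =>
    obtain ⟨T, hT⟩ := hx
    obtain ⟨T', hT'⟩ := hy
    refine ⟨T ∪ T', fun γ γ' h => ?_⟩
    rw [map_add, map_add, hT γ γ' fun t ht => h t (Finset.mem_union_left _ ht),
      hT' γ γ' fun t ht => h t (Finset.mem_union_right _ ht)]

private theorem xp2_fin [IsAlgClosure M Ω] (g : Ω ⊗[F] A) :
    (Set.range fun γ : Ω ≃ₐ[M] Ω => xg A (γ.restrictScalars F) g).Finite := by
  obtain ⟨T, hT⟩ := xp2_dep (M := M) g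
  have halg : Algebra.IsAlgebraic M Ω := IsAlgClosure.isAlgebraic
  set r : (Ω ≃ₐ[M] Ω) → (T → Ω) := fun γ t => γ t with hr
  have h1 : (Set.range r).Finite := by
    refine Set.Finite.subset (s := Set.pi Set.univ fun t : T => (minpoly M (t : Ω)).rootSet Ω)
      (Set.Finite.pi fun t => Polynomial.rootSet_finite _ _) ?_
    rintro _ ⟨γ, rfl⟩ t _
    rw [Polynomial.mem_rootSet]
    refine ⟨minpoly.ne_zero (halg.isAlgebraic (t : Ω)).isIntegral, ?_⟩
    change Polynomial.aeval (γ (t : Ω)) (minpoly M (t : Ω)) = 0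
    have h0 := Polynomial.aeval_algHom_apply (γ : Ω →ₐ[M] Ω) (t : Ω) (minpoly M (t : Ω))
    rw [minpoly.aeval, map_zero] at h0
    exact h0
  have h2 : Function.FactorsThrough (fun γ : Ω ≃ₐ[M] Ω => xg A (γ.restrictScalars F) g) r := by
    intro γ γ' h
    exact hT γ γ' fun t ht => congrFun h ⟨t, ht⟩
  obtain ⟨e, he⟩ := (Function.factorsThrough_iff _).1 h2
  rw [he, Set.range_comp]
  exact h1.image e

/-- Every element of `Ω ⊗ A` divides an element of `M ⊗ A`. Proof: `g` is fixed by a subgroup of finite index (its finitely many coefficients are algebraic over `M`), the product of its finitely many conjugates is fixed by the Galois group (`xg_fix`). -/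
theorem xnorm [CharZero M] [IsAlgClosure M Ω] (G : Dg F A) {g : Ω ⊗[F] A} (hg : g ≠ 0) :
    ∃ y : M ⊗[F] A, y ≠ 0 ∧ g ∣ xi F A M Ω y := by
  classical
  have hdom := (G.bc Ω).isDomain
  have hfin := xp2_fin (M := M) g
  set S : Finset (Ω ⊗[F] A) := hfin.toFinset with hS
  have hmem : ∀ s, s ∈ S ↔ ∃ γ : Ω ≃ₐ[M] Ω, xg A (γ.restrictScalars F) g = s := by
    intro s
    rw [hS, Set.Finite.mem_toFinset]
    rfl
  obtain ⟨y, hy⟩ := xg_fix (M := M) (x := ∏ s ∈ S, s) (by
    intro γ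
    rw [map_prod]
    refine Finset.prod_bij (fun s _ => xg A (γ.restrictScalars F) s) ?_ ?_ ?_ ?_
    · intro s hs
      obtain ⟨γ', rfl⟩ := (hmem s).1 hs
      exact (hmem _).2 ⟨γ * γ', xp2_mul γ γ' g⟩
    · intro s _ t _ h
      exact xp2_inj γ h
    · intro s hs
      obtain ⟨γ', rfl⟩ := (hmem s).1 hs
      refine ⟨xg A ((γ⁻¹ * γ').restrictScalars F) g, (hmem _).2 ⟨γ⁻¹ * γ', rfl⟩, ?_⟩
      rw [← xp2_mul, mul_inv_cancel_left]
    · intro s _
      rfl)
  refine ⟨y, ?_, ?_⟩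
  · rintro rfl
    rw [map_zero] at hy
    obtain ⟨s, hs, hs0⟩ := Finset.prod_eq_zero_iff.1 hy.symm
    obtain ⟨γ, rfl⟩ := (hmem s).1 hs
    apply hg
    apply xp2_inj γ
    rw [hs0, map_zero]
  · rw [hy]
    refine Finset.dvd_prod_of_mem _ ?_
    exact (hmem g).2 ⟨1, xp2_one g⟩

/-- **Descent of functions.** The divisor of `f / g` is fixed by the Galois group of `Ω / M`: then `f / g` is up to a constant a quotient `x / y` of elements of `M ⊗ A`.

Proof. `y` from `xnorm`, `u = y f / g ∈ Ω ⊗ A`, `γ u = c_γ u`. Let `n` be the degree of `u`; there is `e ∈ M ⊗ A` of degree `n` (the degrees of the elements of `Ω ⊗ A` are those of the elements of `A`). For some `c ≠ 0` `u - c e` has degree `< n`; let `u' = u / c`. Then `γ u' - e = γ (u' - e)` has degree `< n`, so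
`γ u' - u'` has degree `< n`, and `γ u'` is a multiple `c' u'`, so `c' = 1`. So `u'` is fixed: `u' = x` (`xg_fix`). -/
theorem xdesc [CharZero M] [IsAlgClosure M Ω] (G : Dg F A) {f g : Ω ⊗[F] A} (hf : f ≠ 0)
    (hg : g ≠ 0) (h : ∀ γ : Ω ≃ₐ[M] Ω, ∃ c : Ω, c ≠ 0 ∧
      xg A (γ.restrictScalars F) f * g = c • (f * xg A (γ.restrictScalars F) g)) :
    ∃ x y : M ⊗[F] A, x ≠ 0 ∧ y ≠ 0 ∧ ∃ c : Ω, c ≠ 0 ∧
      xi F A M Ω x * g = c • (xi F A M Ω y * f) := by
  classical
  have hdom := (G.bc Ω).isDomain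
  obtain ⟨y, hy0, w, hw⟩ := xnorm (M := M) G hg
  have hy1 : xi F A M Ω y ≠ 0 := fun h0 => hy0 (xi_inj (by rw [h0, map_zero]))
  have hw0 : w ≠ 0 := by
    rintro rfl
    rw [mul_zero] at hw
    exact hy1 hw
  have hu0 : w * f ≠ 0 := mul_ne_zero hw0 hf
  have hγ : ∀ γ : Ω ≃ₐ[M] Ω, ∃ c : Ω, xg A (γ.restrictScalars F) (w * f) = c • (w * f) := by
    intro γ
    obtain ⟨c, _, hc⟩ := h γ
    refine ⟨c, ?_⟩
    have h1 : xg A (γ.restrictScalars F) g * xg A (γ.restrictScalars F) w = g * w := by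
      rw [← map_mul, ← hw, xg_xi]
    have hg1 : xg A (γ.restrictScalars F) g ≠ 0 := fun h0 => hg (xp2_inj γ (by rw [h0, map_zero]))
    apply mul_right_cancel₀ (mul_ne_zero hg hg1)
    calc xg A (γ.restrictScalars F) (w * f) * (g * xg A (γ.restrictScalars F) g)
        = (xg A (γ.restrictScalars F) g * xg A (γ.restrictScalars F) w) *
          (xg A (γ.restrictScalars F) f * g) := by rw [map_mul]; ring
      _ = (g * w) * (c • (f * xg A (γ.restrictScalars F) g)) := by rw [h1, hc]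
      _ = c • (w * f) * (g * xg A (γ.restrictScalars F) g) := by
          rw [Algebra.smul_def, Algebra.smul_def]; ring
  obtain ⟨i, c, hc, hi, hi'⟩ := bd_lead (b := G.elB.baseChange Ω) (e := fun n : G.deg => (n : ℕ))
    Subtype.val_injective hu0
  set e : Ω ⊗[F] A := (1 : Ω) ⊗ₜ[F] G.elB i with he
  have hd : ∀ z : Ω ⊗[F] A, (G.bc Ω).d z =
      bd (G.elB.baseChange Ω) (fun n : G.deg => (n : ℕ)) z := fun _ => rfl
  have hbe : G.elB.baseChange Ω i = e := by rw [Module.Basis.baseChange_apply]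
  rw [← hd] at hi hi'
  rw [hbe] at hi'
  have hce : ∀ γ : Ω ≃ₐ[M] Ω, xg A (γ.restrictScalars F) e = e := by
    intro γ
    rw [he, xg_tmul, map_one]
  set u : Ω ⊗[F] A := c⁻¹ • (w * f) with hu
  have hun0 : u ≠ 0 := smul_ne_zero (inv_ne_zero hc) hu0
  have hud : (G.bc Ω).d u = ((i : ℕ) : WithBot ℕ) := by
    rw [hu, (G.bc Ω).smul (inv_ne_zero hc), hi]
  have hue : (G.bc Ω).d (u - e) < ((i : ℕ) : WithBot ℕ) := by
    have h1 : u - e = c⁻¹ • (w * f - c • e) := by
      rw [smul_sub, smul_smul, inv_mul_cancel₀ hc, one_smul]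
    rw [h1, (G.bc Ω).smul (inv_ne_zero hc)]
    exact hi'
  have hfix : ∀ γ : Ω ≃ₐ[M] Ω, xg A (γ.restrictScalars F) u = u := by
    intro γ
    obtain ⟨c', hc'⟩ := hγ γ
    obtain ⟨c1, hc1⟩ : ∃ c1 : Ω, xg A (γ.restrictScalars F) u = c1 • u := by
      refine ⟨γ c⁻¹ * c' * c, ?_⟩
      rw [hu, xp2_smul, hc', smul_smul, smul_smul]
      congr 1
      change γ c⁻¹ * c' = _
      field_simp
    have h1 : (G.bc Ω).d (xg A (γ.restrictScalars F) u - e) < ((i : ℕ) : WithBot ℕ) := by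
      have h2 : xg A (γ.restrictScalars F) u - e = xg A (γ.restrictScalars F) (u - e) := by
        rw [map_sub, hce]
      rw [h2, xg_d]
      exact hue
    have h3 : (G.bc Ω).d ((c1 - 1) • u) < ((i : ℕ) : WithBot ℕ) := by
      have h4 : (c1 - 1) • u = (xg A (γ.restrictScalars F) u - e) - (u - e) := by
        rw [hc1, sub_smul, one_smul]; ring
      rw [h4]
      exact ((G.bc Ω).sub _ _).trans_lt (max_lt h1 hue)
    by_cases h5 : c1 - 1 = 0
    · rw [hc1, sub_eq_zero.1 h5, one_smul]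
    · rw [(G.bc Ω).smul h5, hud] at h3
      exact absurd h3 (lt_irrefl _)
  obtain ⟨x, hx⟩ := xg_fix hfix
  refine ⟨x, y, ?_, hy0, c⁻¹, inv_ne_zero hc, ?_⟩
  · rintro rfl
    rw [map_zero] at hx
    exact hun0 hx.symm
  · rw [hx, hu, hw, Algebra.smul_def, Algebra.smul_def]
    ring

end CV
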