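import Pool.Agent.Lib.MP_f80667_ag.Cv.Xp1
import Pool.Agent.Lib.MP_f80667_ag.Cv.Ded

/-!
The order at a point over `M` and over `Ω`.
-/

open TensorProduct

namespace CV

variable {F A M Ω : Type} [Field F] [CommRing A] [Algebra F A] [Field M] [Field Ω] [Algebra F M]
  [Algebra M Ω] [Algebra F Ω] [IsScalarTower F M Ω]

/-- Proof: `M ⊗ A` is a Dedekind domain (`Dg.ded` for `G.bc M`; `Algebra.Smooth M (M ⊗ A)` by base change), the kernel of `xl M φ` is a maximal ideal (`Ω` is algebraic over `M`), not `0`, so it is generated by one element `t` locally. -/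
theorem xrg [Algebra.IsAlgebraic M Ω] (G : Dg F A) [Algebra.Smooth F A] (φ : A →ₐ[F] Ω) :
    ∃ t : M ⊗[F] A, Rg (xl M φ) t := by
  have hsm : Algebra.Smooth M (M ⊗[F] A) := inferInstance
  have hded : IsDedekindDomain (M ⊗[F] A) := (G.bc M).ded
  have hP : (RingHom.ker (xl M φ)).IsPrime := RingHom.ker_isPrime _
  have h0 : RingHom.ker (xl M φ) ≠ ⊥ := by
    intro hb
    obtain ⟨n₀, hn₀⟩ := (G.bc M).tail
    obtain ⟨x, hx⟩ := hn₀ (n₀ + 1) (by omega)
    obtain ⟨p, hp, hpx⟩ := Algebra.IsAlgebraic.isAlgebraic (R := M) (xl M φ x)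
    rw [Polynomial.aeval_algHom_apply] at hpx
    have h1 : Polynomial.aeval x p ∈ RingHom.ker (xl M φ) := hpx
    rw [hb, Ideal.mem_bot] at h1
    exact (G.bc M).trans hx (by omega) ⟨p, hp, h1⟩
  obtain ⟨t, ht, ht'⟩ := Ideal.exists_mem_pow_notMem_pow_succ (RingHom.ker (xl M φ)) h0
    hP.ne_top 1
  rw [pow_one] at ht
  have h1 : Ideal.span {t} ≤ RingHom.ker (xl M φ) := (Ideal.span_singleton_le_iff_mem _).2 ht
  obtain ⟨J, hJ⟩ := Ideal.dvd_iff_le.2 h1
  have h2 : ¬ J ≤ RingHom.ker (xl M φ) := by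
    intro hle
    apply ht'
    have h3 : Ideal.span {t} ≤ RingHom.ker (xl M φ) ^ (1 + 1) := by
      rw [hJ, pow_succ, pow_one]
      exact Ideal.mul_mono_right hle
    exact h3 (Ideal.mem_span_singleton_self t)
  obtain ⟨s, hs, hs'⟩ := SetLike.not_le_iff_exists.1 h2
  refine ⟨t, ht, s, fun h => hs' h, fun x hx => ?_⟩
  rw [← Ideal.mem_span_singleton, hJ, mul_comm s x]
  exact Ideal.mul_mem_mul hx hs

/-- `xi` is linear over `M`. -/
private noncomputable def xp3j (F A M Ω : Type) [Field F] [CommRing A] [Algebra F A] [Field M]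
    [Field Ω] [Algebra F M] [Algebra M Ω] [Algebra F Ω] [IsScalarTower F M Ω] :
    M ⊗[F] A →ₐ[M] Ω ⊗[F] A :=
  Algebra.TensorProduct.map (Algebra.ofId M Ω) (AlgHom.id F A)

private theorem xp3j_eq (x : M ⊗[F] A) : xp3j F A M Ω x = xi F A M Ω x := by
  induction x with
  | zero => rw [map_zero, map_zero]
  | tmul c a => rfl
  | add x y hx hy => rw [map_add, map_add, hx, hy]

/-- The separability idempotent gives an element `S` of `Ω ⊗ A` with value `1` at `φ` which multiplies `X - X(φ)` into the ideal generated by the kernel of `xl M φ`. -/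
private theorem xp3_elem [CharZero M] [Algebra.IsAlgebraic M Ω] [Algebra.FiniteType M (M ⊗[F] A)]
    (φ : A →ₐ[F] Ω) : ∃ S : Ω ⊗[F] A, xl Ω φ S = 1 ∧ ∀ X : Ω ⊗[F] A,
      (X - xl Ω φ X • 1) * S ∈ Ideal.map (xi F A M Ω) (RingHom.ker (xl M φ)) := by
  classical
  let L : IntermediateField M Ω := (xl M φ).range.toIntermediateField (fun x hx => by
    exact Subalgebra.inv_mem_of_algebraic _ (x := ⟨x, hx⟩) (Algebra.IsAlgebraic.isAlgebraic x))
  let ψ : M ⊗[F] A →ₐ[M] L := (xl M φ).rangeRestrict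
  have hψ : ∀ b, ((ψ b : L) : Ω) = xl M φ b := fun b => rfl
  have hsur : Function.Surjective ψ := AlgHom.rangeRestrict_surjective _
  have hker : ∀ b, b ∈ RingHom.ker ψ ↔ b ∈ RingHom.ker (xl M φ) := by
    intro b
    rw [RingHom.mem_ker, RingHom.mem_ker, ← hψ b]
    exact ⟨fun h => by rw [h]; rfl, fun h => Subtype.ext h⟩
  have hft : Algebra.FiniteType M L := Algebra.FiniteType.of_surjective ψ hsur
  have halg : Algebra.IsAlgebraic M L := inferInstance
  have hsep : Algebra.IsSeparable M L := inferInstance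
  have hunr : Algebra.FormallyUnramified M L := Algebra.FormallyUnramified.of_isSeparable M L
  let q : L ⊗[M] (M ⊗[F] A) →ₐ[M] L ⊗[M] L := Algebra.TensorProduct.map (AlgHom.id M L) ψ
  have hq : Function.Surjective q := by
    exact TensorProduct.map_surjective Function.surjective_id hsur
  obtain ⟨T, hT⟩ := hq (Algebra.FormallyUnramified.elem M L)
  let J : L ⊗[M] (M ⊗[F] A) →ₐ[M] Ω ⊗[F] A :=
    Algebra.TensorProduct.lift
      ((Algebra.TensorProduct.includeLeft : Ω →ₐ[M] Ω ⊗[F] A).comp L.val) (xp3j F A M Ω)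
      (fun _ _ => Commute.all _ _)
  have hJ : ∀ (l : L) (b : M ⊗[F] A), J (l ⊗ₜ b) = (l : Ω) • xi F A M Ω b := by
    intro l b
    change ((l : Ω) ⊗ₜ[F] (1 : A)) * xp3j F A M Ω b = _
    rw [xp3j_eq, Algebra.smul_def]
    rfl
  have hxl : ∀ z : L ⊗[M] (M ⊗[F] A),
      xl Ω φ (J z) = ((Algebra.TensorProduct.lmul' M (q z) : L) : Ω) := by
    intro z
    induction z with
    | zero => rw [map_zero, map_zero, map_zero, map_zero]; rfl
    | tmul l b =>
      rw [hJ, map_smul, xl_xi]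
      change _ = ((Algebra.TensorProduct.lmul' M (l ⊗ₜ ψ b) : L) : Ω)
      rw [Algebra.TensorProduct.lmul'_apply_tmul, MulMemClass.coe_mul, hψ, smul_eq_mul]
    | add x y hx hy => rw [map_add, map_add, map_add, map_add, AddMemClass.coe_add, hx, hy]
  have h1 : xl Ω φ (J T) = 1 := by
    rw [hxl, hT, Algebra.FormallyUnramified.lmul_elem]
    rfl
  have h2 : ∀ z ∈ RingHom.ker q, J z ∈ Ideal.map (xi F A M Ω) (RingHom.ker (xl M φ)) := by
    intro z hz
    have h3 := Algebra.TensorProduct.lTensor_ker (R := M) (A := L) ψ hsur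
    have h4 : z ∈ RingHom.ker (Algebra.TensorProduct.map (AlgHom.id M L) ψ) := hz
    rw [h3] at h4
    have h5 : Ideal.map (Algebra.TensorProduct.includeRight : (M ⊗[F] A) →ₐ[M] L ⊗[M] (M ⊗[F] A))
        (RingHom.ker ψ) ≤ Ideal.comap J (Ideal.map (xi F A M Ω) (RingHom.ker (xl M φ))) := by
      rw [Ideal.map_le_iff_le_comap]
      intro b hb
      rw [Ideal.mem_comap, Ideal.mem_comap]
      change J ((1 : L) ⊗ₜ b) ∈ _
      rw [hJ]
      change (1 : Ω) • _ ∈ _
      rw [one_smul]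
      exact Ideal.mem_map_of_mem _ ((hker b).1 hb)
    exact h5 h4
  refine ⟨J T, h1, fun X => ?_⟩
  induction X with
  | zero => rw [map_zero, zero_smul, sub_zero, zero_mul]; exact Ideal.zero_mem _
  | tmul c a =>
    have h3 : J (((1 : L) ⊗ₜ ((1 : M) ⊗ₜ a) - (ψ ((1 : M) ⊗ₜ a)) ⊗ₜ 1) * T) ∈
        Ideal.map (xi F A M Ω) (RingHom.ker (xl M φ)) := by
      apply h2
      rw [RingHom.mem_ker, map_mul, hT, map_sub]
      have h5 : q ((1 : L) ⊗ₜ ((1 : M) ⊗ₜ a)) = (1 : L) ⊗ₜ ψ ((1 : M) ⊗ₜ a) := rfl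
      have h6 : q ((ψ ((1 : M) ⊗ₜ a)) ⊗ₜ 1) = ψ ((1 : M) ⊗ₜ a) ⊗ₜ ψ 1 := rfl
      rw [h5, h6, map_one]
      exact Algebra.FormallyUnramified.one_tmul_sub_tmul_one_mul_elem (R := M) (S := L)
        (ψ ((1 : M) ⊗ₜ a))
    rw [map_mul, map_sub, hJ, hJ, hψ, xl_tmul, map_one, one_mul, map_one, xi_tmul, map_one] at h3
    have h4 : (c ⊗ₜ[F] a - xl Ω φ (c ⊗ₜ[F] a) • 1) * J T =
        (c ⊗ₜ[F] (1 : A)) * (((((1 : L) : Ω) • ((1 : Ω) ⊗ₜ[F] a)) - φ a • 1) * J T) := by
      rw [← mul_assoc]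
      congr 1
      rw [mul_sub, xl_tmul, Algebra.algebraMap_self, RingHom.id_apply]
      congr 1
      · change _ = (c ⊗ₜ[F] (1 : A)) * ((1 : Ω) • ((1 : Ω) ⊗ₜ[F] a))
        rw [one_smul, Algebra.TensorProduct.tmul_mul_tmul, mul_one, one_mul]
      · rw [mul_smul_comm, mul_one, mul_comm c, mul_smul]
        congr 1
        rw [Algebra.TensorProduct.one_def, TensorProduct.smul_tmul', smul_eq_mul, mul_one]
    rw [h4]
    exact Ideal.mul_mem_left _ _ h3
  | add x y hx hy =>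
    have h3 : (x + y - xl Ω φ (x + y) • 1) * J T =
        (x - xl Ω φ x • 1) * J T + (y - xl Ω φ y • 1) * J T := by
      rw [map_add, add_smul]
      ring
    rw [h3]
    exact Ideal.add_mem _ hx hy

private theorem xp3_ft {K B : Type} [Field K] [CommRing B] [Algebra K B] (G : Dg K B) :
    Algebra.FiniteType K B := by
  obtain ⟨n₀, hn₀⟩ := G.tail
  obtain ⟨x, hx⟩ := hn₀ (n₀ + 1) (by omega)
  have h1 : Module.Finite (Algebra.adjoin K {x}) B := G.fin_adjoin hx (by omega)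
  have h2 : Algebra.FiniteType K (Algebra.adjoin K {x}) := by
    rw [← Subalgebra.fg_iff_finiteType]
    exact ⟨{x}, by rw [Finset.coe_singleton]⟩
  have h3 : Algebra.FiniteType (Algebra.adjoin K {x}) B := inferInstance
  exact Algebra.FiniteType.trans h2 h3

/-- **A local generator over `M` is one over `Ω`.** Proof: let `P` be the kernel of `xl M φ`, `θ ∈ M ⊗ A` such that `xl M φ θ` generates the field `(M ⊗ A) / P ⊆ Ω`, `μ` its minimal polynomial over `M`, `μ = (X - xl M φ θ) μ'` over `Ω`, `s₁ = μ' (θ) ∈ Ω ⊗ A`; `xl Ω φ s₁ ≠ 0` because `μ` is separable.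
Let `x = Σ c_i ⊗ a_i` with `xl Ω φ x = 0`. `1 ⊗ a_i = p_i (θ)` modulo `P`, so `x` is `Q (θ)` modulo the ideal generated by `P`, `Q = Σ c_i p_i ∈ Ω[X]`, and `Q` vanishes at `xl M φ θ`. So `s₁ Q (θ)` is a multiple of `μ (θ)`, `s₁ x` is in the ideal generated by `P`, and `s P ⊆ (t)` for some `s ∈ M ⊗ A` with
`xl M φ s ≠ 0`. (The degree function `G` is used only for: `A` is of finite type; without it the statement is false.) -/
theorem xrg_up [CharZero M] [Algebra.IsAlgebraic M Ω] (G : Dg F A) {φ : A →ₐ[F] Ω}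
    {t : M ⊗[F] A} (h : Rg (xl M φ) t) : Rg (xl Ω φ) (xi F A M Ω t) := by
  have hft : Algebra.FiniteType M (M ⊗[F] A) := xp3_ft (G.bc M)
  obtain ⟨ht, s, hs, hdiv⟩ := h
  obtain ⟨S, hS, hSX⟩ := xp3_elem (M := M) φ
  refine ⟨by rw [xl_xi]; exact ht, xi F A M Ω s * S, ?_, fun X hX => ?_⟩
  · rw [map_mul, hS, mul_one, xl_xi]
    exact hs
  · have h1 := hSX X
    rw [hX, zero_smul, sub_zero] at h1
    have h2 : ∀ y ∈ Ideal.map (xi F A M Ω) (RingHom.ker (xl M φ)),
        xi F A M Ω t ∣ xi F A M Ω s * y := by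
      intro y hy
      refine Submodule.span_induction ?_ ?_ ?_ ?_ hy
      · rintro _ ⟨b, hb, rfl⟩
        have h3 := map_dvd (xi F A M Ω) (hdiv b hb)
        rwa [map_mul] at h3
      · rw [mul_zero]
        exact dvd_zero _
      · intro a b _ _ ha hb
        rw [mul_add]
        exact dvd_add ha hb
      · intro c b _ hb
        rw [smul_eq_mul, mul_left_comm]
        exact Dvd.dvd.mul_left hb c
    have h3 := h2 _ h1
    rwa [mul_comm X S, ← mul_assoc] at h3

/-- Proof: `od_spec`, `xrg_up`, `od_eq`. -/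
theorem xod [CharZero M] [IsAlgClosure M Ω] (G : Dg F A) [Algebra.Smooth F A] (φ : A →ₐ[F] Ω)
    {x : M ⊗[F] A} (hx : x ≠ 0) : od (xl M φ) x = od (xl Ω φ) (xi F A M Ω x) := by
  have halg : Algebra.IsAlgebraic M Ω := IsAlgClosure.isAlgebraic
  obtain ⟨t, ht⟩ := xrg (M := M) G φ
  obtain ⟨s, s', hs, hs', e⟩ := (G.bc M).od_spec ht hx
  symm
  apply (G.bc Ω).od_eq (xrg_up G ht)
  refine ⟨xi F A M Ω s, xi F A M Ω s', by rw [xl_xi]; exact hs, by rw [xl_xi]; exact hs', ?_⟩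
  rw [← map_mul, e, map_mul, map_pow]

end CV
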