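import Pool.Agent.Lib.MP_f80667_ag.Cv.Xp2
import Pool.Agent.Lib.MP_f80667_ag.Cv.Xp3
import Pool.Agent.Lib.MP_f80667_ag.Cv.CyG

/-!
The order of a function at a point and the cycle of the function; functions of Galois invariant principal cycles.
-/

open ZC BE PE Polynomial TensorProduct IntermediateField

namespace CV

variable {F : Type} [Field F] {C : Crv F}

instance xtow {K Ω : Type} [Field K] [Field Ω] [Algebra K Ω] [Algebra F K] [Algebra F Ω]
    [IsScalarTower F K Ω] (M : IntermediateField K Ω) : IsScalarTower F M Ω :=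
  IsScalarTower.of_algebraMap_eq fun _ => rfl

theorem vx_xl {Ω : Type} [Field Ω] [Algebra F Ω] (φ : C.A →ₐ[F] Ω) (x : Ω ⊗[F] C.A) :
    xl Ω φ x = vx φ x := by
  induction x with
  | zero => rw [map_zero, map_zero]
  | tmul c a => rw [xl_tmul, vx_tmul]; rfl
  | add x y hx hy => rw [map_add, map_add, hx, hy]

/-- The cycle of a function. Proof: `Rg (xl Ω φ) t` (`xrg`), `Lu f (t ^ n)`, `n = od f` (`od_spec`): `s f = s' t ^ n`, `s`, `s' ∉ mx φ`. `span {f} ≤ mx φ ^ k` iff `k ≤ n`: the elements outside `mx φ` are units modulo `mx φ ^ k`; `mx φ ^ k` is `(t ^ k)` up to elements outside of `mx φ`. `cy_pow`. -/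
theorem cy_od {Ω : Type} [Field Ω] [Algebra F Ω] [CharZero Ω] [IsAlgClosed Ω] {f : Ω ⊗[F] C.A} (hf : f ≠ 0)
    (φ : C.A →ₐ[F] Ω) : cy (Ideal.span {f}) (some φ) = od (xl Ω φ) f := by
  have hsm := C.sm
  have hded := C.dedO Ω
  have hdom := C.domO Ω
  have hmax := mx_max φ
  have hpr : (mx φ).IsPrime := hmax.isPrime
  have hmem : ∀ x : Ω ⊗[F] C.A, x ∈ mx φ ↔ xl Ω φ x = 0 := by
    intro x
    rw [mem_mx, vx_xl]
  obtain ⟨t, ht⟩ := xrg (M := Ω) C.G φ
  obtain ⟨s, s', hs, hs', e⟩ := (C.G.bc Ω).od_spec ht hf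
  have ht0 : t ≠ 0 := (C.G.bc Ω).rg_ne ht
  have hI : (Ideal.span {f} : Ideal (Ω ⊗[F] C.A)) ≠ ⊥ := by
    rw [Ne, Ideal.span_singleton_eq_bot]
    exact hf
  have htm : t ∈ mx φ := (hmem t).2 ht.1
  have h1 : Ideal.span {f} ≤ mx φ ^ od (xl Ω φ) f := by
    rw [Ideal.span_singleton_le_iff_mem]
    have h2 : s * f ∈ mx φ ^ od (xl Ω φ) f := by
      rw [e]
      exact Ideal.mul_mem_left _ _ (Ideal.pow_mem_pow htm _)
    rcases Ideal.IsPrime.mul_mem_pow (mx φ) h2 with h3 | h3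
    · exact absurd ((hmem s).1 h3) hs
    · exact h3
  have h2 : ¬ Ideal.span {f} ≤ mx φ ^ (od (xl Ω φ) f + 1) := by
    rw [Ideal.span_singleton_le_iff_mem]
    intro hfm
    have h3 : s' * t ^ od (xl Ω φ) f ∈ mx φ ^ (od (xl Ω φ) f + 1) := by
      rw [← e]
      exact Ideal.mul_mem_left _ _ hfm
    have h4 : t ^ od (xl Ω φ) f ∈ mx φ ^ (od (xl Ω φ) f + 1) := by
      rcases Ideal.IsPrime.mul_mem_pow (mx φ) h3 with h5 | h5
      · exact absurd ((hmem s').1 h5) hs'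
      · exact h5
    obtain ⟨-, σ, hσ, hdiv⟩ := ht
    have h5 : Ideal.span {σ} * mx φ ≤ Ideal.span {t} := by
      rw [Ideal.mul_le]
      intro r hr y hy
      obtain ⟨r', rfl⟩ := Ideal.mem_span_singleton'.1 hr
      rw [mul_assoc]
      exact Ideal.mul_mem_left _ _ (Ideal.mem_span_singleton.2 (hdiv y ((hmem y).1 hy)))
    have h6 : Ideal.span {σ ^ (od (xl Ω φ) f + 1)} * mx φ ^ (od (xl Ω φ) f + 1) ≤
        Ideal.span {t ^ (od (xl Ω φ) f + 1)} := by
      rw [← Ideal.span_singleton_pow, ← Ideal.span_singleton_pow, ← mul_pow]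
      exact Ideal.pow_right_mono h5 _
    have h7 := h6 (Ideal.mul_mem_mul (Ideal.mem_span_singleton_self _) h4)
    rw [Ideal.mem_span_singleton] at h7
    obtain ⟨y, hy⟩ := h7
    have h8 : t ^ od (xl Ω φ) f * σ ^ (od (xl Ω φ) f + 1) = t ^ od (xl Ω φ) f * (t * y) := by
      rw [mul_comm, hy, pow_succ]
      ring
    have h9 := congrArg (xl Ω φ) (mul_left_cancel₀ (pow_ne_zero _ ht0) h8)
    rw [map_pow, map_mul, (hmem t).1 htm, zero_mul] at h9
    exact pow_ne_zero _ hσ h9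
  rw [cy_pow hI φ] at h1 h2
  push_cast at h2
  omega

variable {K Ω : Type} [Field K] [CharZero K] [Field Ω] [Algebra K Ω] [Algebra F K] [Algebra F Ω]
  [IsScalarTower F K Ω] [IsAlgClosure K Ω] (M : IntermediateField K Ω)

omit [CharZero K] [IsAlgClosure K Ω] in
private theorem xp4_gA (γ : Ω ≃ₐ[K] Ω) (x : Ω ⊗[F] C.A) :
    gA C γ x = xg C.A (γ.restrictScalars F) x := by
  induction x with
  | zero => rw [map_zero, map_zero]
  | tmul c a => rw [gA_tmul, xg_tmul]; rfl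
  | add x y hx hy => rw [map_add, map_add, hx, hy]

/-- **The functions of a Galois invariant principal cycle.**

Proof. `mem_Pc`: `(f) idl (-z) = (g) idl z`. (1) `cy`: `cy (f) + pp (-z) = cy (g) + pp z` (`idl_pp`, `cy_idl`, `cy_mul`), and `pp z - pp (-z) = z` outside of `∞` (`pp_some`); `cy_od`. (2) For `γ ∈ M.fixingSubgroup` the ideals `idl z`, `idl (-z)` are mapped to themselves (`gA_idl`, the invariance), so
`(γ f) idl (-z) = (γ g) idl z` (`gA_span`), hence `(γ f g) idl z idl (-z) = (f γ g) idl z idl (-z)`, `(γ f g) = (f γ g)` (Dedekind domain, `idl_ne_bot`), `γ f g = u f γ g` with a unit `u`; the units are constants (degree `0`, `Dg.const`). `gA` and `xg` are the same map (`gA_tmul`, `xg_tmul`). -/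
theorem pc_inv {z : C.V.pt Ω →₀ ℤ} (hz : z ∈ Pc C Ω)
    (h : ∀ γ ∈ M.fixingSubgroup, Finsupp.mapDomain (C.V.act γ) z = z) :
    ∃ f g : Ω ⊗[F] C.A, f ≠ 0 ∧ g ≠ 0 ∧
      (∀ φ : C.A →ₐ[F] Ω, z (some φ) = (od (xl Ω φ) f : ℤ) - od (xl Ω φ) g) ∧
      ∀ γ : Ω ≃ₐ[K] Ω, γ ∈ M.fixingSubgroup → ∃ c : Ω, c ≠ 0 ∧
        xg C.A (γ.restrictScalars F) f * g = c • (f * xg C.A (γ.restrictScalars F) g) := by
  have hcl : IsAlgClosed Ω := IsAlgClosure.isAlgClosed K
  have hch : CharZero Ω := charZero_of_injective_algebraMap (algebraMap K Ω).injective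
  have hded := C.dedO Ω
  have hdom := C.domO Ω
  obtain ⟨-, f, g, hf, hg, hfg⟩ := mem_Pc.1 hz
  have hsp : ∀ {w : Ω ⊗[F] C.A}, w ≠ 0 → (Ideal.span {w} : Ideal (Ω ⊗[F] C.A)) ≠ ⊥ := by
    intro w hw
    rw [Ne, Ideal.span_singleton_eq_bot]
    exact hw
  refine ⟨f, g, hf, hg, fun φ => ?_, fun γ hγ => ?_⟩
  · have h1 := congrArg cy hfg
    rw [cy_mul (hsp hf) (idl_ne_bot _), cy_mul (hsp hg) (idl_ne_bot _), ← idl_pp z,
      ← idl_pp (-z), cy_idl (pp_efc _), cy_idl (pp_efc _)] at h1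
    have h2 : ∀ x : C.V.pt Ω, cy (Ideal.span {f}) x + zp (-z) x = cy (Ideal.span {g}) x + zp z x := by
      intro x
      have h3 := DFunLike.congr_fun h1 x
      rwa [Finsupp.add_apply, Finsupp.add_apply] at h3
    have h3 : zp (-z) (some φ) = max (-(z (some φ))) 0 := pp_some (-z) φ
    have h4 := h2 (some φ)
    rw [h3, pp_some, cy_od hf, cy_od hg] at h4
    omega
  · have h0 : Finsupp.mapDomain (C.V.act γ) (-z) = -z := by
      have h1 : Finsupp.mapDomain (C.V.act γ) (-z) = -Finsupp.mapDomain (C.V.act γ) z :=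
        map_neg (Finsupp.mapDomain.addMonoidHom (M := ℤ) (C.V.act γ)) z
      rw [h1, h γ hγ]
    have h1 := congrArg (Ideal.map (gA C γ)) hfg
    rw [Ideal.map_mul, Ideal.map_mul, gA_span, gA_span, gA_idl, gA_idl, h γ hγ, h0] at h1
    have hJ : idl C z * idl C (-z) ≠ 0 := mul_ne_zero (idl_ne_bot z) (idl_ne_bot (-z))
    have h2 : Ideal.span {f * gA C γ g} = Ideal.span {gA C γ f * g} := by
      refine mul_right_cancel₀ hJ ?_
      rw [← Ideal.span_singleton_mul_span_singleton, ← Ideal.span_singleton_mul_span_singleton]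
      calc Ideal.span {f} * Ideal.span {gA C γ g} * (idl C z * idl C (-z))
          = (Ideal.span {f} * idl C (-z)) * (Ideal.span {gA C γ g} * idl C z) := by ring
        _ = (Ideal.span {g} * idl C z) * (Ideal.span {gA C γ f} * idl C (-z)) := by rw [hfg, h1]
        _ = _ := by ring
    rw [Ideal.span_singleton_eq_span_singleton] at h2
    obtain ⟨u, hu⟩ := h2
    have hu0 : (u : Ω ⊗[F] C.A) ≠ 0 := u.ne_zero
    have hu1 : ((u⁻¹ : (Ω ⊗[F] C.A)ˣ) : Ω ⊗[F] C.A) ≠ 0 := u⁻¹.ne_zero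
    obtain ⟨m, hm⟩ := (C.dgO Ω).exists_nat hu0
    obtain ⟨n, hn⟩ := (C.dgO Ω).exists_nat hu1
    have h3 := (C.dgO Ω).mul (u : Ω ⊗[F] C.A) ((u⁻¹ : (Ω ⊗[F] C.A)ˣ) : Ω ⊗[F] C.A)
    rw [Units.mul_inv, (C.dgO Ω).one, hm, hn, ← Nat.cast_add, ← Nat.cast_zero, Nat.cast_inj] at h3
    have h4 : (C.dgO Ω).d (u : Ω ⊗[F] C.A) ≤ 0 := by
      rw [hm, ← Nat.cast_zero, Nat.cast_le]
      omega
    obtain ⟨c, hc⟩ := (C.dgO Ω).const h4
    refine ⟨c, ?_, ?_⟩
    · rintro rfl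
      rw [map_zero] at hc
      exact hu0 hc
    · rw [← xp4_gA, ← xp4_gA, ← hu, hc, Algebra.smul_def, mul_comm]

/-- **Descent.** Proof: `pc_inv`, `xdesc` for `M`, `xod`, `od_mul` (`C.G.bc Ω`, `xrg`). -/
theorem pc_desc [FiniteDimensional K M] {z : C.V.pt Ω →₀ ℤ} (hz : z ∈ Pc C Ω)
    (h : ∀ γ ∈ M.fixingSubgroup, Finsupp.mapDomain (C.V.act γ) z = z) :
    ∃ x y : M ⊗[F] C.A, x ≠ 0 ∧ y ≠ 0 ∧
      ∀ φ : C.A →ₐ[F] Ω, z (some φ) = (od (xl M φ) x : ℤ) - od (xl M φ) y := by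
  have hsm := C.sm
  have hcl : IsAlgClosed Ω := IsAlgClosure.isAlgClosed K
  have hch : CharZero M := charZero_of_injective_algebraMap (algebraMap K M).injective
  have halg : Algebra.IsAlgebraic K Ω := IsAlgClosure.isAlgebraic
  have halM : Algebra.IsAlgebraic M Ω := Algebra.IsAlgebraic.tower_top (K := K) M
  have hac : IsAlgClosure M Ω := ⟨hcl, halM⟩
  have hdom := C.domO Ω
  obtain ⟨f, g, hf, hg, hod, hγ⟩ := pc_inv M hz h
  obtain ⟨x, y, hx, hy, c, hc, e⟩ := xdesc (M := M) C.G hf hg (by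
    intro γ
    exact hγ (γ.restrictScalars K) (by
      rw [IntermediateField.mem_fixingSubgroup_iff]
      intro m hm
      exact γ.commutes ⟨m, hm⟩))
  refine ⟨x, y, hx, hy, fun φ => ?_⟩
  have hx1 : xi F C.A M Ω x ≠ 0 := fun h0 => hx (xi_inj (by rw [h0, map_zero]))
  have hy1 : xi F C.A M Ω y ≠ 0 := fun h0 => hy (xi_inj (by rw [h0, map_zero]))
  obtain ⟨t, ht⟩ := xrg (M := Ω) C.G φ
  have h1 : od (xl Ω φ) (xi F C.A M Ω x * g) = od (xl Ω φ) (xi F C.A M Ω y * f) := by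
    refine (C.G.bc Ω).od_lu ht (mul_ne_zero hx1 hg) (mul_ne_zero hy1 hf) ?_
    refine ⟨1, algebraMap Ω _ c, by rw [map_one]; exact one_ne_zero, ?_, ?_⟩
    · rw [AlgHom.commutes]
      exact hc
    · rw [one_mul, e, Algebra.smul_def]
  rw [(C.G.bc Ω).od_mul ht hx1 hg, (C.G.bc Ω).od_mul ht hy1 hf, ← xod C.G φ hx,
    ← xod C.G φ hy] at h1
  rw [hod φ]
  omega

end CV
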