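import Pool.Agent.Lib.MP_f80667_ag.Cv.DgT
import Pool.Agent.Lib.MP_f80667_ag.Cv.Od

/-!
Base change of an `F`-algebra `A` with a degree function to the fields `M ⊆ Ω`: the map `M ⊗ A → Ω ⊗ A`, the action of the
automorphisms of `Ω`, the homomorphisms to `Ω`.
-/

open TensorProduct

namespace CV

section

variable {F A M Ω : Type} [Field F] [CommRing A] [Algebra F A] [Field M] [Field Ω] [Algebra F M]
  [Algebra M Ω] [Algebra F Ω] [IsScalarTower F M Ω]

variable (F A M Ω) in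
/-- The map `M ⊗ A → Ω ⊗ A`. -/
noncomputable def xi : M ⊗[F] A →ₐ[F] Ω ⊗[F] A :=
  Algebra.TensorProduct.map (IsScalarTower.toAlgHom F M Ω) (AlgHom.id F A)

variable (A) in
/-- The action of an automorphism of `Ω` on `Ω ⊗ A`. -/
noncomputable def xg (γ : Ω ≃ₐ[F] Ω) : Ω ⊗[F] A →ₐ[F] Ω ⊗[F] A :=
  Algebra.TensorProduct.map (γ : Ω →ₐ[F] Ω) (AlgHom.id F A)

variable (M) in
/-- The homomorphism of `M ⊗ A` over `M`. -/
noncomputable def xl (φ : A →ₐ[F] Ω) : M ⊗[F] A →ₐ[M] Ω :=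
  Algebra.TensorProduct.lift (Algebra.ofId M Ω) φ fun _ _ => Commute.all _ _

@[simp] theorem xi_tmul (c : M) (a : A) : xi F A M Ω (c ⊗ₜ a) = algebraMap M Ω c ⊗ₜ a := rfl

@[simp] theorem xg_tmul (γ : Ω ≃ₐ[F] Ω) (c : Ω) (a : A) : xg A γ (c ⊗ₜ a) = γ c ⊗ₜ a := rfl

@[simp] theorem xl_tmul (φ : A →ₐ[F] Ω) (c : M) (a : A) :
    xl M φ (c ⊗ₜ a) = algebraMap M Ω c * φ a := by
  simp [xl, Algebra.ofId_apply]

theorem xi_inj : Function.Injective (xi F A M Ω) := by
  have h : Function.Injective ((IsScalarTower.toAlgHom F M Ω).toLinearMap.rTensor A) :=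
    Module.Flat.rTensor_preserves_injective_linearMap _ (algebraMap M Ω).injective
  exact h

theorem xl_xi (φ : A →ₐ[F] Ω) (x : M ⊗[F] A) : xl Ω φ (xi F A M Ω x) = xl M φ x := by
  induction x with
  | zero => simp
  | tmul c a => simp
  | add x y hx hy => rw [map_add, map_add, map_add, hx, hy]

/-- Every homomorphism over `M` comes from one over `F`. -/
theorem exists_xl (ψ : M ⊗[F] A →ₐ[M] Ω) : ∃ φ : A →ₐ[F] Ω, ψ = xl M φ := by
  refine ⟨(ψ.restrictScalars F).comp Algebra.TensorProduct.includeRight, ?_⟩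
  apply Algebra.TensorProduct.ext
  · ext
  · ext a
    simp

theorem xl_inj {φ φ' : A →ₐ[F] Ω} (h : xl M φ = xl M φ') : φ = φ' := by
  ext a
  have := congrArg (fun f => f (1 ⊗ₜ a)) h
  simpa using this

end

end CV
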